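import Pool.Agent.PTH.Alg
import Pool.Agent.RG.LSD
import Pool.Agent.PSK.Def

/-!
# PTH: definitions

P_2 with a thin set of small factors in intervals `(x, x + x^(1/2-δ))`.
-/

set_option autoImplicit false

namespace Pool.Agent.PTH

open Finset

/-- `e(x) = exp(2 π i x)` -/
noncomputable def ec (x : ℝ) : ℂ := Complex.exp (((2 * Real.pi * x : ℝ) : ℂ) * Complex.I)

open scoped Classical in
/-- indicator function of the integers without prime factors `< z` -/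
noncomputable def ind (z m : ℕ) : ℝ := if ∀ p : ℕ, p.Prime → p < z → ¬ p ∣ m then 1 else 0

/-- the box `i`: the primes in `[b i, b (i+1))` -/
def Bp (b : ℕ → ℕ) (i : ℕ) : Finset ℕ := (Ico (b i) (b (i + 1))).filter Nat.Prime

/-- the sum of `1/p` over the box `i` -/
noncomputable def gs (b : ℕ → ℕ) (i : ℕ) : ℝ := ∑ p ∈ Bp b i, 1 / (p : ℝ)

/-- the end points of the boxes, `i ≤ J` -/
structure BS (b : ℕ → ℕ) (ρ : ℝ) (J : ℕ) : Prop where
  two : 2 ≤ b 0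
  mono : Monotone b
  ratio : ∀ i, i < J → (b (i + 1) : ℝ) ≤ (b i : ℝ) ^ (1 + ρ)

/-- `l` can be split into two parts with products of end points `≤ M`, `≤ N`, whenever `D ≤ M N` -/
def WF (b : ℕ → ℕ) (D : ℝ) (l : List ℕ) : Prop :=
  ∀ M N : ℝ, 1 ≤ M → 1 ≤ N → D ≤ M * N → ∃ l1 l2 : List ℕ, l.Perm (l1 ++ l2) ∧
    (l1.map (fun i => (b (i + 1) : ℝ))).prod ≤ M ∧ (l2.map (fun i => (b (i + 1) : ℝ))).prod ≤ N

/-- `B_{i1} * ... * B_{ir} * λ` -/
noncomputable def term (b : ℕ → ℕ) (l : List ℕ) (lam : SA) : SA :=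
  (l.map (fun i => bx (Bp b i))).prod * lam

/-- `f` is a signed sum of at most `c` terms, with `lp` or `lm` as last factor -/
def Dec (b : ℕ → ℕ) (lp lm : SA) (c : ℕ) (D : ℝ) (f : SA) : Prop :=
  ∃ T : List (Bool × Bool × List ℕ), T.length ≤ c ∧
    f = (T.map (fun t => (if t.1 then (1 : ℝ) else -1) •
      term b t.2.2 (if t.2.1 then lp else lm))).sum ∧
    ∀ t ∈ T, t.2.2.length ≤ c ∧ WF b D t.2.2

/-- number of terms -/
def cc : ℕ → ℕ
  | 0 => 1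
  | n + 1 => 1 + (n + 1) * (cc n + 1)

/-- size of the accumulated error -/
noncomputable def EE (b : ℕ → ℕ) (j : ℕ) : ℝ := RG.V (b 0) * ∏ i ∈ range j, (1 + 2 * gs b i)

/-- weights of the small primes: coefficients bounded by one, `d ≤ X`, all prime factors `< z` -/
def FLp (X : ℝ) (z : ℕ) (f : SA) : Prop :=
  (∀ d, |f.coeff d| ≤ 1) ∧
    ∀ d, f.coeff d ≠ 0 → 1 ≤ d ∧ (d : ℝ) ≤ X ∧ ∀ p : ℕ, p.Prime → p ∣ d → p < z

/-- the smooth weight on `(N, N + r H)` -/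
noncomputable def spw (r N H n : ℕ) : ℝ :=
  ((univ : Finset (Fin r → Fin H)).filter
    (fun v => N + 1 + ∑ i, (v i : ℕ) = n)).card / (H : ℝ) ^ (r - 1)

/-- the weighted number of multiples of `d` -/
noncomputable def AAd (r N H d : ℕ) : ℝ :=
  ∑ n ∈ (PSK.JH N (r * H)).filter (fun n => d ∣ n), spw r N H n

/-- the remainder -/
noncomputable def rr (r N H d : ℕ) : ℝ := AAd r N H d - (H : ℝ) / d

/-- `⌊N^(29/200)⌋` -/
noncomputable def zz (N : ℕ) : ℕ := ⌊(N : ℝ) ^ (29 / 200 : ℝ)⌋₊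

/-- end points of the boxes of the sieve -/
noncomputable def bz (R0 j0 N i : ℕ) : ℕ :=
  ⌊(N : ℝ) ^ ((29 / 200 : ℝ) * ((j0 + i : ℕ) : ℝ) / ((R0 * j0 : ℕ) : ℝ))⌋₊

/-- end points of the Richert boxes -/
noncomputable def yq (N i : ℕ) : ℕ := ⌊(N : ℝ) ^ ((i : ℝ) / 200)⌋₊

/-- `τ_i` -/
noncomputable def tq (i : ℕ) : ℝ := ((min (115 - i) (197 - 2 * i) : ℕ) : ℝ) / 200

/-- `⌊N^(1/2-δ)⌋` -/
noncomputable def hd (δ : ℝ) (N : ℕ) : ℕ := ⌊(N : ℝ) ^ (1 / 2 - δ)⌋₊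

end Pool.Agent.PTH
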