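import Pool.Agent.PTH.Sig
import Pool.Agent.PTH.Sq2

/-!
# PTH / P2n: many primes or products of two primes in `(N, N + N^(1/2-δ))`

`r = 5000`, `h = hd δ N = ⌊N^(1/2-δ)⌋`, `H = h/r` (natural division): `r H ≤ h ≤ N`,
`H ≥ N^(1/2-δ)/r - 2 ≥ N^(1/2 - 1/50000)` for large `N` (`δ ≤ 1/100000`), `JH N (rH) ⊆ JH N h`.
In the sum of `sig_lower` a term is `≤ 1` (`spw_le_one`, `Wr_le_one`) and `≤ 0` unless `n` is not squarefree
(then, having no prime factor `< zz N`, it is counted by `few_sq2`) or `n` is one of the integers to be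
counted (`Wr_nonpos`; the terms with `ind = 0` vanish).  So the number is
`≥ c H/log N - N^0.4992 ≥ (c/(3 r)) N^(1/2-δ)/log N`.
-/

set_option autoImplicit false

namespace Pool.Agent.PTH

open Finset Real Filter

open scoped Classical in
/-- the number of the integers to be counted, from the weighted sum -/
private theorem p2_cnt (N H : ℕ) (hH : 1 ≤ H) (hN : 5000 * H ≤ N)
    (hW : ∀ n : ℕ, N < n → n ≤ 2 * N → ind (zz N) n = 1 →
      Squarefree n → ¬ n.Prime →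
      (¬ ∃ p q : ℕ, p.Prime ∧ q.Prime ∧ zz N ≤ p ∧ p < q ∧ n = p * q) → Wr N n ≤ 0) :
    ∑ n ∈ PSK.JH N (5000 * H), spw 5000 N H n * (ind (zz N) n * Wr N n) ≤
      (((PSK.JH N (5000 * H)).filter
        (fun n => ∃ p : ℕ, p.Prime ∧ zz N ≤ p ∧ p ^ 2 ∣ n)).card : ℝ) +
      (((PSK.JH N (5000 * H)).filter (fun n => n.Prime ∨
        ∃ p q : ℕ, p.Prime ∧ q.Prime ∧ zz N ≤ p ∧ p < q ∧ n = p * q)).card : ℝ) := by
  rw [← sum_boole, ← sum_boole, ← sum_add_distrib]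
  refine sum_le_sum fun n hn => ?_
  have hn1 : N < n ∧ n < N + 5000 * H := by
    unfold PSK.JH at hn
    exact mem_Ioo.1 hn
  have h0 := spw_nonneg 5000 N H n
  have h1 := spw_le_one 5000 N H n (by norm_num) hH
  have hr : (0 : ℝ) ≤ (if ∃ p : ℕ, p.Prime ∧ zz N ≤ p ∧ p ^ 2 ∣ n then (1 : ℝ) else 0) := by
    split_ifs <;> norm_num
  have hr2 : (0 : ℝ) ≤ (if (n.Prime ∨
      ∃ p q : ℕ, p.Prime ∧ q.Prime ∧ zz N ≤ p ∧ p < q ∧ n = p * q) then (1 : ℝ) else 0) := by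
    split_ifs <;> norm_num
  by_cases hi : ∀ p : ℕ, p.Prime → p < zz N → ¬ p ∣ n
  · have hi1 : ind (zz N) n = 1 := if_pos hi
    rw [hi1, one_mul]
    have hle : spw 5000 N H n * Wr N n ≤ 1 :=
      (mul_le_mul_of_nonneg_left (Wr_le_one N n) h0).trans (by rw [mul_one]; exact h1)
    by_cases h2 : n.Prime ∨ ∃ p q : ℕ, p.Prime ∧ q.Prime ∧ zz N ≤ p ∧ p < q ∧ n = p * q
    · rw [if_pos h2]
      linarith
    · push Not at h2
      by_cases hs : Squarefree n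
      · have h3 : Wr N n ≤ 0 := by
          refine hW n hn1.1 (by omega) hi1 hs h2.1 ?_
          rintro ⟨p, q, hp, hq, hz, hpq, he⟩
          exact h2.2 p q hp hq hz hpq he
        have h4 : spw 5000 N H n * Wr N n ≤ 0 := mul_nonpos_of_nonneg_of_nonpos h0 h3
        linarith
      · rw [Nat.squarefree_iff_prime_squarefree] at hs
        push Not at hs
        obtain ⟨p, hp, hpn⟩ := hs
        have hpz : zz N ≤ p := by
          by_contra h5
          push Not at h5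
          exact hi p hp h5 (dvd_of_mul_right_dvd hpn)
        have h6 : ∃ p : ℕ, p.Prime ∧ zz N ≤ p ∧ p ^ 2 ∣ n := ⟨p, hp, hpz, by rw [sq]; exact hpn⟩
        rw [if_pos h6]
        linarith
  · have hi0 : ind (zz N) n = 0 := if_neg hi
    rw [hi0, zero_mul, mul_zero]
    linarith

/-- the eventual inequalities -/
private theorem p2_ev (c : ℝ) (hc : 0 < c) : ∀ᶠ N : ℕ in atTop, 2 ≤ N ∧
    (10000 : ℝ) ≤ (N : ℝ) ^ (1 / 100000 : ℝ) ∧
    (20000 : ℝ) ≤ (N : ℝ) ^ (1 / 2 - 1 / 100000 : ℝ) ∧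
    Real.log N ≤ c * (N : ℝ) ^ (79 / 100000 : ℝ) := by
  have h1 : ∀ᶠ N : ℕ in atTop, (10000 : ℝ) ≤ (N : ℝ) ^ (1 / 100000 : ℝ) :=
    ((tendsto_rpow_atTop (by norm_num : (0 : ℝ) < 1 / 100000)).comp
      tendsto_natCast_atTop_atTop).eventually_ge_atTop 10000
  have h2 : ∀ᶠ N : ℕ in atTop, (20000 : ℝ) ≤ (N : ℝ) ^ (1 / 2 - 1 / 100000 : ℝ) :=
    ((tendsto_rpow_atTop (by norm_num : (0 : ℝ) < 1 / 2 - 1 / 100000)).comp
      tendsto_natCast_atTop_atTop).eventually_ge_atTop 20000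
  have h3 : ∀ᶠ x : ℝ in atTop, ‖Real.log x‖ ≤ c * ‖x ^ (79 / 100000 : ℝ)‖ :=
    (isLittleO_log_rpow_atTop (by norm_num : (0 : ℝ) < 79 / 100000)).bound hc
  have h4 : ∀ᶠ N : ℕ in atTop,
      ‖Real.log (N : ℝ)‖ ≤ c * ‖(N : ℝ) ^ (79 / 100000 : ℝ)‖ :=
    tendsto_natCast_atTop_atTop.eventually h3
  filter_upwards [h1, h2, h4, eventually_ge_atTop 2] with N a1 a2 a3 a4
  refine ⟨a4, a1, a2, ?_⟩
  have h5 : (0 : ℝ) ≤ (N : ℝ) ^ (79 / 100000 : ℝ) := by positivity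
  rw [Real.norm_of_nonneg h5] at a3
  exact (le_abs_self _).trans a3

open scoped Classical in
theorem p2_lower : ∃ c : ℝ, 0 < c ∧ ∀ δ : ℝ, 0 < δ → δ ≤ 1 / 100000 → ∀ᶠ N : ℕ in atTop,
    c * (N : ℝ) ^ (1 / 2 - δ) / log N ≤
      (((PSK.JH N (hd δ N)).filter (fun n => n.Prime ∨
        ∃ p q : ℕ, p.Prime ∧ q.Prime ∧ zz N ≤ p ∧ p < q ∧ n = p * q)).card : ℝ) := by
  obtain ⟨c, hc, hsig⟩ := sig_lower 5000 le_rfl
  refine ⟨c / 20000, by positivity, fun δ hδ hδ1 => ?_⟩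
  filter_upwards [hsig, few_sq2, Wr_nonpos, p2_ev (c / 20000) (by positivity)] with
    N hsig hsq hW hev
  obtain ⟨hN2, hE1, hE2, hE3⟩ := hev
  have hN1 : (1 : ℝ) ≤ N := by exact_mod_cast (by omega : 1 ≤ N)
  have hN1' : (1 : ℝ) < N := by exact_mod_cast (by omega : 1 < N)
  have hN0 : (0 : ℝ) < N := by linarith
  have hlog : 0 < Real.log N := Real.log_pos hN1'
  obtain ⟨X, hX⟩ : ∃ X : ℝ, X = (N : ℝ) ^ (1 / 2 - δ) := ⟨_, rfl⟩
  have hX1 : (N : ℝ) ^ (1 / 2 - 1 / 100000 : ℝ) ≤ X := by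
    rw [hX]
    exact Real.rpow_le_rpow_of_exponent_le hN1 (by linarith)
  have hX0 : 20000 ≤ X := hE2.trans hX1
  have hX2 : X ≤ (N : ℝ) ^ (1 / 2 : ℝ) := by
    rw [hX]
    exact Real.rpow_le_rpow_of_exponent_le hN1 (by linarith)
  have hX3 : (N : ℝ) ^ (1 / 2 : ℝ) ≤ N := by
    calc (N : ℝ) ^ (1 / 2 : ℝ) ≤ (N : ℝ) ^ (1 : ℝ) :=
          Real.rpow_le_rpow_of_exponent_le hN1 (by norm_num)
      _ = N := Real.rpow_one _
  obtain ⟨h, hh⟩ : ∃ h : ℕ, h = hd δ N := ⟨_, rfl⟩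
  rw [← hh]
  have hh1 : (h : ℝ) ≤ X := by
    rw [hh, hX]
    unfold hd
    exact Nat.floor_le (by positivity)
  have hh2 : X < (h : ℝ) + 1 := by
    rw [hh, hX]
    unfold hd
    exact Nat.lt_floor_add_one _
  obtain ⟨H, hH⟩ : ∃ H : ℕ, H = h / 5000 := ⟨_, rfl⟩
  have hH1 : 5000 * H ≤ h := by omega
  have hH2 : h < 5000 * H + 5000 := by omega
  have hH1' : (5000 : ℝ) * H ≤ h := by exact_mod_cast hH1
  have hH2' : (h : ℝ) < 5000 * H + 5000 := by exact_mod_cast hH2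
  have hH3 : X / 10000 ≤ H := by linarith
  have hH4 : 1 ≤ H := by
    have h1 : (1 : ℝ) ≤ H := by linarith
    exact_mod_cast h1
  have hHN : 5000 * H ≤ N := by
    have h1 : ((5000 * H : ℕ) : ℝ) ≤ N := by
      push_cast
      linarith
    exact_mod_cast h1
  have hHl : (N : ℝ) ^ (1 / 2 - 1 / 50000 : ℝ) ≤ H := by
    have h1 : (N : ℝ) ^ (1 / 2 - 1 / 50000 : ℝ) * (N : ℝ) ^ (1 / 100000 : ℝ) =
        (N : ℝ) ^ (1 / 2 - 1 / 100000 : ℝ) := by
      rw [← Real.rpow_add hN0]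
      norm_num
    have h2 : (N : ℝ) ^ (1 / 2 - 1 / 50000 : ℝ) * 10000 ≤
        (N : ℝ) ^ (1 / 2 - 1 / 50000 : ℝ) * (N : ℝ) ^ (1 / 100000 : ℝ) :=
      mul_le_mul_of_nonneg_left hE1 (by positivity)
    rw [h1] at h2
    linarith
  have hA := hsig H hHl hHN
  have hB := p2_cnt N H hH4 hHN hW
  have hC := hsq (5000 * H) (by push_cast; linarith)
  have hD : (((PSK.JH N (5000 * H)).filter (fun n => n.Prime ∨
        ∃ p q : ℕ, p.Prime ∧ q.Prime ∧ zz N ≤ p ∧ p < q ∧ n = p * q)).card : ℝ) ≤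
      (((PSK.JH N h).filter (fun n => n.Prime ∨
        ∃ p q : ℕ, p.Prime ∧ q.Prime ∧ zz N ≤ p ∧ p < q ∧ n = p * q)).card : ℝ) := by
    refine Nat.cast_le.2 (card_le_card (filter_subset_filter _ ?_))
    unfold PSK.JH
    exact Ioo_subset_Ioo_right (by omega)
  have hF : (N : ℝ) ^ (4992 / 10000 : ℝ) ≤ c / 20000 * X / Real.log N := by
    rw [le_div_iff₀ hlog]
    calc (N : ℝ) ^ (4992 / 10000 : ℝ) * Real.log N
        ≤ (N : ℝ) ^ (4992 / 10000 : ℝ) * (c / 20000 * (N : ℝ) ^ (79 / 100000 : ℝ)) :=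
          mul_le_mul_of_nonneg_left hE3 (by positivity)
      _ = c / 20000 * ((N : ℝ) ^ (4992 / 10000 : ℝ) * (N : ℝ) ^ (79 / 100000 : ℝ)) := by ring
      _ = c / 20000 * (N : ℝ) ^ (1 / 2 - 1 / 100000 : ℝ) := by
          rw [← Real.rpow_add hN0]
          norm_num
      _ ≤ c / 20000 * X := mul_le_mul_of_nonneg_left hX1 (by positivity)
  have hG : c / 10000 * X / Real.log N ≤ c * H / Real.log N := by
    rw [div_le_div_iff_of_pos_right hlog]
    have h1 := mul_le_mul_of_nonneg_left hH3 hc.le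
    linarith
  have hI : c / 10000 * X / Real.log N =
      c / 20000 * X / Real.log N + c / 20000 * X / Real.log N := by ring
  rw [← hX]
  linarith

end Pool.Agent.PTH
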