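import Pool.Agent.PTH.Def
import Pool.Agent.PSQ.Mer

/-!
# PTH / Rbp: primes in dyadic blocks, counting the set `E`

`RP j` = primes in `[2^j, 2^(j+1)]`.
* `RP_nonempty`: Bertrand (`Nat.exists_prime_lt_and_le_two_mul`); `j = 0`: `2`.
* `card_RP_le`: `PSQ.card_PP_le` at `y = 2^(j+1)`.
* `countE`: `p ∈ M j`, `p ≤ y` gives `2^j ≤ y`; at most `∑_{j ≤ J} C1 (j+1) ≤ C1 (J+1)^2`, `J = log y/log 2`
  (copy of `PSK.countM`).
-/

set_option autoImplicit false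

namespace Pool.Agent.PTH

open Finset

/-- primes in the dyadic block -/
def RP (j : ℕ) : Finset ℕ := (Icc (2 ^ j) (2 ^ (j + 1))).filter Nat.Prime

theorem RP_nonempty (j : ℕ) : (RP j).Nonempty := by
  obtain ⟨p, hp, h1, h2⟩ := Nat.exists_prime_lt_and_le_two_mul (2 ^ j) (by positivity)
  refine ⟨p, mem_filter.2 ⟨mem_Icc.2 ⟨h1.le, ?_⟩, hp⟩⟩
  rw [pow_succ, mul_comm]
  exact h2

theorem card_RP_le : ∃ C : ℝ, 0 < C ∧ ∀ j : ℕ, ((RP j).card : ℝ) ≤ C * 2 ^ j / (j + 1) := by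
  obtain ⟨C, hC, h⟩ := PSQ.card_PP_le
  have hl2 : 0 < Real.log 2 := Real.log_pos (by norm_num)
  refine ⟨2 * C / Real.log 2, by positivity, fun j => ?_⟩
  have h1 : (RP j).card ≤ (PSQ.PP (2 ^ (j + 1))).card := by
    refine card_le_card fun p hp => ?_
    rw [RP, mem_filter, mem_Icc] at hp
    exact PSQ.mem_PP.2 ⟨hp.1.2, hp.2⟩
  have h2 := h (2 ^ (j + 1)) (by
    calc 2 = 2 ^ 1 := (pow_one 2).symm
      _ ≤ 2 ^ (j + 1) := Nat.pow_le_pow_right (by norm_num) (by omega))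
  have h3 : ((RP j).card : ℝ) ≤ ((PSQ.PP (2 ^ (j + 1))).card : ℝ) := by exact_mod_cast h1
  refine h3.trans (h2.trans (le_of_eq ?_))
  push_cast
  rw [Real.log_pow]
  push_cast
  have hj : ((j : ℝ) + 1) ≠ 0 := by positivity
  field_simp
  ring

theorem countE (C1 : ℕ) : ∃ C : ℝ, 0 < C ∧ ∀ M : ℕ → Finset ℕ,
    (∀ j, M j ⊆ RP j ∧ (M j).card ≤ C1 * (j + 1)) → ∀ y : ℝ, 2 ≤ y →
    {p : ℕ | (∃ j, p ∈ M j) ∧ (p : ℝ) ≤ y}.Finite ∧
    ({p : ℕ | (∃ j, p ∈ M j) ∧ (p : ℝ) ≤ y}.ncard : ℝ) ≤ C * Real.log y ^ 2 := by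
  classical
  have hl2 : 0 < Real.log 2 := Real.log_pos (by norm_num)
  refine ⟨4 * (C1 + 1) / Real.log 2 ^ 2, by positivity, fun M hM y hy => ?_⟩
  have hly : Real.log 2 ≤ Real.log y := Real.log_le_log (by norm_num) hy
  set J : ℕ := ⌊Real.log y / Real.log 2⌋₊ with hJ
  have hJle : (J : ℝ) ≤ Real.log y / Real.log 2 :=
    Nat.floor_le (div_nonneg (hl2.le.trans hly) hl2.le)
  have hsub : {m : ℕ | (∃ j, m ∈ M j) ∧ (m : ℝ) ≤ y} ⊆ ((range (J + 1)).biUnion M : Finset ℕ) := by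
    rintro m ⟨⟨j, hj⟩, hmy⟩
    rw [Finset.mem_coe, Finset.mem_biUnion]
    refine ⟨j, ?_, hj⟩
    rw [Finset.mem_range, Nat.lt_succ_iff]
    apply Nat.le_floor
    have h1 := (hM j).1 hj
    rw [RP, Finset.mem_filter, Finset.mem_Icc] at h1
    rw [le_div_iff₀ hl2, ← Real.log_pow]
    apply Real.log_le_log (by positivity)
    refine le_trans ?_ hmy
    exact_mod_cast h1.1.1
  have hfin : (((range (J + 1)).biUnion M : Finset ℕ) : Set ℕ).Finite := Finset.finite_toSet _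
  refine ⟨hfin.subset hsub, ?_⟩
  have h1 := Set.ncard_le_ncard hsub hfin
  rw [Set.ncard_coe_finset] at h1
  have h2 : ((range (J + 1)).biUnion M).card ≤ (J + 1) * (C1 * (J + 1)) := by
    refine Finset.card_biUnion_le.trans ?_
    refine (Finset.sum_le_card_nsmul _ _ (C1 * (J + 1)) fun j hj => ?_).trans ?_
    · refine (hM j).2.trans (Nat.mul_le_mul_left _ ?_)
      have := Finset.mem_range.1 hj
      omega
    · simp
  have h3 : (({m : ℕ | (∃ j, m ∈ M j) ∧ (m : ℝ) ≤ y}.ncard : ℕ) : ℝ) ≤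
      ((J : ℝ) + 1) * ((C1 : ℝ) * ((J : ℝ) + 1)) := by
    exact_mod_cast h1.trans h2
  refine h3.trans ?_
  have hJ0 : (0 : ℝ) ≤ J := Nat.cast_nonneg _
  have h6 : (J : ℝ) + 1 ≤ 2 * (Real.log y / Real.log 2) := by
    have : 1 ≤ Real.log y / Real.log 2 := by rw [le_div_iff₀ hl2]; linarith
    linarith
  have hC1 : (0 : ℝ) ≤ (C1 : ℝ) := Nat.cast_nonneg _
  calc ((J : ℝ) + 1) * ((C1 : ℝ) * ((J : ℝ) + 1)) = (C1 : ℝ) * ((J : ℝ) + 1) ^ 2 := by ring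
    _ ≤ (C1 + 1 : ℝ) * (2 * (Real.log y / Real.log 2)) ^ 2 := by
        gcongr
        linarith
    _ = 4 * (C1 + 1) / Real.log 2 ^ 2 * Real.log y ^ 2 := by rw [mul_pow, div_pow]; ring

end Pool.Agent.PTH
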