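import Mathlib

/-!
# PTH / Alg: sieve weights as elements of the monoid algebra `ℝ[ℕ]` (multiplicative)

A sieve weight `(λ_d)` is an element `f` of `SA = MonoidAlgebra ℝ ℕ`, `f.coeff d = λ_d`; the product is
the Dirichlet convolution.  `lin G f = ∑ λ_d G(d)`, `chi m f = ∑_{d ∣ m} λ_d`, `mu f = ∑ λ_d / d`,
`bx B = ∑_{p ∈ B} [p]`.
-/

set_option autoImplicit false

namespace Pool.Agent.PTH

open Finset

/-- finitely supported real functions on `ℕ` with the Dirichlet convolution -/
abbrev SA := MonoidAlgebra ℝ ℕ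

/-- `∑ λ_d G(d)` -/
noncomputable def lin (G : ℕ → ℝ) (f : SA) : ℝ := f.coeff.sum (fun d c => c * G d)

/-- `∑_{d ∣ m} λ_d` -/
noncomputable def chi (m : ℕ) (f : SA) : ℝ := lin (fun d => if d ∣ m then 1 else 0) f

/-- `∑ λ_d / d` -/
noncomputable def mu (f : SA) : ℝ := lin (fun d => 1 / (d : ℝ)) f

/-- the indicator function of a finite set -/
noncomputable def bx (B : Finset ℕ) : SA := ∑ p ∈ B, MonoidAlgebra.single p 1

/-- `lin` as a linear map -/
noncomputable def linL (G : ℕ → ℝ) : SA →ₗ[ℝ] ℝ where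
  toFun := lin G
  map_add' f g := by
    unfold lin
    rw [MonoidAlgebra.coeff_add]
    exact Finsupp.sum_add_index' (fun _ => by simp) (fun _ _ _ => by ring)
  map_smul' c f := by
    unfold lin
    rw [MonoidAlgebra.coeff_smul, Finsupp.sum_smul_index (fun _ => by simp), Finsupp.smul_sum]
    simp only [RingHom.id_apply, smul_eq_mul, mul_assoc]

lemma linL_apply (G : ℕ → ℝ) (f : SA) : linL G f = lin G f := rfl

@[simp] lemma lin_zero (G : ℕ → ℝ) : lin G 0 = 0 := (linL G).map_zero

lemma lin_add (G : ℕ → ℝ) (f g : SA) : lin G (f + g) = lin G f + lin G g := (linL G).map_add f g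

lemma lin_sub (G : ℕ → ℝ) (f g : SA) : lin G (f - g) = lin G f - lin G g := (linL G).map_sub f g

lemma lin_smul (G : ℕ → ℝ) (c : ℝ) (f : SA) : lin G (c • f) = c * lin G f :=
  (linL G).map_smul c f

lemma lin_sum {ι : Type*} (G : ℕ → ℝ) (s : Finset ι) (f : ι → SA) :
    lin G (∑ i ∈ s, f i) = ∑ i ∈ s, lin G (f i) := map_sum (linL G) f s

lemma lin_list_sum (G : ℕ → ℝ) (l : List SA) : lin G l.sum = (l.map (lin G)).sum :=
  map_list_sum (linL G) l

@[simp] lemma lin_single (G : ℕ → ℝ) (d : ℕ) (c : ℝ) :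
    lin G (MonoidAlgebra.single d c) = c * G d := by
  unfold lin
  exact Finsupp.sum_single_index (by simp)

/-- `lin` as a sum over a finite set containing the support -/
lemma lin_eq_sum (G : ℕ → ℝ) (f : SA) (s : Finset ℕ) (hs : ∀ d, f.coeff d ≠ 0 → d ∈ s) :
    lin G f = ∑ d ∈ s, f.coeff d * G d := by
  unfold lin Finsupp.sum
  refine sum_subset (fun d hd => hs d (Finsupp.mem_support_iff.1 hd)) fun d _ hd => ?_
  simp only [Finsupp.notMem_support_iff.1 hd, zero_mul]

/-- the values of `G` outside the support do not matter -/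
lemma lin_congr {G G' : ℕ → ℝ} (f : SA) (h : ∀ d, f.coeff d ≠ 0 → G d = G' d) :
    lin G f = lin G' f := by
  unfold lin
  exact Finsupp.sum_congr fun d hd => by rw [h d (Finsupp.mem_support_iff.1 hd)]

lemma lin_fun_add (G G' : ℕ → ℝ) (f : SA) : lin (fun d => G d + G' d) f = lin G f + lin G' f := by
  unfold lin
  rw [← Finsupp.sum_add]
  exact Finsupp.sum_congr fun d _ => by ring

lemma lin_fun_smul (c : ℝ) (G : ℕ → ℝ) (f : SA) : lin (fun d => c * G d) f = c * lin G f := by
  unfold lin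
  rw [Finsupp.mul_sum]
  exact Finsupp.sum_congr fun d _ => by ring

lemma lin_fun_sum {ι : Type*} (s : Finset ι) (G : ι → ℕ → ℝ) (f : SA) :
    lin (fun d => ∑ i ∈ s, G i d) f = ∑ i ∈ s, lin (G i) f := by
  classical
  induction s using Finset.induction_on with
  | empty => simp [lin]
  | insert a s ha ih =>
    simp only [sum_insert ha]
    rw [lin_fun_add, ih]

lemma lin_single_mul (G : ℕ → ℝ) (p : ℕ) (c : ℝ) (f : SA) :
    lin G (MonoidAlgebra.single p c * f) = c * lin (fun n => G (p * n)) f := by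
  have h : MonoidAlgebra.single p c * f =
      f.coeff.sum (fun n b => MonoidAlgebra.single (p * n) (c * b)) := by
    rw [MonoidAlgebra.mul_def]
    refine Finsupp.sum_single_index ?_
    simp
  rw [h]
  unfold Finsupp.sum
  rw [lin_sum]
  have h2 : lin (fun n => G (p * n)) f = ∑ n ∈ f.coeff.support, f.coeff n * G (p * n) := rfl
  rw [h2, Finset.mul_sum]
  refine sum_congr rfl fun n _ => ?_
  rw [lin_single]
  ring

lemma lin_mul (G : ℕ → ℝ) (f g : SA) :
    lin G (f * g) = lin (fun m => lin (fun n => G (m * n)) g) f := by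
  have h : f = f.coeff.sum (fun m c => MonoidAlgebra.single m c) := by
    have := MonoidAlgebra.sum_coeff_single f
    exact this.symm
  have h2 : f * g = ∑ m ∈ f.coeff.support, MonoidAlgebra.single m (f.coeff m) * g := by
    conv_lhs => rw [h]
    unfold Finsupp.sum
    rw [Finset.sum_mul]
  rw [h2, lin_sum]
  conv_rhs => unfold lin Finsupp.sum
  refine sum_congr rfl fun m _ => ?_
  rw [lin_single_mul]
  rfl

lemma lin_bx_mul (G : ℕ → ℝ) (B : Finset ℕ) (f : SA) :
    lin G (bx B * f) = ∑ p ∈ B, lin (fun n => G (p * n)) f := by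
  unfold bx
  rw [Finset.sum_mul, lin_sum]
  exact sum_congr rfl fun p _ => by rw [lin_single_mul, one_mul]

lemma chi_single_mul {m p : ℕ} (hp : 1 ≤ p) (f : SA) :
    chi m (MonoidAlgebra.single p 1 * f) = if p ∣ m then chi (m / p) f else 0 := by
  unfold chi
  rw [lin_single_mul, one_mul]
  split_ifs with h
  · obtain ⟨k, rfl⟩ := h
    congr 1
    funext n
    rw [Nat.mul_div_cancel_left _ (by omega)]
    simp only [Nat.mul_dvd_mul_iff_left (show 0 < p by omega)]
  · have : (fun n => if p * n ∣ m then (1 : ℝ) else 0) = fun _ => 0 := by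
      funext n
      rw [if_neg]
      exact fun h' => h (dvd_of_mul_right_dvd h')
    rw [this]
    simp [lin]

lemma chi_sum {ι : Type*} (m : ℕ) (s : Finset ι) (f : ι → SA) :
    chi m (∑ i ∈ s, f i) = ∑ i ∈ s, chi m (f i) := lin_sum _ _ _

lemma chi_sub (m : ℕ) (f g : SA) : chi m (f - g) = chi m f - chi m g := lin_sub _ _ _

@[simp] lemma chi_zero (m : ℕ) : chi m 0 = 0 := lin_zero _

lemma chi_one (m : ℕ) : chi m 1 = 1 := by
  rw [MonoidAlgebra.one_def]
  unfold chi
  rw [lin_single]
  simp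

lemma chi_bx_mul {m : ℕ} {B : Finset ℕ} (hB : ∀ p ∈ B, 1 ≤ p) (f : SA) :
    chi m (bx B * f) = ∑ p ∈ B.filter (fun p => p ∣ m), chi (m / p) f := by
  unfold bx
  rw [Finset.sum_mul, chi_sum, sum_filter]
  exact sum_congr rfl fun p hp => chi_single_mul (hB p hp) f

lemma mu_sum {ι : Type*} (s : Finset ι) (f : ι → SA) : mu (∑ i ∈ s, f i) = ∑ i ∈ s, mu (f i) :=
  lin_sum _ _ _

lemma mu_sub (f g : SA) : mu (f - g) = mu f - mu g := lin_sub _ _ _

@[simp] lemma mu_zero : mu 0 = 0 := lin_zero _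

lemma mu_one : mu 1 = 1 := by
  rw [MonoidAlgebra.one_def]
  unfold mu
  rw [lin_single]
  simp

lemma mu_mul (f g : SA) : mu (f * g) = mu f * mu g := by
  unfold mu
  rw [lin_mul, mul_comm (lin _ f), ← lin_fun_smul]
  congr 1
  funext m
  rw [mul_comm (lin _ g), ← lin_fun_smul]
  congr 1
  funext n
  push_cast
  rw [one_div_mul_one_div]

lemma mu_single (p : ℕ) (c : ℝ) : mu (MonoidAlgebra.single p c) = c * (1 / (p : ℝ)) :=
  lin_single _ _ _

lemma mu_bx (B : Finset ℕ) : mu (bx B) = ∑ p ∈ B, 1 / (p : ℝ) := by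
  unfold bx
  rw [mu_sum]
  exact sum_congr rfl fun p _ => by rw [mu_single, one_mul]

lemma mu_bx_mul (B : Finset ℕ) (f : SA) : mu (bx B * f) = (∑ p ∈ B, 1 / (p : ℝ)) * mu f := by
  rw [mu_mul, mu_bx]

lemma coeff_single_mul {p : ℕ} (hp : 1 ≤ p) (f : SA) (d : ℕ) :
    (MonoidAlgebra.single p 1 * f).coeff d = if p ∣ d then f.coeff (d / p) else 0 := by
  classical
  have key : ∀ g : SA, g.coeff d = lin (fun n => if n = d then 1 else 0) g := by
    intro g
    unfold lin Finsupp.sum
    simp only [mul_ite, mul_one, mul_zero]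
    rw [Finset.sum_ite_eq']
    split_ifs with h
    · rfl
    · exact Finsupp.notMem_support_iff.1 h
  rw [key, lin_single_mul, one_mul]
  split_ifs with h
  · obtain ⟨k, rfl⟩ := h
    rw [Nat.mul_div_cancel_left _ (by omega)]
    have hk : ∀ n, (if p * n = p * k then (1 : ℝ) else 0) = if n = k then 1 else 0 := by
      intro n
      simp only [Nat.mul_left_cancel_iff (show 0 < p by omega)]
    simp only [hk]
    unfold lin Finsupp.sum
    simp only [mul_ite, mul_one, mul_zero]
    rw [Finset.sum_ite_eq']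
    split_ifs with h
    · rfl
    · exact (Finsupp.notMem_support_iff.1 h).symm
  · have : (fun n => if p * n = d then (1 : ℝ) else 0) = fun _ => 0 := by
      funext n
      rw [if_neg]
      exact fun h' => h ⟨n, h'.symm⟩
    rw [this]
    simp [lin]

lemma coeff_sum {ι : Type*} (s : Finset ι) (f : ι → SA) (d : ℕ) :
    (∑ i ∈ s, f i).coeff d = ∑ i ∈ s, (f i).coeff d := by
  classical
  induction s using Finset.induction_on with
  | empty => simp
  | insert a s ha ih => rw [sum_insert ha, sum_insert ha, MonoidAlgebra.coeff_add, Finsupp.add_apply, ih]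

lemma coeff_bx_mul {B : Finset ℕ} (hB : ∀ p ∈ B, 1 ≤ p) (f : SA) (d : ℕ) :
    (bx B * f).coeff d = ∑ p ∈ B.filter (fun p => p ∣ d), f.coeff (d / p) := by
  unfold bx
  rw [Finset.sum_mul, coeff_sum, sum_filter]
  exact sum_congr rfl fun p hp => coeff_single_mul (hB p hp) f d

end Pool.Agent.PTH
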