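import Pool.Agent.PTH.Base

/-!
# PTH / AvA: the average `T` on the algebra itself

Everything is elementary.  `u_i` unitary, `p_i > 0`, `∑ p_i = 1`, `u_{inv i} = u_i*`,
`p_{inv i} = p_i`, `u_o = 1`, `p_o ≥ 1/2`.  Sums over `i` may be reindexed by `inv` (an involution,
hence a bijection: `Function.Involutive.bijective`, `Finset.sum_bij`/`Equiv.sum_comp`).

* `T_symm`: `τ(T(x) y) = ∑ p_i τ(u_i x u_i* y) = ∑ p_i τ(x u_i* y u_i) = τ(x T(y))` after reindexing.
* `T_pos`: `Re τ(x* T x) ≥ 0`: `T x = p_o x + ∑_{i ≠ o} p_i u_i x u_i*` and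
  `|τ(x* u_i x u_i*)| ≤ ‖x‖₂²`, `∑_{i ≠ o} p_i = 1 - p_o ≤ 1/2 ≤ p_o`.
* `two_T_sq_le`: `⟨T²x,x⟩ ≤ ⟨Tx,x⟩`: `T` is symmetric with `0 ≤ ⟨Tx,x⟩ ≤ ‖x‖²`; Cauchy-Schwarz for the
  semi-inner product `⟨Tx,y⟩`: `‖Tx‖⁴ = ⟨Tx,Tx⟩² ≤ ⟨Tx,x⟩⟨T Tx,Tx⟩ ≤ ⟨Tx,x⟩‖Tx‖²`.
-/

open Filter Topology
open scoped InnerProductSpace ComplexOrder

namespace Pool.Agent.PTH

namespace AvAaux

variable {A : Type*} [CStarAlgebra A]

theorem norm_one_le' : ‖(1 : A)‖ ≤ 1 := by
  rcases subsingleton_or_nontrivial A with h | h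
  · rw [Subsingleton.elim (1 : A) 0, norm_zero]
    exact zero_le_one
  · exact (CStarRing.norm_one).le

theorem norm_u_le {u : A} (h : star u * u = 1) : ‖u‖ ≤ 1 := by
  have h1 : ‖u‖ * ‖u‖ ≤ 1 := by
    rw [← CStarRing.norm_star_mul_self, h]
    exact norm_one_le'
  nlinarith [norm_nonneg u]

variable [TrAlg A]

theorem two_sum_le {ι : Type*} (s : Finset ι) (f : ι → A) :
    two (∑ i ∈ s, f i) ≤ ∑ i ∈ s, two (f i) := by
  classical
  induction s using Finset.induction_on with
  | empty => simp [two_zero]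
  | insert a s ha ih =>
    rw [Finset.sum_insert ha, Finset.sum_insert ha]
    exact (two_add_le _ _).trans (by gcongr)

theorem two_conj {u : A} (h : star u * u = 1) (x : A) : two (u * x * star u) = two x := by
  have h1 : two (u * x * star u) ^ 2 = two x ^ 2 := by
    rw [two_sq, two_sq, star_mul, star_mul, star_star]
    have e : u * (star x * star u) * (u * x * star u) =
        u * (star x * (star u * u) * x * star u) := by noncomm_ring
    rw [e, h, mul_one, TrAlg.tau_comm]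
    have e2 : star x * x * star u * u = star x * x * (star u * u) := by noncomm_ring
    rw [e2, h, mul_one]
  exact (sq_eq_sq₀ (two_nonneg _) (two_nonneg _)).1 h1

theorem abs_rt_le (x y : A) : |rt (star x * y)| ≤ two x * two y :=
  (Complex.abs_re_le_norm _).trans (norm_tau_mul_le x y)

theorem norm_tau_le_one {x y : A} (hy : ‖y‖ ≤ 1) : ‖TrAlg.tau (x * y)‖ ≤ one x := by
  refine le_ciSup (f := fun y : {y : A // ‖y‖ ≤ 1} => ‖TrAlg.tau (x * (y : A))‖)
    ⟨two x, ?_⟩ (⟨y, hy⟩ : {y : A // ‖y‖ ≤ 1})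
  rintro _ ⟨z, rfl⟩
  have h := norm_tau_mul_le (star x) (z : A)
  rw [star_star, two_star] at h
  exact h.trans (mul_le_of_le_one_right (two_nonneg x) ((two_le_norm _).trans z.2))

theorem one_le {x : A} {C : ℝ} (h : ∀ y : A, ‖y‖ ≤ 1 → ‖TrAlg.tau (x * y)‖ ≤ C) :
    one x ≤ C := by
  have : Nonempty {y : A // ‖y‖ ≤ 1} := ⟨⟨0, by rw [norm_zero]; exact zero_le_one⟩⟩
  exact ciSup_le fun y => h y y.2

end AvAaux

namespace Avg

variable {A : Type*} [CStarAlgebra A] [PartialOrder A] [StarOrderedRing A] [TracialVN A] (a : Avg A)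

omit [PartialOrder A] [StarOrderedRing A] [TracialVN A] in
private theorem p_nonneg (i : a.ι) : 0 ≤ a.p i := (a.p_pos i).le

omit [PartialOrder A] [StarOrderedRing A] [TracialVN A] in
private theorem norm_p (i : a.ι) : ‖(a.p i : ℂ)‖ = a.p i := by
  rw [Complex.norm_real, Real.norm_eq_abs, abs_of_nonneg (p_nonneg a i)]

omit [PartialOrder A] [StarOrderedRing A] [TracialVN A] in
private theorem sum_inv {E : Type*} [AddCommMonoid E] (f : a.ι → E) :
    ∑ i, f (a.inv i) = ∑ i, f i :=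
  Equiv.sum_comp (Function.Involutive.toPerm a.inv a.inv_inv) f

theorem T_one : a.T 1 = 1 := by
  rw [T_apply]
  have h : ∀ i, (a.p i : ℂ) • (a.u i * 1 * star (a.u i)) = (a.p i : ℂ) • (1 : A) := fun i => by
    rw [mul_one, a.u_mul_star]
  rw [Finset.sum_congr rfl fun i _ => h i, ← Finset.sum_smul, ← Complex.ofReal_sum, a.p_sum,
    Complex.ofReal_one, one_smul]

theorem T_star (x : A) : a.T (star x) = star (a.T x) := by
  rw [T_apply, T_apply, star_sum]
  refine Finset.sum_congr rfl fun i _ => ?_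
  rw [star_smul, star_mul, star_mul, star_star, Complex.star_def, Complex.conj_ofReal, mul_assoc]

theorem T_nonneg {x : A} (hx : 0 ≤ x) : 0 ≤ a.T x := by
  rw [T_apply]
  refine Finset.sum_nonneg fun i _ => ?_
  rw [Complex.coe_smul]
  exact smul_nonneg (p_nonneg a i) (star_right_conjugate_nonneg hx (a.u i))

theorem T_mono {x y : A} (h : x ≤ y) : a.T x ≤ a.T y := by
  have h1 := a.T_nonneg (sub_nonneg.2 h)
  rw [map_sub] at h1
  exact sub_nonneg.1 h1

theorem norm_T_le (x : A) : ‖a.T x‖ ≤ ‖x‖ := by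
  rw [T_apply]
  refine (norm_sum_le _ _).trans ?_
  have h : ∀ i, ‖(a.p i : ℂ) • (a.u i * x * star (a.u i))‖ ≤ a.p i * ‖x‖ := fun i => by
    rw [norm_smul, norm_p]
    refine mul_le_mul_of_nonneg_left ?_ (p_nonneg a i)
    have h1 := AvAaux.norm_u_le (a.u_star_mul i)
    calc ‖a.u i * x * star (a.u i)‖ ≤ ‖a.u i * x‖ * ‖star (a.u i)‖ := norm_mul_le _ _
      _ ≤ (‖a.u i‖ * ‖x‖) * ‖a.u i‖ := by
          rw [norm_star]
          exact mul_le_mul_of_nonneg_right (norm_mul_le _ _) (norm_nonneg _)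
      _ ≤ (1 * ‖x‖) * 1 := by
          refine mul_le_mul (mul_le_mul_of_nonneg_right h1 (norm_nonneg _)) h1 (norm_nonneg _) ?_
          rw [one_mul]
          exact norm_nonneg _
      _ = ‖x‖ := by rw [one_mul, mul_one]
  refine (Finset.sum_le_sum fun i _ => h i).trans ?_
  rw [← Finset.sum_mul, a.p_sum, one_mul]

theorem tau_T (x : A) : TrAlg.tau (a.T x) = TrAlg.tau x := by
  rw [T_apply, map_sum]
  have h : ∀ i, TrAlg.tau ((a.p i : ℂ) • (a.u i * x * star (a.u i))) =
      (a.p i : ℂ) * TrAlg.tau x := fun i => by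
    rw [map_smul, smul_eq_mul, mul_assoc, TrAlg.tau_comm, mul_assoc, a.u_star_mul, mul_one]
  rw [Finset.sum_congr rfl fun i _ => h i, ← Finset.sum_mul, ← Complex.ofReal_sum, a.p_sum,
    Complex.ofReal_one, one_mul]

theorem T_symm (x y : A) : TrAlg.tau (a.T x * y) = TrAlg.tau (x * a.T y) := by
  rw [T_apply, T_apply, Finset.sum_mul, Finset.mul_sum, map_sum, map_sum,
    ← sum_inv a (fun i => TrAlg.tau (x * (a.p i : ℂ) • (a.u i * y * star (a.u i))))]
  refine Finset.sum_congr rfl fun i _ => ?_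
  rw [smul_mul_assoc, mul_smul_comm, map_smul, map_smul, a.p_inv, a.u_inv, star_star]
  congr 1
  have e : a.u i * x * star (a.u i) * y = a.u i * (x * star (a.u i) * y) := by noncomm_ring
  rw [e, TrAlg.tau_comm]
  congr 1
  noncomm_ring

theorem T_pos (x : A) : 0 ≤ rt (star x * a.T x) := by
  classical
  have h0 : rt (star x * a.T x) =
      ∑ i, a.p i * rt (star x * (a.u i * x * star (a.u i))) := by
    unfold rt
    rw [T_apply, Finset.mul_sum, map_sum, Complex.re_sum]
    refine Finset.sum_congr rfl fun i _ => ?_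
    rw [mul_smul_comm, map_smul, smul_eq_mul, Complex.re_ofReal_mul]
  have h1 : ∀ i, -(a.p i * two x ^ 2) ≤ a.p i * rt (star x * (a.u i * x * star (a.u i))) := by
    intro i
    have h2 := AvAaux.abs_rt_le x (a.u i * x * star (a.u i))
    rw [AvAaux.two_conj (a.u_star_mul i)] at h2
    have h3 := (abs_le.1 h2).1
    have h4 := p_nonneg a i
    nlinarith
  have h2 : a.p a.o * rt (star x * (a.u a.o * x * star (a.u a.o))) = a.p a.o * two x ^ 2 := by
    rw [a.u_o, one_mul, star_one, mul_one, two_sq]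
    rfl
  rw [h0, ← Finset.add_sum_erase _ _ (Finset.mem_univ a.o), h2]
  have h3 : -(∑ i ∈ Finset.univ.erase a.o, a.p i * two x ^ 2) ≤
      ∑ i ∈ Finset.univ.erase a.o, a.p i * rt (star x * (a.u i * x * star (a.u i))) := by
    rw [← Finset.sum_neg_distrib]
    exact Finset.sum_le_sum fun i _ => h1 i
  have h4 := Finset.add_sum_erase Finset.univ a.p (Finset.mem_univ a.o)
  rw [a.p_sum] at h4
  rw [← Finset.sum_mul] at h3
  have h5 := a.p_o
  have h6 : 0 ≤ two x ^ 2 := sq_nonneg _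
  nlinarith

theorem two_T_le (x : A) : two (a.T x) ≤ two x := by
  rw [T_apply]
  refine (AvAaux.two_sum_le _ _).trans ?_
  have h : ∀ i, two ((a.p i : ℂ) • (a.u i * x * star (a.u i))) = a.p i * two x := fun i => by
    rw [two_smul', norm_p, AvAaux.two_conj (a.u_star_mul i)]
  rw [Finset.sum_congr rfl fun i _ => h i, ← Finset.sum_mul, a.p_sum, one_mul]

/-- `‖T x‖₂² ≤ Re τ(x* T x)`. -/
theorem two_T_sq_le (x : A) : two (a.T x) ^ 2 ≤ rt (star x * a.T x) := by
  have h1 := a.T_pos (x - a.T x)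
  have e : star (x - a.T x) * a.T (x - a.T x) = star x * a.T x - star x * a.T (a.T x) -
      star (a.T x) * a.T x + star (a.T x) * a.T (a.T x) := by
    rw [star_sub, map_sub]
    noncomm_ring
  have e1 : rt (star x * a.T (a.T x)) = two (a.T x) ^ 2 := by
    unfold rt
    rw [← T_symm, T_star, two_sq]
  have e2 : rt (star (a.T x) * a.T x) = two (a.T x) ^ 2 := by
    rw [two_sq]
    rfl
  have e3 : rt (star (a.T x) * a.T (a.T x)) ≤ two (a.T x) ^ 2 := by
    refine (le_abs_self _).trans ((AvAaux.abs_rt_le _ _).trans ?_)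
    rw [sq]
    exact mul_le_mul_of_nonneg_left (a.two_T_le _) (two_nonneg _)
  have e4 : rt (star (x - a.T x) * a.T (x - a.T x)) = rt (star x * a.T x) -
      rt (star x * a.T (a.T x)) - rt (star (a.T x) * a.T x) +
        rt (star (a.T x) * a.T (a.T x)) := by
    rw [e]
    unfold rt
    rw [map_add, map_sub, map_sub, Complex.add_re, Complex.sub_re, Complex.sub_re]
  rw [e4, e1, e2] at h1
  linarith

theorem one_T_le (x : A) : one (a.T x) ≤ one x := by
  refine AvAaux.one_le fun y hy => ?_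
  rw [T_symm]
  exact AvAaux.norm_tau_le_one ((a.norm_T_le y).trans hy)

/-- Powers. -/
theorem Tp_one (j : ℕ) : (a.T ^ j) 1 = 1 := by
  induction j with
  | zero => rfl
  | succ j ih => rw [pow_succ', Module.End.mul_apply, ih, T_one]

theorem Tp_star (j : ℕ) (x : A) : (a.T ^ j) (star x) = star ((a.T ^ j) x) := by
  induction j with
  | zero => rfl
  | succ j ih => rw [pow_succ', Module.End.mul_apply, ih, T_star, Module.End.mul_apply]

theorem Tp_nonneg (j : ℕ) {x : A} (hx : 0 ≤ x) : 0 ≤ (a.T ^ j) x := by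
  induction j with
  | zero => exact hx
  | succ j ih =>
    rw [pow_succ', Module.End.mul_apply]
    exact a.T_nonneg ih

theorem Tp_mono (j : ℕ) {x y : A} (h : x ≤ y) : (a.T ^ j) x ≤ (a.T ^ j) y := by
  have h1 := a.Tp_nonneg j (sub_nonneg.2 h)
  rw [map_sub] at h1
  exact sub_nonneg.1 h1

theorem norm_Tp_le (j : ℕ) (x : A) : ‖(a.T ^ j) x‖ ≤ ‖x‖ := by
  induction j with
  | zero => exact le_rfl
  | succ j ih =>
    rw [pow_succ', Module.End.mul_apply]
    exact (a.norm_T_le _).trans ih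

theorem tau_Tp (j : ℕ) (x : A) : TrAlg.tau ((a.T ^ j) x) = TrAlg.tau x := by
  induction j with
  | zero => rfl
  | succ j ih => rw [pow_succ', Module.End.mul_apply, tau_T, ih]

theorem Tp_symm (j : ℕ) (x y : A) : TrAlg.tau ((a.T ^ j) x * y) = TrAlg.tau (x * (a.T ^ j) y) := by
  induction j generalizing y with
  | zero => rfl
  | succ j ih =>
    rw [pow_succ', Module.End.mul_apply, T_symm, ih, ← Module.End.mul_apply, ← pow_succ,
      pow_succ']

theorem Tp_pos (j : ℕ) (x : A) : 0 ≤ rt (star x * (a.T ^ j) x) := by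
  rcases Nat.even_or_odd' j with ⟨m, rfl | rfl⟩
  · have e : rt (star x * (a.T ^ (2 * m)) x) = two ((a.T ^ m) x) ^ 2 := by
      unfold rt
      rw [two_mul, pow_add, Module.End.mul_apply, ← Tp_symm, Tp_star, two_sq]
    rw [e]
    exact sq_nonneg _
  · have e : rt (star x * (a.T ^ (2 * m + 1)) x) =
        rt (star ((a.T ^ m) x) * a.T ((a.T ^ m) x)) := by
      unfold rt
      have e1 : 2 * m + 1 = m + (1 + m) := by ring
      rw [e1, pow_add, pow_add, pow_one, Module.End.mul_apply, Module.End.mul_apply, ← Tp_symm,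
        Tp_star]
    rw [e]
    exact a.T_pos _

theorem two_Tp_le (j : ℕ) (x : A) : two ((a.T ^ j) x) ≤ two x := by
  induction j with
  | zero => exact le_rfl
  | succ j ih =>
    rw [pow_succ', Module.End.mul_apply]
    exact (a.two_T_le _).trans ih

end Avg

end Pool.Agent.PTH
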