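import Pool.Agent.PTH.AvE

/-!
# PTH / AvB: Hilbert bimodules

`B.l x`, `B.r x` = left and right multiplication.  All statements are elementary:
`(l x)† = l (star x)` because `L` is a *-homomorphism into `B.H →L[ℂ] B.H` (star = adjoint),
`r` is an anti-homomorphism (`R (op x)`, `op y * op x = op (x*y)`).
* `T_pos`, `T_sq`: as in AvA (`‖l(u_i) r(u_i*) ξ‖ = ‖ξ‖`; lazy).
* `conv`: `‖x^{1/2} T^j ξ‖² ≤ ⟨T^j(x)ξ,ξ⟩`, convexity of `η ↦ Re⟨η, x η⟩` for `x ≥ 0` and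
  `⟨uξu*, x uξu*⟩ = ⟨ξ, u*xu ξ⟩`, induction.
* `d1_LD`: left density `y` of `ξ`: the left density of `u_i ξ u_i*` is `u_i y u_i*`, and for `‖z‖ ≤ 1`
  `|⟨η,zη⟩ - ⟨ξ,zξ⟩| ≤ (‖η‖+‖ξ‖)‖η-ξ‖`.
-/

open Filter Topology MulOpposite
open scoped InnerProductSpace ComplexOrder

universe u

namespace Pool.Agent.PTH

namespace Bim

variable {A : Type u} [CStarAlgebra A] (B : Bim.{u} A)

theorem l_mul (x y : A) (ξ : B.H) : B.l (x * y) ξ = B.l x (B.l y ξ) := by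
  unfold l
  rw [map_mul]
  rfl

theorem l_add (x y : A) (ξ : B.H) : B.l (x + y) ξ = B.l x ξ + B.l y ξ := by
  unfold l
  rw [map_add]
  rfl

theorem l_sub (x y : A) (ξ : B.H) : B.l (x - y) ξ = B.l x ξ - B.l y ξ := by
  unfold l
  rw [map_sub]
  rfl

theorem l_smul (c : ℂ) (x : A) (ξ : B.H) : B.l (c • x) ξ = c • B.l x ξ := by
  unfold l
  rw [map_smul]
  rfl

theorem l_one (ξ : B.H) : B.l 1 ξ = ξ := by
  unfold l
  rw [map_one]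
  rfl

theorem r_mul (x y : A) (ξ : B.H) : B.r (x * y) ξ = B.r y (B.r x ξ) := by
  unfold r
  rw [op_mul, map_mul]
  rfl

theorem r_add (x y : A) (ξ : B.H) : B.r (x + y) ξ = B.r x ξ + B.r y ξ := by
  unfold r
  rw [op_add, map_add]
  rfl

theorem r_sub (x y : A) (ξ : B.H) : B.r (x - y) ξ = B.r x ξ - B.r y ξ := by
  unfold r
  rw [op_sub, map_sub]
  rfl

theorem r_smul (c : ℂ) (x : A) (ξ : B.H) : B.r (c • x) ξ = c • B.r x ξ := by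
  unfold r
  rw [op_smul, map_smul]
  rfl

theorem r_one (ξ : B.H) : B.r 1 ξ = ξ := by
  unfold r
  rw [op_one, map_one]
  rfl

theorem l_r (x y : A) (ξ : B.H) : B.l x (B.r y ξ) = B.r y (B.l x ξ) := by
  have h := B.comm x (op y)
  exact congrArg (fun f : B.H →L[ℂ] B.H => f ξ) h

theorem inner_l (x : A) (ξ η : B.H) : ⟪B.l x ξ, η⟫_ℂ = ⟪ξ, B.l (star x) η⟫_ℂ := by
  unfold l
  rw [map_star, ContinuousLinearMap.star_eq_adjoint, ContinuousLinearMap.adjoint_inner_right]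

theorem inner_r (x : A) (ξ η : B.H) : ⟪B.r x ξ, η⟫_ℂ = ⟪ξ, B.r (star x) η⟫_ℂ := by
  unfold r
  rw [op_star, map_star, ContinuousLinearMap.star_eq_adjoint, ContinuousLinearMap.adjoint_inner_right]

theorem norm_l_le (x : A) (ξ : B.H) : ‖B.l x ξ‖ ≤ ‖x‖ * ‖ξ‖ := by
  unfold l
  refine ((B.L x).le_opNorm ξ).trans ?_
  exact mul_le_mul_of_nonneg_right (NonUnitalStarAlgHom.norm_apply_le B.L x) (norm_nonneg _)

theorem norm_r_le (x : A) (ξ : B.H) : ‖B.r x ξ‖ ≤ ‖x‖ * ‖ξ‖ := by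
  unfold r
  refine ((B.R (op x)).le_opNorm ξ).trans ?_
  exact mul_le_mul_of_nonneg_right (NonUnitalStarAlgHom.norm_apply_le B.R (op x)) (norm_nonneg _)

theorem norm_l_unitary (x : A) (hx : star x * x = 1) (ξ : B.H) : ‖B.l x ξ‖ = ‖ξ‖ := by
  have h : ⟪B.l x ξ, B.l x ξ⟫_ℂ = ⟪ξ, ξ⟫_ℂ := by
    rw [inner_l, ← l_mul, hx, l_one]
  rw [inner_self_eq_norm_sq_to_K, inner_self_eq_norm_sq_to_K] at h
  have h1 : ‖B.l x ξ‖ ^ 2 = ‖ξ‖ ^ 2 := by exact_mod_cast h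
  exact (pow_left_inj₀ (norm_nonneg _) (norm_nonneg _) two_ne_zero).mp h1

theorem norm_r_unitary (x : A) (hx : x * star x = 1) (ξ : B.H) : ‖B.r x ξ‖ = ‖ξ‖ := by
  have h : ⟪B.r x ξ, B.r x ξ⟫_ℂ = ⟪ξ, ξ⟫_ℂ := by
    rw [inner_r, ← r_mul, hx, r_one]
  rw [inner_self_eq_norm_sq_to_K, inner_self_eq_norm_sq_to_K] at h
  have h1 : ‖B.r x ξ‖ ^ 2 = ‖ξ‖ ^ 2 := by exact_mod_cast h
  exact (pow_left_inj₀ (norm_nonneg _) (norm_nonneg _) two_ne_zero).mp h1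

variable (a : Avg A)

theorem T_apply (ξ : B.H) :
    B.T a ξ = ∑ i, (a.p i : ℂ) • B.l (a.u i) (B.r (star (a.u i)) ξ) := by
  unfold T
  rw [_root_.sum_apply]
  rfl

theorem sum_p_inv (f : a.ι → ℂ) : ∑ i, (a.p i : ℂ) * f (a.inv i) = ∑ i, (a.p i : ℂ) * f i := by
  have h : Function.Bijective a.inv := (show Function.Involutive a.inv from a.inv_inv).bijective
  rw [← h.sum_comp (fun i => (a.p i : ℂ) * f i)]
  refine Finset.sum_congr rfl fun i _ => ?_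
  rw [a.p_inv]

theorem inner_T (ξ η : B.H) :
    ⟪ξ, B.T a η⟫_ℂ = ∑ i, (a.p i : ℂ) * ⟪ξ, B.l (a.u i) (B.r (star (a.u i)) η)⟫_ℂ := by
  rw [T_apply, inner_sum]
  refine Finset.sum_congr rfl fun i _ => ?_
  rw [inner_smul_right]

theorem inner_T' (ξ η : B.H) :
    ⟪ξ, B.T a η⟫_ℂ = ∑ i, (a.p i : ℂ) * ⟪ξ, B.l (star (a.u i)) (B.r (a.u i) η)⟫_ℂ := by
  rw [inner_T, ← sum_p_inv a (fun i => ⟪ξ, B.l (a.u i) (B.r (star (a.u i)) η)⟫_ℂ)]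
  refine Finset.sum_congr rfl fun i _ => ?_
  rw [a.u_inv, star_star]

theorem T_symm (ξ η : B.H) : ⟪B.T a ξ, η⟫_ℂ = ⟪ξ, B.T a η⟫_ℂ := by
  rw [inner_T', T_apply, sum_inner]
  refine Finset.sum_congr rfl fun i _ => ?_
  rw [inner_smul_left, inner_l, inner_r, star_star, ← l_r, Complex.conj_ofReal]

theorem norm_V (i : a.ι) (ξ : B.H) : ‖B.l (a.u i) (B.r (star (a.u i)) ξ)‖ = ‖ξ‖ := by
  rw [norm_l_unitary B _ (a.u_star_mul i), norm_r_unitary B _ (by rw [star_star, a.u_star_mul])]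

theorem T_pos (ξ : B.H) : 0 ≤ (⟪ξ, B.T a ξ⟫_ℂ).re := by
  classical
  have h1 : ∀ i, -(‖ξ‖ ^ 2) ≤ (⟪ξ, B.l (a.u i) (B.r (star (a.u i)) ξ)⟫_ℂ).re := by
    intro i
    have h2 := (Complex.abs_re_le_norm _).trans
      (norm_inner_le_norm (𝕜 := ℂ) ξ (B.l (a.u i) (B.r (star (a.u i)) ξ)))
    rw [norm_V] at h2
    have h3 := (abs_le.mp h2).1
    nlinarith
  rw [inner_T, Complex.re_sum, ← Finset.add_sum_erase _ _ (Finset.mem_univ a.o)]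
  have ho : ⟪ξ, B.l (a.u a.o) (B.r (star (a.u a.o)) ξ)⟫_ℂ = ((‖ξ‖ ^ 2 : ℝ) : ℂ) := by
    rw [a.u_o, star_one, l_one, r_one, inner_self_eq_norm_sq_to_K]
    push_cast
    rfl
  have h4 : ∑ i ∈ Finset.univ.erase a.o, a.p i = 1 - a.p a.o := by
    rw [← a.p_sum, ← Finset.add_sum_erase _ _ (Finset.mem_univ a.o)]
    ring
  have h5 : -((1 - a.p a.o) * ‖ξ‖ ^ 2) ≤ ∑ i ∈ Finset.univ.erase a.o,
      ((a.p i : ℂ) * ⟪ξ, B.l (a.u i) (B.r (star (a.u i)) ξ)⟫_ℂ).re := by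
    rw [← h4, Finset.sum_mul, ← Finset.sum_neg_distrib]
    refine Finset.sum_le_sum fun i _ => ?_
    rw [Complex.re_ofReal_mul]
    have := mul_le_mul_of_nonneg_left (h1 i) (a.p_pos i).le
    linarith
  rw [ho, ← Complex.ofReal_mul, Complex.ofReal_re]
  have h6 := a.p_o
  nlinarith [sq_nonneg ‖ξ‖]

theorem norm_T_le (ξ : B.H) : ‖B.T a ξ‖ ≤ ‖ξ‖ := by
  rw [T_apply]
  refine (norm_sum_le _ _).trans ?_
  have h : ∀ i, ‖(a.p i : ℂ) • B.l (a.u i) (B.r (star (a.u i)) ξ)‖ = a.p i * ‖ξ‖ := by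
    intro i
    rw [norm_smul, norm_V, Complex.norm_real, Real.norm_of_nonneg (a.p_pos i).le]
  simp only [h]
  rw [← Finset.sum_mul, a.p_sum, one_mul]

theorem norm_T_sq_le (ξ : B.H) : ‖B.T a ξ‖ ^ 2 ≤ (⟪ξ, B.T a ξ⟫_ℂ).re := by
  have h1 := B.T_pos a (ξ - B.T a ξ)
  rw [map_sub, inner_sub_left, inner_sub_right, inner_sub_right, ← B.T_symm a ξ (B.T a ξ)] at h1
  have h2 : (⟪B.T a ξ, B.T a ξ⟫_ℂ).re = ‖B.T a ξ‖ ^ 2 := by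
    rw [inner_self_eq_norm_sq_to_K]
    norm_cast
  have h3 : (⟪B.T a ξ, B.T a (B.T a ξ)⟫_ℂ).re ≤ ‖B.T a ξ‖ ^ 2 := by
    refine (Complex.re_le_norm _).trans ((norm_inner_le_norm _ _).trans ?_)
    rw [sq]
    exact mul_le_mul_of_nonneg_left (B.norm_T_le a _) (norm_nonneg _)
  simp only [Complex.sub_re] at h1
  rw [h2] at h1
  linarith

/-- the polarised energy -/
theorem en_polar (ξ η : B.H) :
    ⟪η, ξ - B.T a ξ⟫_ℂ = ((1 / 2 : ℝ) : ℂ) * ∑ i, (a.p i : ℂ) *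
      ⟪B.l (a.u i) η - B.r (a.u i) η, B.l (a.u i) ξ - B.r (a.u i) ξ⟫_ℂ := by
  have h1 : ∀ i, ⟪B.l (a.u i) η - B.r (a.u i) η, B.l (a.u i) ξ - B.r (a.u i) ξ⟫_ℂ =
      2 * ⟪η, ξ⟫_ℂ - ⟪η, B.l (star (a.u i)) (B.r (a.u i) ξ)⟫_ℂ -
        ⟪η, B.l (a.u i) (B.r (star (a.u i)) ξ)⟫_ℂ := by
    intro i
    rw [inner_sub_left, inner_sub_right, inner_sub_right, inner_l, inner_l, inner_r, inner_r,
      ← l_mul, ← r_mul, a.u_star_mul, a.u_mul_star, l_one, r_one, l_r B (a.u i)]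
    ring
  have h2 : ∑ i, (a.p i : ℂ) = 1 := by
    rw [← Complex.ofReal_sum, a.p_sum, Complex.ofReal_one]
  have h3 : ∑ i, (a.p i : ℂ) *
      ⟪B.l (a.u i) η - B.r (a.u i) η, B.l (a.u i) ξ - B.r (a.u i) ξ⟫_ℂ =
      2 * ⟪η, ξ⟫_ℂ - ⟪η, B.T a ξ⟫_ℂ - ⟪η, B.T a ξ⟫_ℂ := by
    have e1 := inner_T B a η ξ
    have e2 := inner_T' B a η ξ
    calc _ = ∑ i, ((a.p i : ℂ) * (2 * ⟪η, ξ⟫_ℂ) -
            (a.p i : ℂ) * ⟪η, B.l (star (a.u i)) (B.r (a.u i) ξ)⟫_ℂ -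
            (a.p i : ℂ) * ⟪η, B.l (a.u i) (B.r (star (a.u i)) ξ)⟫_ℂ) := by
          refine Finset.sum_congr rfl fun i _ => ?_
          rw [h1]
          ring
      _ = _ := by
          rw [Finset.sum_sub_distrib, Finset.sum_sub_distrib, ← Finset.sum_mul, h2, one_mul, ← e1,
            ← e2]
  rw [h3, inner_sub_right]
  push_cast
  ring

theorem en_eq (ξ : B.H) : B.en a ξ = (⟪ξ, ξ - B.T a ξ⟫_ℂ).re := by
  rw [en_polar, Complex.re_ofReal_mul, Complex.re_sum]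
  unfold en
  congr 1
  refine Finset.sum_congr rfl fun i _ => ?_
  rw [Complex.re_ofReal_mul, inner_self_eq_norm_sq_to_K]
  norm_cast

theorem en_nonneg (ξ : B.H) : 0 ≤ B.en a ξ := by
  unfold en
  exact mul_nonneg (by norm_num) (Finset.sum_nonneg fun i _ => mul_nonneg (a.p_pos i).le (sq_nonneg _))

theorem en_le (ξ : B.H) : B.en a ξ ≤ ‖ξ‖ ^ 2 := by
  have h1 := B.T_pos a ξ
  have h2 : (⟪ξ, ξ⟫_ℂ).re = ‖ξ‖ ^ 2 := by
    rw [inner_self_eq_norm_sq_to_K]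
    norm_cast
  rw [en_eq, inner_sub_right, Complex.sub_re, h2]
  linarith

theorem en_smul (c : ℂ) (ξ : B.H) : B.en a (c • ξ) = ‖c‖ ^ 2 * B.en a ξ := by
  have h : ∀ i, a.p i * ‖B.l (a.u i) (c • ξ) - B.r (a.u i) (c • ξ)‖ ^ 2 =
      ‖c‖ ^ 2 * (a.p i * ‖B.l (a.u i) ξ - B.r (a.u i) ξ‖ ^ 2) := by
    intro i
    rw [(B.l (a.u i)).map_smul, (B.r (a.u i)).map_smul, ← smul_sub, norm_smul]
    ring
  unfold en
  simp only [h]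
  rw [← Finset.mul_sum]
  ring

/-- Cauchy-Schwarz for the energy form. -/
theorem inner_sub_T_le (ξ η : B.H) :
    ‖⟪η, ξ - B.T a ξ⟫_ℂ‖ ≤ Real.sqrt (B.en a η) * Real.sqrt (B.en a ξ) := by
  have h1 : ‖⟪η, ξ - B.T a ξ⟫_ℂ‖ ≤ ∑ i, (Real.sqrt (a.p i / 2) * ‖B.l (a.u i) η - B.r (a.u i) η‖) *
      (Real.sqrt (a.p i / 2) * ‖B.l (a.u i) ξ - B.r (a.u i) ξ‖) := by
    rw [en_polar, norm_mul, Complex.norm_real, Real.norm_of_nonneg (by norm_num : (0 : ℝ) ≤ 1 / 2)]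
    refine (mul_le_mul_of_nonneg_left (norm_sum_le _ _) (by norm_num)).trans ?_
    rw [Finset.mul_sum]
    refine Finset.sum_le_sum fun i _ => ?_
    have hp := (a.p_pos i).le
    rw [norm_mul, Complex.norm_real, Real.norm_of_nonneg hp]
    have h2 := norm_inner_le_norm (𝕜 := ℂ) (B.l (a.u i) η - B.r (a.u i) η)
      (B.l (a.u i) ξ - B.r (a.u i) ξ)
    have h3 : Real.sqrt (a.p i / 2) * Real.sqrt (a.p i / 2) = a.p i / 2 :=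
      Real.mul_self_sqrt (by positivity)
    calc 1 / 2 * (a.p i * ‖⟪B.l (a.u i) η - B.r (a.u i) η, B.l (a.u i) ξ - B.r (a.u i) ξ⟫_ℂ‖)
        ≤ 1 / 2 * (a.p i * (‖B.l (a.u i) η - B.r (a.u i) η‖ * ‖B.l (a.u i) ξ - B.r (a.u i) ξ‖)) := by
          gcongr
      _ = (a.p i / 2) * (‖B.l (a.u i) η - B.r (a.u i) η‖ * ‖B.l (a.u i) ξ - B.r (a.u i) ξ‖) := by ring
      _ = (Real.sqrt (a.p i / 2) * Real.sqrt (a.p i / 2)) *
          (‖B.l (a.u i) η - B.r (a.u i) η‖ * ‖B.l (a.u i) ξ - B.r (a.u i) ξ‖) := by rw [h3]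
      _ = _ := by ring
  refine h1.trans ?_
  have h4 := Real.sum_mul_le_sqrt_mul_sqrt Finset.univ
    (fun i => Real.sqrt (a.p i / 2) * ‖B.l (a.u i) η - B.r (a.u i) η‖)
    (fun i => Real.sqrt (a.p i / 2) * ‖B.l (a.u i) ξ - B.r (a.u i) ξ‖)
  have h5 : ∀ ζ : B.H, ∑ i, (Real.sqrt (a.p i / 2) * ‖B.l (a.u i) ζ - B.r (a.u i) ζ‖) ^ 2 =
      B.en a ζ := by
    intro ζ
    unfold en
    rw [Finset.mul_sum]
    refine Finset.sum_congr rfl fun i _ => ?_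
    have hp := (a.p_pos i).le
    rw [mul_pow, Real.sq_sqrt (by positivity)]
    ring
  rw [h5, h5] at h4
  exact h4

theorem sqrt_en_add_le (ξ η : B.H) :
    Real.sqrt (B.en a (ξ + η)) ≤ Real.sqrt (B.en a ξ) + Real.sqrt (B.en a η) := by
  have h1 := (Complex.re_le_norm _).trans (B.inner_sub_T_le a ξ η)
  have h2 := (Complex.re_le_norm _).trans (B.inner_sub_T_le a η ξ)
  have h3 : B.en a (ξ + η) = B.en a ξ + (⟪ξ, η - B.T a η⟫_ℂ).re + (⟪η, ξ - B.T a ξ⟫_ℂ).re +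
      B.en a η := by
    rw [en_eq, en_eq, en_eq, map_add]
    have : ξ + η - (B.T a ξ + B.T a η) = (ξ - B.T a ξ) + (η - B.T a η) := by abel
    rw [this, inner_add_left, inner_add_right, inner_add_right]
    simp only [Complex.add_re]
    ring
  apply Real.sqrt_le_iff.mpr
  refine ⟨by positivity, ?_⟩
  have h4 := Real.sq_sqrt (B.en_nonneg a ξ)
  have h5 := Real.sq_sqrt (B.en_nonneg a η)
  rw [h3]
  nlinarith

/-- `e(Tξ) ≤ e(ξ) - ‖ξ - Tξ‖²`. -/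
theorem en_T_le (ξ : B.H) : B.en a (B.T a ξ) ≤ B.en a ξ - ‖ξ - B.T a ξ‖ ^ 2 := by
  obtain ⟨ζ, hζ⟩ : ∃ ζ, ζ = ξ - B.T a ξ := ⟨_, rfl⟩
  have h1 := B.T_pos a ζ
  have h2 : B.en a (B.T a ξ) = (⟪B.T a ξ, B.T a ζ⟫_ℂ).re := by
    rw [en_eq, hζ, map_sub]
  have h3 : B.en a ξ = (⟪ξ, ζ⟫_ℂ).re := by
    rw [en_eq, hζ]
  have h4 : ⟪ζ, B.T a ζ⟫_ℂ = ⟪ξ, ζ⟫_ℂ - ⟪ζ, ζ⟫_ℂ - ⟪B.T a ξ, B.T a ζ⟫_ℂ := by
    have e1 : ⟪ζ, B.T a ζ⟫_ℂ = ⟪ξ, B.T a ζ⟫_ℂ - ⟪B.T a ξ, B.T a ζ⟫_ℂ := by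
      rw [← inner_sub_left, ← hζ]
    have e2 : ⟪ξ, B.T a ζ⟫_ℂ = ⟪ξ, ζ⟫_ℂ - ⟪ζ, ζ⟫_ℂ := by
      rw [← T_symm, ← inner_sub_left]
      congr 1
      rw [hζ]
      abel
    rw [e1, e2]
  have h5 : (⟪ζ, ζ⟫_ℂ).re = ‖ζ‖ ^ 2 := by
    rw [inner_self_eq_norm_sq_to_K]
    norm_cast
  rw [h4, Complex.sub_re, Complex.sub_re, h5, ← h3, ← h2] at h1
  rw [← hζ]
  linarith

end Bim

end Pool.Agent.PTH
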