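import Pool.Agent.PTH.Base

/-!
# Toolbox 1: the real trace, positivity, the 2-norm

Standing assumptions of all working modules:
`[CStarAlgebra N] [PartialOrder N] [StarOrderedRing N] [TrAlg N]`.
`rt x = re (tau x)` is the real trace.
-/

open Filter Topology

namespace Pool.Agent.PTH

open TrAlg

variable {N : Type*} [CStarAlgebra N] [TrAlg N]

theorem rt_def (x : N) : rt x = (tau x).re := rfl

@[simp] theorem rt_zero : rt (0 : N) = 0 := by rw [rt, map_zero, Complex.zero_re]

@[simp] theorem rt_one : rt (1 : N) = 1 := by rw [rt, tau_one, Complex.one_re]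

theorem rt_add (x y : N) : rt (x + y) = rt x + rt y := by
  rw [rt, map_add, Complex.add_re]; rfl

theorem rt_sub (x y : N) : rt (x - y) = rt x - rt y := by
  rw [rt, map_sub, Complex.sub_re]; rfl

theorem rt_neg (x : N) : rt (-x) = -rt x := by
  rw [rt, map_neg, Complex.neg_re]; rfl

theorem tau_real_smul (r : ℝ) (x : N) : tau (r • x) = (r : ℂ) * tau x := by
  rw [← Complex.coe_smul, map_smul, smul_eq_mul]

theorem rt_smul (r : ℝ) (x : N) : rt (r • x) = r * rt x := by
  rw [rt, tau_real_smul, Complex.re_ofReal_mul]; rfl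

theorem rt_sum {ι : Type*} (s : Finset ι) (f : ι → N) :
    rt (∑ i ∈ s, f i) = ∑ i ∈ s, rt (f i) := by
  rw [rt, map_sum, Complex.re_sum]; rfl

theorem rt_comm (x y : N) : rt (x * y) = rt (y * x) := by rw [rt, tau_comm]; rfl

theorem rt_star (x : N) : rt (star x) = rt x := by
  rw [rt, tau_star, Complex.star_def, Complex.conj_re]; rfl

theorem two_sq_rt (x : N) : two x ^ 2 = rt (star x * x) := two_sq x

theorem two_sq_rt' (x : N) : two x ^ 2 = rt (x * star x) := by rw [two_sq_rt, rt_comm]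

theorem two_sq_sa {x : N} (hx : IsSelfAdjoint x) : two x ^ 2 = rt (x * x) := by
  rw [two_sq_rt, hx.star_eq]

theorem rt_star_mul_self_nonneg (x : N) : 0 ≤ rt (star x * x) := tau_pos x

theorem abs_rt_star_mul_le (x y : N) : |rt (star x * y)| ≤ two x * two y :=
  (Complex.abs_re_le_norm _).trans (norm_tau_mul_le x y)

theorem norm_tau_mul_le' (x y : N) : ‖tau (x * y)‖ ≤ two x * two y := by
  have h := norm_tau_mul_le (star x) y
  rwa [star_star, two_star] at h

theorem abs_rt_mul_le (x y : N) : |rt (x * y)| ≤ two x * two y :=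
  (Complex.abs_re_le_norm _).trans (norm_tau_mul_le' x y)

theorem rt_mul_le_two (x y : N) : rt (x * y) ≤ two x * two y :=
  (le_abs_self _).trans (abs_rt_mul_le x y)

theorem abs_rt_le (x : N) : |rt x| ≤ two x := (Complex.abs_re_le_norm _).trans (norm_tau_le x)

theorem two_smul_real (r : ℝ) (x : N) : two (r • x) = |r| * two x := by
  rw [← Complex.coe_smul, two_smul', Complex.norm_real, Real.norm_eq_abs]

theorem two_add_sq (x y : N) : two (x + y) ^ 2 = two x ^ 2 + 2 * rt (star x * y) + two y ^ 2 := by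
  rw [two_sq_rt, two_sq_rt, two_sq_rt]
  have e : star (x + y) * (x + y) = star x * x + star x * y + star y * x + star y * y := by
    rw [star_add]; noncomm_ring
  have h : rt (star y * x) = rt (star x * y) := by
    rw [← rt_star (star x * y), star_mul, star_star]
  rw [e, rt_add, rt_add, rt_add, h]
  ring

theorem two_sub_sq (x y : N) : two (x - y) ^ 2 = two x ^ 2 - 2 * rt (star x * y) + two y ^ 2 := by
  rw [sub_eq_add_neg, two_add_sq, two_neg, mul_neg, rt_neg]
  ring

theorem two_mul_unitary {u : N} (hu : u * star u = 1) (x : N) : two (x * u) = two x := by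
  have h : two (x * u) ^ 2 = two x ^ 2 := by
    rw [two_sq_rt', two_sq_rt', star_mul]
    have : x * u * (star u * star x) = x * (u * star u) * star x := by noncomm_ring
    rw [this, hu, mul_one]
  exact (sq_eq_sq₀ (two_nonneg _) (two_nonneg _)).1 h

theorem two_unitary_mul {u : N} (hu : star u * u = 1) (x : N) : two (u * x) = two x := by
  have h : two (u * x) ^ 2 = two x ^ 2 := by
    rw [two_sq_rt, two_sq_rt, star_mul]
    have : star x * star u * (u * x) = star x * (star u * u) * x := by noncomm_ring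
    rw [this, hu, mul_one]
  exact (sq_eq_sq₀ (two_nonneg _) (two_nonneg _)).1 h

theorem two_sum_le {ι : Type*} (s : Finset ι) (f : ι → N) :
    two (∑ i ∈ s, f i) ≤ ∑ i ∈ s, two (f i) := by
  classical
  induction s using Finset.induction_on with
  | empty => simp [two_zero]
  | insert a s ha ih =>
    rw [Finset.sum_insert ha, Finset.sum_insert ha]
    exact (two_add_le _ _).trans (by gcongr)

theorem two_mul_mul_le (x y z : N) : two (x * y * z) ≤ ‖x‖ * two y * ‖z‖ :=
  (two_mul_le' _ _).trans (mul_le_mul_of_nonneg_right (two_mul_le _ _) (norm_nonneg _))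

section order

variable [PartialOrder N] [StarOrderedRing N]

theorem rt_nonneg {x : N} (hx : 0 ≤ x) : 0 ≤ rt x := by
  obtain ⟨z, rfl⟩ := CStarAlgebra.nonneg_iff_eq_star_mul_self.1 hx
  exact tau_pos z

theorem rt_mono {x y : N} (h : x ≤ y) : rt x ≤ rt y := by
  have := rt_nonneg (sub_nonneg.2 h)
  rw [rt_sub] at this
  linarith

theorem tau_eq_rt {x : N} (hx : IsSelfAdjoint x) : tau x = (rt x : ℂ) := by
  have h := tau_star x
  rw [hx.star_eq] at h
  exact (Complex.conj_eq_iff_re.1 h.symm).symm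

theorem eq_zero_of_rt {x : N} (hx : 0 ≤ x) (h : rt x = 0) : x = 0 := by
  obtain ⟨z, rfl⟩ := CStarAlgebra.nonneg_iff_eq_star_mul_self.1 hx
  have h1 : two z = 0 := by
    have : two z ^ 2 = 0 := h ▸ two_sq_rt z
    exact pow_eq_zero_iff (two_ne_zero) |>.1 this
  rw [two_eq_zero h1]
  simp

theorem rt_pos_of_ne_zero {x : N} (hx : 0 ≤ x) (h : x ≠ 0) : 0 < rt x :=
  lt_of_le_of_ne (rt_nonneg hx) fun e => h (eq_zero_of_rt hx e.symm)

theorem rt_conj_nonneg {a : N} (ha : 0 ≤ a) (x : N) : 0 ≤ rt (star x * a * x) :=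
  rt_nonneg (star_left_conjugate_nonneg ha x)

theorem rt_conj_nonneg' {a : N} (ha : 0 ≤ a) (x : N) : 0 ≤ rt (x * a * star x) :=
  rt_nonneg (star_right_conjugate_nonneg ha x)

theorem rt_mul_nonneg {a b : N} (ha : 0 ≤ a) (hb : 0 ≤ b) : 0 ≤ rt (a * b) := by
  obtain ⟨z, rfl⟩ := CStarAlgebra.nonneg_iff_eq_star_mul_self.1 hb
  have e : rt (a * (star z * z)) = rt (z * a * star z) := by
    rw [← mul_assoc, rt_comm, mul_assoc]
  rw [e]
  exact rt_conj_nonneg' ha z

/-- Monotonicity of the trace of a product: `a ≥ 0`, `b ≤ c`. -/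
theorem rt_mul_mono {a b c : N} (ha : 0 ≤ a) (h : b ≤ c) : rt (a * b) ≤ rt (a * c) := by
  have := rt_mul_nonneg ha (sub_nonneg.2 h)
  rw [mul_sub, rt_sub] at this
  linarith

theorem rt_mul_mono' {a b c : N} (ha : 0 ≤ a) (h : b ≤ c) : rt (b * a) ≤ rt (c * a) := by
  rw [rt_comm b, rt_comm c]
  exact rt_mul_mono ha h

theorem le_norm_smul_one {x : N} (hx : IsSelfAdjoint x) : x ≤ ‖x‖ • (1 : N) := by
  have h := hx.le_algebraMap_norm_self
  rwa [Algebra.algebraMap_eq_smul_one] at h

theorem rt_mul_le_norm {a x : N} (ha : 0 ≤ a) (hx : IsSelfAdjoint x) :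
    rt (a * x) ≤ ‖x‖ * rt a := by
  have h := rt_mul_mono ha (le_norm_smul_one hx)
  rwa [mul_smul_comm, mul_one, rt_smul] at h

/-- `0 ≤ x`, `‖x‖ ≤ C` gives `‖x‖₂² ≤ C rt x`. -/
theorem two_sq_le_of_norm_le {x : N} (hx : 0 ≤ x) {C : ℝ} (hC : ‖x‖ ≤ C) :
    two x ^ 2 ≤ C * rt x := by
  rw [two_sq_sa (IsSelfAdjoint.of_nonneg hx)]
  exact (rt_mul_le_norm hx (IsSelfAdjoint.of_nonneg hx)).trans
    (mul_le_mul_of_nonneg_right hC (rt_nonneg hx))

theorem two_proj {p : N} (hp : Prj p) : two p ^ 2 = rt p := by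
  rw [two_sq_rt, hp.1, hp.2]

theorem proj_nonneg {p : N} (hp : Prj p) : 0 ≤ p := by
  rw [← hp.2]
  nth_rewrite 1 [← hp.1]
  exact star_mul_self_nonneg p

theorem rt_proj_pos {p : N} (hp : Prj p) (h : p ≠ 0) : 0 < rt p :=
  rt_pos_of_ne_zero (proj_nonneg hp) h

theorem proj_le_one {p : N} (hp : Prj p) : p ≤ 1 := by
  have h : Prj (1 - p) := by
    refine ⟨by rw [star_sub, star_one, hp.1], ?_⟩
    have h2 := hp.2
    have : (1 - p) * (1 - p) = 1 - p - p + p * p := by noncomm_ring
    rw [this, h2]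
    noncomm_ring
  exact sub_nonneg.1 (proj_nonneg h)

end order

theorem norm_proj_le {p : N} (hp : Prj p) : ‖p‖ ≤ 1 := by
  have h1 : ‖p‖ * ‖p‖ = ‖p‖ := by
    rw [← CStarRing.norm_star_mul_self, hp.1, hp.2]
  rcases eq_or_ne ‖p‖ 0 with h | h
  · rw [h]; norm_num
  · have := mul_left_cancel₀ h (h1.trans (mul_one _).symm)
    rw [this]

end Pool.Agent.PTH
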