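import Pool.Agent.PTH.Base
import Pool.Agent.PTH.Tb0

/-!
# PTH / TbRN: Radon-Nikodym lemma (0.9)

A positive functional `φ ≤ C τ` on `A` is `φ(x) = τ(x d)` with `d ∈ A`, `0 ≤ d ≤ C`.
PROOF (no completion needed, only `ball_complete`).  `K = {d : 0 ≤ d ≤ C}`; it is convex and
2-norm complete (`ball_complete` applied to `x/C`; `0 ≤ lim` and `lim ≤ C` pass to 2-norm limits:
`Re τ(z* x z) ≥ 0` for all `z` iff `x ≥ 0`).  Put `J(d) = ‖d‖₂² - 2 Re φ(d)` on self-adjoint `d`
(`= ‖d - y'‖² - ‖y'‖²` if `φ = ⟨·, y'⟩`); `J` is bounded below on `K` (`|φ(d)| ≤ C`), parallelogram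
law: a minimising sequence is 2-norm Cauchy, so there is a minimiser `d ∈ K` (`φ` is 2-norm
continuous: `|φ(x)|² ≤ φ(1) φ(x* x) ≤ C² ‖x‖₂²`).  First order condition: for all `x ∈ K`
`Re τ(d (x - d)) ≥ Re φ(x - d)`.      (1)
Let `ψ(x) = φ(x) - τ(x d)`.  `ψ` is a real functional on self-adjoint elements, `ψ(x - d) ≤ 0` on
`K`, 2-norm continuous: `|ψ(x)| ≤ 2C ‖x‖₂`.  CLAIM `ψ = 0`.  Otherwise, as the self-adjoint part
of `A` is dense in its 2-norm completion, choose (Riesz in the completion, or directly: a sequence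
`c_n` of self-adjoint elements, `‖c_n‖₂ ≤ ‖ψ‖`, `ψ(c_n) → ‖ψ‖²`, `‖ψ‖ = sup ψ(x)/‖x‖₂`; then
`‖τ(· c_n) - ψ‖ → 0` as functionals) `c` self-adjoint with `|ψ(x) - Re τ(x c)| ≤ ε ‖x‖₂` for all
self-adjoint `x`.  With `x = C min(1, c₊/δ)` (cfc), `δ → 0`: `Re τ(x c) → C τ(c₊)`, while by
`φ ≤ C τ`, `φ ≥ 0`: `Re φ(c) ≤ C τ(c₊)`.  So `ψ(x) ≥ Re τ(xc) - εC ≥ φ(c) - 2εC` and
`ψ(x - d) ≥ φ(c) - 2εC - ψ(d)`, `ψ(d) ≤ Re τ(d c) + εC`: so
`0 ≥ ψ(x-d) ≥ φ(c) - Re τ(dc) - 3εC = ψ(c) - 3εC ≥ ‖ψ‖²/2 - ...`, contradiction for small `ε`.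

LEAN PROOF (shorter, helper73).  For `ε > 0` minimise `‖c‖₂² - 2 Re φ(c)` up to `ε²` over self-adjoint
`c`: then `|Re φ(x) - τ(xc)| ≤ ε ‖x‖₂` for all self-adjoint `x` (discriminant).  Testing with
`x = (c - C)₊` and `x = c₋` gives `‖(c - C)₊‖₂ ≤ ε`, `‖c₋‖₂ ≤ ε`, so the truncation `d = f(c)`,
`f(t) = max 0 (min t C)`, satisfies the same with `3ε`, and `‖d‖ ≤ C`.  These `d` are 2-norm Cauchy;
the limit has `ε = 0`, so it is equal to its truncation.
-/

open Filter Topology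
open scoped InnerProductSpace ComplexOrder

namespace Pool.Agent.PTH

variable {A : Type*} [CStarAlgebra A] [PartialOrder A] [StarOrderedRing A] [TracialVN A]

open TrAlg

section parts

omit [TracialVN A] [PartialOrder A] [StarOrderedRing A]

/-- truncation of a self-adjoint element at `0` and `C` -/
private theorem rn_parts {c : A} (hc : IsSelfAdjoint c) {C : ℝ} (hC : 0 ≤ C) :
    c = cfc (fun t : ℝ => max 0 (min t C)) c + cfc (fun t : ℝ => max (t - C) 0) c -
        cfc (fun t : ℝ => max (-t) 0) c ∧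
      cfc (fun t : ℝ => max (t - C) 0) c * c = cfc (fun t : ℝ => max (t - C) 0) c *
        cfc (fun t : ℝ => max (t - C) 0) c + C • cfc (fun t : ℝ => max (t - C) 0) c ∧
      cfc (fun t : ℝ => max (-t) 0) c * c = -(cfc (fun t : ℝ => max (-t) 0) c *
        cfc (fun t : ℝ => max (-t) 0) c) := by
  have hid : cfc (fun t : ℝ => t) c = c := cfc_id' ℝ c
  refine ⟨?_, ?_, ?_⟩
  · have e1 : cfc (fun t : ℝ => max 0 (min t C) + max (t - C) 0 - max (-t) 0) c =
        cfc (fun t : ℝ => max 0 (min t C)) c + cfc (fun t : ℝ => max (t - C) 0) c -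
        cfc (fun t : ℝ => max (-t) 0) c := by
      rw [cfc_sub (fun t : ℝ => max 0 (min t C) + max (t - C) 0) (fun t : ℝ => max (-t) 0) c,
        cfc_add c (fun t : ℝ => max 0 (min t C)) (fun t : ℝ => max (t - C) 0)]
    rw [← e1]
    conv_lhs => rw [← hid]
    refine cfc_congr fun t _ => ?_
    show t = max 0 (min t C) + max (t - C) 0 - max (-t) 0
    rcases le_total t 0 with h | h
    · rw [min_eq_left (h.trans hC), max_eq_left h, max_eq_right (by linarith),
        max_eq_left (by linarith)]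
      ring
    · rcases le_total t C with h2 | h2
      · rw [min_eq_left h2, max_eq_right h, max_eq_right (by linarith),
          max_eq_right (by linarith)]
        ring
      · rw [min_eq_right h2, max_eq_right hC, max_eq_left (by linarith),
          max_eq_right (by linarith)]
        ring
  · have e1 : cfc (fun t : ℝ => max (t - C) 0 * t) c = cfc (fun t : ℝ => max (t - C) 0) c * c := by
      rw [cfc_mul (fun t : ℝ => max (t - C) 0) (fun t : ℝ => t) c, hid]
    have e2 : cfc (fun t : ℝ => max (t - C) 0 * max (t - C) 0 + C * max (t - C) 0) c =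
        cfc (fun t : ℝ => max (t - C) 0) c * cfc (fun t : ℝ => max (t - C) 0) c +
          C • cfc (fun t : ℝ => max (t - C) 0) c := by
      rw [cfc_add c (fun t : ℝ => max (t - C) 0 * max (t - C) 0)
        (fun t : ℝ => C * max (t - C) 0), cfc_mul (fun t : ℝ => max (t - C) 0)
        (fun t : ℝ => max (t - C) 0) c, cfc_const_mul C (fun t : ℝ => max (t - C) 0) c]
    rw [← e1, ← e2]
    refine cfc_congr fun t _ => ?_
    show max (t - C) 0 * t = max (t - C) 0 * max (t - C) 0 + C * max (t - C) 0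
    rcases le_total t C with h | h
    · rw [max_eq_right (by linarith : t - C ≤ 0)]
      ring
    · rw [max_eq_left (by linarith : 0 ≤ t - C)]
      ring
  · have e1 : cfc (fun t : ℝ => max (-t) 0 * t) c = cfc (fun t : ℝ => max (-t) 0) c * c := by
      rw [cfc_mul (fun t : ℝ => max (-t) 0) (fun t : ℝ => t) c, hid]
    have e2 : cfc (fun t : ℝ => -(max (-t) 0 * max (-t) 0)) c =
        -(cfc (fun t : ℝ => max (-t) 0) c * cfc (fun t : ℝ => max (-t) 0) c) := by
      rw [cfc_neg (fun t : ℝ => max (-t) 0 * max (-t) 0) c, cfc_mul (fun t : ℝ => max (-t) 0)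
        (fun t : ℝ => max (-t) 0) c]
    rw [← e1, ← e2]
    refine cfc_congr fun t _ => ?_
    show max (-t) 0 * t = -(max (-t) 0 * max (-t) 0)
    rcases le_total t 0 with h | h
    · rw [max_eq_left (by linarith : 0 ≤ -t)]
      ring
    · rw [max_eq_right (by linarith : -t ≤ 0)]
      ring

end parts

/-- positive and negative part -/
private theorem rn_pm {x : A} (hx : IsSelfAdjoint x) :
    ∃ p q : A, 0 ≤ p ∧ 0 ≤ q ∧ x = p - q ∧ two p ≤ two x ∧ two q ≤ two x := by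
  obtain ⟨h1, h2, h3⟩ := rn_parts hx le_rfl
  set p := cfc (fun t : ℝ => max (t - 0) 0) x with hp
  set q := cfc (fun t : ℝ => max (-t) 0) x with hq
  have hp0 : 0 ≤ p := cfc_nonneg fun t _ => le_max_right _ _
  have hq0 : 0 ≤ q := cfc_nonneg fun t _ => le_max_right _ _
  have hf : cfc (fun t : ℝ => max 0 (min t 0)) x = 0 := by
    have e1 : cfc (fun t : ℝ => max 0 (min t 0)) x = cfc (fun _ : ℝ => (0 : ℝ)) x :=
      cfc_congr fun t _ => max_eq_left (min_le_right _ _)
    rw [e1, cfc_const_zero]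
  rw [hf, zero_add] at h1
  rw [zero_smul, add_zero] at h2
  have hsum : two x ^ 2 = two p ^ 2 + two q ^ 2 := by
    rw [two_sq_sa hx, two_sq_sa (IsSelfAdjoint.of_nonneg hp0),
      two_sq_sa (IsSelfAdjoint.of_nonneg hq0)]
    conv_lhs => rw [show x * x = (p - q) * x from congrArg (· * x) h1]
    rw [sub_mul, h2, h3, rt_sub, rt_neg]
    ring
  refine ⟨p, q, hp0, hq0, h1, ?_, ?_⟩
  · refine (sq_le_sq₀ (two_nonneg _) (two_nonneg _)).1 ?_
    rw [hsum]
    exact le_add_of_nonneg_right (sq_nonneg _)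
  · refine (sq_le_sq₀ (two_nonneg _) (two_nonneg _)).1 ?_
    rw [hsum]
    exact le_add_of_nonneg_left (sq_nonneg _)

section func

variable {φ : A →ₗ[ℂ] ℂ} {C : ℝ}

omit [TracialVN A] [PartialOrder A] [StarOrderedRing A] in
private theorem rn_smul (φ : A →ₗ[ℂ] ℂ) (t : ℝ) (x : A) : (φ (t • x)).re = t * (φ x).re := by
  rw [← Complex.coe_smul, map_smul, smul_eq_mul, Complex.re_ofReal_mul]

private theorem rn_bdd (hC : 0 ≤ C)
    (h : ∀ x : A, 0 ≤ x → 0 ≤ (φ x).re ∧ (φ x).im = 0 ∧ (φ x).re ≤ C * rt x)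
    {x : A} (hx : IsSelfAdjoint x) : |(φ x).re| ≤ C * two x := by
  obtain ⟨p, q, hp, hq, he, h1, h2⟩ := rn_pm hx
  obtain ⟨a1, -, a3⟩ := h p hp
  obtain ⟨b1, -, b3⟩ := h q hq
  have e1 : (φ x).re = (φ p).re - (φ q).re := by rw [he, map_sub, Complex.sub_re]
  have e2 : C * rt p ≤ C * two x :=
    mul_le_mul_of_nonneg_left (((le_abs_self _).trans (abs_rt_le p)).trans h1) hC
  have e3 : C * rt q ≤ C * two x :=
    mul_le_mul_of_nonneg_left (((le_abs_self _).trans (abs_rt_le q)).trans h2) hC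
  rw [abs_le, e1]
  constructor <;> linarith

/-- approximate Riesz representation -/
private theorem rn_riesz (hC : 0 ≤ C)
    (h : ∀ x : A, 0 ≤ x → 0 ≤ (φ x).re ∧ (φ x).im = 0 ∧ (φ x).re ≤ C * rt x)
    {ε : ℝ} (hε : 0 < ε) :
    ∃ c : A, IsSelfAdjoint c ∧ ∀ x : A, IsSelfAdjoint x →
      |(φ x).re - rt (x * c)| ≤ ε * two x := by
  set J : A → ℝ := fun c => two c ^ 2 - 2 * (φ c).re with hJ
  set S : Set ℝ := J '' {c | IsSelfAdjoint c} with hS
  have hne : S.Nonempty := ⟨J 0, 0, IsSelfAdjoint.zero A, rfl⟩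
  have hbd : BddBelow S := by
    refine ⟨-C ^ 2, ?_⟩
    rintro _ ⟨c, hc, rfl⟩
    have e1 := (abs_le.1 (rn_bdd hC h hc)).2
    show -C ^ 2 ≤ two c ^ 2 - 2 * (φ c).re
    nlinarith [sq_nonneg (two c - C)]
  obtain ⟨_, ⟨c, hc, rfl⟩, hlt⟩ := exists_lt_of_csInf_lt hne
    (show sInf S < sInf S + ε ^ 2 by linarith [pow_pos hε 2])
  have hcs : IsSelfAdjoint c := hc
  refine ⟨c, hcs, fun x hx => ?_⟩
  have hquad : ∀ t : ℝ, 0 ≤ two x ^ 2 * (t * t) + 2 * (rt (x * c) - (φ x).re) * t + ε ^ 2 := by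
    intro t
    have hct : IsSelfAdjoint (c + t • x) := hcs.add (IsSelfAdjoint.smul (IsSelfAdjoint.all t) hx)
    have e1 : sInf S ≤ J (c + t • x) := csInf_le hbd ⟨c + t • x, hct, rfl⟩
    have e2 : J (c + t • x) = J c + (two x ^ 2 * (t * t) + 2 * (rt (x * c) - (φ x).re) * t) := by
      show two (c + t • x) ^ 2 - 2 * (φ (c + t • x)).re = two c ^ 2 - 2 * (φ c).re + _
      rw [two_add_sq, hcs.star_eq, mul_smul_comm, rt_smul, two_smul_real, map_add,
        Complex.add_re, rn_smul, mul_pow, sq_abs, rt_comm c x]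
      ring
    rw [e2] at e1
    linarith
  have hd := discrim_le_zero hquad
  unfold discrim at hd
  have h3 : ((φ x).re - rt (x * c)) ^ 2 ≤ (ε * two x) ^ 2 := by
    nlinarith
  exact abs_le_of_sq_le_sq h3 (mul_nonneg hε.le (two_nonneg x))

/-- the truncated parts are small -/
private theorem rn_trunc (hC : 0 ≤ C)
    (h : ∀ x : A, 0 ≤ x → 0 ≤ (φ x).re ∧ (φ x).im = 0 ∧ (φ x).re ≤ C * rt x)
    {ε : ℝ} (hε : 0 ≤ ε) {c : A} (hc : IsSelfAdjoint c)
    (hcx : ∀ x : A, IsSelfAdjoint x → |(φ x).re - rt (x * c)| ≤ ε * two x) :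
    two (cfc (fun t : ℝ => max (t - C) 0) c) ≤ ε ∧ two (cfc (fun t : ℝ => max (-t) 0) c) ≤ ε := by
  obtain ⟨-, h2, h3⟩ := rn_parts hc hC
  set p := cfc (fun t : ℝ => max (t - C) 0) c with hp
  set q := cfc (fun t : ℝ => max (-t) 0) c with hq
  have hp0 : 0 ≤ p := cfc_nonneg fun t _ => le_max_right _ _
  have hq0 : 0 ≤ q := cfc_nonneg fun t _ => le_max_right _ _
  have key : ∀ s : ℝ, 0 ≤ s → s ^ 2 ≤ ε * s → s ≤ ε := by
    intro s hs hs2
    rcases hs.eq_or_lt with h0 | h0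
    · rw [← h0]
      exact hε
    · rw [sq] at hs2
      exact le_of_mul_le_mul_right hs2 h0
  constructor
  · refine key _ (two_nonneg _) ?_
    have e1 := (abs_le.1 (hcx p (IsSelfAdjoint.of_nonneg hp0))).1
    have e2 := (h p hp0).2.2
    rw [h2, rt_add, rt_smul, ← two_sq_sa (IsSelfAdjoint.of_nonneg hp0)] at e1
    linarith
  · refine key _ (two_nonneg _) ?_
    have e1 := (abs_le.1 (hcx q (IsSelfAdjoint.of_nonneg hq0))).2
    have e2 := (h q hq0).1
    rw [h3, rt_neg, ← two_sq_sa (IsSelfAdjoint.of_nonneg hq0)] at e1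
    linarith

/-- bounded approximate densities -/
private theorem rn_approx (hC : 0 ≤ C)
    (h : ∀ x : A, 0 ≤ x → 0 ≤ (φ x).re ∧ (φ x).im = 0 ∧ (φ x).re ≤ C * rt x)
    {ε : ℝ} (hε : 0 < ε) :
    ∃ d : A, IsSelfAdjoint d ∧ ‖d‖ ≤ C ∧ ∀ x : A, IsSelfAdjoint x →
      |(φ x).re - rt (x * d)| ≤ 3 * ε * two x := by
  obtain ⟨c, hc, hcx⟩ := rn_riesz hC h hε
  obtain ⟨h1, -, -⟩ := rn_parts hc hC
  obtain ⟨h4, h5⟩ := rn_trunc hC h hε.le hc hcx
  refine ⟨cfc (fun t : ℝ => max 0 (min t C)) c, cfc_predicate _ c, ?_, fun x hx => ?_⟩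
  · refine norm_cfc_le hC fun t _ => ?_
    rw [Real.norm_eq_abs, abs_of_nonneg (le_max_left _ _)]
    exact max_le hC (min_le_right _ _)
  · set f := cfc (fun t : ℝ => max 0 (min t C)) c with hf
    set p := cfc (fun t : ℝ => max (t - C) 0) c with hp
    set q := cfc (fun t : ℝ => max (-t) 0) c with hq
    have e1 : rt (x * f) = rt (x * c) - rt (x * p) + rt (x * q) := by
      have e2 : f = c - p + q := by
        conv_rhs => rw [h1]
        abel
      rw [e2, mul_add, mul_sub, rt_add, rt_sub]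
    have e3 := abs_le.1 (hcx x hx)
    have e4 := abs_le.1 (abs_rt_mul_le x p)
    have e5 := abs_le.1 (abs_rt_mul_le x q)
    have e6 : two x * two p ≤ two x * ε := mul_le_mul_of_nonneg_left h4 (two_nonneg x)
    have e7 : two x * two q ≤ two x * ε := mul_le_mul_of_nonneg_left h5 (two_nonneg x)
    rw [e1, abs_le]
    constructor <;> linarith [e3.1, e3.2, e4.1, e4.2, e5.1, e5.2]

/-- the density, for self-adjoint elements -/
private theorem rn_real (hC : 0 ≤ C)
    (h : ∀ x : A, 0 ≤ x → 0 ≤ (φ x).re ∧ (φ x).im = 0 ∧ (φ x).re ≤ C * rt x) :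
    ∃ d : A, IsSelfAdjoint d ∧ ∀ x : A, IsSelfAdjoint x → (φ x).re = rt (x * d) := by
  choose d hds hdn hdx using fun n : ℕ => rn_approx (φ := φ) hC h
    (show (0 : ℝ) < 1 / ((n : ℝ) + 1) from Nat.one_div_pos_of_nat)
  have hC1 : 0 < C + 1 := by linarith
  have hcau : ∀ m n, two (d m - d n) ≤ 3 * (1 / ((m : ℝ) + 1)) + 3 * (1 / ((n : ℝ) + 1)) := by
    intro m n
    have hsa : IsSelfAdjoint (d m - d n) := (hds m).sub (hds n)
    have e1 : two (d m - d n) ^ 2 = rt ((d m - d n) * d m) - rt ((d m - d n) * d n) := by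
      rw [two_sq_sa hsa, ← rt_sub, ← mul_sub]
    have e2 := abs_le.1 (hdx m _ hsa)
    have e3 := abs_le.1 (hdx n _ hsa)
    have e4 : two (d m - d n) ^ 2 ≤
        (3 * (1 / ((m : ℝ) + 1)) + 3 * (1 / ((n : ℝ) + 1))) * two (d m - d n) := by
      rw [e1]
      linarith [e2.1, e2.2, e3.1, e3.2]
    rcases (two_nonneg (d m - d n)).eq_or_lt with h0 | h0
    · rw [← h0]
      positivity
    · rw [sq] at e4
      exact le_of_mul_le_mul_right e4 h0
  have hlim0 : Tendsto (fun n : ℕ => 1 / ((n : ℝ) + 1)) atTop (𝓝 0) :=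
    tendsto_one_div_add_atTop_nhds_zero_nat
  obtain ⟨y, -, hy⟩ := TracialVN.ball_complete (fun n => (C + 1)⁻¹ • d n)
    (by
      intro n
      rw [norm_smul, Real.norm_eq_abs, abs_of_pos (inv_pos.2 hC1), inv_mul_le_iff₀ hC1]
      linarith [hdn n])
    (by
      intro ε hε
      obtain ⟨k, hk⟩ := Filter.eventually_atTop.1 (hlim0.eventually_lt_const
        (show (0 : ℝ) < ε / 6 by positivity))
      refine ⟨k, fun m hm n hn => ?_⟩
      rw [← smul_sub, two_smul_real, abs_of_pos (inv_pos.2 hC1), inv_mul_le_iff₀ hC1]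
      have e1 := hcau m n
      have e2 := hk m hm
      have e3 := hk n hn
      nlinarith)
  have hlim : Tendsto (fun n => two (d n - (C + 1) • y)) atTop (𝓝 0) := by
    have e1 : ∀ n, two (d n - (C + 1) • y) = (C + 1) * two ((C + 1)⁻¹ • d n - y) := by
      intro n
      have e2 : d n - (C + 1) • y = (C + 1) • ((C + 1)⁻¹ • d n - y) := by
        rw [smul_sub, smul_smul, mul_inv_cancel₀ hC1.ne', one_smul]
      rw [e2, two_smul_real, abs_of_pos hC1]
    simp only [e1]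
    have e3 := hy.const_mul (C + 1)
    rwa [mul_zero] at e3
  set D : A := (C + 1) • y with hD
  refine ⟨D, ?_, ?_⟩
  · have e1 : ∀ n, two (star D - D) ≤ 2 * two (d n - D) := by
      intro n
      have e2 : two (star D - d n) = two (d n - D) := by
        rw [two_sub_comm, ← two_star, star_sub, star_star, (hds n).star_eq]
      have e3 := two_sub_le_sub (star D) (d n) D
      rw [e2] at e3
      linarith
    have e4 : two (star D - D) ≤ 0 := by
      have e5 := hlim.const_mul 2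
      rw [mul_zero] at e5
      exact ge_of_tendsto e5 (Eventually.of_forall e1)
    have e6 := two_eq_zero (le_antisymm e4 (two_nonneg _))
    exact sub_eq_zero.1 e6
  · intro x hx
    have e1 : ∀ n : ℕ, |(φ x).re - rt (x * D)| ≤
        3 * (1 / ((n : ℝ) + 1)) * two x + two x * two (d n - D) := by
      intro n
      have e2 := hdx n x hx
      have e3 := abs_rt_mul_le x (d n - D)
      rw [mul_sub, rt_sub] at e3
      have e4 := abs_add_le ((φ x).re - rt (x * d n)) (rt (x * d n) - rt (x * D))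
      rw [sub_add_sub_cancel] at e4
      linarith
    have e5 : Tendsto (fun n : ℕ => 3 * (1 / ((n : ℝ) + 1)) * two x + two x * two (d n - D))
        atTop (𝓝 0) := by
      have e6 := ((hlim0.const_mul 3).mul_const (two x)).add (hlim.const_mul (two x))
      simpa using e6
    have e7 : |(φ x).re - rt (x * D)| ≤ 0 := ge_of_tendsto e5 (Eventually.of_forall e1)
    exact sub_eq_zero.1 (abs_eq_zero.1 (le_antisymm e7 (abs_nonneg _)))

end func

/-- Radon-Nikodym. -/
theorem radonNikodym (φ : A →ₗ[ℂ] ℂ) (C : ℝ) (hC : 0 ≤ C)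
    (h : ∀ x : A, 0 ≤ x → 0 ≤ (φ x).re ∧ (φ x).im = 0 ∧ (φ x).re ≤ C * rt x) :
    ∃ d : A, 0 ≤ d ∧ d ≤ C • (1 : A) ∧ ∀ x : A, φ x = TrAlg.tau (x * d) := by
  obtain ⟨d, hd, hdx⟩ := rn_real hC h
  obtain ⟨h4, h5⟩ := rn_trunc hC h le_rfl hd (fun x hx => by
    rw [hdx x hx, sub_self, abs_zero, zero_mul])
  obtain ⟨h1, -, -⟩ := rn_parts hd hC
  rw [two_eq_zero (le_antisymm h4 (two_nonneg _)), two_eq_zero (le_antisymm h5 (two_nonneg _)),
    add_zero, sub_zero] at h1
  have hsa : ∀ x : A, IsSelfAdjoint x → φ x = TrAlg.tau (x * d) := by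
    intro x hx
    refine Complex.ext (hdx x hx) ?_
    obtain ⟨p, q, hp, hq, he, -, -⟩ := rn_pm hx
    have e1 : (φ x).im = 0 := by
      rw [he, map_sub, Complex.sub_im, (h p hp).2.1, (h q hq).2.1, sub_zero]
    have e2 : star (TrAlg.tau (x * d)) = TrAlg.tau (x * d) := by
      rw [← TrAlg.tau_star, star_mul, hd.star_eq, hx.star_eq, TrAlg.tau_comm]
    rw [e1]
    exact (Complex.conj_eq_iff_im.1 e2).symm
  refine ⟨d, ?_, ?_, fun x => ?_⟩
  · rw [h1]
    exact cfc_nonneg fun t _ => le_max_left _ _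
  · rw [h1, ← Algebra.algebraMap_eq_smul_one]
    exact cfc_le_algebraMap _ _ _ (fun t _ => max_le hC (min_le_right _ _))
  · have e1 := realPart_add_I_smul_imaginaryPart x
    rw [← e1, map_add, map_smul, add_mul, map_add, smul_mul_assoc, map_smul,
      hsa _ (realPart x).2, hsa _ (imaginaryPart x).2]

end Pool.Agent.PTH
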