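import Pool.Agent.PTH.AvD
import Pool.Agent.PTH.TbRN

/-!
# PTH / AvC: stability of bounded densities

`Bdd_l`: `ξ` with densities `y` (left), `y'` (right): the left density of `xξ` is `x y x*`
(`LD_l`).  The right functional `z ↦ ⟨xξ, xξ z⟩ = ⟨ξ, x*x ξ z⟩` is linear; for `z ≥ 0`
(`z = w w*`, right action by `z` = `r(z) = r(w*) r(w)..` positive and commuting with `l(x*x)`) it is
real, `≥ 0` and `≤ ‖x‖² ⟨ξ, ξz⟩ = ‖x‖² τ(z y')`, and `τ(z y') ≤ ‖y'‖ τ(z)`: Radon-Nikodym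
(`radonNikodym`).  `Bdd_add`: `⟨ξ+η, (ξ+η)z⟩ ≤ 2⟨ξ,ξz⟩ + 2⟨η,ηz⟩` for `z ≥ 0`, again Radon-Nikodym.
-/

open Filter Topology MulOpposite
open scoped InnerProductSpace ComplexOrder

universe u

namespace Pool.Agent.PTH

namespace Bim

variable {A : Type u} [CStarAlgebra A] [PartialOrder A] [StarOrderedRing A] [TracialVN A]
  (B : Bim.{u} A) (a : Avg A)

section priv

variable {B}

omit [TracialVN A] in
private theorem exw31 {z : A} (hz : 0 ≤ z) : ∃ w : A, z = star w * w :=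
  CStarAlgebra.nonneg_iff_eq_star_mul_self.1 hz

private theorem rt_nonneg31 {z : A} (hz : 0 ≤ z) : 0 ≤ rt z := by
  obtain ⟨w, rfl⟩ := exw31 hz
  exact TrAlg.tau_pos w

private theorem rt_mono31 {x y : A} (h : x ≤ y) : rt x ≤ rt y := by
  have h1 := rt_nonneg31 (sub_nonneg.2 h)
  unfold rt at h1 ⊢
  rw [map_sub, Complex.sub_re] at h1
  linarith

private theorem rt_mul_le31 {z y : A} (hz : 0 ≤ z) (hy : 0 ≤ y) : rt (z * y) ≤ ‖y‖ * rt z := by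
  obtain ⟨w, rfl⟩ := exw31 hz
  have h1 : rt (star w * w * y) = rt (w * y * star w) := by
    unfold rt
    rw [mul_assoc, TrAlg.tau_comm]
  have h2 : y ≤ algebraMap ℝ A ‖y‖ := (IsSelfAdjoint.of_nonneg hy).le_algebraMap_norm_self
  have h3 : w * y * star w ≤ w * algebraMap ℝ A ‖y‖ * star w :=
    star_right_conjugate_le_conjugate h2 w
  have h4 : w * algebraMap ℝ A ‖y‖ * star w = ((‖y‖ : ℝ) : ℂ) • (w * star w) := by
    rw [Algebra.algebraMap_eq_smul_one, mul_smul_comm, mul_one, smul_mul_assoc,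
      Complex.coe_smul]
  have h5 : rt (w * star w) = rt (star w * w) := by
    unfold rt
    rw [TrAlg.tau_comm]
  rw [h1]
  refine (rt_mono31 h3).trans (le_of_eq ?_)
  rw [h4]
  unfold rt at h5 ⊢
  rw [map_smul, smul_eq_mul, Complex.re_ofReal_mul, h5]

omit [StarOrderedRing A] [TracialVN A] [PartialOrder A] in
private theorem l_sq31 (w : A) (ζ : B.H) : ⟪ζ, B.l (star w * w) ζ⟫_ℂ = ((‖B.l w ζ‖ ^ 2 : ℝ) : ℂ) := by
  rw [B.l_mul, ← star_star w, ← B.inner_l, star_star, inner_self_eq_norm_sq_to_K]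
  push_cast
  rfl

omit [StarOrderedRing A] [TracialVN A] [PartialOrder A] in
private theorem r_sq31 (w : A) (ζ : B.H) : ⟪ζ, B.r (star w * w) ζ⟫_ℂ = ((‖B.r (star w) ζ‖ ^ 2 : ℝ) : ℂ) := by
  have h := B.inner_r (star w) ζ (B.r (star w) ζ)
  rw [star_star] at h
  rw [B.r_mul, ← h, inner_self_eq_norm_sq_to_K]
  push_cast
  rfl

private theorem mk_LD31 {ζ : B.H} {C : ℝ} (hC : 0 ≤ C)
    (h : ∀ w : A, ‖B.l w ζ‖ ^ 2 ≤ C * rt (star w * w)) : ∃ d, B.LD ζ d := by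
  let φ : A →ₗ[ℂ] ℂ :=
    { toFun := fun z => ⟪ζ, B.l z ζ⟫_ℂ
      map_add' := fun x y => by rw [B.l_add, inner_add_right]
      map_smul' := fun c x => by
        rw [B.l_smul, inner_smul_right, RingHom.id_apply, smul_eq_mul] }
  have hφ : ∀ z, φ z = ⟪ζ, B.l z ζ⟫_ℂ := fun z => rfl
  obtain ⟨d, hd0, -, hd⟩ := radonNikodym φ C hC (by
    intro x hx
    obtain ⟨w, rfl⟩ := exw31 hx
    rw [hφ, l_sq31]
    refine ⟨?_, ?_, ?_⟩
    · rw [Complex.ofReal_re]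
      positivity
    · rw [Complex.ofReal_im]
    · rw [Complex.ofReal_re]
      exact h w)
  exact ⟨d, hd0, fun z => by rw [← hφ, hd]⟩

private theorem mk_RD31 {ζ : B.H} {C : ℝ} (hC : 0 ≤ C)
    (h : ∀ w : A, ‖B.r (star w) ζ‖ ^ 2 ≤ C * rt (star w * w)) : ∃ d, B.RD ζ d := by
  let φ : A →ₗ[ℂ] ℂ :=
    { toFun := fun z => ⟪ζ, B.r z ζ⟫_ℂ
      map_add' := fun x y => by rw [B.r_add, inner_add_right]
      map_smul' := fun c x => by
        rw [B.r_smul, inner_smul_right, RingHom.id_apply, smul_eq_mul] }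
  have hφ : ∀ z, φ z = ⟪ζ, B.r z ζ⟫_ℂ := fun z => rfl
  obtain ⟨d, hd0, -, hd⟩ := radonNikodym φ C hC (by
    intro x hx
    obtain ⟨w, rfl⟩ := exw31 hx
    rw [hφ, r_sq31]
    refine ⟨?_, ?_, ?_⟩
    · rw [Complex.ofReal_re]
      positivity
    · rw [Complex.ofReal_im]
    · rw [Complex.ofReal_re]
      exact h w)
  exact ⟨d, hd0, fun z => by rw [← hφ, hd]⟩

private theorem LD_bd31 {ξ : B.H} {y : A} (h : B.LD ξ y) (w : A) :
    ‖B.l w ξ‖ ^ 2 ≤ ‖y‖ * rt (star w * w) := by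
  have h1 := h.2 (star w * w)
  rw [l_sq31] at h1
  have h2 := rt_mul_le31 (star_mul_self_nonneg w) h.1
  unfold rt at h2
  rw [← h1, Complex.ofReal_re] at h2
  exact h2

private theorem RD_bd31 {ξ : B.H} {y : A} (h : B.RD ξ y) (w : A) :
    ‖B.r (star w) ξ‖ ^ 2 ≤ ‖y‖ * rt (star w * w) := by
  have h1 := h.2 (star w * w)
  rw [r_sq31] at h1
  have h2 := rt_mul_le31 (star_mul_self_nonneg w) h.1
  unfold rt at h2
  rw [← h1, Complex.ofReal_re] at h2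
  exact h2

private theorem add_sq31 {H : Type*} [NormedAddCommGroup H] (x y : H) :
    ‖x + y‖ ^ 2 ≤ 2 * ‖x‖ ^ 2 + 2 * ‖y‖ ^ 2 := by
  have h1 := norm_add_le x y
  have h2 := norm_nonneg (x + y)
  nlinarith [sq_nonneg (‖x‖ - ‖y‖), norm_nonneg x, norm_nonneg y]

end priv

theorem Bdd_l {ξ : B.H} (h : B.Bdd ξ) (x : A) : B.Bdd (B.l x ξ) := by
  obtain ⟨⟨y, hy⟩, y', hy'⟩ := h
  refine ⟨⟨_, B.LD_l hy x⟩, ?_⟩
  refine mk_RD31 (C := ‖x‖ ^ 2 * ‖y'‖) (by positivity) fun w => ?_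
  rw [← B.l_r]
  have h1 := B.norm_l_le x (B.r (star w) ξ)
  have h2 := RD_bd31 hy' w
  calc ‖B.l x (B.r (star w) ξ)‖ ^ 2 ≤ (‖x‖ * ‖B.r (star w) ξ‖) ^ 2 :=
        pow_le_pow_left₀ (norm_nonneg _) h1 2
    _ = ‖x‖ ^ 2 * ‖B.r (star w) ξ‖ ^ 2 := mul_pow _ _ _
    _ ≤ ‖x‖ ^ 2 * (‖y'‖ * rt (star w * w)) := mul_le_mul_of_nonneg_left h2 (sq_nonneg _)
    _ = ‖x‖ ^ 2 * ‖y'‖ * rt (star w * w) := by ring

theorem Bdd_r {ξ : B.H} (h : B.Bdd ξ) (x : A) : B.Bdd (B.r x ξ) := by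
  obtain ⟨⟨y, hy⟩, y', hy'⟩ := h
  refine ⟨?_, ⟨_, B.RD_r hy' x⟩⟩
  refine mk_LD31 (C := ‖x‖ ^ 2 * ‖y‖) (by positivity) fun w => ?_
  rw [B.l_r]
  have h1 := B.norm_r_le x (B.l w ξ)
  have h2 := LD_bd31 hy w
  calc ‖B.r x (B.l w ξ)‖ ^ 2 ≤ (‖x‖ * ‖B.l w ξ‖) ^ 2 :=
        pow_le_pow_left₀ (norm_nonneg _) h1 2
    _ = ‖x‖ ^ 2 * ‖B.l w ξ‖ ^ 2 := mul_pow _ _ _
    _ ≤ ‖x‖ ^ 2 * (‖y‖ * rt (star w * w)) := mul_le_mul_of_nonneg_left h2 (sq_nonneg _)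
    _ = ‖x‖ ^ 2 * ‖y‖ * rt (star w * w) := by ring

theorem Bdd_add {ξ η : B.H} (h : B.Bdd ξ) (h' : B.Bdd η) : B.Bdd (ξ + η) := by
  obtain ⟨⟨y, hy⟩, y', hy'⟩ := h
  obtain ⟨⟨z, hz⟩, z', hz'⟩ := h'
  refine ⟨?_, ?_⟩
  · refine mk_LD31 (C := 2 * ‖y‖ + 2 * ‖z‖) (by positivity) fun w => ?_
    rw [map_add]
    have h1 := add_sq31 (B.l w ξ) (B.l w η)
    have h2 := LD_bd31 hy w
    have h3 := LD_bd31 hz w
    calc ‖B.l w ξ + B.l w η‖ ^ 2 ≤ 2 * ‖B.l w ξ‖ ^ 2 + 2 * ‖B.l w η‖ ^ 2 := h1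
      _ ≤ 2 * (‖y‖ * rt (star w * w)) + 2 * (‖z‖ * rt (star w * w)) := by linarith
      _ = (2 * ‖y‖ + 2 * ‖z‖) * rt (star w * w) := by ring
  · refine mk_RD31 (C := 2 * ‖y'‖ + 2 * ‖z'‖) (by positivity) fun w => ?_
    rw [map_add]
    have h1 := add_sq31 (B.r (star w) ξ) (B.r (star w) η)
    have h2 := RD_bd31 hy' w
    have h3 := RD_bd31 hz' w
    calc ‖B.r (star w) ξ + B.r (star w) η‖ ^ 2
        ≤ 2 * ‖B.r (star w) ξ‖ ^ 2 + 2 * ‖B.r (star w) η‖ ^ 2 := h1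
      _ ≤ 2 * (‖y'‖ * rt (star w * w)) + 2 * (‖z'‖ * rt (star w * w)) := by linarith
      _ = (2 * ‖y'‖ + 2 * ‖z'‖) * rt (star w * w) := by ring

theorem Bdd_smul {ξ : B.H} (h : B.Bdd ξ) (c : ℂ) : B.Bdd (c • ξ) := by
  obtain ⟨⟨y, hy⟩, y', hy'⟩ := h
  refine ⟨?_, ?_⟩
  · refine mk_LD31 (C := ‖c‖ ^ 2 * ‖y‖) (by positivity) fun w => ?_
    rw [map_smul, norm_smul, mul_pow, mul_assoc]
    exact mul_le_mul_of_nonneg_left (LD_bd31 hy w) (sq_nonneg _)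
  · refine mk_RD31 (C := ‖c‖ ^ 2 * ‖y'‖) (by positivity) fun w => ?_
    rw [map_smul, norm_smul, mul_pow, mul_assoc]
    exact mul_le_mul_of_nonneg_left (RD_bd31 hy' w) (sq_nonneg _)

theorem Bdd_zero : B.Bdd (0 : B.H) := by
  refine ⟨?_, ?_⟩
  · refine mk_LD31 (C := 0) le_rfl fun w => ?_
    rw [map_zero, norm_zero]
    simp
  · refine mk_RD31 (C := 0) le_rfl fun w => ?_
    rw [map_zero, norm_zero]
    simp

theorem Bdd_Tp {ξ : B.H} (h : B.Bdd ξ) (j : ℕ) : B.Bdd ((B.T a ^ j) ξ) := by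
  have hT : ∀ ζ : B.H, B.Bdd ζ → B.Bdd (B.T a ζ) := by
    intro ζ hζ
    rw [B.T_apply]
    have key : ∀ s : Finset a.ι,
        B.Bdd (∑ i ∈ s, (a.p i : ℂ) • B.l (a.u i) (B.r (star (a.u i)) ζ)) := by
      classical
      intro s
      induction s using Finset.induction_on with
      | empty =>
        rw [Finset.sum_empty]
        exact B.Bdd_zero
      | insert i s hi ih =>
        rw [Finset.sum_insert hi]
        exact B.Bdd_add (B.Bdd_smul (B.Bdd_l (B.Bdd_r hζ _) _) _) ih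
    exact key Finset.univ
  induction j with
  | zero =>
    rw [pow_zero]
    exact h
  | succ j ih =>
    rw [pow_succ']
    exact hT _ ih

end Bim

end Pool.Agent.PTH
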