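import Pool.Agent.PTH.AvB

/-!
# PTH / AvD: bounded densities of vectors of a Hilbert bimodule

`B.LD ξ y`: `⟨ξ, zξ⟩ = τ(z y)` for all `z`.  AvB has the elementary API (used here).
* `conv_l`: `Re⟨T^jξ, x T^jξ⟩ ≤ Re⟨ξ, T^j(x) ξ⟩`: convexity of `η ↦ Re⟨η, x η⟩` for `x ≥ 0` and
  `⟨uξu*, x uξu*⟩ = ⟨ξ, u*xu ξ⟩`, reindex by `inv`, induction on `j`.
* `d1_LD`: the left density of `u_i ξ u_i*` is `u_i y u_i*`, and for `‖z‖ ≤ 1`
  `|⟨η,zη⟩ - ⟨ξ,zξ⟩| ≤ (‖η‖+‖ξ‖)‖η-ξ‖` with `η = u_i ξ u_i*`, `‖η‖ = ‖ξ‖`,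
  `‖η - ξ‖ = ‖u_i ξ - ξ u_i‖`; Cauchy-Schwarz with the weights `p_i`.
-/

open Filter Topology MulOpposite
open scoped InnerProductSpace ComplexOrder

universe u

namespace Pool.Agent.PTH

namespace Bim

variable {A : Type u} [CStarAlgebra A] (B : Bim.{u} A) (a : Avg A)

section dens

variable [PartialOrder A] [StarOrderedRing A] [TracialVN A]

namespace AvDaux

omit [PartialOrder A] [StarOrderedRing A] [TracialVN A] in
theorem sum_inv {E : Type*} [AddCommMonoid E] (f : a.ι → E) :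
    ∑ i, f (a.inv i) = ∑ i, f i :=
  Equiv.sum_comp (Function.Involutive.toPerm a.inv a.inv_inv) f

omit [PartialOrder A] [StarOrderedRing A] [TracialVN A] in
/-- Convexity of a positive semidefinite quadratic form. -/
theorem convex_form {E : Type*} [NormedAddCommGroup E] [InnerProductSpace ℂ E]
    (S : E →L[ℂ] E) (hs : ∀ v w : E, ⟪S v, w⟫_ℂ = ⟪v, S w⟫_ℂ)
    (hp : ∀ v : E, 0 ≤ (⟪v, S v⟫_ℂ).re) (η : a.ι → E) :
    (⟪∑ i, (a.p i : ℂ) • η i, S (∑ i, (a.p i : ℂ) • η i)⟫_ℂ).re ≤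
      ∑ i, a.p i * (⟪η i, S (η i)⟫_ℂ).re := by
  set m : E := ∑ i, (a.p i : ℂ) • η i with hm
  have h1 : ∀ i, (⟪η i - m, S (η i - m)⟫_ℂ).re = (⟪η i, S (η i)⟫_ℂ).re -
      2 * (⟪m, S (η i)⟫_ℂ).re + (⟪m, S m⟫_ℂ).re := by
    intro i
    have h2 : (⟪η i, S m⟫_ℂ).re = (⟪m, S (η i)⟫_ℂ).re := by
      rw [← hs, ← inner_conj_symm, Complex.conj_re]
    rw [map_sub, inner_sub_left, inner_sub_right, inner_sub_right]
    simp only [Complex.sub_re]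
    rw [h2]
    ring
  have h3 : ∑ i, a.p i * (⟪m, S (η i)⟫_ℂ).re = (⟪m, S m⟫_ℂ).re := by
    conv_rhs => rw [hm]
    rw [← hm, map_sum, inner_sum, Complex.re_sum]
    refine Finset.sum_congr rfl fun i _ => ?_
    rw [map_smul, inner_smul_right, Complex.re_ofReal_mul]
  have h4 : 0 ≤ ∑ i, a.p i * (⟪η i - m, S (η i - m)⟫_ℂ).re :=
    Finset.sum_nonneg fun i _ => mul_nonneg (a.p_pos i).le (hp _)
  have h5 : ∑ i, a.p i * (⟪η i - m, S (η i - m)⟫_ℂ).re =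
      ∑ i, a.p i * (⟪η i, S (η i)⟫_ℂ).re - 2 * ∑ i, a.p i * (⟪m, S (η i)⟫_ℂ).re +
        (∑ i, a.p i) * (⟪m, S m⟫_ℂ).re := by
    rw [Finset.mul_sum, Finset.sum_mul, ← Finset.sum_sub_distrib, ← Finset.sum_add_distrib]
    refine Finset.sum_congr rfl fun i _ => ?_
    rw [h1]
    ring
  rw [h5, h3, a.p_sum] at h4
  linarith

theorem l_pos {x : A} (hx : 0 ≤ x) (η : B.H) : 0 ≤ (⟪η, B.l x η⟫_ℂ).re := by
  obtain ⟨y, rfl⟩ := CStarAlgebra.nonneg_iff_eq_star_mul_self.1 hx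
  rw [B.l_mul, ← B.inner_l]
  exact inner_self_nonneg (𝕜 := ℂ)

theorem r_pos {x : A} (hx : 0 ≤ x) (η : B.H) : 0 ≤ (⟪η, B.r x η⟫_ℂ).re := by
  obtain ⟨y, rfl⟩ := CStarAlgebra.nonneg_iff_eq_star_mul_self.1 hx
  have h : ⟪B.r (star y) η, B.r (star y) η⟫_ℂ = ⟪η, B.r (star y * y) η⟫_ℂ := by
    rw [B.inner_r, star_star, B.r_mul]
  rw [← h]
  exact inner_self_nonneg (𝕜 := ℂ)

omit [PartialOrder A] [StarOrderedRing A] [TracialVN A] in
theorem l_conj {u : A} (h : star u * u = 1) (x : A) (ξ : B.H) :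
    ⟪B.l u (B.r (star u) ξ), B.l x (B.l u (B.r (star u) ξ))⟫_ℂ =
      ⟪ξ, B.l (star u * x * u) ξ⟫_ℂ := by
  rw [B.inner_l, ← B.l_mul, ← B.l_mul, B.inner_r, star_star, B.l_r, ← B.r_mul, h, B.r_one,
    mul_assoc]

omit [PartialOrder A] [StarOrderedRing A] [TracialVN A] in
theorem r_conj {u : A} (h : star u * u = 1) (x : A) (ξ : B.H) :
    ⟪B.l u (B.r (star u) ξ), B.r x (B.l u (B.r (star u) ξ))⟫_ℂ =
      ⟪ξ, B.r (star u * x * u) ξ⟫_ℂ := by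
  rw [B.inner_l, ← B.l_r, ← B.l_mul, h, B.l_one, B.inner_r, star_star, ← B.r_mul, ← B.r_mul,
    mul_assoc]

omit [StarOrderedRing A] in
/-- Estimate of the 1-norm of `u y u* - y`. -/
theorem one_le_LD {ξ : B.H} {y : A} (h : B.LD ξ y) {u : A} (hu : star u * u = 1)
    (hu' : u * star u = 1) :
    one (u * y * star u - y) ≤ 2 * ‖ξ‖ * ‖B.l u ξ - B.r u ξ‖ := by
  refine AvAaux.one_le fun z hz => ?_
  set η : B.H := B.l u (B.r (star u) ξ) with hη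
  have hn : ‖η‖ = ‖ξ‖ := by
    rw [hη, B.norm_l_unitary _ hu, B.norm_r_unitary _ (by rw [star_star]; exact hu)]
  have h1 : ⟪η, B.l z η⟫_ℂ = TrAlg.tau (z * (u * y * star u)) := by
    rw [hη, l_conj B hu, h.2]
    have e1 : star u * z * u * y = star u * (z * u * y) := by noncomm_ring
    rw [e1, TrAlg.tau_comm]
    congr 1
    noncomm_ring
  have h2 : ⟪ξ, B.l z ξ⟫_ℂ = TrAlg.tau (z * y) := h.2 z
  have h3 : TrAlg.tau ((u * y * star u - y) * z) = ⟪η, B.l z η⟫_ℂ - ⟪ξ, B.l z ξ⟫_ℂ := by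
    rw [h1, h2, TrAlg.tau_comm, mul_sub, map_sub]
  have h4 : ⟪η, B.l z η⟫_ℂ - ⟪ξ, B.l z ξ⟫_ℂ = ⟪η, B.l z (η - ξ)⟫_ℂ + ⟪η - ξ, B.l z ξ⟫_ℂ := by
    rw [map_sub, inner_sub_right, inner_sub_left]
    ring
  have h5 : η - ξ = B.r (star u) (B.l u ξ - B.r u ξ) := by
    rw [map_sub, ← B.r_mul, hu', B.r_one, hη, B.l_r]
  have h6 : ‖η - ξ‖ = ‖B.l u ξ - B.r u ξ‖ := by
    rw [h5, B.norm_r_unitary _ (by rw [star_star]; exact hu)]
  rw [h3, h4, ← h6]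
  have hl : ∀ v : B.H, ‖B.l z v‖ ≤ ‖v‖ := fun v =>
    (B.norm_l_le z v).trans (mul_le_of_le_one_left (norm_nonneg _) hz)
  have h7 : ‖⟪η, B.l z (η - ξ)⟫_ℂ‖ ≤ ‖ξ‖ * ‖η - ξ‖ := by
    refine (norm_inner_le_norm _ _).trans ?_
    rw [hn]
    exact mul_le_mul_of_nonneg_left (hl _) (norm_nonneg _)
  have h8 : ‖⟪η - ξ, B.l z ξ⟫_ℂ‖ ≤ ‖ξ‖ * ‖η - ξ‖ := by
    refine (norm_inner_le_norm _ _).trans ?_
    rw [mul_comm ‖ξ‖]
    exact mul_le_mul_of_nonneg_left (hl _) (norm_nonneg _)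
  refine (norm_add_le _ _).trans ?_
  linarith

omit [StarOrderedRing A] in
theorem one_le_RD {ξ : B.H} {y : A} (h : B.RD ξ y) {u : A} (hu : star u * u = 1)
    (hu' : u * star u = 1) :
    one (u * y * star u - y) ≤ 2 * ‖ξ‖ * ‖B.l u ξ - B.r u ξ‖ := by
  refine AvAaux.one_le fun z hz => ?_
  set η : B.H := B.l u (B.r (star u) ξ) with hη
  have hn : ‖η‖ = ‖ξ‖ := by
    rw [hη, B.norm_l_unitary _ hu, B.norm_r_unitary _ (by rw [star_star]; exact hu)]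
  have h1 : ⟪η, B.r z η⟫_ℂ = TrAlg.tau (z * (u * y * star u)) := by
    rw [hη, r_conj B hu, h.2]
    have e1 : star u * z * u * y = star u * (z * u * y) := by noncomm_ring
    rw [e1, TrAlg.tau_comm]
    congr 1
    noncomm_ring
  have h2 : ⟪ξ, B.r z ξ⟫_ℂ = TrAlg.tau (z * y) := h.2 z
  have h3 : TrAlg.tau ((u * y * star u - y) * z) = ⟪η, B.r z η⟫_ℂ - ⟪ξ, B.r z ξ⟫_ℂ := by
    rw [h1, h2, TrAlg.tau_comm, mul_sub, map_sub]
  have h4 : ⟪η, B.r z η⟫_ℂ - ⟪ξ, B.r z ξ⟫_ℂ = ⟪η, B.r z (η - ξ)⟫_ℂ + ⟪η - ξ, B.r z ξ⟫_ℂ := by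
    rw [map_sub, inner_sub_right, inner_sub_left]
    ring
  have h5 : η - ξ = B.r (star u) (B.l u ξ - B.r u ξ) := by
    rw [map_sub, ← B.r_mul, hu', B.r_one, hη, B.l_r]
  have h6 : ‖η - ξ‖ = ‖B.l u ξ - B.r u ξ‖ := by
    rw [h5, B.norm_r_unitary _ (by rw [star_star]; exact hu)]
  rw [h3, h4, ← h6]
  have hl : ∀ v : B.H, ‖B.r z v‖ ≤ ‖v‖ := fun v =>
    (B.norm_r_le z v).trans (mul_le_of_le_one_left (norm_nonneg _) hz)
  have h7 : ‖⟪η, B.r z (η - ξ)⟫_ℂ‖ ≤ ‖ξ‖ * ‖η - ξ‖ := by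
    refine (norm_inner_le_norm _ _).trans ?_
    rw [hn]
    exact mul_le_mul_of_nonneg_left (hl _) (norm_nonneg _)
  have h8 : ‖⟪η - ξ, B.r z ξ⟫_ℂ‖ ≤ ‖ξ‖ * ‖η - ξ‖ := by
    refine (norm_inner_le_norm _ _).trans ?_
    rw [mul_comm ‖ξ‖]
    exact mul_le_mul_of_nonneg_left (hl _) (norm_nonneg _)
  refine (norm_add_le _ _).trans ?_
  linarith

omit [StarOrderedRing A] in
/-- Cauchy-Schwarz with the weights. -/
theorem d1_le {ξ : B.H} {y : A}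
    (h : ∀ i, one (a.u i * y * star (a.u i) - y) ≤
      2 * ‖ξ‖ * ‖B.l (a.u i) ξ - B.r (a.u i) ξ‖) :
    a.d1 y ≤ 2 * ‖ξ‖ * Real.sqrt (2 * B.en a ξ) := by
  have h1 : a.d1 y ≤ 2 * ‖ξ‖ * ∑ i, a.p i * ‖B.l (a.u i) ξ - B.r (a.u i) ξ‖ := by
    unfold Avg.d1
    rw [Finset.mul_sum]
    refine Finset.sum_le_sum fun i _ => ?_
    have h2 := mul_le_mul_of_nonneg_left (h i) (a.p_pos i).le
    linarith
  refine h1.trans (mul_le_mul_of_nonneg_left ?_ (by positivity))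
  refine Real.le_sqrt_of_sq_le ?_
  have h2 := Finset.sum_sq_le_sum_mul_sum_of_sq_le_mul (Finset.univ : Finset a.ι)
    (r := fun i => a.p i * ‖B.l (a.u i) ξ - B.r (a.u i) ξ‖) (f := a.p)
    (g := fun i => a.p i * ‖B.l (a.u i) ξ - B.r (a.u i) ξ‖ ^ 2)
    (fun i _ => (a.p_pos i).le) (fun i _ => mul_nonneg (a.p_pos i).le (sq_nonneg _))
    (fun i _ => le_of_eq (by ring))
  rw [a.p_sum, one_mul] at h2
  refine h2.trans (le_of_eq ?_)
  unfold Bim.en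
  ring

end AvDaux

theorem conv_l (j : ℕ) (x : A) (hx : 0 ≤ x) (ξ : B.H) :
    (⟪(B.T a ^ j) ξ, B.l x ((B.T a ^ j) ξ)⟫_ℂ).re ≤ (⟪ξ, B.l ((a.T ^ j) x) ξ⟫_ℂ).re := by
  have key : ∀ (x : A), 0 ≤ x → ∀ ξ : B.H,
      (⟪B.T a ξ, B.l x (B.T a ξ)⟫_ℂ).re ≤ (⟪ξ, B.l (a.T x) ξ⟫_ℂ).re := by
    intro x hx ξ
    have hsx : star x = x := (IsSelfAdjoint.of_nonneg hx).star_eq
    have h1 := AvDaux.convex_form a (B.l x)
      (fun v w => by rw [B.inner_l, hsx]) (AvDaux.l_pos B hx)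
      (fun i => B.l (a.u i) (B.r (star (a.u i)) ξ))
    rw [B.T_apply]
    refine h1.trans (le_of_eq ?_)
    have h2 : ∀ i, a.p i * (⟪B.l (a.u i) (B.r (star (a.u i)) ξ),
        B.l x (B.l (a.u i) (B.r (star (a.u i)) ξ))⟫_ℂ).re =
        a.p i * (⟪ξ, B.l (star (a.u i) * x * a.u i) ξ⟫_ℂ).re := by
      intro i
      rw [AvDaux.l_conj B (a.u_star_mul i)]
    rw [Finset.sum_congr rfl fun i _ => h2 i, ← AvDaux.sum_inv a]
    have h3 : B.l (a.T x) ξ = ∑ i, (a.p i : ℂ) • B.l (a.u i * x * star (a.u i)) ξ := by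
      unfold l
      rw [Avg.T_apply, map_sum, ContinuousLinearMap.sum_apply]
      refine Finset.sum_congr rfl fun i _ => ?_
      rw [map_smul]
      rfl
    rw [h3, inner_sum, Complex.re_sum]
    refine Finset.sum_congr rfl fun i _ => ?_
    rw [inner_smul_right, Complex.re_ofReal_mul, a.p_inv, a.u_inv, star_star]
  induction j generalizing x with
  | zero => exact le_rfl
  | succ j ih =>
    rw [pow_succ', ContinuousLinearMap.mul_apply]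
    refine (key x hx _).trans ((ih (a.T x) (a.T_nonneg hx)).trans (le_of_eq ?_))
    rw [pow_succ, Module.End.mul_apply]

theorem conv_r (j : ℕ) (x : A) (hx : 0 ≤ x) (ξ : B.H) :
    (⟪(B.T a ^ j) ξ, B.r x ((B.T a ^ j) ξ)⟫_ℂ).re ≤ (⟪ξ, B.r ((a.T ^ j) x) ξ⟫_ℂ).re := by
  have key : ∀ (x : A), 0 ≤ x → ∀ ξ : B.H,
      (⟪B.T a ξ, B.r x (B.T a ξ)⟫_ℂ).re ≤ (⟪ξ, B.r (a.T x) ξ⟫_ℂ).re := by
    intro x hx ξ
    have hsx : star x = x := (IsSelfAdjoint.of_nonneg hx).star_eq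
    have h1 := AvDaux.convex_form a (B.r x)
      (fun v w => by rw [B.inner_r, hsx]) (AvDaux.r_pos B hx)
      (fun i => B.l (a.u i) (B.r (star (a.u i)) ξ))
    rw [B.T_apply]
    refine h1.trans (le_of_eq ?_)
    have h2 : ∀ i, a.p i * (⟪B.l (a.u i) (B.r (star (a.u i)) ξ),
        B.r x (B.l (a.u i) (B.r (star (a.u i)) ξ))⟫_ℂ).re =
        a.p i * (⟪ξ, B.r (star (a.u i) * x * a.u i) ξ⟫_ℂ).re := by
      intro i
      rw [AvDaux.r_conj B (a.u_star_mul i)]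
    rw [Finset.sum_congr rfl fun i _ => h2 i, ← AvDaux.sum_inv a]
    have h3 : B.r (a.T x) ξ = ∑ i, (a.p i : ℂ) • B.r (a.u i * x * star (a.u i)) ξ := by
      unfold r
      have h4 : op (∑ i, (a.p i : ℂ) • (a.u i * x * star (a.u i))) =
          ∑ i, (a.p i : ℂ) • op (a.u i * x * star (a.u i)) :=
        map_sum (opAddEquiv : A ≃+ Aᵐᵒᵖ) _ _
      rw [Avg.T_apply, h4, map_sum, ContinuousLinearMap.sum_apply]
      refine Finset.sum_congr rfl fun i _ => ?_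
      rw [map_smul]
      rfl
    rw [h3, inner_sum, Complex.re_sum]
    refine Finset.sum_congr rfl fun i _ => ?_
    rw [inner_smul_right, Complex.re_ofReal_mul, a.p_inv, a.u_inv, star_star]
  induction j generalizing x with
  | zero => exact le_rfl
  | succ j ih =>
    rw [pow_succ', ContinuousLinearMap.mul_apply]
    refine (key x hx _).trans ((ih (a.T x) (a.T_nonneg hx)).trans (le_of_eq ?_))
    rw [pow_succ, Module.End.mul_apply]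

/-- `‖x ξ‖² = Re τ(x* x y)` for a left density `y`. -/
theorem norm_l_sq {ξ : B.H} {y : A} (h : B.LD ξ y) (x : A) :
    ‖B.l x ξ‖ ^ 2 = rt (star x * x * y) := by
  have h1 : ⟪B.l x ξ, B.l x ξ⟫_ℂ = TrAlg.tau (star x * x * y) := by
    rw [B.inner_l, ← B.l_mul, h.2]
  unfold rt
  rw [← h1]
  exact (inner_self_eq_norm_sq (𝕜 := ℂ) _).symm

theorem norm_r_sq {ξ : B.H} {y : A} (h : B.RD ξ y) (x : A) :
    ‖B.r x ξ‖ ^ 2 = rt (x * star x * y) := by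
  have h1 : ⟪B.r x ξ, B.r x ξ⟫_ℂ = TrAlg.tau (x * star x * y) := by
    rw [B.inner_r, ← B.r_mul, h.2]
  unfold rt
  rw [← h1]
  exact (inner_self_eq_norm_sq (𝕜 := ℂ) _).symm

theorem rt_LD {ξ : B.H} {y : A} (h : B.LD ξ y) : rt y = ‖ξ‖ ^ 2 := by
  have h1 := B.norm_l_sq h 1
  rw [B.l_one, star_one, one_mul, one_mul] at h1
  exact h1.symm

theorem rt_RD {ξ : B.H} {y : A} (h : B.RD ξ y) : rt y = ‖ξ‖ ^ 2 := by
  have h1 := B.norm_r_sq h 1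
  rw [B.r_one, star_one, one_mul, one_mul] at h1
  exact h1.symm

/-- Left density of `x ξ`. -/
theorem LD_l {ξ : B.H} {y : A} (h : B.LD ξ y) (x : A) : B.LD (B.l x ξ) (x * y * star x) := by
  refine ⟨star_right_conjugate_nonneg h.1 x, fun z => ?_⟩
  rw [B.inner_l, ← B.l_mul, ← B.l_mul, h.2]
  have e1 : star x * z * x * y = star x * (z * x * y) := by noncomm_ring
  rw [e1, TrAlg.tau_comm]
  congr 1
  noncomm_ring

/-- Right density of `ξ x`. -/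
theorem RD_r {ξ : B.H} {y : A} (h : B.RD ξ y) (x : A) : B.RD (B.r x ξ) (star x * y * x) := by
  refine ⟨star_left_conjugate_nonneg h.1 x, fun z => ?_⟩
  rw [B.inner_r, ← B.r_mul, ← B.r_mul, h.2]
  have e1 : x * (z * star x) * y = x * (z * star x * y) := by noncomm_ring
  rw [e1, TrAlg.tau_comm]
  congr 1
  noncomm_ring

/-- `d1(y) ≤ 2 ‖ξ‖ (2 e(ξ))^{1/2}` for a left density `y` of `ξ`. -/
theorem d1_LD {ξ : B.H} {y : A} (h : B.LD ξ y) :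
    a.d1 y ≤ 2 * ‖ξ‖ * Real.sqrt (2 * B.en a ξ) :=
  AvDaux.d1_le B a fun i => AvDaux.one_le_LD B h (a.u_star_mul i) (a.u_mul_star i)

theorem d1_RD {ξ : B.H} {y : A} (h : B.RD ξ y) :
    a.d1 y ≤ 2 * ‖ξ‖ * Real.sqrt (2 * B.en a ξ) :=
  AvDaux.d1_le B a fun i => AvDaux.one_le_RD B h (a.u_star_mul i) (a.u_mul_star i)

end dens

end Bim

end Pool.Agent.PTH
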