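import Pool.Agent.PTH.AvA

/-!
# PTH / AvE: the energy `en`, `d1` and `L` on the algebra itself

Everything is elementary (AvA has the API of `T`; sums over `i` may be reindexed by `inv`).

* `en_eq`: `‖u_i x - x u_i‖₂² = 2‖x‖₂² - 2 Re τ(x* u_i x u_i*)` (trace property).
* `conv`: `Re τ((T^j y)* x (T^j y)) ≤ Re τ(y* T^j(x) y)` for `x ≥ 0`: for `j = 1` convexity of
  `v ↦ Re τ(v* x v)` and `τ((u y u*)* x (u y u*)) = τ(y* u* x u y)`, reindex; then induction
  (`T^{j+1} y = T(T^j y)`, and `T^j(T x) = T^{j+1}x`).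
* `one_Tp_sub_le`: `‖T^j x - x‖₁ ≤ ∑_{i<j} ‖T^i (T x - x)‖₁ ≤ j ‖T x - x‖₁ ≤ j d1(x)`.
* `sum_two_le`, `d1_le`: `‖·‖₁ ≤ ‖·‖₂` and Cauchy-Schwarz with the weights `p_i`, `∑ p_i = 1`.
* `sqrt_en_add_le`: Minkowski in the weighted `ℓ²` sum.
* `L_eq`: `|[u_i,x]|² = x² + u_i* x² u_i - u_i* x u_i x - x u_i* x u_i` for `x* = x`, reindex.
-/

open Filter Topology
open scoped InnerProductSpace ComplexOrder

namespace Pool.Agent.PTH

namespace AvEaux

variable {A : Type*} [CStarAlgebra A] [TrAlg A]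

theorem rt_add (x y : A) : rt (x + y) = rt x + rt y := by
  unfold rt; rw [map_add, Complex.add_re]

theorem rt_sub (x y : A) : rt (x - y) = rt x - rt y := by
  unfold rt; rw [map_sub, Complex.sub_re]

theorem rt_sum {ι : Type*} (s : Finset ι) (f : ι → A) : rt (∑ i ∈ s, f i) = ∑ i ∈ s, rt (f i) := by
  unfold rt; rw [map_sum, Complex.re_sum]

theorem rt_smul (c : ℝ) (x : A) : rt ((c : ℂ) • x) = c * rt x := by
  unfold rt; rw [map_smul, smul_eq_mul, Complex.re_ofReal_mul]

theorem rt_comm (x y : A) : rt (x * y) = rt (y * x) := by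
  unfold rt; rw [TrAlg.tau_comm]

theorem rt_star (x : A) : rt (star x) = rt x := by
  unfold rt
  rw [TrAlg.tau_star, Complex.star_def, Complex.conj_re]

theorem two_sq' (x : A) : two x ^ 2 = rt (star x * x) := two_sq x

theorem two_sub_sq (x y : A) : two (x - y) ^ 2 = two x ^ 2 + two y ^ 2 - 2 * rt (star y * x) := by
  have e : star (x - y) * (x - y) = star x * x - star x * y - star y * x + star y * y := by
    rw [star_sub]; noncomm_ring
  have h : rt (star x * y) = rt (star y * x) := by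
    rw [← rt_star, star_mul, star_star]
  rw [two_sq', e, rt_add, rt_sub, rt_sub, ← two_sq', ← two_sq', h]
  ring

theorem two_mul_un {u : A} (h : u * star u = 1) (y : A) : two (y * u) = two y := by
  have h1 : two (y * u) ^ 2 = two y ^ 2 := by
    rw [two_sq', two_sq', star_mul]
    have e : star u * star y * (y * u) = star u * (star y * y * u) := by noncomm_ring
    rw [e, rt_comm, mul_assoc, mul_assoc, h, mul_one]
  exact (sq_eq_sq₀ (two_nonneg _) (two_nonneg _)).1 h1

theorem two_comm_un {u : A} (h1 : star u * u = 1) (h : u * star u = 1) (x : A) :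
    two (u * x - x * u) = two (u * x * star u - x) := by
  have e : u * x - x * u = (u * x * star u - x) * u := by
    have e1 : (u * x * star u - x) * u = u * x * (star u * u) - x * u := by noncomm_ring
    rw [e1, h1, mul_one]
  rw [e, two_mul_un h]

theorem one_nonneg (x : A) : 0 ≤ one x := by
  have h := AvAaux.norm_tau_le_one (x := x) (y := 0) (by rw [norm_zero]; exact zero_le_one)
  exact (norm_nonneg _).trans h

theorem one_zero : one (0 : A) = 0 := by
  refine le_antisymm (AvAaux.one_le fun y _ => ?_) (one_nonneg _)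
  rw [zero_mul, map_zero, norm_zero]

theorem one_add_le (x y : A) : one (x + y) ≤ one x + one y := by
  refine AvAaux.one_le fun z hz => ?_
  rw [add_mul, map_add]
  exact (norm_add_le _ _).trans (add_le_add (AvAaux.norm_tau_le_one hz)
    (AvAaux.norm_tau_le_one hz))

theorem one_sum_le {ι : Type*} (s : Finset ι) (c : ι → ℝ) (hc : ∀ i, 0 ≤ c i) (f : ι → A) :
    one (∑ i ∈ s, (c i : ℂ) • f i) ≤ ∑ i ∈ s, c i * one (f i) := by
  refine AvAaux.one_le fun z hz => ?_
  rw [Finset.sum_mul, map_sum]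
  refine (norm_sum_le _ _).trans (Finset.sum_le_sum fun i _ => ?_)
  rw [smul_mul_assoc, map_smul, norm_smul, Complex.norm_real, Real.norm_eq_abs,
    abs_of_nonneg (hc i)]
  exact mul_le_mul_of_nonneg_left (AvAaux.norm_tau_le_one hz) (hc i)

theorem one_le_two (x : A) : one x ≤ two x := by
  refine AvAaux.one_le fun z hz => ?_
  have h := norm_tau_mul_le (star x) z
  rw [star_star, two_star] at h
  exact h.trans (mul_le_of_le_one_right (two_nonneg x) ((two_le_norm _).trans hz))

theorem one_smul_nn (c : ℝ) (hc : 0 ≤ c) (x : A) : one ((c : ℂ) • x) = c * one x := by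
  unfold one
  rw [Real.mul_iSup_of_nonneg hc]
  refine iSup_congr fun y => ?_
  rw [smul_mul_assoc, map_smul, norm_smul, Complex.norm_real, Real.norm_eq_abs, abs_of_nonneg hc]

theorem jensen {ι : Type*} [Fintype ι] (p t : ι → ℝ) (hp : ∀ i, 0 ≤ p i) (h1 : ∑ i, p i = 1) :
    (∑ i, p i * t i) ^ 2 ≤ ∑ i, p i * t i ^ 2 := by
  have h : 0 ≤ ∑ i, p i * (t i - ∑ j, p j * t j) ^ 2 :=
    Finset.sum_nonneg fun i _ => mul_nonneg (hp i) (sq_nonneg _)
  have e : ∑ i, p i * (t i - ∑ j, p j * t j) ^ 2 =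
      ∑ i, p i * t i ^ 2 - (∑ j, p j * t j) ^ 2 := by
    have e1 : ∀ i, p i * (t i - ∑ j, p j * t j) ^ 2 =
        p i * t i ^ 2 - 2 * (∑ j, p j * t j) * (p i * t i) + (∑ j, p j * t j) ^ 2 * p i :=
      fun i => by ring
    rw [Finset.sum_congr rfl fun i _ => e1 i, Finset.sum_add_distrib, Finset.sum_sub_distrib,
      ← Finset.mul_sum, ← Finset.mul_sum, h1]
    ring
  rw [e] at h
  linarith

theorem cs {ι : Type*} [Fintype ι] (p a b : ι → ℝ) (hp : ∀ i, 0 ≤ p i) :
    ∑ i, p i * (a i * b i) ≤ Real.sqrt (∑ i, p i * a i ^ 2) * Real.sqrt (∑ i, p i * b i ^ 2) := by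
  have h := Real.sum_mul_le_sqrt_mul_sqrt Finset.univ (fun i => Real.sqrt (p i) * a i)
    (fun i => Real.sqrt (p i) * b i)
  have e1 : ∀ i, Real.sqrt (p i) * a i * (Real.sqrt (p i) * b i) = p i * (a i * b i) := fun i => by
    have := Real.mul_self_sqrt (hp i)
    linear_combination (a i * b i) * this
  have e2 : ∀ i, (Real.sqrt (p i) * a i) ^ 2 = p i * a i ^ 2 := fun i => by
    rw [mul_pow, Real.sq_sqrt (hp i)]
  have e3 : ∀ i, (Real.sqrt (p i) * b i) ^ 2 = p i * b i ^ 2 := fun i => by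
    rw [mul_pow, Real.sq_sqrt (hp i)]
  simp only [e1, e2, e3] at h
  exact h

end AvEaux

namespace Avg

variable {A : Type*} [CStarAlgebra A] [PartialOrder A] [StarOrderedRing A] [TracialVN A] (a : Avg A)

omit [PartialOrder A] [StarOrderedRing A] [TracialVN A] in
private theorem pnn (i : a.ι) : 0 ≤ a.p i := (a.p_pos i).le

omit [PartialOrder A] [StarOrderedRing A] [TracialVN A] in
private theorem sum_inv' {E : Type*} [AddCommMonoid E] (f : a.ι → E) :
    ∑ i, f (a.inv i) = ∑ i, f i :=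
  Equiv.sum_comp (Function.Involutive.toPerm a.inv a.inv_inv) f

omit [PartialOrder A] [StarOrderedRing A] [TracialVN A] in
private theorem T_inv (x : A) : a.T x = ∑ i, (a.p i : ℂ) • (star (a.u i) * x * a.u i) := by
  rw [T_apply, ← sum_inv' a]
  refine Finset.sum_congr rfl fun i _ => ?_
  rw [a.p_inv, a.u_inv, star_star]

/-- `e(x) = Re τ(x* (x - T x))`. -/
theorem en_eq (x : A) : a.en x = rt (star x * (x - a.T x)) := by
  have h1 : ∀ i, a.p i * two (a.u i * x - x * a.u i) ^ 2 =
      a.p i * (2 * two x ^ 2) - 2 * (a.p i * rt (star x * (a.u i * x * star (a.u i)))) := fun i => by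
    rw [AvEaux.two_comm_un (a.u_star_mul i) (a.u_mul_star i), AvEaux.two_sub_sq,
      AvAaux.two_conj (a.u_star_mul i)]
    ring
  have h2 : rt (star x * a.T x) = ∑ i, a.p i * rt (star x * (a.u i * x * star (a.u i))) := by
    rw [T_apply, Finset.mul_sum, AvEaux.rt_sum]
    refine Finset.sum_congr rfl fun i _ => ?_
    rw [mul_smul_comm, AvEaux.rt_smul]
  unfold en
  rw [Finset.sum_congr rfl fun i _ => h1 i, Finset.sum_sub_distrib, ← Finset.sum_mul, a.p_sum,
    ← Finset.mul_sum, ← h2, mul_sub (star x), AvEaux.rt_sub, ← AvEaux.two_sq']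
  ring

theorem en_nonneg (x : A) : 0 ≤ a.en x := by
  unfold en
  exact mul_nonneg (by norm_num) (Finset.sum_nonneg fun i _ =>
    mul_nonneg (pnn a i) (sq_nonneg _))

theorem en_le (x : A) : a.en x ≤ two x ^ 2 := by
  have h := a.T_pos x
  rw [en_eq, mul_sub, AvEaux.rt_sub, ← AvEaux.two_sq']
  linarith

theorem en_one : a.en 1 = 0 := by
  rw [en_eq, T_one, sub_self, mul_zero]
  unfold rt
  rw [map_zero, Complex.zero_re]

theorem en_one_sub (x : A) : a.en (1 - x) = a.en x := by
  unfold en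
  congr 1
  refine Finset.sum_congr rfl fun i _ => ?_
  have e : a.u i * (1 - x) - (1 - x) * a.u i = -(a.u i * x - x * a.u i) := by noncomm_ring
  rw [e, two_neg]

theorem en_star (x : A) : a.en (star x) = a.en x := by
  unfold en
  congr 1
  refine Finset.sum_congr rfl fun i _ => ?_
  rw [AvEaux.two_comm_un (a.u_star_mul i) (a.u_mul_star i),
    AvEaux.two_comm_un (a.u_star_mul i) (a.u_mul_star i)]
  have e : a.u i * star x * star (a.u i) - star x = star (a.u i * x * star (a.u i) - x) := by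
    rw [star_sub, star_mul, star_mul, star_star, mul_assoc]
  rw [e, two_star]

theorem en_smul (c : ℂ) (x : A) : a.en (c • x) = ‖c‖ ^ 2 * a.en x := by
  have h : ∑ i, a.p i * two (a.u i * (c • x) - (c • x) * a.u i) ^ 2 =
      ‖c‖ ^ 2 * ∑ i, a.p i * two (a.u i * x - x * a.u i) ^ 2 := by
    rw [Finset.mul_sum]
    refine Finset.sum_congr rfl fun i _ => ?_
    have e : a.u i * (c • x) - (c • x) * a.u i = c • (a.u i * x - x * a.u i) := by
      rw [mul_smul_comm, smul_mul_assoc, smul_sub]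
    rw [e, two_smul']
    ring
  unfold en
  rw [h]
  ring

theorem en_eq_conj (x : A) :
    a.en x = 1 / 2 * ∑ i, a.p i * two (a.u i * x * star (a.u i) - x) ^ 2 := by
  unfold en
  congr 1
  refine Finset.sum_congr rfl fun i _ => ?_
  rw [AvEaux.two_comm_un (a.u_star_mul i) (a.u_mul_star i)]

/-- `∑ p_i ‖u_i x u_i* - x‖₂ ≤ (2 e(x))^{1/2}`. -/
theorem sum_two_le (x : A) :
    ∑ i, a.p i * two (a.u i * x * star (a.u i) - x) ≤ Real.sqrt (2 * a.en x) := by
  refine Real.le_sqrt_of_sq_le ?_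
  refine (AvEaux.jensen a.p _ (pnn a) a.p_sum).trans ?_
  rw [en_eq_conj]
  linarith

/-- Triangle inequality for `e^{1/2}`. -/
theorem sqrt_en_add_le (x y : A) :
    Real.sqrt (a.en (x + y)) ≤ Real.sqrt (a.en x) + Real.sqrt (a.en y) := by
  have hx := a.en_nonneg x
  have hy := a.en_nonneg y
  have h0 : 0 ≤ Real.sqrt (a.en x) + Real.sqrt (a.en y) :=
    add_nonneg (Real.sqrt_nonneg _) (Real.sqrt_nonneg _)
  refine Real.sqrt_le_iff.2 ⟨h0, ?_⟩
  have h1 : ∀ i, a.p i * two (a.u i * (x + y) - (x + y) * a.u i) ^ 2 ≤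
      a.p i * two (a.u i * x - x * a.u i) ^ 2 + a.p i * two (a.u i * y - y * a.u i) ^ 2 +
        2 * (a.p i * (two (a.u i * x - x * a.u i) * two (a.u i * y - y * a.u i))) := fun i => by
    have e : a.u i * (x + y) - (x + y) * a.u i =
        (a.u i * x - x * a.u i) + (a.u i * y - y * a.u i) := by noncomm_ring
    have h2 := two_add_le (a.u i * x - x * a.u i) (a.u i * y - y * a.u i)
    rw [← e] at h2
    have h3 := two_nonneg (a.u i * (x + y) - (x + y) * a.u i)
    have h4 := pnn a i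
    have h5 : two (a.u i * (x + y) - (x + y) * a.u i) ^ 2 ≤
        (two (a.u i * x - x * a.u i) + two (a.u i * y - y * a.u i)) ^ 2 :=
      pow_le_pow_left₀ h3 h2 2
    have h6 := mul_le_mul_of_nonneg_left h5 h4
    refine h6.trans (le_of_eq ?_)
    ring
  have h2 := Finset.sum_le_sum fun i (_ : i ∈ Finset.univ) => h1 i
  rw [Finset.sum_add_distrib, Finset.sum_add_distrib, ← Finset.mul_sum] at h2
  have h3 := AvEaux.cs a.p (fun i => two (a.u i * x - x * a.u i))
    (fun i => two (a.u i * y - y * a.u i)) (pnn a)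
  have ex : ∑ i, a.p i * two (a.u i * x - x * a.u i) ^ 2 = 2 * a.en x := by
    unfold en; ring
  have ey : ∑ i, a.p i * two (a.u i * y - y * a.u i) ^ 2 = 2 * a.en y := by
    unfold en; ring
  have exy : ∑ i, a.p i * two (a.u i * (x + y) - (x + y) * a.u i) ^ 2 = 2 * a.en (x + y) := by
    unfold en; ring
  simp only [ex, ey, exy] at h2 h3
  have h4 : Real.sqrt (2 * a.en x) * Real.sqrt (2 * a.en y) =
      2 * (Real.sqrt (a.en x) * Real.sqrt (a.en y)) := by
    rw [Real.sqrt_mul (by norm_num), Real.sqrt_mul (by norm_num)]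
    have := Real.mul_self_sqrt (show (0 : ℝ) ≤ 2 by norm_num)
    linear_combination (Real.sqrt (a.en x) * Real.sqrt (a.en y)) * this
  rw [h4] at h3
  have h5 := Real.mul_self_sqrt hx
  have h6 := Real.mul_self_sqrt hy
  nlinarith

theorem conv (j : ℕ) (x y : A) (hx : 0 ≤ x) :
    rt (star ((a.T ^ j) y) * x * (a.T ^ j) y) ≤ rt (star y * (a.T ^ j) x * y) := by
  have step : ∀ x y : A, 0 ≤ x →
      rt (star (a.T y) * x * a.T y) ≤ rt (star y * a.T x * y) := by
    intro x y hx
    obtain ⟨s, rfl⟩ := CStarAlgebra.nonneg_iff_eq_star_mul_self.1 hx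
    have q : ∀ v : A, rt (star v * (star s * s) * v) = two (s * v) ^ 2 := fun v => by
      rw [AvEaux.two_sq', star_mul]
      congr 1
      noncomm_ring
    have h1 : two (s * a.T y) ≤ ∑ i, a.p i * two (s * (a.u i * y)) := by
      rw [T_apply, Finset.mul_sum]
      refine (AvAaux.two_sum_le _ _).trans (Finset.sum_le_sum fun i _ => ?_)
      rw [mul_smul_comm, two_smul', Complex.norm_real, Real.norm_eq_abs, abs_of_nonneg (pnn a i)]
      have e : s * (a.u i * y * star (a.u i)) = s * (a.u i * y) * star (a.u i) := by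
        noncomm_ring
      rw [e, AvEaux.two_mul_un (by rw [star_star]; exact a.u_star_mul i)]
    have h2 : two (s * a.T y) ^ 2 ≤ ∑ i, a.p i * two (s * (a.u i * y)) ^ 2 :=
      (pow_le_pow_left₀ (two_nonneg _) h1 2).trans (AvEaux.jensen a.p _ (pnn a) a.p_sum)
    rw [q]
    refine h2.trans (le_of_eq ?_)
    rw [T_inv, Finset.mul_sum, Finset.sum_mul, AvEaux.rt_sum]
    refine Finset.sum_congr rfl fun i _ => ?_
    rw [mul_smul_comm, smul_mul_assoc, AvEaux.rt_smul, AvEaux.two_sq', star_mul, star_mul]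
    congr 2
    noncomm_ring
  induction j generalizing x with
  | zero => exact le_rfl
  | succ j ih =>
    have h1 := step x ((a.T ^ j) y) hx
    have h2 := ih (a.T x) (a.T_nonneg hx)
    have e1 : (a.T ^ (j + 1)) y = a.T ((a.T ^ j) y) := by
      rw [pow_succ', Module.End.mul_apply]
    have e2 : (a.T ^ (j + 1)) x = (a.T ^ j) (a.T x) := by
      rw [pow_succ, Module.End.mul_apply]
    rw [e1, e2]
    exact h1.trans h2

/-- `|τ(T x - x)...|`: `‖x - T^j x‖₁ ≤ j d1(x)`. -/
theorem one_Tp_sub_le (j : ℕ) (x : A) : one ((a.T ^ j) x - x) ≤ j * a.d1 x := by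
  have h0 : one (a.T x - x) ≤ a.d1 x := by
    have e : a.T x - x = ∑ i, (a.p i : ℂ) • (a.u i * x * star (a.u i) - x) := by
      simp only [smul_sub]
      rw [Finset.sum_sub_distrib, ← T_apply, ← Finset.sum_smul, ← Complex.ofReal_sum, a.p_sum,
        Complex.ofReal_one, one_smul]
    rw [e]
    exact AvEaux.one_sum_le _ _ (pnn a) _
  induction j with
  | zero =>
    have e : (a.T ^ 0) x - x = 0 := by
      rw [pow_zero, Module.End.one_apply, sub_self]
    rw [e, AvEaux.one_zero, Nat.cast_zero, zero_mul]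
  | succ j ih =>
    have e : (a.T ^ (j + 1)) x - x = a.T ((a.T ^ j) x - x) + (a.T x - x) := by
      rw [pow_succ', Module.End.mul_apply, map_sub]
      abel
    rw [e]
    refine (AvEaux.one_add_le _ _).trans ?_
    have h1 := a.one_T_le ((a.T ^ j) x - x)
    push_cast
    linarith

theorem d1_nonneg (x : A) : 0 ≤ a.d1 x := by
  unfold d1
  exact Finset.sum_nonneg fun i _ => mul_nonneg (pnn a i) (AvEaux.one_nonneg _)

theorem d1_one : a.d1 1 = 0 := by
  unfold d1
  refine Finset.sum_eq_zero fun i _ => ?_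
  rw [mul_one, a.u_mul_star, sub_self, AvEaux.one_zero, mul_zero]

theorem d1_le (x : A) : a.d1 x ≤ Real.sqrt (2 * a.en x) := by
  refine le_trans ?_ (a.sum_two_le x)
  unfold d1
  exact Finset.sum_le_sum fun i _ => mul_le_mul_of_nonneg_left (AvEaux.one_le_two _) (pnn a i)

theorem d1_smul (c : ℝ) (hc : 0 ≤ c) (x : A) : a.d1 (c • x) = c * a.d1 x := by
  unfold d1
  rw [Finset.mul_sum]
  refine Finset.sum_congr rfl fun i _ => ?_
  have e : a.u i * (c • x) * star (a.u i) - c • x =
      (c : ℂ) • (a.u i * x * star (a.u i) - x) := by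
    rw [← Complex.coe_smul, mul_smul_comm, smul_mul_assoc, smul_sub]
  rw [e, AvEaux.one_smul_nn c hc]
  ring

/-- For self-adjoint `x`: `L_x(y) = Re τ(y (T(x²) + x² - x T(x) - T(x) x))`. -/
theorem L_eq (x y : A) (hx : star x = x) :
    a.L x y = rt (y * (a.T (x * x) + x * x - x * a.T x - a.T x * x)) := by
  have h1 : ∀ i, a.p i * rt (y * (star (a.u i * x - x * a.u i) * (a.u i * x - x * a.u i))) =
      rt (y * ((a.p i : ℂ) • (star (a.u i) * (x * x) * a.u i) + (a.p i : ℂ) • (x * x) -
        x * ((a.p i : ℂ) • (star (a.u i) * x * a.u i)) -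
        ((a.p i : ℂ) • (star (a.u i) * x * a.u i)) * x)) := fun i => by
    have e : star (a.u i * x - x * a.u i) * (a.u i * x - x * a.u i) =
        star (a.u i) * (x * x) * a.u i + x * x - x * (star (a.u i) * x * a.u i) -
          star (a.u i) * x * a.u i * x := by
      rw [star_sub, star_mul, star_mul, hx]
      have e1 : (x * star (a.u i) - star (a.u i) * x) * (a.u i * x - x * a.u i) =
          star (a.u i) * (x * x) * a.u i + x * (star (a.u i) * a.u i) * x -
            x * (star (a.u i) * x * a.u i) - star (a.u i) * x * a.u i * x := by noncomm_ring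
      rw [e1, a.u_star_mul, mul_one]
    rw [e, ← AvEaux.rt_smul, ← mul_smul_comm, smul_sub, smul_sub, smul_add, mul_smul_comm,
      smul_mul_assoc]
  unfold L
  rw [Finset.sum_congr rfl fun i _ => h1 i, ← AvEaux.rt_sum, ← Finset.mul_sum,
    Finset.sum_sub_distrib, Finset.sum_sub_distrib, Finset.sum_add_distrib, ← Finset.mul_sum,
    ← Finset.sum_mul, ← T_inv, ← T_inv, ← Finset.sum_smul, ← Complex.ofReal_sum, a.p_sum,
    Complex.ofReal_one, one_smul]

theorem L_nonneg (x y : A) (hy : 0 ≤ y) : 0 ≤ a.L x y := by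
  unfold L
  refine Finset.sum_nonneg fun i _ => mul_nonneg (pnn a i) ?_
  obtain ⟨s, rfl⟩ := CStarAlgebra.nonneg_iff_eq_star_mul_self.1 hy
  have e : rt (star s * s * (star (a.u i * x - x * a.u i) * (a.u i * x - x * a.u i))) =
      two (s * star (a.u i * x - x * a.u i)) ^ 2 := by
    rw [AvEaux.two_sq', star_mul, star_star, ← mul_assoc, AvEaux.rt_comm]
    congr 1
    noncomm_ring
  rw [e]
  exact sq_nonneg _

theorem L_one (x : A) : a.L x 1 = 2 * a.en x := by
  unfold L en
  rw [← mul_assoc]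
  have e : (2 : ℝ) * (1 / 2) = 1 := by norm_num
  rw [e, one_mul]
  refine Finset.sum_congr rfl fun i _ => ?_
  rw [one_mul, AvEaux.two_sq']

end Avg

end Pool.Agent.PTH
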