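import Pool.Agent.PTH.Tr

/-!
# PTH (MP_517fed_an): basic definitions at finite level

Paper proof: /team-store/t517_v2.md (with the details of /team-store/t517_proof.md).

`TracialVN A`: tracial von Neumann algebra = C*-algebra with faithful tracial state whose unit ball
is complete for the 2-norm.  `rt x = Re τ(x)`, `two x = ‖x‖₂`, `one x = ‖x‖₁`.
`Avg A`: finite symmetric lazy family of unitaries with weights; `a.T`, `a.en` (energy), `a.d1`,
`a.L`.  `Bim A`: Hilbert bimodules.  `GI`: the noisy gap.  `HG`: the hard gap under a projection.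
-/

open Filter Topology
open scoped InnerProductSpace ComplexOrder

universe u

namespace Pool.Agent.PTH

open MulOpposite

export TrAlg (tau)

/-- A tracial von Neumann algebra: a unital C*-algebra with a faithful tracial state whose closed
unit ball is complete for the 2-norm. -/
class TracialVN (A : Type*) [CStarAlgebra A] extends TrAlg A where
  ball_complete : ∀ x : ℕ → A, (∀ n, ‖x n‖ ≤ 1) →
    (∀ ε : ℝ, 0 < ε → ∃ k, ∀ m ≥ k, ∀ n ≥ k, two (x m - x n) ≤ ε) →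
    ∃ y : A, ‖y‖ ≤ 1 ∧ Tendsto (fun n => two (x n - y)) atTop (𝓝 0)

section defs

variable {A : Type*} [CStarAlgebra A] [TrAlg A]

/-- The real part of the trace. -/
noncomputable def rt (x : A) : ℝ := (TrAlg.tau x).re

/-- The 1-norm `‖x‖₁ = sup {|τ(x y)| : ‖y‖ ≤ 1}`. -/
noncomputable def one (x : A) : ℝ := ⨆ y : {y : A // ‖y‖ ≤ 1}, ‖TrAlg.tau (x * (y : A))‖

/-- The spectral projection `1_{x > t}` of a self-adjoint element: the 2-norm limit of
`min 1 (n (x - t)₊)`. -/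
noncomputable def spr (x : A) (t : ℝ) : A :=
  Classical.epsilon fun e : A =>
    Tendsto (fun n : ℕ => two (cfc (fun s : ℝ => min 1 ((n : ℝ) * max (s - t) 0)) x - e)) atTop
      (𝓝 0)

end defs

/-- Trivial centre. -/
def IsFac (A : Type*) [CStarAlgebra A] : Prop :=
  ∀ z : A, (∀ x : A, z * x = x * z) → ∃ c : ℂ, z = c • (1 : A)

/-- A II₁ factor: trivial centre and infinite dimension. -/
def IsII1 (A : Type*) [CStarAlgebra A] : Prop := IsFac A ∧ ¬ FiniteDimensional ℂ A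

/-- Self-adjoint idempotent. -/
def Prj {A : Type*} [Mul A] [Star A] (p : A) : Prop := star p = p ∧ p * p = p

/-- The combinatorial data of a finite symmetric lazy family: index type, weights, involution. -/
structure Sym where
  ι : Type
  [fin : Fintype ι]
  p : ι → ℝ
  inv : ι → ι
  o : ι
  inv_inv : ∀ i, inv (inv i) = i
  p_inv : ∀ i, p (inv i) = p i
  p_pos : ∀ i, 0 < p i
  p_sum : ∑ i, p i = 1
  p_o : 1 / 2 ≤ p o

attribute [instance] Sym.fin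

/-- A finite symmetric lazy family of unitaries with weights. -/
structure Avg (A : Type*) [CStarAlgebra A] extends Sym where
  u : ι → A
  u_star_mul : ∀ i, star (u i) * u i = 1
  u_mul_star : ∀ i, u i * star (u i) = 1
  u_inv : ∀ i, u (inv i) = star (u i)
  u_o : u o = 1

namespace Avg

variable {A : Type*} [CStarAlgebra A] (a : Avg A)

/-- `T x = ∑ p_i u_i x u_i*`. -/
noncomputable def T : A →ₗ[ℂ] A where
  toFun x := ∑ i, (a.p i : ℂ) • (a.u i * x * star (a.u i))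
  map_add' x y := by
    rw [← Finset.sum_add_distrib]
    refine Finset.sum_congr rfl fun i _ => ?_
    rw [mul_add, add_mul, smul_add]
  map_smul' r x := by
    rw [RingHom.id_apply, Finset.smul_sum]
    refine Finset.sum_congr rfl fun i _ => ?_
    rw [mul_smul_comm, smul_mul_assoc, smul_comm]

theorem T_apply (x : A) : a.T x = ∑ i, (a.p i : ℂ) • (a.u i * x * star (a.u i)) := rfl

variable [TrAlg A]

/-- The energy `e(x) = 1/2 ∑ p_i ‖u_i x - x u_i‖₂²` in the bimodule `L²(A)`. -/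
noncomputable def en (x : A) : ℝ := 1 / 2 * ∑ i, a.p i * two (a.u i * x - x * a.u i) ^ 2

/-- `d1(x) = ∑ p_i ‖u_i x u_i* - x‖₁`. -/
noncomputable def d1 (x : A) : ℝ := ∑ i, a.p i * one (a.u i * x * star (a.u i) - x)

/-- `L x y = ∑ p_i τ(y |[u_i, x]|²)`. -/
noncomputable def L (x y : A) : ℝ :=
  ∑ i, a.p i * rt (y * (star (a.u i * x - x * a.u i) * (a.u i * x - x * a.u i)))

end Avg

/-- A Hilbert bimodule over the C*-algebra `A`: commuting unital *-representations of `A` and of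
the opposite algebra. -/
structure Bim (A : Type u) [CStarAlgebra A] where
  H : Type u
  [i1 : NormedAddCommGroup H]
  [i2 : InnerProductSpace ℂ H]
  [i3 : CompleteSpace H]
  L : A →⋆ₐ[ℂ] (H →L[ℂ] H)
  R : Aᵐᵒᵖ →⋆ₐ[ℂ] (H →L[ℂ] H)
  comm : ∀ x y, L x * R y = R y * L x

attribute [instance] Bim.i1 Bim.i2 Bim.i3

namespace Bim

variable {A : Type u} [CStarAlgebra A] (B : Bim A)

/-- Left action. -/
noncomputable def l (x : A) : B.H →L[ℂ] B.H := B.L x

/-- Right action. -/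
noncomputable def r (x : A) : B.H →L[ℂ] B.H := B.R (op x)

/-- `T ξ = ∑ p_i u_i ξ u_i*`. -/
noncomputable def T (a : Avg A) : B.H →L[ℂ] B.H :=
  ∑ i, (a.p i : ℂ) • (B.l (a.u i) * B.r (star (a.u i)))

/-- The energy `e(ξ) = 1/2 ∑ p_i ‖u_i ξ - ξ u_i‖²`. -/
noncomputable def en (a : Avg A) (ξ : B.H) : ℝ :=
  1 / 2 * ∑ i, a.p i * ‖B.l (a.u i) ξ - B.r (a.u i) ξ‖ ^ 2

variable [TrAlg A] [PartialOrder A]

/-- `x` is a (bounded) left density of `ξ`. -/
def LD (ξ : B.H) (x : A) : Prop := 0 ≤ x ∧ ∀ z : A, ⟪ξ, B.l z ξ⟫_ℂ = TrAlg.tau (z * x)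

/-- `x` is a (bounded) right density of `ξ`. -/
def RD (ξ : B.H) (x : A) : Prop := 0 ≤ x ∧ ∀ z : A, ⟪ξ, B.r z ξ⟫_ℂ = TrAlg.tau (z * x)

/-- `ξ` has bounded densities. -/
def Bdd (ξ : B.H) : Prop := (∃ x, B.LD ξ x) ∧ ∃ y, B.RD ξ y

/-- Vectors with bounded densities are dense. -/
def Reg : Prop := Dense {ξ : B.H | B.Bdd ξ}

end Bim

section gaps

variable {A : Type u} [CStarAlgebra A] [TrAlg A] [PartialOrder A]

/-- Noisy gap: `c e(ξ) ≤ ‖Δξ‖² + ⟨hξ,ξ⟩ + ⟨ξh,ξ⟩` for all vectors with bounded densities of all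
bimodules. -/
def GI (a : Avg A) (h : A) (c : ℝ) : Prop :=
  ∀ B : Bim.{u} A, ∀ ξ : B.H, B.Bdd ξ →
    c * B.en a ξ ≤ ‖ξ - B.T a ξ‖ ^ 2 + (⟪ξ, B.l h ξ⟫_ℂ).re + (⟪ξ, B.r h ξ⟫_ℂ).re

/-- Hard gap under the projection `Y`: `ν e(ξ) ≤ ‖Δ_Y ξ‖² + e' ‖ξ‖²` for all `ξ ∈ Y H Y`, where
`Δ_Y ξ = ξ - Y (T ξ) Y`. -/
def HG (a : Avg A) (Y : A) (ν e' : ℝ) : Prop :=
  ∀ B : Bim.{u} A, B.Reg → ∀ ξ : B.H, B.l Y ξ = ξ → B.r Y ξ = ξ →
    ν * B.en a ξ ≤ ‖ξ - B.l Y (B.r Y (B.T a ξ))‖ ^ 2 + e' * ‖ξ‖ ^ 2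

end gaps

section maps

variable {A : Type*} [CStarAlgebra A]

/-- Complete positivity. -/
def CP [PartialOrder A] (Θ : A →ₗ[ℂ] A) : Prop :=
  ∀ (n : ℕ) (x y : Fin n → A), 0 ≤ ∑ i, ∑ j, star (y i) * Θ (star (x i) * x j) * y j

variable [TrAlg A]

/-- The extension to `L²` is a compact operator: the image of the 2-norm unit ball is totally
bounded for the 2-norm. -/
def Cpt (Θ : A →ₗ[ℂ] A) : Prop :=
  ∀ ε : ℝ, 0 < ε → ∃ F : Finset A, ∀ x : A, two x ≤ 1 → ∃ y ∈ F, two (Θ x - y) ≤ ε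

/-- Symmetric: `τ(Θ(x) y) = τ(x Θ(y))`. -/
def Symm (Θ : A →ₗ[ℂ] A) : Prop := ∀ x y : A, TrAlg.tau (Θ x * y) = TrAlg.tau (x * Θ y)

/-- Positive as an operator of `L²`. -/
def Pos2 (Θ : A →ₗ[ℂ] A) : Prop := ∀ x : A, 0 ≤ rt (star x * Θ x)

/-- The Haagerup property in the symmetric form used in the proof. -/
def SHaag (A : Type*) [CStarAlgebra A] [TrAlg A] [PartialOrder A] : Prop :=
  ∀ (F : Finset A) (ε : ℝ), 0 < ε → ∃ Θ : A →ₗ[ℂ] A, CP Θ ∧ Symm Θ ∧ Pos2 Θ ∧ Θ 1 ≤ 1 ∧ Cpt Θ ∧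
    ∀ x ∈ F, two (Θ x - x) ≤ ε

end maps

section families

variable {A : Type*} [CStarAlgebra A] [TrAlg A]

/-- Orthonormal family for `τ(y* x)`. -/
def ON {r : ℕ} (v : Fin r → A) : Prop :=
  ∀ i j, TrAlg.tau (star (v i) * v j) = if i = j then 1 else 0

/-- `D(v) = r - ∑ p_i ∑_{j,l} |τ(v_l* u_i v_j)|²`, the energy of the projection onto the span of an
orthonormal family `v` in the coarse bimodule. -/
noncomputable def Dv (a : Avg A) {r : ℕ} (v : Fin r → A) : ℝ :=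
  r - ∑ i, a.p i * ∑ j, ∑ l, ‖TrAlg.tau (star (v l) * a.u i * v j)‖ ^ 2

/-- Contraction matrix. -/
def Contr {r : ℕ} (θ : Matrix (Fin r) (Fin r) ℂ) : Prop :=
  ∀ x : Fin r → ℂ, ∑ i, ‖(θ.mulVec x) i‖ ^ 2 ≤ ∑ i, ‖x i‖ ^ 2

/-- `D1 = ∑ p_i ‖u_i W - W θ_i‖₂²` for a row `W`. -/
noncomputable def rowEn (a : Avg A) {r : ℕ} (W : Fin r → A)
    (θ : a.ι → Matrix (Fin r) (Fin r) ℂ) : ℝ :=
  ∑ i, a.p i * ∑ j, two (a.u i * W j - ∑ l, θ i l j • W l) ^ 2

/-- `D2 = ‖W*W - 1 ⊗ q‖₂²` (non-normalised trace). -/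
noncomputable def rowDef {r : ℕ} (W : Fin r → A) (q : A) : ℝ :=
  ∑ j, ∑ l, two (star (W j) * W l - if j = l then q else 0) ^ 2

end families

end Pool.Agent.PTH
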