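import Pool.Agent.PTH.Bld

/-!
# PTH / Bl: the bilinear remainder

Replace `a` by `a` times the indicator function of `[1, X]`, `b` similarly; `[1, X]` is covered by the
intervals `[2^i, 2^(i+1))`, `i ≤ log_2 X`.  For `M = 2^i ≤ X`, `N' = 2^j ≤ Y` the hypotheses of `bld` hold
(`M^2 N' ≤ X^2 Y`, `M N'^2 ≤ X Y^2`).  There are at most `(2 log N + 2)^2` pairs `(i, j)` (`X, Y ≤ N`).
-/

set_option autoImplicit false

namespace Pool.Agent.PTH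

open Finset Filter

namespace Bl

lemma dyad (g : ℕ → ℝ) (L : ℕ) :
    ∑ i ∈ range L, ∑ m ∈ Ico (2 ^ i) (2 * 2 ^ i), g m = ∑ m ∈ Ico 1 (2 ^ L), g m := by
  induction L with
  | zero => simp
  | succ L ih =>
    rw [sum_range_succ, ih, pow_succ, mul_comm (2 ^ L) 2]
    exact sum_Ico_consecutive _ Nat.one_le_two_pow (by omega)

lemma cover (X : ℕ) (f : ℕ → ℝ) :
    ∑ m ∈ Icc 1 X, f m = ∑ i ∈ range (Nat.log 2 X + 1), ∑ m ∈ Ico (2 ^ i) (2 * 2 ^ i),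
      (if m ∈ Icc 1 X then f m else 0) := by
  rw [dyad]
  have h1 : ∑ m ∈ Icc 1 X, f m = ∑ m ∈ Icc 1 X, (if m ∈ Icc 1 X then f m else 0) :=
    sum_congr rfl (fun m hm => by rw [if_pos hm])
  rw [h1]
  refine sum_subset ?_ (fun m _ hm => by rw [if_neg hm])
  intro m hm
  rw [mem_Icc] at hm
  rw [mem_Ico]
  exact ⟨hm.1, lt_of_le_of_lt hm.2 (Nat.lt_pow_succ_log_self (by norm_num) X)⟩

lemma log_bound {X N : ℕ} (hX : 1 ≤ X) (hXN : X ≤ N) :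
    ((Nat.log 2 X + 1 : ℕ) : ℝ) ≤ 2 * Real.log N + 1 := by
  have h1 : 2 ^ Nat.log 2 X ≤ X := Nat.pow_log_le_self 2 (by omega)
  have h2 : ((2 : ℝ) ^ Nat.log 2 X) ≤ N := by exact_mod_cast h1.trans hXN
  have h3 := Real.log_le_log (by positivity) h2
  rw [Real.log_pow] at h3
  have h4 : (1 / 2 : ℝ) < Real.log 2 := by
    have := Real.log_two_gt_d9
    linarith
  have h5 : (0 : ℝ) ≤ Nat.log 2 X := Nat.cast_nonneg _
  push_cast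
  nlinarith

lemma ev_log : ∀ᶠ N : ℕ in atTop, 2 * Real.log N + 1 ≤ (N : ℝ) ^ (1 / 10000 : ℝ) := by
  have h1 := (isLittleO_log_rpow_atTop (show (0 : ℝ) < 1 / 10000 by norm_num)).bound
    (show (0 : ℝ) < 1 / 3 by norm_num)
  have h2 := tendsto_natCast_atTop_atTop (R := ℝ) |>.eventually h1
  filter_upwards [h2, eventually_ge_atTop 3] with N hN hN3
  have hx : (3 : ℝ) ≤ N := by exact_mod_cast hN3
  have h3 : 1 ≤ Real.log N := by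
    rw [Real.le_log_iff_exp_le (by linarith)]
    have := Real.exp_one_lt_d9
    linarith
  rw [Real.norm_of_nonneg (by linarith), Real.norm_of_nonneg (by positivity)] at hN
  linarith

end Bl

open Bl in
theorem bl (r : ℕ) (hr : 5000 ≤ r) : ∀ᶠ N : ℕ in atTop, ∀ H : ℕ,
    (N : ℝ) ^ (1 / 2 - 1 / 50000 : ℝ) ≤ H → r * H ≤ N → ∀ X Y : ℝ, 1 ≤ X → 1 ≤ Y →
    X ^ 2 * Y ≤ (N : ℝ) ^ (997 / 1000 : ℝ) → X * Y ^ 2 ≤ (N : ℝ) ^ (747 / 1000 : ℝ) →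
    ∀ a b : ℕ → ℝ, (∀ m, |a m| ≤ 1) → (∀ n, |b n| ≤ 1) →
    |∑ m ∈ Icc 1 ⌊X⌋₊, ∑ n ∈ Icc 1 ⌊Y⌋₊, a m * b n * rr r N H (m * n)| ≤
      (N : ℝ) ^ (4993 / 10000 : ℝ) := by
  filter_upwards [bld r hr, ev_log, eventually_ge_atTop 1] with N hbld hlog hN1 H hH hrH X Y hX hY
    h1 h2 a b ha hb
  have hx : (1 : ℝ) ≤ N := by exact_mod_cast hN1
  have hx0 : (0 : ℝ) < N := by linarith
  have hXf : 1 ≤ ⌊X⌋₊ := Nat.le_floor (by exact_mod_cast hX)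
  have hYf : 1 ≤ ⌊Y⌋₊ := Nat.le_floor (by exact_mod_cast hY)
  have hXf2 : (⌊X⌋₊ : ℝ) ≤ X := Nat.floor_le (by linarith)
  have hYf2 : (⌊Y⌋₊ : ℝ) ≤ Y := Nat.floor_le (by linarith)
  have hXN : ⌊X⌋₊ ≤ N := by
    have h3 : X ≤ N := by
      calc X ≤ X ^ 2 * Y := by nlinarith [mul_le_mul hX hY zero_le_one (by linarith : (0:ℝ) ≤ X)]
        _ ≤ (N : ℝ) ^ (997 / 1000 : ℝ) := h1
        _ ≤ (N : ℝ) ^ (1 : ℝ) := Real.rpow_le_rpow_of_exponent_le hx (by norm_num)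
        _ = N := Real.rpow_one _
    exact_mod_cast hXf2.trans h3
  have hYN : ⌊Y⌋₊ ≤ N := by
    have h3 : Y ≤ N := by
      calc Y ≤ X * Y ^ 2 := by nlinarith [mul_le_mul hX hY zero_le_one (by linarith : (0:ℝ) ≤ X)]
        _ ≤ (N : ℝ) ^ (747 / 1000 : ℝ) := h2
        _ ≤ (N : ℝ) ^ (1 : ℝ) := Real.rpow_le_rpow_of_exponent_le hx (by norm_num)
        _ = N := Real.rpow_one _
    exact_mod_cast hYf2.trans h3
  set a' : ℕ → ℝ := fun m => if m ∈ Icc 1 ⌊X⌋₊ then a m else 0 with ha'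
  set b' : ℕ → ℝ := fun n => if n ∈ Icc 1 ⌊Y⌋₊ then b n else 0 with hb'
  have ha1 : ∀ m, |a' m| ≤ 1 := by
    intro m
    simp only [ha']
    split_ifs
    · exact ha m
    · simp
  have hb1 : ∀ n, |b' n| ≤ 1 := by
    intro n
    simp only [hb']
    split_ifs
    · exact hb n
    · simp
  have hsum : ∑ m ∈ Icc 1 ⌊X⌋₊, ∑ n ∈ Icc 1 ⌊Y⌋₊, a m * b n * rr r N H (m * n) =
      ∑ i ∈ range (Nat.log 2 ⌊X⌋₊ + 1), ∑ j ∈ range (Nat.log 2 ⌊Y⌋₊ + 1),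
        ∑ m ∈ Ico (2 ^ i) (2 * 2 ^ i), ∑ n ∈ Ico (2 ^ j) (2 * 2 ^ j),
          a' m * b' n * rr r N H (m * n) := by
    rw [cover]
    refine sum_congr rfl (fun i _ => ?_)
    rw [sum_comm]
    refine sum_congr rfl (fun m _ => ?_)
    split_ifs with hm
    · rw [cover]
      refine sum_congr rfl (fun j _ => sum_congr rfl (fun n _ => ?_))
      simp only [ha', hb', if_pos hm]
      split_ifs
      · rfl
      · ring
    · symm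
      refine sum_eq_zero (fun j _ => sum_eq_zero (fun n _ => ?_))
      simp only [ha', if_neg hm]
      ring
  rw [hsum]
  have hbox : ∀ i ∈ range (Nat.log 2 ⌊X⌋₊ + 1), ∀ j ∈ range (Nat.log 2 ⌊Y⌋₊ + 1),
      |∑ m ∈ Ico (2 ^ i) (2 * 2 ^ i), ∑ n ∈ Ico (2 ^ j) (2 * 2 ^ j),
          a' m * b' n * rr r N H (m * n)| ≤ (N : ℝ) ^ (4991 / 10000 : ℝ) := by
    intro i hi j hj
    rw [mem_range] at hi hj
    have hi1 : 2 ^ i ≤ ⌊X⌋₊ := Nat.pow_le_of_le_log (by omega) (by omega)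
    have hj1 : 2 ^ j ≤ ⌊Y⌋₊ := Nat.pow_le_of_le_log (by omega) (by omega)
    have hi2 : ((2 ^ i : ℕ) : ℝ) ≤ X := le_trans (by exact_mod_cast hi1) hXf2
    have hj2 : ((2 ^ j : ℕ) : ℝ) ≤ Y := le_trans (by exact_mod_cast hj1) hYf2
    refine hbld H (2 ^ i) (2 ^ j) hH hrH Nat.one_le_two_pow Nat.one_le_two_pow ?_ ?_ a' b' ha1 hb1
    · refine le_trans ?_ h1
      gcongr
    · refine le_trans ?_ h2
      gcongr
  have h3 : |∑ i ∈ range (Nat.log 2 ⌊X⌋₊ + 1), ∑ j ∈ range (Nat.log 2 ⌊Y⌋₊ + 1),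
        ∑ m ∈ Ico (2 ^ i) (2 * 2 ^ i), ∑ n ∈ Ico (2 ^ j) (2 * 2 ^ j),
          a' m * b' n * rr r N H (m * n)| ≤
      ∑ _i ∈ range (Nat.log 2 ⌊X⌋₊ + 1), ∑ _j ∈ range (Nat.log 2 ⌊Y⌋₊ + 1),
        (N : ℝ) ^ (4991 / 10000 : ℝ) := by
    refine (abs_sum_le_sum_abs _ _).trans (sum_le_sum (fun i hi => ?_))
    exact (abs_sum_le_sum_abs _ _).trans (sum_le_sum (fun j hj => hbox i hi j hj))
  refine h3.trans ?_
  rw [sum_const, sum_const, card_range, card_range, nsmul_eq_mul, nsmul_eq_mul]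
  have h4 := (log_bound hXf hXN).trans hlog
  have h5 := (log_bound hYf hYN).trans hlog
  calc ((Nat.log 2 ⌊X⌋₊ + 1 : ℕ) : ℝ) * (((Nat.log 2 ⌊Y⌋₊ + 1 : ℕ) : ℝ) * (N : ℝ) ^ (4991 / 10000 : ℝ))
      ≤ (N : ℝ) ^ (1 / 10000 : ℝ) * ((N : ℝ) ^ (1 / 10000 : ℝ) * (N : ℝ) ^ (4991 / 10000 : ℝ)) := by
        gcongr
    _ = (N : ℝ) ^ (4993 / 10000 : ℝ) := by
        rw [← Real.rpow_add hx0, ← Real.rpow_add hx0]
        norm_num

end Pool.Agent.PTH
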