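import Pool.Agent.PTH.Hy

/-!
# PTH / Tt: bilinear exponential sums

By Cauchy-Schwarz (`|a m| ≤ 1`) `|S|^2 ≤ M ∑_m |∑_n b_n ec (T/(mn))|^2 =
M ∑_{n1,n2} b_{n1} b_{n2} ∑_m ec ((T/m)(1/n1 - 1/n2))`.  The terms `n1 = n2` give at most `M * N' * M`.
For `n1 ≠ n2` let `y = T |n2 - n1|/(n1 n2)`, `T |n2-n1|/(4 N'^2) ≤ y ≤ T/N'`; by `hy` the inner sum is at
most `C (√(y/M) + √(M^3/y)) ≤ C (√(T/(M N')) + 2 N' √(M^3/(T |n1-n2|)))`.  Sum over `n1, n2`:
`N'^2 √(T/(M N'))` resp. `2 N' √(M^3/T) * N' * 2 ∑_{1 ≤ k ≤ N'} 1/√k ≤ 8 N'^(5/2) √(M^3/T)`.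
Multiply by `M`: `M N'^2 √(T/(M N')) = N' √(M N' T)`, `M^(5/2) N'^(5/2)/√T = (M N')^2 √(M N'/T)`.
-/

set_option autoImplicit false

namespace Pool.Agent.PTH

open Finset


private theorem s1 (K : ℕ) : ∑ k ∈ range K, 1 / √((k : ℝ) + 1) ≤ 2 * √K := by
  induction K with
  | zero => simp
  | succ K ih =>
    rw [sum_range_succ]
    have h0 : (0 : ℝ) ≤ K := Nat.cast_nonneg _
    have h1 : 0 < √((K : ℝ) + 1) := Real.sqrt_pos.mpr (by positivity)
    have h2 : 0 ≤ √(K : ℝ) := Real.sqrt_nonneg _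
    have h3 : √(K : ℝ) * √(K : ℝ) = K := Real.mul_self_sqrt h0
    have h4 : √((K : ℝ) + 1) * √((K : ℝ) + 1) = K + 1 := Real.mul_self_sqrt (by positivity)
    have h5 : 1 / √((K : ℝ) + 1) ≤ 2 * √((K : ℝ) + 1) - 2 * √(K : ℝ) := by
      rw [div_le_iff₀ h1]
      nlinarith [sq_nonneg (√((K : ℝ) + 1) - √(K : ℝ))]
    push_cast
    linarith

private theorem s2 (K : ℕ) : ∑ k ∈ range K, 1 / √(k : ℝ) ≤ 2 * √K := by
  rcases K with _ | K
  · simp
  · rw [sum_range_succ']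
    have h1 := s1 K
    have h2 : √(K : ℝ) ≤ √((K + 1 : ℕ) : ℝ) := Real.sqrt_le_sqrt (by push_cast; linarith)
    simp only [Nat.cast_zero, Real.sqrt_zero, div_zero, add_zero]
    push_cast at h2 ⊢
    linarith

/-- sum of `1 / √|n1 - n2|` -/
private theorem s3 {N' : ℕ} {n1 : ℕ} (h1 : N' ≤ n1) (h2 : n1 < 2 * N') :
    ∑ n2 ∈ Ico N' (2 * N'), 1 / √(|(n1 : ℝ) - n2|) ≤ 4 * √N' := by
  rw [← sum_Ico_consecutive _ h1 h2.le]
  have e1 : ∑ n2 ∈ Ico N' n1, 1 / √(|(n1 : ℝ) - n2|) ≤ 2 * √N' := by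
    rw [sum_Ico_eq_sum_range, ← sum_range_reflect]
    have e2 : ∑ j ∈ range (n1 - N'), 1 / √(|(n1 : ℝ) - ((N' + (n1 - N' - 1 - j) : ℕ) : ℝ)|) =
        ∑ j ∈ range (n1 - N'), 1 / √((j : ℝ) + 1) := by
      refine sum_congr rfl fun j hj => ?_
      rw [mem_range] at hj
      have : ((N' + (n1 - N' - 1 - j) : ℕ) : ℝ) = (n1 : ℝ) - 1 - j := by
        have : N' + (n1 - N' - 1 - j) + (1 + j) = n1 := by omega
        have h3 : ((N' + (n1 - N' - 1 - j) + (1 + j) : ℕ) : ℝ) = n1 := by rw [this]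
        push_cast at h3 ⊢
        linarith
      rw [this]
      congr 2
      rw [abs_of_nonneg (by
        have : (0 : ℝ) ≤ j := Nat.cast_nonneg _
        linarith)]
      ring
    rw [e2]
    refine (s1 _).trans ?_
    have : √((n1 - N' : ℕ) : ℝ) ≤ √(N' : ℝ) := by
      apply Real.sqrt_le_sqrt
      have : n1 - N' ≤ N' := by omega
      exact_mod_cast this
    linarith
  have e3 : ∑ n2 ∈ Ico n1 (2 * N'), 1 / √(|(n1 : ℝ) - n2|) ≤ 2 * √N' := by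
    rw [sum_Ico_eq_sum_range]
    have e2 : ∑ j ∈ range (2 * N' - n1), 1 / √(|(n1 : ℝ) - ((n1 + j : ℕ) : ℝ)|) =
        ∑ j ∈ range (2 * N' - n1), 1 / √(j : ℝ) := by
      refine sum_congr rfl fun j _ => ?_
      congr 2
      push_cast
      rw [show (n1 : ℝ) - (n1 + j) = -(j : ℝ) by ring, abs_neg, Nat.abs_cast]
    rw [e2]
    refine (s2 _).trans ?_
    have : √((2 * N' - n1 : ℕ) : ℝ) ≤ √(N' : ℝ) := by
      apply Real.sqrt_le_sqrt
      have : 2 * N' - n1 ≤ N' := by omega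
      exact_mod_cast this
    linarith
  linarith

private theorem ec_sub (x y : ℝ) : ec x * (starRingEnd ℂ) (ec y) = ec (x - y) := by
  unfold ec
  rw [← Complex.exp_conj, ← Complex.exp_add]
  congr 1
  rw [map_mul, Complex.conj_ofReal, Complex.conj_I]
  push_cast
  ring

/-- the inner sums -/
private theorem inner {C : ℝ} (hC : 0 < C) (hy : ∀ M : ℕ, 1 ≤ M → ∀ y : ℝ, 0 < y →
    ‖∑ m ∈ Ico M (2 * M), ec (y / m)‖ ≤ C * (√(y / M) + √((M : ℝ) ^ 3 / y)) ∧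
    ‖∑ m ∈ Ico M (2 * M), ec (-y / m)‖ ≤ C * (√(y / M) + √((M : ℝ) ^ 3 / y)))
    {M N' : ℕ} (hM : 1 ≤ M) (hN : 1 ≤ N') {T : ℝ} (hT : 0 < T) {n1 n2 : ℕ}
    (h1 : n1 ∈ Ico N' (2 * N')) (h2 : n2 ∈ Ico N' (2 * N')) :
    ‖∑ m ∈ Ico M (2 * M), ec (T / ((m : ℝ) * n1) - T / ((m : ℝ) * n2))‖ ≤
      (if n1 = n2 then (M : ℝ) else 0) + C * (√(T / (M * N')) +
        2 * N' * √((M : ℝ) ^ 3 / T) * (1 / √(|(n1 : ℝ) - n2|))) := by
  rw [mem_Ico] at h1 h2
  have hM0 : (0 : ℝ) < M := by exact_mod_cast hM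
  have hN0 : (0 : ℝ) < N' := by exact_mod_cast hN
  have a1 : (N' : ℝ) ≤ n1 := by exact_mod_cast h1.1
  have a2 : (N' : ℝ) ≤ n2 := by exact_mod_cast h2.1
  have b1 : (n1 : ℝ) ≤ 2 * N' := by exact_mod_cast h1.2.le
  have b2 : (n2 : ℝ) ≤ 2 * N' := by exact_mod_cast h2.2.le
  have p1 : (0 : ℝ) < n1 := lt_of_lt_of_le hN0 a1
  have p2 : (0 : ℝ) < n2 := lt_of_lt_of_le hN0 a2
  by_cases hne : n1 = n2
  · subst hne
    rw [if_pos rfl]
    have e1 : ‖∑ m ∈ Ico M (2 * M), ec (T / ((m : ℝ) * n1) - T / ((m : ℝ) * n1))‖ ≤ M := by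
      refine (norm_sum_le _ _).trans ?_
      rw [sum_congr rfl fun (m : ℕ) _ => norm_ec (T / ((m : ℝ) * n1) - T / ((m : ℝ) * n1)),
        sum_const, Nat.card_Ico]
      have : 2 * M - M = M := by omega
      rw [this]
      simp
    have : 0 ≤ C * (√(T / (M * N')) +
        2 * N' * √((M : ℝ) ^ 3 / T) * (1 / √(|(n1 : ℝ) - n1|))) := by positivity
    linarith
  · rw [if_neg hne, zero_add]
    set k : ℝ := |(n1 : ℝ) - n2| with hk
    have hne' : (n1 : ℝ) - n2 ≠ 0 := by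
      intro h
      apply hne
      have : (n1 : ℝ) = n2 := by linarith
      exact_mod_cast this
    have hk0 : 0 < k := abs_pos.mpr hne'
    have hkN : k ≤ N' := by
      rw [hk, abs_le]
      constructor <;> linarith
    set y : ℝ := T * k / (n1 * n2) with hyd
    have hy0 : 0 < y := by positivity
    have hbound : C * (√(y / M) + √((M : ℝ) ^ 3 / y)) ≤ C * (√(T / (M * N')) +
        2 * N' * √((M : ℝ) ^ 3 / T) * (1 / √k)) := by
      refine mul_le_mul_of_nonneg_left ?_ hC.le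
      have e1 : √(y / M) ≤ √(T / (M * N')) := by
        apply Real.sqrt_le_sqrt
        rw [hyd, div_div, div_le_div_iff₀ (by positivity) (by positivity)]
        have h3 : k * N' ≤ n1 * n2 := by
          calc k * N' ≤ N' * N' := mul_le_mul_of_nonneg_right hkN hN0.le
            _ ≤ n1 * n2 := mul_le_mul a1 a2 hN0.le p1.le
        calc T * k * (M * N') = T * M * (k * N') := by ring
          _ ≤ T * M * (n1 * n2) := mul_le_mul_of_nonneg_left h3 (by positivity)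
          _ = T * (n1 * n2 * M) := by ring
      have e2 : √((M : ℝ) ^ 3 / y) ≤ 2 * N' * √((M : ℝ) ^ 3 / T) * (1 / √k) := by
        have e3 : 2 * N' * √((M : ℝ) ^ 3 / T) * (1 / √k) = √((2 * N') ^ 2 * ((M : ℝ) ^ 3 / T) / k) := by
          rw [Real.sqrt_div (show 0 ≤ (2 * (N' : ℝ)) ^ 2 * ((M : ℝ) ^ 3 / T) by positivity) k,
            Real.sqrt_mul (show 0 ≤ (2 * (N' : ℝ)) ^ 2 by positivity),
            Real.sqrt_sq (by positivity)]
          ring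
        rw [e3]
        apply Real.sqrt_le_sqrt
        rw [hyd]
        have h3 : (n1 : ℝ) * n2 ≤ (2 * N') ^ 2 := by
          calc (n1 : ℝ) * n2 ≤ (2 * N') * (2 * N') := mul_le_mul b1 b2 p2.le (by positivity)
            _ = (2 * N') ^ 2 := by ring
        have e4 : (M : ℝ) ^ 3 / (T * k / (n1 * n2)) = (n1 * n2) * ((M : ℝ) ^ 3 / T) / k := by
          field_simp
        rw [e4]
        refine div_le_div_of_nonneg_right ?_ hk0.le
        exact mul_le_mul_of_nonneg_right h3 (by positivity)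
      linarith
    rcases lt_or_gt_of_ne hne' with hlt | hgt
    · have e5 : ∀ m ∈ Ico M (2 * M), ec (T / ((m : ℝ) * n1) - T / ((m : ℝ) * n2)) =
          ec (y / m) := by
        intro m hm
        rw [mem_Ico] at hm
        have hm0 : (0 : ℝ) < m := by
          have : 0 < m := by omega
          exact_mod_cast this
        congr 1
        rw [hyd, hk, abs_of_neg hlt]
        field_simp
        ring
      rw [sum_congr rfl e5]
      exact (hy M hM y hy0).1.trans hbound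
    · have e5 : ∀ m ∈ Ico M (2 * M), ec (T / ((m : ℝ) * n1) - T / ((m : ℝ) * n2)) =
          ec (-y / m) := by
        intro m hm
        rw [mem_Ico] at hm
        have hm0 : (0 : ℝ) < m := by
          have : 0 < m := by omega
          exact_mod_cast this
        congr 1
        rw [hyd, hk, abs_of_pos hgt]
        field_simp
        ring
      rw [sum_congr rfl e5]
      exact (hy M hM y hy0).2.trans hbound

theorem tt : ∃ C : ℝ, 0 < C ∧ ∀ M N' : ℕ, 1 ≤ M → 1 ≤ N' → ∀ T : ℝ, 0 < T → ∀ a b : ℕ → ℝ,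
    (∀ m, |a m| ≤ 1) → (∀ n, |b n| ≤ 1) →
    ‖∑ m ∈ Ico M (2 * M), ∑ n ∈ Ico N' (2 * N'),
      ((a m * b n : ℝ) : ℂ) * ec (T / ((m : ℝ) * n))‖ ^ 2 ≤
      C * ((M : ℝ) ^ 2 * N' + N' * √((M : ℝ) * N' * T) +
        ((M : ℝ) * N') ^ 2 * √((M : ℝ) * N' / T)) := by
  obtain ⟨C, hC, hy⟩ := hy
  refine ⟨1 + 8 * C, by positivity, fun M N' hM hN T hT a b ha hb => ?_⟩
  have hM0 : (0 : ℝ) < M := by exact_mod_cast hM
  have hN0 : (0 : ℝ) < N' := by exact_mod_cast hN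
  set U : ℕ → ℂ := fun m => ∑ n ∈ Ico N' (2 * N'), ((b n : ℝ) : ℂ) * ec (T / ((m : ℝ) * n)) with hU
  -- Cauchy-Schwarz
  have c1 : ‖∑ m ∈ Ico M (2 * M), ∑ n ∈ Ico N' (2 * N'),
      ((a m * b n : ℝ) : ℂ) * ec (T / ((m : ℝ) * n))‖ ≤ ∑ m ∈ Ico M (2 * M), ‖U m‖ := by
    refine (norm_sum_le _ _).trans (sum_le_sum fun m _ => ?_)
    have e1 : ∑ n ∈ Ico N' (2 * N'), ((a m * b n : ℝ) : ℂ) * ec (T / ((m : ℝ) * n)) =
        ((a m : ℝ) : ℂ) * U m := by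
      rw [hU]
      simp only
      rw [mul_sum]
      refine sum_congr rfl fun n _ => ?_
      push_cast
      ring
    rw [e1, norm_mul, Complex.norm_real, Real.norm_eq_abs]
    calc |a m| * ‖U m‖ ≤ 1 * ‖U m‖ := mul_le_mul_of_nonneg_right (ha m) (norm_nonneg _)
      _ = ‖U m‖ := one_mul _
  have c2 : (∑ m ∈ Ico M (2 * M), ‖U m‖) ^ 2 ≤ M * ∑ m ∈ Ico M (2 * M), ‖U m‖ ^ 2 := by
    have h1 := sq_sum_le_card_mul_sum_sq (s := Ico M (2 * M)) (f := fun m => ‖U m‖)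
    rw [Nat.card_Ico] at h1
    have : 2 * M - M = M := by omega
    rwa [this] at h1
  -- the mean square
  have c3 : ((∑ m ∈ Ico M (2 * M), ‖U m‖ ^ 2 : ℝ) : ℂ) = ∑ n1 ∈ Ico N' (2 * N'),
      ∑ n2 ∈ Ico N' (2 * N'), ((b n1 * b n2 : ℝ) : ℂ) * ∑ m ∈ Ico M (2 * M),
        ec (T / ((m : ℝ) * n1) - T / ((m : ℝ) * n2)) := by
    have e1 : ∀ m, ((‖U m‖ ^ 2 : ℝ) : ℂ) = ∑ n1 ∈ Ico N' (2 * N'), ∑ n2 ∈ Ico N' (2 * N'),
        ((b n1 * b n2 : ℝ) : ℂ) * ec (T / ((m : ℝ) * n1) - T / ((m : ℝ) * n2)) := by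
      intro m
      have e2 : ((‖U m‖ ^ 2 : ℝ) : ℂ) = U m * (starRingEnd ℂ) (U m) := by
        rw [Complex.mul_conj, Complex.normSq_eq_norm_sq]
      rw [e2, hU]
      simp only
      rw [map_sum, sum_mul_sum]
      refine sum_congr rfl fun n1 _ => sum_congr rfl fun n2 _ => ?_
      rw [map_mul, Complex.conj_ofReal, ← ec_sub]
      push_cast
      ring
    push_cast
    push_cast at e1
    rw [sum_congr rfl fun m _ => e1 m, sum_comm]
    refine sum_congr rfl fun n1 _ => ?_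
    rw [sum_comm]
    refine sum_congr rfl fun n2 _ => ?_
    rw [mul_sum]
  have c4 : ∑ m ∈ Ico M (2 * M), ‖U m‖ ^ 2 ≤ ∑ n1 ∈ Ico N' (2 * N'), ∑ n2 ∈ Ico N' (2 * N'),
      ‖∑ m ∈ Ico M (2 * M), ec (T / ((m : ℝ) * n1) - T / ((m : ℝ) * n2))‖ := by
    have h0 : 0 ≤ ∑ m ∈ Ico M (2 * M), ‖U m‖ ^ 2 := sum_nonneg fun m _ => by positivity
    have e1 : ∑ m ∈ Ico M (2 * M), ‖U m‖ ^ 2 =
        ‖((∑ m ∈ Ico M (2 * M), ‖U m‖ ^ 2 : ℝ) : ℂ)‖ := by
      rw [Complex.norm_real, Real.norm_eq_abs, abs_of_nonneg h0]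
    rw [e1, c3]
    refine (norm_sum_le _ _).trans (sum_le_sum fun n1 _ => ?_)
    refine (norm_sum_le _ _).trans (sum_le_sum fun n2 _ => ?_)
    rw [norm_mul, Complex.norm_real, Real.norm_eq_abs, abs_mul]
    have h1 : |b n1| * |b n2| ≤ 1 := by
      calc |b n1| * |b n2| ≤ 1 * 1 := mul_le_mul (hb n1) (hb n2) (abs_nonneg _) (by norm_num)
        _ = 1 := one_mul _
    calc |b n1| * |b n2| * _ ≤ 1 * _ := mul_le_mul_of_nonneg_right h1 (norm_nonneg _)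
      _ = _ := one_mul _
  set A : ℝ := √(T / (M * N')) with hA
  set B : ℝ := √((M : ℝ) ^ 3 / T) with hB
  have hA0 : 0 ≤ A := Real.sqrt_nonneg _
  have hB0 : 0 ≤ B := Real.sqrt_nonneg _
  have c5 : ∑ n1 ∈ Ico N' (2 * N'), ∑ n2 ∈ Ico N' (2 * N'),
      ‖∑ m ∈ Ico M (2 * M), ec (T / ((m : ℝ) * n1) - T / ((m : ℝ) * n2))‖ ≤
      N' * (M + C * (N' * A + 2 * N' * B * (4 * √N'))) := by
    have e1 : ∀ n1 ∈ Ico N' (2 * N'), ∑ n2 ∈ Ico N' (2 * N'),
        ‖∑ m ∈ Ico M (2 * M), ec (T / ((m : ℝ) * n1) - T / ((m : ℝ) * n2))‖ ≤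
        M + C * (N' * A + 2 * N' * B * (4 * √N')) := by
      intro n1 hn1
      have h1 : ∑ n2 ∈ Ico N' (2 * N'),
          ‖∑ m ∈ Ico M (2 * M), ec (T / ((m : ℝ) * n1) - T / ((m : ℝ) * n2))‖ ≤
          ∑ n2 ∈ Ico N' (2 * N'), ((if n1 = n2 then (M : ℝ) else 0) + C * (A +
            2 * N' * B * (1 / √(|(n1 : ℝ) - n2|)))) :=
        sum_le_sum fun n2 hn2 => inner hC hy hM hN hT hn1 hn2
      refine h1.trans ?_
      rw [sum_add_distrib, sum_ite_eq, if_pos hn1, ← mul_sum, sum_add_distrib, sum_const,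
        Nat.card_Ico, ← mul_sum]
      have h2 : 2 * N' - N' = N' := by omega
      rw [h2, nsmul_eq_mul]
      rw [mem_Ico] at hn1
      have h3 := s3 hn1.1 hn1.2
      have h4 : 2 * N' * B * ∑ n2 ∈ Ico N' (2 * N'), 1 / √(|(n1 : ℝ) - n2|) ≤
          2 * N' * B * (4 * √N') := mul_le_mul_of_nonneg_left h3 (by positivity)
      have h5 := mul_le_mul_of_nonneg_left h4 hC.le
      nlinarith
    refine (sum_le_sum e1).trans ?_
    rw [sum_const, Nat.card_Ico]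
    have h2 : 2 * N' - N' = N' := by omega
    rw [h2, nsmul_eq_mul]
  -- the final form
  have f1 : M * N' ^ 2 * A = N' * √((M : ℝ) * N' * T) := by
    have e1 : A = √((M : ℝ) * N' * T) / (M * N') := by
      rw [hA, show T / ((M : ℝ) * N') = (M * N' * T) / (M * N') ^ 2 by field_simp,
        Real.sqrt_div (by positivity), Real.sqrt_sq (by positivity)]
    rw [e1]
    field_simp
  have f2 : M * N' ^ 2 * (B * √N') = ((M : ℝ) * N') ^ 2 * √((M : ℝ) * N' / T) := by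
    have e1 : B = M * √(M / T) := by
      rw [hB, show (M : ℝ) ^ 3 / T = M ^ 2 * (M / T) by ring, Real.sqrt_mul (by positivity),
        Real.sqrt_sq hM0.le]
    have e2 : √((M : ℝ) * N' / T) = √(M / T) * √N' := by
      rw [← Real.sqrt_mul (by positivity)]
      congr 1
      ring
    rw [e1, e2]
    ring
  have g1 : ‖∑ m ∈ Ico M (2 * M), ∑ n ∈ Ico N' (2 * N'),
      ((a m * b n : ℝ) : ℂ) * ec (T / ((m : ℝ) * n))‖ ^ 2 ≤ (∑ m ∈ Ico M (2 * M), ‖U m‖) ^ 2 :=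
    pow_le_pow_left₀ (norm_nonneg _) c1 2
  have g2 := mul_le_mul_of_nonneg_left (c4.trans c5) hM0.le
  have g3 : M * (N' * (M + C * (N' * A + 2 * N' * B * (4 * √N')))) =
      (M : ℝ) ^ 2 * N' + C * (M * N' ^ 2 * A) + 8 * C * (M * N' ^ 2 * (B * √N')) := by ring
  rw [g3, f1, f2] at g2
  have k1 : 0 ≤ (M : ℝ) ^ 2 * N' := by positivity
  have k2 : 0 ≤ N' * √((M : ℝ) * N' * T) := by positivity
  have k3 : 0 ≤ ((M : ℝ) * N') ^ 2 * √((M : ℝ) * N' / T) := by positivity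
  refine (g1.trans (c2.trans g2)).trans ?_
  nlinarith [mul_nonneg hC.le k1, mul_nonneg hC.le k2, mul_nonneg hC.le k3]

end Pool.Agent.PTH
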