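import Pool.Agent.PTH.Ft
import Pool.Agent.PTH.Tt

/-!
# PTH / Bld: bilinear remainder, one dyadic box

`K = ⌊(M N'/H) N^(1/2500)⌋`; for `d = m n`, `M N' ≤ d ≤ 4 M N'`: `2K < d` because `H > 2 N^(1/2500)`.
The error of `ft`: `d/(2H(K+1)) ≤ 2 N^(-1/2500)`, so it is `≤ H 2^r N^(-r/2500) ≤ 2^r N^(-1)`
(`H ≤ N`, `r ≥ 5000`); sum over `M N'` pairs (`M N' ≤ N^(3/5)`): `≤ 2^r N^(-2/5) ≤ 1` for large `N`.
Main part (only if `K ≥ 1`), with `a'_m = a_m M/m`, `b'_n = b_n N'/n` (`|a'|, |b'| ≤ 1`):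
`∑_m ∑_n a_m b_n (1/(mn)) ∑_{k ≤ K} 2 Re ∑_ν spw ν ec (ν k/(mn))`
`≤ (2/(M N')) ∑_{k ≤ K} ∑_ν spw ν |∑∑ a'_m b'_n ec (ν k/(mn))| ≤ (2 K H/(M N')) sup |S|`,
`K H/(M N') ≤ N^(1/2500)`, and by `tt` with `T = ν k`, `N ≤ T ≤ 2 N K` (`ν < N + r H ≤ 2N`):
`|S|^2 ≤ C (M^2 N' + N' √(M N' T) + (M N')^2 √(M N'/T))`:
* `M^2 N' ≤ N^0.997`;
* `N' √(M N' 2N (M N'/H) N^0.0004) = √2 M N'^2 √(N^1.0004/H) ≤ √2 N^(0.747 + 0.25021) = √2 N^0.99721`;
* `M N' ≤ ((M^2 N')(M N'^2))^(1/3) ≤ N^0.58134`, `(M N')^(5/2) N^(-1/2) ≤ N^0.9534`.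
So `|S| ≤ C' N^0.498605` and the total is `≤ 2 C' N^0.499005 + 1 ≤ N^0.4991` for large `N`.
-/

set_option autoImplicit false

namespace Pool.Agent.PTH

open Finset Filter

namespace Bld

lemma ev_rpow (c s : ℝ) (hs : 0 < s) : ∀ᶠ N : ℕ in atTop, c ≤ (N : ℝ) ^ s :=
  ((tendsto_rpow_atTop hs).comp tendsto_natCast_atTop_atTop).eventually_ge_atTop c

lemma prod_le {x M N' : ℝ} (hx : 1 ≤ x) (hM : 0 < M) (hN : 0 < N')
    (h1 : M ^ 2 * N' ≤ x ^ (997 / 1000 : ℝ)) (h2 : M * N' ^ 2 ≤ x ^ (747 / 1000 : ℝ)) :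
    M * N' ≤ x ^ (59 / 100 : ℝ) := by
  have hx0 : 0 < x := by linarith
  have h3 : (M * N') ^ 3 ≤ (x ^ (59 / 100 : ℝ)) ^ 3 := by
    calc (M * N') ^ 3 = (M ^ 2 * N') * (M * N' ^ 2) := by ring
      _ ≤ x ^ (997 / 1000 : ℝ) * x ^ (747 / 1000 : ℝ) := by gcongr
      _ = x ^ (997 / 1000 + 747 / 1000 : ℝ) := (Real.rpow_add hx0 _ _).symm
      _ ≤ x ^ (59 / 100 * (3 : ℕ) : ℝ) := Real.rpow_le_rpow_of_exponent_le hx (by norm_num)
      _ = (x ^ (59 / 100 : ℝ)) ^ 3 := by rw [Real.rpow_mul hx0.le, Real.rpow_natCast]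
  exact le_of_pow_le_pow_left₀ (by norm_num) (by positivity) h3

lemma size {x M N' H T : ℝ} (hx : 1 ≤ x) (hM : 0 < M) (hN : 0 < N')
    (h1 : M ^ 2 * N' ≤ x ^ (997 / 1000 : ℝ)) (h2 : M * N' ^ 2 ≤ x ^ (747 / 1000 : ℝ))
    (hH : x ^ (1 / 2 - 1 / 50000 : ℝ) ≤ H) (hT1 : x ≤ T)
    (hT2 : T ≤ 2 * x * ((M * N') / H * x ^ (1 / 2500 : ℝ))) :
    M ^ 2 * N' + N' * √(M * N' * T) + (M * N') ^ 2 * √(M * N' / T) ≤
      4 * x ^ (99721 / 100000 : ℝ) := by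
  have hx0 : 0 < x := by linarith
  have hP := prod_le hx hM hN h1 h2
  have hH0 : 0 < H := lt_of_lt_of_le (Real.rpow_pos_of_pos hx0 _) hH
  have e1 : M ^ 2 * N' ≤ x ^ (99721 / 100000 : ℝ) :=
    h1.trans (Real.rpow_le_rpow_of_exponent_le hx (by norm_num))
  have e2 : N' * √(M * N' * T) ≤ 2 * x ^ (99721 / 100000 : ℝ) := by
    have h3 : M * N' * T ≤ (2 * (M * N') * x ^ (25021 / 100000 : ℝ)) ^ 2 := by
      have h4 : x * x ^ (1 / 2500 : ℝ) ≤ H * x ^ (50042 / 100000 : ℝ) := by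
        calc x * x ^ (1 / 2500 : ℝ) = x ^ (1 + 1 / 2500 : ℝ) := by
              rw [Real.rpow_add hx0, Real.rpow_one]
          _ ≤ x ^ ((1 / 2 - 1 / 50000) + 50042 / 100000 : ℝ) :=
              Real.rpow_le_rpow_of_exponent_le hx (by norm_num)
          _ = x ^ (1 / 2 - 1 / 50000 : ℝ) * x ^ (50042 / 100000 : ℝ) := Real.rpow_add hx0 _ _
          _ ≤ H * x ^ (50042 / 100000 : ℝ) := by gcongr
      have h5 : (x ^ (25021 / 100000 : ℝ)) ^ 2 = x ^ (50042 / 100000 : ℝ) := by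
        rw [← Real.rpow_natCast, ← Real.rpow_mul hx0.le]
        norm_num
      have h6 : x * x ^ (1 / 2500 : ℝ) / H ≤ x ^ (50042 / 100000 : ℝ) := by
        rw [div_le_iff₀ hH0]
        linarith
      calc M * N' * T ≤ M * N' * (2 * x * ((M * N') / H * x ^ (1 / 2500 : ℝ))) := by gcongr
        _ = 2 * (M * N') ^ 2 * (x * x ^ (1 / 2500 : ℝ) / H) := by ring
        _ ≤ 2 * (M * N') ^ 2 * x ^ (50042 / 100000 : ℝ) := by gcongr
        _ ≤ 4 * (M * N') ^ 2 * x ^ (50042 / 100000 : ℝ) := by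
            gcongr
            norm_num
        _ = (2 * (M * N') * x ^ (25021 / 100000 : ℝ)) ^ 2 := by rw [← h5]; ring
    calc N' * √(M * N' * T) ≤ N' * (2 * (M * N') * x ^ (25021 / 100000 : ℝ)) := by
          gcongr
          exact Real.sqrt_le_iff.2 ⟨by positivity, h3⟩
      _ = 2 * (M * N' ^ 2) * x ^ (25021 / 100000 : ℝ) := by ring
      _ ≤ 2 * x ^ (747 / 1000 : ℝ) * x ^ (25021 / 100000 : ℝ) := by gcongr
      _ = 2 * x ^ (747 / 1000 + 25021 / 100000 : ℝ) := by rw [mul_assoc, ← Real.rpow_add hx0]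
      _ = 2 * x ^ (99721 / 100000 : ℝ) := by norm_num
  have e3 : (M * N') ^ 2 * √(M * N' / T) ≤ x ^ (99721 / 100000 : ℝ) := by
    have h3 : √(M * N' / T) ≤ x ^ (-(205 / 1000) : ℝ) := by
      refine Real.sqrt_le_iff.2 ⟨by positivity, ?_⟩
      have h4 : (x ^ (-(205 / 1000) : ℝ)) ^ 2 = x ^ (59 / 100 - 1 : ℝ) := by
        rw [← Real.rpow_natCast, ← Real.rpow_mul hx0.le]
        norm_num
      rw [h4, Real.rpow_sub hx0, Real.rpow_one]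
      gcongr
    calc (M * N') ^ 2 * √(M * N' / T) ≤ (x ^ (59 / 100 : ℝ)) ^ 2 * x ^ (-(205 / 1000) : ℝ) := by
          gcongr
      _ = x ^ (59 / 100 * (2 : ℕ) + -(205 / 1000) : ℝ) := by
          rw [Real.rpow_add hx0, Real.rpow_mul hx0.le, Real.rpow_natCast]
      _ ≤ x ^ (99721 / 100000 : ℝ) := Real.rpow_le_rpow_of_exponent_le hx (by norm_num)
  linarith

/-- The truncated normalized coefficients. -/
noncomputable def nrm (M : ℕ) (a : ℕ → ℝ) (m : ℕ) : ℝ :=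
  if m ∈ Ico M (2 * M) then a m * M / m else 0

lemma nrm_le (M : ℕ) (_hM : 1 ≤ M) (a : ℕ → ℝ) (ha : ∀ m, |a m| ≤ 1) (m : ℕ) : |nrm M a m| ≤ 1 := by
  unfold nrm
  split_ifs with h
  · rw [mem_Ico] at h
    have h1 : (0 : ℝ) < m := by
      have : 0 < m := by omega
      exact_mod_cast this
    have h2 : (M : ℝ) ≤ m := by exact_mod_cast h.1
    rw [abs_div, abs_mul, abs_of_pos h1, Nat.abs_cast, div_le_one h1]
    have h3 := ha m
    have h4 : (0 : ℝ) ≤ M := Nat.cast_nonneg M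
    nlinarith [abs_nonneg (a m)]
  · simp

/-- The sum with phase `T / (m n)`. -/
noncomputable def SB (M N' : ℕ) (a b : ℕ → ℝ) (T : ℝ) : ℂ :=
  ∑ m ∈ Ico M (2 * M), ∑ n ∈ Ico N' (2 * N'),
      ((nrm M a m * nrm N' b n : ℝ) : ℂ) * ec (T / ((m : ℝ) * n))

lemma swap (r N H M N' K : ℕ) (hM : 1 ≤ M) (hN' : 1 ≤ N') (a b : ℕ → ℝ) :
    ∑ m ∈ Ico M (2 * M), ∑ n ∈ Ico N' (2 * N'), a m * b n *
      ((1 / ((m * n : ℕ) : ℝ)) * ∑ k ∈ Icc 1 K,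
        2 * (∑ ν ∈ PSK.JH N (r * H), ((spw r N H ν : ℝ) : ℂ) *
          ec (ν * (k / ((m * n : ℕ) : ℝ)))).re) =
    (2 / ((M : ℝ) * N')) * ∑ k ∈ Icc 1 K, ∑ ν ∈ PSK.JH N (r * H), spw r N H ν *
      (SB M N' a b ((ν : ℝ) * k)).re := by
  have hM0 : (0 : ℝ) < M := by exact_mod_cast hM
  have hN0 : (0 : ℝ) < N' := by exact_mod_cast hN'
  have h1 : ∀ m ∈ Ico M (2 * M), ∀ n ∈ Ico N' (2 * N'), a m * b n *
      ((1 / ((m * n : ℕ) : ℝ)) * ∑ k ∈ Icc 1 K,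
        2 * (∑ ν ∈ PSK.JH N (r * H), ((spw r N H ν : ℝ) : ℂ) *
          ec (ν * (k / ((m * n : ℕ) : ℝ)))).re) =
      ∑ k ∈ Icc 1 K, ∑ ν ∈ PSK.JH N (r * H), (2 / ((M : ℝ) * N')) * (spw r N H ν *
        (((nrm M a m * nrm N' b n : ℝ) : ℂ) * ec (((ν : ℝ) * k) / ((m : ℝ) * n))).re) := by
    intro m hm n hn
    have hm' := mem_Ico.1 hm
    have hn' := mem_Ico.1 hn
    have hm0 : (0 : ℝ) < m := by
      have : 0 < m := by omega
      exact_mod_cast this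
    have hn0 : (0 : ℝ) < n := by
      have : 0 < n := by omega
      exact_mod_cast this
    rw [mul_sum, mul_sum]
    refine sum_congr rfl (fun k _ => ?_)
    rw [Complex.re_sum, mul_sum, mul_sum, mul_sum]
    refine sum_congr rfl (fun ν _ => ?_)
    rw [Complex.re_ofReal_mul, Complex.re_ofReal_mul]
    have h2 : (ν : ℝ) * (k / ((m * n : ℕ) : ℝ)) = ((ν : ℝ) * k) / ((m : ℝ) * n) := by
      push_cast
      ring
    rw [h2]
    unfold nrm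
    rw [if_pos hm, if_pos hn]
    push_cast
    field_simp
  rw [sum_congr rfl (fun m hm => sum_congr rfl (fun n hn => h1 m hm n hn))]
  unfold SB
  rw [mul_sum]
  have h3 : ∀ k ∈ Icc 1 K, (2 / ((M : ℝ) * N')) * ∑ ν ∈ PSK.JH N (r * H), spw r N H ν *
      (∑ m ∈ Ico M (2 * M), ∑ n ∈ Ico N' (2 * N'),
      ((nrm M a m * nrm N' b n : ℝ) : ℂ) * ec (((ν : ℝ) * k) / ((m : ℝ) * n))).re =
      ∑ m ∈ Ico M (2 * M), ∑ n ∈ Ico N' (2 * N'), ∑ ν ∈ PSK.JH N (r * H),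
        (2 / ((M : ℝ) * N')) * (spw r N H ν *
        (((nrm M a m * nrm N' b n : ℝ) : ℂ) * ec (((ν : ℝ) * k) / ((m : ℝ) * n))).re) := by
    intro k _
    rw [mul_sum]
    have h4 : ∀ ν ∈ PSK.JH N (r * H), (2 / ((M : ℝ) * N')) * (spw r N H ν *
      (∑ m ∈ Ico M (2 * M), ∑ n ∈ Ico N' (2 * N'),
      ((nrm M a m * nrm N' b n : ℝ) : ℂ) * ec (((ν : ℝ) * k) / ((m : ℝ) * n))).re) =
      ∑ m ∈ Ico M (2 * M), ∑ n ∈ Ico N' (2 * N'), (2 / ((M : ℝ) * N')) * (spw r N H ν *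
        (((nrm M a m * nrm N' b n : ℝ) : ℂ) * ec (((ν : ℝ) * k) / ((m : ℝ) * n))).re) := by
      intro ν _
      rw [Complex.re_sum, mul_sum, mul_sum]
      refine sum_congr rfl (fun m _ => ?_)
      rw [Complex.re_sum, mul_sum, mul_sum]
    rw [sum_congr rfl h4, sum_comm]
    refine sum_congr rfl (fun m _ => ?_)
    rw [sum_comm]
  rw [sum_congr rfl h3]
  symm
  rw [sum_comm]
  refine sum_congr rfl (fun m _ => ?_)
  rw [sum_comm]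

lemma main_le (r N H M N' K : ℕ) (hr : 2 ≤ r) (hH : 1 ≤ H) (hM : 1 ≤ M) (hN' : 1 ≤ N')
    (a b : ℕ → ℝ) (B : ℝ)
    (hS : ∀ k ∈ Icc 1 K, ∀ ν ∈ PSK.JH N (r * H), ‖SB M N' a b ((ν : ℝ) * k)‖ ≤ B) :
    |(2 / ((M : ℝ) * N')) * ∑ k ∈ Icc 1 K, ∑ ν ∈ PSK.JH N (r * H), spw r N H ν *
      (SB M N' a b ((ν : ℝ) * k)).re| ≤ (2 / ((M : ℝ) * N')) * (K * (H * B)) := by
  rw [abs_mul, abs_of_nonneg (by positivity : (0 : ℝ) ≤ 2 / ((M : ℝ) * N'))]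
  refine mul_le_mul_of_nonneg_left ?_ (by positivity)
  refine (abs_sum_le_sum_abs _ _).trans ?_
  have h1 : ∀ k ∈ Icc 1 K, |∑ ν ∈ PSK.JH N (r * H), spw r N H ν *
      (SB M N' a b ((ν : ℝ) * k)).re| ≤ H * B := by
    intro k hk
    refine (abs_sum_le_sum_abs _ _).trans ?_
    rw [← spw_sum r N H hr hH, sum_mul]
    refine sum_le_sum (fun ν hν => ?_)
    rw [abs_mul, abs_of_nonneg (spw_nonneg _ _ _ _)]
    exact mul_le_mul_of_nonneg_left ((Complex.abs_re_le_norm _).trans (hS k hk ν hν))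
      (spw_nonneg _ _ _ _)
  refine (sum_le_sum h1).trans ?_
  rw [sum_const, nsmul_eq_mul, Nat.card_Icc]
  simp

lemma err_le {x P H : ℝ} {d K r : ℕ} (hx : 1 ≤ x) (hr : 5000 ≤ r) (hP : 0 < P) (hH : 0 < H)
    (hHx : H ≤ x) (hd : (d : ℝ) ≤ 4 * P) (hK : P / H * x ^ (1 / 2500 : ℝ) < (K : ℝ) + 1) :
    H * ((d : ℝ) / (2 * H * (K + 1))) ^ r ≤ 2 ^ r * x⁻¹ := by
  have hx0 : 0 < x := by linarith
  have hX : 0 < x ^ (1 / 2500 : ℝ) := Real.rpow_pos_of_pos hx0 _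
  have h1 : (d : ℝ) / (2 * H * (K + 1)) ≤ 2 * x ^ (-(1 / 2500) : ℝ) := by
    have h2 : (0 : ℝ) < (K : ℝ) + 1 := by positivity
    rw [div_le_iff₀ (by positivity)]
    have h3 : P / H * x ^ (1 / 2500 : ℝ) * H = P * x ^ (1 / 2500 : ℝ) := by
      field_simp
    have h4 : P * x ^ (1 / 2500 : ℝ) ≤ ((K : ℝ) + 1) * H := by
      rw [← h3]
      gcongr
    have h5 : x ^ (-(1 / 2500) : ℝ) * x ^ (1 / 2500 : ℝ) = 1 := by
      rw [← Real.rpow_add hx0]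
      norm_num
    calc (d : ℝ) ≤ 4 * P := hd
      _ = 4 * (P * x ^ (1 / 2500 : ℝ)) * x ^ (-(1 / 2500) : ℝ) := by
          linear_combination (-4 * P) * h5
      _ ≤ 4 * (((K : ℝ) + 1) * H) * x ^ (-(1 / 2500) : ℝ) := by gcongr
      _ = 2 * x ^ (-(1 / 2500) : ℝ) * (2 * H * (K + 1)) := by ring
  calc H * ((d : ℝ) / (2 * H * (K + 1))) ^ r ≤ x * (2 * x ^ (-(1 / 2500) : ℝ)) ^ r := by gcongr
    _ = 2 ^ r * (x * x ^ (-(1 / 2500) * (r : ℝ) : ℝ)) := by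
        rw [mul_pow, Real.rpow_mul hx0.le, Real.rpow_natCast]
        ring
    _ ≤ 2 ^ r * (x * x ^ (-2 : ℝ)) := by
        have h6 : (5000 : ℝ) ≤ r := by exact_mod_cast hr
        have h7 : x ^ (-(1 / 2500) * (r : ℝ) : ℝ) ≤ x ^ (-2 : ℝ) :=
          Real.rpow_le_rpow_of_exponent_le hx (by linarith)
        gcongr
    _ = 2 ^ r * x⁻¹ := by
        congr 1
        rw [← Real.rpow_neg_one x]
        have : x * x ^ (-2 : ℝ) = x ^ (1 + -2 : ℝ) := by rw [Real.rpow_add hx0, Real.rpow_one]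
        rw [this]
        norm_num

end Bld

open Bld in
theorem bld (r : ℕ) (hr : 5000 ≤ r) : ∀ᶠ N : ℕ in atTop, ∀ H M N' : ℕ,
    (N : ℝ) ^ (1 / 2 - 1 / 50000 : ℝ) ≤ H → r * H ≤ N → 1 ≤ M → 1 ≤ N' →
    (M : ℝ) ^ 2 * N' ≤ (N : ℝ) ^ (997 / 1000 : ℝ) → (M : ℝ) * N' ^ 2 ≤ (N : ℝ) ^ (747 / 1000 : ℝ) →
    ∀ a b : ℕ → ℝ, (∀ m, |a m| ≤ 1) → (∀ n, |b n| ≤ 1) →
    |∑ m ∈ Ico M (2 * M), ∑ n ∈ Ico N' (2 * N'), a m * b n * rr r N H (m * n)| ≤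
      (N : ℝ) ^ (4991 / 10000 : ℝ) := by
  obtain ⟨C, hC, htt⟩ := tt
  filter_upwards [eventually_ge_atTop 1, ev_rpow 3 (1 / 2 - 1 / 50000 - 1 / 2500) (by norm_num),
    ev_rpow (2 ^ r) (41 / 100) (by norm_num),
    ev_rpow (4 * √C + 1) (4991 / 10000 - 499005 / 1000000) (by norm_num)]
    with N hN1 hE1 hE2 hE3 H M N' hH hrH hM hN' h1 h2 a b ha hb
  have hx : (1 : ℝ) ≤ N := by exact_mod_cast hN1
  have hx0 : (0 : ℝ) < N := by linarith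
  have hM0 : (0 : ℝ) < M := by exact_mod_cast hM
  have hN0 : (0 : ℝ) < N' := by exact_mod_cast hN'
  have hH0 : (0 : ℝ) < H := lt_of_lt_of_le (Real.rpow_pos_of_pos hx0 _) hH
  have hH1 : 1 ≤ H := by
    have : 0 < H := by exact_mod_cast hH0
    omega
  have hHN : (H : ℝ) ≤ N := by
    have : H ≤ N := le_trans (Nat.le_mul_of_pos_left H (by omega)) hrH
    exact_mod_cast this
  have hP0 : (0 : ℝ) < (M : ℝ) * N' := by positivity
  set K : ℕ := ⌊((M : ℝ) * N') / H * (N : ℝ) ^ (1 / 2500 : ℝ)⌋₊ with hK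
  have hX : (0 : ℝ) < (N : ℝ) ^ (1 / 2500 : ℝ) := Real.rpow_pos_of_pos hx0 _
  have hK1 : (K : ℝ) ≤ ((M : ℝ) * N') / H * (N : ℝ) ^ (1 / 2500 : ℝ) := Nat.floor_le (by positivity)
  have hK2 : ((M : ℝ) * N') / H * (N : ℝ) ^ (1 / 2500 : ℝ) < (K : ℝ) + 1 := Nat.lt_floor_add_one _
  have hPle := prod_le hx hM0 hN0 h1 h2
  have hKH : (K : ℝ) * H ≤ ((M : ℝ) * N') * (N : ℝ) ^ (1 / 2500 : ℝ) := by
    calc (K : ℝ) * H ≤ ((M : ℝ) * N') / H * (N : ℝ) ^ (1 / 2500 : ℝ) * H := by gcongr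
      _ = _ := by field_simp
  have hK3 : 2 * (K : ℝ) < (M : ℝ) * N' := by
    have h3 : 3 * (N : ℝ) ^ (1 / 2500 : ℝ) ≤ H := by
      calc 3 * (N : ℝ) ^ (1 / 2500 : ℝ) ≤ (N : ℝ) ^ (1 / 2 - 1 / 50000 - 1 / 2500 : ℝ) *
            (N : ℝ) ^ (1 / 2500 : ℝ) := by gcongr
        _ = (N : ℝ) ^ (1 / 2 - 1 / 50000 : ℝ) := by
            rw [← Real.rpow_add hx0]
            norm_num
        _ ≤ H := hH
    have h4 : (K : ℝ) * (3 * (N : ℝ) ^ (1 / 2500 : ℝ)) ≤ ((M : ℝ) * N') * (N : ℝ) ^ (1 / 2500 : ℝ) :=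
      le_trans (by gcongr) hKH
    have h5 : 3 * (K : ℝ) ≤ (M : ℝ) * N' := by
      have : (3 * (K : ℝ)) * (N : ℝ) ^ (1 / 2500 : ℝ) ≤ ((M : ℝ) * N') * (N : ℝ) ^ (1 / 2500 : ℝ) := by
        linarith
      exact le_of_mul_le_mul_right this hX
    have h6 : (0 : ℝ) ≤ K := Nat.cast_nonneg K
    nlinarith
  -- split into main part and error
  set mn : ℕ → ℝ := fun d => (1 / (d : ℝ)) * ∑ k ∈ Icc 1 K,
        2 * (∑ ν ∈ PSK.JH N (r * H), ((spw r N H ν : ℝ) : ℂ) * ec (ν * (k / (d : ℝ)))).re with hmn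
  have hsplit : ∑ m ∈ Ico M (2 * M), ∑ n ∈ Ico N' (2 * N'), a m * b n * rr r N H (m * n) =
      ∑ m ∈ Ico M (2 * M), ∑ n ∈ Ico N' (2 * N'), a m * b n * mn (m * n) +
      ∑ m ∈ Ico M (2 * M), ∑ n ∈ Ico N' (2 * N'), a m * b n * (rr r N H (m * n) - mn (m * n)) := by
    rw [← sum_add_distrib]
    refine sum_congr rfl (fun m _ => ?_)
    rw [← sum_add_distrib]
    exact sum_congr rfl (fun n _ => by ring)
  have herr : |∑ m ∈ Ico M (2 * M), ∑ n ∈ Ico N' (2 * N'),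
      a m * b n * (rr r N H (m * n) - mn (m * n))| ≤ 1 := by
    have h3 : ∀ m ∈ Ico M (2 * M), ∀ n ∈ Ico N' (2 * N'),
        |a m * b n * (rr r N H (m * n) - mn (m * n))| ≤ 2 ^ r * (N : ℝ)⁻¹ := by
      intro m hm n hn
      have hm' := mem_Ico.1 hm
      have hn' := mem_Ico.1 hn
      have hm1 : (m : ℝ) ≤ 2 * M := by
        have : m ≤ 2 * M := by omega
        exact_mod_cast this
      have hn1 : (n : ℝ) ≤ 2 * N' := by
        have : n ≤ 2 * N' := by omega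
        exact_mod_cast this
      have hm2 : (M : ℝ) ≤ m := by exact_mod_cast hm'.1
      have hn2 : (N' : ℝ) ≤ n := by exact_mod_cast hn'.1
      have hd1 : 1 ≤ m * n := Nat.mul_pos (by omega) (by omega)
      have hd2 : 2 * K < m * n := by
        have : 2 * (K : ℝ) < (m : ℝ) * n := lt_of_lt_of_le hK3 (by gcongr)
        exact_mod_cast this
      have h4 := ft r N H (m * n) K (by omega) hH1 hd1 hd2
      have h5 : ((m * n : ℕ) : ℝ) ≤ 4 * ((M : ℝ) * N') := by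
        push_cast
        calc (m : ℝ) * n ≤ (2 * M) * (2 * N') := by gcongr
          _ = _ := by ring
      have h6 := err_le hx hr hP0 hH0 hHN h5 hK2
      rw [abs_mul, abs_mul]
      have h7 : |a m| * |b n| ≤ 1 := by
        have := ha m
        have := hb n
        nlinarith [abs_nonneg (a m), abs_nonneg (b n)]
      calc |a m| * |b n| * |rr r N H (m * n) - mn (m * n)| ≤ 1 * |rr r N H (m * n) - mn (m * n)| := by
            gcongr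
        _ ≤ 2 ^ r * (N : ℝ)⁻¹ := by rw [one_mul]; exact h4.trans h6
    have h4 : |∑ m ∈ Ico M (2 * M), ∑ n ∈ Ico N' (2 * N'),
      a m * b n * (rr r N H (m * n) - mn (m * n))| ≤
      ∑ _m ∈ Ico M (2 * M), ∑ _n ∈ Ico N' (2 * N'), 2 ^ r * (N : ℝ)⁻¹ := by
      refine (abs_sum_le_sum_abs _ _).trans (sum_le_sum (fun m hm => ?_))
      exact (abs_sum_le_sum_abs _ _).trans (sum_le_sum (fun n hn => h3 m hm n hn))
    refine h4.trans ?_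
    rw [sum_const, sum_const, Nat.card_Ico, Nat.card_Ico, nsmul_eq_mul, nsmul_eq_mul]
    have h5 : ((2 * M - M : ℕ) : ℝ) = M := by
      rw [show 2 * M - M = M by omega]
    have h6 : ((2 * N' - N' : ℕ) : ℝ) = N' := by
      rw [show 2 * N' - N' = N' by omega]
    rw [h5, h6]
    calc (M : ℝ) * (N' * (2 ^ r * (N : ℝ)⁻¹)) = ((M : ℝ) * N') * 2 ^ r * (N : ℝ)⁻¹ := by ring
      _ ≤ (N : ℝ) ^ (59 / 100 : ℝ) * (N : ℝ) ^ (41 / 100 : ℝ) * (N : ℝ)⁻¹ := by gcongr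
      _ = 1 := by
          rw [← Real.rpow_add hx0]
          norm_num
          exact mul_inv_cancel₀ hx0.ne'
  set B : ℝ := 2 * √C * (N : ℝ) ^ (498605 / 1000000 : ℝ) with hB
  have hB0 : 0 ≤ B := by positivity
  have hS : ∀ k ∈ Icc 1 K, ∀ ν ∈ PSK.JH N (r * H), ‖SB M N' a b ((ν : ℝ) * k)‖ ≤ B := by
    intro k hk ν hν
    rw [mem_Icc] at hk
    rw [PSK.mem_JH] at hν
    have hk1 : (1 : ℝ) ≤ k := by exact_mod_cast hk.1
    have hk2 : (k : ℝ) ≤ K := by exact_mod_cast hk.2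
    have hν1 : (N : ℝ) ≤ ν := by exact_mod_cast hν.1.le
    have hν2 : (ν : ℝ) ≤ 2 * N := by
      have : ν ≤ 2 * N := by omega
      exact_mod_cast this
    have hT1 : (N : ℝ) ≤ (ν : ℝ) * k := by nlinarith
    have hT2 : (ν : ℝ) * k ≤ 2 * N * (((M : ℝ) * N') / H * (N : ℝ) ^ (1 / 2500 : ℝ)) := by
      have := hk2.trans hK1
      gcongr
    have h3 := htt M N' hM hN' ((ν : ℝ) * k) (by linarith) (nrm M a) (nrm N' b)
      (nrm_le M hM a ha) (nrm_le N' hN' b hb)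
    have h4 := size hx hM0 hN0 h1 h2 hH hT1 hT2
    have h5 : ‖SB M N' a b ((ν : ℝ) * k)‖ ^ 2 ≤ B ^ 2 := by
      have h6 : B ^ 2 = C * (4 * (N : ℝ) ^ (99721 / 100000 : ℝ)) := by
        rw [hB, mul_pow, mul_pow, Real.sq_sqrt hC.le, ← Real.rpow_natCast ((N : ℝ) ^ _),
          ← Real.rpow_mul hx0.le]
        norm_num
        ring
      rw [h6]
      exact h3.trans (mul_le_mul_of_nonneg_left h4 hC.le)
    exact le_of_sq_le_sq h5 hB0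
  have hmain := main_le r N H M N' K (by omega) hH1 hM hN' a b B hS
  rw [← swap r N H M N' K hM hN' a b] at hmain
  rw [hsplit]
  refine (abs_add_le _ _).trans ?_
  have h3 : (2 / ((M : ℝ) * N')) * (K * (H * B)) ≤ 2 * (N : ℝ) ^ (1 / 2500 : ℝ) * B := by
    calc (2 / ((M : ℝ) * N')) * (K * (H * B)) = (2 / ((M : ℝ) * N')) * (K * H) * B := by ring
      _ ≤ (2 / ((M : ℝ) * N')) * (((M : ℝ) * N') * (N : ℝ) ^ (1 / 2500 : ℝ)) * B := by gcongr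
      _ = 2 * (N : ℝ) ^ (1 / 2500 : ℝ) * B := by field_simp
  have h4 : 2 * (N : ℝ) ^ (1 / 2500 : ℝ) * B = 4 * √C * (N : ℝ) ^ (499005 / 1000000 : ℝ) := by
    rw [hB]
    have h5 : (N : ℝ) ^ (499005 / 1000000 : ℝ) =
        (N : ℝ) ^ (1 / 2500 : ℝ) * (N : ℝ) ^ (498605 / 1000000 : ℝ) := by
      rw [← Real.rpow_add hx0]
      norm_num
    rw [h5]
    ring
  have h5 : (1 : ℝ) ≤ (N : ℝ) ^ (499005 / 1000000 : ℝ) := Real.one_le_rpow hx (by norm_num)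
  have h6 : (4 * √C + 1) * (N : ℝ) ^ (499005 / 1000000 : ℝ) ≤ (N : ℝ) ^ (4991 / 10000 : ℝ) := by
    calc (4 * √C + 1) * (N : ℝ) ^ (499005 / 1000000 : ℝ) ≤
        (N : ℝ) ^ (4991 / 10000 - 499005 / 1000000 : ℝ) * (N : ℝ) ^ (499005 / 1000000 : ℝ) := by gcongr
      _ = (N : ℝ) ^ (4991 / 10000 : ℝ) := by
          rw [← Real.rpow_add hx0]
          norm_num
  calc _ ≤ 2 * (N : ℝ) ^ (1 / 2500 : ℝ) * B + 1 := add_le_add (hmain.trans h3) herr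
    _ = 4 * √C * (N : ℝ) ^ (499005 / 1000000 : ℝ) + 1 := by rw [h4]
    _ ≤ (4 * √C + 1) * (N : ℝ) ^ (499005 / 1000000 : ℝ) := by linarith
    _ ≤ _ := h6

end Pool.Agent.PTH
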