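import Pool.Agent.PTH.Base

/-!
# PTH / BmA: from a pre-bimodule (semi-inner product, weakly linear actions) to a Hilbert bimodule
-/

open Filter Topology MulOpposite UniformSpace Completion
open scoped InnerProductSpace ComplexOrder

universe u

namespace Pool.Agent.PTH

/-- A pre-bimodule: left and right actions on a semi-inner product space, additive in the algebra
variable up to null vectors, with the adjoint relations. -/
structure PreB (A : Type u) [CStarAlgebra A] (V : Type u) [SeminormedAddCommGroup V]
    [InnerProductSpace ℂ V] where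
  l : A → V →ₗ[ℂ] V
  r : A → V →ₗ[ℂ] V
  l_one : ∀ v, l 1 v = v
  r_one : ∀ v, r 1 v = v
  l_mul : ∀ x y v, l (x * y) v = l x (l y v)
  r_mul : ∀ x y v, r (x * y) v = r y (r x v)
  l_add : ∀ x y v w, ⟪w, l (x + y) v⟫_ℂ = ⟪w, l x v⟫_ℂ + ⟪w, l y v⟫_ℂ
  r_add : ∀ x y v w, ⟪w, r (x + y) v⟫_ℂ = ⟪w, r x v⟫_ℂ + ⟪w, r y v⟫_ℂ
  l_smul : ∀ (c : ℂ) x v w, ⟪w, l (c • x) v⟫_ℂ = c * ⟪w, l x v⟫_ℂ
  r_smul : ∀ (c : ℂ) x v w, ⟪w, r (c • x) v⟫_ℂ = c * ⟪w, r x v⟫_ℂ
  l_adj : ∀ x v w, ⟪l x v, w⟫_ℂ = ⟪v, l (star x) w⟫_ℂ
  r_adj : ∀ x v w, ⟪r x v, w⟫_ℂ = ⟪v, r (star x) w⟫_ℂ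
  comm : ∀ x y v, l x (r y v) = r y (l x v)

namespace PreB

section bound

variable {A : Type u} [CStarAlgebra A]

/-- `‖x‖² - x* x = y* y` in a C*-algebra. -/
theorem exists_star_mul_eq (x : A) :
    ∃ y : A, star x * x + star y * y = ((‖x‖ ^ 2 : ℝ) : ℂ) • (1 : A) := by
  let _ : PartialOrder A := CStarAlgebra.spectralOrder A
  let _ : StarOrderedRing A := CStarAlgebra.spectralOrderedRing A
  have h1 : star x * x ≤ algebraMap ℝ A ‖star x * x‖ :=
    IsSelfAdjoint.le_algebraMap_norm_self (IsSelfAdjoint.star_mul_self x)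
  have h2 : 0 ≤ algebraMap ℝ A ‖star x * x‖ - star x * x := sub_nonneg.2 h1
  obtain ⟨y, hy⟩ := CStarAlgebra.nonneg_iff_eq_star_mul_self.1 h2
  refine ⟨y, ?_⟩
  rw [← hy, add_sub_cancel, Algebra.algebraMap_eq_smul_one, CStarRing.norm_star_mul_self, ← pow_two]
  rw [Complex.coe_smul]

end bound

variable {A : Type u} [CStarAlgebra A] {V : Type u} [SeminormedAddCommGroup V]
  [InnerProductSpace ℂ V] (P : PreB A V)

theorem norm_l_le (x : A) (v : V) : ‖P.l x v‖ ≤ ‖x‖ * ‖v‖ := by
  obtain ⟨y, hy⟩ := exists_star_mul_eq x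
  have h1 : ⟪v, P.l (star x * x + star y * y) v⟫_ℂ = ((‖x‖ ^ 2 : ℝ) : ℂ) * ⟪v, v⟫_ℂ := by
    rw [hy, P.l_smul, P.l_one]
  rw [P.l_add, P.l_mul, P.l_mul] at h1
  have e1 : ⟪v, P.l (star x) (P.l x v)⟫_ℂ = ⟪P.l x v, P.l x v⟫_ℂ := (P.l_adj x v _).symm
  have e2 : ⟪v, P.l (star y) (P.l y v)⟫_ℂ = ⟪P.l y v, P.l y v⟫_ℂ := (P.l_adj y v _).symm
  rw [e1, e2] at h1
  have h2 : ‖P.l x v‖ ^ 2 + ‖P.l y v‖ ^ 2 = ‖x‖ ^ 2 * ‖v‖ ^ 2 := by
    have h3 := congrArg Complex.re h1
    rw [Complex.add_re, Complex.re_ofReal_mul] at h3
    rw [← inner_self_eq_norm_sq (𝕜 := ℂ) (P.l x v), ← inner_self_eq_norm_sq (𝕜 := ℂ) (P.l y v),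
      ← inner_self_eq_norm_sq (𝕜 := ℂ) v]
    exact h3
  refine le_of_sq_le_sq ?_ (by positivity)
  rw [mul_pow]
  nlinarith [sq_nonneg ‖P.l y v‖]

theorem norm_r_le (x : A) (v : V) : ‖P.r x v‖ ≤ ‖x‖ * ‖v‖ := by
  obtain ⟨y, hy⟩ := exists_star_mul_eq (star x)
  rw [star_star, norm_star] at hy
  have h1 : ⟪v, P.r (x * star x + star y * y) v⟫_ℂ = ((‖x‖ ^ 2 : ℝ) : ℂ) * ⟪v, v⟫_ℂ := by
    rw [hy, P.r_smul, P.r_one]
  rw [P.r_add, P.r_mul, P.r_mul] at h1
  have e1 : ⟪v, P.r (star x) (P.r x v)⟫_ℂ = ⟪P.r x v, P.r x v⟫_ℂ := (P.r_adj x v _).symm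
  have e2 : ⟪v, P.r y (P.r (star y) v)⟫_ℂ = ⟪P.r (star y) v, P.r (star y) v⟫_ℂ := by
    have := P.r_adj (star y) v (P.r (star y) v)
    rw [star_star] at this
    exact this.symm
  rw [e1, e2] at h1
  have h2 : ‖P.r x v‖ ^ 2 + ‖P.r (star y) v‖ ^ 2 = ‖x‖ ^ 2 * ‖v‖ ^ 2 := by
    have h3 := congrArg Complex.re h1
    rw [Complex.add_re, Complex.re_ofReal_mul] at h3
    rw [← inner_self_eq_norm_sq (𝕜 := ℂ) (P.r x v),
      ← inner_self_eq_norm_sq (𝕜 := ℂ) (P.r (star y) v), ← inner_self_eq_norm_sq (𝕜 := ℂ) v]
    exact h3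
  refine le_of_sq_le_sq ?_ (by positivity)
  rw [mul_pow]
  nlinarith [sq_nonneg ‖P.r (star y) v‖]

/-- The continuous left action on `V`. -/
noncomputable def lc (x : A) : V →L[ℂ] V := (P.l x).mkContinuous ‖x‖ (P.norm_l_le x)

/-- The continuous right action on `V`. -/
noncomputable def rc (x : A) : V →L[ℂ] V := (P.r x).mkContinuous ‖x‖ (P.norm_r_le x)

theorem lc_apply (x : A) (v : V) : P.lc x v = P.l x v := rfl

theorem rc_apply (x : A) (v : V) : P.rc x v = P.r x v := rfl

/-- Two vectors of `V` with the same inner products have the same image in the completion. -/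
theorem coe_eq_of_inner {v w : V} (h : ∀ z : V, ⟪z, v⟫_ℂ = ⟪z, w⟫_ℂ) :
    (v : Completion V) = (w : Completion V) := by
  have h1 : ⟪v - w, v - w⟫_ℂ = 0 := by rw [inner_sub_right, h, sub_self]
  have h2 : ‖v - w‖ = 0 := by
    have : ((‖v - w‖ : ℝ) : ℂ) ^ 2 = 0 := by rw [← h1, inner_self_eq_norm_sq_to_K]; rfl
    exact_mod_cast pow_eq_zero_iff (two_ne_zero) |>.1 this
  rw [← sub_eq_zero, ← Completion.coe_sub, ← norm_eq_zero, Completion.norm_coe, h2]

theorem completion_coe (f : V →L[ℂ] V) (v : V) : f.completion (v : Completion V) = (f v : V) :=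
  ContinuousLinearMap.completion_apply_coe f v

/-- The left representation. -/
noncomputable def LH : A →⋆ₐ[ℂ] (Completion V →L[ℂ] Completion V) where
  toFun x := (P.lc x).completion
  map_one' := by
    ext b
    induction b using induction_on with
    | hp => apply isClosed_eq <;> fun_prop
    | ih b => rw [completion_coe, lc_apply, P.l_one]; rfl
  map_mul' x y := by
    ext c
    induction c using induction_on with
    | hp => apply isClosed_eq <;> fun_prop
    | ih c =>
      rw [mul_apply_eq_comp, completion_coe, completion_coe, completion_coe]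
      simp only [lc_apply, P.l_mul]
  map_zero' := by
    ext c
    induction c using induction_on with
    | hp => apply isClosed_eq <;> fun_prop
    | ih c =>
      rw [completion_coe, lc_apply]
      have : (P.l 0 c : Completion V) = ((0 : V) : Completion V) := by
        refine coe_eq_of_inner fun z => ?_
        have := P.l_smul 0 0 c z
        rw [zero_smul, zero_mul] at this
        rw [this, inner_zero_right]
      rw [this, Completion.coe_zero]; rfl
  map_add' x y := by
    ext c
    induction c using induction_on with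
    | hp => apply isClosed_eq <;> fun_prop
    | ih c =>
      rw [add_apply, completion_coe, completion_coe, completion_coe,
        ← Completion.coe_add]
      refine coe_eq_of_inner fun z => ?_
      rw [inner_add_right]
      exact P.l_add x y c z
  commutes' t := by
    ext c
    induction c using induction_on with
    | hp => apply isClosed_eq <;> fun_prop
    | ih c =>
      rw [completion_coe, Algebra.algebraMap_eq_smul_one, Algebra.algebraMap_eq_smul_one,
        smul_apply, one_apply_eq_self, ← Completion.coe_smul]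
      refine coe_eq_of_inner fun z => ?_
      rw [lc_apply, P.l_smul, P.l_one, inner_smul_right]
  map_star' a := by
    refine (ContinuousLinearMap.eq_adjoint_iff (P.lc (star a)).completion
      (P.lc a).completion).mpr ?_
    intro x y
    induction x, y using induction_on₂ with
    | hp => apply isClosed_eq <;> fun_prop
    | ih x y =>
      rw [completion_coe, completion_coe, Completion.inner_coe, Completion.inner_coe, lc_apply,
        lc_apply, P.l_adj, star_star]

/-- The right representation. -/
noncomputable def RH : Aᵐᵒᵖ →⋆ₐ[ℂ] (Completion V →L[ℂ] Completion V) where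
  toFun x := (P.rc (unop x)).completion
  map_one' := by
    ext b
    induction b using induction_on with
    | hp => apply isClosed_eq <;> fun_prop
    | ih b => rw [completion_coe, rc_apply, unop_one, P.r_one]; rfl
  map_mul' x y := by
    ext c
    induction c using induction_on with
    | hp => apply isClosed_eq <;> fun_prop
    | ih c =>
      rw [mul_apply_eq_comp, completion_coe, completion_coe, completion_coe]
      simp only [rc_apply, unop_mul, P.r_mul]
  map_zero' := by
    ext c
    induction c using induction_on with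
    | hp => apply isClosed_eq <;> fun_prop
    | ih c =>
      rw [completion_coe, rc_apply, unop_zero]
      have : (P.r 0 c : Completion V) = ((0 : V) : Completion V) := by
        refine coe_eq_of_inner fun z => ?_
        have := P.r_smul 0 0 c z
        rw [zero_smul, zero_mul] at this
        rw [this, inner_zero_right]
      rw [this, Completion.coe_zero]; rfl
  map_add' x y := by
    ext c
    induction c using induction_on with
    | hp => apply isClosed_eq <;> fun_prop
    | ih c =>
      rw [add_apply, completion_coe, completion_coe, completion_coe,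
        ← Completion.coe_add]
      refine coe_eq_of_inner fun z => ?_
      rw [inner_add_right]
      exact P.r_add (unop x) (unop y) c z
  commutes' t := by
    ext c
    induction c using induction_on with
    | hp => apply isClosed_eq <;> fun_prop
    | ih c =>
      rw [completion_coe, Algebra.algebraMap_eq_smul_one, Algebra.algebraMap_eq_smul_one,
        smul_apply, one_apply_eq_self, ← Completion.coe_smul]
      refine coe_eq_of_inner fun z => ?_
      rw [rc_apply, unop_smul, unop_one, P.r_smul, P.r_one, inner_smul_right]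
  map_star' a := by
    refine (ContinuousLinearMap.eq_adjoint_iff (P.rc (unop (star a))).completion
      (P.rc (unop a)).completion).mpr ?_
    intro x y
    induction x, y using induction_on₂ with
    | hp => apply isClosed_eq <;> fun_prop
    | ih x y =>
      rw [completion_coe, completion_coe, Completion.inner_coe, Completion.inner_coe, rc_apply,
        rc_apply, unop_star, P.r_adj, star_star]

/-- The Hilbert bimodule of a pre-bimodule. -/
noncomputable def toBim : Bim.{u} A where
  H := Completion V
  L := P.LH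
  R := P.RH
  comm x y := by
    ext c
    induction c using induction_on with
    | hp => apply isClosed_eq <;> fun_prop
    | ih c =>
      rw [mul_apply_eq_comp, mul_apply_eq_comp]
      change (P.lc x).completion ((P.rc (unop y)).completion (c : Completion V)) =
        (P.rc (unop y)).completion ((P.lc x).completion (c : Completion V))
      rw [completion_coe, completion_coe, completion_coe, completion_coe]
      simp only [lc_apply, rc_apply, P.comm]

theorem l_coe (x : A) (v : V) : P.toBim.l x (v : Completion V) = (P.l x v : Completion V) :=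
  completion_coe (P.lc x) v

theorem r_coe (x : A) (v : V) : P.toBim.r x (v : Completion V) = (P.r x v : Completion V) :=
  completion_coe (P.rc x) v

end PreB

end Pool.Agent.PTH
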