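import Pool.Agent.PTH.BmA

/-!
# PTH / BmB: the GNS bimodule of a positive biform

`BPos κ`: positive biforms `κ : A →ₗ A →ₗ ℂ`.  `exists_gns`: there are a Hilbert bimodule `B` and a
cyclic vector `ξ` with `⟨ξ, x ξ y⟩ = κ x y`.
-/

open Filter Topology MulOpposite UniformSpace Completion
open scoped InnerProductSpace ComplexOrder

universe u

namespace Pool.Agent.PTH

section

variable {A : Type u} [CStarAlgebra A]

/-- Positive biforms. -/
def BPos (κ : A →ₗ[ℂ] A →ₗ[ℂ] ℂ) : Prop :=
  ∀ (n : ℕ) (x y : Fin n → A), 0 ≤ ∑ i, ∑ j, κ (star (x i) * x j) (y j * star (y i))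

namespace BPos

variable {κ : A →ₗ[ℂ] A →ₗ[ℂ] ℂ}

theorem sum_nonneg (h : BPos κ) {ι : Type*} (s : Finset ι) (x y : ι → A) :
    0 ≤ ∑ i ∈ s, ∑ j ∈ s, κ (star (x i) * x j) (y j * star (y i)) := by
  have h1 := h s.card (fun k => x (s.equivFin.symm k)) (fun k => y (s.equivFin.symm k))
  have e : ∀ g : ι → ℂ, ∑ i ∈ s, g i = ∑ k : Fin s.card, g (s.equivFin.symm k) := by
    intro g
    rw [← Finset.sum_coe_sort s g]
    exact (Equiv.sum_comp s.equivFin.symm (fun i : s => g i)).symm
  rw [e]
  refine h1.trans_eq (Finset.sum_congr rfl fun k _ => ?_)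
  rw [e]

theorem one (h : BPos κ) (x y : A) : 0 ≤ κ (star x * x) (y * star y) := by
  have := h 1 (fun _ => x) (fun _ => y)
  simpa using this

theorem herm (h : BPos κ) (x₁ x₂ y₁ y₂ : A) :
    κ (star x₂ * x₁) (y₁ * star y₂) = star (κ (star x₁ * x₂) (y₂ * star y₁)) := by
  have key : ∀ x₂ : A, (κ (star x₁ * x₂) (y₂ * star y₁)).im +
      (κ (star x₂ * x₁) (y₁ * star y₂)).im = 0 := by
    intro x₂
    have h2 := h 2 ![x₁, x₂] ![y₁, y₂]
    simp only [Fin.sum_univ_two, Matrix.cons_val_zero, Matrix.cons_val_one] at h2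
    have i1 := (Complex.nonneg_iff.1 (h.one x₁ y₁)).2
    have i2 := (Complex.nonneg_iff.1 (h.one x₂ y₂)).2
    have i3 := (Complex.nonneg_iff.1 h2).2
    simp only [Complex.add_im] at i3
    linarith
  have k1 := key x₂
  have k2 := key (Complex.I • x₂)
  rw [mul_smul_comm, map_smul, star_smul, smul_mul_assoc, map_smul] at k2
  simp only [LinearMap.smul_apply, smul_eq_mul, Complex.mul_im, Complex.I_re, Complex.I_im,
    RCLike.star_def, Complex.conj_I, Complex.neg_re, Complex.neg_im] at k2
  apply Complex.ext
  · rw [RCLike.star_def, Complex.conj_re]; linarith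
  · rw [RCLike.star_def, Complex.conj_im]; linarith

theorem star_star (h : BPos κ) (x y : A) : κ (star x) (star y) = star (κ x y) := by
  have := h.herm 1 x 1 y
  simpa using this

end BPos

/-- The pre-Hilbert space of a positive biform. -/
def BV (κ : A →ₗ[ℂ] A →ₗ[ℂ] ℂ) (_ : BPos κ) : Type u := (A × A) →₀ ℂ

variable (κ : A →ₗ[ℂ] A →ₗ[ℂ] ℂ) (h : BPos κ)

noncomputable instance : AddCommGroup (BV κ h) := inferInstanceAs (AddCommGroup ((A × A) →₀ ℂ))
noncomputable instance : Module ℂ (BV κ h) := inferInstanceAs (Module ℂ ((A × A) →₀ ℂ))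

/-- The semi-inner product on `(A × A) →₀ ℂ`. -/
noncomputable def bin (f g : (A × A) →₀ ℂ) : ℂ :=
  f.sum fun p c => g.sum fun q d => star c * d * κ (star p.1 * q.1) (q.2 * star p.2)

theorem bin_add_left (f g k : (A × A) →₀ ℂ) : bin κ (f + g) k = bin κ f k + bin κ g k := by
  unfold bin
  rw [Finsupp.sum_add_index']
  · intro p; simp
  · intro p b c
    rw [← Finsupp.sum_add]
    refine Finsupp.sum_congr fun q _ => ?_
    rw [star_add]; ring

theorem bin_add_right (f g k : (A × A) →₀ ℂ) : bin κ k (f + g) = bin κ k f + bin κ k g := by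
  unfold bin
  rw [← Finsupp.sum_add]
  refine Finsupp.sum_congr fun p _ => ?_
  rw [Finsupp.sum_add_index']
  · intro q; simp
  · intro q b c; ring

theorem bin_single (p q : A × A) (c d : ℂ) :
    bin κ (Finsupp.single p c) (Finsupp.single q d) =
      star c * d * κ (star p.1 * q.1) (q.2 * star p.2) := by
  unfold bin
  rw [Finsupp.sum_single_index, Finsupp.sum_single_index]
  · simp
  · simp

theorem bin_zero_left (k : (A × A) →₀ ℂ) : bin κ 0 k = 0 := by
  unfold bin; simp

theorem bin_zero_right (k : (A × A) →₀ ℂ) : bin κ k 0 = 0 := by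
  unfold bin; simp

theorem bin_smul_left (t : ℂ) (f g : (A × A) →₀ ℂ) : bin κ (t • f) g = star t * bin κ f g := by
  unfold bin
  rw [Finsupp.sum_smul_index (by intro p; simp), Finsupp.mul_sum]
  refine Finsupp.sum_congr fun p _ => ?_
  rw [Finsupp.mul_sum]
  refine Finsupp.sum_congr fun q _ => ?_
  rw [star_mul']; ring

theorem bin_symm {κ : A →ₗ[ℂ] A →ₗ[ℂ] ℂ} (h : BPos κ) (f g : (A × A) →₀ ℂ) :
    star (bin κ g f) = bin κ f g := by
  induction f using Finsupp.induction_linear with
  | zero => rw [bin_zero_left, bin_zero_right, star_zero]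
  | add f f' hf hf' => rw [bin_add_left, bin_add_right, star_add, hf, hf']
  | single p c =>
    induction g using Finsupp.induction_linear with
    | zero => rw [bin_zero_left, bin_zero_right, star_zero]
    | add f f' hf hf' => rw [bin_add_left, bin_add_right, star_add, hf, hf']
    | single q d =>
      rw [bin_single, bin_single, h.herm p.1 q.1 p.2 q.2]
      simp only [star_mul', star_star]
      ring

theorem bin_pos {κ : A →ₗ[ℂ] A →ₗ[ℂ] ℂ} (h : BPos κ) (f : (A × A) →₀ ℂ) : 0 ≤ bin κ f f := by
  have h1 := h.sum_nonneg f.support (fun p => f p • p.1) (fun p => p.2)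
  unfold bin Finsupp.sum
  refine h1.trans_eq (Finset.sum_congr rfl fun p _ => Finset.sum_congr rfl fun q _ => ?_)
  rw [star_smul, smul_mul_smul_comm, map_smul, LinearMap.smul_apply, smul_eq_mul]

/-- The semi-inner product space of a biform. -/
noncomputable abbrev BVcore : PreInnerProductSpace.Core ℂ (BV κ h) where
  inner f g := bin κ f g
  conj_inner_symm f g := bin_symm h f g
  re_inner_nonneg f := (Complex.nonneg_iff.1 (bin_pos h f)).1
  add_left f g k := bin_add_left κ f g k
  smul_left f g t := bin_smul_left κ t f g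

noncomputable instance : SeminormedAddCommGroup (BV κ h) :=
  InnerProductSpace.Core.toSeminormedAddCommGroup (c := BVcore κ h)

noncomputable instance : InnerProductSpace ℂ (BV κ h) :=
  InnerProductSpace.ofCore (BVcore κ h)

theorem BV_inner (f g : BV κ h) : ⟪f, g⟫_ℂ = bin κ f g := rfl

/-- The vector `c x ξ y`, `p = (x, y)`. -/
noncomputable def sg (p : A × A) (c : ℂ) : BV κ h := Finsupp.single p c

theorem sg_inner (p q : A × A) (c d : ℂ) : ⟪sg κ h p c, sg κ h q d⟫_ℂ =
    star c * d * κ (star p.1 * q.1) (q.2 * star p.2) := bin_single κ p q c d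

/-- Left action. -/
noncomputable def bl (z : A) : BV κ h →ₗ[ℂ] BV κ h :=
  (Finsupp.lmapDomain ℂ ℂ (fun p : A × A => (z * p.1, p.2)) : ((A × A) →₀ ℂ) →ₗ[ℂ] _)

/-- Right action. -/
noncomputable def br (z : A) : BV κ h →ₗ[ℂ] BV κ h :=
  (Finsupp.lmapDomain ℂ ℂ (fun p : A × A => (p.1, p.2 * z)) : ((A × A) →₀ ℂ) →ₗ[ℂ] _)

theorem bl_sg (z : A) (p : A × A) (c : ℂ) : bl κ h z (sg κ h p c) = sg κ h (z * p.1, p.2) c :=
  Finsupp.mapDomain_single

theorem br_sg (z : A) (p : A × A) (c : ℂ) : br κ h z (sg κ h p c) = sg κ h (p.1, p.2 * z) c :=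
  Finsupp.mapDomain_single

/-- Induction principle. -/
@[elab_as_elim]
theorem BV_induction {κ : A →ₗ[ℂ] A →ₗ[ℂ] ℂ} {h : BPos κ} {P : BV κ h → Prop} (v : BV κ h)
    (h0 : P 0) (ha : ∀ f g, P f → P g → P (f + g))
    (hs : ∀ (p : A × A) (c : ℂ), P (sg κ h p c)) : P v :=
  Finsupp.induction_linear v h0 ha hs

/-- The pre-bimodule of a biform. -/
noncomputable def BVpre : PreB A (BV κ h) where
  l := bl κ h
  r := br κ h
  l_one v := by
    refine BV_induction v (map_zero _) (fun f g hf hg => by rw [map_add, hf, hg])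
      fun p c => ?_
    rw [bl_sg, one_mul]
  r_one v := by
    refine BV_induction v (map_zero _) (fun f g hf hg => by rw [map_add, hf, hg])
      fun p c => ?_
    rw [br_sg, mul_one]
  l_mul x y v := by
    refine BV_induction v (by simp only [map_zero])
      (fun f g hf hg => by rw [map_add, map_add, map_add, hf, hg]) fun p c => ?_
    rw [bl_sg, bl_sg, bl_sg, mul_assoc]
  r_mul x y v := by
    refine BV_induction v (by simp only [map_zero])
      (fun f g hf hg => by rw [map_add, map_add, map_add, hf, hg]) fun p c => ?_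
    rw [br_sg, br_sg, br_sg, mul_assoc]
  l_add x y v w := by
    refine BV_induction v (by simp only [map_zero, inner_zero_right, add_zero])
      (fun f g hf hg => by
        rw [map_add, map_add, map_add, inner_add_right, inner_add_right, inner_add_right, hf, hg]
        ring) fun p c => ?_
    refine BV_induction w (by simp only [inner_zero_left, add_zero])
      (fun f g hf hg => by rw [inner_add_left, inner_add_left, inner_add_left, hf, hg]; ring)
      fun q d => ?_
    rw [bl_sg, bl_sg, bl_sg, sg_inner, sg_inner, sg_inner, add_mul, mul_add, map_add,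
      LinearMap.add_apply]
    ring
  r_add x y v w := by
    refine BV_induction v (by simp only [map_zero, inner_zero_right, add_zero])
      (fun f g hf hg => by
        rw [map_add, map_add, map_add, inner_add_right, inner_add_right, inner_add_right, hf, hg]
        ring) fun p c => ?_
    refine BV_induction w (by simp only [inner_zero_left, add_zero])
      (fun f g hf hg => by rw [inner_add_left, inner_add_left, inner_add_left, hf, hg]; ring)
      fun q d => ?_
    rw [br_sg, br_sg, br_sg, sg_inner, sg_inner, sg_inner, mul_add, add_mul, map_add]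
    ring
  l_smul t x v w := by
    refine BV_induction v (by simp only [map_zero, inner_zero_right, mul_zero])
      (fun f g hf hg => by
        rw [map_add, map_add, inner_add_right, inner_add_right, hf, hg]
        ring) fun p c => ?_
    refine BV_induction w (by simp only [inner_zero_left, mul_zero])
      (fun f g hf hg => by rw [inner_add_left, inner_add_left, hf, hg]; ring)
      fun q d => ?_
    rw [bl_sg, bl_sg, sg_inner, sg_inner, smul_mul_assoc, mul_smul_comm, map_smul,
      LinearMap.smul_apply, smul_eq_mul]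
    ring
  r_smul t x v w := by
    refine BV_induction v (by simp only [map_zero, inner_zero_right, mul_zero])
      (fun f g hf hg => by
        rw [map_add, map_add, inner_add_right, inner_add_right, hf, hg]
        ring) fun p c => ?_
    refine BV_induction w (by simp only [inner_zero_left, mul_zero])
      (fun f g hf hg => by rw [inner_add_left, inner_add_left, hf, hg]; ring)
      fun q d => ?_
    rw [br_sg, br_sg, sg_inner, sg_inner, mul_smul_comm, smul_mul_assoc, map_smul, smul_eq_mul]
    ring
  l_adj x v w := by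
    refine BV_induction v (by simp only [map_zero, inner_zero_left])
      (fun f g hf hg => by rw [map_add, inner_add_left, inner_add_left, hf, hg]) fun p c => ?_
    refine BV_induction w (by simp only [map_zero, inner_zero_right])
      (fun f g hf hg => by rw [map_add, inner_add_right, inner_add_right, hf, hg])
      fun q d => ?_
    rw [bl_sg, bl_sg, sg_inner, sg_inner]
    change star c * d * κ (star (x * p.1) * q.1) (q.2 * star p.2) =
      star c * d * κ (star p.1 * (star x * q.1)) (q.2 * star p.2)
    rw [star_mul, mul_assoc (star p.1)]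
  r_adj x v w := by
    refine BV_induction v (by simp only [map_zero, inner_zero_left])
      (fun f g hf hg => by rw [map_add, inner_add_left, inner_add_left, hf, hg]) fun p c => ?_
    refine BV_induction w (by simp only [map_zero, inner_zero_right])
      (fun f g hf hg => by rw [map_add, inner_add_right, inner_add_right, hf, hg])
      fun q d => ?_
    rw [br_sg, br_sg, sg_inner, sg_inner]
    change star c * d * κ (star p.1 * q.1) (q.2 * star (p.2 * x)) =
      star c * d * κ (star p.1 * q.1) (q.2 * star x * star p.2)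
    rw [star_mul, mul_assoc q.2]
  comm x y v := by
    refine BV_induction v (by simp only [map_zero])
      (fun f g hf hg => by rw [map_add, map_add, map_add, map_add, hf, hg]) fun p c => ?_
    rw [br_sg, bl_sg, bl_sg, br_sg]

include h in
/-- GNS for positive biforms. -/
theorem exists_gns : ∃ (B : Bim.{u} A) (ξ : B.H),
    (∀ x y, ⟪ξ, B.l x (B.r y ξ)⟫_ℂ = κ x y) ∧
    Dense ((Submodule.span ℂ (Set.range fun p : A × A => B.l p.1 (B.r p.2 ξ)) :
      Submodule ℂ B.H) : Set B.H) := by
  have e1 : ∀ x y : A, (BVpre κ h).toBim.l x ((BVpre κ h).toBim.r y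
      ((sg κ h (1, 1) 1 : BV κ h) : Completion (BV κ h))) =
      ((sg κ h (x, y) 1 : BV κ h) : Completion (BV κ h)) := by
    intro x y
    rw [(BVpre κ h).r_coe, (BVpre κ h).l_coe]
    congr 1
    change bl κ h x (br κ h y (sg κ h (1, 1) 1)) = _
    rw [br_sg, bl_sg, mul_one, one_mul]
  refine ⟨(BVpre κ h).toBim, ((sg κ h (1, 1) 1 : BV κ h) : Completion (BV κ h)),
    fun x y => ?_, ?_⟩
  · rw [e1]
    change ⟪((sg κ h (1, 1) 1 : BV κ h) : Completion (BV κ h)),
      ((sg κ h (x, y) 1 : BV κ h) : Completion (BV κ h))⟫_ℂ = _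
    rw [Completion.inner_coe, sg_inner, star_one, star_one, one_mul, one_mul, one_mul, mul_one]
  · have h2 : DenseRange ((↑) : BV κ h → Completion (BV κ h)) := Completion.denseRange_coe
    refine h2.mono ?_
    rintro _ ⟨v, rfl⟩
    refine BV_induction (κ := κ) (h := h) (P := fun v => (v : Completion (BV κ h)) ∈
      ((Submodule.span ℂ (Set.range fun p : A × A => (BVpre κ h).toBim.l p.1
        ((BVpre κ h).toBim.r p.2 ((sg κ h (1, 1) 1 : BV κ h) : Completion (BV κ h)))) :
      Submodule ℂ (Completion (BV κ h))) : Set (Completion (BV κ h)))) v ?_ ?_ ?_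
    · rw [Completion.coe_zero]; exact Submodule.zero_mem _
    · intro f g hf hg
      rw [Completion.coe_add]; exact Submodule.add_mem _ hf hg
    · intro p c
      have e2 : sg κ h p c = c • sg κ h (p.1, p.2) 1 := by
        change (Finsupp.single p c : (A × A) →₀ ℂ) = c • (Finsupp.single (p.1, p.2) (1 : ℂ))
        rw [Finsupp.smul_single, smul_eq_mul, mul_one]
      rw [e2, Completion.coe_smul]
      refine Submodule.smul_mem _ _ (Submodule.subset_span ⟨p, ?_⟩)
      exact e1 p.1 p.2

end

end Pool.Agent.PTH
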