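import Pool.Agent.PTH.AvC

/-!
# PTH / CcI: interfaces for Theorem C (section 7): L², GNS of a map, coarse bimodule, the class SM

`L2S A`: the bimodule `L²(A)` with its vacuum vector; `S.em x` = the vector of `x`.
`Rep B ξ Θ`: `⟨ξ, x ξ y⟩ = τ(Θ(x) y)`.
`CoB A`: the coarse bimodule, `t v w` = `v ⊗ w`, `x.(v ⊗ w).y = xv ⊗ wy`.
`SM q Θ`: completely positive, symmetric, positive on `L²`, `Θ = qΘ(q.q)q`, `Θ(1) ≤ q`.
`enM a Θ`: the energy `τ(Θ(1)) - ∑ p_i τ(Θ(u_i)u_i*)`.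
-/

open Filter Topology
open scoped InnerProductSpace ComplexOrder

universe u

namespace Pool.Agent.PTH

/-- The bimodule `L²(A)` with its vacuum vector. -/
structure L2S (A : Type u) [CStarAlgebra A] [TrAlg A] where
  B : Bim.{u} A
  Om : B.H
  inner_Om : ∀ x : A, ⟪Om, B.l x Om⟫_ℂ = TrAlg.tau x
  lr : ∀ x : A, B.l x Om = B.r x Om
  dense : Dense (Set.range fun x : A => B.l x Om)

namespace L2S

variable {A : Type u} [CStarAlgebra A] [TrAlg A] (S : L2S.{u} A)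

/-- The vector of `x`. -/
noncomputable def em (x : A) : S.B.H := S.B.l x S.Om

end L2S

/-- The coarse bimodule. -/
structure CoB (A : Type u) [CStarAlgebra A] [TrAlg A] [PartialOrder A] where
  B : Bim.{u} A
  t : A →ₗ[ℂ] A →ₗ[ℂ] B.H
  inner_t : ∀ v w v' w' : A,
    ⟪t v w, t v' w'⟫_ℂ = TrAlg.tau (star v * v') * TrAlg.tau (w' * star w)
  l_t : ∀ x v w : A, B.l x (t v w) = t (x * v) w
  r_t : ∀ y v w : A, B.r y (t v w) = t v (w * y)
  reg : B.Reg

section

variable {A : Type u} [CStarAlgebra A] [TrAlg A]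

/-- The vector `ξ` represents the map `Θ`. -/
def Rep (B : Bim.{u} A) (ξ : B.H) (Θ : A →ₗ[ℂ] A) : Prop :=
  ∀ x y : A, ⟪ξ, B.l x (B.r y ξ)⟫_ℂ = TrAlg.tau (Θ x * y)

/-- Energy of a map. -/
noncomputable def enM (a : Avg A) (Θ : A →ₗ[ℂ] A) : ℝ :=
  rt (Θ 1) - ∑ i, a.p i * rt (Θ (a.u i) * star (a.u i))

variable [PartialOrder A]

/-- The class of maps under the projection `q`. -/
structure SM (q : A) (Θ : A →ₗ[ℂ] A) : Prop where
  cp : CP Θ
  symm : Symm Θ
  pos2 : Pos2 Θ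
  supp : ∀ x, Θ x = q * Θ (q * x * q) * q
  le : Θ 1 ≤ q

end

/-- `x ↦ c x c*`. -/
noncomputable def adM {A : Type*} [CStarAlgebra A] (c : A) : A →ₗ[ℂ] A where
  toFun x := c * x * star c
  map_add' x y := by rw [mul_add, add_mul]
  map_smul' r x := by rw [RingHom.id_apply, mul_smul_comm, smul_mul_assoc]

/-- `x ↦ c Θ(c* x c) c*`. -/
noncomputable def cjM {A : Type*} [CStarAlgebra A] (c : A) (Θ : A →ₗ[ℂ] A) : A →ₗ[ℂ] A :=
  adM c ∘ₗ Θ ∘ₗ adM (star c)

theorem cjM_apply {A : Type*} [CStarAlgebra A] (c : A) (Θ : A →ₗ[ℂ] A) (x : A) :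
    cjM c Θ x = c * Θ (star c * x * c) * star c := by
  change c * Θ (star c * x * star (star c)) * star c = _
  rw [star_star]

/-- Finite families of contractions with weights. -/
structure Wd (A : Type*) [CStarAlgebra A] where
  κ : Type
  [fin : Fintype κ]
  q : κ → ℝ
  c : κ → A
  q_nonneg : ∀ w, 0 ≤ q w
  q_sum : ∑ w, q w = 1
  norm_c : ∀ w, ‖c w‖ ≤ 1

attribute [instance] Wd.fin

/-- `Corr(Θ)(x) = ∑ q_w q_w' c_w Θ(c_w* x c_w') c_w'*`. -/
noncomputable def corrM {A : Type*} [CStarAlgebra A] (W : Wd A) (Θ : A →ₗ[ℂ] A) : A →ₗ[ℂ] A where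
  toFun x := ∑ w, ∑ w', ((W.q w * W.q w' : ℝ) : ℂ) •
    (W.c w * Θ (star (W.c w) * x * W.c w') * star (W.c w'))
  map_add' x y := by
    rw [← Finset.sum_add_distrib]
    refine Finset.sum_congr rfl fun w _ => ?_
    rw [← Finset.sum_add_distrib]
    refine Finset.sum_congr rfl fun w' _ => ?_
    rw [mul_add, add_mul, map_add, mul_add, add_mul, smul_add]
  map_smul' r x := by
    rw [RingHom.id_apply, Finset.smul_sum]
    refine Finset.sum_congr rfl fun w _ => ?_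
    rw [Finset.smul_sum]
    refine Finset.sum_congr rfl fun w' _ => ?_
    rw [mul_smul_comm, smul_mul_assoc, map_smul, mul_smul_comm, smul_mul_assoc, smul_comm]

/-- `T_Y x = Y T(x) Y`. -/
noncomputable def TYA {A : Type*} [CStarAlgebra A] (a : Avg A) (Y : A) : A →ₗ[ℂ] A where
  toFun x := Y * a.T x * Y
  map_add' x y := by rw [map_add, mul_add, add_mul]
  map_smul' r x := by rw [RingHom.id_apply, map_smul, mul_smul_comm, smul_mul_assoc]

/-- `T_Y ξ = Y (T ξ) Y`. -/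
noncomputable def TYB {A : Type u} [CStarAlgebra A] (B : Bim.{u} A) (a : Avg A) (Y : A) :
    B.H →L[ℂ] B.H :=
  B.l Y * B.r Y * B.T a

end Pool.Agent.PTH
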