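import Pool.Agent.PTH.Tb0

/-!
# Toolbox: the 1-norm `‖x‖₁ = sup {|τ(x y)| : ‖y‖ ≤ 1}`
-/

open Filter Topology

namespace Pool.Agent.PTH

open TrAlg

variable {N : Type*} [CStarAlgebra N] [TrAlg N]

theorem norm_one_le' : ‖(1 : N)‖ ≤ 1 := by
  rcases subsingleton_or_nontrivial N with h | h
  · rw [Subsingleton.elim (1 : N) 0, norm_zero]
    exact zero_le_one
  · exact (CStarRing.norm_one).le

theorem norm_tau_le_norm (x y : N) : ‖tau (x * y)‖ ≤ two x * ‖y‖ :=
  (norm_tau_mul_le' x y).trans (mul_le_mul_of_nonneg_left (two_le_norm y) (two_nonneg x))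

theorem one_bdd (x : N) :
    BddAbove (Set.range fun y : {y : N // ‖y‖ ≤ 1} => ‖tau (x * (y : N))‖) := by
  refine ⟨two x, ?_⟩
  rintro _ ⟨y, rfl⟩
  exact (norm_tau_le_norm x y).trans (mul_le_of_le_one_right (two_nonneg x) y.2)

theorem norm_tau_le_one {x y : N} (hy : ‖y‖ ≤ 1) : ‖tau (x * y)‖ ≤ one x :=
  le_ciSup (one_bdd x) (⟨y, hy⟩ : {y : N // ‖y‖ ≤ 1})

theorem one_le {x : N} {C : ℝ} (h : ∀ y : N, ‖y‖ ≤ 1 → ‖tau (x * y)‖ ≤ C) : one x ≤ C := by
  have : Nonempty {y : N // ‖y‖ ≤ 1} := ⟨⟨0, by rw [norm_zero]; exact zero_le_one⟩⟩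
  exact ciSup_le fun y => h y y.2

theorem one_nonneg (x : N) : 0 ≤ one x := by
  have h := norm_tau_le_one (x := x) (y := 0) (by rw [norm_zero]; exact zero_le_one)
  exact (norm_nonneg _).trans h

theorem norm_tau_mul_le_one (x y : N) : ‖tau (x * y)‖ ≤ one x * ‖y‖ := by
  rcases eq_or_ne ‖y‖ 0 with h | h
  · rw [norm_eq_zero] at h
    rw [h, mul_zero, map_zero, norm_zero, norm_zero, mul_zero]
  · have hy : 0 < ‖y‖ := lt_of_le_of_ne (norm_nonneg y) h.symm
    have h1 := norm_tau_le_one (x := x) (y := ((‖y‖⁻¹ : ℝ) : ℂ) • y) (by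
      rw [norm_smul, Complex.norm_real, norm_inv, norm_norm, inv_mul_cancel₀ h])
    rw [mul_smul_comm, map_smul, smul_eq_mul, norm_mul, Complex.norm_real, norm_inv, norm_norm,
      inv_mul_le_iff₀ hy] at h1
    linarith

theorem abs_rt_mul_le_one (x y : N) : |rt (x * y)| ≤ one x * ‖y‖ :=
  (Complex.abs_re_le_norm _).trans (norm_tau_mul_le_one x y)

theorem rt_mul_le_one (x y : N) : rt (x * y) ≤ one x * ‖y‖ :=
  (le_abs_self _).trans (abs_rt_mul_le_one x y)

theorem abs_rt_le_one (x : N) : |rt x| ≤ one x := by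
  have h := abs_rt_mul_le_one x 1
  rw [mul_one] at h
  exact h.trans (mul_le_of_le_one_right (one_nonneg x) norm_one_le')

@[simp] theorem one_zero : one (0 : N) = 0 :=
  le_antisymm (one_le fun y _ => by rw [zero_mul, map_zero, norm_zero]) (one_nonneg 0)

theorem one_add_le (x y : N) : one (x + y) ≤ one x + one y := by
  refine one_le fun z hz => ?_
  rw [add_mul, map_add]
  exact (norm_add_le _ _).trans (add_le_add (norm_tau_le_one hz) (norm_tau_le_one hz))

theorem one_neg (x : N) : one (-x) = one x := by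
  have h : ∀ z : N, one (-z) ≤ one z := fun z => one_le fun y hy => by
    rw [neg_mul, map_neg, norm_neg]
    exact norm_tau_le_one hy
  refine le_antisymm (h x) ?_
  have := h (-x)
  rwa [neg_neg] at this

theorem one_sub_comm (x y : N) : one (x - y) = one (y - x) := by rw [← one_neg, neg_sub]

theorem one_sub_le (x y : N) : one (x - y) ≤ one x + one y := by
  rw [sub_eq_add_neg, ← one_neg y]
  exact one_add_le x (-y)

theorem one_sub_le_sub (x y z : N) : one (x - z) ≤ one (x - y) + one (y - z) := by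
  have := one_add_le (x - y) (y - z)
  rwa [sub_add_sub_cancel] at this

theorem one_smul' (c : ℂ) (x : N) : one (c • x) = ‖c‖ * one x := by
  have h : ∀ (c : ℂ) (x : N), one (c • x) ≤ ‖c‖ * one x := fun c x => one_le fun y hy => by
    rw [smul_mul_assoc, map_smul, smul_eq_mul, norm_mul]
    exact mul_le_mul_of_nonneg_left (norm_tau_le_one hy) (norm_nonneg c)
  refine le_antisymm (h c x) ?_
  rcases eq_or_ne c 0 with h0 | h0
  · rw [h0, norm_zero, zero_mul]; exact one_nonneg _
  · have h1 := h c⁻¹ (c • x)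
    rw [smul_smul, inv_mul_cancel₀ h0, one_smul, norm_inv] at h1
    have hc : 0 < ‖c‖ := norm_pos_iff.2 h0
    rw [inv_mul_eq_div, le_div_iff₀ hc] at h1
    linarith

theorem one_smul_real (r : ℝ) (x : N) : one (r • x) = |r| * one x := by
  rw [← Complex.coe_smul, one_smul', Complex.norm_real, Real.norm_eq_abs]

theorem one_sum_le {ι : Type*} (s : Finset ι) (f : ι → N) :
    one (∑ i ∈ s, f i) ≤ ∑ i ∈ s, one (f i) := by
  classical
  induction s using Finset.induction_on with
  | empty => simp
  | insert a s ha ih =>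
    rw [Finset.sum_insert ha, Finset.sum_insert ha]
    exact (one_add_le _ _).trans (by gcongr)

theorem one_star (x : N) : one (star x) = one x := by
  have h : ∀ z : N, one (star z) ≤ one z := fun z => one_le fun y hy => by
    have e : tau (star z * y) = star (tau (z * star y)) := by
      rw [← tau_star, star_mul, star_star, tau_comm]
    rw [e, norm_star]
    exact norm_tau_le_one (by rwa [norm_star])
  refine le_antisymm (h x) ?_
  have := h (star x)
  rwa [star_star] at this

theorem one_mul_le (x y : N) : one (x * y) ≤ ‖x‖ * one y := by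
  refine one_le fun z hz => ?_
  have e : tau (x * y * z) = tau (y * (z * x)) := by rw [mul_assoc, tau_comm, mul_assoc]
  rw [e]
  refine (norm_tau_mul_le_one _ _).trans ?_
  rw [mul_comm ‖x‖]
  refine mul_le_mul_of_nonneg_left ?_ (one_nonneg y)
  exact (norm_mul_le _ _).trans (mul_le_of_le_one_left (norm_nonneg x) hz)

theorem one_mul_le' (x y : N) : one (x * y) ≤ one x * ‖y‖ := by
  rw [← one_star, star_mul]
  refine (one_mul_le _ _).trans ?_
  rw [norm_star, one_star, mul_comm]

theorem one_mul_mul_le (x y z : N) : one (x * y * z) ≤ ‖x‖ * one y * ‖z‖ :=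
  (one_mul_le' _ _).trans (mul_le_mul_of_nonneg_right (one_mul_le _ _) (norm_nonneg _))

/-- `‖x y‖₁ ≤ ‖x‖₂ ‖y‖₂`. -/
theorem one_mul_le_two (x y : N) : one (x * y) ≤ two x * two y := by
  refine one_le fun z hz => ?_
  rw [mul_assoc]
  refine (norm_tau_mul_le' _ _).trans ?_
  refine mul_le_mul_of_nonneg_left ?_ (two_nonneg x)
  exact (two_mul_le' _ _).trans (mul_le_of_le_one_right (two_nonneg y) hz)

theorem one_le_two (x : N) : one x ≤ two x := by
  have h := one_mul_le_two x 1
  rwa [mul_one, two_one, mul_one] at h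

theorem one_le_norm (x : N) : one x ≤ ‖x‖ := (one_le_two x).trans (two_le_norm x)

/-- `‖x‖₂² ≤ ‖x‖₁ ‖x‖`. -/
theorem two_sq_le_one (x : N) : two x ^ 2 ≤ one x * ‖x‖ := by
  rw [two_sq_rt']
  refine (rt_mul_le_one _ _).trans ?_
  rw [norm_star]

theorem two_sq_le_one_of_norm_le {x : N} {C : ℝ} (h : ‖x‖ ≤ C) : two x ^ 2 ≤ C * one x := by
  rw [mul_comm]
  exact (two_sq_le_one x).trans (mul_le_mul_of_nonneg_left h (one_nonneg x))

theorem one_unitary_mul {u : N} (hu : star u * u = 1) (hu' : u * star u = 1) (x : N) :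
    one (u * x) = one x := by
  have hn : ∀ v : N, star v * v = 1 → ‖v‖ ≤ 1 := fun v hv => by
    have h1 : ‖v‖ * ‖v‖ = ‖(1 : N)‖ := by rw [← CStarRing.norm_star_mul_self, hv]
    nlinarith [norm_one_le' (N := N), norm_nonneg v]
  refine le_antisymm ((one_mul_le u x).trans (mul_le_of_le_one_left (one_nonneg x) (hn u hu))) ?_
  have h2 := one_mul_le (star u) (u * x)
  rw [← mul_assoc, hu, one_mul] at h2
  exact h2.trans (mul_le_of_le_one_left (one_nonneg _) (hn (star u) (by rwa [star_star])))

theorem one_mul_unitary {u : N} (hu : star u * u = 1) (hu' : u * star u = 1) (x : N) :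
    one (x * u) = one x := by
  rw [← one_star, star_mul, one_unitary_mul (by rwa [star_star]) (by rwa [star_star]), one_star]

theorem one_conj_unitary {u : N} (hu : star u * u = 1) (hu' : u * star u = 1) (x : N) :
    one (u * x * star u) = one x := by
  rw [one_mul_unitary (by rwa [star_star]) (by rwa [star_star]), one_unitary_mul hu hu']

section order

variable [PartialOrder N] [StarOrderedRing N]

/-- For `x ≥ 0`: `‖x‖₁ = τ(x)`. -/
theorem one_of_nonneg {x : N} (hx : 0 ≤ x) : one x = rt x := by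
  refine le_antisymm ?_ ((le_abs_self _).trans (abs_rt_le_one x))
  obtain ⟨z, rfl⟩ := CStarAlgebra.nonneg_iff_eq_star_mul_self.1 hx
  refine (one_mul_le_two _ _).trans ?_
  rw [two_star, ← sq, two_sq_rt]

theorem abs_rt_mul_le_rt {x y : N} (hx : 0 ≤ x) : |rt (x * y)| ≤ rt x * ‖y‖ := by
  rw [← one_of_nonneg hx]
  exact abs_rt_mul_le_one x y

theorem one_proj {p : N} (hp : Prj p) : one p = rt p := one_of_nonneg (proj_nonneg hp)

/-- For projections `f, g` of the same trace: `‖g - f‖₁ ≤ (2 τ(f))^{1/2} ‖g - f‖₂`. -/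
theorem one_proj_sub_le {f g : N} (hf : Prj f) (hg : Prj g) :
    one (g - f) ≤ Real.sqrt (rt f + rt g) * two (g - f) := by
  have ef := hf.2
  have eg := hg.2
  have sf := hf.1
  have sg := hg.1
  have hF : f * f = f := ef
  have hG : g * g = g := eg
  set a : N := g * (1 - f) with ha
  set b : N := (1 - g) * f with hb
  have h1 : g - f = a - b := by rw [ha, hb]; noncomm_ring
  have h2 : two a ^ 2 + two b ^ 2 = two (g - f) ^ 2 := by
    have ea : rt (star a * a) = rt g - rt (g * f) := by
      have : star a * a = (1 - f) * (g * g) * (1 - f) := by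
        rw [ha, star_mul, star_sub, star_one, sf, sg]; noncomm_ring
      rw [this, hG, rt_comm, ← mul_assoc]
      have e3 : (1 - f) * (1 - f) = 1 - f := by
        have : (1 - f) * (1 - f) = 1 - f - f + f * f := by noncomm_ring
        rw [this, hF]; noncomm_ring
      rw [e3, sub_mul, one_mul, rt_sub, rt_comm f g]
    have eb : rt (star b * b) = rt f - rt (g * f) := by
      have : star b * b = f * ((1 - g) * (1 - g)) * f := by
        rw [hb, star_mul, star_sub, star_one, sf, sg]; noncomm_ring
      have e3 : (1 - g) * (1 - g) = 1 - g := by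
        have : (1 - g) * (1 - g) = 1 - g - g + g * g := by noncomm_ring
        rw [this, hG]; noncomm_ring
      rw [this, e3, rt_comm, ← mul_assoc, hF, mul_sub, mul_one, rt_sub, rt_comm f g]
    rw [two_sq_rt, two_sq_rt, ea, eb, two_sub_sq, two_sq_rt, two_sq_rt, sf, sg, hF, hG]
    ring
  have ga : g * a = a := by rw [ha, ← mul_assoc, hG]
  have bf : b * f = b := by rw [hb, mul_assoc, hF]
  have h3 : one a ≤ two g * two a := by
    have := one_mul_le_two g a
    rwa [ga] at this
  have h4 : one b ≤ two f * two b := by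
    have := one_mul_le_two b f
    rw [bf] at this
    rwa [mul_comm]
  have h5 : one (g - f) ≤ two g * two a + two f * two b := by
    rw [h1]
    exact (one_sub_le a b).trans (add_le_add h3 h4)
  refine h5.trans ?_
  have h6 : 0 ≤ two g * two a + two f * two b := by
    have := two_nonneg g; have := two_nonneg a; have := two_nonneg f; have := two_nonneg b
    positivity
  have h7 : (two g * two a + two f * two b) ^ 2 ≤ (rt f + rt g) * two (g - f) ^ 2 := by
    rw [← h2, ← two_proj hf, ← two_proj hg]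
    nlinarith [sq_nonneg (two g * two b - two f * two a)]
  have h8 : 0 ≤ rt f + rt g := add_nonneg (rt_nonneg (proj_nonneg hf)) (rt_nonneg (proj_nonneg hg))
  rw [← Real.sqrt_sq (two_nonneg (g - f)), ← Real.sqrt_mul h8]
  exact Real.le_sqrt_of_sq_le h7

end order

end Pool.Agent.PTH
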