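import Pool.Agent.PTH.BmB
import Pool.Agent.PTH.CcI
import Pool.Agent.PTH.Tb1

/-!
# PTH / BmC: `L²(A)`, the bimodule of a completely positive map, the coarse bimodule
-/

open Filter Topology MulOpposite UniformSpace Completion
open scoped InnerProductSpace ComplexOrder

universe u

namespace Pool.Agent.PTH

section gen

variable {A : Type u} [CStarAlgebra A]

/-- The left action as a linear map in the algebra variable. -/
theorem Bim.reg_of_span [PartialOrder A] [StarOrderedRing A] [TracialVN A] {B : Bim.{u} A}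
    {ξ : B.H} (h : B.Bdd ξ)
    (hd : Dense ((Submodule.span ℂ (Set.range fun p : A × A => B.l p.1 (B.r p.2 ξ)) :
      Submodule ℂ B.H) : Set B.H)) : B.Reg := by
  refine hd.mono fun v hv => ?_
  refine Submodule.span_induction (p := fun v _ => B.Bdd v) ?_ ?_ ?_ ?_ hv
  · rintro _ ⟨p, rfl⟩
    exact B.Bdd_l (B.Bdd_r h p.2) p.1
  · exact B.Bdd_zero
  · intro x y _ _ hx hy
    exact B.Bdd_add hx hy
  · intro c x _ hx
    exact B.Bdd_smul hx c

end gen

section l2

variable (A : Type u) [CStarAlgebra A] [TrAlg A]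

/-- `κ(x, y) = τ(x y)`. -/
noncomputable def kL2 : A →ₗ[ℂ] A →ₗ[ℂ] ℂ :=
  LinearMap.mk₂ ℂ (fun x y => TrAlg.tau (x * y)) (fun x x' y => by rw [add_mul, map_add])
    (fun c x y => by rw [smul_mul_assoc, map_smul]) (fun x y y' => by rw [mul_add, map_add])
    (fun c x y => by rw [mul_smul_comm, map_smul])

theorem kL2_apply (x y : A) : kL2 A x y = TrAlg.tau (x * y) := rfl

theorem tau_star_mul_self_nonneg (x : A) : 0 ≤ TrAlg.tau (star x * x) := by
  rw [tau_eq]
  exact Complex.zero_le_real.2 (sq_nonneg _)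

theorem kL2_pos : BPos (kL2 A) := by
  intro n x y
  have e : ∑ i, ∑ j, kL2 A (star (x i) * x j) (y j * star (y i)) =
      TrAlg.tau (star (∑ j, x j * y j) * ∑ j, x j * y j) := by
    rw [star_sum, Finset.sum_mul_sum, map_sum]
    refine Finset.sum_congr rfl fun i _ => ?_
    rw [map_sum]
    refine Finset.sum_congr rfl fun j _ => ?_
    rw [kL2_apply, star_mul, ← mul_assoc, TrAlg.tau_comm, ← mul_assoc, ← mul_assoc, ← mul_assoc]
  rw [e]
  exact tau_star_mul_self_nonneg A _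

/-- Existence of `L²(A)`. -/
theorem exists_L2S : Nonempty (L2S.{u} A) := by
  obtain ⟨B, ξ, h1, h2⟩ := exists_gns (kL2 A) (kL2_pos A)
  have hl : ∀ x : A, ⟪ξ, B.l x ξ⟫_ℂ = TrAlg.tau x := by
    intro x
    have := h1 x 1
    rwa [B.r_one, kL2_apply, mul_one] at this
  have hr : ∀ x : A, ⟪ξ, B.r x ξ⟫_ℂ = TrAlg.tau x := by
    intro x
    have := h1 1 x
    rwa [B.l_one, kL2_apply, one_mul] at this
  have hlr : ∀ x : A, B.l x ξ = B.r x ξ := by
    intro x
    rw [← sub_eq_zero, ← inner_self_eq_zero (𝕜 := ℂ), inner_sub_left, inner_sub_right,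
      inner_sub_right, B.inner_l, ← B.l_mul, hl, B.inner_l, h1, kL2_apply, B.inner_r, B.inner_r,
      ← B.r_mul, hr, ← B.l_r, h1, kL2_apply, TrAlg.tau_comm x (star x)]
    ring
  refine ⟨⟨B, ξ, hl, hlr, ?_⟩⟩
  refine h2.mono ?_
  let e : A →ₗ[ℂ] B.H := ⟨⟨fun x => B.l x ξ, fun x y => B.l_add x y ξ⟩, fun c x => B.l_smul c x ξ⟩
  have h3 : (Submodule.span ℂ (Set.range fun p : A × A => B.l p.1 (B.r p.2 ξ)) :
      Submodule ℂ B.H) ≤ LinearMap.range e := by
    refine Submodule.span_le.2 ?_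
    rintro _ ⟨p, rfl⟩
    refine ⟨p.1 * p.2, ?_⟩
    change B.l (p.1 * p.2) ξ = _
    rw [B.l_mul, hlr p.2]
  intro v hv
  obtain ⟨x, hx⟩ := h3 hv
  exact ⟨x, hx⟩

end l2

namespace L2S

section

variable {A : Type u} [CStarAlgebra A] [TrAlg A] (S : L2S.{u} A)

theorem em_add (x y : A) : S.em (x + y) = S.em x + S.em y := S.B.l_add x y S.Om

theorem em_sub (x y : A) : S.em (x - y) = S.em x - S.em y := S.B.l_sub x y S.Om

theorem em_smul (c : ℂ) (x : A) : S.em (c • x) = c • S.em x := S.B.l_smul c x S.Om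

theorem l_em (x y : A) : S.B.l x (S.em y) = S.em (x * y) := (S.B.l_mul x y S.Om).symm

theorem r_em (x y : A) : S.B.r x (S.em y) = S.em (y * x) := by
  unfold em
  rw [S.B.l_mul, S.lr x, S.B.l_r]

theorem inner_em (x y : A) : ⟪S.em x, S.em y⟫_ℂ = TrAlg.tau (star x * y) := by
  unfold em
  rw [S.B.inner_l, ← S.B.l_mul, S.inner_Om]

theorem norm_em (x : A) : ‖S.em x‖ = two x := by
  rw [← sq_eq_sq₀ (norm_nonneg _) (two_nonneg _), two_sq, ← inner_self_eq_norm_sq (𝕜 := ℂ),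
    S.inner_em]
  rfl

theorem dense_em : DenseRange S.em := S.dense

/-- The embedding as a linear map. -/
noncomputable def eml : A →ₗ[ℂ] S.B.H := ⟨⟨S.em, S.em_add⟩, fun c x => S.em_smul c x⟩

theorem LD_em [PartialOrder A] [StarOrderedRing A] (x : A) : S.B.LD (S.em x) (x * star x) := by
  refine ⟨mul_star_self_nonneg x, fun z => ?_⟩
  rw [S.l_em, S.inner_em, TrAlg.tau_comm, mul_assoc]

theorem RD_em [PartialOrder A] [StarOrderedRing A] (x : A) : S.B.RD (S.em x) (star x * x) := by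
  refine ⟨star_mul_self_nonneg x, fun z => ?_⟩
  rw [S.r_em, S.inner_em, ← mul_assoc, TrAlg.tau_comm]

theorem reg [PartialOrder A] [StarOrderedRing A] : S.B.Reg := by
  refine S.dense.mono ?_
  rintro _ ⟨x, rfl⟩
  exact ⟨⟨_, S.LD_em x⟩, ⟨_, S.RD_em x⟩⟩

/-- The conjugation `J`. -/
theorem exists_J : ∃ J : S.B.H → S.B.H, (∀ v w, J (v + w) = J v + J w) ∧
    (∀ (c : ℂ) v, J (c • v) = star c • J v) ∧ (∀ v, ‖J v‖ = ‖v‖) ∧ (∀ v, J (J v) = v) ∧
    (∀ x, J (S.em x) = S.em (star x)) ∧ (∀ x v, J (S.B.l x v) = S.B.r (star x) (J v)) ∧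
    (∀ x v, J (S.B.r x v) = S.B.l (star x) (J v)) ∧
    (∀ v w, ⟪J v, J w⟫_ℂ = ⟪w, v⟫_ℂ) ∧ Continuous J := by
  let f : A →ₛₗ[starRingEnd ℂ] S.B.H :=
    ⟨⟨fun x => S.em (star x), fun x y => by rw [star_add, S.em_add]⟩,
      fun c x => by
        change S.em (star (c • x)) = (starRingEnd ℂ) c • S.em (star x)
        rw [star_smul, S.em_smul]; rfl⟩
  have hf : ∀ x, ‖f x‖ ≤ 1 * ‖S.eml x‖ := by
    intro x
    change ‖S.em (star x)‖ ≤ 1 * ‖S.em x‖
    rw [S.norm_em, S.norm_em, two_star, one_mul]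
  let J : S.B.H →SL[starRingEnd ℂ] S.B.H := f.extendOfNorm S.eml
  have hJ : ∀ x, J (S.em x) = S.em (star x) := fun x =>
    LinearMap.extendOfNorm_eq (f := f) (e := S.eml) S.dense_em ⟨1, hf⟩ x
  have ind : ∀ (g k : S.B.H → S.B.H), Continuous g → Continuous k →
      (∀ x, g (S.em x) = k (S.em x)) → ∀ v, g v = k v := by
    intro g k hg hk he v
    exact congrFun (S.dense_em.equalizer hg hk (funext he)) v
  have hJJ : ∀ v, J (J v) = v := by
    refine ind _ _ (J.continuous.comp J.continuous) continuous_id fun x => ?_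
    rw [hJ, hJ, star_star]
  have hin : ∀ v w, ⟪J v, J w⟫_ℂ = ⟪w, v⟫_ℂ := by
    intro v w
    have h1 : ∀ x : A, ∀ w, ⟪J (S.em x), J w⟫_ℂ = ⟪w, S.em x⟫_ℂ := by
      intro x w
      refine S.dense_em.induction_on (p := fun w => ⟪J (S.em x), J w⟫_ℂ = ⟪w, S.em x⟫_ℂ) w
        (isClosed_eq (continuous_const.inner J.continuous) (continuous_id.inner continuous_const))
        fun y => ?_
      rw [hJ, hJ, S.inner_em, S.inner_em, star_star, TrAlg.tau_comm]
    refine S.dense_em.induction_on (p := fun v => ⟪J v, J w⟫_ℂ = ⟪w, v⟫_ℂ) v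
        (isClosed_eq (J.continuous.inner continuous_const) (continuous_const.inner continuous_id))
        fun x => ?_
    exact h1 x w
  refine ⟨J, map_add J, fun c v => ?_, fun v => ?_, hJJ, hJ, fun x v => ?_, fun x v => ?_, hin,
    J.continuous⟩
  · exact J.map_smulₛₗ c v
  · rw [← sq_eq_sq₀ (norm_nonneg _) (norm_nonneg _), ← inner_self_eq_norm_sq (𝕜 := ℂ),
      ← inner_self_eq_norm_sq (𝕜 := ℂ), hin]
  · refine ind (fun v => J (S.B.l x v)) (fun v => S.B.r (star x) (J v))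
      (J.continuous.comp (S.B.l x).continuous) ((S.B.r (star x)).continuous.comp J.continuous)
      (fun y => ?_) v
    rw [S.l_em, hJ, hJ, S.r_em, star_mul]
  · refine ind (fun v => J (S.B.r x v)) (fun v => S.B.l (star x) (J v))
      (J.continuous.comp (S.B.r x).continuous) ((S.B.l (star x)).continuous.comp J.continuous)
      (fun y => ?_) v
    rw [S.r_em, hJ, hJ, S.l_em, star_mul]

end

end L2S

end Pool.Agent.PTH
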