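import Pool.Agent.PTH.BmC

/-!
# PTH / BmD: the GNS bimodule of a completely positive symmetric map; the coarse bimodule
-/

open Filter Topology MulOpposite UniformSpace Completion
open scoped InnerProductSpace ComplexOrder

universe u

namespace Pool.Agent.PTH

section

variable {A : Type u} [CStarAlgebra A] [PartialOrder A] [StarOrderedRing A]

theorem tau_nonneg [TrAlg A] {x : A} (hx : 0 ≤ x) : 0 ≤ TrAlg.tau x := by
  rw [tau_eq_rt (IsSelfAdjoint.of_nonneg hx)]
  exact Complex.zero_le_real.2 (rt_nonneg hx)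

theorem CP.map_nonneg {Θ : A →ₗ[ℂ] A} (h : CP Θ) {x : A} (hx : 0 ≤ x) : 0 ≤ Θ x := by
  obtain ⟨y, rfl⟩ := CStarAlgebra.nonneg_iff_eq_star_mul_self.1 hx
  have := h 1 (fun _ => y) (fun _ => 1)
  simpa using this

theorem CP.map_star {Θ : A →ₗ[ℂ] A} (h : CP Θ) (x : A) : Θ (star x) = star (Θ x) := by
  have key : ∀ y : A, star (Θ x * y + star y * Θ (star x)) = Θ x * y + star y * Θ (star x) := by
    intro y
    have h2 := (IsSelfAdjoint.of_nonneg (h 2 ![1, x] ![1, y])).star_eq
    have i1 : star (Θ 1) = Θ 1 := (IsSelfAdjoint.of_nonneg (h.map_nonneg zero_le_one)).star_eq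
    have i2 : star (Θ (star x * x)) = Θ (star x * x) :=
      (IsSelfAdjoint.of_nonneg (h.map_nonneg (star_mul_self_nonneg x))).star_eq
    simp only [Fin.sum_univ_two, Matrix.cons_val_zero, Matrix.cons_val_one, star_one, one_mul,
      mul_one, star_add, star_mul, star_star, i1, i2] at h2
    rw [star_add, star_mul, star_mul, star_star]
    have e : (Θ 1 + star y * star (Θ x) + (star (Θ (star x)) * y + star y * (Θ (star x * x) * y))) -
      (Θ 1 + star y * (Θ (star x * x) * y)) =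
      (Θ 1 + Θ x * y + (star y * Θ (star x) + star y * Θ (star x * x) * y)) -
      (Θ 1 + star y * (Θ (star x * x) * y)) := by rw [h2]
    rw [mul_assoc (star y) (Θ (star x * x)) y] at e
    have e1 : star y * star (Θ x) + star (Θ (star x)) * y = Θ x * y + star y * Θ (star x) := by
      have l : (Θ 1 + star y * star (Θ x) + (star (Θ (star x)) * y +
        star y * (Θ (star x * x) * y))) - (Θ 1 + star y * (Θ (star x * x) * y)) =
        star y * star (Θ x) + star (Θ (star x)) * y := by abel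
      have r : (Θ 1 + Θ x * y + (star y * Θ (star x) + star y * (Θ (star x * x) * y))) -
        (Θ 1 + star y * (Θ (star x * x) * y)) = Θ x * y + star y * Θ (star x) := by abel
      rw [← l, ← r, e]
    exact e1
  have k1 := key 1
  have k2 := key (Complex.I • (1 : A))
  simp only [star_one, mul_one, one_mul, star_add] at k1
  simp only [star_smul, mul_smul_comm, smul_mul_assoc, star_one, mul_one, one_mul, star_add,
    RCLike.star_def, Complex.conj_I, map_neg] at k2
  have e3 : star (Θ x) - Θ (star x) = Θ x - star (Θ (star x)) := by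
    rw [sub_eq_sub_iff_add_eq_add, k1]
  have e4 : Complex.I • (Θ x - star (Θ (star x))) = Complex.I • (Θ (star x) - star (Θ x)) := by
    have : Complex.I • Θ x + -Complex.I • Θ (star x) = -Complex.I • star (Θ x) +
        Complex.I • star (Θ (star x)) := by
      rw [← k2]; simp
    rw [smul_sub, smul_sub]
    rw [neg_smul, neg_smul] at this
    rw [sub_eq_sub_iff_add_eq_add]
    have h5 : Complex.I • Θ x + -(Complex.I • Θ (star x)) + Complex.I • Θ (star x) +
        Complex.I • star (Θ x) = -(Complex.I • star (Θ x)) + Complex.I • star (Θ (star x)) +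
        Complex.I • Θ (star x) + Complex.I • star (Θ x) := by rw [this]
    calc Complex.I • Θ x + Complex.I • star (Θ x) = _ := by
          have : Complex.I • Θ x + Complex.I • star (Θ x) = Complex.I • Θ x +
            -(Complex.I • Θ (star x)) + Complex.I • Θ (star x) + Complex.I • star (Θ x) := by abel
          rw [this, h5]
      _ = _ := by abel
  have e5 : Θ x - star (Θ (star x)) = Θ (star x) - star (Θ x) :=
    smul_right_injective A Complex.I_ne_zero e4
  have e6 : (2 : ℂ) • (Θ (star x) - star (Θ x)) = 0 := by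
    rw [two_smul]
    nth_rewrite 2 [← e5]
    rw [← e3]
    abel
  have e7 : Θ (star x) - star (Θ x) = 0 := by
    rcases smul_eq_zero.1 e6 with h | h
    · exact absurd h two_ne_zero
    · exact h
  exact sub_eq_zero.1 e7

section rep

variable [TrAlg A]

/-- `κ(x, y) = τ(Θ(x) y)`. -/
noncomputable def kTh (Θ : A →ₗ[ℂ] A) : A →ₗ[ℂ] A →ₗ[ℂ] ℂ := (kL2 A) ∘ₗ Θ

theorem kTh_apply (Θ : A →ₗ[ℂ] A) (x y : A) : kTh Θ x y = TrAlg.tau (Θ x * y) := rfl

theorem kTh_pos {Θ : A →ₗ[ℂ] A} (h : CP Θ) : BPos (kTh Θ) := by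
  intro n x y
  have e : ∑ i, ∑ j, kTh Θ (star (x i) * x j) (y j * star (y i)) =
      TrAlg.tau (∑ i, ∑ j, star (y i) * Θ (star (x i) * x j) * y j) := by
    rw [map_sum]
    refine Finset.sum_congr rfl fun i _ => ?_
    rw [map_sum]
    refine Finset.sum_congr rfl fun j _ => ?_
    rw [kTh_apply, ← mul_assoc, TrAlg.tau_comm, ← mul_assoc]
  rw [e]
  exact tau_nonneg (h n x y)

theorem Rep.LD {B : Bim.{u} A} {ξ : B.H} {Θ : A →ₗ[ℂ] A} (h : Rep B ξ Θ) (hs : Symm Θ)
    (h1 : 0 ≤ Θ 1) : B.LD ξ (Θ 1) := by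
  refine ⟨h1, fun z => ?_⟩
  have := h z 1
  rw [B.r_one, hs z 1] at this
  exact this

theorem Rep.RD {B : Bim.{u} A} {ξ : B.H} {Θ : A →ₗ[ℂ] A} (h : Rep B ξ Θ)
    (h1 : 0 ≤ Θ 1) : B.RD ξ (Θ 1) := by
  refine ⟨h1, fun z => ?_⟩
  have := h 1 z
  rw [B.l_one, TrAlg.tau_comm] at this
  exact this

end rep

variable [TracialVN A]

/-- The GNS bimodule of a completely positive symmetric map. -/
theorem exists_rep (Θ : A →ₗ[ℂ] A) (hcp : CP Θ) (hs : Symm Θ) :
    ∃ (B : Bim.{u} A) (ξ : B.H), B.Reg ∧ Rep B ξ Θ := by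
  obtain ⟨B, ξ, h1, h2⟩ := exists_gns (kTh Θ) (kTh_pos hcp)
  have hr : Rep B ξ Θ := h1
  have h0 : 0 ≤ Θ 1 := hcp.map_nonneg zero_le_one
  exact ⟨B, ξ, Bim.reg_of_span ⟨⟨_, hr.LD hs h0⟩, ⟨_, hr.RD h0⟩⟩ h2, hr⟩

/-- `κ(x, y) = τ(x) τ(y)`. -/
noncomputable def kCo (A : Type u) [CStarAlgebra A] [TrAlg A] : A →ₗ[ℂ] A →ₗ[ℂ] ℂ :=
  LinearMap.mk₂ ℂ (fun x y => TrAlg.tau x * TrAlg.tau y)
    (fun x x' y => by rw [map_add, add_mul])
    (fun c x y => by rw [map_smul, smul_eq_mul, smul_eq_mul, mul_assoc])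
    (fun x y y' => by rw [map_add, mul_add])
    (fun c x y => by rw [map_smul, smul_eq_mul, smul_eq_mul, mul_left_comm])

omit [PartialOrder A] [StarOrderedRing A] [TracialVN A] in
theorem kCo_apply [TrAlg A] (x y : A) : kCo A x y = TrAlg.tau x * TrAlg.tau y := rfl

theorem gram_pos (A : Type u) [CStarAlgebra A] [TrAlg A] (n : ℕ) (x : Fin n → A) :
    (Matrix.of fun i j => TrAlg.tau (star (x i) * x j) : Matrix (Fin n) (Fin n) ℂ).PosSemidef := by
  rw [Matrix.posSemidef_iff_dotProduct_mulVec]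
  refine ⟨?_, fun c => ?_⟩
  · ext i j
    rw [Matrix.conjTranspose_apply, Matrix.of_apply, Matrix.of_apply, ← TrAlg.tau_star, star_mul,
      star_star]
  · have e : star c ⬝ᵥ (Matrix.of fun i j => TrAlg.tau (star (x i) * x j) :
        Matrix (Fin n) (Fin n) ℂ).mulVec c =
        TrAlg.tau (star (∑ j, c j • x j) * ∑ j, c j • x j) := by
      rw [star_sum, Finset.sum_mul_sum, map_sum, dotProduct]
      refine Finset.sum_congr rfl fun i _ => ?_
      rw [map_sum, Matrix.mulVec, dotProduct, Finset.mul_sum]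
      refine Finset.sum_congr rfl fun j _ => ?_
      rw [Matrix.of_apply, star_smul, smul_mul_smul_comm, map_smul, smul_eq_mul, Pi.star_apply]
      ring
    rw [e]
    exact tau_star_mul_self_nonneg A _

theorem kCo_pos (A : Type u) [CStarAlgebra A] [TrAlg A] : BPos (kCo A) := by
  intro n x y
  have h := ((gram_pos A n x).hadamard (gram_pos A n y)).dotProduct_mulVec_nonneg (fun _ => 1)
  refine h.trans_eq ?_
  rw [dotProduct]
  refine Finset.sum_congr rfl fun i _ => ?_
  rw [Matrix.mulVec, dotProduct, Finset.mul_sum]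
  refine Finset.sum_congr rfl fun j _ => ?_
  rw [Matrix.hadamard_apply, Matrix.of_apply, Matrix.of_apply, Pi.star_apply, star_one, one_mul,
    mul_one]
  change _ = TrAlg.tau (star (x i) * x j) * TrAlg.tau (y j * star (y i))
  rw [TrAlg.tau_comm (y j)]

/-- The coarse bimodule. -/
theorem exists_CoB : Nonempty (CoB.{u} A) := by
  obtain ⟨B, ξ, h1, h2⟩ := exists_gns (kCo A) (kCo_pos A)
  have hL : B.LD ξ 1 := by
    refine ⟨zero_le_one, fun z => ?_⟩
    have := h1 z 1
    rw [B.r_one, kCo_apply, TrAlg.tau_one, mul_one] at this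
    rw [mul_one, this]
  have hR : B.RD ξ 1 := by
    refine ⟨zero_le_one, fun z => ?_⟩
    have := h1 1 z
    rw [B.l_one, kCo_apply, TrAlg.tau_one, one_mul] at this
    rw [mul_one, this]
  let t : A →ₗ[ℂ] A →ₗ[ℂ] B.H :=
    LinearMap.mk₂ ℂ (fun v w => B.l v (B.r w ξ)) (fun v v' w => B.l_add v v' _)
      (fun c v w => B.l_smul c v _) (fun v w w' => by rw [B.r_add, map_add])
      (fun c v w => by rw [B.r_smul, map_smul])
  have ht : ∀ v w, t v w = B.l v (B.r w ξ) := fun v w => rfl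
  refine ⟨⟨B, t, fun v w v' w' => ?_, fun x v w => ?_, fun y v w => ?_, ?_⟩⟩
  · rw [ht, ht, B.inner_l, ← B.l_mul, B.inner_r, ← B.l_r, ← B.r_mul, h1, kCo_apply]
  · rw [ht, ht, B.l_mul]
  · rw [ht, ht, ← B.l_r, ← B.r_mul]
  · exact Bim.reg_of_span ⟨⟨1, hL⟩, ⟨1, hR⟩⟩ h2

end

end Pool.Agent.PTH
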