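import Pool.Agent.PTH.CcMbx

/-!
# PTH / CcMb: operations on the class `SM`

* `cjM c Θ (x) = c Θ(c* x c) c*`.  `cj`: CP: `∑ y_i* c Θ((x_i c)* (x_j c)) c* y_j`, i.e. CP of `Θ` for
  `x_i c`, `c* y_i`; symmetric: `τ(c Θ(c* x c) c* y) = τ(Θ(c* x c) c* y c)`; positive:
  `τ(x* c Θ(c* x c) c*) = τ((c* x c)* Θ(c* x c))`; support: `q' c = c`.
* `compress`: `c = q'`: `q' Θ(q') q' ≤ q' Θ(1) q' ≤ q'`.
* `corrM W Θ (x) = ∑ q_w q_w' c_w Θ(c_w* x c_w') c_w'*`.  CP: with the index set `κ × Fin n`,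
  `x_(w,i) = x_i c_w`, `y_(w,i) = q_w c_w* y_i` (`CP.fintype`).  Symmetric:
  `τ(c_w Θ(c_w* x c_w') c_w'* y) = τ(Θ(c_w* x c_w') c_w'* y c_w) = τ(c_w* x c_w' Θ(c_w'* y c_w))
  = τ(x c_w' Θ(c_w'* y c_w) c_w*)`, exchange `w` and `w'`.  Positive:
  `τ(x* c_w Θ(c_w* x c_w') c_w'*) = τ((c_w* x c_w')* Θ(c_w* x c_w'))` (use the trace property).
  Support `Y` if `Y c_w = c_w`.
* `corrM_one_le`: put `S(w,w') = c_w Θ(c_w* c_w') c_w'*`.  CP with `n = 2`, `x = (c_w, c_w')`,
  `y = (c_w*, -c_w'*)`: `S(w,w) + S(w',w') - S(w,w') - S(w',w) ≥ 0`.  Multiply by `q_w q_w' / 2` and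
  sum (`∑ q_w = 1`): `corrM W Θ 1 ≤ ∑ q_w S(w,w)`.  And `c_w* c_w ≤ 1`, so
  `S(w,w) ≤ c_w Θ(1) c_w* ≤ c_w q c_w*`.
* `corr_SM`: `corrM W Θ 1 ≤ ∑ q_w c_w q c_w* ≤ ∑ q_w Y c_w q c_w* Y ≤ Y`.
* `CP.comp`: composition of completely positive maps.  STEP 1: if `P_ij ∈ A` (`i, j : Fin n`) satisfies
  `0 ≤ ∑ y_i* P_ij y_j` for all `y`, then there are `Z_ij` with `P_ij = ∑_k Z_ki* Z_kj`.  Proof in the
  C*-algebra `CStarMatrix (Fin n) (Fin n) A` (with the spectral order): `P` is selfadjoint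
  (polarisation: `y = y_i, y_j` only, `0 ≤ z` is selfadjoint), `P = P⁺ - P⁻`, `P⁺ P⁻ = 0`.
  `P⁻ P P⁻ = - (P⁻)³`.  The diagonal entries of `P⁻ P P⁻` are `∑ (P⁻)_ik* P_ij (P⁻)_jk ≥ 0`, those of
  `(P⁻)³ = W* W` are `∑_i W_ik* W_ik ≥ 0`; so they vanish, `W = 0`, `(P⁻)³ = 0`, `P⁻ = 0`, `P ≥ 0`,
  `P = Z* Z`.
  STEP 2: `P_ij = Φ(x_i* x_j)` satisfies the hypothesis (CP of `Φ`), so `Φ(x_i* x_j) = ∑_k Z_ki* Z_kj` and
  `∑_ij y_i* Θ(Φ(x_i* x_j)) y_j = ∑_k ∑_ij y_i* Θ(Z_ki* Z_kj) y_j ≥ 0`.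
* `SM.comp`: `τ(ΘΘ(x) y) = τ(Θ(x)Θ(y)) = τ(x ΘΘ(y))`; `τ(x* ΘΘx) = τ(Θ(x)* Θ(x)) ≥ 0`; `ΘΘ(1) ≤ Θ(1) ≤ q`.
-/

open scoped InnerProductSpace ComplexOrder

set_option linter.unusedSectionVars false

namespace Pool.Agent.PTH

open TrAlg

section symm

variable {A : Type*} [CStarAlgebra A] [TrAlg A] {Θ : A →ₗ[ℂ] A}

private theorem tau4 (a b c d : A) : tau (a * b * c * d) = tau (b * (c * d * a)) := by
  rw [show a * b * c * d = a * (b * c * d) by simp only [mul_assoc], tau_comm]
  simp only [mul_assoc]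

theorem Symm.cj (h : Symm Θ) (c : A) : Symm (cjM c Θ) := by
  intro x y
  rw [cjM_apply, cjM_apply, tau4, h]
  have e1 : star c * y * c = star c * y * c := rfl
  rw [show star c * x * c * Θ (star c * y * c) = star c * x * (c * Θ (star c * y * c)) by
    simp only [mul_assoc]]
  rw [show star c * x * (c * Θ (star c * y * c)) = star c * (x * (c * Θ (star c * y * c))) by
    simp only [mul_assoc], tau_comm]
  simp only [mul_assoc]

theorem Symm.corr (h : Symm Θ) (W : Wd A) : Symm (corrM W Θ) := by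
  intro x y
  change tau ((∑ w, ∑ w', ((W.q w * W.q w' : ℝ) : ℂ) •
      (W.c w * Θ (star (W.c w) * x * W.c w') * star (W.c w'))) * y) =
    tau (x * ∑ w, ∑ w', ((W.q w * W.q w' : ℝ) : ℂ) •
      (W.c w * Θ (star (W.c w) * y * W.c w') * star (W.c w')))
  simp only [Finset.sum_mul, Finset.mul_sum, smul_mul_assoc, mul_smul_comm, map_sum, map_smul]
  rw [Finset.sum_comm]
  refine Finset.sum_congr rfl fun w' _ => Finset.sum_congr rfl fun w _ => ?_
  rw [mul_comm (W.q w) (W.q w')]
  congr 1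
  rw [tau4, h]
  rw [show star (W.c w) * x * W.c w' * Θ (star (W.c w') * y * W.c w) =
    star (W.c w) * (x * (W.c w' * Θ (star (W.c w') * y * W.c w))) by simp only [mul_assoc],
    tau_comm]
  simp only [mul_assoc]

theorem rt_cjM (c x : A) :
    rt (star x * cjM c Θ x) = rt (star (star c * x * c) * Θ (star c * x * c)) := by
  unfold rt
  congr 1
  rw [cjM_apply, star_mul, star_mul, star_star]
  rw [show star x * (c * Θ (star c * x * c) * star c) =
    (star x * (c * Θ (star c * x * c))) * star c by simp only [mul_assoc], tau_comm]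
  simp only [mul_assoc]

theorem Pos2.cj (h : Pos2 Θ) (c : A) : Pos2 (cjM c Θ) := by
  intro x
  rw [rt_cjM]
  exact h _

theorem rt_corrM (W : Wd A) (x : A) :
    rt (star x * corrM W Θ x) = ∑ w, ∑ w', W.q w * W.q w' *
      rt (star (star (W.c w) * x * W.c w') * Θ (star (W.c w) * x * W.c w')) := by
  change rt (star x * ∑ w, ∑ w', ((W.q w * W.q w' : ℝ) : ℂ) •
      (W.c w * Θ (star (W.c w) * x * W.c w') * star (W.c w'))) = _
  unfold rt
  simp only [Finset.mul_sum, mul_smul_comm, map_sum, map_smul, Complex.re_sum]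
  refine Finset.sum_congr rfl fun w _ => Finset.sum_congr rfl fun w' _ => ?_
  rw [smul_eq_mul, Complex.re_ofReal_mul]
  congr 2
  rw [star_mul, star_mul, star_star]
  rw [show star x * (W.c w * Θ (star (W.c w) * x * W.c w') * star (W.c w')) =
    (star x * (W.c w * Θ (star (W.c w) * x * W.c w'))) * star (W.c w') by simp only [mul_assoc],
    tau_comm]
  simp only [mul_assoc]

theorem Pos2.corr (h : Pos2 Θ) (W : Wd A) : Pos2 (corrM W Θ) := by
  intro x
  rw [rt_corrM]
  exact Finset.sum_nonneg fun w _ => Finset.sum_nonneg fun w' _ =>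
    mul_nonneg (mul_nonneg (W.q_nonneg _) (W.q_nonneg _)) (h _)

end symm

namespace SM

variable {A : Type*} [CStarAlgebra A] [PartialOrder A] [StarOrderedRing A] [TracialVN A]
  {Θ : A →ₗ[ℂ] A} {q : A}

theorem cj (h : SM q Θ) {q' c : A} (hq' : Prj q') (hc : q' * c = c) (hle : cjM c Θ 1 ≤ q') :
    SM q' (cjM c Θ) where
  cp := h.cp.cj c
  symm := h.symm.cj c
  pos2 := h.pos2.cj c
  supp := fun x => by
    have hc' : star c * q' = star c := by
      have := congrArg star hc
      rwa [star_mul, hq'.1] at this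
    rw [cjM_apply, cjM_apply]
    have e1 : star c * (q' * x * q') * c = star c * x * c := by
      calc star c * (q' * x * q') * c = (star c * q') * x * (q' * c) := by simp only [mul_assoc]
        _ = _ := by rw [hc', hc]
    rw [e1]
    calc c * Θ (star c * x * c) * star c
        = (q' * c) * Θ (star c * x * c) * (star c * q') := by rw [hc, hc']
      _ = _ := by simp only [mul_assoc]
  le := hle

theorem compress (h : SM q Θ) (hq : Prj q) {q' : A} (hq' : Prj q') : SM q' (cjM q' Θ) := by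
  refine h.cj hq' hq'.2 ?_
  rw [cjM_apply, hq'.1, mul_one, hq'.2]
  have h1 : Θ q' ≤ 1 := (h.cp.mono (proj_le_one hq')).trans (h.one_le hq)
  have h2 := star_left_conjugate_le_conjugate h1 q'
  rwa [hq'.1, mul_one, hq'.2] at h2

theorem comp (h : SM q Θ) (hq : Prj q) : SM q (Θ ∘ₗ Θ) where
  cp := h.cp.comp h.cp
  symm := fun x y => by
    rw [LinearMap.comp_apply, LinearMap.comp_apply, h.symm, h.symm]
  pos2 := fun x => by
    have e : tau (star x * Θ (Θ x)) = tau (star (Θ x) * Θ x) := by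
      rw [← h.cp.map_star, ← h.symm]
    rw [LinearMap.comp_apply]
    unfold rt
    rw [e]
    exact tau_pos _
  supp := fun x => by
    rw [LinearMap.comp_apply, LinearMap.comp_apply, h.apply_q hq x, h.q_mul hq, h.mul_q hq]
  le := by
    rw [LinearMap.comp_apply]
    exact (h.cp.mono (h.one_le hq)).trans h.le

theorem corr (h : SM q Θ) (hq : Prj q) (W : Wd A) {Y : A} (hY : Prj Y)
    (hl : ∀ w, Y * W.c w = W.c w) : SM Y (corrM W Θ) where
  cp := h.cp.corr W
  symm := h.symm.corr W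
  pos2 := h.pos2.corr W
  supp := fun x => by
    have hr : ∀ w, star (W.c w) * Y = star (W.c w) := fun w => by
      have := congrArg star (hl w)
      rwa [star_mul, hY.1] at this
    change ∑ w, ∑ w', ((W.q w * W.q w' : ℝ) : ℂ) •
        (W.c w * Θ (star (W.c w) * x * W.c w') * star (W.c w')) =
      Y * (∑ w, ∑ w', ((W.q w * W.q w' : ℝ) : ℂ) •
        (W.c w * Θ (star (W.c w) * (Y * x * Y) * W.c w') * star (W.c w'))) * Y
    simp only [Finset.sum_mul, Finset.mul_sum, smul_mul_assoc, mul_smul_comm]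
    refine Finset.sum_congr rfl fun w _ => Finset.sum_congr rfl fun w' _ => ?_
    congr 1
    have e1 : star (W.c w) * (Y * x * Y) * W.c w' = star (W.c w) * x * W.c w' := by
      calc star (W.c w) * (Y * x * Y) * W.c w' = (star (W.c w) * Y) * x * (Y * W.c w') := by
            simp only [mul_assoc]
        _ = _ := by rw [hr, hl]
    rw [e1]
    calc W.c w * Θ (star (W.c w) * x * W.c w') * star (W.c w')
        = (Y * W.c w) * Θ (star (W.c w) * x * W.c w') * (star (W.c w') * Y) := by rw [hl, hr]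
      _ = _ := by simp only [mul_assoc]
  le := by
    refine (corrM_one_le h.cp W q h.le).trans ?_
    have h1 : ∀ w, ((W.q w : ℝ) : ℂ) • (W.c w * q * star (W.c w)) ≤ W.q w • Y := by
      intro w
      rw [Complex.coe_smul]
      refine smul_le_smul_of_nonneg_left ?_ (W.q_nonneg w)
      have h2 : W.c w * q * star (W.c w) ≤ 1 := by
        have h3 := star_right_conjugate_le_conjugate (proj_le_one hq) (W.c w)
        rw [mul_one] at h3
        refine h3.trans ?_
        have h4 : IsSelfAdjoint (W.c w * star (W.c w)) := IsSelfAdjoint.mul_star_self _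
        have h5 := le_norm_smul_one h4
        have h6 : ‖W.c w * star (W.c w)‖ ≤ 1 := by
          refine (norm_mul_le _ _).trans ?_
          rw [norm_star]
          have := W.norm_c w
          have h0 := norm_nonneg (W.c w)
          nlinarith
        have h7 := smul_le_smul_of_nonneg_right h6 (zero_le_one (α := A))
        rw [one_smul] at h7
        exact h5.trans h7
      have h8 := star_right_conjugate_le_conjugate h2 Y
      have hr : star (W.c w) * Y = star (W.c w) := by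
        have := congrArg star (hl w)
        rwa [star_mul, hY.1] at this
      rw [hY.1, mul_one, hY.2] at h8
      have e : Y * (W.c w * q * star (W.c w)) * Y = W.c w * q * star (W.c w) := by
        calc Y * (W.c w * q * star (W.c w)) * Y = (Y * W.c w) * q * (star (W.c w) * Y) := by
              simp only [mul_assoc]
          _ = _ := by rw [hl, hr]
      rwa [e] at h8
    refine (Finset.sum_le_sum fun w _ => h1 w).trans (le_of_eq ?_)
    rw [← Finset.sum_smul, W.q_sum, one_smul]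

end SM

end Pool.Agent.PTH
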