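import Pool.Agent.PTH.CcW
import Pool.Agent.PTH.CcMb

/-!
# PTH / CcD: domination of a map by a constant plus a finite rank operator

`Dom Θ c F`: `⟨Θx,x⟩ ≤ c ‖x‖₂² + ⟨E_F x, x⟩` for all `x ∈ A`.

* `cj`: `⟨cjM b Θ x, x⟩ = ⟨Θ y, y⟩` with `y = b* x b` (`rt_cjM`), `‖y‖₂ ≤ C² ‖x‖₂` and
  `F.qf y = (F.map (b . b*)).qf x` (`Fam.qf_map_mul`).
* `corr`: `rt_corrM`, `‖c_w* x c_w'‖₂ ≤ ‖x‖₂`, `∑ q_w q_w' = 1`, `corrf_qf`.
* `sq`: `N = ‖Θx‖₂² = ⟨ΘΘx,x⟩`, `X = ‖x‖₂²`, `a = F.qf x`, `b = (F.map Θ).qf x = F.qf (Θ x)`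
  (`τ(v* Θ(x)) = τ(Θ(v)* x)`), `P = cX + a`.  `SM.cs` with `y = Θx`:
  `N² ≤ ⟨ΘΘx,Θx⟩ ⟨Θx,x⟩ ≤ (cN + b) P`.  So `N ≤ cP + (Pb)^{1/2}` (otherwise `N (N - cP) > P b`) and
  `(Pb)^{1/2} ≤ (cXb)^{1/2} + (ab)^{1/2} ≤ c²X + b/(4c) + (a+b)/2`:
  `N ≤ 2c²X + (c + 1/2) a + (1/2 + 1/(4c)) b`.
* `sq_hs`: `Fam.sqrt_hs_add_le`, `Fam.hs_smul`, `Fam.hs_map_le` with `C = 1` (`SM.two_le`).
* `lower`: `x = p`: `(1-δ) τ(p) ≤ τ(Θ 1) = ⟨Θp,p⟩` (`Θ p = Θ 1`) `≤ c τ(p) + (hs F)^{1/2} τ(p)` (`Fam.qf_le`).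
* `exists_Dom` (`Θ` compact).  With `ε = c/2`: finite set `F₀` with `‖Θx - y‖₂ ≤ ε` for some `y ∈ F₀`
  (`‖x‖₂ ≤ 1`).  `W` = span of `F₀`, `w_i` an orthonormal basis of `W` for `τ(x* y)` (Gram-Schmidt in
  the inner product space `A`), `P x = ∑ τ(w_i* x) w_i`.  Then `‖Θx - PΘx‖₂ ≤ ε ‖x‖₂` for all `x` (nearest
  point, scaling; `‖x‖₂ = 0` implies `x = 0`).  `⟨Θx,x⟩ = ⟨Θx - PΘx, x⟩ + ⟨Θx, Px⟩ (real parts)
  ≤ ε‖x‖² + ⟨Θx,x⟩^{1/2}⟨ΘPx,Px⟩^{1/2} ≤ ε‖x‖² + ⟨Θx,x⟩/2 + ‖Px‖²/2` (`cs`, `rt_le`), so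
  `⟨Θx,x⟩ ≤ 2ε‖x‖² + ‖Px‖₂²`, `‖Px‖₂² = ∑ |τ(w_i* x)|²`.
-/

open scoped InnerProductSpace ComplexOrder

universe u

namespace Pool.Agent.PTH

open TrAlg

/-- `⟨Θx,x⟩ ≤ c ‖x‖₂² + ⟨E_F x, x⟩`. -/
def Dom {A : Type*} [CStarAlgebra A] [TrAlg A] (Θ : A →ₗ[ℂ] A) (c : ℝ) (F : Fam A) : Prop :=
  ∀ x, rt (star x * Θ x) ≤ c * two x ^ 2 + F.qf x

namespace Dom

section tr

variable {A : Type u} [CStarAlgebra A] [TrAlg A] {Θ : A →ₗ[ℂ] A} {c : ℝ} {F : Fam A}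

theorem mono (h : Dom Θ c F) {c' : ℝ} (hc : c ≤ c') : Dom Θ c' F := by
  intro x
  have h1 := h x
  have h2 := mul_le_mul_of_nonneg_right hc (sq_nonneg (two x))
  linarith

theorem cj (h : Dom Θ c F) (hc : 0 ≤ c) (b : A) (C : ℝ) (hb : ‖b‖ ≤ C) :
    Dom (cjM b Θ) (c * C ^ 4) (F.map fun x => b * x * star b) := by
  intro x
  rw [rt_cjM, Fam.qf_map_mul]
  have h1 := h (star b * x * b)
  have hC : 0 ≤ C := (norm_nonneg b).trans hb
  have h2 : two (star b * x * b) ≤ C ^ 2 * two x := by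
    refine (two_mul_mul_le _ _ _).trans ?_
    rw [norm_star]
    have h3 : ‖b‖ * ‖b‖ ≤ C ^ 2 := by
      rw [sq]
      exact mul_le_mul hb hb (norm_nonneg _) hC
    calc ‖b‖ * two x * ‖b‖ = (‖b‖ * ‖b‖) * two x := by ring
      _ ≤ C ^ 2 * two x := mul_le_mul_of_nonneg_right h3 (two_nonneg x)
  have h3 : two (star b * x * b) ^ 2 ≤ (C ^ 2 * two x) ^ 2 :=
    pow_le_pow_left₀ (two_nonneg _) h2 2
  have h4 := mul_le_mul_of_nonneg_left h3 hc
  have e : c * (C ^ 2 * two x) ^ 2 = c * C ^ 4 * two x ^ 2 := by ring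
  rw [e] at h4
  linarith

theorem corr (h : Dom Θ c F) (hc : 0 ≤ c) (W : Wd A) : Dom (corrM W Θ) c (corrf W F) := by
  intro x
  rw [rt_corrM, corrf_qf]
  have h1 : ∀ w w', W.q w * W.q w' *
      rt (star (star (W.c w) * x * W.c w') * Θ (star (W.c w) * x * W.c w')) ≤
      W.q w * W.q w' * (c * two x ^ 2) +
        W.q w * W.q w' * F.qf (star (W.c w) * x * W.c w') := by
    intro w w'
    have h2 := h (star (W.c w) * x * W.c w')
    have h3 : two (star (W.c w) * x * W.c w') ≤ two x := by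
      refine (two_mul_mul_le _ _ _).trans ?_
      rw [norm_star]
      calc ‖W.c w‖ * two x * ‖W.c w'‖ ≤ 1 * two x * 1 := by
            refine mul_le_mul (mul_le_mul_of_nonneg_right (W.norm_c w) (two_nonneg x))
              (W.norm_c w') (norm_nonneg _) ?_
            rw [one_mul]
            exact two_nonneg x
        _ = two x := by ring
    have h4 : two (star (W.c w) * x * W.c w') ^ 2 ≤ two x ^ 2 :=
      pow_le_pow_left₀ (two_nonneg _) h3 2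
    have h5 := mul_le_mul_of_nonneg_left h4 hc
    rw [← mul_add]
    refine mul_le_mul_of_nonneg_left ?_ (mul_nonneg (W.q_nonneg w) (W.q_nonneg w'))
    linarith
  have h2 : ∑ w, ∑ w', W.q w * W.q w' * (c * two x ^ 2) = c * two x ^ 2 := by
    have h3 : ∀ w, ∑ w', W.q w * W.q w' * (c * two x ^ 2) = W.q w * (c * two x ^ 2) := by
      intro w
      rw [← Finset.sum_mul, ← Finset.mul_sum, W.q_sum, mul_one]
    rw [Finset.sum_congr rfl fun w _ => h3 w, ← Finset.sum_mul, W.q_sum, one_mul]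
  have h3 : ∑ w, ∑ w', W.q w * W.q w' *
      rt (star (star (W.c w) * x * W.c w') * Θ (star (W.c w) * x * W.c w')) ≤
      ∑ w, ∑ w', (W.q w * W.q w' * (c * two x ^ 2) +
        W.q w * W.q w' * F.qf (star (W.c w) * x * W.c w')) :=
    Finset.sum_le_sum fun w _ => Finset.sum_le_sum fun w' _ => h1 w w'
  simp only [Finset.sum_add_distrib] at h3
  rw [h2] at h3
  exact h3

end tr

variable {A : Type u} [CStarAlgebra A] [PartialOrder A] [StarOrderedRing A] [TracialVN A]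
  {Θ : A →ₗ[ℂ] A} {c : ℝ} {F : Fam A} {q : A}

theorem cj_hs (b : A) (C : ℝ) (hb : ‖b‖ ≤ C) :
    (F.map fun x => b * x * star b).hs ≤ C ^ 8 * F.hs := by
  have hC : 0 ≤ C := (norm_nonneg b).trans hb
  have h := Fam.hs_map_le F (adM b) (C ^ 2) (sq_nonneg C) (by
    intro x
    change two (b * x * star b) ≤ _
    refine (two_mul_mul_le _ _ _).trans ?_
    rw [norm_star]
    have h3 : ‖b‖ * ‖b‖ ≤ C ^ 2 := by
      rw [sq]
      exact mul_le_mul hb hb (norm_nonneg _) hC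
    calc ‖b‖ * two x * ‖b‖ = (‖b‖ * ‖b‖) * two x := by ring
      _ ≤ C ^ 2 * two x := mul_le_mul_of_nonneg_right h3 (two_nonneg x))
  have e : (C ^ 2) ^ 4 = C ^ 8 := by ring
  rw [e] at h
  exact h

/-- The family of the square. -/
noncomputable def sqf (c : ℝ) (Θ : A →ₗ[ℂ] A) (F : Fam A) : Fam A :=
  (F.map fun x => ((Real.sqrt (c + 1 / 2) : ℝ) : ℂ) • x).add
    ((F.map Θ).map fun x => ((Real.sqrt (1 / 2 + 1 / (4 * c)) : ℝ) : ℂ) • x)

private theorem norm_sqrt_sq (t : ℝ) (ht : 0 ≤ t) : ‖((Real.sqrt t : ℝ) : ℂ)‖ ^ 2 = t := by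
  rw [Complex.norm_real, Real.norm_eq_abs, sq_abs, Real.sq_sqrt ht]

private theorem sq_num {c X a b N : ℝ} (hc : 0 < c) (hX : 0 ≤ X) (ha : 0 ≤ a) (hb : 0 ≤ b)
    (hN : 0 ≤ N) (h : N ^ 2 ≤ (c * X + a) * (c * N + b)) :
    N ≤ 2 * c ^ 2 * X + ((c + 1 / 2) * a + (1 / 2 + 1 / (4 * c)) * b) := by
  have he : c * (1 / (4 * c)) = 1 / 4 := by
    field_simp
  set e : ℝ := 1 / (4 * c) with hedef
  have he0 : 0 < e := by positivity
  set S : ℝ := c ^ 2 * X + a / 2 + b / 2 + e * b with hS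
  have hS0 : 0 ≤ S := by positivity
  have h1 : (c * X + a) * b ≤ S ^ 2 := by
    have h2 : c * X * b ≤ (c ^ 2 * X + e * b) ^ 2 := by
      have h3 : 4 * (c ^ 2 * X) * (e * b) = c * X * b := by
        have : c ^ 2 * e = c / 4 := by
          rw [sq, mul_assoc, he]
          ring
        linear_combination (4 * X * b) * this
      nlinarith [sq_nonneg (c ^ 2 * X - e * b)]
    have h4 : a * b ≤ (a / 2 + b / 2) ^ 2 := by nlinarith [sq_nonneg (a - b)]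
    have h5 : 0 ≤ c ^ 2 * X + e * b := by positivity
    have h6 : 0 ≤ a / 2 + b / 2 := by positivity
    have h7 : S = (c ^ 2 * X + e * b) + (a / 2 + b / 2) := by rw [hS]; ring
    rw [h7]
    nlinarith [mul_nonneg h5 h6]
  have h2 : 2 * c ^ 2 * X + ((c + 1 / 2) * a + (1 / 2 + e) * b) = S + c * (c * X + a) := by
    rw [hS]
    ring
  rw [h2]
  by_contra hcon
  push Not at hcon
  have hP : 0 ≤ c * X + a := by positivity
  have h3 : S < N - c * (c * X + a) := by linarith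
  have h4 : S ≤ N := by nlinarith
  have h5 : N * (N - c * (c * X + a)) ≤ (c * X + a) * b := by nlinarith
  have h6 : S ^ 2 < N * (N - c * (c * X + a)) ∨ N = 0 := by
    rcases eq_or_lt_of_le hN with h7 | h7
    · exact Or.inr h7.symm
    · left
      nlinarith [mul_lt_mul_of_pos_left h3 h7, mul_le_mul_of_nonneg_right h4 hS0]
  rcases h6 with h6 | h6
  · linarith
  · have : 0 ≤ c * (c * X + a) := by positivity
    linarith

theorem sq (hΘ : SM q Θ) (hq : Prj q) (h : Dom Θ c F) (hc : 0 < c) :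
    Dom (Θ ∘ₗ Θ) (2 * c ^ 2) (sqf c Θ F) := by
  intro x
  rw [LinearMap.comp_apply]
  have e1 : (sqf c Θ F).qf x = (c + 1 / 2) * F.qf x +
      (1 / 2 + 1 / (4 * c)) * F.qf (Θ x) := by
    unfold sqf
    rw [Fam.qf_add, Fam.qf_smul, Fam.qf_smul, norm_sqrt_sq _ (by positivity),
      norm_sqrt_sq _ (by positivity)]
    congr 2
    unfold Fam.qf Fam.map
    refine Finset.sum_congr rfl fun i _ => ?_
    rw [← hΘ.cp.map_star, hΘ.symm]
  have e2 : tau (star x * Θ (Θ x)) = ((two (Θ x) ^ 2 : ℝ) : ℂ) := by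
    rw [← hΘ.symm, hΘ.cp.map_star, tau_eq]
  have e3 : rt (star x * Θ (Θ x)) = two (Θ x) ^ 2 := by
    rw [rt_def, e2, Complex.ofReal_re]
  have h1 := hΘ.cs x (Θ x)
  have e4 : ‖tau (star x * Θ (Θ x))‖ = two (Θ x) ^ 2 := by
    rw [e2, Complex.norm_real, Real.norm_eq_abs, abs_of_nonneg (sq_nonneg _)]
  rw [e4] at h1
  have h2 := h x
  have h3 := h (Θ x)
  have h4 : 0 ≤ rt (star (Θ x) * Θ (Θ x)) := hΘ.pos2 _
  have h5 : 0 ≤ c * two x ^ 2 + F.qf x := le_trans (hΘ.pos2 x) h2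
  have h6 : (two (Θ x) ^ 2) ^ 2 ≤ (c * two x ^ 2 + F.qf x) * (c * two (Θ x) ^ 2 + F.qf (Θ x)) :=
    h1.trans (mul_le_mul h2 h3 h4 h5)
  rw [e3, e1]
  exact sq_num hc (sq_nonneg _) (F.qf_nonneg x) (F.qf_nonneg _) (sq_nonneg _) h6

theorem sq_hs (hΘ : SM q Θ) (hq : Prj q) (hc : 0 < c) :
    Real.sqrt (sqf c Θ F).hs ≤ (c + 1 + 1 / (4 * c)) * Real.sqrt F.hs := by
  have h0 : 0 ≤ Real.sqrt F.hs := Real.sqrt_nonneg _
  have h1 : Real.sqrt (F.map fun x => ((Real.sqrt (c + 1 / 2) : ℝ) : ℂ) • x).hs =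
      (c + 1 / 2) * Real.sqrt F.hs := by
    rw [Fam.hs_smul]
    have e : ‖((Real.sqrt (c + 1 / 2) : ℝ) : ℂ)‖ ^ 4 = (c + 1 / 2) ^ 2 := by
      have := norm_sqrt_sq (c + 1 / 2) (by positivity)
      rw [show (4 : ℕ) = 2 * 2 by norm_num, pow_mul, this]
    rw [e, Real.sqrt_mul (by positivity), Real.sqrt_sq (by positivity)]
  have h2 : Real.sqrt ((F.map Θ).map fun x =>
      ((Real.sqrt (1 / 2 + 1 / (4 * c)) : ℝ) : ℂ) • x).hs =
      (1 / 2 + 1 / (4 * c)) * Real.sqrt (F.map Θ).hs := by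
    rw [Fam.hs_smul]
    have e : ‖((Real.sqrt (1 / 2 + 1 / (4 * c)) : ℝ) : ℂ)‖ ^ 4 = (1 / 2 + 1 / (4 * c)) ^ 2 := by
      have := norm_sqrt_sq (1 / 2 + 1 / (4 * c)) (by positivity)
      rw [show (4 : ℕ) = 2 * 2 by norm_num, pow_mul, this]
    rw [e, Real.sqrt_mul (by positivity), Real.sqrt_sq (by positivity)]
  have h3 : (F.map Θ).hs ≤ F.hs := by
    have h4 := Fam.hs_map_le F Θ 1 zero_le_one (fun x => by
      rw [one_mul]
      exact hΘ.two_le hq x)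
    rwa [one_pow, one_mul] at h4
  have h5 := Fam.sqrt_hs_add_le (F.map fun x => ((Real.sqrt (c + 1 / 2) : ℝ) : ℂ) • x)
    ((F.map Θ).map fun x => ((Real.sqrt (1 / 2 + 1 / (4 * c)) : ℝ) : ℂ) • x)
  rw [h1, h2] at h5
  have h6 : (1 / 2 + 1 / (4 * c)) * Real.sqrt (F.map Θ).hs ≤
      (1 / 2 + 1 / (4 * c)) * Real.sqrt F.hs :=
    mul_le_mul_of_nonneg_left (Real.sqrt_le_sqrt h3) (by positivity)
  unfold sqf
  linarith

theorem lower (hΘ : SM q Θ) (hq : Prj q) (h0 : q ≠ 0) (h : Dom Θ c F) (δ : ℝ)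
    (hδ : (1 - δ) * rt q ≤ rt (Θ 1)) : 1 - δ - c ≤ Real.sqrt F.hs := by
  have h1 := h q
  have e1 : Θ q = Θ 1 := by
    have := hΘ.apply_q hq 1
    rwa [mul_one, hq.2] at this
  rw [hq.1, e1, hΘ.q_mul hq] at h1
  have h2 := F.qf_le q
  have e2 : two q ^ 2 = rt q := by rw [two_sq_rt, hq.1, hq.2]
  rw [e2] at h1 h2
  have h3 : 0 < rt q := rt_pos_of_ne_zero (proj_nonneg hq) h0
  have h4 : (1 - δ - c) * rt q ≤ Real.sqrt F.hs * rt q := by linarith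
  exact le_of_mul_le_mul_right h4 h3

omit [PartialOrder A] [StarOrderedRing A] in
private theorem norm_tau_comm (x y : A) : ‖tau (star x * y)‖ = ‖tau (star y * x)‖ := by
  have e : star (star x * y) = star y * x := by rw [star_mul, star_star]
  rw [← e, tau_star, norm_star]

theorem _root_.Pool.Agent.PTH.exists_Dom (hΘ : SM q Θ) (hq : Prj q) (hK : Cpt Θ) (hc : 0 < c) :
    ∃ F : Fam A, Dom Θ c F := by
  obtain ⟨F₀, hF₀⟩ := hK (c / 2) (by positivity)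
  set κ : ℝ := Real.sqrt (1 / (2 * c)) with hκ
  set F : Fam A := { ι := Fin F₀.card, v := fun i => ((κ : ℝ) : ℂ) • (F₀.equivFin.symm i : A) }
    with hF
  have hκ2 : κ ^ 2 = 1 / (2 * c) := Real.sq_sqrt (by positivity)
  refine ⟨F, ?_⟩
  have hunit : ∀ x : A, two x ≤ 1 → rt (star x * Θ x) ≤ c + F.qf x := by
    intro x hx
    obtain ⟨y, hy, hxy⟩ := hF₀ x hx
    have e1 : star x * Θ x = star x * y + star x * (Θ x - y) := by noncomm_ring
    have h1 : rt (star x * (Θ x - y)) ≤ c / 2 := by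
      refine (le_abs_self _).trans ((abs_rt_star_mul_le _ _).trans ?_)
      calc two x * two (Θ x - y) ≤ 1 * (c / 2) :=
            mul_le_mul hx hxy (two_nonneg _) zero_le_one
        _ = c / 2 := one_mul _
    have h2 : rt (star x * y) ≤ ‖tau (star y * x)‖ := by
      rw [norm_tau_comm y x]
      exact Complex.re_le_norm _
    have h3 : κ ^ 2 * ‖tau (star y * x)‖ ^ 2 ≤ F.qf x := by
      have h4 : ‖tau (star (F.v (F₀.equivFin ⟨y, hy⟩)) * x)‖ ^ 2 ≤ F.qf x := by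
        unfold Fam.qf
        exact Finset.single_le_sum (f := fun i => ‖tau (star (F.v i) * x)‖ ^ 2)
          (fun i _ => sq_nonneg _) (Finset.mem_univ _)
      have e2 : F.v (F₀.equivFin ⟨y, hy⟩) = ((κ : ℝ) : ℂ) • y := by
        change ((κ : ℝ) : ℂ) • ((F₀.equivFin.symm (F₀.equivFin ⟨y, hy⟩) : F₀) : A) = _
        rw [Equiv.symm_apply_apply]
      rw [e2, star_smul, smul_mul_assoc, map_smul, smul_eq_mul, norm_mul, norm_star, mul_pow,
        Complex.norm_real, Real.norm_eq_abs, sq_abs] at h4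
      exact h4
    have h5 : ‖tau (star y * x)‖ ≤ c / 2 + κ ^ 2 * ‖tau (star y * x)‖ ^ 2 := by
      rw [hκ2]
      have h6 : 0 ≤ (‖tau (star y * x)‖ - c) ^ 2 := sq_nonneg _
      have h7 : ‖tau (star y * x)‖ * (2 * c) ≤
          (c / 2 + 1 / (2 * c) * ‖tau (star y * x)‖ ^ 2) * (2 * c) := by
        have e3 : (c / 2 + 1 / (2 * c) * ‖tau (star y * x)‖ ^ 2) * (2 * c) =
            c ^ 2 + ‖tau (star y * x)‖ ^ 2 := by
          field_simp
        rw [e3]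
        nlinarith
      exact le_of_mul_le_mul_right h7 (by positivity)
    rw [e1, rt_add]
    linarith
  intro x
  rcases (two_nonneg x).eq_or_lt with h0 | h0
  · have hx : x = 0 := two_eq_zero h0.symm
    rw [hx, star_zero, zero_mul, rt_zero, two_zero]
    have := F.qf_nonneg (0 : A)
    simpa using this
  · have hn : two ((((two x)⁻¹ : ℝ) : ℂ) • x) ≤ 1 := by
      rw [two_smul', Complex.norm_real, Real.norm_eq_abs, abs_of_pos (inv_pos.2 h0),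
        inv_mul_cancel₀ h0.ne']
    have h1 := hunit _ hn
    have e1 : rt (star ((((two x)⁻¹ : ℝ) : ℂ) • x) * Θ ((((two x)⁻¹ : ℝ) : ℂ) • x)) =
        ((two x)⁻¹) ^ 2 * rt (star x * Θ x) := by
      rw [map_smul, star_smul, smul_mul_smul_comm, Complex.star_def, Complex.conj_ofReal,
        ← Complex.ofReal_mul, Complex.coe_smul, rt_smul, _root_.sq]
    have e2 : F.qf ((((two x)⁻¹ : ℝ) : ℂ) • x) = ((two x)⁻¹) ^ 2 * F.qf x := by
      unfold Fam.qf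
      rw [Finset.mul_sum]
      refine Finset.sum_congr rfl fun i _ => ?_
      rw [mul_smul_comm, map_smul, smul_eq_mul, norm_mul, mul_pow, Complex.norm_real,
        Real.norm_eq_abs, sq_abs]
    rw [e1, e2] at h1
    have h2 := mul_le_mul_of_nonneg_left h1 (sq_nonneg (two x))
    have e3 : two x ^ 2 * (((two x)⁻¹) ^ 2 * rt (star x * Θ x)) = rt (star x * Θ x) := by
      rw [← mul_assoc, ← mul_pow, mul_inv_cancel₀ h0.ne', one_pow, one_mul]
    have e4 : two x ^ 2 * (c + ((two x)⁻¹) ^ 2 * F.qf x) = c * two x ^ 2 + F.qf x := by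
      rw [mul_add, ← mul_assoc, ← mul_pow, mul_inv_cancel₀ h0.ne', one_pow, one_mul]
      ring
    rw [e3, e4] at h2
    exact h2

end Dom

end Pool.Agent.PTH
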