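import Pool.Agent.PTH.CcMb
import Pool.Agent.PTH.AvE
import Pool.Agent.PTH.AvD

/-!
# PTH / CcE: the vector of a map, energies

`Rep B ξ Θ`: `⟨ξ, x ξ y⟩ = τ(Θ(x) y)` for all `x, y`.  AvB has the API of `B.l`, `B.r`
(`inner_l : ⟨l x ξ, η⟩ = ⟨ξ, l x* η⟩`, `r (x*y) = r y ∘ r x`, ...), AvD the densities.
* `norm_sq`: `x = y = 1`.
* `Rep.LD`, `Rep.RD` (BmD): `Θ 1` is the left and right density of `ξ`.
* `norm_l_le`: `‖xξ‖² = Re τ(x* x Θ 1) ≤ Re τ(x* x)`;  `norm_r_le`: `‖ξx‖² = Re τ(x x* Θ 1) ≤ ‖x‖₂²`.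
* `l_q`: `‖qξ - ξ‖² = ⟨ξ,qξ⟩ - 2 Re⟨ξ,qξ⟩ + ‖ξ‖²`, `⟨ξ,qξ⟩ = τ(Θ q) = τ(Θ 1)`;  `r_q` similarly.
* `en_eq`: `B.en a ξ = Re⟨ξ, ξ - Tξ⟩` (`Bim.en_eq`, `Bim.T_apply`).
* `cj`: `⟨cξc*, x (cξc*) y⟩ = ⟨ξ, (c* x c) ξ (c* y c)⟩ = τ(Θ(c* x c) c* y c) = τ(c Θ(c* x c) c* y)`.
* `corr`: `⟨c_w ξ c_w*, x c_w' ξ c_w'* y⟩ = ⟨ξ, (c_w* x c_w') ξ (c_w'* y c_w)⟩`.
* `sqrt_en_cj_le`: `u(cξc*) - (cξc*)u = [u,c]ξc* + c(uξ - ξu)c* + cξ[u,c*]`; norms: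
  `‖[u,c]ξc*‖ ≤ ‖c‖ ‖[u,c]ξ‖ ≤ C ‖[u,c]‖₂`, `‖c(uξ-ξu)c*‖ ≤ C² ‖uξ-ξu‖`, `‖cξ[u,c*]‖ ≤ C ‖[u,c*]‖₂`;
  Minkowski in `ℓ²(p)`: `(2 e(cξc*))^{1/2} ≤ C (2e(c))^{1/2} + C² (2e(ξ))^{1/2} + C (2e(c*))^{1/2}`,
  `Avg.en_star`.
* `two_tw_le`: for a unitary `u`: `‖Θ(uxu*) - uΘ(x)u*‖₂ ≤ 2 ‖x‖ ‖uξ - ξu‖`.  Proof: for `y ∈ A`, `η = uξu*`
  (`‖ξ - η‖ = ‖uξ - ξu‖`): `τ((Θ(uxu*) - uΘ(x)u*) y) = ⟨ξ, (uxu*)ξ y⟩ - ⟨η, (uxu*) η y⟩
  = ⟨ξ - η, (uxu*) ξ y⟩ + ⟨(uxu*)* η y*, ξ - η⟩`, `‖ξ y‖ ≤ ‖y‖₂`, `‖η y*‖ = ‖ξ u* y*‖ ≤ ‖y‖₂`.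
  Take `y = (Θ(uxu*) - uΘ(x)u*)*` and divide.
* `sqrt_en_apply_le`: `‖uΘ(x)u* - Θ(x)‖₂ ≤ 2‖x‖ ‖uξ-ξu‖ + ‖Θ(uxu* - x)‖₂`, `two_le`, Minkowski
  (`Avg.en_eq_conj`).
* `comp_en_le`: `enM(ΘΘ) = ‖Θ(1)‖₂² - ∑ p_i ‖Θ(u_i)‖₂²` (symmetric, `Θ(u*) = Θ(u)*`),
  `‖Θ(1)‖₂² - ‖Θ(u)‖₂² ≤ ‖Θ(1)u - Θ(u)‖₂ (‖Θ(1)u‖₂ + ‖Θ(u)‖₂)`; `‖Θ(1)u‖₂ = ‖Θ(1)‖₂ ≤ (τ q)^{1/2}`,
  `‖Θ(u)‖₂ = ‖Θ(quq)‖₂ ≤ ‖quq‖₂ ≤ (τ q)^{1/2}`;
  `‖Θ(u) - Θ(1)u‖₂ ≤ ‖uξ - ξu‖`: `τ((Θ(u) - Θ(1)u)y) = ⟨ξ, (uξ - ξu)y⟩ = ⟨ξy*, uξ-ξu⟩`.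
  `∑ p_i ‖u_iξ - ξu_i‖ ≤ (2e(ξ))^{1/2}`.
-/

open scoped InnerProductSpace ComplexOrder

universe u

namespace Pool.Agent.PTH

open TrAlg

namespace Rep

variable {A : Type u} [CStarAlgebra A] [PartialOrder A] [StarOrderedRing A] [TracialVN A]
  {B : Bim.{u} A} {ξ : B.H} {Θ : A →ₗ[ℂ] A} {q : A} (a : Avg A)

/-- Minkowski with weights. -/
private theorem mink {ι : Type*} [Fintype ι] (p f g : ι → ℝ) (hp : ∀ i, 0 ≤ p i) :
    Real.sqrt (∑ i, p i * (f i + g i) ^ 2) ≤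
      Real.sqrt (∑ i, p i * f i ^ 2) + Real.sqrt (∑ i, p i * g i ^ 2) := by
  have hF : 0 ≤ ∑ i, p i * f i ^ 2 :=
    Finset.sum_nonneg fun i _ => mul_nonneg (hp i) (sq_nonneg _)
  have hG : 0 ≤ ∑ i, p i * g i ^ 2 :=
    Finset.sum_nonneg fun i _ => mul_nonneg (hp i) (sq_nonneg _)
  have h1 := Finset.sum_sq_le_sum_mul_sum_of_sq_le_mul (Finset.univ : Finset ι)
    (r := fun i => p i * (f i * g i)) (f := fun i => p i * f i ^ 2)
    (g := fun i => p i * g i ^ 2)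
    (fun i _ => mul_nonneg (hp i) (sq_nonneg _)) (fun i _ => mul_nonneg (hp i) (sq_nonneg _))
    (fun i _ => le_of_eq (by ring))
  have h2 : ∑ i, p i * (f i * g i) ≤
      Real.sqrt (∑ i, p i * f i ^ 2) * Real.sqrt (∑ i, p i * g i ^ 2) := by
    rw [← Real.sqrt_mul hF]
    exact Real.le_sqrt_of_sq_le h1
  refine Real.sqrt_le_iff.mpr ⟨add_nonneg (Real.sqrt_nonneg _) (Real.sqrt_nonneg _), ?_⟩
  have h3 : ∑ i, p i * (f i + g i) ^ 2 =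
      ∑ i, p i * f i ^ 2 + 2 * ∑ i, p i * (f i * g i) + ∑ i, p i * g i ^ 2 := by
    rw [Finset.mul_sum, ← Finset.sum_add_distrib, ← Finset.sum_add_distrib]
    exact Finset.sum_congr rfl fun i _ => by ring
  rw [h3, add_sq, Real.sq_sqrt hF, Real.sq_sqrt hG]
  linarith

private theorem sqrt_scale {ι : Type*} [Fintype ι] (p f : ι → ℝ) {c : ℝ} (hc : 0 ≤ c) :
    Real.sqrt (∑ i, p i * (c * f i) ^ 2) = c * Real.sqrt (∑ i, p i * f i ^ 2) := by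
  have h1 : ∑ i, p i * (c * f i) ^ 2 = c ^ 2 * ∑ i, p i * f i ^ 2 := by
    rw [Finset.mul_sum]
    exact Finset.sum_congr rfl fun i _ => by ring
  rw [h1, Real.sqrt_mul (sq_nonneg c), Real.sqrt_sq hc]

private theorem sum_le_sqrt (f : a.ι → ℝ) :
    ∑ i, a.p i * f i ≤ Real.sqrt (∑ i, a.p i * f i ^ 2) := by
  refine Real.le_sqrt_of_sq_le ?_
  have h2 := Finset.sum_sq_le_sum_mul_sum_of_sq_le_mul (Finset.univ : Finset a.ι)
    (r := fun i => a.p i * f i) (f := a.p) (g := fun i => a.p i * f i ^ 2)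
    (fun i _ => (a.p_pos i).le) (fun i _ => mul_nonneg (a.p_pos i).le (sq_nonneg _))
    (fun i _ => le_of_eq (by ring))
  rw [a.p_sum, one_mul] at h2
  exact h2

private theorem two_en (ξ : B.H) :
    2 * B.en a ξ = ∑ i, a.p i * ‖B.l (a.u i) ξ - B.r (a.u i) ξ‖ ^ 2 := by
  unfold Bim.en
  ring

private theorem le_of_sq_le_mul {x y : ℝ} (hx : 0 ≤ x) (hy : 0 ≤ y) (h : x ^ 2 ≤ y * x) :
    x ≤ y := by
  rcases hx.eq_or_lt with h0 | h0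
  · rw [← h0]
    exact hy
  · rw [sq] at h
    exact le_of_mul_le_mul_right h h0

/-- The two-vector formula. -/
private theorem inner2 (h : Rep B ξ Θ) (c d x y : A) :
    ⟪B.l c (B.r (star c) ξ), B.l x (B.r y (B.l d (B.r (star d) ξ)))⟫_ℂ =
      tau (c * Θ (star c * x * d) * star d * y) := by
  have h1 : ⟪B.l c (B.r (star c) ξ), B.l x (B.r y (B.l d (B.r (star d) ξ)))⟫_ℂ =
      ⟪ξ, B.l (star c * x * d) (B.r (star d * y * c) ξ)⟫_ℂ := by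
    rw [B.inner_l, B.inner_r, star_star]
    congr 1
    simp only [B.l_mul, B.r_mul, ← B.l_r]
  rw [h1, h]
  have e1 : c * Θ (star c * x * d) * star d * y = c * (Θ (star c * x * d) * star d * y) := by
    noncomm_ring
  rw [e1, tau_comm c]
  simp only [mul_assoc]

theorem norm_sq (h : Rep B ξ Θ) : ‖ξ‖ ^ 2 = rt (Θ 1) := by
  have h1 := h 1 1
  rw [B.l_one, B.r_one, mul_one, inner_self_eq_norm_sq_to_K] at h1
  unfold rt
  rw [← h1]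
  norm_cast

theorem norm_l_le (h : Rep B ξ Θ) (hΘ : SM q Θ) (hq : Prj q) (x : A) : ‖B.l x ξ‖ ≤ two x := by
  have h1 := B.norm_l_sq (h.LD hΘ.symm hΘ.one_nonneg) x
  have h2 : rt (star x * x * Θ 1) ≤ two x ^ 2 := by
    refine (rt_mul_mono (star_mul_self_nonneg x) (hΘ.one_le hq)).trans (le_of_eq ?_)
    rw [mul_one, two_sq_rt]
  rw [← h1] at h2
  exact (sq_le_sq₀ (norm_nonneg _) (two_nonneg _)).1 h2

theorem norm_r_le (h : Rep B ξ Θ) (hΘ : SM q Θ) (hq : Prj q) (x : A) : ‖B.r x ξ‖ ≤ two x := by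
  have h1 := B.norm_r_sq (h.RD hΘ.one_nonneg) x
  have h2 : rt (x * star x * Θ 1) ≤ two x ^ 2 := by
    refine (rt_mul_mono (mul_star_self_nonneg x) (hΘ.one_le hq)).trans (le_of_eq ?_)
    rw [mul_one, two_sq_rt']
  rw [← h1] at h2
  exact (sq_le_sq₀ (norm_nonneg _) (two_nonneg _)).1 h2

theorem l_q (h : Rep B ξ Θ) (hΘ : SM q Θ) (hq : Prj q) : B.l q ξ = ξ := by
  have h1 := B.norm_l_sq (h.LD hΘ.symm hΘ.one_nonneg) (q - 1)
  have h2 : (q - 1) * Θ 1 = 0 := by rw [sub_mul, one_mul, hΘ.q_mul hq, sub_self]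
  rw [mul_assoc, h2, mul_zero, rt_zero] at h1
  have h3 : B.l (q - 1) ξ = 0 := norm_eq_zero.1 (pow_eq_zero_iff two_ne_zero |>.1 h1)
  rw [B.l_sub, B.l_one] at h3
  exact sub_eq_zero.1 h3

theorem r_q (h : Rep B ξ Θ) (hΘ : SM q Θ) (hq : Prj q) : B.r q ξ = ξ := by
  have h1 := B.norm_r_sq (h.RD hΘ.one_nonneg) (q - 1)
  have h2 : star (q - 1) * Θ 1 = 0 := by
    rw [star_sub, star_one, hq.1, sub_mul, one_mul, hΘ.q_mul hq, sub_self]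
  rw [mul_assoc, h2, mul_zero, rt_zero] at h1
  have h3 : B.r (q - 1) ξ = 0 := norm_eq_zero.1 (pow_eq_zero_iff two_ne_zero |>.1 h1)
  rw [B.r_sub, B.r_one] at h3
  exact sub_eq_zero.1 h3

theorem en_eq (h : Rep B ξ Θ) : B.en a ξ = enM a Θ := by
  rw [B.en_eq, inner_sub_right, Complex.sub_re, B.inner_T, Complex.re_sum]
  unfold enM
  congr 1
  · rw [← h.norm_sq, inner_self_eq_norm_sq_to_K]
    norm_cast
  · refine Finset.sum_congr rfl fun i _ => ?_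
    rw [Complex.re_ofReal_mul, h]
    rfl

theorem cj (h : Rep B ξ Θ) (c : A) : Rep B (B.l c (B.r (star c) ξ)) (cjM c Θ) := by
  intro x y
  rw [inner2 h, cjM_apply]

theorem corr (h : Rep B ξ Θ) (W : Wd A) :
    Rep B (∑ w, ((W.q w : ℝ) : ℂ) • B.l (W.c w) (B.r (star (W.c w)) ξ)) (corrM W Θ) := by
  intro x y
  have h1 : corrM W Θ x = ∑ w, ∑ w', ((W.q w * W.q w' : ℝ) : ℂ) •
    (W.c w * Θ (star (W.c w) * x * W.c w') * star (W.c w')) := rfl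
  have h2 : B.l x (B.r y (∑ w, ((W.q w : ℝ) : ℂ) • B.l (W.c w) (B.r (star (W.c w)) ξ))) =
      ∑ w, ((W.q w : ℝ) : ℂ) • B.l x (B.r y (B.l (W.c w) (B.r (star (W.c w)) ξ))) := by
    rw [map_sum, map_sum]
    exact Finset.sum_congr rfl fun w _ => by rw [map_smul, map_smul]
  rw [h1, h2, Finset.sum_mul, map_sum, sum_inner]
  refine Finset.sum_congr rfl fun w _ => ?_
  rw [inner_smul_left, Complex.conj_ofReal, inner_sum, Finset.mul_sum, Finset.sum_mul, map_sum]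
  refine Finset.sum_congr rfl fun w' _ => ?_
  rw [inner_smul_right, inner2 h, smul_mul_assoc, map_smul, smul_eq_mul, Complex.ofReal_mul]
  ring

theorem sqrt_en_cj_le (h : Rep B ξ Θ) (hΘ : SM q Θ) (hq : Prj q) (c : A) (C : ℝ) (hc : ‖c‖ ≤ C) :
    Real.sqrt (2 * enM a (cjM c Θ)) ≤
      2 * C * Real.sqrt (2 * a.en c) + C ^ 2 * Real.sqrt (2 * enM a Θ) := by
  have hC : 0 ≤ C := (norm_nonneg c).trans hc
  have hcs : ‖star c‖ ≤ C := by rwa [norm_star]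
  rw [← (h.cj c).en_eq a, ← h.en_eq a, two_en a, two_en a]
  have hb : ∀ i, ‖B.l (a.u i) (B.l c (B.r (star c) ξ)) - B.r (a.u i) (B.l c (B.r (star c) ξ))‖ ≤
      (C * two (a.u i * c - c * a.u i) + C * two (a.u i * star c - star c * a.u i)) +
        C ^ 2 * ‖B.l (a.u i) ξ - B.r (a.u i) ξ‖ := by
    intro i
    have e1 : B.l (a.u i) (B.l c (B.r (star c) ξ)) - B.r (a.u i) (B.l c (B.r (star c) ξ)) =
        (B.r (star c) (B.l (a.u i * c - c * a.u i) ξ) +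
          B.l c (B.r (a.u i * star c - star c * a.u i) ξ)) +
        B.l c (B.r (star c) (B.l (a.u i) ξ - B.r (a.u i) ξ)) := by
      simp only [B.l_sub, B.r_sub, map_sub, B.l_mul, B.r_mul, ← B.l_r]
      abel
    rw [e1]
    refine (norm_add_le _ _).trans (add_le_add ((norm_add_le _ _).trans (add_le_add ?_ ?_)) ?_)
    · refine (B.norm_r_le _ _).trans ?_
      exact mul_le_mul hcs (h.norm_l_le hΘ hq _) (norm_nonneg _) hC
    · refine (B.norm_l_le _ _).trans ?_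
      exact mul_le_mul hc (h.norm_r_le hΘ hq _) (norm_nonneg _) hC
    · refine (B.norm_l_le _ _).trans ?_
      calc ‖c‖ * ‖B.r (star c) (B.l (a.u i) ξ - B.r (a.u i) ξ)‖
          ≤ C * (C * ‖B.l (a.u i) ξ - B.r (a.u i) ξ‖) := by
            refine mul_le_mul hc ?_ (norm_nonneg _) hC
            exact (B.norm_r_le _ _).trans (mul_le_mul_of_nonneg_right hcs (norm_nonneg _))
        _ = C ^ 2 * ‖B.l (a.u i) ξ - B.r (a.u i) ξ‖ := by ring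
  have hp : ∀ i, 0 ≤ a.p i := fun i => (a.p_pos i).le
  calc Real.sqrt (∑ i, a.p i * ‖B.l (a.u i) (B.l c (B.r (star c) ξ)) -
          B.r (a.u i) (B.l c (B.r (star c) ξ))‖ ^ 2)
      ≤ Real.sqrt (∑ i, a.p i * ((C * two (a.u i * c - c * a.u i) +
          C * two (a.u i * star c - star c * a.u i)) +
            C ^ 2 * ‖B.l (a.u i) ξ - B.r (a.u i) ξ‖) ^ 2) := by
        refine Real.sqrt_le_sqrt (Finset.sum_le_sum fun i _ => ?_)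
        exact mul_le_mul_of_nonneg_left (pow_le_pow_left₀ (norm_nonneg _) (hb i) 2) (hp i)
    _ ≤ Real.sqrt (∑ i, a.p i * (C * two (a.u i * c - c * a.u i) +
          C * two (a.u i * star c - star c * a.u i)) ^ 2) +
        Real.sqrt (∑ i, a.p i * (C ^ 2 * ‖B.l (a.u i) ξ - B.r (a.u i) ξ‖) ^ 2) :=
        mink a.p _ _ hp
    _ ≤ (Real.sqrt (∑ i, a.p i * (C * two (a.u i * c - c * a.u i)) ^ 2) +
          Real.sqrt (∑ i, a.p i * (C * two (a.u i * star c - star c * a.u i)) ^ 2)) +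
        Real.sqrt (∑ i, a.p i * (C ^ 2 * ‖B.l (a.u i) ξ - B.r (a.u i) ξ‖) ^ 2) :=
        add_le_add (mink a.p _ _ hp) le_rfl
    _ = 2 * C * Real.sqrt (2 * a.en c) +
        C ^ 2 * Real.sqrt (∑ i, a.p i * ‖B.l (a.u i) ξ - B.r (a.u i) ξ‖ ^ 2) := by
        rw [sqrt_scale a.p _ hC, sqrt_scale a.p _ hC, sqrt_scale a.p _ (sq_nonneg C)]
        have e1 : ∑ i, a.p i * two (a.u i * c - c * a.u i) ^ 2 = 2 * a.en c := by
          unfold Avg.en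
          ring
        have e2 : ∑ i, a.p i * two (a.u i * star c - star c * a.u i) ^ 2 = 2 * a.en c := by
          rw [← a.en_star c]
          unfold Avg.en
          ring
        rw [e1, e2]
        ring

theorem two_tw_le (h : Rep B ξ Θ) (hΘ : SM q Θ) (hq : Prj q) (x v : A) (hv : star v * v = 1)
    (hv' : v * star v = 1) :
    two (Θ (v * x * star v) - v * Θ x * star v) ≤ 2 * ‖x‖ * ‖B.l v ξ - B.r v ξ‖ := by
  obtain ⟨D, hD⟩ : ∃ D, D = Θ (v * x * star v) - v * Θ x * star v := ⟨_, rfl⟩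
  obtain ⟨η, hη⟩ : ∃ η, η = B.l v (B.r (star v) ξ) := ⟨_, rfl⟩
  obtain ⟨z, hz⟩ : ∃ z, z = v * x * star v := ⟨_, rfl⟩
  have hvn : ‖v‖ ≤ 1 := AvAaux.norm_u_le hv
  have hzn : ‖z‖ ≤ ‖x‖ := by
    rw [hz]
    calc ‖v * x * star v‖ ≤ ‖v‖ * ‖x‖ * ‖star v‖ :=
          (norm_mul_le _ _).trans (mul_le_mul_of_nonneg_right (norm_mul_le _ _) (norm_nonneg _))
      _ ≤ 1 * ‖x‖ * 1 := by
          rw [norm_star]
          exact mul_le_mul (mul_le_mul_of_nonneg_right hvn (norm_nonneg _)) hvn (norm_nonneg _)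
            (by rw [one_mul]; exact norm_nonneg _)
      _ = ‖x‖ := by ring
  have hsub : ‖ξ - η‖ = ‖B.l v ξ - B.r v ξ‖ := by
    have h5 : η - ξ = B.r (star v) (B.l v ξ - B.r v ξ) := by
      rw [map_sub, ← B.r_mul, hv', B.r_one, hη, B.l_r]
    rw [norm_sub_rev, h5, B.norm_r_unitary _ (by rw [star_star]; exact hv)]
  have key : ∀ y : A, ‖tau (D * y)‖ ≤ 2 * ‖x‖ * ‖ξ - η‖ * two y := by
    intro y
    have e1 : tau (D * y) = ⟪ξ, B.l z (B.r y ξ)⟫_ℂ - ⟪η, B.l z (B.r y η)⟫_ℂ := by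
      rw [hη, inner2 h, h, hD, hz, sub_mul, map_sub]
      have e2 : star v * (v * x * star v) * v = (star v * v) * x * (star v * v) := by
        noncomm_ring
      rw [e2, hv, one_mul, mul_one]
    have e3 : ⟪ξ, B.l z (B.r y ξ)⟫_ℂ - ⟪η, B.l z (B.r y η)⟫_ℂ =
        ⟪ξ - η, B.l z (B.r y ξ)⟫_ℂ + ⟪η, B.l z (B.r y (ξ - η))⟫_ℂ := by
      rw [map_sub, map_sub, inner_sub_right, inner_sub_left]
      ring
    have e4 : ⟪η, B.l z (B.r y (ξ - η))⟫_ℂ = ⟪B.l (star z) (B.r (star y) η), ξ - η⟫_ℂ := by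
      rw [B.inner_l, B.inner_r, star_star, star_star, B.l_r]
    have h1 : ‖⟪ξ - η, B.l z (B.r y ξ)⟫_ℂ‖ ≤ ‖ξ - η‖ * (‖x‖ * two y) := by
      refine (norm_inner_le_norm _ _).trans (mul_le_mul_of_nonneg_left ?_ (norm_nonneg _))
      refine (B.norm_l_le _ _).trans ?_
      exact mul_le_mul hzn (h.norm_r_le hΘ hq y) (norm_nonneg _) (norm_nonneg _)
    have h2 : ‖⟪η, B.l z (B.r y (ξ - η))⟫_ℂ‖ ≤ (‖x‖ * two y) * ‖ξ - η‖ := by
      rw [e4]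
      refine (norm_inner_le_norm _ _).trans (mul_le_mul_of_nonneg_right ?_ (norm_nonneg _))
      refine (B.norm_l_le _ _).trans ?_
      refine mul_le_mul (by rwa [norm_star]) ?_ (norm_nonneg _) (norm_nonneg _)
      rw [hη, ← B.l_r, ← B.r_mul, B.norm_l_unitary _ hv]
      refine (h.norm_r_le hΘ hq _).trans (le_of_eq ?_)
      rw [two_unitary_mul (by rw [star_star]; exact hv'), two_star]
    rw [e1, e3]
    refine (norm_add_le _ _).trans ?_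
    calc ‖⟪ξ - η, B.l z (B.r y ξ)⟫_ℂ‖ + ‖⟪η, B.l z (B.r y (ξ - η))⟫_ℂ‖
        ≤ ‖ξ - η‖ * (‖x‖ * two y) + (‖x‖ * two y) * ‖ξ - η‖ := add_le_add h1 h2
      _ = 2 * ‖x‖ * ‖ξ - η‖ * two y := by ring
  rw [← hD, ← hsub]
  refine le_of_sq_le_mul (two_nonneg _) (by positivity) ?_
  have h3 := key (star D)
  rw [two_star] at h3
  refine le_trans ?_ h3
  rw [two_sq_rt']
  exact Complex.re_le_norm _

theorem sqrt_en_apply_le (h : Rep B ξ Θ) (hΘ : SM q Θ) (hq : Prj q) (x : A) :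
    Real.sqrt (2 * a.en (Θ x)) ≤
      2 * ‖x‖ * Real.sqrt (2 * enM a Θ) + Real.sqrt (2 * a.en x) := by
  have hp : ∀ i, 0 ≤ a.p i := fun i => (a.p_pos i).le
  have e0 : ∀ z : A, 2 * a.en z = ∑ i, a.p i * two (a.u i * z * star (a.u i) - z) ^ 2 := by
    intro z
    rw [a.en_eq_conj]
    ring
  rw [← h.en_eq a, two_en a, e0, e0]
  have hb : ∀ i, two (a.u i * Θ x * star (a.u i) - Θ x) ≤
      (2 * ‖x‖) * ‖B.l (a.u i) ξ - B.r (a.u i) ξ‖ + two (a.u i * x * star (a.u i) - x) := by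
    intro i
    have h1 := h.two_tw_le hΘ hq x (a.u i) (a.u_star_mul i) (a.u_mul_star i)
    have h2 := hΘ.two_le hq (a.u i * x * star (a.u i) - x)
    rw [map_sub] at h2
    refine (two_sub_le_sub _ (Θ (a.u i * x * star (a.u i))) _).trans (add_le_add ?_ h2)
    rw [two_sub_comm]
    exact h1
  calc Real.sqrt (∑ i, a.p i * two (a.u i * Θ x * star (a.u i) - Θ x) ^ 2)
      ≤ Real.sqrt (∑ i, a.p i * ((2 * ‖x‖) * ‖B.l (a.u i) ξ - B.r (a.u i) ξ‖ +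
          two (a.u i * x * star (a.u i) - x)) ^ 2) := by
        refine Real.sqrt_le_sqrt (Finset.sum_le_sum fun i _ => ?_)
        exact mul_le_mul_of_nonneg_left (pow_le_pow_left₀ (two_nonneg _) (hb i) 2) (hp i)
    _ ≤ Real.sqrt (∑ i, a.p i * ((2 * ‖x‖) * ‖B.l (a.u i) ξ - B.r (a.u i) ξ‖) ^ 2) +
        Real.sqrt (∑ i, a.p i * two (a.u i * x * star (a.u i) - x) ^ 2) := mink a.p _ _ hp
    _ = _ := by rw [sqrt_scale a.p _ (by positivity)]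

theorem comp_en_le (h : Rep B ξ Θ) (hΘ : SM q Θ) (hq : Prj q) :
    enM a (Θ ∘ₗ Θ) ≤ 2 * Real.sqrt (rt q) * Real.sqrt (2 * enM a Θ) := by
  have hp : ∀ i, 0 ≤ a.p i := fun i => (a.p_pos i).le
  have hsa : star (Θ 1) = Θ 1 := (IsSelfAdjoint.of_nonneg hΘ.one_nonneg).star_eq
  have e1 : rt ((Θ ∘ₗ Θ) 1) = two (Θ 1) ^ 2 := by
    have h1 := hΘ.symm (Θ 1) 1
    rw [mul_one] at h1
    rw [two_sq_rt, hsa]
    unfold rt
    rw [LinearMap.comp_apply, h1]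
  have e2 : ∀ u : A, rt ((Θ ∘ₗ Θ) u * star u) = two (Θ u) ^ 2 := by
    intro u
    rw [two_sq_rt', ← hΘ.cp.map_star]
    unfold rt
    rw [LinearMap.comp_apply, hΘ.symm]
  have hs1 : two (Θ 1) ≤ Real.sqrt (rt q) := by
    refine Real.le_sqrt_of_sq_le ?_
    have h1 : ‖Θ 1‖ ≤ 1 := (CStarAlgebra.norm_le_norm_of_nonneg_of_le hΘ.one_nonneg
      (hΘ.one_le hq)).trans norm_one_le'
    refine (two_sq_le_of_norm_le hΘ.one_nonneg h1).trans ?_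
    rw [one_mul]
    exact hΘ.rt_one_le
  have hs2 : ∀ i, two (Θ (a.u i)) ≤ Real.sqrt (rt q) := by
    intro i
    rw [← hΘ.apply_q hq]
    refine (hΘ.two_le hq _).trans ?_
    have h1 : two q = Real.sqrt (rt q) := by
      rw [← two_proj hq, Real.sqrt_sq (two_nonneg q)]
    rw [← h1]
    refine (two_mul_le _ _).trans (mul_le_of_le_one_left (two_nonneg q) ?_)
    refine (norm_mul_le _ _).trans ?_
    exact mul_le_one₀ (norm_proj_le hq) (norm_nonneg _) (AvAaux.norm_u_le (a.u_star_mul i))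
  have hd : ∀ i, two (Θ (a.u i) - Θ 1 * a.u i) ≤ ‖B.l (a.u i) ξ - B.r (a.u i) ξ‖ := by
    intro i
    obtain ⟨D, hD⟩ : ∃ D, D = Θ (a.u i) - Θ 1 * a.u i := ⟨_, rfl⟩
    rw [← hD]
    have key : ∀ y : A, ‖tau (D * y)‖ ≤ ‖B.l (a.u i) ξ - B.r (a.u i) ξ‖ * two y := by
      intro y
      have e3 : tau (D * y) = ⟪B.r (star y) ξ, B.l (a.u i) ξ - B.r (a.u i) ξ⟫_ℂ := by
        have h1 := h (a.u i) y
        have h2 := h 1 (a.u i * y)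
        rw [B.l_one, B.r_mul] at h2
        rw [B.inner_r, star_star, map_sub, inner_sub_right, h2, ← B.l_r, h1, hD, sub_mul,
          map_sub, mul_assoc]
      rw [e3]
      refine (norm_inner_le_norm _ _).trans ?_
      rw [mul_comm]
      refine mul_le_mul_of_nonneg_left ?_ (norm_nonneg _)
      refine (h.norm_r_le hΘ hq _).trans (le_of_eq (two_star y))
    refine le_of_sq_le_mul (two_nonneg _) (norm_nonneg _) ?_
    have h3 := key (star D)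
    rw [two_star] at h3
    refine le_trans ?_ h3
    rw [two_sq_rt']
    exact Complex.re_le_norm _
  have hi : ∀ i, two (Θ 1) ^ 2 - two (Θ (a.u i)) ^ 2 ≤
      2 * Real.sqrt (rt q) * ‖B.l (a.u i) ξ - B.r (a.u i) ξ‖ := by
    intro i
    have h1 : two (Θ 1 * a.u i) = two (Θ 1) := two_mul_unitary (a.u_mul_star i) _
    have h2 := (abs_two_sub_two_le (Θ (a.u i)) (Θ 1 * a.u i)).trans (hd i)
    rw [h1] at h2
    have h3 := (abs_le.1 h2).1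
    have h4 := hs2 i
    have h5 := two_nonneg (Θ 1)
    have h6 := two_nonneg (Θ (a.u i))
    have h7 := norm_nonneg (B.l (a.u i) ξ - B.r (a.u i) ξ)
    calc two (Θ 1) ^ 2 - two (Θ (a.u i)) ^ 2 =
          (two (Θ 1) - two (Θ (a.u i))) * (two (Θ 1) + two (Θ (a.u i))) := by ring
      _ ≤ ‖B.l (a.u i) ξ - B.r (a.u i) ξ‖ * (two (Θ 1) + two (Θ (a.u i))) :=
          mul_le_mul_of_nonneg_right (by linarith) (by linarith)
      _ ≤ ‖B.l (a.u i) ξ - B.r (a.u i) ξ‖ * (Real.sqrt (rt q) + Real.sqrt (rt q)) :=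
          mul_le_mul_of_nonneg_left (by linarith) h7
      _ = _ := by ring
  have e3 : enM a (Θ ∘ₗ Θ) = ∑ i, a.p i * (two (Θ 1) ^ 2 - two (Θ (a.u i)) ^ 2) := by
    unfold enM
    simp only [e1, e2]
    have h1 : two (Θ 1) ^ 2 = ∑ i, a.p i * two (Θ 1) ^ 2 := by
      rw [← Finset.sum_mul, a.p_sum, one_mul]
    conv_lhs => rw [h1]
    rw [← Finset.sum_sub_distrib]
    exact Finset.sum_congr rfl fun i _ => by ring
  rw [e3, ← h.en_eq a, two_en a]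
  calc ∑ i, a.p i * (two (Θ 1) ^ 2 - two (Θ (a.u i)) ^ 2)
      ≤ ∑ i, a.p i * (2 * Real.sqrt (rt q) * ‖B.l (a.u i) ξ - B.r (a.u i) ξ‖) :=
        Finset.sum_le_sum fun i _ => mul_le_mul_of_nonneg_left (hi i) (hp i)
    _ = 2 * Real.sqrt (rt q) * ∑ i, a.p i * ‖B.l (a.u i) ξ - B.r (a.u i) ξ‖ := by
        rw [Finset.mul_sum]
        exact Finset.sum_congr rfl fun i _ => by ring
    _ ≤ _ := mul_le_mul_of_nonneg_left (sum_le_sqrt a _) (by positivity)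

end Rep

end Pool.Agent.PTH
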