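import Pool.Agent.PTH.CcI
import Pool.Agent.PTH.Tb1

/-!
# PTH / CcF: finite families in `A` as positive finite rank operators of `L²(A)`

A finite family `v_i ∈ A` stands for the operator `E = ∑ |v_i⟩⟨v_i|` of `L²(A)` (inner product
`τ(x* y)`):  `F.qf x = ⟨E x, x⟩ = ∑ |τ(v_i* x)|²`,  `F.hsI G = Tr(E_F E_G) = ∑ |τ(v_i* w_j)|²`,
`F.hs = Tr(E²) = ‖E‖²_HS`.

PROOFS.  `τ(x* y)` is a (positive definite) inner product on `A`: use a type synonym
`Pre A := A` with the instances built from `trCore` (definite by `TrAlg.tau_faithful`), or work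
with Gram matrices.
* `hsI_sq_le` (Cauchy-Schwarz).  The span `W` of all `v_i, w_j` is finite dimensional: take an
  orthonormal basis `e_a` (`stdOrthonormalBasis`), `P_{ab} = ∑_i ⟨e_a,v_i⟩ ⟨v_i,e_b⟩`,
  `Q_{ab} = ∑_j ⟨e_a,w_j⟩⟨w_j,e_b⟩`.  Expanding `⟨v_i,w_j⟩ = ∑_a ⟨v_i,e_a⟩⟨e_a,w_j⟩`:
  `hsI F G = ∑_{ab} P_{ab} conj(Q_{ab})`, `hs F = ∑ |P_{ab}|²`, `hs G = ∑ |Q_{ab}|²`; now
  Cauchy-Schwarz for finite sums.
* `hs_add`: expand the sums over `ι ⊕ κ`, `|τ(x* y)| = |τ(y* x)|` (`TrAlg.tau_star`).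
* `sqrt_hs_add_le`: `hs_add` and `hsI_sq_le`.
* `hs_mix_le`: `hs (mix q F) = ∑_{k,l} q_k q_l hsI(F_k,F_l)
  ≤ ∑ q_k q_l (hs F_k)^{1/2} (hs F_l)^{1/2} = (∑ q_k (hs F_k)^{1/2})² ≤ C`.
* `qf_sq_le`: `hsI_sq_le` for the one element family `x`: `hsI = qf F x`, `hs = ‖x‖₂⁴`.
* `hs_map_le`: Gram matrices `G_ij = τ(v_i* v_j)`, `G'_ij = τ((V v_i)* V v_j)`.  For complex `x`:
  `∑ conj(x_i) x_j G'_ij = ‖V(∑ x_j v_j)‖₂² ≤ C² ‖∑ x_j v_j‖₂² = C² ∑ conj(x_i) x_j G_ij`, so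
  `0 ≤ G' ≤ C² G` (positive semidefinite order).  `hs = ∑ |G_ij|² = Tr(G²)`.  As `Tr(XY) ≥ 0` for
  positive semidefinite `X, Y` (`Y = Z* Z`, `Tr(X Z* Z) = Tr(Z X Z*) ≥ 0`):
  `Tr(G'²) ≤ C² Tr(G G') ≤ C⁴ Tr(G²)`.
-/

open scoped InnerProductSpace ComplexOrder

namespace Pool.Agent.PTH

open TrAlg

/-- A finite family. -/
structure Fam (A : Type*) where
  ι : Type
  [fin : Fintype ι]
  v : ι → A

attribute [instance] Fam.fin

namespace Fam

section defs

variable {A : Type*}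

/-- Image of a family. -/
def map (F : Fam A) (V : A → A) : Fam A := { ι := F.ι, v := fun i => V (F.v i) }

/-- Union of two families. -/
def add (F G : Fam A) : Fam A := { ι := F.ι ⊕ G.ι, v := Sum.elim F.v G.v }

variable [CStarAlgebra A]

/-- `∑ q_k E_k`. -/
noncomputable def mix {κ : Type} [Fintype κ] (q : κ → ℝ) (F : κ → Fam A) : Fam A :=
  { ι := Σ k, (F k).ι, v := fun x => ((Real.sqrt (q x.1) : ℝ) : ℂ) • (F x.1).v x.2 }

variable [TrAlg A]

/-- `⟨E x, x⟩`. -/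
noncomputable def qf (F : Fam A) (x : A) : ℝ := ∑ i, ‖tau (star (F.v i) * x)‖ ^ 2

/-- `Tr(E_F E_G)`. -/
noncomputable def hsI (F G : Fam A) : ℝ := ∑ i, ∑ j, ‖tau (star (F.v i) * G.v j)‖ ^ 2

/-- `Tr(E²)`. -/
noncomputable def hs (F : Fam A) : ℝ := F.hsI F

end defs

variable {A : Type*} [CStarAlgebra A] [TrAlg A]

theorem qf_nonneg (F : Fam A) (x : A) : 0 ≤ F.qf x :=
  Finset.sum_nonneg fun _ _ => sq_nonneg _

theorem hsI_nonneg (F G : Fam A) : 0 ≤ F.hsI G :=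
  Finset.sum_nonneg fun _ _ => Finset.sum_nonneg fun _ _ => sq_nonneg _

theorem hs_nonneg (F : Fam A) : 0 ≤ F.hs := F.hsI_nonneg F

private theorem norm_swap (x y : A) : ‖tau (star x * y)‖ = ‖tau (star y * x)‖ := by
  rw [← norm_star (tau (star y * x)), ← tau_star, star_mul, star_star]

theorem hsI_comm (F G : Fam A) : F.hsI G = G.hsI F := by
  unfold hsI
  rw [Finset.sum_comm]
  refine Finset.sum_congr rfl fun j _ => Finset.sum_congr rfl fun i _ => ?_
  rw [norm_swap]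

private theorem gram_q {n : Type} [Fintype n] (x : n → A) (c : n → ℂ) :
    star c ⬝ᵥ (Matrix.mulVec (Matrix.of fun s t => tau (star (x s) * x t)) c) =
      ((two (∑ t, c t • x t) ^ 2 : ℝ) : ℂ) := by
  rw [← tau_eq, star_sum, Finset.sum_mul_sum, map_sum]
  refine Finset.sum_congr rfl fun s _ => ?_
  rw [map_sum]
  change star (c s) * (∑ t, tau (star (x s) * x t) * c t) = _
  rw [Finset.mul_sum]
  refine Finset.sum_congr rfl fun t _ => ?_
  rw [star_smul, smul_mul_smul_comm, map_smul, smul_eq_mul]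
  ring

private theorem gram_herm {n : Type} [Fintype n] (x : n → A) :
    (Matrix.of fun s t => tau (star (x s) * x t)).IsHermitian := by
  ext s t
  rw [Matrix.conjTranspose_apply]
  change star (tau (star (x t) * x s)) = tau (star (x s) * x t)
  rw [← tau_star, star_mul, star_star]

private theorem gram_psd {n : Type} [Fintype n] (x : n → A) :
    (Matrix.of fun s t => tau (star (x s) * x t)).PosSemidef := by
  refine Matrix.PosSemidef.of_dotProduct_mulVec_nonneg (gram_herm x) fun c => ?_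
  rw [gram_q]
  exact_mod_cast sq_nonneg (two _)

private theorem nsq (z : ℂ) : ((‖z‖ ^ 2 : ℝ) : ℂ) = z * star z := by
  rw [Complex.ofReal_pow]
  exact (Complex.mul_conj' z).symm

private theorem feat {n : Type} [Fintype n] (x : n → A) :
    ∃ (m : ℕ) (Φ : n → Fin m × Fin m → ℂ), ∀ s t,
      ((‖tau (star (x s) * x t)‖ ^ 2 : ℝ) : ℂ) = ∑ p, Φ s p * star (Φ t p) := by
  obtain ⟨m, v, hv⟩ := Matrix.posSemidef_iff_eq_sum_vecMulVec.1 (gram_psd x)
  refine ⟨m, fun s p => v p.1 s * star (v p.2 s), fun s t => ?_⟩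
  have h1 : tau (star (x s) * x t) = ∑ a, v a s * star (v a t) := by
    have h := congrFun (congrFun hv s) t
    rw [Matrix.sum_apply] at h
    exact h
  rw [nsq, h1, star_sum, Finset.sum_mul_sum, Fintype.sum_prod_type]
  refine Finset.sum_congr rfl fun a _ => Finset.sum_congr rfl fun b _ => ?_
  change v a s * star (v a t) * star (v b s * star (v b t)) =
    v a s * star (v b s) * star (v a t * star (v b t))
  rw [star_mul, star_mul, star_star]
  ring

private theorem cs {n I J : Type} [Fintype n] [Fintype I] [Fintype J] (x : n → A) (f : I → n)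
    (g : J → n) :
    (∑ i, ∑ j, ‖tau (star (x (f i)) * x (g j))‖ ^ 2) ^ 2 ≤
      (∑ i, ∑ j, ‖tau (star (x (f i)) * x (f j))‖ ^ 2) *
        (∑ i, ∑ j, ‖tau (star (x (g i)) * x (g j))‖ ^ 2) := by
  obtain ⟨m, Φ, hΦ⟩ := feat x
  have key : ∀ {I J : Type} [Fintype I] [Fintype J] (f : I → n) (g : J → n),
      ((∑ i, ∑ j, ‖tau (star (x (f i)) * x (g j))‖ ^ 2 : ℝ) : ℂ) =
        ∑ p, (∑ i, Φ (f i) p) * star (∑ j, Φ (g j) p) := by
    intro I J _ _ f g
    rw [Complex.ofReal_sum]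
    simp only [Complex.ofReal_sum, hΦ, star_sum, Finset.sum_mul_sum]
    symm
    rw [Finset.sum_comm]
    refine Finset.sum_congr rfl fun i _ => ?_
    rw [Finset.sum_comm]
  have sq : ∀ {I : Type} [Fintype I] (f : I → n),
      ∑ i, ∑ j, ‖tau (star (x (f i)) * x (f j))‖ ^ 2 = ∑ p, ‖∑ i, Φ (f i) p‖ ^ 2 := by
    intro I _ f
    have h := key f f
    simp only [← nsq] at h
    exact_mod_cast h
  have h1 := key f g
  have h2 : (∑ i, ∑ j, ‖tau (star (x (f i)) * x (g j))‖ ^ 2) ≤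
      ∑ p, ‖∑ i, Φ (f i) p‖ * ‖∑ j, Φ (g j) p‖ := by
    have h0 : 0 ≤ (∑ i, ∑ j, ‖tau (star (x (f i)) * x (g j))‖ ^ 2) :=
      Finset.sum_nonneg fun _ _ => Finset.sum_nonneg fun _ _ => sq_nonneg _
    calc (∑ i, ∑ j, ‖tau (star (x (f i)) * x (g j))‖ ^ 2)
        = ‖((∑ i, ∑ j, ‖tau (star (x (f i)) * x (g j))‖ ^ 2 : ℝ) : ℂ)‖ := by
          rw [Complex.norm_real, Real.norm_eq_abs, abs_of_nonneg h0]
      _ ≤ ∑ p, ‖(∑ i, Φ (f i) p) * star (∑ j, Φ (g j) p)‖ := by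
          rw [h1]
          exact norm_sum_le _ _
      _ = _ := by
          refine Finset.sum_congr rfl fun p _ => ?_
          rw [norm_mul, norm_star]
  rw [sq f, sq g]
  refine le_trans ?_ (Finset.sum_mul_sq_le_sq_mul_sq _ _ _)
  exact pow_le_pow_left₀ (Finset.sum_nonneg fun _ _ => Finset.sum_nonneg fun _ _ => sq_nonneg _) h2 2

/-- Cauchy-Schwarz. -/
theorem hsI_sq_le (F G : Fam A) : F.hsI G ^ 2 ≤ F.hs * G.hs :=
  cs (Sum.elim F.v G.v) (Sum.inl : F.ι → F.ι ⊕ G.ι) (Sum.inr : G.ι → F.ι ⊕ G.ι)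

private theorem hsI_le (F G : Fam A) : F.hsI G ≤ Real.sqrt F.hs * Real.sqrt G.hs := by
  rw [← Real.sqrt_mul F.hs_nonneg]
  exact Real.le_sqrt_of_sq_le (hsI_sq_le F G)

theorem qf_sq_le (F : Fam A) (x : A) : F.qf x ^ 2 ≤ F.hs * (two x ^ 2) ^ 2 := by
  have h := hsI_sq_le F { ι := Unit, v := fun _ => x }
  have e1 : F.hsI { ι := Unit, v := fun _ => x } = F.qf x := by
    refine Finset.sum_congr rfl fun i _ => ?_
    exact Fintype.sum_unique _
  have e2 : Fam.hs ({ ι := Unit, v := fun _ => x } : Fam A) = (two x ^ 2) ^ 2 := by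
    have e3 : Fam.hs ({ ι := Unit, v := fun _ => x } : Fam A) = ‖tau (star x * x)‖ ^ 2 := by
      change (∑ _i : Unit, ∑ _j : Unit, ‖tau (star x * x)‖ ^ 2) = _
      simp
    rw [e3, tau_eq, Complex.norm_real, Real.norm_eq_abs, sq_abs]
  rwa [e1, e2] at h

/-- `⟨E x, x⟩ ≤ ‖E‖_HS ‖x‖₂²`. -/
theorem qf_le (F : Fam A) (x : A) : F.qf x ≤ Real.sqrt F.hs * two x ^ 2 := by
  have h := Real.le_sqrt_of_sq_le (qf_sq_le F x)
  rwa [Real.sqrt_mul F.hs_nonneg, Real.sqrt_sq (sq_nonneg _)] at h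

theorem hs_add (F G : Fam A) : (F.add G).hs = F.hs + 2 * F.hsI G + G.hs := by
  have e : (F.add G).hs = (F.hsI F + F.hsI G) + (G.hsI F + G.hsI G) := by
    change (∑ i : F.ι ⊕ G.ι, ∑ j : F.ι ⊕ G.ι,
      ‖tau (star (Sum.elim F.v G.v i) * Sum.elim F.v G.v j)‖ ^ 2) = _
    rw [Fintype.sum_sum_type]
    simp only [Fintype.sum_sum_type, Sum.elim_inl, Sum.elim_inr, Finset.sum_add_distrib]
    rfl
  rw [e, hsI_comm G F]
  unfold hs
  ring

theorem sqrt_hs_add_le (F G : Fam A) :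
    Real.sqrt (F.add G).hs ≤ Real.sqrt F.hs + Real.sqrt G.hs := by
  refine Real.sqrt_le_iff.2 ⟨by positivity, ?_⟩
  rw [hs_add, add_sq, Real.sq_sqrt F.hs_nonneg, Real.sq_sqrt G.hs_nonneg]
  have := hsI_le F G
  linarith

theorem qf_add (F G : Fam A) (x : A) : (F.add G).qf x = F.qf x + G.qf x := by
  change (∑ i : F.ι ⊕ G.ι, ‖tau (star (Sum.elim F.v G.v i) * x)‖ ^ 2) = _
  rw [Fintype.sum_sum_type]
  rfl

private theorem sqr {q : ℝ} (hq : 0 ≤ q) : ‖((Real.sqrt q : ℝ) : ℂ)‖ ^ 2 = q := by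
  rw [Complex.norm_real, Real.norm_eq_abs, sq_abs, Real.sq_sqrt hq]

theorem qf_mix {κ : Type} [Fintype κ] (q : κ → ℝ) (hq : ∀ k, 0 ≤ q k) (F : κ → Fam A) (x : A) :
    (mix q F).qf x = ∑ k, q k * (F k).qf x := by
  change (∑ i : Σ k, (F k).ι,
    ‖tau (star (((Real.sqrt (q i.1) : ℝ) : ℂ) • (F i.1).v i.2) * x)‖ ^ 2) = _
  rw [Fintype.sum_sigma]
  refine Finset.sum_congr rfl fun k _ => ?_
  unfold qf
  rw [Finset.mul_sum]
  refine Finset.sum_congr rfl fun i _ => ?_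
  rw [star_smul, smul_mul_assoc, map_smul, norm_smul, mul_pow, norm_star, sqr (hq k)]

theorem hs_mix_le {κ : Type} [Fintype κ] (q : κ → ℝ) (hq : ∀ k, 0 ≤ q k) (hq1 : ∑ k, q k = 1)
    (F : κ → Fam A) (C : ℝ) (hC : ∀ k, (F k).hs ≤ C) : (mix q F).hs ≤ C := by
  have e : (mix q F).hs = ∑ k, ∑ l, q k * q l * (F k).hsI (F l) := by
    change (∑ i : Σ k, (F k).ι, ∑ j : Σ k, (F k).ι,
      ‖tau (star (((Real.sqrt (q i.1) : ℝ) : ℂ) • (F i.1).v i.2) *
        (((Real.sqrt (q j.1) : ℝ) : ℂ) • (F j.1).v j.2))‖ ^ 2) = _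
    rw [Fintype.sum_sigma]
    refine Finset.sum_congr rfl fun k _ => ?_
    simp only [Fintype.sum_sigma]
    rw [Finset.sum_comm]
    refine Finset.sum_congr rfl fun l _ => ?_
    unfold hsI
    rw [Finset.mul_sum]
    refine Finset.sum_congr rfl fun i _ => ?_
    rw [Finset.mul_sum]
    refine Finset.sum_congr rfl fun j _ => ?_
    rw [star_smul, smul_mul_smul_comm, map_smul, norm_smul, norm_mul, mul_pow, mul_pow, norm_star,
      sqr (hq k), sqr (hq l)]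
  have hI : ∀ k l, (F k).hsI (F l) ≤ C := by
    intro k l
    refine (hsI_le _ _).trans ?_
    have hC0 : 0 ≤ C := (F k).hs_nonneg.trans (hC k)
    calc Real.sqrt (F k).hs * Real.sqrt (F l).hs ≤ Real.sqrt C * Real.sqrt C :=
          mul_le_mul (Real.sqrt_le_sqrt (hC k)) (Real.sqrt_le_sqrt (hC l)) (Real.sqrt_nonneg _)
            (Real.sqrt_nonneg _)
      _ = C := Real.mul_self_sqrt hC0
  rw [e]
  calc ∑ k, ∑ l, q k * q l * (F k).hsI (F l) ≤ ∑ k, ∑ l, q k * q l * C :=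
        Finset.sum_le_sum fun k _ => Finset.sum_le_sum fun l _ =>
          mul_le_mul_of_nonneg_left (hI k l) (mul_nonneg (hq k) (hq l))
    _ = C := by
        simp only [← Finset.sum_mul, ← Finset.mul_sum, hq1, mul_one, one_mul]

private theorem tr_nonneg {n : Type} [Fintype n] {X Y : Matrix n n ℂ} (hX : X.PosSemidef)
    (hY : Y.PosSemidef) : 0 ≤ (X * Y).trace := by
  obtain ⟨m, v, rfl⟩ := Matrix.posSemidef_iff_eq_sum_vecMulVec.1 hY
  rw [Matrix.mul_sum, Matrix.trace_sum]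
  refine Finset.sum_nonneg fun a _ => ?_
  rw [Matrix.mul_vecMulVec, Matrix.trace_vecMulVec, dotProduct_comm]
  exact hX.dotProduct_mulVec_nonneg (v a)

private theorem tr_sq {n : Type} [Fintype n] (x : n → A) :
    ((Matrix.of fun s t => tau (star (x s) * x t)) *
      (Matrix.of fun s t => tau (star (x s) * x t))).trace =
        ((∑ s, ∑ t, ‖tau (star (x s) * x t)‖ ^ 2 : ℝ) : ℂ) := by
  rw [Complex.ofReal_sum]
  refine Finset.sum_congr rfl fun s _ => ?_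
  rw [Complex.ofReal_sum]
  change (∑ t, tau (star (x s) * x t) * tau (star (x t) * x s)) = _
  refine Finset.sum_congr rfl fun t _ => ?_
  rw [nsq, ← tau_star, star_mul, star_star]

/-- A linear map with `‖V x‖₂ ≤ C ‖x‖₂`. -/
theorem hs_map_le (F : Fam A) (V : A →ₗ[ℂ] A) (C : ℝ) (hC : 0 ≤ C)
    (hV : ∀ x, two (V x) ≤ C * two x) : (F.map V).hs ≤ C ^ 4 * F.hs := by
  set G : Matrix F.ι F.ι ℂ := Matrix.of fun s t => tau (star (F.v s) * F.v t) with hG
  set G' : Matrix F.ι F.ι ℂ := Matrix.of fun s t => tau (star (V (F.v s)) * V (F.v t)) with hG'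
  have pG : G.PosSemidef := gram_psd F.v
  have pG' : G'.PosSemidef := gram_psd fun s => V (F.v s)
  have pD : ((C ^ 2 : ℂ) • G - G').PosSemidef := by
    have hC2 : IsSelfAdjoint (C ^ 2 : ℂ) := by
      have : (C ^ 2 : ℂ) = ((C ^ 2 : ℝ) : ℂ) := by push_cast; rfl
      rw [this]
      exact Complex.conj_ofReal _
    refine Matrix.PosSemidef.of_dotProduct_mulVec_nonneg
      ((pG.isHermitian.smul hC2).sub pG'.isHermitian) fun c => ?_
    have e1 : star c ⬝ᵥ (Matrix.mulVec ((C ^ 2 : ℂ) • G - G') c) =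
        ((C ^ 2 * two (∑ t, c t • F.v t) ^ 2 - two (∑ t, c t • V (F.v t)) ^ 2 : ℝ) : ℂ) := by
      rw [Matrix.sub_mulVec, Matrix.smul_mulVec, dotProduct_sub, dotProduct_smul, hG, hG',
        gram_q F.v c, gram_q (fun s => V (F.v s)) c]
      push_cast
      rfl
    rw [e1]
    have e2 : ∑ t, c t • V (F.v t) = V (∑ t, c t • F.v t) := by
      rw [map_sum]
      exact Finset.sum_congr rfl fun t _ => (map_smul V _ _).symm
    rw [e2]
    have h1 := hV (∑ t, c t • F.v t)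
    have h2 : two (V (∑ t, c t • F.v t)) ^ 2 ≤ (C * two (∑ t, c t • F.v t)) ^ 2 :=
      pow_le_pow_left₀ (two_nonneg _) h1 2
    rw [mul_pow] at h2
    exact_mod_cast sub_nonneg.2 h2
  have t1 := tr_nonneg pD pG
  have t2 := tr_nonneg pD pG'
  have eG : (G * G).trace = ((F.hs : ℝ) : ℂ) := tr_sq F.v
  have eG' : (G' * G').trace = (((F.map V).hs : ℝ) : ℂ) := tr_sq fun s => V (F.v s)
  rw [Matrix.sub_mul, Matrix.trace_sub, Matrix.smul_mul, Matrix.trace_smul, smul_eq_mul] at t1 t2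
  rw [eG, Matrix.trace_mul_comm G' G] at t1
  rw [eG'] at t2
  have r1 := (Complex.nonneg_iff.1 t1).1
  have r2 := (Complex.nonneg_iff.1 t2).1
  have c2 : (C ^ 2 : ℂ) = ((C ^ 2 : ℝ) : ℂ) := by push_cast; rfl
  rw [c2, Complex.sub_re, Complex.re_ofReal_mul, Complex.ofReal_re] at r1 r2
  have h3 := mul_le_mul_of_nonneg_left (sub_nonneg.1 r1) (sq_nonneg C)
  have h4 : C ^ 4 * F.hs = C ^ 2 * (C ^ 2 * F.hs) := by ring
  rw [h4]
  linarith [sub_nonneg.1 r2]

theorem hs_smul (F : Fam A) (c : ℂ) : (F.map fun x => c • x).hs = ‖c‖ ^ 4 * F.hs := by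
  change (∑ i : F.ι, ∑ j : F.ι, ‖tau (star (c • F.v i) * (c • F.v j))‖ ^ 2) = _
  unfold hs hsI
  rw [Finset.mul_sum]
  refine Finset.sum_congr rfl fun i _ => ?_
  rw [Finset.mul_sum]
  refine Finset.sum_congr rfl fun j _ => ?_
  rw [star_smul, smul_mul_smul_comm, map_smul, norm_smul, norm_mul, norm_star]
  ring

theorem qf_smul (F : Fam A) (c : ℂ) (x : A) : (F.map fun x => c • x).qf x = ‖c‖ ^ 2 * F.qf x := by
  change (∑ i : F.ι, ‖tau (star (c • F.v i) * x)‖ ^ 2) = _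
  unfold qf
  rw [Finset.mul_sum]
  refine Finset.sum_congr rfl fun i _ => ?_
  rw [star_smul, smul_mul_assoc, map_smul, norm_smul, norm_star, mul_pow]

/-- `V = c · d*`. -/
theorem qf_map_mul (F : Fam A) (c d x : A) :
    (F.map fun x => c * x * star d).qf x = F.qf (star c * x * d) := by
  change (∑ i : F.ι, ‖tau (star (c * F.v i * star d) * x)‖ ^ 2) = _
  unfold qf
  refine Finset.sum_congr rfl fun i _ => ?_
  have e : tau (star (c * F.v i * star d) * x) = tau (star (F.v i) * (star c * x * d)) := by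
    rw [star_mul, star_mul, star_star, mul_assoc, tau_comm]
    congr 1
    noncomm_ring
  rw [e]

end Fam

end Pool.Agent.PTH
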