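import Pool.Agent.PTH.BmD
import Pool.Agent.PTH.Tb1

/-!
# PTH / CcM: completely positive maps and the class `SM q`

`SM q Θ` (CcI): `Θ` is completely positive, symmetric (`τ(Θ(x) y) = τ(x Θ(y))`), positive on `L²`,
`Θ = q Θ(q . q) q`, `Θ(1) ≤ q`.

PROOFS.
* `CP.nonneg`: `n = 1`, `y = 1`, `x ≥ 0` is `star z * z` (`CStarAlgebra.nonneg_iff_eq_star_mul_self`).
* `CP.map_star`, `CP.map_nonneg` are in BmD.
* `CP.fintype`: reindex by `Fintype.equivFin`.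
* `SM.tau_apply`: `τ(Θ x) = τ(Θ(x) 1) = τ(x Θ(1))`.
* `SM.ks` (Kadison-Schwarz): CP with `n = 2`, `x = (1, x)`, `y = (-Θ(x), 1)`:
  `0 ≤ Θ(x)* Θ(1) Θ(x) - Θ(x)* Θ(x) - Θ(x*) Θ(x) + Θ(x* x)`, `Θ(x*) = Θ(x)*`, `Θ(1) ≤ q ≤ 1`:
  `2 Θ(x)*Θ(x) ≤ Θ(x* x) + Θ(x)* Θ(1) Θ(x) ≤ Θ(x* x) + Θ(x)*Θ(x)`.
* `SM.two_le`: `‖Θ x‖₂² ≤ Re τ(Θ(x* x)) = Re τ(x* x Θ(1)) ≤ ‖x‖₂²`.
* `SM.norm_le`: `‖Θ x‖² = ‖Θ(x)*Θ(x)‖ ≤ ‖Θ(x* x)‖ ≤ ‖x‖² ‖Θ 1‖ ≤ ‖x‖²` (order, norms of positive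
  elements are monotone: `CStarAlgebra.norm_le_norm_of_nonneg_of_le`).
* `SM.cs`: `(x, y) ↦ τ(x* Θ(y))` is a positive semidefinite sesquilinear form: hermitian since
  `conj τ(x* Θ y) = τ(Θ(y)* x) = τ(Θ(y*) x) = τ(y* Θ(x))`; Cauchy-Schwarz
  (build a `PreInnerProductSpace.Core` as in `trCore`, `InnerProductSpace.Core.norm_inner_le_norm`).
* `SM.rt_le`: `Re τ(x* Θ x) ≤ ‖x‖₂ ‖Θ x‖₂ ≤ ‖x‖₂²`.
* `SM.two_sq_le`: `N = ‖Θ x‖₂²`; `N² = τ(Θ(x)* Θ(x))² ≤ ⟨ΘΘx,Θx⟩ ⟨Θx,x⟩ ≤ N ⟨Θx,x⟩` (`cs`, `rt_le`).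
* `SM.q_mul`, `mul_q`, `apply_q`: from `supp` and `q * q = q`.
* `SM.of_one`: a map with `Θ(1) ≤ 1`.
-/

open scoped InnerProductSpace ComplexOrder

namespace Pool.Agent.PTH

open TrAlg

section cp

variable {A : Type*} [CStarAlgebra A] [PartialOrder A] [StarOrderedRing A] {Θ : A →ₗ[ℂ] A}

theorem CP.nonneg (h : CP Θ) {x : A} (hx : 0 ≤ x) : 0 ≤ Θ x := CP.map_nonneg h hx

theorem CP.mono (h : CP Θ) {x y : A} (hx : x ≤ y) : Θ x ≤ Θ y := by
  have h1 := CP.map_nonneg h (sub_nonneg.2 hx)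
  rw [map_sub] at h1
  exact sub_nonneg.1 h1

theorem CP.fintype (h : CP Θ) {ι : Type*} [Fintype ι] (x y : ι → A) :
    0 ≤ ∑ i, ∑ j, star (y i) * Θ (star (x i) * x j) * y j := by
  have e := Fintype.equivFin ι
  have h1 := h (Fintype.card ι) (fun i => x (e.symm i)) (fun i => y (e.symm i))
  refine h1.trans_eq ?_
  rw [← Equiv.sum_comp e.symm (fun i => ∑ j, star (y i) * Θ (star (x i) * x j) * y j)]
  refine Finset.sum_congr rfl fun i _ => ?_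
  exact Equiv.sum_comp e.symm
    (fun j => star (y (e.symm i)) * Θ (star (x (e.symm i)) * x j) * y j)

end cp

namespace SM

variable {A : Type*} [CStarAlgebra A] [PartialOrder A] [StarOrderedRing A] [TracialVN A]
  {Θ : A →ₗ[ℂ] A} {q : A}

theorem of_one (h1 : CP Θ) (h2 : Symm Θ) (h3 : Pos2 Θ) (h4 : Θ 1 ≤ 1) : SM 1 Θ where
  cp := h1
  symm := h2
  pos2 := h3
  supp := fun x => by rw [one_mul, mul_one, one_mul, mul_one]
  le := h4

theorem one_nonneg (h : SM q Θ) : 0 ≤ Θ 1 := CP.map_nonneg h.cp zero_le_one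

theorem one_le (h : SM q Θ) (hq : Prj q) : Θ 1 ≤ 1 := h.le.trans (proj_le_one hq)

theorem rt_one_le (h : SM q Θ) : rt (Θ 1) ≤ rt q := rt_mono h.le

theorem tau_apply (h : SM q Θ) (x : A) : tau (Θ x) = tau (x * Θ 1) := by
  have h1 := h.symm x 1
  rwa [mul_one] at h1

theorem q_mul (h : SM q Θ) (hq : Prj q) (x : A) : q * Θ x = Θ x := by
  rw [h.supp x, ← mul_assoc, ← mul_assoc, hq.2]

theorem mul_q (h : SM q Θ) (hq : Prj q) (x : A) : Θ x * q = Θ x := by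
  rw [h.supp x, mul_assoc, hq.2]

theorem apply_q (h : SM q Θ) (hq : Prj q) (x : A) : Θ (q * x * q) = Θ x := by
  have e : q * (q * x * q) * q = q * x * q := by
    calc q * (q * x * q) * q = (q * q) * x * (q * q) := by noncomm_ring
      _ = _ := by rw [hq.2]
  rw [h.supp (q * x * q), e, ← h.supp x]

/-- Kadison-Schwarz. -/
theorem ks (h : SM q Θ) (hq : Prj q) (x : A) : star (Θ x) * Θ x ≤ Θ (star x * x) := by
  have h1 := h.cp 2 ![1, x] ![-Θ x, 1]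
  simp only [Fin.sum_univ_two, Matrix.cons_val_zero, Matrix.cons_val_one, star_one, one_mul,
    mul_one, star_neg, CP.map_star h.cp] at h1
  have hs : star (Θ 1) = Θ 1 := (IsSelfAdjoint.of_nonneg (SM.one_nonneg h)).star_eq
  rw [hs] at h1
  have h2 : 0 ≤ star (Θ x) * (1 - Θ 1) * Θ x :=
    star_left_conjugate_nonneg (sub_nonneg.2 (SM.one_le h hq)) (Θ x)
  have h3 := add_nonneg h1 h2
  rw [← sub_nonneg]
  refine h3.trans_eq ?_
  noncomm_ring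

theorem two_le (h : SM q Θ) (hq : Prj q) (x : A) : two (Θ x) ≤ two x := by
  have h1 : two (Θ x) ^ 2 ≤ two x ^ 2 := by
    rw [two_sq_rt, two_sq_rt]
    refine (rt_mono (SM.ks h hq x)).trans ?_
    have h2 : rt (Θ (star x * x)) = rt ((star x * x) * Θ 1) := by
      unfold rt
      rw [SM.tau_apply h]
    rw [h2]
    have h3 := rt_mul_mono (star_mul_self_nonneg x) (SM.one_le h hq)
    rwa [mul_one] at h3
  exact (pow_le_pow_iff_left₀ (two_nonneg _) (two_nonneg _) two_ne_zero).1 h1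

theorem norm_le (h : SM q Θ) (hq : Prj q) (x : A) : ‖Θ x‖ ≤ ‖x‖ := by
  have h1 : ‖Θ x‖ ^ 2 ≤ ‖x‖ ^ 2 := by
    have e1 : ‖Θ x‖ ^ 2 = ‖star (Θ x) * Θ x‖ := by
      rw [CStarRing.norm_star_mul_self, sq]
    have e2 : ‖star (Θ x) * Θ x‖ ≤ ‖Θ (star x * x)‖ :=
      CStarAlgebra.norm_le_norm_of_nonneg_of_le (star_mul_self_nonneg _) (SM.ks h hq x)
    have e3 : Θ (star x * x) ≤ (‖x‖ ^ 2) • (1 : A) := by
      have h3 := CP.mono h.cp (le_norm_smul_one (IsSelfAdjoint.star_mul_self x))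
      have h4 : Θ (‖star x * x‖ • (1 : A)) = ‖x‖ ^ 2 • Θ 1 := by
        rw [CStarRing.norm_star_mul_self, ← sq, ← Complex.coe_smul, map_smul, Complex.coe_smul]
      rw [h4] at h3
      refine h3.trans ?_
      exact smul_le_smul_of_nonneg_left (SM.one_le h hq) (by positivity)
    have e4 : ‖Θ (star x * x)‖ ≤ ‖(‖x‖ ^ 2) • (1 : A)‖ :=
      CStarAlgebra.norm_le_norm_of_nonneg_of_le (CP.map_nonneg h.cp (star_mul_self_nonneg x)) e3
    have e5 : ‖(‖x‖ ^ 2) • (1 : A)‖ ≤ ‖x‖ ^ 2 := by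
      rw [norm_smul, Real.norm_of_nonneg (by positivity)]
      exact mul_le_of_le_one_right (by positivity) norm_one_le'
    rw [e1]
    exact e2.trans (e4.trans e5)
  exact (pow_le_pow_iff_left₀ (norm_nonneg _) (norm_nonneg _) two_ne_zero).1 h1

/-- The semi-inner product `τ(x* Θ(y))`. -/
@[reducible] private noncomputable def thCore (h : SM q Θ) : PreInnerProductSpace.Core ℂ A where
  inner x y := tau (star x * Θ y)
  conj_inner_symm x y := by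
    change star (tau (star y * Θ x)) = tau (star x * Θ y)
    rw [← tau_star, star_mul, star_star, ← CP.map_star h.cp]
    exact h.symm (star x) y
  re_inner_nonneg x := h.pos2 x
  add_left x y z := by rw [star_add, add_mul, map_add]
  smul_left x y r := by
    rw [star_smul, smul_mul_assoc, map_smul]; rfl

/-- Cauchy-Schwarz for `⟨Θ x, y⟩`. -/
theorem cs (h : SM q Θ) (x y : A) :
    ‖tau (star x * Θ y)‖ ^ 2 ≤ rt (star x * Θ x) * rt (star y * Θ y) := by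
  let _ : PreInnerProductSpace.Core ℂ A := thCore h
  have h1 := InnerProductSpace.Core.norm_inner_le_norm (𝕜 := ℂ) x y
  have h2 : ‖tau (star x * Θ y)‖ ≤
      Real.sqrt (rt (star x * Θ x)) * Real.sqrt (rt (star y * Θ y)) := h1
  have h3 := pow_le_pow_left₀ (norm_nonneg _) h2 2
  rwa [mul_pow, Real.sq_sqrt (h.pos2 x), Real.sq_sqrt (h.pos2 y)] at h3

theorem rt_le (h : SM q Θ) (hq : Prj q) (x : A) : rt (star x * Θ x) ≤ two x ^ 2 := by
  have h1 := (le_abs_self _).trans (abs_rt_star_mul_le x (Θ x))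
  have h2 := SM.two_le h hq x
  have h3 := two_nonneg x
  nlinarith

theorem two_sq_le (h : SM q Θ) (hq : Prj q) (x : A) : two (Θ x) ^ 2 ≤ rt (star x * Θ x) := by
  have h1 := SM.cs h (Θ x) x
  have h2 := SM.rt_le h hq (Θ x)
  have h3 : ‖tau (star (Θ x) * Θ x)‖ = two (Θ x) ^ 2 := by
    rw [tau_eq, Complex.norm_real, Real.norm_of_nonneg (by positivity)]
  rw [h3] at h1
  have hR : 0 ≤ rt (star x * Θ x) := h.pos2 x
  have hN : 0 ≤ two (Θ x) ^ 2 := by positivity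
  have h4 : (two (Θ x) ^ 2) ^ 2 ≤ two (Θ x) ^ 2 * rt (star x * Θ x) :=
    h1.trans (mul_le_mul_of_nonneg_right h2 hR)
  rcases hN.eq_or_lt with h0 | h0
  · rw [← h0]
    exact hR
  · have h5 : two (Θ x) ^ 2 * two (Θ x) ^ 2 ≤ two (Θ x) ^ 2 * rt (star x * Θ x) := by
      rw [← sq]
      exact h4
    exact le_of_mul_le_mul_left h5 h0

end SM

end Pool.Agent.PTH
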