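import Pool.Agent.PTH.CcM

/-!
# PTH / CcMbx: factorisation of positive matrices over a C*-algebra, composition of CP maps,
the value at `1` of the correlation map (proofs in the header of CcMb)
-/

open scoped InnerProductSpace ComplexOrder

set_option linter.unusedSectionVars false

namespace Pool.Agent.PTH

open TrAlg

section cp

variable {A : Type*} [CStarAlgebra A] [PartialOrder A] [StarOrderedRing A] {Θ Φ : A →ₗ[ℂ] A}

private noncomputable def bf {n : ℕ} (P : Fin n → Fin n → A) (y z : Fin n → A) : A :=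
  ∑ i, ∑ j, star (y i) * P i j * z j

private theorem bf_add_left {n : ℕ} (P : Fin n → Fin n → A) (x y z : Fin n → A) :
    bf P (x + y) z = bf P x z + bf P y z := by
  unfold bf
  rw [← Finset.sum_add_distrib]
  refine Finset.sum_congr rfl fun i _ => ?_
  rw [← Finset.sum_add_distrib]
  refine Finset.sum_congr rfl fun j _ => ?_
  rw [Pi.add_apply, star_add, add_mul, add_mul]

private theorem bf_add_right {n : ℕ} (P : Fin n → Fin n → A) (x y z : Fin n → A) :
    bf P z (x + y) = bf P z x + bf P z y := by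
  unfold bf
  rw [← Finset.sum_add_distrib]
  refine Finset.sum_congr rfl fun i _ => ?_
  rw [← Finset.sum_add_distrib]
  refine Finset.sum_congr rfl fun j _ => ?_
  rw [Pi.add_apply, mul_add]

private theorem bf_smul_left {n : ℕ} (P : Fin n → Fin n → A) (c : ℂ) (y z : Fin n → A) :
    bf P (c • y) z = star c • bf P y z := by
  unfold bf
  rw [Finset.smul_sum]
  refine Finset.sum_congr rfl fun i _ => ?_
  rw [Finset.smul_sum]
  refine Finset.sum_congr rfl fun j _ => ?_
  rw [Pi.smul_apply, star_smul, smul_mul_assoc, smul_mul_assoc]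

private theorem bf_smul_right {n : ℕ} (P : Fin n → Fin n → A) (c : ℂ) (y z : Fin n → A) :
    bf P y (c • z) = c • bf P y z := by
  unfold bf
  rw [Finset.smul_sum]
  refine Finset.sum_congr rfl fun i _ => ?_
  rw [Finset.smul_sum]
  refine Finset.sum_congr rfl fun j _ => ?_
  rw [Pi.smul_apply, mul_smul_comm]

private theorem bf_herm {n : ℕ} (P : Fin n → Fin n → A)
    (h : ∀ y : Fin n → A, 0 ≤ bf P y y) (y z : Fin n → A) :
    star (bf P y z) = bf P z y := by
  have hsa : ∀ y, star (bf P y y) = bf P y y := fun y => (IsSelfAdjoint.of_nonneg (h y)).star_eq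
  have h1 := hsa (y + z)
  have h2 := hsa (y + Complex.I • z)
  rw [bf_add_left, bf_add_right, bf_add_right, star_add, star_add, star_add, hsa y, hsa z] at h1
  rw [bf_add_left, bf_add_right, bf_add_right, star_add, star_add, star_add, hsa y,
    hsa (Complex.I • z), bf_smul_left, bf_smul_right] at h2
  have h1' : star (bf P y z) + star (bf P z y) = bf P y z + bf P z y := by
    have : (bf P y y + star (bf P y z) + (star (bf P z y) + bf P z z)) -
      (bf P y y + bf P y z + (bf P z y + bf P z z)) = 0 := sub_eq_zero.2 h1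
    have e : (bf P y y + star (bf P y z) + (star (bf P z y) + bf P z z)) -
      (bf P y y + bf P y z + (bf P z y + bf P z z)) =
      (star (bf P y z) + star (bf P z y)) - (bf P y z + bf P z y) := by abel
    rw [e] at this
    exact sub_eq_zero.1 this
  have h2' : star (Complex.I • bf P y z) + star (star Complex.I • bf P z y) =
      Complex.I • bf P y z + star Complex.I • bf P z y := by
    have := sub_eq_zero.2 h2
    have e : (bf P y y + star (Complex.I • bf P y z) +
        (star (star Complex.I • bf P z y) + bf P (Complex.I • z) (Complex.I • z))) -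
      (bf P y y + Complex.I • bf P y z + (star Complex.I • bf P z y +
        bf P (Complex.I • z) (Complex.I • z))) =
      (star (Complex.I • bf P y z) + star (star Complex.I • bf P z y)) -
        (Complex.I • bf P y z + star Complex.I • bf P z y) := by abel
    rw [e] at this
    exact sub_eq_zero.1 this
  have hI : star Complex.I = -Complex.I := Complex.conj_I
  rw [star_smul, star_smul, star_star, hI] at h2'
  have h3 : star (bf P z y) - star (bf P y z) = bf P y z - bf P z y := by
    have h4 : Complex.I • (star (bf P z y) - star (bf P y z)) =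
        Complex.I • (bf P y z - bf P z y) := by
      rw [smul_sub, smul_sub]
      rw [neg_smul, neg_smul] at h2'
      rw [sub_eq_add_neg, add_comm, h2', sub_eq_add_neg]
    have h5 := congrArg (fun w => (-Complex.I) • w) h4
    simp only [smul_smul, neg_mul, Complex.I_mul_I, neg_neg, one_smul] at h5
    exact h5
  have h6 : (2 : ℂ) • star (bf P y z) = (2 : ℂ) • bf P z y := by
    rw [two_smul, two_smul]
    have e1 : star (bf P y z) + star (bf P y z) =
        (star (bf P y z) + star (bf P z y)) - (star (bf P z y) - star (bf P y z)) := by abel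
    rw [e1, h1', h3]
    abel
  exact (smul_right_injective A (two_ne_zero : (2 : ℂ) ≠ 0)) h6

private theorem entry_herm {n : ℕ} (P : Fin n → Fin n → A)
    (h : ∀ y : Fin n → A, 0 ≤ bf P y y) (i j : Fin n) : star (P i j) = P j i := by
  have h1 := bf_herm P h (Pi.single i 1) (Pi.single j 1)
  have e : ∀ i j : Fin n, bf P (Pi.single i 1) (Pi.single j 1) = P i j := by
    intro i j
    unfold bf
    rw [Finset.sum_eq_single i, Finset.sum_eq_single j]
    · rw [Pi.single_eq_same, Pi.single_eq_same, star_one, one_mul, mul_one]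
    · intro b _ hb
      rw [Pi.single_eq_of_ne hb, mul_zero]
    · intro hj; exact absurd (Finset.mem_univ j) hj
    · intro b _ hb
      refine Finset.sum_eq_zero fun c _ => ?_
      rw [Pi.single_eq_of_ne hb, star_zero, zero_mul, zero_mul]
    · intro hi; exact absurd (Finset.mem_univ i) hi
  rwa [e, e] at h1

/-- The decomposition in a general C*-algebra. -/
private theorem gen_dec {B : Type*} [CStarAlgebra B] {M : B} (hsa : IsSelfAdjoint M) :
    ∃ Z N R : B, star N = N ∧ M = star Z * Z - N ∧ N * M * N = -(star R * R) ∧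
      (R = 0 → N = 0) := by
  let _ : PartialOrder B := CStarAlgebra.spectralOrder B
  let _ : StarOrderedRing B := CStarAlgebra.spectralOrderedRing B
  have hn0 : 0 ≤ M⁻ := CFC.negPart_nonneg M
  have hnsa : star M⁻ = M⁻ := (IsSelfAdjoint.of_nonneg hn0).star_eq
  have h2 : M = M⁺ - M⁻ := (CFC.posPart_sub_negPart M hsa).symm
  have hcube : M⁻ * M * M⁻ = -(M⁻ * M⁻ * M⁻) := by
    have h1 : M⁻ * M⁺ = 0 := CFC.negPart_mul_posPart M
    conv_lhs =>
      enter [1, 2]
      rw [h2]
    rw [mul_sub, h1, zero_sub, neg_mul]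
  obtain ⟨R, hR⟩ := CStarAlgebra.nonneg_iff_eq_star_mul_self.1 hn0
  obtain ⟨Z, hZ⟩ := CStarAlgebra.nonneg_iff_eq_star_mul_self.1 (CFC.posPart_nonneg M)
  refine ⟨Z, M⁻, R * M⁻, hnsa, by rw [← hZ]; exact h2, ?_, ?_⟩
  · rw [hcube, star_mul, hnsa]
    congr 1
    have e : M⁻ * star R * (R * M⁻) = M⁻ * (star R * R) * M⁻ := by noncomm_ring
    rw [e, ← hR]
  · intro h
    have h3 : M⁻ * M⁻ = 0 := by
      have e : M⁻ * M⁻ = star R * (R * M⁻) := by rw [← mul_assoc, ← hR]
      rw [e, h, mul_zero]
    have h4 : star M⁻ * M⁻ = 0 := by rw [hnsa]; exact h3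
    exact CStarRing.star_mul_self_eq_zero_iff _ |>.1 h4

/-- STEP 1. -/
theorem exists_factor (n : ℕ) (P : Fin n → Fin n → A)
    (h : ∀ y : Fin n → A, 0 ≤ ∑ i, ∑ j, star (y i) * P i j * y j) :
    ∃ Z : Fin n → Fin n → A, ∀ i j, P i j = ∑ k, star (Z k i) * Z k j := by
  have h' : ∀ y : Fin n → A, 0 ≤ bf P y y := h
  set M : CStarMatrix (Fin n) (Fin n) A := CStarMatrix.ofMatrix P with hM
  have hsa : IsSelfAdjoint M := by
    change star M = M
    rw [← CStarMatrix.ext_iff]
    intro i j
    change star (P j i) = P i j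
    exact entry_herm P h' j i
  obtain ⟨Z, N, R, hN, hMe, hNMN, hR0⟩ := gen_dec hsa
  have hNe : ∀ i j, star (N i j) = N j i := by
    intro i j
    have := congrArg (fun X : CStarMatrix (Fin n) (Fin n) A => X j i) hN
    exact this
  have hR : R = 0 := by
    rw [← CStarMatrix.ext_iff]
    intro a k
    have h1 : (N * M * N) k k = bf P (fun i => N i k) (fun i => N i k) := by
      rw [CStarMatrix.mul_apply]
      unfold bf
      rw [Finset.sum_comm]
      refine Finset.sum_congr rfl fun j _ => ?_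
      rw [CStarMatrix.mul_apply, Finset.sum_mul]
      refine Finset.sum_congr rfl fun i _ => ?_
      rw [hNe i k]
      rfl
    have h2 : (star R * R) k k = ∑ i, star (R i k) * R i k := by
      rw [CStarMatrix.mul_apply]
      rfl
    have h3 := h' (fun i => N i k)
    rw [← h1, hNMN] at h3
    have h4 : (-(star R * R)) k k = -(∑ i, star (R i k) * R i k) := by
      rw [← h2]
      rfl
    rw [h4, Left.nonneg_neg_iff] at h3
    have h5 : star (R a k) * R a k ≤ 0 :=
      (Finset.single_le_sum (f := fun i => star (R i k) * R i k)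
        (fun i _ => star_mul_self_nonneg _) (Finset.mem_univ a)).trans h3
    have h6 : star (R a k) * R a k = 0 := le_antisymm h5 (star_mul_self_nonneg _)
    exact CStarRing.star_mul_self_eq_zero_iff _ |>.1 h6
  have hN0 := hR0 hR
  refine ⟨fun k i => Z k i, fun i j => ?_⟩
  rw [hN0, sub_zero] at hMe
  have h7 : M i j = (star Z * Z) i j := by rw [← hMe]
  rw [CStarMatrix.mul_apply] at h7
  exact h7

theorem CP.comp (h : CP Θ) (h' : CP Φ) : CP (Θ ∘ₗ Φ) := by
  intro n x y
  obtain ⟨Z, hZ⟩ := exists_factor n (fun i j => Φ (star (x i) * x j)) (fun y => h' n x y)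
  have e : ∑ i, ∑ j, star (y i) * (Θ ∘ₗ Φ) (star (x i) * x j) * y j =
      ∑ k, ∑ i, ∑ j, star (y i) * Θ (star (Z k i) * Z k j) * y j := by
    have e1 : ∀ i j, star (y i) * (Θ ∘ₗ Φ) (star (x i) * x j) * y j =
        ∑ k, star (y i) * Θ (star (Z k i) * Z k j) * y j := by
      intro i j
      rw [LinearMap.comp_apply, hZ i j, map_sum, Finset.mul_sum, Finset.sum_mul]
    simp only [e1]
    have e2 : ∀ i, ∑ j, ∑ k, star (y i) * Θ (star (Z k i) * Z k j) * y j =
        ∑ k, ∑ j, star (y i) * Θ (star (Z k i) * Z k j) * y j := fun i => Finset.sum_comm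
    simp only [e2]
    exact Finset.sum_comm
  rw [e]
  exact Finset.sum_nonneg fun k _ => h n (Z k) y

theorem CP.cj (h : CP Θ) (c : A) : CP (cjM c Θ) := by
  intro n x y
  have := h n (fun i => x i * c) (fun i => star c * y i)
  refine this.trans_eq ?_
  refine Finset.sum_congr rfl fun i _ => Finset.sum_congr rfl fun j _ => ?_
  rw [cjM_apply, star_mul, star_mul, star_star]
  simp only [mul_assoc]

theorem CP.corr (h : CP Θ) (W : Wd A) : CP (corrM W Θ) := by
  intro n x y
  have h1 := h.fintype (ι := W.κ × Fin n) (fun w => x w.2 * W.c w.1)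
    (fun w => ((W.q w.1 : ℝ) : ℂ) • (star (W.c w.1) * y w.2))
  refine h1.trans_eq ?_
  rw [Fintype.sum_prod_type, Finset.sum_comm]
  refine Finset.sum_congr rfl fun i _ => ?_
  have e : ∀ w, ∑ v : W.κ × Fin n, star (((W.q w : ℝ) : ℂ) • (star (W.c w) * y i)) *
      Θ (star (x i * W.c w) * (x v.2 * W.c v.1)) * (((W.q v.1 : ℝ) : ℂ) • (star (W.c v.1) * y v.2)) =
      ∑ j, ∑ v, ((W.q w * W.q v : ℝ) : ℂ) • (star (y i) * (W.c w *
        Θ (star (W.c w) * (star (x i) * x j) * W.c v) * star (W.c v)) * y j) := by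
    intro w
    rw [Fintype.sum_prod_type, Finset.sum_comm]
    refine Finset.sum_congr rfl fun j _ => Finset.sum_congr rfl fun v _ => ?_
    rw [star_smul, star_mul, star_star, star_mul, smul_mul_assoc, smul_mul_assoc, mul_smul_comm,
      smul_smul, Complex.star_def, Complex.conj_ofReal, ← Complex.ofReal_mul]
    simp only [mul_assoc]
  simp only [e]
  rw [Finset.sum_comm]
  refine Finset.sum_congr rfl fun j _ => ?_
  change _ = star (y i) * (∑ w, ∑ w', ((W.q w * W.q w' : ℝ) : ℂ) •
    (W.c w * Θ (star (W.c w) * (star (x i) * x j) * W.c w') * star (W.c w'))) * y j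
  rw [Finset.mul_sum, Finset.sum_mul]
  refine Finset.sum_congr rfl fun w _ => ?_
  rw [Finset.mul_sum, Finset.sum_mul]
  refine Finset.sum_congr rfl fun v _ => ?_
  rw [mul_smul_comm, smul_mul_assoc]

/-- `S(w,w') = c_w Θ(c_w* c_w') c_w'*`. -/
private noncomputable def kS (Θ : A →ₗ[ℂ] A) (W : Wd A) (w w' : W.κ) : A :=
  W.c w * Θ (star (W.c w) * W.c w') * star (W.c w')

private theorem kS_ineq (h : CP Θ) (W : Wd A) (w w' : W.κ) :
    0 ≤ kS Θ W w w + kS Θ W w' w' - kS Θ W w w' - kS Θ W w' w := by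
  have h1 := h 2 ![W.c w, W.c w'] ![star (W.c w), -star (W.c w')]
  simp only [Fin.sum_univ_two, Matrix.cons_val_zero, Matrix.cons_val_one, star_neg, star_star] at h1
  refine h1.trans_eq ?_
  unfold kS
  noncomm_ring

theorem corrM_one_le (h : CP Θ) (W : Wd A) (q : A) (hq : Θ 1 ≤ q) :
    corrM W Θ 1 ≤ ∑ w, ((W.q w : ℝ) : ℂ) • (W.c w * q * star (W.c w)) := by
  have h1 : ∀ w w', 0 ≤ (W.q w * W.q w') • (kS Θ W w w + kS Θ W w' w' - kS Θ W w w' - kS Θ W w' w) :=
    fun w w' => smul_nonneg (mul_nonneg (W.q_nonneg _) (W.q_nonneg _)) (kS_ineq h W w w')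
  have h2 : 0 ≤ ∑ w, ∑ w', (W.q w * W.q w') •
      (kS Θ W w w + kS Θ W w' w' - kS Θ W w w' - kS Θ W w' w) :=
    Finset.sum_nonneg fun w _ => Finset.sum_nonneg fun w' _ => h1 w w'
  have e0 : corrM W Θ 1 = ∑ w, ∑ w', (W.q w * W.q w') • kS Θ W w w' := by
    change ∑ w, ∑ w', ((W.q w * W.q w' : ℝ) : ℂ) •
      (W.c w * Θ (star (W.c w) * 1 * W.c w') * star (W.c w')) = _
    refine Finset.sum_congr rfl fun w _ => Finset.sum_congr rfl fun w' _ => ?_
    rw [Complex.coe_smul, mul_one]
    rfl
  have e1 : ∑ w, ∑ w', (W.q w * W.q w') • kS Θ W w w = ∑ w, W.q w • kS Θ W w w := by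
    refine Finset.sum_congr rfl fun w _ => ?_
    rw [← Finset.sum_smul, ← Finset.mul_sum, W.q_sum, mul_one]
  have e2 : ∑ w, ∑ w', (W.q w * W.q w') • kS Θ W w' w' = ∑ w, W.q w • kS Θ W w w := by
    rw [Finset.sum_comm, ← e1]
    refine Finset.sum_congr rfl fun w _ => Finset.sum_congr rfl fun w' _ => ?_
    rw [mul_comm]
  have e3 : ∑ w, ∑ w', (W.q w * W.q w') • kS Θ W w' w = ∑ w, ∑ w', (W.q w * W.q w') • kS Θ W w w' := by
    rw [Finset.sum_comm]
    refine Finset.sum_congr rfl fun w _ => Finset.sum_congr rfl fun w' _ => ?_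
    rw [mul_comm]
  have e4 : ∑ w, ∑ w', (W.q w * W.q w') •
      (kS Θ W w w + kS Θ W w' w' - kS Θ W w w' - kS Θ W w' w) =
      (∑ w, W.q w • kS Θ W w w - corrM W Θ 1) + (∑ w, W.q w • kS Θ W w w - corrM W Θ 1) := by
    simp only [smul_sub, smul_add, Finset.sum_sub_distrib, Finset.sum_add_distrib]
    rw [e1, e2, e3, ← e0]
    abel
  rw [e4, ← two_smul ℝ] at h2
  have h3 : 0 ≤ ∑ w, W.q w • kS Θ W w w - corrM W Θ 1 := by
    have := smul_nonneg (by norm_num : (0 : ℝ) ≤ 1 / 2) h2
    rwa [smul_smul, one_div, inv_mul_cancel₀ (by norm_num), one_smul] at this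
  refine (sub_nonneg.1 h3).trans (Finset.sum_le_sum fun w _ => ?_)
  rw [Complex.coe_smul]
  refine smul_le_smul_of_nonneg_left ?_ (W.q_nonneg w)
  unfold kS
  have h4 : star (W.c w) * W.c w ≤ 1 := by
    have h5 : star (W.c w) * W.c w ≤ ‖star (W.c w) * W.c w‖ • (1 : A) := by
      have := IsSelfAdjoint.le_algebraMap_norm_self (IsSelfAdjoint.star_mul_self (W.c w))
      rwa [Algebra.algebraMap_eq_smul_one] at this
    have h6 : ‖star (W.c w) * W.c w‖ ≤ 1 := by
      rw [CStarRing.norm_star_mul_self]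
      have := W.norm_c w
      have h0 := norm_nonneg (W.c w)
      nlinarith
    refine h5.trans ?_
    have h7 := smul_le_smul_of_nonneg_right h6 (zero_le_one (α := A))
    rwa [one_smul] at h7
  have h8 : Θ (star (W.c w) * W.c w) ≤ q := (CP.mono h h4).trans hq
  have h9 := star_right_conjugate_le_conjugate h8 (W.c w)
  exact h9

end cp

end Pool.Agent.PTH
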