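import Pool.Agent.PTH.Tb8
import Pool.Agent.PTH.AvE

/-!
# Toolbox: the level lemmas (LL), (LW) for the energy

PROOFS.  Let `S = stp x δ m`, `e_k = spr x ((k+1)δ)`, `m δ ≥ ‖x‖`.
* `stp_en`: `e(e_k) = 1/2 ∑ p_i ‖u_i e_k u_i* - e_k‖₂²` (`en_eq_conj`), `u_i e_k u_i* =
  spr (u_i x u_i*) ((k+1)δ)` (`spr_conj`), `stp_level` for `u_i x u_i*` and `x`, `stp_conj`,
  `‖u_i S u_i* + S‖₂ ≤ 2‖S‖₂`, `sum_two_le`.
* `LL`: suppose `rt (y e) + c e(e) ≥ 0` for `e = spr x t`, all `t > 0`.  Multiply by `δ²(2k+1)` and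
  sum (`stp_sq`, `stp_en`): `rt (y S S) + c ‖S‖₂ (2 e(S))^{1/2} ≥ 0`; `δ → 0`: `S → x` in norm
  (`norm_stp_sub_le`), and both terms are continuous: `rt (y x x) + c ‖x‖₂ (2 e(x))^{1/2} ≥ 0`,
  contradiction.
* `LW`: if `e(x) = 0` then `x` commutes with all `u_i` (`p_i > 0`), so does `spr x t`
  (`spr_comm`), `e(spr x t) = 0`.  If `x = 0` also.  Otherwise `0 < ‖x‖₂ e(x)^{1/2}`; suppose
  `e(spr x t) > (4/(s'-s)) ‖x‖₂ (2e(x))^{1/2}` for all `t ∈ [s,s']`; restrict the sum of `stp_en` to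
  the `k` with `(k+1)δ ∈ [s,s']`: at least `(s'-s)/δ - 1` of them, each with
  `δ²(2k+1) ≥ δ(2s - δ) ≥ δ (1/2 - δ)`: `‖S‖₂ (2 e(S))^{1/2} ≥ ((s'-s) - δ)(1/2 - δ) (4/(s'-s))
  ‖x‖₂ (2 e(x))^{1/2}`; `δ → 0`: contradiction.
-/

open Filter Topology

namespace Pool.Agent.PTH

open TrAlg

variable {N : Type*} [CStarAlgebra N] [PartialOrder N] [StarOrderedRing N] [TracialVN N]

theorem stp_en (a : Avg N) {x : N} (hx : 0 ≤ x) {δ : ℝ} (hδ : 0 < δ) (m : ℕ) :
    ∑ k ∈ Finset.range m, (δ ^ 2 * (2 * (k : ℝ) + 1)) * a.en (spr x (((k : ℝ) + 1) * δ)) ≤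
      two (stp x δ m) * Real.sqrt (2 * a.en (stp x δ m)) := by
  have hxs : IsSelfAdjoint x := IsSelfAdjoint.of_nonneg hx
  have h1 : ∀ i, ∑ k ∈ Finset.range m, (δ ^ 2 * (2 * (k : ℝ) + 1)) *
      two (a.u i * spr x (((k : ℝ) + 1) * δ) * star (a.u i) - spr x (((k : ℝ) + 1) * δ)) ^ 2 ≤
      two (a.u i * stp x δ m * star (a.u i) - stp x δ m) * (2 * two (stp x δ m)) := by
    intro i
    have h2 := stp_level (a.u i * x * star (a.u i)) x hδ.le m
    rw [stp_conj (a.u_star_mul i) (a.u_mul_star i) hxs] at h2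
    have h3 : two (a.u i * stp x δ m * star (a.u i) + stp x δ m) ≤ 2 * two (stp x δ m) := by
      refine (two_add_le _ _).trans ?_
      rw [two_mul_unitary (u := star (a.u i)) (by rw [star_star]; exact a.u_star_mul i),
        two_unitary_mul (a.u_star_mul i)]
      linarith
    refine le_trans (le_of_eq ?_) (h2.trans (mul_le_mul_of_nonneg_left h3 (two_nonneg _)))
    refine Finset.sum_congr rfl fun k _ => ?_
    rw [spr_conj (a.u_star_mul i) (a.u_mul_star i) hxs]
  have h4 : ∑ k ∈ Finset.range m, (δ ^ 2 * (2 * (k : ℝ) + 1)) * a.en (spr x (((k : ℝ) + 1) * δ)) =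
      1 / 2 * ∑ i, a.p i * ∑ k ∈ Finset.range m, (δ ^ 2 * (2 * (k : ℝ) + 1)) *
      two (a.u i * spr x (((k : ℝ) + 1) * δ) * star (a.u i) - spr x (((k : ℝ) + 1) * δ)) ^ 2 := by
    have h5 : ∀ k ∈ Finset.range m, (δ ^ 2 * (2 * (k : ℝ) + 1)) * a.en (spr x (((k : ℝ) + 1) * δ)) =
        ∑ i, 1 / 2 * (a.p i * ((δ ^ 2 * (2 * (k : ℝ) + 1)) *
          two (a.u i * spr x (((k : ℝ) + 1) * δ) * star (a.u i) -
            spr x (((k : ℝ) + 1) * δ)) ^ 2)) := by
      intro k _
      rw [a.en_eq_conj, Finset.mul_sum, Finset.mul_sum]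
      refine Finset.sum_congr rfl fun i _ => ?_
      ring
    rw [Finset.sum_congr rfl h5, Finset.sum_comm, Finset.mul_sum]
    refine Finset.sum_congr rfl fun i _ => ?_
    rw [Finset.mul_sum, Finset.mul_sum]
  rw [h4]
  have h6 : ∑ i, a.p i * ∑ k ∈ Finset.range m, (δ ^ 2 * (2 * (k : ℝ) + 1)) *
      two (a.u i * spr x (((k : ℝ) + 1) * δ) * star (a.u i) - spr x (((k : ℝ) + 1) * δ)) ^ 2 ≤
      ∑ i, (2 * two (stp x δ m)) *
        (a.p i * two (a.u i * stp x δ m * star (a.u i) - stp x δ m)) := by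
    refine Finset.sum_le_sum fun i _ => ?_
    have h7 := mul_le_mul_of_nonneg_left (h1 i) (a.p_pos i).le
    refine h7.trans (le_of_eq ?_)
    ring
  rw [← Finset.mul_sum] at h6
  have h8 := mul_le_mul_of_nonneg_left (a.sum_two_le (stp x δ m))
    (mul_nonneg zero_le_two (two_nonneg (stp x δ m)))
  linarith

private theorem en_tendsto (a : Avg N) {x : ℕ → N} {y : N}
    (h : Tendsto (fun n => two (x n - y)) atTop (𝓝 0)) :
    Tendsto (fun n => a.en (x n)) atTop (𝓝 (a.en y)) := by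
  unfold Avg.en
  refine Tendsto.const_mul _ (tendsto_finsetSum _ fun i _ => ?_)
  refine Tendsto.const_mul _ ?_
  exact (lim_two (lim_sub (lim_mul_left (a.u i) h) (lim_mul_right (a.u i) h))).pow 2

private theorem stp_tendsto {x : N} (hx : 0 ≤ x) {M : ℕ} (hM : x ≤ (M : ℝ) • (1 : N)) :
    Tendsto (fun n : ℕ => two (stp x (1 / ((n : ℝ) + 1)) ((n + 1) * M) - x)) atTop (𝓝 0) := by
  refine lim_of_norm ?_
  refine squeeze_zero (fun _ => norm_nonneg _) (fun n => ?_) tendsto_one_div_add_atTop_nhds_zero_nat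
  refine norm_stp_sub_le hx (by positivity) ?_
  have h1 : (((n + 1) * M : ℕ) : ℝ) * (1 / ((n : ℝ) + 1)) = M := by
    have : (n : ℝ) + 1 ≠ 0 := by positivity
    push_cast
    field_simp
  rw [h1]
  exact hM

private theorem bd_tendsto (a : Avg N) {x : ℕ → N} {y : N}
    (h : Tendsto (fun n => two (x n - y)) atTop (𝓝 0)) :
    Tendsto (fun n => two (x n) * Real.sqrt (2 * a.en (x n))) atTop
      (𝓝 (two y * Real.sqrt (2 * a.en y))) :=
  (lim_two h).mul ((Real.continuous_sqrt.tendsto _).comp ((en_tendsto a h).const_mul 2))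

/-- LEVEL LEMMA (LL). -/
theorem LL (a : Avg N) {x y : N} (hx : 0 ≤ x) {c : ℝ} (hc : 0 ≤ c)
    (h : rt (y * (x * x)) + c * (two x * Real.sqrt (2 * a.en x)) < 0) :
    ∃ t > 0, rt (y * spr x t) + c * a.en (spr x t) < 0 := by
  by_contra hcon
  have hall : ∀ t > 0, 0 ≤ rt (y * spr x t) + c * a.en (spr x t) := by
    intro t ht
    by_contra h1
    exact hcon ⟨t, ht, not_le.1 h1⟩
  obtain ⟨M, hM⟩ := exists_nat_ge ‖x‖
  have hxM : x ≤ (M : ℝ) • (1 : N) :=
    (le_norm_smul_one (IsSelfAdjoint.of_nonneg hx)).trans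
      (smul_le_smul_of_nonneg_right hM zero_le_one)
  have hl := stp_tendsto hx hxM
  have hC : ∀ n : ℕ, ‖stp x (1 / ((n : ℝ) + 1)) ((n + 1) * M)‖ ≤ ‖x‖ := fun n =>
    CStarAlgebra.norm_le_norm_of_nonneg_of_le (stp_nonneg x (by positivity) _)
      (stp_le hx (by positivity) _)
  have h1 := (lim_rt_mul y (lim_mul hC hl hl)).add ((bd_tendsto a hl).const_mul c)
  have h2 : 0 ≤ rt (y * (x * x)) + c * (two x * Real.sqrt (2 * a.en x)) := by
    refine ge_of_tendsto' h1 fun n => ?_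
    have hd : (0 : ℝ) < 1 / ((n : ℝ) + 1) := by positivity
    have h3 := stp_en a hx hd ((n + 1) * M)
    have h4 := mul_le_mul_of_nonneg_left h3 hc
    have h5 : rt (y * (stp x (1 / ((n : ℝ) + 1)) ((n + 1) * M) *
        stp x (1 / ((n : ℝ) + 1)) ((n + 1) * M))) =
        ∑ k ∈ Finset.range ((n + 1) * M), ((1 / ((n : ℝ) + 1)) ^ 2 * (2 * (k : ℝ) + 1)) *
          rt (y * spr x (((k : ℝ) + 1) * (1 / ((n : ℝ) + 1)))) := by
      rw [stp_sq x hd.le, Finset.mul_sum, rt_sum]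
      refine Finset.sum_congr rfl fun k _ => ?_
      rw [mul_smul_comm, rt_smul]
    have h6 : 0 ≤ ∑ k ∈ Finset.range ((n + 1) * M), ((1 / ((n : ℝ) + 1)) ^ 2 * (2 * (k : ℝ) + 1)) *
        (rt (y * spr x (((k : ℝ) + 1) * (1 / ((n : ℝ) + 1)))) +
          c * a.en (spr x (((k : ℝ) + 1) * (1 / ((n : ℝ) + 1))))) :=
      Finset.sum_nonneg fun k _ => mul_nonneg (by positivity) (hall _ (by positivity))
    have h7 : ∑ k ∈ Finset.range ((n + 1) * M), ((1 / ((n : ℝ) + 1)) ^ 2 * (2 * (k : ℝ) + 1)) *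
        (rt (y * spr x (((k : ℝ) + 1) * (1 / ((n : ℝ) + 1)))) +
          c * a.en (spr x (((k : ℝ) + 1) * (1 / ((n : ℝ) + 1))))) =
        ∑ k ∈ Finset.range ((n + 1) * M), ((1 / ((n : ℝ) + 1)) ^ 2 * (2 * (k : ℝ) + 1)) *
          rt (y * spr x (((k : ℝ) + 1) * (1 / ((n : ℝ) + 1)))) +
        c * ∑ k ∈ Finset.range ((n + 1) * M), ((1 / ((n : ℝ) + 1)) ^ 2 * (2 * (k : ℝ) + 1)) *
          a.en (spr x (((k : ℝ) + 1) * (1 / ((n : ℝ) + 1)))) := by
      rw [Finset.mul_sum, ← Finset.sum_add_distrib]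
      refine Finset.sum_congr rfl fun k _ => ?_
      ring
    rw [h5]
    rw [h7] at h6
    linarith
  linarith

/-- In (LL) the projection is not zero. -/
theorem LL_ne_zero (a : Avg N) {x y : N} {c t : ℝ}
    (h : rt (y * spr x t) + c * a.en (spr x t) < 0) : spr x t ≠ 0 := by
  intro h0
  rw [h0, mul_zero, rt_zero, zero_add] at h
  have h1 : a.en (0 : N) = 0 := by
    unfold Avg.en
    simp [two_zero]
  rw [h1, mul_zero] at h
  exact lt_irrefl _ h

/-- LEVEL LEMMA in a window (LW). -/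
theorem LW (a : Avg N) {x : N} (hx : 0 ≤ x) (hx1 : x ≤ 1) {s s' : ℝ} (hs : 1 / 4 ≤ s)
    (hss : s < s') (hs' : s' ≤ 3 / 4) :
    ∃ t, s ≤ t ∧ t ≤ s' ∧
      a.en (spr x t) ≤ 4 / (s' - s) * (two x * Real.sqrt (2 * a.en x)) := by
  have hxs : IsSelfAdjoint x := IsSelfAdjoint.of_nonneg hx
  have hss0 : 0 < s' - s := sub_pos.2 hss
  have hB0 : 0 ≤ two x * Real.sqrt (2 * a.en x) := mul_nonneg (two_nonneg _) (Real.sqrt_nonneg _)
  rcases hB0.eq_or_lt with hB | hB
  · -- the degenerate case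
    refine ⟨s, le_rfl, hss.le, ?_⟩
    rw [← hB, mul_zero]
    have he : a.en (spr x s) = 0 := by
      rcases mul_eq_zero.1 hB.symm with h0 | h0
      · have hx0 : x = 0 := two_eq_zero h0
        have h1 : spr x s = 0 := by
          refine spr_eq_zero hxs ?_
          rw [hx0]
          exact smul_nonneg (by linarith) zero_le_one
        rw [h1]
        unfold Avg.en
        simp [two_zero]
      · have h1 : a.en x = 0 := by
          have h2 := (Real.sqrt_eq_zero (mul_nonneg zero_le_two (a.en_nonneg x))).1 h0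
          linarith
        have h3 : ∀ i, a.u i * x - x * a.u i = 0 := by
          unfold Avg.en at h1
          have h4 : ∑ i, a.p i * two (a.u i * x - x * a.u i) ^ 2 = 0 := by linarith
          have h5 := (Finset.sum_eq_zero_iff_of_nonneg fun i _ =>
            mul_nonneg (a.p_pos i).le (sq_nonneg _)).1 h4
          intro i
          have h6 := h5 i (Finset.mem_univ i)
          have h7 := (mul_eq_zero.1 h6).resolve_left (a.p_pos i).ne'
          exact two_eq_zero (pow_eq_zero_iff (two_ne_zero) |>.1 h7)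
        unfold Avg.en
        have h8 : ∀ i, a.p i * two (a.u i * spr x s - spr x s * a.u i) ^ 2 = 0 := by
          intro i
          have h9 : Commute x (a.u i) := (sub_eq_zero.1 (h3 i)).symm
          have h10 : Commute (spr x s) (a.u i) := spr_comm hxs h9 s
          have h11 : a.u i * spr x s - spr x s * a.u i = 0 := sub_eq_zero.2 h10.eq.symm
          rw [h11, two_zero]
          ring
        rw [Finset.sum_eq_zero fun i _ => h8 i, mul_zero]
    exact he.le
  · by_contra hcon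
    have hall : ∀ t, s ≤ t → t ≤ s' →
        4 / (s' - s) * (two x * Real.sqrt (2 * a.en x)) ≤ a.en (spr x t) := by
      intro t h1 h2
      by_contra h3
      exact hcon ⟨t, h1, h2, (not_le.1 h3).le⟩
    set B : ℝ := two x * Real.sqrt (2 * a.en x) with hBdef
    have hxM : x ≤ ((1 : ℕ) : ℝ) • (1 : N) := by
      rw [Nat.cast_one, one_smul]
      exact hx1
    have hl := stp_tendsto hx hxM
    have hlim := bd_tendsto a hl
    have hz : Tendsto (fun n : ℕ => 1 / ((n : ℝ) + 1)) atTop (𝓝 0) :=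
      tendsto_one_div_add_atTop_nhds_zero_nat
    have hlow : Tendsto (fun n : ℕ => ((s' - s) - 1 / ((n : ℝ) + 1)) * (1 / 2 - 1 / ((n : ℝ) + 1)) *
        (4 / (s' - s) * B)) atTop (𝓝 (((s' - s) - 0) * (1 / 2 - 0) * (4 / (s' - s) * B))) :=
      ((tendsto_const_nhds.sub hz).mul (tendsto_const_nhds.sub hz)).mul_const _
    have hev : ∀ᶠ n : ℕ in atTop, ((s' - s) - 1 / ((n : ℝ) + 1)) * (1 / 2 - 1 / ((n : ℝ) + 1)) *
        (4 / (s' - s) * B) ≤ two (stp x (1 / ((n : ℝ) + 1)) ((n + 1) * 1)) *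
          Real.sqrt (2 * a.en (stp x (1 / ((n : ℝ) + 1)) ((n + 1) * 1))) := by
      have hev1 : ∀ᶠ n : ℕ in atTop, 1 / ((n : ℝ) + 1) < s' - s := hz.eventually_lt_const hss0
      have hev2 : ∀ᶠ n : ℕ in atTop, 1 / ((n : ℝ) + 1) < 1 / 2 :=
        hz.eventually_lt_const (by norm_num)
      filter_upwards [hev1, hev2] with n hn1 hn2
      have hd : (0 : ℝ) < 1 / ((n : ℝ) + 1) := by positivity
      refine le_trans ?_ (stp_en a hx hd ((n + 1) * 1))
      rw [mul_one]
      have hn0 : (0 : ℝ) < (n : ℝ) + 1 := by positivity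
      set δ : ℝ := 1 / ((n : ℝ) + 1) with hδ
      have hδn : δ * ((n : ℝ) + 1) = 1 := by
        rw [hδ]
        field_simp
      set α : ℕ := ⌈s * ((n : ℝ) + 1)⌉₊ with hα
      set β : ℕ := ⌊s' * ((n : ℝ) + 1)⌋₊ with hβ
      have hs0 : 0 < s := by linarith
      have hα1 : s * ((n : ℝ) + 1) ≤ α := Nat.le_ceil _
      have hα2 : (α : ℝ) < s * ((n : ℝ) + 1) + 1 := Nat.ceil_lt_add_one (by positivity)
      have hs'0 : 0 < s' := by linarith
      have hβ1 : (β : ℝ) ≤ s' * ((n : ℝ) + 1) := Nat.floor_le (by positivity)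
      have hβ2 : s' * ((n : ℝ) + 1) < (β : ℝ) + 1 := Nat.lt_floor_add_one _
      have hαpos : 1 ≤ α := Nat.ceil_pos.2 (by positivity)
      have hβn : β ≤ n + 1 := by
        have h1 : (β : ℝ) ≤ ((n + 1 : ℕ) : ℝ) := by
          push_cast
          nlinarith
        exact_mod_cast h1
      have hsub : Finset.Ico (α - 1) β ⊆ Finset.range (n + 1) := by
        intro k hk
        rw [Finset.mem_Ico] at hk
        rw [Finset.mem_range]
        omega
      have hcard : (s' - s) * ((n : ℝ) + 1) - 1 ≤ ((Finset.Ico (α - 1) β).card : ℝ) := by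
        rw [Nat.card_Ico]
        have h1 : (β : ℝ) - ((α : ℝ) - 1) ≤ ((β - (α - 1) : ℕ) : ℝ) := by
          have h2 : (β : ℝ) ≤ ((β - (α - 1) : ℕ) : ℝ) + ((α - 1 : ℕ) : ℝ) := by
            exact_mod_cast (by omega : β ≤ β - (α - 1) + (α - 1))
          have h3 : ((α - 1 : ℕ) : ℝ) = (α : ℝ) - 1 := by
            push_cast [Nat.cast_sub hαpos]
            ring
          rw [h3] at h2
          linarith
        nlinarith
      refine le_trans ?_ (Finset.sum_le_sum_of_subset_of_nonneg hsub fun k _ _ =>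
        mul_nonneg (by positivity) (a.en_nonneg _))
      have hterm : ∀ k ∈ Finset.Ico (α - 1) β, δ * (1 / 2 - δ) * (4 / (s' - s) * B) ≤
          (δ ^ 2 * (2 * (k : ℝ) + 1)) * a.en (spr x (((k : ℝ) + 1) * δ)) := by
        intro k hk
        rw [Finset.mem_Ico] at hk
        have hk1 : (α : ℝ) ≤ (k : ℝ) + 1 := by
          have : α ≤ k + 1 := by omega
          exact_mod_cast this
        have hk2 : (k : ℝ) + 1 ≤ (β : ℝ) := by
          have : k + 1 ≤ β := by omega
          exact_mod_cast this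
        have ht1 : s ≤ ((k : ℝ) + 1) * δ := by
          have h1 : s * (δ * ((n : ℝ) + 1)) ≤ ((k : ℝ) + 1) * δ := by
            have h2 : s * ((n : ℝ) + 1) ≤ (k : ℝ) + 1 := hα1.trans hk1
            nlinarith
          rwa [hδn, mul_one] at h1
        have ht2 : ((k : ℝ) + 1) * δ ≤ s' := by
          have h1 : ((k : ℝ) + 1) * δ ≤ s' * (δ * ((n : ℝ) + 1)) := by
            have h2 : (k : ℝ) + 1 ≤ s' * ((n : ℝ) + 1) := hk2.trans hβ1
            nlinarith
          rwa [hδn, mul_one] at h1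
        have h3 := hall _ ht1 ht2
        have h4 : δ * (1 / 2 - δ) ≤ δ ^ 2 * (2 * (k : ℝ) + 1) := by
          have h5 : 1 / 2 - δ ≤ δ * (2 * (k : ℝ) + 1) := by
            have h6 : δ * (2 * (k : ℝ) + 1) = 2 * (((k : ℝ) + 1) * δ) - δ := by ring
            rw [h6]
            linarith
          have h7 := mul_le_mul_of_nonneg_left h5 hd.le
          refine h7.trans (le_of_eq ?_)
          ring
        exact mul_le_mul h4 h3 (by positivity) (by positivity)
      have hsum := Finset.card_nsmul_le_sum _ _ _ hterm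
      refine le_trans ?_ hsum
      rw [nsmul_eq_mul]
      have hY : 0 ≤ δ * (1 / 2 - δ) * (4 / (s' - s) * B) := by
        have : 0 < 1 / 2 - δ := by linarith
        positivity
      refine le_trans (le_of_eq ?_) (mul_le_mul_of_nonneg_right hcard hY)
      have h9 : ((s' - s) * ((n : ℝ) + 1) - 1) * δ = (s' - s) - δ := by
        have : ((s' - s) * ((n : ℝ) + 1) - 1) * δ = (s' - s) * (δ * ((n : ℝ) + 1)) - δ := by ring
        rw [this, hδn, mul_one]
      calc (s' - s - δ) * (1 / 2 - δ) * (4 / (s' - s) * B)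
          = (((s' - s) * ((n : ℝ) + 1) - 1) * δ) * (1 / 2 - δ) * (4 / (s' - s) * B) := by rw [h9]
        _ = ((s' - s) * ((n : ℝ) + 1) - 1) * (δ * (1 / 2 - δ) * (4 / (s' - s) * B)) := by ring
    have hfin := le_of_tendsto_of_tendsto hlow hlim hev
    have h10 : ((s' - s) - 0) * (1 / 2 - 0) * (4 / (s' - s) * B) = 2 * B := by
      have : s' - s ≠ 0 := hss0.ne'
      field_simp
      ring
    rw [h10] at hfin
    linarith

end Pool.Agent.PTH
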