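import Pool.Agent.PTH.CcRe
import Pool.Agent.PTH.Tb9

/-!
# PTH / CcRf: LEMMA R

`Sml a q Ψ s`: `(2e(q))^{1/2} + (2e(Ψ))^{1/2} ≤ s τ(q)^{1/2}`.
LEMMA R.  `SM q Ψ`, `q ≠ 0`, represented by `ξ`, `Sml a q Ψ s`, `0 ≤ s ≤ 1`, `D = τ(q) - τ(Ψ 1) ≤ τ(q)/10`.
There are `c` and a projection `0 ≠ q' ≤ q` with `q' c = c`, `‖c‖² ≤ 8`, `Ψ' = cjM c Ψ` in `SM q'`,
`τ(q') - τ(Ψ' 1) ≤ (22/35) D`, `τ(q) - τ(q') ≤ (8/7) D`, `Sml a q' Ψ' (2^18 √s)`.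

PROOF.  `C = 8`, `exists_sol`, `γ = 8m`, `b = sr x`.  `T = τ(q)^{1/2}`, `σ = (2e(Ψ))^{1/2}`,
`ρ = (2e(q))^{1/2}`, `σ + ρ ≤ sT`.
 (1) `X := (2e(x))^{1/2} ≤ 1024 (σ+ρ)` (`en_x`); `(2e(m))^{1/2} ≤ 65 X + 16σ + ρ ≤ 66576(σ+ρ)` (`en_m`);
     `(2e(γ))^{1/2} = 8 (2e(m))^{1/2} ≤ 2^20 sT` (`Avg.en_smul`).
 (2) `LW` (Tb9) for `0 ≤ γ ≤ 1` on `[9/20, 11/20]`: `t` with `e(e) ≤ 40 ‖γ‖₂ (2e(γ))^{1/2}
     ≤ 40 T 2^20 s T`, `e = 1_{γ>t}` (`‖γ‖₂² = τ(γ²) ≤ τ(γ) ≤ τ(q)` as `0 ≤ γ ≤ q ≤ 1`).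
     `(2e(e))^{1/2} ≤ 9159 √s T` (`80·2^20 ≤ 9159²`).
 (3) `q' = q - e`: `(2e(q'))^{1/2} ≤ ρ + (2e(e))^{1/2} ≤ 9160 √s T` (`s ≤ √s`; `Avg.sqrt_en_add_le`).
 (4) `c = q'b`: `(2e(c))^{1/2} ≤ √8 (9160 √s T) + (√8/2)(1024 sT) ≤ √8 · 9672 √s T` (`cut_en`);
     `‖c‖ ≤ √8` (`‖q'‖ ≤ 1`, `KC.sr_norm`).
 (5) `(2e(Ψ'))^{1/2} ≤ 2√8 (2e(c))^{1/2} + 8σ ≤ (16·9672 + 8) √s T = 154760 √s T` (`Rep.sqrt_en_cj_le`).
 (6) `τ(q') = τ(q) - τ(e) ≥ τ(q) - (8/7) D ≥ (62/70) τ(q)` (`cut_trace`), so `T ≤ 1.07 τ(q')^{1/2}`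
     and `(9160 + 154760)·1.07 ≤ 2^18`.
-/

open Filter Topology
open scoped InnerProductSpace ComplexOrder

universe u

namespace Pool.Agent.PTH

open TrAlg

/-- Normalised energy. -/
def Sml {A : Type*} [CStarAlgebra A] [TrAlg A] (a : Avg A) (q : A) (Ψ : A →ₗ[ℂ] A) (s : ℝ) :
    Prop :=
  Real.sqrt (2 * a.en q) + Real.sqrt (2 * enM a Ψ) ≤ s * Real.sqrt (rt q)

/-- LEMMA R. -/
theorem lemmaR {A : Type u} [CStarAlgebra A] [PartialOrder A] [StarOrderedRing A] [TracialVN A]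
    (a : Avg A) {q : A} {Ψ : A →ₗ[ℂ] A} (hq : Prj q) (h0 : q ≠ 0) (h : SM q Ψ)
    {B : Bim.{u} A} {ξ : B.H} (hr : Rep B ξ Ψ) {s : ℝ} (hs0 : 0 ≤ s) (hs1 : s ≤ 1)
    (hs : Sml a q Ψ s) (hD : rt q - rt (Ψ 1) ≤ rt q / 10) :
    ∃ c q' : A, Prj q' ∧ q' ≠ 0 ∧ q * q' = q' ∧ q' * c = c ∧ ‖c‖ ≤ Real.sqrt 8 ∧
      SM q' (cjM c Ψ) ∧ rt q' - rt (cjM c Ψ 1) ≤ 22 / 35 * (rt q - rt (Ψ 1)) ∧
      rt q - rt q' ≤ 8 / 7 * (rt q - rt (Ψ 1)) ∧
      Sml a q' (cjM c Ψ) (2 ^ 18 * Real.sqrt s) := by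
  have hC : (1 : ℝ) < 8 := by norm_num
  obtain ⟨x, m, hsol⟩ := exists_sol (C := 8) hC hq h
  have hγ0 : 0 ≤ (8 : ℝ) • m := smul_nonneg (by norm_num) hsol.m0
  have hγq : (8 : ℝ) • m ≤ q := hsol.m_le hC hq h
  have hγ1 : (8 : ℝ) • m ≤ 1 := hγq.trans (proj_le_one hq)
  have hqpos : 0 < rt q := rt_proj_pos hq h0
  have hS : Real.sqrt (2 * a.en q) + Real.sqrt (2 * enM a Ψ) ≤ s * Real.sqrt (rt q) := hs
  have hX := Sol.en_x a hC hq h hsol hr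
  have hM := Sol.en_m a hC hq h hsol hr
  set T : ℝ := Real.sqrt (rt q) with hT
  set σ : ℝ := Real.sqrt (2 * enM a Ψ) with hσ
  set ρ : ℝ := Real.sqrt (2 * a.en q) with hρ
  set X : ℝ := Real.sqrt (2 * a.en x) with hXd
  have hT0 : 0 < T := Real.sqrt_pos.2 hqpos
  have hTsq : T ^ 2 = rt q := Real.sq_sqrt hqpos.le
  have hσ0 : 0 ≤ σ := Real.sqrt_nonneg _
  have hρ0 : 0 ≤ ρ := Real.sqrt_nonneg _
  have hX' : X ≤ 1024 * (σ + ρ) := by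
    refine hX.trans (le_of_eq ?_)
    norm_num
  have hM' : Real.sqrt (2 * a.en m) ≤ 66576 * (σ + ρ) := by
    have h1 : Real.sqrt (2 * a.en m) ≤ 65 * X + 16 * σ + ρ := by
      refine hM.trans (le_of_eq ?_)
      norm_num
    linarith
  have hγen : Real.sqrt (2 * a.en ((8 : ℝ) • m)) ≤ 2 ^ 20 * (s * T) := by
    have h1 : a.en ((8 : ℝ) • m) = 64 * a.en m := by
      rw [← Complex.coe_smul, a.en_smul, Complex.norm_real]
      norm_num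
    have h2 : 2 * a.en ((8 : ℝ) • m) = 8 ^ 2 * (2 * a.en m) := by
      rw [h1]
      ring
    rw [h2, Real.sqrt_mul (by norm_num), Real.sqrt_sq (by norm_num)]
    have h3 : σ + ρ ≤ s * T := by linarith
    have h4 : 0 ≤ s * T := by positivity
    linarith
  obtain ⟨t, ht1, ht2, hten⟩ := LW a hγ0 hγ1 (s := 9 / 20) (s' := 11 / 20) (by norm_num)
    (by norm_num) (by norm_num)
  have ht0 : 0 < t := by linarith
  have htwo : two ((8 : ℝ) • m) ≤ T := by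
    refine Real.le_sqrt_of_sq_le ?_
    have h1 : ‖(8 : ℝ) • m‖ ≤ 1 :=
      norm_le_of_le_smul hγ0 zero_le_one (by rw [one_smul]; exact hγ1)
    have h2 := two_sq_le_of_norm_le hγ0 h1
    rw [one_mul] at h2
    exact h2.trans (rt_mono hγq)
  obtain ⟨hqe, hprj⟩ := Sol.cut_prj hC hq h hsol ht0
  have hSM := Sol.cut_SM hC hq h hsol ht0
  have htr := Sol.cut_trace hC hq h hsol ht0
  have hdef := Sol.cut_def hC hq h hsol ht1 ht2
  set e : A := spr ((8 : ℝ) • m) t with he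
  have hcen := Sol.cut_en a hC hsol hprj
  -- energies
  have hr0 : 0 ≤ Real.sqrt s := Real.sqrt_nonneg s
  have hrs : Real.sqrt s ^ 2 = s := Real.sq_sqrt hs0
  have hr1 : Real.sqrt s ≤ 1 := Real.sqrt_le_one.2 hs1
  have hsr : s ≤ Real.sqrt s := by nlinarith
  have hsT : s * T ≤ Real.sqrt s * T := mul_le_mul_of_nonneg_right hsr hT0.le
  have heen : Real.sqrt (2 * a.en e) ≤ 9159 * (Real.sqrt s * T) := by
    refine Real.sqrt_le_iff.2 ⟨by positivity, ?_⟩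
    have h1 : two ((8 : ℝ) • m) * Real.sqrt (2 * a.en ((8 : ℝ) • m)) ≤
        T * (2 ^ 20 * (s * T)) :=
      mul_le_mul htwo hγen (Real.sqrt_nonneg _) hT0.le
    have h2 : a.en e ≤ 40 * (T * (2 ^ 20 * (s * T))) := by
      refine hten.trans ?_
      have h3 : (4 : ℝ) / (11 / 20 - 9 / 20) = 40 := by norm_num
      rw [h3]
      linarith
    have h4 : (9159 * (Real.sqrt s * T)) ^ 2 = 83887281 * (s * T ^ 2) := by
      rw [mul_pow, mul_pow, hrs]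
      norm_num
    rw [h4]
    have h5 : 0 ≤ s * T ^ 2 := by positivity
    have h6 : 40 * (T * (2 ^ 20 * (s * T))) = 41943040 * (s * T ^ 2) := by ring
    rw [h6] at h2
    linarith
  have hq'en : Real.sqrt (2 * a.en (q - e)) ≤ 9160 * (Real.sqrt s * T) := by
    have h1 := CcRdx.en2_sub a q e
    have h2 : ρ ≤ s * T := by linarith
    linarith
  have hq'n : ‖q - e‖ ≤ 1 := norm_proj_le hprj
  have h80 : 0 ≤ Real.sqrt 8 := Real.sqrt_nonneg 8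
  have h8 : Real.sqrt 8 * Real.sqrt 8 = 8 := Real.mul_self_sqrt (by norm_num)
  have hcn : ‖(q - e) * sr x‖ ≤ Real.sqrt 8 := by
    refine (norm_mul_le _ _).trans ?_
    have h1 := hsol.kc.sr_norm hC.le
    calc ‖q - e‖ * ‖sr x‖ ≤ 1 * Real.sqrt 8 :=
          mul_le_mul hq'n h1 (norm_nonneg _) zero_le_one
      _ = Real.sqrt 8 := one_mul _
  have hcen' : Real.sqrt (2 * a.en ((q - e) * sr x)) ≤
      Real.sqrt 8 * (9672 * (Real.sqrt s * T)) := by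
    refine hcen.trans ?_
    have h1 : X ≤ 1024 * (Real.sqrt s * T) := by linarith
    have h2 := mul_le_mul_of_nonneg_left hq'en h80
    have h3 := mul_le_mul_of_nonneg_left h1 (div_nonneg h80 (by norm_num : (0 : ℝ) ≤ 2))
    refine (add_le_add h2 h3).trans (le_of_eq ?_)
    ring
  have hΨ' : Real.sqrt (2 * enM a (cjM ((q - e) * sr x) Ψ)) ≤ 154760 * (Real.sqrt s * T) := by
    have h1 := hr.sqrt_en_cj_le a h hq ((q - e) * sr x) (Real.sqrt 8) hcn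
    have h2 : 2 * Real.sqrt 8 * Real.sqrt (2 * a.en ((q - e) * sr x)) ≤
        2 * Real.sqrt 8 * (Real.sqrt 8 * (9672 * (Real.sqrt s * T))) :=
      mul_le_mul_of_nonneg_left hcen' (by positivity)
    have h3 : 2 * Real.sqrt 8 * (Real.sqrt 8 * (9672 * (Real.sqrt s * T))) =
        154752 * (Real.sqrt s * T) := by
      calc 2 * Real.sqrt 8 * (Real.sqrt 8 * (9672 * (Real.sqrt s * T)))
          = 2 * (Real.sqrt 8 * Real.sqrt 8) * (9672 * (Real.sqrt s * T)) := by ring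
        _ = 154752 * (Real.sqrt s * T) := by rw [h8]; ring
    have h4 : Real.sqrt 8 ^ 2 * σ = 8 * σ := by rw [sq, h8]
    have h5 : σ ≤ s * T := by linarith
    linarith
  -- traces
  have hrtq' : rt (q - e) = rt q - rt e := rt_sub q e
  have htr' : rt e ≤ 8 / 7 * (rt q - rt (Ψ 1)) := by
    refine htr.trans (le_of_eq ?_)
    norm_num
  have hlow : 62 / 70 * rt q ≤ rt (q - e) := by
    rw [hrtq']
    linarith
  have hpos' : 0 < rt (q - e) := by linarith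
  have hTq' : T ≤ 107 / 100 * Real.sqrt (rt (q - e)) := by
    have h1 : T ^ 2 ≤ (107 / 100 * Real.sqrt (rt (q - e))) ^ 2 := by
      rw [hTsq, mul_pow, Real.sq_sqrt hpos'.le]
      linarith
    exact (pow_le_pow_iff_left₀ hT0.le (by positivity) (by norm_num)).1 h1
  refine ⟨(q - e) * sr x, q - e, hprj, ?_, ?_, ?_, hcn, hSM, ?_, ?_, ?_⟩
  · intro h1
    rw [h1, rt_zero] at hpos'
    exact lt_irrefl _ hpos'
  · rw [mul_sub, hq.2, hqe]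
  · rw [← mul_assoc, hprj.2]
  · refine hdef.trans (le_of_eq ?_)
    norm_num
  · rw [hrtq']
    linarith
  · change Real.sqrt (2 * a.en (q - e)) + Real.sqrt (2 * enM a (cjM ((q - e) * sr x) Ψ)) ≤
      2 ^ 18 * Real.sqrt s * Real.sqrt (rt (q - e))
    have h1 : Real.sqrt s * T ≤ Real.sqrt s * (107 / 100 * Real.sqrt (rt (q - e))) :=
      mul_le_mul_of_nonneg_left hTq' hr0
    have h2 : 0 ≤ Real.sqrt s * Real.sqrt (rt (q - e)) := by positivity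
    have h3 : Real.sqrt s * (107 / 100 * Real.sqrt (rt (q - e))) =
        107 / 100 * (Real.sqrt s * Real.sqrt (rt (q - e))) := by ring
    have h4 : (2 : ℝ) ^ 18 * Real.sqrt s * Real.sqrt (rt (q - e)) =
        262144 * (Real.sqrt s * Real.sqrt (rt (q - e))) := by ring
    rw [h4]
    linarith

end Pool.Agent.PTH
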