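import Pool.Agent.PTH.DdHil
import Pool.Agent.PTH.CcI

/-!
# PTH / DdSm: smoothing under the hard gap (6.7)

`P = l(Y) r(Y)` is a self-adjoint idempotent of `B.H` (`inner_l`, `inner_r`, `l_r`), commuting factors.
Put `S = P T P` (as a continuous linear map `B.l Y * B.r Y * B.T a * (B.l Y * B.r Y)`): symmetric
(`Bim.T_symm`), `⟨ξ,Sξ⟩ = ⟨Pξ,TPξ⟩ ∈ [0, ‖ξ‖²]` (`Bim.T_pos`, `Bim.norm_T_le`, Cauchy-Schwarz, `‖Pξ‖ ≤ ‖ξ‖`).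
If `Pη = η` then `Sη = TYB B a Y η` and `P(Sη) = Sη`; so `(TYB B a Y ^ k) ξ = S^k ξ` (induction) and it is
fixed by `l Y`, `r Y`.  For `η = Pη`: `B.en a η = Re⟨η, η - Tη⟩ = Re⟨η, η - Sη⟩` (`Bim.en_eq`,
`⟨η,Tη⟩ = ⟨Pη,Tη⟩ = ⟨η,PTη⟩`).  `HG` for `η = S^jξ`: `ν en(η) ≤ ‖η - Sη‖² + e'‖η‖² ≤ ‖η-Sη‖² + e'‖ξ‖²`
(`hil_pow_norm_le`).  Apply `smooth_en`, `smooth_dist` with `E = e'‖ξ‖²`, and `hil_pow_sq_le`.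
-/

open Filter Topology
open scoped InnerProductSpace ComplexOrder

universe u

namespace Pool.Agent.PTH

namespace DdSmAux

variable {A : Type u} [CStarAlgebra A]

/-- The projection `ξ ↦ Y ξ Y`. -/
noncomputable def PP (B : Bim.{u} A) (Y : A) : B.H →L[ℂ] B.H := B.l Y * B.r Y

/-- The compression `P T P`. -/
noncomputable def SS (B : Bim.{u} A) (a : Avg A) (Y : A) : B.H →L[ℂ] B.H :=
  PP B Y * B.T a * PP B Y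

theorem PP_apply (B : Bim.{u} A) (Y : A) (ξ : B.H) : PP B Y ξ = B.l Y (B.r Y ξ) := rfl

theorem SS_apply (B : Bim.{u} A) (a : Avg A) (Y : A) (ξ : B.H) :
    SS B a Y ξ = PP B Y (B.T a (PP B Y ξ)) := rfl

theorem TYB_apply (B : Bim.{u} A) (a : Avg A) (Y : A) (ξ : B.H) :
    TYB B a Y ξ = PP B Y (B.T a ξ) := rfl

theorem PP_symm (B : Bim.{u} A) {Y : A} (hY : Prj Y) (ξ η : B.H) :
    ⟪PP B Y ξ, η⟫_ℂ = ⟪ξ, PP B Y η⟫_ℂ := by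
  rw [PP_apply, PP_apply, Bim.inner_l, hY.1, Bim.inner_r, hY.1, ← Bim.l_r]

theorem PP_idem (B : Bim.{u} A) {Y : A} (hY : Prj Y) (ξ : B.H) :
    PP B Y (PP B Y ξ) = PP B Y ξ := by
  rw [PP_apply, PP_apply, ← Bim.l_r, ← Bim.l_mul, ← Bim.r_mul, hY.2]

theorem PP_l (B : Bim.{u} A) {Y : A} (hY : Prj Y) (ξ : B.H) :
    B.l Y (PP B Y ξ) = PP B Y ξ := by
  rw [PP_apply, ← Bim.l_mul, hY.2]

theorem PP_r (B : Bim.{u} A) {Y : A} (hY : Prj Y) (ξ : B.H) :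
    B.r Y (PP B Y ξ) = PP B Y ξ := by
  rw [PP_apply, ← Bim.l_r, ← Bim.r_mul, hY.2]

theorem PP_norm (B : Bim.{u} A) {Y : A} (hY : Prj Y) (ξ : B.H) : ‖PP B Y ξ‖ ≤ ‖ξ‖ := by
  have h1 : ‖PP B Y ξ‖ ^ 2 = (⟪ξ, PP B Y ξ⟫_ℂ).re := by
    have h2 : (⟪PP B Y ξ, PP B Y ξ⟫_ℂ).re = ‖PP B Y ξ‖ ^ 2 := by
      have := inner_self_eq_norm_sq (𝕜 := ℂ) (PP B Y ξ)
      exact this
    rw [← h2, PP_symm B hY, PP_idem B hY]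
  have h3 : (⟪ξ, PP B Y ξ⟫_ℂ).re ≤ ‖ξ‖ * ‖PP B Y ξ‖ :=
    ((le_abs_self _).trans (Complex.abs_re_le_norm _)).trans (norm_inner_le_norm _ _)
  by_contra hc
  have hc' := not_le.mp hc
  have h4 : 0 < ‖PP B Y ξ‖ := lt_of_le_of_lt (norm_nonneg _) hc'
  nlinarith

theorem PP_fix (B : Bim.{u} A) {Y : A} {ξ : B.H} (hl : B.l Y ξ = ξ) (hr : B.r Y ξ = ξ) :
    PP B Y ξ = ξ := by
  rw [PP_apply, hr, hl]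

theorem SS_symm (B : Bim.{u} A) (a : Avg A) {Y : A} (hY : Prj Y) (ξ η : B.H) :
    ⟪SS B a Y ξ, η⟫_ℂ = ⟪ξ, SS B a Y η⟫_ℂ := by
  rw [SS_apply, SS_apply, PP_symm B hY, Bim.T_symm, PP_symm B hY]

theorem SS_pos (B : Bim.{u} A) (a : Avg A) {Y : A} (hY : Prj Y) (ξ : B.H) :
    0 ≤ (⟪ξ, SS B a Y ξ⟫_ℂ).re := by
  rw [SS_apply, ← PP_symm B hY]
  exact Bim.T_pos B a _

theorem SS_le (B : Bim.{u} A) (a : Avg A) {Y : A} (hY : Prj Y) (ξ : B.H) :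
    (⟪ξ, SS B a Y ξ⟫_ℂ).re ≤ ‖ξ‖ ^ 2 := by
  rw [SS_apply, ← PP_symm B hY]
  have h3 : (⟪PP B Y ξ, B.T a (PP B Y ξ)⟫_ℂ).re ≤ ‖PP B Y ξ‖ * ‖B.T a (PP B Y ξ)‖ :=
    ((le_abs_self _).trans (Complex.abs_re_le_norm _)).trans (norm_inner_le_norm _ _)
  have h4 : ‖B.T a (PP B Y ξ)‖ ≤ ‖PP B Y ξ‖ := Bim.norm_T_le B a _
  have h5 := PP_norm B hY ξ
  have h6 := norm_nonneg (PP B Y ξ)
  have h7 := norm_nonneg ξ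
  have h8 : ‖PP B Y ξ‖ * ‖B.T a (PP B Y ξ)‖ ≤ ‖ξ‖ * ‖ξ‖ :=
    mul_le_mul h5 (h4.trans h5) (norm_nonneg _) h7
  calc (⟪PP B Y ξ, B.T a (PP B Y ξ)⟫_ℂ).re ≤ _ := h3
    _ ≤ ‖ξ‖ * ‖ξ‖ := h8
    _ = ‖ξ‖ ^ 2 := (sq _).symm

theorem SS_fix (B : Bim.{u} A) (a : Avg A) {Y : A} {ξ : B.H}
    (hl : B.l Y ξ = ξ) (hr : B.r Y ξ = ξ) : TYB B a Y ξ = SS B a Y ξ := by
  rw [TYB_apply, SS_apply, PP_fix B hl hr]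

theorem pow_fix (B : Bim.{u} A) (a : Avg A) {Y : A} (hY : Prj Y) {ξ : B.H}
    (hl : B.l Y ξ = ξ) (hr : B.r Y ξ = ξ) (k : ℕ) :
    (TYB B a Y ^ k) ξ = (SS B a Y ^ k) ξ ∧ B.l Y ((SS B a Y ^ k) ξ) = (SS B a Y ^ k) ξ ∧
      B.r Y ((SS B a Y ^ k) ξ) = (SS B a Y ^ k) ξ := by
  induction k with
  | zero =>
    rw [pow_zero, pow_zero]
    exact ⟨rfl, hl, hr⟩
  | succ k ih =>
    have h1 : (TYB B a Y ^ (k + 1)) ξ = TYB B a Y ((TYB B a Y ^ k) ξ) := by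
      rw [pow_succ']
      rfl
    have h2 : (SS B a Y ^ (k + 1)) ξ = SS B a Y ((SS B a Y ^ k) ξ) := by
      rw [pow_succ']
      rfl
    rw [h1, h2, ih.1, SS_fix B a ih.2.1 ih.2.2]
    refine ⟨rfl, ?_, ?_⟩
    · rw [SS_apply, PP_l B hY]
    · rw [SS_apply, PP_r B hY]

theorem en_fix (B : Bim.{u} A) (a : Avg A) {Y : A} (hY : Prj Y) {ξ : B.H}
    (hl : B.l Y ξ = ξ) (hr : B.r Y ξ = ξ) :
    B.en a ξ = (⟪ξ, ξ - SS B a Y ξ⟫_ℂ).re := by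
  rw [Bim.en_eq, inner_sub_right, inner_sub_right, SS_apply, ← PP_symm B hY,
    PP_fix B hl hr]

theorem pow_succ_apply (B : Bim.{u} A) (S : B.H →L[ℂ] B.H) (ξ : B.H) (k : ℕ) :
    (S ^ (k + 1)) ξ = S ((S ^ k) ξ) := by
  rw [pow_succ']
  rfl

theorem hyp [PartialOrder A] [StarOrderedRing A] [TracialVN A] (a : Avg A) {Y : A} (hY : Prj Y)
    {ν e' : ℝ} (he : 0 ≤ e') (hg : HG a Y ν e') (B : Bim.{u} A) (hB : B.Reg) (ξ : B.H)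
    (hl : B.l Y ξ = ξ) (hr : B.r Y ξ = ξ) (j : ℕ) :
    ν * (⟪(SS B a Y ^ j) ξ, (SS B a Y ^ j) ξ - (SS B a Y ^ (j + 1)) ξ⟫_ℂ).re ≤
      ‖(SS B a Y ^ j) ξ - (SS B a Y ^ (j + 1)) ξ‖ ^ 2 + e' * ‖ξ‖ ^ 2 := by
  obtain ⟨-, h1, h2⟩ := pow_fix B a hY hl hr j
  have h3 := hg B hB ((SS B a Y ^ j) ξ) h1 h2
  have h4 : B.l Y (B.r Y (B.T a ((SS B a Y ^ j) ξ))) = (SS B a Y ^ (j + 1)) ξ := by
    rw [pow_succ_apply B, SS_apply, PP_fix B h1 h2, PP_apply]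
  rw [h4, en_fix B a hY h1 h2, ← pow_succ_apply B] at h3
  refine h3.trans ?_
  have h5 : ‖(SS B a Y ^ j) ξ‖ ≤ ‖ξ‖ :=
    hil_pow_norm_le (SS B a Y) (SS_symm B a hY) (SS_pos B a hY) (SS_le B a hY) j ξ
  have h6 : ‖(SS B a Y ^ j) ξ‖ ^ 2 ≤ ‖ξ‖ ^ 2 := pow_le_pow_left₀ (norm_nonneg _) h5 2
  have h7 := mul_le_mul_of_nonneg_left h6 he
  linarith

end DdSmAux

open DdSmAux

variable {A : Type u} [CStarAlgebra A] [PartialOrder A] [StarOrderedRing A] [TracialVN A]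

theorem TYB_fix (a : Avg A) {Y : A} (hY : Prj Y) (B : Bim.{u} A) (ξ : B.H)
    (hl : B.l Y ξ = ξ) (hr : B.r Y ξ = ξ) (k : ℕ) :
    B.l Y ((TYB B a Y ^ k) ξ) = (TYB B a Y ^ k) ξ ∧
      B.r Y ((TYB B a Y ^ k) ξ) = (TYB B a Y ^ k) ξ := by
  obtain ⟨h1, h2, h3⟩ := pow_fix B a hY hl hr k
  rw [h1]
  exact ⟨h2, h3⟩

theorem TYB_norm_le (a : Avg A) {Y : A} (hY : Prj Y) (B : Bim.{u} A) (ξ : B.H)
    (hl : B.l Y ξ = ξ) (hr : B.r Y ξ = ξ) (k : ℕ) :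
    ‖(TYB B a Y ^ k) ξ‖ ≤ ‖ξ‖ ∧
      ‖(TYB B a Y ^ k) ξ‖ ^ 2 ≤ (⟪ξ, (TYB B a Y ^ k) ξ⟫_ℂ).re := by
  obtain ⟨h1, -, -⟩ := pow_fix B a hY hl hr k
  rw [h1]
  exact ⟨hil_pow_norm_le (SS B a Y) (SS_symm B a hY) (SS_pos B a hY) (SS_le B a hY) k ξ,
    hil_pow_sq_le (SS B a Y) (SS_symm B a hY) (SS_pos B a hY) (SS_le B a hY) k ξ⟩

theorem hg_smooth_en (a : Avg A) {Y : A} (hY : Prj Y) {ν e' : ℝ} (hν : 0 < ν) (hν1 : ν ≤ 1)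
    (he : 0 ≤ e') (hg : HG a Y ν e') (B : Bim.{u} A) (hB : B.Reg) (ξ : B.H)
    (hl : B.l Y ξ = ξ) (hr : B.r Y ξ = ξ) (k : ℕ) :
    B.en a ((TYB B a Y ^ k) ξ) ≤ (1 - ν) ^ k * B.en a ξ + e' / ν * ‖ξ‖ ^ 2 := by
  obtain ⟨h1, h2, h3⟩ := pow_fix B a hY hl hr k
  rw [h1, en_fix B a hY h2 h3, en_fix B a hY hl hr, ← pow_succ_apply B]
  have h4 := smooth_en (SS B a Y) (SS_symm B a hY) (SS_pos B a hY) (SS_le B a hY) ξ k hν hν1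
    (E := e' * ‖ξ‖ ^ 2) (by positivity) (fun j _ => hyp a hY he hg B hB ξ hl hr j)
  have h5 : e' / ν * ‖ξ‖ ^ 2 = e' * ‖ξ‖ ^ 2 / ν := by ring
  rw [h5]
  exact h4

theorem hg_smooth_dist (a : Avg A) {Y : A} (hY : Prj Y) {ν e' : ℝ} (hν : 0 < ν) (hν1 : ν ≤ 1)
    (he : 0 ≤ e') (hg : HG a Y ν e') (B : Bim.{u} A) (hB : B.Reg) (ξ : B.H)
    (hl : B.l Y ξ = ξ) (hr : B.r Y ξ = ξ) (k : ℕ) :
    ‖ξ - (TYB B a Y ^ k) ξ‖ ^ 2 ≤ 2 / ν * B.en a ξ + 2 * k * e' / ν * ‖ξ‖ ^ 2 := by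
  obtain ⟨h1, h2, h3⟩ := pow_fix B a hY hl hr k
  rw [h1, en_fix B a hY hl hr]
  have h4 := smooth_dist (SS B a Y) (SS_symm B a hY) (SS_pos B a hY) (SS_le B a hY) ξ k hν hν1
    (E := e' * ‖ξ‖ ^ 2) (by positivity) (fun j _ => hyp a hY he hg B hB ξ hl hr j)
  have h5 : 2 * k * e' / ν * ‖ξ‖ ^ 2 = 2 * k * (e' * ‖ξ‖ ^ 2) / ν := by ring
  rw [h5]
  exact h4

end Pool.Agent.PTH
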