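import Pool.Agent.PTH.CcD
import Pool.Agent.PTH.CcE
import Pool.Agent.PTH.CcRf
import Pool.Agent.PTH.DdSm

/-!
# PTH / CcN: the class `KK`, its initial element, smoothing in the algebra, numerical conditions

* `exists_KK` (Haagerup).  `ε = min (e1/2) (1/1000) τ(p)`, `F₀ = {p} ∪ {p u_i p}`, `Φ` from `SHaag`,
  `SM 1 Φ` (`SM.of_one`), `Θ = cjM p Φ`, `SM p Θ` (`SM.compress`).
  `τ(Θ 1) = τ(p Φ(p)) ≥ τ(p) - ‖p‖₂ ‖Φ(p)-p‖₂ ≥ τ(p) - ε`.
  `enM Θ = τ(Θ 1) - ∑ p_i Re τ(Φ(p u_i p) p u_i* p) ≤ τ(p) - ∑ p_i (Re τ(p u_i p u_i* p) - ε) = e(p) + ε`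
  (`‖p u_i* p‖₂ ≤ 1`; `Avg.en_eq`, `Avg.T_apply`; `∑ p_i = 1`).
  `exists_Dom` for `Φ` with `c = 2^{-26}`, then `Dom.cj` with `b = p`, `C = 1`; support: `Y p = p`.
* `smooth_en_A`, `smooth_dist_A`: apply `hg_smooth_en`, `hg_smooth_dist` (DdSm) to `S.em x`,
  `S : L2S A` (`exists_L2S`, `L2S.reg`, BmC): `S.em (TYA a Y x) = TYB S.B a Y (S.em x)` (`l_em`, `r_em`),
  `S.B.en a (S.em x) = a.en x` (`norm_em`), `Y x = x = x Y` from `Y x Y = x`.
* `exists_nums`: given `ν, δ`: `e1 = ν 10^{-24}/4`, `r = e1/2^28`, `k ≥ 1` with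
  `(1-ν)^k ≤ min(r^16/(4·14^4), δ/2)`, `e' = ν min(10^{-24}/(4k), r^16/(4·14^4), δ/2)`.
-/

open Filter Topology
open scoped InnerProductSpace ComplexOrder

universe u

namespace Pool.Agent.PTH

open TrAlg

/-- Pairs (projection, map) with a dominating family. -/
structure KK {A : Type*} [CStarAlgebra A] [TrAlg A] [PartialOrder A] (a : Avg A) (Y : A) (e1 : ℝ)
    (p : A) (Θ : A →ₗ[ℂ] A) (F : Fam A) : Prop where
  prj : Prj p
  ne : p ≠ 0
  le : Y * p = p
  en_p : a.en p ≤ e1 * rt p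
  sm : SM p Θ
  dft : (1 - 1 / 1000) * rt p ≤ rt (Θ 1)
  en_Θ : enM a Θ ≤ e1 * rt p
  dom : Dom Θ (1 / 2 ^ 26) F
  supp : ∀ i, Y * F.v i = F.v i

/-- Numerical conditions. -/
structure Nums (ν e1 r e' : ℝ) (k : ℕ) : Prop where
  ν0 : 0 < ν
  ν1 : ν ≤ 1
  e'0 : 0 < e'
  r0 : 0 < r
  e10 : 0 < e1
  e11 : e1 ≤ 1
  rho : 2 / ν * e1 + 2 * k * e' / ν ≤ (1 / 10 ^ 6) ^ 4
  sg : 14 ^ 4 * (2 * ((1 - ν) ^ k + e' / ν)) ≤ r ^ 16
  re : 2 ^ 28 * r ≤ e1

theorem exists_nums (ν δ : ℝ) (hν : 0 < ν) (hν1 : ν ≤ 1) (hδ : 0 < δ) :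
    ∃ e1 r e' : ℝ, ∃ k : ℕ, Nums ν e1 r e' k ∧ (1 - ν) ^ k + e' / ν ≤ δ := by
  set e1 : ℝ := ν / (4 * 10 ^ 24) with he1
  have he10 : 0 < e1 := by positivity
  have he11 : e1 ≤ 1 := by
    rw [he1, div_le_one (by positivity)]
    linarith [show (1 : ℝ) ≤ 4 * 10 ^ 24 by norm_num]
  set r : ℝ := e1 / 2 ^ 28 with hr
  have hr0 : 0 < r := by positivity
  set η : ℝ := min (r ^ 16 / (4 * 14 ^ 4)) (δ / 2) with hη
  have hη0 : 0 < η := lt_min (by positivity) (by positivity)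
  have hη1 : η ≤ r ^ 16 / (4 * 14 ^ 4) := min_le_left _ _
  have hη2 : η ≤ δ / 2 := min_le_right _ _
  obtain ⟨k, hk⟩ := exists_pow_lt_of_lt_one hη0 (by linarith : (1 : ℝ) - ν < 1)
  have hk1 : (0 : ℝ) < (k : ℝ) + 1 := by positivity
  set θ : ℝ := min (1 / (4 * 10 ^ 24 * ((k : ℝ) + 1))) η with hθ
  have hθ0 : 0 < θ := lt_min (by positivity) hη0
  have hθ1 : θ ≤ 1 / (4 * 10 ^ 24 * ((k : ℝ) + 1)) := min_le_left _ _
  have hθ2 : θ ≤ η := min_le_right _ _
  have hdiv : ν * θ / ν = θ := by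
    field_simp
  refine ⟨e1, r, ν * θ, k, ⟨hν, hν1, by positivity, hr0, he10, he11, ?_, ?_, ?_⟩, ?_⟩
  · have h1 : 2 / ν * e1 = 1 / (2 * 10 ^ 24) := by
      rw [he1]
      field_simp
      norm_num
    have h2 : 2 * (k : ℝ) * (ν * θ) / ν = 2 * (k : ℝ) * θ := by
      rw [mul_div_assoc, hdiv]
    have h3 : (k : ℝ) * θ ≤ 1 / (4 * 10 ^ 24) := by
      have h4 : (k : ℝ) * θ ≤ ((k : ℝ) + 1) * (1 / (4 * 10 ^ 24 * ((k : ℝ) + 1))) :=
        mul_le_mul (by linarith) hθ1 hθ0.le hk1.le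
      refine h4.trans (le_of_eq ?_)
      field_simp
    rw [h1, h2]
    have h5 : ((1 : ℝ) / 10 ^ 6) ^ 4 = 1 / (2 * 10 ^ 24) + 2 * (1 / (4 * 10 ^ 24)) := by norm_num
    rw [h5]
    linarith
  · rw [hdiv]
    have h1 : (1 - ν) ^ k + θ ≤ 2 * (r ^ 16 / (4 * 14 ^ 4)) := by linarith
    have h2 : (14 : ℝ) ^ 4 * (2 * ((1 - ν) ^ k + θ)) ≤
        14 ^ 4 * (2 * (2 * (r ^ 16 / (4 * 14 ^ 4)))) :=
      mul_le_mul_of_nonneg_left (mul_le_mul_of_nonneg_left h1 (by norm_num)) (by norm_num)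
    refine h2.trans (le_of_eq ?_)
    field_simp
    norm_num
  · rw [hr]
    refine le_of_eq ?_
    field_simp
  · rw [hdiv]
    linarith

variable {A : Type u} [CStarAlgebra A] [PartialOrder A] [StarOrderedRing A] [TracialVN A]
  (a : Avg A) {Y : A}

theorem exists_KK (hY : Prj Y) (hH : SHaag A) {p : A} (hp : Prj p) (hp0 : p ≠ 0) (hYp : Y * p = p)
    {e1 : ℝ} (he : 0 < e1) (hen : a.en p ≤ e1 / 2 * rt p) :
    ∃ (Θ : A →ₗ[ℂ] A) (F : Fam A), KK a Y e1 p Θ F := by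
  classical
  have hrp : 0 < rt p := rt_proj_pos hp hp0
  have h1prj : Prj (1 : A) := ⟨star_one A, one_mul 1⟩
  set ε : ℝ := min (e1 / 2) (1 / 1000) * rt p with hε
  have hε0 : 0 < ε := mul_pos (lt_min (by positivity) (by norm_num)) hrp
  have hε1 : ε ≤ e1 / 2 * rt p := mul_le_mul_of_nonneg_right (min_le_left _ _) hrp.le
  have hε2 : ε ≤ 1 / 1000 * rt p := mul_le_mul_of_nonneg_right (min_le_right _ _) hrp.le
  obtain ⟨Φ, hcp, hsy, hp2, hle, hcpt, hap⟩ := hH
    (insert p (Finset.univ.image fun i => p * a.u i * p)) ε hε0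
  have hSM1 : SM 1 Φ := SM.of_one hcp hsy hp2 hle
  have hSM : SM p (cjM p Φ) := hSM1.compress h1prj hp
  obtain ⟨F, hF⟩ := exists_Dom hSM1 h1prj hcpt (c := 1 / 2 ^ 26) (by positivity)
  have hdom := hF.cj (by positivity) p 1 (norm_proj_le hp)
  have hn2 : two p ≤ 1 := (two_le_norm p).trans (norm_proj_le hp)
  have happ1 : two (Φ p - p) ≤ ε := hap p (Finset.mem_insert_self _ _)
  have happ2 : ∀ i, two (Φ (p * a.u i * p) - p * a.u i * p) ≤ ε := fun i =>
    hap _ (Finset.mem_insert_of_mem (Finset.mem_image_of_mem _ (Finset.mem_univ i)))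
  refine ⟨cjM p Φ, F.map fun x => p * x * star p, ?_⟩
  refine ⟨hp, hp0, hYp, ?_, hSM, ?_, ?_, ?_, ?_⟩
  · refine hen.trans (mul_le_mul_of_nonneg_right ?_ hrp.le)
    linarith
  · have e : rt (cjM p Φ 1) = rt p + rt (p * (Φ p - p)) := by
      rw [cjM_apply, mul_one, hp.1, hp.2, rt_comm, ← mul_assoc, hp.2, mul_sub, hp.2, rt_sub]
      ring
    have h1 := abs_rt_mul_le p (Φ p - p)
    have h2 : two p * two (Φ p - p) ≤ 1 * ε := mul_le_mul hn2 happ1 (two_nonneg _) zero_le_one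
    have h3 := neg_abs_le (rt (p * (Φ p - p)))
    rw [e]
    linarith
  · have hone : rt (cjM p Φ 1) ≤ rt p := hSM.rt_one_le
    have hterm : ∀ i, rt (p * (a.u i * p * star (a.u i))) - ε ≤
        rt (cjM p Φ (a.u i) * star (a.u i)) := by
      intro i
      have e1 : rt (cjM p Φ (a.u i) * star (a.u i)) =
          rt (p * (a.u i * p * star (a.u i))) +
            rt ((Φ (p * a.u i * p) - p * a.u i * p) * (p * star (a.u i) * p)) := by
        rw [cjM_apply, hp.1]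
        have e2 : rt (p * Φ (p * a.u i * p) * p * star (a.u i)) =
            rt (Φ (p * a.u i * p) * (p * star (a.u i) * p)) := by
          have e3 : p * Φ (p * a.u i * p) * p * star (a.u i) =
              p * (Φ (p * a.u i * p) * p * star (a.u i)) := by noncomm_ring
          rw [e3, rt_comm]
          congr 1
          noncomm_ring
        have e4 : rt (p * a.u i * p * (p * star (a.u i) * p)) =
            rt (p * (a.u i * p * star (a.u i))) := by
          have e5 : p * a.u i * p * (p * star (a.u i) * p) =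
              p * a.u i * (p * p) * star (a.u i) * p := by noncomm_ring
          rw [e5, hp.2, rt_comm]
          have e6 : p * (p * a.u i * p * star (a.u i)) =
              (p * p) * a.u i * p * star (a.u i) := by noncomm_ring
          rw [e6, hp.2]
          congr 1
          noncomm_ring
        rw [e2, sub_mul, rt_sub, e4]
        ring
      have hu : ‖star (a.u i)‖ ≤ 1 := by
        rw [norm_star]
        exact AvAaux.norm_u_le (a.u_star_mul i)
      have h2 : two (p * star (a.u i) * p) ≤ 1 := by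
        refine (two_le_norm _).trans ?_
        have h3 := norm_proj_le hp
        calc ‖p * star (a.u i) * p‖ ≤ ‖p * star (a.u i)‖ * ‖p‖ := norm_mul_le _ _
          _ ≤ (‖p‖ * ‖star (a.u i)‖) * ‖p‖ :=
              mul_le_mul_of_nonneg_right (norm_mul_le _ _) (norm_nonneg _)
          _ ≤ (1 * 1) * 1 := by
              refine mul_le_mul (mul_le_mul h3 hu (norm_nonneg _) zero_le_one) h3
                (norm_nonneg _) (by norm_num)
          _ = 1 := by norm_num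
      have h4 := abs_rt_mul_le (Φ (p * a.u i * p) - p * a.u i * p) (p * star (a.u i) * p)
      have h5 : two (Φ (p * a.u i * p) - p * a.u i * p) * two (p * star (a.u i) * p) ≤ ε * 1 :=
        mul_le_mul (happ2 i) h2 (two_nonneg _) hε0.le
      have h6 := neg_abs_le
        (rt ((Φ (p * a.u i * p) - p * a.u i * p) * (p * star (a.u i) * p)))
      rw [e1]
      linarith
    have hsum : rt (p * a.T p) - ε ≤ ∑ i, a.p i * rt (cjM p Φ (a.u i) * star (a.u i)) := by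
      have h1 : ∑ i, a.p i * (rt (p * (a.u i * p * star (a.u i))) - ε) ≤
          ∑ i, a.p i * rt (cjM p Φ (a.u i) * star (a.u i)) :=
        Finset.sum_le_sum fun i _ => mul_le_mul_of_nonneg_left (hterm i) (a.p_pos i).le
      refine le_trans (le_of_eq ?_) h1
      have h2 : rt (p * a.T p) = ∑ i, a.p i * rt (p * (a.u i * p * star (a.u i))) := by
        rw [Avg.T_apply, Finset.mul_sum, rt_sum]
        refine Finset.sum_congr rfl fun i _ => ?_
        rw [mul_smul_comm, Complex.coe_smul, rt_smul]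
      have h3 : ∑ i, a.p i * ε = ε := by rw [← Finset.sum_mul, a.p_sum, one_mul]
      rw [h2]
      conv_lhs => rw [← h3]
      rw [← Finset.sum_sub_distrib]
      refine Finset.sum_congr rfl fun i _ => ?_
      ring
    have hen' : a.en p = rt p - rt (p * a.T p) := by
      rw [Avg.en_eq, hp.1, mul_sub, hp.2, rt_sub]
    unfold enM
    linarith
  · have e : (1 / 2 ^ 26 : ℝ) * 1 ^ 4 = 1 / 2 ^ 26 := by norm_num
    rw [e] at hdom
    exact hdom
  · intro i
    change Y * (p * F.v i * star p) = p * F.v i * star p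
    rw [← mul_assoc, ← mul_assoc, hYp]

private theorem TYB_em (S : L2S.{u} A) (Y x : A) (k : ℕ) :
    (TYB S.B a Y ^ k) (S.em x) = S.em ((TYA a Y ^ k) x) := by
  have h1 : ∀ z : A, TYB S.B a Y (S.em z) = S.em (TYA a Y z) := by
    intro z
    have h2 : S.B.T a (S.em z) = S.em (a.T z) := by
      rw [Bim.T_apply, Avg.T_apply]
      change _ = S.eml _
      rw [map_sum]
      refine Finset.sum_congr rfl fun i _ => ?_
      rw [map_smul]
      change _ = _ • S.em _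
      rw [S.r_em, S.l_em, mul_assoc]
    change S.B.l Y (S.B.r Y (S.B.T a (S.em z))) = S.em (Y * a.T z * Y)
    rw [h2, S.r_em, S.l_em, mul_assoc]
  induction k with
  | zero => rfl
  | succ k ih =>
    rw [pow_succ', pow_succ']
    change TYB S.B a Y ((TYB S.B a Y ^ k) (S.em x)) = S.em (TYA a Y ((TYA a Y ^ k) x))
    rw [ih, h1]

private theorem en_em (S : L2S.{u} A) (x : A) : S.B.en a (S.em x) = a.en x := by
  unfold Bim.en Avg.en
  congr 1
  refine Finset.sum_congr rfl fun i _ => ?_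
  rw [S.l_em, S.r_em, ← S.em_sub, S.norm_em]

theorem smooth_en_A (hY : Prj Y) {ν e' : ℝ} (hν : 0 < ν) (hν1 : ν ≤ 1) (he : 0 ≤ e')
    (hg : HG a Y ν e') (x : A) (hx : Y * x * Y = x) (k : ℕ) :
    a.en ((TYA a Y ^ k) x) ≤ (1 - ν) ^ k * a.en x + e' / ν * two x ^ 2 := by
  obtain ⟨S⟩ := exists_L2S A
  have hl : S.B.l Y (S.em x) = S.em x := by
    rw [S.l_em, ← hx, ← mul_assoc, ← mul_assoc, hY.2]
  have hr : S.B.r Y (S.em x) = S.em x := by
    rw [S.r_em, ← hx, mul_assoc, hY.2]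
  have h := hg_smooth_en a hY hν hν1 he hg S.B S.reg (S.em x) hl hr k
  rwa [TYB_em, en_em, en_em, S.norm_em] at h

theorem smooth_dist_A (hY : Prj Y) {ν e' : ℝ} (hν : 0 < ν) (hν1 : ν ≤ 1) (he : 0 ≤ e')
    (hg : HG a Y ν e') (x : A) (hx : Y * x * Y = x) (k : ℕ) :
    two (x - (TYA a Y ^ k) x) ^ 2 ≤ 2 / ν * a.en x + 2 * k * e' / ν * two x ^ 2 := by
  obtain ⟨S⟩ := exists_L2S A
  have hl : S.B.l Y (S.em x) = S.em x := by
    rw [S.l_em, ← hx, ← mul_assoc, ← mul_assoc, hY.2]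
  have hr : S.B.r Y (S.em x) = S.em x := by
    rw [S.r_em, ← hx, mul_assoc, hY.2]
  have h := hg_smooth_dist a hY hν hν1 he hg S.B S.reg (S.em x) hl hr k
  rwa [TYB_em, en_em, S.norm_em, ← S.em_sub, S.norm_em] at h

end Pool.Agent.PTH
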