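import Pool.Agent.PTH.DdDsm
import Pool.Agent.PTH.Tb0

/-!
# PTH / DdBes: the inner product `ip x y = τ(x* y)`, Bessel's inequality, the matrix `Cm a w`

* `ip` rules: linearity of `τ`; `ip_star`: `tau_star`; `ip_mul_right`: `τ(x* z y) = τ((z* x)* y)`;
  `ip_self`: `tau_eq`; `norm_ip_le`: `norm_tau_mul_le`.
* `two_sum_sq`: `‖∑ c_s x_s‖₂² = ∑_st conj(c_s) c_t ⟨x_s, x_t⟩` (real part); for an orthonormal family
  `‖∑ c_α w_α‖₂² = ∑ |c_α|²`.
* `bessel`: `0 ≤ ‖y - ∑ ⟨w_α,y⟩ w_α‖₂² = ‖y‖₂² - ∑ |⟨w_α,y⟩|²`.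
* `DS_Cm`: `nn`, `col`: `∑_α |⟨w_α, u_i w_β⟩|² ≤ ‖u_i w_β‖₂² = ‖w_β‖₂² = 1` (`two_unitary_mul`) and
  `∑ p_i = 1`; `row`: `⟨w_α, u_i w_β⟩ = ⟨u_i* w_α, w_β⟩`, so `|.|` = `|⟨w_β, u_i* w_α⟩|` and Bessel again.
* `Dv_eq`: definition (in `Dv` the inner sums are over `j, l` with `‖τ(v_l* u_i v_j)‖²`; `Finset.sum_comm`).
* `Dv_sub`: enumerate `S` (`Finset.equivFin` or `S.orderIsoOfFin`, `Finset.equivFinOfCardEq`).
* `PP_sub`: from `Dv_sub` and the definition of `PP`.
-/

open Filter Topology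
open scoped InnerProductSpace ComplexOrder

namespace Pool.Agent.PTH

section

variable {A : Type*} [CStarAlgebra A] [TrAlg A]

theorem ip_self (x : A) : ip x x = ((two x ^ 2 : ℝ) : ℂ) := tau_eq x

theorem ip_star (x y : A) : star (ip x y) = ip y x := by
  unfold ip
  rw [← TrAlg.tau_star, star_mul, star_star]

theorem norm_ip_comm (x y : A) : ‖ip x y‖ = ‖ip y x‖ := by
  rw [← ip_star x y, norm_star]

theorem ip_add (x y z : A) : ip x (y + z) = ip x y + ip x z := by
  unfold ip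
  rw [mul_add, map_add]

theorem ip_sub (x y z : A) : ip x (y - z) = ip x y - ip x z := by
  unfold ip
  rw [mul_sub, map_sub]

theorem ip_smul (c : ℂ) (x y : A) : ip x (c • y) = c * ip x y := by
  unfold ip
  rw [mul_smul_comm, map_smul, smul_eq_mul]

theorem ip_add_left (x y z : A) : ip (x + y) z = ip x z + ip y z := by
  unfold ip
  rw [star_add, add_mul, map_add]

theorem ip_smul_left (c : ℂ) (x y : A) : ip (c • x) y = star c * ip x y := by
  unfold ip
  rw [star_smul, smul_mul_assoc, map_smul, smul_eq_mul]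

theorem ip_sum {σ : Type*} (s : Finset σ) (x : A) (f : σ → A) :
    ip x (∑ i ∈ s, f i) = ∑ i ∈ s, ip x (f i) := by
  unfold ip
  rw [Finset.mul_sum, map_sum]

theorem ip_sum_left {σ : Type*} (s : Finset σ) (f : σ → A) (y : A) :
    ip (∑ i ∈ s, f i) y = ∑ i ∈ s, ip (f i) y := by
  unfold ip
  rw [star_sum, Finset.sum_mul, map_sum]

theorem ip_mul_right (x y z : A) : ip x (z * y) = ip (star z * x) y := by
  unfold ip
  rw [star_mul, star_star, mul_assoc]

theorem norm_ip_le (x y : A) : ‖ip x y‖ ≤ two x * two y := norm_tau_mul_le x y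

/-- Expansion of the norm of a linear combination. -/
theorem two_sum_sq {σ : Type} [Fintype σ] (c : σ → ℂ) (x : σ → A) :
    ((two (∑ s, c s • x s) ^ 2 : ℝ) : ℂ) = ∑ s, ∑ t, star (c s) * c t * ip (x s) (x t) := by
  rw [← ip_self, ip_sum_left]
  refine Finset.sum_congr rfl fun s _ => ?_
  rw [ip_smul_left, ip_sum, Finset.mul_sum]
  refine Finset.sum_congr rfl fun t _ => ?_
  rw [ip_smul, mul_assoc]

variable {σ : Type} [Fintype σ]

/-- Orthonormality for families over any finite type. -/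
def ONf [DecidableEq σ] (w : σ → A) : Prop := ∀ α β, ip (w α) (w β) = if α = β then 1 else 0

theorem ON_iff {r : ℕ} (w : Fin r → A) : ON w ↔ ONf w := Iff.rfl

variable [DecidableEq σ] {w : σ → A}

theorem two_comb (h : ONf w) (c : σ → ℂ) : two (∑ α, c α • w α) ^ 2 = ∑ α, ‖c α‖ ^ 2 := by
  apply Complex.ofReal_injective
  rw [two_sum_sq, Complex.ofReal_sum]
  refine Finset.sum_congr rfl fun α _ => ?_
  rw [Finset.sum_eq_single α]
  · rw [h α α, if_pos rfl, mul_one, Complex.ofReal_pow]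
    exact Complex.conj_mul' (c α)
  · intro β _ hβ
    rw [h α β, if_neg (Ne.symm hβ), mul_zero]
  · intro hα
    exact absurd (Finset.mem_univ α) hα

theorem ip_comb (h : ONf w) (c : σ → ℂ) (β : σ) : ip (w β) (∑ α, c α • w α) = c β := by
  rw [ip_sum, Finset.sum_eq_single β]
  · rw [ip_smul, h β β, if_pos rfl, mul_one]
  · intro α _ hα
    rw [ip_smul, h β α, if_neg (Ne.symm hα), mul_zero]
  · intro hα
    exact absurd (Finset.mem_univ β) hα

theorem two_sub_comb (h : ONf w) (y : A) :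
    two (y - ∑ α, ip (w α) y • w α) ^ 2 = two y ^ 2 - ∑ α, ‖ip (w α) y‖ ^ 2 := by
  rw [two_sub_sq, two_comb h]
  have e : rt (star y * ∑ α, ip (w α) y • w α) = ∑ α, ‖ip (w α) y‖ ^ 2 := by
    have e1 : TrAlg.tau (star y * ∑ α, ip (w α) y • w α) =
        ((∑ α, ‖ip (w α) y‖ ^ 2 : ℝ) : ℂ) := by
      change ip y (∑ α, ip (w α) y • w α) = _
      rw [ip_sum, Complex.ofReal_sum]
      refine Finset.sum_congr rfl fun α _ => ?_
      rw [ip_smul, ← ip_star (w α) y, Complex.ofReal_pow]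
      exact Complex.mul_conj' (ip (w α) y)
    rw [rt, e1, Complex.ofReal_re]
  rw [e]
  ring

theorem bessel (h : ONf w) (y : A) : ∑ α, ‖ip (w α) y‖ ^ 2 ≤ two y ^ 2 := by
  have h1 := two_sub_comb h y
  have h2 := sq_nonneg (two (y - ∑ α, ip (w α) y • w α))
  linarith

theorem two_ON (h : ONf w) (α : σ) : two (w α) = 1 := by
  have h1 := ip_self (w α)
  rw [h α α, if_pos rfl] at h1
  have h2 : two (w α) ^ 2 = 1 := by
    apply Complex.ofReal_injective
    rw [← h1, Complex.ofReal_one]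
  exact (sq_eq_sq₀ (two_nonneg _) zero_le_one).1 (by rw [h2, one_pow])

end

section

variable {A : Type*} [CStarAlgebra A] [PartialOrder A] [StarOrderedRing A] [TracialVN A]
variable {σ : Type} [Fintype σ] [DecidableEq σ] {w : σ → A} (a : Avg A)

theorem DS_Cm (h : ONf w) : DS (Cm a w) := by
  have hp := a.p_sum
  refine ⟨fun α β => Finset.sum_nonneg fun i _ => mul_nonneg (a.p_pos i).le (sq_nonneg _),
    fun α => ?_, fun β => ?_⟩
  · unfold Cm
    rw [Finset.sum_comm, ← hp]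
    refine Finset.sum_le_sum fun i _ => ?_
    rw [← Finset.mul_sum]
    have h1 : ∑ β, ‖ip (w α) (a.u i * w β)‖ ^ 2 ≤ 1 := by
      have h2 := bessel h (star (a.u i) * w α)
      have h3 : two (star (a.u i) * w α) = 1 := by
        rw [two_unitary_mul (by rw [star_star]; exact a.u_mul_star i), two_ON h]
      rw [h3, one_pow] at h2
      refine le_trans (le_of_eq ?_) h2
      refine Finset.sum_congr rfl fun β _ => ?_
      rw [ip_mul_right, norm_ip_comm]
    calc a.p i * ∑ β, ‖ip (w α) (a.u i * w β)‖ ^ 2 ≤ a.p i * 1 :=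
          mul_le_mul_of_nonneg_left h1 (a.p_pos i).le
      _ = a.p i := mul_one _
  · unfold Cm
    rw [Finset.sum_comm, ← hp]
    refine Finset.sum_le_sum fun i _ => ?_
    rw [← Finset.mul_sum]
    have h1 : ∑ α, ‖ip (w α) (a.u i * w β)‖ ^ 2 ≤ 1 := by
      have h2 := bessel h (a.u i * w β)
      have h3 : two (a.u i * w β) = 1 := by
        rw [two_unitary_mul (a.u_star_mul i), two_ON h]
      rwa [h3, one_pow] at h2
    calc a.p i * ∑ α, ‖ip (w α) (a.u i * w β)‖ ^ 2 ≤ a.p i * 1 :=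
          mul_le_mul_of_nonneg_left h1 (a.p_pos i).le
      _ = a.p i := mul_one _

theorem Dv_eq {r : ℕ} (v : Fin r → A) : Dv a v = dC (Cm a v) Finset.univ := by
  unfold Dv dC Cm
  rw [Finset.card_univ, Fintype.card_fin]
  congr 1
  have e1 : ∀ α : Fin r, ∑ β : Fin r, ∑ i, a.p i * ‖ip (v α) (a.u i * v β)‖ ^ 2 =
      ∑ i, ∑ β : Fin r, a.p i * ‖ip (v α) (a.u i * v β)‖ ^ 2 := fun α => Finset.sum_comm
  simp only [e1]
  rw [Finset.sum_comm]
  refine Finset.sum_congr rfl fun i _ => ?_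
  rw [Finset.mul_sum, Finset.sum_comm]
  simp only [Finset.mul_sum]
  refine Finset.sum_congr rfl fun α _ => ?_
  refine Finset.sum_congr rfl fun β _ => ?_
  unfold ip
  rw [mul_assoc]

theorem Dv_sub (h : ONf w) (S : Finset σ) :
    ∃ v : Fin S.card → A, ON v ∧ (∀ j, ∃ α ∈ S, v j = w α) ∧ Dv a v = dC (Cm a w) S := by
  let e : Fin S.card ≃ S := S.equivFin.symm
  refine ⟨fun j => w (e j), ?_, fun j => ⟨e j, (e j).2, rfl⟩, ?_⟩
  · intro i j
    have h1 := h (e i) (e j)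
    unfold ip at h1
    rw [h1]
    by_cases hij : i = j
    · rw [if_pos hij, if_pos (by rw [hij])]
    · rw [if_neg hij, if_neg]
      intro h2
      exact hij (e.injective (Subtype.ext h2))
  · rw [Dv_eq]
    unfold dC
    rw [Finset.card_univ, Fintype.card_fin]
    congr 1
    have e1 : ∀ f : σ → ℝ, ∑ j : Fin S.card, f (e j) = ∑ α ∈ S, f α := by
      intro f
      rw [Equiv.sum_comp e (fun s : S => f s), Finset.sum_coe_sort S f]
    have e2 : ∀ i : Fin S.card, ∑ j : Fin S.card, Cm a (fun j => w (e j)) i j =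
        ∑ β ∈ S, Cm a w (e i) β := by
      intro i
      exact e1 (fun β => Cm a w (e i) β)
    rw [Finset.sum_congr rfl fun i _ => e2 i]
    exact e1 (fun α => ∑ β ∈ S, Cm a w α β)

theorem PP_sub (h : ONf w) {Y : A} (hY : ∀ α, Y * w α = w α) {ε : ℝ} (S : Finset σ)
    (hS : dC (Cm a w) S ≤ ε * S.card) : PP a Y ε S.card := by
  obtain ⟨v, h1, h2, h3⟩ := Dv_sub a h S
  refine ⟨v, h1, fun j => ?_, by rw [h3]; exact hS⟩
  obtain ⟨α, _, hα⟩ := h2 j
  rw [hα, hY]

theorem Dv_nonneg {r : ℕ} {v : Fin r → A} (h : ON v) : 0 ≤ Dv a v := by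
  rw [Dv_eq]
  exact dC_nonneg (DS_Cm a ((ON_iff v).1 h)) _

end

end Pool.Agent.PTH
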