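import Pool.Agent.PTH.DdSpec

/-!
# PTH / DdFam: trace, Hilbert-Schmidt norm and energy of a finite family by its spectral data

`spec_fam`: `x_s = ∑_α c_sα w_α`, `∑_s c_sα conj(c_sβ) = δ_αβ l_α`, `w` orthonormal, `l_α > 0`.
* `fT x = ∑_s ∑_α |c_sα|² = ∑_α l_α` (`two_comb`).
* For elements `y, z`: `∑_s ⟨y, x_s⟩ ⟨x_s, z⟩ = ∑_αβ ∑_s c_sα conj(c_sβ) ⟨y,w_α⟩⟨w_β,z⟩ = ∑_α l_α ⟨y,w_α⟩⟨w_α,z⟩`.
* `fS x = ∑_st ⟨x_s,x_t⟩⟨x_t,x_s⟩`; sum over `t` first: `= ∑_s ∑_α l_α ⟨x_s,w_α⟩⟨w_α,x_s⟩`; then over `s`: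
  `= ∑_αβ l_α l_β ⟨w_β.. w_α⟩..= ∑ l_α²`.
* `fE`: `∑_st |⟨x_s, u x_t⟩|² = ∑_st ⟨x_s, u x_t⟩ ⟨u x_t, x_s⟩ = ∑_αβ l_α l_β |⟨w_α, u w_β⟩|²` (the same formula with
  `y = u* x_s`: `⟨x_s, u x_t⟩ = ⟨u* x_s, x_t⟩`, `ip_mul_right`).
* `fB x` with `y = w_α`: `∑_s |⟨x_s, w_α⟩|² = l_α ≤ ‖w_α‖₂² = 1`.
* `Y x_s = x_s` for all `s` implies `Y w_α = w_α` (`w_α` is a combination of the `x_s`).
-/

open Filter Topology
open scoped InnerProductSpace ComplexOrder

namespace Pool.Agent.PTH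

variable {A : Type*} [CStarAlgebra A] [TrAlg A] {σ : Type} [Fintype σ]

private theorem fam_R {d : ℕ} {w : Fin d → A} {l : Fin d → ℝ} {c : σ → Fin d → ℂ} {x : σ → A}
    (hx : ∀ s, x s = ∑ α, c s α • w α)
    (hc : ∀ α β, ∑ s, c s α * star (c s β) = if α = β then (l α : ℂ) else 0) (y : A) :
    ∑ s, ‖ip (x s) y‖ ^ 2 = ∑ α, l α * ‖ip (w α) y‖ ^ 2 := by
  have hn : ∀ z : ℂ, ((‖z‖ ^ 2 : ℝ) : ℂ) = z * star z := by
    intro z
    rw [Complex.ofReal_pow]
    exact (Complex.mul_conj' z).symm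
  have h1 : ∀ s, ip (x s) y = ∑ α, star (c s α) * ip (w α) y := by
    intro s
    rw [hx s, ip_sum_left]
    exact Finset.sum_congr rfl fun α _ => ip_smul_left _ _ _
  have h2 : ∀ s, ((‖ip (x s) y‖ ^ 2 : ℝ) : ℂ) =
      ∑ α, ∑ β, (ip (w α) y * star (ip (w β) y)) * (c s β * star (c s α)) := by
    intro s
    rw [hn, h1, star_sum, Finset.sum_mul_sum]
    refine Finset.sum_congr rfl fun α _ => Finset.sum_congr rfl fun β _ => ?_
    rw [star_mul, star_star]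
    ring
  have h3 : ((∑ s, ‖ip (x s) y‖ ^ 2 : ℝ) : ℂ) = ((∑ α, l α * ‖ip (w α) y‖ ^ 2 : ℝ) : ℂ) := by
    rw [Complex.ofReal_sum, Complex.ofReal_sum]
    simp only [h2]
    rw [Finset.sum_comm]
    refine Finset.sum_congr rfl fun α _ => ?_
    rw [Finset.sum_comm]
    simp only [← Finset.mul_sum, hc]
    rw [Finset.sum_eq_single α]
    · rw [if_pos rfl, Complex.ofReal_mul, hn]
      ring
    · intro β _ hβ
      rw [if_neg hβ, mul_zero]
    · intro h
      exact absurd (Finset.mem_univ α) h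
  exact_mod_cast h3

private theorem fam_K {d : ℕ} {w : Fin d → A} {l : Fin d → ℝ} {c : σ → Fin d → ℂ} {x : σ → A}
    (hx : ∀ s, x s = ∑ α, c s α • w α)
    (hc : ∀ α β, ∑ s, c s α * star (c s β) = if α = β then (l α : ℂ) else 0) (u : A) :
    ∑ s, ∑ t, ‖ip (x s) (u * x t)‖ ^ 2 = ∑ α, ∑ β, l α * l β * ‖ip (w α) (u * w β)‖ ^ 2 := by
  have h1 : ∀ s, ∑ t, ‖ip (x s) (u * x t)‖ ^ 2 = ∑ β, l β * ‖ip (x s) (u * w β)‖ ^ 2 := by
    intro s
    have h2 : ∀ z : A, ‖ip (x s) (u * z)‖ = ‖ip z (star u * x s)‖ := by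
      intro z
      rw [ip_mul_right, norm_ip_comm]
    simp only [h2]
    exact fam_R hx hc _
  simp only [h1]
  rw [Finset.sum_comm]
  have h3 : ∀ β, ∑ s, l β * ‖ip (x s) (u * w β)‖ ^ 2 =
      ∑ α, l α * l β * ‖ip (w α) (u * w β)‖ ^ 2 := by
    intro β
    rw [← Finset.mul_sum, fam_R hx hc, Finset.mul_sum]
    refine Finset.sum_congr rfl fun α _ => ?_
    ring
  simp only [h3]
  rw [Finset.sum_comm]

theorem fam_spec (a : Avg A) (x : σ → A) :
    ∃ (d : ℕ) (w : Fin d → A) (l : Fin d → ℝ), ONf w ∧ (∀ α, 0 < l α) ∧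
      (∀ Y : A, (∀ s, Y * x s = x s) → ∀ α, Y * w α = w α) ∧
      fT x = ∑ α, l α ∧ fS x = ∑ α, l α ^ 2 ∧ fE a x = qC (Cm a w) l ∧
      (fB x → ∀ α, l α ≤ 1) := by
  obtain ⟨d, w, l, c, b, hw, hl, hx, hb, hc⟩ := spec_fam x
  have hS : fS x = ∑ α, l α ^ 2 := by
    have h1 : fS x = ∑ s, ∑ t, ‖ip (x s) (1 * x t)‖ ^ 2 := by
      unfold fS
      simp only [one_mul]
    rw [h1, fam_K hx hc]
    refine Finset.sum_congr rfl fun α _ => ?_
    rw [Finset.sum_eq_single α]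
    · rw [one_mul, hw α α, if_pos rfl, norm_one]
      ring
    · intro β _ hβ
      rw [one_mul, hw α β, if_neg (Ne.symm hβ), norm_zero]
      ring
    · intro h
      exact absurd (Finset.mem_univ α) h
  refine ⟨d, w, l, hw, hl, ?_, ?_, hS, ?_, ?_⟩
  · intro Y hY α
    rw [hb α, Finset.mul_sum]
    refine Finset.sum_congr rfl fun s _ => ?_
    rw [mul_smul_comm, hY s]
  · unfold fT
    have h1 : ∀ s, two (x s) ^ 2 = ∑ α, ‖c s α‖ ^ 2 := by
      intro s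
      rw [hx s]
      exact two_comb hw (c s)
    simp only [h1]
    rw [Finset.sum_comm]
    refine Finset.sum_congr rfl fun α _ => ?_
    have h2 := hc α α
    rw [if_pos rfl] at h2
    have h3 : ((∑ s, ‖c s α‖ ^ 2 : ℝ) : ℂ) = (l α : ℂ) := by
      rw [← h2, Complex.ofReal_sum]
      refine Finset.sum_congr rfl fun s _ => ?_
      rw [Complex.ofReal_pow]
      exact (Complex.mul_conj' (c s α)).symm
    exact_mod_cast h3
  · unfold fE qC Cm
    rw [hS]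
    congr 1
    have h1 : ∀ i, a.p i * ∑ s, ∑ t, ‖ip (x s) (a.u i * x t)‖ ^ 2 =
        ∑ α, ∑ β, a.p i * ‖ip (w α) (a.u i * w β)‖ ^ 2 * (l α * l β) := by
      intro i
      rw [fam_K hx hc, Finset.mul_sum]
      refine Finset.sum_congr rfl fun α _ => ?_
      rw [Finset.mul_sum]
      refine Finset.sum_congr rfl fun β _ => ?_
      ring
    simp only [h1]
    rw [Finset.sum_comm]
    refine Finset.sum_congr rfl fun α _ => ?_
    rw [Finset.sum_comm]
    refine Finset.sum_congr rfl fun β _ => ?_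
    rw [Finset.sum_mul]
  · intro hB α
    have h1 := hB (w α)
    rw [fam_R hx hc, two_ON hw α] at h1
    rw [Finset.sum_eq_single α] at h1
    · rw [hw α α, if_pos rfl, norm_one] at h1
      linarith
    · intro β _ hβ
      rw [hw β α, if_neg hβ, norm_zero]
      ring
    · intro h
      exact absurd (Finset.mem_univ α) h

/-- For an orthonormal family `v` (`Z` = projection). -/
theorem fam_ON (a : Avg A) {r : ℕ} {v : Fin r → A} (h : ON v) :
    fT v = r ∧ fS v = r ∧ fE a v = Dv a v ∧ fB v := by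
  have hv : ONf v := (ON_iff v).1 h
  have hT : fT v = r := by
    unfold fT
    simp only [two_ON hv]
    simp
  have hS : fS v = r := by
    unfold fS
    have h1 : ∀ s : Fin r, ∑ t, ‖ip (v s) (v t)‖ ^ 2 = 1 := by
      intro s
      rw [Finset.sum_eq_single s]
      · rw [hv s s, if_pos rfl, norm_one, one_pow]
      · intro t _ ht
        rw [hv s t, if_neg (Ne.symm ht), norm_zero]
        norm_num
      · intro h
        exact absurd (Finset.mem_univ s) h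
    simp only [h1]
    simp
  refine ⟨hT, hS, ?_, fun y => bessel hv y⟩
  unfold fE Dv
  rw [hS]
  congr 1
  refine Finset.sum_congr rfl fun i _ => ?_
  congr 1
  rw [Finset.sum_comm]
  refine Finset.sum_congr rfl fun j _ => Finset.sum_congr rfl fun s _ => ?_
  unfold ip
  rw [mul_assoc]

end Pool.Agent.PTH
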