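import Pool.Agent.PTH.DdSm
import Pool.Agent.PTH.DdFam

/-!
# PTH / DdCo: finite families as vectors of the coarse bimodule; smoothing of families

`cov K x = ∑_s t(x_s)(x_s*)` = the operator `∑ |x_s⟩⟨x_s|`.
* `norm_cov`: `⟨cov x, cov x⟩ = ∑_st τ(x_s* x_t) τ(x_t* x_s) = ∑ |⟨x_s,x_t⟩|²` (`inner_t`, `ip_star`).
* `T_cov`: `l(u) r(u*) t(x)(x*) = t(ux)((ux)*)`.  `en_cov`: `Bim.en_eq`,
  `⟨cov x, T cov x⟩ = ∑_i p_i ∑_st ⟨x_s,u_i x_t⟩⟨u_i x_t,x_s⟩`.
* `cov_fix`: `l(Y) t(x)(x*) = t(Yx)(x*)`, `r(Y) t(x)(x*) = t(x)(x* Y) = t(x)((Yx)*)`.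
* `TY_cov`: `Y(T cov x)Y = ∑_i p_i ∑_s t(Y u_i x_s)((Y u_i x_s)*) = cov (√p_i • Y u_i x_s)`
  (`t` is bilinear; `star (c • y) = conj(c) • star y`, `√p_i √p_i = p_i`; `Fintype.sum_prod_type`).
* `fam_smooth`: induction on `k` for the existence of `x'` with `(TYB ^ k)(cov x) = cov x'`,
  `Y x' = x'`, `fT x' ≤ fT x`, `fB x → fB x'` (`pow_succ'`; reindex `a.ι × Fin m` by `Fin m'`,
  `Fintype.equivFin`; all four quantities are invariant under reindexing): one step: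
  `fT = ∑_i p_i ∑_s ‖Y u_i x_s‖₂² ≤ fT x` (`‖Y‖ ≤ 1`, `two_unitary_mul`);
  `fB`: `∑_{i,s} p_i |⟨Y u_i x_s, y⟩|² = ∑_i p_i ∑_s |⟨x_s, u_i* Y y⟩|² ≤ ∑_i p_i ‖u_i* Y y‖₂² ≤ ‖y‖₂²`.
  Energy: `hg_smooth_en` with `en_cov`, `norm_cov`.  Last estimate: `‖cov x‖ - ‖cov x - cov x'‖ ≤ ‖cov x'‖`,
  `hg_smooth_dist`, `Real.sqrt` (`√fS x = ‖cov x‖`).
-/

open Filter Topology
open scoped InnerProductSpace ComplexOrder

universe u

namespace Pool.Agent.PTH

variable {A : Type u} [CStarAlgebra A] [PartialOrder A] [StarOrderedRing A] [TracialVN A]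

/-- The vector of a family in the coarse bimodule. -/
noncomputable def cov (K : CoB A) {σ : Type} [Fintype σ] (x : σ → A) : K.B.H :=
  ∑ s, K.t (x s) (star (x s))

variable (K : CoB A) (a : Avg A) {σ : Type} [Fintype σ] (x : σ → A)

theorem inner_cov {τ : Type} [Fintype τ] (y : τ → A) :
    ⟪cov K x, cov K y⟫_ℂ = ((∑ s, ∑ t, ‖ip (x s) (y t)‖ ^ 2 : ℝ) : ℂ) := by
  unfold cov
  rw [sum_inner]
  push_cast
  refine Finset.sum_congr rfl fun s _ => ?_
  rw [inner_sum]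
  refine Finset.sum_congr rfl fun t _ => ?_
  rw [K.inner_t, star_star]
  change ip (x s) (y t) * ip (y t) (x s) = _
  rw [← ip_star (x s) (y t)]
  exact Complex.mul_conj' _

theorem norm_cov : ‖cov K x‖ ^ 2 = fS x := by
  have h := inner_cov K x x
  rw [inner_self_eq_norm_sq_to_K] at h
  have h2 : ((‖cov K x‖ ^ 2 : ℝ) : ℂ) = ((fS x : ℝ) : ℂ) := by
    rw [Complex.ofReal_pow]
    exact h
  exact_mod_cast h2

private theorem cov_ad (u : A) : K.B.l u (K.B.r (star u) (cov K x)) = cov K (fun s => u * x s) := by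
  unfold cov
  rw [map_sum, map_sum]
  refine Finset.sum_congr rfl fun s _ => ?_
  rw [K.r_t, K.l_t, ← star_mul]

private theorem T_cov : K.B.T a (cov K x) = ∑ i, (a.p i : ℂ) • cov K (fun s => a.u i * x s) := by
  rw [Bim.T_apply]
  refine Finset.sum_congr rfl fun i _ => ?_
  rw [cov_ad]

theorem en_cov : K.B.en a (cov K x) = fE a x := by
  rw [Bim.en_eq, inner_sub_right, Complex.sub_re, T_cov, inner_sum, Complex.re_sum]
  unfold fE
  congr 1
  · rw [inner_cov, Complex.ofReal_re]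
    rfl
  · refine Finset.sum_congr rfl fun i _ => ?_
    rw [inner_smul_right, inner_cov, ← Complex.ofReal_mul, Complex.ofReal_re]

theorem fE_nonneg (K : CoB A) : 0 ≤ fE a x := by
  rw [← en_cov K a x]
  exact Bim.en_nonneg _ _ _

theorem cov_fix {Y : A} (hY : Prj Y) (hx : ∀ s, Y * x s = x s) :
    K.B.l Y (cov K x) = cov K x ∧ K.B.r Y (cov K x) = cov K x := by
  unfold cov
  constructor
  · rw [map_sum]
    refine Finset.sum_congr rfl fun s _ => ?_
    rw [K.l_t, hx]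
  · rw [map_sum]
    refine Finset.sum_congr rfl fun s _ => ?_
    rw [K.r_t]
    congr 1
    have h := congrArg star (hx s)
    rw [star_mul, hY.1] at h
    exact h

private theorem cov_smul (c : ℂ) : cov K (fun s => c • x s) = (c * star c) • cov K x := by
  unfold cov
  rw [Finset.smul_sum]
  refine Finset.sum_congr rfl fun s _ => ?_
  rw [map_smul, LinearMap.smul_apply, star_smul, map_smul, smul_smul]

private theorem sqrt_p (i : a.ι) : ((Real.sqrt (a.p i) : ℝ) : ℂ) * star ((Real.sqrt (a.p i) : ℝ) : ℂ) =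
    (a.p i : ℂ) := by
  have h2 : star ((Real.sqrt (a.p i) : ℝ) : ℂ) = ((Real.sqrt (a.p i) : ℝ) : ℂ) :=
    Complex.conj_ofReal _
  rw [h2, ← Complex.ofReal_mul, Real.mul_self_sqrt (a.p_pos i).le]

private theorem cov_lr {Y : A} (hY : Prj Y) :
    K.B.l Y (K.B.r Y (cov K x)) = cov K (fun s => Y * x s) := by
  have h := cov_ad K x Y
  rwa [hY.1] at h

theorem TY_cov {Y : A} (hY : Prj Y) :
    TYB K.B a Y (cov K x) =
      cov K (fun q : a.ι × σ => ((Real.sqrt (a.p q.1) : ℝ) : ℂ) • (Y * (a.u q.1 * x q.2))) := by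
  change K.B.l Y (K.B.r Y (K.B.T a (cov K x))) = _
  rw [T_cov, map_sum, map_sum]
  have h1 : cov K (fun q : a.ι × σ => ((Real.sqrt (a.p q.1) : ℝ) : ℂ) • (Y * (a.u q.1 * x q.2))) =
      ∑ i, cov K (fun s => ((Real.sqrt (a.p i) : ℝ) : ℂ) • (Y * (a.u i * x s))) := by
    unfold cov
    rw [Fintype.sum_prod_type]
  rw [h1]
  refine Finset.sum_congr rfl fun i _ => ?_
  rw [cov_smul, sqrt_p, map_smul, map_smul, cov_lr K _ hY]

/-- One step. -/
private noncomputable def stp (Y : A) (q : a.ι × σ) : A :=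
  ((Real.sqrt (a.p q.1) : ℝ) : ℂ) • (Y * (a.u q.1 * x q.2))

private theorem norm_sqrt_p (i : a.ι) : ‖((Real.sqrt (a.p i) : ℝ) : ℂ)‖ ^ 2 = a.p i := by
  rw [Complex.norm_real, Real.norm_eq_abs, sq_abs, Real.sq_sqrt (a.p_pos i).le]

omit [PartialOrder A] [StarOrderedRing A] [TracialVN A] in
private theorem sum_p_le {f : a.ι → ℝ} {C : ℝ} (h : ∀ i, f i ≤ C) : ∑ i, a.p i * f i ≤ C := by
  calc ∑ i, a.p i * f i ≤ ∑ i, a.p i * C :=
        Finset.sum_le_sum fun i _ => mul_le_mul_of_nonneg_left (h i) (a.p_pos i).le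
    _ = C := by rw [← Finset.sum_mul, a.p_sum, one_mul]

private theorem fT_stp {Y : A} (hY : Prj Y) : fT (stp a x Y) ≤ fT x := by
  have e : fT (stp a x Y) = ∑ i, a.p i * ∑ s, two (Y * (a.u i * x s)) ^ 2 := by
    unfold fT stp
    rw [Fintype.sum_prod_type]
    refine Finset.sum_congr rfl fun i _ => ?_
    rw [Finset.mul_sum]
    refine Finset.sum_congr rfl fun s _ => ?_
    rw [two_smul', mul_pow, norm_sqrt_p]
  rw [e]
  refine sum_p_le a fun i => ?_
  refine Finset.sum_le_sum fun s _ => ?_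
  refine pow_le_pow_left₀ (two_nonneg _) ?_ 2
  calc two (Y * (a.u i * x s)) ≤ ‖Y‖ * two (a.u i * x s) := two_mul_le _ _
    _ ≤ 1 * two (a.u i * x s) := mul_le_mul_of_nonneg_right (norm_proj_le hY) (two_nonneg _)
    _ = two (x s) := by rw [one_mul, two_unitary_mul (a.u_star_mul i)]

private theorem fB_stp {Y : A} (hY : Prj Y) (h : fB x) : fB (stp a x Y) := by
  intro y
  have e : ∑ q, ‖ip (stp a x Y q) y‖ ^ 2 =
      ∑ i, a.p i * ∑ s, ‖ip (x s) (star (a.u i) * (Y * y))‖ ^ 2 := by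
    unfold stp
    rw [Fintype.sum_prod_type]
    refine Finset.sum_congr rfl fun i _ => ?_
    rw [Finset.mul_sum]
    refine Finset.sum_congr rfl fun s _ => ?_
    rw [ip_smul_left, norm_mul, mul_pow, norm_star, norm_sqrt_p, ip_mul_right, star_star,
      ip_mul_right, hY.1]
  rw [e]
  refine sum_p_le a fun i => (h _).trans ?_
  refine pow_le_pow_left₀ (two_nonneg _) ?_ 2
  have hu : star (star (a.u i)) * star (a.u i) = 1 := by rw [star_star, a.u_mul_star]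
  calc two (star (a.u i) * (Y * y)) = two (Y * y) := two_unitary_mul hu _
    _ ≤ ‖Y‖ * two y := two_mul_le _ _
    _ ≤ 1 * two y := mul_le_mul_of_nonneg_right (norm_proj_le hY) (two_nonneg _)
    _ = two y := one_mul _

private theorem smooth_ex {Y : A} (hY : Prj Y) {m : ℕ} (x : Fin m → A) (hx : ∀ s, Y * x s = x s)
    (k : ℕ) :
    ∃ (m' : ℕ) (x' : Fin m' → A), (∀ s, Y * x' s = x' s) ∧
      (TYB K.B a Y ^ k) (cov K x) = cov K x' ∧ fT x' ≤ fT x ∧ (fB x → fB x') := by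
  induction k with
  | zero => exact ⟨m, x, hx, rfl, le_rfl, id⟩
  | succ k ih =>
    obtain ⟨m', x', h1, h2, h3, h4⟩ := ih
    let e := (Fintype.equivFin (a.ι × Fin m')).symm
    have r1 : cov K (fun j => stp a x' Y (e j)) = cov K (stp a x' Y) :=
      Equiv.sum_comp e (fun q => K.t (stp a x' Y q) (star (stp a x' Y q)))
    have r2 : fT (fun j => stp a x' Y (e j)) = fT (stp a x' Y) :=
      Equiv.sum_comp e (fun q => two (stp a x' Y q) ^ 2)
    have r3 : fB (stp a x' Y) → fB (fun j => stp a x' Y (e j)) := by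
      intro h y
      rw [Equiv.sum_comp e (fun q => ‖ip (stp a x' Y q) y‖ ^ 2)]
      exact h y
    refine ⟨_, fun j => stp a x' Y (e j), ?_, ?_, ?_, ?_⟩
    · intro j
      unfold stp
      rw [mul_smul_comm, ← mul_assoc, hY.2]
    · rw [pow_succ', mul_apply_eq_comp, h2, TY_cov K a x' hY, r1]
      rfl
    · rw [r2]
      exact (fT_stp a x' hY).trans h3
    · intro hb
      exact r3 (fB_stp a x' hY (h4 hb))

theorem fam_smooth {Y : A} (hY : Prj Y) {ν e' : ℝ} (hν : 0 < ν) (hν1 : ν ≤ 1) (he : 0 ≤ e')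
    (hg : HG a Y ν e') {m : ℕ} (x : Fin m → A) (hx : ∀ s, Y * x s = x s) (k : ℕ) :
    ∃ (m' : ℕ) (x' : Fin m' → A), (∀ s, Y * x' s = x' s) ∧
      (TYB K.B a Y ^ k) (cov K x) = cov K x' ∧
      fE a x' ≤ (1 - ν) ^ k * fE a x + e' / ν * fS x ∧
      Real.sqrt (fS x) - Real.sqrt (2 / ν * fE a x + 2 * k * e' / ν * fS x) ≤
        Real.sqrt (fS x') ∧
      fT x' ≤ fT x ∧ (fB x → fB x') := by
  obtain ⟨m', x', h1, h2, h3, h4⟩ := smooth_ex K a hY x hx k
  obtain ⟨hl, hr⟩ := cov_fix K x hY hx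
  refine ⟨m', x', h1, h2, ?_, ?_, h3, h4⟩
  · have h := hg_smooth_en a hY hν hν1 he hg K.B K.reg (cov K x) hl hr k
    rwa [h2, en_cov, en_cov, norm_cov] at h
  · have h := hg_smooth_dist a hY hν hν1 he hg K.B K.reg (cov K x) hl hr k
    rw [h2, en_cov, norm_cov] at h
    have e1 : Real.sqrt (fS x) = ‖cov K x‖ := by
      rw [← norm_cov K x, Real.sqrt_sq (norm_nonneg _)]
    have e2 : Real.sqrt (fS x') = ‖cov K x'‖ := by
      rw [← norm_cov K x', Real.sqrt_sq (norm_nonneg _)]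
    have h5 := Real.le_sqrt_of_sq_le h
    have h6 : ‖cov K x‖ ≤ ‖cov K x'‖ + ‖cov K x - cov K x'‖ := by
      have := norm_add_le (cov K x') (cov K x - cov K x')
      rwa [add_sub_cancel] at this
    rw [e1, e2]
    linarith

end Pool.Agent.PTH
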