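import Pool.Agent.PTH.DdDsm

/-!
# PTH / DdLev: level lemma for a doubly substochastic matrix (real numbers only)

`l ≥ 0`.  For `t ≥ 0`: `dC C (lev l t) = qC C (1_{l > t})` (`qC_ind`), and `qC_eq` gives
  `dC C (lev l t) = 1/2 (∑ C_αβ |1_{l_α>t} - 1_{l_β>t}| + ∑ 1_{l_α>t} r_α + ∑ 1_{l_β>t} s_β)`,
`r_α = 1 - ∑_β C_αβ ≥ 0`, `s_β = 1 - ∑_α C_αβ ≥ 0`.
* `lev_integral`: integrate against `2t dt` on `[0, M]`, `l ≤ M`: `∫ 1_{l_α > t} 2t dt = l_α²` and
  `∫ |1_{l_α>t} - 1_{l_β>t}| 2t dt = |l_α² - l_β²|`.  So the integral is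
  `1/2 (∑ C_αβ |l_α² - l_β²| + ∑ l_α² r_α + ∑ l_β² s_β)`, `|l_α² - l_β²| = |l_α - l_β| (l_α + l_β)`, and by
  Cauchy-Schwarz (for the sum of the three families with weights `C_αβ`, `r_α`, `s_β`) it is
  `≤ 1/2 (∑ C (l_α-l_β)² + ∑ l² r + ∑ l² s)^{1/2} (∑ C (l_α+l_β)² + ∑ l² r + ∑ l² s)^{1/2}`.  The first
  bracket is `2 qC C l`; `(l_α+l_β)² ≤ 2 l_α² + 2 l_β²`, so the second is `≤ 2 (∑ l_α² + ∑ l_β²) = 4 ∑ l²`.
  Total `≤ 1/2 (2 qC)^{1/2} (4 ∑ l²)^{1/2} = √2/... `: exactly `1/2 · √2 √qC · 2 √(∑ l²)`.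
  (For the integrals: `intervalIntegral` of an indicator; or avoid integration: it suffices to know the
  two consequences below, which can also be obtained from finite Riemann sums; choose what is easier.)
* `lev_sum`: if `c (card (lev l t)) ≤ dC C (lev l t)` for all `t ≥ s`, integrate over `[s, M]`:
  `∫_s^M card(lev l t) 2t dt = ∑ max(l_α² - s², 0)`, and `dC ≥ 0` on `[0, s]`.
* `lev_window`: otherwise `dC C (lev l t) > 3 √(∑ l²) √(qC)` on `[1/4, 3/4]`; integrate:
  `3 √.. √.. · (9/16 - 1/16) < √2 √.. √..` is false since `3/2 > √2`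
  (if `√(∑ l²) √qC = 0` the strict inequality `dC > 0` gives `∫ > 0`, again a contradiction).
-/

open MeasureTheory

namespace Pool.Agent.PTH

variable {σ : Type} [Fintype σ] {C : σ → σ → ℝ}

/-- `2t` cut off at `a`. -/
private noncomputable def cut (a : ℝ) : ℝ → ℝ := Set.indicator (Set.Iio a) fun t => 2 * t

private theorem cut_integrable (a x y : ℝ) : IntervalIntegrable (cut a) volume x y := by
  have h : ∀ u v : ℝ, IntegrableOn (cut a) (Set.Ioc u v) volume := by
    intro u v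
    unfold cut IntegrableOn
    refine Integrable.indicator ?_ measurableSet_Iio
    exact (((continuous_const.mul continuous_id : Continuous fun t : ℝ => 2 * t).integrableOn_Icc
      (μ := volume) (a := u) (b := v)).mono_set Set.Ioc_subset_Icc_self)
  exact ⟨h x y, h y x⟩

private theorem sum_ii {f : σ → ℝ → ℝ} {x y : ℝ} (hf : ∀ i, IntervalIntegrable (f i) volume x y) :
    IntervalIntegrable (fun t => ∑ i, f i t) volume x y := by
  have h := IntervalIntegrable.sum (μ := volume) (a := x) (b := y) Finset.univ fun i _ => hf i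
  have e : (∑ i, f i) = fun t => ∑ i, f i t := by
    funext t
    exact Finset.sum_apply _ _ _
  rwa [e] at h

private theorem cut_integral {a s M : ℝ} (ha : 0 ≤ a) (haM : a ≤ M) (hs : 0 ≤ s) (hsM : s ≤ M) :
    ∫ t in s..M, cut a t = max (a ^ 2 - s ^ 2) 0 := by
  rw [intervalIntegral.integral_of_le hsM]
  unfold cut
  rw [setIntegral_indicator measurableSet_Iio]
  have h1 : Set.Ioc s M ∩ Set.Iio a = Set.Ioo s a := by
    ext t
    simp only [Set.mem_inter_iff, Set.mem_Ioc, Set.mem_Iio, Set.mem_Ioo]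
    constructor
    · rintro ⟨⟨h1, h2⟩, h3⟩
      exact ⟨h1, h3⟩
    · rintro ⟨h1, h2⟩
      exact ⟨⟨h1, by linarith⟩, h2⟩
  rw [h1]
  rcases le_total s a with h | h
  · rw [← integral_Ioc_eq_integral_Ioo, ← intervalIntegral.integral_of_le h,
      intervalIntegral.integral_const_mul, integral_id, max_eq_left (by nlinarith)]
    ring
  · rw [Set.Ioo_eq_empty (by linarith), setIntegral_empty, max_eq_right (by nlinarith)]

private theorem cut_min (a b t : ℝ) :
    cut (min a b) t = (if t < a then (1 : ℝ) else 0) * (if t < b then (1 : ℝ) else 0) * (2 * t) := by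
  unfold cut
  by_cases h1 : t < a <;> by_cases h2 : t < b <;> simp [Set.indicator, h1, h2]

private theorem cut_one (a t : ℝ) : cut a t = (if t < a then (1 : ℝ) else 0) * (2 * t) := by
  unfold cut
  by_cases h1 : t < a <;> simp [Set.indicator, h1]

private theorem card_lev (l : σ → ℝ) (t : ℝ) :
    ((lev l t).card : ℝ) = ∑ α, (if t < l α then (1 : ℝ) else 0) := by
  classical
  unfold lev
  rw [Finset.card_filter]
  push_cast
  rfl

private theorem dC_lev (C : σ → σ → ℝ) (l : σ → ℝ) (t : ℝ) :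
    dC C (lev l t) * (2 * t) =
      ∑ α, cut (l α) t - ∑ α, ∑ β, C α β * cut (min (l α) (l β)) t := by
  classical
  unfold dC
  rw [card_lev, sub_mul, Finset.sum_mul]
  congr 1
  · exact Finset.sum_congr rfl fun α _ => (cut_one _ _).symm
  · unfold lev
    rw [Finset.sum_filter, Finset.sum_mul]
    refine Finset.sum_congr rfl fun α _ => ?_
    rw [Finset.sum_filter]
    by_cases h : t < l α
    · rw [if_pos h, Finset.sum_mul]
      refine Finset.sum_congr rfl fun β _ => ?_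
      rw [cut_min, if_pos h]
      by_cases h' : t < l β <;> simp [h']
    · rw [if_neg h, zero_mul]
      symm
      refine Finset.sum_eq_zero fun β _ => ?_
      rw [cut_min, if_neg h]
      ring

private theorem dC_integrable (C : σ → σ → ℝ) (l : σ → ℝ) (x y : ℝ) :
    IntervalIntegrable (fun t => dC C (lev l t) * (2 * t)) volume x y := by
  simp_rw [dC_lev]
  refine IntervalIntegrable.sub ?_ ?_
  · exact sum_ii fun α => cut_integrable _ _ _
  · exact sum_ii fun α => sum_ii fun β => (cut_integrable _ _ _).const_mul _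

private theorem int_dC (C : σ → σ → ℝ) {l : σ → ℝ} (hl : ∀ α, 0 ≤ l α) {M : ℝ} (hM0 : 0 ≤ M)
    (hM : ∀ α, l α ≤ M) :
    ∫ t in (0 : ℝ)..M, dC C (lev l t) * (2 * t) =
      ∑ α, l α ^ 2 - ∑ α, ∑ β, C α β * (min (l α) (l β)) ^ 2 := by
  simp_rw [dC_lev]
  rw [intervalIntegral.integral_sub]
  · congr 1
    · rw [intervalIntegral.integral_finsetSum fun α _ => cut_integrable _ _ _]
      refine Finset.sum_congr rfl fun α _ => ?_
      rw [cut_integral (hl α) (hM α) le_rfl hM0, max_eq_left] <;> nlinarith [sq_nonneg (l α)]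
    · rw [intervalIntegral.integral_finsetSum fun α _ =>
        sum_ii fun β => (cut_integrable _ _ _).const_mul _]
      refine Finset.sum_congr rfl fun α _ => ?_
      rw [intervalIntegral.integral_finsetSum fun β _ => (cut_integrable _ _ _).const_mul _]
      refine Finset.sum_congr rfl fun β _ => ?_
      rw [intervalIntegral.integral_const_mul,
        cut_integral (le_min (hl α) (hl β)) ((min_le_left _ _).trans (hM α)) le_rfl hM0,
        max_eq_left] <;> nlinarith [sq_nonneg (min (l α) (l β))]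
  · exact sum_ii fun α => cut_integrable _ _ _
  · exact sum_ii fun α => sum_ii fun β => (cut_integrable _ _ _).const_mul _

/-- Cauchy-Schwarz. -/
private theorem key_ineq (h : DS C) {l : σ → ℝ} (hl : ∀ α, 0 ≤ l α) :
    ∑ α, l α ^ 2 - ∑ α, ∑ β, C α β * (min (l α) (l β)) ^ 2 ≤
      Real.sqrt 2 * Real.sqrt (∑ α, l α ^ 2) * Real.sqrt (qC C l) := by
  set T := ∑ α, l α ^ 2 with hT
  set S := ∑ α, l α ^ 2 - ∑ α, ∑ β, C α β * (min (l α) (l β)) ^ 2 with hS
  have hT0 : 0 ≤ T := Finset.sum_nonneg fun α _ => sq_nonneg _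
  have hq0 := qC_nonneg h l
  have hsw : ∀ g : σ → σ → ℝ, ∑ α, ∑ β, g α β = ∑ β, ∑ α, g α β := fun g => Finset.sum_comm
  have hquad : ∀ x : ℝ, 0 ≤ (qC C l / 2) * (x * x) + (-S) * x + T := by
    intro x
    -- termwise inequality
    have h1 : ∀ α β, x * (l α ^ 2 + l β ^ 2 - 2 * (min (l α) (l β)) ^ 2) ≤
        1 / 2 * (x ^ 2 * (l α - l β) ^ 2 + 2 * (l α ^ 2 + l β ^ 2)) := by
      intro α β
      have ha := hl α
      have hb := hl β
      rcases le_total (l α) (l β) with hab | hab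
      · rw [min_eq_left hab]
        nlinarith [sq_nonneg (x * (l β - l α) - (l β + l α)), sq_nonneg (l α - l β)]
      · rw [min_eq_right hab]
        nlinarith [sq_nonneg (x * (l α - l β) - (l β + l α)), sq_nonneg (l α - l β)]
    have h2 : ∑ α, ∑ β, C α β * (x * (l α ^ 2 + l β ^ 2 - 2 * (min (l α) (l β)) ^ 2)) ≤
        ∑ α, ∑ β, C α β * (1 / 2 * (x ^ 2 * (l α - l β) ^ 2 + 2 * (l α ^ 2 + l β ^ 2))) :=
      Finset.sum_le_sum fun α _ => Finset.sum_le_sum fun β _ =>
        mul_le_mul_of_nonneg_left (h1 α β) (h.nn α β)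
    have h3 : ∀ α, x * (l α ^ 2 * (1 - ∑ β, C α β)) ≤
        1 / 2 * (x ^ 2 * (l α ^ 2 * (1 - ∑ β, C α β)) + 2 * (l α ^ 2 * (1 - ∑ β, C α β))) := by
      intro α
      have : 0 ≤ l α ^ 2 * (1 - ∑ β, C α β) :=
        mul_nonneg (sq_nonneg _) (by linarith [h.row α])
      nlinarith [mul_nonneg this (sq_nonneg (x - 1))]
    have h4 : ∀ β, x * (l β ^ 2 * (1 - ∑ α, C α β)) ≤
        1 / 2 * (x ^ 2 * (l β ^ 2 * (1 - ∑ α, C α β)) + 2 * (l β ^ 2 * (1 - ∑ α, C α β))) := by
      intro β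
      have : 0 ≤ l β ^ 2 * (1 - ∑ α, C α β) :=
        mul_nonneg (sq_nonneg _) (by linarith [h.col β])
      nlinarith [mul_nonneg this (sq_nonneg (x - 1))]
    have h5 := Finset.sum_le_sum fun α (_ : α ∈ Finset.univ) => h3 α
    have h6 := Finset.sum_le_sum fun β (_ : β ∈ Finset.univ) => h4 β
    -- bookkeeping
    have eA : ∑ α, ∑ β, C α β * l α ^ 2 = ∑ α, l α ^ 2 * ∑ β, C α β :=
      Finset.sum_congr rfl fun α _ => by
        rw [Finset.mul_sum]
        exact Finset.sum_congr rfl fun β _ => by ring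
    have eB : ∑ α, ∑ β, C α β * l β ^ 2 = ∑ β, l β ^ 2 * ∑ α, C α β := by
      rw [hsw]
      exact Finset.sum_congr rfl fun β _ => by
        rw [Finset.mul_sum]
        exact Finset.sum_congr rfl fun α _ => by ring
    have eR : ∑ α, l α ^ 2 * (1 - ∑ β, C α β) = T - ∑ α, l α ^ 2 * ∑ β, C α β := by
      rw [hT, ← Finset.sum_sub_distrib]
      exact Finset.sum_congr rfl fun α _ => by ring
    have eS : ∑ β, l β ^ 2 * (1 - ∑ α, C α β) = T - ∑ β, l β ^ 2 * ∑ α, C α β := by
      rw [hT, ← Finset.sum_sub_distrib]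
      exact Finset.sum_congr rfl fun α _ => by ring
    have e2l : ∑ α, ∑ β, C α β * (x * (l α ^ 2 + l β ^ 2 - 2 * (min (l α) (l β)) ^ 2)) =
        x * (∑ α, ∑ β, C α β * l α ^ 2 + ∑ α, ∑ β, C α β * l β ^ 2 -
          2 * ∑ α, ∑ β, C α β * (min (l α) (l β)) ^ 2) := by
      simp only [Finset.mul_sum, ← Finset.sum_add_distrib, ← Finset.sum_sub_distrib]
      exact Finset.sum_congr rfl fun α _ => Finset.sum_congr rfl fun β _ => by ring
    have e2r : ∑ α, ∑ β, C α β * (1 / 2 * (x ^ 2 * (l α - l β) ^ 2 + 2 * (l α ^ 2 + l β ^ 2))) =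
        1 / 2 * (x ^ 2 * ∑ α, ∑ β, C α β * (l α - l β) ^ 2 +
          2 * (∑ α, ∑ β, C α β * l α ^ 2 + ∑ α, ∑ β, C α β * l β ^ 2)) := by
      simp only [Finset.mul_sum, ← Finset.sum_add_distrib]
      exact Finset.sum_congr rfl fun α _ => Finset.sum_congr rfl fun β _ => by ring
    have e5l : ∑ α, x * (l α ^ 2 * (1 - ∑ β, C α β)) = x * ∑ α, l α ^ 2 * (1 - ∑ β, C α β) :=
      (Finset.mul_sum _ _ _).symm
    have e6l : ∑ β, x * (l β ^ 2 * (1 - ∑ α, C α β)) = x * ∑ β, l β ^ 2 * (1 - ∑ α, C α β) :=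
      (Finset.mul_sum _ _ _).symm
    have e5r : ∑ α, 1 / 2 * (x ^ 2 * (l α ^ 2 * (1 - ∑ β, C α β)) +
        2 * (l α ^ 2 * (1 - ∑ β, C α β))) =
        1 / 2 * (x ^ 2 * ∑ α, l α ^ 2 * (1 - ∑ β, C α β) +
          2 * ∑ α, l α ^ 2 * (1 - ∑ β, C α β)) := by
      simp only [Finset.mul_sum, ← Finset.sum_add_distrib]
    have e6r : ∑ β, 1 / 2 * (x ^ 2 * (l β ^ 2 * (1 - ∑ α, C α β)) +
        2 * (l β ^ 2 * (1 - ∑ α, C α β))) =
        1 / 2 * (x ^ 2 * ∑ β, l β ^ 2 * (1 - ∑ α, C α β) +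
          2 * ∑ β, l β ^ 2 * (1 - ∑ α, C α β)) := by
      simp only [Finset.mul_sum, ← Finset.sum_add_distrib]
    rw [e2l, e2r] at h2
    rw [e5l, e5r] at h5
    rw [e6l, e6r] at h6
    have hq := qC_eq C l
    rw [eR] at h5 hq
    rw [eS] at h6 hq
    rw [eA, eB] at h2
    set a := ∑ α, l α ^ 2 * ∑ β, C α β
    set b := ∑ β, l β ^ 2 * ∑ α, C α β
    set m := ∑ α, ∑ β, C α β * (min (l α) (l β)) ^ 2
    set d := ∑ α, ∑ β, C α β * (l α - l β) ^ 2
    have hS' : S = T - m := by rw [hS, hT]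
    rw [hS', hq]
    nlinarith
  have hd := discrim_le_zero hquad
  unfold discrim at hd
  have hS2 : S ^ 2 ≤ 2 * T * qC C l := by nlinarith
  calc S ≤ Real.sqrt (2 * T * qC C l) := Real.le_sqrt_of_sq_le hS2
    _ = Real.sqrt 2 * Real.sqrt T * Real.sqrt (qC C l) := by
        rw [Real.sqrt_mul (by positivity), Real.sqrt_mul (by norm_num)]

theorem lev_integral (h : DS C) {l : σ → ℝ} (hl : ∀ α, 0 ≤ l α) {M : ℝ} (hM : ∀ α, l α ≤ M) :
    ∫ t in (0 : ℝ)..M, dC C (lev l t) * (2 * t) ≤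
      Real.sqrt 2 * Real.sqrt (∑ α, l α ^ 2) * Real.sqrt (qC C l) := by
  rcases isEmpty_or_nonempty σ with he | hne
  · have : ∀ t, dC C (lev l t) * (2 * t) = 0 := by
      intro t
      rw [dC_lev]
      simp
    simp_rw [this]
    rw [intervalIntegral.integral_zero]
    positivity
  · obtain ⟨α⟩ := hne
    rw [int_dC C hl ((hl α).trans (hM α)) hM]
    exact key_ineq h hl

theorem lev_sum (h : DS C) {l : σ → ℝ} (hl : ∀ α, 0 ≤ l α) {c s : ℝ} (hc : 0 ≤ c) (hs : 0 ≤ s)
    (H : ∀ t, s ≤ t → c * (lev l t).card ≤ dC C (lev l t)) :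
    c * ∑ α, max (l α ^ 2 - s ^ 2) 0 ≤
      Real.sqrt 2 * Real.sqrt (∑ α, l α ^ 2) * Real.sqrt (qC C l) := by
  set M : ℝ := s + ∑ α, l α with hMd
  have hsum0 : 0 ≤ ∑ α, l α := Finset.sum_nonneg fun α _ => hl α
  have hM : ∀ α, l α ≤ M := fun α => by
    have := Finset.single_le_sum (f := l) (fun β _ => hl β) (Finset.mem_univ α)
    linarith
  have hsM : s ≤ M := by linarith
  refine le_trans ?_ (lev_integral h hl hM)
  rw [← intervalIntegral.integral_add_adjacent_intervals (dC_integrable C l 0 s)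
    (dC_integrable C l s M)]
  have h1 : 0 ≤ ∫ t in (0 : ℝ)..s, dC C (lev l t) * (2 * t) :=
    intervalIntegral.integral_nonneg hs fun t ht =>
      mul_nonneg (dC_nonneg h _) (by linarith [ht.1])
  have h2 : c * ∑ α, max (l α ^ 2 - s ^ 2) 0 ≤ ∫ t in s..M, dC C (lev l t) * (2 * t) := by
    have h3 : ∫ t in s..M, c * ∑ α, cut (l α) t = c * ∑ α, max (l α ^ 2 - s ^ 2) 0 := by
      rw [intervalIntegral.integral_const_mul,
        intervalIntegral.integral_finsetSum fun α _ => cut_integrable _ _ _]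
      congr 1
      exact Finset.sum_congr rfl fun α _ => cut_integral (hl α) (hM α) hs hsM
    rw [← h3]
    refine intervalIntegral.integral_mono_on hsM ?_ (dC_integrable C l s M) ?_
    · exact (sum_ii fun α => cut_integrable _ _ _).const_mul _
    · intro t ht
      have h4 : ∑ α, cut (l α) t = (lev l t).card * (2 * t) := by
        rw [card_lev, Finset.sum_mul]
        exact Finset.sum_congr rfl fun α _ => cut_one _ _
      rw [h4, ← mul_assoc]
      exact mul_le_mul_of_nonneg_right (H t ht.1) (by linarith [ht.1])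
  linarith

theorem lev_window (h : DS C) {l : σ → ℝ} (hl : ∀ α, 0 ≤ l α) :
    ∃ t : ℝ, 1 / 4 ≤ t ∧ t ≤ 3 / 4 ∧
      dC C (lev l t) ≤ 3 * Real.sqrt (∑ α, l α ^ 2) * Real.sqrt (qC C l) := by
  by_contra hcon
  push Not at hcon
  set K := Real.sqrt (∑ α, l α ^ 2) * Real.sqrt (qC C l) with hK
  have hK0 : 0 ≤ K := by positivity
  set M : ℝ := 3 / 4 + ∑ α, l α with hMd
  have hsum0 : 0 ≤ ∑ α, l α := Finset.sum_nonneg fun α _ => hl α
  have hM : ∀ α, l α ≤ M := fun α => by
    have := Finset.single_le_sum (f := l) (fun β _ => hl β) (Finset.mem_univ α)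
    linarith
  have hI := lev_integral h hl hM
  rw [← intervalIntegral.integral_add_adjacent_intervals (dC_integrable C l 0 (1 / 4))
    (dC_integrable C l (1 / 4) M),
    ← intervalIntegral.integral_add_adjacent_intervals (dC_integrable C l (1 / 4) (3 / 4))
    (dC_integrable C l (3 / 4) M)] at hI
  have h1 : 0 ≤ ∫ t in (0 : ℝ)..(1 / 4), dC C (lev l t) * (2 * t) :=
    intervalIntegral.integral_nonneg (by norm_num) fun t ht =>
      mul_nonneg (dC_nonneg h _) (by linarith [ht.1])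
  have h2 : 0 ≤ ∫ t in (3 / 4 : ℝ)..M, dC C (lev l t) * (2 * t) :=
    intervalIntegral.integral_nonneg (by linarith) fun t ht =>
      mul_nonneg (dC_nonneg h _) (by linarith [ht.1])
  have hci : IntervalIntegrable (fun t : ℝ => 3 * K * (2 * t)) volume (1 / 4) (3 / 4) :=
    (continuous_const.mul (continuous_const.mul continuous_id)).intervalIntegrable _ _
  have h3 : 0 < ∫ t in (1 / 4 : ℝ)..(3 / 4), (dC C (lev l t) * (2 * t) - 3 * K * (2 * t)) := by
    refine intervalIntegral.intervalIntegral_pos_of_pos_on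
      ((dC_integrable C l _ _).sub hci) ?_ (by norm_num)
    intro t ht
    have h4 := hcon t ht.1.le ht.2.le
    have h5 : 0 < dC C (lev l t) - 3 * K := by rw [hK]; linarith
    have h6 : 0 < 2 * t := by linarith [ht.1]
    nlinarith [mul_pos h5 h6]
  rw [intervalIntegral.integral_sub (dC_integrable C l _ _) hci] at h3
  have h7 : ∫ t in (1 / 4 : ℝ)..(3 / 4), 3 * K * (2 * t) = 3 / 2 * K := by
    rw [intervalIntegral.integral_const_mul, intervalIntegral.integral_const_mul, integral_id]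
    ring
  rw [h7] at h3
  have h8 : Real.sqrt 2 ≤ 3 / 2 := by
    rw [Real.sqrt_le_left (by norm_num)]
    norm_num
  have h9 : Real.sqrt 2 * Real.sqrt (∑ α, l α ^ 2) * Real.sqrt (qC C l) = Real.sqrt 2 * K := by
    rw [hK]
    ring
  rw [h9] at hI
  nlinarith [mul_le_mul_of_nonneg_right h8 hK0]

end Pool.Agent.PTH
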