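import Pool.Agent.PTH.CcW
import Pool.Agent.PTH.DdCo
import Pool.Agent.PTH.DdLev
import Pool.Agent.PTH.DdBes
import Pool.Agent.PTH.BmD

/-!
# PTH / CcO: from a smoothed family to an almost invariant subspace

PROOF.  `K : CoB A` (`exists_CoB`).  `x = F.v`, `W = wdY a Y hY k`, `z = (TLf W F).v` (index `Σ w, F.ι`).
* `cov K z = (TYB K.B a Y ^ k) (cov K x)`: `wdY_B` (`cov_fix`), `l(c) r(c*) t(v)(v*) = t(cv)((cv)*)`,
  `t(√q c v)((√q c v)*) = q t(cv)((cv)*)`, `Fintype.sum_sigma`.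
* `F.hs = fS F.v`, `(TLf W F).hs = fS z` (definitions: `ip x y = τ(x* y)`).
* `fE a z = K.B.en a (cov K z) ≤ (1-ν)^k fE a x + (e'/ν) fS x ≤ ((1-ν)^k + e'/ν) fS x ≤ δ 2^52 fS z`
  (`en_cov`, `hg_smooth_en`, `norm_cov`, `Bim.en_le`), if `(1-ν)^k + e'/ν ≤ δ` and `fS x ≤ 2^52 fS z`.
* `Y z_s = z_s` (`wdY_l`).  `fam_spec` (DdFam): orthonormal `w : Fin d → A`, `l_α > 0`, `Y w_α = w_α`,
  `fS z = ∑ l²`, `fE a z = qC (Cm a w) l ≤ δ 2^52 ∑ l²`, `∑ l² > 0`.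
* There is `t ≥ 0` with `dC (Cm a w) (lev l t) < ε7 card (lev l t)`: otherwise `lev_sum` with `c = ε7`,
  `s = 0`: `ε7 ∑ l² ≤ √2 (∑ l²)^{1/2} (δ 2^52 ∑ l²)^{1/2} = (2^53 δ)^{1/2} ∑ l² < ε7 ∑ l²`, as
  `2^53 δ < ε7²`.  `dC ≥ 0` (`dC_nonneg`, `DS_Cm`), so `card ≥ 1`.  `Dv_sub` (DdBes) gives `v`.
-/

open Filter Topology
open scoped InnerProductSpace ComplexOrder

universe u

namespace Pool.Agent.PTH

open TrAlg

private theorem cov_TLf {A : Type u} [CStarAlgebra A] [PartialOrder A] [StarOrderedRing A]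
    [TracialVN A] (K : CoB A) (W : Wd A) (F : Fam A) :
    cov K (TLf W F).v = ∑ w, ((W.q w : ℝ) : ℂ) •
      K.B.l (W.c w) (K.B.r (star (W.c w)) (cov K F.v)) := by
  have h1 : cov K (TLf W F).v = ∑ x : (Σ _ : W.κ, F.ι),
      K.t (((Real.sqrt (W.q x.1) : ℝ) : ℂ) • (W.c x.1 * F.v x.2))
        (star (((Real.sqrt (W.q x.1) : ℝ) : ℂ) • (W.c x.1 * F.v x.2))) := rfl
  rw [h1, Fintype.sum_sigma]
  refine Finset.sum_congr rfl fun w _ => ?_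
  unfold cov
  rw [map_sum, map_sum, Finset.smul_sum]
  refine Finset.sum_congr rfl fun i _ => ?_
  rw [K.r_t, K.l_t, map_smul, LinearMap.smul_apply, star_smul, map_smul, smul_smul, star_mul]
  congr 1
  have h2 : star ((Real.sqrt (W.q w) : ℝ) : ℂ) = ((Real.sqrt (W.q w) : ℝ) : ℂ) :=
    Complex.conj_ofReal _
  rw [h2, ← Complex.ofReal_mul, Real.mul_self_sqrt (W.q_nonneg w)]

private theorem lev_ex {A : Type u} [CStarAlgebra A] [PartialOrder A] [StarOrderedRing A]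
    [TracialVN A] (a : Avg A) {d : ℕ} {w : Fin d → A} {l : Fin d → ℝ} (hw : ONf w)
    (hl : ∀ α, 0 < l α) {δ ε7 : ℝ} (hδ : 2 ^ 53 * δ < ε7 ^ 2) (hε : 0 < ε7)
    (hS : 0 < ∑ α, l α ^ 2) (hq : qC (Cm a w) l ≤ δ * (2 ^ 52 * ∑ α, l α ^ 2)) :
    ∃ t : ℝ, dC (Cm a w) (lev l t) < ε7 * (lev l t).card := by
  by_contra hcon
  push Not at hcon
  have h1 := lev_sum (DS_Cm a hw) (fun α => (hl α).le) hε.le le_rfl (fun t _ => hcon t)
  have h2 : ∑ α, max (l α ^ 2 - 0 ^ 2) 0 = ∑ α, l α ^ 2 := by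
    refine Finset.sum_congr rfl fun α _ => ?_
    rw [zero_pow two_ne_zero, sub_zero]
    exact max_eq_left (sq_nonneg _)
  rw [h2] at h1
  set S := ∑ α, l α ^ 2 with hSd
  have hq0 : 0 ≤ qC (Cm a w) l := qC_nonneg (DS_Cm a hw) l
  have h3 : (ε7 * S) ^ 2 ≤ 2 * S * qC (Cm a w) l := by
    have h4 := pow_le_pow_left₀ (by positivity) h1 2
    rwa [mul_pow (Real.sqrt 2 * Real.sqrt S), mul_pow (Real.sqrt 2), Real.sq_sqrt (by norm_num),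
      Real.sq_sqrt hS.le, Real.sq_sqrt hq0] at h4
  have h5 : 2 * S * qC (Cm a w) l ≤ 2 * S * (δ * (2 ^ 52 * S)) :=
    mul_le_mul_of_nonneg_left hq (by positivity)
  have h6 : 2 * S * (δ * (2 ^ 52 * S)) = 2 ^ 53 * δ * S ^ 2 := by ring
  have h7 : 2 ^ 53 * δ * S ^ 2 < ε7 ^ 2 * S ^ 2 := mul_lt_mul_of_pos_right hδ (by positivity)
  rw [mul_pow] at h3
  linarith

theorem output {A : Type u} [CStarAlgebra A] [PartialOrder A] [StarOrderedRing A]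
    [TracialVN A] (a : Avg A) {Y : A} {ν e' δ ε7 : ℝ} {k : ℕ} (hν : 0 < ν) (hν1 : ν ≤ 1)
    (he : 0 < e') (hsg : (1 - ν) ^ k + e' / ν ≤ δ) (hδ : 2 ^ 53 * δ < ε7 ^ 2) (hε : 0 < ε7)
    (hY : Prj Y) (hg : HG a Y ν e') (F : Fam A) (hF : ∀ i, Y * F.v i = F.v i)
    (h : 1 / 2 ^ 52 * F.hs < (TLf (wdY a Y hY k) F).hs) :
    ∃ r ≥ 1, ∃ v : Fin r → A, ON v ∧ (∀ j, Y * v j = v j) ∧ Dv a v ≤ ε7 * r := by
  obtain ⟨K⟩ := exists_CoB (A := A)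
  set W := wdY a Y hY k with hW
  have hδ0 : 0 < δ := by
    have h1 : 0 ≤ (1 - ν) ^ k := pow_nonneg (by linarith) k
    have h2 : 0 < e' / ν := by positivity
    linarith
  obtain ⟨hl, hr⟩ := cov_fix K F.v hY hF
  have h1 : (TYB K.B a Y ^ k) (cov K F.v) = cov K (TLf W F).v := by
    rw [cov_TLf, wdY_B K.B a Y hY k _ hl hr]
  have h2 := hg_smooth_en a hY hν hν1 he.le hg K.B K.reg (cov K F.v) hl hr k
  rw [h1, en_cov] at h2
  have h3 := K.B.en_le a (cov K F.v)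
  have hFs : ‖cov K F.v‖ ^ 2 = F.hs := norm_cov K F.v
  rw [hFs] at h2 h3
  have hFs0 : 0 ≤ F.hs := by
    rw [← hFs]
    positivity
  have h4 : fE a (TLf W F).v ≤ δ * F.hs := by
    have h5 : (1 - ν) ^ k * K.B.en a (cov K F.v) ≤ (1 - ν) ^ k * F.hs :=
      mul_le_mul_of_nonneg_left h3 (pow_nonneg (by linarith) k)
    have h6 := mul_le_mul_of_nonneg_right hsg hFs0
    linarith
  obtain ⟨d, w, l, hw, hl0, hYw, -, hSs, hEs, -⟩ := fam_spec a (TLf W F).v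
  have hzs : (TLf W F).hs = ∑ α, l α ^ 2 := hSs
  rw [hzs] at h
  have hSpos : 0 < ∑ α, l α ^ 2 := lt_of_le_of_lt (by positivity) h
  have hq : qC (Cm a w) l ≤ δ * (2 ^ 52 * ∑ α, l α ^ 2) := by
    rw [← hEs]
    refine h4.trans (mul_le_mul_of_nonneg_left ?_ hδ0.le)
    linarith
  obtain ⟨t, ht⟩ := lev_ex a hw hl0 hδ hε hSpos hq
  have hdC := dC_nonneg (DS_Cm a hw) (lev l t)
  have hcard : 1 ≤ (lev l t).card := by
    rcases Nat.eq_zero_or_pos (lev l t).card with h0 | h0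
    · rw [h0] at ht
      simp only [Nat.cast_zero, mul_zero] at ht
      linarith
    · exact h0
  obtain ⟨v, hv1, hv2, hv3⟩ := Dv_sub a hw (lev l t)
  refine ⟨(lev l t).card, hcard, v, hv1, fun j => ?_, ?_⟩
  · obtain ⟨α, -, hα⟩ := hv2 j
    rw [hα]
    refine hYw Y ?_ α
    rintro ⟨w', i⟩
    change Y * (((Real.sqrt (W.q w') : ℝ) : ℂ) • (W.c w' * F.v i)) =
      ((Real.sqrt (W.q w') : ℝ) : ℂ) • (W.c w' * F.v i)
    rw [mul_smul_comm, ← mul_assoc]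
    exact congrArg (fun y => ((Real.sqrt (W.q w') : ℝ) : ℂ) • (y * F.v i)) (wdY_l a Y hY k w')
  · rw [hv3]
    exact ht.le

end Pool.Agent.PTH
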