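import Pool.Agent.PTH.CcI
import Pool.Agent.PTH.Tb1

/-!
# PTH / CcRa: the set `KC C = {x = x* : 1/C ≤ x ≤ C}`, inverses and square roots

`C ≥ 1`.  For `KC C x` the real spectrum of `x` is in `[1/C, C]`.
* `iv x = cfc (t ↦ t⁻¹) x`: `iv x * x = 1 = x * iv x`, `KC C (iv x)`.
* `iv_sub`: `x⁻¹ - y⁻¹ = x⁻¹ (y - x) y⁻¹`; so `‖x⁻¹ - y⁻¹‖₂ ≤ C² ‖x - y‖₂`.
* `mono_iv`: `h = x - y`: `τ((y⁻¹ - x⁻¹) h) = τ(x⁻¹ h y⁻¹ h)` (`y⁻¹ - x⁻¹ = x⁻¹ h y⁻¹`),
  `h y⁻¹ h ≥ (1/C) h²` and `τ(x⁻¹ z) ≥ (1/C) τ(z)` for `z ≥ 0`: `≥ C⁻² τ(h²)`.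
* `sr x = cfc Real.sqrt x`: `sr x * sr x = x`, `0 ≤ sr x`, `‖sr x‖² ≤ C`, commutes with everything
  commuting with `x`; if `m x = C m` then `m (sr x) = √C m` (`(sr x - √C)(sr x + √C) = x - C` and
  `sr x + √C` is invertible: it is `≥ √C`).
* `sr_sub`: `s = sr x`, `t = sr y`, `s, t ≥ C^{-1/2}`; `x - y = s(s-t) + (s-t)t`, so
  `Re τ((x-y)(s-t)) = Re τ((s+t)(s-t)²) ≥ 2 C^{-1/2} ‖s-t‖₂²`, and `≤ ‖x-y‖₂ ‖s-t‖₂`.
* `conj`: for a unitary `u`: `iv (u x u*) = u (iv x) u*` (uniqueness of the inverse),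
  `sr (u x u*) = u (sr x) u*` (uniqueness of positive square roots, or `cfc` and *-homomorphisms).
* `en_iv`, `en_sr`: apply `two_iv_sub_le`, `sr_sub` to `u_i x u_i*` and `x` (`Avg.en_eq_conj`).
-/

open scoped InnerProductSpace ComplexOrder

namespace Pool.Agent.PTH

open TrAlg

section defs

variable {A : Type*} [CStarAlgebra A]

/-- `x = x*`, `1/C ≤ x ≤ C`. -/
def KC [PartialOrder A] (C : ℝ) (x : A) : Prop :=
  IsSelfAdjoint x ∧ (1 / C) • (1 : A) ≤ x ∧ x ≤ C • (1 : A)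

/-- The inverse. -/
noncomputable def iv (x : A) : A := cfc (fun t : ℝ => t⁻¹) x

/-- The square root. -/
noncomputable def sr (x : A) : A := cfc Real.sqrt x

end defs

namespace KC

variable {A : Type*} [CStarAlgebra A] [PartialOrder A] [StarOrderedRing A] [TracialVN A]
  {C : ℝ} {x y : A}

omit [TracialVN A] in
private theorem lo (h : KC C x) {t : ℝ} (ht : t ∈ spectrum ℝ x) : 1 / C ≤ t := by
  have h1 : algebraMap ℝ A (1 / C) ≤ x := by rw [Algebra.algebraMap_eq_smul_one]; exact h.2.1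
  exact (algebraMap_le_iff_le_spectrum h.1).mp h1 t ht

omit [TracialVN A] in
private theorem hi (h : KC C x) {t : ℝ} (ht : t ∈ spectrum ℝ x) : t ≤ C := by
  have h1 : x ≤ algebraMap ℝ A C := by rw [Algebra.algebraMap_eq_smul_one]; exact h.2.2
  exact (le_algebraMap_iff_spectrum_le h.1).mp h1 t ht

omit [TracialVN A] in
private theorem pos_of (h : KC C x) (hC : 1 ≤ C) {t : ℝ} (ht : t ∈ spectrum ℝ x) : 0 < t :=
  lt_of_lt_of_le (by positivity) (lo h ht)

omit [TracialVN A] in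
private theorem cont_inv (h : KC C x) (hC : 1 ≤ C) :
    ContinuousOn (fun t : ℝ => t⁻¹) (spectrum ℝ x) :=
  continuousOn_inv₀.mono fun _ ht => (pos_of h hC ht).ne'

theorem nonneg (h : KC C x) (hC : 1 ≤ C) : 0 ≤ x := by
  refine le_trans ?_ h.2.1
  exact smul_nonneg (by positivity) zero_le_one

theorem norm_le (h : KC C x) (hC : 1 ≤ C) : ‖x‖ ≤ C := by
  refine (CStarAlgebra.norm_le_norm_of_nonneg_of_le (h.nonneg hC) h.2.2).trans ?_
  rw [norm_smul, Real.norm_eq_abs, abs_of_nonneg (by linarith)]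
  exact mul_le_of_le_one_right (by linarith) norm_one_le'

theorem iv_mul (h : KC C x) (hC : 1 ≤ C) : iv x * x = 1 := by
  have h1 : iv x * x = cfc (fun t : ℝ => t⁻¹ * t) x := by
    rw [cfc_mul (fun t : ℝ => t⁻¹) (fun t : ℝ => t) x (cont_inv h hC) continuousOn_id,
      cfc_id' ℝ x h.1]
    rfl
  rw [h1, cfc_congr (g := fun _ : ℝ => 1) (fun t ht => inv_mul_cancel₀ (pos_of h hC ht).ne'),
    cfc_const_one ℝ x h.1]

theorem mul_iv (h : KC C x) (hC : 1 ≤ C) : x * iv x = 1 := by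
  have h1 : Commute (iv x) x := (IsSelfAdjoint.commute_cfc h.1 (Commute.refl x) _)
  rw [← h1.eq]
  exact h.iv_mul hC

theorem iv_kc (h : KC C x) (hC : 1 ≤ C) : KC C (iv x) := by
  refine ⟨cfc_predicate _ _, ?_, ?_⟩
  · have h1 := algebraMap_le_cfc (fun t : ℝ => t⁻¹) (1 / C) x (fun t ht => ?_) (cont_inv h hC) h.1
    · rw [Algebra.algebraMap_eq_smul_one] at h1
      exact h1
    · rw [one_div]
      exact inv_anti₀ (pos_of h hC ht) (hi h ht)
  · have h1 := cfc_le_algebraMap (fun t : ℝ => t⁻¹) C x (fun t ht => ?_) (cont_inv h hC) h.1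
    · rw [Algebra.algebraMap_eq_smul_one] at h1
      exact h1
    · have h2 := inv_anti₀ (by positivity) (lo h ht)
      rwa [one_div, inv_inv] at h2

theorem iv_eq (h : KC C x) (hC : 1 ≤ C) {z : A} (hz : x * z = 1) : iv x = z := by
  calc iv x = iv x * (x * z) := by rw [hz, mul_one]
    _ = z := by rw [← mul_assoc, h.iv_mul hC, one_mul]

private theorem iv_sub (h : KC C x) (h' : KC C y) (hC : 1 ≤ C) :
    iv y - iv x = iv x * (x - y) * iv y := by
  rw [mul_sub, sub_mul, h.iv_mul hC, one_mul, mul_assoc, h'.mul_iv hC, mul_one]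

theorem two_iv_sub_le (h : KC C x) (h' : KC C y) (hC : 1 ≤ C) :
    two (iv x - iv y) ≤ C ^ 2 * two (x - y) := by
  rw [two_sub_comm, iv_sub h h' hC]
  refine (two_mul_mul_le _ _ _).trans ?_
  have h1 := (h.iv_kc hC).norm_le hC
  have h2 := (h'.iv_kc hC).norm_le hC
  calc ‖iv x‖ * two (x - y) * ‖iv y‖ ≤ C * two (x - y) * C :=
        mul_le_mul (mul_le_mul_of_nonneg_right h1 (two_nonneg _)) h2 (norm_nonneg _)
          (mul_nonneg (by linarith) (two_nonneg _))
    _ = C ^ 2 * two (x - y) := by ring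

theorem mono_iv (h : KC C x) (h' : KC C y) (hC : 1 ≤ C) :
    1 / C ^ 2 * two (x - y) ^ 2 ≤ rt ((iv y - iv x) * (x - y)) := by
  have hsa : IsSelfAdjoint (x - y) := h.1.sub h'.1
  have hC0 : 0 < 1 / C := by positivity
  rw [iv_sub h h' hC]
  have e1 : iv x * (x - y) * iv y * (x - y) = iv x * ((x - y) * iv y * (x - y)) := by
    noncomm_ring
  rw [e1]
  have h1 : (1 / C) • ((x - y) * (x - y)) ≤ (x - y) * iv y * (x - y) := by
    have h2 := star_left_conjugate_le_conjugate (h'.iv_kc hC).2.1 (x - y)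
    rw [hsa.star_eq, mul_smul_comm, mul_one, smul_mul_assoc] at h2
    exact h2
  have h0 : 0 ≤ (x - y) * (x - y) := by
    have := star_mul_self_nonneg (x - y)
    rwa [hsa.star_eq] at this
  have h3 : 0 ≤ (x - y) * iv y * (x - y) := le_trans (smul_nonneg hC0.le h0) h1
  have h4 := rt_mul_mono' h3 (h.iv_kc hC).2.1
  rw [smul_mul_assoc, one_mul, rt_smul] at h4
  have h5 := rt_mono h1
  rw [rt_smul] at h5
  rw [two_sq_sa hsa]
  calc 1 / C ^ 2 * rt ((x - y) * (x - y)) = 1 / C * (1 / C * rt ((x - y) * (x - y))) := by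
        field_simp
    _ ≤ 1 / C * rt ((x - y) * iv y * (x - y)) := mul_le_mul_of_nonneg_left h5 hC0.le
    _ ≤ _ := h4

theorem sr_nonneg (h : KC C x) (hC : 1 ≤ C) : 0 ≤ sr x :=
  cfc_nonneg fun t _ => Real.sqrt_nonneg t

theorem sr_mul (h : KC C x) (hC : 1 ≤ C) : sr x * sr x = x := by
  have h1 : sr x * sr x = cfc (fun t : ℝ => Real.sqrt t * Real.sqrt t) x := by
    rw [cfc_mul Real.sqrt Real.sqrt x Real.continuous_sqrt.continuousOn
      Real.continuous_sqrt.continuousOn]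
    rfl
  rw [h1, cfc_congr (g := fun t : ℝ => t) (fun t ht => Real.mul_self_sqrt (pos_of h hC ht).le),
    cfc_id' ℝ x h.1]

private theorem sr_sa (h : KC C x) (hC : 1 ≤ C) : IsSelfAdjoint (sr x) :=
  IsSelfAdjoint.of_nonneg (h.sr_nonneg hC)

private theorem sr_lo (h : KC C x) (hC : 1 ≤ C) : (Real.sqrt C)⁻¹ • (1 : A) ≤ sr x := by
  have h1 := algebraMap_le_cfc Real.sqrt (Real.sqrt C)⁻¹ x (fun t ht => ?_)
    Real.continuous_sqrt.continuousOn h.1
  · rw [Algebra.algebraMap_eq_smul_one] at h1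
    exact h1
  · rw [← Real.sqrt_inv, ← one_div]
    exact Real.sqrt_le_sqrt (lo h ht)

theorem sr_norm (h : KC C x) (hC : 1 ≤ C) : ‖sr x‖ ≤ Real.sqrt C := by
  refine Real.le_sqrt_of_sq_le ?_
  rw [sq, ← CStarRing.norm_star_mul_self, (sr_sa h hC).star_eq, h.sr_mul hC]
  exact h.norm_le hC

theorem sr_comm (h : KC C x) (hC : 1 ≤ C) {z : A} (hz : z * x = x * z) :
    z * sr x = sr x * z := by
  have h1 : Commute (sr x) z := IsSelfAdjoint.commute_cfc h.1 (show Commute x z from hz.symm) _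
  exact h1.eq.symm

theorem iv_comm (h : KC C x) (hC : 1 ≤ C) {z : A} (hz : z * x = x * z) :
    z * iv x = iv x * z := by
  have h1 : Commute (iv x) z := IsSelfAdjoint.commute_cfc h.1 (show Commute x z from hz.symm) _
  exact h1.eq.symm

theorem mul_sr (h : KC C x) (hC : 1 ≤ C) {m : A} (hm : m * x = C • m) :
    m * sr x = Real.sqrt C • m := by
  have hc : 0 < Real.sqrt C := Real.sqrt_pos.mpr (by linarith)
  have hcc : Real.sqrt C * Real.sqrt C = C := Real.mul_self_sqrt (by linarith)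
  obtain ⟨w, hw⟩ : ∃ w : A, w = m * sr x - Real.sqrt C • m := ⟨_, rfl⟩
  have h1 : w * sr x + Real.sqrt C • w = 0 := by
    rw [hw, sub_mul, mul_assoc, h.sr_mul hC, hm, smul_mul_assoc, smul_sub, smul_smul, hcc]
    abel
  have h2 : Real.sqrt C • (w * star w) + w * sr x * star w = 0 := by
    have := congrArg (fun q => q * star w) h1
    simp only [add_mul, zero_mul, smul_mul_assoc] at this
    rwa [add_comm]
  have h3 : 0 ≤ w * sr x * star w := star_right_conjugate_nonneg (h.sr_nonneg hC) w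
  have h4 : 0 ≤ w * star w := mul_star_self_nonneg w
  have h5 : Real.sqrt C • (w * star w) ≤ 0 := by
    rw [eq_neg_of_add_eq_zero_left h2]
    exact neg_nonpos.mpr h3
  have h6 : w * star w ≤ 0 := by
    have h7 := smul_le_smul_of_nonneg_left h5 (inv_nonneg.mpr hc.le)
    rwa [smul_smul, inv_mul_cancel₀ hc.ne', one_smul, smul_zero] at h7
  have h8 : w * star w = 0 := le_antisymm h6 h4
  have h9 : w = 0 := by
    have := CStarRing.norm_self_mul_star (x := w)
    rw [h8, norm_zero] at this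
    exact norm_eq_zero.mp (mul_self_eq_zero.mp this.symm)
  rw [hw] at h9
  exact sub_eq_zero.mp h9

/-- Two self-adjoint elements `s, t ≥ c > 0`: `2 c ‖s - t‖₂ ≤ ‖s² - t²‖₂`. -/
private theorem two_sub_le_sq {s t : A} {c : ℝ} (hs : IsSelfAdjoint s) (ht : IsSelfAdjoint t)
    (h1 : c • (1 : A) ≤ s) (h2 : c • (1 : A) ≤ t) :
    2 * c * two (s - t) ≤ two (s * s - t * t) := by
  have hd : IsSelfAdjoint (s - t) := hs.sub ht
  have h0 : 0 ≤ (s - t) * (s - t) := by
    have := star_mul_self_nonneg (s - t)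
    rwa [hd.star_eq] at this
  have e1 : s * s - t * t = s * (s - t) + (s - t) * t := by noncomm_ring
  have e2 : rt ((s * s - t * t) * (s - t)) =
      rt (s * ((s - t) * (s - t))) + rt (t * ((s - t) * (s - t))) := by
    rw [e1, add_mul, rt_add, mul_assoc]
    congr 1
    rw [mul_assoc, rt_comm, mul_assoc]
  have h3 := rt_mul_mono' h0 h1
  have h4 := rt_mul_mono' h0 h2
  rw [smul_mul_assoc, one_mul, rt_smul] at h3 h4
  have h5 := rt_mul_le_two (s * s - t * t) (s - t)
  rw [e2] at h5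
  rw [← two_sq_sa hd] at h3 h4
  have h6 : (2 * c * two (s - t)) * two (s - t) ≤ two (s * s - t * t) * two (s - t) := by
    nlinarith
  rcases (two_nonneg (s - t)).eq_or_lt with h7 | h7
  · rw [← h7, mul_zero]
    exact two_nonneg _
  · exact le_of_mul_le_mul_right h6 h7

theorem two_sr_sub_le (h : KC C x) (h' : KC C y) (hC : 1 ≤ C) :
    two (sr x - sr y) ≤ Real.sqrt C / 2 * two (x - y) := by
  have hc : 0 < Real.sqrt C := Real.sqrt_pos.mpr (by linarith)
  have h1 := two_sub_le_sq (sr_sa h hC) (sr_sa h' hC) (sr_lo h hC) (sr_lo h' hC)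
  rw [h.sr_mul hC, h'.sr_mul hC] at h1
  calc two (sr x - sr y) = Real.sqrt C / 2 * (2 * (Real.sqrt C)⁻¹ * two (sr x - sr y)) := by
        field_simp
    _ ≤ _ := mul_le_mul_of_nonneg_left h1 (by positivity)

theorem conj (h : KC C x) (hC : 1 ≤ C) {u : A} (hu : star u * u = 1) (hu' : u * star u = 1) :
    KC C (u * x * star u) := by
  refine ⟨?_, ?_, ?_⟩
  · rw [isSelfAdjoint_iff, star_mul, star_mul, star_star, h.1.star_eq, mul_assoc]
  · have h1 := star_right_conjugate_le_conjugate h.2.1 u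
    rwa [mul_smul_comm, mul_one, smul_mul_assoc, hu'] at h1
  · have h1 := star_right_conjugate_le_conjugate h.2.2 u
    rwa [mul_smul_comm, mul_one, smul_mul_assoc, hu'] at h1

private theorem conj_mul {u : A} (hu : star u * u = 1) (a b : A) :
    u * a * star u * (u * b * star u) = u * (a * b) * star u := by
  have e : u * a * star u * (u * b * star u) = u * a * (star u * u) * b * star u := by
    noncomm_ring
  rw [e, hu]
  noncomm_ring

theorem iv_conj (h : KC C x) (hC : 1 ≤ C) {u : A} (hu : star u * u = 1) (hu' : u * star u = 1) :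
    iv (u * x * star u) = u * iv x * star u := by
  refine (h.conj hC hu hu').iv_eq hC ?_
  rw [conj_mul hu, h.mul_iv hC, mul_one, hu']

theorem sr_conj (h : KC C x) (hC : 1 ≤ C) {u : A} (hu : star u * u = 1) (hu' : u * star u = 1) :
    sr (u * x * star u) = u * sr x * star u := by
  have hc : 0 < Real.sqrt C := Real.sqrt_pos.mpr (by linarith)
  have hk := h.conj hC hu hu'
  have hsa : IsSelfAdjoint (u * sr x * star u) := by
    rw [isSelfAdjoint_iff, star_mul, star_mul, star_star, (sr_sa h hC).star_eq, mul_assoc]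
  have hlo : (Real.sqrt C)⁻¹ • (1 : A) ≤ u * sr x * star u := by
    have h1 := star_right_conjugate_le_conjugate (sr_lo h hC) u
    rwa [mul_smul_comm, mul_one, smul_mul_assoc, hu'] at h1
  have h1 := two_sub_le_sq (sr_sa hk hC) hsa (sr_lo hk hC) hlo
  rw [hk.sr_mul hC, conj_mul hu, h.sr_mul hC, sub_self, two_zero] at h1
  have h2 : two (sr (u * x * star u) - u * sr x * star u) = 0 := by
    refine le_antisymm ?_ (two_nonneg _)
    by_contra hcon
    push Not at hcon
    have : 0 < 2 * (Real.sqrt C)⁻¹ * two (sr (u * x * star u) - u * sr x * star u) := by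
      positivity
    linarith
  exact sub_eq_zero.mp (two_eq_zero h2)

end KC

end Pool.Agent.PTH
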