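import Pool.Agent.PTH.Tb2

/-!
# Toolbox: completeness for the 2-norm, monotone limits

PROOFS.
* `exists_lim`: scale by `1/C` and apply `ball_complete` (for `C = 0` everything is zero).
* `mono_lim`: `rt (x n)` is monotone and bounded, so Cauchy; for `m ≥ n`, `‖x_m - x_n‖₂² ≤
  C rt (x_m - x_n)` (`two_sq_le_of_norm_le`; `0 ≤ x_m - x_n ≤ C`).
-/

open Filter Topology

namespace Pool.Agent.PTH

open TrAlg

variable {N : Type*} [CStarAlgebra N] [TracialVN N]

theorem exists_lim {x : ℕ → N} {C : ℝ} (hC : ∀ n, ‖x n‖ ≤ C)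
    (h : ∀ ε : ℝ, 0 < ε → ∃ k, ∀ m ≥ k, ∀ n ≥ k, two (x m - x n) ≤ ε) :
    ∃ y : N, ‖y‖ ≤ C ∧ Tendsto (fun n => two (x n - y)) atTop (𝓝 0) := by
  have hC0 : 0 ≤ C := (norm_nonneg _).trans (hC 0)
  rcases hC0.eq_or_lt with h0 | h0
  · refine ⟨0, by rw [norm_zero, h0], ?_⟩
    have : ∀ n, x n = 0 := fun n => norm_le_zero_iff.1 (h0 ▸ hC n)
    simp only [this]
    exact lim_const 0
  · have hb : ∀ n, ‖(C⁻¹ : ℝ) • x n‖ ≤ 1 := fun n => by
      rw [norm_smul, norm_inv, Real.norm_eq_abs, abs_of_pos h0, inv_mul_le_iff₀ h0, mul_one]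
      exact hC n
    obtain ⟨y, hy, hl⟩ := TracialVN.ball_complete (fun n => (C⁻¹ : ℝ) • x n) hb (by
      intro ε hε
      obtain ⟨k, hk⟩ := h (C * ε) (by positivity)
      refine ⟨k, fun m hm n hn => ?_⟩
      change two ((C⁻¹ : ℝ) • x m - (C⁻¹ : ℝ) • x n) ≤ ε
      rw [← smul_sub, two_smul_real, abs_of_pos (inv_pos.2 h0), inv_mul_le_iff₀ h0]
      exact hk m hm n hn)
    refine ⟨C • y, ?_, ?_⟩
    · rw [norm_smul, Real.norm_eq_abs, abs_of_pos h0]
      exact mul_le_of_le_one_right h0.le hy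
    · have h2 := hl.const_mul C
      rw [mul_zero] at h2
      refine h2.congr fun n => ?_
      have h3 := two_smul_real C ((C⁻¹ : ℝ) • x n - y)
      rw [abs_of_pos h0] at h3
      rw [← h3, smul_sub, smul_smul, mul_inv_cancel₀ h0.ne', one_smul]

/-- A sequence whose consecutive distances are dominated by the differences of a convergent real
sequence. -/
theorem exists_lim_of_sq {x : ℕ → N} {C : ℝ} (hC : ∀ n, ‖x n‖ ≤ C) (r : ℕ → ℝ) {a : ℝ}
    (hr : Tendsto r atTop (𝓝 a))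
    (h : ∀ m n, m ≤ n → two (x n - x m) ^ 2 ≤ |r n - r m|) :
    ∃ y : N, ‖y‖ ≤ C ∧ Tendsto (fun n => two (x n - y)) atTop (𝓝 0) := by
  refine exists_lim hC fun ε hε => ?_
  have hc := hr.cauchySeq
  rw [Metric.cauchySeq_iff] at hc
  obtain ⟨k, hk⟩ := hc (ε ^ 2) (by positivity)
  have h1 : ∀ m ≥ k, ∀ n ≥ k, two (x m - x n) ^ 2 ≤ ε ^ 2 := by
    intro m hm n hn
    rcases le_total m n with hmn | hmn
    · rw [two_sub_comm]
      refine (h m n hmn).trans ?_
      have := hk n hn m hm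
      rw [Real.dist_eq] at this
      exact this.le
    · refine (h n m hmn).trans ?_
      have := hk m hm n hn
      rw [Real.dist_eq] at this
      exact this.le
  refine ⟨k, fun m hm n hn => ?_⟩
  exact (pow_le_pow_iff_left₀ (two_nonneg _) hε.le (by norm_num)).1 (h1 m hm n hn)

variable [PartialOrder N] [StarOrderedRing N]

theorem norm_le_of_le_smul {x : N} (hx : 0 ≤ x) {C : ℝ} (hC : 0 ≤ C) (h : x ≤ C • (1 : N)) :
    ‖x‖ ≤ C := by
  have h6 := CStarAlgebra.norm_le_norm_of_nonneg_of_le hx h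
  refine h6.trans ?_
  rw [norm_smul, Real.norm_eq_abs, abs_of_nonneg hC]
  exact mul_le_of_le_one_right hC norm_one_le'

/-- Increasing bounded sequences of positive elements converge in 2-norm to their supremum. -/
theorem mono_lim {x : ℕ → N} {C : ℝ} (hC : 0 ≤ C) (hm : Monotone x) (h0 : 0 ≤ x 0)
    (h1 : ∀ n, x n ≤ C • (1 : N)) :
    ∃ y : N, 0 ≤ y ∧ y ≤ C • (1 : N) ∧ (∀ n, x n ≤ y) ∧
      Tendsto (fun n => two (x n - y)) atTop (𝓝 0) := by
  have h0' : ∀ n, 0 ≤ x n := fun n => h0.trans (hm (Nat.zero_le n))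
  have hr : Monotone fun n => rt (x n) := fun m n h => rt_mono (hm h)
  have hb : ∀ n, rt (x n) ≤ C := fun n => by
    have := rt_mono (h1 n)
    rwa [rt_smul, rt_one, mul_one] at this
  have hcv : Tendsto (fun n => C * rt (x n)) atTop (𝓝 (C * ⨆ n, rt (x n))) :=
    (tendsto_atTop_ciSup hr ⟨C, by rintro _ ⟨n, rfl⟩; exact hb n⟩).const_mul C
  obtain ⟨y, hy, hl⟩ := exists_lim_of_sq (x := x) (C := C)
    (fun n => norm_le_of_le_smul (h0' n) hC (h1 n)) _ hcv (by
      intro m n hmn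
      have h2 : 0 ≤ x n - x m := sub_nonneg.2 (hm hmn)
      have h3 : x n - x m ≤ C • (1 : N) := by
        refine le_trans ?_ (h1 n)
        exact sub_le_self _ (h0' m)
      have h4 := two_sq_le_of_norm_le h2 (norm_le_of_le_smul h2 hC h3)
      rw [rt_sub, mul_sub] at h4
      exact h4.trans (le_abs_self _))
  refine ⟨y, lim_nonneg h0' hl, lim_le h1 hl (lim_const _), fun n => ?_, hl⟩
  have h5 : Tendsto (fun k => two (x (k + n) - y)) atTop (𝓝 0) :=
    lim_comp (x := x) (φ := fun k => k + n) (tendsto_add_atTop_nat n) hl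
  exact lim_le (x := fun _ : ℕ => x n) (x' := fun k => x (k + n))
    (fun k => hm (Nat.le_add_left n k)) (lim_const _) h5

/-- Decreasing sequences of positive elements converge in 2-norm. -/
theorem anti_lim {x : ℕ → N} (hm : Antitone x) (h0 : ∀ n, 0 ≤ x n) :
    ∃ y : N, 0 ≤ y ∧ (∀ n, y ≤ x n) ∧ Tendsto (fun n => two (x n - y)) atTop (𝓝 0) := by
  have hle : ∀ n, x n ≤ ‖x 0‖ • (1 : N) := fun n =>
    (hm (Nat.zero_le n)).trans (le_norm_smul_one (IsSelfAdjoint.of_nonneg (h0 0)))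
  obtain ⟨y, -, -, hy, hl⟩ := mono_lim (x := fun n => ‖x 0‖ • (1 : N) - x n) (C := ‖x 0‖)
    (norm_nonneg _) (fun m n h => sub_le_sub_left (hm h) _) (sub_nonneg.2 (hle 0))
    (fun n => sub_le_self _ (h0 n))
  have hl2 : Tendsto (fun n => two (x n - (‖x 0‖ • (1 : N) - y))) atTop (𝓝 0) := by
    have := lim_sub (lim_const (l := atTop) (ι := ℕ) (‖x 0‖ • (1 : N))) hl
    refine this.congr fun n => ?_
    congr 1
    abel
  refine ⟨‖x 0‖ • (1 : N) - y, lim_nonneg h0 hl2, fun n => ?_, hl2⟩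
  have := hy n
  exact sub_le_comm.1 this

end Pool.Agent.PTH
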