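import Pool.Agent.PTH.CcRa
import Pool.Agent.PTH.AvE
import Pool.Agent.PTH.Tb3

/-!
# PTH / CcRb: the projection onto `KC C`, completeness, a fixed point theorem

* `clamp C x = cfc (t ↦ max (1/C) (min C t)) x` (`x` selfadjoint, `C ≥ 1`).
* `clamp_spec`: `n = cfc (t ↦ max (t - C) 0) x`, `m = cfc (t ↦ max (1/C - t) 0) x`: `x - clamp = n - m`,
  `n, m ≥ 0`, `n m = 0`, `n (clamp) = C n`, `m (clamp) = (1/C) m`.  All by `cfc` (pointwise identities).
* `clamp_var`: for `y ∈ KC`: `τ((x - c)(y - c)) = τ(n(y - C)) - τ(m(y - 1/C)) ≤ 0` (`c = clamp`; the trace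
  of a product of positive elements is `≥ 0`: `rt_mul_nonneg`).
* `clamp_two_le`: `c = clamp x`, `c' = clamp x'`: add `Re τ((x-c)(c'-c)) ≤ 0` and
  `Re τ((x'-c')(c-c')) ≤ 0`: `‖c-c'‖₂² ≤ Re τ((x-x')(c-c')) ≤ ‖x-x'‖₂ ‖c-c'‖₂`.
* `complete`: a 2-norm Cauchy sequence in `KC` has a 2-norm limit in `KC`: apply `ball_complete` to
  `x_n / C`; the limit `y` (`x = C y`) is selfadjoint (`‖x* - x_n‖₂ = ‖x - x_n‖₂`, `two_eq_zero`), and
  `1/C ≤ x ≤ C`: for every `z`, `Re τ(z*(x_n - 1/C) z) ≥ 0` passes to the limit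
  (`|τ(z* w z)| ≤ ‖w‖₂ ‖z z*‖`), and a selfadjoint `w` with `Re τ(z* w z) ≥ 0` for all `z` is `≥ 0`:
  `z = w⁻`: `- τ((w⁻)³) ≥ 0`, so `(w⁻)³ = 0` (`eq_zero_of_rt`).
* `exists_fix`: `λ = l/L²`, `Φ(x) = clamp (x - λ G(x))`.  On `KC`:
  `‖Φ(x)-Φ(y)‖₂² ≤ ‖(x-y) - λ(Gx-Gy)‖₂² = ‖x-y‖₂² - 2λ Re τ((Gx-Gy)(x-y)) + λ²‖Gx-Gy‖₂²
  ≤ (1 - l²/L²) ‖x-y‖₂²`.  Iterate `x_0 = 1`, `x_{n+1} = Φ(x_n)`: geometric decrease of `‖x_{n+1}-x_n‖₂`,
  so Cauchy, limit `x ∈ KC` by `complete`, and `‖Φ(x) - x_{n+1}‖₂ ≤ ‖x - x_n‖₂ → 0`, so `Φ(x) = x`.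
  (`1 - l²/L² < 1`; if it is negative all distances are `0`.)
-/

open Filter Topology
open scoped InnerProductSpace ComplexOrder

namespace Pool.Agent.PTH

open TrAlg

/-- The nearest point of `KC C`. -/
noncomputable def clamp {A : Type*} [CStarAlgebra A] (C : ℝ) (x : A) : A :=
  cfc (fun t : ℝ => max (1 / C) (min C t)) x

variable {A : Type*} [CStarAlgebra A] [PartialOrder A] [StarOrderedRing A] [TracialVN A]
  {C : ℝ} {x y : A}

private theorem smul_one_eq76 (r : ℝ) : r • (1 : A) = algebraMap ℝ A r :=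
  (Algebra.algebraMap_eq_smul_one r).symm

private theorem ccont76 (C : ℝ) : Continuous fun t : ℝ => max (1 / C) (min C t) := by
  fun_prop

theorem clamp_kc (hC : 1 ≤ C) (hx : IsSelfAdjoint x) : KC C (clamp C x) := by
  have h1 : 1 / C ≤ C := by
    rw [div_le_iff₀ (by linarith)]
    nlinarith
  refine ⟨cfc_predicate _ _, ?_, ?_⟩
  · rw [smul_one_eq76]
    exact algebraMap_le_cfc _ _ _ (fun t _ => le_max_left _ _) (ccont76 C).continuousOn hx
  · rw [smul_one_eq76]
    exact cfc_le_algebraMap _ _ _ (fun t _ => max_le h1 (min_le_left _ _))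
      (ccont76 C).continuousOn hx

theorem clamp_spec (hC : 1 ≤ C) (hx : IsSelfAdjoint x) :
    ∃ n m : A, 0 ≤ n ∧ 0 ≤ m ∧ x - clamp C x = n - m ∧ n * m = 0 ∧
      n * clamp C x = C • n ∧ m * clamp C x = (1 / C) • m := by
  have hC0 : 0 < C := by linarith
  have h1 : 1 / C ≤ C := by
    rw [div_le_iff₀ hC0]
    nlinarith
  have c0 := (ccont76 C).continuousOn (s := spectrum ℝ x)
  have c1 : ContinuousOn (fun t : ℝ => max (t - C) 0) (spectrum ℝ x) := by fun_prop
  have c2 : ContinuousOn (fun t : ℝ => max (1 / C - t) 0) (spectrum ℝ x) := by fun_prop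
  refine ⟨cfc (fun t : ℝ => max (t - C) 0) x, cfc (fun t : ℝ => max (1 / C - t) 0) x,
    cfc_nonneg fun t _ => le_max_right _ _, cfc_nonneg fun t _ => le_max_right _ _, ?_, ?_, ?_, ?_⟩
  · unfold clamp
    nth_rewrite 1 [← cfc_id' ℝ x hx]
    rw [← cfc_sub (fun t : ℝ => t) _ x (by fun_prop) c0, ← cfc_sub _ _ x c1 c2]
    refine cfc_congr fun t _ => ?_
    rcases le_total t (1 / C) with h | h
    · rw [min_eq_right (h.trans h1), max_eq_left h, max_eq_right (by linarith),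
        max_eq_left (by linarith)]
      ring
    · rcases le_total t C with h' | h'
      · rw [min_eq_right h', max_eq_right h, max_eq_right (by linarith),
          max_eq_right (by linarith)]
        ring
      · rw [min_eq_left h', max_eq_right h1, max_eq_left (by linarith),
          max_eq_right (by linarith)]
        ring
  · rw [← cfc_mul _ _ x c1 c2, ← cfc_const_zero ℝ x]
    refine cfc_congr fun t _ => ?_
    rcases le_total t C with h' | h'
    · rw [max_eq_right (show t - C ≤ 0 by linarith), zero_mul]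
    · rw [max_eq_right (show 1 / C - t ≤ 0 by linarith), mul_zero]
  · unfold clamp
    rw [← cfc_mul _ _ x c1 c0, ← cfc_smul C _ x c1]
    refine cfc_congr fun t _ => ?_
    simp only [smul_eq_mul]
    rcases le_total t C with h' | h'
    · rw [max_eq_right (show t - C ≤ 0 by linarith), zero_mul, mul_zero]
    · rw [min_eq_left h', max_eq_right h1]
      ring
  · unfold clamp
    rw [← cfc_mul _ _ x c2 c0, ← cfc_smul (1 / C) _ x c2]
    refine cfc_congr fun t _ => ?_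
    simp only [smul_eq_mul]
    rcases le_total t (1 / C) with h | h
    · rw [min_eq_right (h.trans h1), max_eq_left h]
      ring
    · rw [max_eq_right (show 1 / C - t ≤ 0 by linarith), zero_mul, mul_zero]

theorem clamp_var (hC : 1 ≤ C) (hx : IsSelfAdjoint x) (hy : KC C y) :
    rt ((x - clamp C x) * (y - clamp C x)) ≤ 0 := by
  obtain ⟨n, m, hn, hm, e1, -, e2, e3⟩ := clamp_spec hC hx
  have h1 : (x - clamp C x) * (y - clamp C x) =
      -(n * (C • (1 : A) - y)) - m * (y - (1 / C) • (1 : A)) := by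
    rw [e1]
    have a1 : n * (C • (1 : A)) = C • n := by rw [mul_smul_comm, mul_one]
    have a2 : m * ((1 / C) • (1 : A)) = (1 / C) • m := by rw [mul_smul_comm, mul_one]
    rw [sub_mul, mul_sub, mul_sub, e2, e3, mul_sub, mul_sub, a1, a2]
    abel
  rw [h1, rt_sub, rt_neg]
  have h2 := rt_mul_nonneg hn (sub_nonneg.2 hy.2.2)
  have h3 := rt_mul_nonneg hm (sub_nonneg.2 hy.2.1)
  linarith

theorem clamp_two_le (hC : 1 ≤ C) (hx : IsSelfAdjoint x) (hy : IsSelfAdjoint y) :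
    two (clamp C x - clamp C y) ≤ two (x - y) := by
  have hcx := clamp_kc hC hx
  have hcy := clamp_kc hC hy
  have h1 := clamp_var hC hx hcy
  have h2 := clamp_var hC hy hcx
  have h3 : two (clamp C x - clamp C y) ^ 2 ≤ rt ((x - y) * (clamp C x - clamp C y)) := by
    rw [two_sq_sa (hcx.1.sub hcy.1)]
    have e : (x - y) * (clamp C x - clamp C y) =
        (clamp C x - clamp C y) * (clamp C x - clamp C y) -
        ((x - clamp C x) * (clamp C y - clamp C x)) -
        ((y - clamp C y) * (clamp C x - clamp C y)) := by noncomm_ring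
    rw [e, rt_sub, rt_sub]
    linarith
  have h4 := h3.trans (rt_mul_le_two _ _)
  rcases (two_nonneg (clamp C x - clamp C y)).eq_or_lt with h | h
  · rw [← h]
    exact two_nonneg _
  · rw [sq] at h4
    exact le_of_mul_le_mul_right h4 h

/-- A selfadjoint element with `Re τ(z* w z) ≥ 0` for all `z` is positive. -/
theorem cc_nonneg_of_rt_conj {w : A} (hw : IsSelfAdjoint w) (h : ∀ z : A, 0 ≤ rt (star z * w * z)) :
    0 ≤ w := by
  refine nonneg_of_rt hw fun a ha => ?_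
  obtain ⟨b, rfl⟩ := CStarAlgebra.nonneg_iff_eq_star_mul_self.1 ha
  have h1 := h (star b)
  rw [star_star] at h1
  have e : rt (star b * b * w) = rt (b * w * star b) := by
    rw [mul_assoc, rt_comm, mul_assoc]
  rw [e]
  exact h1

theorem KC_complete (hC : 1 ≤ C) (s : ℕ → A) (hs : ∀ n, KC C (s n))
    (hc : ∀ ε : ℝ, 0 < ε → ∃ k, ∀ m ≥ k, ∀ n ≥ k, two (s m - s n) ≤ ε) :
    ∃ z : A, KC C z ∧ Tendsto (fun n => two (s n - z)) atTop (𝓝 0) := by
  obtain ⟨z, -, hz⟩ := exists_lim (C := C) (fun n => (hs n).norm_le hC) hc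
  refine ⟨z, ⟨lim_isSelfAdjoint (fun n => (hs n).1) hz, ?_, ?_⟩, hz⟩
  · exact lim_le (fun n => (hs n).2.1) (lim_const _) hz
  · exact lim_le (fun n => (hs n).2.2) hz (lim_const _)

private theorem kc_one76 (hC : 1 ≤ C) : KC C (1 : A) := by
  have hC0 : 0 < C := by linarith
  have h1 : 1 / C ≤ 1 := by
    rw [div_le_iff₀ hC0]
    linarith
  refine ⟨IsSelfAdjoint.one A, ?_, ?_⟩
  · have h : (1 / C) • (1 : A) ≤ (1 : ℝ) • (1 : A) := smul_le_smul_of_nonneg_right h1 zero_le_one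
    rwa [one_smul] at h
  · have h : (1 : ℝ) • (1 : A) ≤ C • (1 : A) := smul_le_smul_of_nonneg_right hC zero_le_one
    rwa [one_smul] at h

theorem exists_fix (hC : 1 ≤ C) (G : A → A) (l L : ℝ) (hl : 0 < l) (hL : 0 < L)
    (hsa : ∀ x, KC C x → IsSelfAdjoint (G x))
    (hmono : ∀ x y, KC C x → KC C y → l * two (x - y) ^ 2 ≤ rt ((G x - G y) * (x - y)))
    (hLip : ∀ x y, KC C x → KC C y → two (G x - G y) ≤ L * two (x - y)) :
    ∃ lam : ℝ, 0 < lam ∧ ∃ x, KC C x ∧ clamp C (x - lam • G x) = x := by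
  have hL2 : 0 < L ^ 2 := by positivity
  obtain ⟨lam, hlam⟩ : ∃ lam : ℝ, lam = l / L ^ 2 := ⟨_, rfl⟩
  have hlam0 : 0 < lam := hlam ▸ div_pos hl hL2
  have hlamL : lam * L ^ 2 = l := by rw [hlam]; field_simp
  refine ⟨lam, hlam0, ?_⟩
  obtain ⟨Φ, hΦ⟩ : ∃ Φ : A → A, Φ = fun x => clamp C (x - lam • G x) := ⟨_, rfl⟩
  have hsa' : ∀ x, KC C x → IsSelfAdjoint (x - lam • G x) := fun x hx =>
    hx.1.sub ((IsSelfAdjoint.all lam).smul (hsa x hx))
  have hΦK : ∀ x, KC C x → KC C (Φ x) := fun x hx => by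
    rw [hΦ]
    exact clamp_kc hC (hsa' x hx)
  obtain ⟨κ, hκ⟩ : ∃ κ : ℝ, κ = max (1 - lam * l) 0 := ⟨_, rfl⟩
  have hκ0 : 0 ≤ κ := hκ ▸ le_max_right _ _
  have hκ1 : κ < 1 := by
    rw [hκ]
    refine max_lt ?_ one_pos
    have := mul_pos hlam0 hl
    linarith
  obtain ⟨q, hq⟩ : ∃ q : ℝ, q = Real.sqrt κ := ⟨_, rfl⟩
  have hq0 : 0 ≤ q := hq ▸ Real.sqrt_nonneg _
  have hq1 : q < 1 := by
    rw [hq, Real.sqrt_lt' one_pos, one_pow]
    exact hκ1
  have hqq : q ^ 2 = κ := by rw [hq]; exact Real.sq_sqrt hκ0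
  have hcon : ∀ x y, KC C x → KC C y → two (Φ x - Φ y) ≤ q * two (x - y) := by
    intro x y hx hy
    have h1 : two (Φ x - Φ y) ≤ two ((x - lam • G x) - (y - lam • G y)) := by
      rw [hΦ]
      exact clamp_two_le hC (hsa' x hx) (hsa' y hy)
    have e : (x - lam • G x) - (y - lam • G y) = (x - y) - lam • (G x - G y) := by
      rw [smul_sub]; abel
    rw [e] at h1
    have h2 : two ((x - y) - lam • (G x - G y)) ^ 2 ≤ κ * two (x - y) ^ 2 := by
      rw [two_sub_sq, (hx.1.sub hy.1).star_eq, mul_smul_comm, rt_smul, two_smul_real,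
        abs_of_pos hlam0, rt_comm (x - y)]
      have h3 := hmono x y hx hy
      have h4 := hLip x y hx hy
      have h5 : two (G x - G y) ^ 2 ≤ (L * two (x - y)) ^ 2 :=
        pow_le_pow_left₀ (two_nonneg _) h4 2
      have h6 : 1 - lam * l ≤ κ := hκ ▸ le_max_left _ _
      have h7 := mul_le_mul_of_nonneg_right h6 (sq_nonneg (two (x - y)))
      have h8 := mul_le_mul_of_nonneg_left h3 hlam0.le
      have h9 := mul_le_mul_of_nonneg_left h5 (sq_nonneg lam)
      have e2 : lam ^ 2 * (L * two (x - y)) ^ 2 = lam * l * two (x - y) ^ 2 := by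
        rw [← hlamL]; ring
      rw [e2] at h9
      rw [mul_pow]
      nlinarith
    have h3 : two ((x - y) - lam • (G x - G y)) ≤ q * two (x - y) := by
      refine (sq_le_sq₀ (two_nonneg _) (mul_nonneg hq0 (two_nonneg _))).1 ?_
      rw [mul_pow, hqq]
      exact h2
    exact h1.trans h3
  obtain ⟨s, hs0, hs1⟩ : ∃ s : ℕ → A, s 0 = 1 ∧ ∀ n, s (n + 1) = Φ (s n) :=
    ⟨fun n => Φ^[n] 1, rfl, fun n => Function.iterate_succ_apply' _ _ _⟩
  have hsK : ∀ n, KC C (s n) := by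
    intro n
    induction n with
    | zero => rw [hs0]; exact kc_one76 hC
    | succ n ih => rw [hs1]; exact hΦK _ ih
  obtain ⟨D, hD⟩ : ∃ D : ℝ, D = two (s 1 - s 0) := ⟨_, rfl⟩
  have hD0 : 0 ≤ D := hD ▸ two_nonneg _
  have hstep : ∀ n, two (s (n + 1) - s n) ≤ D * q ^ n := by
    intro n
    induction n with
    | zero => rw [pow_zero, mul_one, hD]
    | succ n ih =>
      rw [hs1 (n + 1), hs1 n]
      have h1 := hcon _ _ (hΦK _ (hsK n)) (hsK n)
      rw [hs1 n] at ih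
      refine h1.trans ((mul_le_mul_of_nonneg_left ih hq0).trans (le_of_eq ?_))
      ring
  have hq1' : 0 < 1 - q := by linarith
  have hgeo : ∀ n j, two (s (n + j) - s n) ≤ D * q ^ n * (1 - q ^ j) / (1 - q) := by
    intro n j
    induction j with
    | zero =>
      rw [add_zero, sub_self, two_zero, pow_zero, sub_self, mul_zero, zero_div]
    | succ j ih =>
      have h1 := two_sub_le_sub (s (n + (j + 1))) (s (n + j)) (s n)
      have h2 := hstep (n + j)
      refine h1.trans ((add_le_add h2 ih).trans (le_of_eq ?_))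
      rw [pow_add, pow_succ q j]
      field_simp
      ring
  have hcau : ∀ ε : ℝ, 0 < ε → ∃ k, ∀ m ≥ k, ∀ n ≥ k, two (s m - s n) ≤ ε := by
    intro ε hε
    have ht : Tendsto (fun n : ℕ => D * q ^ n / (1 - q)) atTop (𝓝 0) := by
      have := ((tendsto_pow_atTop_nhds_zero_of_lt_one hq0 hq1).const_mul D).div_const (1 - q)
      simpa using this
    obtain ⟨k, hk⟩ := (ht.eventually_le_const hε).exists_forall_of_atTop
    have key : ∀ n ≥ k, ∀ j, two (s (n + j) - s n) ≤ ε := by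
      intro n hn j
      refine (hgeo n j).trans (le_trans ?_ (hk n hn))
      refine div_le_div_of_nonneg_right ?_ hq1'.le
      refine mul_le_of_le_one_right (by positivity) ?_
      have := pow_nonneg hq0 j
      linarith
    refine ⟨k, fun m hm n hn => ?_⟩
    rcases le_total n m with h | h
    · obtain ⟨j, rfl⟩ := Nat.exists_eq_add_of_le h
      exact key n hn j
    · obtain ⟨j, rfl⟩ := Nat.exists_eq_add_of_le h
      rw [two_sub_comm]
      exact key m hm j
  obtain ⟨z, hzK, hz⟩ := KC_complete hC s hsK hcau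
  refine ⟨z, hzK, ?_⟩
  have h1 : Tendsto (fun n => two (s (n + 1) - z)) atTop (𝓝 0) :=
    hz.comp (tendsto_add_atTop_nat 1)
  have h2 : Tendsto (fun n => two (s (n + 1) - Φ z)) atTop (𝓝 0) := by
    have h3 := hz.const_mul q
    rw [mul_zero] at h3
    refine squeeze_zero (fun _ => two_nonneg _) (fun n => ?_) h3
    rw [hs1]
    exact hcon _ _ (hsK n) hzK
  have h3 := lim_unique h2 h1
  rw [hΦ] at h3
  exact h3

/-- Energies. -/
theorem KC.en_iv (a : Avg A) (h : KC C x) (hC : 1 ≤ C) :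
    Real.sqrt (2 * a.en (iv x)) ≤ C ^ 2 * Real.sqrt (2 * a.en x) := by
  have hC2 : 0 ≤ C ^ 2 := sq_nonneg C
  have h1 : 2 * a.en (iv x) ≤ (C ^ 2) ^ 2 * (2 * a.en x) := by
    rw [a.en_eq_conj, a.en_eq_conj, ← mul_assoc, ← mul_assoc 2, mul_one_div_cancel two_ne_zero,
      one_mul, one_mul, Finset.mul_sum]
    refine Finset.sum_le_sum fun i _ => ?_
    rw [← h.iv_conj hC (a.u_star_mul i) (a.u_mul_star i)]
    have h2 := (h.conj hC (a.u_star_mul i) (a.u_mul_star i)).two_iv_sub_le h hC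
    have h3 := pow_le_pow_left₀ (two_nonneg _) h2 2
    rw [mul_pow] at h3
    have h4 := mul_le_mul_of_nonneg_left h3 (a.p_pos i).le
    refine h4.trans (le_of_eq ?_)
    ring
  calc Real.sqrt (2 * a.en (iv x)) ≤ Real.sqrt ((C ^ 2) ^ 2 * (2 * a.en x)) :=
        Real.sqrt_le_sqrt h1
    _ = C ^ 2 * Real.sqrt (2 * a.en x) := by
        rw [Real.sqrt_mul (sq_nonneg _), Real.sqrt_sq hC2]

theorem KC.en_sr (a : Avg A) (h : KC C x) (hC : 1 ≤ C) :
    Real.sqrt (2 * a.en (sr x)) ≤ Real.sqrt C / 2 * Real.sqrt (2 * a.en x) := by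
  have hC2 : 0 ≤ Real.sqrt C / 2 := by positivity
  have h1 : 2 * a.en (sr x) ≤ (Real.sqrt C / 2) ^ 2 * (2 * a.en x) := by
    rw [a.en_eq_conj, a.en_eq_conj, ← mul_assoc, ← mul_assoc 2, mul_one_div_cancel two_ne_zero,
      one_mul, one_mul, Finset.mul_sum]
    refine Finset.sum_le_sum fun i _ => ?_
    rw [← h.sr_conj hC (a.u_star_mul i) (a.u_mul_star i)]
    have h2 := (h.conj hC (a.u_star_mul i) (a.u_mul_star i)).two_sr_sub_le h hC
    have h3 := pow_le_pow_left₀ (two_nonneg _) h2 2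
    rw [mul_pow] at h3
    have h4 := mul_le_mul_of_nonneg_left h3 (a.p_pos i).le
    refine h4.trans (le_of_eq ?_)
    ring
  calc Real.sqrt (2 * a.en (sr x)) ≤ Real.sqrt ((Real.sqrt C / 2) ^ 2 * (2 * a.en x)) :=
        Real.sqrt_le_sqrt h1
    _ = Real.sqrt C / 2 * Real.sqrt (2 * a.en x) := by
        rw [Real.sqrt_mul (sq_nonneg _), Real.sqrt_sq hC2]

end Pool.Agent.PTH
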