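import Pool.Agent.PTH.Tb2

/-!
# Toolbox: projections (`Prj p` : `star p = p ∧ p * p = p`)

PROOFS: elementary.  `p ≤ q` gives `p = p q`: `‖(1-q) p‖² = ‖p (1-q) p‖`, and
`0 ≤ (1-q) p (1-q) ≤ (1-q) q (1-q) = 0`, so `p (1-q) = 0` (`star_mul_self_eq_zero_iff`).
-/

open Filter Topology

namespace Pool.Agent.PTH

open TrAlg

variable {N : Type*} [CStarAlgebra N]

theorem prj_zero : Prj (0 : N) := ⟨star_zero _, mul_zero _⟩

theorem prj_one : Prj (1 : N) := ⟨star_one _, mul_one _⟩

theorem prj_sa {p : N} (hp : Prj p) : IsSelfAdjoint p := hp.1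

theorem prj_one_sub {p : N} (hp : Prj p) : Prj (1 - p) := by
  refine ⟨by rw [star_sub, star_one, hp.1], ?_⟩
  have h2 := hp.2
  have : (1 - p) * (1 - p) = 1 - p - p + p * p := by noncomm_ring
  rw [this, h2]
  noncomm_ring

theorem prj_mul_one_sub {p : N} (hp : Prj p) : p * (1 - p) = 0 := by
  rw [mul_sub, mul_one, hp.2, sub_self]

theorem prj_one_sub_mul {p : N} (hp : Prj p) : (1 - p) * p = 0 := by
  rw [sub_mul, one_mul, hp.2, sub_self]

/-- Products of commuting projections. -/
theorem prj_mul {p q : N} (hp : Prj p) (hq : Prj q) (h : p * q = q * p) : Prj (p * q) := by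
  refine ⟨by rw [star_mul, hp.1, hq.1, h], ?_⟩
  have : p * q * (p * q) = p * (q * p) * q := by noncomm_ring
  rw [this, ← h]
  have : p * (p * q) * q = (p * p) * (q * q) := by noncomm_ring
  rw [this, hp.2, hq.2]

/-- Sums of orthogonal projections. -/
theorem prj_add {p q : N} (hp : Prj p) (hq : Prj q) (h : p * q = 0) : Prj (p + q) := by
  have h' : q * p = 0 := by
    have := congrArg star h
    rwa [star_mul, hp.1, hq.1, star_zero] at this
  refine ⟨by rw [star_add, hp.1, hq.1], ?_⟩
  rw [mul_add, add_mul, add_mul, hp.2, hq.2, h, h']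
  abel

theorem prj_orth_symm {p q : N} (hp : Prj p) (hq : Prj q) (h : p * q = 0) : q * p = 0 := by
  have := congrArg star h
  rwa [star_mul, hp.1, hq.1, star_zero] at this

theorem prj_sub {p q : N} (hp : Prj p) (hq : Prj q) (h : p * q = p) : Prj (q - p) := by
  have h' : q * p = p := by
    have := congrArg star h
    rwa [star_mul, hp.1, hq.1] at this
  refine ⟨by rw [star_sub, hp.1, hq.1], ?_⟩
  rw [mul_sub, sub_mul, sub_mul, hp.2, hq.2, h, h']
  abel

theorem prj_conj {u p : N} (hu : star u * u = 1) (hp : Prj p) : Prj (u * p * star u) := by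
  refine ⟨by rw [star_mul, star_mul, star_star, hp.1, mul_assoc], ?_⟩
  have : u * p * star u * (u * p * star u) = u * p * (star u * u) * p * star u := by noncomm_ring
  rw [this, hu, mul_one]
  have : u * p * p * star u = u * (p * p) * star u := by noncomm_ring
  rw [this, hp.2]

section order

variable [PartialOrder N] [StarOrderedRing N]

theorem mul_eq_zero_of_conj {a x : N} (ha : 0 ≤ a) (h : star x * a * x = 0) : a * x = 0 := by
  obtain ⟨z, rfl⟩ := CStarAlgebra.nonneg_iff_eq_star_mul_self.1 ha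
  have h1 : star (z * x) * (z * x) = 0 := by
    rw [star_mul, ← h]; noncomm_ring
  have h2 := (CStarRing.star_mul_self_eq_zero_iff _).1 h1
  rw [mul_assoc, h2, mul_zero]

/-- Hereditary: `0 ≤ a ≤ b`, `b x = 0` gives `a x = 0`. -/
theorem mul_eq_zero_of_le {a b x : N} (ha : 0 ≤ a) (hab : a ≤ b) (h : b * x = 0) : a * x = 0 := by
  refine mul_eq_zero_of_conj ha (le_antisymm ?_ (star_left_conjugate_nonneg ha x))
  have := star_left_conjugate_le_conjugate hab x
  rwa [mul_assoc (star x) b, h, mul_zero] at this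

theorem prj_le_of_mul {p q : N} (hp : Prj p) (hq : Prj q) (h : p * q = p) : p ≤ q := by
  have h2 : 0 ≤ q - p := by
    have h3 := prj_sub hp hq h
    rw [← h3.2]
    nth_rewrite 1 [← h3.1]
    exact star_mul_self_nonneg _
  exact sub_nonneg.1 h2

theorem prj_mul_of_le {p q : N} (hp : 0 ≤ p) (hq : Prj q) (h : p ≤ q) : p * q = p := by
  have h1 : p * (1 - q) = 0 := mul_eq_zero_of_le hp h (prj_mul_one_sub hq)
  rw [mul_sub, mul_one, sub_eq_zero] at h1
  exact h1.symm

theorem prj_mul_of_le' {p q : N} (hp : 0 ≤ p) (hq : Prj q) (h : p ≤ q) : q * p = p := by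
  have h1 := congrArg star (prj_mul_of_le hp hq h)
  rwa [star_mul, hq.1, (IsSelfAdjoint.of_nonneg hp).star_eq] at h1

/-- `0 ≤ x ≤ C p` gives `x p = x`. -/
theorem mul_prj_of_le_smul {x p : N} (hx : 0 ≤ x) (hp : Prj p) {C : ℝ} (h : x ≤ C • p) :
    x * p = x := by
  have h1 : x * (1 - p) = 0 := mul_eq_zero_of_le hx h (by
    rw [smul_mul_assoc, prj_mul_one_sub hp, smul_zero])
  rw [mul_sub, mul_one, sub_eq_zero] at h1
  exact h1.symm

end order

end Pool.Agent.PTH
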