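import Pool.Agent.PTH.CcRb
import Pool.Agent.PTH.CcM
import Pool.Agent.PTH.TbPj

/-!
# PTH / CcRc: the solution of the variational inequality

`C > 1`.  `tl q Ψ (x) = Ψ(x) + (1-q) x (1-q)`.
`Sol C q Ψ x m`: `x ∈ KC C` commutes with `q`, `(1-q) x = 1-q`, `m ≥ 0`, `q m = m`, `m x = C m`,
`Ψ(x) = q x⁻¹ - m`.

(A) `tl`: let `Ψt = tl q Ψ`, `SM q Ψ`.  Positive; `Ψt(x*) = Ψt(x)*`; `Ψt(1) ≤ q + (1-q) = 1`;
 `Re τ(x* Ψt(x)) ≥ 0` (`= Re τ(x*Ψ(x)) + ‖(1-q)x(1-q)‖₂²`); `‖Ψt x‖₂ ≤ ‖x‖₂`: `Ψt(x) = Ψ(qxq) + q'xq'`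
 (`q' = 1-q`) with orthogonal summands: `‖.‖₂² ≤ ‖qxq‖₂² + ‖q'xq'‖₂² ≤ ‖x‖₂²`; symmetric.
(B) `exists_vi`: `G(x) = Ψt(x) - x⁻¹` on `KC`: `Re τ((Gx-Gy)(x-y)) ≥ C⁻² ‖x-y‖₂²` (`Pos2` for the
 selfadjoint `x-y`, `KC.mono_iv`), `‖Gx-Gy‖₂ ≤ (1+C²)‖x-y‖₂`.  `exists_fix`: `x = clamp(x - λG(x))`.
 `clamp_spec` for `x - λG(x)`: `-λG(x) = n - m'`, `n m' = 0`, `n x = C n`, `m' x = (1/C) m'`.  CLAIM `m' = 0`.
 From `m' x = m'/C`: `m' x⁻¹ = C m'` (multiply by `x⁻¹`), also `x⁻¹ m' = C m'`.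
 `m' G(x) m' = m'(m' - n)m'/λ = m'³/λ`; on the other hand
 `m' G(x) m' = m' Ψt(x) m' - m' x⁻¹ m' ≤ C m'² - C m'² = 0`, as `Ψt(x) ≤ Ψt(C) ≤ C`.  So `m'³ ≤ 0`, and
 `m'³ ≥ 0`, so `m'³ = 0`, `m' = 0`.  Put `m = n/λ`: `G(x) = -m`, `m x = C m`, `m ≥ 0`.
(C) `vi_unique`: `(x,m)`, `(y,n)` as in (B): `C⁻²‖x-y‖₂² ≤ Re τ((Gx-Gy)(x-y)) = Re τ((n-m)(x-y))
 = -Re τ(m(C-y)) - Re τ(n(C-x)) ≤ 0` (`τ(m x) = C τ(m)`, `τ(n y) = C τ(n)`; `rt_mul_nonneg`).
(D) `exists_sol`: `s = 2q-1` is a selfadjoint unitary.  `Ψt(s x s) = Ψt(x) = s Ψt(x) s` (`qs = q`,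
 `q's = -q'`, and `Ψt(x) ∈ qAq + q'Aq'`).  So `(s x s, s m s)` is also a solution of `Ψt(y) = y⁻¹ - n`
 (`KC.iv_conj`); by (C) `s x s = x`: `x` commutes with `q`, so do `x⁻¹` and `m = x⁻¹ - Ψt(x)`.
 Multiply `Ψt(x) = x⁻¹ - m` by `q'`: `q'x = q'x⁻¹ - m'`, `m' = q'm ≥ 0` (commuting), `m' x = C m'`,
 `m' x⁻¹ = m'/C`.  Multiply by `m'`: `C m' = m'/C - m'²`, so `m'² + (C - 1/C) m' = 0`, both terms are
 `≥ 0`: `m' = 0`, i.e. `q m = m`.  Then `q'x = q'x⁻¹`, `q'x² = q'`, `q'(x-1)(x+1) = 0`, and `x+1` is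
 invertible (`x + 1 ≥ 1`; e.g. `KC (C+1) (x+1)`): `q'(x-1) = 0`.  `Ψ(x) = qΨt(x) = q x⁻¹ - m`.
(E) the square root `b = sr x`: `Ψ_b = cjM b Ψ`, `Ψ_b(1) = b Ψ(b b) b = b(q x⁻¹ - m) b = q - C m`
 (`b x⁻¹ b = 1`, `b m b = C m` by `KC.mul_sr` and its adjoint).  So `0 ≤ C m ≤ q`.
-/

open Filter Topology
open scoped InnerProductSpace ComplexOrder

namespace Pool.Agent.PTH

open TrAlg

/-- `Ψ(x) + (1-q) x (1-q)`. -/
noncomputable def tl {A : Type*} [CStarAlgebra A] (q : A) (Ψ : A →ₗ[ℂ] A) : A →ₗ[ℂ] A :=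
  Ψ + { toFun := fun x => (1 - q) * x * (1 - q)
        map_add' := fun x y => by rw [mul_add, add_mul]
        map_smul' := fun r x => by rw [RingHom.id_apply, mul_smul_comm, smul_mul_assoc] }

/-- Solution of the variational inequality. -/
structure Sol {A : Type*} [CStarAlgebra A] [PartialOrder A] (C : ℝ) (q : A) (Ψ : A →ₗ[ℂ] A)
    (x m : A) : Prop where
  kc : KC C x
  comm : q * x = x * q
  out : (1 - q) * x = 1 - q
  m0 : 0 ≤ m
  qm : q * m = m
  xm : m * x = C • m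
  eq : Ψ x = q * iv x - m

variable {A : Type*} [CStarAlgebra A] [PartialOrder A] [StarOrderedRing A] [TracialVN A]
  {C : ℝ} {q x y m n : A} {Ψ : A →ₗ[ℂ] A}

theorem tl_apply (q : A) (Ψ : A →ₗ[ℂ] A) (x : A) : tl q Ψ x = Ψ x + (1 - q) * x * (1 - q) := rfl

private theorem rt_conj_prj {p : A} (hp : Prj p) (x : A) :
    rt (star x * (p * x * p)) = two (p * x * p) ^ 2 := by
  have e1 : rt (star x * (p * x * p)) = rt (star x * (p * x) * p) := by
    congr 1; noncomm_ring
  have e2 : rt (star x * (p * x) * p) = rt (star x * (p * x) * p * p) := by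
    have : star x * (p * x) * p * p = star x * (p * x) * (p * p) := by noncomm_ring
    rw [this, hp.2]
  have e3 : star (p * x * p) * (p * x * p) = p * (star x * (p * x) * p) := by
    rw [star_mul, star_mul, hp.1]
    have : p * (star x * p) * (p * x * p) = p * (star x * ((p * p) * x) * p) := by noncomm_ring
    rw [this, hp.2]
  rw [e1, e2, rt_comm, two_sq_rt, e3]

private theorem two_left {q : A} (hq : Prj q) (x : A) :
    two (q * x) ^ 2 + two ((1 - q) * x) ^ 2 = two x ^ 2 := by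
  have hq' := prj_one_sub hq
  have h : ∀ p : A, Prj p → two (p * x) ^ 2 = rt (star x * p * x) := by
    intro p hp
    rw [two_sq_rt, star_mul, hp.1]
    have : star x * p * (p * x) = star x * (p * p) * x := by noncomm_ring
    rw [this, hp.2]
  rw [h q hq, h _ hq', two_sq_rt, ← rt_add]
  congr 1
  noncomm_ring

private theorem two_right {q : A} (hq : Prj q) (x : A) :
    two (x * q) ^ 2 + two (x * (1 - q)) ^ 2 = two x ^ 2 := by
  have h := two_left hq (star x)
  rw [two_star] at h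
  have hq' := prj_one_sub hq
  have h1 : two (x * q) = two (q * star x) := by
    rw [← two_star, star_mul, hq.1]
  have h2 : two (x * (1 - q)) = two ((1 - q) * star x) := by
    rw [← two_star, star_mul, hq'.1]
  rw [h1, h2, h]

/-- (A) -/
theorem tl_nonneg (hq : Prj q) (h : SM q Ψ) {x : A} (hx : 0 ≤ x) : 0 ≤ tl q Ψ x := by
  rw [tl_apply]
  refine add_nonneg (h.cp.nonneg hx) ?_
  have h1 := star_left_conjugate_nonneg hx (1 - q)
  rwa [(prj_one_sub hq).1] at h1

theorem tl_star (hq : Prj q) (h : SM q Ψ) (x : A) : tl q Ψ (star x) = star (tl q Ψ x) := by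
  rw [tl_apply, tl_apply, h.cp.map_star, star_add, star_mul, star_mul, (prj_one_sub hq).1,
    mul_assoc (1 - q)]

theorem tl_one (hq : Prj q) (h : SM q Ψ) : tl q Ψ 1 ≤ 1 := by
  rw [tl_apply, mul_one, (prj_one_sub hq).2]
  have h1 := add_le_add_left h.le (1 - q)
  rwa [add_sub_cancel] at h1

theorem tl_pos2 (hq : Prj q) (h : SM q Ψ) (x : A) : 0 ≤ rt (star x * tl q Ψ x) := by
  rw [tl_apply, mul_add, rt_add, rt_conj_prj (prj_one_sub hq)]
  exact add_nonneg (h.pos2 x) (sq_nonneg _)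

theorem tl_two_le (hq : Prj q) (h : SM q Ψ) (x : A) : two (tl q Ψ x) ≤ two x := by
  have hq' := prj_one_sub hq
  have h0 : star (Ψ x) * ((1 - q) * x * (1 - q)) = 0 := by
    have h1 : star (Ψ x) * (1 - q) = 0 := by
      have h2 := congrArg star (h.q_mul hq x)
      rw [star_mul, hq.1] at h2
      rw [mul_sub, mul_one, h2, sub_self]
    rw [mul_assoc (1 - q), ← mul_assoc, h1, zero_mul]
  have h1 : two (tl q Ψ x) ^ 2 ≤ two x ^ 2 := by
    rw [tl_apply, two_add_sq, h0, rt_zero, mul_zero, add_zero]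
    have h2 : two (Ψ x) ^ 2 ≤ two (q * x * q) ^ 2 := by
      have h3 := h.two_le hq (q * x * q)
      rw [h.apply_q hq] at h3
      exact pow_le_pow_left₀ (two_nonneg _) h3 2
    have h4 := two_left hq x
    have h5 := two_right hq (q * x)
    have h6 := two_right hq ((1 - q) * x)
    nlinarith [sq_nonneg (two (q * x * (1 - q))), sq_nonneg (two ((1 - q) * x * q))]
  exact (pow_le_pow_iff_left₀ (two_nonneg _) (two_nonneg _) (by norm_num)).1 h1

private theorem tl_le (hC : 1 < C) (hq : Prj q) (h : SM q Ψ) (hx : KC C x) :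
    tl q Ψ x ≤ C • (1 : A) := by
  have h1 := tl_nonneg hq h (sub_nonneg.2 hx.2.2)
  rw [map_sub, ← Complex.coe_smul, map_smul, Complex.coe_smul] at h1
  refine (sub_nonneg.1 h1).trans ?_
  exact smul_le_smul_of_nonneg_left (tl_one hq h) (by linarith)

private theorem m_iv (hC : 1 < C) (hx : KC C x) {c : ℝ} (hc : c ≠ 0) (h : m * x = c • m) :
    m * iv x = (1 / c) • m := by
  have h1 : m * x * iv x = m := by rw [mul_assoc, hx.mul_iv hC.le, mul_one]
  rw [h, smul_mul_assoc] at h1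
  nth_rewrite 2 [← h1]
  rw [smul_smul, one_div, inv_mul_cancel₀ hc, one_smul]

/-- (B) -/
theorem exists_vi (hC : 1 < C) (hq : Prj q) (h : SM q Ψ) :
    ∃ x m : A, KC C x ∧ 0 ≤ m ∧ m * x = C • m ∧ tl q Ψ x = iv x - m := by
  have hC0 : (0 : ℝ) < C := by linarith
  have hC1 : (1 : ℝ) ≤ C := hC.le
  obtain ⟨lam, hlam, x, hx, hfix⟩ := exists_fix (A := A) hC1 (fun x => tl q Ψ x - iv x)
    (1 / C ^ 2) (1 + C ^ 2) (by positivity) (by positivity)
    (fun x hx => by
      have h1 : IsSelfAdjoint (tl q Ψ x) := by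
        rw [IsSelfAdjoint, ← tl_star hq h, hx.1.star_eq]
      exact h1.sub (hx.iv_kc hC1).1)
    (fun x y hx hy => by
      have h1 := hx.mono_iv hy hC1
      have h2 := tl_pos2 hq h (x - y)
      rw [(hx.1.sub hy.1).star_eq, rt_comm] at h2
      have e : (tl q Ψ x - iv x - (tl q Ψ y - iv y)) * (x - y) =
          tl q Ψ (x - y) * (x - y) + (iv y - iv x) * (x - y) := by
        rw [map_sub]; noncomm_ring
      change _ ≤ rt ((tl q Ψ x - iv x - (tl q Ψ y - iv y)) * (x - y))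
      rw [e, rt_add]
      linarith)
    (fun x y hx hy => by
      have h1 := hx.two_iv_sub_le hy hC1
      have h2 := tl_two_le hq h (x - y)
      have e : tl q Ψ x - iv x - (tl q Ψ y - iv y) = tl q Ψ (x - y) - (iv x - iv y) := by
        rw [map_sub]; abel
      change two (tl q Ψ x - iv x - (tl q Ψ y - iv y)) ≤ _
      rw [e]
      refine (two_sub_le _ _).trans ?_
      linarith)
  have hGsa : IsSelfAdjoint (tl q Ψ x - iv x) := by
    have h1 : IsSelfAdjoint (tl q Ψ x) := by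
      rw [IsSelfAdjoint, ← tl_star hq h, hx.1.star_eq]
    exact h1.sub (hx.iv_kc hC1).1
  have hysa : IsSelfAdjoint (x - lam • (tl q Ψ x - iv x)) :=
    hx.1.sub (IsSelfAdjoint.smul (by simp [IsSelfAdjoint]) hGsa)
  obtain ⟨n, m', hn, hm', h1, h2, h3, h4⟩ := clamp_spec hC1 hysa
  rw [hfix] at h1 h3 h4
  have h1' : lam • (tl q Ψ x - iv x) = m' - n := by
    have : -(lam • (tl q Ψ x - iv x)) = n - m' := by rw [← h1]; abel
    rw [← neg_neg (lam • (tl q Ψ x - iv x)), this, neg_sub]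
  have hmn : m' * n = 0 := by
    have := congrArg star h2
    rwa [star_mul, star_zero, (IsSelfAdjoint.of_nonneg hn).star_eq,
      (IsSelfAdjoint.of_nonneg hm').star_eq] at this
  have hmiv : m' * iv x = C • m' := by
    have := m_iv hC hx (by positivity) h4
    rwa [one_div_one_div] at this
  have hm0 : m' = 0 := by
    have e1 : lam • (m' * (tl q Ψ x - iv x) * m') = m' * m' * m' := by
      rw [← smul_mul_assoc, ← mul_smul_comm, h1', mul_sub, hmn, sub_zero]
    have e2 : m' * (tl q Ψ x - iv x) * m' ≤ 0 := by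
      have h5 : 0 ≤ m' * (C • (1 : A) - tl q Ψ x) * m' := by
        have h6 := star_left_conjugate_nonneg (sub_nonneg.2 (tl_le hC hq h hx)) m'
        rwa [(IsSelfAdjoint.of_nonneg hm').star_eq] at h6
      have h7 : m' * (tl q Ψ x - iv x) * m' = -(m' * (C • (1 : A) - tl q Ψ x) * m') := by
        rw [mul_sub, hmiv, mul_sub, mul_smul_comm, mul_one]
        noncomm_ring
      rw [h7]
      exact neg_nonpos.2 h5
    have e3 : m' * m' * m' ≤ 0 := by
      rw [← e1]
      exact smul_nonpos_of_nonneg_of_nonpos hlam.le e2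
    have e4 : 0 ≤ m' * m' * m' := by
      have h6 := star_left_conjugate_nonneg hm' m'
      rwa [(IsSelfAdjoint.of_nonneg hm').star_eq] at h6
    have e5 : star m' * m' * m' = 0 := by
      rw [(IsSelfAdjoint.of_nonneg hm').star_eq]
      exact le_antisymm e3 e4
    have e6 := mul_eq_zero_of_conj hm' e5
    refine (CStarRing.star_mul_self_eq_zero_iff _).1 ?_
    rw [(IsSelfAdjoint.of_nonneg hm').star_eq, e6]
  refine ⟨x, (1 / lam) • n, hx, smul_nonneg (by positivity) hn, ?_, ?_⟩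
  · rw [smul_mul_assoc, h3, smul_comm]
  · have e : tl q Ψ x - iv x = -((1 / lam) • n) := by
      have h5 : (1 / lam) • (lam • (tl q Ψ x - iv x)) = (1 / lam) • (m' - n) := by rw [h1']
      rw [smul_smul, one_div, inv_mul_cancel₀ hlam.ne', one_smul, hm0, zero_sub, smul_neg] at h5
      rw [h5, one_div]
    rw [← sub_eq_zero]
    have : tl q Ψ x - (iv x - (1 / lam) • n) = (tl q Ψ x - iv x) + (1 / lam) • n := by abel
    rw [this, e]
    abel

/-- (C) -/
theorem vi_unique (hC : 1 < C) (hq : Prj q) (h : SM q Ψ) (hx : KC C x) (hy : KC C y)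
    (hm : 0 ≤ m) (hn : 0 ≤ n) (hmx : m * x = C • m) (hny : n * y = C • n)
    (hxe : tl q Ψ x = iv x - m) (hye : tl q Ψ y = iv y - n) : x = y := by
  have h1 := hx.mono_iv hy hC.le
  have h2 := tl_pos2 hq h (x - y)
  rw [(hx.1.sub hy.1).star_eq, rt_comm, map_sub, hxe, hye] at h2
  have e : (iv x - m - (iv y - n)) * (x - y) = -((iv y - iv x) * (x - y)) +
      ((n * x - n * y) - (m * x - m * y)) := by noncomm_ring
  rw [e, hmx, hny, rt_add, rt_neg, rt_sub, rt_sub, rt_sub, rt_smul, rt_smul] at h2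
  have h3 : rt (n * x) ≤ C * rt n := by
    have := rt_mul_mono hn hx.2.2
    rwa [mul_smul_comm, mul_one, rt_smul] at this
  have h4 : rt (m * y) ≤ C * rt m := by
    have := rt_mul_mono hm hy.2.2
    rwa [mul_smul_comm, mul_one, rt_smul] at this
  have h5 : 1 / C ^ 2 * two (x - y) ^ 2 ≤ 0 := by linarith
  have hC2 : (0 : ℝ) < 1 / C ^ 2 := by have : (0 : ℝ) < C := by linarith
                                       positivity
  have h6 : two (x - y) ^ 2 ≤ 0 := by
    by_contra hcon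
    push Not at hcon
    have := mul_pos hC2 hcon
    linarith
  have h7 : two (x - y) = 0 :=
    pow_eq_zero_iff (two_ne_zero) |>.1 (le_antisymm h6 (sq_nonneg _))
  exact sub_eq_zero.1 (two_eq_zero h7)

/-- (D) -/
theorem exists_sol (hC : 1 < C) (hq : Prj q) (h : SM q Ψ) : ∃ x m : A, Sol C q Ψ x m := by
  obtain ⟨x, m, hx, hm, hmx, he⟩ := exists_vi hC hq h
  have hC0 : (0 : ℝ) < C := by linarith
  have hq' := prj_one_sub hq
  have hqq' : q * (1 - q) = 0 := prj_mul_one_sub hq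
  have hq'q : (1 - q) * q = 0 := prj_one_sub_mul hq
  set s : A := q - (1 - q) with hs
  have hss : star s = s := by rw [hs, star_sub, hq.1, hq'.1]
  have hsq : s * q = q := by rw [hs, sub_mul, hq.2, hq'q, sub_zero]
  have hqs : q * s = q := by rw [hs, mul_sub, hq.2, hqq', sub_zero]
  have hsq' : s * (1 - q) = -(1 - q) := by rw [hs, sub_mul, hq'.2, hqq', zero_sub]
  have hq's : (1 - q) * s = -(1 - q) := by rw [hs, mul_sub, hq'.2, hq'q, zero_sub]
  have hs2 : s * s = 1 := by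
    nth_rewrite 1 [hs]
    rw [sub_mul, hqs, hq's]
    abel
  have hsu : star s * s = 1 := by rw [hss, hs2]
  have hsu' : s * star s = 1 := by rw [hss, hs2]
  have hqΨ := h.q_mul hq x
  have hΨq := h.mul_q hq x
  have hq'Ψ : (1 - q) * Ψ x = 0 := by rw [sub_mul, one_mul, hqΨ, sub_self]
  have hΨq' : Ψ x * (1 - q) = 0 := by rw [mul_sub, mul_one, hΨq, sub_self]
  -- invariance of `tl`
  have e1 : tl q Ψ (s * x * star s) = tl q Ψ x := by
    rw [tl_apply, tl_apply, hss]
    have e2 : Ψ (s * x * s) = Ψ x := by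
      rw [← h.apply_q hq (s * x * s), ← h.apply_q hq x]
      have : q * (s * x * s) * q = (q * s) * x * (s * q) := by noncomm_ring
      rw [this, hqs, hsq]
    have e3 : (1 - q) * (s * x * s) * (1 - q) = ((1 - q) * s) * x * (s * (1 - q)) := by
      noncomm_ring
    rw [e2, e3, hq's, hsq']
    noncomm_ring
  have e4 : s * tl q Ψ x * star s = tl q Ψ x := by
    rw [tl_apply, hss, mul_add, add_mul]
    have e5 : s * Ψ x * s = Ψ x := by
      nth_rewrite 1 [← hqΨ]
      rw [← mul_assoc, hsq, hqΨ]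
      nth_rewrite 1 [← hΨq]
      rw [mul_assoc, hqs, hΨq]
    have e6 : s * ((1 - q) * x * (1 - q)) * s = (s * (1 - q)) * x * ((1 - q) * s) := by
      noncomm_ring
    rw [e5, e6, hsq', hq's]
    noncomm_ring
  have hx' := hx.conj hC.le hsu hsu'
  have hm' : 0 ≤ s * m * star s := star_right_conjugate_nonneg hm s
  have hmx' : s * m * star s * (s * x * star s) = C • (s * m * star s) := by
    have : s * m * star s * (s * x * star s) = s * m * (star s * s) * x * star s := by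
      noncomm_ring
    rw [this, hsu, mul_one]
    have : s * m * x * star s = s * (m * x) * star s := by noncomm_ring
    rw [this, hmx, mul_smul_comm, smul_mul_assoc]
  have he' : tl q Ψ (s * x * star s) = iv (s * x * star s) - s * m * star s := by
    rw [e1, hx.iv_conj hC.le hsu hsu', ← e4, he, mul_sub, sub_mul]
  have hsx : s * x * star s = x := vi_unique hC hq h hx' hx hm' hm hmx' hmx he' he
  have hsx2 : s * x = x * s := by
    have h1 : s * x * star s * s = x * s := by rw [hsx]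
    rwa [mul_assoc (s * x), hsu, mul_one] at h1
  have hqx : q * x = x * q := by
    have h1 : q * x + q * x = x * q + x * q := by
      have h2 : s * x = q * x + q * x - x := by rw [hs]; noncomm_ring
      have h3 : x * s = x * q + x * q - x := by rw [hs]; noncomm_ring
      rw [h2, h3] at hsx2
      exact sub_left_injective hsx2
    have h2 : (2 : ℝ) • (q * x) = (2 : ℝ) • (x * q) := by rw [two_smul, two_smul, h1]
    exact smul_right_injective A (two_ne_zero) h2
  have hqi : q * iv x = iv x * q := hx.iv_comm hC.le hqx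
  have hqt : q * tl q Ψ x = Ψ x := by
    rw [tl_apply, mul_add, hqΨ]
    have : q * ((1 - q) * x * (1 - q)) = (q * (1 - q)) * (x * (1 - q)) := by noncomm_ring
    rw [this, hqq', zero_mul, add_zero]
  have htq : tl q Ψ x * q = Ψ x := by
    rw [tl_apply, add_mul, hΨq]
    have : (1 - q) * x * (1 - q) * q = (1 - q) * x * ((1 - q) * q) := by noncomm_ring
    rw [this, hq'q, mul_zero, add_zero]
  have hme : m = iv x - tl q Ψ x := by rw [he]; abel
  have hqm : q * m = m * q := by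
    rw [hme, mul_sub, sub_mul, hqi, hqt, htq]
  have hq'm : (1 - q) * m = m * (1 - q) := by
    rw [sub_mul, one_mul, hqm, mul_sub, mul_one]
  have hq'x : (1 - q) * x = x * (1 - q) := by
    rw [sub_mul, one_mul, hqx, mul_sub, mul_one]
  -- the part of `m` outside `q`
  have hm1 : 0 ≤ (1 - q) * m := by
    have h1 := star_left_conjugate_nonneg hm (1 - q)
    rwa [hq'.1, hq'm, mul_assoc, hq'.2, ← hq'm] at h1
  have hr : (1 - q) * x = (1 - q) * iv x - (1 - q) * m := by
    have h1 : (1 - q) * tl q Ψ x = (1 - q) * x := by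
      rw [tl_apply, mul_add, hq'Ψ, zero_add]
      have : (1 - q) * ((1 - q) * x * (1 - q)) = ((1 - q) * (1 - q)) * (x * (1 - q)) := by
        noncomm_ring
      rw [this, hq'.2, ← hq'x, ← mul_assoc, hq'.2]
    rw [← h1, he, mul_sub]
  have hmiv : m * iv x = (1 / C) • m := m_iv hC hx hC0.ne' hmx
  have hz : (1 - q) * m = 0 := by
    refine eq_zero_of_rt hm1 ?_
    have h1 : m * ((1 - q) * x) = C • ((1 - q) * m) := by
      rw [← mul_assoc, ← hq'm, mul_assoc, hmx, mul_smul_comm]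
    have h2 : m * ((1 - q) * iv x) = (1 / C) • ((1 - q) * m) := by
      rw [← mul_assoc, ← hq'm, mul_assoc, hmiv, mul_smul_comm]
    have h3 : m * ((1 - q) * m) = ((1 - q) * m) * ((1 - q) * m) := by
      have : ((1 - q) * m) * ((1 - q) * m) = ((1 - q) * m * (1 - q)) * m := by noncomm_ring
      rw [this, mul_assoc (1 - q), ← hq'm, ← mul_assoc (1 - q), hq'.2, ← mul_assoc, ← hq'm]
    have h4 : C • ((1 - q) * m) = (1 / C) • ((1 - q) * m) - ((1 - q) * m) * ((1 - q) * m) := by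
      rw [← h1, ← h2, ← h3, ← mul_sub, ← hr]
    have h5 := congrArg rt h4
    rw [rt_smul, rt_sub, rt_smul] at h5
    have h6 : 0 ≤ rt (((1 - q) * m) * ((1 - q) * m)) := rt_mul_nonneg hm1 hm1
    have h7 := rt_nonneg hm1
    have h8 : 1 / C < C := by
      rw [div_lt_iff₀ hC0]
      nlinarith
    nlinarith
  have hqm2 : q * m = m := by
    have : q * m = m - (1 - q) * m := by noncomm_ring
    rw [this, hz, sub_zero]
  rw [hz, sub_zero] at hr
  have hout : (1 - q) * x = 1 - q := by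
    set z : A := (1 - q) * (x - 1) with hzd
    have h1 : (1 - q) * x * x = 1 - q := by
      rw [hr, mul_assoc, hx.iv_mul hC.le, mul_one]
    have h2 : z * x = -z := by
      have : z * x + z = (1 - q) * x * x - (1 - q) := by rw [hzd]; noncomm_ring
      rw [h1, sub_self] at this
      exact eq_neg_of_add_eq_zero_left this
    have h3 : 0 ≤ rt (z * x * star z) := rt_conj_nonneg' (hx.nonneg hC.le) z
    rw [h2, neg_mul, rt_neg, ← two_sq_rt'] at h3
    have h4 : two z = 0 :=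
      pow_eq_zero_iff (two_ne_zero) |>.1 (le_antisymm (by linarith) (sq_nonneg _))
    have h5 := two_eq_zero h4
    rw [hzd, mul_sub, mul_one] at h5
    exact sub_eq_zero.1 h5
  refine ⟨x, m, hx, hqx, hout, hm, hqm2, hmx, ?_⟩
  rw [← hqt, he, mul_sub, hqm2]

private theorem sr_star (hC : 1 < C) (hx : KC C x) : star (sr x) = sr x :=
  (IsSelfAdjoint.of_nonneg (hx.sr_nonneg hC.le)).star_eq

/-- (E) -/
theorem Sol.cj_one (hC : 1 < C) (hq : Prj q) (h : SM q Ψ) (hs : Sol C q Ψ x m) :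
    cjM (sr x) Ψ 1 = q - C • m := by
  have hx := hs.kc
  have h1 : q * sr x = sr x * q := hx.sr_comm hC.le hs.comm
  have h2 : iv x * sr x = sr x * iv x :=
    hx.sr_comm hC.le (by rw [hx.iv_mul hC.le, hx.mul_iv hC.le])
  have h3 : m * sr x = Real.sqrt C • m := hx.mul_sr hC.le hs.xm
  have h4 : sr x * m = Real.sqrt C • m := by
    have := congrArg star h3
    rwa [star_mul, star_smul, sr_star hC hx, (IsSelfAdjoint.of_nonneg hs.m0).star_eq,
      star_trivial] at this
  rw [cjM_apply, sr_star hC hx, mul_one, hx.sr_mul hC.le, hs.eq, mul_sub, sub_mul]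
  congr 1
  · rw [← mul_assoc, ← h1]
    have : q * sr x * iv x * sr x = q * (sr x * iv x) * sr x := by noncomm_ring
    rw [this, ← h2]
    have : q * (iv x * sr x) * sr x = q * (iv x * (sr x * sr x)) := by noncomm_ring
    rw [this, hx.sr_mul hC.le, hx.iv_mul hC.le, mul_one]
  · rw [h4, smul_mul_assoc, h3, smul_smul, Real.mul_self_sqrt (by linarith)]

theorem Sol.m_le (hC : 1 < C) (hq : Prj q) (h : SM q Ψ) (hs : Sol C q Ψ x m) : C • m ≤ q := by
  have h1 := hs.cj_one hC hq h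
  have h2 : 0 ≤ cjM (sr x) Ψ 1 := by
    rw [cjM_apply]
    refine star_right_conjugate_nonneg (h.cp.nonneg ?_) _
    rw [mul_one]
    exact star_mul_self_nonneg _
  rw [h1] at h2
  exact sub_nonneg.1 h2

end Pool.Agent.PTH
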