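import Pool.Agent.PTH.CcRc
import Pool.Agent.PTH.CcE

/-!
# PTH / CcRdx: helper lemmas for CcRd
-/

open Filter Topology
open scoped InnerProductSpace ComplexOrder

universe u

namespace Pool.Agent.PTH

open TrAlg

namespace CcRdx

variable {A : Type u} [CStarAlgebra A] [PartialOrder A] [StarOrderedRing A] [TracialVN A]
  {C : ℝ} {q x m f : A} {Ψ : A →ₗ[ℂ] A} {B : Bim.{u} A} {ξ : B.H} (a : Avg A)

theorem iv_out (hC : 1 < C) (hs : Sol C q Ψ x m) : (1 - q) * iv x = 1 - q := by
  have h1 : (1 - q) * x * iv x = (1 - q) * iv x := by rw [hs.out]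
  rw [mul_assoc, hs.kc.mul_iv hC.le, mul_one] at h1
  exact h1.symm

theorem q_iv (hC : 1 < C) (hs : Sol C q Ψ x m) : q * iv x = iv x - (1 - q) := by
  have h1 := iv_out hC hs
  rw [sub_mul, one_mul] at h1
  rw [← h1]
  abel

theorem tl_eq (hC : 1 < C) (hq : Prj q) (hs : Sol C q Ψ x m) :
    tl q Ψ x = iv x - m := by
  have h2 : (1 - q) * (1 - q) = 1 - q := by
    rw [mul_sub, mul_one, sub_mul, one_mul, hq.2, sub_self, sub_zero]
  rw [tl_apply, hs.eq, q_iv hC hs, hs.out, h2]
  abel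

theorem le_C (hs : Sol C q Ψ x m) : x ≤ C • (1 : A) := hs.kc.2.2

theorem mink {ι : Type*} [Fintype ι] (p f g : ι → ℝ) (hp : ∀ i, 0 ≤ p i) :
    Real.sqrt (∑ i, p i * (f i + g i) ^ 2) ≤
      Real.sqrt (∑ i, p i * f i ^ 2) + Real.sqrt (∑ i, p i * g i ^ 2) := by
  have hF : 0 ≤ ∑ i, p i * f i ^ 2 := Finset.sum_nonneg fun i _ => mul_nonneg (hp i) (sq_nonneg _)
  have hG : 0 ≤ ∑ i, p i * g i ^ 2 := Finset.sum_nonneg fun i _ => mul_nonneg (hp i) (sq_nonneg _)
  have h1 : (∑ i, p i * (f i * g i)) ^ 2 ≤ (∑ i, p i * f i ^ 2) * ∑ i, p i * g i ^ 2 :=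
    Finset.sum_sq_le_sum_mul_sum_of_sq_le_mul _ (fun i _ => mul_nonneg (hp i) (sq_nonneg _))
      (fun i _ => mul_nonneg (hp i) (sq_nonneg _)) (fun i _ => le_of_eq (by ring))
  have h2 : ∑ i, p i * (f i + g i) ^ 2 =
      ∑ i, p i * f i ^ 2 + 2 * ∑ i, p i * (f i * g i) + ∑ i, p i * g i ^ 2 := by
    rw [Finset.mul_sum, ← Finset.sum_add_distrib, ← Finset.sum_add_distrib]
    exact Finset.sum_congr rfl fun i _ => by ring
  rw [h2]
  set F := ∑ i, p i * f i ^ 2
  set G := ∑ i, p i * g i ^ 2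
  set H := ∑ i, p i * (f i * g i)
  have h3 : H ≤ Real.sqrt F * Real.sqrt G := by
    rw [← Real.sqrt_mul hF]
    exact Real.le_sqrt_of_sq_le h1
  apply Real.sqrt_le_iff.2
  refine ⟨by positivity, ?_⟩
  nlinarith [Real.sq_sqrt hF, Real.sq_sqrt hG]

theorem en2_sub (x y : A) :
    Real.sqrt (2 * a.en (x - y)) ≤ Real.sqrt (2 * a.en x) + Real.sqrt (2 * a.en y) := by
  have h1 := a.sqrt_en_add_le x (-y)
  have h2 : a.en (-y) = a.en y := by
    have := a.en_smul (-1) y
    rw [neg_one_smul, norm_neg, norm_one, one_pow, one_mul] at this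
    exact this
  rw [h2, ← sub_eq_add_neg] at h1
  rw [Real.sqrt_mul zero_le_two, Real.sqrt_mul zero_le_two, Real.sqrt_mul zero_le_two, ← mul_add]
  exact mul_le_mul_of_nonneg_left h1 (Real.sqrt_nonneg _)

theorem norm_le_one_of {v : A} (hv : star v * v = 1) : ‖v‖ ≤ 1 := by
  have h1 : ‖v‖ * ‖v‖ ≤ 1 := by
    rw [← CStarRing.norm_star_mul_self, hv]
    exact norm_one_le'
  nlinarith [norm_nonneg v]

theorem rt_conj {v : A} (hv : star v * v = 1) (w : A) : rt (v * w * star v) = rt w := by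
  rw [rt_comm, ← mul_assoc, hv, one_mul]

theorem tl_conj_le (hC : 1 < C) (hq : Prj q) (h : SM q Ψ) (hs : Sol C q Ψ x m)
    (hr : Rep B ξ Ψ) (v : A) (hv : star v * v = 1) (hv' : v * star v = 1) :
    two (tl q Ψ (v * x * star v) - v * tl q Ψ x * star v) ≤
      2 * C * (‖B.l v ξ - B.r v ξ‖ + two (v * q * star v - q)) := by
  have hx := hs.kc
  have hC0 : 0 < C := by linarith
  set y := v * x * star v with hy
  have hyk : KC C y := hx.conj hC.le hv hv'
  have hyn : ‖y‖ ≤ C := hyk.norm_le hC.le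
  have hxn : ‖x‖ ≤ C := hx.norm_le hC.le
  set t := tl q Ψ x with ht
  have e1 : (1 - q) * y * (1 - q) - v * ((1 - q) * x * (1 - q)) * star v =
      (1 - q) * y * (v * q * star v - q) +
        (v * q * star v - q) * (y * (v * (1 - q) * star v)) := by
    have e2 : v * ((1 - q) * x * (1 - q)) * star v =
        v * (1 - q) * star v * y * (v * (1 - q) * star v) := by
      rw [hy]
      calc v * ((1 - q) * x * (1 - q)) * star v
          = v * (1 - q) * 1 * x * 1 * (1 - q) * star v := by noncomm_ring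
        _ = v * (1 - q) * (star v * v) * x * (star v * v) * (1 - q) * star v := by rw [hv]
        _ = _ := by noncomm_ring
    have e3 : v * (1 - q) * star v = 1 - v * q * star v := by
      rw [mul_sub, mul_one, sub_mul, hv']
    rw [e2, e3]
    noncomm_ring
  have e4 : tl q Ψ y - v * t * star v = (Ψ (v * x * star v) - v * Ψ x * star v) +
      ((1 - q) * y * (v * q * star v - q) +
        (v * q * star v - q) * (y * (v * (1 - q) * star v))) := by
    rw [← e1, ht, tl_apply, tl_apply, ← hy]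
    noncomm_ring
  have e5 := hr.two_tw_le h hq x v hv hv'
  have hq1 : ‖1 - q‖ ≤ 1 := norm_proj_le (by
    refine ⟨by rw [star_sub, star_one, hq.1], ?_⟩
    rw [mul_sub, mul_one, sub_mul, one_mul, hq.2, sub_self, sub_zero])
  have e6 : two ((1 - q) * y * (v * q * star v - q)) ≤ C * two (v * q * star v - q) := by
    refine (two_mul_le _ _).trans (mul_le_mul_of_nonneg_right ?_ (two_nonneg _))
    refine (norm_mul_le _ _).trans ?_
    have := mul_le_mul hq1 hyn (norm_nonneg y) zero_le_one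
    linarith
  have e7 : two ((v * q * star v - q) * (y * (v * (1 - q) * star v))) ≤
      C * two (v * q * star v - q) := by
    refine (two_mul_le' _ _).trans ?_
    rw [mul_comm]
    refine mul_le_mul_of_nonneg_right ?_ (two_nonneg _)
    have hv1 : ‖v‖ ≤ 1 := norm_le_one_of hv
    have hv2 : ‖v * (1 - q) * star v‖ ≤ 1 := by
      refine (norm_mul_le _ _).trans ?_
      rw [norm_star]
      have h1 : ‖v * (1 - q)‖ ≤ 1 :=
        (norm_mul_le _ _).trans (mul_le_one₀ hv1 (norm_nonneg _) hq1)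
      exact mul_le_one₀ h1 (norm_nonneg _) hv1
    refine (norm_mul_le _ _).trans ?_
    have := mul_le_mul hyn hv2 (norm_nonneg _) hC0.le
    linarith
  have e8 : 2 * ‖x‖ * ‖B.l v ξ - B.r v ξ‖ ≤ 2 * C * ‖B.l v ξ - B.r v ξ‖ :=
    mul_le_mul_of_nonneg_right (by linarith) (norm_nonneg _)
  rw [e4]
  refine (two_add_le _ _).trans ?_
  have e9 := two_add_le ((1 - q) * y * (v * q * star v - q))
    ((v * q * star v - q) * (y * (v * (1 - q) * star v)))
  linarith

end CcRdx

end Pool.Agent.PTH
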