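import Pool.Agent.PTH.CcRc
import Pool.Agent.PTH.CcE
import Pool.Agent.PTH.CcRdx

/-!
# PTH / CcRd: the identity, almost centrality of the solution

`Sol C q Ψ x m`, `C > 1`.
* `key`: `d = q - Ψ(1) ≥ 0`, `D = τ(d)`.  (real traces)
  (i) `τ(Ψ x) = τ(q x⁻¹) - τ(m)` and `τ(Ψ x) = τ(x Ψ(1)) = τ(xq) - τ(xd)`;
  (ii) `τ(Ψ(x) x) = τ(q) - C τ(m)`;   (iii) `τ(Ψ 1) = τ(q) - D`.
  `0 ≤ ⟨Ψ(x-1), x-1⟩ = τ(Ψ(x)x) - 2τ(Ψ x) + τ(Ψ 1) = 2τ(q) - Cτ(m) - 2τ(xq) + 2τ(xd) - D` and by (i)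
  `τ(q(x + x⁻¹ - 2)) = 2τ(xq) + τ(m) - τ(xd) - 2τ(q)`.  Sum:
  `τ(q(x+x⁻¹-2)) + ⟨Ψ(x-1),x-1⟩ = -(C-1)τ(m) + τ((x-1)d) ≤ -(C-1)τ(m) + (C-1)D`.
  `z = x + x⁻¹ - 2 ≥ 0` (cfc, `t + 1/t ≥ 2`), `0 ≤ f ≤ q`: `τ(qz) ≥ τ(fz) = ((C-1)²/C) τ(f)`
  (`f x = C f`, `f x⁻¹ = f/C`).  Divide by `C-1`.
* `two_conj_le`: `v` unitary, `y = vxv*`, `z = y - x`.  `KC.mono_iv`: `C⁻²‖z‖₂² ≤ Re τ((x⁻¹ - y⁻¹) z)`.
  `x⁻¹ = Ψt(x) + m` (`Ψt = tl q Ψ`, `Ψt(x) = Ψ(x) + (1-q)`), `y⁻¹ = v x⁻¹ v*`.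
  `Re τ((m - vmv*)z) = -τ(m(C-y)) - τ(vmv*(C-x)) ≤ 0` (`m x = C m`, `vmv* y = C vmv*`).
  `Re τ((Ψt x - Ψt y) z) = -Re τ(Ψt(z) z) ≤ 0` (`tl_pos2`).
  `Ψt y - vΨt(x)v* = [Ψ(vxv*) - vΨ(x)v*] + [q'yq' - q'_v y q'_v]`, `q' = 1-q`, `q'_v = vq'v*`; 2-norms:
  `≤ 2C‖vξ-ξv‖` (`Rep.two_tw_le`), `≤ 2C‖q'-q'_v‖₂ = 2C‖vqv*-q‖₂`.
  So `C⁻²‖z‖₂² ≤ ‖z‖₂ 2C(‖vξ-ξv‖ + ‖vqv*-q‖₂)`.
* `en_x`: Minkowski in `ℓ²(p)` (`Avg.en_eq_conj`, `Bim.en`, `Rep.en_eq`).
* `en_m`: `m = x⁻¹ - Ψ(x) - (1-q)`; `KC.en_iv`, `Rep.sqrt_en_apply_le` (`‖x‖ ≤ C`), `Avg.en_one_sub`,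
  `Avg.sqrt_en_add_le`.
-/

open Filter Topology
open scoped InnerProductSpace ComplexOrder

universe u

namespace Pool.Agent.PTH

open TrAlg CcRdx

namespace Sol

variable {A : Type u} [CStarAlgebra A] [PartialOrder A] [StarOrderedRing A] [TracialVN A]
  {C : ℝ} {q x m f : A} {Ψ : A →ₗ[ℂ] A} {B : Bim.{u} A} {ξ : B.H} (a : Avg A)

theorem key (hC : 1 < C) (hq : Prj q) (h : SM q Ψ) (hs : Sol C q Ψ x m) (hf0 : 0 ≤ f)
    (hf1 : f ≤ q) (hfx : f * x = C • f) :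
    (C - 1) / C * rt f + rt m ≤ rt q - rt (Ψ 1) := by
  have hx := hs.kc
  have hC0 : 0 < C := by linarith
  have hd : 0 ≤ q - Ψ 1 := sub_nonneg.2 h.le
  have hxs : star x = x := hx.1
  have hX : rt (Ψ x) = rt (x * Ψ 1) := by rw [rt, rt, h.tau_apply]
  have e1 : rt (Ψ x) = rt (q * iv x) - rt m := by rw [hs.eq, rt_sub]
  have e2 : rt (x * Ψ x) = rt q - C * rt m := by
    rw [rt_comm, hs.eq, sub_mul, mul_assoc, hx.iv_mul hC.le, mul_one, hs.xm, rt_sub, rt_smul]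
  have e3 : 0 ≤ rt (x * Ψ x) - rt (x * Ψ 1) - rt (Ψ x) + rt (Ψ 1) := by
    have h1 := h.pos2 (x - 1)
    have h2 : star (x - 1) * Ψ (x - 1) = x * Ψ x - x * Ψ 1 - Ψ x + Ψ 1 := by
      rw [star_sub, star_one, hxs, map_sub]
      noncomm_ring
    rw [h2, rt_add, rt_sub, rt_sub] at h1
    exact h1
  have e4 : rt (q * x) = rt (x * Ψ 1) + rt (x * (q - Ψ 1)) := by
    rw [mul_sub, rt_sub, rt_comm q x]
    ring
  have e5 : rt (x * (q - Ψ 1)) ≤ C * (rt q - rt (Ψ 1)) := by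
    have h1 := rt_mul_mono' hd (le_C hs)
    rw [smul_mul_assoc, one_mul, rt_smul, rt_sub] at h1
    exact h1
  have hz : x + iv x - 2 • (1 : A) = star (x - 1) * iv x * (x - 1) := by
    rw [star_sub, star_one, hxs, sub_mul, hx.mul_iv hC.le, one_mul, sub_mul, one_mul, mul_sub,
      hx.iv_mul hC.le, mul_one, two_smul]
    abel
  have hz0 : 0 ≤ x + iv x - 2 • (1 : A) := by
    rw [hz]
    exact star_left_conjugate_nonneg ((hx.iv_kc hC.le).nonneg hC.le) _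
  have e6 := rt_mul_mono' hz0 hf1
  have hfi : f * iv x = C⁻¹ • f := by
    have h1 : f = C • (f * iv x) := by
      rw [← smul_mul_assoc, ← hfx, mul_assoc, hx.mul_iv hC.le, mul_one]
    rw [eq_inv_smul_iff₀ hC0.ne', ← h1]
  have e7 : rt (f * (x + iv x - 2 • (1 : A))) = (C + C⁻¹ - 2) * rt f := by
    rw [mul_sub, mul_add, hfx, hfi, mul_smul_comm, mul_one, rt_sub, rt_add, rt_smul, rt_smul,
      two_smul, rt_add]
    ring
  have e8 : rt (q * (x + iv x - 2 • (1 : A))) = rt (q * x) + rt (q * iv x) - 2 * rt q := by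
    rw [mul_sub, mul_add, mul_smul_comm, mul_one, rt_sub, rt_add, two_smul, rt_add]
    ring
  rw [e7, e8] at e6
  have e9 : (C - 1) * ((C - 1) / C * rt f + rt m) ≤ (C - 1) * (rt q - rt (Ψ 1)) := by
    have h1 : (C - 1) * ((C - 1) / C * rt f) = (C + C⁻¹ - 2) * rt f := by
      field_simp
      ring
    rw [mul_add, h1]
    nlinarith
  exact le_of_mul_le_mul_left e9 (by linarith)

theorem two_conj_le (hC : 1 < C) (hq : Prj q) (h : SM q Ψ) (hs : Sol C q Ψ x m)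
    (hr : Rep B ξ Ψ) (v : A) (hv : star v * v = 1) (hv' : v * star v = 1) :
    two (v * x * star v - x) ≤
      2 * C ^ 3 * (‖B.l v ξ - B.r v ξ‖ + two (v * q * star v - q)) := by
  have hx := hs.kc
  have hC0 : 0 < C := by linarith
  have hxs : star x = x := hx.1
  set y := v * x * star v with hy
  have hyk : KC C y := hx.conj hC.le hv hv'
  have hys : star y = y := hyk.1
  have hyC : y ≤ C • (1 : A) := hyk.2.2
  have hiv : iv y = v * iv x * star v := hx.iv_conj hC.le hv hv'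
  have h0 := hyk.mono_iv hx hC.le
  have htx := tl_eq hC hq hs
  have hix : iv x = tl q Ψ x + m := by rw [htx]; abel
  set t := tl q Ψ x with ht
  have hm0 := hs.m0
  have hsp : rt ((iv x - iv y) * (y - x)) = rt ((tl q Ψ y - v * t * star v) * (y - x)) -
      rt (star (y - x) * tl q Ψ (y - x)) + (rt (m * y) - rt (m * x) -
      rt (v * m * star v * y) + rt (v * m * star v * x)) := by
    have e1 : (iv x - iv y) * (y - x) = (tl q Ψ y - v * t * star v) * (y - x) -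
        tl q Ψ (y - x) * (y - x) + (m * y - m * x - v * m * star v * y + v * m * star v * x) := by
      rw [hiv, hix, map_sub, ← ht]
      noncomm_ring
    rw [e1, rt_add, rt_sub, rt_add, rt_sub, rt_sub, rt_comm (tl q Ψ (y - x)) (y - x), star_sub,
      hys, hxs]
  have hvmv : 0 ≤ v * m * star v := star_right_conjugate_nonneg hm0 v
  have i1 : rt (m * y) ≤ C * rt m := by
    have := rt_mul_mono hm0 hyC
    rwa [mul_smul_comm, mul_one, rt_smul] at this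
  have i2 : rt (m * x) = C * rt m := by rw [hs.xm, rt_smul]
  have i3 : rt (v * m * star v * y) = C * rt m := by
    have : v * m * star v * y = v * (m * x) * star v := by
      rw [hy]
      calc v * m * star v * (v * x * star v) = v * m * (star v * v) * x * star v := by noncomm_ring
        _ = v * (m * x) * star v := by rw [hv, mul_one, mul_assoc v m x]
    rw [this, rt_conj hv, i2]
  have i4 : rt (v * m * star v * x) ≤ C * rt m := by
    have := rt_mul_mono hvmv (le_C hs)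
    rwa [mul_smul_comm, mul_one, rt_smul, rt_conj hv] at this
  have i5 := tl_pos2 hq h (y - x)
  have hyn : ‖y‖ ≤ C := hyk.norm_le hC.le
  have hxn : ‖x‖ ≤ C := hx.norm_le hC.le
  have i6 : two (tl q Ψ y - v * t * star v) ≤
      2 * C * (‖B.l v ξ - B.r v ξ‖ + two (v * q * star v - q)) :=
    tl_conj_le hC hq h hs hr v hv hv'
  have i7 := rt_mul_le_two (tl q Ψ y - v * t * star v) (y - x)
  have hz := two_nonneg (y - x)
  have i8 : 1 / C ^ 2 * two (y - x) ^ 2 ≤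
      2 * C * (‖B.l v ξ - B.r v ξ‖ + two (v * q * star v - q)) * two (y - x) := by
    have := mul_le_mul_of_nonneg_right i6 hz
    linarith
  set K := ‖B.l v ξ - B.r v ξ‖ + two (v * q * star v - q) with hK
  have hK0 : 0 ≤ K := add_nonneg (norm_nonneg _) (two_nonneg _)
  rcases hz.eq_or_lt with h1 | h1
  · rw [← h1]
    positivity
  · have i9 : 1 / C ^ 2 * two (y - x) ≤ 2 * C * K := by
      refine le_of_mul_le_mul_right ?_ h1
      calc 1 / C ^ 2 * two (y - x) * two (y - x) = 1 / C ^ 2 * two (y - x) ^ 2 := by ring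
        _ ≤ _ := i8
    rw [one_div, inv_mul_le_iff₀ (by positivity)] at i9
    calc two (y - x) ≤ C ^ 2 * (2 * C * K) := i9
      _ = 2 * C ^ 3 * K := by ring

theorem en_x (hC : 1 < C) (hq : Prj q) (h : SM q Ψ) (hs : Sol C q Ψ x m) (hr : Rep B ξ Ψ) :
    Real.sqrt (2 * a.en x) ≤
      2 * C ^ 3 * (Real.sqrt (2 * enM a Ψ) + Real.sqrt (2 * a.en q)) := by
  have hC0 : 0 < C := by linarith
  have e1 : 2 * a.en x = ∑ i, a.p i * two (a.u i * x * star (a.u i) - x) ^ 2 := by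
    rw [a.en_eq_conj]
    ring
  have e2 : 2 * a.en q = ∑ i, a.p i * two (a.u i * q * star (a.u i) - q) ^ 2 := by
    rw [a.en_eq_conj]
    ring
  have e3 : 2 * enM a Ψ = ∑ i, a.p i * ‖B.l (a.u i) ξ - B.r (a.u i) ξ‖ ^ 2 := by
    rw [← hr.en_eq a, Bim.en]
    ring
  rw [e1, e2, e3]
  have h2 := mink a.p (fun i => ‖B.l (a.u i) ξ - B.r (a.u i) ξ‖)
    (fun i => two (a.u i * q * star (a.u i) - q)) (fun i => (a.p_pos i).le)
  have h3 : Real.sqrt (∑ i, a.p i * two (a.u i * x * star (a.u i) - x) ^ 2) ≤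
      2 * C ^ 3 * Real.sqrt (∑ i, a.p i * (‖B.l (a.u i) ξ - B.r (a.u i) ξ‖ +
        two (a.u i * q * star (a.u i) - q)) ^ 2) := by
    apply Real.sqrt_le_iff.2
    refine ⟨by positivity, ?_⟩
    rw [mul_pow, Real.sq_sqrt (Finset.sum_nonneg fun i _ =>
      mul_nonneg (a.p_pos i).le (sq_nonneg _)), Finset.mul_sum]
    refine Finset.sum_le_sum fun i _ => ?_
    have h4 := two_conj_le hC hq h hs hr (a.u i) (a.u_star_mul i) (a.u_mul_star i)
    have h5 := pow_le_pow_left₀ (two_nonneg _) h4 2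
    have h6 := mul_le_mul_of_nonneg_left h5 (a.p_pos i).le
    refine h6.trans (le_of_eq ?_)
    ring
  exact h3.trans (mul_le_mul_of_nonneg_left h2 (by positivity))

theorem en_m (hC : 1 < C) (hq : Prj q) (h : SM q Ψ) (hs : Sol C q Ψ x m) (hr : Rep B ξ Ψ) :
    Real.sqrt (2 * a.en m) ≤ (C ^ 2 + 1) * Real.sqrt (2 * a.en x) +
      2 * C * Real.sqrt (2 * enM a Ψ) + Real.sqrt (2 * a.en q) := by
  have hx := hs.kc
  have hm : m = iv x - Ψ x - (1 - q) := by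
    rw [hs.eq, q_iv hC hs]
    abel
  have h1 := en2_sub a (iv x - Ψ x) (1 - q)
  have h2 := en2_sub a (iv x) (Ψ x)
  have h3 := hx.en_iv a hC.le
  have h4 := hr.sqrt_en_apply_le a h hq x
  have h5 : 2 * ‖x‖ * Real.sqrt (2 * enM a Ψ) ≤ 2 * C * Real.sqrt (2 * enM a Ψ) :=
    mul_le_mul_of_nonneg_right (by linarith [hx.norm_le hC.le]) (Real.sqrt_nonneg _)
  rw [a.en_one_sub] at h1
  rw [hm]
  linarith

end Sol

end Pool.Agent.PTH
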