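import Pool.Agent.PTH.Tb5

/-!
# Toolbox: more on `spr x t = 1_{x > t}`

PROOFS.  Everything follows from Tb5 (functions of `x`), for instance
* `smul_spr_le_mul`: `cfc_mul_spr_nonneg` with `g s = s - t`; `mul_one_sub_spr_le` with `t - s`.
* `sq_smul_spr_le`: `spr_le_cfc` with `g s = s² / t²` (`t > 0`), etc.
* `spr_eq_zero`: `1 * spr x t = 0 * spr x t` (`cfc_mul_spr_congr`).
* `spr_cfc_le`: `f(x)`-ramp: `rmp t' n (f s) = 0` for `s ≤ t`, so `cfc (rmp t' n) (cfc f x) =
  cfc (rmp t' n ∘ f) x` (`cfc_comp`) satisfies `_ * spr x t = _` (`cfc_mul_spr_eq_cfc`); pass to the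
  limit: `spr (cfc f x) t' * spr x t = spr (cfc f x) t'`, so `≤` (`prj_le_of_mul`).
* `spr_le_spr_cfc`: for fixed `k`, `rmp t k s (1 - rmp t' n (f s)) ≤ k δ` for `s < t + δ`, and for
  `s ≥ t + δ` in the spectrum `f s ≥ t' + η` (compactness), so it is `0` for `n ≥ 1/η`: norm
  convergence to `0`; so `cfc (rmp t k) x * (1 - spr (cfc f x) t') = 0`, then `k → ∞`.
* `spr_conj`: `cfc f (u x u*) = u cfc f x u*` (`StarAlgHom.map_cfc` / unitary conjugation).
-/

open Filter Topology

namespace Pool.Agent.PTH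

open TrAlg

variable {N : Type*} [CStarAlgebra N] [PartialOrder N] [StarOrderedRing N] [TracialVN N]

omit [PartialOrder N] [StarOrderedRing N] [TracialVN N] in
private theorem cfc_sub_c {x : N} (hx : IsSelfAdjoint x) (t : ℝ) :
    cfc (fun s : ℝ => s - t) x = x - t • (1 : N) := by
  rw [cfc_sub (fun s : ℝ => s) (fun _ : ℝ => t) x (by fun_prop) (by fun_prop), cfc_id' ℝ x hx,
    cfc_const t x hx, Algebra.algebraMap_eq_smul_one]

omit [PartialOrder N] [StarOrderedRing N] [TracialVN N] in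
private theorem cfc_c_sub {x : N} (hx : IsSelfAdjoint x) (t : ℝ) :
    cfc (fun s : ℝ => t - s) x = t • (1 : N) - x := by
  rw [cfc_sub (fun _ : ℝ => t) (fun s : ℝ => s) x (by fun_prop) (by fun_prop), cfc_id' ℝ x hx,
    cfc_const t x hx, Algebra.algebraMap_eq_smul_one]

theorem smul_spr_le_mul {x : N} (hx : IsSelfAdjoint x) (t : ℝ) : t • spr x t ≤ x * spr x t := by
  have h := cfc_mul_spr_nonneg (x := x) (g := fun s : ℝ => s - t) (by fun_prop) (t := t)
    (fun s _ hs => by linarith)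
  rw [cfc_sub_c hx, sub_mul, smul_mul_assoc, one_mul] at h
  exact sub_nonneg.1 h

theorem mul_one_sub_spr_le {x : N} (hx : IsSelfAdjoint x) (t : ℝ) :
    x * (1 - spr x t) ≤ t • (1 - spr x t) := by
  have h := cfc_mul_one_sub_spr_nonneg (x := x) hx (g := fun s : ℝ => t - s) (by fun_prop) (t := t)
    (fun s _ hs => by linarith)
  rw [cfc_c_sub hx, sub_mul, smul_mul_assoc, one_mul] at h
  exact sub_nonneg.1 h

omit [PartialOrder N] [StarOrderedRing N] [TracialVN N] in
private theorem mul_split (x e : N) : x = x * e + x * (1 - e) := by noncomm_ring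

theorem smul_spr_le {x : N} (hx : 0 ≤ x) {t : ℝ} (ht : 0 ≤ t) : t • spr x t ≤ x := by
  have hs : IsSelfAdjoint x := IsSelfAdjoint.of_nonneg hx
  have h1 := smul_spr_le_mul hs t
  have h2 := cfc_mul_one_sub_spr_nonneg (x := x) hs (g := fun s : ℝ => s) (by fun_prop) (t := t)
    (fun s h _ => spectrum_nonneg_of_nonneg hx h)
  rw [cfc_id' ℝ x hs] at h2
  calc t • spr x t ≤ x * spr x t := h1
    _ ≤ x * spr x t + x * (1 - spr x t) := le_add_of_nonneg_right h2
    _ = x := (mul_split x _).symm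

theorem sq_smul_spr_le {x : N} (hx : 0 ≤ x) {t : ℝ} (ht : 0 ≤ t) :
    (t ^ 2) • spr x t ≤ x * x := by
  have hs : IsSelfAdjoint x := IsSelfAdjoint.of_nonneg hx
  have e1 : cfc (fun s : ℝ => s * s) x = x * x := by
    rw [cfc_mul (fun s : ℝ => s) (fun s : ℝ => s) x (by fun_prop) (by fun_prop), cfc_id' ℝ x hs]
  have e2 : cfc (fun s : ℝ => s * s - t ^ 2) x = x * x - (t ^ 2) • (1 : N) := by
    rw [cfc_sub (fun s : ℝ => s * s) (fun _ : ℝ => t ^ 2) x (by fun_prop) (by fun_prop), e1,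
      cfc_const _ x hs, Algebra.algebraMap_eq_smul_one]
  have h1 := cfc_mul_spr_nonneg (x := x) (g := fun s : ℝ => s * s - t ^ 2) (by fun_prop) (t := t)
    (fun s _ hs => by nlinarith)
  rw [e2, sub_mul, smul_mul_assoc, one_mul, sub_nonneg] at h1
  have h2 := cfc_mul_one_sub_spr_nonneg (x := x) hs (g := fun s : ℝ => s * s) (by fun_prop) (t := t)
    (fun s _ _ => mul_self_nonneg s)
  rw [e1] at h2
  calc (t ^ 2) • spr x t ≤ x * x * spr x t := h1
    _ ≤ x * x * spr x t + x * x * (1 - spr x t) := le_add_of_nonneg_right h2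
    _ = x * x := (mul_split (x * x) _).symm

/-- `x ≤ t + ‖x‖ 1_{x > t}`. -/
theorem le_add_spr {x : N} (hx : 0 ≤ x) {t : ℝ} (ht : 0 ≤ t) :
    x ≤ t • (1 : N) + ‖x‖ • spr x t := by
  have hs : IsSelfAdjoint x := IsSelfAdjoint.of_nonneg hx
  have h1 := mul_one_sub_spr_le hs t
  have h2 := cfc_mul_spr_nonneg (x := x) (g := fun s : ℝ => ‖x‖ - s) (by fun_prop) (t := t)
    (fun s h _ => by
      have h3 := (le_algebraMap_iff_spectrum_le (r := ‖x‖) (a := x) hs).1
        (by rw [Algebra.algebraMap_eq_smul_one]; exact le_norm_smul_one hs) s h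
      linarith)
  rw [cfc_c_sub hs, sub_mul, smul_mul_assoc, one_mul, sub_nonneg] at h2
  have h3 : t • (1 - spr x t) ≤ t • (1 : N) :=
    smul_le_smul_of_nonneg_left (sub_le_self _ (spr_nonneg x t)) ht
  calc x = x * spr x t + x * (1 - spr x t) := mul_split x _
    _ ≤ ‖x‖ • spr x t + t • (1 : N) := add_le_add h2 (h1.trans h3)
    _ = _ := add_comm _ _

/-- `1_{x ≤ t} ≥ 1 - x / t`. -/
theorem one_sub_le_one_sub_spr {x : N} (hx : 0 ≤ x) {t : ℝ} (ht : 0 < t) :
    1 - (1 / t) • x ≤ 1 - spr x t := by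
  have h1 := smul_spr_le hx ht.le
  have h2 : (1 / t) • (t • spr x t) ≤ (1 / t) • x :=
    smul_le_smul_of_nonneg_left h1 (by positivity)
  rw [smul_smul, one_div_mul_cancel ht.ne', one_smul] at h2
  exact sub_le_sub_left h2 1

theorem spr_eq_zero {x : N} (hx : IsSelfAdjoint x) {t : ℝ} (h : x ≤ t • (1 : N)) :
    spr x t = 0 := by
  rw [← Algebra.algebraMap_eq_smul_one, le_algebraMap_iff_spectrum_le hx] at h
  have h1 := cfc_mul_spr_eq_zero (x := x) (g := fun _ : ℝ => (1 : ℝ)) (by fun_prop) (t := t)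
    (fun s hs hts => absurd (h s hs) (not_le.2 hts))
  rwa [cfc_const_one ℝ x hx, one_mul] at h1

theorem spr_eq_one {x : N} (hx : IsSelfAdjoint x) {s t : ℝ} (hst : t < s) (h : s • (1 : N) ≤ x) :
    spr x t = 1 := by
  rw [← Algebra.algebraMap_eq_smul_one, algebraMap_le_iff_le_spectrum hx] at h
  have h1 := cfc_mul_one_sub_spr_congr (x := x) hx (g := fun _ : ℝ => (1 : ℝ))
    (g' := fun _ : ℝ => (0 : ℝ)) (by fun_prop) (by fun_prop) (t := t)
    (fun r hr hrt => absurd (h r hr) (not_le.2 (by linarith)))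
  rw [cfc_const_one ℝ x hx, cfc_const_zero ℝ x, one_mul, zero_mul, sub_eq_zero] at h1
  exact h1.symm

/-- `1_{x > t} = 0` only if `x ≤ t`. -/
theorem le_of_spr_eq_zero {x : N} (hx : IsSelfAdjoint x) {t : ℝ} (h : spr x t = 0) :
    x ≤ t • (1 : N) := by
  have h1 := mul_one_sub_spr_le hx t
  rwa [h, sub_zero, mul_one] at h1

theorem spr_ne_zero_of_lt_norm {x : N} (hx : 0 ≤ x) {t : ℝ} (ht : 0 ≤ t) (h : t < ‖x‖) :
    spr x t ≠ 0 := by
  intro h0
  exact absurd (norm_le_of_le_smul hx ht (le_of_spr_eq_zero (IsSelfAdjoint.of_nonneg hx) h0))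
    (not_le.2 h)

theorem spr_tendsto_right_aux {x : N} (hx : IsSelfAdjoint x) (t : ℝ) {s : ℕ → ℝ} (hs : ∀ n, t ≤ s n)
    (h : Tendsto s atTop (𝓝 t)) : Tendsto (fun n => two (spr x (s n) - spr x t)) atTop (𝓝 0) := by
  have hd0 : ∀ n, 0 ≤ spr x t - spr x (s n) := fun n => sub_nonneg.2 (spr_anti x (hs n))
  have hd1 : ∀ n, two (spr x (s n) - spr x t) ^ 2 ≤ rt (spr x t) - rt (spr x (s n)) := by
    intro n
    rw [two_sub_comm]
    have h1 : ‖spr x t - spr x (s n)‖ ≤ 1 := by
      refine norm_le_of_le_smul (hd0 n) zero_le_one ?_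
      rw [one_smul]
      exact (sub_le_self _ (spr_nonneg x (s n))).trans (spr_le_one x t)
    have h2 := two_sq_le_of_norm_le (hd0 n) h1
    rwa [one_mul, rt_sub] at h2
  have key : ∀ (k : ℕ) (n : ℕ), rt (cfc (rmp t k) x) - rt (spr x (s n)) ≤ k * (s n - t) := by
    intro k n
    have hc : 0 ≤ (k : ℝ) * (s n - t) := mul_nonneg (Nat.cast_nonneg k) (sub_nonneg.2 (hs n))
    have h1 : cfc (rmp t k) x ≤ cfc (fun r => rmp (s n) k r + k * (s n - t)) x := by
      refine cfc_mono (fun r _ => ?_) (rmp_cont t k).continuousOn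
        ((rmp_cont (s n) k).add continuous_const).continuousOn
      unfold rmp
      have h2 : (k : ℝ) * max (r - t) 0 ≤ k * max (r - s n) 0 + k * (s n - t) := by
        rw [← mul_add]
        refine mul_le_mul_of_nonneg_left ?_ (Nat.cast_nonneg k)
        refine max_le ?_ ?_
        · have := le_max_left (r - s n) 0
          linarith
        · have := le_max_right (r - s n) 0
          have := hs n
          linarith
      rcases le_total 1 ((k : ℝ) * max (r - s n) 0) with h3 | h3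
      · rw [min_eq_left h3]
        have := min_le_left 1 ((k : ℝ) * max (r - t) 0)
        linarith
      · rw [min_eq_right h3]
        exact (min_le_right _ _).trans h2
    rw [cfc_add_const ((k : ℝ) * (s n - t)) (rmp (s n) k) x (rmp_cont (s n) k).continuousOn hx,
      Algebra.algebraMap_eq_smul_one] at h1
    have h2 := rt_mono h1
    rw [rt_add, rt_smul, rt_one, mul_one] at h2
    have h3 := rt_mono (rmp_le_spr x (s n) k)
    linarith
  have hrt : Tendsto (fun k : ℕ => rt (cfc (rmp t k) x)) atTop (𝓝 (rt (spr x t))) :=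
    lim_rt (spr_tendsto x t)
  have hlim : Tendsto (fun n => rt (spr x t) - rt (spr x (s n))) atTop (𝓝 0) := by
    rw [Metric.tendsto_atTop]
    intro ε hε
    obtain ⟨k, hk⟩ := (Metric.tendsto_atTop.1 hrt) (ε / 2) (by positivity)
    have hk' := hk k le_rfl
    rw [Real.dist_eq, abs_lt] at hk'
    have h4 : Tendsto (fun n => (k : ℝ) * (s n - t)) atTop (𝓝 ((k : ℝ) * (t - t))) :=
      (h.sub_const t).const_mul _
    rw [sub_self, mul_zero] at h4
    obtain ⟨m, hm⟩ := (Metric.tendsto_atTop.1 h4) (ε / 2) (by positivity)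
    refine ⟨m, fun n hn => ?_⟩
    have hm' := hm n hn
    rw [Real.dist_eq, sub_zero, abs_lt] at hm'
    rw [Real.dist_eq, sub_zero, abs_lt]
    have h5 := key k n
    have h6 := rt_mono (spr_anti x (hs n))
    constructor
    · linarith
    · linarith
  have h7 : Tendsto (fun n => two (spr x (s n) - spr x t) ^ 2) atTop (𝓝 0) :=
    squeeze_zero (fun n => sq_nonneg _) hd1 hlim
  have h8 := h7.sqrt
  rw [Real.sqrt_zero] at h8
  refine h8.congr fun n => ?_
  rw [Real.sqrt_sq (two_nonneg _)]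

/-- `{f(x) > t'} ⊆ {x > t}`. -/
theorem spr_cfc_le {x : N} (hx : IsSelfAdjoint x) {f : ℝ → ℝ}
    (hf : ContinuousOn f (spectrum ℝ x)) {t t' : ℝ}
    (h : ∀ s ∈ spectrum ℝ x, t' < f s → t < s) : spr (cfc f x) t' ≤ spr x t := by
  have h1 : ∀ n : ℕ, cfc (rmp t' n) (cfc f x) * spr x t = cfc (rmp t' n) (cfc f x) := by
    intro n
    rw [← cfc_comp' (rmp t' n) f x (rmp_cont t' n).continuousOn hf hx]
    refine cfc_mul_spr_eq_cfc hx ((rmp_cont t' n).comp_continuousOn hf) fun s hs hst => ?_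
    refine rmp_of_le ?_ n
    by_contra hc
    exact absurd (h s hs (not_le.1 hc)) (not_lt.2 hst)
  have h2 := spr_tendsto (cfc f x) t'
  have h3 : Tendsto (fun n : ℕ => two (cfc (rmp t' n) (cfc f x) - spr (cfc f x) t' * spr x t))
      atTop (𝓝 0) := by
    refine (lim_mul_right (spr x t) h2).congr fun n => ?_
    rw [h1 n]
  exact prj_le_of_mul (spr_prj _ _) (spr_prj _ _) (lim_unique h3 h2)

/-- `{x > t} ⊆ {f(x) > t'}`. -/
theorem spr_le_spr_cfc {x : N} (hx : IsSelfAdjoint x) {f : ℝ → ℝ}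
    (hf : ContinuousOn f (spectrum ℝ x)) {t t' : ℝ}
    (h : ∀ s ∈ spectrum ℝ x, t < s → t' < f s) : spr x t ≤ spr (cfc f x) t' := by
  have key : ∀ δ : ℝ, 0 < δ → spr x (t + δ) ≤ spr (cfc f x) t' := by
    intro δ hδ
    have hK : IsCompact (spectrum ℝ x ∩ Set.Ici (t + δ)) :=
      (spectrum.isCompact x).inter_right isClosed_Ici
    have hη : ∃ η : ℝ, 0 < η ∧ ∀ s ∈ spectrum ℝ x ∩ Set.Ici (t + δ), t' + η ≤ f s := by
      rcases (spectrum ℝ x ∩ Set.Ici (t + δ)).eq_empty_or_nonempty with he | hne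
      · exact ⟨1, one_pos, fun s hs => by rw [he] at hs; exact hs.elim⟩
      · obtain ⟨s₀, hs₀, hmin⟩ := hK.exists_isMinOn hne (hf.mono Set.inter_subset_left)
        have h1 := h s₀ hs₀.1 (by
          have h2 : t + δ ≤ s₀ := hs₀.2
          linarith)
        refine ⟨f s₀ - t', sub_pos.2 h1, fun s hs => ?_⟩
        have h2 : f s₀ ≤ f s := hmin hs
        linarith
    obtain ⟨η, hη0, hη1⟩ := hη
    obtain ⟨n, hn⟩ := exists_nat_gt (1 / η)
    have hn0 : (0 : ℝ) < n := lt_trans (by positivity) hn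
    have hn1 : 1 ≤ n := Nat.succ_le_of_lt (by exact_mod_cast hn0)
    have hn2 : 1 / (n : ℝ) ≤ η := by
      rw [div_le_iff₀ hn0]
      rw [div_lt_iff₀ hη0] at hn
      linarith
    have hg : cfc (rmp t' n) (cfc f x) * spr x (t + δ) = spr x (t + δ) := by
      rw [← cfc_comp' (rmp t' n) f x (rmp_cont t' n).continuousOn hf hx]
      refine cfc_mul_spr_eq_spr ((rmp_cont t' n).comp_continuousOn hf) fun s hs hst => ?_
      refine rmp_eq_one hn1 ?_
      have h1 := hη1 s ⟨hs, hst.le⟩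
      linarith
    have hq := spr_prj (cfc f x) t'
    have h1 : cfc (rmp t' n) (cfc f x) * (1 - spr (cfc f x) t') = 0 :=
      mul_eq_zero_of_le (rmp_cfc_nonneg _ t' n) (rmp_le_spr _ t' n) (prj_mul_one_sub hq)
    have h2 : (1 - spr (cfc f x) t') * cfc (rmp t' n) (cfc f x) = 0 := by
      have h3 := congrArg star h1
      rwa [star_mul, star_zero, (IsSelfAdjoint.of_nonneg (rmp_cfc_nonneg (cfc f x) t' n)).star_eq,
        star_sub, star_one, spr_sa] at h3
    have h4 : (1 - spr (cfc f x) t') * spr x (t + δ) = 0 := by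
      rw [← hg, ← mul_assoc, h2, zero_mul]
    have h5 : spr x (t + δ) * spr (cfc f x) t' = spr x (t + δ) := by
      have h6 := congrArg star h4
      rw [star_mul, star_zero, star_sub, star_one, spr_sa, spr_sa, mul_sub, mul_one,
        sub_eq_zero] at h6
      exact h6.symm
    exact prj_le_of_mul (spr_prj _ _) hq h5
  have h1 : Tendsto (fun n : ℕ => t + 1 / ((n : ℝ) + 1)) atTop (𝓝 t) := by
    have h2 := tendsto_one_div_add_atTop_nhds_zero_nat (𝕜 := ℝ)
    have h3 := h2.const_add t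
    rwa [add_zero] at h3
  have h2 := spr_tendsto_right_aux hx t (s := fun n : ℕ => t + 1 / ((n : ℝ) + 1))
    (fun n => by
      have : (0 : ℝ) < 1 / ((n : ℝ) + 1) := by positivity
      linarith) h1
  exact lim_le (fun n => key _ (by positivity)) h2 (lim_const (spr (cfc f x) t'))

theorem spr_smul {x : N} (hx : IsSelfAdjoint x) {c : ℝ} (hc : 0 < c) (t : ℝ) :
    spr (c • x) (c * t) = spr x t := by
  have h1 : cfc (fun s : ℝ => c * s) x = c • x := cfc_const_mul_id c x hx
  have hf : ContinuousOn (fun s : ℝ => c * s) (spectrum ℝ x) :=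
    (continuous_const.mul continuous_id).continuousOn
  rw [← h1]
  refine le_antisymm (spr_cfc_le hx hf fun s _ hs => ?_) (spr_le_spr_cfc hx hf fun s _ hs => ?_)
  · exact lt_of_mul_lt_mul_left hs hc.le
  · exact mul_lt_mul_of_pos_left hs hc

theorem spr_conj {u : N} (hu : star u * u = 1) (hu' : u * star u = 1) {x : N}
    (hx : IsSelfAdjoint x) (t : ℝ) : spr (u * x * star u) t = u * spr x t * star u := by
  have hU : u ∈ unitary N := Unitary.mem_iff.2 ⟨hu, hu'⟩
  have hxu : IsSelfAdjoint (u * x * star u) := hx.conjugate u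
  have hcont : Continuous (Unitary.conjStarAlgAut ℝ N ⟨u, hU⟩) := by
    have : (⇑(Unitary.conjStarAlgAut ℝ N ⟨u, hU⟩) : N → N) = fun y => u * y * star u := by
      funext y
      rfl
    rw [this]
    exact (continuous_const.mul continuous_id).mul continuous_const
  have h1 : ∀ n : ℕ, cfc (rmp t n) (u * x * star u) = u * cfc (rmp t n) x * star u := by
    intro n
    exact (StarAlgHomClass.map_cfc (Unitary.conjStarAlgAut ℝ N ⟨u, hU⟩) (rmp t n) x
      (rmp_cont t n).continuousOn hcont hx hxu).symm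
  have h2 := spr_tendsto (u * x * star u) t
  have h3 : Tendsto (fun n : ℕ => two (cfc (rmp t n) (u * x * star u) - u * spr x t * star u))
      atTop (𝓝 0) := by
    refine (lim_mul_right (star u) (lim_mul_left u (spr_tendsto x t))).congr fun n => ?_
    rw [h1 n]
  exact lim_unique h2 h3

/-- Right continuity: `1_{x > t}` is the 2-norm limit of `1_{x > t_n}`, `t_n ↓ t`. -/
theorem spr_tendsto_right {x : N} (hx : IsSelfAdjoint x) (t : ℝ) {s : ℕ → ℝ} (hs : ∀ n, t ≤ s n)
    (h : Tendsto s atTop (𝓝 t)) : Tendsto (fun n => two (spr x (s n) - spr x t)) atTop (𝓝 0) :=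
  spr_tendsto_right_aux hx t hs h

end Pool.Agent.PTH
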