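import Pool.Agent.PTH.CcRd
import Pool.Agent.PTH.Tb6
import Pool.Agent.PTH.TbPj

/-!
# PTH / CcRe: the cut

`Sol C q Ψ x m`, `C > 1`, `γ = C m` (`0 ≤ γ ≤ q`: `Sol.m_le`), `b = sr x`, `e = 1_{γ > t}` (`0 < t < 1`),
`q' = q - e`, `c = q' b`, `D = τ(q) - τ(Ψ 1)`.

* `cut_prj`: `q γ = γ` (`qm`), so `(1-q) γ = 0`, `(1-q) f(γ) = 0` for continuous `f` with `f(0) = 0`, and in
  the limit `(1-q) e = 0` (or: `e ≤ (1/t) γ` by `smul_spr_le`, and `γ ≤ q`; then `q e = e` since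
  `0 ≤ (1-q)e(1-q) ≤ (1/t)(1-q)q(1-q) = 0`).  So `q e = e = e q` and `q - e` is a projection (`prj_sub`).
* `cut_SM`: `SM.cj` with `c = q' b`: `q' c = c`, and
  `cjM c Ψ 1 = q' b Ψ(b q' b) b q' ≤ q' b Ψ(b b) b q' = q' (cjM b Ψ 1) q' = q'(q - γ)q' ≤ q'`.
* FOR `0 < δ ≤ t` put `F = cfc (s ↦ min 1 (s/δ)) γ = γ g(γ)`, `g(s) = 1/max(s,δ)` on `[0,1]` (spectrum of
  `γ`).  `0 ≤ F ≤ q`, `F x = C F` (`γ x = C γ`, `F = g(γ) γ`).  `Sol.key`: `τ(F) ≤ (C/(C-1)) D`.
* `cut_trace`: `e ≤ F` (`spr_le_cfc`), so `τ(e) ≤ τ(F) ≤ (C/(C-1)) D`.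
* `cut_def`: `Ψ_b = cjM b Ψ` (symmetric, positive), `Ψ_b(q) = Ψ_b(1) = q - γ` (`b q b = q x`,
  `Ψ(q x) = Ψ(q x q) = Ψ(x)`), `cjM c Ψ y = q' Ψ_b(q' y q') q'`.
  `τ(cjM c Ψ 1) = τ(q' Ψ_b(q')) = τ(q' Ψ_b(q)) - τ(q' Ψ_b(e))`,
  `τ(q' Ψ_b(e)) = τ(Ψ_b(q') e) ≤ τ(Ψ_b(q) e) = τ((q-γ)e) ≤ (1-t) τ(e)` (`smul_spr_le_mul`).  So
  `τ(q') - τ(cjM c Ψ 1) ≤ τ(q' γ) + (1-t) τ(e)`.  `q'γ = γ(1-e)` and
  `γ(1-e) ≤ (t F + δ)(1-e)` (`cfc_mul_one_sub_spr_nonneg` for `s ↦ t min(1,s/δ) + δ - s`, which is `≥ 0`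
  on `[0,t]`), `F e = e` (`cfc_mul_spr_eq_spr`): `τ(q'γ) ≤ t(τ(F) - τ(e)) + δ`.  Together:
  `≤ t(τ(F)-τ(e)) + (1-t)τ(e) + δ ≤ max(t,1-t) τ(F) + δ ≤ (11/20)(C/(C-1)) D + δ`, all `δ > 0`.
* `cut_en`: `q' b z - z q' b` for a unitary `z`: `[z, q'b] = [z,q'] b + q'[z,b]`, so
  `(2e(q'b))^{1/2} ≤ ‖b‖ (2e(q'))^{1/2} + (2e(b))^{1/2}` (Minkowski), `KC.sr_norm`, `KC.en_sr`.
-/

open Filter Topology
open scoped InnerProductSpace ComplexOrder

universe u

namespace Pool.Agent.PTH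

open TrAlg

namespace Sol

variable {A : Type u} [CStarAlgebra A] [PartialOrder A] [StarOrderedRing A] [TracialVN A]
  {C : ℝ} {q x m : A} {Ψ : A →ₗ[ℂ] A} {t : ℝ} (a : Avg A)

private theorem gam0 (hC : 1 < C) (hs : Sol C q Ψ x m) : 0 ≤ C • m :=
  smul_nonneg (by linarith) hs.m0

private theorem mq (hq : Prj q) (hs : Sol C q Ψ x m) : m * q = m := by
  have h1 := congrArg star hs.qm
  rwa [star_mul, hq.1, (IsSelfAdjoint.of_nonneg hs.m0).star_eq] at h1

private theorem eq_e (hC : 1 < C) (hq : Prj q) (h : SM q Ψ) (hs : Sol C q Ψ x m) (ht : 0 < t) :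
    spr (C • m) t * q = spr (C • m) t := by
  have h1 : t • spr (C • m) t ≤ q :=
    (smul_spr_le (gam0 hC hs) ht.le).trans (hs.m_le hC hq h)
  have h2 : spr (C • m) t ≤ t⁻¹ • q := by
    have h3 := smul_le_smul_of_nonneg_left h1 (inv_nonneg.2 ht.le)
    rwa [smul_smul, inv_mul_cancel₀ ht.ne', one_smul] at h3
  exact mul_prj_of_le_smul (spr_nonneg _ _) hq h2

private theorem qe_e (hC : 1 < C) (hq : Prj q) (h : SM q Ψ) (hs : Sol C q Ψ x m) (ht : 0 < t) :
    q * spr (C • m) t = spr (C • m) t := by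
  have h1 := congrArg star (eq_e hC hq h hs ht)
  rwa [star_mul, hq.1, spr_sa] at h1

theorem cut_prj (hC : 1 < C) (hq : Prj q) (h : SM q Ψ) (hs : Sol C q Ψ x m) (ht : 0 < t) :
    q * spr (C • m) t = spr (C • m) t ∧ Prj (q - spr (C • m) t) :=
  ⟨qe_e hC hq h hs ht, prj_sub (spr_prj _ _) hq (eq_e hC hq h hs ht)⟩

private theorem sr_st (hC : 1 < C) (hs : Sol C q Ψ x m) : star (sr x) = sr x :=
  (IsSelfAdjoint.of_nonneg (hs.kc.sr_nonneg hC.le)).star_eq

private theorem q_b (hC : 1 < C) (hs : Sol C q Ψ x m) : q * sr x = sr x * q :=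
  hs.kc.sr_comm hC.le hs.comm

private theorem cj_q (hC : 1 < C) (hq : Prj q) (h : SM q Ψ) (hs : Sol C q Ψ x m) :
    cjM (sr x) Ψ q = q - C • m := by
  rw [← hs.cj_one hC hq h, cjM_apply, cjM_apply, sr_st hC hs, mul_one, hs.kc.sr_mul hC.le]
  have h1 : sr x * q * sr x = q * x * q := by
    rw [← q_b hC hs, mul_assoc, hs.kc.sr_mul hC.le, hs.comm, mul_assoc, hq.2]
  rw [h1, h.apply_q hq]

/-- the map `cjM c Ψ` for `c = p b` -/
private theorem cj_c (hC : 1 < C) (hs : Sol C q Ψ x m) {p : A} (hp : Prj p) :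
    cjM (p * sr x) Ψ 1 = p * cjM (sr x) Ψ p * p := by
  rw [cjM_apply, cjM_apply, star_mul, sr_st hC hs, hp.1, mul_one]
  have h1 : sr x * p * (p * sr x) = sr x * p * sr x := by
    rw [← mul_assoc, mul_assoc (sr x) p p, hp.2]
  rw [h1]
  noncomm_ring

theorem cut_SM (hC : 1 < C) (hq : Prj q) (h : SM q Ψ) (hs : Sol C q Ψ x m) (ht : 0 < t) :
    SM (q - spr (C • m) t) (cjM ((q - spr (C • m) t) * sr x) Ψ) := by
  have hp := (cut_prj hC hq h hs ht).2
  have he := eq_e hC hq h hs ht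
  set e := spr (C • m) t with hedef
  refine h.cj hp (by rw [← mul_assoc, hp.2]) ?_
  rw [cj_c hC hs hp]
  have h1 : cjM (sr x) Ψ (q - e) ≤ q := by
    refine (CP.mono (CP.cj h.cp (sr x)) (sub_le_self q (spr_nonneg _ _))).trans ?_
    rw [cj_q hC hq h hs]
    exact sub_le_self _ (gam0 hC hs)
  have h2 := star_left_conjugate_le_conjugate h1 (q - e)
  rw [hp.1] at h2
  refine h2.trans (le_of_eq ?_)
  have h3 : (q - e) * q = q - e := by rw [sub_mul, hq.2, he]
  rw [h3, hp.2]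

private theorem spec0 (hC : 1 < C) (hs : Sol C q Ψ x m) {s : ℝ}
    (h : s ∈ spectrum ℝ (C • m)) : 0 ≤ s :=
  spectrum_nonneg_of_nonneg (gam0 hC hs) h

/-- the function of `γ` used in the proofs -/
private theorem cut_F (hC : 1 < C) (hq : Prj q) (h : SM q Ψ) (hs : Sol C q Ψ x m) {δ : ℝ}
    (hδ : 0 < δ) :
    0 ≤ cfc (fun s : ℝ => min 1 (s / δ)) (C • m) ∧
      rt (cfc (fun s : ℝ => min 1 (s / δ)) (C • m)) ≤ C / (C - 1) * (rt q - rt (Ψ 1)) := by
  have hC0 : 0 < C := by linarith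
  have hg0 := gam0 hC hs
  have hsa : IsSelfAdjoint (C • m) := IsSelfAdjoint.of_nonneg hg0
  have hFc : Continuous fun s : ℝ => min 1 (s / δ) := by fun_prop
  have hgc : Continuous fun s : ℝ => (max s δ)⁻¹ :=
    Continuous.inv₀ (by fun_prop) fun s => (lt_of_lt_of_le hδ (le_max_right s δ)).ne'
  set F := cfc (fun s : ℝ => min 1 (s / δ)) (C • m) with hF
  have hF0 : 0 ≤ F := by
    refine cfc_nonneg fun s hsp => ?_
    have := spec0 hC hs hsp
    positivity
  have hF1 : F ≤ 1 := by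
    refine cfc_le_one _ _ fun s _ => min_le_left _ _
  have hFe : F = cfc (fun s : ℝ => (max s δ)⁻¹) (C • m) * (C • m) := by
    have h1 : cfc (fun s : ℝ => (max s δ)⁻¹ * s) (C • m) =
        cfc (fun s : ℝ => (max s δ)⁻¹) (C • m) * cfc (fun s : ℝ => s) (C • m) :=
      cfc_mul _ _ _ hgc.continuousOn continuous_id.continuousOn
    rw [cfc_id' ℝ (C • m)] at h1
    rw [← h1, hF]
    refine cfc_congr fun s hsp => ?_
    have hs0 := spec0 hC hs hsp
    have hm : 0 < max s δ := lt_of_lt_of_le hδ (le_max_right s δ)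
    change min 1 (s / δ) = (max s δ)⁻¹ * s
    rcases le_total s δ with hle | hle
    · rw [max_eq_right hle, min_eq_right ((div_le_one hδ).2 hle), div_eq_inv_mul]
    · rw [max_eq_left hle, min_eq_left ((one_le_div hδ).2 hle),
        inv_mul_cancel₀ (lt_of_lt_of_le hδ hle).ne']
  have hFx : F * x = C • F := by
    rw [hFe, mul_assoc, smul_mul_assoc, hs.xm, mul_smul_comm]
  have hFq : F * q = F := by
    rw [hFe, mul_assoc, smul_mul_assoc, mq hq hs]
  have hqF : q * F = F := by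
    have h1 := congrArg star hFq
    rwa [star_mul, hq.1, (IsSelfAdjoint.of_nonneg hF0).star_eq] at h1
  have hFle : F ≤ q := by
    have h1 := star_left_conjugate_le_conjugate hF1 q
    rwa [hq.1, mul_one, hq.2, hqF, hFq] at h1
  refine ⟨hF0, ?_⟩
  have hk := key hC hq h hs hF0 hFle hFx
  have hm0 : 0 ≤ rt m := rt_nonneg hs.m0
  have h1 : (C - 1) / C * rt F ≤ rt q - rt (Ψ 1) := by linarith
  have hC1 : 0 < C - 1 := by linarith
  rw [div_mul_eq_mul_div, div_le_iff₀ hC0] at h1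
  rw [div_mul_eq_mul_div, le_div_iff₀ hC1]
  linarith

theorem cut_trace (hC : 1 < C) (hq : Prj q) (h : SM q Ψ) (hs : Sol C q Ψ x m) (ht : 0 < t) :
    rt (spr (C • m) t) ≤ C / (C - 1) * (rt q - rt (Ψ 1)) := by
  obtain ⟨-, h1⟩ := cut_F hC hq h hs ht
  refine (rt_mono ?_).trans h1
  refine spr_le_cfc (IsSelfAdjoint.of_nonneg (gam0 hC hs))
    (Continuous.continuousOn (by fun_prop)) ?_ ?_
  · intro s hsp _
    have := spec0 hC hs hsp
    positivity
  · intro s _ hts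
    exact le_min le_rfl ((one_le_div ht).2 hts.le)

/-- the trace of the small part -/
private theorem cut_small (hC : 1 < C) (hs : Sol C q Ψ x m) (ht : 0 < t) {δ : ℝ}
    (hδ : 0 < δ) (hδt : δ ≤ t) :
    rt (C • m * (1 - spr (C • m) t)) ≤
      t * (rt (cfc (fun s : ℝ => min 1 (s / δ)) (C • m)) - rt (spr (C • m) t)) + δ ∧
    rt (spr (C • m) t) ≤ rt (cfc (fun s : ℝ => min 1 (s / δ)) (C • m)) := by
  have hsa : IsSelfAdjoint (C • m) := IsSelfAdjoint.of_nonneg (gam0 hC hs)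
  have hFc : Continuous fun s : ℝ => min 1 (s / δ) := by fun_prop
  have hgc : Continuous fun s : ℝ => t * min 1 (s / δ) + δ - s := by fun_prop
  have hFc' : ContinuousOn (fun s : ℝ => min 1 (s / δ)) (spectrum ℝ (C • m)) := hFc.continuousOn
  have h1 : 0 ≤ cfc (fun s : ℝ => t * min 1 (s / δ) + δ - s) (C • m) * (1 - spr (C • m) t) := by
    refine cfc_mul_one_sub_spr_nonneg hsa hgc.continuousOn ?_
    intro s hsp hst
    have hs0 := spec0 hC hs hsp
    rcases le_total s δ with hle | hle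
    · have : 0 ≤ t * min 1 (s / δ) := by positivity
      linarith
    · rw [min_eq_left ((one_le_div hδ).2 hle)]
      linarith
  have h2 : cfc (fun s : ℝ => t * min 1 (s / δ) + δ - s) (C • m) =
      t • cfc (fun s : ℝ => min 1 (s / δ)) (C • m) + δ • (1 : A) - C • m := by
    have e1 : cfc (fun s : ℝ => t * min 1 (s / δ) + δ - s) (C • m) =
        cfc (fun s : ℝ => t * min 1 (s / δ) + δ) (C • m) - cfc (fun s : ℝ => s) (C • m) :=
      cfc_sub _ _ _ (Continuous.continuousOn (by fun_prop)) continuous_id.continuousOn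
    have e2 : cfc (fun s : ℝ => t * min 1 (s / δ) + δ) (C • m) =
        cfc (fun s : ℝ => t * min 1 (s / δ)) (C • m) + algebraMap ℝ A δ :=
      cfc_add_const δ _ _ (Continuous.continuousOn (by fun_prop)) hsa
    have e3 : cfc (fun s : ℝ => t * min 1 (s / δ)) (C • m) =
        t • cfc (fun s : ℝ => min 1 (s / δ)) (C • m) := by
      have := cfc_smul t (fun s : ℝ => min 1 (s / δ)) (C • m) hFc'
      simpa only [smul_eq_mul] using this
    rw [e1, e2, e3, cfc_id' ℝ (C • m), Algebra.algebraMap_eq_smul_one]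
  have h3 : cfc (fun s : ℝ => min 1 (s / δ)) (C • m) * spr (C • m) t = spr (C • m) t := by
    refine cfc_mul_spr_eq_spr hFc' ?_
    intro s _ hts
    exact min_eq_left ((one_le_div hδ).2 (hδt.trans hts.le))
  have h5 : spr (C • m) t ≤ cfc (fun s : ℝ => min 1 (s / δ)) (C • m) := by
    refine spr_le_cfc hsa hFc' ?_ ?_
    · intro s hsp _
      have := spec0 hC hs hsp
      positivity
    · intro s _ hts
      exact le_min le_rfl ((one_le_div hδ).2 (hδt.trans hts.le))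
  have h6 : rt (1 - spr (C • m) t) ≤ 1 := by
    rw [rt_sub, rt_one]
    linarith [rt_nonneg (spr_nonneg (C • m) t)]
  have h4 := rt_nonneg h1
  set e := spr (C • m) t with he
  set F := cfc (fun s : ℝ => min 1 (s / δ)) (C • m) with hF
  have h7 : (t • F + δ • (1 : A) - C • m) * (1 - e) =
      t • (F - F * e) + δ • (1 - e) - C • m * (1 - e) := by
    rw [sub_mul, add_mul, smul_mul_assoc, smul_mul_assoc, one_mul, mul_sub, mul_one]
  rw [h2, h7, h3, rt_sub, rt_add, rt_smul, rt_smul, rt_sub F e] at h4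
  refine ⟨?_, rt_mono h5⟩
  nlinarith

theorem cut_def (hC : 1 < C) (hq : Prj q) (h : SM q Ψ) (hs : Sol C q Ψ x m)
    (ht : 9 / 20 ≤ t) (ht' : t ≤ 11 / 20) :
    rt (q - spr (C • m) t) - rt (cjM ((q - spr (C • m) t) * sr x) Ψ 1) ≤
      11 / 20 * (C / (C - 1)) * (rt q - rt (Ψ 1)) := by
  have ht0 : 0 < t := by linarith
  have hp := (cut_prj hC hq h hs ht0).2
  have heq := eq_e hC hq h hs ht0
  have hqe := qe_e hC hq h hs ht0
  have hsa : IsSelfAdjoint (C • m) := IsSelfAdjoint.of_nonneg (gam0 hC hs)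
  have hcomm : C • m * spr (C • m) t = spr (C • m) t * (C • m) := by
    have := spr_comm hsa (Commute.refl (C • m)) t
    exact this.symm
  have hte := rt_mono (smul_spr_le_mul hsa t)
  have he0 := spr_nonneg (C • m) t
  rw [rt_smul] at hte
  refine le_of_forall_pos_le_add fun ε hε => ?_
  obtain ⟨hF0, hFD⟩ := cut_F hC hq h hs (δ := min ε t) (lt_min hε ht0)
  obtain ⟨hsm, heF⟩ := cut_small hC hs ht0 (δ := min ε t) (lt_min hε ht0) (min_le_right _ _)
  have hδε : min ε t ≤ ε := min_le_left _ _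
  set e := spr (C • m) t with hedef
  set F := cfc (fun s : ℝ => min 1 (s / min ε t)) (C • m) with hFdef
  have hre : 0 ≤ rt e := rt_nonneg he0
  -- the trace of the new map
  have k1 : rt (cjM ((q - e) * sr x) Ψ 1) = rt ((q - e) * cjM (sr x) Ψ (q - e)) := by
    rw [cj_c hC hs hp, rt_comm, ← mul_assoc, hp.2]
  have k2 : (q - e) * cjM (sr x) Ψ (q - e) = (q - e) * (q - C • m) -
      (q - e) * cjM (sr x) Ψ e := by
    rw [map_sub, cj_q hC hq h hs, mul_sub (q - e)]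
  have k3 : rt ((q - e) * cjM (sr x) Ψ e) = rt (cjM (sr x) Ψ (q - e) * e) := by
    rw [rt, rt, (Symm.cj h.symm (sr x)) (q - e) e]
  have k4 : rt (cjM (sr x) Ψ (q - e) * e) ≤ (1 - t) * rt e := by
    have a1 : cjM (sr x) Ψ (q - e) ≤ q - C • m := by
      rw [← cj_q hC hq h hs]
      exact CP.mono (CP.cj h.cp (sr x)) (sub_le_self q he0)
    have a2 := rt_mul_mono' he0 a1
    rw [sub_mul, rt_sub, hqe] at a2
    linarith
  have k5 : rt ((q - e) * (q - C • m)) = rt (q - e) - rt (C • m * (1 - e)) := by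
    have a1 : q * (C • m) = C • m := by rw [mul_smul_comm, hs.qm]
    have a2 : (q - e) * (q - C • m) = (q - e) - C • m * (1 - e) := by
      rw [mul_sub, sub_mul, sub_mul, hq.2, heq, a1, mul_sub, mul_one, hcomm]
    rw [a2, rt_sub]
  rw [k1, k2, rt_sub ((q - e) * (q - C • m)), k3, k5]
  have k6 : 11 / 20 * rt F ≤ 11 / 20 * (C / (C - 1)) * (rt q - rt (Ψ 1)) := by
    rw [mul_assoc]
    exact mul_le_mul_of_nonneg_left hFD (by norm_num)
  nlinarith

theorem cut_en (hC : 1 < C) (hs : Sol C q Ψ x m) {p : A} (hp : Prj p) :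
    Real.sqrt (2 * a.en (p * sr x)) ≤ Real.sqrt C * Real.sqrt (2 * a.en p) +
      Real.sqrt C / 2 * Real.sqrt (2 * a.en x) := by
  have hb := hs.kc.sr_norm hC.le
  have hpn := norm_proj_le hp
  have hen : ∀ y : A, 2 * a.en y = ∑ i, a.p i * two (a.u i * y - y * a.u i) ^ 2 := by
    intro y
    rw [Avg.en]
    ring
  have h1 := CcRdx.mink a.p (fun i => Real.sqrt C * two (a.u i * p - p * a.u i))
    (fun i => two (a.u i * sr x - sr x * a.u i)) (fun i => (a.p_pos i).le)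
  have h2 : Real.sqrt (∑ i, a.p i * (Real.sqrt C * two (a.u i * p - p * a.u i)) ^ 2) =
      Real.sqrt C * Real.sqrt (2 * a.en p) := by
    rw [hen, ← Real.sqrt_mul (by linarith : (0 : ℝ) ≤ C)]
    congr 1
    rw [Finset.mul_sum]
    refine Finset.sum_congr rfl fun i _ => ?_
    rw [mul_pow, Real.sq_sqrt (by linarith : (0 : ℝ) ≤ C)]
    ring
  have h3 : Real.sqrt (2 * a.en (p * sr x)) ≤ Real.sqrt (∑ i, a.p i *
      (Real.sqrt C * two (a.u i * p - p * a.u i) + two (a.u i * sr x - sr x * a.u i)) ^ 2) := by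
    rw [hen]
    refine Real.sqrt_le_sqrt (Finset.sum_le_sum fun i _ => ?_)
    refine mul_le_mul_of_nonneg_left ?_ (a.p_pos i).le
    refine pow_le_pow_left₀ (two_nonneg _) ?_ 2
    have e1 : a.u i * (p * sr x) - p * sr x * a.u i =
        (a.u i * p - p * a.u i) * sr x + p * (a.u i * sr x - sr x * a.u i) := by noncomm_ring
    rw [e1]
    refine (two_add_le _ _).trans (add_le_add ?_ ?_)
    · refine (two_mul_le' _ _).trans ?_
      rw [mul_comm]
      exact mul_le_mul_of_nonneg_right hb (two_nonneg _)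
    · refine (two_mul_le _ _).trans ?_
      exact mul_le_of_le_one_left (two_nonneg _) hpn
  have h4 : Real.sqrt (∑ i, a.p i * two (a.u i * sr x - sr x * a.u i) ^ 2) ≤
      Real.sqrt C / 2 * Real.sqrt (2 * a.en x) := by
    rw [← hen]
    exact KC.en_sr a hs.kc hC.le
  rw [h2] at h1
  exact h3.trans (h1.trans (add_le_add le_rfl h4))

end Sol

end Pool.Agent.PTH
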