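import Pool.Agent.PTH.Tb6
import Pool.Agent.PTH.TbPj

/-!
# Toolbox: rounding (0.8)

`0 ≤ f ≤ 1`, `t ∈ [1/4, 3/4]`, `q = 1_{f > t}`.
PROOFS (all from Tb5, Tb6, the spectrum of `f` is in `[0,1]`).
* `q ≤ 4 f`, `q ≤ 16 f²`: `smul_spr_le`, `sq_smul_spr_le`.
* `(1-q) f ≤ 4 (f - f²)(1-q)`: `s ≤ 4 s (1-s)` for `s ≤ 3/4`; `q (1-f) ≤ 4 (f - f²) q`:
  `1 - s ≤ 4 s (1-s)` for `s > 1/4`; then take the trace (`f - f² ≥ 0`,
  `rt ((f - f²) q) + rt ((f-f²)(1-q)) = rt (f - f²)`).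
* `‖q - f‖₂² = rt (q (1-f)²) + rt ((1-q) f²) ≤ rt (q (1-f)) + rt ((1-q) f) ≤ 4 rt (f - f²)`.
* `rt_sub_sq_le`: `rt (f - f²) ≤ rt p - ‖f‖₂² = (‖p‖₂ - ‖f‖₂)(‖p‖₂ + ‖f‖₂) ≤ 2 ‖f - p‖₂ ‖p‖₂`
  (`‖f‖₂² ≤ rt f ≤ rt p`).
-/

open Filter Topology

namespace Pool.Agent.PTH

open TrAlg

variable {N : Type*} [CStarAlgebra N] [PartialOrder N] [StarOrderedRing N] [TracialVN N]

omit [TracialVN N] in
private theorem poly42 {f : N} (hf : IsSelfAdjoint f) (a b c : ℝ) :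
    cfc (fun s : ℝ => a * s + b * (s * s) + c) f = a • f + b • (f * f) + c • (1 : N) := by
  have h1 : cfc (fun s : ℝ => a * s + b * (s * s) + c) f =
      cfc (fun s : ℝ => a * s + b * (s * s)) f + cfc (fun _ : ℝ => c) f :=
    cfc_add (a := f) (fun s : ℝ => a * s + b * (s * s)) (fun _ => c)
      (by fun_prop) (by fun_prop)
  have h2 : cfc (fun s : ℝ => a * s + b * (s * s)) f =
      cfc (fun s : ℝ => a * s) f + cfc (fun s : ℝ => b * (s * s)) f :=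
    cfc_add (a := f) (fun s : ℝ => a * s) (fun s : ℝ => b * (s * s))
      (by fun_prop) (by fun_prop)
  have h3 : cfc (fun s : ℝ => a * s) f = a • f := cfc_const_mul_id a f hf
  have h4 : cfc (fun s : ℝ => b * (s * s)) f = b • cfc (fun s : ℝ => s * s) f :=
    cfc_const_mul b (fun s : ℝ => s * s) f (by fun_prop)
  have h5 : cfc (fun s : ℝ => s * s) f = f * f := by
    have h6 : cfc (fun s : ℝ => s * s) f = cfc (fun s : ℝ => s) f * cfc (fun s : ℝ => s) f :=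
      cfc_mul (fun s : ℝ => s) (fun s : ℝ => s) f (by fun_prop) (by fun_prop)
    rw [h6, cfc_id' ℝ f hf]
  have h7 : cfc (fun _ : ℝ => c) f = c • (1 : N) := by
    rw [cfc_const c f hf, Algebra.algebraMap_eq_smul_one]
  rw [h1, h2, h3, h4, h5, h7]

omit [TracialVN N] in
private theorem spec42 {f : N} (h0 : 0 ≤ f) (h1 : f ≤ 1) {s : ℝ} (hs : s ∈ spectrum ℝ f) :
    0 ≤ s ∧ s ≤ 1 :=
  ⟨spectrum_nonneg_of_nonneg h0 hs, (CFC.le_one_iff (R := ℝ) f (IsSelfAdjoint.of_nonneg h0)).1 h1 s hs⟩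

omit [TracialVN N] in
private theorem poly42_sub {f : N} (hf : IsSelfAdjoint f) :
    cfc (fun s : ℝ => 1 * s + (-1) * (s * s) + 0) f = f - f * f := by
  rw [poly42 hf, one_smul, neg_one_smul, zero_smul, add_zero, sub_eq_add_neg]

theorem round_le {f : N} (h0 : 0 ≤ f) {t : ℝ} (ht : 1 / 4 ≤ t) : spr f t ≤ (4 : ℝ) • f := by
  have h1 := smul_spr_le h0 (t := t) (by linarith)
  have h2 : (1 / 4 : ℝ) • spr f t ≤ t • spr f t :=
    smul_le_smul_of_nonneg_right ht (spr_nonneg f t)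
  have h3 := smul_le_smul_of_nonneg_left (h2.trans h1) (by norm_num : (0 : ℝ) ≤ 4)
  rwa [smul_smul, show (4 : ℝ) * (1 / 4) = 1 by norm_num, one_smul] at h3

theorem round_le_sq {f : N} (h0 : 0 ≤ f) {t : ℝ} (ht : 1 / 4 ≤ t) :
    spr f t ≤ (16 : ℝ) • (f * f) := by
  have h1 := sq_smul_spr_le h0 (t := t) (by linarith)
  have h2 : (1 / 16 : ℝ) • spr f t ≤ (t ^ 2) • spr f t :=
    smul_le_smul_of_nonneg_right (by nlinarith) (spr_nonneg f t)
  have h3 := smul_le_smul_of_nonneg_left (h2.trans h1) (by norm_num : (0 : ℝ) ≤ 16)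
  rwa [smul_smul, show (16 : ℝ) * (1 / 16) = 1 by norm_num, one_smul] at h3

theorem round_one_sub {f : N} (h0 : 0 ≤ f) (h1 : f ≤ 1) {t : ℝ} (ht : t ≤ 3 / 4) :
    rt ((1 - spr f t) * f) ≤ 4 * rt ((1 - spr f t) * (f - f * f)) := by
  have hf := IsSelfAdjoint.of_nonneg h0
  have h2 := cfc_mul_one_sub_spr_nonneg hf (g := fun s : ℝ => 3 * s + (-4) * (s * s) + 0)
    (by fun_prop) (t := t) (fun s hs hst => by
      obtain ⟨a1, a2⟩ := spec42 h0 h1 hs
      nlinarith)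
  rw [poly42 hf] at h2
  have h3 := rt_nonneg h2
  have e : ((3 : ℝ) • f + (-4 : ℝ) • (f * f) + (0 : ℝ) • (1 : N)) * (1 - spr f t) =
      (4 : ℝ) • ((f - f * f) * (1 - spr f t)) - f * (1 - spr f t) := by
    rw [← smul_mul_assoc (4 : ℝ) (f - f * f) (1 - spr f t), ← sub_mul]
    congr 1
    rw [zero_smul, add_zero, smul_sub, neg_smul, show (4 : ℝ) • f = (3 : ℝ) • f + f by
      rw [show (4 : ℝ) = 3 + 1 by norm_num, add_smul, one_smul]]
    abel
  rw [e, rt_sub, rt_smul, rt_comm, rt_comm f] at h3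
  linarith

theorem round_mul_one_sub {f : N} (h0 : 0 ≤ f) (h1 : f ≤ 1) {t : ℝ} (ht : 1 / 4 ≤ t) :
    rt (spr f t * (1 - f)) ≤ 4 * rt (spr f t * (f - f * f)) := by
  have hf := IsSelfAdjoint.of_nonneg h0
  have h2 := cfc_mul_spr_nonneg (x := f) (g := fun s : ℝ => 5 * s + (-4) * (s * s) + (-1))
    (by fun_prop) (t := t) (fun s hs hst => by
      obtain ⟨a1, a2⟩ := spec42 h0 h1 hs
      nlinarith)
  rw [poly42 hf] at h2
  have h3 := rt_nonneg h2
  have e : ((5 : ℝ) • f + (-4 : ℝ) • (f * f) + (-1 : ℝ) • (1 : N)) * spr f t =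
      (4 : ℝ) • ((f - f * f) * spr f t) - (1 - f) * spr f t := by
    rw [← smul_mul_assoc (4 : ℝ) (f - f * f) (spr f t), ← sub_mul]
    congr 1
    rw [smul_sub, neg_smul, neg_one_smul, show (5 : ℝ) • f = (4 : ℝ) • f + f by
      rw [show (5 : ℝ) = 4 + 1 by norm_num, add_smul, one_smul]]
    abel
  rw [e, rt_sub, rt_smul, rt_comm, rt_comm (1 - f)] at h3
  linarith

theorem rt_sub_sq_nonneg {f : N} (h0 : 0 ≤ f) (h1 : f ≤ 1) : 0 ≤ f - f * f := by
  rw [← poly42_sub (IsSelfAdjoint.of_nonneg h0)]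
  refine cfc_nonneg fun s hs => ?_
  obtain ⟨a1, a2⟩ := spec42 h0 h1 hs
  nlinarith

/-- `τ((1-q) f) ≤ 4 τ(f - f²)`. -/
theorem round_one_sub_le {f : N} (h0 : 0 ≤ f) (h1 : f ≤ 1) {t : ℝ} (ht : 1 / 4 ≤ t)
    (ht' : t ≤ 3 / 4) : rt ((1 - spr f t) * f) ≤ 4 * rt (f - f * f) := by
  have h2 := round_one_sub h0 h1 ht'
  have h3 := rt_mul_mono' (rt_sub_sq_nonneg h0 h1) (sub_le_self (1 : N) (spr_nonneg f t))
  rw [one_mul] at h3
  linarith

/-- `τ(q (1-f)) ≤ 4 τ(f - f²)`. -/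
theorem round_mul_one_sub_le {f : N} (h0 : 0 ≤ f) (h1 : f ≤ 1) {t : ℝ} (ht : 1 / 4 ≤ t)
    (ht' : t ≤ 3 / 4) : rt (spr f t * (1 - f)) ≤ 4 * rt (f - f * f) := by
  have h2 := round_mul_one_sub h0 h1 ht
  have h3 := rt_mul_mono' (rt_sub_sq_nonneg h0 h1) (spr_le_one f t)
  rw [one_mul] at h3
  linarith

/-- `‖q - f‖₂² ≤ 4 τ(f - f²)`. -/
theorem round_two_le {f : N} (h0 : 0 ≤ f) (h1 : f ≤ 1) {t : ℝ} (ht : 1 / 4 ≤ t)
    (ht' : t ≤ 3 / 4) : two (spr f t - f) ^ 2 ≤ 4 * rt (f - f * f) := by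
  have hf := IsSelfAdjoint.of_nonneg h0
  have hq : IsSelfAdjoint (spr f t) := spr_sa f t
  have h2 := round_one_sub h0 h1 ht'
  have h3 := round_mul_one_sub h0 h1 ht
  have h4 := rt_nonneg (rt_sub_sq_nonneg h0 h1)
  have e1 : (spr f t - f) * (spr f t - f) =
      spr f t * (1 - f) + (1 - spr f t) * f + (spr f t * f - f * spr f t) - (f - f * f) := by
    have h5 := spr_mul_self f t
    have : (spr f t - f) * (spr f t - f) =
        spr f t * spr f t - spr f t * f - f * spr f t + f * f := by noncomm_ring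
    rw [this, h5]
    noncomm_ring
  rw [two_sq_sa (hq.sub hf), e1, rt_sub, rt_add, rt_add, rt_sub (spr f t * f), rt_comm f (spr f t),
    sub_self, add_zero]
  have e2 : rt ((1 - spr f t) * (f - f * f)) + rt (spr f t * (f - f * f)) = rt (f - f * f) := by
    rw [← rt_add]
    congr 1
    noncomm_ring
  linarith

/-- `|τ(q) - τ(f)| ≤ 4 τ(f - f²)`. -/
theorem round_rt_le {f : N} (h0 : 0 ≤ f) (h1 : f ≤ 1) {t : ℝ} (ht : 1 / 4 ≤ t)
    (ht' : t ≤ 3 / 4) : |rt (spr f t) - rt f| ≤ 4 * rt (f - f * f) := by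
  have h2 := round_one_sub_le h0 h1 ht ht'
  have h3 := round_mul_one_sub_le h0 h1 ht ht'
  have h4 : 0 ≤ rt (spr f t * (1 - f)) := rt_mul_nonneg (spr_nonneg f t) (sub_nonneg.2 h1)
  have h5 : 0 ≤ rt ((1 - spr f t) * f) := rt_mul_nonneg (sub_nonneg.2 (spr_le_one f t)) h0
  have e : rt (spr f t) - rt f = rt (spr f t * (1 - f)) - rt ((1 - spr f t) * f) := by
    rw [← rt_sub, ← rt_sub]
    congr 1
    noncomm_ring
  rw [e, abs_le]
  constructor <;> linarith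

/-- Near a projection with `τ(f) ≤ τ(p)`: `τ(f - f²) ≤ 2 ‖f - p‖₂ ‖p‖₂`. -/
theorem rt_sub_sq_le {f p : N} (h0 : 0 ≤ f) (h1 : f ≤ 1) (hp : Prj p) (h : rt f ≤ rt p) :
    rt (f - f * f) ≤ 2 * (two (f - p) * Real.sqrt (rt p)) := by
  have hf := IsSelfAdjoint.of_nonneg h0
  have hp2 : two p ^ 2 = rt p := two_proj hp
  have hs : Real.sqrt (rt p) = two p := by
    rw [← hp2]
    exact Real.sqrt_sq (two_nonneg p)
  have hf2 : two f ^ 2 = rt (f * f) := two_sq_sa hf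
  have h4 := rt_nonneg (rt_sub_sq_nonneg h0 h1)
  rw [rt_sub] at h4 ⊢
  rw [hs]
  have h5 : two f ≤ two p := by
    refine (pow_le_pow_iff_left₀ (two_nonneg f) (two_nonneg p) (two_ne_zero)).1 ?_
    rw [hf2, hp2]
    linarith
  have h6 : two p - two f ≤ two (f - p) := by
    have h7 := abs_two_sub_two_le p f
    rw [two_sub_comm] at h7
    exact (le_abs_self _).trans h7
  have h8 := two_nonneg f
  have h9 := two_nonneg (f - p)
  nlinarith

/-- General form near a projection: `τ(f - f²) = τ((f - p)(1 - f - p)) ≤ ‖f - p‖₁` since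
`‖1 - f - p‖ ≤ 1`. -/
theorem rt_sub_sq_le_one {f p : N} (h0 : 0 ≤ f) (h1 : f ≤ 1) (hp : Prj p) :
    rt (f - f * f) ≤ one (f - p) := by
  have hf := IsSelfAdjoint.of_nonneg h0
  have hpn := proj_nonneg hp
  have hp1 := proj_le_one hp
  have hpp := hp.2
  have e : rt (f - f * f) = rt ((f - p) * (1 - f - p)) := by
    have e1 : (f - p) * (1 - f - p) = (f - f * f) + (p * f - f * p) + (p * p - p) := by
      noncomm_ring
    rw [e1, rt_add, rt_add, rt_sub (p * f), rt_comm p f, sub_self, hpp, sub_self, rt_zero,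
      add_zero, add_zero]
  have hsa : IsSelfAdjoint (1 - f - p) :=
    ((IsSelfAdjoint.one N).sub hf).sub (IsSelfAdjoint.of_nonneg hpn)
  have hle : 1 - f - p ≤ 1 := by
    have h2 : 1 - f - p ≤ 1 - f := sub_le_self _ hpn
    exact h2.trans (sub_le_self _ h0)
  have hge : -1 ≤ 1 - f - p := by
    have h2 : 0 ≤ (1 - f) + (1 - p) := add_nonneg (sub_nonneg.2 h1) (sub_nonneg.2 hp1)
    rw [← sub_nonneg]
    refine h2.trans (le_of_eq ?_)
    abel
  have hn : ‖1 - f - p‖ ≤ 1 := by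
    have h2 := norm_cfc_le (f := fun s : ℝ => s) (a := 1 - f - p) (c := 1) zero_le_one
      (fun s hs => by
        rw [Real.norm_eq_abs, abs_le]
        have h3 := (CFC.le_one_iff (R := ℝ) (1 - f - p) hsa).1 hle s hs
        have h4 : algebraMap ℝ N (-1) ≤ 1 - f - p := by
          rw [map_neg, map_one]
          exact hge
        exact ⟨(algebraMap_le_iff_le_spectrum (R := ℝ) (a := 1 - f - p) hsa).1 h4 s hs, h3⟩)
    rwa [cfc_id' ℝ (1 - f - p) hsa] at h2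
  rw [e]
  exact (rt_mul_le_one _ _).trans (mul_le_of_le_one_right (one_nonneg _) hn)

end Pool.Agent.PTH
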