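import Pool.Agent.PTH.CcN
import Pool.Agent.PTH.TbR

/-!
# PTH / CcSa: the first half of the step: smoothing and rounding

`Half`: the data after smoothing: a projection `0 ≠ q ≤ Y`, `Ψ` in `SM q` represented by a vector,
deficit `≤ 0.00106 τ(q)`, `Sml a q Ψ (r^4)`, `Dom Ψ 2^{-26} F₁`, `Y F₁ = F₁`.

PROOF OF `half_step`.  `W = wdY a Y hY k`, `Θ'' = corrM W Θ`, `SM Y Θ''` (`SM.corr`, `wdY_l`).
`σ₁ = (1-ν)^k + e'/ν`, `ρ₀ = 10^{-24}`.  All traces relative to `T² = τ(p)`.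
 (b) `B, ξ` from `exists_rep Θ`.  `pξ = ξ = ξp` (`Rep.l_q`, `Rep.r_q`), so `Yξ = ξ = ξY`.
     `ξ'' = TYB^k ξ` represents `Θ''` (`wdY_B`, `Rep.corr`).  `‖ξ‖² = τ(Θ 1) ≤ τ(p)`, `e(ξ) = enM Θ ≤ e1 τ(p)`.
 (c) `e(ξ'') ≤ (1-ν)^k e1 τ(p) + (e'/ν) τ(p) ≤ σ₁ T²` (`hg_smooth_en`), `‖ξ-ξ''‖² ≤ ρ₀ T²`
     (`hg_smooth_dist`, `Nums.rho`).
 (d) `f = TYA^k p`: `0 ≤ f ≤ Y` (`TYA_nonneg`, `TYA_le`), `τ(f) ≤ T²`, `e(f) ≤ σ₁ T²`, `‖p-f‖₂² ≤ ρ₀T²`.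
 (e) LW on `[1/4,3/4]`: `t`, `q = 1_{f>t}`, `e(q) ≤ 8 ‖f‖₂ (2e(f))^{1/2} ≤ 8 (2σ₁)^{1/2} T²` (`‖f‖₂² ≤ τ(f)`).
 (f) `τ(f-f²) ≤ 2‖f-p‖₂ T ≤ 2·10^{-12} T²` (`rt_sub_sq_le`), `‖q-f‖₂² ≤ 8·10^{-12}T²` (`round_two_le`), so
     `‖q-p‖₂ ≤ 3·10^{-6} T`.
 (g) `τ(q) ≤ 4τ(f) ≤ 4T²` (`round_le`), `|τ(q)-τ(p)| = |‖q‖₂²-‖p‖₂²| ≤ ‖q-p‖₂(‖q‖₂+‖p‖₂) ≤ 10^{-5} T²`.
     So `q ≠ 0`.
 (h) `t q ≤ f ≤ Y` (`smul_spr_le`), so `Y q = q`.
 (i) `Ψ = cjM q Θ''`, `SM q Ψ` (`SM.compress`), vector `ζ = q ξ'' q` (`Rep.cj`, `star q = q`).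
     `ζ - ξ = q(ξ''-ξ)q + q(ξ(q-p)) + (q-p)ξ` (`ξp = ξ`, `pξ = ξ`), so
     `‖ζ-ξ‖ ≤ 10^{-12}T + 2‖q-p‖₂ ≤ 7·10^{-6} T` (`Rep.norm_l_le`, `Rep.norm_r_le`).
     `τ(Ψ 1) = ‖ζ‖² ≥ ‖ξ‖² - 2‖ξ‖‖ζ-ξ‖ ≥ τ(Θ 1) - 1.4·10^{-5} T²`.
     `τ(q) - τ(Ψ 1) ≤ (1+10^{-5})T² - (1-10^{-3})T² + 1.4·10^{-5}T² ≤ 0.00103 T² ≤ 0.00106 τ(q)`.
 (j) `w = (2σ₁)^{1/4}` (two square roots), `14 w ≤ r^4` (`Nums.sg`; `(14w)^4 ≤ (r^4)^4`), `w ≤ 1`.
     `(2e(q))^{1/2} ≤ 4wT`; `(2 enM Θ'')^{1/2} = (2e(ξ''))^{1/2} ≤ w²T`;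
     `(2 enM Ψ)^{1/2} ≤ 2 (2e(q))^{1/2} + (2 enM Θ'')^{1/2} ≤ 8wT + w²T` (`Rep.sqrt_en_cj_le`, `C = 1`).
     Sum `≤ 13 w T ≤ 14 w τ(q)^{1/2} ≤ r^4 τ(q)^{1/2}`.
 (k) `Dom Θ'' 2^{-26} (corrf W F)` (`Dom.corr`), `Dom.cj` with `q`, `C = 1`: `F₁ = (corrf W F).map (q . q)`,
     `F₁.hs ≤ (corrf W F).hs ≤ (TLf W F).hs` (`Dom.cj_hs`, `corrf_hs_le`); `Y q = q`.
-/

open Filter Topology
open scoped InnerProductSpace ComplexOrder

universe u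

namespace Pool.Agent.PTH

open TrAlg

/-- The data after the first half. -/
structure Half {A : Type u} [CStarAlgebra A] [TrAlg A] [PartialOrder A] (a : Avg A) (Y : A)
    (r : ℝ) (q : A) (Ψ : A →ₗ[ℂ] A) (F : Fam A) (B : Bim.{u} A) (ζ : B.H) : Prop where
  prj : Prj q
  ne : q ≠ 0
  le : Y * q = q
  sm : SM q Ψ
  rep : Rep B ζ Ψ
  dft : rt q - rt (Ψ 1) ≤ 0.00106 * rt q
  sml : Sml a q Ψ (r ^ 4)
  dom : Dom Ψ (1 / 2 ^ 26) F
  supp : ∀ i, Y * F.v i = F.v i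

theorem half_step {A : Type u} [CStarAlgebra A] [PartialOrder A] [StarOrderedRing A]
    [TracialVN A] (a : Avg A) {Y : A} {ν e1 r e' : ℝ} {k : ℕ} (hN : Nums ν e1 r e' k)
    (hY : Prj Y) (hg : HG a Y ν e') {p : A} {Θ : A →ₗ[ℂ] A} {F : Fam A} (hK : KK a Y e1 p Θ F) :
    ∃ (q : A) (Ψ : A →ₗ[ℂ] A) (F₁ : Fam A) (B : Bim.{u} A) (ζ : B.H),
      Half a Y r q Ψ F₁ B ζ ∧ F₁.hs ≤ (TLf (wdY a Y hY k) F).hs := by
  have hp := hK.prj
  have hpp : 0 < rt p := rt_proj_pos hp hK.ne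
  have hν := hN.ν0
  have he'0 := hN.e'0
  obtain ⟨B, ξ, hreg, hrep⟩ := exists_rep Θ hK.sm.cp hK.sm.symm
  have hpl := hrep.l_q hK.sm hp
  have hpr := hrep.r_q hK.sm hp
  have hpY : p * Y = p := by
    have h := congrArg star hK.le
    rwa [star_mul, hp.1, hY.1] at h
  have hYl : B.l Y ξ = ξ := by
    conv_lhs => rw [← hpl, ← B.l_mul, hK.le]
    exact hpl
  have hYr : B.r Y ξ = ξ := by
    conv_lhs => rw [← hpr, ← B.r_mul, hpY]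
    exact hpr
  set W := wdY a Y hY k with hW
  have hrep₂ : Rep B ((TYB B a Y ^ k) ξ) (corrM W Θ) := by
    have h := hrep.corr W
    rwa [← wdY_B B a Y hY k ξ hYl hYr] at h
  have hSM₂ : SM Y (corrM W Θ) := hK.sm.corr hp W hY (wdY_l a Y hY k)
  have hsm_en := hg_smooth_en a hY hν hN.ν1 he'0.le hg B hreg ξ hYl hYr k
  have hsm_di := hg_smooth_dist a hY hν hN.ν1 he'0.le hg B hreg ξ hYl hYr k
  set ξ₂ := (TYB B a Y ^ k) ξ with hξ₂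
  obtain ⟨T, hTd⟩ : ∃ T, T = Real.sqrt (rt p) := ⟨_, rfl⟩
  have hT0 : 0 < T := by rw [hTd]; exact Real.sqrt_pos.2 hpp
  have hTsq : T ^ 2 = rt p := by rw [hTd]; exact Real.sq_sqrt hpp.le
  have hnξ : ‖ξ‖ ^ 2 = rt (Θ 1) := hrep.norm_sq
  have hnξ' : ‖ξ‖ ^ 2 ≤ T ^ 2 := by rw [hnξ, hTsq]; exact hK.sm.rt_one_le
  have hnT : ‖ξ‖ ≤ T := (pow_le_pow_iff_left₀ (norm_nonneg _) hT0.le (by norm_num)).1 hnξ'
  have henξ : B.en a ξ = enM a Θ := hrep.en_eq a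
  have hq0 : 0 ≤ (1 - ν) ^ k := pow_nonneg (by linarith [hN.ν1]) k
  have he0 : 0 ≤ e' / ν := by positivity
  obtain ⟨σ, hσ⟩ : ∃ σ, σ = (1 - ν) ^ k + e' / ν := ⟨_, rfl⟩
  have hσ0 : 0 ≤ σ := by rw [hσ]; positivity
  have hscale : ∀ x y : ℝ, x ≤ e1 * T ^ 2 → y ≤ T ^ 2 →
      (1 - ν) ^ k * x + e' / ν * y ≤ σ * T ^ 2 := by
    intro x y hx hy
    have h1 : x ≤ T ^ 2 := hx.trans (mul_le_of_le_one_left (sq_nonneg T) hN.e11)
    have h2 := mul_le_mul_of_nonneg_left h1 hq0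
    have h3 := mul_le_mul_of_nonneg_left hy he0
    rw [hσ]
    linarith
  have hscale' : ∀ x y : ℝ, x ≤ e1 * T ^ 2 → y ≤ T ^ 2 →
      2 / ν * x + 2 * k * e' / ν * y ≤ (1 / 10 ^ 6) ^ 4 * T ^ 2 := by
    intro x y hx hy
    have h2 := mul_le_mul_of_nonneg_left hx (by positivity : 0 ≤ 2 / ν)
    have h3 := mul_le_mul_of_nonneg_left hy (by positivity : 0 ≤ 2 * k * e' / ν)
    have h4 := mul_le_mul_of_nonneg_right hN.rho (sq_nonneg T)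
    linarith
  have hroot : ∀ d : ℝ, d ^ 2 ≤ (1 / 10 ^ 6) ^ 4 * T ^ 2 → d ≤ 1 / 10 ^ 12 * T := by
    intro d hd
    refine le_of_sq_le_sq (hd.trans (le_of_eq ?_)) (by positivity)
    ring
  have hen₂ : B.en a ξ₂ ≤ σ * T ^ 2 := by
    refine hsm_en.trans (hscale _ _ ?_ hnξ')
    rw [henξ, hTsq]
    exact hK.en_Θ
  have hdi₂ : ‖ξ - ξ₂‖ ≤ 1 / 10 ^ 12 * T := by
    refine hroot _ (hsm_di.trans (hscale' _ _ ?_ hnξ'))
    rw [henξ, hTsq]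
    exact hK.en_Θ
  -- the element f
  have hYpY : Y * p * Y = p := by rw [hK.le, hpY]
  have hp0 : 0 ≤ p := proj_nonneg hp
  have hpY' : p ≤ Y := prj_le_of_mul hp hY hpY
  have htp : two p ^ 2 = T ^ 2 := by rw [two_proj hp, hTsq]
  have hf0 := TYA_nonneg a Y hY k p hp0
  have hfY := TYA_le a Y hY k p hp0 hpY'
  have hftr := TYA_rt_le a Y hY k p hp0
  have hfen := smooth_en_A a hY hν hN.ν1 he'0.le hg p hYpY k
  have hfdi := smooth_dist_A a hY hν hN.ν1 he'0.le hg p hYpY k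
  set f := (TYA a Y ^ k) p with hf
  have hf1 : f ≤ 1 := hfY.trans (proj_le_one hY)
  have hftr' : rt f ≤ T ^ 2 := by rw [hTsq]; exact hftr
  have hfen' : a.en f ≤ σ * T ^ 2 := by
    refine hfen.trans (hscale _ _ ?_ htp.le)
    rw [hTsq]
    exact hK.en_p
  have hfdi' : two (f - p) ≤ 1 / 10 ^ 12 * T := by
    rw [two_sub_comm]
    refine hroot _ (hfdi.trans (hscale' _ _ ?_ htp.le))
    rw [hTsq]
    exact hK.en_p
  have hftwo : two f ≤ T := by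
    refine le_of_sq_le_sq ?_ hT0.le
    have h1 : ‖f‖ ≤ 1 := norm_le_of_le_smul hf0 zero_le_one (by rw [one_smul]; exact hf1)
    have h2 := two_sq_le_of_norm_le hf0 h1
    linarith
  -- the number w
  obtain ⟨w, hw⟩ : ∃ w, w = Real.sqrt (Real.sqrt (2 * σ)) := ⟨_, rfl⟩
  have hw0 : 0 ≤ w := by rw [hw]; exact Real.sqrt_nonneg _
  have hw2 : w ^ 2 = Real.sqrt (2 * σ) := by rw [hw]; exact Real.sq_sqrt (Real.sqrt_nonneg _)
  have hw4 : w ^ 4 = 2 * σ := by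
    have h1 : w ^ 4 = (w ^ 2) ^ 2 := by ring
    rw [h1, hw2]
    exact Real.sq_sqrt (by positivity)
  have hwr : 14 * w ≤ r ^ 4 := by
    have h1 : (14 * w) ^ 4 ≤ (r ^ 4) ^ 4 := by
      rw [mul_pow, hw4, hσ, ← pow_mul]
      exact hN.sg
    exact (pow_le_pow_iff_left₀ (by positivity) (pow_nonneg hN.r0.le 4) (by norm_num)).1 h1
  have hr1 : r ≤ 1 := by
    have h1 := hN.re
    have h2 := hN.e11
    have h3 := hN.r0
    linarith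
  have hr4 : r ^ 4 ≤ 1 := pow_le_one₀ hN.r0.le hr1
  have hw1 : w ≤ 1 := by linarith
  have hsq : ∀ x : ℝ, x ≤ σ * T ^ 2 → Real.sqrt (2 * x) ≤ w ^ 2 * T := by
    intro x hx
    refine Real.sqrt_le_iff.2 ⟨by positivity, ?_⟩
    have h1 : (w ^ 2 * T) ^ 2 = w ^ 4 * T ^ 2 := by ring
    rw [h1, hw4]
    linarith
  -- the window
  obtain ⟨t, ht1, ht2, hten⟩ := LW a hf0 hf1 (s := 1 / 4) (s' := 3 / 4) (by norm_num)
    (by norm_num) (by norm_num)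
  have hqp := spr_prj f t
  have hrle := round_le hf0 ht1
  have hr2 := round_two_le hf0 hf1 ht1 ht2
  have hr3 := rt_sub_sq_le hf0 hf1 hp hftr
  set q := spr f t with hq
  have hqen : Real.sqrt (2 * a.en q) ≤ 4 * w * T := by
    refine Real.sqrt_le_iff.2 ⟨by positivity, ?_⟩
    have h1 : two f * Real.sqrt (2 * a.en f) ≤ T * (w ^ 2 * T) :=
      mul_le_mul hftwo (hsq _ hfen') (Real.sqrt_nonneg _) hT0.le
    have h2 : (4 : ℝ) / (3 / 4 - 1 / 4) = 8 := by norm_num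
    rw [h2] at hten
    have h3 : (4 * w * T) ^ 2 = 16 * (T * (w ^ 2 * T)) := by ring
    rw [h3]
    linarith
  have hTr : Real.sqrt (rt p) = T := hTd.symm
  rw [hTr] at hr3
  have hff : rt (f - f * f) ≤ 2 / 10 ^ 12 * T ^ 2 := by
    have h1 := mul_le_mul_of_nonneg_right hfdi' hT0.le
    refine hr3.trans ((mul_le_mul_of_nonneg_left h1 (by norm_num)).trans (le_of_eq ?_))
    ring
  have hqf : two (q - f) ≤ 2.83 / 10 ^ 6 * T := by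
    refine le_of_sq_le_sq (hr2.trans ?_) (by positivity)
    have h1 : (2.83 / 10 ^ 6 * T) ^ 2 = 8.0089 / 10 ^ 12 * T ^ 2 := by
      norm_num
      ring
    rw [h1]
    have h2 : 0 ≤ T ^ 2 := sq_nonneg T
    norm_num at hff ⊢
    linarith
  have hqp' : two (q - p) ≤ 3 / 10 ^ 6 * T := by
    have h1 := two_sub_le_sub q f p
    norm_num at h1 hqf hfdi' ⊢
    linarith
  have hq4 : rt q ≤ 4 * T ^ 2 := by
    have h1 := rt_mono hrle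
    rw [Pool.Agent.PTH.rt_smul] at h1
    linarith
  have htq : two q ^ 2 = rt q := two_proj hqp
  have hq2T : two q ≤ 2 * T := by
    refine le_of_sq_le_sq ?_ (by positivity)
    rw [htq]
    linarith
  have hpT : two p = T := by
    have h1 : two p = Real.sqrt (two p ^ 2) := (Real.sqrt_sq (two_nonneg p)).symm
    rw [h1, two_proj hp]
    exact hTr
  have habs : |rt q - rt p| ≤ 1 / 10 ^ 5 * T ^ 2 := by
    have h1 : rt q - rt p = (two q - two p) * (two q + two p) := by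
      rw [← htq, ← two_proj hp]
      ring
    rw [h1, abs_mul]
    have h2 : |two q - two p| ≤ 3 / 10 ^ 6 * T := (abs_two_sub_two_le q p).trans hqp'
    have h3 : |two q + two p| ≤ 3 * T := by
      rw [abs_of_nonneg (add_nonneg (two_nonneg _) (two_nonneg _)), hpT]
      linarith
    refine (mul_le_mul h2 h3 (abs_nonneg _) (by positivity)).trans ?_
    have h4 : 0 ≤ T ^ 2 := sq_nonneg T
    have h5 : 3 / 10 ^ 6 * T * (3 * T) = 9 / 10 ^ 6 * T ^ 2 := by ring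
    rw [h5]
    norm_num
    linarith
  have hqlow : (1 - 1 / 10 ^ 5) * T ^ 2 ≤ rt q := by
    have := (abs_le.1 habs).1
    rw [hTsq] at this ⊢
    linarith
  have hqupp : rt q ≤ (1 + 1 / 10 ^ 5) * T ^ 2 := by
    have := (abs_le.1 habs).2
    rw [hTsq] at this ⊢
    linarith
  have hT2 : 0 < T ^ 2 := by positivity
  have hq0' : 0 < rt q := by
    norm_num at hqlow
    linarith
  have hqne : q ≠ 0 := by
    intro h
    rw [h, rt_zero] at hq0'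
    exact lt_irrefl _ hq0'
  have hYq : Y * q = q := by
    have h1 : q ≤ (4 : ℝ) • Y := hrle.trans (smul_le_smul_of_nonneg_left hfY (by norm_num))
    have h2 := mul_prj_of_le_smul (proj_nonneg hqp) hY h1
    have h3 := congrArg star h2
    rwa [star_mul, hY.1, hqp.1] at h3
  -- the vector ζ
  have hqn : ‖q‖ ≤ 1 := norm_proj_le hqp
  have hrep₃ : Rep B (B.l q (B.r q ξ₂)) (cjM q (corrM W Θ)) := by
    have h := hrep₂.cj q
    rwa [hqp.1] at h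
  have hSM₃ : SM q (cjM q (corrM W Θ)) := hSM₂.compress hY hqp
  have hl1 : ∀ η : B.H, ‖B.l q η‖ ≤ ‖η‖ := fun η =>
    (B.norm_l_le q η).trans (mul_le_of_le_one_left (norm_nonneg _) hqn)
  have hr1' : ∀ η : B.H, ‖B.r q η‖ ≤ ‖η‖ := fun η =>
    (B.norm_r_le q η).trans (mul_le_of_le_one_left (norm_nonneg _) hqn)
  have hζ : ‖B.l q (B.r q ξ₂) - ξ‖ ≤ 7 / 10 ^ 6 * T := by
    have e1 : B.l q (B.r q ξ₂) - ξ =
        B.l q (B.r q (ξ₂ - ξ)) + B.l q (B.r (q - p) ξ) + B.l (q - p) ξ := by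
      rw [map_sub, map_sub, B.r_sub, B.l_sub, map_sub, hpr, hpl]
      abel
    have h1 : ‖B.l q (B.r q (ξ₂ - ξ))‖ ≤ 1 / 10 ^ 12 * T := by
      refine (hl1 _).trans ((hr1' _).trans ?_)
      rw [norm_sub_rev]
      exact hdi₂
    have h2 : ‖B.l q (B.r (q - p) ξ)‖ ≤ 3 / 10 ^ 6 * T :=
      (hl1 _).trans ((hrep.norm_r_le hK.sm hp _).trans hqp')
    have h3 : ‖B.l (q - p) ξ‖ ≤ 3 / 10 ^ 6 * T := (hrep.norm_l_le hK.sm hp _).trans hqp'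
    rw [e1]
    refine (norm_add_le _ _).trans ?_
    have h4 := norm_add_le (B.l q (B.r q (ξ₂ - ξ))) (B.l q (B.r (q - p) ξ))
    linarith
  have hζ2 : ‖B.l q (B.r q ξ₂)‖ ^ 2 = rt (cjM q (corrM W Θ) 1) := hrep₃.norm_sq
  have hdft : rt (Θ 1) - 1.4 / 10 ^ 5 * T ^ 2 ≤ rt (cjM q (corrM W Θ) 1) := by
    rw [← hζ2, ← hnξ]
    have h1 : ‖ξ‖ - ‖B.l q (B.r q ξ₂)‖ ≤ 7 / 10 ^ 6 * T := by
      refine le_trans ?_ hζ
      rw [norm_sub_rev]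
      exact norm_sub_norm_le _ _
    rcases le_total ‖ξ‖ ‖B.l q (B.r q ξ₂)‖ with h2 | h2
    · have h3 : ‖ξ‖ ^ 2 ≤ ‖B.l q (B.r q ξ₂)‖ ^ 2 := pow_le_pow_left₀ (norm_nonneg _) h2 2
      norm_num
      linarith
    · have h3 : ‖ξ‖ ^ 2 - ‖B.l q (B.r q ξ₂)‖ ^ 2 ≤ 7 / 10 ^ 6 * T * (2 * T) := by
        have e2 : ‖ξ‖ ^ 2 - ‖B.l q (B.r q ξ₂)‖ ^ 2 =
            (‖ξ‖ - ‖B.l q (B.r q ξ₂)‖) * (‖ξ‖ + ‖B.l q (B.r q ξ₂)‖) := by ring
        rw [e2]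
        exact mul_le_mul h1 (by linarith) (by positivity) (by positivity)
      have e3 : 7 / 10 ^ 6 * T * (2 * T) = 14 / 10 ^ 6 * T ^ 2 := by ring
      rw [e3] at h3
      norm_num at h3 ⊢
      linarith
  have hdft' : rt q - rt (cjM q (corrM W Θ) 1) ≤ 0.00106 * rt q := by
    have h1 := hK.dft
    rw [← hTsq] at h1
    norm_num at h1 hdft hqupp hqlow ⊢
    linarith
  -- energies
  have henΨ : Real.sqrt (2 * enM a (cjM q (corrM W Θ))) ≤ 8 * w * T + w ^ 2 * T := by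
    have h1 := hrep₂.sqrt_en_cj_le a hSM₂ hY q 1 hqn
    have h2 : Real.sqrt (2 * enM a (corrM W Θ)) ≤ w ^ 2 * T := by
      rw [← hrep₂.en_eq a]
      exact hsq _ hen₂
    rw [mul_one, one_pow, one_mul] at h1
    linarith
  have hsml : Sml a q (cjM q (corrM W Θ)) (r ^ 4) := by
    change Real.sqrt (2 * a.en q) + Real.sqrt (2 * enM a (cjM q (corrM W Θ))) ≤
      r ^ 4 * Real.sqrt (rt q)
    have h1 : 13 * T ≤ 14 * Real.sqrt (rt q) := by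
      have h2 : 13 / 14 * T ≤ Real.sqrt (rt q) := by
        refine Real.le_sqrt_of_sq_le ?_
        refine le_trans ?_ hqlow
        rw [mul_pow]
        norm_num
        linarith
      linarith
    have h2 : w ^ 2 * T ≤ w * T := by
      refine mul_le_mul_of_nonneg_right ?_ hT0.le
      rw [sq]
      exact mul_le_of_le_one_left hw0 hw1
    have h3 := mul_le_mul_of_nonneg_left h1 hw0
    have h4 := mul_le_mul_of_nonneg_right hwr (Real.sqrt_nonneg (rt q))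
    have h5 : w * (14 * Real.sqrt (rt q)) = 14 * w * Real.sqrt (rt q) := by ring
    have h6 : w * (13 * T) = 13 * (w * T) := by ring
    have h7 : 8 * w * T = 8 * (w * T) := by ring
    have h8 : 4 * w * T = 4 * (w * T) := by ring
    rw [h5, h6] at h3
    rw [h7] at henΨ
    rw [h8] at hqen
    linarith
  -- domination
  have hdom : Dom (cjM q (corrM W Θ)) (1 / 2 ^ 26)
      ((corrf W F).map fun x => q * x * star q) := by
    have h1 := (hK.dom.corr (by positivity) W).cj (by positivity) q 1 hqn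
    rwa [one_pow, mul_one] at h1
  have hhs : ((corrf W F).map fun x => q * x * star q).hs ≤ (TLf W F).hs := by
    have h1 := Dom.cj_hs (F := corrf W F) q 1 hqn
    rw [one_pow, one_mul] at h1
    exact h1.trans (corrf_hs_le W F)
  refine ⟨q, cjM q (corrM W Θ), (corrf W F).map fun x => q * x * star q, B,
    B.l q (B.r q ξ₂), ⟨hqp, hqne, hYq, hSM₃, hrep₃, hdft', hsml, hdom, fun i => ?_⟩, hhs⟩
  change Y * (q * (corrf W F).v i * star q) = q * (corrf W F).v i * star q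
  rw [← mul_assoc, ← mul_assoc, hYq]

end Pool.Agent.PTH
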