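import Pool.Agent.PTH.CcSa

/-!
# PTH / CcSb: the second half of the step: two rounds of Lemma R and squaring

PROOF OF `full_step`.  `D = τ(q) - τ(Ψ 1) ≤ 0.00106 τ(q)`.  `r ≤ 2^{-28}` (`Nums.re`, `e1 ≤ 1`).
 Round 1 (`lemmaR`, `s = r^4`): `c₁, q₁`, `Ψ₁ = cjM c₁ Ψ`: `D₁ ≤ (22/35) D`, `τ(q)-τ(q₁) ≤ (8/7)D`,
   `Sml a q₁ Ψ₁ (2^18 r²)`, `2^18 r² ≤ 1`; `Ψ₁` is represented (`Rep.cj`); `D₁ ≤ τ(q₁)/10`.
 Round 2: `c₂, q₂`, `Ψ₂ = cjM c₂ Ψ₁`: `D₂ ≤ (22/35)² D`, `τ(q₁)-τ(q₂) ≤ (8/7) D₁`,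
   `Sml a q₂ Ψ₂ (2^27 r)` (`√(2^18 r²) = 2^9 r`); `Ψ₂` is represented.
 `τ(q₂) ≥ (1 - 0.00106·(8/7)(1+22/35)) τ(q) ≥ 0.997 τ(q)`.
 Square: `Θ' = Ψ₂∘Ψ₂`, `SM q₂ Θ'` (`SM.comp`); `h = Ψ₂(1)`, `τ(Θ' 1) = τ(h²)` (`SM.tau_apply`),
   `τ(q₂) - τ(h²) = τ(q₂ - h) + τ(h(q₂-h)) ≤ 2 D₂ ≤ 2(22/35)²·0.00106 τ(q) ≤ τ(q₂)/1000`
   (`0 ≤ h ≤ q₂`, `h ≤ 1`, `rt_mul_mono'`).
 Energies: `enM Θ' ≤ 2 τ(q₂)^{1/2} (2 enM Ψ₂)^{1/2} ≤ 2^28 r τ(q₂) ≤ e1 τ(q₂)` (`Rep.comp_en_le`),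
   `2e(q₂) ≤ (2^27 r)² τ(q₂)`, so `e(q₂) ≤ e1 τ(q₂)`.
 Domination: `F₂ = (F₁.map (c₁ . c₁*)).map (c₂ . c₂*)`: `Dom Ψ₂ (2^{-26} 8² 8²) F₂ = Dom Ψ₂ 2^{-14} F₂`
   (`Dom.cj` with `C = √8`, `(√8)^4 = 64`), `F₂.hs ≤ 8^4·8^4 F₁.hs = 2^24 F₁.hs` (`(√8)^8 = 8^4`).
   `F' = sqf 2^{-14} Ψ₂ F₂`: `Dom Θ' (2·2^{-28}) F'`, `2^{-27} ≤ 2^{-26}` (`Dom.mono`);
   `√F'.hs ≤ (2^{-14} + 1 + 2^{12}) √F₂.hs ≤ 2^13 2^12 √F₁.hs`, `F'.hs ≤ 2^50 F₁.hs`.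
 Support: `Y c = c` for `c = c₁, c₂` (`q' c = c`, `Y q' = q'`), `Y Ψ₂(x) = Ψ₂(x)` (`SM.q_mul`).

PROOF OF `exists_good`.  Otherwise every `KK` triple has `(TLf W F).hs ≤ 2^{-52} F.hs`; `half_step` and
`full_step` give a new `KK` triple with `F'.hs ≤ F.hs/4`.  Iterate: after `n` steps `F.hs ≤ F₀.hs/4^n`,
but `Dom.lower` (`δ = 1/1000`) gives `√F.hs ≥ 1 - 1/1000 - 2^{-26} ≥ 1/2` always.
-/

open Filter Topology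
open scoped InnerProductSpace ComplexOrder

universe u

namespace Pool.Agent.PTH

open TrAlg

private theorem s8_2 : Real.sqrt 8 ^ 2 = 8 := Real.sq_sqrt (by norm_num)

private theorem s8_4 : Real.sqrt 8 ^ 4 = 64 := by
  rw [show (4 : ℕ) = 2 * 2 by norm_num, pow_mul, s8_2]
  norm_num

private theorem s8_8 : Real.sqrt 8 ^ 8 = 2 ^ 12 := by
  rw [show (8 : ℕ) = 2 * 4 by norm_num, pow_mul, s8_2]
  norm_num

variable {A : Type u} [CStarAlgebra A] [PartialOrder A] [StarOrderedRing A]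
    [TracialVN A] (a : Avg A) {Y : A} {ν e1 r e' : ℝ} {k : ℕ}

theorem full_step (hN : Nums ν e1 r e' k) (hY : Prj Y) {q : A} {Ψ : A →ₗ[ℂ] A} {F₁ : Fam A}
    {B : Bim.{u} A} {ζ : B.H} (hH : Half a Y r q Ψ F₁ B ζ) :
    ∃ (p : A) (Θ : A →ₗ[ℂ] A) (F : Fam A), KK a Y e1 p Θ F ∧ F.hs ≤ 2 ^ 50 * F₁.hs := by
  have hr0 := hN.r0
  have hre := hN.re
  have he1 := hN.e11
  have hr28 : 2 ^ 28 * r ≤ 1 := hre.trans he1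
  have hr1 : r ≤ 1 / 2 ^ 28 := by
    rw [le_div_iff₀ (by positivity)]
    linarith
  have hrle : r ≤ 1 := hr1.trans (by norm_num)
  have hqpos : 0 < rt q := rt_proj_pos hH.prj hH.ne
  have hD0 : 0 ≤ rt q - rt (Ψ 1) := sub_nonneg.2 hH.sm.rt_one_le
  have hD := hH.dft
  -- round 1
  obtain ⟨c1, q1, hq1, hq1n, hqq1, hqc1, hc1, hsm1, hD1, hT1, hS1⟩ :=
    lemmaR a hH.prj hH.ne hH.sm hH.rep (s := r ^ 4) (by positivity)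
      (pow_le_one₀ hr0.le hrle) hH.sml (by linarith)
  have hD10 : 0 ≤ rt q1 - rt (cjM c1 Ψ 1) := sub_nonneg.2 hsm1.rt_one_le
  have e4 : Real.sqrt (r ^ 4) = r ^ 2 := by
    rw [show r ^ 4 = (r ^ 2) ^ 2 by ring, Real.sqrt_sq (by positivity)]
  rw [e4] at hS1
  have hrr : r ^ 2 ≤ 1 / 2 ^ 56 := by
    calc r ^ 2 ≤ (1 / 2 ^ 28) ^ 2 := pow_le_pow_left₀ hr0.le hr1 2
      _ = 1 / 2 ^ 56 := by norm_num
  have hs1 : 2 ^ 18 * r ^ 2 ≤ 1 := by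
    calc 2 ^ 18 * r ^ 2 ≤ 2 ^ 18 * (1 / 2 ^ 56) := mul_le_mul_of_nonneg_left hrr (by positivity)
      _ ≤ 1 := by norm_num
  have hrep1 := hH.rep.cj c1
  -- round 2
  obtain ⟨c2, q2, hq2, hq2n, hqq2, hqc2, hc2, hsm2, hD2, hT2, hS2⟩ :=
    lemmaR a hq1 hq1n hsm1 hrep1 (s := 2 ^ 18 * r ^ 2) (by positivity) hs1 hS1 (by linarith)
  have hrep2 := hrep1.cj c2
  obtain ⟨Φ, hΦ⟩ : ∃ Φ, Φ = cjM c2 (cjM c1 Ψ) := ⟨_, rfl⟩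
  rw [← hΦ] at hsm2 hD2 hS2 hrep2
  have e5 : 2 ^ 18 * Real.sqrt (2 ^ 18 * r ^ 2) = 2 ^ 27 * r := by
    rw [show (2 : ℝ) ^ 18 * r ^ 2 = (2 ^ 9 * r) ^ 2 by ring, Real.sqrt_sq (by positivity)]
    ring
  rw [e5] at hS2
  have hq2pos : 0 < rt q2 := rt_proj_pos hq2 hq2n
  have hlow : 0.997 * rt q ≤ rt q2 := by linarith
  -- support
  have hYq1 : Y * q1 = q1 := by rw [← hqq1, ← mul_assoc, hH.le]
  have hYq2 : Y * q2 = q2 := by rw [← hqq2, ← mul_assoc, hYq1]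
  have hYc2 : Y * c2 = c2 := by rw [← hqc2, ← mul_assoc, hYq2]
  have hYΦ : ∀ x, Y * Φ x = Φ x := fun x => by
    rw [← hsm2.q_mul hq2 x, ← mul_assoc, hYq2]
  -- the square
  have hsm : SM q2 (Φ ∘ₗ Φ) := hsm2.comp hq2
  have hh0 : 0 ≤ Φ 1 := hsm2.one_nonneg
  have hh1 : Φ 1 ≤ 1 := hsm2.one_le hq2
  have hhq : 0 ≤ q2 - Φ 1 := sub_nonneg.2 hsm2.le
  have e6 : rt ((Φ ∘ₗ Φ) 1) = rt (Φ 1 * Φ 1) := by
    unfold rt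
    rw [LinearMap.comp_apply, hsm2.tau_apply]
  have h7 : rt (Φ 1 * (q2 - Φ 1)) ≤ rt q2 - rt (Φ 1) := by
    have h8 := rt_mul_mono' hhq hh1
    rwa [one_mul, rt_sub] at h8
  have h9 : rt (Φ 1 * (q2 - Φ 1)) = rt (Φ 1) - rt (Φ 1 * Φ 1) := by
    rw [mul_sub, hsm2.mul_q hq2, rt_sub]
  have hdft : (1 - 1 / 1000) * rt q2 ≤ rt ((Φ ∘ₗ Φ) 1) := by
    rw [e6]
    have h10 : rt q2 - rt (Φ 1 * Φ 1) ≤ 2 * (rt q2 - rt (Φ 1)) := by linarith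
    linarith
  -- energies
  have hT0 : 0 ≤ Real.sqrt (rt q2) := Real.sqrt_nonneg _
  have hTT : Real.sqrt (rt q2) * Real.sqrt (rt q2) = rt q2 := Real.mul_self_sqrt hq2pos.le
  have hS : Real.sqrt (2 * a.en q2) + Real.sqrt (2 * enM a Φ) ≤
      2 ^ 27 * r * Real.sqrt (rt q2) := hS2
  have hsa : Real.sqrt (2 * a.en q2) ≤ 2 ^ 27 * r * Real.sqrt (rt q2) := by
    have := Real.sqrt_nonneg (2 * enM a Φ)
    linarith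
  have hsb : Real.sqrt (2 * enM a Φ) ≤ 2 ^ 27 * r * Real.sqrt (rt q2) := by
    have := Real.sqrt_nonneg (2 * a.en q2)
    linarith
  have henp : a.en q2 ≤ e1 * rt q2 := by
    have h11 : 2 * a.en q2 ≤ (2 ^ 27 * r * Real.sqrt (rt q2)) ^ 2 := by
      have h12 := Real.sq_sqrt (show 0 ≤ 2 * a.en q2 by
        have := a.en_nonneg q2
        linarith)
      rw [← h12]
      exact pow_le_pow_left₀ (Real.sqrt_nonneg _) hsa 2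
    have e7 : (2 ^ 27 * r * Real.sqrt (rt q2)) ^ 2 = (2 ^ 27 * r) * (2 ^ 27 * r) * rt q2 := by
      calc (2 ^ 27 * r * Real.sqrt (rt q2)) ^ 2
          = (2 ^ 27 * r) * (2 ^ 27 * r) * (Real.sqrt (rt q2) * Real.sqrt (rt q2)) := by ring
        _ = _ := by rw [hTT]
    rw [e7] at h11
    have h13 : (2 ^ 27 * r) * (2 ^ 27 * r) ≤ e1 := by
      have h14 : 2 ^ 27 * r ≤ 1 := by linarith
      have h15 : 2 ^ 27 * r ≤ e1 := by linarith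
      calc (2 ^ 27 * r) * (2 ^ 27 * r) ≤ 1 * (2 ^ 27 * r) :=
            mul_le_mul_of_nonneg_right h14 (by positivity)
        _ ≤ e1 := by linarith
    have h16 : (2 ^ 27 * r) * (2 ^ 27 * r) * rt q2 ≤ e1 * rt q2 :=
      mul_le_mul_of_nonneg_right h13 hq2pos.le
    have := a.en_nonneg q2
    linarith
  have henΘ : enM a (Φ ∘ₗ Φ) ≤ e1 * rt q2 := by
    refine (hrep2.comp_en_le a hsm2 hq2).trans ?_
    calc 2 * Real.sqrt (rt q2) * Real.sqrt (2 * enM a Φ)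
        ≤ 2 * Real.sqrt (rt q2) * (2 ^ 27 * r * Real.sqrt (rt q2)) :=
          mul_le_mul_of_nonneg_left hsb (by positivity)
      _ = (2 ^ 28 * r) * (Real.sqrt (rt q2) * Real.sqrt (rt q2)) := by ring
      _ = (2 ^ 28 * r) * rt q2 := by rw [hTT]
      _ ≤ e1 * rt q2 := mul_le_mul_of_nonneg_right hre hq2pos.le
  -- domination
  have hd1 := hH.dom.cj (by positivity) c1 (Real.sqrt 8) hc1
  have hd2 := hd1.cj (by positivity) c2 (Real.sqrt 8) hc2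
  rw [← hΦ] at hd2
  obtain ⟨F₂, hF₂⟩ : ∃ F₂ : Fam A, F₂ = (F₁.map fun x => c1 * x * star c1).map
    fun x => c2 * x * star c2 := ⟨_, rfl⟩
  rw [← hF₂, s8_4] at hd2
  have hd3 : Dom Φ (1 / 2 ^ 14) F₂ := hd2.mono (by norm_num)
  have hd4 := Dom.sq hsm2 hq2 hd3 (by norm_num)
  have hd5 : Dom (Φ ∘ₗ Φ) (1 / 2 ^ 26) (Dom.sqf (1 / 2 ^ 14) Φ F₂) := hd4.mono (by norm_num)
  have hhs1 := Dom.cj_hs (F := F₁) c1 (Real.sqrt 8) hc1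
  have hhs2 := Dom.cj_hs (F := F₁.map fun x => c1 * x * star c1) c2 (Real.sqrt 8) hc2
  rw [← hF₂, s8_8] at hhs2
  rw [s8_8] at hhs1
  have hhs3 : F₂.hs ≤ 2 ^ 24 * F₁.hs := by
    refine hhs2.trans ?_
    calc (2 : ℝ) ^ 12 * (F₁.map fun x => c1 * x * star c1).hs ≤ 2 ^ 12 * (2 ^ 12 * F₁.hs) :=
          mul_le_mul_of_nonneg_left hhs1 (by positivity)
      _ = 2 ^ 24 * F₁.hs := by ring
  have hhs4 := Dom.sq_hs (F := F₂) hsm2 hq2 (show (0 : ℝ) < 1 / 2 ^ 14 by norm_num)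
  have hhs5 : (Dom.sqf (1 / 2 ^ 14) Φ F₂).hs ≤ 2 ^ 50 * F₁.hs := by
    have h20 : Real.sqrt (Dom.sqf (1 / 2 ^ 14) Φ F₂).hs ≤ 2 ^ 13 * Real.sqrt F₂.hs := by
      refine hhs4.trans (mul_le_mul_of_nonneg_right ?_ (Real.sqrt_nonneg _))
      norm_num
    have h21 := pow_le_pow_left₀ (Real.sqrt_nonneg _) h20 2
    rw [mul_pow, Real.sq_sqrt (Fam.hs_nonneg _), Real.sq_sqrt (Fam.hs_nonneg _)] at h21
    refine h21.trans ?_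
    calc ((2 : ℝ) ^ 13) ^ 2 * F₂.hs ≤ (2 ^ 13) ^ 2 * (2 ^ 24 * F₁.hs) :=
          mul_le_mul_of_nonneg_left hhs3 (by positivity)
      _ = 2 ^ 50 * F₁.hs := by ring
  refine ⟨q2, Φ ∘ₗ Φ, Dom.sqf (1 / 2 ^ 14) Φ F₂, ⟨hq2, hq2n, hYq2, henp, hsm, hdft, henΘ, hd5,
    ?_⟩, hhs5⟩
  have hsF₂ : ∀ i, Y * F₂.v i = F₂.v i := by
    rw [hF₂]
    intro i
    change Y * (c2 * (c1 * F₁.v i * star c1) * star c2) = c2 * (c1 * F₁.v i * star c1) * star c2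
    rw [← mul_assoc, ← mul_assoc, hYc2]
  intro i
  rcases i with i | i
  · change Y * (((Real.sqrt (1 / 2 ^ 14 + 1 / 2) : ℝ) : ℂ) • F₂.v i) =
      ((Real.sqrt (1 / 2 ^ 14 + 1 / 2) : ℝ) : ℂ) • F₂.v i
    rw [mul_smul_comm, hsF₂]
  · change Y * (((Real.sqrt (1 / 2 + 1 / (4 * (1 / 2 ^ 14))) : ℝ) : ℂ) • Φ (F₂.v i)) =
      ((Real.sqrt (1 / 2 + 1 / (4 * (1 / 2 ^ 14))) : ℝ) : ℂ) • Φ (F₂.v i)
    rw [mul_smul_comm, hYΦ]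

theorem exists_good (hN : Nums ν e1 r e' k) (hY : Prj Y) (hg : HG a Y ν e') {p : A}
    {Θ : A →ₗ[ℂ] A} {F : Fam A} (hK : KK a Y e1 p Θ F) :
    ∃ F : Fam A, (∀ i, Y * F.v i = F.v i) ∧
      1 / 2 ^ 52 * F.hs < (TLf (wdY a Y hY k) F).hs := by
  by_contra hcon
  push Not at hcon
  have step : ∀ (p : A) (Θ : A →ₗ[ℂ] A) (F : Fam A), KK a Y e1 p Θ F →
      ∃ (p' : A) (Θ' : A →ₗ[ℂ] A) (F' : Fam A), KK a Y e1 p' Θ' F' ∧ F'.hs ≤ F.hs / 4 := by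
    intro p Θ F hK
    obtain ⟨q, Ψ, F₁, B, ζ, hH, hF₁⟩ := half_step a hN hY hg hK
    obtain ⟨p', Θ', F', hK', hF'⟩ := full_step a hN hY hH
    refine ⟨p', Θ', F', hK', ?_⟩
    have h1 := hcon F hK.supp
    calc F'.hs ≤ 2 ^ 50 * F₁.hs := hF'
      _ ≤ 2 ^ 50 * (1 / 2 ^ 52 * F.hs) :=
          mul_le_mul_of_nonneg_left (hF₁.trans h1) (by positivity)
      _ = F.hs / 4 := by ring
  have iter : ∀ n : ℕ, ∃ (p' : A) (Θ' : A →ₗ[ℂ] A) (F' : Fam A), KK a Y e1 p' Θ' F' ∧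
      F'.hs ≤ F.hs * (1 / 4) ^ n := by
    intro n
    induction n with
    | zero => exact ⟨p, Θ, F, hK, by rw [pow_zero, mul_one]⟩
    | succ n ih =>
      obtain ⟨p', Θ', F', hK', hF'⟩ := ih
      obtain ⟨p'', Θ'', F'', hK'', hF''⟩ := step p' Θ' F' hK'
      refine ⟨p'', Θ'', F'', hK'', hF''.trans ?_⟩
      rw [pow_succ]
      linarith
  have hlow : ∀ (p' : A) (Θ' : A →ₗ[ℂ] A) (F' : Fam A), KK a Y e1 p' Θ' F' → 1 / 4 ≤ F'.hs := by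
    intro p' Θ' F' hK'
    have h1 := Dom.lower hK'.sm hK'.prj hK'.ne hK'.dom (1 / 1000) hK'.dft
    have h2 : (1 : ℝ) / 2 ≤ Real.sqrt F'.hs := le_trans (by norm_num) h1
    have h3 := pow_le_pow_left₀ (by norm_num) h2 2
    rw [Real.sq_sqrt F'.hs_nonneg] at h3
    refine le_trans (le_of_eq ?_) h3
    norm_num
  obtain ⟨n, hn⟩ : ∃ n : ℕ, F.hs * (1 / 4) ^ n < 1 / 4 := by
    have h1 : Tendsto (fun n : ℕ => F.hs * (1 / 4 : ℝ) ^ n) atTop (𝓝 (F.hs * 0)) :=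
      (tendsto_pow_atTop_nhds_zero_of_lt_one (by norm_num) (by norm_num)).const_mul _
    rw [mul_zero] at h1
    exact (h1.eventually (gt_mem_nhds (by norm_num : (0 : ℝ) < 1 / 4))).exists
  obtain ⟨p', Θ', F', hK', hF'⟩ := iter n
  have := hlow p' Θ' F' hK'
  linarith

end Pool.Agent.PTH
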