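import Pool.Agent.PTH.CcF
import Pool.Agent.PTH.AvB
import Pool.Agent.PTH.AvE

/-!
# PTH / CcW: words; the powers of `T_Y`

`Wd A`: finite family of contractions `c_w` with weights `q_w` (CcI).  `wdY a Y hY k`: the words
`c_w = Y u_{i_k} Y ... Y u_{i_1} Y` of length `k` with the product weights (`k = 0`: the word `Y`).
* `T_Y ξ = Y (T ξ) Y = ∑ p_i (Y u_i) ξ (Y u_i)*`.
* `wdY_l`, `wdY_r`: `Y c_w = c_w = c_w Y`, induction on `k` (`Y * Y = Y`).
* `wdY_B`: for `Y ξ = ξ = ξ Y`: `T_Y^k ξ = ∑ q_w c_w ξ c_w*`.  Induction: `T_Y^{k+1} ξ = T_Y (T_Y^k ξ)`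
  and `(Y u_i) c_w ξ c_w* (Y u_i)* = (Y u_i c_w) ξ (Y u_i c_w)*` (`r (x*y) = r y ∘ r x`).
* `wdY_A`: the same in the algebra.
* `TLf W F` (family `√q_w c_w v_i`) is the operator `∑ q_w L_{c_w} E L_{c_w}*`;
  `corrf W F` (family `√(q_w q_w') c_w v_i c_w'*`).
* `corrf_hs_le`: `corrf W F = mix q (fun w' => (TLf W F).map (· c_w'*))`; `hs_mix_le` and
  `hs_map_le` with `C = 1` (`‖x c_w'*‖₂ ≤ ‖x‖₂`, `two_mul_le'`).
* `corrf_qf`: `|τ((c_w v_i c_w'*)* x)| = |τ(v_i* (c_w* x c_w'))|`.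
* `TYA_nonneg` etc: `T x ≥ 0` for `x ≥ 0` (AvA), `Y y Y ≤ Y` for `0 ≤ y ≤ 1`
  (`conjugate_le_conjugate`), `τ(Y y Y) = τ(y^{1/2} Y y^{1/2}) ≤ τ(y)`; induction.
-/

open scoped InnerProductSpace ComplexOrder

universe u

namespace Pool.Agent.PTH

open TrAlg

section words

variable {A : Type u} [CStarAlgebra A] [PartialOrder A] [StarOrderedRing A] [TracialVN A]

/-- The word `Y`. -/
noncomputable def wd0 (Y : A) (hY : Prj Y) : Wd A where
  κ := Unit
  q := fun _ => 1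
  c := fun _ => Y
  q_nonneg := fun _ => zero_le_one
  q_sum := by simp
  norm_c := fun _ => norm_proj_le hY

/-- One more letter. -/
noncomputable def wdS (a : Avg A) (Y : A) (hY : Prj Y) (W : Wd A) : Wd A where
  κ := a.ι × W.κ
  q := fun x => a.p x.1 * W.q x.2
  c := fun x => Y * a.u x.1 * W.c x.2
  q_nonneg := fun x => mul_nonneg (a.p_pos _).le (W.q_nonneg _)
  q_sum := by
    rw [Fintype.sum_prod_type]
    have h : ∀ i, ∑ w, a.p i * W.q w = a.p i := fun i => by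
      rw [← Finset.mul_sum, W.q_sum, mul_one]
    simp only [h]
    exact a.p_sum
  norm_c := by
    rintro ⟨i, w⟩
    have h1 : ‖Y‖ ≤ 1 := norm_proj_le hY
    have h2 : ‖a.u i‖ ≤ 1 := AvAaux.norm_u_le (a.u_star_mul i)
    have h3 := W.norm_c w
    calc ‖Y * a.u i * W.c w‖ ≤ ‖Y‖ * ‖a.u i‖ * ‖W.c w‖ :=
          (norm_mul_le _ _).trans (mul_le_mul_of_nonneg_right (norm_mul_le _ _) (norm_nonneg _))
      _ ≤ 1 * 1 * 1 := by gcongr
      _ = 1 := by norm_num

/-- The words of length `k`. -/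
noncomputable def wdY (a : Avg A) (Y : A) (hY : Prj Y) : ℕ → Wd A
  | 0 => wd0 Y hY
  | k + 1 => wdS a Y hY (wdY a Y hY k)

theorem wdY_l (a : Avg A) (Y : A) (hY : Prj Y) (k : ℕ) (w : (wdY a Y hY k).κ) :
    Y * (wdY a Y hY k).c w = (wdY a Y hY k).c w := by
  cases k with
  | zero => exact hY.2
  | succ k =>
    change Y * (Y * a.u w.1 * (wdY a Y hY k).c w.2) = Y * a.u w.1 * (wdY a Y hY k).c w.2
    rw [← mul_assoc, ← mul_assoc, hY.2]

theorem wdY_r (a : Avg A) (Y : A) (hY : Prj Y) (k : ℕ) (w : (wdY a Y hY k).κ) :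
    (wdY a Y hY k).c w * Y = (wdY a Y hY k).c w := by
  induction k with
  | zero => exact hY.2
  | succ k ih =>
    change Y * a.u w.1 * (wdY a Y hY k).c w.2 * Y = Y * a.u w.1 * (wdY a Y hY k).c w.2
    rw [mul_assoc (Y * a.u w.1), ih w.2]

omit [PartialOrder A] [StarOrderedRing A] [TracialVN A] in
private theorem TYB_apply (B : Bim.{u} A) (a : Avg A) {Y : A} (hY : Prj Y) (η : B.H) :
    TYB B a Y η = ∑ i, (a.p i : ℂ) • B.l (Y * a.u i) (B.r (star (Y * a.u i)) η) := by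
  change B.l Y (B.r Y (B.T a η)) = _
  rw [B.T_apply, map_sum, map_sum]
  refine Finset.sum_congr rfl fun i _ => ?_
  rw [map_smul, map_smul, ← B.l_r, ← B.l_mul, ← B.r_mul, star_mul, hY.1]

omit [PartialOrder A] [StarOrderedRing A] [TracialVN A] in
private theorem TYA_apply (a : Avg A) {Y : A} (hY : Prj Y) (x : A) :
    TYA a Y x = ∑ i, (a.p i : ℂ) • ((Y * a.u i) * x * star (Y * a.u i)) := by
  change Y * a.T x * Y = _
  rw [Avg.T_apply, Finset.mul_sum, Finset.sum_mul]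
  refine Finset.sum_congr rfl fun i _ => ?_
  rw [mul_smul_comm, smul_mul_assoc, star_mul, hY.1]
  congr 1
  noncomm_ring

theorem wdY_B (B : Bim.{u} A) (a : Avg A) (Y : A) (hY : Prj Y) (k : ℕ) (ξ : B.H)
    (hl : B.l Y ξ = ξ) (hr : B.r Y ξ = ξ) :
    ((TYB B a Y) ^ k) ξ = ∑ w, (((wdY a Y hY k).q w : ℝ) : ℂ) •
      B.l ((wdY a Y hY k).c w) (B.r (star ((wdY a Y hY k).c w)) ξ) := by
  induction k with
  | zero =>
    change ξ = ∑ w : Unit, (((1 : ℝ)) : ℂ) • B.l Y (B.r (star Y) ξ)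
    rw [hY.1, hr, hl]
    simp
  | succ k ih =>
    have e : ((TYB B a Y) ^ (k + 1)) ξ = TYB B a Y (((TYB B a Y) ^ k) ξ) := by
      rw [pow_succ']
      rfl
    rw [e, ih, TYB_apply B a hY]
    change _ = ∑ x : a.ι × (wdY a Y hY k).κ, ((a.p x.1 * (wdY a Y hY k).q x.2 : ℝ) : ℂ) •
      B.l (Y * a.u x.1 * (wdY a Y hY k).c x.2)
        (B.r (star (Y * a.u x.1 * (wdY a Y hY k).c x.2)) ξ)
    rw [Fintype.sum_prod_type]
    refine Finset.sum_congr rfl fun i _ => ?_
    rw [map_sum, map_sum, Finset.smul_sum]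
    refine Finset.sum_congr rfl fun w _ => ?_
    rw [map_smul, map_smul, smul_smul, ← Complex.ofReal_mul]
    change _ = ((a.p i * (wdY a Y hY k).q w : ℝ) : ℂ) •
      B.l (Y * a.u i * (wdY a Y hY k).c w)
        (B.r (star (Y * a.u i * (wdY a Y hY k).c w)) ξ)
    rw [B.l_mul (Y * a.u i), star_mul (Y * a.u i), B.r_mul,
      B.l_r ((wdY a Y hY k).c w) (star (Y * a.u i))]

theorem wdY_A (a : Avg A) (Y : A) (hY : Prj Y) (k : ℕ) (x : A) (hx : Y * x * Y = x) :
    ((TYA a Y) ^ k) x = ∑ w, (((wdY a Y hY k).q w : ℝ) : ℂ) •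
      ((wdY a Y hY k).c w * x * star ((wdY a Y hY k).c w)) := by
  induction k with
  | zero =>
    change x = ∑ w : Unit, (((1 : ℝ)) : ℂ) • (Y * x * star Y)
    rw [hY.1, hx]
    simp
  | succ k ih =>
    have e : ((TYA a Y) ^ (k + 1)) x = TYA a Y (((TYA a Y) ^ k) x) := by
      rw [pow_succ']
      rfl
    rw [e, ih, TYA_apply a hY]
    change _ = ∑ z : a.ι × (wdY a Y hY k).κ, ((a.p z.1 * (wdY a Y hY k).q z.2 : ℝ) : ℂ) •
      ((Y * a.u z.1 * (wdY a Y hY k).c z.2) * x *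
        star (Y * a.u z.1 * (wdY a Y hY k).c z.2))
    rw [Fintype.sum_prod_type]
    refine Finset.sum_congr rfl fun i _ => ?_
    rw [Finset.mul_sum, Finset.sum_mul, Finset.smul_sum]
    refine Finset.sum_congr rfl fun w _ => ?_
    rw [mul_smul_comm, smul_mul_assoc, smul_smul, ← Complex.ofReal_mul, star_mul (Y * a.u i)]
    congr 1
    noncomm_ring

omit [PartialOrder A] [StarOrderedRing A] [TracialVN A] in
private theorem TYA_succ (a : Avg A) (Y : A) (k : ℕ) (x : A) :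
    ((TYA a Y) ^ (k + 1)) x = Y * a.T (((TYA a Y) ^ k) x) * Y := by
  rw [pow_succ']
  rfl

theorem TYA_supp (a : Avg A) (Y : A) (hY : Prj Y) (k : ℕ) (x : A) (hx : Y * x * Y = x) :
    Y * ((TYA a Y) ^ k) x * Y = ((TYA a Y) ^ k) x := by
  cases k with
  | zero => exact hx
  | succ k =>
    rw [TYA_succ]
    have h := hY.2
    calc Y * (Y * a.T (((TYA a Y) ^ k) x) * Y) * Y
        = (Y * Y) * a.T (((TYA a Y) ^ k) x) * (Y * Y) := by noncomm_ring
      _ = _ := by rw [h]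

theorem TYA_nonneg (a : Avg A) (Y : A) (hY : Prj Y) (k : ℕ) (x : A) (hx : 0 ≤ x) :
    0 ≤ ((TYA a Y) ^ k) x := by
  induction k with
  | zero => exact hx
  | succ k ih =>
    rw [TYA_succ]
    have h := star_left_conjugate_nonneg (a.T_nonneg ih) Y
    rwa [hY.1] at h

theorem TYA_le (a : Avg A) (Y : A) (hY : Prj Y) (k : ℕ) (x : A) (hx : 0 ≤ x) (hx1 : x ≤ Y) :
    ((TYA a Y) ^ k) x ≤ Y := by
  induction k with
  | zero => exact hx1
  | succ k ih =>
    rw [TYA_succ]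
    have h1 := a.T_mono (ih.trans (proj_le_one hY))
    rw [a.T_one] at h1
    have h := star_left_conjugate_le_conjugate h1 Y
    rwa [hY.1, mul_one, hY.2] at h

theorem TYA_rt_le (a : Avg A) (Y : A) (hY : Prj Y) (k : ℕ) (x : A) (hx : 0 ≤ x) :
    rt (((TYA a Y) ^ k) x) ≤ rt x := by
  induction k with
  | zero => exact le_rfl
  | succ k ih =>
    rw [TYA_succ]
    have h0 := a.T_nonneg (TYA_nonneg a Y hY k x hx)
    have h1 := rt_mul_mono h0 (proj_le_one hY)
    have h2 : rt (Y * a.T (((TYA a Y) ^ k) x) * Y) = rt (a.T (((TYA a Y) ^ k) x) * Y) := by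
      rw [mul_assoc, rt_comm, mul_assoc, hY.2]
    have h3 : rt (a.T (((TYA a Y) ^ k) x)) = rt (((TYA a Y) ^ k) x) := by
      unfold rt
      rw [a.tau_T]
    rw [mul_one, h3] at h1
    rw [h2]
    exact h1.trans ih

end words

section fam

variable {A : Type u} [CStarAlgebra A] [TrAlg A]

/-- The family `√q_w c_w v_i`. -/
noncomputable def TLf (W : Wd A) (F : Fam A) : Fam A :=
  Fam.mix W.q fun w => F.map fun x => W.c w * x

/-- The family `√(q_w q_w') c_w v_i c_w'*`. -/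
noncomputable def corrf (W : Wd A) (F : Fam A) : Fam A :=
  Fam.mix W.q fun w' => (TLf W F).map fun x => x * star (W.c w')

theorem corrf_hs_le (W : Wd A) (F : Fam A) : (corrf W F).hs ≤ (TLf W F).hs := by
  unfold corrf
  refine Fam.hs_mix_le W.q W.q_nonneg W.q_sum _ _ fun w' => ?_
  have h := Fam.hs_map_le (TLf W F) (LinearMap.mulRight ℂ (star (W.c w'))) 1 zero_le_one
    (fun x => by
      rw [LinearMap.mulRight_apply, one_mul]
      refine (two_mul_le' _ _).trans ?_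
      rw [norm_star]
      exact mul_le_of_le_one_right (two_nonneg x) (W.norm_c w'))
  rw [one_pow, one_mul] at h
  exact h

private theorem qf_mapR (G : Fam A) (d x : A) :
    (G.map fun y => y * star d).qf x = G.qf (x * d) := by
  unfold Fam.qf Fam.map
  refine Finset.sum_congr rfl fun i _ => ?_
  change ‖tau (star (G.v i * star d) * x)‖ ^ 2 = ‖tau (star (G.v i) * (x * d))‖ ^ 2
  rw [star_mul, star_star, mul_assoc, tau_comm, mul_assoc]

private theorem qf_mapL (G : Fam A) (c x : A) :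
    (G.map fun y => c * y).qf x = G.qf (star c * x) := by
  unfold Fam.qf Fam.map
  refine Finset.sum_congr rfl fun i _ => ?_
  change ‖tau (star (c * G.v i) * x)‖ ^ 2 = ‖tau (star (G.v i) * (star c * x))‖ ^ 2
  rw [star_mul, mul_assoc]

theorem corrf_qf (W : Wd A) (F : Fam A) (x : A) :
    (corrf W F).qf x = ∑ w, ∑ w', W.q w * W.q w' * F.qf (star (W.c w) * x * W.c w') := by
  unfold corrf
  rw [Fam.qf_mix W.q W.q_nonneg, Finset.sum_comm]
  refine Finset.sum_congr rfl fun w' _ => ?_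
  rw [qf_mapR]
  unfold TLf
  rw [Fam.qf_mix W.q W.q_nonneg, Finset.mul_sum]
  refine Finset.sum_congr rfl fun w _ => ?_
  rw [qf_mapL, mul_assoc (star (W.c w)), ← mul_assoc, mul_comm (W.q w')]

end fam

end Pool.Agent.PTH
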