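import Pool.Agent.PTH.Def

/-!
# PTH / Coef: coefficients of products

`PB c X f`: coefficients bounded by `c`, support in `[1, X]`.
* `pb_bx`: by `coeff_bx_mul` the coefficient at `d` is a sum over the primes `p ∈ B`, `p ∣ d`; if one of the
  terms is nonzero, `1 ≤ d ≤ t X < w^(K+1)`, and `d` has at most `K` distinct prime factors `≥ w` (their
  product divides `d`).
* `pb_term`: induction on the list; the tops are `b (i+1) ≥ p`.  `∏ tops * X < w^(K+1)` bounds all partial
  products (`b (i+1) ≥ 1`).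
* `pb_prod`: the same without the last factor (`1 : SA`).
-/

set_option autoImplicit false

namespace Pool.Agent.PTH

open Finset

/-- coefficients bounded by `c`, support in `[1, X]` -/
def PB (c X : ℝ) (f : SA) : Prop :=
  (∀ d, |f.coeff d| ≤ c) ∧ ∀ d, f.coeff d ≠ 0 → 1 ≤ d ∧ (d : ℝ) ≤ X

theorem pb_bx (w K : ℕ) (c X t : ℝ) (B : Finset ℕ) (f : SA) (hw : 2 ≤ w) (hK : 1 ≤ K) (hc : 0 ≤ c)
    (hX : 0 ≤ X) (ht : 1 ≤ t) (hB : ∀ p ∈ B, p.Prime ∧ w ≤ p ∧ (p : ℝ) ≤ t)
    (h : t * X < (w : ℝ) ^ (K + 1)) (hf : PB c X f) : PB (K * c) (t * X) (bx B * f) := by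
  have hB1 : ∀ p ∈ B, 1 ≤ p := fun p hp => (hB p hp).1.one_lt.le
  have key : ∀ d, |(bx B * f).coeff d| ≤ K * c ∧
      ((bx B * f).coeff d ≠ 0 → 1 ≤ d ∧ (d : ℝ) ≤ t * X) := by
    intro d
    rw [coeff_bx_mul hB1]
    by_cases hT : ∃ p ∈ B.filter (fun p => p ∣ d), f.coeff (d / p) ≠ 0
    · obtain ⟨p, hp, hpc⟩ := hT
      rw [mem_filter] at hp
      obtain ⟨hpB, hpd⟩ := hp
      obtain ⟨hpp, hwp, hpt⟩ := hB p hpB
      obtain ⟨hd1, hdX⟩ := hf.2 (d / p) hpc
      have hdeq : d = p * (d / p) := (Nat.mul_div_cancel' hpd).symm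
      have hd : 1 ≤ d := by
        rw [hdeq]
        exact Nat.mul_pos hpp.pos hd1
      have hdt : (d : ℝ) ≤ t * X := by
        have h1 : (d : ℝ) = (p : ℝ) * ((d / p : ℕ) : ℝ) := by exact_mod_cast hdeq
        rw [h1]
        gcongr
      have hcard : (B.filter (fun p => p ∣ d)).card ≤ K := by
        have h1 : ∏ q ∈ B.filter (fun p => p ∣ d), q ∣ d :=
          Finset.prod_primes_dvd d (fun q hq => ((hB q (mem_filter.1 hq).1).1).prime)
            fun q hq => (mem_filter.1 hq).2
        have h2 : w ^ (B.filter (fun p => p ∣ d)).card ≤ ∏ q ∈ B.filter (fun p => p ∣ d), q :=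
          Finset.pow_card_le_prod _ _ _ fun q hq => (hB q (mem_filter.1 hq).1).2.1
        have h3 : w ^ (B.filter (fun p => p ∣ d)).card ≤ d := h2.trans (Nat.le_of_dvd hd h1)
        have h4 : w ^ (B.filter (fun p => p ∣ d)).card < w ^ (K + 1) := by
          have : ((w ^ (B.filter (fun p => p ∣ d)).card : ℕ) : ℝ) < ((w ^ (K + 1) : ℕ) : ℝ) := by
            push_cast
            calc ((w : ℝ) ^ (B.filter (fun p => p ∣ d)).card) ≤ d := by exact_mod_cast h3
              _ ≤ t * X := hdt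
              _ < (w : ℝ) ^ (K + 1) := h
          exact_mod_cast this
        have h5 := (Nat.pow_lt_pow_iff_right (by omega : 1 < w)).1 h4
        omega
      refine ⟨?_, fun _ => ⟨hd, hdt⟩⟩
      calc |∑ p ∈ B.filter (fun p => p ∣ d), f.coeff (d / p)|
          ≤ ∑ p ∈ B.filter (fun p => p ∣ d), |f.coeff (d / p)| := abs_sum_le_sum_abs _ _
        _ ≤ ∑ p ∈ B.filter (fun p => p ∣ d), c := sum_le_sum fun q _ => hf.1 _
        _ = ((B.filter (fun p => p ∣ d)).card : ℝ) * c := by rw [sum_const, nsmul_eq_mul]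
        _ ≤ K * c := by
          have : ((B.filter (fun p => p ∣ d)).card : ℝ) ≤ K := by exact_mod_cast hcard
          gcongr
    · push Not at hT
      rw [sum_eq_zero hT, abs_zero]
      exact ⟨by positivity, fun h => absurd rfl h⟩
  exact ⟨fun d => (key d).1, fun d => (key d).2⟩

theorem pb_term (b : ℕ → ℕ) (w K : ℕ) (c X : ℝ) (l : List ℕ) (lam : SA) (hw : 2 ≤ w) (hK : 1 ≤ K)
    (hc : 0 ≤ c) (hX : 0 ≤ X) (hb : Monotone b) (hb0 : w ≤ b 0)
    (h : (l.map (fun i => (b (i + 1) : ℝ))).prod * X < (w : ℝ) ^ (K + 1)) (hlam : PB c X lam) :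
    PB ((K : ℝ) ^ l.length * c) ((l.map (fun i => (b (i + 1) : ℝ))).prod * X) (term b l lam) := by
  induction l with
  | nil =>
    simpa [term] using hlam
  | cons i l ih =>
    have hbi : 2 ≤ b (i + 1) := by
      have := hb (Nat.zero_le (i + 1))
      omega
    have hbi' : (1 : ℝ) ≤ b (i + 1) := by
      have : ((2 : ℕ) : ℝ) ≤ b (i + 1) := by exact_mod_cast hbi
      push_cast at this
      linarith
    have hP : 0 ≤ (l.map (fun i => (b (i + 1) : ℝ))).prod := by
      refine List.prod_nonneg fun x hx => ?_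
      obtain ⟨j, -, rfl⟩ := List.mem_map.1 hx
      positivity
    have e1 : ((i :: l).map (fun i => (b (i + 1) : ℝ))).prod * X =
        (b (i + 1) : ℝ) * ((l.map (fun i => (b (i + 1) : ℝ))).prod * X) := by
      rw [List.map_cons, List.prod_cons, mul_assoc]
    rw [e1] at h ⊢
    have h' : (l.map (fun i => (b (i + 1) : ℝ))).prod * X < (w : ℝ) ^ (K + 1) := by
      refine lt_of_le_of_lt ?_ h
      exact le_mul_of_one_le_left (mul_nonneg hP hX) hbi'
    have h1 := pb_bx w K ((K : ℝ) ^ l.length * c) ((l.map (fun i => (b (i + 1) : ℝ))).prod * X)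
      (b (i + 1)) (Bp b i) (term b l lam) hw hK (by positivity) (mul_nonneg hP hX) hbi'
      (fun p hp => by
        unfold Bp at hp
        rw [mem_filter, mem_Ico] at hp
        refine ⟨hp.2, ?_, by exact_mod_cast hp.1.2.le⟩
        have := hb (Nat.zero_le i)
        omega) h (ih h')
    have e2 : term b (i :: l) lam = bx (Bp b i) * term b l lam := by
      unfold term
      rw [List.map_cons, List.prod_cons, mul_assoc]
    have e3 : (K : ℝ) ^ (i :: l).length * c = K * ((K : ℝ) ^ l.length * c) := by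
      rw [List.length_cons, pow_succ]
      ring
    rw [e2, e3]
    exact h1

theorem pb_one : PB 1 1 (1 : SA) := by
  have h1 : ∀ d, (1 : SA).coeff d = if d = 1 then 1 else 0 := by
    intro d
    rw [MonoidAlgebra.one_def, MonoidAlgebra.coeff_single, Finsupp.single_apply]
    by_cases h : d = 1
    · rw [if_pos h, if_pos h.symm]
    · rw [if_neg h, if_neg (Ne.symm h)]
  constructor
  · intro d
    rw [h1]
    split_ifs <;> norm_num
  · intro d hd
    rw [h1] at hd
    by_cases h : d = 1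
    · subst h
      norm_num
    · rw [if_neg h] at hd
      exact absurd rfl hd

end Pool.Agent.PTH
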