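import Pool.Agent.PTH.CcI

/-!
# PTH / DdDef: definitions for Theorem D (section 8 of t517_v2.md)

`ip x y = τ(x* y)` (conjugate linear in `x`).  A finite family `x : σ → A` stands for the positive
finite rank operator `Z = ∑ |x_s⟩⟨x_s|` of `L²(A)`; as a vector of the coarse bimodule it is
`∑ t (x_s) (x_s*)`.  `fT x` = trace of `Z`, `fS x = ‖Z‖²`, `fE a x = e(Z)`, `fB x`: `Z ≤ 1`.
For an orthonormal family `w` and real weights `l`: `Z = ∑ l_α |w_α⟩⟨w_α|` has energy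
`qC (Cm a w) l`; `Cm a w` is a doubly substochastic matrix (`DS`).  `lev l t` = set of indices with
`l_α > t`, `dC C S` = energy of the projection onto the span of `w_α`, `α ∈ S`.
`th a v i` = matrix of the compression of `u_i` to the span of `v`, `cj θ K = θ K θ*`,
`ev` and `evA`: energy forms on `M_r(ℂ)` and `M_r(A)`.
-/

open Filter Topology
open scoped InnerProductSpace ComplexOrder

namespace Pool.Agent.PTH

section fam

variable {A : Type*} [CStarAlgebra A] [TrAlg A] {σ : Type} [Fintype σ]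

/-- `⟨x, y⟩ = τ(x* y)`. -/
noncomputable def ip (x y : A) : ℂ := TrAlg.tau (star x * y)

/-- Trace of `∑ |x_s⟩⟨x_s|`. -/
noncomputable def fT (x : σ → A) : ℝ := ∑ s, two (x s) ^ 2

/-- Squared Hilbert-Schmidt norm of `∑ |x_s⟩⟨x_s|`. -/
noncomputable def fS (x : σ → A) : ℝ := ∑ s, ∑ t, ‖ip (x s) (x t)‖ ^ 2

/-- Energy of `∑ |x_s⟩⟨x_s|`. -/
noncomputable def fE (a : Avg A) (x : σ → A) : ℝ :=
  fS x - ∑ i, a.p i * ∑ s, ∑ t, ‖ip (x s) (a.u i * x t)‖ ^ 2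

/-- `∑ |x_s⟩⟨x_s| ≤ 1`. -/
def fB (x : σ → A) : Prop := ∀ y : A, ∑ s, ‖ip (x s) y‖ ^ 2 ≤ two y ^ 2

/-- `C_αβ = ∑ p_i |⟨w_α, u_i w_β⟩|²`. -/
noncomputable def Cm (a : Avg A) (w : σ → A) (α β : σ) : ℝ :=
  ∑ i, a.p i * ‖ip (w α) (a.u i * w β)‖ ^ 2

/-- There is an `m`-dimensional subspace of `Y A` with relative energy `≤ ε`. -/
def PP (a : Avg A) (Y : A) (ε : ℝ) (m : ℕ) : Prop :=
  ∃ v : Fin m → A, ON v ∧ (∀ j, Y * v j = v j) ∧ Dv a v ≤ ε * m

end fam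

section real

variable {σ : Type} [Fintype σ]

/-- Doubly substochastic matrices. -/
structure DS (C : σ → σ → ℝ) : Prop where
  nn : ∀ α β, 0 ≤ C α β
  row : ∀ α, ∑ β, C α β ≤ 1
  col : ∀ β, ∑ α, C α β ≤ 1

/-- The quadratic form `∑ l_α² - ∑ C_αβ l_α l_β`. -/
def qC (C : σ → σ → ℝ) (l : σ → ℝ) : ℝ := ∑ α, l α ^ 2 - ∑ α, ∑ β, C α β * (l α * l β)

/-- Level sets. -/
noncomputable def lev (l : σ → ℝ) (t : ℝ) : Finset σ := by
  classical exact Finset.univ.filter fun α => t < l α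

/-- Energy of a set of indices. -/
def dC (C : σ → σ → ℝ) (S : Finset σ) : ℝ := S.card - ∑ α ∈ S, ∑ β ∈ S, C α β

theorem mem_lev {l : σ → ℝ} {t : ℝ} {α : σ} : α ∈ lev l t ↔ t < l α := by
  classical
  unfold lev
  simp

end real

section mat

/-- `(θ K θ*)_{jl}`. -/
noncomputable def cj {r : ℕ} {E : Type*} [AddCommGroup E] [Module ℂ E]
    (θ : Matrix (Fin r) (Fin r) ℂ) (K : Fin r → Fin r → E) (j l : Fin r) : E :=
  ∑ j', ∑ l', (θ j j' * star (θ l l')) • K j' l'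

variable {A : Type*} [CStarAlgebra A] [TrAlg A]

/-- `θ_i(l, j) = τ(v_l* u_i v_j)`. -/
noncomputable def th (a : Avg A) {r : ℕ} (v : Fin r → A) (i : a.ι) :
    Matrix (Fin r) (Fin r) ℂ :=
  fun l j => ip (v l) (a.u i * v j)

/-- Energy form on `M_r(ℂ)` = operators on the span of `v`. -/
noncomputable def ev (a : Avg A) {r : ℕ} (v : Fin r → A) (x : Fin r → Fin r → ℂ) : ℝ :=
  ∑ j, ∑ l, ‖x j l‖ ^ 2 - ∑ i, a.p i * ∑ j, ∑ l, (star (x j l) * cj (th a v i) x j l).re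

/-- Energy form on `M_r(A)`. -/
noncomputable def evA (a : Avg A) {r : ℕ} (v : Fin r → A) (K : Fin r → Fin r → A) : ℝ :=
  ∑ j, ∑ l, two (K j l) ^ 2 - ∑ i, a.p i * ∑ j, ∑ l, (ip (K j l) (cj (th a v i) K j l)).re

/-- Unitary matrices. -/
def Uni {r : ℕ} (θ : Matrix (Fin r) (Fin r) ℂ) : Prop := θ.conjTranspose * θ = 1

end mat

end Pool.Agent.PTH
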