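import Pool.Agent.PTH.DdDef

/-!
# PTH / DdDsm: the quadratic form of a doubly substochastic matrix (real numbers only)

`qC C l = ∑ l_α² - ∑ C_αβ l_α l_β`.
* `qC_eq`: expand `(l_α - l_β)² = l_α² - 2 l_α l_β + l_β²`; the sums `∑_αβ C_αβ l_α²` and
  `∑_αβ C_αβ l_β²` cancel with the other two terms (`Finset.sum_comm`, `Finset.mul_sum`).
* `qC_nonneg`: all terms of `qC_eq` are `≥ 0`.
* `qC_mono`: termwise comparison in `qC_eq` (`sq_le_sq'`/`sq_le_sq`).
* `qC_smul`, `qC_ind` (`l` = indicator of `S`; `Finset.sum_ite_mem` etc.), `dC_nonneg` from both.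
-/

namespace Pool.Agent.PTH

variable {σ : Type} [Fintype σ] {C : σ → σ → ℝ}

theorem qC_eq (C : σ → σ → ℝ) (l : σ → ℝ) :
    qC C l = 1 / 2 * (∑ α, ∑ β, C α β * (l α - l β) ^ 2 +
      ∑ α, l α ^ 2 * (1 - ∑ β, C α β) + ∑ β, l β ^ 2 * (1 - ∑ α, C α β)) := by
  have e1 : ∀ α β, C α β * (l α - l β) ^ 2 =
      C α β * l α ^ 2 - 2 * (C α β * (l α * l β)) + C α β * l β ^ 2 := fun α β => by ring
  have s1 : ∑ α, ∑ β, C α β * (l α - l β) ^ 2 =
      ∑ α, ∑ β, C α β * l α ^ 2 - 2 * ∑ α, ∑ β, C α β * (l α * l β)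
        + ∑ α, ∑ β, C α β * l β ^ 2 := by
    simp only [e1, Finset.sum_add_distrib, Finset.sum_sub_distrib, Finset.mul_sum]
  have s2 : ∑ α, l α ^ 2 * (1 - ∑ β, C α β) = ∑ α, l α ^ 2 - ∑ α, ∑ β, C α β * l α ^ 2 := by
    rw [← Finset.sum_sub_distrib]
    refine Finset.sum_congr rfl fun α _ => ?_
    rw [mul_sub, mul_one, Finset.mul_sum]
    congr 1
    exact Finset.sum_congr rfl fun β _ => mul_comm _ _
  have s3 : ∑ β, l β ^ 2 * (1 - ∑ α, C α β) = ∑ α, l α ^ 2 - ∑ α, ∑ β, C α β * l β ^ 2 := by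
    rw [Finset.sum_comm (f := fun α β => C α β * l β ^ 2), ← Finset.sum_sub_distrib]
    refine Finset.sum_congr rfl fun β _ => ?_
    rw [mul_sub, mul_one, Finset.mul_sum]
    congr 1
    exact Finset.sum_congr rfl fun α _ => mul_comm _ _
  rw [s1, s2, s3]
  unfold qC
  ring

theorem qC_nonneg (h : DS C) (l : σ → ℝ) : 0 ≤ qC C l := by
  rw [qC_eq]
  have a1 : 0 ≤ ∑ α, ∑ β, C α β * (l α - l β) ^ 2 :=
    Finset.sum_nonneg fun α _ => Finset.sum_nonneg fun β _ => mul_nonneg (h.nn α β) (sq_nonneg _)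
  have a2 : 0 ≤ ∑ α, l α ^ 2 * (1 - ∑ β, C α β) :=
    Finset.sum_nonneg fun α _ => mul_nonneg (sq_nonneg _) (by linarith [h.row α])
  have a3 : 0 ≤ ∑ β, l β ^ 2 * (1 - ∑ α, C α β) :=
    Finset.sum_nonneg fun β _ => mul_nonneg (sq_nonneg _) (by linarith [h.col β])
  linarith

theorem qC_mono (h : DS C) {l l' : σ → ℝ} (h1 : ∀ α β, |l' α - l' β| ≤ |l α - l β|)
    (h2 : ∀ α, |l' α| ≤ |l α|) : qC C l' ≤ qC C l := by
  rw [qC_eq, qC_eq]
  have a1 : ∑ α, ∑ β, C α β * (l' α - l' β) ^ 2 ≤ ∑ α, ∑ β, C α β * (l α - l β) ^ 2 :=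
    Finset.sum_le_sum fun α _ => Finset.sum_le_sum fun β _ =>
      mul_le_mul_of_nonneg_left (sq_le_sq.2 (h1 α β)) (h.nn α β)
  have a2 : ∑ α, l' α ^ 2 * (1 - ∑ β, C α β) ≤ ∑ α, l α ^ 2 * (1 - ∑ β, C α β) :=
    Finset.sum_le_sum fun α _ =>
      mul_le_mul_of_nonneg_right (sq_le_sq.2 (h2 α)) (by linarith [h.row α])
  have a3 : ∑ β, l' β ^ 2 * (1 - ∑ α, C α β) ≤ ∑ β, l β ^ 2 * (1 - ∑ α, C α β) :=
    Finset.sum_le_sum fun β _ =>
      mul_le_mul_of_nonneg_right (sq_le_sq.2 (h2 β)) (by linarith [h.col β])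
  linarith

theorem qC_smul (C : σ → σ → ℝ) (c : ℝ) (l : σ → ℝ) :
    qC C (fun α => c * l α) = c ^ 2 * qC C l := by
  unfold qC
  rw [mul_sub, Finset.mul_sum, Finset.mul_sum]
  congr 1
  · exact Finset.sum_congr rfl fun α _ => by ring
  · refine Finset.sum_congr rfl fun α _ => ?_
    rw [Finset.mul_sum]
    exact Finset.sum_congr rfl fun β _ => by ring

open scoped Classical in
theorem qC_ind (C : σ → σ → ℝ) (S : Finset σ) :
    qC C (fun α => if α ∈ S then 1 else 0) = dC C S := by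
  unfold qC dC
  congr 1
  · simp
  · rw [← Finset.sum_subset (Finset.subset_univ S)]
    · refine Finset.sum_congr rfl fun α hα => ?_
      rw [← Finset.sum_subset (Finset.subset_univ S)]
      · exact Finset.sum_congr rfl fun β hβ => by simp [hα, hβ]
      · intro β _ hβ
        simp [hβ]
    · intro α _ hα
      exact Finset.sum_eq_zero fun β _ => by simp [hα]

theorem dC_nonneg (h : DS C) (S : Finset σ) : 0 ≤ dC C S := by
  classical
  rw [← qC_ind]
  exact qC_nonneg h _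

/-- Positive part: `qC C l⁺ ≤ qC C l`. -/
theorem qC_pos_le (h : DS C) (l : σ → ℝ) : qC C (fun α => max (l α) 0) ≤ qC C l := by
  refine qC_mono h (fun α β => ?_) (fun α => ?_)
  · exact (abs_max_sub_max_le_max _ _ _ _).trans (by simp)
  · rcases le_total (l α) 0 with h0 | h0
    · rw [max_eq_right h0]
      simp
    · rw [max_eq_left h0]

end Pool.Agent.PTH
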