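import Pool.Agent.PTH.DdBes
import Pool.Agent.PTH.DdLev

/-!
# PTH / DdGapD: the linear gap for diagonal operators (8.2)

`w` orthonormal in `Y A`, `r` members, every `PP a Y ε7 m`, `m ≥ 1`, has `m ≥ (19/20) r`.  Let `∑ l = 0`,
`N = ∑ l²` and suppose `qC (Cm a w) l < ε7²/800 N` (so `N > 0`).  Replacing `l` by `-l` (`qC_smul` with `-1`)
we may assume `∑ (l⁺)² ≥ N/2` (`l⁺ = max l 0`, `∑ l² = ∑ (l⁺)² + ∑ (l⁻)²`).  `qC l⁺ ≤ qC l` (`qC_pos_le`, `DS_Cm`).
* `t_*`: let `V = {0} ∪ {l_α : l_α > 0}` (finite), `t_*` = the least `v ∈ V` with `card (lev l⁺ v) < (19/20) r`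
  (exists: the maximum of `V` has an empty level set and `r ≥ 1`).  For `t ≥ t_*`: `lev l⁺ t ⊆ lev l⁺ t_*`, so
  `card (lev l⁺ t) < (19/20) r`.  If `t_* > 0` let `v'` be the largest element of `V` below `t_*`; then
  `card (lev l⁺ v') ≥ (19/20) r` and `lev l⁺ v' ⊆ {α : l_α ≥ t_*}`: so `card {α : l_α ≥ t_*} ≥ (19/20) r`.
* For `t ≥ t_*`: `ε7 card (lev l⁺ t) ≤ dC (lev l⁺ t)`: trivial if empty (`dC ∅ = 0`), otherwise `PP_sub`.
* `lev_sum` (`c = ε7`, `s = t_*`): `ε7 ∑ max((l⁺)² - t_*², 0) ≤ √2 √N √(ε7² N/800) = ε7 N/20`.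
  Since `(l⁺)² ≤ t_*² + max(..)`: `N/2 ≤ ∑ (l⁺)² ≤ r t_*² + N/20`, so `r t_*² ≥ (9/20) N > 0`, `t_* > 0`.
* `∑ l⁺ ≥ (19/20) r t_*`; `card {l_α < 0} ≤ r/20`, so `∑ l⁻ ≤ √(r/20) √N` (Cauchy-Schwarz); `∑ l⁺ = ∑ l⁻`.
  Squares: `(361/400)(9/20) r N ≤ (∑ l⁺)² = (∑ l⁻)² ≤ r N/20`: false.
-/

open Filter Topology
open scoped InnerProductSpace ComplexOrder

namespace Pool.Agent.PTH

variable {A : Type*} [CStarAlgebra A] [PartialOrder A] [StarOrderedRing A] [TracialVN A]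

/-- The level `t_*`. -/
theorem exists_level {r : ℕ} (hr : 1 ≤ r) (l : Fin r → ℝ) (hl : ∀ α, 0 ≤ l α) :
    ∃ s : ℝ, 0 ≤ s ∧ (∀ t, s ≤ t → ((lev l t).card : ℝ) < 19 / 20 * r) ∧
      (0 < s → (19 / 20 : ℝ) * r ≤ (Finset.univ.filter fun α => s ≤ l α).card) := by
  classical
  have hr' : (1 : ℝ) ≤ r := by exact_mod_cast hr
  obtain ⟨V, hV⟩ : ∃ V : Finset ℝ, V = insert 0 (Finset.univ.image l) := ⟨_, rfl⟩
  have h0V : (0 : ℝ) ∈ V := by rw [hV]; exact Finset.mem_insert_self _ _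
  have hlV : ∀ α, l α ∈ V := fun α => by
    rw [hV]
    exact Finset.mem_insert_of_mem (Finset.mem_image_of_mem l (Finset.mem_univ α))
  have hVn : ∀ v ∈ V, 0 ≤ v := by
    intro v hv
    rw [hV, Finset.mem_insert, Finset.mem_image] at hv
    rcases hv with h | ⟨α, _, h⟩
    · exact h.ge
    · rw [← h]
      exact hl α
  obtain ⟨V', hV'⟩ : ∃ V' : Finset ℝ, V' = V.filter fun v => ((lev l v).card : ℝ) < 19 / 20 * r :=
    ⟨_, rfl⟩
  have hne : V'.Nonempty := by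
    refine ⟨V.max' ⟨0, h0V⟩, ?_⟩
    rw [hV', Finset.mem_filter]
    refine ⟨Finset.max'_mem _ _, ?_⟩
    have h1 : lev l (V.max' ⟨0, h0V⟩) = ∅ := by
      rw [Finset.eq_empty_iff_forall_notMem]
      intro α hα
      rw [mem_lev] at hα
      exact absurd (Finset.le_max' V _ (hlV α)) (not_le.2 hα)
    rw [h1, Finset.card_empty, Nat.cast_zero]
    linarith
  have hmem : ∀ v, v ∈ V' → v ∈ V ∧ ((lev l v).card : ℝ) < 19 / 20 * r := fun v hv => by
    rw [hV', Finset.mem_filter] at hv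
    exact hv
  have hmem' : ∀ v, v ∈ V → ((lev l v).card : ℝ) < 19 / 20 * r → v ∈ V' := fun v hv h => by
    rw [hV', Finset.mem_filter]
    exact ⟨hv, h⟩
  have hsm' := hmem _ (Finset.min'_mem V' hne)
  refine ⟨V'.min' hne, hVn _ hsm'.1, fun t ht => ?_, fun hs => ?_⟩
  · refine lt_of_le_of_lt ?_ hsm'.2
    have h1 : lev l t ⊆ lev l (V'.min' hne) := by
      intro α hα
      rw [mem_lev] at hα ⊢
      exact lt_of_le_of_lt ht hα
    exact_mod_cast Finset.card_le_card h1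
  · have hne2 : (V.filter fun v => v < V'.min' hne).Nonempty :=
      ⟨0, Finset.mem_filter.2 ⟨h0V, hs⟩⟩
    have hm := Finset.max'_mem _ hne2
    rw [Finset.mem_filter] at hm
    have h1 : ¬ ((lev l ((V.filter fun v => v < V'.min' hne).max' hne2)).card : ℝ) < 19 / 20 * r := by
      intro hlt
      have h2 : (V.filter fun v => v < V'.min' hne).max' hne2 ∈ V' := hmem' _ hm.1 hlt
      exact absurd (Finset.min'_le V' _ h2) (not_le.2 hm.2)
    rw [not_lt] at h1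
    refine h1.trans ?_
    have h3 : lev l ((V.filter fun v => v < V'.min' hne).max' hne2) ⊆
        Finset.univ.filter fun α => V'.min' hne ≤ l α := by
      intro α hα
      rw [mem_lev] at hα
      rw [Finset.mem_filter]
      refine ⟨Finset.mem_univ _, ?_⟩
      by_contra hcon
      rw [not_le] at hcon
      have h4 : l α ∈ V.filter fun v => v < V'.min' hne := Finset.mem_filter.2 ⟨hlV α, hcon⟩
      exact absurd (Finset.le_max' _ _ h4) (not_le.2 hα)
    exact_mod_cast Finset.card_le_card h3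

private theorem gap42 (a : Avg A) {Y : A} {ε7 : ℝ} (h7 : 0 < ε7) {r : ℕ} (hr : 1 ≤ r)
    {w : Fin r → A} (hw : ON w) (hY : ∀ j, Y * w j = w j)
    (hmin : ∀ m ≥ 1, PP a Y ε7 m → (19 / 20 : ℝ) * r ≤ m) (l : Fin r → ℝ) (hs : ∑ α, l α = 0)
    (hhalf : 1 / 2 * ∑ α, l α ^ 2 ≤ ∑ α, max (l α) 0 ^ 2) :
    ε7 ^ 2 / 800 * ∑ α, l α ^ 2 ≤ qC (Cm a w) l := by
  classical
  by_contra hcon
  rw [not_le] at hcon
  have hON := (ON_iff w).1 hw
  have hDS : DS (Cm a w) := DS_Cm a hON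
  have hr' : (1 : ℝ) ≤ r := by exact_mod_cast hr
  obtain ⟨N, hN⟩ : ∃ N, N = ∑ α, l α ^ 2 := ⟨_, rfl⟩
  rw [← hN] at hcon hhalf
  have hq0 := qC_nonneg hDS l
  have hNpos : 0 < N := by
    by_contra h
    rw [not_lt] at h
    have h1 : ε7 ^ 2 / 800 * N ≤ 0 := mul_nonpos_of_nonneg_of_nonpos (by positivity) h
    linarith
  obtain ⟨lp, hlp⟩ : ∃ lp : Fin r → ℝ, lp = fun α => max (l α) 0 := ⟨_, rfl⟩
  have hlp0 : ∀ α, 0 ≤ lp α := fun α => by rw [hlp]; exact le_max_right _ _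
  have hqp : qC (Cm a w) lp ≤ qC (Cm a w) l := by rw [hlp]; exact qC_pos_le hDS l
  have hqp0 := qC_nonneg hDS lp
  have hhalf' : 1 / 2 * N ≤ ∑ α, lp α ^ 2 := by rw [hlp]; exact hhalf
  have hNp : ∑ α, lp α ^ 2 ≤ N := by
    rw [hN]
    refine Finset.sum_le_sum fun α _ => ?_
    have hlpα : lp α = max (l α) 0 := by rw [hlp]
    rw [hlpα]
    rcases le_total (l α) 0 with h0 | h0
    · rw [max_eq_right h0]
      have := sq_nonneg (l α)
      simpa using this
    · rw [max_eq_left h0]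
  obtain ⟨s, hs0, hs1, hs2⟩ := exists_level hr lp hlp0
  have H : ∀ t, s ≤ t → ε7 * (lev lp t).card ≤ dC (Cm a w) (lev lp t) := by
    intro t ht
    by_contra h
    rw [not_le] at h
    have h1 := hs1 t ht
    have h2 := PP_sub a hON hY (lev lp t) h.le
    rcases Nat.eq_zero_or_pos (lev lp t).card with h3 | h3
    · have h4 := dC_nonneg hDS (lev lp t)
      rw [h3, Nat.cast_zero, mul_zero] at h
      linarith
    · have h4 := hmin _ h3 h2
      linarith
  have hsum := lev_sum hDS hlp0 h7.le hs0 H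
  have hrhs : Real.sqrt 2 * Real.sqrt (∑ α, lp α ^ 2) * Real.sqrt (qC (Cm a w) lp) ≤
      ε7 * N / 20 := by
    have hp0 : 0 ≤ ∑ α, lp α ^ 2 := Finset.sum_nonneg fun α _ => sq_nonneg _
    rw [← Real.sqrt_mul (by norm_num), ← Real.sqrt_mul (by positivity)]
    refine Real.sqrt_le_iff.2 ⟨by positivity, ?_⟩
    have h1 : (∑ α, lp α ^ 2) * qC (Cm a w) lp ≤ N * (ε7 ^ 2 / 800 * N) :=
      mul_le_mul hNp (hqp.trans hcon.le) hqp0 hNpos.le
    nlinarith
  have hsum2 : ∑ α, max (lp α ^ 2 - s ^ 2) 0 ≤ N / 20 := by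
    have h1 := hsum.trans hrhs
    have h2 : ε7 * ∑ α, max (lp α ^ 2 - s ^ 2) 0 ≤ ε7 * (N / 20) := by linarith
    exact le_of_mul_le_mul_left h2 h7
  have hs3 : ∑ α, lp α ^ 2 ≤ r * s ^ 2 + N / 20 := by
    have h1 : ∑ α, lp α ^ 2 ≤ ∑ α, (s ^ 2 + max (lp α ^ 2 - s ^ 2) 0) := by
      refine Finset.sum_le_sum fun α _ => ?_
      have := le_max_left (lp α ^ 2 - s ^ 2) 0
      linarith
    rw [Finset.sum_add_distrib, Finset.sum_const, Finset.card_univ, Fintype.card_fin,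
      nsmul_eq_mul] at h1
    linarith
  have hrs : 9 / 20 * N ≤ r * s ^ 2 := by linarith
  have hspos : 0 < s := by
    rcases hs0.lt_or_eq with h | h
    · exact h
    · exfalso
      rw [← h] at hrs
      nlinarith
  have hcard := hs2 hspos
  obtain ⟨P, hP⟩ : ∃ P : Finset (Fin r), P = Finset.univ.filter fun α => s ≤ lp α := ⟨_, rfl⟩
  have hcard' : (19 / 20 : ℝ) * r ≤ P.card := by
    rw [hP]
    convert hcard
  obtain ⟨Q, hQ⟩ : ∃ Q : Finset (Fin r), Q = Finset.univ.filter fun α => l α < 0 := ⟨_, rfl⟩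
  have hPQ : Disjoint P Q := by
    rw [Finset.disjoint_left]
    intro α h1 h2
    rw [hP, Finset.mem_filter] at h1
    rw [hQ, Finset.mem_filter] at h2
    have h3 : lp α = 0 := by
      rw [hlp]
      exact max_eq_right h2.2.le
    have h4 := h1.2
    rw [h3] at h4
    linarith
  have hQc : (Q.card : ℝ) ≤ r / 20 := by
    have h1 : P.card + Q.card ≤ r := by
      rw [← Finset.card_union_of_disjoint hPQ]
      have := Finset.card_le_univ (P ∪ Q)
      rwa [Fintype.card_fin] at this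
    have h2 : (P.card : ℝ) + Q.card ≤ r := by exact_mod_cast h1
    linarith
  have hSp : 19 / 20 * r * s ≤ ∑ α, lp α := by
    have h1 : (P.card : ℝ) * s ≤ ∑ α ∈ P, lp α := by
      rw [← nsmul_eq_mul]
      refine Finset.card_nsmul_le_sum P _ _ fun α hα => ?_
      rw [hP, Finset.mem_filter] at hα
      exact hα.2
    have h2 : ∑ α ∈ P, lp α ≤ ∑ α, lp α :=
      Finset.sum_le_sum_of_subset_of_nonneg (Finset.subset_univ P) fun α _ _ => hlp0 α
    nlinarith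
  have hSm : ∑ α, lp α = ∑ α ∈ Q, -l α := by
    have h1 : ∑ α ∈ Q, -l α = ∑ α, (lp α - l α) := by
      rw [← Finset.sum_subset (Finset.subset_univ Q)]
      · refine Finset.sum_congr rfl fun α hα => ?_
        rw [hQ, Finset.mem_filter] at hα
        have h3 : lp α = 0 := by
          rw [hlp]
          exact max_eq_right hα.2.le
        rw [h3, zero_sub]
      · intro α _ hα
        have h3 : 0 ≤ l α := by
          by_contra h
          rw [not_le] at h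
          exact hα (by rw [hQ, Finset.mem_filter]; exact ⟨Finset.mem_univ _, h⟩)
        rw [hlp]
        simp [h3]
    rw [h1, Finset.sum_sub_distrib, hs, sub_zero]
  have hcs : (∑ α ∈ Q, -l α) ^ 2 ≤ r / 20 * N := by
    have h1 : (∑ α ∈ Q, -l α) ^ 2 ≤ Q.card * ∑ α ∈ Q, (-l α) ^ 2 := sq_sum_le_card_mul_sum_sq
    have h2 : ∑ α ∈ Q, (-l α) ^ 2 ≤ N := by
      rw [hN]
      refine (Finset.sum_le_sum_of_subset_of_nonneg (Finset.subset_univ Q)
        fun α _ _ => sq_nonneg _).trans (le_of_eq ?_)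
      exact Finset.sum_congr rfl fun α _ => by ring
    have h3 : 0 ≤ ∑ α ∈ Q, (-l α) ^ 2 := Finset.sum_nonneg fun α _ => sq_nonneg _
    exact h1.trans (mul_le_mul hQc h2 h3 (by positivity))
  rw [← hSm] at hcs
  have hsq : (19 / 20 * r * s) ^ 2 ≤ (∑ α, lp α) ^ 2 :=
    pow_le_pow_left₀ (by positivity) hSp 2
  have h8 : (19 / 20 * r * s) ^ 2 = 361 / 400 * r * (r * s ^ 2) := by ring
  have h9 : 361 / 400 * r * (9 / 20 * N) ≤ 361 / 400 * r * (r * s ^ 2) :=
    mul_le_mul_of_nonneg_left hrs (by positivity)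
  have h10 : 0 < (r : ℝ) * N := by positivity
  nlinarith

theorem gap_diag (a : Avg A) {Y : A} {ε7 : ℝ} (h7 : 0 < ε7) {r : ℕ} (hr : 1 ≤ r) {w : Fin r → A}
    (hw : ON w) (hY : ∀ j, Y * w j = w j)
    (hmin : ∀ m ≥ 1, PP a Y ε7 m → (19 / 20 : ℝ) * r ≤ m) (l : Fin r → ℝ) (hs : ∑ α, l α = 0) :
    ε7 ^ 2 / 800 * ∑ α, l α ^ 2 ≤ qC (Cm a w) l := by
  have hsplit : ∑ α, l α ^ 2 = ∑ α, max (l α) 0 ^ 2 + ∑ α, max (-l α) 0 ^ 2 := by
    rw [← Finset.sum_add_distrib]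
    refine Finset.sum_congr rfl fun α _ => ?_
    rcases le_total (l α) 0 with h0 | h0
    · rw [max_eq_right h0, max_eq_left (by linarith)]
      ring
    · rw [max_eq_left h0, max_eq_right (by linarith)]
      ring
  rcases le_total (∑ α, max (-l α) 0 ^ 2) (∑ α, max (l α) 0 ^ 2) with h | h
  · exact gap42 a h7 hr hw hY hmin l hs (by linarith)
  · have h1 := gap42 a h7 hr hw hY hmin (fun α => -1 * l α)
      (by rw [← Finset.mul_sum, hs, mul_zero])
      (by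
        have e1 : ∑ α, (-1 * l α) ^ 2 = ∑ α, l α ^ 2 :=
          Finset.sum_congr rfl fun α _ => by ring
        have e2 : ∑ α, max (-1 * l α) 0 ^ 2 = ∑ α, max (-l α) 0 ^ 2 :=
          Finset.sum_congr rfl fun α _ => by rw [neg_one_mul]
        rw [e1, e2]
        linarith)
    rw [qC_smul] at h1
    have e1 : ∑ α, (-1 * l α) ^ 2 = ∑ α, l α ^ 2 :=
      Finset.sum_congr rfl fun α _ => by ring
    rw [e1] at h1
    linarith

end Pool.Agent.PTH
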