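import Pool.Agent.PTH.DdGapD

/-!
# PTH / DdGapH: the linear gap for all matrices

`ev a v x = ∑‖x_jl‖² - ∑ p_i Re tr(x* θ_i x θ_i*)`, `θ_i = th a v i`.
* `ev_herm`: `x` Hermitian: spectral theorem (`Matrix.IsHermitian`): `x_jl = ∑_α l_α c_jα conj(c_lα)`, `c` unitary.
  `w_α = ∑_j c_jα v_j` is orthonormal, `Y w = w`; `∑ l = ∑_j x_jj`, `∑ l² = ∑‖x‖²`;
  `∑_jl conj(x_jl) (θ x θ*)_jl = ∑_αβ l_α l_β |∑_lj conj(c_lα) θ(l,j) c_jβ|²`, and
  `⟨w_α, u_i w_β⟩ = ∑_lj conj(c_lα) c_jβ ⟨v_l, u_i v_j⟩`.  So `ev a v x = qC (Cm a w) l`.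
* `ev_split`: `x = y + i z`, `y`, `z` Hermitian: `Re tr((y+iz)* θ (y+iz) θ*) = Re tr(yθyθ*) + Re tr(zθzθ*)`: the cross
  terms are `i (tr(yθzθ*) - tr(zθyθ*))` and `conj tr(yθzθ*) = tr(θ z θ* y) = tr(yθzθ*)`, so both
  traces are real and the real part of the cross term vanishes.  Also `∑‖x‖² = ∑‖y‖² + ∑‖z‖²`
  (`tr(yz)` is real).
* `gap_mat`: `y = (x + x*)/2`, `z = (x - x*)/(2i)` are Hermitian with trace zero; `gap_diag` for both.
-/

open Filter Topology
open scoped InnerProductSpace ComplexOrder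

namespace Pool.Agent.PTH

variable {A : Type*} [CStarAlgebra A] [PartialOrder A] [StarOrderedRing A] [TracialVN A]

private theorem cj_eq {r : ℕ} (θ : Matrix (Fin r) (Fin r) ℂ) (K : Matrix (Fin r) (Fin r) ℂ)
    (j l : Fin r) : cj θ (fun j l => K j l) j l = (θ * K * θ.conjTranspose) j l := by
  unfold cj
  rw [Matrix.mul_apply, Finset.sum_comm]
  refine Finset.sum_congr rfl fun l' _ => ?_
  rw [Matrix.mul_apply, Finset.sum_mul]
  refine Finset.sum_congr rfl fun j' _ => ?_
  rw [Matrix.conjTranspose_apply, smul_eq_mul]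
  ring

private theorem sum_star_mul {r : ℕ} (X Y : Matrix (Fin r) (Fin r) ℂ) :
    ∑ j, ∑ l, star (X j l) * Y j l = (X.conjTranspose * Y).trace := by
  rw [Finset.sum_comm]
  refine Finset.sum_congr rfl fun l _ => ?_
  rw [Matrix.diag_apply, Matrix.mul_apply]
  rfl

private theorem sum_cj {r : ℕ} (θ X Y : Matrix (Fin r) (Fin r) ℂ) :
    ∑ j, ∑ l, star (X j l) * cj θ (fun j l => Y j l) j l =
      (X.conjTranspose * (θ * Y * θ.conjTranspose)).trace := by
  rw [← sum_star_mul]
  refine Finset.sum_congr rfl fun j _ => Finset.sum_congr rfl fun l _ => ?_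
  rw [cj_eq]

private theorem trace_real {r : ℕ} (θ X Y : Matrix (Fin r) (Fin r) ℂ) (hX : X.conjTranspose = X)
    (hY : Y.conjTranspose = Y) :
    ((X.conjTranspose * (θ * Y * θ.conjTranspose)).trace).im = 0 := by
  have h : star (X.conjTranspose * (θ * Y * θ.conjTranspose)).trace =
      (X.conjTranspose * (θ * Y * θ.conjTranspose)).trace := by
    rw [← Matrix.trace_conjTranspose, Matrix.conjTranspose_mul, Matrix.conjTranspose_mul,
      Matrix.conjTranspose_mul, Matrix.conjTranspose_conjTranspose,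
      Matrix.conjTranspose_conjTranspose, hX, hY, Matrix.trace_mul_comm, Matrix.mul_assoc]
  have h2 := congrArg Complex.im h
  change ((starRingEnd ℂ) _).im = _ at h2
  rw [Complex.conj_im] at h2
  linarith

private theorem re_sum2 {r : ℕ} (g : Fin r → Fin r → ℂ) :
    ∑ j, ∑ l, (g j l).re = (∑ j, ∑ l, g j l).re := by
  rw [Complex.re_sum]
  refine Finset.sum_congr rfl fun j _ => ?_
  rw [Complex.re_sum]

private theorem sum_norm_sq {r : ℕ} (X : Matrix (Fin r) (Fin r) ℂ) :
    ((∑ j, ∑ l, ‖X j l‖ ^ 2 : ℝ) : ℂ) = (X.conjTranspose * X).trace := by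
  rw [← sum_star_mul]
  push_cast
  refine Finset.sum_congr rfl fun j _ => Finset.sum_congr rfl fun l _ => ?_
  change _ = (starRingEnd ℂ) (X j l) * X j l
  rw [Complex.conj_mul']

private theorem spec_form {r : ℕ} (X : Matrix (Fin r) (Fin r) ℂ) (hX : X.conjTranspose = X) :
    ∃ (c : Matrix (Fin r) (Fin r) ℂ) (l : Fin r → ℝ), c.conjTranspose * c = 1 ∧
      X = c * Matrix.diagonal (fun α => (l α : ℂ)) * c.conjTranspose := by
  have hA : X.IsHermitian := hX
  have h1 := Unitary.coe_star_mul_self hA.eigenvectorUnitary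
  have h2 := hA.spectral_theorem
  rw [Unitary.conjStarAlgAut_apply] at h2
  generalize (hA.eigenvectorUnitary : Matrix (Fin r) (Fin r) ℂ) = c at h1 h2
  exact ⟨c, hA.eigenvalues, h1, h2⟩

private theorem trace_form {r : ℕ} (c θ : Matrix (Fin r) (Fin r) ℂ) (l : Fin r → ℝ) :
    ((c * Matrix.diagonal (fun α => (l α : ℂ)) * c.conjTranspose) *
      (θ * (c * Matrix.diagonal (fun α => (l α : ℂ)) * c.conjTranspose) *
        θ.conjTranspose)).trace =
      ((∑ α, ∑ β, ‖(c.conjTranspose * θ * c) α β‖ ^ 2 * (l α * l β) : ℝ) : ℂ) := by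
  set L := Matrix.diagonal (fun α => (l α : ℂ)) with hL
  set S := c.conjTranspose * θ * c with hS
  have h1 : (c * L * c.conjTranspose) * (θ * (c * L * c.conjTranspose) * θ.conjTranspose) =
      c * (L * S * L * (c.conjTranspose * θ.conjTranspose)) := by
    rw [hS]
    simp only [Matrix.mul_assoc]
  have h2 : L * S * L * (c.conjTranspose * θ.conjTranspose) * c = L * S * L * S.conjTranspose := by
    rw [hS, Matrix.conjTranspose_mul, Matrix.conjTranspose_mul,
      Matrix.conjTranspose_conjTranspose]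
    simp only [Matrix.mul_assoc]
  rw [h1, Matrix.trace_mul_comm, h2]
  push_cast
  unfold Matrix.trace
  refine Finset.sum_congr rfl fun α _ => ?_
  rw [Matrix.diag_apply, Matrix.mul_apply]
  refine Finset.sum_congr rfl fun β _ => ?_
  rw [hL, Matrix.mul_diagonal, Matrix.diagonal_mul, Matrix.conjTranspose_apply]
  have h3 : S α β * star (S α β) = (‖S α β‖ : ℂ) ^ 2 := by
    change S α β * (starRingEnd ℂ) (S α β) = _
    rw [Complex.mul_conj']
  rw [← h3]
  ring

theorem ev_herm (a : Avg A) {r : ℕ} {v : Fin r → A} (hv : ON v) (x : Fin r → Fin r → ℂ)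
    (hx : ∀ j l, star (x j l) = x l j) :
    ∃ (w : Fin r → A) (l : Fin r → ℝ), ON w ∧
      (∀ Y : A, (∀ j, Y * v j = v j) → ∀ j, Y * w j = w j) ∧
      ((∑ α, l α : ℝ) : ℂ) = ∑ j, x j j ∧ ∑ α, l α ^ 2 = ∑ j, ∑ l, ‖x j l‖ ^ 2 ∧
      ev a v x = qC (Cm a w) l := by
  have hX : (Matrix.of x).conjTranspose = Matrix.of x := by
    ext j l
    rw [Matrix.conjTranspose_apply]
    exact hx l j
  obtain ⟨c, l, hc, hcl⟩ := spec_form (Matrix.of x) hX
  have hip : ∀ (y : A) (α β : Fin r) (B : Matrix (Fin r) (Fin r) ℂ),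
      (∀ j j', ip (v j) (y * v j') = B j j') →
      ip (∑ j, c j α • v j) (y * ∑ j, c j β • v j) = (c.conjTranspose * B * c) α β := by
    intro y α β B hB
    rw [ip_sum_left, Matrix.mul_assoc, Matrix.mul_apply]
    refine Finset.sum_congr rfl fun j _ => ?_
    rw [ip_smul_left, Finset.mul_sum, ip_sum, Matrix.conjTranspose_apply, Matrix.mul_apply]
    congr 1
    refine Finset.sum_congr rfl fun j' _ => ?_
    rw [mul_smul_comm, ip_smul, hB, mul_comm]
  refine ⟨fun α => ∑ j, c j α • v j, l, ?_, ?_, ?_, ?_, ?_⟩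
  · intro α β
    have h := hip 1 α β 1 (fun j j' => by
      rw [one_mul]
      have h2 := hv j j'
      change ip (v j) (v j') = _ at h2
      rw [h2, Matrix.one_apply])
    rw [one_mul, Matrix.mul_one, hc, Matrix.one_apply] at h
    exact h
  · intro Y hY α
    change Y * ∑ j, c j α • v j = ∑ j, c j α • v j
    rw [Finset.mul_sum]
    refine Finset.sum_congr rfl fun j _ => ?_
    rw [mul_smul_comm, hY]
  · have h1 : ∑ j, x j j = (Matrix.of x).trace := rfl
    rw [h1, hcl, Matrix.mul_assoc, Matrix.trace_mul_comm, Matrix.mul_assoc, hc, Matrix.mul_one,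
      Matrix.trace_diagonal]
    push_cast
    rfl
  · have h1 := sum_norm_sq (Matrix.of x)
    have h2 := trace_form c 1 l
    rw [Matrix.conjTranspose_one, Matrix.mul_one, Matrix.one_mul, Matrix.mul_one, hc, ← hcl] at h2
    rw [hX, h2] at h1
    have h3 := Complex.ofReal_injective h1
    have h4 : ∑ j, ∑ l', ‖x j l'‖ ^ 2 = ∑ j, ∑ l', ‖(Matrix.of x) j l'‖ ^ 2 := rfl
    rw [h4, h3]
    refine Finset.sum_congr rfl fun α _ => ?_
    rw [Finset.sum_eq_single α]
    · rw [Matrix.one_apply_eq, norm_one]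
      ring
    · intro β _ hβ
      rw [Matrix.one_apply_ne (Ne.symm hβ), norm_zero]
      ring
    · intro h
      exact absurd (Finset.mem_univ α) h
  · have hN : ∑ j, ∑ l', ‖x j l'‖ ^ 2 = ∑ α, l α ^ 2 := by
      have h1 := sum_norm_sq (Matrix.of x)
      have h2 := trace_form c 1 l
      rw [Matrix.conjTranspose_one, Matrix.mul_one, Matrix.one_mul, Matrix.mul_one, hc,
        ← hcl] at h2
      rw [hX, h2] at h1
      have h3 := Complex.ofReal_injective h1
      have h4 : ∑ j, ∑ l', ‖x j l'‖ ^ 2 = ∑ j, ∑ l', ‖(Matrix.of x) j l'‖ ^ 2 := rfl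
      rw [h4, h3]
      refine Finset.sum_congr rfl fun α _ => ?_
      rw [Finset.sum_eq_single α]
      · rw [Matrix.one_apply_eq, norm_one]
        ring
      · intro β _ hβ
        rw [Matrix.one_apply_ne (Ne.symm hβ), norm_zero]
        ring
      · intro h
        exact absurd (Finset.mem_univ α) h
    unfold ev qC
    rw [hN]
    congr 1
    have hi : ∀ i, ∑ j, ∑ l', (star (x j l') * cj (th a v i) x j l').re =
        ∑ α, ∑ β, ‖ip (∑ j, c j α • v j) (a.u i * ∑ j, c j β • v j)‖ ^ 2 * (l α * l β) := by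
      intro i
      rw [re_sum2]
      have h1 := sum_cj (th a v i) (Matrix.of x) (Matrix.of x)
      have h2 := trace_form c (th a v i) l
      rw [← hcl] at h2
      rw [hX, h2] at h1
      have h3 : ∑ j, ∑ l', star (x j l') * cj (th a v i) x j l' =
          ∑ j, ∑ l', star ((Matrix.of x) j l') *
            cj (th a v i) (fun j l => (Matrix.of x) j l) j l' := rfl
      rw [h3, h1, Complex.ofReal_re]
      refine Finset.sum_congr rfl fun α _ => Finset.sum_congr rfl fun β _ => ?_
      rw [hip (a.u i) α β (th a v i) (fun j j' => rfl)]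
    have hL : ∑ i, a.p i * ∑ j, ∑ l', (star (x j l') * cj (th a v i) x j l').re =
        ∑ i, ∑ α, ∑ β, a.p i *
          (‖ip (∑ j, c j α • v j) (a.u i * ∑ j, c j β • v j)‖ ^ 2 * (l α * l β)) := by
      refine Finset.sum_congr rfl fun i _ => ?_
      rw [hi, Finset.mul_sum]
      refine Finset.sum_congr rfl fun α _ => ?_
      rw [Finset.mul_sum]
    rw [hL, Finset.sum_comm]
    refine Finset.sum_congr rfl fun α _ => ?_
    rw [Finset.sum_comm]
    refine Finset.sum_congr rfl fun β _ => ?_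
    unfold Cm
    rw [Finset.sum_mul]
    refine Finset.sum_congr rfl fun i _ => ?_
    ring

theorem ev_split (a : Avg A) {r : ℕ} (v : Fin r → A) (y z : Fin r → Fin r → ℂ)
    (hy : ∀ j l, star (y j l) = y l j) (hz : ∀ j l, star (z j l) = z l j) :
    ev a v (fun j l => y j l + Complex.I * z j l) = ev a v y + ev a v z ∧
      ∑ j, ∑ l, ‖y j l + Complex.I * z j l‖ ^ 2 =
        ∑ j, ∑ l, ‖y j l‖ ^ 2 + ∑ j, ∑ l, ‖z j l‖ ^ 2 := by
  have hY : (Matrix.of y).conjTranspose = Matrix.of y := by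
    ext j l
    rw [Matrix.conjTranspose_apply]
    exact hy l j
  have hZ : (Matrix.of z).conjTranspose = Matrix.of z := by
    ext j l
    rw [Matrix.conjTranspose_apply]
    exact hz l j
  have key : ∀ θ : Matrix (Fin r) (Fin r) ℂ,
      ∑ j, ∑ l, (star (y j l + Complex.I * z j l) *
        cj θ (fun j l => y j l + Complex.I * z j l) j l).re =
      ∑ j, ∑ l, (star (y j l) * cj θ y j l).re + ∑ j, ∑ l, (star (z j l) * cj θ z j l).re := by
    intro θ
    rw [re_sum2, re_sum2, re_sum2]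
    have hcj : ∀ j l, cj θ (fun j l => y j l + Complex.I * z j l) j l =
        cj θ y j l + Complex.I * cj θ z j l := by
      intro j l
      unfold cj
      rw [Finset.mul_sum, ← Finset.sum_add_distrib]
      refine Finset.sum_congr rfl fun j' _ => ?_
      rw [Finset.mul_sum, ← Finset.sum_add_distrib]
      refine Finset.sum_congr rfl fun l' _ => ?_
      rw [smul_eq_mul, smul_eq_mul, smul_eq_mul]
      ring
    have hexp : ∑ j, ∑ l, star (y j l + Complex.I * z j l) *
        cj θ (fun j l => y j l + Complex.I * z j l) j l =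
        (∑ j, ∑ l, star (y j l) * cj θ y j l + ∑ j, ∑ l, star (z j l) * cj θ z j l) +
        Complex.I * (∑ j, ∑ l, star (y j l) * cj θ z j l - ∑ j, ∑ l, star (z j l) * cj θ y j l) := by
      rw [← Finset.sum_add_distrib, ← Finset.sum_sub_distrib, Finset.mul_sum,
        ← Finset.sum_add_distrib]
      refine Finset.sum_congr rfl fun j _ => ?_
      rw [← Finset.sum_add_distrib, ← Finset.sum_sub_distrib, Finset.mul_sum,
        ← Finset.sum_add_distrib]
      refine Finset.sum_congr rfl fun l _ => ?_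
      rw [hcj, star_add, star_mul']
      have hI : star Complex.I = -Complex.I := Complex.conj_I
      rw [hI]
      have hI2 : Complex.I * Complex.I = -1 := Complex.I_mul_I
      linear_combination (-(star (z j l) * cj θ z j l)) * hI2
    have h1 : (∑ j, ∑ l, star (y j l) * cj θ z j l).im = 0 := by
      have h := sum_cj θ (Matrix.of y) (Matrix.of z)
      have h2 := trace_real θ (Matrix.of y) (Matrix.of z) hY hZ
      rw [← h] at h2
      exact h2
    have h2 : (∑ j, ∑ l, star (z j l) * cj θ y j l).im = 0 := by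
      have h := sum_cj θ (Matrix.of z) (Matrix.of y)
      have h2 := trace_real θ (Matrix.of z) (Matrix.of y) hZ hY
      rw [← h] at h2
      exact h2
    rw [hexp, Complex.add_re, Complex.add_re, Complex.I_mul_re, Complex.sub_im, h1, h2]
    ring
  have hnorm : ∑ j, ∑ l, ‖y j l + Complex.I * z j l‖ ^ 2 =
      ∑ j, ∑ l, ‖y j l‖ ^ 2 + ∑ j, ∑ l, ‖z j l‖ ^ 2 := by
    have hk := key 1
    have h1 : ∀ (K : Fin r → Fin r → ℂ) (j l : Fin r), cj (1 : Matrix (Fin r) (Fin r) ℂ) K j l =
        K j l := by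
      intro K j l
      have h := cj_eq 1 (Matrix.of K) j l
      rw [Matrix.conjTranspose_one, Matrix.mul_one, Matrix.one_mul] at h
      exact h
    have h2 : ∀ (K : Fin r → Fin r → ℂ) (j l : Fin r),
        (star (K j l) * cj (1 : Matrix (Fin r) (Fin r) ℂ) K j l).re = ‖K j l‖ ^ 2 := by
      intro K j l
      rw [h1]
      change ((starRingEnd ℂ) (K j l) * K j l).re = _
      rw [Complex.conj_mul', ← Complex.ofReal_pow, Complex.ofReal_re]
    have h3 : ∀ K : Fin r → Fin r → ℂ,
        ∑ j, ∑ l, (star (K j l) * cj (1 : Matrix (Fin r) (Fin r) ℂ) K j l).re =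
          ∑ j, ∑ l, ‖K j l‖ ^ 2 := by
      intro K
      exact Finset.sum_congr rfl fun j _ => Finset.sum_congr rfl fun l _ => h2 K j l
    rw [h3 y, h3 z] at hk
    rw [← hk]
    exact (h3 (fun j l => y j l + Complex.I * z j l)).symm
  refine ⟨?_, hnorm⟩
  unfold ev
  rw [hnorm]
  have h4 : ∑ i, a.p i * ∑ j, ∑ l, (star (y j l + Complex.I * z j l) *
        cj (th a v i) (fun j l => y j l + Complex.I * z j l) j l).re =
      ∑ i, a.p i * ∑ j, ∑ l, (star (y j l) * cj (th a v i) y j l).re +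
        ∑ i, a.p i * ∑ j, ∑ l, (star (z j l) * cj (th a v i) z j l).re := by
    rw [← Finset.sum_add_distrib]
    refine Finset.sum_congr rfl fun i _ => ?_
    rw [key, mul_add]
  rw [h4]
  ring

theorem gap_mat (a : Avg A) {Y : A} {ε7 : ℝ} (h7 : 0 < ε7) {r : ℕ} (hr : 1 ≤ r) {v : Fin r → A}
    (hv : ON v) (hY : ∀ j, Y * v j = v j)
    (hmin : ∀ m ≥ 1, PP a Y ε7 m → (19 / 20 : ℝ) * r ≤ m) (x : Fin r → Fin r → ℂ)
    (htr : ∑ j, x j j = 0) :
    ε7 ^ 2 / 800 * ∑ j, ∑ l, ‖x j l‖ ^ 2 ≤ ev a v x := by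
  have herm : ∀ y : Fin r → Fin r → ℂ, (∀ j l, star (y j l) = y l j) → ∑ j, y j j = 0 →
      ε7 ^ 2 / 800 * ∑ j, ∑ l, ‖y j l‖ ^ 2 ≤ ev a v y := by
    intro y hy hy0
    obtain ⟨w, l, hw, hYw, hl, hl2, hev⟩ := ev_herm a hv y hy
    have h0 : ∑ α, l α = 0 := by
      rw [hy0] at hl
      exact_mod_cast hl
    have h := gap_diag a h7 hr hw (hYw Y hY) hmin l h0
    rw [hl2, ← hev] at h
    exact h
  set y : Fin r → Fin r → ℂ := fun j l => (x j l + star (x l j)) / 2 with hyd
  set z : Fin r → Fin r → ℂ := fun j l => -Complex.I * (x j l - star (x l j)) / 2 with hzd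
  have hst2 : star (2 : ℂ) = 2 := Complex.conj_ofNat 2
  have hy : ∀ j l, star (y j l) = y l j := by
    intro j l
    simp only [hyd]
    rw [star_div₀, star_add, star_star, hst2, add_comm]
  have hz : ∀ j l, star (z j l) = z l j := by
    intro j l
    simp only [hzd]
    have hI : star Complex.I = -Complex.I := Complex.conj_I
    rw [star_div₀, star_mul', star_neg, star_sub, star_star, hst2, hI]
    ring
  have hxy : x = fun j l => y j l + Complex.I * z j l := by
    funext j l
    simp only [hyd, hzd]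
    have hI2 : Complex.I * Complex.I = -1 := Complex.I_mul_I
    linear_combination ((x j l - star (x l j)) / 2) * hI2
  have htr2 : ∑ j, star (x j j) = 0 := by
    rw [← star_sum, htr, star_zero]
  have hy0 : ∑ j, y j j = 0 := by
    simp only [hyd]
    rw [← Finset.sum_div, Finset.sum_add_distrib, htr, htr2]
    simp
  have hz0 : ∑ j, z j j = 0 := by
    simp only [hzd]
    rw [← Finset.sum_div, ← Finset.mul_sum, Finset.sum_sub_distrib, htr, htr2]
    simp
  obtain ⟨h1, h2⟩ := ev_split a v y z hy hz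
  have h3 := herm y hy hy0
  have h4 := herm z hz hz0
  rw [hxy, h1]
  change ε7 ^ 2 / 800 * ∑ j, ∑ l, ‖y j l + Complex.I * z j l‖ ^ 2 ≤ _
  rw [h2]
  linarith

end Pool.Agent.PTH
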