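import Mathlib

/-!
# PTH / DdHil: smoothing with a positive contraction (abstract Hilbert space)

`S` symmetric, `0 ≤ ⟨ξ,Sξ⟩ ≤ ‖ξ‖²`.
* `pow_symm`, `pow_pos`: `⟨S^j ξ, η⟩ = ⟨ξ, S^j η⟩`; `⟨ξ, S^{2m} ξ⟩ = ‖S^m ξ‖²`, `⟨ξ, S^{2m+1} ξ⟩ = ⟨S^mξ, S S^mξ⟩ ≥ 0`.
* `sq_le`: `‖Sξ‖² ≤ Re⟨ξ,Sξ⟩` (Cauchy-Schwarz for the semi-inner product `⟨ξ,Sη⟩`:
  `‖Sξ‖⁴ = ⟨ξ, S(Sξ)⟩² ≤ ⟨ξ,Sξ⟩⟨Sξ,S Sξ⟩ ≤ ⟨ξ,Sξ⟩‖Sξ‖²`).  Elementary proof of Cauchy-Schwarz: for real `t`,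
  `0 ≤ ⟨ξ + tη, S(ξ + tη)⟩` with `η = Sξ`: discriminant.  Hence `‖Sξ‖ ≤ ‖ξ‖`, and the same for `S^k`
  (`S^k` is symmetric and positive; `⟨ξ,S^kξ⟩ ≤ ‖ξ‖²` by `‖S^k ξ‖ ≤ ‖ξ‖`): `‖S^kξ‖² ≤ Re⟨ξ,S^kξ⟩`.
* Let `E_j = Re⟨S^jξ, S^jξ - S^{j+1}ξ⟩`.  `E_{j+1} = ⟨S²η,η⟩-⟨S³η,η⟩` with `η = S^jξ` and
  `⟨S(1-S)Sη,η⟩ ≤ ⟨S(1-S)η,η⟩` (difference `= ⟨S(1-S)(1-S)η,η⟩ = ⟨S(1-S)η,(1-S)η⟩ ≥ 0`) `= E_j - ‖η-Sη‖²`.
  With the hypothesis `ν E_j ≤ ‖S^jξ - S^{j+1}ξ‖² + E`: `E_{j+1} ≤ (1-ν)E_j + E` for `j < k`; induction: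
  `E_j ≤ (1-ν)^j E_0 + E/ν` (`∑ (1-ν)^i ≤ 1/ν`), `j ≤ k`: this is `smooth_en`.
* `smooth_dist`: `‖ξ-S^kξ‖² = ‖ξ‖² - 2Re⟨ξ,S^kξ⟩ + ‖S^kξ‖² ≤ ‖ξ‖² - ‖S^kξ‖² = ∑_{j<k} (‖S^jξ‖² - ‖S^{j+1}ξ‖²)` and
  `‖η‖² - ‖Sη‖² = ⟨(1-S)(1+S)η,η⟩ = E(η) + ⟨(1-S)η,Sη⟩ ≤ 2⟨(1-S)η,η⟩` as `⟨η,Sη⟩ - ‖Sη‖² ≤ ⟨η,η⟩ - ⟨η,Sη⟩` (this is
  `‖η - Sη‖² ≥ 0`).  So `≤ 2 ∑_{j<k} E_j ≤ 2(E_0 ∑(1-ν)^j + kE/ν) ≤ (2/ν)E_0 + 2kE/ν`.
-/

open scoped InnerProductSpace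

namespace Pool.Agent.PTH

variable {H : Type*} [NormedAddCommGroup H] [InnerProductSpace ℂ H]

private theorem re_self (x : H) : (⟪x, x⟫_ℂ).re = ‖x‖ ^ 2 := by
  rw [inner_self_eq_norm_sq_to_K]
  norm_cast

private theorem re_comm (x y : H) : (⟪x, y⟫_ℂ).re = (⟪y, x⟫_ℂ).re := by
  rw [← inner_conj_symm, Complex.conj_re]

private theorem norm_sub_sq' (x y : H) :
    ‖x - y‖ ^ 2 = ‖x‖ ^ 2 - 2 * (⟪x, y⟫_ℂ).re + ‖y‖ ^ 2 := by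
  have h := norm_sub_sq (𝕜 := ℂ) x y
  exact h

section

variable (S : H →L[ℂ] H) (hs : ∀ x y : H, ⟪S x, y⟫_ℂ = ⟪x, S y⟫_ℂ)
  (h0 : ∀ x : H, 0 ≤ (⟪x, S x⟫_ℂ).re) (h1 : ∀ x : H, (⟪x, S x⟫_ℂ).re ≤ ‖x‖ ^ 2)

include hs h0 h1

omit h1 in
/-- `0 ≤ ⟨x - S x, S (x - S x)⟩` -/
private theorem hil_key (x : H) :
    2 * ‖S x‖ ^ 2 ≤ (⟪x, S x⟫_ℂ).re + (⟪S x, S (S x)⟫_ℂ).re := by
  have h := h0 (x - S x)
  rw [map_sub, inner_sub_left, inner_sub_right, inner_sub_right] at h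
  simp only [Complex.sub_re] at h
  have e1 : (⟪x, S (S x)⟫_ℂ).re = ‖S x‖ ^ 2 := by rw [← hs, re_self]
  rw [e1, re_self] at h
  linarith

theorem hil_sq_le (x : H) : ‖S x‖ ^ 2 ≤ (⟪x, S x⟫_ℂ).re := by
  have h := hil_key S hs h0 x
  have h2 := h1 (S x)
  linarith

theorem hil_norm_le (x : H) : ‖S x‖ ≤ ‖x‖ := by
  have h := (hil_sq_le S hs h0 h1 x).trans (h1 x)
  exact (sq_le_sq₀ (norm_nonneg _) (norm_nonneg _)).1 h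

theorem hil_pow_norm_le (k : ℕ) (x : H) : ‖(S ^ k) x‖ ≤ ‖x‖ := by
  induction k with
  | zero => exact le_rfl
  | succ k ih =>
    have e : (S ^ (k + 1)) x = S ((S ^ k) x) := by rw [pow_succ']; rfl
    rw [e]
    exact (hil_norm_le S hs h0 h1 _).trans ih

omit h0 h1 in
private theorem hil_pow_symm (k : ℕ) (x y : H) : ⟪(S ^ k) x, y⟫_ℂ = ⟪x, (S ^ k) y⟫_ℂ := by
  induction k generalizing x with
  | zero => rfl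
  | succ k ih =>
    have e : (S ^ (k + 1)) x = (S ^ k) (S x) := by rw [pow_succ]; rfl
    have e' : (S ^ (k + 1)) y = S ((S ^ k) y) := by rw [pow_succ']; rfl
    rw [e, e', ih, hs]

omit h1 in
private theorem hil_pow_pos (k : ℕ) (x : H) : 0 ≤ (⟪x, (S ^ k) x⟫_ℂ).re := by
  rcases Nat.even_or_odd' k with ⟨m, hm | hm⟩
  · have e : (S ^ k) x = (S ^ m) ((S ^ m) x) := by
      rw [hm, two_mul, pow_add]
      rfl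
    rw [e, ← hil_pow_symm S hs, re_self]
    exact sq_nonneg _
  · have e : (S ^ k) x = (S ^ m) (S ((S ^ m) x)) := by
      rw [hm, two_mul, add_assoc, pow_add, pow_succ']
      rfl
    rw [e, ← hil_pow_symm S hs]
    exact h0 _

theorem hil_pow_sq_le (k : ℕ) (x : H) : ‖(S ^ k) x‖ ^ 2 ≤ (⟪x, (S ^ k) x⟫_ℂ).re := by
  refine hil_sq_le (S ^ k) (hil_pow_symm S hs k) (hil_pow_pos S hs h0 k) (fun y => ?_) x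
  have e1 : (⟪y, (S ^ k) y⟫_ℂ).re ≤ ‖y‖ * ‖(S ^ k) y‖ :=
    (Complex.re_le_norm _).trans (norm_inner_le_norm y _)
  have e2 := mul_le_mul_of_nonneg_left (hil_pow_norm_le S hs h0 h1 k y) (norm_nonneg y)
  rw [sq]
  exact e1.trans e2

omit h1 in
/-- the energy decreases -/
private theorem hil_step (y : H) :
    (⟪S y, S y - S (S y)⟫_ℂ).re ≤ (⟪y, y - S y⟫_ℂ).re - ‖y - S y‖ ^ 2 := by
  have h := hil_key S hs h0 y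
  rw [inner_sub_right, inner_sub_right, Complex.sub_re, Complex.sub_re, re_self, re_self,
    norm_sub_sq']
  linarith

theorem smooth_en (x : H) (k : ℕ) {ν E : ℝ} (hν : 0 < ν) (hν1 : ν ≤ 1) (hE : 0 ≤ E)
    (H' : ∀ j < k, ν * (⟪(S ^ j) x, (S ^ j) x - (S ^ (j + 1)) x⟫_ℂ).re ≤
      ‖(S ^ j) x - (S ^ (j + 1)) x‖ ^ 2 + E) :
    (⟪(S ^ k) x, (S ^ k) x - (S ^ (k + 1)) x⟫_ℂ).re ≤
      (1 - ν) ^ k * (⟪x, x - S x⟫_ℂ).re + E / ν := by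
  have hsucc : ∀ j : ℕ, (S ^ (j + 1)) x = S ((S ^ j) x) := fun j => by rw [pow_succ']; rfl
  induction k with
  | zero =>
    have e1 : (S ^ 0) x = x := rfl
    have e2 : (S ^ (0 + 1)) x = S x := by rw [zero_add, pow_one]
    rw [e2, e1, pow_zero, one_mul]
    have : 0 ≤ E / ν := by positivity
    linarith
  | succ k ih =>
    have h2 := ih fun j hj => H' j (by omega)
    have h3 := H' k (by omega)
    have h4 := hil_step S hs h0 ((S ^ k) x)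
    rw [hsucc k] at h2 h3
    rw [hsucc (k + 1), hsucc k]
    have h5 : (⟪S ((S ^ k) x), S ((S ^ k) x) - S (S ((S ^ k) x))⟫_ℂ).re ≤
        (1 - ν) * (⟪(S ^ k) x, (S ^ k) x - S ((S ^ k) x)⟫_ℂ).re + E := by
      linarith
    have h6 := mul_le_mul_of_nonneg_left h2 (sub_nonneg.2 hν1)
    have h7 : (1 - ν) * ((1 - ν) ^ k * (⟪x, x - S x⟫_ℂ).re + E / ν) + E =
        (1 - ν) ^ (k + 1) * (⟪x, x - S x⟫_ℂ).re + E / ν := by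
      field_simp
      ring
    linarith

theorem smooth_dist (x : H) (k : ℕ) {ν E : ℝ} (hν : 0 < ν) (hν1 : ν ≤ 1) (hE : 0 ≤ E)
    (H' : ∀ j < k, ν * (⟪(S ^ j) x, (S ^ j) x - (S ^ (j + 1)) x⟫_ℂ).re ≤
      ‖(S ^ j) x - (S ^ (j + 1)) x‖ ^ 2 + E) :
    ‖x - (S ^ k) x‖ ^ 2 ≤ 2 / ν * (⟪x, x - S x⟫_ℂ).re + 2 * k * E / ν := by
  have hsucc : ∀ j : ℕ, (S ^ (j + 1)) x = S ((S ^ j) x) := fun j => by rw [pow_succ']; rfl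
  have hE0 : 0 ≤ (⟪x, x - S x⟫_ℂ).re := by
    rw [inner_sub_right, Complex.sub_re, re_self]
    have := h1 x
    linarith
  have main : ‖x‖ ^ 2 - ‖(S ^ k) x‖ ^ 2 ≤
      2 * ((1 - (1 - ν) ^ k) / ν) * (⟪x, x - S x⟫_ℂ).re + 2 * k * E / ν := by
    induction k with
    | zero =>
      have e1 : (S ^ 0) x = x := rfl
      rw [e1, pow_zero]
      simp
    | succ k ih =>
      have h2 := ih fun j hj => H' j (by omega)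
      have h3 := smooth_en S hs h0 h1 x k hν hν1 hE fun j hj => H' j (by omega)
      rw [hsucc k] at h3
      rw [hsucc k]
      have h4 : ‖(S ^ k) x‖ ^ 2 - ‖S ((S ^ k) x)‖ ^ 2 ≤
          2 * (⟪(S ^ k) x, (S ^ k) x - S ((S ^ k) x)⟫_ℂ).re := by
        have h5 := norm_sub_sq' ((S ^ k) x) (S ((S ^ k) x))
        have h6 := sq_nonneg ‖(S ^ k) x - S ((S ^ k) x)‖
        rw [inner_sub_right, Complex.sub_re, re_self]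
        linarith
      have h7 : 2 * ((1 - (1 - ν) ^ (k + 1)) / ν) * (⟪x, x - S x⟫_ℂ).re +
          2 * ((k + 1 : ℕ) : ℝ) * E / ν =
          (2 * ((1 - (1 - ν) ^ k) / ν) * (⟪x, x - S x⟫_ℂ).re + 2 * k * E / ν) +
            2 * ((1 - ν) ^ k * (⟪x, x - S x⟫_ℂ).re + E / ν) := by
        push_cast
        field_simp
        ring
      rw [h7]
      linarith
  have h2 := hil_pow_sq_le S hs h0 h1 k x
  have h3 := norm_sub_sq' x ((S ^ k) x)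
  have h4 : 2 * ((1 - (1 - ν) ^ k) / ν) * (⟪x, x - S x⟫_ℂ).re ≤
      2 / ν * (⟪x, x - S x⟫_ℂ).re := by
    refine mul_le_mul_of_nonneg_right ?_ hE0
    have h5 : 0 ≤ (1 - ν) ^ k := pow_nonneg (sub_nonneg.2 hν1) k
    rw [← mul_div_assoc]
    exact div_le_div_of_nonneg_right (by linarith) hν.le
  linarith

end

end Pool.Agent.PTH
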