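import Pool.Agent.PTH.DdCo
import Pool.Agent.PTH.DdLev

/-!
# PTH / DdMin: a very good subspace of almost minimal dimension (8.1)

Constants: `ε7 = ν/160000`; `k` with `9 (1-ν)^k ≤ (ε/4)²/2·...`, precisely `(1-ν)^k ε7 ≤ (ε/4)²/2` (if `ν = 1`
take `k = 1`), `e' = min (ν/(160000 k), ν (ε/4)²/2)` (`k ≥ 1`).
`r_0` = the least `r ≥ 1` with `PP a Y ε7 r` (`Nat.find`), `x` = the family; `fam_ON`: `fT = fS = r_0`,
`fE x = Dv ≤ ε7 r_0`, `fB x`.  `fam_smooth` gives `x'`: `fE x' ≤ ((1-ν)^k ε7 + e'/ν) r_0 =: sg r_0`, `√sg ≤ ε/4`;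
`2/ν fE x + 2ke'/ν fS x ≤ (2/ν)(ε7 + ke') r_0 ≤ r_0/40000`, so `√(fS x') ≥ √r_0 (1 - 1/200)`; `fT x' ≤ r_0`.
`fam_spec` for `x'`: `w` orthonormal in `Y A`, `0 < l_α ≤ 1`, `T := ∑ l_α ≤ r_0`,
`S := ∑ l_α² ≥ (199/200)² r_0`, also `S ≤ T ≤ r_0`, `qC (Cm a w) l = fE x' ≤ sg r_0`.
`lev_window`: `t ∈ [1/4,3/4]` with `dC (lev l t) ≤ 3 √S √(sg r_0) ≤ 3 r_0 √sg`.
`r := card (lev l t)`:  for every `α`: `1_{l_α>t} ≤ l_α + 4(l_α - l_α²)` and `≥ l_α - 4(l_α - l_α²)` (two cases each,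
using `l_α > 1/4` resp. `l_α ≤ 3/4`, `0 ≤ l_α ≤ 1`: `nlinarith`).  Sum:
`T - 4(T-S) ≤ r ≤ T + 4(T-S)`.  `T - S ≤ r_0 - (199/200)² r_0 ≤ r_0/100`.  So `r ≤ (1 + 1/25) r_0` and
`r ≥ S - 4(T-S) ≥ (99/100 - 1/25) r_0 ≥ (19/20) r_0 > 0`, so `r ≥ 1`.  `Dv_sub` gives `v`, `Y v = v`,
`Dv a v = dC .. ≤ 3 r_0 √sg ≤ 3 (20/19) r ε/4 ≤ ε r`.  If `m ≥ 1` and `PP a Y ε7 m` then `m ≥ r_0 ≥ (25/26) r ≥ (19/20) r`.
-/

open Filter Topology
open scoped InnerProductSpace ComplexOrder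

universe u

namespace Pool.Agent.PTH

/-- Counting the indices of a level set. -/
private theorem card_lev_bd {d : ℕ} {l : Fin d → ℝ} (h0 : ∀ α, 0 < l α) (h1 : ∀ α, l α ≤ 1)
    {t : ℝ} (ht : 1 / 4 ≤ t) (ht' : t ≤ 3 / 4) :
    (∑ α, l α) - 4 * ((∑ α, l α) - ∑ α, l α ^ 2) ≤ ((lev l t).card : ℝ) ∧
      ((lev l t).card : ℝ) ≤ (∑ α, l α) + 4 * ((∑ α, l α) - ∑ α, l α ^ 2) := by
  classical
  have hc : ((lev l t).card : ℝ) = ∑ α, if t < l α then (1 : ℝ) else 0 := by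
    unfold lev
    rw [Finset.card_filter]
    push_cast
    exact Finset.sum_congr rfl fun α _ => by congr
  rw [hc, ← Finset.sum_sub_distrib, Finset.mul_sum, ← Finset.sum_sub_distrib,
    ← Finset.sum_add_distrib]
  constructor
  · refine Finset.sum_le_sum fun α _ => ?_
    split_ifs with h
    · nlinarith [h0 α, h1 α, mul_nonneg (h0 α).le (sub_nonneg.2 (h1 α))]
    · have h2 : l α ≤ 3 / 4 := (not_lt.1 h).trans ht'
      nlinarith [h0 α, h1 α, mul_nonneg (h0 α).le (sub_nonneg.2 h2)]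
  · refine Finset.sum_le_sum fun α _ => ?_
    split_ifs with h
    · have h2 : 1 / 4 ≤ l α := ht.trans h.le
      nlinarith [mul_nonneg (sub_nonneg.2 (h1 α)) (sub_nonneg.2 h2)]
    · nlinarith [h0 α, h1 α, mul_nonneg (h0 α).le (sub_nonneg.2 (h1 α))]

theorem dd_min {ν : ℝ} (hν : 0 < ν) (hν1 : ν ≤ 1) {ε : ℝ} (hε : 0 < ε) :
    ∃ e' > 0, ∀ (A : Type u) [CStarAlgebra A] [PartialOrder A] [StarOrderedRing A]
      [TracialVN A] (a : Avg A) (Y : A) (K : CoB A), Prj Y → HG a Y ν e' →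
      (∃ r ≥ 1, PP a Y (ν / 160000) r) →
      ∃ r ≥ 1, ∃ v : Fin r → A, ON v ∧ (∀ j, Y * v j = v j) ∧ Dv a v ≤ ε * r ∧
        ∀ m ≥ 1, PP a Y (ν / 160000) m → (19 / 20 : ℝ) * r ≤ m := by
  have hq : 0 < (ε / 4) ^ 2 / 2 := by positivity
  have he7 : 0 < ν / 160000 := by positivity
  obtain ⟨n, hn⟩ := exists_pow_lt_of_lt_one (div_pos hq he7) (show 1 - ν < 1 by linarith)
  have h1ν : 0 ≤ 1 - ν := by linarith
  have hk : (1 - ν) ^ (n + 1) * (ν / 160000) ≤ (ε / 4) ^ 2 / 2 := by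
    have h1 : (1 - ν) ^ n * (ν / 160000) < (ε / 4) ^ 2 / 2 := by
      rwa [lt_div_iff₀ he7] at hn
    have h2 : (1 - ν) ^ (n + 1) ≤ (1 - ν) ^ n :=
      pow_le_pow_of_le_one h1ν (by linarith) (Nat.le_succ n)
    exact (mul_le_mul_of_nonneg_right h2 he7.le).trans h1.le
  have hkp : (0 : ℝ) < ((n + 1 : ℕ) : ℝ) := by positivity
  set k : ℕ := n + 1 with hkdef
  set e' : ℝ := min (ν / (160000 * k)) (ν * ((ε / 4) ^ 2 / 2)) with he'
  have he'pos : 0 < e' := lt_min (by positivity) (by positivity)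
  have he1 : 2 * k * e' / ν ≤ 1 / 80000 := by
    have h1 : e' ≤ ν / (160000 * k) := min_le_left _ _
    rw [div_le_iff₀ hν]
    calc 2 * k * e' ≤ 2 * k * (ν / (160000 * k)) := by
          exact mul_le_mul_of_nonneg_left h1 (by positivity)
      _ = 1 / 80000 * ν := by
          field_simp
          norm_num
  have he2 : e' / ν ≤ (ε / 4) ^ 2 / 2 := by
    have h1 : e' ≤ ν * ((ε / 4) ^ 2 / 2) := min_le_right _ _
    rw [div_le_iff₀ hν]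
    linarith
  refine ⟨e', he'pos, ?_⟩
  intro A _ _ _ _ a Y K hY hg hex
  classical
  set r0 : ℕ := Nat.find hex with hr0
  obtain ⟨hr1, x, hON, hYx, hDv⟩ : r0 ≥ 1 ∧ PP a Y (ν / 160000) r0 := Nat.find_spec hex
  have hmin : ∀ m ≥ 1, PP a Y (ν / 160000) m → r0 ≤ m := fun m h1 h2 =>
    Nat.find_min' hex ⟨h1, h2⟩
  have hr0p : (1 : ℝ) ≤ (r0 : ℝ) := by exact_mod_cast hr1
  obtain ⟨hfT, hfS, hfE, hfB⟩ := fam_ON a hON
  obtain ⟨m', x', hYx', -, hE', hS', hT', hB'⟩ :=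
    fam_smooth K a hY hν hν1 he'pos.le hg x hYx k
  obtain ⟨d, w, l, hw, hl0, hlY, hlT, hlS, hlE, hlB⟩ := fam_spec a x'
  have hl1 := hlB (hB' hfB)
  have hwY := hlY Y hYx'
  rw [hfS, hfE] at hE' hS'
  rw [hfT] at hT'
  rw [hlS] at hS'
  rw [hlE] at hE'
  rw [hlT] at hT'
  -- the energy
  have hqE : qC (Cm a w) l ≤ (ε / 4) ^ 2 * r0 := by
    have h1 : (1 - ν) ^ k * Dv a x ≤ (ε / 4) ^ 2 / 2 * r0 := by
      calc (1 - ν) ^ k * Dv a x ≤ (1 - ν) ^ k * (ν / 160000 * r0) :=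
            mul_le_mul_of_nonneg_left hDv (pow_nonneg h1ν k)
        _ = (1 - ν) ^ k * (ν / 160000) * r0 := by ring
        _ ≤ (ε / 4) ^ 2 / 2 * r0 := mul_le_mul_of_nonneg_right hk (by positivity)
    have h2 : e' / ν * r0 ≤ (ε / 4) ^ 2 / 2 * r0 :=
      mul_le_mul_of_nonneg_right he2 (by positivity)
    linarith
  -- the Hilbert-Schmidt norm
  have hSS : Real.sqrt (∑ α, l α ^ 2) ≥ 199 / 200 * Real.sqrt r0 := by
    have h1 : 2 / ν * Dv a x + 2 * k * e' / ν * r0 ≤ (1 / 200) ^ 2 * r0 := by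
      have h2 : 2 / ν * Dv a x ≤ 2 / ν * (ν / 160000 * r0) :=
        mul_le_mul_of_nonneg_left hDv (by positivity)
      have h3 : 2 / ν * (ν / 160000 * r0) = 1 / 80000 * r0 := by
        field_simp
        norm_num
      have h4 : 2 * k * e' / ν * r0 ≤ 1 / 80000 * r0 :=
        mul_le_mul_of_nonneg_right he1 (by positivity)
      linarith
    have h5 : Real.sqrt (2 / ν * Dv a x + 2 * k * e' / ν * r0) ≤ 1 / 200 * Real.sqrt r0 := by
      refine (Real.sqrt_le_sqrt h1).trans ?_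
      rw [Real.sqrt_mul (by positivity), Real.sqrt_sq (by positivity)]
    linarith
  have hS : (199 / 200) ^ 2 * (r0 : ℝ) ≤ ∑ α, l α ^ 2 := by
    have h0 : 0 ≤ ∑ α, l α ^ 2 := Finset.sum_nonneg fun α _ => sq_nonneg _
    have h1 : (199 / 200 * Real.sqrt r0) ^ 2 ≤ Real.sqrt (∑ α, l α ^ 2) ^ 2 :=
      pow_le_pow_left₀ (by positivity) hSS 2
    rw [mul_pow, Real.sq_sqrt (by positivity), Real.sq_sqrt h0] at h1
    exact h1
  have hST : ∑ α, l α ^ 2 ≤ ∑ α, l α := by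
    refine Finset.sum_le_sum fun α _ => ?_
    nlinarith [hl0 α, hl1 α, mul_nonneg (hl0 α).le (sub_nonneg.2 (hl1 α))]
  obtain ⟨t, ht1, ht2, htC⟩ := lev_window (DS_Cm a hw) (fun α => (hl0 α).le)
  obtain ⟨hc1, hc2⟩ := card_lev_bd hl0 hl1 ht1 ht2
  obtain ⟨v, hv, hvw, hvD⟩ := Dv_sub a hw (lev l t)
  have hlow : 19 / 20 * (r0 : ℝ) ≤ ((lev l t).card : ℝ) := by
    norm_num at hS
    linarith
  have hupp : ((lev l t).card : ℝ) ≤ 26 / 25 * (r0 : ℝ) := by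
    norm_num at hS
    linarith
  refine ⟨(lev l t).card, ?_, v, hv, ?_, ?_, ?_⟩
  · have h1 : (0 : ℝ) < ((lev l t).card : ℝ) := by linarith
    have h2 : 0 < (lev l t).card := by exact_mod_cast h1
    exact h2
  · intro j
    obtain ⟨α, -, hα⟩ := hvw j
    rw [hα]
    exact hwY α
  · rw [hvD]
    refine htC.trans ?_
    have h1 : Real.sqrt (∑ α, l α ^ 2) ≤ Real.sqrt r0 := Real.sqrt_le_sqrt (hST.trans hT')
    have h2 : Real.sqrt (qC (Cm a w) l) ≤ ε / 4 * Real.sqrt r0 := by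
      refine (Real.sqrt_le_sqrt hqE).trans ?_
      rw [Real.sqrt_mul (by positivity), Real.sqrt_sq (by positivity)]
    have h3 : 3 * Real.sqrt (∑ α, l α ^ 2) * Real.sqrt (qC (Cm a w) l) ≤
        3 * Real.sqrt r0 * (ε / 4 * Real.sqrt r0) := by
      refine mul_le_mul (mul_le_mul_of_nonneg_left h1 (by norm_num)) h2 (Real.sqrt_nonneg _)
        (by positivity)
    have h4 : 3 * Real.sqrt r0 * (ε / 4 * Real.sqrt r0) = 3 / 4 * (ε * r0) := by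
      have h5 : Real.sqrt r0 * Real.sqrt r0 = r0 := Real.mul_self_sqrt (by positivity)
      calc 3 * Real.sqrt r0 * (ε / 4 * Real.sqrt r0)
          = 3 / 4 * (ε * (Real.sqrt r0 * Real.sqrt r0)) := by ring
        _ = 3 / 4 * (ε * r0) := by rw [h5]
    rw [h4] at h3
    have h6 : ε * (19 / 20 * (r0 : ℝ)) ≤ ε * ((lev l t).card : ℝ) :=
      mul_le_mul_of_nonneg_left hlow hε.le
    have h7 : 0 ≤ ε * (r0 : ℝ) := by positivity
    linarith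
  · intro m h1 h2
    have h3 : (r0 : ℝ) ≤ (m : ℝ) := by exact_mod_cast hmin m h1 h2
    linarith

end Pool.Agent.PTH
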