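import Pool.Agent.PTH.MxEnt

/-!
# PTH / MxSc: scalar matrices, diagonal matrices and rows in `CStarMatrix ι ι A`
-/

open Filter Topology

set_option linter.unusedSectionVars false

namespace Pool.Agent.PTH

variable {A : Type*} [CStarAlgebra A] [PartialOrder A] [StarOrderedRing A]
  {ι : Type*} [Fintype ι] [DecidableEq ι]

namespace Mx

/-- Scalar matrices. -/
noncomputable def sc (θ : Matrix ι ι ℂ) : CStarMatrix ι ι A :=
  CStarMatrix.ofMatrix fun j l => θ j l • (1 : A)

theorem sc_apply (θ : Matrix ι ι ℂ) (j l : ι) : (sc θ : CStarMatrix ι ι A) j l = θ j l • (1 : A) :=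
  rfl

theorem star_sc (θ : Matrix ι ι ℂ) : star (sc θ : CStarMatrix ι ι A) = sc θ.conjTranspose := by
  rw [← CStarMatrix.ext_iff]
  intro i j
  rw [star_apply', sc_apply, sc_apply, star_smul, star_one, Matrix.conjTranspose_apply]

theorem mul_sc_apply (M : CStarMatrix ι ι A) (θ : Matrix ι ι ℂ) (i j : ι) :
    (M * (sc θ : CStarMatrix ι ι A)) i j = ∑ l, θ l j • M i l := by
  rw [CStarMatrix.mul_apply]
  refine Finset.sum_congr rfl fun l _ => ?_
  rw [sc_apply, mul_smul_comm, mul_one]

theorem sc_mul_apply (M : CStarMatrix ι ι A) (θ : Matrix ι ι ℂ) (i j : ι) :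
    ((sc θ : CStarMatrix ι ι A) * M) i j = ∑ l, θ i l • M l j := by
  rw [CStarMatrix.mul_apply]
  refine Finset.sum_congr rfl fun l _ => ?_
  rw [sc_apply, smul_mul_assoc, one_mul]

theorem sc_mul_sc (θ η : Matrix ι ι ℂ) :
    (sc θ : CStarMatrix ι ι A) * sc η = sc (θ * η) := by
  rw [← CStarMatrix.ext_iff]
  intro i j
  rw [sc_mul_apply, sc_apply, Matrix.mul_apply, Finset.sum_smul]
  refine Finset.sum_congr rfl fun l _ => ?_
  rw [sc_apply, mul_smul]

theorem sc_one : (sc 1 : CStarMatrix ι ι A) = 1 := by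
  rw [← CStarMatrix.ext_iff]
  intro i j
  rw [sc_apply, CStarMatrix.one_apply, Matrix.one_apply]
  by_cases h : i = j
  · rw [if_pos h, if_pos h, one_smul]
  · rw [if_neg h, if_neg h, zero_smul]

/-- Diagonal matrices with constant diagonal. -/
noncomputable def dg (u : A) : CStarMatrix ι ι A :=
  CStarMatrix.ofMatrix fun j l => if j = l then u else 0

theorem dg_apply (u : A) (j l : ι) : (dg u : CStarMatrix ι ι A) j l = if j = l then u else 0 := rfl

theorem dg_mul_apply (u : A) (M : CStarMatrix ι ι A) (i j : ι) :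
    ((dg u : CStarMatrix ι ι A) * M) i j = u * M i j := by
  rw [CStarMatrix.mul_apply, Finset.sum_eq_single i]
  · rw [dg_apply, if_pos rfl]
  · intro m _ hm
    rw [dg_apply, if_neg (Ne.symm hm), zero_mul]
  · intro h
    exact absurd (Finset.mem_univ i) h

theorem star_dg (u : A) : star (dg u : CStarMatrix ι ι A) = dg (star u) := by
  rw [← CStarMatrix.ext_iff]
  intro i j
  rw [star_apply', dg_apply, dg_apply]
  by_cases h : i = j
  · rw [if_pos h, if_pos h.symm]
  · rw [if_neg h, if_neg (Ne.symm h), star_zero]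

theorem dg_mul_dg (u w : A) : (dg u : CStarMatrix ι ι A) * dg w = dg (u * w) := by
  rw [← CStarMatrix.ext_iff]
  intro i j
  rw [dg_mul_apply, dg_apply, dg_apply, mul_ite, mul_zero]

theorem dg_one : (dg 1 : CStarMatrix ι ι A) = 1 := by
  rw [← CStarMatrix.ext_iff]
  intro i j
  rw [dg_apply, CStarMatrix.one_apply]

/-- The matrix with `i0`-th row `v`, all other entries zero. -/
noncomputable def rw' (i0 : ι) (v : ι → A) : CStarMatrix ι ι A :=
  CStarMatrix.ofMatrix fun i j => if i0 = i then v j else 0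

theorem rw'_apply (i0 : ι) (v : ι → A) (i j : ι) : rw' i0 v i j = if i0 = i then v j else 0 := rfl

theorem star_rw'_mul (i0 : ι) (v w : ι → A) (i j : ι) :
    (star (rw' i0 v) * rw' i0 w) i j = star (v i) * w j := by
  rw [CStarMatrix.mul_apply, Finset.sum_eq_single i0]
  · rw [star_apply', rw'_apply, rw'_apply, if_pos rfl, if_pos rfl]
  · intro m _ hm
    rw [rw'_apply, if_neg (Ne.symm hm), mul_zero]
  · intro h
    exact absurd (Finset.mem_univ i0) h

theorem eq_rw' {i0 : ι} {M : CStarMatrix ι ι A} (h : ent i0 i0 1 * M = M) :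
    M = rw' i0 fun j => M i0 j := by
  rw [← CStarMatrix.ext_iff]
  intro i j
  rw [rw'_apply]
  have h1 := congrArg (fun Z : CStarMatrix ι ι A => Z i j) h
  simp only [ent_mul_apply, one_mul] at h1
  exact h1.symm

theorem sum_row [TrAlg A] {i0 : ι} {M : CStarMatrix ι ι A} (h : ∀ i, i0 ≠ i → ∀ j, M i j = 0) :
    ∑ i, ∑ j, two (M i j) ^ 2 = ∑ j, two (M i0 j) ^ 2 := by
  rw [Finset.sum_eq_single i0]
  · intro m _ hm
    refine Finset.sum_eq_zero fun j _ => ?_
    rw [h m (Ne.symm hm), two_zero]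
    ring
  · intro h
    exact absurd (Finset.mem_univ i0) h

end Mx

end Pool.Agent.PTH
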