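import Pool.Agent.PTH.DdTb
import Pool.Agent.PTH.DdDef
import Pool.Agent.PTH.MxSc

/-!
# PTH / DdMx: polar decomposition of a row, Powers-Stormer for rows

Work in `M = CStarMatrix (Fin r) (Fin r) A`, a tracial von Neumann algebra with
`τ(M) = r⁻¹ ∑ τ(M_jj)` (module MxBall of helper86; `NeZero r` from `1 ≤ r`), `‖M‖₂² = r⁻¹ ∑ ‖M_jl‖₂²`.
Let `V ∈ M` have first row `v` and all other rows zero: `(V*V)_jl = v_j* v_l`.  `dd_polar` for `V`:
`V = U' H`, `H ≥ 0`, `H² = V*V`, `U'*U'` a projection with `U'*U' H = H`, and `ZV = 0 ⇒ ZU' = 0`.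
`Z = 1 - e_00` gives that only the first row `U_l = U'_0l` of `U'` is non-zero, so `(U'*U')_jl = U_j* U_l`;
for `z ∈ A` with `z v_j = 0` take `Z = z e_00`.  `∑ U_j U_j* = (U'U'*)_00 ≤ 1` because `‖U'‖ ≤ 1` (a partial
isometry: `U'U'*` is a projection or has norm `≤ 1`, and the `(0,0)` entry of `1 - U'U'* ≥ 0` is `≥ 0`).
`H_jl* = H_lj` as `H` is self-adjoint; `∑ H_jj ≥ 0`: every `H_jj ≥ 0` (entry of a positive matrix).
Powers-Stormer: `θ ∈ M_r(ℂ) ⊂ M` unitary, `u ∈ A` unitary, `u 1 ∈ M`: `(Vθ)*(Vθ) = θ*Gθ = (θ*Hθ)²`,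
`(uV)*(uV) = G`, `G = H²`; `dd_ps` with `x = H`, `y = θ*Hθ`, and `dd_one_sub` with `x = uV`, `y = Vθ`:
`‖H - θ*Hθ‖₂² ≤ ‖G - θ*Gθ‖₁ ≤ (‖uV‖₂ + ‖Vθ‖₂)‖uV - Vθ‖₂ = 2‖V‖₂‖uV - Vθ‖₂`; multiply by `r`:
`∑‖.‖₂² ≤ 2 √(∑‖v_j‖₂²) √(∑‖u v_j - ∑ θ_lj v_l‖₂²)`; `(θ*Hθ)_jl = cj θ* H j l`.
-/

open Filter Topology
open scoped InnerProductSpace ComplexOrder

namespace Pool.Agent.PTH

variable {A : Type*} [CStarAlgebra A] [PartialOrder A] [StarOrderedRing A] [TracialVN A]

set_option linter.unusedSectionVars false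

section generic

variable {N : Type*} [CStarAlgebra N] [PartialOrder N] [StarOrderedRing N] [TracialVN N]

theorem mx_star_eq {H : N} (hH : 0 ≤ H) : star H = H := (IsSelfAdjoint.of_nonneg hH).star_eq

theorem mx_le_one {U : N} (h : Prj (star U * U)) : U * star U ≤ 1 :=
  prj_le_of_mul (piso h).2 prj_one (mul_one _)

theorem mx_conj_nonneg {H : N} (hH : 0 ≤ H) (T : N) : 0 ≤ star T * H * T :=
  star_left_conjugate_nonneg hH T

theorem mx_two_mul_unitary {u V : N} (h : star u * u = 1) : two (u * V) = two V := by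
  unfold two
  have e : star (u * V) * (u * V) = star V * (star u * u) * V := by
    rw [star_mul]
    noncomm_ring
  rw [e, h, mul_one]

/-- Powers-Stormer for polar parts. -/
theorem mx_ps {V H T u : N} (hH : 0 ≤ H) (hV : H * H = star V * V) (hT : T * star T = 1)
    (hu : star u * u = 1) :
    two (H - star T * H * T) ^ 2 ≤ 2 * two V * two (u * V - V * T) := by
  have h1 := dd_ps hH (mx_conj_nonneg hH T)
  have e1 : star T * H * T * (star T * H * T) = star (V * T) * (V * T) := by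
    have : star T * H * T * (star T * H * T) = star T * H * (T * star T) * H * T := by
      noncomm_ring
    rw [this, hT, mul_one, star_mul]
    have : star T * H * H * T = star T * (H * H) * T := by noncomm_ring
    rw [this, hV]
    noncomm_ring
  have e2 : H * H = star (u * V) * (u * V) := by
    rw [hV, star_mul]
    have : star V * star u * (u * V) = star V * (star u * u) * V := by noncomm_ring
    rw [this, hu, mul_one]
  rw [e1, e2] at h1
  have h2 := dd_one_sub (u * V) (V * T)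
  have h3 : two (V * T) = two V := by
    rw [← two_star, star_mul, mx_two_mul_unitary (by rw [star_star]; exact hT), two_star]
  rw [mx_two_mul_unitary hu, h3] at h2
  linarith

end generic

theorem polar_row {r : ℕ} (hr : 1 ≤ r) (v : Fin r → A) :
    ∃ (H : Fin r → Fin r → A) (U : Fin r → A),
      (∀ j l, star (H j l) = H l j) ∧ 0 ≤ ∑ j, H j j ∧
      (∀ j l, ∑ m, H j m * H m l = star (v j) * v l) ∧
      (∀ j, v j = ∑ l, U l * H l j) ∧
      (∀ j l, ∑ m, star (U j) * U m * H m l = H j l) ∧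
      (∀ j l, ∑ m, star (U j) * U m * (star (U m) * U l) = star (U j) * U l) ∧
      ∑ j, U j * star (U j) ≤ 1 ∧
      (∀ z : A, (∀ j, z * v j = 0) → ∀ j, z * U j = 0) ∧
      ∀ (u : A) (θ : Matrix (Fin r) (Fin r) ℂ), star u * u = 1 → u * star u = 1 → Uni θ →
        θ * θ.conjTranspose = 1 →
        ∑ j, ∑ l, two (H j l - cj θ.conjTranspose H j l) ^ 2 ≤
          2 * Real.sqrt (∑ j, two (v j) ^ 2) *
            Real.sqrt (∑ j, two (u * v j - ∑ l, θ l j • v l) ^ 2) := by
  have : NeZero r := ⟨by omega⟩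
  have : Nonempty (Fin r) := ⟨⟨0, hr⟩⟩
  let i0 : Fin r := ⟨0, hr⟩
  let V : CStarMatrix (Fin r) (Fin r) A := Mx.rw' i0 v
  have hVa : ∀ i j, V i j = if i0 = i then v j else 0 := fun _ _ => rfl
  obtain ⟨W, H, hH, hHH, hVW, hP, hPH, hZ⟩ := dd_polar V
  have hV0 : Mx.ent i0 i0 1 * V = V := by
    rw [← CStarMatrix.ext_iff]
    intro i j
    rw [Mx.ent_mul_apply, one_mul, hVa, hVa, if_pos rfl]
  have hW0 : Mx.ent i0 i0 1 * W = W := by
    have h1 := hZ (1 - Mx.ent i0 i0 1) (by rw [sub_mul, one_mul, hV0, sub_self])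
    rw [sub_mul, one_mul, sub_eq_zero] at h1
    exact h1.symm
  have hWr := Mx.eq_rw' hW0
  have hWW : ∀ i j, (star W * W) i j = star (W i0 i) * W i0 j := by
    intro i j
    have h1 := Mx.star_rw'_mul i0 (fun j => W i0 j) (fun j => W i0 j) i j
    rwa [← hWr] at h1
  have hVV : ∀ i j, (star V * V) i j = star (v i) * v j := Mx.star_rw'_mul i0 v v
  refine ⟨fun i j => H i j, fun j => W i0 j, ?_, ?_, ?_, ?_, ?_, ?_, ?_, ?_, ?_⟩
  · intro j l
    have h1 := congrArg (fun Z : CStarMatrix (Fin r) (Fin r) A => Z l j) (mx_star_eq hH)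
    exact h1
  · exact Finset.sum_nonneg fun j _ => Mx.diag_nonneg hH j
  · intro j l
    have h1 := congrArg (fun Z : CStarMatrix (Fin r) (Fin r) A => Z j l) hHH
    simp only [hVV] at h1
    rw [← h1, CStarMatrix.mul_apply]
  · intro j
    have h1 := congrArg (fun Z : CStarMatrix (Fin r) (Fin r) A => Z i0 j) hVW
    simp only [CStarMatrix.mul_apply, hVa, if_true] at h1
    exact h1
  · intro j l
    have h1 := congrArg (fun Z : CStarMatrix (Fin r) (Fin r) A => Z j l) hPH
    rw [CStarMatrix.mul_apply] at h1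
    refine Eq.trans ?_ h1
    exact Finset.sum_congr rfl fun m _ => by rw [hWW]
  · intro j l
    have h1 := congrArg (fun Z : CStarMatrix (Fin r) (Fin r) A => Z j l) hP.2
    rw [CStarMatrix.mul_apply, hWW] at h1
    refine Eq.trans ?_ h1
    exact Finset.sum_congr rfl fun m _ => by rw [hWW, hWW]
  · have h1 := Mx.diag_mono (mx_le_one hP) i0
    rw [CStarMatrix.mul_apply, CStarMatrix.one_apply, if_pos rfl] at h1
    exact h1
  · intro z hz j
    have h1 := hZ (Mx.ent i0 i0 z) (by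
      rw [← CStarMatrix.ext_iff]
      intro i j
      rw [Mx.ent_mul_apply, hVa, if_pos rfl, hz, ite_self]
      rfl)
    have h2 := congrArg (fun Z : CStarMatrix (Fin r) (Fin r) A => Z i0 j) h1
    simp only [Mx.ent_mul_apply, if_true] at h2
    exact h2
  · intro u θ hu _ hθ hθ'
    obtain ⟨S, hS⟩ : ∃ S : CStarMatrix (Fin r) (Fin r) A, S = Mx.sc θ := ⟨_, rfl⟩
    obtain ⟨D, hDD⟩ : ∃ D : CStarMatrix (Fin r) (Fin r) A, D = Mx.dg u := ⟨_, rfl⟩
    have hT : S * star S = 1 := by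
      rw [hS, Mx.star_sc, Mx.sc_mul_sc, hθ', Mx.sc_one]
    have hU : star D * D = 1 := by
      rw [hDD, Mx.star_dg, Mx.dg_mul_dg, hu, Mx.dg_one]
    have h1 := mx_ps hH hHH hT hU
    have hr0 : (0 : ℝ) < r := by exact_mod_cast hr
    have hK : ∀ j l, (star S * H * S) j l = cj θ.conjTranspose (fun i j => H i j) j l := by
      intro j l
      rw [hS, Mx.mul_sc_apply, Mx.star_sc]
      unfold cj
      rw [Finset.sum_comm]
      refine Finset.sum_congr rfl fun l' _ => ?_
      rw [Mx.sc_mul_apply, Finset.smul_sum]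
      refine Finset.sum_congr rfl fun j' _ => ?_
      rw [smul_smul, Matrix.conjTranspose_apply, Matrix.conjTranspose_apply, star_star, mul_comm]
    have hD : ∀ i j, (D * V - V * S) i j =
        if i0 = i then u * v j - ∑ l, θ l j • v l else 0 := by
      intro i j
      change (D * V) i j - (V * S) i j = _
      rw [hDD, hS, Mx.dg_mul_apply, Mx.mul_sc_apply]
      by_cases h : i0 = i
      · rw [if_pos h, hVa, if_pos h]
        congr 1
        exact Finset.sum_congr rfl fun l _ => by rw [hVa, if_pos h]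
      · rw [if_neg h, hVa, if_neg h, mul_zero, zero_sub, neg_eq_zero]
        exact Finset.sum_eq_zero fun l _ => by rw [hVa, if_neg h, smul_zero]
    have e1 : two (H - star S * H * S) ^ 2 =
        (r : ℝ)⁻¹ * ∑ j, ∑ l, two (H j l - cj θ.conjTranspose (fun i j => H i j) j l) ^ 2 := by
      rw [Mx.two_sq_apply, Fintype.card_fin]
      congr 1
      refine Finset.sum_congr rfl fun j _ => Finset.sum_congr rfl fun l _ => ?_
      rw [← hK]
      rfl
    have e2 : two V ^ 2 = (r : ℝ)⁻¹ * ∑ j, two (v j) ^ 2 := by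
      rw [Mx.two_sq_apply, Fintype.card_fin, Mx.sum_row (i0 := i0)]
      · exact congrArg _ (Finset.sum_congr rfl fun j _ => by rw [hVa, if_pos rfl])
      · intro i hi j
        rw [hVa, if_neg hi]
    have e3 : two (D * V - V * S) ^ 2 =
        (r : ℝ)⁻¹ * ∑ j, two (u * v j - ∑ l, θ l j • v l) ^ 2 := by
      rw [Mx.two_sq_apply, Fintype.card_fin, Mx.sum_row (i0 := i0)]
      · exact congrArg _ (Finset.sum_congr rfl fun j _ => by rw [hD, if_pos rfl])
      · intro i hi j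
        rw [hD, if_neg hi]
    have f2 : two V = Real.sqrt ((r : ℝ)⁻¹) * Real.sqrt (∑ j, two (v j) ^ 2) := by
      rw [← Real.sqrt_mul (by positivity), ← e2, Real.sqrt_sq (two_nonneg _)]
    have f3 : two (D * V - V * S) = Real.sqrt ((r : ℝ)⁻¹) *
        Real.sqrt (∑ j, two (u * v j - ∑ l, θ l j • v l) ^ 2) := by
      rw [← Real.sqrt_mul (by positivity), ← e3, Real.sqrt_sq (two_nonneg _)]
    rw [e1, f2, f3] at h1
    have h4 : Real.sqrt ((r : ℝ)⁻¹) * Real.sqrt ((r : ℝ)⁻¹) = (r : ℝ)⁻¹ :=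
      Real.mul_self_sqrt (by positivity)
    have h5 : (r : ℝ)⁻¹ * ∑ j, ∑ l, two (H j l - cj θ.conjTranspose (fun i j => H i j) j l) ^ 2 ≤
        (r : ℝ)⁻¹ * (2 * Real.sqrt (∑ j, two (v j) ^ 2) *
          Real.sqrt (∑ j, two (u * v j - ∑ l, θ l j • v l) ^ 2)) := by
      refine h1.trans (le_of_eq ?_)
      calc _ = Real.sqrt ((r : ℝ)⁻¹) * Real.sqrt ((r : ℝ)⁻¹) *
          (2 * Real.sqrt (∑ j, two (v j) ^ 2) *
          Real.sqrt (∑ j, two (u * v j - ∑ l, θ l j • v l) ^ 2)) := by ring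
        _ = _ := by rw [h4]
    exact le_of_mul_le_mul_left h5 (by positivity)

end Pool.Agent.PTH
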