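import Pool.Agent.PTH.DdDef

/-!
# PTH / DdUni: a unitary matrix near a contraction

`θ* θ` is Hermitian; take an orthonormal eigenbasis `c_α` of `ℂ^r` (`EuclideanSpace ℂ (Fin r)`,
`Matrix.IsHermitian.eigenvectorBasis` or `LinearMap.IsSymmetric.eigenvectorBasis`), eigenvalues `μ_α`.  The
vectors `θc_α` are pairwise orthogonal with `‖θc_α‖² = μ_α ∈ [0,1]` (`Contr`).  On `{α : μ_α > 0}` the vectors
`b_α = μ_α^{-1/2} θc_α` are orthonormal; extend them to an orthonormal basis `b` of `ℂ^r`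
(`Orthonormal.exists_orthonormalBasis_extension_of_card_eq`).  Let `û` be the unitary matrix with
`û c_α = b_α`, i.e. `û_lj = ∑_α b_α(l) conj(c_α(j))`.  The Hilbert-Schmidt norm can be computed in the basis
`c`: `∑‖θ_lj - û_lj‖² = ∑_α ‖θc_α - b_α‖² = ∑_α (1 - √μ_α)²` (if `μ_α = 0` then `θc_α = 0` and the term is `1`)
`≤ ∑_α (1 - μ_α) = r - ∑‖θ_lj‖²`, since `(1-s)² ≤ 1 - s²` for `0 ≤ s ≤ 1`.
-/

namespace Pool.Agent.PTH
open Matrix
open scoped InnerProductSpace ComplexOrder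

private theorem inv_mul_mul_self' {z : ℂ} (hz : z ≠ 0) : z⁻¹ * z⁻¹ * z * z = 1 := by
  field_simp

private theorem hs_tr {r : ℕ} (M : Matrix (Fin r) (Fin r) ℂ) :
    ∑ l, ∑ j, ‖M l j‖ ^ 2 = (Matrix.trace (M * M.conjTranspose)).re := by
  simp only [Matrix.trace, Matrix.diag_apply, Matrix.mul_apply, Matrix.conjTranspose_apply,
    Complex.re_sum]
  refine Finset.sum_congr rfl fun l _ => Finset.sum_congr rfl fun j _ => ?_
  rw [← Complex.normSq_eq_norm_sq, Complex.star_def, Complex.mul_conj, Complex.ofReal_re]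

private theorem hs_mul {r : ℕ} (M C : Matrix (Fin r) (Fin r) ℂ) (hC : C * C.conjTranspose = 1) :
    ∑ l, ∑ j, ‖(M * C) l j‖ ^ 2 = ∑ l, ∑ j, ‖M l j‖ ^ 2 := by
  rw [hs_tr, hs_tr, Matrix.conjTranspose_mul, Matrix.mul_assoc, ← Matrix.mul_assoc C, hC,
    Matrix.one_mul]

private noncomputable def bm {r : ℕ} (b : OrthonormalBasis (Fin r) ℂ (EuclideanSpace ℂ (Fin r))) :
    Matrix (Fin r) (Fin r) ℂ := fun l α => b α l

private theorem bm_uni {r : ℕ} (b : OrthonormalBasis (Fin r) ℂ (EuclideanSpace ℂ (Fin r))) :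
    (bm b).conjTranspose * bm b = 1 := by
  ext α β
  have h := (orthonormal_iff_ite.1 b.orthonormal) α β
  rw [EuclideanSpace.inner_eq_star_dotProduct] at h
  rw [Matrix.mul_apply, Matrix.one_apply, ← h, dotProduct]
  refine Finset.sum_congr rfl fun l _ => ?_
  rw [Matrix.conjTranspose_apply]
  exact mul_comm _ _

theorem exists_uni_near {r : ℕ} (θ : Matrix (Fin r) (Fin r) ℂ) (h : Contr θ) :
    ∃ û : Matrix (Fin r) (Fin r) ℂ, Uni û ∧ û * û.conjTranspose = 1 ∧
      ∑ l, ∑ j, ‖θ l j - û l j‖ ^ 2 ≤ r - ∑ l, ∑ j, ‖θ l j‖ ^ 2 := by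
  classical
  have hps : (θ.conjTranspose * θ).PosSemidef := Matrix.posSemidef_conjTranspose_mul_self θ
  set c := hps.1.eigenvectorBasis with hc
  set μ := hps.1.eigenvalues with hμ
  have μ0 : ∀ α, 0 ≤ μ α := fun α => hps.eigenvalues_nonneg α
  set v : Fin r → EuclideanSpace ℂ (Fin r) := fun α => WithLp.toLp 2 (θ *ᵥ ⇑(c α)) with hv
  have inn : ∀ α β, ⟪v α, v β⟫_ℂ = if α = β then (μ α : ℂ) else 0 := by
    intro α β
    have e1 : ⟪v α, v β⟫_ℂ = star ⇑(c α) ⬝ᵥ ((θ.conjTranspose * θ) *ᵥ ⇑(c β)) := by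
      rw [EuclideanSpace.inner_eq_star_dotProduct, ← Matrix.mulVec_mulVec, dotProduct_comm,
        Matrix.dotProduct_mulVec (star ⇑(c α)), ← Matrix.star_mulVec]
    have e2 : (θ.conjTranspose * θ) *ᵥ ⇑(c β) = μ β • ⇑(c β) :=
      hps.1.mulVec_eigenvectorBasis β
    have e3 : ⟪c α, c β⟫_ℂ = if α = β then (1 : ℂ) else 0 :=
      (orthonormal_iff_ite.1 c.orthonormal) α β
    rw [EuclideanSpace.inner_eq_star_dotProduct, dotProduct_comm] at e3
    rw [e1, e2, dotProduct_smul, e3]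
    split_ifs with h1
    · subst h1
      simp
    · simp
  have nv : ∀ α, ‖v α‖ ^ 2 = μ α := by
    intro α
    have := inn α α
    rw [inner_self_eq_norm_sq_to_K, if_pos rfl] at this
    exact Complex.ofReal_injective (by rw [← this]; push_cast; rfl)
  have μ1 : ∀ α, μ α ≤ 1 := by
    intro α
    rw [← nv α, EuclideanSpace.norm_sq_eq]
    have h1 := h (⇑(c α))
    have h2 : ∑ i, ‖(c α) i‖ ^ 2 = 1 := by
      rw [← EuclideanSpace.norm_sq_eq, c.orthonormal.1 α]
      norm_num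
    rw [h2] at h1
    exact h1
  set s : Set (Fin r) := {α | 0 < μ α} with hs
  set w : Fin r → EuclideanSpace ℂ (Fin r) := fun α => ((Real.sqrt (μ α) : ℂ))⁻¹ • v α with hw
  have hort : Orthonormal ℂ (s.domRestrict w) := by
    rw [orthonormal_iff_ite]
    rintro ⟨α, hα⟩ ⟨β, hβ⟩
    have hα' : 0 < μ α := hα
    have hne : ((Real.sqrt (μ α) : ℝ) : ℂ) ≠ 0 := by
      exact_mod_cast (Real.sqrt_pos.2 hα').ne'
    have hsq : ((Real.sqrt (μ α) : ℝ) : ℂ) * ((Real.sqrt (μ α) : ℝ) : ℂ) = (μ α : ℂ) := by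
      rw [← Complex.ofReal_mul, Real.mul_self_sqrt hα'.le]
    show ⟪w α, w β⟫_ℂ = _
    simp only [hw]
    rw [inner_smul_left, inner_smul_right, inn]
    by_cases hab : α = β
    · subst hab
      rw [if_pos rfl, if_pos rfl, map_inv₀, Complex.conj_ofReal, ← hsq, ← mul_assoc,
        ← mul_assoc, inv_mul_mul_self' hne]
    · have hab' : ¬ ((⟨α, hα⟩ : s) = ⟨β, hβ⟩) := fun hh => hab (congrArg Subtype.val hh)
      simp [hab]
  obtain ⟨b, hb⟩ := hort.exists_orthonormalBasis_extension_of_card_eq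
    (by simp) 
  have hCu := bm_uni c
  have hCu' : bm c * (bm c).conjTranspose = 1 := mul_eq_one_comm.1 hCu
  have hBu := bm_uni b
  have hBu' : bm b * (bm b).conjTranspose = 1 := mul_eq_one_comm.1 hBu
  refine ⟨bm b * (bm c).conjTranspose, ?_, ?_, ?_⟩
  · unfold Uni
    rw [Matrix.conjTranspose_mul, Matrix.conjTranspose_conjTranspose, Matrix.mul_assoc,
      ← Matrix.mul_assoc _ (bm b), hBu, Matrix.one_mul, hCu']
  · rw [Matrix.conjTranspose_mul, Matrix.conjTranspose_conjTranspose, Matrix.mul_assoc,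
      ← Matrix.mul_assoc _ (bm c), hCu, Matrix.one_mul, hBu']
  · have eθ : ∀ l α, (θ * bm c) l α = v α l := by
      intro l α
      rfl
    have eu : bm b * (bm c).conjTranspose * bm c = bm b := by
      rw [Matrix.mul_assoc, hCu, Matrix.mul_one]
    have k1 : ∑ l, ∑ j, ‖θ l j - (bm b * (bm c).conjTranspose) l j‖ ^ 2 =
        ∑ α, ‖v α - b α‖ ^ 2 := by
      have := hs_mul (θ - bm b * (bm c).conjTranspose) (bm c) hCu'
      simp only [Matrix.sub_apply] at this
      rw [← this, Matrix.sub_mul, eu, Finset.sum_comm]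
      refine Finset.sum_congr rfl fun α _ => ?_
      rw [EuclideanSpace.norm_sq_eq]
      refine Finset.sum_congr rfl fun l _ => ?_
      rw [Matrix.sub_apply, eθ]
      rfl
    have k2 : ∑ l, ∑ j, ‖θ l j‖ ^ 2 = ∑ α, μ α := by
      rw [← hs_mul θ (bm c) hCu', Finset.sum_comm]
      refine Finset.sum_congr rfl fun α _ => ?_
      rw [← nv α, EuclideanSpace.norm_sq_eq]
      exact Finset.sum_congr rfl fun l _ => by rw [eθ]
    rw [k1, k2]
    have k3 : (r : ℝ) - ∑ α, μ α = ∑ α : Fin r, (1 - μ α) := by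
      rw [Finset.sum_sub_distrib]
      simp
    rw [k3]
    refine Finset.sum_le_sum fun α _ => ?_
    by_cases hα : 0 < μ α
    · have e1 : b α = w α := hb α hα
      have hne : ((Real.sqrt (μ α) : ℝ) : ℂ) ≠ 0 := by
        exact_mod_cast (Real.sqrt_pos.2 hα).ne'
      have e2 : v α = ((Real.sqrt (μ α) : ℝ) : ℂ) • b α := by
        rw [e1]
        simp only [hw]
        rw [smul_smul, mul_inv_cancel₀ hne, one_smul]
      have e3 : v α - b α = (((Real.sqrt (μ α) - 1 : ℝ)) : ℂ) • b α := by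
        rw [e2]
        push_cast
        rw [sub_smul, one_smul]
      rw [e3, norm_smul, b.orthonormal.1 α, mul_one, Complex.norm_real, Real.norm_eq_abs, sq_abs]
      have s0 := Real.sqrt_nonneg (μ α)
      have s1 : Real.sqrt (μ α) ≤ 1 := Real.sqrt_le_one.2 (μ1 α)
      have s2 := Real.mul_self_sqrt (μ0 α)
      nlinarith
    · have h0 : μ α = 0 := le_antisymm (not_lt.1 hα) (μ0 α)
      have hv0 : v α = 0 := by
        have := nv α
        rw [h0] at this
        exact norm_eq_zero.1 (pow_eq_zero_iff (two_ne_zero)|>.1 this)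
      rw [hv0, zero_sub, norm_neg, b.orthonormal.1 α, h0]
      norm_num

theorem Uni.contr {r : ℕ} {θ : Matrix (Fin r) (Fin r) ℂ} (h : Uni θ) : Contr θ := by
  intro x
  have key : ∀ y : Fin r → ℂ, ∑ i, ‖y i‖ ^ 2 = (star y ⬝ᵥ y).re := by
    intro y
    simp only [dotProduct, Complex.re_sum, Pi.star_apply]
    refine Finset.sum_congr rfl fun j _ => ?_
    rw [← Complex.normSq_eq_norm_sq, Complex.star_def, mul_comm, Complex.mul_conj,
      Complex.ofReal_re]
  have e : star (θ *ᵥ x) ⬝ᵥ (θ *ᵥ x) = star x ⬝ᵥ x := by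
    rw [Matrix.star_mulVec, ← Matrix.dotProduct_mulVec, Matrix.mulVec_mulVec, h,
      Matrix.one_mulVec]
  rw [key (θ *ᵥ x), key x, e]

end Pool.Agent.PTH
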