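import Pool.Agent.PTH.DdTri
import Pool.Agent.PTH.DdUni

/-!
# PTH / DdPSa: the row `v` and the matrices `θ_i`

`Di a v i = r - ∑ |θ_i(l,j)|²`.
* `row_theta`: `u_i v_j - ∑_l θ_i(l,j) v_l` is `y - ∑ ⟨v_l,y⟩ v_l` with `y = u_i v_j`, `‖y‖₂ = 1` (`two_sub_comb`).
* `two_mat_row`: `∑_j ‖∑_l m(l,j) v_l‖₂² = ∑ |m(l,j)|²` (`two_comb`).
* `sum_Di`: definition of `Dv`, `∑ p_i = 1`.
* `exists_hat`: `exists_uni_near` for `θ_i` (`contr_th`); `u_i v_j - ∑ û v = (u_i v_j - ∑ θ v) + ∑ (θ - û) v` and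
  `‖x+y‖₂² ≤ 2‖x‖₂² + 2‖y‖₂²`.
-/

open Filter Topology
open scoped InnerProductSpace ComplexOrder

namespace Pool.Agent.PTH

variable {A : Type*} [CStarAlgebra A] [PartialOrder A] [StarOrderedRing A] [TracialVN A]

/-- `D_i = r - ∑ |θ_i(l,j)|²`. -/
noncomputable def Di (a : Avg A) {r : ℕ} (v : Fin r → A) (i : a.ι) : ℝ :=
  r - ∑ l, ∑ j, ‖th a v i l j‖ ^ 2

theorem row_theta (a : Avg A) {r : ℕ} {v : Fin r → A} (hv : ON v) (i : a.ι) :
    ∑ j, two (a.u i * v j - ∑ l, th a v i l j • v l) ^ 2 = Di a v i := by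
  have hv' : ONf v := (ON_iff v).1 hv
  have h1 : ∀ j, two (a.u i * v j - ∑ l, th a v i l j • v l) ^ 2 =
      1 - ∑ l, ‖th a v i l j‖ ^ 2 := by
    intro j
    have h2 := two_sub_comb hv' (a.u i * v j)
    rw [two_unitary_mul (a.u_star_mul i), two_ON hv' j, one_pow] at h2
    exact h2
  simp only [h1]
  unfold Di
  rw [Finset.sum_sub_distrib, Finset.sum_const, Finset.card_univ, Fintype.card_fin, nsmul_eq_mul,
    mul_one, Finset.sum_comm]

theorem Di_nonneg (a : Avg A) {r : ℕ} {v : Fin r → A} (hv : ON v) (i : a.ι) :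
    0 ≤ Di a v i := by
  rw [← row_theta a hv i]
  exact Finset.sum_nonneg fun j _ => sq_nonneg _

theorem sum_Di (a : Avg A) {r : ℕ} (v : Fin r → A) : ∑ i, a.p i * Di a v i = Dv a v := by
  have h1 : ∀ i, a.p i * Di a v i = a.p i * r -
      a.p i * ∑ j, ∑ l, ‖TrAlg.tau (star (v l) * a.u i * v j)‖ ^ 2 := by
    intro i
    unfold Di
    rw [mul_sub, Finset.sum_comm]
    congr 2
    refine Finset.sum_congr rfl fun j _ => Finset.sum_congr rfl fun l _ => ?_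
    rw [mul_assoc]
    rfl
  simp only [h1]
  rw [Finset.sum_sub_distrib, ← Finset.sum_mul, a.p_sum, one_mul]
  rfl

theorem two_mat_row {r : ℕ} {v : Fin r → A} (hv : ON v) (m : Matrix (Fin r) (Fin r) ℂ) :
    ∑ j, two (∑ l, m l j • v l) ^ 2 = ∑ l, ∑ j, ‖m l j‖ ^ 2 := by
  have hv' : ONf v := (ON_iff v).1 hv
  rw [Finset.sum_comm]
  exact Finset.sum_congr rfl fun j _ => two_comb hv' fun l => m l j

private theorem two_add_le' (x y : A) : two (x + y) ^ 2 ≤ 2 * two x ^ 2 + 2 * two y ^ 2 := by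
  rw [two_add_sq]
  have h1 := (abs_le.1 (abs_rt_star_mul_le x y)).2
  nlinarith [sq_nonneg (two x - two y)]

theorem exists_hat (a : Avg A) {r : ℕ} {v : Fin r → A} (hv : ON v) :
    ∃ û : a.ι → Matrix (Fin r) (Fin r) ℂ, (∀ i, Uni (û i)) ∧
      (∀ i, û i * (û i).conjTranspose = 1) ∧
      (∀ i, ∑ l, ∑ j, ‖th a v i l j - û i l j‖ ^ 2 ≤ Di a v i) ∧
      ∀ i, ∑ j, two (a.u i * v j - ∑ l, û i l j • v l) ^ 2 ≤ 4 * Di a v i := by
  choose û h1 h2 h3 using fun i => exists_uni_near (th a v i) (contr_th a hv i)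
  have h4 : ∀ i, ∑ l, ∑ j, ‖th a v i l j - û i l j‖ ^ 2 ≤ Di a v i := h3
  refine ⟨û, h1, h2, h4, fun i => ?_⟩
  have h5 : ∀ j, two (a.u i * v j - ∑ l, û i l j • v l) ^ 2 ≤
      2 * two (a.u i * v j - ∑ l, th a v i l j • v l) ^ 2 +
        2 * two (∑ l, (th a v i - û i) l j • v l) ^ 2 := by
    intro j
    have e : a.u i * v j - ∑ l, û i l j • v l = (a.u i * v j - ∑ l, th a v i l j • v l) +
        ∑ l, (th a v i - û i) l j • v l := by
      have e1 : ∑ l, (th a v i - û i) l j • v l = ∑ l, th a v i l j • v l -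
          ∑ l, û i l j • v l := by
        rw [← Finset.sum_sub_distrib]
        exact Finset.sum_congr rfl fun l _ => sub_smul _ _ _
      rw [e1]
      abel
    rw [e]
    exact two_add_le' _ _
  refine (Finset.sum_le_sum fun j _ => h5 j).trans ?_
  rw [Finset.sum_add_distrib, ← Finset.mul_sum, ← Finset.mul_sum, row_theta a hv i,
    two_mat_row hv (th a v i - û i)]
  have h6 : ∑ l, ∑ j, ‖(th a v i - û i) l j‖ ^ 2 ≤ Di a v i := h4 i
  linarith

end Pool.Agent.PTH
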