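import Pool.Agent.PTH.DdPSa

/-!
# PTH / DdPSb: `evA (|V|) ≤ 4 √(r Dv)`  (8.3)

`H* = H`, `H² = G`, `G_jl = v_j* v_l`, `v` orthonormal: `τ(G_jl) = δ_jl`.  `‖H‖² := ∑‖H_jl‖₂² = ∑_j τ((H²)_jj) = r`.
Take `û_i` from `exists_hat`, `θ = th a v i`, `D = Di a v i`.
* `‖H‖² - Re⟨H, ûHû*⟩ = 1/2 ‖H - ûHû*‖²` (`‖ûHû*‖ = ‖H‖`) and `‖H - ûHû*‖ = ‖û*Hû - H‖` (conjugation by a unitary
  matrix preserves the norm; it is enough: `≤`, by `two_cj_le` and `cj û (cj û* K) = K`), so it is
  `≤ 1/2 · 2 √r √(4D) = 2√(rD)` by `hPS` and `exists_hat`.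
* `θHθ* - ûHû* = (θ-û)Hθ* + ûH(θ-û)*`; each term has norm `≤ ‖(θ-û)H‖` resp. `‖H(θ-û)*‖` (`contr_mod`) and
  `‖(θ-û)H‖² = ∑ τ(((θ-û)H)_jl* ((θ-û)H)_jl) = ∑_{m,m'} ((θ-û)*(θ-û))_{m'm} τ((H²)_{mm'}) = ∑|θ-û|² ≤ D`
  (cyclicity of the trace, `H* = H`), the same for the other.  So `|⟨H,θHθ*⟩ - ⟨H,ûHû*⟩| ≤ √r · 2√D`.
* `‖H‖² - Re⟨H,θHθ*⟩ ≤ 4√(rD_i)`; sum with weights `p_i` (`∑ p_i = 1`): `evA a v H ≤ 4 ∑ p_i √(r D_i) ≤
  4 √(r ∑ p_i D_i) = 4√(r Dv)` (Cauchy-Schwarz / Jensen, `sum_Di`).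
-/

open Filter Topology
open scoped InnerProductSpace ComplexOrder

namespace Pool.Agent.PTH

variable {A : Type*} [CStarAlgebra A] [PartialOrder A] [StarOrderedRing A] [TracialVN A]

theorem sum_two_H {r : ℕ} {v : Fin r → A} (hv : ON v) {H : Fin r → Fin r → A}
    (hs : ∀ j l, star (H j l) = H l j) (hG : ∀ j l, ∑ m, H j m * H m l = star (v j) * v l) :
    ∑ j, ∑ l, two (H j l) ^ 2 = r := by
  have h1 : ∀ j l, ((two (H j l) ^ 2 : ℝ) : ℂ) = TrAlg.tau (H l j * H j l) := by
    intro j l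
    rw [← tau_eq, hs]
  have h2 : ((∑ j, ∑ l, two (H j l) ^ 2 : ℝ) : ℂ) = r := by
    push_cast
    have h3 : ∀ j l, ((two (H j l) : ℝ) : ℂ) ^ 2 = TrAlg.tau (H l j * H j l) := by
      intro j l
      rw [← h1]
      push_cast
      rfl
    simp only [h3]
    rw [Finset.sum_comm]
    have h4 : ∀ l, ∑ j, TrAlg.tau (H l j * H j l) = (1 : ℂ) := by
      intro l
      rw [← map_sum, hG, hv l l, if_pos rfl]
    simp only [h4]
    rw [Finset.sum_const, Finset.card_univ, Fintype.card_fin, nsmul_eq_mul, mul_one]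
  exact_mod_cast h2

theorem two_mat_H {r : ℕ} {v : Fin r → A} (hv : ON v) {H : Fin r → Fin r → A}
    (hs : ∀ j l, star (H j l) = H l j) (hG : ∀ j l, ∑ m, H j m * H m l = star (v j) * v l)
    (m : Matrix (Fin r) (Fin r) ℂ) :
    ∑ j, ∑ l, two (∑ n, m j n • H n l) ^ 2 = ∑ j, ∑ l, ‖m j l‖ ^ 2 := by
  have h1 : ((∑ j, ∑ l, two (∑ n, m j n • H n l) ^ 2 : ℝ) : ℂ) =
      ((∑ j, ∑ l, ‖m j l‖ ^ 2 : ℝ) : ℂ) := by
    rw [Complex.ofReal_sum, Complex.ofReal_sum]
    refine Finset.sum_congr rfl fun j _ => ?_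
    rw [Complex.ofReal_sum, Complex.ofReal_sum]
    have h2 : ∀ l, ((two (∑ n, m j n • H n l) ^ 2 : ℝ) : ℂ) =
        ∑ n, ∑ n', star (m j n) * m j n' * ip (H n l) (H n' l) := fun l =>
      two_sum_sq (fun n => m j n) (fun n => H n l)
    simp only [h2]
    rw [Finset.sum_comm]
    refine Finset.sum_congr rfl fun n _ => ?_
    rw [Finset.sum_comm]
    have h3 : ∀ n', ∑ l, star (m j n) * m j n' * ip (H n l) (H n' l) =
        star (m j n) * m j n' * if n' = n then 1 else 0 := by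
      intro n'
      rw [← Finset.mul_sum, ← hv n' n, ← hG, map_sum]
      congr 1
      refine Finset.sum_congr rfl fun l _ => ?_
      unfold ip
      rw [hs, TrAlg.tau_comm]
    simp only [h3]
    rw [Finset.sum_eq_single n]
    · rw [if_pos rfl, mul_one]
      push_cast
      exact Complex.conj_mul' _
    · intro n' _ hn
      rw [if_neg hn, mul_zero]
    · intro h
      exact absurd (Finset.mem_univ n) h
  exact_mod_cast h1

omit [StarOrderedRing A] [PartialOrder A] [TracialVN A] in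
private theorem ps_comm3 {r : ℕ} (F : Fin r → Fin r → Fin r → A) :
    ∑ x, ∑ y, ∑ z, F x y z = ∑ z, ∑ x, ∑ y, F x y z := by
  have h1 : ∀ x, ∑ y, ∑ z, F x y z = ∑ z, ∑ y, F x y z := fun x => Finset.sum_comm
  simp only [h1]
  exact Finset.sum_comm

omit [StarOrderedRing A] [PartialOrder A] [TracialVN A] in
private theorem ps_cj_cj {r : ℕ} (θ ρ : Matrix (Fin r) (Fin r) ℂ) (K : Fin r → Fin r → A) :
    cj θ (cj ρ K) = cj (θ * ρ) K := by
  funext j l
  unfold cj
  simp only [Finset.smul_sum, smul_smul]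
  rw [ps_comm3 fun j' l' a => ∑ b, (θ j j' * star (θ l l') * (ρ j' a * star (ρ l' b))) • K a b]
  refine Finset.sum_congr rfl fun a _ => ?_
  rw [ps_comm3 fun j' l' b => (θ j j' * star (θ l l') * (ρ j' a * star (ρ l' b))) • K a b]
  refine Finset.sum_congr rfl fun b _ => ?_
  rw [Matrix.mul_apply, Matrix.mul_apply, star_sum, Finset.sum_mul_sum, Finset.sum_smul]
  refine Finset.sum_congr rfl fun j' _ => ?_
  rw [Finset.sum_smul]
  refine Finset.sum_congr rfl fun l' _ => ?_
  congr 1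
  rw [star_mul]
  ring

omit [StarOrderedRing A] [PartialOrder A] [TracialVN A] in
private theorem ps_cj_one {r : ℕ} (K : Fin r → Fin r → A) : cj 1 K = K := by
  funext j l
  unfold cj
  rw [Finset.sum_eq_single j]
  · rw [Finset.sum_eq_single l]
    · rw [Matrix.one_apply_eq, Matrix.one_apply_eq, star_one, mul_one, one_smul]
    · intro l' _ h
      rw [Matrix.one_apply_ne (Ne.symm h), star_zero, mul_zero, zero_smul]
    · intro h
      exact absurd (Finset.mem_univ l) h
  · intro j' _ h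
    refine Finset.sum_eq_zero fun l' _ => ?_
    rw [Matrix.one_apply_ne (Ne.symm h), zero_mul, zero_smul]
  · intro h
    exact absurd (Finset.mem_univ j) h

omit [StarOrderedRing A] [PartialOrder A] [TracialVN A] in
private theorem ps_cj_sub {r : ℕ} (θ : Matrix (Fin r) (Fin r) ℂ) (H B : Fin r → Fin r → A)
    (j l : Fin r) : cj θ (fun j l => H j l - B j l) j l = cj θ H j l - cj θ B j l := by
  unfold cj
  simp only [smul_sub, Finset.sum_sub_distrib]

/-- real inner product of matrices -/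
private noncomputable def iM {r : ℕ} (K L : Fin r → Fin r → A) : ℝ :=
  ∑ j, ∑ l, (ip (K j l) (L j l)).re

/-- squared norm of a matrix -/
private noncomputable def nM {r : ℕ} (K : Fin r → Fin r → A) : ℝ := ∑ j, ∑ l, two (K j l) ^ 2

private theorem iM_le {r : ℕ} (K L : Fin r → Fin r → A) :
    iM K L ≤ Real.sqrt (nM K) * Real.sqrt (nM L) := by
  have h1 := Real.sum_mul_le_sqrt_mul_sqrt (Finset.univ : Finset (Fin r × Fin r))
    (fun x => two (K x.1 x.2)) (fun x => two (L x.1 x.2))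
  rw [Fintype.sum_prod_type, Fintype.sum_prod_type, Fintype.sum_prod_type] at h1
  refine le_trans ?_ h1
  unfold iM
  refine Finset.sum_le_sum fun j _ => Finset.sum_le_sum fun l _ => ?_
  exact (Complex.re_le_norm _).trans (norm_ip_le _ _)

private theorem nM_sub {r : ℕ} (K L : Fin r → Fin r → A) :
    nM (fun j l => K j l - L j l) = nM K - 2 * iM K L + nM L := by
  unfold nM iM
  simp only [Finset.mul_sum, ← Finset.sum_add_distrib, ← Finset.sum_sub_distrib]
  refine Finset.sum_congr rfl fun j _ => Finset.sum_congr rfl fun l _ => ?_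
  rw [two_sub_sq]
  rfl

private theorem iM_add {r : ℕ} (K L M N : Fin r → Fin r → A)
    (h : ∀ j l, L j l = M j l + N j l) : iM K L = iM K M + iM K N := by
  unfold iM
  simp only [← Finset.sum_add_distrib]
  refine Finset.sum_congr rfl fun j _ => Finset.sum_congr rfl fun l _ => ?_
  rw [h, ip_add, Complex.add_re]

private theorem ps_step {r : ℕ} {v : Fin r → A} (hv : ON v)
    {H : Fin r → Fin r → A} (hs : ∀ j l, star (H j l) = H l j)
    (hG : ∀ j l, ∑ m, H j m * H m l = star (v j) * v l)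
    {θ û : Matrix (Fin r) (Fin r) ℂ} (hθ : Contr θ) (hu : Uni û) (hu' : û * û.conjTranspose = 1)
    {D : ℝ} (h1 : ∑ l, ∑ j, ‖θ l j - û l j‖ ^ 2 ≤ D)
    (h2 : ∑ j, ∑ l, two (H j l - cj û.conjTranspose H j l) ^ 2 ≤ 4 * Real.sqrt (r * D)) :
    r - ∑ j, ∑ l, (ip (H j l) (cj θ H j l)).re ≤ 4 * Real.sqrt (r * D) := by
  have n0 : nM H = r := sum_two_H hv hs hG
  have hD : 0 ≤ D := le_trans (Finset.sum_nonneg fun _ _ => Finset.sum_nonneg fun _ _ =>
    sq_nonneg _) h1
  have hr0 : (0 : ℝ) ≤ r := Nat.cast_nonneg r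
  have hu2 : Uni û.conjTranspose := by
    unfold Uni
    rw [Matrix.conjTranspose_conjTranspose]
    exact hu'
  -- the distance of `H` and `û H û*`
  have a1 : nM (fun j l => H j l - cj û H j l) ≤ 4 * Real.sqrt (r * D) := by
    refine le_trans ?_ h2
    have e1 : ∀ j l, H j l - cj û H j l =
        cj û (fun j l => cj û.conjTranspose H j l - H j l) j l := by
      intro j l
      rw [ps_cj_sub]
      have e2 : cj û (fun j l => cj û.conjTranspose H j l) = H := by
        change cj û (cj û.conjTranspose H) = H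
        rw [ps_cj_cj, hu', ps_cj_one]
      rw [e2]
    have e3 := two_cj_le (Uni.contr hu) (fun j l => cj û.conjTranspose H j l - H j l)
    unfold nM
    simp only [e1]
    refine e3.trans (le_of_eq ?_)
    refine Finset.sum_congr rfl fun j _ => Finset.sum_congr rfl fun l _ => ?_
    rw [two_sub_comm]
  have a2 : nM H ≤ nM (cj û H) := by
    have e1 : cj û.conjTranspose (cj û H) = H := by
      rw [ps_cj_cj]
      have e2 : û.conjTranspose * û = 1 := hu
      rw [e2, ps_cj_one]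
    have e3 := two_cj_le (Uni.contr hu2) (cj û H)
    rw [e1] at e3
    exact e3
  have a3 : r - iM H (cj û H) ≤ 2 * Real.sqrt (r * D) := by
    have e1 := nM_sub H (cj û H)
    have e2 : nM (fun j l => H j l - cj û H j l) = nM H - 2 * iM H (cj û H) + nM (cj û H) := e1
    rw [e2] at a1
    linarith
  -- the difference of `û H û*` and `θ H θ*`
  set X : Fin r → Fin r → A := fun j l =>
    ∑ l', star (θ l l') • ∑ n, (û - θ) j n • H n l' with hX
  set Y : Fin r → Fin r → A := fun j l =>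
    ∑ j', û j j' • ∑ l', star ((û - θ) l l') • H j' l' with hY
  have hm : ∑ j, ∑ l, ‖(û - θ) j l‖ ^ 2 ≤ D := by
    refine le_trans (le_of_eq ?_) h1
    refine Finset.sum_congr rfl fun j _ => Finset.sum_congr rfl fun l _ => ?_
    rw [Matrix.sub_apply, norm_sub_rev]
  have b1 : nM X ≤ D := by
    refine le_trans ?_ (le_trans (le_of_eq (two_mat_H hv hs hG (û - θ))) hm)
    exact Finset.sum_le_sum fun j _ =>
      contr_mod (contr_star hθ) fun l' => ∑ n, (û - θ) j n • H n l'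
  have b2 : nM Y ≤ D := by
    refine le_trans ?_ (le_trans (le_of_eq (two_mat_H hv hs hG (û - θ))) hm)
    unfold nM
    rw [Finset.sum_comm]
    refine Finset.sum_le_sum fun l _ => ?_
    refine (contr_mod (Uni.contr hu) fun j' => ∑ l', star ((û - θ) l l') • H j' l').trans ?_
    refine Finset.sum_le_sum fun j' _ => ?_
    rw [← two_star (∑ l', star ((û - θ) l l') • H j' l'), star_sum]
    simp only [star_smul, star_star, hs]
    exact le_rfl
  have hXY : ∀ j l, cj û H j l = (cj θ H j l + X j l) + Y j l := by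
    intro j l
    rw [hX, hY]
    unfold cj
    simp only [Finset.smul_sum, smul_smul]
    rw [Finset.sum_comm (f := fun l' n => (star (θ l l') * (û - θ) j n) • H n l'),
      ← Finset.sum_add_distrib, ← Finset.sum_add_distrib]
    refine Finset.sum_congr rfl fun j' _ => ?_
    rw [← Finset.sum_add_distrib, ← Finset.sum_add_distrib]
    refine Finset.sum_congr rfl fun l' _ => ?_
    rw [← add_smul, ← add_smul]
    congr 1
    rw [Matrix.sub_apply, Matrix.sub_apply, star_sub]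
    ring
  have c1 := iM_add H (cj û H) (fun j l => cj θ H j l + X j l) Y hXY
  have c2 := iM_add H (fun j l => cj θ H j l + X j l) (cj θ H) X fun _ _ => rfl
  have c3 : iM H X ≤ Real.sqrt (r * D) := by
    refine (iM_le H X).trans ?_
    rw [n0, Real.sqrt_mul hr0]
    exact mul_le_mul_of_nonneg_left (Real.sqrt_le_sqrt b1) (Real.sqrt_nonneg _)
  have c4 : iM H Y ≤ Real.sqrt (r * D) := by
    refine (iM_le H Y).trans ?_
    rw [n0, Real.sqrt_mul hr0]
    exact mul_le_mul_of_nonneg_left (Real.sqrt_le_sqrt b2) (Real.sqrt_nonneg _)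
  have c5 : r - iM H (cj θ H) ≤ 4 * Real.sqrt (r * D) := by
    linarith
  exact c5

private theorem ps_jensen {κ : Type} [Fintype κ] (p x : κ → ℝ) (hp : ∀ i, 0 ≤ p i)
    (hp1 : ∑ i, p i = 1) (hx : ∀ i, 0 ≤ x i) :
    ∑ i, p i * Real.sqrt (x i) ≤ Real.sqrt (∑ i, p i * x i) := by
  have h1 := Real.sum_mul_le_sqrt_mul_sqrt (Finset.univ : Finset κ)
    (fun i => Real.sqrt (p i)) (fun i => Real.sqrt (p i) * Real.sqrt (x i))
  have e1 : ∀ i, Real.sqrt (p i) * (Real.sqrt (p i) * Real.sqrt (x i)) =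
      p i * Real.sqrt (x i) := by
    intro i
    rw [← mul_assoc, Real.mul_self_sqrt (hp i)]
  have e2 : ∀ i, Real.sqrt (p i) ^ 2 = p i := fun i => Real.sq_sqrt (hp i)
  have e3 : ∀ i, (Real.sqrt (p i) * Real.sqrt (x i)) ^ 2 = p i * x i := by
    intro i
    rw [mul_pow, Real.sq_sqrt (hp i), Real.sq_sqrt (hx i)]
  simp only [e1, e2, e3, hp1, Real.sqrt_one, one_mul] at h1
  exact h1

theorem evA_H_le (a : Avg A) {r : ℕ} (hr : 1 ≤ r) {v : Fin r → A} (hv : ON v)
    {H : Fin r → Fin r → A} (hs : ∀ j l, star (H j l) = H l j)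
    (hG : ∀ j l, ∑ m, H j m * H m l = star (v j) * v l)
    (hPS : ∀ (u : A) (θ : Matrix (Fin r) (Fin r) ℂ), star u * u = 1 → u * star u = 1 → Uni θ →
        θ * θ.conjTranspose = 1 →
        ∑ j, ∑ l, two (H j l - cj θ.conjTranspose H j l) ^ 2 ≤
          2 * Real.sqrt (∑ j, two (v j) ^ 2) *
            Real.sqrt (∑ j, two (u * v j - ∑ l, θ l j • v l) ^ 2)) :
    evA a v H ≤ 4 * Real.sqrt (r * Dv a v) := by
  obtain ⟨û, u1, u2, u3, u4⟩ := exists_hat a hv
  have hr0 : (0 : ℝ) ≤ r := Nat.cast_nonneg r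
  have hvr : ∑ j, two (v j) ^ 2 = r := by
    have h1 : ∀ j, two (v j) = 1 := fun j => two_ON ((ON_iff v).1 hv) j
    simp only [h1, one_pow]
    rw [Finset.sum_const, Finset.card_univ, Fintype.card_fin, nsmul_eq_mul, mul_one]
  have step : ∀ i, r - ∑ j, ∑ l, (ip (H j l) (cj (th a v i) H j l)).re ≤
      4 * Real.sqrt (r * Di a v i) := by
    intro i
    refine ps_step hv hs hG (contr_th a hv i) (u1 i) (u2 i) (u3 i) ?_
    refine (hPS (a.u i) (û i) (a.u_star_mul i) (a.u_mul_star i) (u1 i) (u2 i)).trans ?_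
    rw [hvr]
    have h1 : Real.sqrt (∑ j, two (a.u i * v j - ∑ l, û i l j • v l) ^ 2) ≤
        2 * Real.sqrt (Di a v i) := by
      have h2 : Real.sqrt (4 * Di a v i) = 2 * Real.sqrt (Di a v i) := by
        rw [Real.sqrt_mul (by norm_num)]
        congr 1
        rw [show (4 : ℝ) = 2 ^ 2 by norm_num, Real.sqrt_sq (by norm_num)]
      rw [← h2]
      exact Real.sqrt_le_sqrt (u4 i)
    rw [Real.sqrt_mul hr0]
    calc 2 * Real.sqrt r * Real.sqrt (∑ j, two (a.u i * v j - ∑ l, û i l j • v l) ^ 2)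
        ≤ 2 * Real.sqrt r * (2 * Real.sqrt (Di a v i)) :=
          mul_le_mul_of_nonneg_left h1 (by positivity)
      _ = 4 * (Real.sqrt r * Real.sqrt (Di a v i)) := by ring
  have h1 : evA a v H = ∑ i, a.p i * (r - ∑ j, ∑ l, (ip (H j l) (cj (th a v i) H j l)).re) := by
    unfold evA
    rw [sum_two_H hv hs hG]
    simp only [mul_sub, Finset.sum_sub_distrib]
    rw [← Finset.sum_mul, a.p_sum, one_mul]
  rw [h1]
  calc ∑ i, a.p i * (r - ∑ j, ∑ l, (ip (H j l) (cj (th a v i) H j l)).re)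
      ≤ ∑ i, a.p i * (4 * Real.sqrt (r * Di a v i)) :=
        Finset.sum_le_sum fun i _ => mul_le_mul_of_nonneg_left (step i) (a.p_pos i).le
    _ = 4 * ∑ i, a.p i * Real.sqrt (r * Di a v i) := by
        rw [Finset.mul_sum]
        exact Finset.sum_congr rfl fun i _ => by ring
    _ ≤ 4 * Real.sqrt (∑ i, a.p i * (r * Di a v i)) :=
        mul_le_mul_of_nonneg_left (ps_jensen a.p (fun i => r * Di a v i) (fun i => (a.p_pos i).le)
          a.p_sum fun i => mul_nonneg hr0 (Di_nonneg a hv i)) (by norm_num)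
    _ = 4 * Real.sqrt (r * Dv a v) := by
        rw [← sum_Di a v, Finset.mul_sum]
        congr 2
        exact Finset.sum_congr rfl fun i _ => by ring

end Pool.Agent.PTH
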