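import Pool.Agent.PTH.DdRowB
import Pool.Agent.PTH.DdMx
import Pool.Agent.PTH.DdPSb

/-!
# PTH / DdRow: from the linear gap to the row (8.3), (8.4)

Choose `ε ∈ (0,1]` with `(12 + 70/c0) √ε ≤ min (η'/8) (1/16)`.  `polar_row hr v`: `H`, `U`.
`evA_H_le`: `evA a v H ≤ 4 √(r Dv) ≤ 4 √ε r`.  `g0 = r⁻¹ ∑ H_jj ≥ 0`, `g0_le` (`sum_two_H`), `gap_scal`:
`∑∑ two(H - δ g0)² ≤ (2/c0)(4√ε r + ε r) ≤ (10/c0) √ε r =: η3 r`, `η3 ≤ 1/16`; `g0_ge`: `two g0² ≥ 1/2`.
`exists_hat` gives `θ`, `rowE_g0` and `∑ p_i · 4 Di = 4 Dv ≤ 4εr` (`sum_Di`):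
`∑ p_i ∑_j two(E_ij g0)² ≤ 12 ε r + 6 η3 r`, `rowP_g0`: `≤ η3 r`; total `≤ (12√ε + 7η3) r ≤ η'/8 r < η' r two g0²`.
`row_level` gives `q`; `W_j = U_j q`; `(1-Y) v_j = 0` so `(1-Y) U_j = 0`, `Y W_j = W_j`; `W_j q = W_j`.
-/

open Filter Topology
open scoped InnerProductSpace ComplexOrder

universe u

namespace Pool.Agent.PTH

theorem row_of_gap {c0 η' : ℝ} (hc : 0 < c0) (hη : 0 < η') :
    ∃ ε > 0, ∀ (A : Type u) [CStarAlgebra A] [PartialOrder A] [StarOrderedRing A]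
      [TracialVN A] (a : Avg A) (Y : A), Prj Y → ∀ (r : ℕ), 1 ≤ r → ∀ v : Fin r → A, ON v →
      (∀ j, Y * v j = v j) → Dv a v ≤ ε * r →
      (∀ K : Fin r → Fin r → A, ∑ j, K j j = 0 → c0 * ∑ j, ∑ l, two (K j l) ^ 2 ≤ evA a v K) →
      ∃ (W : Fin r → A) (θ : a.ι → Matrix (Fin r) (Fin r) ℂ) (q : A),
        Prj q ∧ q ≠ 0 ∧ (∀ j, Y * W j = W j) ∧ (∀ j, W j * q = W j) ∧
        ∑ j, W j * star (W j) ≤ 1 ∧ (∀ i, Uni (θ i)) ∧
        rowEn a W θ ≤ η' * (r * rt q) ∧ rowDef W q ≤ η' * (r * rt q) := by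
  -- the constants
  have hb : 0 < 12 + 70 / c0 := by positivity
  obtain ⟨s, hs0, hs1, hs2⟩ : ∃ s : ℝ, 0 < s ∧ s ≤ 1 ∧
      (12 + 70 / c0) * s ≤ min (η' / 8) (1 / 16) := by
    have hm : 0 < min (η' / 8) (1 / 16) := lt_min (by positivity) (by norm_num)
    refine ⟨min 1 (min (η' / 8) (1 / 16) / (12 + 70 / c0)), lt_min one_pos (div_pos hm hb),
      min_le_left _ _, ?_⟩
    have h1 := min_le_right 1 (min (η' / 8) (1 / 16) / (12 + 70 / c0))
    calc (12 + 70 / c0) * min 1 (min (η' / 8) (1 / 16) / (12 + 70 / c0))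
        ≤ (12 + 70 / c0) * (min (η' / 8) (1 / 16) / (12 + 70 / c0)) :=
          mul_le_mul_of_nonneg_left h1 hb.le
      _ = min (η' / 8) (1 / 16) := by field_simp
  have hs3 : (12 + 70 / c0) * s ≤ η' / 8 := hs2.trans (min_le_left _ _)
  have hs4 : (12 + 70 / c0) * s ≤ 1 / 16 := hs2.trans (min_le_right _ _)
  refine ⟨s ^ 2, by positivity, ?_⟩
  intro A _ _ _ _ a Y hY r hr v hv hYv hD hgap
  have hrR : (1 : ℝ) ≤ r := by exact_mod_cast hr
  have hr0 : (0 : ℝ) < r := by linarith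
  obtain ⟨H, U, hHs, hHp, hHG, hvU, hpH, hpp, hUU, hzU, hPS⟩ := polar_row hr v
  have hHn := sum_two_H hv hHs hHG
  have hD0 : 0 ≤ Dv a v := by
    rw [← sum_Di]
    exact Finset.sum_nonneg fun i _ => mul_nonneg (a.p_pos i).le (Di_nonneg a hv i)
  -- energy of `H`
  have hev : evA a v H ≤ 4 * (s * r) := by
    refine (evA_H_le a hr hv hHs hHG hPS).trans ?_
    have h1 : Real.sqrt (r * Dv a v) ≤ s * r := by
      rw [show s * r = Real.sqrt ((s * r) ^ 2) from (Real.sqrt_sq (by positivity)).symm]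
      apply Real.sqrt_le_sqrt
      calc (r : ℝ) * Dv a v ≤ r * (s ^ 2 * r) := mul_le_mul_of_nonneg_left hD hr0.le
        _ = (s * r) ^ 2 := by ring
    linarith
  -- the scalar part
  obtain ⟨g0, hg0⟩ : ∃ g0 : A, g0 = (r : ℂ)⁻¹ • ∑ j, H j j := ⟨_, rfl⟩
  have hg0p : 0 ≤ g0 := by
    have e : g0 = ((r : ℝ)⁻¹) • ∑ j, H j j := by
      rw [hg0, ← Complex.coe_smul]
      congr 1
      push_cast
      rfl
    rw [e]
    exact smul_nonneg (by positivity) hHp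
  have hg1 := g0_le hr hg0 hHn
  obtain ⟨X, hX⟩ : ∃ X : ℝ, X = ∑ j, ∑ l, two (H j l - if j = l then g0 else 0) ^ 2 := ⟨_, rfl⟩
  have hX1 : X ≤ 10 / c0 * s * r := by
    have h1 := gap_scal a hr hv hc hgap H g0 hg0
    rw [← hX] at h1
    refine h1.trans ?_
    have h2 : two g0 ^ 2 * Dv a v ≤ s * r := by
      calc two g0 ^ 2 * Dv a v ≤ 1 * Dv a v := mul_le_mul_of_nonneg_right hg1 hD0
        _ ≤ s ^ 2 * r := by rw [one_mul]; exact hD
        _ ≤ s * r := by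
          apply mul_le_mul_of_nonneg_right _ hr0.le
          nlinarith
    calc 2 / c0 * (evA a v H + two g0 ^ 2 * Dv a v) ≤ 2 / c0 * (4 * (s * r) + s * r) :=
          mul_le_mul_of_nonneg_left (add_le_add hev h2) (by positivity)
      _ = 10 / c0 * s * r := by ring
  have hc7 : 70 / c0 = 7 * (10 / c0) := by ring
  have hX2 : X ≤ 1 / 16 * r := by
    refine hX1.trans (mul_le_mul_of_nonneg_right ?_ hr0.le)
    have h1 : 0 ≤ 10 / c0 * s := by positivity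
    rw [hc7] at hs4
    nlinarith
  have hg2 : 1 / 2 ≤ two g0 ^ 2 := g0_ge hr hHn (by rw [← hX]; exact hX2)
  obtain ⟨û, u1, u2, -, u4⟩ := exists_hat a hv
  -- the energy of `U g0`
  have hE : ∑ i, a.p i * ∑ j, two ((a.u i * U j - ∑ l, û i l j • U l) * g0) ^ 2 ≤
      12 * Dv a v + 6 * X := by
    have h1 : ∀ i, ∑ j, two ((a.u i * U j - ∑ l, û i l j • U l) * g0) ^ 2 ≤
        12 * Di a v i + 6 * X := by
      intro i
      have h2 := rowE_g0 a (g0 := g0) hvU hpp u1 u2 i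
      have h3 := u4 i
      rw [← hX] at h2
      linarith
    refine (Finset.sum_le_sum fun i _ => mul_le_mul_of_nonneg_left (h1 i) (a.p_pos i).le).trans ?_
    have h2 : ∀ i, a.p i * (12 * Di a v i + 6 * X) = 12 * (a.p i * Di a v i) + a.p i * (6 * X) :=
      fun i => by ring
    simp only [h2]
    rw [Finset.sum_add_distrib, ← Finset.mul_sum, sum_Di, ← Finset.sum_mul, a.p_sum, one_mul]
  have hP := rowP_g0 (g0 := g0) hpH hpp
  rw [← hX] at hP
  have htot : ∑ i, a.p i * ∑ j, two ((a.u i * U j - ∑ l, û i l j • U l) * g0) ^ 2 +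
      ∑ j, ∑ l, two (((if j = l then 1 else 0) - star (U j) * U l) * g0) ^ 2 <
        η' * (r * two g0 ^ 2) := by
    have h1 : 12 * Dv a v + 7 * X ≤ η' / 8 * r := by
      have h2 : 12 * Dv a v ≤ 12 * s * r := by
        have : s ^ 2 * r ≤ s * r := by
          apply mul_le_mul_of_nonneg_right _ hr0.le
          nlinarith
        linarith
      have h3 : (12 + 70 / c0) * s * r ≤ η' / 8 * r := mul_le_mul_of_nonneg_right hs3 hr0.le
      rw [hc7] at h3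
      linarith
    have h4 : η' / 8 * r < η' * (r * two g0 ^ 2) := by
      have h5 : 0 < η' * r := by positivity
      nlinarith
    linarith
  obtain ⟨q, q1, q2, q3, q4, q5⟩ := row_level a hg0p hUU û hη htot
  refine ⟨fun j => U j * q, û, q, q1, q2, fun j => ?_, fun j => ?_, q3, u1, q4, q5⟩
  · have h1 : (1 - Y) * U j = 0 := hzU (1 - Y) (fun l => by rw [sub_mul, one_mul, hYv, sub_self]) j
    rw [sub_mul, one_mul, sub_eq_zero] at h1
    change Y * (U j * q) = U j * q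
    rw [← mul_assoc, ← h1]
  · change U j * q * q = U j * q
    rw [mul_assoc, q1.2]

end Pool.Agent.PTH
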