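import Pool.Agent.PTH.DdTri

/-!
# PTH / DdRowA: the polar row times `1 ⊗ g0`  (8.4)

`K = H - 1 ⊗ g0`, `p_jl = U_j* U_l` is a projection with `pH = H`, `v = U H`.
* `polar_contr`: for a column `y`: `∑_j ‖∑_m (δ_jm - p_jm) y_m‖₂² = ∑ ‖y_m‖₂² - ‖∑_m U_m y_m‖₂²`: expand
  `τ(y* (1-p)*(1-p) y)` and use `(1-p)*(1-p) = 1-p` (`hpp`), `τ(y* p y) = ‖∑ U_m y_m‖₂²`.  So both
  `‖∑ U_m y_m‖₂² ≤ ∑ ‖y_m‖₂²` and `∑_j ‖((1-p)y)_j‖₂² ≤ ∑ ‖y_m‖₂²`.
* `rowE_g0`: `U_j g0 = v_j - ∑_m U_m K_mj` (as `v_j = ∑_m U_m H_mj` and `H_mj = K_mj + δ_mj g0`), so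
  `(u_i U_j - ∑ θ_i(l,j) U_l) g0 = (u_i v_j - ∑ θ_i(l,j) v_l) - u_i ∑_m U_m K_mj + ∑_l θ_i(l,j) ∑_m U_m K_ml`.
  `‖x+y+z‖₂² ≤ 3(..)`; the second term summed over `j` is `≤ ∑∑‖K‖²` (`two_unitary_mul`, `polar_contr`), the
  third is `≤ ∑_l ‖∑_m U_m K_ml‖₂² ≤ ∑∑‖K‖²` by `contr_mod` for the transposed matrix (a transposed unitary
  matrix is unitary).
* `rowP_g0`: `(δ_jl - p_jl) g0 = ∑_m (δ_jm - p_jm)(δ_ml g0) = ∑_m (δ_jm - p_jm)(H_ml - K_ml) = -∑_m (δ_jm - p_jm) K_ml`.
* `g0_bounds`: `√r ‖g0‖₂ = ‖1 ⊗ g0‖ ≥ ‖H‖ - ‖K‖` (triangle inequality in `ℓ²` of the 2-norms),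
  `‖g0‖₂ ≤ r⁻¹ ∑ ‖H_jj‖₂ ≤ r^{-1/2} (∑ ‖H_jj‖₂²)^{1/2} ≤ 1`.
-/

open Filter Topology
open scoped InnerProductSpace ComplexOrder

namespace Pool.Agent.PTH

variable {A : Type*} [CStarAlgebra A] [PartialOrder A] [StarOrderedRing A] [TracialVN A]

private theorem ra_star_sum {r : ℕ} (U y : Fin r → A) :
    star (∑ m, U m * y m) = ∑ m, star (y m) * star (U m) := by
  rw [star_sum]
  exact Finset.sum_congr rfl fun m _ => star_mul _ _

/-- the exact formula for the complement of the polar projection -/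
private theorem ra_key {r : ℕ} {U : Fin r → A}
    (hpp : ∀ j l, ∑ m, star (U j) * U m * (star (U m) * U l) = star (U j) * U l)
    (y : Fin r → A) :
    ∑ j, two (∑ m, ((if j = m then 1 else 0) - star (U j) * U m) * y m) ^ 2 =
      ∑ m, two (y m) ^ 2 - two (∑ m, U m * y m) ^ 2 := by
  set S := ∑ m, U m * y m with hS
  have hst : star S = ∑ m, star (y m) * star (U m) := by rw [hS, ra_star_sum]
  have h1 : ∀ j, ∑ m, ((if j = m then 1 else 0) - star (U j) * U m) * y m = y j - star (U j) * S := by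
    intro j
    rw [hS, Finset.mul_sum]
    simp only [sub_mul, ite_mul, one_mul, zero_mul, Finset.sum_sub_distrib, Finset.sum_ite_eq,
      Finset.mem_univ, if_true, mul_assoc]
  have h2 : ∑ j, rt (star (y j) * (star (U j) * S)) = two S ^ 2 := by
    rw [two_sq_rt, ← rt_sum, hst, Finset.sum_mul]
    congr 1
    exact Finset.sum_congr rfl fun j _ => (mul_assoc _ _ _).symm
  have h3 : ∑ j, two (star (U j) * S) ^ 2 = two S ^ 2 := by
    have e1 : ∀ j, two (star (U j) * S) ^ 2 =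
        rt (∑ i, ∑ l, star (y i) * (star (U i) * U j * (star (U j) * U l)) * y l) := by
      intro j
      have e2 : star (star (U j) * S) = ∑ i, star (y i) * (star (U i) * U j) := by
        rw [star_mul, star_star, hst, Finset.sum_mul]
        exact Finset.sum_congr rfl fun i _ => mul_assoc _ _ _
      have e3 : star (U j) * S = ∑ l, star (U j) * U l * y l := by
        rw [hS, Finset.mul_sum]
        exact Finset.sum_congr rfl fun l _ => (mul_assoc _ _ _).symm
      rw [two_sq_rt, e2, e3, Finset.sum_mul_sum]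
      congr 1
      refine Finset.sum_congr rfl fun i _ => Finset.sum_congr rfl fun l _ => ?_
      simp only [mul_assoc]
    rw [Finset.sum_congr rfl fun j _ => e1 j, ← rt_sum, two_sq_rt]
    congr 1
    rw [Finset.sum_comm]
    have e4 : star S * S = ∑ i, ∑ l, star (y i) * (star (U i) * U l) * y l := by
      rw [hst, hS, Finset.sum_mul_sum]
      refine Finset.sum_congr rfl fun i _ => Finset.sum_congr rfl fun l _ => ?_
      simp only [mul_assoc]
    rw [e4]
    refine Finset.sum_congr rfl fun i _ => ?_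
    rw [Finset.sum_comm]
    refine Finset.sum_congr rfl fun l _ => ?_
    rw [← hpp i l, Finset.mul_sum, Finset.sum_mul]
  have h4 : ∀ j, two (y j - star (U j) * S) ^ 2 =
      two (y j) ^ 2 - 2 * rt (star (y j) * (star (U j) * S)) + two (star (U j) * S) ^ 2 :=
    fun j => two_sub_sq _ _
  simp only [h1, h4]
  rw [Finset.sum_add_distrib, Finset.sum_sub_distrib, ← Finset.mul_sum, h2, h3]
  ring

theorem polar_contr {r : ℕ} {U : Fin r → A}
    (hpp : ∀ j l, ∑ m, star (U j) * U m * (star (U m) * U l) = star (U j) * U l)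
    (y : Fin r → A) :
    two (∑ m, U m * y m) ^ 2 ≤ ∑ m, two (y m) ^ 2 ∧
      ∑ j, two (∑ m, ((if j = m then 1 else 0) - star (U j) * U m) * y m) ^ 2 ≤
        ∑ m, two (y m) ^ 2 := by
  have h1 := ra_key hpp y
  have h2 : 0 ≤ ∑ j, two (∑ m, ((if j = m then 1 else 0) - star (U j) * U m) * y m) ^ 2 :=
    Finset.sum_nonneg fun _ _ => sq_nonneg _
  have h3 : 0 ≤ two (∑ m, U m * y m) ^ 2 := sq_nonneg _
  constructor <;> linarith

private theorem ra_dot {r : ℕ} (x : Fin r → ℂ) : ∑ i, ‖x i‖ ^ 2 = (dotProduct (star x) x).re := by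
  rw [dotProduct, Complex.re_sum]
  refine Finset.sum_congr rfl fun i _ => ?_
  rw [Pi.star_apply, Complex.star_def, mul_comm, Complex.mul_conj, Complex.ofReal_re,
    Complex.normSq_eq_norm_sq]

/-- the transpose of a unitary matrix is a contraction -/
private theorem ra_contr {r : ℕ} {θ : Matrix (Fin r) (Fin r) ℂ} (h : θ * θ.conjTranspose = 1) :
    Contr θ.transpose := by
  intro x
  have h1 : θ.transpose.conjTranspose * θ.transpose = 1 := by
    have : θ.transpose.conjTranspose = θ.conjTranspose.transpose := rfl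
    rw [this, ← Matrix.transpose_mul, h, Matrix.transpose_one]
  rw [ra_dot, ra_dot, Matrix.star_mulVec, ← Matrix.dotProduct_mulVec, Matrix.mulVec_mulVec, h1,
    Matrix.one_mulVec]

private theorem ra_three (x y z : A) : two (x - y + z) ^ 2 ≤ 3 * (two x ^ 2 + two y ^ 2 + two z ^ 2) := by
  have h1 : two (x - y + z) ≤ two x + two y + two z :=
    (two_add_le _ _).trans (by linarith [two_sub_le x y])
  have h2 := pow_le_pow_left₀ (two_nonneg _) h1 2
  refine h2.trans ?_
  nlinarith [sq_nonneg (two x - two y), sq_nonneg (two y - two z), sq_nonneg (two x - two z)]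

theorem rowE_g0 (a : Avg A) {r : ℕ} {v U : Fin r → A} {H : Fin r → Fin r → A} {g0 : A}
    (hV : ∀ j, v j = ∑ l, U l * H l j)
    (hpp : ∀ j l, ∑ m, star (U j) * U m * (star (U m) * U l) = star (U j) * U l)
    {θ : a.ι → Matrix (Fin r) (Fin r) ℂ} (hθ : ∀ i, Uni (θ i))
    (hθ' : ∀ i, θ i * (θ i).conjTranspose = 1) (i : a.ι) :
    ∑ j, two ((a.u i * U j - ∑ l, θ i l j • U l) * g0) ^ 2 ≤
      3 * (∑ j, two (a.u i * v j - ∑ l, θ i l j • v l) ^ 2 +
        2 * ∑ j, ∑ l, two (H j l - if j = l then g0 else 0) ^ 2) := by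
  set X : Fin r → A := fun j => ∑ m, U m * (H m j - if m = j then g0 else 0) with hX
  have h1 : ∀ j, U j * g0 = v j - X j := by
    intro j
    rw [hV j, hX]
    simp only [mul_sub, mul_ite, mul_zero, Finset.sum_sub_distrib, Finset.sum_ite_eq', Finset.mem_univ,
      if_true, sub_sub_cancel]
  have h2 : ∀ j, (a.u i * U j - ∑ l, θ i l j • U l) * g0 =
      (a.u i * v j - ∑ l, θ i l j • v l) - a.u i * X j + ∑ l, θ i l j • X l := by
    intro j
    have e1 : (∑ l, θ i l j • U l) * g0 = ∑ l, θ i l j • v l - ∑ l, θ i l j • X l := by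
      rw [Finset.sum_mul, ← Finset.sum_sub_distrib]
      refine Finset.sum_congr rfl fun l _ => ?_
      rw [smul_mul_assoc, h1 l, smul_sub]
    rw [sub_mul, mul_assoc, h1 j, mul_sub, e1]
    abel
  have hXs : ∑ j, two (X j) ^ 2 ≤ ∑ j, ∑ l, two (H j l - if j = l then g0 else 0) ^ 2 := by
    rw [Finset.sum_comm]
    exact Finset.sum_le_sum fun j _ =>
      (polar_contr hpp fun m => H m j - if m = j then g0 else 0).1
  have h3 : ∑ j, two (a.u i * X j) ^ 2 = ∑ j, two (X j) ^ 2 :=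
    Finset.sum_congr rfl fun j _ => by rw [two_unitary_mul (a.u_star_mul i)]
  have h4 : ∑ j, two (∑ l, θ i l j • X l) ^ 2 ≤ ∑ j, two (X j) ^ 2 :=
    contr_mod (ra_contr (hθ' i)) X
  calc ∑ j, two ((a.u i * U j - ∑ l, θ i l j • U l) * g0) ^ 2 ≤
        ∑ j, 3 * (two (a.u i * v j - ∑ l, θ i l j • v l) ^ 2 + two (a.u i * X j) ^ 2 +
          two (∑ l, θ i l j • X l) ^ 2) := by
        refine Finset.sum_le_sum fun j _ => ?_
        rw [h2 j]
        exact ra_three _ _ _
    _ = 3 * (∑ j, two (a.u i * v j - ∑ l, θ i l j • v l) ^ 2 + ∑ j, two (a.u i * X j) ^ 2 +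
          ∑ j, two (∑ l, θ i l j • X l) ^ 2) := by
        rw [← Finset.mul_sum, Finset.sum_add_distrib, Finset.sum_add_distrib]
    _ ≤ _ := by
        rw [h3]
        linarith

theorem rowP_g0 {r : ℕ} {U : Fin r → A} {H : Fin r → Fin r → A} {g0 : A}
    (hpH : ∀ j l, ∑ m, star (U j) * U m * H m l = H j l)
    (hpp : ∀ j l, ∑ m, star (U j) * U m * (star (U m) * U l) = star (U j) * U l) :
    ∑ j, ∑ l, two (((if j = l then 1 else 0) - star (U j) * U l) * g0) ^ 2 ≤
      ∑ j, ∑ l, two (H j l - if j = l then g0 else 0) ^ 2 := by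
  have h1 : ∀ j l, ((if j = l then 1 else 0) - star (U j) * U l) * g0 =
      -∑ m, ((if j = m then 1 else 0) - star (U j) * U m) * (H m l - if m = l then g0 else 0) := by
    intro j l
    have e1 : ∑ m, ((if j = m then (1 : A) else 0) - star (U j) * U m) * H m l = 0 := by
      simp only [sub_mul, ite_mul, one_mul, zero_mul, Finset.sum_sub_distrib, Finset.sum_ite_eq,
        Finset.mem_univ, if_true]
      rw [hpH j l, sub_self]
    have e2 : ∑ m, ((if j = m then (1 : A) else 0) - star (U j) * U m) * (if m = l then g0 else 0) =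
        ((if j = l then 1 else 0) - star (U j) * U l) * g0 := by
      simp only [mul_ite, mul_zero, Finset.sum_ite_eq', Finset.mem_univ, if_true]
    have e3 : ∑ m, ((if j = m then (1 : A) else 0) - star (U j) * U m) * (H m l - if m = l then g0 else 0) =
        ∑ m, ((if j = m then (1 : A) else 0) - star (U j) * U m) * H m l -
          ∑ m, ((if j = m then (1 : A) else 0) - star (U j) * U m) * (if m = l then g0 else 0) := by
      rw [← Finset.sum_sub_distrib]
      exact Finset.sum_congr rfl fun m _ => mul_sub _ _ _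
    rw [e3, e1, e2, zero_sub, neg_neg]
  rw [Finset.sum_comm]
  rw [Finset.sum_comm (f := fun j l => two (H j l - if j = l then g0 else 0) ^ 2)]
  refine Finset.sum_le_sum fun l _ => ?_
  simp only [h1, two_neg]
  exact (polar_contr hpp fun m => H m l - if m = l then g0 else 0).2

theorem g0_le {r : ℕ} (hr : 1 ≤ r) {H : Fin r → Fin r → A} {g0 : A}
    (hg0 : g0 = (r : ℂ)⁻¹ • ∑ j, H j j) (hH : ∑ j, ∑ l, two (H j l) ^ 2 = r) :
    two g0 ^ 2 ≤ 1 := by
  have hr0 : (0 : ℝ) < r := by exact_mod_cast hr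
  have h1 : two g0 ≤ (r : ℝ)⁻¹ * ∑ j, two (H j j) := by
    rw [hg0, two_smul', norm_inv, Complex.norm_natCast]
    exact mul_le_mul_of_nonneg_left (two_sum_le _ _) (by positivity)
  have h2 : (∑ j, two (H j j)) ^ 2 ≤ r * ∑ j, two (H j j) ^ 2 := by
    have := sq_sum_le_card_mul_sum_sq (s := (Finset.univ : Finset (Fin r))) (f := fun j => two (H j j))
    rwa [Finset.card_univ, Fintype.card_fin] at this
  have h3 : ∑ j, two (H j j) ^ 2 ≤ r := by
    rw [← hH]
    refine Finset.sum_le_sum fun j _ => ?_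
    exact Finset.single_le_sum (f := fun l => two (H j l) ^ 2) (fun _ _ => sq_nonneg _) (Finset.mem_univ j)
  have h4 : (∑ j, two (H j j)) ^ 2 ≤ (r : ℝ) ^ 2 := by
    calc _ ≤ (r : ℝ) * ∑ j, two (H j j) ^ 2 := h2
      _ ≤ r * r := mul_le_mul_of_nonneg_left h3 hr0.le
      _ = (r : ℝ) ^ 2 := (sq _).symm
  calc two g0 ^ 2 ≤ ((r : ℝ)⁻¹ * ∑ j, two (H j j)) ^ 2 := pow_le_pow_left₀ (two_nonneg _) h1 2
    _ = ((r : ℝ)⁻¹) ^ 2 * (∑ j, two (H j j)) ^ 2 := mul_pow _ _ _
    _ ≤ ((r : ℝ)⁻¹) ^ 2 * (r : ℝ) ^ 2 := mul_le_mul_of_nonneg_left h4 (by positivity)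
    _ = 1 := by field_simp

theorem g0_ge {r : ℕ} (hr : 1 ≤ r) {H : Fin r → Fin r → A} {g0 : A}
    (hH : ∑ j, ∑ l, two (H j l) ^ 2 = r)
    (hK : ∑ j, ∑ l, two (H j l - if j = l then g0 else 0) ^ 2 ≤ 1 / 16 * r) :
    1 / 2 ≤ two g0 ^ 2 := by
  have hr0 : (0 : ℝ) < r := by exact_mod_cast hr
  have h1 : ∀ j l, two (H j l) ^ 2 ≤ 4 / 3 * (if j = l then two g0 ^ 2 else 0) +
      4 * two (H j l - if j = l then g0 else 0) ^ 2 := by
    intro j l
    have e1 : two (H j l) ≤ two (if j = l then g0 else 0) + two (H j l - if j = l then g0 else 0) := by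
      have := two_add_le (if j = l then g0 else 0) (H j l - if j = l then g0 else 0)
      rwa [add_sub_cancel] at this
    have e2 : two (if j = l then g0 else 0) ^ 2 = if j = l then two g0 ^ 2 else 0 := by
      split_ifs
      · rfl
      · rw [two_zero]
        norm_num
    rw [← e2]
    have e3 := pow_le_pow_left₀ (two_nonneg _) e1 2
    refine e3.trans ?_
    nlinarith [sq_nonneg (two (if j = l then g0 else 0) - 3 * two (H j l - if j = l then g0 else 0))]
  have h2 : (r : ℝ) ≤ 4 / 3 * (r * two g0 ^ 2) +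
      4 * ∑ j, ∑ l, two (H j l - if j = l then g0 else 0) ^ 2 := by
    calc (r : ℝ) = ∑ j, ∑ l, two (H j l) ^ 2 := hH.symm
      _ ≤ ∑ j, ∑ l, (4 / 3 * (if j = l then two g0 ^ 2 else 0) +
            4 * two (H j l - if j = l then g0 else 0) ^ 2) :=
          Finset.sum_le_sum fun j _ => Finset.sum_le_sum fun l _ => h1 j l
      _ = _ := by
          simp only [Finset.sum_add_distrib, ← Finset.mul_sum, Finset.sum_ite_eq, Finset.mem_univ, if_true,
            Finset.sum_const, Finset.card_univ, Fintype.card_fin, nsmul_eq_mul]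
  have h3 : (r : ℝ) * (3 / 4) ≤ r * (4 / 3 * two g0 ^ 2) := by linarith
  have h4 := le_of_mul_le_mul_left h3 hr0
  linarith

end Pool.Agent.PTH
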