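import Pool.Agent.PTH.TbL
import Pool.Agent.PTH.TbPj

/-!
# Toolbox: supports and polar decomposition (0.10)

The support of `x ≥ 0` is `spr x 0 = 1_{x > 0}`.
PROOFS.
* `mul_supp`: `cfc_mul_spr_eq_cfc` with `g = id` (`x ≥ 0`, so the only `s ≤ 0` in the spectrum is
  `0`).  `supp_mul_eq_zero`: `rmp 0 n x = h(x) x` with `h s = min (1/s) n` (continuous on
  `s ≥ 0`), so `cfc (rmp 0 n) x * y = 0`, limit.
* `polar`: `b = CFC.abs v` (`b² = v* v`), `h_n s = min (1/s) n` for `s > 0`, `n` for `s ≤ 0`,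
  that is `h_n s = (max s (1/n))⁻¹` (continuous, take `n ≥ 1`), `s h_n s = rmp 0 n s` on `s ≥ 0`.
  `w_n = v h_n(b)`: `w_n* w_m = h_n(b) b² h_m(b) = rmp 0 n (b) rmp 0 m (b)`, so `‖w_n‖ ≤ 1` and
  `‖w_n - w_m‖₂² = ‖rmp 0 n (b) - rmp 0 m (b)‖₂²` is Cauchy (`spr_tendsto`): limit `w`
  (`exists_lim`), `w* w = lim rmp 0 n (b)² = spr b 0`.  `w b = lim v h_n(b) b = v spr b 0 = v`
  (`v (1 - spr b 0)` has `‖.‖² = ‖(1-e) v* v (1-e)‖ = 0`).  `spr b 0 = spr (b*b) 0`
  (`spr_cfc_le`, `spr_le_spr_cfc`).  `w w*` is a projection (`w w* w = w` since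
  `‖w (1 - w* w)‖₂ = 0`), and it is the support of `v v* = w b² w*`: `v v* · w w* = v v*`, and if
  `v v* y = 0` then `b w* y = 0` (`‖b w* y‖² = ‖y* w b² w* y‖`), so `spr b 0 w* y = 0`, i.e. `w* y = 0`.
  Use `supp_le_of_mul` and `supp_mul_eq_zero` with `y = 1 - spr (v v*) 0`.
* `rt_supp_add_le`: `p = supp x`, `q = supp y`, `e = supp (p + q)`; `supp (x+y) ≤ e`
  (`(x + y) e = x + y`).  `v = q (1 - p)`; `f = p + supp (v* v)` is a projection (`supp (v* v) ≤
  1 - p`), `p f = p`, `q f = q` (`q (1 - p) (1 - supp (v* v)) = 0`), so `(p + q) f = p + q`,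
  `e ≤ f`, and `rt f = rt p + rt supp (v* v) = rt p + rt supp (v v*) ≤ rt p + rt q`.
* `rt_supp_lim_le`: for fixed `k`, `cfc (rmp 0 k) (x n) → cfc (rmp 0 k) x` in 2-norm
  (`two_cfc_sub_le`, `rmp 0 k` is `k`-Lipschitz), `rt (cfc (rmp 0 k) (x n)) ≤ rt (spr (x n) 0) ≤ c`;
  then `k → ∞`.
-/

open Filter Topology

namespace Pool.Agent.PTH

open TrAlg

variable {N : Type*} [CStarAlgebra N] [PartialOrder N] [StarOrderedRing N] [TracialVN N]

/-- `n / max 1 (n s)`; times `s` it is `rmp 0 n s` for `s ≥ 0`. -/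
private noncomputable def hq (n : ℕ) (s : ℝ) : ℝ := (n : ℝ) / max 1 ((n : ℝ) * s)

private theorem hq_cont (n : ℕ) : Continuous (hq n) := by
  unfold hq
  refine Continuous.div (by fun_prop) (by fun_prop) fun s => ?_
  have : (1 : ℝ) ≤ max 1 ((n : ℝ) * s) := le_max_left _ _
  exact ne_of_gt (by linarith)

private theorem hq_mul (n : ℕ) {s : ℝ} (hs : 0 ≤ s) : hq n s * s = rmp 0 n s := by
  unfold hq rmp
  rw [sub_zero, max_eq_left hs]
  rcases le_total ((n : ℝ) * s) 1 with h | h
  · rw [max_eq_left h, min_eq_right h, div_one]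
  · rw [max_eq_right h, min_eq_left h]
    have h1 : (n : ℝ) * s ≠ 0 := ne_of_gt (by linarith)
    rw [div_mul_eq_mul_div, div_self h1]

private theorem hq_mul_cfc {x : N} (hx : 0 ≤ x) (n : ℕ) :
    cfc (hq n) x * x = cfc (rmp 0 n) x := by
  have hs := IsSelfAdjoint.of_nonneg hx
  have h1 : cfc (fun s : ℝ => hq n s * s) x = cfc (hq n) x * cfc (fun s : ℝ => s) x :=
    cfc_mul _ _ x (hq_cont n).continuousOn continuousOn_id
  have h2 : cfc (fun s : ℝ => s) x = x := cfc_id' ℝ x
  rw [h2] at h1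
  rw [← h1]
  exact cfc_congr fun s hs => hq_mul n (spectrum_nonneg_of_nonneg hx hs)

private theorem hq_sa (x : N) (n : ℕ) : star (cfc (hq n) x) = cfc (hq n) x :=
  (cfc_predicate (R := ℝ) (p := IsSelfAdjoint) (hq n) x).star_eq

theorem mul_supp {x : N} (hx : 0 ≤ x) : x * spr x 0 = x := by
  have hs := IsSelfAdjoint.of_nonneg hx
  have h1 := cfc_mul_spr_eq_cfc hs (g := fun s : ℝ => s) continuousOn_id (t := 0) (fun s hs h =>
    le_antisymm h (spectrum_nonneg_of_nonneg hx hs))
  have h2 : cfc (fun s : ℝ => s) x = x := cfc_id' ℝ x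
  rwa [h2] at h1

theorem supp_mul_eq_zero {x : N} (hx : 0 ≤ x) {y : N} (h : x * y = 0) : spr x 0 * y = 0 := by
  have hl := lim_mul_right y (spr_tendsto x 0)
  refine lim_unique hl ?_
  have h1 : ∀ n : ℕ, cfc (rmp 0 n) x * y = 0 := fun n => by
    rw [← hq_mul_cfc hx n, mul_assoc, h, mul_zero]
  simp only [h1]
  exact lim_const 0

theorem supp_le_of_mul {x : N} (hx : 0 ≤ x) {p : N} (hp : Prj p) (h : x * p = x) :
    spr x 0 ≤ p := by
  have h1 : x * (1 - p) = 0 := by rw [mul_sub, mul_one, h, sub_self]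
  have h2 := supp_mul_eq_zero hx h1
  rw [mul_sub, mul_one, sub_eq_zero] at h2
  exact prj_le_of_mul (spr_prj x 0) hp h2.symm

theorem supp_mono {x y : N} (hx : 0 ≤ x) {C : ℝ} (hC : 0 ≤ C) (h : x ≤ C • y) : spr x 0 ≤ spr y 0 := by
  refine supp_le_of_mul hx (spr_prj y 0) ?_
  rcases hC.eq_or_lt with h0 | h0
  · rw [← h0, zero_smul] at h
    rw [le_antisymm h hx, zero_mul]
  · have hy : 0 ≤ y := by
      have h1 : 0 ≤ C • y := hx.trans h
      have h2 := smul_nonneg (inv_nonneg.2 hC) h1
      rwa [smul_smul, inv_mul_cancel₀ h0.ne', one_smul] at h2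
    have h3 : (C • y) * (1 - spr y 0) = 0 := by
      rw [smul_mul_assoc, mul_sub, mul_one, mul_supp hy, sub_self, smul_zero]
    have h4 := mul_eq_zero_of_le hx h h3
    rw [mul_sub, mul_one, sub_eq_zero] at h4
    exact h4.symm

theorem supp_prj {p : N} (hp : Prj p) : spr p 0 = p :=
  le_antisymm (supp_le_of_mul (proj_nonneg hp) hp hp.2)
    (prj_le_of_mul hp (spr_prj p 0) (mul_supp (proj_nonneg hp)))

theorem supp_eq_zero_iff {x : N} (hx : 0 ≤ x) : spr x 0 = 0 ↔ x = 0 := by
  constructor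
  · intro h
    rw [← mul_supp hx, h, mul_zero]
  · intro h
    rw [h]
    exact supp_prj prj_zero

private theorem mul_one_sub_zero {x p : N} (h : x * (1 - p) = 0) : x * p = x := by
  rw [mul_sub, mul_one, sub_eq_zero] at h
  exact h.symm

private theorem mul_right_zero {v y : N} (h : star v * v * y = 0) : v * y = 0 := by
  have h1 : star (v * y) * (v * y) = 0 := by
    rw [star_mul]
    have : star y * star v * (v * y) = star y * (star v * v * y) := by noncomm_ring
    rw [this, h, mul_zero]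
  exact (CStarRing.star_mul_self_eq_zero_iff _).1 h1

private theorem supp_sq {b : N} (hb : 0 ≤ b) : spr (b * b) 0 = spr b 0 := by
  have hs := (IsSelfAdjoint.of_nonneg hb).star_eq
  have hbb : 0 ≤ b * b := by
    have := star_mul_self_nonneg b
    rwa [hs] at this
  refine le_antisymm (supp_le_of_mul hbb (spr_prj b 0) ?_) (supp_le_of_mul hb (spr_prj _ 0) ?_)
  · rw [mul_assoc, mul_supp hb]
  · refine mul_one_sub_zero (mul_right_zero ?_)
    rw [hs, mul_sub, mul_one, mul_supp hbb, sub_self]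

/-- Partial isometries: `star w * w` a projection gives `w * star w` a projection and
`w (w* w) = w`. -/
private theorem piso' {w : N} (h : Prj (star w * w)) : w * (star w * w) = w ∧ Prj (w * star w) := by
  have h1 : w * (star w * w) = w :=
    mul_one_sub_zero (mul_right_zero (prj_mul_one_sub h))
  refine ⟨h1, by rw [star_mul, star_star], ?_⟩
  have h2 : w * star w * (w * star w) = w * (star w * w) * star w := by noncomm_ring
  rw [h2, h1]

/-- POLAR DECOMPOSITION. -/
theorem polar (v : N) : ∃ w : N, ‖w‖ ≤ 1 ∧ w * CFC.abs v = v ∧ star w * v = CFC.abs v ∧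
    star w * w = spr (star v * v) 0 ∧ w * star w = spr (v * star v) 0 := by
  set b : N := CFC.abs v with hbdef
  have hb : 0 ≤ b := CFC.abs_nonneg v
  have hbs : star b = b := (IsSelfAdjoint.of_nonneg hb).star_eq
  have hbb : b * b = star v * v := CFC.abs_mul_abs v
  set e : N := spr b 0 with he
  have hep : Prj e := spr_prj b 0
  have hbe : b * e = b := mul_supp hb
  have hve : v * e = v := by
    refine mul_one_sub_zero (mul_right_zero ?_)
    rw [← hbb, mul_assoc, mul_sub, mul_one, hbe, sub_self, mul_zero]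
  set k : ℕ → N := fun n => cfc (hq n) b with hk
  set r : ℕ → N := fun n => cfc (rmp 0 n) b with hr
  have hks : ∀ n, star (k n) = k n := fun n => hq_sa b n
  have hkb : ∀ n, k n * b = r n := fun n => hq_mul_cfc hb n
  have hrs : ∀ n, star (r n) = r n := fun n =>
    (IsSelfAdjoint.of_nonneg (rmp_cfc_nonneg b 0 n)).star_eq
  have hbk : ∀ n, b * k n = r n := fun n => by
    have h1 := congrArg star (hkb n)
    rwa [star_mul, hks, hbs, hrs] at h1
  have hr1 : ∀ n, ‖r n‖ ≤ 1 := fun n => rmp_cfc_norm_le b 0 n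
  have hrl : Tendsto (fun n => two (r n - e)) atTop (𝓝 0) := spr_tendsto b 0
  set w : ℕ → N := fun n => v * k n with hw
  have hww : ∀ m n, star (w m) * w n = r m * r n := fun m n => by
    have h1 : star (w m) * w n = k m * (star v * v) * k n := by
      rw [hw]
      simp only [star_mul, hks]
      noncomm_ring
    rw [h1, ← hbb]
    have h2 : k m * (b * b) * k n = (k m * b) * (b * k n) := by noncomm_ring
    rw [h2, hkb, hbk]
  have hw1 : ∀ n, ‖w n‖ ≤ 1 := fun n => by
    have h1 : ‖w n‖ * ‖w n‖ ≤ 1 := by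
      rw [← CStarRing.norm_star_mul_self, hww]
      refine (norm_mul_le _ _).trans ?_
      have := hr1 n
      have := norm_nonneg (r n)
      nlinarith
    nlinarith [norm_nonneg (w n)]
  have hwd : ∀ m n, two (w m - w n) = two (r m - r n) := fun m n => by
    refine (sq_eq_sq₀ (two_nonneg _) (two_nonneg _)).1 ?_
    rw [two_sq_rt, two_sq_rt]
    congr 1
    have h1 : star (w m - w n) * (w m - w n) =
        star (w m) * w m - star (w m) * w n - star (w n) * w m + star (w n) * w n := by
      rw [star_sub]; noncomm_ring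
    have h2 : star (r m - r n) * (r m - r n) =
        r m * r m - r m * r n - r n * r m + r n * r n := by
      rw [star_sub, hrs, hrs]; noncomm_ring
    rw [h1, h2, hww, hww, hww, hww]
  obtain ⟨u, hu1, hul⟩ := exists_lim hw1 (by
    intro ε hε
    have h1 := hrl.eventually (ge_mem_nhds (show (0 : ℝ) < ε / 2 by positivity))
    obtain ⟨n0, hn0⟩ := eventually_atTop.1 h1
    refine ⟨n0, fun m hm n hn => ?_⟩
    rw [hwd]
    have h2 := two_sub_le_sub (r m) e (r n)
    have h3 := hn0 m hm
    have h4 := hn0 n hn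
    rw [two_sub_comm e (r n)] at h2
    linarith)
  have huu : star u * u = e := by
    have h1 : Tendsto (fun n => two (star (w n) * w n - star u * u)) atTop (𝓝 0) :=
      lim_mul hw1 (lim_star hul) hul
    have h2 : Tendsto (fun n => two (r n * r n - e * e)) atTop (𝓝 0) := lim_mul hr1 hrl hrl
    rw [hep.2] at h2
    refine lim_unique h1 (h2.congr fun n => ?_)
    rw [hww]
  have hub : u * b = v := by
    have h1 := lim_mul_right b hul
    have h2 := lim_mul_left v hrl
    rw [hve] at h2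
    refine lim_unique h1 (h2.congr fun n => ?_)
    rw [hw]
    simp only [mul_assoc, hkb]
  have hpu : Prj (star u * u) := huu ▸ hep
  obtain ⟨hu2, hpg⟩ := piso' hpu
  rw [huu] at hu2
  have heu : e * star u = star u := by
    have := congrArg star hu2
    rwa [star_mul, hep.1] at this
  refine ⟨u, hu1, hub, ?_, ?_, ?_⟩
  · rw [← hub, ← mul_assoc, huu]
    have := congrArg star hbe
    rwa [star_mul, hbs, hep.1] at this
  · rw [huu, ← hbb, supp_sq hb]
  · have hvs : star v = b * star u := by rw [← hub, star_mul, hbs]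
    have hvv : 0 ≤ v * star v := mul_star_self_nonneg v
    refine le_antisymm ?_ (supp_le_of_mul hvv hpg ?_)
    · refine prj_le_of_mul hpg (spr_prj _ 0) (mul_one_sub_zero ?_)
      have h1 : v * star v * (1 - spr (v * star v) 0) = 0 := by
        rw [mul_sub, mul_one, mul_supp hvv, sub_self]
      have h2 : star v * (1 - spr (v * star v) 0) = 0 :=
        mul_right_zero (by rwa [star_star])
      rw [hvs, mul_assoc] at h2
      have h3 := supp_mul_eq_zero hb h2
      rw [← mul_assoc, ← he, heu, ← hvs] at h3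
      rw [mul_assoc, h3, mul_zero]
    · have h1 : v * star v * (u * star u) = v * (star v * u) * star u := by noncomm_ring
      have h2 : star v * u = b := by
        rw [hvs, mul_assoc, huu, hbe]
      rw [h1, h2]
      have h3 : v * b * star u = v * (b * star u) := by noncomm_ring
      rw [h3, ← hvs]

theorem rt_supp_comm (v : N) : rt (spr (star v * v) 0) = rt (spr (v * star v) 0) := by
  obtain ⟨w, -, -, -, h1, h2⟩ := polar v
  rw [← h1, ← h2, rt_comm]

/-- Partial isometries: `star w * w` a projection gives `w * star w` a projection and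
`w (w* w) = w`. -/
theorem piso {w : N} (h : Prj (star w * w)) : w * (star w * w) = w ∧ Prj (w * star w) := piso' h

theorem rt_supp_add_le {x y : N} (hx : 0 ≤ x) (hy : 0 ≤ y) :
    rt (spr (x + y) 0) ≤ rt (spr x 0) + rt (spr y 0) := by
  set p : N := spr x 0 with hp
  set q : N := spr y 0 with hq
  have Pp : Prj p := spr_prj x 0
  have Pq : Prj q := spr_prj y 0
  set v : N := q * (1 - p) with hv
  set g : N := spr (star v * v) 0 with hg
  have Pg : Prj g := spr_prj _ 0
  have hvp : v * p = 0 := by rw [hv, mul_assoc, prj_one_sub_mul Pp, mul_zero]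
  have hgp : g * p = 0 := supp_mul_eq_zero (star_mul_self_nonneg v) (by
    rw [mul_assoc, hvp, mul_zero])
  have hpg : p * g = 0 := prj_orth_symm Pg Pp hgp
  have Pf : Prj (p + g) := prj_add Pp Pg hpg
  have hvg : v * (1 - g) = 0 := by
    refine (CStarRing.star_mul_self_eq_zero_iff _).1 ?_
    have h1 : star v * v * (1 - g) = 0 := by
      rw [mul_sub, mul_one, mul_supp (star_mul_self_nonneg v), sub_self]
    calc star (v * (1 - g)) * (v * (1 - g)) = star (1 - g) * (star v * v * (1 - g)) := by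
          rw [star_mul]; noncomm_ring
      _ = 0 := by rw [h1, mul_zero]
  have hpf : p * (p + g) = p := by rw [mul_add, Pp.2, hpg, add_zero]
  have hqf : q * (p + g) = q := by
    have h1 : q * (1 - (p + g)) = v * (1 - g) - q * (p * g) := by
      rw [hv]; noncomm_ring
    rw [hvg, hpg, mul_zero, sub_zero, mul_sub, mul_one, sub_eq_zero] at h1
    exact h1.symm
  have hxf : x * (p + g) = x := by
    have h1 : x * p = x := mul_supp hx
    calc x * (p + g) = x * p * (p + g) := by rw [h1]
      _ = x * (p * (p + g)) := mul_assoc _ _ _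
      _ = x := by rw [hpf, h1]
  have hyf : y * (p + g) = y := by
    have h1 : y * q = y := mul_supp hy
    calc y * (p + g) = y * q * (p + g) := by rw [h1]
      _ = y * (q * (p + g)) := mul_assoc _ _ _
      _ = y := by rw [hqf, h1]
  have h2 : spr (x + y) 0 ≤ p + g := supp_le_of_mul (add_nonneg hx hy) Pf (by
    rw [add_mul, hxf, hyf])
  have h3 : rt g ≤ rt q := by
    rw [hg, rt_supp_comm]
    refine rt_mono (supp_le_of_mul (mul_star_self_nonneg v) Pq ?_)
    have h4 : star v * q = star v := by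
      rw [hv, star_mul, Pq.1, mul_assoc, Pq.2]
    rw [mul_assoc, h4]
  have h5 := rt_mono h2
  rw [rt_add] at h5
  linarith

private theorem rmp_lip (t : ℝ) (k : ℕ) : LipschitzWith (k : NNReal) (rmp t k) := by
  refine LipschitzWith.of_dist_le_mul fun a b => ?_
  rw [Real.dist_eq, Real.dist_eq]
  unfold rmp
  have h1 : |min 1 ((k : ℝ) * max (a - t) 0) - min 1 ((k : ℝ) * max (b - t) 0)| ≤
      |(k : ℝ) * max (a - t) 0 - (k : ℝ) * max (b - t) 0| := by
    have := abs_min_sub_min_le_max (1 : ℝ) ((k : ℝ) * max (a - t) 0) 1 ((k : ℝ) * max (b - t) 0)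
    simpa using this
  have h2 : |max (a - t) 0 - max (b - t) 0| ≤ |a - b| := by
    have := abs_max_sub_max_le_max (a - t) 0 (b - t) 0
    simpa using this
  refine h1.trans ?_
  rw [← mul_sub, abs_mul, Nat.abs_cast]
  exact mul_le_mul_of_nonneg_left h2 (Nat.cast_nonneg k)

theorem rt_supp_lim_le {x : ℕ → N} {y : N} {c : ℝ} (hx : ∀ n, 0 ≤ x n) (hy : 0 ≤ y)
    (h : Tendsto (fun n => two (x n - y)) atTop (𝓝 0)) (hc : ∀ n, rt (spr (x n) 0) ≤ c) :
    rt (spr y 0) ≤ c := by
  refine le_of_tendsto' (lim_rt (spr_tendsto y 0)) fun k => ?_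
  have h1 : Tendsto (fun n => two (cfc (rmp 0 k) (x n) - cfc (rmp 0 k) y)) atTop (𝓝 0) := by
    have h2 := h.const_mul (k : ℝ)
    rw [mul_zero] at h2
    refine squeeze_zero (fun _ => two_nonneg _) (fun n => ?_) h2
    exact two_cfc_sub_le (IsSelfAdjoint.of_nonneg (hx n)) (IsSelfAdjoint.of_nonneg hy)
      (rmp_lip 0 k)
  exact le_of_tendsto' (lim_rt h1) fun n => (rt_mono (rmp_le_spr (x n) 0 k)).trans (hc n)

end Pool.Agent.PTH
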