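import Pool.Agent.PTH.Tb2
import Pool.Agent.PTH.AvE

/-!
# Toolbox: Powers-Størmer (0.4) and its consequence for `d1`

PROOFS.
* `two_sub_sq_le_one`: `d = a - b`, `s = a + b`, `a² - b² = (s d + d s)/2`, `s ≥ d`, `s ≥ -d`.
  `f_n(r) = max (-1) (min 1 (n r))`, `‖f_n(d)‖ ≤ 1`.  `rt ((a² - b²) f_n(d)) = rt (s (d f_n(d)))`
  (trace, `d` commutes with `f_n(d)`).  `g(r) = r f_n(r) ≥ 0`, `g = g₊ + g₋`, `g₊(r) = g(r)` for
  `r ≥ 0`, else `0`; `g₋(r) = g(r)` for `r ≤ 0`, else `0` (continuous).  `rt (s g₊(d)) ≥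
  rt (d g₊(d))`, `rt (s g₋(d)) ≥ rt (-d g₋(d))` (`rt_mul_mono`), the sum is
  `rt ((|r|² |f_n(r)|)(d)) ≥ rt (d²) - 1/n` since `r² (1 - |f_n(r)|) ≤ 1/n²`.  So
  `‖d‖₂² - 1/n ≤ ‖a² - b²‖₁`.
* `two_sqrt_sub_sq_le`: `a = CFC.sqrt x`, `b = CFC.sqrt y`, `CFC.sqrt_mul_sqrt_self`.
* `en_le_d1`: `2 e(a) = ∑ p_i ‖u_i a u_i* - a‖₂²` (`Avg.en_eq_conj`), `(u a u*)² = u a² u*`.
* `d1_prj_le` (0.3): `one_proj_sub_le` (Tb1) for `f` and `u_i f u_i*` (the same trace), so
  `d1(f) ≤ ∑ p_i (2 τ(f))^{1/2} ‖u_i f u_i* - f‖₂ ≤ (2τ(f))^{1/2} (2 e(f))^{1/2}`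
  (`Avg.sum_two_le`) `= 2 (τ(f) e(f))^{1/2}`.
-/

open Filter Topology

namespace Pool.Agent.PTH

open TrAlg

variable {N : Type*} [CStarAlgebra N] [PartialOrder N] [StarOrderedRing N] [TracialVN N]

omit [TracialVN N] in
private theorem ps_cfc {d : N} (hd : IsSelfAdjoint d) (n : ℕ) (hn : 0 < n) :
    ∃ P Q : N, 0 ≤ d * P ∧ 0 ≤ -d * Q ∧ d * P = P * d ∧ d * Q = Q * d ∧ ‖P - Q‖ ≤ 1 ∧
      d * d ≤ d * (d * P) + d * (d * Q) + (1 / (n : ℝ)) • (1 : N) := by
  have hn' : (0 : ℝ) < n := by exact_mod_cast hn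
  set p : ℝ → ℝ := fun r => min 1 ((n : ℝ) * max r 0) with hp
  set q : ℝ → ℝ := fun r => min 1 ((n : ℝ) * max (-r) 0) with hq
  have hpc : Continuous p := by fun_prop
  have hqc : Continuous q := by fun_prop
  have hp0 : ∀ r, 0 ≤ p r := fun r => le_min zero_le_one (by positivity)
  have hq0 : ∀ r, 0 ≤ q r := fun r => le_min zero_le_one (by positivity)
  have hdid : cfc (fun r : ℝ => r) d = d := cfc_id' ℝ d
  have hP : d * cfc p d = cfc (fun r => r * p r) d := by
    nth_rewrite 1 [← hdid]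
    rw [← cfc_mul (fun r => r) p d (by fun_prop) hpc.continuousOn]
  have hQ : d * cfc q d = cfc (fun r => r * q r) d := by
    nth_rewrite 1 [← hdid]
    rw [← cfc_mul (fun r => r) q d (by fun_prop) hqc.continuousOn]
  have hP' : cfc p d * d = cfc (fun r => r * p r) d := by
    nth_rewrite 2 [← hdid]
    rw [← cfc_mul p (fun r => r) d hpc.continuousOn (by fun_prop)]
    congr 1
    ext r
    ring
  have hQ' : cfc q d * d = cfc (fun r => r * q r) d := by
    nth_rewrite 2 [← hdid]
    rw [← cfc_mul q (fun r => r) d hqc.continuousOn (by fun_prop)]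
    congr 1
    ext r
    ring
  refine ⟨cfc p d, cfc q d, ?_, ?_, hP.trans hP'.symm, hQ.trans hQ'.symm, ?_, ?_⟩
  · rw [hP]
    refine cfc_nonneg fun r _ => ?_
    rcases le_total 0 r with h | h
    · exact mul_nonneg h (hp0 r)
    · have : p r = 0 := by
        simp only [hp]
        rw [max_eq_right h, mul_zero, min_eq_right zero_le_one]
      rw [this, mul_zero]
  · rw [neg_mul, hQ, ← cfc_neg]
    refine cfc_nonneg fun r _ => ?_
    rcases le_total 0 r with h | h
    · have : q r = 0 := by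
        simp only [hq]
        rw [max_eq_right (by linarith), mul_zero, min_eq_right zero_le_one]
      rw [this, mul_zero, neg_zero]
    · have := mul_nonneg (neg_nonneg.2 h) (hq0 r)
      linarith
  · rw [← cfc_sub p q d hpc.continuousOn hqc.continuousOn]
    refine norm_cfc_le zero_le_one fun r _ => ?_
    rw [Real.norm_eq_abs, abs_le]
    have h1 : p r ≤ 1 := min_le_left _ _
    have h2 : q r ≤ 1 := min_le_left _ _
    have h3 := hp0 r
    have h4 := hq0 r
    constructor <;> linarith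
  · have e1 : d * d = cfc (fun r : ℝ => r * r) d := by
      nth_rewrite 1 2 [← hdid]
      rw [← cfc_mul (fun r => r) (fun r => r) d (by fun_prop) (by fun_prop)]
    have e2 : d * (d * cfc p d) = cfc (fun r : ℝ => r * (r * p r)) d := by
      rw [hP]
      nth_rewrite 1 [← hdid]
      rw [← cfc_mul (fun r => r) (fun r => r * p r) d (by fun_prop) (by fun_prop)]
    have e3 : d * (d * cfc q d) = cfc (fun r : ℝ => r * (r * q r)) d := by
      rw [hQ]
      nth_rewrite 1 [← hdid]
      rw [← cfc_mul (fun r => r) (fun r => r * q r) d (by fun_prop) (by fun_prop)]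
    have e4 : (1 / (n : ℝ)) • (1 : N) = cfc (fun _ : ℝ => 1 / (n : ℝ)) d := by
      rw [cfc_const (1 / (n : ℝ)) d, Algebra.algebraMap_eq_smul_one]
    rw [e1, e2, e3, e4, ← cfc_add d (fun r : ℝ => r * (r * p r)) (fun r : ℝ => r * (r * q r)) (by fun_prop) (by fun_prop),
      ← cfc_add d _ _ (by fun_prop) (by fun_prop)]
    refine cfc_mono (fun r _ => ?_) (by fun_prop) (by fun_prop)
    -- `r² ≤ r² (p + q) + 1/n`
    have hpq : 1 ≤ p r + q r ∨ |r| ≤ 1 / n := by
      by_cases h : |r| ≤ 1 / n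
      · exact Or.inr h
      · left
        push Not at h
        rw [div_lt_iff₀ hn'] at h
        rcases le_total 0 r with h0 | h0
        · have : p r = 1 := by
            simp only [hp]
            rw [max_eq_left h0, min_eq_left]
            rw [abs_of_nonneg h0] at h
            linarith
          rw [this]
          linarith [hq0 r]
        · have : q r = 1 := by
            simp only [hq]
            rw [max_eq_left (by linarith), min_eq_left]
            rw [abs_of_nonpos h0] at h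
            linarith
          rw [this]
          linarith [hp0 r]
    have hr2 : 0 ≤ r * r := mul_self_nonneg r
    have hn1 : (1 : ℝ) ≤ n := by exact_mod_cast hn
    rcases hpq with h | h
    · have : 0 ≤ 1 / (n : ℝ) := by positivity
      nlinarith
    · have h1 : r * r ≤ 1 / n := by
        have h2 : r * r = |r| * |r| := (abs_mul_abs_self r).symm
        have h3 : 1 / (n : ℝ) ≤ 1 := by rw [div_le_one hn']; exact hn1
        rw [h2]
        nlinarith [abs_nonneg r]
      have h3 := mul_nonneg hr2 (hp0 r)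
      have h4 := mul_nonneg hr2 (hq0 r)
      nlinarith

/-- POWERS-STØRMER. -/
theorem two_sub_sq_le_one {a b : N} (ha : 0 ≤ a) (hb : 0 ≤ b) :
    two (a - b) ^ 2 ≤ one (a * a - b * b) := by
  have hsa : IsSelfAdjoint a := IsSelfAdjoint.of_nonneg ha
  have hsb : IsSelfAdjoint b := IsSelfAdjoint.of_nonneg hb
  set d : N := a - b with hd
  have hdsa : IsSelfAdjoint d := hsa.sub hsb
  have key : ∀ n : ℕ, 0 < n → two d ^ 2 ≤ one (a * a - b * b) + 1 / (n : ℝ) := by
    intro n hn
    obtain ⟨P, Q, hP, hQ, hPc, hQc, hnorm, hle⟩ := ps_cfc hdsa n hn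
    have h1 : two d ^ 2 ≤ rt (d * (d * P)) + rt (d * (d * Q)) + 1 / (n : ℝ) := by
      rw [two_sq_sa hdsa]
      have := rt_mono hle
      rw [rt_add, rt_add, rt_smul, rt_one, mul_one] at this
      exact this
    set s : N := a + b with hs
    have hds : d ≤ s := by
      rw [hd, hs, ← sub_nonneg]
      have : a + b - (a - b) = b + b := by abel
      rw [this]
      exact add_nonneg hb hb
    have hds' : -d ≤ s := by
      rw [hd, hs, ← sub_nonneg]
      have : a + b - -(a - b) = a + a := by abel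
      rw [this]
      exact add_nonneg ha ha
    have h2 : rt (d * (d * P)) ≤ rt (s * (d * P)) := rt_mul_mono' hP hds
    have h3 : rt (-d * (-d * Q)) ≤ rt (s * (-d * Q)) := rt_mul_mono' hQ hds'
    have h3' : rt (d * (d * Q)) ≤ -rt (s * (d * Q)) := by
      have e1 : -d * (-d * Q) = d * (d * Q) := by noncomm_ring
      have e2 : s * (-d * Q) = -(s * (d * Q)) := by noncomm_ring
      rw [e1, e2, rt_neg] at h3
      exact h3
    have h4 : rt ((a * a - b * b) * (P - Q)) = rt (s * (d * P)) - rt (s * (d * Q)) := by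
      have hF : ∀ F : N, d * F = F * d → rt ((a * a - b * b) * F) = rt (s * (d * F)) := by
        intro F hF
        have e1 : rt (s * d * F) + rt (d * s * F) = 2 * rt ((a * a - b * b) * F) := by
          rw [← rt_add]
          have e2 : s * d * F + d * s * F = (a * a - b * b) * F + (a * a - b * b) * F := by
            rw [hs, hd]
            noncomm_ring
          rw [e2, rt_add]
          ring
        have e3 : rt (d * s * F) = rt (s * d * F) := by
          have : rt (d * s * F) = rt (s * F * d) := by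
            rw [mul_assoc, rt_comm]
          rw [this, mul_assoc, ← hF, ← mul_assoc]
        rw [e3] at e1
        rw [mul_assoc] at e1
        linarith
      rw [mul_sub, rt_sub, hF P hPc, hF Q hQc]
    have h5 : rt ((a * a - b * b) * (P - Q)) ≤ one (a * a - b * b) :=
      (rt_mul_le_one _ _).trans (mul_le_of_le_one_right (one_nonneg _) hnorm)
    linarith
  refine le_of_forall_pos_le_add fun ε hε => ?_
  obtain ⟨n, hn⟩ := exists_nat_gt (1 / ε)
  have hn0 : 0 < n := by
    rcases Nat.eq_zero_or_pos n with h | h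
    · rw [h, Nat.cast_zero] at hn
      have : 0 < 1 / ε := by positivity
      linarith
    · exact h
  have hn' : (0 : ℝ) < n := by exact_mod_cast hn0
  have := key n hn0
  have h6 : 1 / (n : ℝ) ≤ ε := by
    rw [div_le_iff₀ hn']
    rw [div_lt_iff₀ hε] at hn
    linarith
  linarith

theorem two_sqrt_sub_sq_le {x y : N} (hx : 0 ≤ x) (hy : 0 ≤ y) :
    two (CFC.sqrt x - CFC.sqrt y) ^ 2 ≤ one (x - y) := by
  have h := two_sub_sq_le_one (CFC.sqrt_nonneg x) (CFC.sqrt_nonneg y)
  rwa [CFC.sqrt_mul_sqrt_self x hx, CFC.sqrt_mul_sqrt_self y hy] at h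

omit [PartialOrder N] [StarOrderedRing N] [TracialVN N] in
private theorem conj_mul {u : N} (hu : star u * u = 1) (x y : N) :
    (u * x * star u) * (u * y * star u) = u * (x * y) * star u := by
  have : u * x * star u * (u * y * star u) = u * x * (star u * u) * y * star u := by noncomm_ring
  rw [this, hu, mul_one]
  noncomm_ring

/-- `2 e(a) ≤ d1(a²)` for `a ≥ 0`. -/
theorem en_le_d1 (a : Avg N) {x : N} (hx : 0 ≤ x) : 2 * a.en x ≤ a.d1 (x * x) := by
  rw [a.en_eq_conj]
  have e : 2 * (1 / 2 * ∑ i, a.p i * two (a.u i * x * star (a.u i) - x) ^ 2) =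
      ∑ i, a.p i * two (a.u i * x * star (a.u i) - x) ^ 2 := by ring
  rw [e]
  unfold Avg.d1
  refine Finset.sum_le_sum fun i _ => mul_le_mul_of_nonneg_left ?_ (a.p_pos i).le
  have h := two_sub_sq_le_one (star_right_conjugate_nonneg hx (a.u i)) hx
  rwa [conj_mul (a.u_star_mul i)] at h

/-- `2 e(x^{1/2}) ≤ d1(x)` for `x ≥ 0`. -/
theorem en_sqrt_le_d1 (a : Avg N) {x : N} (hx : 0 ≤ x) : 2 * a.en (CFC.sqrt x) ≤ a.d1 x := by
  have h := en_le_d1 a (CFC.sqrt_nonneg x)
  rwa [CFC.sqrt_mul_sqrt_self x hx] at h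

/-- `d1(f) ≤ 2 (e(f) τ(f))^{1/2}` for a projection `f`. -/
theorem d1_prj_le (a : Avg N) {f : N} (hf : Prj f) :
    a.d1 f ≤ 2 * Real.sqrt (a.en f * rt f) := by
  have h1 : a.d1 f ≤ Real.sqrt (2 * rt f) * ∑ i, a.p i * two (a.u i * f * star (a.u i) - f) := by
    unfold Avg.d1
    rw [Finset.mul_sum]
    refine Finset.sum_le_sum fun i _ => ?_
    have hg : Prj (a.u i * f * star (a.u i)) := by
      refine ⟨?_, ?_⟩
      · rw [star_mul, star_mul, star_star, hf.1, mul_assoc]
      · rw [conj_mul (a.u_star_mul i), hf.2]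
    have h2 := one_proj_sub_le hf hg
    have h3 : rt (a.u i * f * star (a.u i)) = rt f := by
      rw [mul_assoc, rt_comm, mul_assoc, a.u_star_mul, mul_one]
    rw [h3, ← two_mul] at h2
    have h4 := mul_le_mul_of_nonneg_left h2 (a.p_pos i).le
    linarith
  have h2 := a.sum_two_le f
  have h3 : 0 ≤ rt f := rt_nonneg (proj_nonneg hf)
  have h4 : Real.sqrt (2 * rt f) * Real.sqrt (2 * a.en f) = 2 * Real.sqrt (a.en f * rt f) := by
    rw [← Real.sqrt_mul (by positivity)]
    have : 2 * rt f * (2 * a.en f) = 2 ^ 2 * (a.en f * rt f) := by ring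
    rw [this, Real.sqrt_mul (by norm_num), Real.sqrt_sq (by norm_num)]
  rw [← h4]
  exact h1.trans (mul_le_mul_of_nonneg_left h2 (Real.sqrt_nonneg _))

/-- The same for a positive element: `d1(x²) ≤ 2 ‖x‖₂ (2 e(x))^{1/2}`. -/
theorem d1_sq_le (a : Avg N) {x : N} (hx : IsSelfAdjoint x) :
    a.d1 (x * x) ≤ 2 * (two x * Real.sqrt (2 * a.en x)) := by
  have h1 : a.d1 (x * x) ≤ 2 * two x * ∑ i, a.p i * two (a.u i * x * star (a.u i) - x) := by
    unfold Avg.d1
    rw [Finset.mul_sum]
    refine Finset.sum_le_sum fun i _ => ?_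
    set v : N := a.u i * x * star (a.u i) with hv
    have e1 : a.u i * (x * x) * star (a.u i) - x * x = v * (v - x) + (v - x) * x := by
      rw [← conj_mul (a.u_star_mul i), ← hv]
      noncomm_ring
    have e2 : two v = two x := by
      rw [hv]
      exact AvAaux.two_conj (a.u_star_mul i) x
    rw [e1]
    have h2 : one (v * (v - x) + (v - x) * x) ≤ 2 * two x * two (v - x) := by
      refine (one_add_le _ _).trans ?_
      have h3 := one_mul_le_two v (v - x)
      have h4 := one_mul_le_two (v - x) x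
      rw [e2] at h3
      linarith
    have h4 := mul_le_mul_of_nonneg_left h2 (a.p_pos i).le
    linarith
  have h2 := a.sum_two_le x
  have h3 := two_nonneg x
  have h4 : 2 * two x * ∑ i, a.p i * two (a.u i * x * star (a.u i) - x) ≤
      2 * two x * Real.sqrt (2 * a.en x) := mul_le_mul_of_nonneg_left h2 (by positivity)
  linarith

end Pool.Agent.PTH
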