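import Pool.Agent.PTH.TbX
import Pool.Agent.PTH.Tb9
import Pool.Agent.PTH.TbR
import Pool.Agent.PTH.TbS
import Pool.Agent.PTH.TbP

/-!
# PTH / DdTb: the toolbox facts used in sections 8 and 9 (deduced from the toolbox Tb*)
-/

open Filter Topology
open scoped InnerProductSpace ComplexOrder

namespace Pool.Agent.PTH

variable {A : Type*} [CStarAlgebra A] [PartialOrder A] [StarOrderedRing A] [TracialVN A]

theorem dd_spr {x : A} (hx : 0 ≤ x) (hx1 : x ≤ 1) {t : ℝ} (h1 : 1 / 4 ≤ t) (h2 : t ≤ 3 / 4) :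
    Prj (spr x t) ∧ spr x t * x = x * spr x t ∧
      rt ((1 - spr x t) * x) ≤ 4 * rt (x - x * x) ∧
      |rt (spr x t) - rt x| ≤ 4 * rt (x - x * x) ∧
      two (spr x t - x) ^ 2 ≤ 16 * rt (x - x * x) ∧
      ∀ y : A, 0 ≤ y → rt (y * spr x t) ≤ 16 * rt (y * (x * x)) := by
  refine ⟨spr_prj x t, spr_mul_comm (IsSelfAdjoint.of_nonneg hx) t,
    round_one_sub_le hx hx1 h1 h2, round_rt_le hx hx1 h1 h2, ?_, fun y hy => ?_⟩
  · have h3 := round_two_le hx hx1 h1 h2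
    have h4 := rt_nonneg (rt_sub_sq_nonneg hx hx1)
    linarith
  · have h3 := rt_mul_mono hy (round_le_sq hx h1)
    rwa [mul_smul_comm, rt_smul] at h3

theorem dd_spr_comm {x z : A} (hx : 0 ≤ x) (t : ℝ) (ht : 0 < t) (hz : z * x = x) :
    Prj (spr x t) ∧ z * spr x t = spr x t :=
  ⟨spr_prj x t, prj_mul_spr hx ht.le hz⟩

theorem dd_ll0 {x y : A} (hx : 0 ≤ x) (hy : star y = y) (h : rt (y * (x * x)) < 0) :
    ∃ t > 0, rt (y * spr x t) < 0 := by
  let φ : A →ₗ[ℝ] ℝ :=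
    { toFun := fun z => rt (y * z)
      map_add' := fun z w => by rw [mul_add, rt_add]
      map_smul' := fun c z => by rw [mul_smul_comm, rt_smul]; rfl }
  refine layer_choice φ ⟨‖y‖, fun z => ?_⟩ hx h
  refine (abs_rt_le _).trans ((two_le_norm _).trans (norm_mul_le _ _))

theorem dd_lw (a : Avg A) {x : A} (hx : 0 ≤ x) (hx1 : x ≤ 1) :
    ∃ t : ℝ, 1 / 4 ≤ t ∧ t ≤ 3 / 4 ∧
      a.en (spr x t) ≤ 8 * two x * Real.sqrt (2 * a.en x) := by
  obtain ⟨t, h1, h2, h3⟩ := LW a hx hx1 (s := 1 / 4) (s' := 3 / 4) le_rfl (by norm_num) le_rfl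
  refine ⟨t, h1, h2, h3.trans (le_of_eq ?_)⟩
  ring

theorem dd_one_sub (x y : A) :
    one (star x * x - star y * y) ≤ (two x + two y) * two (x - y) := one_star_mul_sub_le x y

/-- Powers-Stormer. -/
theorem dd_ps {x y : A} (hx : 0 ≤ x) (hy : 0 ≤ y) :
    two (x - y) ^ 2 ≤ one (x * x - y * y) := two_sub_sq_le_one hx hy

/-- Polar decomposition. -/
theorem dd_polar (x : A) : ∃ u h : A, 0 ≤ h ∧ h * h = star x * x ∧ x = u * h ∧
    Prj (star u * u) ∧ star u * u * h = h ∧ ∀ z : A, z * x = 0 → z * u = 0 := by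
  obtain ⟨w, hw, h1, h2, h3, h4⟩ := polar x
  have hs : CFC.abs x * CFC.abs x = star x * x := CFC.abs_mul_abs x
  have hP : Prj (star w * w) := by rw [h3]; exact spr_prj _ _
  refine ⟨w, CFC.abs x, CFC.abs_nonneg x, hs, h1.symm, hP, ?_, fun z hz => ?_⟩
  · rw [mul_assoc, h1, h2]
  · have h5 : z * spr (x * star x) 0 = 0 :=
      mul_spr_eq_zero (mul_star_self_nonneg x) le_rfl (by rw [← mul_assoc, hz, zero_mul])
    have h6 : w * star w * w = w := by rw [mul_assoc]; exact (piso hP).1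
    rw [← h6, h4, ← mul_assoc, h5, zero_mul]

end Pool.Agent.PTH
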