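import Pool.Agent.PTH.DdRowA
import Pool.Agent.PTH.DdTb

/-!
# PTH / DdRowB: choice of the level (8.4)

`E_ij = u_i U_j - ∑ θ_i(l,j) U_l`, `P_jl = δ_jl - U_j* U_l`, `g ≥ 0`.  Let
`y = ∑_i p_i ∑_j E_ij* E_ij + ∑_jl P_jl* P_jl - (η' r) 1` (self-adjoint).  For self-adjoint `x`:
`rt(E*E (x x)) = rt((E x)*(E x)) = two(E x)²` (cyclicity), so
`rt(y (g g)) = ∑ p_i ∑_j two(E_ij g)² + ∑ two(P_jl g)² - η' r two(g)² < 0` by hypothesis.  `dd_ll0`: `t > 0` with
`rt(y q) < 0`, `q = spr g t`, `Prj q` (`dd_spr_comm` with `z = 1`), and `q = q q`: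
`∑ p_i ∑_j two(E_ij q)² + ∑ two(P_jl q)² < η' r rt q`.  In particular `q ≠ 0`.  `W_j = U_j q`:
`u_i W_j - ∑ θ_i(l,j) W_l = E_ij q`; `W_j* W_l - δ_jl q = -q P_jl q`, `two(q x) ≤ two x`.
`∑ W_j W_j* = ∑ U_j q U_j* ≤ ∑ U_j U_j* ≤ 1`.
-/

open Filter Topology
open scoped InnerProductSpace ComplexOrder

namespace Pool.Agent.PTH

variable {A : Type*} [CStarAlgebra A] [PartialOrder A] [StarOrderedRing A] [TracialVN A]

omit [PartialOrder A] [StarOrderedRing A] in
theorem ddrb_two (E x : A) (hx : star x = x) : rt (star E * E * (x * x)) = two (E * x) ^ 2 := by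
  rw [two_sq_rt, star_mul, hx, mul_assoc x, rt_comm x]
  congr 1
  simp only [mul_assoc]

omit [PartialOrder A] [StarOrderedRing A] in
theorem ddrb_sum {ι : Type*} [Fintype ι] (p : ι → ℝ) {r : ℕ} (E : ι → Fin r → A)
    (P : Fin r → Fin r → A) (η' : ℝ) (x : A) (hx : star x = x) :
    rt ((∑ i, p i • ∑ j, star (E i j) * E i j + ∑ j, ∑ l, star (P j l) * P j l -
      (η' * r) • (1 : A)) * (x * x)) =
      ∑ i, p i * ∑ j, two (E i j * x) ^ 2 + ∑ j, ∑ l, two (P j l * x) ^ 2 - η' * (r * two x ^ 2) := by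
  have h1 : two x ^ 2 = rt (x * x) := by rw [two_sq_rt, hx]
  rw [sub_mul, add_mul, rt_sub, rt_add, Finset.sum_mul, rt_sum, Finset.sum_mul, rt_sum]
  congr 1
  · congr 1
    · refine Finset.sum_congr rfl fun i _ => ?_
      rw [smul_mul_assoc, rt_smul, Finset.sum_mul, rt_sum]
      congr 1
      exact Finset.sum_congr rfl fun j _ => ddrb_two _ _ hx
    · refine Finset.sum_congr rfl fun j _ => ?_
      rw [Finset.sum_mul, rt_sum]
      exact Finset.sum_congr rfl fun l _ => ddrb_two _ _ hx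
  · rw [smul_mul_assoc, one_mul, rt_smul, h1]
    ring

theorem row_level (a : Avg A) {r : ℕ} {U : Fin r → A} {g : A} (hg : 0 ≤ g)
    (hU : ∑ j, U j * star (U j) ≤ 1) (θ : a.ι → Matrix (Fin r) (Fin r) ℂ) {η' : ℝ} (hη : 0 < η')
    (h : ∑ i, a.p i * ∑ j, two ((a.u i * U j - ∑ l, θ i l j • U l) * g) ^ 2 +
      ∑ j, ∑ l, two (((if j = l then 1 else 0) - star (U j) * U l) * g) ^ 2 <
        η' * (r * two g ^ 2)) :
    ∃ q : A, Prj q ∧ q ≠ 0 ∧ ∑ j, U j * q * star (U j * q) ≤ 1 ∧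
      rowEn a (fun j => U j * q) θ ≤ η' * (r * rt q) ∧
      rowDef (fun j => U j * q) q ≤ η' * (r * rt q) := by
  obtain ⟨E, hE⟩ : ∃ E : a.ι → Fin r → A, E = fun i j => a.u i * U j - ∑ l, θ i l j • U l :=
    ⟨_, rfl⟩
  obtain ⟨P, hP⟩ : ∃ P : Fin r → Fin r → A,
      P = fun j l => (if j = l then 1 else 0) - star (U j) * U l := ⟨_, rfl⟩
  have hgs : star g = g := (IsSelfAdjoint.of_nonneg hg).star_eq
  have h' : ∑ i, a.p i * ∑ j, two (E i j * g) ^ 2 + ∑ j, ∑ l, two (P j l * g) ^ 2 <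
      η' * (r * two g ^ 2) := by
    rw [hE, hP]
    exact h
  obtain ⟨y, hy⟩ : ∃ y : A, y = ∑ i, a.p i • ∑ j, star (E i j) * E i j +
      ∑ j, ∑ l, star (P j l) * P j l - (η' * r) • (1 : A) := ⟨_, rfl⟩
  have hys : star y = y := by
    rw [hy]
    simp only [star_sub, star_add, star_sum, star_smul, star_mul, star_star, star_one,
      star_trivial]
  have hneg : rt (y * (g * g)) < 0 := by
    rw [hy, ddrb_sum a.p E P η' g hgs]
    linarith
  obtain ⟨t, ht, hlt⟩ := dd_ll0 hg hys hneg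
  obtain ⟨q, hqd⟩ : ∃ q : A, q = spr g t := ⟨_, rfl⟩
  rw [← hqd] at hlt
  have hq : Prj q := by
    rw [hqd]
    exact (dd_spr_comm (z := 1) hg t ht (one_mul g)).1
  have hq2 : two q ^ 2 = rt q := two_proj hq
  have hlt2 : ∑ i, a.p i * ∑ j, two (E i j * q) ^ 2 + ∑ j, ∑ l, two (P j l * q) ^ 2 <
      η' * (r * rt q) := by
    have h2 := ddrb_sum a.p E P η' q hq.1
    rw [← hy, hq.2] at h2
    rw [h2, hq2] at hlt
    linarith
  have hs1 : 0 ≤ ∑ i, a.p i * ∑ j, two (E i j * q) ^ 2 :=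
    Finset.sum_nonneg fun i _ => mul_nonneg (a.p_pos i).le (Finset.sum_nonneg fun j _ => sq_nonneg _)
  have hs2 : 0 ≤ ∑ j, ∑ l, two (P j l * q) ^ 2 :=
    Finset.sum_nonneg fun j _ => Finset.sum_nonneg fun l _ => sq_nonneg _
  refine ⟨q, hq, ?_, ?_, ?_, ?_⟩
  · rintro hq0
    rw [hq0, mul_zero, rt_zero] at hlt
    exact lt_irrefl _ hlt
  · refine (Finset.sum_le_sum fun j _ => ?_).trans hU
    have e : U j * q * star (U j * q) = U j * q * star (U j) := by
      rw [star_mul, hq.1]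
      calc U j * q * (q * star (U j)) = U j * (q * q) * star (U j) := by simp only [mul_assoc]
        _ = _ := by rw [hq.2]
    rw [e]
    have h3 := star_right_conjugate_le_conjugate (proj_le_one hq) (U j)
    rwa [mul_one] at h3
  · have e : rowEn a (fun j => U j * q) θ = ∑ i, a.p i * ∑ j, two (E i j * q) ^ 2 := by
      unfold rowEn
      refine Finset.sum_congr rfl fun i _ => ?_
      congr 1
      refine Finset.sum_congr rfl fun j _ => ?_
      rw [hE]
      simp only [sub_mul, Finset.sum_mul, smul_mul_assoc, mul_assoc]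
    rw [e]
    linarith
  · have e : rowDef (fun j => U j * q) q ≤ ∑ j, ∑ l, two (P j l * q) ^ 2 := by
      unfold rowDef
      refine Finset.sum_le_sum fun j _ => Finset.sum_le_sum fun l _ => ?_
      have e1 : star (U j * q) * (U l * q) - (if j = l then q else 0) = -(q * (P j l * q)) := by
        rw [hP, star_mul, hq.1]
        by_cases hjl : j = l
        · simp only [if_pos hjl, sub_mul, mul_sub, one_mul, hq.2]
          simp only [mul_assoc, neg_sub]
        · simp only [if_neg hjl, zero_sub, neg_mul, mul_neg, neg_neg, sub_zero]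
          simp only [mul_assoc]
      simp only [e1, two_neg]
      have h4 : two (q * (P j l * q)) ≤ two (P j l * q) := by
        refine (two_mul_le _ _).trans ?_
        exact mul_le_of_le_one_left (two_nonneg _) (norm_proj_le hq)
      exact pow_le_pow_left₀ (two_nonneg _) h4 2
    linarith

end Pool.Agent.PTH
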