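import Pool.Agent.PTH.DdBes

/-!
# PTH / DdSpec: spectral decomposition of a finite family

Let `x : σ → A` be a finite family, `g_st = ⟨x_s, x_t⟩ = τ(x_s* x_t)` its Gram matrix (Hermitian, positive
semidefinite: `∑ conj(c_s) c_t g_st = ‖∑ c_s x_s‖₂²`, `two_sum_sq`).  Take an orthonormal eigenbasis
`e^α ∈ ℂ^σ` (`Matrix.IsHermitian.eigenvectorBasis`, `eigenvalues`), `∑_t g_st e^α_t = λ_α e^α_s`, `λ_α ≥ 0`.
Put `z_α = ∑_s e^α_s x_s`: `⟨z_α, z_β⟩ = ∑ conj(e^α_s) e^β_t g_st = λ_β ⟨e^α, e^β⟩ = δ_αβ λ_α`.  So `z_α = 0` if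
`λ_α = 0` (`two_eq_zero`), and `w_α = λ_α^{-1/2} z_α` for `λ_α > 0` is an orthonormal family.  Since
`(e^α_s)_{s,α}` is a unitary matrix, `x_s = ∑_α conj(e^α_s) z_α = ∑_{λ_α>0} conj(e^α_s) λ_α^{1/2} w_α`, i.e.
`c s α = conj(e^α_s) λ_α^{1/2}`, and `∑_s c s α conj(c s β) = λ_α^{1/2} λ_β^{1/2} ⟨e^α, e^β⟩ = δ_αβ λ_α` (up to
conjugation).  Index the positive eigenvalues by `Fin d` (`Finset.equivFin` / `Fintype.equivFin` of the
subtype).  For a matrix indexed by an arbitrary finite type use `Matrix.IsHermitian` with `DecidableEq`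
from `Classical`.
-/

open Filter Topology
open scoped InnerProductSpace ComplexOrder

namespace Pool.Agent.PTH

variable {A : Type*} [CStarAlgebra A] [TrAlg A] {σ : Type} [Fintype σ]

/-- Eigenvectors of a Hermitian matrix, in coordinates. -/
private theorem eig [DecidableEq σ] (G : Matrix σ σ ℂ) (hG : G.IsHermitian) :
    ∃ (e : σ → σ → ℂ) (lam : σ → ℝ),
      (∀ α β, ∑ s, star (e α s) * e β s = if α = β then 1 else 0) ∧
      (∀ s t, ∑ α, e α s * star (e α t) = if s = t then 1 else 0) ∧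
      ∀ α s, ∑ t, G s t * e α t = (lam α : ℂ) * e α s := by
  set U : Matrix σ σ ℂ := (hG.eigenvectorUnitary : Matrix σ σ ℂ) with hU
  have h1 : star U * U = 1 := Unitary.coe_star_mul_self hG.eigenvectorUnitary
  have h2 : U * star U = 1 := Unitary.coe_mul_star_self hG.eigenvectorUnitary
  refine ⟨fun α s => U s α, hG.eigenvalues, ?_, ?_, ?_⟩
  · intro α β
    have h := congrFun (congrFun h1 α) β
    rw [Matrix.mul_apply, Matrix.one_apply] at h
    rw [← h]
    rfl
  · intro s t
    have h := congrFun (congrFun h2 s) t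
    rw [Matrix.mul_apply, Matrix.one_apply] at h
    rw [← h]
    rfl
  · intro α s
    have h := congrFun (hG.mulVec_eigenvectorBasis α) s
    rw [Matrix.mulVec, dotProduct] at h
    simp only [Pi.smul_apply, Complex.real_smul] at h
    exact h

omit [Fintype σ] in
/-- An enumeration of a finite set. -/
private theorem enum (A : Type*) [AddCommMonoid A] (P : Finset σ) :
    ∃ ε : Fin P.card → σ, Function.Injective ε ∧ (∀ i, ε i ∈ P) ∧
      ∀ f : σ → A, ∑ i, f (ε i) = ∑ α ∈ P, f α := by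
  refine ⟨fun i => (P.equivFin.symm i : σ), ?_, ?_, ?_⟩
  · intro i j h
    exact P.equivFin.symm.injective (Subtype.ext h)
  · intro i
    exact (P.equivFin.symm i).2
  · intro f
    rw [← Finset.sum_coe_sort P f]
    exact Equiv.sum_comp P.equivFin.symm (fun a : P => f (a : σ))

theorem spec_fam (x : σ → A) :
    ∃ (d : ℕ) (w : Fin d → A) (l : Fin d → ℝ) (c : σ → Fin d → ℂ) (b : Fin d → σ → ℂ),
      ONf w ∧ (∀ α, 0 < l α) ∧ (∀ s, x s = ∑ α, c s α • w α) ∧ (∀ α, w α = ∑ s, b α s • x s) ∧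
      ∀ α β, ∑ s, c s α * star (c s β) = if α = β then (l α : ℂ) else 0 := by
  classical
  have hG : (Matrix.of fun s t => ip (x s) (x t)).IsHermitian := by
    ext s t
    exact ip_star (x t) (x s)
  obtain ⟨e, lam, e1, e2, e3⟩ := eig _ hG
  set z : σ → A := fun α => ∑ s, e α s • x s with hz
  have hzz : ∀ α β, ip (z α) (z β) = if α = β then (lam α : ℂ) else 0 := by
    intro α β
    have h1 : ip (z α) (z β) = ∑ s, star (e α s) * ((lam β : ℂ) * e β s) := by
      rw [hz]
      simp only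
      rw [ip_sum_left]
      refine Finset.sum_congr rfl fun s _ => ?_
      rw [ip_smul_left, ip_sum, ← e3 β s]
      congr 1
      refine Finset.sum_congr rfl fun t _ => ?_
      rw [ip_smul, Matrix.of_apply, mul_comm]
    rw [h1]
    have h2 : ∑ s, star (e α s) * ((lam β : ℂ) * e β s) =
        (lam β : ℂ) * ∑ s, star (e α s) * e β s := by
      rw [Finset.mul_sum]
      exact Finset.sum_congr rfl fun s _ => by ring
    rw [h2, e1]
    split_ifs with h
    · rw [h, mul_one]
    · rw [mul_zero]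
  have hsq : ∀ α, two (z α) ^ 2 = lam α := by
    intro α
    have h1 := ip_self (z α)
    rw [hzz, if_pos rfl] at h1
    exact_mod_cast h1.symm
  have hz0 : ∀ α, ¬ 0 < lam α → z α = 0 := by
    intro α h
    have h1 := hsq α
    have h2 : two (z α) ^ 2 = 0 := le_antisymm (by rw [h1]; exact not_lt.1 h) (sq_nonneg _)
    exact two_eq_zero (pow_eq_zero_iff (two_ne_zero) |>.1 h2)
  have hx : ∀ s, x s = ∑ α, star (e α s) • z α := by
    intro s
    rw [hz]
    simp only [Finset.smul_sum, smul_smul]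
    rw [Finset.sum_comm]
    simp only [← Finset.sum_smul]
    have h1 : ∀ t, ∑ α, star (e α s) * e α t = if t = s then 1 else 0 := by
      intro t
      rw [← e2 t s]
      exact Finset.sum_congr rfl fun α _ => mul_comm _ _
    simp only [h1]
    rw [Finset.sum_eq_single s]
    · rw [if_pos rfl, one_smul]
    · intro t _ ht
      rw [if_neg ht, zero_smul]
    · intro h
      exact absurd (Finset.mem_univ s) h
  obtain ⟨ε, ε1, ε2, ε3⟩ := enum A (Finset.univ.filter fun α => 0 < lam α)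
  have hpos : ∀ i, 0 < lam (ε i) := fun i => (Finset.mem_filter.1 (ε2 i)).2
  have hsr : ∀ i, 0 < √(lam (ε i)) := fun i => Real.sqrt_pos.2 (hpos i)
  have hmul : ∀ i, (√(lam (ε i)) : ℂ) * (√(lam (ε i)) : ℂ) = (lam (ε i) : ℂ) := by
    intro i
    rw [← Complex.ofReal_mul, Real.mul_self_sqrt (hpos i).le]
  have hne : ∀ i, (√(lam (ε i)) : ℂ) ≠ 0 := by
    intro i
    exact_mod_cast (hsr i).ne'
  refine ⟨_, fun i => ((√(lam (ε i)) : ℂ))⁻¹ • z (ε i), fun i => lam (ε i),
    fun s i => star (e (ε i) s) * (√(lam (ε i)) : ℂ),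
    fun i s => ((√(lam (ε i)) : ℂ))⁻¹ * e (ε i) s, ?_, hpos, ?_, ?_, ?_⟩
  · intro i j
    rw [ip_smul, ip_smul_left, hzz]
    have h1 : star ((√(lam (ε i)) : ℂ)⁻¹) = (√(lam (ε i)) : ℂ)⁻¹ := by
      rw [star_inv₀]
      congr 1
      exact Complex.conj_ofReal _
    rw [h1]
    by_cases h : i = j
    · subst h
      rw [if_pos rfl, if_pos rfl, ← hmul i]
      have := hne i
      field_simp
    · rw [if_neg h, if_neg fun h' => h (ε1 h')]
      simp
  · intro s
    rw [hx s]
    have h1 : ∀ i, (star (e (ε i) s) * (√(lam (ε i)) : ℂ)) • ((√(lam (ε i)) : ℂ))⁻¹ • z (ε i) =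
        star (e (ε i) s) • z (ε i) := by
      intro i
      rw [smul_smul, mul_assoc, mul_inv_cancel₀ (hne i), mul_one]
    simp only [h1]
    rw [ε3 fun α => star (e α s) • z α, Finset.sum_filter]
    refine Finset.sum_congr rfl fun α _ => ?_
    split_ifs with h
    · rfl
    · rw [hz0 α h, smul_zero]
  · intro i
    rw [hz]
    simp only [Finset.smul_sum, smul_smul]
  · intro i j
    have h1 : ∀ s, star (e (ε i) s) * (√(lam (ε i)) : ℂ) *
        star (star (e (ε j) s) * (√(lam (ε j)) : ℂ)) =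
        ((√(lam (ε i)) : ℂ) * (√(lam (ε j)) : ℂ)) * (star (e (ε i) s) * e (ε j) s) := by
      intro s
      rw [star_mul, star_star]
      have h2 : star ((√(lam (ε j)) : ℂ)) = (√(lam (ε j)) : ℂ) := Complex.conj_ofReal _
      rw [h2]
      ring
    simp only [h1]
    rw [← Finset.mul_sum, e1]
    by_cases h : i = j
    · subst h
      rw [if_pos rfl, if_pos rfl, mul_one, hmul]
    · rw [if_neg h, if_neg fun h' => h (ε1 h'), mul_zero]

end Pool.Agent.PTH
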