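import Pool.Agent.PTH.DdSpec

/-!
# PTH / DdTen: from matrices to matrices with entries in `A`

`spec_fam` for the family `(K_jl)` indexed by `Fin r × Fin r`: `K_jl = ∑_α x^α_jl w_α`, `w` orthonormal,
`x^α_jl = c (j,l) α`.
* `two_comb`: `‖K_jl‖₂² = ∑_α |x^α_jl|²`.
* `cj θ K j l = ∑_α (cj θ x^α j l) w_α`, so `⟨K_jl, (θKθ*)_jl⟩ = ∑_α conj(x^α_jl) (θ x^α θ*)_jl`
  (`ip_sum`, `ip_smul`, orthonormality).  So `evA a v K = ∑_α ev a v x^α`.
* `∑_j x^α_jj = ⟨w_α, ∑_j K_jj⟩ = 0` (`ip_comb`).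
* `contr_mod`: the same expansion of `y_j = ∑_α y^α_j w_α`: `∑_l ‖∑_j θ_lj y_j‖₂² = ∑_α ∑_l |∑_j θ_lj y^α_j|²
  ≤ ∑_α ∑_j |y^α_j|² = ∑_j ‖y_j‖₂²` (`Contr`, `Matrix.mulVec`).
-/

open Filter Topology
open scoped InnerProductSpace ComplexOrder

namespace Pool.Agent.PTH

variable {A : Type*} [CStarAlgebra A] [TrAlg A]

private theorem ip_comb2 {σ : Type} [Fintype σ] [DecidableEq σ] {w : σ → A} (h : ONf w) (c e : σ → ℂ) :
    ip (∑ α, c α • w α) (∑ α, e α • w α) = ∑ α, star (c α) * e α := by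
  rw [ip_sum_left]
  refine Finset.sum_congr rfl fun α _ => ?_
  rw [ip_smul_left, ip_comb h]

omit [TrAlg A] in
private theorem cj_comb {r d : ℕ} (θ : Matrix (Fin r) (Fin r) ℂ) {K : Fin r → Fin r → A}
    {w : Fin d → A} {X : Fin d → Fin r → Fin r → ℂ}
    (hX : ∀ j l, K j l = ∑ α, X α j l • w α) (j l : Fin r) :
    cj θ K j l = ∑ α, cj θ (X α) j l • w α := by
  unfold cj
  simp only [hX, Finset.smul_sum, Finset.sum_smul, smul_smul, smul_eq_mul]
  have h1 : ∀ j', ∑ l', ∑ α, (θ j j' * star (θ l l') * X α j' l') • w α =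
      ∑ α, ∑ l', (θ j j' * star (θ l l') * X α j' l') • w α := fun j' => Finset.sum_comm
  simp only [h1]
  rw [Finset.sum_comm]

theorem gap_ten (a : Avg A) {r : ℕ} (v : Fin r → A) {c0 : ℝ}
    (g : ∀ x : Fin r → Fin r → ℂ, ∑ j, x j j = 0 →
      c0 * ∑ j, ∑ l, ‖x j l‖ ^ 2 ≤ ev a v x)
    (K : Fin r → Fin r → A) (hK : ∑ j, K j j = 0) :
    c0 * ∑ j, ∑ l, two (K j l) ^ 2 ≤ evA a v K := by
  obtain ⟨d, w, lam, c, b, hw, hl, hx, hb, hc⟩ :=
    spec_fam (fun s : Fin r × Fin r => K s.1 s.2)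
  obtain ⟨X, hX⟩ : ∃ X : Fin d → Fin r → Fin r → ℂ, ∀ j l, K j l = ∑ α, X α j l • w α :=
    ⟨fun α j l => c (j, l) α, fun j l => hx (j, l)⟩
  have h1 : ∀ j l, two (K j l) ^ 2 = ∑ α, ‖X α j l‖ ^ 2 := by
    intro j l
    rw [hX j l]
    exact two_comb hw _
  have h2 : ∀ (i : a.ι) (j l : Fin r), (ip (K j l) (cj (th a v i) K j l)).re =
      ∑ α, (star (X α j l) * cj (th a v i) (X α) j l).re := by
    intro i j l
    rw [cj_comb (th a v i) hX j l, hX j l, ip_comb2 hw, Complex.re_sum]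
  have h3 : ∀ α, ∑ j, X α j j = 0 := by
    intro α
    have h4 : ip (w α) (∑ j, K j j) = ∑ j, X α j j := by
      rw [ip_sum]
      refine Finset.sum_congr rfl fun j _ => ?_
      rw [hX j j]
      exact ip_comb hw _ α
    rw [← h4, hK]
    unfold ip
    rw [mul_zero, map_zero]
  have e1 : ∑ j, ∑ l, two (K j l) ^ 2 = ∑ α, ∑ j, ∑ l, ‖X α j l‖ ^ 2 := by
    simp only [h1]
    have h5 : ∀ j, ∑ l, ∑ α, ‖X α j l‖ ^ 2 = ∑ α, ∑ l, ‖X α j l‖ ^ 2 :=
      fun j => Finset.sum_comm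
    simp only [h5]
    exact Finset.sum_comm
  have e2 : ∀ i : a.ι, ∑ j, ∑ l, (ip (K j l) (cj (th a v i) K j l)).re =
      ∑ α, ∑ j, ∑ l, (star (X α j l) * cj (th a v i) (X α) j l).re := by
    intro i
    simp only [h2]
    have h5 : ∀ j, ∑ l, ∑ α, (star (X α j l) * cj (th a v i) (X α) j l).re =
        ∑ α, ∑ l, (star (X α j l) * cj (th a v i) (X α) j l).re := fun j => Finset.sum_comm
    simp only [h5]
    exact Finset.sum_comm
  have e3 : evA a v K = ∑ α, ev a v (X α) := by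
    unfold evA ev
    rw [e1, Finset.sum_sub_distrib]
    congr 1
    simp only [e2, Finset.mul_sum]
    exact Finset.sum_comm
  rw [e3, e1, Finset.mul_sum]
  exact Finset.sum_le_sum fun α _ => g (X α) (h3 α)

theorem contr_mod {r : ℕ} {θ : Matrix (Fin r) (Fin r) ℂ} (h : Contr θ) (y : Fin r → A) :
    ∑ l, two (∑ j, θ l j • y j) ^ 2 ≤ ∑ j, two (y j) ^ 2 := by
  obtain ⟨d, w, lam, c, b, hw, hl, hx, hb, hc⟩ := spec_fam y
  have h1 : ∀ j, two (y j) ^ 2 = ∑ α, ‖c j α‖ ^ 2 := by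
    intro j
    rw [hx j]
    exact two_comb hw _
  have h2 : ∀ l, two (∑ j, θ l j • y j) ^ 2 = ∑ α, ‖(θ.mulVec fun j => c j α) l‖ ^ 2 := by
    intro l
    have h3 : ∑ j, θ l j • y j = ∑ α, (θ.mulVec fun j => c j α) l • w α := by
      simp only [Matrix.mulVec, dotProduct, Finset.sum_smul]
      rw [Finset.sum_comm]
      refine Finset.sum_congr rfl fun j _ => ?_
      rw [hx j, Finset.smul_sum]
      refine Finset.sum_congr rfl fun α _ => ?_
      rw [smul_smul]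
    rw [h3]
    exact two_comb hw _
  simp only [h1, h2]
  rw [Finset.sum_comm]
  conv_rhs => rw [Finset.sum_comm]
  exact Finset.sum_le_sum fun α _ => h fun j => c j α

end Pool.Agent.PTH
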