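import Pool.Agent.PTH.DdTen

/-!
# PTH / DdTri: the form `evA`, subtraction of the scalar part

* `contr_th`: `∑_l |∑_j θ(l,j) c_j|² = ∑_l |⟨v_l, u_i ∑ c_j v_j⟩|² ≤ ‖∑ c_j v_j‖₂² = ∑ |c_j|²` (`bessel`, `two_comb`).
* `contr_star`: `Contr θ` implies `Contr` of the entrywise conjugate (conjugate the vector).
* `two_cj_le`: `(θKθ*)_jl = ∑_j' θ(j,j') (∑_l' conj θ(l,l') K_j'l')`: `contr_mod` for the index `j` (every `l`),
  then for the conjugate matrix in the index `l`.
* `evA_nonneg`: `|∑_jl ⟨K_jl,(θKθ*)_jl⟩| ≤ √(∑‖K‖²) √(∑‖θKθ*‖²) ≤ ∑‖K‖²`, `∑ p_i = 1`.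
* `evA_parallelogram`: `evA` is a quadratic form: `evA(H-B) + evA(H+B) = 2evA(H) + 2evA(B)` (`cj` is additive,
  `two_add_sq`, `two_sub_sq`, `ip_add` ...).
* `evA_diag`: for `B_jl = δ_jl g`: `(θBθ*)_jl = (∑_j' θ(j,j') conj θ(l,j')) g`, so
  `evA(B) = ‖g‖₂² (r - ∑ p_i ∑_jj' |θ_i(j,j')|²) = ‖g‖₂² Dv a v`.
* `gap_scal`: `K = H - B` with `g0 = r⁻¹ ∑ H_jj` has `∑ K_jj = 0`, so
  `c0 ∑‖K‖² ≤ evA(K) ≤ 2evA(H) + 2evA(B)`.
-/

open Filter Topology
open scoped InnerProductSpace ComplexOrder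

namespace Pool.Agent.PTH

variable {A : Type*} [CStarAlgebra A] [PartialOrder A] [StarOrderedRing A] [TracialVN A]

theorem contr_th (a : Avg A) {r : ℕ} {v : Fin r → A} (hv : ON v) (i : a.ι) :
    Contr (th a v i) := by
  intro x
  have hv' : ONf v := (ON_iff v).1 hv
  have h1 : ∀ l, ((th a v i).mulVec x) l = ip (v l) (a.u i * ∑ j, x j • v j) := by
    intro l
    rw [Finset.mul_sum, ip_sum, Matrix.mulVec, dotProduct]
    refine Finset.sum_congr rfl fun j _ => ?_
    rw [mul_smul_comm, ip_smul, mul_comm]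
    rfl
  simp only [h1]
  refine (bessel hv' _).trans ?_
  rw [two_unitary_mul (a.u_star_mul i), two_comb hv']

theorem contr_star {r : ℕ} {θ : Matrix (Fin r) (Fin r) ℂ} (h : Contr θ) :
    Contr (fun j l => star (θ j l)) := by
  intro x
  have h1 := h (fun j => star (x j))
  have h2 : ∀ l, ‖(Matrix.mulVec (fun j l => star (θ j l) : Matrix (Fin r) (Fin r) ℂ) x) l‖ =
      ‖(θ.mulVec fun j => star (x j)) l‖ := by
    intro l
    rw [Matrix.mulVec, dotProduct, Matrix.mulVec, dotProduct, ← norm_star]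
    congr 1
    rw [star_sum]
    refine Finset.sum_congr rfl fun j _ => ?_
    rw [star_mul, star_star, mul_comm]
  simp only [h2]
  refine h1.trans (le_of_eq ?_)
  refine Finset.sum_congr rfl fun j _ => ?_
  rw [norm_star]

theorem two_cj_le {r : ℕ} {θ : Matrix (Fin r) (Fin r) ℂ} (h : Contr θ) (K : Fin r → Fin r → A) :
    ∑ j, ∑ l, two (cj θ K j l) ^ 2 ≤ ∑ j, ∑ l, two (K j l) ^ 2 := by
  have h1 : ∀ j l, cj θ K j l = ∑ j', θ j j' • ∑ l', star (θ l l') • K j' l' := by
    intro j l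
    unfold cj
    refine Finset.sum_congr rfl fun j' _ => ?_
    rw [Finset.smul_sum]
    refine Finset.sum_congr rfl fun l' _ => ?_
    rw [smul_smul]
  simp only [h1]
  rw [Finset.sum_comm]
  have h2 : ∀ l, ∑ j, two (∑ j', θ j j' • ∑ l', star (θ l l') • K j' l') ^ 2 ≤
      ∑ j', two (∑ l', star (θ l l') • K j' l') ^ 2 := fun l =>
    contr_mod h fun j' => ∑ l', star (θ l l') • K j' l'
  refine (Finset.sum_le_sum fun l _ => h2 l).trans ?_
  rw [Finset.sum_comm]
  exact Finset.sum_le_sum fun j' _ => contr_mod (contr_star h) (K j')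

theorem evA_nonneg (a : Avg A) {r : ℕ} {v : Fin r → A} (hv : ON v) (K : Fin r → Fin r → A) :
    0 ≤ evA a v K := by
  have h1 : ∀ i, ∑ j, ∑ l, (ip (K j l) (cj (th a v i) K j l)).re ≤
      ∑ j, ∑ l, two (K j l) ^ 2 := by
    intro i
    have h2 := two_cj_le (contr_th a hv i) K
    have h3 : ∑ j, ∑ l, (ip (K j l) (cj (th a v i) K j l)).re ≤
        ∑ j, ∑ l, (1 / 2 * two (K j l) ^ 2 + 1 / 2 * two (cj (th a v i) K j l) ^ 2) := by
      refine Finset.sum_le_sum fun j _ => Finset.sum_le_sum fun l _ => ?_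
      have h4 := (Complex.re_le_norm _).trans (norm_ip_le (K j l) (cj (th a v i) K j l))
      nlinarith [sq_nonneg (two (K j l) - two (cj (th a v i) K j l))]
    have h5 : ∑ j, ∑ l, (1 / 2 * two (K j l) ^ 2 + 1 / 2 * two (cj (th a v i) K j l) ^ 2) =
        1 / 2 * ∑ j, ∑ l, two (K j l) ^ 2 + 1 / 2 * ∑ j, ∑ l, two (cj (th a v i) K j l) ^ 2 := by
      simp only [Finset.mul_sum, ← Finset.sum_add_distrib]
    rw [h5] at h3
    linarith
  have h2 : ∑ i, a.p i * ∑ j, ∑ l, (ip (K j l) (cj (th a v i) K j l)).re ≤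
      ∑ i, a.p i * ∑ j, ∑ l, two (K j l) ^ 2 :=
    Finset.sum_le_sum fun i _ => mul_le_mul_of_nonneg_left (h1 i) (a.p_pos i).le
  rw [← Finset.sum_mul, a.p_sum, one_mul] at h2
  unfold evA
  linarith

private theorem cj_sub {r : ℕ} (θ : Matrix (Fin r) (Fin r) ℂ) (H B : Fin r → Fin r → A)
    (j l : Fin r) : cj θ (fun j l => H j l - B j l) j l = cj θ H j l - cj θ B j l := by
  unfold cj
  simp only [smul_sub, Finset.sum_sub_distrib]

private theorem cj_add {r : ℕ} (θ : Matrix (Fin r) (Fin r) ℂ) (H B : Fin r → Fin r → A)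
    (j l : Fin r) : cj θ (fun j l => H j l + B j l) j l = cj θ H j l + cj θ B j l := by
  unfold cj
  simp only [smul_add, Finset.sum_add_distrib]

private theorem ip_par (x y z w : A) : (ip (x - y) (z - w)).re + (ip (x + y) (z + w)).re =
    2 * (ip x z).re + 2 * (ip y w).re := by
  have e : x - y = x + (-1 : ℂ) • y := by rw [neg_one_smul, sub_eq_add_neg]
  rw [ip_sub, ip_add, ip_add_left, ip_add_left, e, ip_add_left, ip_add_left, ip_smul_left,
    ip_smul_left]
  have e2 : star (-1 : ℂ) = -1 := by simp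
  rw [e2]
  simp only [Complex.add_re, Complex.sub_re, neg_one_mul, Complex.neg_re]
  ring

theorem evA_parallelogram (a : Avg A) {r : ℕ} (v : Fin r → A) (H B : Fin r → Fin r → A) :
    evA a v (fun j l => H j l - B j l) + evA a v (fun j l => H j l + B j l) =
      2 * evA a v H + 2 * evA a v B := by
  have h1 : ∑ j, ∑ l, two (H j l - B j l) ^ 2 + ∑ j, ∑ l, two (H j l + B j l) ^ 2 =
      2 * ∑ j, ∑ l, two (H j l) ^ 2 + 2 * ∑ j, ∑ l, two (B j l) ^ 2 := by
    simp only [Finset.mul_sum, ← Finset.sum_add_distrib]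
    refine Finset.sum_congr rfl fun j _ => Finset.sum_congr rfl fun l _ => ?_
    rw [two_sub_sq, two_add_sq]
    ring
  have h2 : ∀ i, ∑ j, ∑ l, (ip (H j l - B j l)
        (cj (th a v i) (fun j l => H j l - B j l) j l)).re +
      ∑ j, ∑ l, (ip (H j l + B j l) (cj (th a v i) (fun j l => H j l + B j l) j l)).re =
      2 * ∑ j, ∑ l, (ip (H j l) (cj (th a v i) H j l)).re +
        2 * ∑ j, ∑ l, (ip (B j l) (cj (th a v i) B j l)).re := by
    intro i
    simp only [Finset.mul_sum, ← Finset.sum_add_distrib]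
    refine Finset.sum_congr rfl fun j _ => Finset.sum_congr rfl fun l _ => ?_
    rw [cj_sub, cj_add]
    exact ip_par _ _ _ _
  have h3 : ∑ i, a.p i * ∑ j, ∑ l, (ip (H j l - B j l)
        (cj (th a v i) (fun j l => H j l - B j l) j l)).re +
      ∑ i, a.p i * ∑ j, ∑ l, (ip (H j l + B j l)
        (cj (th a v i) (fun j l => H j l + B j l) j l)).re =
      2 * ∑ i, a.p i * ∑ j, ∑ l, (ip (H j l) (cj (th a v i) H j l)).re +
        2 * ∑ i, a.p i * ∑ j, ∑ l, (ip (B j l) (cj (th a v i) B j l)).re := by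
    rw [← Finset.sum_add_distrib, Finset.mul_sum Finset.univ _ 2, Finset.mul_sum Finset.univ _ 2,
      ← Finset.sum_add_distrib]
    refine Finset.sum_congr rfl fun i _ => ?_
    rw [← mul_add, h2 i]
    ring
  unfold evA
  linarith

theorem evA_diag (a : Avg A) {r : ℕ} (v : Fin r → A) (g : A) :
    evA a v (fun j l => if j = l then g else 0) = two g ^ 2 * Dv a v := by
  have h0 : ∀ i (j l : Fin r), cj (th a v i) (fun j l => if j = l then g else 0) j l =
      (∑ j', th a v i j j' * star (th a v i l j')) • g := by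
    intro i j l
    unfold cj
    rw [Finset.sum_smul]
    refine Finset.sum_congr rfl fun j' _ => ?_
    rw [Finset.sum_eq_single j']
    · beta_reduce
      rw [if_pos rfl]
    · intro l' _ hl'
      beta_reduce
      rw [if_neg hl'.symm, smul_zero]
    · intro h
      exact absurd (Finset.mem_univ j') h
  have h1 : ∑ j : Fin r, ∑ l : Fin r, two (if j = l then g else 0) ^ 2 = r * two g ^ 2 := by
    have h2 : ∀ j : Fin r, ∑ l : Fin r, two (if j = l then g else 0) ^ 2 = two g ^ 2 := by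
      intro j
      rw [Finset.sum_eq_single j]
      · rw [if_pos rfl]
      · intro l _ hl
        rw [if_neg hl.symm, two_zero]
        norm_num
      · intro h
        exact absurd (Finset.mem_univ j) h
    simp only [h2]
    rw [Finset.sum_const, Finset.card_univ, Fintype.card_fin, nsmul_eq_mul]
  have h2 : ∀ i, ∑ j : Fin r, ∑ l : Fin r, (ip (if j = l then g else 0)
      (cj (th a v i) (fun j l => if j = l then g else 0) j l)).re =
      two g ^ 2 * ∑ j, ∑ l, ‖TrAlg.tau (star (v l) * a.u i * v j)‖ ^ 2 := by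
    intro i
    rw [Finset.sum_comm (f := fun j l => ‖TrAlg.tau (star (v l) * a.u i * v j)‖ ^ 2),
      Finset.mul_sum]
    refine Finset.sum_congr rfl fun j _ => ?_
    rw [Finset.sum_eq_single j]
    · rw [if_pos rfl, h0, ip_smul, ip_self]
      have h3 : ∑ j', th a v i j j' * star (th a v i j j') =
          ((∑ j', ‖TrAlg.tau (star (v j) * a.u i * v j')‖ ^ 2 : ℝ) : ℂ) := by
        push_cast
        refine Finset.sum_congr rfl fun j' _ => ?_
        have h4 : th a v i j j' = TrAlg.tau (star (v j) * a.u i * v j') := by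
          unfold th ip
          rw [mul_assoc]
        rw [h4]
        exact Complex.mul_conj' _
      rw [h3, ← Complex.ofReal_mul, Complex.ofReal_re, mul_comm]
    · intro l _ hl
      rw [if_neg hl.symm]
      have h3 : ∀ y : A, ip (0 : A) y = 0 := by
        intro y
        unfold ip
        rw [star_zero, zero_mul, map_zero]
      rw [h3, Complex.zero_re]
    · intro h
      exact absurd (Finset.mem_univ j) h
  unfold evA
  rw [h1]
  simp only [h2]
  unfold Dv
  rw [mul_sub, Finset.mul_sum, mul_comm (r : ℝ)]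
  congr 1
  refine Finset.sum_congr rfl fun i _ => ?_
  ring

theorem gap_scal (a : Avg A) {r : ℕ} (hr : 1 ≤ r) {v : Fin r → A} (hv : ON v) {c0 : ℝ}
    (hc : 0 < c0)
    (g : ∀ K : Fin r → Fin r → A, ∑ j, K j j = 0 → c0 * ∑ j, ∑ l, two (K j l) ^ 2 ≤ evA a v K)
    (H : Fin r → Fin r → A) (g0 : A) (hg0 : g0 = (r : ℂ)⁻¹ • ∑ j, H j j) :
    ∑ j, ∑ l, two (H j l - if j = l then g0 else 0) ^ 2 ≤
      2 / c0 * (evA a v H + two g0 ^ 2 * Dv a v) := by
  have hr0 : (r : ℂ) ≠ 0 := by
    have : (r : ℕ) ≠ 0 := by omega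
    exact_mod_cast this
  have h1 := g (fun j l => H j l - if j = l then g0 else 0) (by
    simp only [if_true]
    rw [Finset.sum_sub_distrib, Finset.sum_const, Finset.card_univ, Fintype.card_fin, hg0,
      ← Nat.cast_smul_eq_nsmul ℂ, smul_smul, mul_inv_cancel₀ hr0, one_smul, sub_self])
  have h2 := evA_parallelogram a v H (fun j l => if j = l then g0 else 0)
  have h3 := evA_nonneg a hv (fun j l => H j l + if j = l then g0 else 0)
  rw [evA_diag] at h2
  have h4 : c0 * ∑ j, ∑ l, two (H j l - if j = l then g0 else 0) ^ 2 ≤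
      2 * (evA a v H + two g0 ^ 2 * Dv a v) := by
    linarith
  rw [div_mul_eq_mul_div, le_div_iff₀ hc]
  linarith

end Pool.Agent.PTH
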