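import Pool.Agent.PTH.Def

/-!
# PTH / DecL: closure properties of `Dec`

* `wf_nil`: empty products are `1`.
* `wf_cons`: `B = b (i+1)`, `B^2 ≤ D ≤ M N`.  If `B ≤ M`, apply the hypothesis to `M/B ≥ 1`, `N`
  (`D/B ≤ (M/B) N`) and put `i` into the first list; otherwise `B > M`, so `B ≤ N` (`B^2 ≤ M N`), and `i` goes
  into the second list.  (`b (i+1) ≥ 1`.)
* `dec_bx`: multiply every term by `bx (Bp b i)`: `term b (i :: l) lam = bx (Bp b i) * term b l lam`.
* `dec_sub_sum`: concatenate the lists (signs of the second part changed).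
-/

set_option autoImplicit false

namespace Pool.Agent.PTH

open Finset

theorem wf_nil (b : ℕ → ℕ) (D : ℝ) : WF b D [] := by
  intro M N hM hN _
  exact ⟨[], [], by simp, by simpa using hM, by simpa using hN⟩

theorem wf_cons (b : ℕ → ℕ) (D : ℝ) (i : ℕ) (l : List ℕ) (hb : 1 ≤ b (i + 1))
    (h : (b (i + 1) : ℝ) ^ 2 ≤ D) (hl : WF b (D / b (i + 1)) l) : WF b D (i :: l) := by
  intro M N hM hN hD
  have hB : (1 : ℝ) ≤ (b (i + 1) : ℝ) := by exact_mod_cast hb
  have hB0 : (0 : ℝ) < (b (i + 1) : ℝ) := by linarith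
  by_cases hBM : (b (i + 1) : ℝ) ≤ M
  · obtain ⟨l1, l2, hp, h1, h2⟩ := hl (M / b (i + 1)) N ((one_le_div hB0).2 hBM) hN (by
      rw [div_mul_eq_mul_div]
      exact div_le_div_of_nonneg_right hD hB0.le)
    refine ⟨i :: l1, l2, hp.cons i, ?_, h2⟩
    rw [List.map_cons, List.prod_cons]
    calc (b (i + 1) : ℝ) * (l1.map (fun i => (b (i + 1) : ℝ))).prod
        ≤ b (i + 1) * (M / b (i + 1)) := mul_le_mul_of_nonneg_left h1 hB0.le
      _ = M := by field_simp
  · rw [not_le] at hBM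
    have hBN : (b (i + 1) : ℝ) ≤ N := by
      by_contra hc
      rw [not_le] at hc
      nlinarith
    obtain ⟨l1, l2, hp, h1, h2⟩ := hl M (N / b (i + 1)) hM ((one_le_div hB0).2 hBN) (by
      rw [mul_div_assoc']
      exact div_le_div_of_nonneg_right hD hB0.le)
    refine ⟨l1, i :: l2, (hp.cons i).trans List.perm_middle.symm, h1, ?_⟩
    rw [List.map_cons, List.prod_cons]
    calc (b (i + 1) : ℝ) * (l2.map (fun i => (b (i + 1) : ℝ))).prod
        ≤ b (i + 1) * (N / b (i + 1)) := mul_le_mul_of_nonneg_left h2 hB0.le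
      _ = N := by field_simp

theorem term_cons (b : ℕ → ℕ) (i : ℕ) (l : List ℕ) (lam : SA) :
    term b (i :: l) lam = bx (Bp b i) * term b l lam := by
  unfold term
  rw [List.map_cons, List.prod_cons, mul_assoc]

theorem DecL_term_nil (b : ℕ → ℕ) (lam : SA) : term b [] lam = lam := by
  unfold term
  rw [List.map_nil, List.prod_nil, one_mul]

theorem dec_lp (b : ℕ → ℕ) (lp lm : SA) (D : ℝ) : Dec b lp lm 1 D lp := by
  refine ⟨[(true, true, [])], le_rfl, ?_, ?_⟩
  · simp [DecL_term_nil]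
  · intro t ht
    rw [List.mem_singleton] at ht
    rw [ht]
    exact ⟨Nat.zero_le _, wf_nil b D⟩

theorem dec_lm (b : ℕ → ℕ) (lp lm : SA) (D : ℝ) : Dec b lp lm 1 D lm := by
  refine ⟨[(true, false, [])], le_rfl, ?_, ?_⟩
  · simp [DecL_term_nil]
  · intro t ht
    rw [List.mem_singleton] at ht
    rw [ht]
    exact ⟨Nat.zero_le _, wf_nil b D⟩

theorem dec_zero (b : ℕ → ℕ) (lp lm : SA) (c : ℕ) (D : ℝ) : Dec b lp lm c D 0 :=
  ⟨[], Nat.zero_le _, by simp, by simp⟩

theorem dec_mono (b : ℕ → ℕ) (lp lm : SA) {c c' : ℕ} (h : c ≤ c') (D : ℝ) (f : SA)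
    (hf : Dec b lp lm c D f) : Dec b lp lm c' D f := by
  obtain ⟨T, h1, h2, h3⟩ := hf
  exact ⟨T, h1.trans h, h2, fun t ht => ⟨(h3 t ht).1.trans h, (h3 t ht).2⟩⟩

theorem dec_bx (b : ℕ → ℕ) (lp lm : SA) (c i : ℕ) (D : ℝ) (f : SA) (hb : 1 ≤ b (i + 1))
    (h : (b (i + 1) : ℝ) ^ 2 ≤ D) (hf : Dec b lp lm c (D / b (i + 1)) f) :
    Dec b lp lm (c + 1) D (bx (Bp b i) * f) := by
  obtain ⟨T, h1, h2, h3⟩ := hf
  refine ⟨T.map (fun t => (t.1, t.2.1, i :: t.2.2)), ?_, ?_, ?_⟩
  · rw [List.length_map]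
    omega
  · rw [h2, List.map_map, ← List.sum_map_mul_left]
    congr 1
    refine List.map_congr_left (fun t _ => ?_)
    rw [mul_smul_comm, ← term_cons]
    rfl
  · intro t ht
    rw [List.mem_map] at ht
    obtain ⟨t', ht', rfl⟩ := ht
    obtain ⟨h4, h5⟩ := h3 t' ht'
    exact ⟨by simpa using h4, wf_cons b D i t'.2.2 hb h h5⟩

theorem DecL_dec_sub (b : ℕ → ℕ) (lp lm : SA) (c0 c : ℕ) (D : ℝ) (f0 f : SA)
    (h0 : Dec b lp lm c0 D f0) (hf : Dec b lp lm c D f) :
    Dec b lp lm (c0 + c) D (f0 - f) := by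
  obtain ⟨T0, a1, a2, a3⟩ := h0
  obtain ⟨T, b1, b2, b3⟩ := hf
  refine ⟨T0 ++ T.map (fun t => (!t.1, t.2.1, t.2.2)), ?_, ?_, ?_⟩
  · rw [List.length_append, List.length_map]
    omega
  · rw [List.map_append, List.sum_append, ← a2, List.map_map, sub_eq_add_neg]
    congr 1
    have h : ∀ T : List (Bool × Bool × List ℕ),
        -((T.map (fun t => (if t.1 then (1 : ℝ) else -1) •
          term b t.2.2 (if t.2.1 then lp else lm))).sum) =
        (T.map ((fun t : Bool × Bool × List ℕ => (if t.1 then (1 : ℝ) else -1) •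
          term b t.2.2 (if t.2.1 then lp else lm)) ∘ fun t => (!t.1, t.2.1, t.2.2))).sum := by
      intro T
      induction T with
      | nil => simp
      | cons t T ih =>
        rw [List.map_cons, List.sum_cons, neg_add, ih, List.map_cons, List.sum_cons]
        congr 1
        rcases t with ⟨t1, t2, t3⟩
        cases t1 <;> simp
    rw [b2]
    exact h T
  · intro t ht
    rw [List.mem_append, List.mem_map] at ht
    rcases ht with ht | ⟨t', ht', rfl⟩
    · exact ⟨(a3 t ht).1.trans (Nat.le_add_right _ _), (a3 t ht).2⟩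
    · exact ⟨(b3 t' ht').1.trans (Nat.le_add_left _ _), (b3 t' ht').2⟩

theorem dec_sub_sum (b : ℕ → ℕ) (lp lm : SA) (c0 c : ℕ) (D : ℝ) (f0 : SA) (S : Finset ℕ)
    (f : ℕ → SA) (h0 : Dec b lp lm c0 D f0) (hf : ∀ i ∈ S, Dec b lp lm c D (f i)) :
    Dec b lp lm (c0 + S.card * c) D (f0 - ∑ i ∈ S, f i) := by
  classical
  induction S using Finset.induction_on with
  | empty => simpa using h0
  | insert a s ha ih =>
    rw [sum_insert ha, card_insert_of_notMem ha]
    have h1 := ih (fun i hi => hf i (mem_insert_of_mem hi))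
    have h2 := DecL_dec_sub b lp lm _ c D _ _ h1 (hf a (mem_insert_self a s))
    have e1 : f0 - (f a + ∑ i ∈ s, f i) = f0 - ∑ i ∈ s, f i - f a := by abel
    have e2 : c0 + (s.card + 1) * c = c0 + s.card * c + c := by ring
    rw [e1, e2]
    exact h2

theorem cc_mono : Monotone cc := by
  refine monotone_nat_of_le_succ (fun n => ?_)
  show cc n ≤ 1 + (n + 1) * (cc n + 1)
  nlinarith [Nat.zero_le (n * cc n)]

end Pool.Agent.PTH
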