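import Pool.Agent.PTH.Def
import Pool.Agent.PSK.Nea

/-!
# PTH / Dia: few products of two primes near `√N`

`h = hd δ N`, `A = h`, `B = ⌊√(2N)⌋`, `R = R' = ⌊N^(1/1000)⌋`.  If `n = p q`, `h < p < q`, `n < N + h ≤ 2N`, then
`p ≤ B`, and `Selberg.wt R n = 1` because the only divisor `≤ R` of `n` is `1` (`R ≤ h < p < q`;
`Selberg.wt R n = (∑_{d ∣ n, d ≤ R} λ_d)^2`, `λ_1 = 1`).  So the number is at most
`∑_{A < p ≤ B} TT N h R p` (`PSK.TT`), and `PSK.near_general` with `PSK.lat_bound` (`d ≤ R^2`, `e ≤ R^2`,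
`d e ≤ N^0.004`; `d (N^0.496 + 1) ≤ A`; `B ≤ N^0.504`; `X = 3 N^0.47`) gives
`≤ h log (B/A)/L_R^2 + 3 N^0.47 N^0.008`.  `log (B/A) ≤ δ log N + log 4 ≤ 2 δ log N` for large `N`,
`L_R ≥ log (R+1)/2 ≥ log N/2000` (`Selberg.L_ge`): `≤ 8 * 10^6 δ N^(1/2-δ)/log N + N^0.48`.
-/

set_option autoImplicit false

namespace Pool.Agent.PTH

open Finset Real Filter
open Pool.Agent.Helper4.ST

/-- a product of two primes `> R` has weight one -/
private lemma wt_pq {R p q : ℕ} (hR : 1 ≤ R) (hp : p.Prime) (hq : q.Prime) (hRp : R < p)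
    (hRq : R < q) : Selberg.wt R (p * q) = 1 := by
  unfold Selberg.wt
  have h1 : (Icc 1 R).filter (fun e => e ∣ p * q) = {1} := by
    ext e
    simp only [Finset.mem_filter, Finset.mem_Icc, Finset.mem_singleton]
    constructor
    · rintro ⟨⟨h1, h2⟩, h3⟩
      have hc : Nat.Coprime e p := by
        rw [Nat.coprime_comm]
        exact (Nat.Prime.coprime_iff_not_dvd hp).2 (fun h4 => by
          have := Nat.le_of_dvd (by omega) h4
          omega)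
      have h4 : e ∣ q := hc.dvd_of_dvd_mul_left h3
      rcases (Nat.dvd_prime hq).1 h4 with h5 | h5
      · exact h5
      · omega
    · rintro rfl
      exact ⟨⟨le_rfl, hR⟩, one_dvd _⟩
  rw [h1, Finset.sum_singleton, Selberg.lam_one hR, one_pow]

open scoped Classical in
/-- the combinatorial step -/
private lemma card_le_TT (N h R : ℕ) (hh : h ≤ N) (hR : 1 ≤ R) (hRh : R ≤ h) :
    (((PSK.JH N h).filter (fun n =>
      ∃ p q : ℕ, p.Prime ∧ q.Prime ∧ h < p ∧ p < q ∧ n = p * q)).card : ℝ) ≤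
      ∑ p ∈ (Ioc h (Nat.sqrt (2 * N))).filter Nat.Prime, PSK.TT N h R p := by
  have h1 : (PSK.JH N h).filter (fun n =>
      ∃ p q : ℕ, p.Prime ∧ q.Prime ∧ h < p ∧ p < q ∧ n = p * q) ⊆
      ((Ioc h (Nat.sqrt (2 * N))).filter Nat.Prime).biUnion (fun p =>
        (PSK.JH N h).filter (fun n => p ∣ n ∧ Selberg.wt R n = 1)) := by
    intro n hn
    rw [Finset.mem_filter] at hn
    obtain ⟨hn1, p, q, hp, hq, hhp, hpq, rfl⟩ := hn
    rw [Finset.mem_biUnion]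
    refine ⟨p, ?_, ?_⟩
    · rw [Finset.mem_filter, Finset.mem_Ioc, Nat.le_sqrt]
      refine ⟨⟨hhp, ?_⟩, hp⟩
      unfold PSK.JH at hn1
      rw [Finset.mem_Ioo] at hn1
      have h2 : p * p ≤ p * q := Nat.mul_le_mul_left _ hpq.le
      omega
    · rw [Finset.mem_filter]
      exact ⟨hn1, dvd_mul_right _ _, wt_pq hR hp hq (by omega) (by omega)⟩
  calc (((PSK.JH N h).filter (fun n =>
      ∃ p q : ℕ, p.Prime ∧ q.Prime ∧ h < p ∧ p < q ∧ n = p * q)).card : ℝ)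
      ≤ ((((Ioc h (Nat.sqrt (2 * N))).filter Nat.Prime).biUnion (fun p =>
        (PSK.JH N h).filter (fun n => p ∣ n ∧ Selberg.wt R n = 1))).card : ℝ) := by
        exact_mod_cast Finset.card_le_card h1
    _ ≤ ((∑ p ∈ (Ioc h (Nat.sqrt (2 * N))).filter Nat.Prime,
        ((PSK.JH N h).filter (fun n => p ∣ n ∧ Selberg.wt R n = 1)).card : ℕ) : ℝ) := by
        exact_mod_cast Finset.card_biUnion_le
    _ = ∑ p ∈ (Ioc h (Nat.sqrt (2 * N))).filter Nat.Prime,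
        (((PSK.JH N h).filter (fun n => p ∣ n ∧ Selberg.wt R n = 1)).card : ℝ) := by
        push_cast
        rfl
    _ ≤ ∑ p ∈ (Ioc h (Nat.sqrt (2 * N))).filter Nat.Prime, PSK.TT N h R p := by
        refine Finset.sum_le_sum fun p _ => ?_
        unfold PSK.TT
        have h2 : (((PSK.JH N h).filter (fun n => p ∣ n ∧ Selberg.wt R n = 1)).card : ℝ) =
            ∑ n ∈ (PSK.JH N h).filter (fun n => p ∣ n ∧ Selberg.wt R n = 1),
              Selberg.wt R n := by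
          rw [Finset.card_eq_sum_ones]
          push_cast
          refine Finset.sum_congr rfl fun n hn => ?_
          rw [Finset.mem_filter] at hn
          exact hn.2.2.symm
        rw [h2]
        refine Finset.sum_le_sum_of_subset_of_nonneg ?_ fun n _ _ => Selberg.wt_nonneg _ _
        intro n hn
        rw [Finset.mem_filter] at hn ⊢
        exact ⟨hn.1, hn.2.1⟩

/-- the numerical facts for large `N` -/
private lemma ev_facts (δ : ℝ) (hδ : 0 < δ) (hδ2 : δ ≤ 1 / 1000) : ∀ᶠ x : ℝ in atTop,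
    2 ≤ x ∧ 2 ≤ x ^ (1 / 2 - δ) ∧ 1 ≤ x ^ (1 / 1000 : ℝ) ∧ 4 * x ^ δ ≤ x ^ (2 * δ) ∧
      x ^ (1 / 500 : ℝ) * (x ^ (1 / 2 - 1 / 250 : ℝ) + 1) ≤ x ^ (1 / 2 - δ) - 1 ∧
      2 * x ^ (1 / 2 : ℝ) ≤ x ^ (1 / 2 + 1 / 250 : ℝ) ∧
      3 * x ^ (47 / 100 : ℝ) * x ^ (8 / 1000 : ℝ) ≤ δ * x ^ (1 / 2 - δ) / log x := by
  have e1 := (tendsto_rpow_atTop (show (0 : ℝ) < 1 / 2 - δ by linarith)).eventually_ge_atTop
    (2 : ℝ)
  have e2 := (tendsto_rpow_atTop hδ).eventually_ge_atTop (4 : ℝ)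
  have e3 := (tendsto_rpow_atTop (show (0 : ℝ) < 1 / 1000 by norm_num)).eventually_ge_atTop
    (4 : ℝ)
  have e5 := (isLittleO_log_rpow_atTop (show (0 : ℝ) < 1 / 100 by norm_num)).bound
    (show (0 : ℝ) < δ / 3 by positivity)
  filter_upwards [e1, e2, e3, e5, eventually_ge_atTop (3 : ℝ)] with x h1 h2 h3 h5 hx
  have hx0 : 0 < x := by linarith
  have hx1 : 1 ≤ x := by linarith
  have hlog : 0 < log x := log_pos (by linarith)
  refine ⟨by linarith, h1, one_le_rpow hx1 (by norm_num), ?_, ?_, ?_, ?_⟩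
  · have h6 : x ^ (2 * δ) = x ^ δ * x ^ δ := by rw [← rpow_add hx0]; ring_nf
    rw [h6]
    exact mul_le_mul_of_nonneg_right h2 (rpow_nonneg hx0.le _)
  · -- exponents 0.002 + 0.496 = 0.498, 0.499
    have h6 : x ^ (1 / 500 : ℝ) * x ^ (1 / 2 - 1 / 250 : ℝ) = x ^ (498 / 1000 : ℝ) := by
      rw [← rpow_add hx0]; norm_num
    have h7 : x ^ (498 / 1000 : ℝ) * x ^ (1 / 1000 : ℝ) = x ^ (499 / 1000 : ℝ) := by
      rw [← rpow_add hx0]; norm_num
    have h8 : x ^ (499 / 1000 : ℝ) ≤ x ^ (1 / 2 - δ) :=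
      rpow_le_rpow_of_exponent_le hx1 (by linarith)
    have h9 : x ^ (1 / 500 : ℝ) ≤ x ^ (498 / 1000 : ℝ) :=
      rpow_le_rpow_of_exponent_le hx1 (by norm_num)
    have h10 : 1 ≤ x ^ (498 / 1000 : ℝ) := one_le_rpow hx1 (by norm_num)
    nlinarith
  · have h6 : x ^ (1 / 2 + 1 / 250 : ℝ) = x ^ (1 / 2 : ℝ) * x ^ (1 / 250 : ℝ) := by
      rw [← rpow_add hx0]
    have h7 : x ^ (1 / 1000 : ℝ) ≤ x ^ (1 / 250 : ℝ) :=
      rpow_le_rpow_of_exponent_le hx1 (by norm_num)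
    rw [h6, mul_comm]
    exact mul_le_mul_of_nonneg_left (by linarith) (rpow_nonneg hx0.le _)
  · rw [norm_eq_abs, norm_eq_abs, abs_of_pos hlog, abs_of_pos (rpow_pos_of_pos hx0 _)] at h5
    rw [le_div_iff₀ hlog]
    have h6 : x ^ (47 / 100 : ℝ) * x ^ (8 / 1000 : ℝ) * x ^ (1 / 100 : ℝ) =
        x ^ (488 / 1000 : ℝ) := by
      rw [← rpow_add hx0, ← rpow_add hx0]; norm_num
    have h7 : x ^ (488 / 1000 : ℝ) ≤ x ^ (1 / 2 - δ) :=
      rpow_le_rpow_of_exponent_le hx1 (by linarith)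
    have h8 : 0 < x ^ (47 / 100 : ℝ) * x ^ (8 / 1000 : ℝ) :=
      mul_pos (rpow_pos_of_pos hx0 _) (rpow_pos_of_pos hx0 _)
    calc 3 * x ^ (47 / 100 : ℝ) * x ^ (8 / 1000 : ℝ) * log x
        = 3 * (x ^ (47 / 100 : ℝ) * x ^ (8 / 1000 : ℝ)) * log x := by ring
      _ ≤ 3 * (x ^ (47 / 100 : ℝ) * x ^ (8 / 1000 : ℝ)) * (δ / 3 * x ^ (1 / 100 : ℝ)) :=
          mul_le_mul_of_nonneg_left h5 (by positivity)
      _ = δ * (x ^ (47 / 100 : ℝ) * x ^ (8 / 1000 : ℝ) * x ^ (1 / 100 : ℝ)) := by ring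
      _ ≤ δ * x ^ (1 / 2 - δ) := by
          rw [h6]
          exact mul_le_mul_of_nonneg_left h7 hδ.le

open scoped Classical in
theorem diag : ∃ C : ℝ, 0 < C ∧ ∀ δ : ℝ, 0 < δ → δ ≤ 1 / 1000 → ∀ᶠ N : ℕ in atTop,
    (((PSK.JH N (hd δ N)).filter (fun n =>
      ∃ p q : ℕ, p.Prime ∧ q.Prime ∧ hd δ N < p ∧ p < q ∧ n = p * q)).card : ℝ) ≤
      C * δ * (N : ℝ) ^ (1 / 2 - δ) / log N := by
  refine ⟨8000001, by norm_num, fun δ hδ hδ2 => ?_⟩
  filter_upwards [tendsto_natCast_atTop_atTop.eventually (ev_facts δ hδ hδ2),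
    PSK.lat_bound] with N hN hlat
  obtain ⟨h2, h3, h4, h5, h6, h7, h8⟩ := hN
  have hN0 : (0 : ℝ) < N := by linarith
  have hN1 : (1 : ℝ) ≤ N := by linarith
  have hlog : 0 < log N := log_pos (by linarith)
  set x : ℝ := (N : ℝ) with hx
  set R : ℕ := ⌊x ^ (1 / 1000 : ℝ)⌋₊ with hR
  set h : ℕ := hd δ N with hh
  set B : ℕ := Nat.sqrt (2 * N) with hB
  have hhle : (h : ℝ) ≤ x ^ (1 / 2 - δ) := by
    rw [hh]; unfold hd
    exact Nat.floor_le (rpow_nonneg hN0.le _)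
  have hhge : x ^ (1 / 2 - δ) - 1 ≤ (h : ℝ) := by
    rw [hh]; unfold hd
    exact (Nat.sub_one_lt_floor _).le
  have hRle : (R : ℝ) ≤ x ^ (1 / 1000 : ℝ) := Nat.floor_le (rpow_nonneg hN0.le _)
  have hR1 : 1 ≤ R := Nat.one_le_floor_iff _ |>.2 h4
  have hR0 : (1 : ℝ) ≤ R := by exact_mod_cast hR1
  have hlt : x ^ (1 / 1000 : ℝ) < R + 1 := Nat.lt_floor_add_one _
  have hhN : h ≤ N := by
    have h9 : (h : ℝ) ≤ N := hhle.trans (by
      calc x ^ (1 / 2 - δ) ≤ x ^ (1 : ℝ) := rpow_le_rpow_of_exponent_le hN1 (by linarith)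
        _ = x := rpow_one x)
    exact_mod_cast h9
  have hRh : R ≤ h := by
    have h9 : (R : ℝ) ≤ h := by
      have h10 : x ^ (1 / 1000 : ℝ) ≤ x ^ (1 / 500 : ℝ) :=
        rpow_le_rpow_of_exponent_le hN1 (by norm_num)
      have h11 : 0 ≤ x ^ (1 / 2 - 1 / 250 : ℝ) := rpow_nonneg hN0.le _
      have h12 : 0 ≤ x ^ (1 / 500 : ℝ) := rpow_nonneg hN0.le _
      nlinarith
    exact_mod_cast h9
  have hh1 : 1 ≤ h := hR1.trans hRh
  have hh0 : (1 : ℝ) ≤ h := by exact_mod_cast hh1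
  have hBle : (B : ℝ) ≤ 2 * x ^ (1 / 2 : ℝ) := by
    have h9 : (B : ℝ) ^ 2 ≤ 2 * x := by
      have := Nat.sqrt_le' (2 * N)
      have h10 : ((Nat.sqrt (2 * N) ^ 2 : ℕ) : ℝ) ≤ ((2 * N : ℕ) : ℝ) := by exact_mod_cast this
      push_cast at h10
      exact h10
    have h11 : (x ^ (1 / 2 : ℝ)) ^ 2 = x := by
      rw [← rpow_natCast, ← rpow_mul hN0.le]; norm_num
    have h12 : 0 ≤ x ^ (1 / 2 : ℝ) := rpow_nonneg hN0.le _
    refine abs_le_of_sq_le_sq' ?_ (by linarith) |>.2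
    nlinarith
  have hhB : h ≤ B := by
    rw [hB, Nat.le_sqrt]
    have h9 : (h : ℝ) * h ≤ 2 * N := by
      have h10 : (h : ℝ) * h ≤ x ^ (1 / 2 - δ) * x ^ (1 / 2 - δ) :=
        mul_le_mul hhle hhle (by linarith) (rpow_nonneg hN0.le _)
      have h11 : x ^ (1 / 2 - δ) * x ^ (1 / 2 - δ) ≤ x := by
        rw [← rpow_add hN0]
        calc x ^ (1 / 2 - δ + (1 / 2 - δ)) ≤ x ^ (1 : ℝ) :=
              rpow_le_rpow_of_exponent_le hN1 (by linarith)
          _ = x := rpow_one x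
      linarith
    exact_mod_cast h9
  have hB0 : (0 : ℝ) < B := by
    have : (h : ℝ) ≤ B := by exact_mod_cast hhB
    linarith
  -- the lattice point bound
  have hX : ∀ d e : ℕ, 1 ≤ d → d ≤ R ^ 2 → 1 ≤ e → e ≤ R ^ 2 →
      |(PSK.lat N h d e h B : ℝ) - (h : ℝ) / (d * e) * Real.log ((B : ℝ) / h)| ≤
        3 * x ^ (47 / 100 : ℝ) := by
    intro d e hd1 hd2 he1 he2
    have h9 : ∀ m : ℕ, m ≤ R ^ 2 → (m : ℝ) ≤ x ^ (1 / 500 : ℝ) := by
      intro m hm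
      have h10 : (m : ℝ) ≤ (R : ℝ) ^ 2 := by exact_mod_cast hm
      have h11 : (R : ℝ) ^ 2 ≤ (x ^ (1 / 1000 : ℝ)) ^ 2 := by
        apply pow_le_pow_left₀ (by linarith) hRle
      have h12 : (x ^ (1 / 1000 : ℝ)) ^ 2 = x ^ (1 / 500 : ℝ) := by
        rw [← rpow_natCast, ← rpow_mul hN0.le]; norm_num
      linarith
    refine hlat h d e h B hh1 ?_ hd1 he1 ?_ ?_ hhB ?_
    · exact hhle.trans (rpow_le_rpow_of_exponent_le hN1 (by linarith))
    · have h10 := h9 d hd2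
      have h11 := h9 e he2
      calc (d : ℝ) * e ≤ x ^ (1 / 500 : ℝ) * x ^ (1 / 500 : ℝ) :=
            mul_le_mul h10 h11 (Nat.cast_nonneg _) (rpow_nonneg hN0.le _)
        _ = x ^ (1 / 250 : ℝ) := by rw [← rpow_add hN0]; norm_num
        _ ≤ x ^ (1 / 125 : ℝ) := rpow_le_rpow_of_exponent_le hN1 (by norm_num)
    · have h10 := h9 d hd2
      have h11 : 0 ≤ x ^ (1 / 2 - 1 / 250 : ℝ) + 1 := by
        have := rpow_nonneg hN0.le (1 / 2 - 1 / 250 : ℝ)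
        linarith
      calc (d : ℝ) * (x ^ (1 / 2 - 1 / 250 : ℝ) + 1)
          ≤ x ^ (1 / 500 : ℝ) * (x ^ (1 / 2 - 1 / 250 : ℝ) + 1) :=
            mul_le_mul_of_nonneg_right h10 h11
        _ ≤ x ^ (1 / 2 - δ) - 1 := h6
        _ ≤ h := hhge
    · exact hBle.trans h7
  have hmain := PSK.near_general N h R R h B hR1 hR1 hRh hRh _ hX
  have hcard := card_le_TT N h R hhN hR1 hRh
  refine (hcard.trans hmain).trans ?_
  -- the logarithm
  have hlogB : log ((B : ℝ) / h) ≤ 2 * δ * log x := by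
    have h9 : (B : ℝ) / h ≤ x ^ (2 * δ) := by
      rw [div_le_iff₀ (by linarith)]
      have h10 : x ^ (1 / 2 : ℝ) = x ^ (1 / 2 - δ) * x ^ δ := by
        rw [← rpow_add hN0]; ring_nf
      have h11 : x ^ (1 / 2 - δ) ≤ 2 * h := by linarith
      have h12 : 0 ≤ x ^ δ := rpow_nonneg hN0.le _
      calc (B : ℝ) ≤ 2 * x ^ (1 / 2 : ℝ) := hBle
        _ = 2 * (x ^ (1 / 2 - δ) * x ^ δ) := by rw [h10]
        _ ≤ 2 * (2 * h * x ^ δ) := by
            have := mul_le_mul_of_nonneg_right h11 h12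
            linarith
        _ = 4 * x ^ δ * h := by ring
        _ ≤ x ^ (2 * δ) * h := mul_le_mul_of_nonneg_right h5 (by linarith)
    calc log ((B : ℝ) / h) ≤ log (x ^ (2 * δ)) :=
          log_le_log (by positivity) h9
      _ = 2 * δ * log x := log_rpow hN0 _
  have hL : log x / 2000 ≤ Selberg.L R := by
    have h9 := Selberg.L_ge R
    have h10 : log (x ^ (1 / 1000 : ℝ)) ≤ log (R + 1) :=
      log_le_log (rpow_pos_of_pos hN0 _) hlt.le
    rw [log_rpow hN0] at h10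
    linarith
  have hLL : (log x / 2000) * (log x / 2000) ≤ Selberg.L R * Selberg.L R :=
    mul_le_mul hL hL (by positivity) ((by positivity : (0 : ℝ) ≤ log x / 2000).trans hL)
  have hR8 : (R : ℝ) ^ 4 * (R : ℝ) ^ 4 ≤ x ^ (8 / 1000 : ℝ) := by
    have h9 : (R : ℝ) ^ 4 * (R : ℝ) ^ 4 = (R : ℝ) ^ 8 := by ring
    rw [h9]
    calc (R : ℝ) ^ 8 ≤ (x ^ (1 / 1000 : ℝ)) ^ 8 := pow_le_pow_left₀ (by linarith) hRle _
      _ = x ^ (8 / 1000 : ℝ) := by
          rw [← rpow_natCast, ← rpow_mul hN0.le]; norm_num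
  have hA : (h : ℝ) * log ((B : ℝ) / h) / (Selberg.L R * Selberg.L R) ≤
      8000000 * δ * x ^ (1 / 2 - δ) / log x := by
    have h9 : (h : ℝ) * log ((B : ℝ) / h) ≤ x ^ (1 / 2 - δ) * (2 * δ * log x) := by
      have h10 : (h : ℝ) * log ((B : ℝ) / h) ≤ h * (2 * δ * log x) :=
        mul_le_mul_of_nonneg_left hlogB (by linarith)
      exact h10.trans (mul_le_mul_of_nonneg_right hhle (by positivity))
    have h11 : 0 < (log x / 2000) * (log x / 2000) := by positivity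
    calc (h : ℝ) * log ((B : ℝ) / h) / (Selberg.L R * Selberg.L R)
        ≤ x ^ (1 / 2 - δ) * (2 * δ * log x) / (Selberg.L R * Selberg.L R) :=
          div_le_div_of_nonneg_right h9 (h11.le.trans hLL)
      _ ≤ x ^ (1 / 2 - δ) * (2 * δ * log x) / ((log x / 2000) * (log x / 2000)) := by
          refine div_le_div_of_nonneg_left ?_ h11 hLL
          have := rpow_nonneg hN0.le (1 / 2 - δ)
          positivity
      _ = 8000000 * δ * x ^ (1 / 2 - δ) / log x := by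
          field_simp
          ring
  have hE : 3 * x ^ (47 / 100 : ℝ) * (R : ℝ) ^ 4 * (R : ℝ) ^ 4 ≤
      δ * x ^ (1 / 2 - δ) / log x := by
    refine le_trans ?_ h8
    have h9 : 0 ≤ 3 * x ^ (47 / 100 : ℝ) := by
      have := rpow_nonneg hN0.le (47 / 100 : ℝ)
      positivity
    calc 3 * x ^ (47 / 100 : ℝ) * (R : ℝ) ^ 4 * (R : ℝ) ^ 4
        = 3 * x ^ (47 / 100 : ℝ) * ((R : ℝ) ^ 4 * (R : ℝ) ^ 4) := by ring
      _ ≤ 3 * x ^ (47 / 100 : ℝ) * x ^ (8 / 1000 : ℝ) := mul_le_mul_of_nonneg_left hR8 h9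
  calc (h : ℝ) * log ((B : ℝ) / h) / (Selberg.L R * Selberg.L R) +
        3 * x ^ (47 / 100 : ℝ) * (R : ℝ) ^ 4 * (R : ℝ) ^ 4
      ≤ 8000000 * δ * x ^ (1 / 2 - δ) / log x + δ * x ^ (1 / 2 - δ) / log x :=
        add_le_add hA hE
    _ = 8000001 * δ * x ^ (1 / 2 - δ) / log x := by ring

end Pool.Agent.PTH
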