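import Pool.Agent.PTH.AvE
import Pool.Agent.PTH.Tb1

/-!
# PTH / Ex1: potentials `G(y) = ∑ ρ^j T^j(y)`

`0 < ρ < 1`.  `‖T^j y‖ ≤ ‖y‖` (`norm_Tp_le`), so the series converges absolutely (geometric series).
All statements are elementary (use `AvA`, `AvE`; the positive cone of a C*-algebra is norm closed:
`CStarAlgebra.isClosed_nonneg`, or `tsum_nonneg` with an `OrderClosedTopology` instance; a
continuous linear map commutes with `∑'`: `ContinuousLinearMap.map_tsum`; `a.T` is norm contractive by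
`norm_T_le`, hence continuous: `LinearMap.mkContinuous`; `τ` and `rt` are norm continuous,
`|rt x| ≤ ‖x‖`).
* `T_pot_le`: `T G(y) = ∑ ρ^j T^{j+1} y = ρ⁻¹ (G(y) - y) ≤ ρ⁻¹ G(y)` (`tsum_eq_zero_add`).
* `Tp_le_pot`: `ρ^j T^j y ≤ G(y)` (one term of a sum of positive elements).
* `conj_pot_le`: `p_i u_i g u_i* ≤ T g ≤ ρ⁻¹ g` for `g = G(y)` (one term of the sum `T g`; `g ≥ 0`),
  so `u_i g u_i* ≤ (ρ p_i)⁻¹ g ≤ (ρ p_m)⁻¹ g`.
* `rt_pot`: `rt (T^j y) = rt y`, geometric series.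
* `rt_mul_pot_le`: `rt (z T^j y) = rt (z (T^j y - y)) ≤ ‖T^j y - y‖₁ ≤ j d1(y)` (`0 ≤ z ≤ 1`,
  `z y = 0`, `‖z‖ ≤ 1`, `one_Tp_sub_le`), and `∑ j ρ^j = ρ/(1-ρ)² ≤ 1/(1-ρ)²`
  (`tsum_coe_mul_geometric_of_norm_lt_one`).
-/

open Filter Topology
open scoped InnerProductSpace ComplexOrder

namespace Pool.Agent.PTH

namespace Avg

variable {A : Type*} [CStarAlgebra A] [PartialOrder A] [StarOrderedRing A] [TracialVN A] (a : Avg A)

/-- The potential `G(y) = ∑ ρ^j T^j(y)`. -/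
noncomputable def pot (ρ : ℝ) (y : A) : A := ∑' j : ℕ, (ρ ^ j) • (a.T ^ j) y

/-- `a.T` as a continuous linear map -/
noncomputable def Tc : A →L[ℂ] A := a.T.mkContinuous 1 fun x => by
  rw [one_mul]
  exact a.norm_T_le x

theorem Tc_apply (x : A) : a.Tc x = a.T x := rfl

/-- `x ↦ Re τ(z x)` as a continuous linear functional -/
noncomputable def rtc (z : A) : A →L[ℝ] ℝ :=
  LinearMap.mkContinuous
    { toFun := fun x => rt (z * x)
      map_add' := fun x y => by rw [mul_add, rt_add]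
      map_smul' := fun r x => by rw [mul_smul_comm, rt_smul, RingHom.id_apply, smul_eq_mul] } ‖z‖
    fun x => ((abs_rt_le (z * x)).trans (two_le_norm _)).trans (norm_mul_le z x)

omit [PartialOrder A] [StarOrderedRing A] in
theorem rtc_apply (z x : A) : rtc z x = rt (z * x) := rfl

section pot

variable {ρ : ℝ} (h0 : 0 < ρ) (h1 : ρ < 1)

include h0 h1

theorem pot_summable (y : A) : Summable fun j : ℕ => (ρ ^ j) • (a.T ^ j) y := by
  refine Summable.of_norm_bounded (g := fun j => ρ ^ j * ‖y‖)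
    ((summable_geometric_of_lt_one h0.le h1).mul_right _) fun j => ?_
  rw [norm_smul, Real.norm_of_nonneg (by positivity)]
  exact mul_le_mul_of_nonneg_left (a.norm_Tp_le j y) (by positivity)

theorem pot_add (x y : A) : a.pot ρ (x + y) = a.pot ρ x + a.pot ρ y := by
  unfold pot
  rw [← (a.pot_summable h0 h1 x).tsum_add (a.pot_summable h0 h1 y)]
  refine tsum_congr fun j => ?_
  rw [map_add, smul_add]

theorem pot_smul (s : ℝ) (y : A) : a.pot ρ (s • y) = s • a.pot ρ y := by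
  unfold pot
  rw [← (a.pot_summable h0 h1 y).tsum_const_smul s]
  refine tsum_congr fun j => ?_
  rw [LinearMap.map_smul_of_tower, smul_comm]

theorem pot_sum {ι : Type*} (s : Finset ι) (f : ι → A) :
    a.pot ρ (∑ i ∈ s, f i) = ∑ i ∈ s, a.pot ρ (f i) := by
  classical
  induction s using Finset.induction_on with
  | empty =>
    rw [Finset.sum_empty, Finset.sum_empty]
    have h := a.pot_smul h0 h1 0 (0 : A)
    rwa [zero_smul, zero_smul] at h
  | insert i s hi ih =>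
    rw [Finset.sum_insert hi, Finset.sum_insert hi, pot_add a h0 h1, ih]

theorem pot_term_nonneg {y : A} (hy : 0 ≤ y) (j : ℕ) : 0 ≤ (ρ ^ j) • (a.T ^ j) y :=
  smul_nonneg (by positivity) (a.Tp_nonneg j hy)

theorem pot_nonneg {y : A} (hy : 0 ≤ y) : 0 ≤ a.pot ρ y := by
  unfold pot
  exact tsum_nonneg fun j => a.pot_term_nonneg h0 h1 hy j

theorem term_le_pot {y : A} (hy : 0 ≤ y) (j : ℕ) : (ρ ^ j) • (a.T ^ j) y ≤ a.pot ρ y := by
  unfold pot
  exact (a.pot_summable h0 h1 y).le_tsum j fun i _ => a.pot_term_nonneg h0 h1 hy i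

theorem le_pot {y : A} (hy : 0 ≤ y) : y ≤ a.pot ρ y := by
  have h := a.term_le_pot h0 h1 hy 0
  rwa [pow_zero, pow_zero, one_smul, Module.End.one_apply] at h

theorem pot_mono {x y : A} (h : x ≤ y) : a.pot ρ x ≤ a.pot ρ y := by
  have h2 := a.pot_add h0 h1 x (y - x)
  rw [add_sub_cancel] at h2
  rw [h2]
  exact le_add_of_nonneg_right (a.pot_nonneg h0 h1 (sub_nonneg.2 h))

/-- `G(y) = y + ρ T(G(y))` -/
theorem pot_eq (y : A) : a.pot ρ y = y + ρ • a.T (a.pot ρ y) := by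
  have hs := a.pot_summable h0 h1 y
  have e1 : a.T (a.pot ρ y) = ∑' j : ℕ, (ρ ^ j) • (a.T ^ (j + 1)) y := by
    rw [← Tc_apply]
    unfold pot
    rw [a.Tc.map_tsum hs]
    refine tsum_congr fun j => ?_
    rw [Tc_apply, LinearMap.map_smul_of_tower, pow_succ', Module.End.mul_apply]
  have e2 : a.pot ρ y = y + ∑' j : ℕ, (ρ ^ (j + 1)) • (a.T ^ (j + 1)) y := by
    unfold pot
    rw [hs.tsum_eq_zero_add, pow_zero, pow_zero, one_smul, Module.End.one_apply]
  have hs2 : Summable fun j : ℕ => (ρ ^ j) • (a.T ^ (j + 1)) y := by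
    have h := a.Tc.summable hs
    refine h.congr fun j => ?_
    rw [Tc_apply, LinearMap.map_smul_of_tower, pow_succ', Module.End.mul_apply]
  rw [e1, ← hs2.tsum_const_smul ρ, e2]
  congr 1
  refine tsum_congr fun j => ?_
  rw [smul_smul, pow_succ']

theorem T_pot_le {y : A} (hy : 0 ≤ y) : a.T (a.pot ρ y) ≤ ρ⁻¹ • a.pot ρ y := by
  have h2 : ρ • a.T (a.pot ρ y) ≤ a.pot ρ y := by
    conv_rhs => rw [a.pot_eq h0 h1 y]
    exact le_add_of_nonneg_left hy
  have h3 := smul_le_smul_of_nonneg_left h2 (inv_nonneg.2 h0.le)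
  rwa [smul_smul, inv_mul_cancel₀ h0.ne', one_smul] at h3

theorem Tp_le_pot {y : A} (hy : 0 ≤ y) (j : ℕ) : (a.T ^ j) y ≤ (ρ⁻¹ ^ j) • a.pot ρ y := by
  have h3 := smul_le_smul_of_nonneg_left (a.term_le_pot h0 h1 hy j)
    (pow_nonneg (inv_nonneg.2 h0.le) j)
  rwa [smul_smul, ← mul_pow, inv_mul_cancel₀ h0.ne', one_pow, one_smul] at h3

theorem conj_pot_le {y : A} (hy : 0 ≤ y) {pm : ℝ} (hpm : 0 < pm) (hp : ∀ i, pm ≤ a.p i)
    (i : a.ι) : a.u i * a.pot ρ y * star (a.u i) ≤ (ρ * pm)⁻¹ • a.pot ρ y := by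
  have hg := a.pot_nonneg h0 h1 hy
  have h2 : a.p i • (a.u i * a.pot ρ y * star (a.u i)) ≤ a.T (a.pot ρ y) := by
    rw [T_apply, ← Complex.coe_smul]
    refine Finset.single_le_sum (f := fun i => (a.p i : ℂ) • (a.u i * a.pot ρ y * star (a.u i)))
      (fun j _ => ?_) (Finset.mem_univ i)
    rw [Complex.coe_smul]
    exact smul_nonneg (a.p_pos j).le (star_right_conjugate_nonneg hg _)
  have h3 := h2.trans (a.T_pot_le h0 h1 hy)
  have h4 := smul_le_smul_of_nonneg_left h3 (inv_nonneg.2 (a.p_pos i).le)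
  rw [smul_smul, inv_mul_cancel₀ (a.p_pos i).ne', one_smul, smul_smul] at h4
  refine h4.trans (smul_le_smul_of_nonneg_right ?_ hg)
  rw [mul_inv, mul_comm]
  exact mul_le_mul_of_nonneg_left (inv_anti₀ hpm (hp i)) (inv_nonneg.2 h0.le)

theorem rt_mul_pot (z y : A) : rt (z * a.pot ρ y) = ∑' j : ℕ, ρ ^ j * rt (z * (a.T ^ j) y) := by
  rw [← rtc_apply]
  unfold pot
  rw [(rtc z).map_tsum (a.pot_summable h0 h1 y)]
  refine tsum_congr fun j => ?_
  rw [map_smul, rtc_apply, smul_eq_mul]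

theorem rt_pot (y : A) : rt (a.pot ρ y) = rt y / (1 - ρ) := by
  have h2 := a.rt_mul_pot h0 h1 1 y
  rw [one_mul] at h2
  rw [h2]
  have h3 : ∀ j : ℕ, ρ ^ j * rt (1 * (a.T ^ j) y) = ρ ^ j * rt y := by
    intro j
    rw [one_mul, rt_def, rt_def, tau_Tp]
  simp only [h3]
  rw [tsum_mul_right, tsum_geometric_of_lt_one h0.le h1, mul_comm, div_eq_mul_inv]

theorem rt_mul_pot_le (z y : A) (hz : 0 ≤ z) (hz1 : z ≤ 1) (hzy : z * y = 0) :
    rt (z * a.pot ρ y) ≤ a.d1 y / (1 - ρ) ^ 2 := by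
  have hn : ‖z‖ ≤ 1 := (CStarAlgebra.norm_le_one_iff_of_nonneg z hz).2 hz1
  have hρ : ‖ρ‖ < 1 := by rwa [Real.norm_of_nonneg h0.le]
  have hd := a.d1_nonneg y
  have hterm : ∀ j : ℕ, ρ ^ j * rt (z * (a.T ^ j) y) ≤ (j * ρ ^ j) * a.d1 y := by
    intro j
    have h2 : rt (z * (a.T ^ j) y) = rt (((a.T ^ j) y - y) * z) := by
      rw [rt_comm _ z, mul_sub, hzy, sub_zero]
    have h3 : rt (z * (a.T ^ j) y) ≤ j * a.d1 y := by
      rw [h2]
      refine (rt_mul_le_one _ _).trans ?_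
      refine (mul_le_of_le_one_right (one_nonneg _) hn).trans (a.one_Tp_sub_le j y)
    calc ρ ^ j * rt (z * (a.T ^ j) y) ≤ ρ ^ j * (j * a.d1 y) :=
          mul_le_mul_of_nonneg_left h3 (by positivity)
      _ = (j * ρ ^ j) * a.d1 y := by ring
  have hS := hasSum_coe_mul_geometric_of_norm_lt_one hρ
  have hs1 : Summable fun j : ℕ => ρ ^ j * rt (z * (a.T ^ j) y) := by
    have h := (rtc z).summable (a.pot_summable h0 h1 y)
    refine h.congr fun j => ?_
    rw [map_smul, rtc_apply, smul_eq_mul]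
  rw [a.rt_mul_pot h0 h1]
  refine (hs1.tsum_le_tsum hterm (hS.summable.mul_right _)).trans ?_
  rw [tsum_mul_right, hS.tsum_eq, mul_comm, mul_div_assoc']
  have h5 : 0 < (1 - ρ) ^ 2 := by
    have : 0 < 1 - ρ := by linarith
    positivity
  rw [div_le_div_iff_of_pos_right h5]
  exact mul_le_of_le_one_right hd h1.le

end pot

end Avg

end Pool.Agent.PTH
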