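import Pool.Agent.PTH.Tb1

/-!
# PTH / Ex10: contraction matrices acting on rows; shrinking; cross terms

`row_contr`: `Y : Fin r → A`, `θ` a contraction: `∑_b two (∑_a θ_{ab} Y_a)² ≤ ∑_a two (Y_a)²`.
PROOF.  Gram matrix `G_{ab} = τ(Y_a* Y_b)`, positive semidefinite (`∑ conj x_a x_b G_{ab} =
τ((∑ x_a Y_a)* (∑ x_b Y_b)) ≥ 0`), so `G = Bᴴ B` (`Matrix.posSemidef_iff_eq_conjTranspose_mul_self`).
`∑_b two (∑_a θ_{ab} Y_a)² = ∑_b ∑_{a,a'} conj θ_{ab} θ_{a'b} G_{aa'} = ∑_b ∑_c |∑_a B_{ca} θ_{ab}|²`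
and for each `c`: `∑_b |∑_a B_{ca} θ_{ab}|² ≤ ∑_a |B_{ca}|²` (the transpose of a contraction is a
contraction), `∑_{c,a} |B_{ca}|² = Tr G = ∑ two (Y_a)²`.
TRANSPOSE: for `x ∈ ℂ^r`, `y_b = ∑_a x_a θ_{ab}`: `∑ |y_b|² = ∑_{a,b} x_a θ_{ab} conj y_b
= ∑_a x_a (θ ȳ)_a ≤ (∑ |x_a|²)^{1/2} (∑ |(θ ȳ)_a|²)^{1/2} ≤ (∑ |x_a|²)^{1/2} (∑ |y_b|²)^{1/2}`.
`cross`: `∑_{a,b} two (U_a* V_b)² = ∑ rt (V_b* U_a U_a* V_b) = rt (UU* VV*) ≤ rt (e f)` for
`UU* = ∑ U_a U_a* ≤ e`, `VV* ≤ f` (`rt_mul_mono`, `rt_mul_mono'` in Tb0).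
`rowDef_shrink`: entries `star (U_j q') (U_l q') - δ q' = q' (U_j* U_l - δ q) q'` for `q q' = q'`
(so `q' q = q'`), `two (q' x q') ≤ two x`.
`rowEn_shrink`: `u_i U_j q' - ∑ θ_{lj} U_l q' = (u_i U_j - ∑ θ_{lj} U_l) q'`.
-/

open Filter Topology
open scoped InnerProductSpace ComplexOrder

namespace Pool.Agent.PTH

variable {A : Type*} [CStarAlgebra A] [PartialOrder A] [StarOrderedRing A] [TracialVN A]

open scoped Matrix MatrixOrder in
/-- the Gram matrix is `star B * B` -/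
private theorem gram {r : ℕ} (Y : Fin r → A) : ∃ B : Matrix (Fin r) (Fin r) ℂ, ∀ x : Fin r → ℂ,
    two (∑ a, x a • Y a) ^ 2 = ∑ c, ‖(B *ᵥ x) c‖ ^ 2 := by
  obtain ⟨G, hG⟩ : ∃ G : Matrix (Fin r) (Fin r) ℂ, ∀ a b, G a b = TrAlg.tau (star (Y a) * Y b) :=
    ⟨Matrix.of fun a b => TrAlg.tau (star (Y a) * Y b), fun a b => rfl⟩
  have hq : ∀ x : Fin r → ℂ, star x ⬝ᵥ (G *ᵥ x) = ((two (∑ a, x a • Y a) ^ 2 : ℝ) : ℂ) := by
    intro x
    rw [← tau_eq, star_sum, Finset.sum_mul, map_sum]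
    simp only [dotProduct, Matrix.mulVec, Pi.star_apply]
    refine Finset.sum_congr rfl fun a _ => ?_
    rw [Finset.mul_sum, Finset.mul_sum, map_sum]
    refine Finset.sum_congr rfl fun b _ => ?_
    rw [star_smul, smul_mul_smul_comm, map_smul, smul_eq_mul, hG]
    ring
  have hherm : G.IsHermitian := by
    ext a b
    rw [Matrix.conjTranspose_apply, hG, hG, ← TrAlg.tau_star, star_mul, star_star]
  have hpos : G.PosSemidef := .of_dotProduct_mulVec_nonneg hherm fun x => by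
    rw [hq]
    exact_mod_cast sq_nonneg (two (∑ a, x a • Y a))
  obtain ⟨B, hB⟩ := CStarAlgebra.nonneg_iff_eq_star_mul_self.mp hpos.nonneg
  refine ⟨B, fun x => ?_⟩
  have h1 := hq x
  rw [hB, Matrix.star_eq_conjTranspose, ← Matrix.mulVec_mulVec, Matrix.dotProduct_mulVec,
    ← Matrix.star_mulVec] at h1
  have h2 : star (B *ᵥ x) ⬝ᵥ (B *ᵥ x) = ((∑ c, ‖(B *ᵥ x) c‖ ^ 2 : ℝ) : ℂ) := by
    simp only [dotProduct, Pi.star_apply]
    push_cast
    refine Finset.sum_congr rfl fun c _ => ?_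
    rw [Complex.star_def, Complex.conj_mul']
  rw [h2] at h1
  exact (Complex.ofReal_injective h1).symm

/-- the transpose of a contraction is a contraction -/
private theorem contr_transpose {r : ℕ} (θ : Matrix (Fin r) (Fin r) ℂ) (hθ : Contr θ)
    (x : Fin r → ℂ) : ∑ b, ‖∑ a, x a * θ a b‖ ^ 2 ≤ ∑ a, ‖x a‖ ^ 2 := by
  obtain ⟨y, hy⟩ : ∃ y : Fin r → ℂ, ∀ b, y b = ∑ a, x a * θ a b := ⟨_, fun b => rfl⟩
  simp only [← hy]
  set S : ℝ := ∑ b, ‖y b‖ ^ 2 with hS
  have h1 := hθ (fun b => star (y b))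
  simp only [norm_star] at h1
  rw [← hS] at h1
  have h2 : (S : ℂ) = ∑ a, x a * (θ.mulVec fun b => star (y b)) a := by
    calc (S : ℂ) = ∑ b, y b * star (y b) := by
          rw [hS]
          push_cast
          refine Finset.sum_congr rfl fun b _ => ?_
          rw [Complex.star_def, Complex.mul_conj']
      _ = ∑ b, ∑ a, x a * (θ a b * star (y b)) := by
          refine Finset.sum_congr rfl fun b _ => ?_
          rw [hy, Finset.sum_mul]
          refine Finset.sum_congr rfl fun a _ => ?_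
          ring
      _ = ∑ a, ∑ b, x a * (θ a b * star (y b)) := Finset.sum_comm
      _ = _ := by
          refine Finset.sum_congr rfl fun a _ => ?_
          rw [Matrix.mulVec, dotProduct, Finset.mul_sum]
  have hS0 : 0 ≤ S := Finset.sum_nonneg fun b _ => sq_nonneg _
  have h3 : S ≤ ∑ a, ‖x a‖ * ‖(θ.mulVec fun b => star (y b)) a‖ := by
    have h4 : S = ‖(S : ℂ)‖ := by rw [Complex.norm_real, Real.norm_of_nonneg hS0]
    rw [h4, h2]
    refine (norm_sum_le _ _).trans (Finset.sum_le_sum fun a _ => ?_)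
    rw [norm_mul]
  have h5 := Finset.sum_mul_sq_le_sq_mul_sq Finset.univ (fun a => ‖x a‖)
    (fun a => ‖(θ.mulVec fun b => star (y b)) a‖)
  have hX : 0 ≤ ∑ a, ‖x a‖ ^ 2 := Finset.sum_nonneg fun b _ => sq_nonneg _
  have h6 : S ^ 2 ≤ (∑ a, ‖x a‖ ^ 2) * S :=
    (pow_le_pow_left₀ hS0 h3 2).trans (h5.trans (mul_le_mul_of_nonneg_left h1 hX))
  rcases eq_or_lt_of_le hS0 with h7 | h7
  · rw [← h7]
    exact hX
  · nlinarith

theorem row_contr {r : ℕ} (θ : Matrix (Fin r) (Fin r) ℂ) (hθ : Contr θ) (Y : Fin r → A) :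
    ∑ b, two (∑ a, θ a b • Y a) ^ 2 ≤ ∑ a, two (Y a) ^ 2 := by
  obtain ⟨B, hB⟩ := gram Y
  have h1 : ∀ b, two (∑ a, θ a b • Y a) ^ 2 = ∑ c, ‖∑ a, B c a * θ a b‖ ^ 2 := by
    intro b
    rw [hB (fun a => θ a b)]
    rfl
  have h2 : ∀ a, two (Y a) ^ 2 = ∑ c, ‖B c a‖ ^ 2 := by
    intro a
    have h3 := hB (Pi.single a 1)
    rw [Finset.sum_eq_single a] at h3
    · rw [Pi.single_eq_same, one_smul] at h3
      rw [h3]
      refine Finset.sum_congr rfl fun c _ => ?_
      rw [Matrix.mulVec_single_one]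
      rfl
    · intro b _ hb
      rw [Pi.single_eq_of_ne hb, zero_smul]
    · intro h
      exact absurd (Finset.mem_univ a) h
  simp only [h1, h2]
  rw [Finset.sum_comm, Finset.sum_comm (f := fun a c => ‖B c a‖ ^ 2)]
  exact Finset.sum_le_sum fun c _ => contr_transpose θ hθ (fun a => B c a)

theorem cross {r s : ℕ} (U : Fin r → A) (V : Fin s → A) {e f : A}
    (hU : ∑ a, U a * star (U a) ≤ e) (hV : ∑ b, V b * star (V b) ≤ f) :
    ∑ a, ∑ b, two (star (U a) * V b) ^ 2 ≤ rt (e * f) := by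
  have hU0 : 0 ≤ ∑ a, U a * star (U a) := Finset.sum_nonneg fun a _ => mul_star_self_nonneg _
  have hV0 : 0 ≤ ∑ b, V b * star (V b) := Finset.sum_nonneg fun b _ => mul_star_self_nonneg _
  have h1 : ∑ a, ∑ b, two (star (U a) * V b) ^ 2 =
      rt ((∑ a, U a * star (U a)) * ∑ b, V b * star (V b)) := by
    rw [Finset.sum_mul, rt_sum]
    refine Finset.sum_congr rfl fun a _ => ?_
    rw [Finset.mul_sum, rt_sum]
    refine Finset.sum_congr rfl fun b _ => ?_
    rw [two_sq_rt, star_mul, star_star]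
    have e1 : star (V b) * U a * (star (U a) * V b) = star (V b) * (U a * star (U a) * V b) := by
      noncomm_ring
    have e2 : U a * star (U a) * (V b * star (V b)) = (U a * star (U a) * V b) * star (V b) := by
      noncomm_ring
    rw [e1, e2, rt_comm]
  rw [h1]
  exact (rt_mul_mono' hV0 hU).trans (rt_mul_mono (hU0.trans hU) hV)

theorem rowDef_shrink {r : ℕ} (U : Fin r → A) {q q' : A} (hq : Prj q) (hq' : Prj q')
    (h : q * q' = q') : rowDef (fun j => U j * q') q' ≤ rowDef U q := by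
  unfold rowDef
  refine Finset.sum_le_sum fun j _ => Finset.sum_le_sum fun l _ => ?_
  have e1 : q' * q * q' = q' := by rw [mul_assoc, h, hq'.2]
  have e2 : star (U j * q') * (U l * q') - (if j = l then q' else 0) =
      q' * (star (U j) * U l - if j = l then q else 0) * q' := by
    rw [star_mul, hq'.1]
    by_cases hjl : j = l
    · rw [if_pos hjl, if_pos hjl]
      have : q' * (star (U j) * U l - q) * q' =
          q' * star (U j) * (U l * q') - q' * q * q' := by noncomm_ring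
      rw [this, e1]
    · rw [if_neg hjl, if_neg hjl]
      noncomm_ring
  rw [e2]
  have h1 := two_mul_mul_le q' (star (U j) * U l - if j = l then q else 0) q'
  have h2 := norm_proj_le hq'
  have h3 := two_nonneg (star (U j) * U l - if j = l then q else 0)
  have h4 : ‖q'‖ * two (star (U j) * U l - if j = l then q else 0) * ‖q'‖ ≤
      two (star (U j) * U l - if j = l then q else 0) := by
    have h5 : ‖q'‖ * two (star (U j) * U l - if j = l then q else 0) ≤
        two (star (U j) * U l - if j = l then q else 0) := mul_le_of_le_one_left h3 h2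
    exact (mul_le_of_le_one_right (mul_nonneg (norm_nonneg _) h3) h2).trans h5
  exact pow_le_pow_left₀ (two_nonneg _) (h1.trans h4) 2

theorem rowEn_shrink (a : Avg A) {r : ℕ} (U : Fin r → A)
    (θ : a.ι → Matrix (Fin r) (Fin r) ℂ) {q' : A} (hq' : Prj q') :
    rowEn a (fun j => U j * q') θ ≤ rowEn a U θ := by
  unfold rowEn
  refine Finset.sum_le_sum fun i _ => mul_le_mul_of_nonneg_left ?_ (a.p_pos i).le
  refine Finset.sum_le_sum fun j _ => ?_
  have e1 : a.u i * (U j * q') - ∑ l, θ i l j • (U l * q') =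
      (a.u i * U j - ∑ l, θ i l j • U l) * q' := by
    rw [sub_mul, Finset.sum_mul, mul_assoc]
    congr 1
    refine Finset.sum_congr rfl fun l _ => ?_
    rw [smul_mul_assoc]
  rw [e1]
  refine pow_le_pow_left₀ (two_nonneg _) ((two_mul_le' _ _).trans ?_) 2
  exact mul_le_of_le_one_right (two_nonneg _) (norm_proj_le hq')

theorem row_shrink {r : ℕ} (U : Fin r → A) {e q' : A} (hq' : Prj q')
    (hU : ∑ j, U j * star (U j) ≤ e) : ∑ j, (U j * q') * star (U j * q') ≤ e := by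
  refine le_trans (Finset.sum_le_sum fun j _ => ?_) hU
  have e1 : U j * q' * star (U j * q') = U j * q' * star (U j) := by
    rw [star_mul, hq'.1]
    have : U j * q' * (q' * star (U j)) = U j * (q' * q') * star (U j) := by noncomm_ring
    rw [this, hq'.2]
  rw [e1]
  have h1 := star_right_conjugate_le_conjugate (proj_le_one hq') (U j)
  rwa [mul_one] at h1

end Pool.Agent.PTH
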