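import Pool.Agent.PTH.Ex10

/-!
# PTH / Ex11: the finite dimensional algebra and the final estimate

`fd_span`: `G` finite, `1 ∈ span G`, products and stars of elements of `G` in `span G`: the span is a
finite dimensional unital *-subalgebra.

`finish`.  Index set `J = Σ j : Fin m, Fin (r j)`.  `V : J → A` with `V_κ* V_μ = δ_{κμ} q_{j(κ)}`
(`q_j` projections, so `V_κ q = V_κ`: `two (V_κ (1 - q))² = rt ((1-q) V_κ* V_κ (1-q)) = 0`).
`G := {1} ∪ {V_(j,a) V_(j,b)*}`: `V_(j,a) V_(j,b)* V_(j',c) V_(j',d)* = δ_{(j,b),(j',c)} V_(j,a) q_j V_(j',d)*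
= δ V_(j,a) V_(j,d)*`.  `D` from `fd_span`.  `d i := ∑_j ∑_{a,b} θ_j(i)_{ab} V_(j,a) V_(j,b)*
= ∑_κ (Vθ_i)_κ V_κ*`, `(Vθ_i)_(j,b) = ∑_a θ_j(i)_{ab} V_(j,a)`.
`E := ∑ V_κ V_κ*` is a projection, `rt E = ∑ rt q_{j(κ)}`, `V_κ* (1 - E) = 0`.
`u_i - d i = u_i (1 - E) + ∑_κ Y_κ V_κ*`, `Y_κ = u_i V_κ - (Vθ_i)_κ`.  The two terms are orthogonal:
`rt ((u_i (1-E))* ∑ Y_κ V_κ*) = rt (u_i* ∑ Y_κ V_κ* (1-E)) = 0`.  So
`two (u_i - d i)² = rt (1 - E) + two (∑ Y_κ V_κ*)²`,
`two (∑ Y_κ V_κ*)² = ∑_κμ rt (V_κ Y_κ* Y_μ V_μ*) = ∑_κμ rt (Y_κ* Y_μ V_μ* V_κ) = ∑_κ rt (Y_κ* Y_κ q_κ)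
≤ ∑ two (Y_κ)²`.  With `B_κ := V_κ - R_κ`: `Y_κ = (u_i R_κ - (Rθ_i)_κ) + (u_i B_κ - (Bθ_i)_κ)`,
`two (Y_κ)² ≤ 2 two (first)² + 4 two (u_i B_κ)² + 4 two ((Bθ_i)_κ)²`, and
`∑_κ two (u_i B_κ)² = ∑ two (B_κ)²`, `∑_κ two ((Bθ_i)_κ)² ≤ ∑ two (B_κ)²` (`row_contr` in each block).
Sum over `i` with the weights `p_i`:
`∑ p_i two (u_i - d i)² ≤ (1 - ∑ rt q_κ) + 2 ∑_j rowEn a (R_j) (θ_j) + 8 ∑ two (V_κ - R_κ)²`.
-/

open Filter Topology
open scoped InnerProductSpace ComplexOrder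

namespace Pool.Agent.PTH

variable {A : Type*} [CStarAlgebra A] [PartialOrder A] [StarOrderedRing A] [TracialVN A]

theorem fd_span (G : Set A) (hG : G.Finite) (h1 : (1 : A) ∈ Submodule.span ℂ G)
    (hmul : ∀ x ∈ G, ∀ y ∈ G, x * y ∈ Submodule.span ℂ G)
    (hstar : ∀ x ∈ G, star x ∈ Submodule.span ℂ G) :
    ∃ D : StarSubalgebra ℂ A, FiniteDimensional ℂ D ∧ ∀ x ∈ Submodule.span ℂ G, x ∈ D := by
  have hm : ∀ x y : A, x ∈ Submodule.span ℂ G → y ∈ Submodule.span ℂ G →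
      x * y ∈ Submodule.span ℂ G := by
    intro x y hx hy
    have h2 : Submodule.span ℂ G * Submodule.span ℂ G ≤ Submodule.span ℂ G := by
      rw [Submodule.span_mul_span, Submodule.span_le]
      rintro _ ⟨x, hx, y, hy, rfl⟩
      exact hmul x hx y hy
    exact h2 (Submodule.mul_mem_mul hx hy)
  have hs : ∀ x : A, x ∈ Submodule.span ℂ G → star x ∈ Submodule.span ℂ G := by
    intro x hx
    induction hx using Submodule.span_induction with
    | mem x hx => exact hstar x hx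
    | zero => rw [star_zero]; exact Submodule.zero_mem _
    | add x y _ _ hx hy => rw [star_add]; exact Submodule.add_mem _ hx hy
    | smul c x _ hx => rw [star_smul]; exact Submodule.smul_mem _ _ hx
  let D : StarSubalgebra ℂ A :=
    { carrier := {x | x ∈ Submodule.span ℂ G}
      mul_mem' := fun {x y} hx hy => hm x y hx hy
      one_mem' := h1
      add_mem' := fun {x y} hx hy => Submodule.add_mem (Submodule.span ℂ G) hx hy
      zero_mem' := Submodule.zero_mem (Submodule.span ℂ G)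
      algebraMap_mem' := fun c => by
        rw [Set.mem_setOf_eq, Algebra.algebraMap_eq_smul_one]
        exact Submodule.smul_mem _ _ h1
      star_mem' := fun {x} hx => hs x hx }
  refine ⟨D, ?_, fun x hx => hx⟩
  have hfd : FiniteDimensional ℂ (Submodule.span ℂ G) := FiniteDimensional.span_of_finite ℂ hG
  let f : D →ₗ[ℂ] (Submodule.span ℂ G) :=
    { toFun := fun x => ⟨x.1, x.2⟩
      map_add' := fun x y => rfl
      map_smul' := fun c x => rfl }
  refine Module.Finite.of_injective f ?_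
  intro x y h
  exact Subtype.ext (congrArg Subtype.val h)

private theorem two_add_sq_le (x y : A) : two (x + y) ^ 2 ≤ 2 * two x ^ 2 + 2 * two y ^ 2 := by
  have h1 := two_add_le x y
  have h2 := two_nonneg (x + y)
  nlinarith [sq_nonneg (two x - two y), two_nonneg x, two_nonneg y]

private theorem two_sub_sq_le (x y : A) : two (x - y) ^ 2 ≤ 2 * two x ^ 2 + 2 * two y ^ 2 := by
  have h := two_add_sq_le x (-y)
  rwa [two_neg, ← sub_eq_add_neg] at h

theorem finish (a : Avg A) {m : ℕ} (r : Fin m → ℕ) (R : ∀ j, Fin (r j) → A)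
    (θ : ∀ j, a.ι → Matrix (Fin (r j)) (Fin (r j)) ℂ) (q : Fin m → A) (hq : ∀ j, Prj (q j))
    (hθ : ∀ j i, Contr (θ j i)) (V : (Σ j : Fin m, Fin (r j)) → A)
    (hV : ∀ κ μ, star (V κ) * V μ = if κ = μ then q κ.1 else 0) :
    ∃ D : StarSubalgebra ℂ A, FiniteDimensional ℂ D ∧ ∃ d : a.ι → A, (∀ i, d i ∈ D) ∧
      ∑ i, a.p i * two (a.u i - d i) ^ 2 ≤
        (1 - ∑ j, (r j : ℝ) * rt (q j)) + 2 * ∑ j, rowEn a (R j) (θ j) +
          8 * ∑ κ : (Σ j : Fin m, Fin (r j)), two (R κ.1 κ.2 - V κ) ^ 2 := by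
  classical
  -- `V q = V`
  have hVq : ∀ κ, V κ * q κ.1 = V κ := by
    intro κ
    have hq1 := (hq κ.1).1
    have hq2 := (hq κ.1).2
    have h1 : two (V κ * (1 - q κ.1)) ^ 2 = 0 := by
      rw [two_sq_rt, star_mul, star_sub, star_one, hq1]
      have e : (1 - q κ.1) * star (V κ) * (V κ * (1 - q κ.1)) =
          (1 - q κ.1) * (star (V κ) * V κ) * (1 - q κ.1) := by noncomm_ring
      rw [e, hV, if_pos rfl]
      have e2 : (1 - q κ.1) * q κ.1 = 0 := by rw [sub_mul, one_mul, hq2, sub_self]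
      rw [e2, zero_mul, rt_zero]
    have h2 : V κ * (1 - q κ.1) = 0 := two_eq_zero (pow_eq_zero_iff two_ne_zero |>.1 h1)
    rw [mul_sub, mul_one, sub_eq_zero] at h2
    exact h2.symm
  have hqV : ∀ κ, q κ.1 * star (V κ) = star (V κ) := by
    intro κ
    have h := congrArg star (hVq κ)
    rwa [star_mul, (hq κ.1).1] at h
  -- the algebra
  obtain ⟨G, hG⟩ : ∃ G : Set A, G = insert 1 (Set.range
      fun x : (Σ j : Fin m, Fin (r j) × Fin (r j)) => V ⟨x.1, x.2.1⟩ * star (V ⟨x.1, x.2.2⟩)) :=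
    ⟨_, rfl⟩
  have hGfin : G.Finite := by
    rw [hG]
    exact (Set.finite_range _).insert _
  have hG1 : (1 : A) ∈ G := by rw [hG]; exact Set.mem_insert _ _
  have hGV : ∀ (j : Fin m) (b c : Fin (r j)), V ⟨j, b⟩ * star (V ⟨j, c⟩) ∈ G := by
    intro j b c
    rw [hG]
    exact Set.mem_insert_of_mem _ ⟨⟨j, b, c⟩, rfl⟩
  have hGcases : ∀ x ∈ G, x = 1 ∨ ∃ (j : Fin m) (b c : Fin (r j)),
      x = V ⟨j, b⟩ * star (V ⟨j, c⟩) := by
    intro x hx
    rw [hG] at hx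
    rcases hx with hx | ⟨⟨j, b, c⟩, rfl⟩
    · exact Or.inl hx
    · exact Or.inr ⟨j, b, c, rfl⟩
  obtain ⟨D, hDfd, hD⟩ := fd_span G hGfin (Submodule.subset_span hG1) (by
    intro x hx y hy
    rcases hGcases x hx with rfl | ⟨j, b, c, rfl⟩
    · rw [one_mul]
      exact Submodule.subset_span hy
    · rcases hGcases y hy with rfl | ⟨j', b', c', rfl⟩
      · rw [mul_one]
        exact Submodule.subset_span hx
      · have e : V ⟨j, b⟩ * star (V ⟨j, c⟩) * (V ⟨j', b'⟩ * star (V ⟨j', c'⟩)) =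
            V ⟨j, b⟩ * (star (V ⟨j, c⟩) * V ⟨j', b'⟩) * star (V ⟨j', c'⟩) := by noncomm_ring
        rw [e, hV]
        split_ifs with h
        · obtain ⟨h1, h2⟩ := Sigma.mk.inj_iff.1 h
          subst h1
          obtain rfl := eq_of_heq h2
          rw [mul_assoc, hqV ⟨j, c'⟩]
          exact Submodule.subset_span (hGV j b c')
        · rw [mul_zero, zero_mul]
          exact Submodule.zero_mem _)
    (by
      intro x hx
      rcases hGcases x hx with rfl | ⟨j, b, c, rfl⟩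
      · rw [star_one]
        exact Submodule.subset_span hG1
      · rw [star_mul, star_star]
        exact Submodule.subset_span (hGV j c b))
  obtain ⟨W, hW⟩ : ∃ W : a.ι → (Σ j : Fin m, Fin (r j)) → A,
      W = fun i κ => ∑ l, θ κ.1 i l κ.2 • V ⟨κ.1, l⟩ := ⟨_, rfl⟩
  refine ⟨D, hDfd, fun i => ∑ κ, W i κ * star (V κ), ?_, ?_⟩
  · intro i
    apply hD
    refine Submodule.sum_mem _ fun κ _ => ?_
    rw [hW]
    simp only
    rw [Finset.sum_mul]
    refine Submodule.sum_mem _ fun l _ => ?_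
    rw [smul_mul_assoc]
    exact Submodule.smul_mem _ _ (Submodule.subset_span (hGV κ.1 l κ.2))
  -- the projection `E`
  obtain ⟨E, hE⟩ : ∃ E : A, E = ∑ κ, V κ * star (V κ) := ⟨_, rfl⟩
  have hVE : ∀ κ, star (V κ) * E = star (V κ) := by
    intro κ
    rw [hE, Finset.mul_sum, Finset.sum_eq_single κ]
    · rw [← mul_assoc, hV, if_pos rfl, hqV]
    · intro μ _ hμ
      rw [← mul_assoc, hV, if_neg (Ne.symm hμ), zero_mul]
    · intro h
      exact absurd (Finset.mem_univ _) h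
  have hEE : E * E = E := by
    conv_lhs => rw [hE, Finset.sum_mul]
    rw [hE]
    refine Finset.sum_congr rfl fun κ _ => ?_
    rw [mul_assoc, ← hE, hVE]
  have hEs : star E = E := by
    rw [hE, star_sum]
    refine Finset.sum_congr rfl fun κ _ => ?_
    rw [star_mul, star_star]
  have hrtE : rt E = ∑ j, (r j : ℝ) * rt (q j) := by
    rw [hE, rt_sum]
    have h1 : ∀ κ : (Σ j : Fin m, Fin (r j)), rt (V κ * star (V κ)) = rt (q κ.1) := by
      intro κ
      rw [rt_comm, hV, if_pos rfl]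
    rw [Finset.sum_congr rfl fun κ _ => h1 κ, Fintype.sum_sigma]
    refine Finset.sum_congr rfl fun j _ => ?_
    simp only
    rw [Finset.sum_const, Finset.card_univ, Fintype.card_fin, nsmul_eq_mul]
  have h1E : rt (star (1 - E) * (1 - E)) = 1 - ∑ j, (r j : ℝ) * rt (q j) := by
    have e : star (1 - E) * (1 - E) = 1 - E := by
      rw [star_sub, star_one, hEs, sub_mul, mul_sub, mul_sub, one_mul, one_mul, mul_one, hEE]
      abel
    rw [e, rt_sub, rt_one, hrtE]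
  -- the error of one unitary
  have hone : ∀ i, two (a.u i - ∑ κ, W i κ * star (V κ)) ^ 2 ≤
      (1 - ∑ j, (r j : ℝ) * rt (q j)) +
        2 * ∑ κ : (Σ j : Fin m, Fin (r j)),
          two (a.u i * R κ.1 κ.2 - ∑ l, θ κ.1 i l κ.2 • R κ.1 l) ^ 2 +
        8 * ∑ κ : (Σ j : Fin m, Fin (r j)), two (R κ.1 κ.2 - V κ) ^ 2 := by
    intro i
    obtain ⟨Y, hY⟩ : ∃ Y : (Σ j : Fin m, Fin (r j)) → A, Y = fun κ => a.u i * V κ - W i κ :=
      ⟨_, rfl⟩
    obtain ⟨Z, hZ⟩ : ∃ Z : A, Z = ∑ κ, Y κ * star (V κ) := ⟨_, rfl⟩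
    have hdec : a.u i - ∑ κ, W i κ * star (V κ) = a.u i * (1 - E) + Z := by
      have e : Z = a.u i * E - ∑ κ, W i κ * star (V κ) := by
        rw [hZ, hE, Finset.mul_sum, ← Finset.sum_sub_distrib]
        refine Finset.sum_congr rfl fun κ _ => ?_
        rw [hY]
        simp only
        rw [sub_mul, mul_assoc]
      rw [e, mul_sub, mul_one]
      abel
    have hZE : Z * (1 - E) = 0 := by
      rw [hZ, Finset.sum_mul]
      refine Finset.sum_eq_zero fun κ _ => ?_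
      rw [mul_assoc, mul_sub, mul_one, hVE, sub_self, mul_zero]
    have horth : rt (star (a.u i * (1 - E)) * Z) = 0 := by
      rw [star_mul, mul_assoc, rt_comm, star_sub, star_one, hEs, mul_assoc, hZE, mul_zero, rt_zero]
    have hfirst : two (a.u i * (1 - E)) ^ 2 = 1 - ∑ j, (r j : ℝ) * rt (q j) := by
      rw [two_unitary_mul (a.u_star_mul i), two_sq_rt, h1E]
    have hZ2 : two Z ^ 2 ≤ ∑ κ, two (Y κ) ^ 2 := by
      have e : Z * star Z = ∑ κ, (Y κ * q κ.1) * star (Y κ * q κ.1) := by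
        rw [hZ, star_sum, Finset.sum_mul]
        refine Finset.sum_congr rfl fun κ _ => ?_
        rw [Finset.mul_sum, Finset.sum_eq_single κ]
        · have e1 : Y κ * star (V κ) * star (Y κ * star (V κ)) =
              Y κ * (star (V κ) * V κ) * star (Y κ) := by
            rw [star_mul, star_star]
            noncomm_ring
          rw [e1, hV, if_pos rfl, star_mul, (hq κ.1).1]
          have e2 : Y κ * q κ.1 * (q κ.1 * star (Y κ)) = Y κ * (q κ.1 * q κ.1) * star (Y κ) := by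
            noncomm_ring
          rw [e2, (hq κ.1).2]
        · intro μ _ hμ
          have e1 : Y κ * star (V κ) * star (Y μ * star (V μ)) =
              Y κ * (star (V κ) * V μ) * star (Y μ) := by
            rw [star_mul, star_star]
            noncomm_ring
          rw [e1, hV, if_neg (Ne.symm hμ), mul_zero, zero_mul]
        · intro h
          exact absurd (Finset.mem_univ _) h
      rw [two_sq_rt', e, rt_sum]
      refine Finset.sum_le_sum fun κ _ => ?_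
      rw [← two_sq_rt']
      refine pow_le_pow_left₀ (two_nonneg _) ?_ 2
      refine (two_mul_le' _ _).trans ?_
      exact mul_le_of_le_one_right (two_nonneg _) (norm_proj_le (hq κ.1))
    obtain ⟨B, hB⟩ : ∃ B : (Σ j : Fin m, Fin (r j)) → A, B = fun κ => V κ - R κ.1 κ.2 := ⟨_, rfl⟩
    have hYle : ∀ κ, two (Y κ) ^ 2 ≤
        2 * two (a.u i * R κ.1 κ.2 - ∑ l, θ κ.1 i l κ.2 • R κ.1 l) ^ 2 + 4 * two (B κ) ^ 2 +
          4 * two (∑ l, θ κ.1 i l κ.2 • B ⟨κ.1, l⟩) ^ 2 := by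
      intro κ
      have e : Y κ = (a.u i * R κ.1 κ.2 - ∑ l, θ κ.1 i l κ.2 • R κ.1 l) +
          (a.u i * B κ - ∑ l, θ κ.1 i l κ.2 • B ⟨κ.1, l⟩) := by
        rw [hY, hB, hW]
        simp only [mul_sub, smul_sub, Finset.sum_sub_distrib]
        abel
      have h1 := two_add_sq_le (a.u i * R κ.1 κ.2 - ∑ l, θ κ.1 i l κ.2 • R κ.1 l)
        (a.u i * B κ - ∑ l, θ κ.1 i l κ.2 • B ⟨κ.1, l⟩)
      have h2 := two_sub_sq_le (a.u i * B κ) (∑ l, θ κ.1 i l κ.2 • B ⟨κ.1, l⟩)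
      rw [two_unitary_mul (a.u_star_mul i)] at h2
      rw [e]
      linarith
    have hBsum : ∑ κ, two (B κ) ^ 2 =
        ∑ κ : (Σ j : Fin m, Fin (r j)), two (R κ.1 κ.2 - V κ) ^ 2 := by
      refine Finset.sum_congr rfl fun κ _ => ?_
      rw [hB]
      simp only
      rw [two_sub_comm]
    have hBθ : ∑ κ : (Σ j : Fin m, Fin (r j)), two (∑ l, θ κ.1 i l κ.2 • B ⟨κ.1, l⟩) ^ 2 ≤
        ∑ κ, two (B κ) ^ 2 := by
      rw [Fintype.sum_sigma, Fintype.sum_sigma]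
      refine Finset.sum_le_sum fun j _ => ?_
      exact row_contr (θ j i) (hθ j i) (fun l => B ⟨j, l⟩)
    have hYsum : ∑ κ, two (Y κ) ^ 2 ≤
        2 * ∑ κ : (Σ j : Fin m, Fin (r j)),
          two (a.u i * R κ.1 κ.2 - ∑ l, θ κ.1 i l κ.2 • R κ.1 l) ^ 2 + 4 * ∑ κ, two (B κ) ^ 2 +
          4 * ∑ κ : (Σ j : Fin m, Fin (r j)), two (∑ l, θ κ.1 i l κ.2 • B ⟨κ.1, l⟩) ^ 2 := by
      rw [Finset.mul_sum, Finset.mul_sum, Finset.mul_sum, ← Finset.sum_add_distrib,
        ← Finset.sum_add_distrib]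
      exact Finset.sum_le_sum fun κ _ => hYle κ
    rw [hdec, two_add_sq, horth, hfirst, ← hBsum]
    linarith
  -- sum over `i`
  have hrow : ∑ i, a.p i * ∑ κ : (Σ j : Fin m, Fin (r j)),
      two (a.u i * R κ.1 κ.2 - ∑ l, θ κ.1 i l κ.2 • R κ.1 l) ^ 2 = ∑ j, rowEn a (R j) (θ j) := by
    unfold rowEn
    rw [Finset.sum_comm]
    refine Finset.sum_congr rfl fun i _ => ?_
    rw [Fintype.sum_sigma, Finset.mul_sum]
  have hC : ∀ C : ℝ, ∑ i, a.p i * C = C := by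
    intro C
    rw [← Finset.sum_mul, a.p_sum, one_mul]
  calc ∑ i, a.p i * two (a.u i - ∑ κ, W i κ * star (V κ)) ^ 2
      ≤ ∑ i, a.p i * ((1 - ∑ j, (r j : ℝ) * rt (q j)) +
        2 * ∑ κ : (Σ j : Fin m, Fin (r j)),
          two (a.u i * R κ.1 κ.2 - ∑ l, θ κ.1 i l κ.2 • R κ.1 l) ^ 2 +
        8 * ∑ κ : (Σ j : Fin m, Fin (r j)), two (R κ.1 κ.2 - V κ) ^ 2) :=
        Finset.sum_le_sum fun i _ => mul_le_mul_of_nonneg_left (hone i) (a.p_pos i).le
    _ = ∑ i, (a.p i * (1 - ∑ j, (r j : ℝ) * rt (q j)) +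
        2 * (a.p i * ∑ κ : (Σ j : Fin m, Fin (r j)),
          two (a.u i * R κ.1 κ.2 - ∑ l, θ κ.1 i l κ.2 • R κ.1 l) ^ 2) +
        a.p i * (8 * ∑ κ : (Σ j : Fin m, Fin (r j)), two (R κ.1 κ.2 - V κ) ^ 2)) :=
        Finset.sum_congr rfl fun i _ => by ring
    _ = _ := by
        rw [Finset.sum_add_distrib, Finset.sum_add_distrib, hC, hC, ← Finset.mul_sum, hrow]

end Pool.Agent.PTH
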