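import Pool.Agent.PTH.Ex8

/-!
# PTH / Ex9: completion of an almost isometric row (Lemma PL)

`R : J → A`, `q_κ` projections, `R_κ q_κ = R_κ`, `∑ rt q_κ ≤ 1`.  `W` from `row_polar`,
`S = ∑ R R*`, `s = ∑ W W*`, `k = CFC.sqrt S`; `R_κ = k W_κ`, `s W = W`, `s R = R`, `W_κ q_κ = W_κ`.
`P κ λ := δ_{κλ} q_κ - W_κ* W_λ`: `star (P κ λ) = P λ κ`, and
`∑_μ P κ μ P μ λ = δ q_κ - q_κ W_κ* W_λ - W_κ* W_λ q_λ + W_κ* s W_λ = P κ λ` (`q_κ W_κ* = W_κ*`).
`∑ rt (P κ κ) = ∑ rt q_κ - rt s ≤ 1 - rt s = rt (1 - s)`.  `mxRow` (helper86's comparison theorem in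
matrix algebras; here the hypothesis `hcmp`) with the projection `1 - s`: `V' : J → A`,
`V'_κ* V'_λ = P κ λ`, `(1-s) V'_κ = V'_κ`.  `V := W + V'`.
* `V_κ* V_λ = W_κ* W_λ + V'_κ* V'_λ + W_κ* V'_λ + V'_κ* W_λ = δ q_κ` (`W_κ* V'_λ = (s W_κ)* (1-s) V'_λ
  = 0`).
* `∑ two (R_κ - V_κ)² = ∑ two (R_κ - W_κ)² + ∑ two (V'_κ)²` (orthogonal: `R - W = s (R - W)`,
  `V' = (1-s) V'`) `= rt ((k - s) s (k - s)) + ∑ rt (P κ κ)` (`R_κ - W_κ = (k - s) W_κ`).
  `k s = k = s k` (`S s = S` because `s R = R`; `k` is a limit of polynomials in `S` without constant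
  term, or: `two (k (1-s))² = rt ((1-s) S (1-s)) = 0`).
  So the first term is `two (k - s)² = rt (S) - 2 rt k + rt s`.
  CLAIM `two (k - s)² ≤ two (S - s)²`: `S - s = (k - s)(k + s)` (`k s = k = s k`, `s² = s`), the two
  factors commute; `(S-s)² = (k-s)²(k+s)² ≥ (k-s)² s` since `(k+s)² ≥ s` (`(k+s)² = S + 2k + s`) and
  `(k-s)²`, `(k+s)² - s ≥ 0` commute; take traces (`(k-s)² s = (k-s)²`).
* `∑_κλ two (R_κ* R_λ - δ q_κ)² = ∑_κλ two (R_κ* R_λ)² - 2 ∑_κ rt (R_κ* R_κ q_κ) + ∑ rt q_κ
  = rt (S²) - 2 rt S + ∑ rt q_κ = two (S - s)² + (∑ rt q_κ - rt s)`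
  (`∑_κλ two (R_κ* R_λ)² = ∑ rt (R_λ* R_κ R_κ* R_λ) = rt (S S)`; `rt (S s) = rt S`).
So the claim: `∑ two (R_κ - V_κ)² ≤` this.
-/

open Filter Topology
open scoped InnerProductSpace ComplexOrder

namespace Pool.Agent.PTH

variable {A : Type*} [CStarAlgebra A] [PartialOrder A] [StarOrderedRing A] [TracialVN A]

theorem row_complete {J : Type*} [Fintype J] [DecidableEq J] (R q : J → A)
    (hcmp : ∀ (P : J → J → A), (∀ i j, star (P i j) = P j i) →
      (∀ i j, ∑ k, P i k * P k j = P i j) → ∀ p : A, Prj p → ∑ i, rt (P i i) ≤ rt p →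
      ∃ V : J → A, (∀ i j, star (V i) * V j = P i j) ∧ ∀ i, p * V i = V i)
    (hq : ∀ κ, Prj (q κ)) (hR : ∀ κ, R κ * q κ = R κ) (htr : ∑ κ, rt (q κ) ≤ 1) :
    ∃ V : J → A, (∀ κ μ, star (V κ) * V μ = if κ = μ then q κ else 0) ∧
      ∑ κ, two (R κ - V κ) ^ 2 ≤
        ∑ κ, ∑ μ, two (star (R κ) * R μ - if κ = μ then q κ else 0) ^ 2 := by
  classical
  obtain ⟨W, hsP, hsW, hsR, hkW, hWx⟩ := row_polar R
  obtain ⟨s, hs⟩ : ∃ s : A, s = ∑ κ, W κ * star (W κ) := ⟨_, rfl⟩
  obtain ⟨S, hS⟩ : ∃ S : A, S = ∑ κ, R κ * star (R κ) := ⟨_, rfl⟩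
  rw [← hs] at hsP hsW hsR
  rw [← hS] at hkW
  obtain ⟨k, hk⟩ : ∃ k : A, k = CFC.sqrt S := ⟨_, rfl⟩
  rw [← hk] at hkW
  have hWq : ∀ κ, W κ * q κ = W κ := fun κ => hWx κ (q κ) (hR κ)
  have hqW : ∀ κ, q κ * star (W κ) = star (W κ) := fun κ => by
    have h := congrArg star (hWq κ)
    rwa [star_mul, (hq κ).1] at h
  have hqR : ∀ κ, q κ * star (R κ) = star (R κ) := fun κ => by
    have h := congrArg star (hR κ)
    rwa [star_mul, (hq κ).1] at h
  have hss : s * s = s := hsP.2
  have hs1 : star s = s := hsP.1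
  have hWs : ∀ κ, star (W κ) * s = star (W κ) := fun κ => by
    have h := congrArg star (hsW κ)
    rwa [star_mul, hs1] at h
  have hRs : ∀ κ, star (R κ) * s = star (R κ) := fun κ => by
    have h := congrArg star (hsR κ)
    rwa [star_mul, hs1] at h
  have hS0 : 0 ≤ S := by
    rw [hS]
    exact Finset.sum_nonneg fun κ _ => mul_star_self_nonneg _
  have hk0 : 0 ≤ k := by
    rw [hk]
    exact CFC.sqrt_nonneg S
  have hkk : k * k = S := by
    rw [hk]
    exact CFC.sqrt_mul_sqrt_self S hS0
  have hk1 : star k = k := (IsSelfAdjoint.of_nonneg hk0).star_eq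
  have hS1 : star S = S := (IsSelfAdjoint.of_nonneg hS0).star_eq
  have hsS : s * S = S := by
    rw [hS, Finset.mul_sum]
    refine Finset.sum_congr rfl fun κ _ => ?_
    rw [← mul_assoc, hsR κ]
  have hSs : S * s = S := by
    have h := congrArg star hsS
    rwa [star_mul, hS1, hs1] at h
  have hks : k * s = k := by
    have h1 : two (k - k * s) ^ 2 = 0 := by
      rw [two_sq_rt]
      have e : star (k - k * s) * (k - k * s) = 0 := by
        rw [star_sub, star_mul, hk1, hs1]
        calc (k - s * k) * (k - k * s) = k * k - (k * k) * s - s * (k * k) + s * ((k * k) * s) := by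
              noncomm_ring
          _ = 0 := by
              rw [hkk, hSs, hsS]
              abel
      rw [e, rt_zero]
    have h2 : two (k - k * s) = 0 := pow_eq_zero_iff (two_ne_zero) |>.1 h1
    exact (sub_eq_zero.1 (two_eq_zero h2)).symm
  have hsk : s * k = k := by
    have h := congrArg star hks
    rwa [star_mul, hk1, hs1] at h
  -- the matrix of the defect
  let P : J → J → A := fun i j => (if i = j then q i else 0) - star (W i) * W j
  have hP : ∀ i j, P i j = (if i = j then q i else 0) - star (W i) * W j := fun _ _ => rfl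
  have hPd : ∀ i, P i i = q i - star (W i) * W i := fun i => by rw [hP, if_pos rfl]
  have hPs : ∀ i j, star (P i j) = P j i := by
    intro i j
    rw [hP, hP, star_sub, star_mul, star_star]
    congr 1
    by_cases h : i = j
    · subst h
      rw [if_pos rfl, (hq i).1]
    · rw [if_neg h, if_neg (fun h' => h h'.symm), star_zero]
  have hPP : ∀ i j, ∑ m, P i m * P m j = P i j := by
    intro i j
    have h1 : ∀ m, P i m * P m j = (if i = m then (q i * P m j) else 0) -
        (if m = j then star (W i) * W m * q m else 0) +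
          star (W i) * (W m * star (W m)) * W j := by
      intro m
      rw [hP i m, sub_mul]
      have h2 : (if i = m then q i else 0) * P m j = if i = m then q i * P m j else 0 := by
        split_ifs
        · rfl
        · rw [zero_mul]
      have h3 : star (W i) * W m * P m j = (if m = j then star (W i) * W m * q m else 0) -
          star (W i) * (W m * star (W m)) * W j := by
        rw [hP m j, mul_sub]
        congr 1
        · split_ifs
          · rfl
          · rw [mul_zero]
        · noncomm_ring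
      rw [h2, h3]
      abel
    rw [Finset.sum_congr rfl fun m _ => h1 m, Finset.sum_add_distrib, Finset.sum_sub_distrib,
      Finset.sum_ite_eq, Finset.sum_ite_eq', if_pos (Finset.mem_univ _),
      if_pos (Finset.mem_univ _), ← Finset.sum_mul, ← Finset.mul_sum, ← hs, hWs i, mul_assoc _ _ (q j),
      hWq j, hP i j, mul_sub]
    have h4 : q i * (star (W i) * W j) = star (W i) * W j := by rw [← mul_assoc, hqW i]
    have h5 : q i * (if i = j then q i else 0) = if i = j then q i else 0 := by
      split_ifs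
      · exact (hq i).2
      · rw [mul_zero]
    rw [h4, h5]
    abel
  have hrs : ∑ κ, rt (star (W κ) * W κ) = rt s := by
    rw [hs, rt_sum]
    exact Finset.sum_congr rfl fun κ _ => rt_comm _ _
  have hrS : ∑ κ, rt (star (R κ) * R κ) = rt S := by
    rw [hS, rt_sum]
    exact Finset.sum_congr rfl fun κ _ => rt_comm _ _
  have hPt : ∑ i, rt (P i i) = ∑ κ, rt (q κ) - rt s := by
    rw [← hrs, ← Finset.sum_sub_distrib]
    refine Finset.sum_congr rfl fun i _ => ?_
    rw [hPd, rt_sub]
  have h1s : Prj (1 - s) := by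
    refine ⟨?_, ?_⟩
    · rw [star_sub, star_one, hs1]
    · calc (1 - s) * (1 - s) = 1 - s - s + s * s := by noncomm_ring
        _ = 1 - s := by
            rw [hss]
            abel
  obtain ⟨V', hV1, hV2⟩ := hcmp P hPs hPP (1 - s) h1s (by
    rw [hPt, rt_sub, rt_one]
    linarith)
  have hsV : ∀ i, s * V' i = 0 := by
    intro i
    rw [← hV2 i, ← mul_assoc]
    have e : s * (1 - s) = 0 := by
      rw [mul_sub, mul_one, hss, sub_self]
    rw [e, zero_mul]
  have hWV : ∀ i j, star (W i) * V' j = 0 := by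
    intro i j
    rw [← hWs i, mul_assoc, hsV, mul_zero]
  have hVW : ∀ i j, star (V' i) * W j = 0 := by
    intro i j
    have h := congrArg star (hWV j i)
    rwa [star_mul, star_star, star_zero] at h
  have hRV : ∀ i j, star (R i) * V' j = 0 := by
    intro i j
    rw [← hRs i, mul_assoc, hsV, mul_zero]
  refine ⟨fun κ => W κ + V' κ, ?_, ?_⟩
  · intro κ μ
    simp only
    rw [star_add, add_mul, mul_add, mul_add, hWV, hVW, hV1, hP]
    abel
  · -- the left side
    have hl : ∑ κ, two (R κ - (W κ + V' κ)) ^ 2 =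
        rt S - 2 * rt k + ∑ κ, rt (q κ) := by
      have h2 : ∀ κ, two (R κ - (W κ + V' κ)) ^ 2 =
          rt (star (R κ - W κ) * (R κ - W κ)) + rt (P κ κ) := by
        intro κ
        have e : R κ - (W κ + V' κ) = (R κ - W κ) - V' κ := by abel
        rw [e, two_sub_sq, ← two_sq_rt, two_sq_rt (V' κ), hV1, star_sub, sub_mul, hRV, hWV]
        rw [sub_zero, rt_zero]
        ring
      have h3 : ∑ κ, rt (star (R κ - W κ) * (R κ - W κ)) = rt S - 2 * rt k + rt s := by
        have e1 : ∀ κ, rt (star (R κ - W κ) * (R κ - W κ)) =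
            rt ((k - s) * (W κ * star (W κ)) * (k - s)) := by
          intro κ
          have e2 : R κ - W κ = (k - s) * W κ := by
            rw [sub_mul, hkW, hsW]
          rw [rt_comm, e2, star_mul, star_sub, hk1, hs1]
          congr 1
          noncomm_ring
        rw [Finset.sum_congr rfl fun κ _ => e1 κ, ← rt_sum, ← Finset.sum_mul, ← Finset.mul_sum,
          ← hs]
        have e3 : (k - s) * s * (k - s) = S - k - k + s := by
          calc (k - s) * s * (k - s) = (k * s) * k - (k * s) * s - (s * s) * k + (s * s) * s := by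
                noncomm_ring
            _ = S - k - k + s := by
                rw [hks, hss, hkk, hks, hsk, hss]
        rw [e3, rt_add, rt_sub, rt_sub]
        ring
      rw [Finset.sum_congr rfl fun κ _ => h2 κ, Finset.sum_add_distrib, h3, hPt]
      ring
    -- the right side
    have hr : ∑ κ, ∑ μ, two (star (R κ) * R μ - if κ = μ then q κ else 0) ^ 2 =
        rt (S * S) - 2 * rt S + ∑ κ, rt (q κ) := by
      have h2 : ∀ κ μ, two (star (R κ) * R μ - if κ = μ then q κ else 0) ^ 2 =
          rt ((R κ * star (R κ)) * (R μ * star (R μ))) -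
            2 * (if κ = μ then rt (star (R κ) * R κ) else 0) + (if κ = μ then rt (q κ) else 0) := by
        intro κ μ
        rw [two_sub_sq]
        congr 1
        · congr 1
          · rw [two_sq_rt, star_mul, star_star]
            have e : star (R μ) * R κ * (star (R κ) * R μ) =
                star (R μ) * ((R κ * star (R κ)) * R μ) := by noncomm_ring
            rw [e, rt_comm, mul_assoc]
          · by_cases h : κ = μ
            · subst h
              rw [if_pos rfl, if_pos rfl, star_mul, star_star, mul_assoc, hR κ]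
            · rw [if_neg h, if_neg h, mul_zero, rt_zero]
        · by_cases h : κ = μ
          · rw [if_pos h, if_pos h, two_sq_rt, (hq κ).1, (hq κ).2]
          · rw [if_neg h, if_neg h, two_zero]
            norm_num
      have h3 : ∀ κ, ∑ μ, two (star (R κ) * R μ - if κ = μ then q κ else 0) ^ 2 =
          rt ((R κ * star (R κ)) * S) - 2 * rt (star (R κ) * R κ) + rt (q κ) := by
        intro κ
        rw [Finset.sum_congr rfl fun μ _ => h2 κ μ, Finset.sum_add_distrib,
          Finset.sum_sub_distrib, ← Finset.mul_sum, Finset.sum_ite_eq, Finset.sum_ite_eq,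
          if_pos (Finset.mem_univ _), if_pos (Finset.mem_univ _), ← rt_sum, ← Finset.mul_sum, ← hS]
      rw [Finset.sum_congr rfl fun κ _ => h3 κ, Finset.sum_add_distrib, Finset.sum_sub_distrib,
        ← Finset.mul_sum, hrS, ← rt_sum, ← Finset.sum_mul, ← hS]
    rw [hl, hr]
    -- `k^4 - 3 k^2 + 2 k = (k - 1) (k^2 + 2 k) (k - 1)`
    have hpos : 0 ≤ rt ((k - 1) * (k * k + (k + k)) * (k - 1)) := by
      have h2 : 0 ≤ k * k + (k + k) := by
        rw [hkk]
        exact add_nonneg hS0 (add_nonneg hk0 hk0)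
      have h3 := star_left_conjugate_nonneg h2 (k - 1)
      rw [star_sub, hk1, star_one] at h3
      exact rt_nonneg h3
    have e : (k - 1) * (k * k + (k + k)) * (k - 1) =
        (k * k) * (k * k) - (k * k) - (k * k) - (k * k) + k + k := by noncomm_ring
    rw [e, hkk, rt_add, rt_add, rt_sub, rt_sub, rt_sub] at hpos
    linarith

end Pool.Agent.PTH
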