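import Pool.Agent.PTH.Ex7
import Pool.Agent.PTH.Ex9
import Pool.Agent.PTH.Ex11

/-!
# PTH / Ex12: assembly of the pieces (end of section 4 of t517_v2.md)

`sum_le`: `S = ∑_{i<m} e_i`: `rt S ≤ ‖S‖₂` and `‖S‖₂² = rt (S S) = ∑ rt e_i + 2 ∑_j rt ((∑_{i<j} e_i) e_j)
≤ (1 + 2 s') rt S`.  So `(rt S)² ≤ (1 + 2s') rt S`, `rt S ≤ 1 + 2 s'`.

`assemble`.  Pieces `x 0, …, x (m-1)`, `e_j, r_j, U_j, θ_j, q_j`; all sums over `j < m` (as `Fin m`).
`λ := 1/((1+η')(1+2s'))`.  `hdif` gives projections `q'_j ≤ q_j` (`q_j q'_j = q'_j`) with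
`rt q'_j = λ rt q_j`.  `R_j := U_j q'_j`, `J := Σ j, Fin (r_j)`.
* `|r_j rt q_j - rt e_j| ≤ η' rt e_j` (field `tr`).  `∑_κ rt q'_κ = ∑ r_j rt q'_j = λ ∑ r_j rt q_j ≤
  λ (1+η') rt S ≤ 1` and `≥ λ (1-η') rt S ≥ λ (1-η')(1-2ε') ≥ 1 - 2η' - 2s' - 2ε'`
  (`1/(1+x) ≥ 1-x`, `∏ (1-x_i) ≥ 1 - ∑ x_i` for `x_i ∈ [0,1]`; if `1 - 2ε' < 0` or `η' > 1` the bound
  is trivial, so the hypotheses `η' ≤ 1`, `ε' ≤ 1/2` are assumed).
* `R_κ q'_κ = R_κ`.  `∑_κμ two (R_κ* R_μ - δ q'_κ)² = ∑_j rowDef (R_j) (q'_j) +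
  ∑_{j≠j'} ∑_{a,b} two (R_{ja}* R_{j'b})² ≤ ∑_j η' rt e_j + ∑_{j≠j'} rt (e_j e_{j'})`
  (`rowDef_shrink`, `row_shrink`, `cross`; `UU : ∑ U U* ≤ e_j`, `dfc`), and
  `∑_{j≠j'} rt (e_j e_{j'}) = 2 ∑_j ∑_{i<j} rt (e_i e_j) ≤ 2 s' rt S`.  Total `≤ (η' + 2s') rt S
  ≤ 2η' + 4s'`.
* `row_complete`: `V : J → A` with `V_κ* V_μ = δ q'_κ`, `∑ two (R_κ - V_κ)² ≤ 2η' + 4s'`.
* `∑_j rowEn (R_j) θ_j ≤ ∑_j rowEn (U_j) θ_j ≤ η' rt S ≤ 2η'` (`rowEn_shrink`, field `row`).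
* `finish`: total `≤ (2η' + 2s' + 2ε') + 2 · 2η' + 8 (2η' + 4s') = 22 η' + 34 s' + 2 ε'`.
-/

open Filter Topology
open scoped InnerProductSpace ComplexOrder

universe u

namespace Pool.Agent.PTH

variable {A : Type u} [CStarAlgebra A] [PartialOrder A] [StarOrderedRing A] [TracialVN A]

/-- `rt (S S) ≤ (1 + 2 s') rt S` -/
theorem sum_sq_le (m : ℕ) (e : ℕ → A) {s' : ℝ} (he : ∀ i < m, Prj (e i))
    (hs : ∀ j < m, rt ((∑ i ∈ Finset.range j, e i) * e j) ≤ s' * rt (e j)) :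
    rt ((∑ i ∈ Finset.range m, e i) * (∑ i ∈ Finset.range m, e i)) ≤
      (1 + 2 * s') * ∑ i ∈ Finset.range m, rt (e i) := by
  induction m with
  | zero => simp
  | succ n ih =>
    have h1 := ih (fun i hi => he i (Nat.lt_succ_of_lt hi)) (fun j hj => hs j (Nat.lt_succ_of_lt hj))
    have h2 := hs n (Nat.lt_succ_self n)
    have h3 := (he n (Nat.lt_succ_self n)).2
    obtain ⟨S, hS⟩ : ∃ S : A, S = ∑ i ∈ Finset.range n, e i := ⟨_, rfl⟩
    rw [Finset.sum_range_succ, Finset.sum_range_succ, ← hS]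
    rw [← hS] at h1 h2
    have e1 : (S + e n) * (S + e n) = S * S + S * e n + e n * S + e n * e n := by noncomm_ring
    rw [e1, rt_add, rt_add, rt_add, rt_comm (e n) S, h3]
    linarith

theorem sum_le (m : ℕ) (e : ℕ → A) {s' : ℝ} (hs0 : 0 ≤ s') (he : ∀ i < m, Prj (e i))
    (hs : ∀ j < m, rt ((∑ i ∈ Finset.range j, e i) * e j) ≤ s' * rt (e j)) :
    ∑ i ∈ Finset.range m, rt (e i) ≤ 1 + 2 * s' := by
  have h1 := sum_sq_le m e he hs
  obtain ⟨S, hS⟩ : ∃ S : A, S = ∑ i ∈ Finset.range m, e i := ⟨_, rfl⟩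
  have hSa : IsSelfAdjoint S := by
    rw [hS, isSelfAdjoint_iff, star_sum]
    exact Finset.sum_congr rfl fun i hi => (he i (Finset.mem_range.1 hi)).1
  rw [← rt_sum, ← hS] at h1 ⊢
  have h2 : |rt S| ≤ two S := abs_rt_le S
  have h3 := two_sq_sa hSa
  have h4 : rt S ^ 2 ≤ two S ^ 2 := by
    rw [← sq_abs (rt S)]
    exact pow_le_pow_left₀ (abs_nonneg _) h2 2
  have h5 : rt S ^ 2 ≤ (1 + 2 * s') * rt S := h4.trans (h3.le.trans h1)
  by_contra hcon
  push Not at hcon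
  have h6 : 0 < rt S := by linarith
  nlinarith

private theorem block (a : Avg A) {η' σ : ℝ} (m : ℕ) (x : ℕ → Pc a η' σ) (q' : Fin m → A)
    (hq' : ∀ j, Prj (q' j)) (hqq : ∀ j : Fin m, (x j).q * q' j = q' j) (j j' : Fin m) :
    ∑ b : Fin (x j).r, ∑ c : Fin (x j').r,
      two (star ((x j).U b * q' j) * ((x j').U c * q' j') -
        if (⟨j, b⟩ : Σ j : Fin m, Fin (x j).r) = ⟨j', c⟩ then q' j else 0) ^ 2 ≤
      rt ((x j).e * (x j').e) + if j = j' then η' * rt (x j).e - rt (x j).e else 0 := by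
  by_cases h : j = j'
  · subst h
    rw [if_pos rfl, (x j).isPiece.prj_e.2]
    have h1 := rowDef_shrink (x j).U (x j).isPiece.prj_q (hq' j) (hqq j)
    have h2 := (x j).isPiece.dfc
    have h3 : ∑ b : Fin (x j).r, ∑ c : Fin (x j).r,
        two (star ((x j).U b * q' j) * ((x j).U c * q' j) -
          if (⟨j, b⟩ : Σ j : Fin m, Fin (x j).r) = ⟨j, c⟩ then q' j else 0) ^ 2 =
        rowDef (fun k => (x j).U k * q' j) (q' j) := by
      unfold rowDef
      refine Finset.sum_congr rfl fun b _ => Finset.sum_congr rfl fun c _ => ?_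
      have h4 : ((⟨j, b⟩ : Σ j : Fin m, Fin (x j).r) = ⟨j, c⟩) ↔ b = c := by
        constructor
        · intro h5
          exact eq_of_heq (Sigma.mk.inj h5).2
        · rintro rfl
          rfl
      by_cases h5 : b = c
      · rw [if_pos (h4.2 h5), if_pos h5]
      · rw [if_neg (fun h6 => h5 (h4.1 h6)), if_neg h5]
    rw [h3]
    linarith
  · rw [if_neg h, add_zero]
    refine le_trans (le_of_eq ?_) (cross (fun b => (x j).U b * q' j) (fun c => (x j').U c * q' j')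
      (row_shrink _ (hq' j) (x j).isPiece.UU) (row_shrink _ (hq' j') (x j').isPiece.UU))
    refine Finset.sum_congr rfl fun b _ => Finset.sum_congr rfl fun c _ => ?_
    rw [if_neg (fun h6 => h (Sigma.mk.inj h6).1), sub_zero]

theorem assemble (a : Avg A) {η' σ s' ε' : ℝ} (hη : 0 < η') (hη1 : η' ≤ 1) (hs0 : 0 < s')
    (hε0 : 0 < ε') (hε1 : ε' ≤ 1 / 2)
    (hcmp : ∀ (J : Type) [Fintype J] [DecidableEq J] (P : J → J → A),
      (∀ i j, star (P i j) = P j i) → (∀ i j, ∑ k, P i k * P k j = P i j) →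
      ∀ p : A, Prj p → ∑ i, rt (P i i) ≤ rt p →
      ∃ V : J → A, (∀ i j, star (V i) * V j = P i j) ∧ ∀ i, p * V i = V i)
    (hdif : ∀ (q : A) (t : ℝ), Prj q → 0 ≤ t → t ≤ rt q → ∃ q' : A, Prj q' ∧ q * q' = q' ∧
      rt q' = t)
    (m : ℕ) (x : ℕ → Pc a η' σ)
    (hs : ∀ j < m, rt ((∑ i ∈ Finset.range j, (x i).e) * (x j).e) ≤ s' * rt (x j).e)
    (h1 : 1 - 2 * ε' < ∑ i ∈ Finset.range m, rt (x i).e)
    (h2 : ∑ i ∈ Finset.range m, rt (x i).e ≤ 2) :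
    ∃ D : StarSubalgebra ℂ A, FiniteDimensional ℂ D ∧ ∃ d : a.ι → A, (∀ i, d i ∈ D) ∧
      ∑ i, a.p i * two (a.u i - d i) ^ 2 ≤ 22 * η' + 34 * s' + 2 * ε' := by
  classical
  have hSle := sum_le m (fun i => (x i).e) hs0.le (fun i _ => (x i).isPiece.prj_e) hs
  have hSq := sum_sq_le m (fun i => (x i).e) (fun i _ => (x i).isPiece.prj_e) hs
  obtain ⟨S, hS⟩ : ∃ S : ℝ, S = ∑ j : Fin m, rt (x j).e := ⟨_, rfl⟩
  have hSr : ∑ i ∈ Finset.range m, rt (x i).e = S := by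
    rw [hS, Finset.sum_range fun i => rt (x i).e]
  rw [hSr] at hSle hSq h1 h2
  have hS0 : 0 ≤ S := by linarith
  obtain ⟨lam, hlam⟩ : ∃ lam : ℝ, lam = 1 / ((1 + η') * (1 + 2 * s')) := ⟨_, rfl⟩
  have hM : 0 < (1 + η') * (1 + 2 * s') := by positivity
  have hM1 : 1 ≤ (1 + η') * (1 + 2 * s') := by nlinarith
  have hlamM : lam * ((1 + η') * (1 + 2 * s')) = 1 := by
    rw [hlam]
    field_simp
  have hlam0 : 0 < lam := by
    rw [hlam]
    positivity
  have hlam1 : lam ≤ 1 := by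
    rw [hlam, div_le_one hM]
    exact hM1
  have hq : ∀ j : Fin m, ∃ q' : A, Prj q' ∧ (x j).q * q' = q' ∧ rt q' = lam * rt (x j).q := by
    intro j
    have h0 : 0 ≤ rt (x j).q := rt_nonneg (proj_nonneg (x j).isPiece.prj_q)
    refine hdif (x j).q (lam * rt (x j).q) (x j).isPiece.prj_q (by positivity) ?_
    nlinarith
  choose q' hq' hqq hrt using hq
  have htr : ∀ j : Fin m, |((x j).r : ℝ) * rt (x j).q - rt (x j).e| ≤ η' * rt (x j).e := fun j =>
    (x j).isPiece.tr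
  obtain ⟨Q, hQ⟩ : ∃ Q : ℝ, Q = ∑ j : Fin m, ((x j).r : ℝ) * rt (q' j) := ⟨_, rfl⟩
  have hQe : Q = lam * ∑ j : Fin m, ((x j).r : ℝ) * rt (x j).q := by
    rw [hQ, Finset.mul_sum]
    refine Finset.sum_congr rfl fun j _ => ?_
    rw [hrt j]
    ring
  have hup : ∑ j : Fin m, ((x j).r : ℝ) * rt (x j).q ≤ (1 + η') * S := by
    rw [hS, Finset.mul_sum]
    refine Finset.sum_le_sum fun j _ => ?_
    have := (abs_le.1 (htr j)).2
    linarith
  have hlo : (1 - η') * S ≤ ∑ j : Fin m, ((x j).r : ℝ) * rt (x j).q := by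
    rw [hS, Finset.mul_sum]
    refine Finset.sum_le_sum fun j _ => ?_
    have := (abs_le.1 (htr j)).1
    linarith
  have hQ1 : Q ≤ 1 := by
    rw [hQe]
    have h3 : lam * ∑ j : Fin m, ((x j).r : ℝ) * rt (x j).q ≤ lam * ((1 + η') * S) :=
      mul_le_mul_of_nonneg_left hup hlam0.le
    have h4 : lam * ((1 + η') * S) ≤ lam * ((1 + η') * (1 + 2 * s')) :=
      mul_le_mul_of_nonneg_left (mul_le_mul_of_nonneg_left hSle (by linarith)) hlam0.le
    linarith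
  have hQ2 : 1 - Q ≤ 2 * η' + 2 * s' + 2 * ε' := by
    have h3 : lam * ((1 - η') * (1 - 2 * ε')) ≤ Q := by
      rw [hQe]
      refine mul_le_mul_of_nonneg_left (le_trans ?_ hlo) hlam0.le
      exact mul_le_mul_of_nonneg_left h1.le (by linarith)
    have h4 : (1 - (2 * η' + 2 * s' + 2 * ε')) * ((1 + η') * (1 + 2 * s')) ≤
        (1 - η') * (1 - 2 * ε') := by
      have e1 : (1 - η') * (1 - 2 * ε') -
          (1 - (2 * η' + 2 * s' + 2 * ε')) * ((1 + η') * (1 + 2 * s')) =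
          η' * (2 * ε') + (2 * η' + 2 * ε') * η' +
            (2 * η' + 2 * s' + 2 * ε') * (2 * s' + η' * (2 * s')) := by ring
      have e2 : 0 ≤ η' * (2 * ε') + (2 * η' + 2 * ε') * η' +
            (2 * η' + 2 * s' + 2 * ε') * (2 * s' + η' * (2 * s')) := by positivity
      linarith
    have h5 : lam * ((1 - (2 * η' + 2 * s' + 2 * ε')) * ((1 + η') * (1 + 2 * s'))) ≤
        lam * ((1 - η') * (1 - 2 * ε')) := mul_le_mul_of_nonneg_left h4 hlam0.le
    have h6 : lam * ((1 - (2 * η' + 2 * s' + 2 * ε')) * ((1 + η') * (1 + 2 * s'))) =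
        1 - (2 * η' + 2 * s' + 2 * ε') := by
      calc lam * ((1 - (2 * η' + 2 * s' + 2 * ε')) * ((1 + η') * (1 + 2 * s')))
          = (1 - (2 * η' + 2 * s' + 2 * ε')) * (lam * ((1 + η') * (1 + 2 * s'))) := by ring
        _ = _ := by rw [hlamM, mul_one]
    linarith
  have hRq : ∀ κ : (Σ j : Fin m, Fin (x j).r), (x κ.1).U κ.2 * q' κ.1 * q' κ.1 =
      (x κ.1).U κ.2 * q' κ.1 := by
    intro κ
    rw [mul_assoc, (hq' κ.1).2]
  have htr1 : ∑ κ : (Σ j : Fin m, Fin (x j).r), rt (q' κ.1) ≤ 1 := by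
    rw [Fintype.sum_sigma]
    refine le_trans (le_of_eq ?_) hQ1
    rw [hQ]
    refine Finset.sum_congr rfl fun j _ => ?_
    simp
  obtain ⟨V, hV, hV2⟩ := row_complete (J := Σ j : Fin m, Fin (x j).r)
    (fun κ => (x κ.1).U κ.2 * q' κ.1) (fun κ => q' κ.1)
    (fun P hP1 hP2 p hp hp2 => hcmp (Σ j : Fin m, Fin (x j).r) P hP1 hP2 p hp hp2)
    (fun κ => hq' κ.1) hRq htr1
  obtain ⟨D, hD, d, hd, hfin⟩ := finish a (fun j : Fin m => (x j).r)
    (fun j b => (x j).U b * q' j) (fun j => (x j).θ) q' hq' (fun j i => (x j).isPiece.contr i) V hV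
  refine ⟨D, hD, d, hd, hfin.trans ?_⟩
  -- energies
  have hen : ∑ j : Fin m, rowEn a (fun b => (x j).U b * q' j) (x j).θ ≤ 2 * η' := by
    have h3 : ∑ j : Fin m, rowEn a (fun b => (x j).U b * q' j) (x j).θ ≤
        ∑ j : Fin m, η' * rt (x j).e := Finset.sum_le_sum fun j _ =>
      (rowEn_shrink a (x j).U (x j).θ (hq' j)).trans (x j).isPiece.row
    rw [← Finset.mul_sum, ← hS] at h3
    nlinarith
  -- defects
  have hdf : ∑ κ : (Σ j : Fin m, Fin (x j).r), two ((x κ.1).U κ.2 * q' κ.1 - V κ) ^ 2 ≤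
      2 * η' + 4 * s' := by
    refine hV2.trans ?_
    have h3 : ∑ κ : (Σ j : Fin m, Fin (x j).r), ∑ μ : (Σ j : Fin m, Fin (x j).r),
        two (star ((x κ.1).U κ.2 * q' κ.1) * ((x μ.1).U μ.2 * q' μ.1) -
          if κ = μ then q' κ.1 else 0) ^ 2 =
        ∑ j : Fin m, ∑ j' : Fin m, ∑ b : Fin (x j).r, ∑ c : Fin (x j').r,
          two (star ((x j).U b * q' j) * ((x j').U c * q' j') -
            if (⟨j, b⟩ : Σ j : Fin m, Fin (x j).r) = ⟨j', c⟩ then q' j else 0) ^ 2 := by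
      rw [Fintype.sum_sigma]
      refine Finset.sum_congr rfl fun j _ => ?_
      refine Eq.trans (Finset.sum_congr rfl fun b _ => Fintype.sum_sigma _) ?_
      exact Finset.sum_comm
    refine le_trans (le_of_eq h3) ?_
    have h4 : ∑ j : Fin m, ∑ j' : Fin m, ∑ b : Fin (x j).r, ∑ c : Fin (x j').r,
          two (star ((x j).U b * q' j) * ((x j').U c * q' j') -
            if (⟨j, b⟩ : Σ j : Fin m, Fin (x j).r) = ⟨j', c⟩ then q' j else 0) ^ 2 ≤
        ∑ j : Fin m, ∑ j' : Fin m,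
          (rt ((x j).e * (x j').e) + if j = j' then η' * rt (x j).e - rt (x j).e else 0) :=
      Finset.sum_le_sum fun j _ => Finset.sum_le_sum fun j' _ => block a m x q' hq' hqq j j'
    have h5 : ∑ j : Fin m, ∑ j' : Fin m,
          (rt ((x j).e * (x j').e) + if j = j' then η' * rt (x j).e - rt (x j).e else 0) =
        rt ((∑ i ∈ Finset.range m, (x i).e) * (∑ i ∈ Finset.range m, (x i).e)) +
          (η' * S - S) := by
      have h6 : ∀ j : Fin m, ∑ j' : Fin m,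
          (rt ((x j).e * (x j').e) + if j = j' then η' * rt (x j).e - rt (x j).e else 0) =
          ∑ j' : Fin m, rt ((x j).e * (x j').e) + (η' * rt (x j).e - rt (x j).e) := by
        intro j
        rw [Finset.sum_add_distrib, Finset.sum_ite_eq Finset.univ j, if_pos (Finset.mem_univ j)]
      simp only [h6]
      rw [Finset.sum_add_distrib, Finset.sum_sub_distrib, ← Finset.mul_sum, ← hS,
        Finset.sum_range fun i => (x i).e, Finset.sum_mul_sum, rt_sum]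
      have h8 : ∀ j : Fin m, rt (∑ j' : Fin m, (x j).e * (x j').e) =
          ∑ j' : Fin m, rt ((x j).e * (x j').e) := fun j => rt_sum _ _
      simp only [h8]
    have h7 : (2 * s' + η') * S ≤ (2 * s' + η') * 2 :=
      mul_le_mul_of_nonneg_left h2 (by positivity)
    rw [h5] at h4
    refine h4.trans ?_
    linarith
  rw [← hQ]
  linarith

end Pool.Agent.PTH
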