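import Pool.Agent.PTH.Base

/-!
# PTH / Ex2: resolvent functions `f_t(g) = g (t + g)⁻¹` and their averages

`t > 0`, `g ≥ 0`.  `fres t g = cfc (s ↦ s/(t+s)) g = 1 - t (t + g)⁻¹`.
* `fres_nonneg`, `fres_le_one`, `fres_le`, `fres_anti`: scalar inequalities on `[0, ∞)` and
  `cfc_mono` / `cfc_nonneg` / `cfc_le_one`: `0 ≤ s/(t+s) ≤ 1`, `s/(t+s) ≤ s/t`,
  `s/(t+s) ≤ s/(t'+s)` for `t' ≤ t`.
* `fres_mono`: operator monotonicity of `s ↦ s/(t+s) = 1 - (1 + s/t)⁻¹`: Mathlib
  `CFC.monotoneOn_one_sub_one_add_inv`, or `CStarAlgebra.inv_le_inv` for the units `t + g ≤ t + g'`.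
* `fres_conj`: `cfc` commutes with the *-automorphism `x ↦ u x u*` (`StarAlgHom.map_cfc`, or
  characterise `fres` algebraically: `(t + g) * fres t g = g`, and `t + g` is invertible).
* `fres_smul`: `f_t(C g) = f_{t/C}(g)` (`cfc_comp_smul` or the algebraic characterisation).
* `bav C l g = (1/l) ∑_{j<l} f_{C^{-j}}(g)`.  `bav_le`: `f_{C^{-j}}(g) ≤ C^j g ≤ C^l g`.
* `bav_comm`: `u b(g) u* = (1/l) ∑_{j<l} f_{C^{-j}}(u g u*) ≤ (1/l) ∑_{j<l} f_{C^{-j}}(C g)
  = (1/l) ∑_{j<l} f_{C^{-j-1}}(g) ≤ b(g) + (1/l) f_{C^{-l}}(g) ≤ b(g) + 1/l` (telescoping).  The same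
  for `u*`: `u* b u ≤ b + 1/l`, so `b ≤ u b u* + 1/l`.  Hence `-1/l ≤ u b u* - b ≤ 1/l`,
  `‖u b u* - b‖ ≤ 1/l` and `‖u b - b u‖ = ‖(u b u* - b) u‖ ≤ 1/l`.
-/

open Filter Topology
open scoped InnerProductSpace ComplexOrder

namespace Pool.Agent.PTH

variable {A : Type*} [CStarAlgebra A] [PartialOrder A] [StarOrderedRing A]

/-- `f_t(g) = g (t + g)⁻¹`. -/
noncomputable def fres (t : ℝ) (g : A) : A := cfc (fun s : ℝ => s / (t + s)) g

/-- `b(g) = (1/l) ∑_{j<l} f_{C^{-j}}(g)`. -/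
noncomputable def bav (C : ℝ) (l : ℕ) (g : A) : A :=
  ((l : ℝ)⁻¹) • ∑ j ∈ Finset.range l, fres (C⁻¹ ^ j) g

private theorem spn {g : A} (hg : 0 ≤ g) {s : ℝ} (hs : s ∈ spectrum ℝ g) : 0 ≤ s :=
  spectrum_nonneg_of_nonneg hg hs

private theorem fres_cont {t : ℝ} (ht : 0 < t) {g : A} (hg : 0 ≤ g) :
    ContinuousOn (fun s : ℝ => s / (t + s)) (spectrum ℝ g) := by
  refine ContinuousOn.div continuousOn_id (continuousOn_const.add continuousOn_id) ?_
  intro s hs
  have h := spn hg hs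
  show t + s ≠ 0
  positivity

theorem fres_nonneg {t : ℝ} (ht : 0 < t) {g : A} (hg : 0 ≤ g) : 0 ≤ fres t g := by
  refine cfc_nonneg fun s hs => ?_
  have h := spn hg hs
  positivity

theorem fres_le_one {t : ℝ} (ht : 0 < t) {g : A} (hg : 0 ≤ g) : fres t g ≤ 1 := by
  refine cfc_le_one _ _ fun s hs => ?_
  have h := spn hg hs
  rw [div_le_one (by positivity)]
  linarith

theorem fres_le {t : ℝ} (ht : 0 < t) {g : A} (hg : 0 ≤ g) : fres t g ≤ t⁻¹ • g := by
  have hsa : IsSelfAdjoint g := .of_nonneg hg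
  have h1 : t⁻¹ • g = cfc (fun s : ℝ => t⁻¹ * s) g := by
    rw [cfc_const_mul_id t⁻¹ g hsa]
  rw [h1, fres]
  refine cfc_mono ?_ (fres_cont ht hg) ?_
  · intro s hs
    have h := spn hg hs
    show s / (t + s) ≤ t⁻¹ * s
    rw [inv_mul_eq_div]
    exact div_le_div_of_nonneg_left h ht (by linarith)
  · exact continuousOn_const.mul continuousOn_id

theorem fres_anti {t t' : ℝ} (ht' : 0 < t') (h : t' ≤ t) {g : A} (hg : 0 ≤ g) :
    fres t g ≤ fres t' g := by
  refine cfc_mono ?_ (fres_cont (lt_of_lt_of_le ht' h) hg) (fres_cont ht' hg)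
  intro s hs
  have h1 := spn hg hs
  show s / (t + s) ≤ s / (t' + s)
  exact div_le_div_of_nonneg_left h1 (by positivity) (by linarith)

/-- `(t + g) f_t(g) = g`. -/
theorem mul_fres {t : ℝ} (ht : 0 < t) {g : A} (hg : 0 ≤ g) :
    (t • (1 : A) + g) * fres t g = g := by
  have hsa : IsSelfAdjoint g := .of_nonneg hg
  have h1 : t • (1 : A) + g = cfc (fun s : ℝ => t + s) g := by
    have h := cfc_const_add t (fun s : ℝ => s) g continuousOn_id hsa
    rw [h, cfc_id' ℝ g hsa, Algebra.algebraMap_eq_smul_one]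
  rw [h1, fres, ← cfc_mul (fun s : ℝ => t + s) (fun s : ℝ => s / (t + s)) g
    (continuousOn_const.add continuousOn_id) (fres_cont ht hg)]
  have h2 : cfc (fun s : ℝ => (t + s) * (s / (t + s))) g = cfc (id : ℝ → ℝ) g := by
    refine cfc_congr fun s hs => ?_
    have h := spn hg hs
    have h3 : t + s ≠ 0 := by positivity
    show (t + s) * (s / (t + s)) = s
    field_simp
  rw [h2, cfc_id ℝ g hsa]

private theorem fres_sa (t : ℝ) (g : A) : IsSelfAdjoint (fres t g) := cfc_predicate _ _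

private theorem fres_mul {t : ℝ} (ht : 0 < t) {g : A} (hg : 0 ≤ g) :
    fres t g * (t • (1 : A) + g) = g := by
  have hsa : IsSelfAdjoint g := .of_nonneg hg
  have h := congrArg star (mul_fres ht hg)
  rw [star_mul, star_add, star_smul, star_one, hsa.star_eq, (fres_sa t g).star_eq] at h
  simpa using h

/-- the inverse of `t + g` -/
private theorem inv1 {t : ℝ} (ht : 0 < t) {g : A} (hg : 0 ≤ g) :
    (t • (1 : A) + g) * (t⁻¹ • (1 - fres t g)) = 1 := by
  rw [mul_smul_comm, mul_sub, mul_one, mul_fres ht hg, add_sub_cancel_right, smul_smul,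
    inv_mul_cancel₀ ht.ne', one_smul]

private theorem inv2 {t : ℝ} (ht : 0 < t) {g : A} (hg : 0 ≤ g) :
    (t⁻¹ • (1 - fres t g)) * (t • (1 : A) + g) = 1 := by
  rw [smul_mul_assoc, sub_mul, one_mul, fres_mul ht hg, add_sub_cancel_right, smul_smul,
    inv_mul_cancel₀ ht.ne', one_smul]

private theorem fres_unique {t : ℝ} (ht : 0 < t) {g x : A} (hg : 0 ≤ g)
    (h : (t • (1 : A) + g) * x = g) : x = fres t g := by
  have h1 : x = (t⁻¹ • (1 - fres t g)) * ((t • (1 : A) + g) * x) := by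
    rw [← mul_assoc, inv2 ht hg, one_mul]
  have h2 : (t⁻¹ • (1 - fres t g)) * ((t • (1 : A) + g) * fres t g) = fres t g := by
    rw [← mul_assoc, inv2 ht hg, one_mul]
  rw [h1, h]
  rwa [mul_fres ht hg] at h2

private noncomputable def uu {t : ℝ} (ht : 0 < t) {g : A} (hg : 0 ≤ g) : Aˣ where
  val := t • (1 : A) + g
  inv := t⁻¹ • (1 - fres t g)
  val_inv := inv1 ht hg
  inv_val := inv2 ht hg

theorem fres_mono {t : ℝ} (ht : 0 < t) {g g' : A} (hg : 0 ≤ g) (h : g ≤ g') :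
    fres t g ≤ fres t g' := by
  have hg' : 0 ≤ g' := hg.trans h
  have h0 : 0 ≤ t • (1 : A) := smul_nonneg ht.le zero_le_one
  have h1 : (((uu ht hg')⁻¹ : Aˣ) : A) ≤ ((uu ht hg)⁻¹ : Aˣ) :=
    CStarAlgebra.inv_le_inv (a := uu ht hg) (b := uu ht hg') (add_nonneg h0 hg)
      (add_le_add_right h _)
  have h2 : t⁻¹ • (1 - fres t g') ≤ t⁻¹ • (1 - fres t g) := h1
  have h3 : t • (t⁻¹ • (1 - fres t g')) ≤ t • (t⁻¹ • (1 - fres t g)) :=
    smul_le_smul_of_nonneg_left h2 ht.le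
  rw [smul_smul, smul_smul, mul_inv_cancel₀ ht.ne', one_smul, one_smul] at h3
  exact (sub_le_sub_iff_left _).1 h3

theorem fres_conj {t : ℝ} (ht : 0 < t) {g : A} (hg : 0 ≤ g) {u : A} (h1 : star u * u = 1)
    (h2 : u * star u = 1) : u * fres t g * star u = fres t (u * g * star u) := by
  have hg2 : 0 ≤ u * g * star u := by
    have := star_left_conjugate_nonneg hg (star u)
    rwa [star_star] at this
  refine fres_unique ht hg2 ?_
  have h3 : t • (1 : A) + u * g * star u = u * (t • (1 : A) + g) * star u := by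
    rw [mul_add, add_mul, mul_smul_comm, mul_one, smul_mul_assoc, h2]
  rw [h3]
  calc u * (t • (1 : A) + g) * star u * (u * fres t g * star u)
      = u * (t • (1 : A) + g) * (star u * u) * fres t g * star u := by
        simp only [mul_assoc]
    _ = u * ((t • (1 : A) + g) * fres t g) * star u := by
        rw [h1, mul_one]
        simp only [mul_assoc]
    _ = u * g * star u := by rw [mul_fres ht hg]

theorem fres_smul {t C : ℝ} (ht : 0 < t) (hC : 0 < C) {g : A} (hg : 0 ≤ g) :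
    fres t (C • g) = fres (t / C) g := by
  have htC : 0 < t / C := div_pos ht hC
  refine (fres_unique ht (smul_nonneg hC.le hg) ?_).symm
  have h1 : t • (1 : A) + C • g = C • ((t / C) • (1 : A) + g) := by
    rw [smul_add, smul_smul, mul_div_cancel₀ _ hC.ne']
  rw [h1, smul_mul_assoc, mul_fres htC hg]

private theorem cpos {C : ℝ} (hC : 1 ≤ C) (j : ℕ) : 0 < C⁻¹ ^ j := by
  have : 0 < C := by linarith
  positivity

theorem bav_nonneg {C : ℝ} (hC : 1 ≤ C) (l : ℕ) {g : A} (hg : 0 ≤ g) : 0 ≤ bav C l g :=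
  smul_nonneg (by positivity) (Finset.sum_nonneg fun j _ => fres_nonneg (cpos hC j) hg)

theorem bav_le_one {C : ℝ} (hC : 1 ≤ C) (l : ℕ) {g : A} (hg : 0 ≤ g) : bav C l g ≤ 1 := by
  rcases Nat.eq_zero_or_pos l with rfl | hl
  · rw [bav, Finset.range_zero, Finset.sum_empty, smul_zero]
    exact zero_le_one
  · have h1 : ∑ j ∈ Finset.range l, fres (C⁻¹ ^ j) g ≤ ∑ _j ∈ Finset.range l, (1 : A) :=
      Finset.sum_le_sum fun j _ => fres_le_one (cpos hC j) hg
    have h2 : bav C l g ≤ ((l : ℝ)⁻¹) • ∑ _j ∈ Finset.range l, (1 : A) :=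
      smul_le_smul_of_nonneg_left h1 (by positivity)
    refine h2.trans (le_of_eq ?_)
    have hl' : (l : ℝ) ≠ 0 := by exact_mod_cast hl.ne'
    rw [Finset.sum_const, Finset.card_range, ← Nat.cast_smul_eq_nsmul ℝ, smul_smul,
      inv_mul_cancel₀ hl', one_smul]

theorem bav_mono {C : ℝ} (hC : 1 ≤ C) (l : ℕ) {g g' : A} (hg : 0 ≤ g) (h : g ≤ g') :
    bav C l g ≤ bav C l g' :=
  smul_le_smul_of_nonneg_left
    (Finset.sum_le_sum fun j _ => fres_mono (cpos hC j) hg h) (by positivity)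

theorem bav_le {C : ℝ} (hC : 1 ≤ C) (l : ℕ) {g : A} (hg : 0 ≤ g) :
    bav C l g ≤ (C ^ l) • g := by
  have hC0 : 0 < C := by linarith
  rcases Nat.eq_zero_or_pos l with rfl | hl
  · rw [bav, Finset.range_zero, Finset.sum_empty, smul_zero]
    exact smul_nonneg (by positivity) hg
  · have h1 : ∑ j ∈ Finset.range l, fres (C⁻¹ ^ j) g ≤ ∑ _j ∈ Finset.range l, (C ^ l) • g := by
      refine Finset.sum_le_sum fun j hj => ?_
      refine (fres_le (cpos hC j) hg).trans ?_
      refine smul_le_smul_of_nonneg_right ?_ hg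
      rw [inv_pow, inv_inv]
      exact pow_le_pow_right₀ hC (Finset.mem_range.1 hj).le
    have h2 : bav C l g ≤ ((l : ℝ)⁻¹) • ∑ _j ∈ Finset.range l, (C ^ l) • g :=
      smul_le_smul_of_nonneg_left h1 (by positivity)
    refine h2.trans (le_of_eq ?_)
    have hl' : (l : ℝ) ≠ 0 := by exact_mod_cast hl.ne'
    rw [Finset.sum_const, Finset.card_range, ← Nat.cast_smul_eq_nsmul ℝ, smul_smul,
      inv_mul_cancel₀ hl', one_smul]

private theorem bav_half {C : ℝ} (hC : 1 ≤ C) (l : ℕ) {g : A} (hg : 0 ≤ g) {u : A}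
    (h1 : star u * u = 1) (h2 : u * star u = 1) (h3 : u * g * star u ≤ C • g) :
    u * bav C l g * star u ≤ bav C l g + ((l : ℝ)⁻¹) • (1 : A) := by
  have hC0 : 0 < C := by linarith
  have hug : 0 ≤ u * g * star u := by
    have := star_left_conjugate_nonneg hg (star u)
    rwa [star_star] at this
  have e1 : u * bav C l g * star u =
      ((l : ℝ)⁻¹) • ∑ j ∈ Finset.range l, fres (C⁻¹ ^ j) (u * g * star u) := by
    rw [bav, mul_smul_comm, smul_mul_assoc, Finset.mul_sum, Finset.sum_mul]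
    congr 1
    exact Finset.sum_congr rfl fun j _ => fres_conj (cpos hC j) hg h1 h2
  have e2 : ∑ j ∈ Finset.range l, fres (C⁻¹ ^ j) (u * g * star u) ≤
      ∑ j ∈ Finset.range l, fres (C⁻¹ ^ (j + 1)) g := by
    refine Finset.sum_le_sum fun j _ => ?_
    refine (fres_mono (cpos hC j) hug h3).trans (le_of_eq ?_)
    rw [fres_smul (cpos hC j) hC0 hg, pow_succ, div_eq_mul_inv]
  have e3 : ∑ j ∈ Finset.range l, fres (C⁻¹ ^ (j + 1)) g =
      ∑ j ∈ Finset.range l, fres (C⁻¹ ^ j) g + (fres (C⁻¹ ^ l) g - fres (C⁻¹ ^ 0) g) := by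
    have h := Finset.sum_range_succ' (fun j => fres (C⁻¹ ^ j) g) l
    rw [Finset.sum_range_succ] at h
    rw [← sub_eq_iff_eq_add.2 h]
    abel
  have e4 : fres (C⁻¹ ^ l) g - fres (C⁻¹ ^ 0) g ≤ 1 := by
    have h5 := fres_le_one (cpos hC l) hg
    have h6 := fres_nonneg (cpos hC 0) hg
    calc fres (C⁻¹ ^ l) g - fres (C⁻¹ ^ 0) g ≤ fres (C⁻¹ ^ l) g := sub_le_self _ h6
      _ ≤ 1 := h5
  rw [e1, bav, ← smul_add]
  refine smul_le_smul_of_nonneg_left ?_ (by positivity)
  refine e2.trans ?_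
  rw [e3]
  exact add_le_add_right e4 _

theorem bav_comm {C : ℝ} (hC : 1 ≤ C) (l : ℕ) (hl : 1 ≤ l) {g : A} (hg : 0 ≤ g) {u : A}
    (h1 : star u * u = 1) (h2 : u * star u = 1) (h3 : u * g * star u ≤ C • g)
    (h4 : star u * g * u ≤ C • g) : ‖u * bav C l g - bav C l g * u‖ ≤ 1 / l := by
  have hb : IsSelfAdjoint (bav C l g) := .of_nonneg (bav_nonneg hC l hg)
  have ha := bav_half hC l hg h1 h2 h3
  have hb' := bav_half (u := star u) hC l hg (by rw [star_star]; exact h2)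
    (by rw [star_star]; exact h1) (by rw [star_star]; exact h4)
  rw [star_star] at hb'
  -- conjugate the second one by `u`
  have hc : bav C l g ≤ u * bav C l g * star u + ((l : ℝ)⁻¹) • (1 : A) := by
    have h5 := star_left_conjugate_le_conjugate hb' (star u)
    rw [star_star] at h5
    have e1 : u * (star u * bav C l g * u) * star u = bav C l g := by
      calc u * (star u * bav C l g * u) * star u
          = (u * star u) * bav C l g * (u * star u) := by simp only [mul_assoc]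
        _ = bav C l g := by rw [h2, one_mul, mul_one]
    have e2 : u * (bav C l g + ((l : ℝ)⁻¹) • (1 : A)) * star u =
        u * bav C l g * star u + ((l : ℝ)⁻¹) • (1 : A) := by
      rw [mul_add, add_mul, mul_smul_comm, mul_one, smul_mul_assoc, h2]
    rwa [e1, e2] at h5
  set b := bav C l g with hbdef
  set d : A := u * b * star u - b with hd
  have hdsa : IsSelfAdjoint d := by
    refine IsSelfAdjoint.sub ?_ hb
    have := hb.conjugate u
    exact this
  have hup : d ≤ algebraMap ℝ A ((l : ℝ)⁻¹) := by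
    rw [Algebra.algebraMap_eq_smul_one, hd, sub_le_iff_le_add']
    exact ha
  have hdn : algebraMap ℝ A (-(l : ℝ)⁻¹) ≤ d := by
    rw [Algebra.algebraMap_eq_smul_one, hd, neg_smul, neg_le_sub_iff_le_add]
    exact hc
  have hnorm : ‖d‖ ≤ (l : ℝ)⁻¹ := by
    have h6 := (le_algebraMap_iff_spectrum_le (ha := hdsa)).1 hup
    have h7 := (algebraMap_le_iff_le_spectrum (ha := hdsa)).1 hdn
    have h8 : ‖cfc (id : ℝ → ℝ) d‖ ≤ (l : ℝ)⁻¹ := by
      rw [norm_cfc_le_iff (id : ℝ → ℝ) d (by positivity) continuousOn_id hdsa]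
      intro x hx
      rw [Real.norm_eq_abs, abs_le]
      exact ⟨h7 x hx, h6 x hx⟩
    rwa [cfc_id ℝ d hdsa] at h8
  have e : u * b - b * u = d * u := by
    rw [hd, sub_mul, mul_assoc (u * b), h1, mul_one]
  have hu : ‖u‖ ≤ 1 := by
    by_cases hA : Nontrivial A
    · have h9 : ‖star u * u‖ = ‖u‖ * ‖u‖ := CStarRing.norm_star_mul_self
      rw [h1, norm_one] at h9
      nlinarith [norm_nonneg u]
    · rw [not_nontrivial_iff_subsingleton] at hA
      rw [Subsingleton.elim u 0, norm_zero]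
      exact zero_le_one
  rw [e, one_div]
  calc ‖d * u‖ ≤ ‖d‖ * ‖u‖ := norm_mul_le _ _
    _ ≤ (l : ℝ)⁻¹ * 1 := mul_le_mul hnorm hu (norm_nonneg _) (by positivity)
    _ = (l : ℝ)⁻¹ := mul_one _

end Pool.Agent.PTH
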