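import Pool.Agent.PTH.Ex2

/-!
# PTH / Ex3: the key property of `bav`: `b(g) ≤ b`, `z = 1_{b ≤ 3/4}` give `z g z ≤ 3 z`

`t = C^{-j} ≤ 1`, `s ≥ 0`: `1 - s/(t+s) = t/(t+s) ≤ 1/(1+s)`.  So `1 - b(g) ≤ (1 + g)⁻¹` (each term
`1 - f_t(g) = cfc (t/(t+s)) g ≤ cfc (1/(1+s)) g`; here `l ≥ 1`).  Let `ε > 0`, `x := 1 + g ≥ 1`.
`1 + ε - b ≤ 1 + ε - b(g) ≤ x⁻¹ + ε`, all three are `≥ ε > 0`, so by operator antitonicity of
the inverse (`CStarAlgebra.inv_le_inv` for units)
`x (1 + ε x)⁻¹ = (x⁻¹ + ε)⁻¹ ≤ (1 + ε - b)⁻¹`.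
`z` commutes with `b`, hence with `(1 + ε - b)⁻¹ =: y`; `z y z = z y ≤ 4 z`: indeed
`z (1 + ε - b) ≥ (1/4 + ε) z ≥ z/4` and multiplying by `y^{1/2}` on both sides (it commutes with
everything): `z = y^{1/2} (z (1+ε-b)) y^{1/2} ≥ (1/4) z y`.
Scalar: `x/(1 + ε x) ≥ x - ε x²` for `x ≥ 0`.  So
`z x z ≤ z (x (1 + ε x)⁻¹) z + ε z x² z ≤ 4 z + ε ‖x‖² z`, for every `ε > 0`, so `z x z ≤ 4 z` and
`z g z ≤ 3 z`.
-/

open Filter Topology
open scoped InnerProductSpace ComplexOrder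

namespace Pool.Agent.PTH

variable {A : Type*} [CStarAlgebra A] [PartialOrder A] [StarOrderedRing A]

/-- `x⁻¹ ≥ z/4` implies `z x z ≤ 4 z` -/
private theorem key_aux {x r z : A} (hx : 0 ≤ x) (hxr : x * r = 1) (hrx : r * x = 1)
    (hz : Prj z) (h : ((1 / 4 : ℝ)) • z ≤ r) : z * x * z ≤ (4 : ℝ) • z := by
  set s : A := CFC.sqrt x with hs
  have hs0 : 0 ≤ s := CFC.sqrt_nonneg x
  have hss : s * s = x := CFC.sqrt_mul_sqrt_self x
  have hsa : star s = s := (IsSelfAdjoint.of_nonneg hs0).star_eq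
  have h1 : s * (s * r) = 1 := by rw [← mul_assoc, hss, hxr]
  have h2 : (r * s) * s = 1 := by rw [mul_assoc, hss, hrx]
  have h3 : s * r = r * s := by
    calc s * r = ((r * s) * s) * (s * r) := by rw [h2, one_mul]
      _ = (r * s) * (s * (s * r)) := by rw [mul_assoc]
      _ = r * s := by rw [h1, mul_one]
  have h4 : s * r * s = 1 := by rw [h3, h2]
  have h5 := conjugate_le_conjugate_of_nonneg h hs0
  rw [h4] at h5
  have h6 : star (z * s) * (z * s) = s * z * s := by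
    rw [star_mul, hsa, hz.1, mul_assoc, ← mul_assoc z z s, hz.2, mul_assoc]
  have h7 : star (z * s) * (z * s) ≤ algebraMap ℝ A 4 := by
    rw [h6, Algebra.algebraMap_eq_smul_one]
    have h8 : s * ((1 / 4 : ℝ) • z) * s = (1 / 4 : ℝ) • (s * z * s) := by
      rw [mul_smul_comm, smul_mul_assoc]
    rw [h8] at h5
    have h9 := smul_le_smul_of_nonneg_left h5 (by norm_num : (0 : ℝ) ≤ 4)
    rw [smul_smul] at h9
    norm_num at h9
    exact h9
  have h8 : ‖star (z * s) * (z * s)‖ ≤ 4 :=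
    (CStarAlgebra.norm_le_iff_le_algebraMap _ (by norm_num) (star_mul_self_nonneg _)).2 h7
  have h9 : ‖(z * s) * star (z * s)‖ ≤ 4 := by
    rw [CStarRing.norm_self_mul_star]
    rw [CStarRing.norm_star_mul_self] at h8
    exact h8
  have h10 := (CStarAlgebra.norm_le_iff_le_algebraMap _ (by norm_num)
    (mul_star_self_nonneg (z * s))).1 h9
  have h11 : (z * s) * star (z * s) = z * x * z := by
    rw [star_mul, hsa, hz.1, mul_assoc, ← mul_assoc s s z, hss, mul_assoc]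
  rw [h11, Algebra.algebraMap_eq_smul_one] at h10
  have h12 := star_left_conjugate_le_conjugate h10 z
  rw [hz.1, mul_smul_comm, mul_one, smul_mul_assoc, hz.2] at h12
  have h13 : z * (z * x * z) * z = z * x * z := by
    calc z * (z * x * z) * z = (z * z) * x * (z * z) := by simp only [mul_assoc]
      _ = z * x * z := by rw [hz.2]
  rwa [h13] at h12

theorem bav_key {C : ℝ} (hC : 1 ≤ C) (l : ℕ) (hl : 1 ≤ l) {g b z : A} (hg : 0 ≤ g) (hb : b ≤ 1)
    (h : bav C l g ≤ b) (hz : Prj z) (hzb : z * b = b * z) (hz2 : z * b ≤ (3 / 4 : ℝ) • z) :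
    z * g * z ≤ (3 : ℝ) • z := by
  have hl0 : (0 : ℝ) < (l : ℝ) := by exact_mod_cast hl
  -- `f_1(g) ≤ b(g) ≤ b`
  have h1 : fres 1 g ≤ bav C l g := by
    have h2 : ∀ j ∈ Finset.range l, fres 1 g ≤ fres (C⁻¹ ^ j) g := by
      intro j _
      refine fres_anti (pow_pos (inv_pos.2 (by linarith)) j) ?_ hg
      exact pow_le_one₀ (inv_nonneg.2 (by linarith)) (inv_le_one_of_one_le₀ hC)
    have h3 := Finset.sum_le_sum h2
    rw [Finset.sum_const, Finset.card_range] at h3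
    have h4 := smul_le_smul_of_nonneg_left h3 (inv_nonneg.2 hl0.le)
    unfold bav
    refine le_trans (le_of_eq ?_) h4
    rw [← Nat.cast_smul_eq_nsmul ℝ, smul_smul, inv_mul_cancel₀ hl0.ne', one_smul]
  have hf : fres 1 g ≤ b := h1.trans h
  -- the inverse of `x = 1 + g`
  have hx0 : (0 : A) ≤ 1 + g := add_nonneg zero_le_one hg
  have hxr : (1 + g) * (1 - fres 1 g) = 1 := by
    have h2 := mul_fres one_pos hg
    rw [one_smul] at h2
    rw [mul_sub, mul_one, h2]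
    abel
  have hrx : (1 - fres 1 g) * (1 + g) = 1 := by
    have h2 := congrArg star hxr
    rw [star_mul, star_one, (IsSelfAdjoint.of_nonneg hx0).star_eq,
      (IsSelfAdjoint.of_nonneg (sub_nonneg.2 (fres_le_one one_pos hg))).star_eq] at h2
    exact h2
  -- `z / 4 ≤ 1 - b`
  have hz4 : ((1 / 4 : ℝ)) • z ≤ 1 - b := by
    have h2 : 0 ≤ (1 - z) * (1 - b) * (1 - z) := by
      have h3 := star_left_conjugate_nonneg (sub_nonneg.2 hb) (1 - z)
      rwa [star_sub, star_one, hz.1] at h3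
    have h4 : b * z * z = b * z := by rw [mul_assoc, hz.2]
    have h3 : (1 - z) * (1 - b) * (1 - z) = 1 - b - (z - z * b) := by
      have h5 : (1 - z) * (1 - b) * (1 - z) = 1 - b - z + z * b - (z - b * z - z * z + z * b * z) := by
        noncomm_ring
      rw [h5, hzb, h4, hz.2]
      abel
    rw [h3] at h2
    have h5 := sub_nonneg.1 h2
    have h6 : ((1 / 4 : ℝ)) • z = z - ((3 / 4 : ℝ)) • z := by
      have h7 : z = (1 : ℝ) • z := (one_smul ℝ z).symm
      nth_rewrite 2 [h7]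
      rw [← sub_smul]
      norm_num
    rw [h6]
    exact (sub_le_sub_left hz2 z).trans h5
  have hz5 : ((1 / 4 : ℝ)) • z ≤ 1 - fres 1 g := hz4.trans (sub_le_sub_left hf 1)
  have h6 := key_aux hx0 hxr hrx hz hz5
  have h7 : z * (1 + g) * z = z + z * g * z := by
    rw [mul_add, mul_one, add_mul, hz.2]
  rw [h7] at h6
  have h8 : (4 : ℝ) • z = z + (3 : ℝ) • z := by
    have h9 : z = (1 : ℝ) • z := (one_smul ℝ z).symm
    nth_rewrite 2 [h9]
    rw [← add_smul]
    norm_num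
  rw [h8] at h6
  exact le_of_add_le_add_left h6

end Pool.Agent.PTH
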