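import Pool.Agent.PTH.TbX

/-!
# PTH / ExT: toolbox facts used by the exhaustion (2-norm limits, spectral projections)

Everything is in the toolbox: `norm_le_of_lim` (Tb2), `mono_lim`, `exists_lim` (Tb3), `spr_prj x t`,
`spr_comm hx h t`, `spr_tendsto x t` (Tb4), `smul_spr_le` (Tb6), `one_sub_spr_mul_le` (TbX).
-/

open Filter Topology
open scoped InnerProductSpace ComplexOrder

namespace Pool.Agent.PTH

variable {A : Type*} [CStarAlgebra A] [PartialOrder A] [StarOrderedRing A] [TracialVN A]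

theorem nonneg_of_lim {x : ℕ → A} {y : A} (hx : ∀ n, 0 ≤ x n)
    (h : Tendsto (fun n => two (x n - y)) atTop (𝓝 0)) : 0 ≤ y := lim_nonneg hx h

theorem mono_lim_one {x : ℕ → A} (h0 : ∀ n, 0 ≤ x n) (h1 : ∀ n, x n ≤ 1) (hm : Monotone x) :
    ∃ y : A, 0 ≤ y ∧ y ≤ 1 ∧ (∀ n, x n ≤ y) ∧
      Tendsto (fun n => two (x n - y)) atTop (𝓝 0) := by
  have h := mono_lim zero_le_one hm (h0 0) (fun n => by rw [one_smul]; exact h1 n)
  rwa [one_smul] at h

theorem mono_lim1 {x : ℕ → A} (h0 : ∀ n, 0 ≤ x n) (h1 : ∀ n, x n ≤ 1) (hm : Monotone x) :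
    ∃ y : A, 0 ≤ y ∧ y ≤ 1 ∧ (∀ n, x n ≤ y) ∧
      Tendsto (fun n => two (x n - y)) atTop (𝓝 0) := mono_lim_one h0 h1 hm

theorem spr_comm1 {b : A} (hb : star b = b) (t : ℝ) {x : A} (hx : b * x = x * b) :
    spr b t * x = x * spr b t := spr_comm (x := b) hb hx t

/-- The defining property of `spr b t`. -/
theorem spr_lim (b : A) (t : ℝ) :
    Tendsto (fun n : ℕ => two (cfc (fun s : ℝ => min 1 ((n : ℝ) * max (s - t) 0)) b - spr b t))
      atTop (𝓝 0) := spr_tendsto b t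

/-- `t 1_{b>t} ≤ b`. -/
theorem spr_smul_le {b : A} (hb : 0 ≤ b) {t : ℝ} (ht : 0 ≤ t) : t • spr b t ≤ b :=
  smul_spr_le hb ht

/-- `1_{b≤t} b ≤ t 1_{b≤t}`. -/
theorem one_sub_spr_mul {b : A} (hb : star b = b) (t : ℝ) :
    (1 - spr b t) * b ≤ t • (1 - spr b t) := one_sub_spr_mul_le hb t

end Pool.Agent.PTH
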