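import Pool.Agent.PTH.Tb1
import Pool.Agent.PTH.ExT

/-!
# PTH / Ex4: common kernels of finitely many projections

`exists_ker_step`.  `z, e` projections.  Put `x = z - z e z`, `y = e - e z e`.  `0 ≤ x ≤ 1`
(`z e z ≤ z`), so the powers `x^(n+1)` decrease (`x^(n+2) ≤ x^(n+1)`, as `x` commutes with its powers:
`x^(n+1) - x^(n+2) = x^(n+1) (1 - x) ≥ 0`); by `mono_lim1` (or `anti_lim` of Tb3 directly) applied to `1 - x^(n+1)` they converge in
2-norm to some `z'`, `0 ≤ z' ≤ 1`.  From `x * x^(n+1) = x^(n+2)`: `x z' = z'`; hence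
`x^(n+1) z' = z'` and in the limit `z' z' = z'`: `z'` is a projection.  `z x = x`, so `z z' = z'`.
`z' = z' x z' = z' z z' - z' z e z z' = z' - z' e z'` (use `z z' = z'`, `z' z = z'`), so
`z' e z' = 0`, `(e z')* (e z') = 0`, `e z' = 0`.
Trace: `x (z e) = (z e) y` (both are `z e - z e z e`), so `x^i (z e) = (z e) y^i`, and
`y^i e = e y^i` for all `i` (also `y e = y`); telescoping `z - x^n = ∑_{i<n} x^i (z - x)` (where
`x^0` is replaced by `z`; `z x = x`), `z - x = z e z`:
`rt (x^i z e z) = rt ((z e) y^i z) = rt (e y^i z e) = rt (y^i e z e) = rt (y^i (e - y))`; so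
`rt (z - x^n) = rt (e - y^n) ≤ rt e` for `n ≥ 1` (`y ≥ 0`, so `y^n ≥ 0`).  So `rt (x^n) ≥ rt z - rt e`
and the same for the limit.
`exists_ker`: induction on `m` starting from `z = 1`: `z_{m+1}` from `z_m`, `e_m`;
`z_{m+1} z_m = z_{m+1}`, so `z_{m+1} e_i = z_{m+1} z_m e_i = 0` for `i < m`.
-/

open Filter Topology
open scoped InnerProductSpace ComplexOrder

namespace Pool.Agent.PTH

variable {A : Type*} [CStarAlgebra A] [PartialOrder A] [StarOrderedRing A] [TracialVN A]

private theorem ek_neg (z e : A) (hz : z * z = z) (he : e * e = e) :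
    (z - z * e * z) * (z * e) = z * e * (e - e * z * e) := by
  have h1 : (z - z * e * z) * (z * e) = z * z * e - z * e * (z * z) * e := by noncomm_ring
  have h2 : z * e * (e - e * z * e) = z * (e * e) - z * (e * e) * z * e := by noncomm_ring
  rw [h1, h2, hz, he]

/-- the powers of the two compressions -/
private theorem ek_pow (z e : A) (hz : z * z = z) (he : e * e = e) (n : ℕ) :
    (z - z * e * z) ^ n * (z * e) = z * e * (e - e * z * e) ^ n := by
  induction n with
  | zero => rw [pow_zero, pow_zero, one_mul, mul_one]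
  | succ n ih =>
    rw [pow_succ, mul_assoc, ek_neg z e hz he, ← mul_assoc, ih, mul_assoc, ← pow_succ]

private theorem ek_rt (z e : A) (hz : z * z = z) (he : e * e = e) (n : ℕ) :
    rt ((z - z * e * z) ^ (n + 1)) - rt z = rt ((e - e * z * e) ^ (n + 1)) - rt e := by
  set x := z - z * e * z with hx
  set y := e - e * z * e with hy
  have hxz : x * z = x := by
    have : x * z = z * z - z * e * (z * z) := by rw [hx]; noncomm_ring
    rw [this, hz]
  have hye : y * e = y := by
    have : y * e = e * e - e * z * (e * e) := by rw [hy]; noncomm_ring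
    rw [this, he]
  have hey : e * y = y := by
    have : e * y = e * e - e * e * z * e := by rw [hy]; noncomm_ring
    rw [this, he]
  have hpx : ∀ n : ℕ, x ^ (n + 1) * z = x ^ (n + 1) := fun n => by
    rw [pow_succ, mul_assoc, hxz]
  have hpy : ∀ n : ℕ, y ^ (n + 1) * e = y ^ (n + 1) := fun n => by
    rw [pow_succ, mul_assoc, hye]
  have hpy' : ∀ n : ℕ, e * y ^ (n + 1) = y ^ (n + 1) := fun n => by
    rw [pow_succ', ← mul_assoc, hey]
  induction n with
  | zero =>
    rw [zero_add, pow_one, pow_one, hx, hy, rt_sub, rt_sub]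
    have h1 : rt (z * e * z) = rt (z * e) := by
      rw [rt_comm, ← mul_assoc, hz]
    have h2 : rt (e * z * e) = rt (z * e) := by
      rw [rt_comm, ← mul_assoc, he, rt_comm]
    rw [h1, h2]
    ring
  | succ n ih =>
    have h1 : x ^ (n + 1 + 1) = x ^ (n + 1) - x ^ (n + 1) * (z * e) * z := by
      conv_lhs => rw [pow_succ, hx, mul_sub]
      rw [← hx, hpx n]
      noncomm_ring
    have h2 : y ^ (n + 1 + 1) = y ^ (n + 1) - y ^ (n + 1) * z * e := by
      conv_lhs => rw [pow_succ, hy, mul_sub]
      rw [← hy, hpy n]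
      congr 1
      calc y ^ (n + 1) * (e * z * e) = y ^ (n + 1) * e * z * e := by noncomm_ring
        _ = y ^ (n + 1) * z * e := by rw [hpy n]
    have h3 : rt (x ^ (n + 1) * (z * e) * z) = rt (z * y ^ (n + 1)) := by
      rw [hx, ek_pow z e hz he, ← hy, rt_comm]
      have : z * (z * e * y ^ (n + 1)) = z * z * (e * y ^ (n + 1)) := by noncomm_ring
      rw [this, hz, hpy' n]
    have h4 : rt (y ^ (n + 1) * z * e) = rt (z * y ^ (n + 1)) := by
      rw [rt_comm, ← mul_assoc, hpy' n, rt_comm]
    rw [h1, h2, rt_sub, rt_sub, h3, h4]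
    linarith

theorem exists_ker_step {z e : A} (hz : Prj z) (he : Prj e) :
    ∃ z' : A, Prj z' ∧ z * z' = z' ∧ e * z' = 0 ∧ rt z - rt e ≤ rt z' := by
  set x := z - z * e * z with hx
  set y := e - e * z * e with hy
  have hx0 : 0 ≤ x := by
    have h1 : x = star z * (1 - e) * z := by
      rw [hz.1, hx]
      have : z * (1 - e) * z = z * z - z * e * z := by noncomm_ring
      rw [this, hz.2]
    rw [h1]
    exact star_left_conjugate_nonneg (sub_nonneg.2 (proj_le_one he)) z
  have hy0 : 0 ≤ y := by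
    have h1 : y = star e * (1 - z) * e := by
      rw [he.1, hy]
      have : e * (1 - z) * e = e * e - e * z * e := by noncomm_ring
      rw [this, he.2]
    rw [h1]
    exact star_left_conjugate_nonneg (sub_nonneg.2 (proj_le_one hz)) e
  have hx1 : x ≤ 1 := by
    have h1 : x ≤ z := by
      rw [hx]
      refine sub_le_self _ ?_
      have h2 : z * e * z = star z * e * z := by rw [hz.1]
      rw [h2]
      exact star_left_conjugate_nonneg (proj_nonneg he) z
    exact h1.trans (proj_le_one hz)
  have hanti : Antitone fun n : ℕ => x ^ (n + 1) := fun m n h =>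
    CStarAlgebra.pow_antitone hx0 hx1 (Nat.succ_le_succ h)
  obtain ⟨z', hz0, -, hl⟩ := anti_lim hanti (fun n => CStarAlgebra.pow_nonneg hx0 (n + 1))
  have hsa : star z' = z' := (IsSelfAdjoint.of_nonneg hz0).star_eq
  have hxz' : x * z' = z' := by
    have h1 : Tendsto (fun n : ℕ => two (x ^ (n + 1 + 1) - x * z')) atTop (𝓝 0) := by
      refine (lim_mul_left x hl).congr fun n => ?_
      rw [← pow_succ']
    have h2 : Tendsto (fun n : ℕ => two (x ^ (n + 1 + 1) - z')) atTop (𝓝 0) :=
      hl.comp (tendsto_add_atTop_nat 1)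
    exact lim_unique h1 h2
  have hpz : ∀ n : ℕ, x ^ (n + 1) * z' = z' := by
    intro n
    induction n with
    | zero => rw [zero_add, pow_one, hxz']
    | succ n ih => rw [pow_succ, mul_assoc, hxz', ih]
  have hzz : z' * z' = z' := by
    have h1 := lim_mul_right z' hl
    have h2 : Tendsto (fun n : ℕ => two ((fun _ : ℕ => z') n - z' * z')) atTop (𝓝 0) :=
      h1.congr fun n => by rw [hpz n]
    exact lim_unique h2 (lim_const z')
  have hz1 : z * z' = z' := by
    have h0 : z * x = x := by
      have : z * x = z * z - z * z * e * z := by rw [hx]; noncomm_ring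
      rw [this, hz.2]
    rw [← hxz', ← mul_assoc, h0]
  have hz2 : z' * z = z' := by
    have := congrArg star hz1
    rwa [star_mul, hsa, hz.1] at this
  have hez : e * z' = 0 := by
    have h1 : z' * x * z' = z' - star z' * e * z' := by
      have h2 : z' * x * z' = z' * z * z' - z' * z * e * (z * z') := by rw [hx]; noncomm_ring
      rw [h2, hz2, hz1, hzz, hsa]
    rw [mul_assoc, hxz', hzz] at h1
    refine mul_eq_zero_of_conj (proj_nonneg he) ?_
    have h3 : z' - (z' - star z' * e * z') = 0 := by rw [← h1, sub_self]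
    rwa [sub_sub_cancel] at h3
  refine ⟨z', ⟨hsa, hzz⟩, hz1, hez, ?_⟩
  refine ge_of_tendsto' (lim_rt hl) fun n => ?_
  have h1 := ek_rt z e hz.2 he.2 n
  have h2 := rt_nonneg (CStarAlgebra.pow_nonneg hy0 (n + 1))
  rw [← hx, ← hy] at h1
  linarith

theorem exists_ker (m : ℕ) (e : ℕ → A) (he : ∀ i < m, Prj (e i)) :
    ∃ z : A, Prj z ∧ (∀ i < m, z * e i = 0) ∧ 1 - ∑ i ∈ Finset.range m, rt (e i) ≤ rt z := by
  induction m with
  | zero =>
    refine ⟨1, ⟨star_one A, one_mul 1⟩, fun i hi => absurd hi (Nat.not_lt_zero i), ?_⟩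
    rw [Finset.range_zero, Finset.sum_empty, sub_zero, rt_one]
  | succ m ih =>
    obtain ⟨z, hz, h1, h2⟩ := ih fun i hi => he i (hi.trans (Nat.lt_succ_self m))
    obtain ⟨z', hz', h3, h4, h5⟩ := exists_ker_step hz (he m (Nat.lt_succ_self m))
    have h6 : z' * z = z' := by
      have := congrArg star h3
      rwa [star_mul, hz'.1, hz.1] at this
    have h7 : z' * e m = 0 := by
      have := congrArg star h4
      rwa [star_mul, hz'.1, (he m (Nat.lt_succ_self m)).1, star_zero] at this
    refine ⟨z', hz', fun i hi => ?_, ?_⟩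
    · rcases Nat.lt_succ_iff_lt_or_eq.1 hi with h | h
      · rw [← h6, mul_assoc, h1 i h, mul_zero]
      · rw [h, h7]
    · rw [Finset.sum_range_succ]
      linarith

end Pool.Agent.PTH
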