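import Pool.Agent.PTH.Tb1
import Pool.Agent.PTH.AvE

/-!
# PTH / Ex5: the greedy lemma; `d1` of a projection

`greedy`.  `Al L x` means: `x` is allowed after the list `L`; `(List.range m).map x` is the list
`x 0, …, x (m-1)`.  PROOF.  Choose a step function `s : List X → X` such that: if some `y` is allowed
after `L` then `s L` is allowed after `L` and `t y ≤ 2 t (s L)` for every `y` allowed after `L`
(possible: `σ = sup {t y : Al L y} ∈ (0,1]`, choose `y₀` with `t y₀ ≥ σ/2`); if nothing is allowed,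
`s L` is arbitrary (`X` is nonempty).  Define lists `L_0 = []`, `L_{m+1} = L_m ++ [s L_m]` and
`x m = s L_m`; then `L_m = (List.range m).map x` (`List.range_succ`, `List.map_append`).
Let `m₁` be the smallest `m` such that `M < ∑_{i<m} t (x i)`, or some step before is not allowed...:
CASE 1: all steps are allowed and all sums are `≤ M`: `H` gives `y` allowed after every `L_m`, so
`t y ≤ 2 t (x m)` for all `m`, the sums are `≥ m t(y)/2 → ∞`: contradiction.
CASE 2: otherwise.  For every `m`: if the steps `j < m` are allowed and `∑_{i<m} t (x i) ≤ M` then the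
step `m` is allowed: this is hypothesis `H'`.  So by induction, the steps stay allowed as long as
the sums are `≤ M`; by CASE 1 some sum is `> M`; take the first such `m` (`Nat.find`), `m ≥ 1`
as `M ≥ 0`; the steps `j < m` are allowed, the sum up to `m-1` is `≤ M` and `t ≤ 1`.
(`H'` is needed because in general an infinite sequence need not exist.)
`d1_prj`: `one_proj_sub_le` (Tb1) with `g = u_i f u_i*` (a projection, `rt g = rt f`):
`‖u_i f u_i* - f‖₁ ≤ (2 rt f)^{1/2} ‖u_i f u_i* - f‖₂`, and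
`∑ p_i ‖u_i f u_i* - f‖₂ ≤ (2 e(f))^{1/2}` (`Avg.sum_two_le` in AvE).
-/

open Filter Topology
open scoped InnerProductSpace ComplexOrder

namespace Pool.Agent.PTH

theorem greedy {X : Type*} [Nonempty X] (t : X → ℝ) (ht0 : ∀ x, 0 < t x) (ht1 : ∀ x, t x ≤ 1)
    (Al : List X → X → Prop) (M : ℝ) (hM : 0 ≤ M)
    (H' : ∀ (m : ℕ) (x : ℕ → X), (∀ j < m, Al ((List.range j).map x) (x j)) →
      ∑ i ∈ Finset.range m, t (x i) ≤ M → ∃ y, Al ((List.range m).map x) y)
    (H : ∀ x : ℕ → X, (∀ j, Al ((List.range j).map x) (x j)) →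
      (∀ m, ∑ i ∈ Finset.range m, t (x i) ≤ M) → ∃ y, ∀ m, Al ((List.range m).map x) y) :
    ∃ (m : ℕ) (x : ℕ → X), (∀ j < m, Al ((List.range j).map x) (x j)) ∧
      M < ∑ i ∈ Finset.range m, t (x i) ∧ ∑ i ∈ Finset.range m, t (x i) ≤ M + 1 := by
  classical
  have hstep : ∀ L : List X, ∃ y : X, (∃ z, Al L z) → Al L y ∧ ∀ z, Al L z → t z ≤ 2 * t y := by
    intro L
    by_cases h : ∃ z, Al L z
    · obtain ⟨z0, hz0⟩ := h
      have hb : BddAbove {r : ℝ | ∃ z, Al L z ∧ r = t z} := by
        refine ⟨1, ?_⟩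
        rintro _ ⟨z, -, rfl⟩
        exact ht1 z
      have hne : {r : ℝ | ∃ z, Al L z ∧ r = t z}.Nonempty := ⟨t z0, z0, hz0, rfl⟩
      have hpos : 0 < sSup {r : ℝ | ∃ z, Al L z ∧ r = t z} :=
        lt_of_lt_of_le (ht0 z0) (le_csSup hb ⟨z0, hz0, rfl⟩)
      obtain ⟨r, ⟨y, hy, rfl⟩, hr⟩ := exists_lt_of_lt_csSup hne (half_lt_self hpos)
      refine ⟨y, fun _ => ⟨hy, fun z hz => ?_⟩⟩
      have h1 : t z ≤ sSup {r : ℝ | ∃ z, Al L z ∧ r = t z} := le_csSup hb ⟨z, hz, rfl⟩
      linarith
    · exact ⟨Classical.arbitrary X, fun h' => absurd h' h⟩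
  choose s hs using hstep
  obtain ⟨Ls, hL0, hLs⟩ : ∃ Ls : ℕ → List X, Ls 0 = [] ∧ ∀ m, Ls (m + 1) = Ls m ++ [s (Ls m)] :=
    ⟨fun m => Nat.rec [] (fun _ L => L ++ [s L]) m, rfl, fun _ => rfl⟩
  obtain ⟨x, hx⟩ : ∃ x : ℕ → X, ∀ m, x m = s (Ls m) := ⟨_, fun _ => rfl⟩
  have hLx : ∀ m, Ls m = (List.range m).map x := by
    intro m
    induction m with
    | zero => rw [hL0]; rfl
    | succ m ih => rw [hLs, List.range_succ, List.map_append, ← ih, List.map_singleton, hx]
  have hP : ∀ m : ℕ, (∀ k < m, ∑ i ∈ Finset.range k, t (x i) ≤ M) →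
      ∀ j < m, Al ((List.range j).map x) (x j) := by
    intro m
    induction m with
    | zero => intro _ j hj; exact absurd hj (Nat.not_lt_zero j)
    | succ m ih =>
      intro h j hj
      have h1 := ih fun k hk => h k (Nat.lt_succ_of_lt hk)
      rcases Nat.lt_succ_iff_lt_or_eq.1 hj with h2 | h2
      · exact h1 j h2
      · subst h2
        have h3 := H' j x h1 (h j (Nat.lt_succ_self j))
        rw [← hLx] at h3 ⊢
        rw [hx]
        exact (hs _ h3).1
  by_cases hall : ∀ m, ∑ i ∈ Finset.range m, t (x i) ≤ M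
  · exfalso
    have h1 : ∀ j, Al ((List.range j).map x) (x j) := fun j =>
      hP (j + 1) (fun k _ => hall k) j (Nat.lt_succ_self j)
    obtain ⟨y, hy⟩ := H x h1 hall
    have h2 : ∀ m, t y ≤ 2 * t (x m) := by
      intro m
      have h3 := hy m
      rw [← hLx] at h3
      rw [hx]
      exact (hs _ ⟨y, h3⟩).2 y h3
    obtain ⟨m, hm⟩ := exists_nat_gt (M / (t y / 2))
    have hty := ht0 y
    rw [div_lt_iff₀ (by positivity)] at hm
    have h4 : (m : ℝ) * (t y / 2) ≤ ∑ i ∈ Finset.range m, t (x i) := by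
      have h5 := Finset.card_nsmul_le_sum (Finset.range m) (fun i => t (x i)) (t y / 2)
        (fun i _ => by have := h2 i; linarith)
      rwa [Finset.card_range, nsmul_eq_mul] at h5
    have h6 := hall m
    linarith
  · push Not at hall
    obtain ⟨m, hm⟩ : ∃ m, m = Nat.find hall := ⟨_, rfl⟩
    have hm1 : M < ∑ i ∈ Finset.range m, t (x i) := by rw [hm]; exact Nat.find_spec hall
    have hm2 : ∀ k < m, ∑ i ∈ Finset.range k, t (x i) ≤ M := by
      intro k hk
      rw [hm] at hk
      exact not_lt.1 (Nat.find_min hall hk)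
    refine ⟨m, x, hP m hm2, hm1, ?_⟩
    rcases Nat.eq_zero_or_pos m with h0 | h0
    · subst h0
      rw [Finset.range_zero, Finset.sum_empty]
      linarith
    · obtain ⟨k, rfl⟩ := Nat.exists_eq_succ_of_ne_zero h0.ne'
      rw [Nat.succ_eq_add_one, Finset.sum_range_succ]
      have h1 := hm2 k (Nat.lt_succ_self k)
      have h2 := ht1 (x k)
      linarith

variable {A : Type*} [CStarAlgebra A] [PartialOrder A] [StarOrderedRing A] [TracialVN A]

theorem d1_prj (a : Avg A) {f : A} (hf : Prj f) : a.d1 f ≤ 2 * Real.sqrt (a.en f * rt f) := by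
  have hr0 : 0 ≤ rt f := rt_nonneg (proj_nonneg hf)
  have he0 : 0 ≤ a.en f := a.en_nonneg f
  have h1 : ∀ i, one (a.u i * f * star (a.u i) - f) ≤
      Real.sqrt (2 * rt f) * two (a.u i * f * star (a.u i) - f) := by
    intro i
    have hg : Prj (a.u i * f * star (a.u i)) := by
      constructor
      · rw [star_mul, star_mul, star_star, hf.1, mul_assoc]
      · have e : a.u i * f * star (a.u i) * (a.u i * f * star (a.u i)) =
            a.u i * f * (star (a.u i) * a.u i) * f * star (a.u i) := by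
          simp only [mul_assoc]
        rw [e, a.u_star_mul, mul_one, mul_assoc (a.u i), hf.2]
    have hr : rt (a.u i * f * star (a.u i)) = rt f := by
      rw [rt_comm, ← mul_assoc, a.u_star_mul, one_mul]
    have h2 := one_proj_sub_le hf hg
    rwa [hr, ← two_mul] at h2
  have h3 : a.d1 f ≤ Real.sqrt (2 * rt f) * Real.sqrt (2 * a.en f) := by
    unfold Avg.d1
    calc ∑ i, a.p i * one (a.u i * f * star (a.u i) - f)
        ≤ ∑ i, a.p i * (Real.sqrt (2 * rt f) * two (a.u i * f * star (a.u i) - f)) :=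
          Finset.sum_le_sum fun i _ => mul_le_mul_of_nonneg_left (h1 i) (a.p_pos i).le
      _ = Real.sqrt (2 * rt f) * ∑ i, a.p i * two (a.u i * f * star (a.u i) - f) := by
          rw [Finset.mul_sum]
          exact Finset.sum_congr rfl fun i _ => by ring
      _ ≤ _ := mul_le_mul_of_nonneg_left (a.sum_two_le f) (Real.sqrt_nonneg _)
  refine h3.trans (le_of_eq ?_)
  rw [← Real.sqrt_mul (by positivity)]
  have e : 2 * rt f * (2 * a.en f) = 2 ^ 2 * (a.en f * rt f) := by ring
  rw [e, Real.sqrt_mul (by positivity), Real.sqrt_sq (by norm_num)]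

end Pool.Agent.PTH
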