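import Pool.Agent.PTH.Ex1
import Pool.Agent.PTH.Ex3
import Pool.Agent.PTH.Ex4
import Pool.Agent.PTH.Ex5

/-!
# PTH / Ex6: the limit `b` of the resolvent averages (section 4 of t517_v2.md)

DATA: `0 < ρ < 1`, weights `≥ pm > 0`, projections `e 0, e 1, …` with `d1 (e i) ≤ δ rt (e i)` and
`∑_{i<m} rt (e i) ≤ 1 - 2 ε'`.  `C := (ρ pm)⁻¹ ≥ 1` (`pm ≤ p_o ≤ 1`), `k' := κ1 ρ^k / 3`,
`Λ := 3 ρ^{-k} / w`, `S_m := ∑_{i<m} e i`, `g_m := k'⁻¹ • G(h) + Λ • G(S_m)`, `G = a.pot ρ`,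
`b_m := bav C l g_m`.

`S_m` increases, so `g_m ≥ 0` and `b_m` increase (`pot_mono`, `bav_mono`), `0 ≤ b_m ≤ 1`
(`bav_nonneg`, `bav_le_one`).  `mono_lim`: `b := lim b_m`, `0 ≤ b ≤ 1`, `b_m ≤ b`.
(1) `‖u_i b_m - b_m u_i‖ ≤ 1/l` by `bav_comm` (`conj_pot_le` for `i` and for `inv i`,
  `u (inv i) = star (u i)`); the limit by `norm_le_of_lim`.
(2) `z := 1 - spr b (3/4)`: a projection commuting with `b`, `z b ≤ (3/4) z` (`spr_prj`, `spr_comm`,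
  `one_sub_spr_mul`), so `z g_m z ≤ 3 z` for all `m` (`bav_key`).  `j ≤ k`:
  `T^j h ≤ ρ^{-j} G(h) ≤ ρ^{-k} k' g_0`, so `z T^j(h) z ≤ 3 ρ^{-k} k' z = κ1 z`.
  `T^k(S_m) ≤ ρ^{-k} G(S_m) ≤ ρ^{-k} Λ⁻¹ g_m`, so `z T^k(S_m) z ≤ 3 ρ^{-k} Λ⁻¹ z = w z`.
(3) For every `m` let `z_m` be the projection of `exists_ker` (`z_m e_i = 0` for `i < m`,
  `rt z_m ≥ 1 - ∑_{i<m} rt (e i) ≥ 2 ε'`).  `rt (z_m b_m) ≤ C^l rt (z_m g_m)` (`bav_le`) and
  `rt (z_m g_m) ≤ k'⁻¹ rt G(h) + Λ ∑_{i<m} rt (z_m G(e_i)) ≤ k'⁻¹ rt h/(1-ρ) + Λ δ/(1-ρ)²`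
  (`rt_pot`, `rt_mul_pot_le`, `∑ rt (e i) ≤ 1`), so `rt (z_m b_m) ≤ ε'/16` by `hN`.  Choose `m` with
  `‖b - b_m‖₂ ≤ ε'/16`: `rt (z_m b) ≤ ε'/16 + ε'/16 = ε'/8` (`|rt (z x)| ≤ ‖z‖₂ ‖x‖₂ ≤ ‖x‖₂`).  With
  `f := spr b (1/8)`, `(1/8) f ≤ b` (`spr_smul_le`): `rt (z_m f) ≤ 8 rt (z_m b) ≤ ε'`, and
  `rt (1 - f) ≥ rt (z_m (1 - f)) = rt z_m - rt (z_m f) ≥ 2ε' - ε' = ε'`.
-/

open Filter Topology
open scoped InnerProductSpace ComplexOrder

namespace Pool.Agent.PTH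

variable {A : Type*} [CStarAlgebra A] [PartialOrder A] [StarOrderedRing A] [TracialVN A]

theorem limit_b (a : Avg A) {ρ pm κ1 w δ ε' : ℝ} {k l : ℕ} (hρ0 : 0 < ρ) (hρ1 : ρ < 1)
    (hpm : 0 < pm) (hp : ∀ i, pm ≤ a.p i) (hκ : 0 < κ1) (hw : 0 < w) (hl : 1 ≤ l)
    (hε : 0 < ε') (hδ : 0 ≤ δ) (h : A) (hh : 0 ≤ h) (e : ℕ → A) (he : ∀ i, Prj (e i))
    (hd : ∀ i, a.d1 (e i) ≤ δ * rt (e i))
    (hs : ∀ m, ∑ i ∈ Finset.range m, rt (e i) ≤ 1 - 2 * ε')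
    (hN : ((ρ * pm)⁻¹) ^ l * (rt h / ((1 - ρ) * (κ1 * ρ ^ k / 3)) +
      3 * ρ⁻¹ ^ k / w * (δ / (1 - ρ) ^ 2)) ≤ ε' / 16) :
    ∃ b : A, 0 ≤ b ∧ b ≤ 1 ∧ (∀ i, ‖a.u i * b - b * a.u i‖ ≤ 1 / l) ∧
      (∀ j ≤ k, (1 - spr b (3 / 4)) * (a.T ^ j) h * (1 - spr b (3 / 4)) ≤
        κ1 • (1 - spr b (3 / 4))) ∧
      (∀ m, (1 - spr b (3 / 4)) * (a.T ^ k) (∑ i ∈ Finset.range m, e i) * (1 - spr b (3 / 4)) ≤
        w • (1 - spr b (3 / 4))) ∧
      ε' ≤ rt (1 - spr b (1 / 8)) := by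
  -- constants
  have hpo : a.p a.o ≤ 1 := by
    rw [← a.p_sum]
    exact Finset.single_le_sum (f := a.p) (fun i _ => (a.p_pos i).le) (Finset.mem_univ _)
  have hpm1 : pm ≤ 1 := (hp a.o).trans hpo
  have hρpm : 0 < ρ * pm := mul_pos hρ0 hpm
  have hC1 : 1 ≤ (ρ * pm)⁻¹ := by
    rw [one_le_inv₀ hρpm]
    nlinarith
  obtain ⟨C, hC⟩ : ∃ C : ℝ, C = (ρ * pm)⁻¹ := ⟨_, rfl⟩
  rw [← hC] at hC1 hN
  have hk' : 0 < κ1 * ρ ^ k / 3 := by positivity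
  obtain ⟨K, hK⟩ : ∃ K : ℝ, K = κ1 * ρ ^ k / 3 := ⟨_, rfl⟩
  rw [← hK] at hk' hN
  have hΛ0 : 0 < 3 * ρ⁻¹ ^ k / w := by positivity
  obtain ⟨Λ, hΛ⟩ : ∃ Λ : ℝ, Λ = 3 * ρ⁻¹ ^ k / w := ⟨_, rfl⟩
  rw [← hΛ] at hΛ0 hN
  have h1ρ : 0 < 1 - ρ := by linarith
  -- the sums
  obtain ⟨S, hS⟩ : ∃ S : ℕ → A, S = fun m => ∑ i ∈ Finset.range m, e i := ⟨_, rfl⟩
  have hSm : ∀ m, ∑ i ∈ Finset.range m, e i = S m := fun m => by rw [hS]
  have hS0 : ∀ m, 0 ≤ S m := fun m => by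
    rw [← hSm]
    exact Finset.sum_nonneg fun i _ => proj_nonneg (he i)
  have hSmono : Monotone S := by
    refine monotone_nat_of_le_succ fun m => ?_
    rw [← hSm, ← hSm, Finset.sum_range_succ]
    exact le_add_of_nonneg_right (proj_nonneg (he m))
  obtain ⟨g, hg⟩ : ∃ g : ℕ → A, g = fun m => K⁻¹ • a.pot ρ h + Λ • a.pot ρ (S m) := ⟨_, rfl⟩
  have hgm : ∀ m, g m = K⁻¹ • a.pot ρ h + Λ • a.pot ρ (S m) := fun m => by rw [hg]
  have hGh : 0 ≤ a.pot ρ h := a.pot_nonneg hρ0 hρ1 hh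
  have hGS : ∀ m, 0 ≤ a.pot ρ (S m) := fun m => a.pot_nonneg hρ0 hρ1 (hS0 m)
  have hKi : 0 ≤ K⁻¹ := inv_nonneg.2 hk'.le
  have hg0 : ∀ m, 0 ≤ g m := fun m => by
    rw [hgm]
    exact add_nonneg (smul_nonneg hKi hGh) (smul_nonneg hΛ0.le (hGS m))
  have hgmono : Monotone g := by
    intro m n hmn
    rw [hgm, hgm]
    exact add_le_add_right (smul_le_smul_of_nonneg_left (a.pot_mono hρ0 hρ1 (hSmono hmn)) hΛ0.le) _
  have hconj : ∀ m i, a.u i * g m * star (a.u i) ≤ C • g m := by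
    intro m i
    rw [hgm, mul_add, add_mul, smul_add, mul_smul_comm, smul_mul_assoc, mul_smul_comm,
      smul_mul_assoc, smul_comm C K⁻¹, smul_comm C Λ, hC]
    exact add_le_add
      (smul_le_smul_of_nonneg_left (a.conj_pot_le hρ0 hρ1 hh hpm hp i) hKi)
      (smul_le_smul_of_nonneg_left (a.conj_pot_le hρ0 hρ1 (hS0 m) hpm hp i) hΛ0.le)
  -- the limit
  obtain ⟨b, hb0, hb1, hbm, hlim⟩ := mono_lim_one (x := fun m => bav C l (g m))
    (fun m => bav_nonneg hC1 l (hg0 m)) (fun m => bav_le_one hC1 l (hg0 m))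
    (fun m n hmn => bav_mono hC1 l (hg0 m) (hgmono hmn))
  have hbsa : star b = b := (IsSelfAdjoint.of_nonneg hb0).star_eq
  obtain ⟨z, hz⟩ : ∃ z : A, z = 1 - spr b (3 / 4) := ⟨_, rfl⟩
  have hP := spr_prj b (3 / 4)
  have hzP : Prj z := by
    rw [hz]
    exact prj_one_sub hP
  have hzb : z * b = b * z := by
    rw [hz, sub_mul, mul_sub, one_mul, mul_one, spr_mul_comm hbsa (3 / 4)]
  have hzb2 : z * b ≤ (3 / 4 : ℝ) • z := by
    rw [hz]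
    exact one_sub_spr_mul hbsa (3 / 4)
  have hkey : ∀ m, z * g m * z ≤ (3 : ℝ) • z := fun m =>
    bav_key hC1 l hl (hg0 m) hb1 (hbm m) hzP hzb hzb2
  have hcz : ∀ {x y : A}, x ≤ y → z * x * z ≤ z * y * z := by
    intro x y hxy
    have h1 := star_left_conjugate_le_conjugate hxy z
    rwa [hzP.1] at h1
  have hscale : ∀ (m : ℕ) (x : A) (r : ℝ), 0 ≤ r → x ≤ r • g m → z * x * z ≤ (r * 3) • z := by
    intro m x r hr hx
    refine (hcz hx).trans ?_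
    rw [mul_smul_comm, smul_mul_assoc, mul_smul]
    exact smul_le_smul_of_nonneg_left (hkey m) hr
  have hρi : 1 ≤ ρ⁻¹ := (one_le_inv₀ hρ0).2 hρ1.le
  have hρk : ρ⁻¹ ^ k * ρ ^ k = 1 := by
    rw [← mul_pow, inv_mul_cancel₀ hρ0.ne', one_pow]
  have hρk0 : 0 < ρ⁻¹ ^ k := by positivity
  have hcut : ∀ j ≤ k, z * (a.T ^ j) h * z ≤ κ1 • z := by
    intro j hj
    have h1 : a.pot ρ h ≤ K • g 0 := by
      rw [hgm, smul_add, smul_smul, mul_inv_cancel₀ hk'.ne', one_smul]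
      exact le_add_of_nonneg_right (smul_nonneg hk'.le (smul_nonneg hΛ0.le (hGS 0)))
    have h2 : (a.T ^ j) h ≤ (ρ⁻¹ ^ k * K) • g 0 := by
      refine (a.Tp_le_pot hρ0 hρ1 hh j).trans ?_
      rw [mul_smul]
      refine (smul_le_smul_of_nonneg_right (pow_le_pow_right₀ hρi hj) hGh).trans ?_
      exact smul_le_smul_of_nonneg_left h1 hρk0.le
    have h3 := hscale 0 _ _ (by positivity) h2
    have h4 : ρ⁻¹ ^ k * K * 3 = κ1 := by
      rw [hK]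
      calc ρ⁻¹ ^ k * (κ1 * ρ ^ k / 3) * 3 = κ1 * (ρ⁻¹ ^ k * ρ ^ k) := by ring
        _ = κ1 := by rw [hρk, mul_one]
    rwa [h4] at h3
  have hcut2 : ∀ m, z * (a.T ^ k) (S m) * z ≤ w • z := by
    intro m
    have h1 : a.pot ρ (S m) ≤ Λ⁻¹ • g m := by
      rw [hgm, smul_add, smul_smul Λ⁻¹ Λ, inv_mul_cancel₀ hΛ0.ne', one_smul]
      exact le_add_of_nonneg_left (smul_nonneg (inv_nonneg.2 hΛ0.le) (smul_nonneg hKi hGh))
    have h2 : (a.T ^ k) (S m) ≤ (ρ⁻¹ ^ k * Λ⁻¹) • g m := by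
      refine (a.Tp_le_pot hρ0 hρ1 (hS0 m) k).trans ?_
      rw [mul_smul]
      exact smul_le_smul_of_nonneg_left h1 hρk0.le
    have h3 := hscale m _ _ (by positivity) h2
    have h4 : ρ⁻¹ ^ k * Λ⁻¹ * 3 = w := by
      rw [hΛ]
      field_simp
    rwa [h4] at h3
  refine ⟨b, hb0, hb1, ?_, ?_, ?_, ?_⟩
  · intro i
    refine norm_le_of_lim (l := atTop)
      (x := fun n => a.u i * bav C l (g n) - bav C l (g n) * a.u i)
      (fun n => ?_) ?_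
    · refine bav_comm hC1 l hl (hg0 n) (a.u_star_mul i) (a.u_mul_star i) (hconj n i) ?_
      have h1 := hconj n (a.inv i)
      rwa [a.u_inv, star_star] at h1
    · have h1 : ∀ n, two ((a.u i * bav C l (g n) - bav C l (g n) * a.u i) -
          (a.u i * b - b * a.u i)) ≤ 2 * two (bav C l (g n) - b) := by
        intro n
        have e1 : (a.u i * bav C l (g n) - bav C l (g n) * a.u i) - (a.u i * b - b * a.u i) =
            a.u i * (bav C l (g n) - b) - (bav C l (g n) - b) * a.u i := by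
          rw [mul_sub, sub_mul]
          abel
        rw [e1]
        refine (two_sub_le _ _).trans ?_
        rw [two_unitary_mul (a.u_star_mul i), two_mul_unitary (a.u_mul_star i)]
        linarith
      refine squeeze_zero (fun n => two_nonneg _) h1 ?_
      have h2 := hlim.const_mul 2
      rwa [mul_zero] at h2
  · rw [← hz]
    exact hcut
  · rw [← hz]
    intro m
    rw [hSm]
    exact hcut2 m
  · -- the trace of the complement
    obtain ⟨m, hm⟩ : ∃ m, two (bav C l (g m) - b) ≤ ε' / 16 := by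
      have h1 : ∀ᶠ n in atTop, two (bav C l (g n) - b) < ε' / 16 :=
        hlim.eventually (gt_mem_nhds (by positivity))
      obtain ⟨m, hm⟩ := h1.exists
      exact ⟨m, hm.le⟩
    obtain ⟨y, hy, hye, hyr⟩ := exists_ker m e (fun i _ => he i)
    have hy0 := proj_nonneg hy
    have hy1 := proj_le_one hy
    have hyr2 : 2 * ε' ≤ rt y := by
      have := hs m
      linarith
    have hf := spr_prj b (1 / 8)
    have hf2 := spr_smul_le hb0 (t := 1 / 8) (by norm_num)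
    have e1 : rt (y * a.pot ρ h) ≤ rt h / (1 - ρ) := by
      have h1 := rt_mul_mono' hGh hy1
      rwa [one_mul, a.rt_pot hρ0 hρ1] at h1
    have e2 : rt (y * a.pot ρ (S m)) ≤ δ / (1 - ρ) ^ 2 := by
      rw [← hSm, a.pot_sum hρ0 hρ1, Finset.mul_sum, rt_sum]
      have h1 : ∀ i ∈ Finset.range m, rt (y * a.pot ρ (e i)) ≤ δ / (1 - ρ) ^ 2 * rt (e i) := by
        intro i hi
        refine (a.rt_mul_pot_le hρ0 hρ1 y (e i) hy0 hy1 (hye i (Finset.mem_range.1 hi))).trans ?_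
        rw [div_mul_eq_mul_div]
        exact div_le_div_of_nonneg_right (hd i) (by positivity)
      refine (Finset.sum_le_sum h1).trans ?_
      rw [← Finset.mul_sum]
      have h2 : ∑ i ∈ Finset.range m, rt (e i) ≤ 1 := by
        have := hs m
        linarith
      exact mul_le_of_le_one_right (by positivity) h2
    have e3 : rt (y * bav C l (g m)) ≤ ε' / 16 := by
      refine le_trans ?_ hN
      refine (rt_mul_mono hy0 (bav_le hC1 l (hg0 m))).trans ?_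
      rw [mul_smul_comm, rt_smul]
      refine mul_le_mul_of_nonneg_left ?_ (by positivity)
      rw [hgm, mul_add, rt_add, mul_smul_comm, rt_smul, mul_smul_comm, rt_smul]
      refine add_le_add ?_ (mul_le_mul_of_nonneg_left e2 hΛ0.le)
      refine (mul_le_mul_of_nonneg_left e1 hKi).trans (le_of_eq ?_)
      field_simp
    have e4 : rt (y * b) ≤ ε' / 8 := by
      have h1 : y * b = y * bav C l (g m) + y * (b - bav C l (g m)) := by
        rw [mul_sub]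
        abel
      rw [h1, rt_add]
      have h2 := rt_mul_le_two y (b - bav C l (g m))
      have h3 : two y ≤ 1 := (two_le_norm y).trans (norm_proj_le hy)
      have h4 : two y * two (b - bav C l (g m)) ≤ 1 * (ε' / 16) := by
        rw [two_sub_comm]
        exact mul_le_mul h3 hm (two_nonneg _) zero_le_one
      linarith
    have e5 : rt (y * spr b (1 / 8)) ≤ ε' := by
      have h1 := rt_mul_mono hy0 hf2
      rw [mul_smul_comm, rt_smul] at h1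
      linarith
    have e6 := rt_mul_mono' (sub_nonneg.2 (proj_le_one hf)) hy1
    rw [one_mul, mul_sub, mul_one, rt_sub] at e6
    linarith

end Pool.Agent.PTH
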