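import Mathlib

/-!
# PTH / ExP: numerical parameters of the exhaustion

`x := 1-c ∈ (0,1)`, `ρ = x^{1/32}`, `ρ^{-k} = x^{-k/32}`, `sqrt (x^{k/4}) = x^{k/8}` (`Real.rpow_mul`,
`Real.rpow_natCast`): the left side is `const · x^{k/8 - k/32} = const · (x^{3/32})^k → 0` as `k → ∞`
(`tendsto_pow_atTop_nhds_zero_of_lt_one`); so it is `≤ ε'/32` for some `k ≥ k0`.
-/

open Filter Topology

namespace Pool.Agent.PTH

theorem params (c pm ε' s' : ℝ) (hc : 0 < c) (hc1 : c < 1) (hpm : 0 < pm) (hε' : 0 < ε')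
    (hs' : 0 < s') (l k0 : ℕ) :
    ∃ k ≥ k0, ((((1 - c) ^ ((1 : ℝ) / 32)) * pm)⁻¹) ^ l *
      (3 * ((1 - c) ^ ((1 : ℝ) / 32))⁻¹ ^ k / (s' / 20) *
        (2 * Real.sqrt ((1 - c) ^ ((k : ℝ) / 4)) / (1 - (1 - c) ^ ((1 : ℝ) / 32)) ^ 2)) ≤
      ε' / 32 := by
  obtain ⟨x, hx⟩ : ∃ x : ℝ, x = 1 - c := ⟨_, rfl⟩
  have hx0 : 0 < x := by rw [hx]; linarith
  have hx1 : x < 1 := by rw [hx]; linarith
  rw [← hx]
  have hq0 : 0 < x ^ ((3 : ℝ) / 32) := Real.rpow_pos_of_pos hx0 _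
  have hq1 : x ^ ((3 : ℝ) / 32) < 1 := Real.rpow_lt_one hx0.le hx1 (by norm_num)
  have hlim := tendsto_pow_atTop_nhds_zero_of_lt_one hq0.le hq1
  have hkey : ∀ k : ℕ, (x ^ ((1 : ℝ) / 32))⁻¹ ^ k * Real.sqrt (x ^ ((k : ℝ) / 4)) =
      (x ^ ((3 : ℝ) / 32)) ^ k := by
    intro k
    have e1 : (x ^ ((1 : ℝ) / 32))⁻¹ ^ k = x ^ (-((1 : ℝ) / 32) * k) := by
      rw [← Real.rpow_neg hx0.le, ← Real.rpow_natCast, ← Real.rpow_mul hx0.le]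
    have e2 : Real.sqrt (x ^ ((k : ℝ) / 4)) = x ^ ((k : ℝ) / 4 * (1 / 2)) := by
      rw [Real.sqrt_eq_rpow, ← Real.rpow_mul hx0.le]
    have e3 : (x ^ ((3 : ℝ) / 32)) ^ k = x ^ ((3 : ℝ) / 32 * k) := by
      rw [← Real.rpow_natCast, ← Real.rpow_mul hx0.le]
    rw [e1, e2, e3, ← Real.rpow_add hx0]
    congr 1
    ring
  obtain ⟨C, hC⟩ : ∃ C : ℝ, C = (((x ^ ((1 : ℝ) / 32)) * pm)⁻¹) ^ l *
      (3 / (s' / 20) * (2 / (1 - x ^ ((1 : ℝ) / 32)) ^ 2)) := ⟨_, rfl⟩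
  have hfor : ∀ k : ℕ, (((x ^ ((1 : ℝ) / 32)) * pm)⁻¹) ^ l *
      (3 * (x ^ ((1 : ℝ) / 32))⁻¹ ^ k / (s' / 20) *
        (2 * Real.sqrt (x ^ ((k : ℝ) / 4)) / (1 - x ^ ((1 : ℝ) / 32)) ^ 2)) =
      C * (x ^ ((3 : ℝ) / 32)) ^ k := by
    intro k
    rw [← hkey, hC]
    ring
  have hlim2 : Tendsto (fun k : ℕ => C * (x ^ ((3 : ℝ) / 32)) ^ k) atTop (𝓝 0) := by
    have := hlim.const_mul C
    rwa [mul_zero] at this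
  have h1 : ∀ᶠ k : ℕ in atTop, C * (x ^ ((3 : ℝ) / 32)) ^ k < ε' / 32 :=
    hlim2.eventually_lt_const (by positivity)
  obtain ⟨k, hk1, hk2⟩ := (h1.and (eventually_ge_atTop k0)).exists
  exact ⟨k, hk2, by rw [hfor]; exact hk1.le⟩

end Pool.Agent.PTH
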