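import Pool.Agent.PTH.DdTb
import Pool.Agent.PTH.Tb0

/-!
# PTH / PpLev: the level set of the smoothed operator (section 9)

* `two s ^ 2 = rt (s s) ≤ rt s ≤ (1+δ) n ≤ 11/10 n` (`0 ≤ s ≤ 1`, `two_sq_le_of_norm_le` or `rt_mul_mono`).
* `two F ≥ two s - √(ρn)`: `two F ^ 2 ≥ two s ^ 2 - 2 two s √(ρ n) ≥ (1-2δ) n - 2 (21/20) √n √ρ √n`, so
  `rt (F - F F) = rt F - two F ^ 2 ≤ (1+δ) n - (1-2δ) n + 21/10 √ρ n ≤ (3δ + 3√ρ) n =: β n` (`rt F = rt s`).
* `dd_lw` gives `t`; `e = spr F t`; `a.en e ≤ 8 two F √(2 a.en F) ≤ 8 √(11/10 n) √(2 sig 11/10 n) ≤ 16 √sig n`.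
* `dd_spr`: `|rt e - rt F| ≤ 4 β n`, so `|rt e - n| ≤ (4β + δ) n`; in particular `rt e ≤ 4 n`.
* `rt ((1-e) s) = rt ((1-e) F) + rt ((1-e)(s-F))`, the first is `≤ 4 β n`, the second is `- rt (e (s-F))` as
  `rt F = rt s`, and `|rt (e (s-F))| ≤ two e two (s-F) ≤ √(4n) √(ρn) = 2 √ρ n`.  Total `(12δ + 14√ρ) n`.
* last item: `dd_spr`.
-/

open Filter Topology
open scoped InnerProductSpace ComplexOrder

namespace Pool.Agent.PTH

variable {A : Type*} [CStarAlgebra A] [PartialOrder A] [StarOrderedRing A] [TracialVN A]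

theorem pp_lev (a : Avg A) {s F : A} {n δ ρ sig : ℝ} (hs : 0 ≤ s) (hs1 : s ≤ 1) (hF : 0 ≤ F)
    (hF1 : F ≤ 1) (hn : 0 < n) (hδ : 0 ≤ δ) (hδ1 : δ ≤ 1 / 10) (hρ : 0 ≤ ρ)
    (hρ1 : Real.sqrt ρ ≤ 1 / 10) (hsig : 0 ≤ sig) (hrt : rt F = rt s) (h1 : |rt s - n| ≤ δ * n)
    (h2 : (1 - 2 * δ) * n ≤ two s ^ 2) (h3 : two (s - F) ^ 2 ≤ ρ * n) (h4 : two F ≤ two s)
    (h5 : a.en F ≤ sig * two s ^ 2) :
    ∃ t : ℝ, 1 / 4 ≤ t ∧ t ≤ 3 / 4 ∧ Prj (spr F t) ∧
      a.en (spr F t) ≤ 16 * Real.sqrt sig * n ∧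
      |rt (spr F t) - n| ≤ (13 * δ + 12 * Real.sqrt ρ) * n ∧
      rt ((1 - spr F t) * s) ≤ (12 * δ + 14 * Real.sqrt ρ) * n ∧
      ∀ y : A, 0 ≤ y → rt (y * spr F t) ≤ 16 * rt (y * (F * F)) := by
  obtain ⟨q, hq⟩ : ∃ q, q = Real.sqrt n := ⟨_, rfl⟩
  have hq0 : 0 ≤ q := hq ▸ Real.sqrt_nonneg n
  have hqq : q ^ 2 = n := hq ▸ Real.sq_sqrt hn.le
  obtain ⟨r, hr⟩ : ∃ r, r = Real.sqrt ρ := ⟨_, rfl⟩
  have hr0 : 0 ≤ r := hr ▸ Real.sqrt_nonneg ρ
  have hrr : r ^ 2 = ρ := hr ▸ Real.sq_sqrt hρ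
  obtain ⟨g, hg⟩ : ∃ g, g = Real.sqrt sig := ⟨_, rfl⟩
  have hg0 : 0 ≤ g := hg ▸ Real.sqrt_nonneg sig
  have hgg : g ^ 2 = sig := hg ▸ Real.sq_sqrt hsig
  rw [← hr] at hρ1 ⊢
  rw [← hg]
  obtain ⟨a1, a2⟩ := abs_le.1 h1
  have hS0 := two_nonneg s
  have hF0 := two_nonneg F
  have hd0 := two_nonneg (s - F)
  -- `two s`
  have hS1 : two s ^ 2 ≤ rt s := by
    rw [two_sq_sa (IsSelfAdjoint.of_nonneg hs)]
    have h := rt_mul_mono hs hs1
    rwa [mul_one] at h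
  have hδn : δ * n ≤ 1 / 10 * n := mul_le_mul_of_nonneg_right hδ1 hn.le
  have hδn0 : 0 ≤ δ * n := mul_nonneg hδ hn.le
  have hrn : r * n ≤ 1 / 10 * n := mul_le_mul_of_nonneg_right hρ1 hn.le
  have hrn0 : 0 ≤ r * n := mul_nonneg hr0 hn.le
  have hS2 : two s ^ 2 ≤ 11 / 10 * n := by linarith
  have hSq : two s ≤ 21 / 20 * q := by
    refine le_of_pow_le_pow_left₀ (n := 2) two_ne_zero (by positivity) ?_
    rw [mul_pow, hqq]
    linarith
  have hdq : two (s - F) ≤ r * q := by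
    refine le_of_pow_le_pow_left₀ (n := 2) two_ne_zero (by positivity) ?_
    rw [mul_pow, hqq, hrr]
    exact h3
  have hSd : two s * two (s - F) ≤ 21 / 20 * (r * n) := by
    have h := mul_le_mul hSq hdq hd0 (by positivity)
    have e : 21 / 20 * q * (r * q) = 21 / 20 * (r * n) := by rw [← hqq]; ring
    linarith
  have htri : two s ≤ two F + two (s - F) := by
    have h := two_add_le F (s - F)
    rwa [add_sub_cancel] at h
  have hFS : two s ^ 2 - 2 * (two s * two (s - F)) ≤ two F ^ 2 := by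
    rcases le_total (two (s - F)) (two s) with hc | hc
    · have h6 : 0 ≤ two s - two (s - F) := by linarith
      have h7 : (two s - two (s - F)) ^ 2 ≤ two F ^ 2 := by
        refine pow_le_pow_left₀ h6 ?_ 2
        linarith
      have h8 : (two s - two (s - F)) ^ 2 =
          two s ^ 2 - 2 * (two s * two (s - F)) + two (s - F) ^ 2 := by ring
      have h9 := sq_nonneg (two (s - F))
      rw [h8] at h7
      linarith
    · have h6 := mul_nonneg hS0 (sub_nonneg.2 hc)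
      have h7 := mul_nonneg hS0 hd0
      have h8 := sq_nonneg (two F)
      have h9 : two s * (two (s - F) - two s) = two s * two (s - F) - two s ^ 2 := by ring
      rw [h9] at h6
      linarith
  have hβ : rt (F - F * F) ≤ 3 * (δ * n) + 21 / 10 * (r * n) := by
    rw [rt_sub, ← two_sq_sa (IsSelfAdjoint.of_nonneg hF)]
    linarith
  obtain ⟨t, ht1, ht2, hen⟩ := dd_lw a hF hF1
  obtain ⟨e1, -, e3, e4, -, e6⟩ := dd_spr hF hF1 ht1 ht2
  have hrte : |rt (spr F t) - n| ≤ (13 * δ + 12 * r) * n := by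
    rw [hrt] at e4
    obtain ⟨b1, b2⟩ := abs_le.1 e4
    rw [abs_le]
    constructor <;> linarith
  refine ⟨t, ht1, ht2, e1, ?_, hrte, ?_, e6⟩
  · have h6 : Real.sqrt (2 * a.en F) ≤ 3 / 2 * (g * q) := by
      rw [Real.sqrt_le_left (by positivity)]
      have h7 : a.en F ≤ sig * (11 / 10 * n) := h5.trans (mul_le_mul_of_nonneg_left hS2 hsig)
      have h8 : (3 / 2 * (g * q)) ^ 2 = 9 / 4 * (sig * n) := by
        rw [mul_pow, mul_pow, hgg, hqq]
        norm_num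
      have h9 : 0 ≤ sig * n := mul_nonneg hsig hn.le
      rw [h8]
      linarith
    have h7 : two F ≤ 21 / 20 * q := h4.trans hSq
    have h8 : two F * Real.sqrt (2 * a.en F) ≤ 21 / 20 * q * (3 / 2 * (g * q)) :=
      mul_le_mul h7 h6 (Real.sqrt_nonneg _) (by positivity)
    have h9 : 21 / 20 * q * (3 / 2 * (g * q)) = 63 / 40 * (g * n) := by rw [← hqq]; ring
    have h10 : 0 ≤ g * n := mul_nonneg hg0 hn.le
    linarith
  · have h6 : (1 - spr F t) * s = (1 - spr F t) * F + ((s - F) - spr F t * (s - F)) := by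
      noncomm_ring
    rw [h6, rt_add, rt_sub, rt_sub s F]
    have h7 := abs_rt_mul_le (spr F t) (s - F)
    have h8 := (abs_le.1 h7).1
    have h9 : two (spr F t) ≤ 2 * q := by
      refine le_of_pow_le_pow_left₀ (n := 2) two_ne_zero (by positivity) ?_
      rw [mul_pow, hqq, two_proj e1]
      have := (abs_le.1 hrte).2
      linarith
    have h10 : two (spr F t) * two (s - F) ≤ 2 * (r * n) := by
      have h := mul_le_mul h9 hdq hd0 (by positivity)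
      have e : 2 * q * (r * q) = 2 * (r * n) := by rw [← hqq]; ring
      linarith
    linarith

end Pool.Agent.PTH
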