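import Pool.Agent.PTH.DdUni
import Pool.Agent.PTH.DdTri
import Pool.Agent.PTH.AvE

/-!
# PTH / PpRow: the operator `s = ∑ W_j W_j*` of a row (section 9)

`n = r rt q`, `δ = √η ≤ 1`, `D_jl = W_j* W_l - δ_jl q` (so `∑∑ two(D_jl)² = rowDef W q ≤ η n`).
* `rt s = ∑_j two(W_j)² = ∑_j rt(W_j* W_j)`, `D_jj = D_jj q` (`W_j q = W_j`), `|rt D_jj| = |rt (D_jj q)| ≤ two D_jj two q`,
  `two q = √(rt q)`; `|rt s - n| ≤ ∑_j two(D_jj) √(rt q) ≤ √r √(∑ two(D_jj)²) √(rt q) ≤ √(n) √(η n) = δ n`.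
* `rt (s s) = ∑_jl rt (W_j W_j* W_l W_l*) = ∑_jl two(W_j* W_l)²` (cyclicity), `two s ^ 2 = rt (s s)`.  Triangle inequality
  in the `ℓ²` sum of the 2-norms over pairs `(j,l)`: `√(rt (s s)) ≥ √(∑∑ two(δ_jl q)²) - √(rowDef) ≥ √n - δ√n`, so
  `two s ^ 2 ≥ (1-δ)² n ≥ (1-2δ) n`.
* `0 ≤ s ≤ 1`, so `rt (s s) ≤ rt s ≤ (1+δ) n`.
* energy: `a.en s = rt (s s) - ∑ p_i rt (s u_i s u_i*)` and `rt (s u_i s u_i*) = ∑_jl two(W_l* u_i W_j)²`.
  With `E_j = u_i W_j - ∑_m θ_i(m,j) W_m`, `M_i² = ∑_j two(E_j)²` (`∑ p_i M_i² = rowEn a W θ ≤ η n`):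
  `W_l* u_i W_j = θ_i(l,j) q + ∑_m θ_i(m,j) D_lm + W_l* E_j`.  Norms in the `ℓ²` sum over `(j,l)`:
  first term: `∑_jl |θ_i(l,j)|² rt q = n` (columns of a unitary matrix), second: for every `l`,
  `∑_j two(∑_m θ_i(m,j) D_lm)² ≤ ∑_m two(D_lm)²` (`contr_mod` for the transposed matrix; the transpose of a unitary
  matrix is unitary, `Uni.contr`), total `≤ η n`; third: `∑_j ∑_l two(W_l* E_j)² = ∑_j rt (E_j* s E_j) ≤ M_i²` (`s ≤ 1`).
  So `√(rt (s u_i s u_i*)) ≥ √n (1-δ) - M_i`, and `rt (s u_i s u_i*) ≥ (1-δ)² n - 2 √n M_i ≥ (1-2δ) n - 2√n M_i`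
  (if `(1-δ)√n < M_i` the right side is negative).  `∑ p_i M_i ≤ √(∑ p_i M_i²) ≤ √(η n) = δ√n` (`∑ p_i = 1`).
  `a.en s ≤ (1+δ) n - (1-2δ) n + 2 δ n = 5 δ n`.
-/

open Filter Topology
open scoped InnerProductSpace ComplexOrder

namespace Pool.Agent.PTH

variable {A : Type*} [CStarAlgebra A] [PartialOrder A] [StarOrderedRing A] [TracialVN A]

private theorem ppr_mink {κ : Type*} [Fintype κ] (a b : κ → ℝ) :
    Real.sqrt (∑ k, (a k + b k) ^ 2) ≤ Real.sqrt (∑ k, a k ^ 2) + Real.sqrt (∑ k, b k ^ 2) := by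
  have hA : 0 ≤ ∑ k, a k ^ 2 := Finset.sum_nonneg fun k _ => sq_nonneg _
  have hB : 0 ≤ ∑ k, b k ^ 2 := Finset.sum_nonneg fun k _ => sq_nonneg _
  refine Real.sqrt_le_iff.2 ⟨by positivity, ?_⟩
  have h1 := Real.sum_mul_le_sqrt_mul_sqrt Finset.univ a b
  have h2 : ∑ k, (a k + b k) ^ 2 = ∑ k, a k ^ 2 + 2 * ∑ k, a k * b k + ∑ k, b k ^ 2 := by
    rw [Finset.mul_sum, ← Finset.sum_add_distrib, ← Finset.sum_add_distrib]
    exact Finset.sum_congr rfl fun k _ => by ring
  have h3 := Real.sq_sqrt hA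
  have h4 := Real.sq_sqrt hB
  rw [h2]
  nlinarith

/-- The `ℓ²` norm of a matrix of elements. -/
private noncomputable def nn {r : ℕ} (f : Fin r → Fin r → A) : ℝ :=
  Real.sqrt (∑ j, ∑ l, two (f j l) ^ 2)

private theorem nn_nonneg {r : ℕ} (f : Fin r → Fin r → A) : 0 ≤ nn f := Real.sqrt_nonneg _

private theorem nn_sq {r : ℕ} (f : Fin r → Fin r → A) :
    nn f ^ 2 = ∑ j, ∑ l, two (f j l) ^ 2 :=
  Real.sq_sqrt (Finset.sum_nonneg fun j _ => Finset.sum_nonneg fun l _ => sq_nonneg _)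

private theorem nn_add {r : ℕ} (f g : Fin r → Fin r → A) :
    nn (fun j l => f j l + g j l) ≤ nn f + nn g := by
  have h1 := ppr_mink (fun k : Fin r × Fin r => two (f k.1 k.2)) (fun k => two (g k.1 k.2))
  rw [Fintype.sum_prod_type, Fintype.sum_prod_type, Fintype.sum_prod_type] at h1
  refine le_trans ?_ h1
  refine Real.sqrt_le_sqrt ?_
  refine Finset.sum_le_sum fun j _ => Finset.sum_le_sum fun l _ => ?_
  exact pow_le_pow_left₀ (two_nonneg _) (two_add_le _ _) 2

private theorem nn_le_of {r : ℕ} (f g h : Fin r → Fin r → A)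
    (e : ∀ j l, f j l = g j l + h j l) : nn f ≤ nn g + nn h := by
  have h1 : f = fun j l => g j l + h j l := by
    funext j l
    exact e j l
  rw [h1]
  exact nn_add g h

private theorem nn_le_of' {r : ℕ} (f g h : Fin r → Fin r → A)
    (e : ∀ j l, f j l = g j l - h j l) : nn f ≤ nn g + nn h := by
  have h1 : nn (fun j l => -h j l) = nn h := by
    unfold nn
    simp only [two_neg]
  rw [← h1]
  exact nn_le_of f g _ fun j l => by rw [e, sub_eq_add_neg]

private theorem uni_tr {r : ℕ} {θ : Matrix (Fin r) (Fin r) ℂ} (h : Uni θ) :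
    Uni θ.transpose := by
  have h1 : θ * θ.conjTranspose = 1 := mul_eq_one_comm.1 h
  unfold Uni
  have h2 := congrArg Matrix.transpose h1
  rw [Matrix.transpose_mul, Matrix.transpose_one] at h2
  exact h2

private theorem uni_hs {r : ℕ} {θ : Matrix (Fin r) (Fin r) ℂ} (h : Uni θ) :
    ∑ l, ∑ j, ‖θ l j‖ ^ 2 = r := by
  have h1 : ∀ j, ∑ l, ‖θ l j‖ ^ 2 = 1 := by
    intro j
    have h2 := congrFun (congrFun h j) j
    rw [Matrix.mul_apply, Matrix.one_apply_eq] at h2
    have h3 := congrArg Complex.re h2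
    rw [Complex.re_sum, Complex.one_re] at h3
    rw [← h3]
    refine Finset.sum_congr rfl fun l _ => ?_
    rw [Matrix.conjTranspose_apply, Complex.star_def, mul_comm, Complex.mul_conj,
      Complex.ofReal_re, Complex.normSq_eq_norm_sq]
  rw [Finset.sum_comm]
  simp only [h1]
  simp

theorem pp_row (a : Avg A) {r : ℕ} {W : Fin r → A} {θ : a.ι → Matrix (Fin r) (Fin r) ℂ} {q : A}
    {η : ℝ} (hη : 0 ≤ η) (hη1 : η ≤ 1) (hq : Prj q) (hWq : ∀ j, W j * q = W j)
    (hW1 : ∑ j, W j * star (W j) ≤ 1) (hθ : ∀ i, Uni (θ i))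
    (hE : rowEn a W θ ≤ η * (r * rt q)) (hD : rowDef W q ≤ η * (r * rt q)) :
    |rt (∑ j, W j * star (W j)) - r * rt q| ≤ Real.sqrt η * (r * rt q) ∧
      (1 - 2 * Real.sqrt η) * (r * rt q) ≤ two (∑ j, W j * star (W j)) ^ 2 ∧
      a.en (∑ j, W j * star (W j)) ≤ 5 * Real.sqrt η * (r * rt q) := by
  obtain ⟨s, hs⟩ : ∃ s : A, s = ∑ j, W j * star (W j) := ⟨_, rfl⟩
  obtain ⟨δ, hδ⟩ : ∃ δ : ℝ, δ = Real.sqrt η := ⟨_, rfl⟩
  obtain ⟨n, hn⟩ : ∃ n : ℝ, n = r * rt q := ⟨_, rfl⟩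
  have hδ0 : 0 ≤ δ := by rw [hδ]; exact Real.sqrt_nonneg _
  have hδ2 : δ ^ 2 = η := by rw [hδ]; exact Real.sq_sqrt hη
  have hδ1 : δ ≤ 1 := by rw [hδ]; exact Real.sqrt_le_one.2 hη1
  have hq0 : 0 ≤ rt q := rt_nonneg (proj_nonneg hq)
  have hn0 : 0 ≤ n := by rw [hn]; positivity
  have hs0 : 0 ≤ s := by
    rw [hs]
    exact Finset.sum_nonneg fun j _ => mul_star_self_nonneg _
  have hssa : star s = s := (IsSelfAdjoint.of_nonneg hs0).star_eq
  have hs1 : s ≤ 1 := by rw [hs]; exact hW1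
  rw [← hs, ← hδ, ← hn]
  rw [← hn] at hE hD
  obtain ⟨D, hDd⟩ : ∃ D : Fin r → Fin r → A, ∀ j l, D j l =
      star (W j) * W l - if j = l then q else 0 := ⟨_, fun _ _ => rfl⟩
  have hDD : ∑ j, ∑ l, two (D j l) ^ 2 ≤ η * n := by
    refine le_trans (le_of_eq ?_) hD
    unfold rowDef
    exact Finset.sum_congr rfl fun j _ => Finset.sum_congr rfl fun l _ => by rw [hDd]
  have hqD : two q ^ 2 = rt q := two_proj hq
  -- part 1
  have p1 : |rt s - n| ≤ δ * n := by
    have e1 : rt s - n = ∑ j, rt (D j j * q) := by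
      have h1 : ∀ j, rt (D j j * q) = rt (W j * star (W j)) - rt q := by
        intro j
        rw [hDd, if_pos rfl, sub_mul, hq.2, mul_assoc, hWq, rt_sub, rt_comm]
      simp only [h1]
      rw [Finset.sum_sub_distrib, hs, rt_sum, hn]
      simp
    have e2 : |rt s - n| ≤ (∑ j, two (D j j)) * two q := by
      rw [e1, Finset.sum_mul]
      exact (Finset.abs_sum_le_sum_abs _ _).trans
        (Finset.sum_le_sum fun j _ => abs_rt_mul_le _ _)
    have e3 : (∑ j, two (D j j)) ^ 2 ≤ r * (η * n) := by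
      have h1 := sq_sum_le_card_mul_sum_sq (s := (Finset.univ : Finset (Fin r)))
        (f := fun j => two (D j j))
      rw [Finset.card_univ, Fintype.card_fin] at h1
      refine h1.trans (mul_le_mul_of_nonneg_left ?_ (Nat.cast_nonneg _))
      refine le_trans (Finset.sum_le_sum fun j _ => ?_) hDD
      exact Finset.single_le_sum (f := fun l => two (D j l) ^ 2) (fun _ _ => sq_nonneg _)
        (Finset.mem_univ j)
    have e4 : ((∑ j, two (D j j)) * two q) ^ 2 ≤ (δ * n) ^ 2 := by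
      rw [mul_pow, hqD, mul_pow, hδ2]
      have h1 := mul_le_mul_of_nonneg_right e3 hq0
      refine h1.trans (le_of_eq ?_)
      rw [hn]
      ring
    exact e2.trans (le_of_sq_le_sq e4 (by positivity))
  -- two s and the Gram matrix
  have hG : two s ^ 2 = ∑ j, ∑ l, two (star (W j) * W l) ^ 2 := by
    rw [two_sq_rt, hssa]
    nth_rewrite 1 [hs]
    rw [hs, Finset.sum_mul, rt_sum]
    refine Finset.sum_congr rfl fun j _ => ?_
    rw [Finset.mul_sum, rt_sum]
    refine Finset.sum_congr rfl fun l _ => ?_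
    rw [two_sq_rt', star_mul, star_star, mul_assoc, rt_comm]
    simp only [mul_assoc]
  have hnG : two s = nn fun j l => star (W j) * W l := by
    unfold nn
    rw [← hG, Real.sqrt_sq (two_nonneg _)]
  have hnD : nn D ≤ δ * Real.sqrt n := by
    have h1 : nn D ≤ Real.sqrt (η * n) := Real.sqrt_le_sqrt hDD
    rwa [Real.sqrt_mul hη, ← hδ] at h1
  have hnq : nn (fun j l : Fin r => if j = l then q else 0) = Real.sqrt n := by
    unfold nn
    congr 1
    have h1 : ∀ j l : Fin r, two (if j = l then q else 0) ^ 2 = if j = l then rt q else 0 := by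
      intro j l
      split_ifs
      · exact hqD
      · rw [two_zero]
        norm_num
    simp only [h1]
    simp [hn]
  obtain ⟨x, hx⟩ : ∃ x : ℝ, x = Real.sqrt n := ⟨_, rfl⟩
  have hx0 : 0 ≤ x := by rw [hx]; exact Real.sqrt_nonneg _
  have hx2 : x ^ 2 = n := by rw [hx]; exact Real.sq_sqrt hn0
  rw [← hx] at hnD hnq
  have p2 : (1 - 2 * δ) * n ≤ two s ^ 2 := by
    have h1 : x ≤ two s + δ * x := by
      rw [hnG, ← hnq]
      refine (nn_le_of' _ _ D fun j l => ?_).trans (add_le_add_right ?_ _)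
      · rw [hDd]
        abel
      · rw [hnq]
        exact hnD
    have h2 : (1 - δ) * x ≤ two s := by linarith
    have h3 : 0 ≤ (1 - δ) * x := mul_nonneg (by linarith) hx0
    have h4 := pow_le_pow_left₀ h3 h2 2
    rw [mul_pow, hx2] at h4
    nlinarith [mul_nonneg (sq_nonneg δ) hn0]
  refine ⟨p1, p2, ?_⟩
  -- the energy
  obtain ⟨M, hM⟩ : ∃ M : a.ι → ℝ, ∀ i, M i =
      Real.sqrt (∑ j, two (a.u i * W j - ∑ l, θ i l j • W l) ^ 2) := ⟨_, fun _ => rfl⟩
  have hM0 : ∀ i, 0 ≤ M i := fun i => by rw [hM]; exact Real.sqrt_nonneg _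
  have hM2 : ∀ i, M i ^ 2 = ∑ j, two (a.u i * W j - ∑ l, θ i l j • W l) ^ 2 := fun i => by
    rw [hM]
    exact Real.sq_sqrt (Finset.sum_nonneg fun j _ => sq_nonneg _)
  have hMs : ∑ i, a.p i * M i ^ 2 ≤ η * n := by
    refine le_trans (le_of_eq ?_) hE
    unfold rowEn
    exact Finset.sum_congr rfl fun i _ => by rw [hM2]
  have hMl : ∑ i, a.p i * M i ≤ δ * x := by
    have h1 := Real.sum_mul_le_sqrt_mul_sqrt Finset.univ (fun i => Real.sqrt (a.p i))
      (fun i => Real.sqrt (a.p i) * M i)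
    have h2 : ∀ i, Real.sqrt (a.p i) * (Real.sqrt (a.p i) * M i) = a.p i * M i := by
      intro i
      rw [← mul_assoc, Real.mul_self_sqrt (a.p_pos i).le]
    have h3 : ∀ i, Real.sqrt (a.p i) ^ 2 = a.p i := fun i => Real.sq_sqrt (a.p_pos i).le
    simp only [h2, mul_pow, h3] at h1
    rw [a.p_sum, Real.sqrt_one, one_mul] at h1
    refine h1.trans ?_
    have h4 := Real.sqrt_le_sqrt hMs
    rwa [Real.sqrt_mul hη, ← hδ, ← hx] at h4
  have hV : ∀ i, rt (s * (a.u i * s * star (a.u i))) =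
      nn (fun l j => star (W l) * (a.u i * W j)) ^ 2 := by
    intro i
    rw [nn_sq]
    nth_rewrite 1 [hs]
    rw [hs, Finset.sum_mul, rt_sum]
    refine Finset.sum_congr rfl fun l _ => ?_
    rw [Finset.mul_sum, Finset.sum_mul, Finset.mul_sum, rt_sum]
    refine Finset.sum_congr rfl fun j _ => ?_
    rw [two_sq_rt', star_mul, star_star, star_mul, mul_assoc, rt_comm]
    simp only [mul_assoc]
  have hVb : ∀ i, (1 - δ) * x ≤ nn (fun l j => star (W l) * (a.u i * W j)) + M i := by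
    intro i
    obtain ⟨E, hEd⟩ : ∃ E : Fin r → A, ∀ j, E j = a.u i * W j - ∑ l, θ i l j • W l :=
      ⟨_, fun _ => rfl⟩
    have hM2' : M i ^ 2 = ∑ j, two (E j) ^ 2 := by
      rw [hM2]
      exact Finset.sum_congr rfl fun j _ => by rw [hEd]
    -- the three terms
    have t1 : nn (fun l j => θ i l j • q) = x := by
      have h1 : ∑ l, ∑ j, two (θ i l j • q) ^ 2 = n := by
        have h2 : ∀ l j, two (θ i l j • q) ^ 2 = ‖θ i l j‖ ^ 2 * rt q := by
          intro l j
          rw [two_smul', mul_pow, hqD]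
        simp only [h2, ← Finset.sum_mul]
        rw [uni_hs (hθ i), hn]
      unfold nn
      rw [h1, hx]
    have t2 : nn (fun l j => ∑ m, θ i m j • D l m) ≤ δ * x := by
      refine le_trans (Real.sqrt_le_sqrt ?_) hnD
      refine Finset.sum_le_sum fun l _ => ?_
      exact contr_mod (uni_tr (hθ i)).contr fun m => D l m
    have t3 : nn (fun l j => star (W l) * E j) ≤ M i := by
      refine (pow_le_pow_iff_left₀ (nn_nonneg _) (hM0 i) two_ne_zero).1 ?_
      rw [nn_sq, hM2', Finset.sum_comm]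
      refine Finset.sum_le_sum fun j _ => ?_
      have h1 : ∑ l, two (star (W l) * E j) ^ 2 = rt ((E j * star (E j)) * s) := by
        rw [hs, Finset.mul_sum, rt_sum]
        refine Finset.sum_congr rfl fun l _ => ?_
        rw [two_sq_rt', star_mul, star_star, mul_assoc, rt_comm]
        simp only [mul_assoc]
      rw [h1, two_sq_rt']
      have h2 := rt_mul_mono (mul_star_self_nonneg (E j)) hs1
      rwa [mul_one] at h2
    have h1 : nn (fun l j => θ i l j • q) ≤
        nn (fun l j => star (W l) * (a.u i * W j) - star (W l) * E j) +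
          nn (fun l j => ∑ m, θ i m j • D l m) := by
      refine nn_le_of' _ _ _ fun l j => ?_
      have h2 : star (W l) * (a.u i * W j) - star (W l) * E j =
          ∑ m, θ i m j • (star (W l) * W m) := by
        rw [hEd, ← mul_sub, sub_sub_cancel, Finset.mul_sum]
        exact Finset.sum_congr rfl fun m _ => by rw [mul_smul_comm]
      rw [h2, ← Finset.sum_sub_distrib]
      simp only [← smul_sub, hDd, sub_sub_cancel, smul_ite, smul_zero]
      rw [Finset.sum_ite_eq]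
      simp
    have h3 : nn (fun l j => star (W l) * (a.u i * W j) - star (W l) * E j) ≤
        nn (fun l j => star (W l) * (a.u i * W j)) + nn (fun l j => star (W l) * E j) :=
      nn_le_of' _ _ _ fun l j => rfl
    rw [t1] at h1
    linarith
  have hVc : ∀ i, (1 - 2 * δ) * n - 2 * x * M i ≤ rt (s * (a.u i * s * star (a.u i))) := by
    intro i
    rw [hV]
    obtain ⟨y, hy⟩ : ∃ y : ℝ, y = nn (fun l j => star (W l) * (a.u i * W j)) := ⟨_, rfl⟩
    have h1 := hVb i
    rw [← hy] at h1 ⊢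
    have hMi := hM0 i
    have hy0 : 0 ≤ y := by rw [hy]; exact nn_nonneg _
    have hxM := mul_nonneg hx0 hMi
    rcases le_total (M i) ((1 - δ) * x) with h | h
    · have h2 : 0 ≤ (1 - δ) * x - M i := by linarith
      have h3 : (1 - δ) * x - M i ≤ y := by linarith
      have h4 := pow_le_pow_left₀ h2 h3 2
      nlinarith [mul_nonneg hδ0 hxM, sq_nonneg (M i), mul_nonneg (sq_nonneg δ) hn0]
    · have h2 := mul_le_mul_of_nonneg_left h hx0
      nlinarith [sq_nonneg y, mul_nonneg hδ0 hn0]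
  have hen : a.en s = rt (s * s) - ∑ i, a.p i * rt (s * (a.u i * s * star (a.u i))) := by
    rw [a.en_eq, hssa, mul_sub, rt_sub, Avg.T_apply, Finset.mul_sum, rt_sum]
    congr 1
    refine Finset.sum_congr rfl fun i _ => ?_
    rw [mul_smul_comm, Complex.coe_smul, rt_smul]
  have hss : rt (s * s) ≤ (1 + δ) * n := by
    have h1 := rt_mul_mono hs0 hs1
    rw [mul_one] at h1
    have h2 := (abs_le.1 p1).2
    linarith
  have hfin : (1 - 2 * δ) * n - 2 * x * (δ * x) ≤
      ∑ i, a.p i * rt (s * (a.u i * s * star (a.u i))) := by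
    have h1 : ∑ i, a.p i * ((1 - 2 * δ) * n - 2 * x * M i) ≤
        ∑ i, a.p i * rt (s * (a.u i * s * star (a.u i))) :=
      Finset.sum_le_sum fun i _ => mul_le_mul_of_nonneg_left (hVc i) (a.p_pos i).le
    have h2 : ∑ i, a.p i * ((1 - 2 * δ) * n - 2 * x * M i) =
        (1 - 2 * δ) * n - 2 * x * ∑ i, a.p i * M i := by
      simp only [mul_sub]
      rw [Finset.sum_sub_distrib, ← Finset.sum_mul, a.p_sum, one_mul, Finset.mul_sum]
      congr 1
      exact Finset.sum_congr rfl fun i _ => by ring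
    have h3 := mul_le_mul_of_nonneg_left hMl (show 0 ≤ 2 * x by positivity)
    linarith
  rw [hen]
  nlinarith

end Pool.Agent.PTH
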