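import Pool.Agent.PTH.DdHil
import Pool.Agent.PTH.CcI
import Pool.Agent.PTH.AvC
import Pool.Agent.PTH.AvD

/-!
# PTH / PpSm: smoothing under the noisy gap in the zone (section 9)

`B = S.B`, `ξ = S.em x` (auxiliary lemmas should be private).
* `⟨em x, em y⟩ = τ(x* y)` (`Bim.inner_l`, `Bim.l_mul`, `S.inner_Om`), so `‖em x‖² = two x ^ 2`; `em` is linear.
* `B.r y (em x) = B.r y (B.l x Ω) = B.l x (B.r y Ω) = B.l x (B.l y Ω) = em (x y)` (`Bim.l_r`, `S.lr`), so
  `B.T a (em x) = em (a.T x)` (`Bim.T_apply`, `Avg.T_apply`), `(B.T a ^ j) (em x) = em ((a.T ^ j) x)`.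
* `B.en a (em x) = a.en x` (definitions: `B.l u (em x) = em (u x)`, `B.r u (em x) = em (x u)`).
* `em x` has the left density `x x*` and the right density `x* x`: `⟨em x, l z em x⟩ = τ(x* z x) = τ(z (x x*))`,
  `⟨em x, r z em x⟩ = τ(x* x z) = τ(z (x* x))`; so `B.Bdd ξ` and `B.Bdd ((B.T a ^ j) ξ)` (`Bdd_Tp` of AvC).
* `GI` for `(B.T a ^ j) ξ`, `j ≤ k`: by `conv_l` the left term is `≤ Re⟨ξ, l (T^j h) ξ⟩ = rt (x* T^j(h) x) =
  rt (x* (z T^j(h) z) x) ≤ κ1 rt (x* z x) = κ1 two x ^ 2` (`z x = x`, `Prj z`), the right one is the same with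
  `x z = x` (`conv_r`: `rt ((T^j h) x* x)`-type term).  So `H'` of `smooth_en`, `smooth_dist` (DdHil) holds for
  `S := B.T a`, `ν := c`, `E := 2 κ1 two x ^ 2` (`Bim.en_eq` gives the energies, `Bim.T_symm`, `Bim.T_pos`,
  `Bim.norm_T_le` the hypotheses).
* `smooth_en` gives `e(T^k x) ≤ (1-c)^k e(x) + 2κ1/c two x ^ 2`, and `e(x) ≤ two x ^ 2` (`Bim.en_le`).
-/

open Filter Topology
open scoped InnerProductSpace ComplexOrder

universe u

namespace Pool.Agent.PTH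

variable {A : Type u} [CStarAlgebra A] [PartialOrder A] [StarOrderedRing A] [TracialVN A]

section em

variable (S : L2S.{u} A) (a : Avg A)

omit [PartialOrder A] [StarOrderedRing A] in
private theorem pp_l (x y : A) : S.B.l y (S.em x) = S.em (y * x) :=
  (S.B.l_mul y x S.Om).symm

omit [PartialOrder A] [StarOrderedRing A] in
private theorem pp_r (x y : A) : S.B.r y (S.em x) = S.em (x * y) := by
  unfold L2S.em
  rw [← Bim.l_r, ← S.lr, ← Bim.l_mul]

omit [PartialOrder A] [StarOrderedRing A] in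
private theorem pp_inner (x y : A) : ⟪S.em x, S.em y⟫_ℂ = TrAlg.tau (star x * y) := by
  unfold L2S.em
  rw [Bim.inner_l, ← Bim.l_mul, S.inner_Om]

omit [PartialOrder A] [StarOrderedRing A] in
private theorem pp_norm (x : A) : ‖S.em x‖ ^ 2 = two x ^ 2 := by
  rw [two_sq_rt]
  unfold rt
  rw [← pp_inner S]
  exact (inner_self_eq_norm_sq (𝕜 := ℂ) _).symm

omit [PartialOrder A] [StarOrderedRing A] in
private theorem pp_sub (x y : A) : S.em (x - y) = S.em x - S.em y := S.B.l_sub x y S.Om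

omit [PartialOrder A] [StarOrderedRing A] in
private theorem pp_T (x : A) : S.B.T a (S.em x) = S.em (a.T x) := by
  have h3 : S.em (a.T x) = ∑ i, (a.p i : ℂ) • S.em (a.u i * x * star (a.u i)) := by
    unfold L2S.em Bim.l
    rw [Avg.T_apply, map_sum, ContinuousLinearMap.sum_apply]
    refine Finset.sum_congr rfl fun i _ => ?_
    rw [map_smul]
    rfl
  rw [Bim.T_apply, h3]
  refine Finset.sum_congr rfl fun i _ => ?_
  rw [pp_r, pp_l, mul_assoc]

omit [PartialOrder A] [StarOrderedRing A] in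
private theorem pp_Tp (j : ℕ) (x : A) : (S.B.T a ^ j) (S.em x) = S.em ((a.T ^ j) x) := by
  induction j with
  | zero => rfl
  | succ j ih =>
    rw [pow_succ', ContinuousLinearMap.mul_apply, ih, pp_T, pow_succ', Module.End.mul_apply]

omit [PartialOrder A] [StarOrderedRing A] in
private theorem pp_en (x : A) : S.B.en a (S.em x) = a.en x := by
  unfold Bim.en Avg.en
  congr 1
  refine Finset.sum_congr rfl fun i _ => ?_
  rw [pp_l, pp_r, ← pp_sub, pp_norm]

private theorem pp_Bdd (x : A) : S.B.Bdd (S.em x) := by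
  refine ⟨⟨x * star x, mul_star_self_nonneg x, fun z => ?_⟩,
    ⟨star x * x, star_mul_self_nonneg x, fun z => ?_⟩⟩
  · rw [pp_l, pp_inner, TrAlg.tau_comm, mul_assoc]
  · rw [pp_r, pp_inner, ← mul_assoc, TrAlg.tau_comm]

/-- The left noise term in the zone. -/
private theorem pp_left {h z : A} {κ1 : ℝ} {j : ℕ} (hh : 0 ≤ h) (hz : Prj z)
    (hk : z * (a.T ^ j) h * z ≤ κ1 • z) {x : A} (hx : z * x = x) :
    (⟪(S.B.T a ^ j) (S.em x), S.B.l h ((S.B.T a ^ j) (S.em x))⟫_ℂ).re ≤ κ1 * two x ^ 2 := by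
  refine (Bim.conv_l S.B a j h hh (S.em x)).trans ?_
  rw [pp_l, pp_inner]
  have h1 : star x * z = star x := by
    have h2 := congrArg star hx
    rw [star_mul, hz.1] at h2
    exact h2
  have h3 : star x * ((a.T ^ j) h * x) = star x * (z * (a.T ^ j) h * z) * x := by
    have h4 : star x * (z * (a.T ^ j) h * z) * x = (star x * z) * ((a.T ^ j) h * (z * x)) := by
      noncomm_ring
    rw [h4, h1, hx]
  have h5 : star x * (κ1 • z) * x = κ1 • (star x * x) := by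
    rw [mul_smul_comm, smul_mul_assoc, mul_assoc, hx]
  rw [h3]
  have h6 := rt_mono (star_left_conjugate_le_conjugate hk x)
  rw [h5, rt_smul, ← two_sq_rt] at h6
  exact h6

/-- The right noise term in the zone. -/
private theorem pp_right {h z : A} {κ1 : ℝ} {j : ℕ} (hh : 0 ≤ h) (hz : Prj z)
    (hk : z * (a.T ^ j) h * z ≤ κ1 • z) {x : A} (hx : x * z = x) :
    (⟪(S.B.T a ^ j) (S.em x), S.B.r h ((S.B.T a ^ j) (S.em x))⟫_ℂ).re ≤ κ1 * two x ^ 2 := by
  refine (Bim.conv_r S.B a j h hh (S.em x)).trans ?_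
  rw [pp_r, pp_inner]
  have h1 : z * star x = star x := by
    have h2 := congrArg star hx
    rw [star_mul, hz.1] at h2
    exact h2
  have h3 : x * (a.T ^ j) h * star x = x * (z * (a.T ^ j) h * z) * star x := by
    have h4 : x * (z * (a.T ^ j) h * z) * star x = (x * z) * ((a.T ^ j) h * (z * star x)) := by
      noncomm_ring
    rw [h4, h1, hx, mul_assoc]
  have h5 : x * (κ1 • z) * star x = κ1 • (x * star x) := by
    rw [mul_smul_comm, smul_mul_assoc, hx]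
  rw [TrAlg.tau_comm, h3]
  have h6 := rt_mono (star_right_conjugate_le_conjugate hk x)
  rw [h5, rt_smul, ← two_sq_rt'] at h6
  exact h6

end em

theorem pp_smooth (S : L2S.{u} A) (a : Avg A) {h z : A} {c κ1 : ℝ} {k : ℕ} (hc : 0 < c)
    (hc1 : c < 1) (hκ : 0 ≤ κ1) (hh : 0 ≤ h) (hG : GI a h c) (hz : Prj z)
    (hk : ∀ j ≤ k, z * (a.T ^ j) h * z ≤ κ1 • z) {x : A} (hx : z * x = x) (hx' : x * z = x) :
    a.en ((a.T ^ k) x) ≤ ((1 - c) ^ k + 2 * κ1 / c) * two x ^ 2 ∧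
      two (x - (a.T ^ k) x) ^ 2 ≤ 2 / c * a.en x + 4 * k * κ1 / c * two x ^ 2 := by
  have hs : ∀ v w : S.B.H, ⟪S.B.T a v, w⟫_ℂ = ⟪v, S.B.T a w⟫_ℂ := S.B.T_symm a
  have h0 : ∀ v : S.B.H, 0 ≤ (⟪v, S.B.T a v⟫_ℂ).re := S.B.T_pos a
  have h1 : ∀ v : S.B.H, (⟪v, S.B.T a v⟫_ℂ).re ≤ ‖v‖ ^ 2 := by
    intro v
    refine (Complex.re_le_norm _).trans ((norm_inner_le_norm _ _).trans ?_)
    rw [sq]
    exact mul_le_mul_of_nonneg_left (S.B.norm_T_le a v) (norm_nonneg _)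
  have hE : 0 ≤ 2 * (κ1 * two x ^ 2) := by positivity
  have hsucc : ∀ j : ℕ, (S.B.T a ^ (j + 1)) (S.em x) = S.B.T a ((S.B.T a ^ j) (S.em x)) :=
    fun j => by rw [pow_succ']; rfl
  have H' : ∀ j < k, c * (⟪(S.B.T a ^ j) (S.em x), (S.B.T a ^ j) (S.em x) -
      (S.B.T a ^ (j + 1)) (S.em x)⟫_ℂ).re ≤
      ‖(S.B.T a ^ j) (S.em x) - (S.B.T a ^ (j + 1)) (S.em x)‖ ^ 2 + 2 * (κ1 * two x ^ 2) := by
    intro j hj
    have e1 := hG S.B ((S.B.T a ^ j) (S.em x)) (S.B.Bdd_Tp a (pp_Bdd S x) j)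
    have e2 := pp_left S a hh hz (hk j hj.le) hx
    have e3 := pp_right S a hh hz (hk j hj.le) hx'
    rw [Bim.en_eq] at e1
    rw [hsucc]
    linarith
  have e0 : (⟪S.em x, S.em x - S.B.T a (S.em x)⟫_ℂ).re = a.en x := by
    rw [← Bim.en_eq, pp_en]
  have ek : (⟪(S.B.T a ^ k) (S.em x), (S.B.T a ^ k) (S.em x) -
      (S.B.T a ^ (k + 1)) (S.em x)⟫_ℂ).re = a.en ((a.T ^ k) x) := by
    rw [hsucc, ← Bim.en_eq, pp_Tp, pp_en]
  have en_le : a.en x ≤ two x ^ 2 := by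
    rw [← pp_en S a, ← pp_norm S]
    exact S.B.en_le a _
  have f1 := smooth_en (S.B.T a) hs h0 h1 (S.em x) k hc hc1.le hE H'
  have f2 := smooth_dist (S.B.T a) hs h0 h1 (S.em x) k hc hc1.le hE H'
  rw [ek, e0] at f1
  rw [e0, pp_Tp, ← pp_sub, pp_norm] at f2
  have hp : 0 ≤ (1 - c) ^ k := pow_nonneg (sub_nonneg.2 hc1.le) k
  constructor
  · have g1 := mul_le_mul_of_nonneg_left en_le hp
    have g2 : ((1 - c) ^ k + 2 * κ1 / c) * two x ^ 2 =
        (1 - c) ^ k * two x ^ 2 + 2 * (κ1 * two x ^ 2) / c := by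
      field_simp
    rw [g2]
    linarith
  · have g2 : 4 * k * κ1 / c * two x ^ 2 = 2 * k * (2 * (κ1 * two x ^ 2)) / c := by
      field_simp
      ring
    rw [g2]
    exact f2

end Pool.Agent.PTH
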