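import Pool.Agent.PTH.DdUni
import Pool.Agent.PTH.DdTri

/-!
# PTH / PpU: cutting a row by a projection (section 9)

`s = ∑ W_j W_j* ≤ 1`, `f = 1 - e` (a projection).
* `∑ (eW_j)(eW_j)* = e s e ≤ e 1 e = e`.
* `∑_j two (f W_j)² = ∑_j rt (W_j* f W_j) = rt (f s)`.
* `u_i e W_j - ∑_l θ_i(l,j) e W_l = E_ij - u_i f W_j + ∑_l θ_i(l,j) f W_l` with `E_ij = u_i W_j - ∑ θ_i(l,j) W_l`
  (`e = 1 - f`).  `two (x - y + z)² ≤ 2 two x ^ 2 + 4 two y ^ 2 + 4 two z ^ 2`; summed over `j` the second term gives
  `rt (f s)` (`two_unitary_mul`), the third `≤ ∑_l two (f W_l)² = rt (f s)` (`contr_mod` for the transposed matrix,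
  which is again unitary, `Uni.contr`).  Multiply by `p_i` and sum, `∑ p_i = 1`.
* `(eW_j)*(eW_l) - δ_jl q = (W_j* W_l - δ_jl q) - W_j* f W_l`, and
  `∑_jl two (W_j* f W_l)² = ∑_jl rt (W_l* f W_j W_j* f W_l) = rt (f s f s) ≤ rt (f s)` : `f s f ≤ f`
  (`s ≤ 1`, conjugation by `f`), `rt ((f s f) s) ≤ rt (f s)` (`rt_mul_mono'`), `f s f = f s f`, `f f = f`.
-/

open Filter Topology
open scoped InnerProductSpace ComplexOrder

namespace Pool.Agent.PTH

variable {A : Type*} [CStarAlgebra A] [PartialOrder A] [StarOrderedRing A] [TracialVN A]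

private theorem uni_tr {r : ℕ} {θ : Matrix (Fin r) (Fin r) ℂ} (h : Uni θ) : Uni θ.transpose := by
  have h2 : θ * θ.conjTranspose = 1 := mul_eq_one_comm.1 h
  have h3 : (θ * θ.conjTranspose).transpose = 1 := by rw [h2, Matrix.transpose_one]
  rw [Matrix.transpose_mul] at h3
  exact h3

private theorem sq3 {X Y Z t : ℝ} (ht0 : 0 ≤ t)
    (h : t ≤ X + Y + Z) : t ^ 2 ≤ 2 * X ^ 2 + 4 * Y ^ 2 + 4 * Z ^ 2 := by
  have h1 : t ^ 2 ≤ (X + Y + Z) ^ 2 := by gcongr
  nlinarith [sq_nonneg (X - Y - Z), sq_nonneg (Y - Z)]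

private theorem sq2 {X Y t : ℝ} (ht0 : 0 ≤ t)
    (h : t ≤ X + Y) : t ^ 2 ≤ 2 * X ^ 2 + 2 * Y ^ 2 := by
  have h1 : t ^ 2 ≤ (X + Y) ^ 2 := by gcongr
  nlinarith [sq_nonneg (X - Y)]

private theorem prj_compl {e : A} (he : Prj e) : Prj (1 - e) := by
  refine ⟨by rw [star_sub, star_one, he.1], ?_⟩
  have h2 := he.2
  have : (1 - e) * (1 - e) = 1 - e - e + e * e := by noncomm_ring
  rw [this, h2]
  noncomm_ring

private theorem two_f {f : A} (hf : Prj f) (x : A) : two (f * x) ^ 2 = rt (star x * f * x) := by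
  rw [two_sq_rt, star_mul, hf.1]
  congr 1
  calc star x * f * (f * x) = star x * (f * f) * x := by noncomm_ring
    _ = star x * f * x := by rw [hf.2]

private theorem sum_f {r : ℕ} (W : Fin r → A) (f : A) :
    ∑ j, rt (star (W j) * f * W j) = rt (f * ∑ j, W j * star (W j)) := by
  rw [Finset.mul_sum, rt_sum]
  refine Finset.sum_congr rfl fun j _ => ?_
  rw [mul_assoc, rt_comm, mul_assoc]

private theorem csc {r : ℕ} {W : Fin r → A} {e : A} (he : Prj e)
    (hW1 : ∑ j, W j * star (W j) ≤ 1) :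
    ∑ j, e * (W j * star (W j)) * e ≤ e := by
  rw [← Finset.sum_mul, ← Finset.mul_sum]
  have h := star_left_conjugate_le_conjugate hW1 e
  rw [he.1, mul_one, he.2] at h
  exact h

theorem pp_U (a : Avg A) {r : ℕ} {W : Fin r → A} {θ : a.ι → Matrix (Fin r) (Fin r) ℂ}
    {q e : A} (he : Prj e) (hW1 : ∑ j, W j * star (W j) ≤ 1) (hθ : ∀ i, Uni (θ i)) :
    ∑ j, (e * W j) * star (e * W j) ≤ e ∧
      rowEn a (fun j => e * W j) θ ≤
        2 * rowEn a W θ + 8 * rt ((1 - e) * ∑ j, W j * star (W j)) ∧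
      rowDef (fun j => e * W j) q ≤
        2 * rowDef W q + 2 * rt ((1 - e) * ∑ j, W j * star (W j)) := by
  set f : A := 1 - e with hf
  have hfp : Prj f := prj_compl he
  have heW : ∀ x : A, e * x = x - f * x := by
    intro x
    rw [hf]
    noncomm_ring
  have hF : ∑ j, two (f * W j) ^ 2 = rt (f * ∑ j, W j * star (W j)) := by
    rw [← sum_f]
    exact Finset.sum_congr rfl fun j _ => two_f hfp _
  refine ⟨?_, ?_, ?_⟩
  · refine le_of_eq_of_le (Finset.sum_congr rfl fun j _ => ?_) (csc he hW1)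
    rw [star_mul, he.1]
    noncomm_ring
  · have key : ∀ i, ∑ j, two (a.u i * (e * W j) - ∑ l, θ i l j • (e * W l)) ^ 2 ≤
        2 * (∑ j, two (a.u i * W j - ∑ l, θ i l j • W l) ^ 2) +
          8 * rt (f * ∑ j, W j * star (W j)) := by
      intro i
      have h1 : ∀ j, two (a.u i * (e * W j) - ∑ l, θ i l j • (e * W l)) ^ 2 ≤
          2 * two (a.u i * W j - ∑ l, θ i l j • W l) ^ 2 + 4 * two (f * W j) ^ 2 +
            4 * two (∑ l, θ i l j • (f * W l)) ^ 2 := by
        intro j
        refine sq3 (two_nonneg _) ?_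
        have e1 : a.u i * (e * W j) - ∑ l, θ i l j • (e * W l) =
            (a.u i * W j - ∑ l, θ i l j • W l) - a.u i * (f * W j) +
              ∑ l, θ i l j • (f * W l) := by
          simp only [heW, smul_sub, Finset.sum_sub_distrib, mul_sub]
          abel
        rw [e1]
        refine (two_add_le _ _).trans ?_
        refine add_le_add ((two_sub_le _ _).trans ?_) le_rfl
        rw [two_unitary_mul (a.u_star_mul i)]
      have h2 : ∑ j, two (∑ l, θ i l j • (f * W l)) ^ 2 ≤ ∑ j, two (f * W j) ^ 2 :=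
        contr_mod (uni_tr (hθ i)).contr (fun l => f * W l)
      have h3 := Finset.sum_le_sum (s := Finset.univ) fun j _ => h1 j
      rw [Finset.sum_add_distrib, Finset.sum_add_distrib, ← Finset.mul_sum, ← Finset.mul_sum,
        ← Finset.mul_sum] at h3
      rw [← hF]
      linarith
    unfold rowEn
    have h4 := Finset.sum_le_sum (s := Finset.univ) fun i _ =>
      mul_le_mul_of_nonneg_left (key i) (a.p_pos i).le
    refine h4.trans (le_of_eq ?_)
    simp only [mul_add]
    rw [Finset.sum_add_distrib, ← Finset.sum_mul, a.p_sum, one_mul,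
      Finset.mul_sum Finset.univ _ (2 : ℝ)]
    congr 1
    refine Finset.sum_congr rfl fun i _ => ?_
    ring
  · have h1 : ∀ j l, two (star (e * W j) * (e * W l) - if j = l then q else 0) ^ 2 ≤
        2 * two (star (W j) * W l - if j = l then q else 0) ^ 2 +
          2 * two (star (W j) * f * W l) ^ 2 := by
      intro j l
      refine sq2 (two_nonneg _) ?_
      have e1 : star (e * W j) * (e * W l) = star (W j) * W l - star (W j) * f * W l := by
        calc star (e * W j) * (e * W l) = star (W j) * (e * e) * W l := by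
              rw [star_mul, he.1]; noncomm_ring
          _ = star (W j) * W l - star (W j) * f * W l := by
              rw [he.2, hf]; noncomm_ring
      have e2 : (star (e * W j) * (e * W l) - if j = l then q else 0) =
          (star (W j) * W l - if j = l then q else 0) - star (W j) * f * W l := by
        rw [e1]
        abel
      rw [e2]
      exact two_sub_le _ _
    have h2 : ∀ l, ∑ j, two (star (W j) * f * W l) ^ 2 ≤ rt (star (W l) * f * W l) := by
      intro l
      have e3 : ∀ j, two (star (W j) * f * W l) ^ 2 =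
          rt (star (W l) * (f * (W j * star (W j)) * f) * W l) := by
        intro j
        rw [two_sq_rt, star_mul, star_mul, star_star, hfp.1]
        congr 1
        noncomm_ring
      simp only [e3]
      rw [← rt_sum, ← Finset.sum_mul, ← Finset.mul_sum]
      exact rt_mono (star_left_conjugate_le_conjugate (csc hfp hW1) (W l))
    have h3 : ∑ j, ∑ l, two (star (W j) * f * W l) ^ 2 ≤ rt (f * ∑ j, W j * star (W j)) := by
      rw [Finset.sum_comm, ← sum_f]
      exact Finset.sum_le_sum fun l _ => h2 l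
    unfold rowDef
    refine (Finset.sum_le_sum fun j _ => Finset.sum_le_sum fun l _ => h1 j l).trans ?_
    simp only [Finset.sum_add_distrib, ← Finset.mul_sum]
    linarith

end Pool.Agent.PTH
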