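import Pool.Agent.PTH.CcSb
import Pool.Agent.PTH.CcO

/-! # PTH: a coarse almost invariant subspace (section 7 of t517_v2.md) -/

open Filter Topology
open scoped InnerProductSpace ComplexOrder

universe u

namespace Pool.Agent.PTH

/-- THEOREM C. -/
theorem coarse (ν ε7 : ℝ) (hν : 0 < ν) (hν1 : ν ≤ 1) (hε7 : 0 < ε7) :
    ∃ e' > 0, ∃ e1 > 0,
      ∀ (A : Type u) [CStarAlgebra A] [PartialOrder A] [StarOrderedRing A] [TracialVN A]
        (a : Avg A) (Y : A), Prj Y → Y ≠ 0 → HG a Y ν e' → a.en Y ≤ e1 * rt Y → SHaag A →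
        ∃ r ≥ 1, ∃ v : Fin r → A, ON v ∧ (∀ j, Y * v j = v j) ∧ Dv a v ≤ ε7 * r := by
  obtain ⟨e1, r, e', k, hN, hsg⟩ := exists_nums ν (ε7 ^ 2 / 2 ^ 54) hν hν1 (by positivity)
  refine ⟨e', hN.e'0, e1 / 2, half_pos hN.e10, ?_⟩
  intro A _ _ _ _ a Y hY hY0 hg hen hH
  obtain ⟨Θ, F, hK⟩ := exists_KK a hY hH hY hY0 hY.2 hN.e10 hen
  obtain ⟨F', hF', hlt⟩ := exists_good a hN hY hg hK
  refine output a hν hν1 hN.e'0 hsg ?_ hε7 hY hg F' hF' hlt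
  have : 0 < ε7 ^ 2 := by positivity
  norm_num
  linarith

end Pool.Agent.PTH
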