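import Pool.Agent.PTH.DdRow
import Pool.Agent.PTH.DdMin
import Pool.Agent.PTH.DdGapH
import Pool.Agent.PTH.DdTen
import Pool.Agent.PTH.BmD

/-! # PTH: the row under `Y` (section 8 of t517_v2.md)

`ε7 = ν/160000`, `c0 = ε7²/800`; `row_of_gap` gives `ε`, `dd_min` gives `e'` and the family `v` of almost minimal
dimension, `gap_mat` and `gap_ten` the linear gap, `row_of_gap` the row.
-/

open Filter Topology
open scoped InnerProductSpace ComplexOrder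

universe u

namespace Pool.Agent.PTH

/-- THEOREM D. -/
theorem row (ν : ℝ) (hν : 0 < ν) (hν1 : ν ≤ 1) :
    ∃ ε7 > 0, ∀ η' : ℝ, 0 < η' → ∃ e' > 0,
      ∀ (A : Type u) [CStarAlgebra A] [PartialOrder A] [StarOrderedRing A] [TracialVN A]
        (a : Avg A) (Y : A), Prj Y → HG a Y ν e' →
        (∃ r ≥ 1, ∃ v : Fin r → A, ON v ∧ (∀ j, Y * v j = v j) ∧ Dv a v ≤ ε7 * r) →
        ∃ r ≥ 1, ∃ (W : Fin r → A) (θ : a.ι → Matrix (Fin r) (Fin r) ℂ) (q : A),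
          Prj q ∧ q ≠ 0 ∧ (∀ j, Y * W j = W j) ∧ (∀ j, W j * q = W j) ∧
          ∑ j, W j * star (W j) ≤ 1 ∧ (∀ i, Uni (θ i)) ∧
          rowEn a W θ ≤ η' * (r * rt q) ∧ rowDef W q ≤ η' * (r * rt q) := by
  have h7 : 0 < ν / 160000 := by positivity
  refine ⟨ν / 160000, h7, fun η' hη' => ?_⟩
  obtain ⟨ε, hε, H1⟩ := row_of_gap.{u} (c0 := (ν / 160000) ^ 2 / 800) (by positivity) hη'
  obtain ⟨e', he', H2⟩ := dd_min.{u} hν hν1 hε
  refine ⟨e', he', ?_⟩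
  intro A _ _ _ _ a Y hY hG hex
  obtain ⟨K⟩ := exists_CoB (A := A)
  obtain ⟨r, hr, v, hv, hYv, hD, hmin⟩ := H2 A a Y K hY hG hex
  obtain ⟨W, θ, q, h⟩ := H1 A a Y hY r hr v hv hYv hD
    (fun M hM => gap_ten a v (fun x hx => gap_mat a h7 hr hv hYv hmin x hx) M hM)
  exact ⟨r, hr, W, θ, q, h⟩

end Pool.Agent.PTH
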