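import Pool.Agent.PTH.ThmR
import Pool.Agent.PTH.ThmC
import Pool.Agent.PTH.ThmD
import Pool.Agent.PTH.PpSm
import Pool.Agent.PTH.PpRow
import Pool.Agent.PTH.PpLev
import Pool.Agent.PTH.PpU

/-! # PTH: existence of one piece (Theorem P, section 9 of t517_v2.md)

`μ = min η' 1 / 400`, `δ = μ² / (10/c + 1)`, `η = δ²` for Theorem D.  `e' = min` of the constants of Theorems C and D.
`s = ∑ W_j W_j*`, `F = T^k s`, `e = 1_{F > t}`, `U_j = e W_j`.
-/

open Filter Topology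
open scoped InnerProductSpace ComplexOrder

universe u

namespace Pool.Agent.PTH

/-- A piece: projection `e` (energy `≤ σ τ(e)`), row `U` under `e`, matrices `θ_i`, projection `q`. -/
structure IsPiece {A : Type*} [CStarAlgebra A] [TrAlg A] [PartialOrder A] (a : Avg A) (η' σ : ℝ)
    (e : A) {r : ℕ} (U : Fin r → A) (θ : a.ι → Matrix (Fin r) (Fin r) ℂ) (q : A) : Prop where
  prj_e : Prj e
  ne_e : e ≠ 0
  prj_q : Prj q
  one_le : 1 ≤ r
  eU : ∀ j, e * U j = U j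
  Uq : ∀ j, U j * q = U j
  UU : ∑ j, U j * star (U j) ≤ e
  contr : ∀ i, Contr (θ i)
  tr : |(r : ℝ) * rt q - rt e| ≤ η' * rt e
  en : a.en e ≤ σ * rt e
  row : rowEn a U θ ≤ η' * rt e
  dfc : rowDef U q ≤ η' * rt e

theorem HG.mono {A : Type u} [CStarAlgebra A] [TrAlg A] [PartialOrder A] {a : Avg A} {Y : A}
    {ν e' e'' : ℝ} (h : HG a Y ν e') (he : e' ≤ e'') : HG a Y ν e'' := by
  intro B hB ξ h1 h2
  refine (h B hB ξ h1 h2).trans ?_
  have := mul_le_mul_of_nonneg_right he (sq_nonneg ‖ξ‖)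
  linarith

private theorem pw_four {c : ℝ} (hc1 : c < 1) (k : ℕ) :
    ((1 - c) ^ ((k : ℝ) / 4)) ^ 4 = (1 - c) ^ k := by
  have h0 : 0 < 1 - c := by linarith
  rw [← Real.rpow_natCast ((1 - c) ^ ((k : ℝ) / 4)) 4, ← Real.rpow_mul h0.le]
  norm_num

private theorem ex_k1 {c : ℝ} (hc : 0 < c) (hc1 : c < 1) :
    ∃ k1 : ℕ, ∀ k ≥ k1, (1 - c) ^ ((k : ℝ) / 4) ≤ 1 / 30 := by
  have h0 : 0 < 1 - c := by linarith
  obtain ⟨k1, hk1⟩ := exists_pow_lt_of_lt_one (show (0 : ℝ) < (1 / 30) ^ 4 by norm_num)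
    (show 1 - c < 1 by linarith)
  refine ⟨k1, fun k hk => ?_⟩
  have h1 : (1 - c) ^ k ≤ (1 - c) ^ k1 := pow_le_pow_of_le_one h0.le (by linarith) hk
  have h2 : ((1 - c) ^ ((k : ℝ) / 4)) ^ 4 ≤ (1 / 30) ^ 4 := by
    rw [pw_four hc1]
    exact h1.trans hk1.le
  exact le_of_pow_le_pow_left₀ (by norm_num) (by norm_num) h2

section piece

variable {A : Type u} [CStarAlgebra A] [PartialOrder A] [StarOrderedRing A] [TracialVN A]

/-- From a good row in the zone to a piece. -/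
private theorem piece_of_row (S : L2S.{u} A) (a : Avg A) {h z : A} {c κ1 η' μ : ℝ} {k : ℕ}
    (hc : 0 < c) (hc1 : c < 1) (hκ : 0 < κ1) (hμ : 0 < μ) (hμ1 : μ ≤ 1 / 400) (hμη : 400 * μ ≤ η')
    (hh : 0 ≤ h) (hG : GI a h c) (hz : Prj z) (hk : ∀ j ≤ k, z * (a.T ^ j) h * z ≤ κ1 • z)
    (hκ1 : 8 * k * κ1 / c ≤ μ ^ 2 / (10 / c + 1)) (hκ2 : 2 * κ1 / c ≤ (1 - c) ^ k)
    (hg : (1 - c) ^ ((k : ℝ) / 4) ≤ 1 / 30)
    {r : ℕ} (hr : 1 ≤ r) {W : Fin r → A} {θ : a.ι → Matrix (Fin r) (Fin r) ℂ} {q : A}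
    (hq : Prj q) (hq0 : q ≠ 0) (hzW : ∀ j, z * W j = W j) (hWq : ∀ j, W j * q = W j)
    (hW1 : ∑ j, W j * star (W j) ≤ 1) (hθ : ∀ i, Uni (θ i))
    (hE : rowEn a W θ ≤ (μ ^ 2 / (10 / c + 1)) ^ 2 * (r * rt q))
    (hD : rowDef W q ≤ (μ ^ 2 / (10 / c + 1)) ^ 2 * (r * rt q)) :
    ∃ (e : A) (U : Fin r → A), IsPiece a η' ((1 - c) ^ ((k : ℝ) / 4)) e U θ q ∧
      ∀ (y : A) (w : ℝ), 0 ≤ y → 0 ≤ w → z * (a.T ^ k) y * z ≤ w • z →
        rt (y * e) ≤ 20 * w * rt e := by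
  set δ : ℝ := μ ^ 2 / (10 / c + 1) with hδdef
  have hc10 : 10 ≤ 10 / c := by rw [le_div_iff₀ hc]; linarith
  have hδ0 : 0 < δ := by positivity
  have hδμ : δ * (10 / c + 1) = μ ^ 2 := by
    rw [hδdef]
    field_simp
  have hδμ' : δ ≤ μ ^ 2 := by
    rw [← hδμ]
    exact le_mul_of_one_le_right hδ0.le (by linarith)
  have hμμ : μ ^ 2 ≤ μ := pow_le_of_le_one hμ.le (by linarith) two_ne_zero
  have hδ1 : δ ≤ μ := hδμ'.trans hμμ
  set n : ℝ := r * rt q with hn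
  have hr0 : (0 : ℝ) < r := by exact_mod_cast hr
  have hn0 : 0 < n := mul_pos hr0 (rt_proj_pos hq hq0)
  set s : A := ∑ j, W j * star (W j) with hs
  have hs0 : 0 ≤ s := Finset.sum_nonneg fun j _ => mul_star_self_nonneg (W j)
  have hssa : star s = s := (IsSelfAdjoint.of_nonneg hs0).star_eq
  have hzs : z * s = s := by
    rw [hs, Finset.mul_sum]
    exact Finset.sum_congr rfl fun j _ => by rw [← mul_assoc, hzW]
  have hsz : s * z = s := by
    have := congrArg star hzs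
    rwa [star_mul, hssa, hz.1] at this
  have hsq : Real.sqrt (δ ^ 2) = δ := Real.sqrt_sq hδ0.le
  obtain ⟨R1, R2, R3⟩ := pp_row a (η := δ ^ 2) (by positivity)
    (pow_le_one₀ hδ0.le (by linarith)) hq hWq hW1 hθ hE hD
  rw [hsq] at R1 R2 R3
  rw [← hs, ← hn] at R1 R2 R3
  obtain ⟨S1, S2⟩ := pp_smooth S a hc hc1 hκ.le hh hG hz hk hzs hsz
  set F : A := (a.T ^ k) s with hF
  have hF0 : 0 ≤ F := a.Tp_nonneg k hs0
  have hF1 : F ≤ 1 := by
    have := a.Tp_mono k hW1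
    rwa [a.Tp_one] at this
  have hFr : rt F = rt s := by
    rw [rt_def, rt_def, hF, a.tau_Tp]
  have hs2 : two s ^ 2 ≤ rt s := by
    have h1 : two s ^ 2 ≤ 1 * rt s := two_sq_le_of_norm_le hs0
      (by have := CStarAlgebra.norm_le_norm_of_nonneg_of_le hs0 hW1
          exact this.trans norm_one_le')
    linarith
  have hrts := abs_le.1 R1
  have hδn : δ * n ≤ μ * n := mul_le_mul_of_nonneg_right hδ1 hn0.le
  have hμn : μ * n ≤ 1 / 400 * n := mul_le_mul_of_nonneg_right hμ1 hn0.le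
  have hs2n : two s ^ 2 ≤ 401 / 400 * n := by linarith [hrts.2]
  have hdist : two (s - F) ^ 2 ≤ μ ^ 2 * n := by
    have h1 : 2 / c * a.en s ≤ 10 / c * δ * n := by
      have := mul_le_mul_of_nonneg_left R3 (show 0 ≤ 2 / c by positivity)
      calc 2 / c * a.en s ≤ 2 / c * (5 * δ * n) := this
        _ = 10 / c * δ * n := by ring
    have h2 : 4 * k * κ1 / c * two s ^ 2 ≤ δ * n := by
      have h3 : 4 * k * κ1 / c * two s ^ 2 ≤ 4 * k * κ1 / c * (2 * n) :=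
        mul_le_mul_of_nonneg_left (by linarith) (by positivity)
      have h4 : 4 * k * κ1 / c * (2 * n) = 8 * k * κ1 / c * n := by ring
      rw [h4] at h3
      exact h3.trans (mul_le_mul_of_nonneg_right hκ1 hn0.le)
    calc two (s - F) ^ 2 ≤ 2 / c * a.en s + 4 * k * κ1 / c * two s ^ 2 := S2
      _ ≤ 10 / c * δ * n + δ * n := add_le_add h1 h2
      _ = δ * (10 / c + 1) * n := by ring
      _ = μ ^ 2 * n := by rw [hδμ]
  have hsqμ : Real.sqrt (μ ^ 2) = μ := Real.sqrt_sq hμ.le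
  have hc0 : 0 < 1 - c := by linarith
  obtain ⟨t, -, -, he, E1, E2, E3, E4⟩ := pp_lev a (s := s) (F := F) (n := n) (δ := δ)
    (ρ := μ ^ 2) (sig := (1 - c) ^ k + 2 * κ1 / c) hs0 hW1 hF0 hF1 hn0 hδ0.le (by linarith)
    (by positivity) (by rw [hsqμ]; linarith) (by positivity) hFr R1 R2 hdist
    (a.two_Tp_le k s) S1
  rw [hsqμ] at E2 E3
  set e : A := spr F t with hedef
  obtain ⟨U1, U2, U3⟩ := pp_U a (q := q) he hW1 hθ
  rw [← hs] at U2 U3
  have hE2 := abs_le.1 E2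
  have hen : 15 / 16 * n ≤ rt e := by linarith [hE2.1]
  have hen' : n ≤ 16 / 15 * rt e := by linarith
  have he0 : 0 < rt e := by linarith
  have hδ2 : δ ^ 2 ≤ μ := (pow_le_of_le_one hδ0.le (by linarith) two_ne_zero).trans hδ1
  have hE3' : rt ((1 - e) * s) ≤ 26 * μ * n := by linarith [E3]
  have hηe : 400 * μ * rt e ≤ η' * rt e := mul_le_mul_of_nonneg_right hμη he0.le
  have hμe : 0 ≤ μ * rt e := mul_nonneg hμ.le he0.le
  refine ⟨e, fun j => e * W j, ⟨he, ?_, hq, hr, ?_, ?_, U1, fun i => (hθ i).contr, ?_, ?_, ?_, ?_⟩,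
    ?_⟩
  · intro h0
    rw [h0, rt_zero] at he0
    exact lt_irrefl _ he0
  · intro j
    rw [← mul_assoc, he.2]
  · intro j
    rw [mul_assoc, hWq]
  · rw [abs_sub_comm, ← hn]
    refine E2.trans ?_
    have h1 : (13 * δ + 12 * μ) * n ≤ 25 * μ * n := by linarith
    have h2 : 25 * μ * n ≤ 25 * μ * (16 / 15 * rt e) :=
      mul_le_mul_of_nonneg_left hen' (by positivity)
    linarith
  · set g : ℝ := (1 - c) ^ ((k : ℝ) / 4) with hgdef
    have hg0 : 0 < g := Real.rpow_pos_of_pos hc0 _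
    have hg4 : g ^ 4 = (1 - c) ^ k := pw_four hc1 k
    have h1 : Real.sqrt ((1 - c) ^ k + 2 * κ1 / c) ≤ 3 / 2 * g ^ 2 := by
      rw [Real.sqrt_le_left (by positivity)]
      have : (3 / 2 * g ^ 2) ^ 2 = 9 / 4 * (1 - c) ^ k := by rw [← hg4]; ring
      rw [this]
      have h3 : 0 < (1 - c) ^ k := by positivity
      linarith
    have h2 : a.en e ≤ 16 * (3 / 2 * g ^ 2) * n :=
      E1.trans (mul_le_mul_of_nonneg_right (mul_le_mul_of_nonneg_left h1 (by norm_num)) hn0.le)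
    have h3 : 16 * (3 / 2 * g ^ 2) * n ≤ 16 * (3 / 2 * g ^ 2) * (16 / 15 * rt e) :=
      mul_le_mul_of_nonneg_left hen' (by positivity)
    have h4 : 16 * (3 / 2 * g ^ 2) * (16 / 15 * rt e) = (128 / 5 * g) * (g * rt e) := by ring
    have h5 : (128 / 5 * g) * (g * rt e) ≤ 1 * (g * rt e) :=
      mul_le_mul_of_nonneg_right (by linarith) (by positivity)
    linarith
  · refine U2.trans ?_
    have h1 : rowEn a W θ ≤ μ * n := hE.trans (mul_le_mul_of_nonneg_right hδ2 hn0.le)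
    have h2 : 2 * rowEn a W θ + 8 * rt ((1 - e) * s) ≤ 210 * μ * n := by linarith
    have h3 : 210 * μ * n ≤ 210 * μ * (16 / 15 * rt e) :=
      mul_le_mul_of_nonneg_left hen' (by positivity)
    linarith
  · refine U3.trans ?_
    have h1 : rowDef W q ≤ μ * n := hD.trans (mul_le_mul_of_nonneg_right hδ2 hn0.le)
    have h2 : 2 * rowDef W q + 2 * rt ((1 - e) * s) ≤ 54 * μ * n := by linarith
    have h3 : 54 * μ * n ≤ 54 * μ * (16 / 15 * rt e) :=
      mul_le_mul_of_nonneg_left hen' (by positivity)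
    linarith
  · intro y w hy hw hyw
    have h1 : rt (y * (F * F)) ≤ w * two s ^ 2 := by
      have e1 : rt (y * (F * F)) = rt (star F * y * F) := by
        rw [(IsSelfAdjoint.of_nonneg hF0).star_eq, ← mul_assoc, rt_comm, mul_assoc]
      have e2 : rt (star F * y * F) ≤ rt (star s * (a.T ^ k) y * s) := a.conv k y s hy
      have e3 : star s * (a.T ^ k) y * s = star s * (z * (a.T ^ k) y * z) * s := by
        have : star s * (z * (a.T ^ k) y * z) * s = star s * z * (a.T ^ k) y * (z * s) := by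
          noncomm_ring
        rw [this, hzs, hssa, hsz]
      have e4 : rt (star s * (z * (a.T ^ k) y * z) * s) ≤ rt (star s * (w • z) * s) :=
        rt_mono (star_left_conjugate_le_conjugate hyw s)
      have e5 : star s * (w • z) * s = w • (star s * s) := by
        rw [mul_smul_comm, smul_mul_assoc, mul_assoc, hzs]
      rw [e1]
      refine e2.trans ?_
      rw [e3]
      refine e4.trans (le_of_eq ?_)
      rw [e5, rt_smul, two_sq_rt]
    have h2 := E4 y hy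
    have h3 : w * two s ^ 2 ≤ w * (401 / 400 * (16 / 15 * rt e)) := by
      refine mul_le_mul_of_nonneg_left (hs2n.trans ?_) hw
      linarith
    have h4 : 0 ≤ w * rt e := mul_nonneg hw he0.le
    linarith

end piece

/-- THEOREM P. -/
theorem thmP (c ε' η' : ℝ) (hc : 0 < c) (hc1 : c < 1) (hε' : 0 < ε') (hη' : 0 < η') :
    ∃ δb > 0, ∃ k0 : ℕ, ∀ k ≥ k0, ∃ κ1 > (0 : ℝ),
      ∀ (A : Type u) [CStarAlgebra A] [PartialOrder A] [StarOrderedRing A] [TracialVN A]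
        (a : Avg A) (h b : A), SHaag A → 0 ≤ h → GI a h c → 0 ≤ b → b ≤ 1 →
        (∀ i, ‖a.u i * b - b * a.u i‖ ≤ δb) →
        (∀ j ≤ k, (1 - spr b (3 / 4)) * (a.T ^ j) h * (1 - spr b (3 / 4)) ≤
          κ1 • (1 - spr b (3 / 4))) →
        ε' ≤ rt (1 - spr b (1 / 8)) →
        ∃ (e : A) (r : ℕ) (U : Fin r → A) (θ : a.ι → Matrix (Fin r) (Fin r) ℂ) (q : A),
          IsPiece a η' ((1 - c) ^ ((k : ℝ) / 4)) e U θ q ∧
          ∀ (y : A) (w : ℝ), 0 ≤ y → 0 ≤ w →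
            (1 - spr b (3 / 4)) * (a.T ^ k) y * (1 - spr b (3 / 4)) ≤ w • (1 - spr b (3 / 4)) →
            rt (y * e) ≤ 20 * w * rt e := by
  have hν : 0 < c / 64 := by positivity
  have hν1 : c / 64 ≤ 1 := by linarith
  obtain ⟨ε7, hε7, HD⟩ := row.{u} (c / 64) hν hν1
  obtain ⟨eC, heC, e1, he1, HC⟩ := coarse.{u} (c / 64) ε7 hν hν1 hε7
  set μ : ℝ := min η' 1 / 400 with hμdef
  have hμ : 0 < μ := by positivity
  have hμ1 : μ ≤ 1 / 400 := by
    have := min_le_right η' 1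
    rw [hμdef]
    linarith
  have hμη : 400 * μ ≤ η' := by
    have := min_le_left η' 1
    rw [hμdef]
    linarith
  set δ : ℝ := μ ^ 2 / (10 / c + 1) with hδdef
  have hδ0 : 0 < δ := by positivity
  obtain ⟨eD, heD, HD'⟩ := HD (δ ^ 2) (by positivity)
  obtain ⟨δb, hδb, kR, HR⟩ := region.{u} c ε' e1 (min eC eD) hc hc1 hε' he1 (lt_min heC heD)
  obtain ⟨k1, hk1⟩ := ex_k1 hc hc1
  refine ⟨δb, hδb, max kR k1, fun k hk => ?_⟩
  obtain ⟨κR, hκR, HR'⟩ := HR k ((le_max_left _ _).trans hk)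
  have hc0 : 0 < 1 - c := by linarith
  set κ1 : ℝ := min κR (min (c * δ / (8 * (k + 1))) (c * (1 - c) ^ k / 2)) with hκ1def
  have hκ1 : 0 < κ1 := lt_min hκR (lt_min (by positivity) (by positivity))
  refine ⟨κ1, hκ1, ?_⟩
  intro A _ _ _ _ a h b hHaag hh hG hb0 hb1 hcomm hH hε
  set z : A := 1 - spr b (3 / 4) with hz
  have hzp : Prj z := prj_one_sub (spr_prj b (3 / 4))
  obtain ⟨Y, hY, hzY, hY2, hY3, hY4⟩ := HR' A a h b hh hG hb0 hb1 hcomm
    (fun j hj => (hH j hj).trans (by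
      have h1 : κ1 ≤ κR := min_le_left _ _
      rw [← sub_nonneg, ← sub_smul]
      exact smul_nonneg (sub_nonneg.2 h1) (proj_nonneg hzp))) hε
  have hY0 : Y ≠ 0 := by
    intro h0
    rw [h0, rt_zero] at hY2
    linarith
  obtain ⟨r, hr, W, θ, q, hq, hq0, hYW, hWq, hW1, hθ, hE, hD⟩ := HD' A a Y hY
    (hY4.mono (min_le_right _ _)) (HC A a Y hY hY0 (hY4.mono (min_le_left _ _)) hY3 hHaag)
  obtain ⟨S⟩ := exists_L2S (A := A)
  have hzW : ∀ j, z * W j = W j := fun j => by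
    rw [← hYW j, ← mul_assoc, hzY]
  have hκa : 8 * k * κ1 / c ≤ μ ^ 2 / (10 / c + 1) := by
    have h1 : κ1 ≤ c * δ / (8 * (k + 1)) := (min_le_right _ _).trans (min_le_left _ _)
    rw [div_le_iff₀ hc, ← hδdef]
    have h2 : κ1 * (8 * (k + 1)) ≤ c * δ := by rwa [le_div_iff₀ (by positivity)] at h1
    linarith
  have hκb : 2 * κ1 / c ≤ (1 - c) ^ k := by
    have h1 : κ1 ≤ c * (1 - c) ^ k / 2 := (min_le_right _ _).trans (min_le_right _ _)
    rw [div_le_iff₀ hc]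
    linarith
  obtain ⟨e, U, h1, h2⟩ := piece_of_row S a hc hc1 hκ1 hμ hμ1 hμη hh hG hzp hH hκa hκb
    (hk1 k ((le_max_right _ _).trans hk)) hr hq hq0 hzW hWq hW1 hθ hE hD
  exact ⟨e, r, U, θ, q, h1, h2⟩

end Pool.Agent.PTH
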