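import Pool.Agent.PTH.Ex6
import Pool.Agent.PTH.ThmP
import Pool.Agent.PTH.ExP

/-!
# PTH / Ex7: the exhaustion

`params` is in ExP.

`exhaust`.  Let `δb, k0` be given by `thmP c ε' η'`, `l ≥ 1/δb`, `l ≥ 1`, `k` by `params`, `κ1` by
`thmP` for this `k`, `w := s'/20`, `σ := (1-c)^{k/4}`, `δ := 2 sqrt σ`,
`κ := (ε'/32) (1-ρ) (κ1 ρ^k/3) / ((ρ pm)⁻¹)^l`.  The numerical hypothesis `hN` of `limit_b` holds.
STEP (*).  Let `e 0, e 1, …` be projections with `a.en (e i) ≤ σ rt (e i)` (possibly zero) with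
`∑_{i<m} rt (e i) ≤ 1 - 2ε'` for all `m`.  By `d1_prj` `d1 (e i) ≤ 2 (σ rt(e i)²)^{1/2} = δ rt (e i)`.
`limit_b` gives `b`, `thmP` (with `h`, `b`; `‖[u_i,b]‖ ≤ 1/l ≤ δb`) gives a piece `P` and
`rt (y e_P) ≤ 20 w rt (e_P)` whenever `z T^k(y) z ≤ w z`; for `y = S_m`:
`rt (S_m e_P) ≤ 20 w rt (e_P) = s' rt (e_P)`, for all `m`.
GREEDY LEMMA with `X = Pc a η' σ` (nonempty by (*) for `e = 0`), `t P = rt P.e` (`> 0` because
`P.e ≠ 0` is a projection, `≤ 1`), `Al L P := rt ((L.map Pc.e).sum * P.e) ≤ s' * rt P.e`,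
`M := 1 - 2ε'`.  `H`: (*) for `e i = (x i).e`.  `H'`: (*) for `e i = (x i).e` if `i < m` and `0`
otherwise (then `S_n = S_m` for `n ≥ m`, and the sums for `n ≤ m` are `≤` the sum for `m`).
`((List.range j).map x).map Pc.e).sum = ∑ i ∈ range j, (x i).e`.
-/

open Filter Topology
open scoped InnerProductSpace ComplexOrder

universe u

namespace Pool.Agent.PTH

/-- A bundled piece. -/
structure Pc {A : Type u} [CStarAlgebra A] [TrAlg A] [PartialOrder A] (a : Avg A)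
    (η' σ : ℝ) where
  e : A
  r : ℕ
  U : Fin r → A
  θ : a.ι → Matrix (Fin r) (Fin r) ℂ
  q : A
  isPiece : IsPiece a η' σ e U θ q

private theorem sum_map {A : Type u} [CStarAlgebra A] [TrAlg A] [PartialOrder A] {a : Avg A}
    {η' σ : ℝ} (x : ℕ → Pc a η' σ) (m : ℕ) :
    (((List.range m).map x).map Pc.e).sum = ∑ i ∈ Finset.range m, (x i).e := by
  induction m with
  | zero => simp
  | succ m ih =>
    rw [List.range_succ, List.map_append, List.map_append, List.sum_append, ih,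
      Finset.sum_range_succ]
    simp

private theorem step {c pm ε' s' η' : ℝ} (hc : 0 < c) (hc1 : c < 1) (hpm : 0 < pm) (hε' : 0 < ε')
    (hs' : 0 < s') {k l : ℕ} {κ1 δb : ℝ} (hκ1 : 0 < κ1) (hl : 1 ≤ l) (hlb : 1 / (l : ℝ) ≤ δb)
    (hpar : ((((1 - c) ^ ((1 : ℝ) / 32)) * pm)⁻¹) ^ l *
      (3 * ((1 - c) ^ ((1 : ℝ) / 32))⁻¹ ^ k / (s' / 20) *
        (2 * Real.sqrt ((1 - c) ^ ((k : ℝ) / 4)) / (1 - (1 - c) ^ ((1 : ℝ) / 32)) ^ 2)) ≤
      ε' / 32) {A : Type u} [CStarAlgebra A] [PartialOrder A] [StarOrderedRing A] [TracialVN A]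
    (a : Avg A) (h : A) (hp : ∀ i, pm ≤ a.p i) (hh : 0 ≤ h)
    (hκ : ((((1 - c) ^ ((1 : ℝ) / 32)) * pm)⁻¹) ^ l *
      (rt h / ((1 - (1 - c) ^ ((1 : ℝ) / 32)) * (κ1 * ((1 - c) ^ ((1 : ℝ) / 32)) ^ k / 3))) ≤ ε' / 32)
    (hP : ∀ b : A, 0 ≤ b → b ≤ 1 →
        (∀ i, ‖a.u i * b - b * a.u i‖ ≤ δb) →
        (∀ j ≤ k, (1 - spr b (3 / 4)) * (a.T ^ j) h * (1 - spr b (3 / 4)) ≤
          κ1 • (1 - spr b (3 / 4))) →
        ε' ≤ rt (1 - spr b (1 / 8)) →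
        ∃ (e : A) (r : ℕ) (U : Fin r → A) (θ : a.ι → Matrix (Fin r) (Fin r) ℂ) (q : A),
          IsPiece a η' ((1 - c) ^ ((k : ℝ) / 4)) e U θ q ∧
          ∀ (y : A) (w : ℝ), 0 ≤ y → 0 ≤ w →
            (1 - spr b (3 / 4)) * (a.T ^ k) y * (1 - spr b (3 / 4)) ≤ w • (1 - spr b (3 / 4)) →
            rt (y * e) ≤ 20 * w * rt e)
    (e : ℕ → A) (he : ∀ i, Prj (e i))
    (hen : ∀ i, a.en (e i) ≤ (1 - c) ^ ((k : ℝ) / 4) * rt (e i))
    (hsum : ∀ m, ∑ i ∈ Finset.range m, rt (e i) ≤ 1 - 2 * ε') :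
    ∃ P : Pc a η' ((1 - c) ^ ((k : ℝ) / 4)), ∀ m,
      rt ((∑ i ∈ Finset.range m, e i) * P.e) ≤ s' * rt P.e := by
  obtain ⟨σ, hσ⟩ : ∃ σ : ℝ, σ = (1 - c) ^ ((k : ℝ) / 4) := ⟨_, rfl⟩
  obtain ⟨ρ, hρ⟩ : ∃ ρ : ℝ, ρ = (1 - c) ^ ((1 : ℝ) / 32) := ⟨_, rfl⟩
  rw [← hσ] at hpar hP hen ⊢
  rw [← hρ] at hpar hκ
  have hx0 : 0 < 1 - c := by linarith
  have hσ0 : 0 < σ := by rw [hσ]; exact Real.rpow_pos_of_pos hx0 _
  have hρ0 : 0 < ρ := by rw [hρ]; exact Real.rpow_pos_of_pos hx0 _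
  have hρ1 : ρ < 1 := by rw [hρ]; exact Real.rpow_lt_one hx0.le (by linarith) (by norm_num)
  have hw : 0 < s' / 20 := by positivity
  have hd : ∀ i, a.d1 (e i) ≤ 2 * Real.sqrt σ * rt (e i) := by
    intro i
    have h0 : 0 ≤ rt (e i) := rt_nonneg (proj_nonneg (he i))
    refine (d1_prj a (he i)).trans ?_
    rw [mul_assoc]
    refine mul_le_mul_of_nonneg_left ?_ (by norm_num)
    have h1 : a.en (e i) * rt (e i) ≤ σ * (rt (e i)) ^ 2 := by
      have := mul_le_mul_of_nonneg_right (hen i) h0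
      nlinarith
    refine (Real.sqrt_le_sqrt h1).trans ?_
    rw [Real.sqrt_mul hσ0.le, Real.sqrt_sq h0]
  obtain ⟨b, hb0, hb1, hb2, hb3, hb4, hb5⟩ := limit_b (ε' := ε') (w := s' / 20) (k := k) a hρ0 hρ1 hpm
    hp hκ1 hw hl hε' (by positivity) h hh e he hd hsum (by
      rw [mul_add]
      linarith)
  obtain ⟨f, r, U, θ, q, hpc, hy⟩ := hP b hb0 hb1 (fun i => (hb2 i).trans hlb) hb3 hb5
  refine ⟨⟨f, r, U, θ, q, hpc⟩, fun m => ?_⟩
  have h1 := hy (∑ i ∈ Finset.range m, e i) (s' / 20)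
    (Finset.sum_nonneg fun i _ => proj_nonneg (he i)) hw.le (hb4 m)
  calc rt ((∑ i ∈ Finset.range m, e i) * f) ≤ 20 * (s' / 20) * rt f := h1
    _ = s' * rt f := by ring

/-- EXHAUSTION. -/
theorem exhaust (c pm ε' s' η' : ℝ) (hc : 0 < c) (hc1 : c < 1) (hpm : 0 < pm) (hε' : 0 < ε')
    (hε1 : ε' ≤ 1 / 2) (hs' : 0 < s') (hη' : 0 < η') :
    ∃ κ > 0, ∃ σ : ℝ, ∀ (A : Type u) [CStarAlgebra A] [PartialOrder A] [StarOrderedRing A]
      [TracialVN A] (a : Avg A) (h : A), SHaag A → (∀ i, pm ≤ a.p i) → 0 ≤ h → rt h ≤ κ →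
      GI a h c →
      ∃ (m : ℕ) (x : ℕ → Pc a η' σ),
        (∀ j < m, rt ((∑ i ∈ Finset.range j, (x i).e) * (x j).e) ≤ s' * rt (x j).e) ∧
        1 - 2 * ε' < ∑ i ∈ Finset.range m, rt (x i).e ∧
        ∑ i ∈ Finset.range m, rt (x i).e ≤ 2 := by
  obtain ⟨δb, hδb, k0, hk0⟩ := thmP.{u} c ε' η' hc hc1 hε' hη'
  obtain ⟨l, hl, hlb⟩ : ∃ l : ℕ, 1 ≤ l ∧ 1 / (l : ℝ) ≤ δb := by
    obtain ⟨n, hn⟩ := exists_nat_gt (1 / δb)
    refine ⟨n + 1, by omega, ?_⟩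
    rw [div_le_iff₀ (by positivity)]
    rw [div_lt_iff₀ hδb] at hn
    push_cast
    nlinarith
  obtain ⟨k, hk, hpar⟩ := params c pm ε' s' hc hc1 hpm hε' hs' l k0
  obtain ⟨κ1, hκ1, hP⟩ := hk0 k hk
  have hx0 : 0 < 1 - c := by linarith
  obtain ⟨ρ, hρ⟩ : ∃ ρ : ℝ, ρ = (1 - c) ^ ((1 : ℝ) / 32) := ⟨_, rfl⟩
  have hρ0 : 0 < ρ := by rw [hρ]; exact Real.rpow_pos_of_pos hx0 _
  have hρ1 : ρ < 1 := by rw [hρ]; exact Real.rpow_lt_one hx0.le (by linarith) (by norm_num)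
  have h1ρ : 0 < 1 - ρ := by linarith
  refine ⟨(ε' / 32) * ((1 - ρ) * (κ1 * ρ ^ k / 3)) / ((ρ * pm)⁻¹) ^ l, by positivity,
    (1 - c) ^ ((k : ℝ) / 4), ?_⟩
  intro A _ _ _ _ a h hSH hp hh hrt hGI
  have hκ : ((ρ * pm)⁻¹) ^ l * (rt h / ((1 - ρ) * (κ1 * ρ ^ k / 3))) ≤ ε' / 32 := by
    have h1 : 0 < ((ρ * pm)⁻¹) ^ l := by positivity
    have h2 : 0 < (1 - ρ) * (κ1 * ρ ^ k / 3) := by positivity
    rw [le_div_iff₀ h1] at hrt
    rw [← mul_div_assoc, div_le_iff₀ h2]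
    linarith
  rw [hρ] at hκ
  have hstep := fun e he hen hsum => step hc hc1 hpm hε' hs' hκ1 hl hlb hpar a h hp hh hκ
    (fun b hb0 hb1 hb2 hb3 hb4 => hP A a h b hSH hh hGI hb0 hb1 hb2 hb3 hb4) e he hen hsum
  obtain ⟨σ, hσ⟩ : ∃ σ : ℝ, σ = (1 - c) ^ ((k : ℝ) / 4) := ⟨_, rfl⟩
  rw [← hσ] at hstep ⊢
  have hne : Nonempty (Pc a η' σ) := by
    obtain ⟨P, -⟩ := hstep (fun _ => 0) (fun _ => ⟨star_zero _, mul_zero _⟩) (fun _ => by
      simp [Avg.en, two_zero]) (fun m => by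
      simp
      linarith)
    exact ⟨P⟩
  have hM : 0 ≤ 1 - 2 * ε' := by linarith
  obtain ⟨m, x, hx1, hx2, hx3⟩ := greedy (X := Pc a η' σ) (fun P => rt P.e)
    (fun P => rt_proj_pos P.isPiece.prj_e P.isPiece.ne_e)
    (fun P => by
      have := rt_mono (proj_le_one P.isPiece.prj_e)
      rwa [rt_one] at this)
    (fun L P => rt ((L.map Pc.e).sum * P.e) ≤ s' * rt P.e) (1 - 2 * ε') hM
    (by
      intro m x _ hs
      have hval : ∀ n, ∑ i ∈ Finset.range n, rt (if i < m then (x i).e else 0) ≤ 1 - 2 * ε' := by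
        intro n
        refine le_trans ?_ hs
        have e1 : ∀ i, rt (if i < m then (x i).e else 0) = if i < m then rt (x i).e else 0 := by
          intro i
          split_ifs
          · rfl
          · exact rt_zero
        simp only [e1]
        rw [← Finset.sum_filter]
        refine Finset.sum_le_sum_of_subset_of_nonneg (fun i hi => ?_)
          fun i _ _ => rt_nonneg (proj_nonneg (x i).isPiece.prj_e)
        exact Finset.mem_range.2 (Finset.mem_filter.1 hi).2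
      obtain ⟨P, hPm⟩ := hstep (fun i => if i < m then (x i).e else 0)
        (fun i => by
          split_ifs
          · exact (x i).isPiece.prj_e
          · exact ⟨star_zero _, mul_zero _⟩)
        (fun i => by
          split_ifs
          · exact (x i).isPiece.en
          · simp [Avg.en, two_zero]) hval
      refine ⟨P, ?_⟩
      rw [sum_map]
      have h1 := hPm m
      have e2 : ∑ i ∈ Finset.range m, (if i < m then (x i).e else 0) =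
          ∑ i ∈ Finset.range m, (x i).e :=
        Finset.sum_congr rfl fun i hi => if_pos (Finset.mem_range.1 hi)
      rw [e2] at h1
      exact h1)
    (by
      intro x _ hs
      obtain ⟨P, hPm⟩ := hstep (fun i => (x i).e) (fun i => (x i).isPiece.prj_e)
        (fun i => (x i).isPiece.en) hs
      refine ⟨P, fun m => ?_⟩
      rw [sum_map]
      exact hPm m)
  refine ⟨m, x, fun j hj => ?_, hx2, by linarith⟩
  have h1 := hx1 j hj
  rw [sum_map] at h1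
  exact h1

end Pool.Agent.PTH
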