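import Pool.Agent.PTH.Tb1
import Pool.Agent.PTH.Ex2
import Pool.Agent.PTH.ExT

/-!
# PTH / Ex8: polar decomposition of a row

`R : J → A` (finite row), `S = ∑ R_κ R_κ* ≥ 0`.  For `ε > 0` let `h_ε(x) = (x + ε)^{-1/2}` (on
`x ≥ 0`), `H_ε = cfc h_ε S`, `W^ε_κ = H_ε R_κ`.  `∑_κ W^ε_κ (W^ε_κ)* = H_ε S H_ε = cfc (x/(x+ε)) S
= fres ε S ≤ 1`, so `‖W^ε_κ‖ ≤ 1` (`W_κ W_κ* ≤ 1`).  For `0 < ε ≤ δ`, on `x ≥ 0`:
`(h_ε - h_δ)² x ≤ (h_ε² - h_δ²) x = x/(x+ε) - x/(x+δ)` (as `h_ε ≥ h_δ ≥ 0`), so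
`∑_κ two (W^ε_κ - W^δ_κ)² = rt ((H_ε - H_δ)² S) ≤ rt (fres ε S) - rt (fres δ S)`,
and `rt (fres ε S)` increases in `[0,1]` as `ε ↓ 0` (`fres_anti`).  With `ε = 1/(n+1)` the sequences
are 2-norm Cauchy with norms `≤ 1`: `ball_complete` gives `W_κ`, `‖W_κ‖ ≤ 1`,
`two (W^ε_κ - W_κ) → 0`.
* `s := ∑ W_κ W_κ*` is the 2-norm limit of `fres ε S` (products of norm bounded 2-norm convergent
  sequences converge in 2-norm), so `0 ≤ s ≤ 1`.
* `(1 - fres ε S) S = ε S (S+ε)⁻¹ ≤ ε`, so in the limit `(1 - s) S = 0` (norm of the left side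
  `≤ ε`, `norm_le_of_lim` or the 2-norm), so `s S = S`, so `s fres ε S = fres ε S`, limit: `s s = s`:
  `s` is a projection.  `rt ((1-s) R_κ R_κ*) ≤ rt ((1-s) S) = 0`, so `two ((1-s) R_κ) = 0`:
  `s R_κ = R_κ`; `s H_ε R_κ = H_ε s R_κ` (`s` commutes with `S`: `s S = S = S s`) `= H_ε R_κ`; limit
  `s W_κ = W_κ`.
* `CFC.sqrt S * W_κ = R_κ`: `R_κ - S^{1/2} H_ε R_κ = g(S) R_κ`, `g(x) = 1 - (x/(x+ε))^{1/2}`,
  `0 ≤ g ≤ 1`, `g ≤ 1 - x/(x+ε) = ε/(x+ε)`, so
  `∑_κ two (g(S) R_κ)² = rt (g(S)² S) ≤ rt (ε S (S+ε)⁻¹) ≤ ε`.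
* `R_κ x = R_κ`: `W^ε_κ x = W^ε_κ`, limit.
-/

open Filter Topology
open scoped InnerProductSpace ComplexOrder

namespace Pool.Agent.PTH

variable {A : Type*} [CStarAlgebra A] [PartialOrder A] [StarOrderedRing A] [TracialVN A]

namespace Ex8

/-- 2-norm convergence. -/
def T2 (x : ℕ → A) (y : A) : Prop := Tendsto (fun n => two (x n - y)) atTop (𝓝 0)

theorem T2.of_le {x : ℕ → A} {y : A} {f : ℕ → ℝ} (h : ∀ n, two (x n - y) ≤ f n)
    (hf : Tendsto f atTop (𝓝 0)) : T2 x y :=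
  squeeze_zero (fun _ => two_nonneg _) h hf

theorem T2.uniq {x : ℕ → A} {y z : A} (h1 : T2 x y) (h2 : T2 x z) : y = z := by
  have h3 : Tendsto (fun n => two (x n - y) + two (x n - z)) atTop (𝓝 0) := by
    have := Tendsto.add h1 h2
    rwa [add_zero] at this
  have h4 : two (y - z) ≤ 0 := by
    refine ge_of_tendsto' h3 fun n => ?_
    have h5 := two_sub_le_sub y (x n) z
    rw [two_sub_comm y (x n)] at h5
    exact h5
  exact sub_eq_zero.1 (two_eq_zero (le_antisymm h4 (two_nonneg _)))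

theorem T2.cst (y : A) : T2 (fun _ => y) y := by
  unfold T2
  simp only [sub_self, two_zero]
  exact tendsto_const_nhds

theorem T2.mulL {x : ℕ → A} {y : A} (z : A) (h : T2 x y) : T2 (fun n => z * x n) (z * y) := by
  have h' := Tendsto.const_mul ‖z‖ h
  rw [mul_zero] at h'
  refine T2.of_le (fun n => ?_) h'
  rw [← mul_sub]
  exact two_mul_le _ _

theorem T2.mulR {x : ℕ → A} {y : A} (z : A) (h : T2 x y) : T2 (fun n => x n * z) (y * z) := by
  have h' := Tendsto.mul_const ‖z‖ h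
  rw [zero_mul] at h'
  refine T2.of_le (fun n => ?_) h'
  rw [← sub_mul]
  exact two_mul_le' _ _

theorem T2.str {x : ℕ → A} {y : A} (h : T2 x y) : T2 (fun n => star (x n)) (star y) := by
  refine T2.of_le (fun n => ?_) h
  rw [← star_sub, two_star]

theorem T2.mul {x x' : ℕ → A} {y y' : A} {C : ℝ} (hC : ∀ n, ‖x n‖ ≤ C) (h : T2 x y)
    (h' : T2 x' y') : T2 (fun n => x n * x' n) (y * y') := by
  have e1 := Tendsto.const_mul C h'
  have e2 := Tendsto.mul_const ‖y'‖ h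
  have e3 := e1.add e2
  rw [mul_zero, zero_mul, add_zero] at e3
  refine T2.of_le (fun n => ?_) e3
  have e4 : x n * x' n - y * y' = x n * (x' n - y') + (x n - y) * y' := by noncomm_ring
  rw [e4]
  refine (two_add_le _ _).trans (add_le_add ?_ (two_mul_le' _ _))
  exact (two_mul_le _ _).trans (mul_le_mul_of_nonneg_right (hC n) (two_nonneg _))

theorem T2.sum {J : Type*} [Fintype J] {x : J → ℕ → A} {y : J → A} (h : ∀ κ, T2 (x κ) (y κ)) :
    T2 (fun n => ∑ κ, x κ n) (∑ κ, y κ) := by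
  have h' : Tendsto (fun n => ∑ κ, two (x κ n - y κ)) atTop (𝓝 (∑ _κ : J, 0)) :=
    tendsto_finsetSum _ fun κ _ => h κ
  rw [Finset.sum_const_zero] at h'
  refine T2.of_le (fun n => ?_) h'
  rw [← Finset.sum_sub_distrib]
  exact two_sum_le _ _

/-! ### Functional calculus -/

/-- `(ε + S)^{-1/2}` -/
noncomputable def Hc (ε : ℝ) (S : A) : A := cfc (fun x : ℝ => (Real.sqrt (ε + x))⁻¹) S

variable {S : A}

theorem spn (hS : 0 ≤ S) {x : ℝ} (hx : x ∈ spectrum ℝ S) : 0 ≤ x :=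
  spectrum_nonneg_of_nonneg hS hx

theorem contH {ε : ℝ} (hε : 0 < ε) (hS : 0 ≤ S) :
    ContinuousOn (fun x : ℝ => (Real.sqrt (ε + x))⁻¹) (spectrum ℝ S) := by
  refine ContinuousOn.inv₀ ?_ ?_
  · exact (Real.continuous_sqrt.comp (continuous_const.add continuous_id)).continuousOn
  · intro x hx
    have h := spn hS hx
    show Real.sqrt (ε + x) ≠ 0
    exact (Real.sqrt_pos.2 (by positivity)).ne'

theorem contF {ε : ℝ} (hε : 0 < ε) (hS : 0 ≤ S) :
    ContinuousOn (fun x : ℝ => x / (ε + x)) (spectrum ℝ S) := by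
  refine ContinuousOn.div continuousOn_id (continuousOn_const.add continuousOn_id) ?_
  intro x hx
  have h := spn hS hx
  show ε + x ≠ 0
  positivity

theorem Hc_sa (ε : ℝ) (S : A) : IsSelfAdjoint (Hc ε S) := cfc_predicate _ _

theorem conj_cfc (hS : 0 ≤ S) (f : ℝ → ℝ) (hf : ContinuousOn f (spectrum ℝ S)) :
    cfc f S * S * cfc f S = cfc (fun x : ℝ => f x * x * f x) S := by
  have hsa : IsSelfAdjoint S := .of_nonneg hS
  rw [cfc_mul (fun x : ℝ => f x * x) f S (hf.mul continuousOn_id) hf,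
    cfc_mul f (fun x : ℝ => x) S hf continuousOn_id, cfc_id' ℝ S hsa]

theorem HSH {ε : ℝ} (hε : 0 < ε) (hS : 0 ≤ S) : Hc ε S * S * Hc ε S = fres ε S := by
  rw [Hc, conj_cfc hS _ (contH hε hS), fres]
  refine cfc_congr fun x hx => ?_
  have h := spn hS hx
  have h1 : 0 < ε + x := by positivity
  have h2 : Real.sqrt (ε + x) ≠ 0 := (Real.sqrt_pos.2 h1).ne'
  have h3 : Real.sqrt (ε + x) * Real.sqrt (ε + x) = ε + x := Real.mul_self_sqrt h1.le
  show (Real.sqrt (ε + x))⁻¹ * x * (Real.sqrt (ε + x))⁻¹ = x / (ε + x)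
  rw [div_eq_mul_inv]
  nth_rewrite 3 [← h3]
  rw [mul_inv]
  ring

theorem diff_le {ε δ : ℝ} (hε : 0 < ε) (h : ε ≤ δ) (hS : 0 ≤ S) :
    (Hc ε S - Hc δ S) * S * (Hc ε S - Hc δ S) ≤ fres ε S - fres δ S := by
  have hδ : 0 < δ := lt_of_lt_of_le hε h
  have e1 : Hc ε S - Hc δ S = cfc (fun x : ℝ => (Real.sqrt (ε + x))⁻¹ - (Real.sqrt (δ + x))⁻¹) S :=
    (cfc_sub (fun x : ℝ => (Real.sqrt (ε + x))⁻¹) (fun x : ℝ => (Real.sqrt (δ + x))⁻¹) S
      (contH hε hS) (contH hδ hS)).symm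
  have e2 : fres ε S - fres δ S = cfc (fun x : ℝ => x / (ε + x) - x / (δ + x)) S :=
    (cfc_sub (fun x : ℝ => x / (ε + x)) (fun x : ℝ => x / (δ + x)) S
      (contF hε hS) (contF hδ hS)).symm
  have hc : ContinuousOn (fun x : ℝ => (Real.sqrt (ε + x))⁻¹ - (Real.sqrt (δ + x))⁻¹)
      (spectrum ℝ S) := (contH hε hS).sub (contH hδ hS)
  rw [e1, e2, conj_cfc hS _ hc]
  refine cfc_mono (fun x hx => ?_) ((hc.mul continuousOn_id).mul hc)
    ((contF hε hS).sub (contF hδ hS))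
  have hx0 := spn hS hx
  have p1 : 0 < ε + x := by positivity
  have p2 : 0 < δ + x := by positivity
  obtain ⟨a, ha⟩ : ∃ a, a = (Real.sqrt (ε + x))⁻¹ := ⟨_, rfl⟩
  obtain ⟨b, hb⟩ : ∃ b, b = (Real.sqrt (δ + x))⁻¹ := ⟨_, rfl⟩
  have ha2 : a * a = (ε + x)⁻¹ := by
    rw [ha, ← mul_inv, Real.mul_self_sqrt p1.le]
  have hb2 : b * b = (δ + x)⁻¹ := by
    rw [hb, ← mul_inv, Real.mul_self_sqrt p2.le]
  have hb0 : 0 ≤ b := by rw [hb]; positivity
  have hab : b ≤ a := by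
    rw [ha, hb]
    exact inv_anti₀ (Real.sqrt_pos.2 p1) (Real.sqrt_le_sqrt (by linarith))
  rw [← ha, ← hb, div_eq_mul_inv, div_eq_mul_inv, ← ha2, ← hb2]
  have h5 : 0 ≤ x * (b * (a - b)) := mul_nonneg hx0 (mul_nonneg hb0 (sub_nonneg.2 hab))
  nlinarith

theorem sqrtH_le {ε : ℝ} (hε : 0 < ε) (hS : 0 ≤ S) :
    star (1 - CFC.sqrt S * Hc ε S) = 1 - CFC.sqrt S * Hc ε S ∧
    (1 - CFC.sqrt S * Hc ε S) * S * (1 - CFC.sqrt S * Hc ε S) ≤ ε • (1 : A) := by
  have hsa : IsSelfAdjoint S := .of_nonneg hS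
  have cs : ContinuousOn Real.sqrt (spectrum ℝ S) := Real.continuous_sqrt.continuousOn
  have cg : ContinuousOn (fun x : ℝ => Real.sqrt x * (Real.sqrt (ε + x))⁻¹) (spectrum ℝ S) :=
    cs.mul (contH hε hS)
  have e1 : CFC.sqrt S = cfc Real.sqrt S := by
    rw [CFC.sqrt_eq_real_sqrt S hS, cfcₙ_eq_cfc]
  have e2 : 1 - CFC.sqrt S * Hc ε S =
      cfc (fun x : ℝ => 1 - Real.sqrt x * (Real.sqrt (ε + x))⁻¹) S := by
    rw [cfc_sub (fun _ : ℝ => (1 : ℝ)) (fun x : ℝ => Real.sqrt x * (Real.sqrt (ε + x))⁻¹) S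
      continuousOn_const cg, cfc_const_one ℝ S hsa,
      cfc_mul Real.sqrt (fun x : ℝ => (Real.sqrt (ε + x))⁻¹) S cs (contH hε hS), e1, Hc]
  have c1 : ContinuousOn (fun x : ℝ => 1 - Real.sqrt x * (Real.sqrt (ε + x))⁻¹) (spectrum ℝ S) :=
    continuousOn_const.sub cg
  rw [e2]
  refine ⟨(cfc_predicate _ _ : IsSelfAdjoint _), ?_⟩
  rw [conj_cfc hS _ c1]
  refine (cfc_le_algebraMap _ ε S (fun x hx => ?_) ((c1.mul continuousOn_id).mul c1) hsa).trans
    (le_of_eq (Algebra.algebraMap_eq_smul_one ε))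
  have hx0 := spn hS hx
  have p1 : 0 < ε + x := by positivity
  obtain ⟨a, ha⟩ : ∃ a, a = Real.sqrt x * (Real.sqrt (ε + x))⁻¹ := ⟨_, rfl⟩
  have ha2 : a * a * (ε + x) = x := by
    have h1 := Real.mul_self_sqrt p1.le
    have h2 := Real.mul_self_sqrt hx0
    have h3 : Real.sqrt (ε + x) ≠ 0 := (Real.sqrt_pos.2 p1).ne'
    rw [ha]
    field_simp
    nlinarith
  have ha0 : 0 ≤ a := by rw [ha]; positivity
  have ha1 : a ≤ 1 := by
    by_contra hc
    push Not at hc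
    have h1 : 1 < a * a := by nlinarith
    nlinarith
  show (1 - Real.sqrt x * (Real.sqrt (ε + x))⁻¹) * x * (1 - Real.sqrt x * (Real.sqrt (ε + x))⁻¹) ≤ ε
  rw [← ha]
  have h5 : 0 ≤ (1 - a) * ((1 + a) * ε + 2 * a * x) :=
    mul_nonneg (sub_nonneg.2 ha1) (by positivity)
  have h6 : (1 - a * a) * (ε + x) = ε := by linear_combination -ha2
  nlinarith

/-- `(1 - fres ε S) S = ε fres ε S`. -/
theorem one_sub_fres_mul {ε : ℝ} (hε : 0 < ε) (hS : 0 ≤ S) :
    S * (1 - fres ε S) = ε • fres ε S := by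
  have h := mul_fres hε hS
  rw [add_mul, smul_mul_assoc, one_mul] at h
  rw [mul_sub, mul_one]
  nth_rewrite 1 [← h]
  abel

end Ex8

theorem row_polar {J : Type*} [Fintype J] (R : J → A) :
    ∃ W : J → A, Prj (∑ κ, W κ * star (W κ)) ∧
      (∀ κ, (∑ μ, W μ * star (W μ)) * W κ = W κ) ∧
      (∀ κ, (∑ μ, W μ * star (W μ)) * R κ = R κ) ∧
      (∀ κ, CFC.sqrt (∑ μ, R μ * star (R μ)) * W κ = R κ) ∧
      (∀ κ (x : A), R κ * x = R κ → W κ * x = W κ) := by
  obtain ⟨S, hSdef⟩ : ∃ S : A, S = ∑ μ, R μ * star (R μ) := ⟨_, rfl⟩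
  have hS : 0 ≤ S := by
    rw [hSdef]
    exact Finset.sum_nonneg fun μ _ => mul_star_self_nonneg _
  rw [← hSdef]
  -- the parameters
  obtain ⟨ε, hεdef⟩ : ∃ ε : ℕ → ℝ, ε = fun n : ℕ => 1 / ((n : ℝ) + 1) := ⟨_, rfl⟩
  have hε : ∀ n, 0 < ε n := by
    intro n
    rw [hεdef]
    positivity
  have hεlim : Tendsto ε atTop (𝓝 0) := by
    rw [hεdef]
    exact tendsto_one_div_add_atTop_nhds_zero_nat
  have hεanti : ∀ {m n : ℕ}, m ≤ n → ε n ≤ ε m := by
    intro m n h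
    rw [hεdef]
    have : (m : ℝ) ≤ n := by exact_mod_cast h
    exact one_div_le_one_div_of_le (by positivity) (by linarith)
  obtain ⟨F, hF⟩ : ∃ F : ℕ → A, ∀ n, F n = fres (ε n) S := ⟨_, fun _ => rfl⟩
  obtain ⟨H, hH⟩ : ∃ H : ℕ → A, ∀ n, H n = Ex8.Hc (ε n) S := ⟨_, fun _ => rfl⟩
  have Hsa : ∀ n, star (H n) = H n := fun n => by rw [hH]; exact Ex8.Hc_sa _ _
  have F0 : ∀ n, 0 ≤ F n := fun n => by rw [hF]; exact fres_nonneg (hε n) hS
  have F1 : ∀ n, F n ≤ 1 := fun n => by rw [hF]; exact fres_le_one (hε n) hS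
  have Fm : Monotone F := fun m n h => by rw [hF, hF]; exact fres_anti (hε n) (hεanti h) hS
  -- conjugation of the sum of rows
  have key : ∀ (K : A), star K = K → ∑ κ, (K * R κ) * star (K * R κ) = K * S * K := by
    intro K hK
    rw [hSdef, Finset.mul_sum, Finset.sum_mul]
    refine Finset.sum_congr rfl fun κ _ => ?_
    rw [star_mul, hK]
    simp only [mul_assoc]
  have key2 : ∀ (K : A), star K = K → ∑ κ, two (K * R κ) ^ 2 = rt (K * S * K) := by
    intro K hK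
    rw [← key K hK, rt_sum]
    exact Finset.sum_congr rfl fun κ _ => two_sq_rt' _
  have hW1 : ∀ κ n, ‖H n * R κ‖ ≤ 1 := by
    intro κ n
    have h1 : (H n * R κ) * star (H n * R κ) ≤ 1 := by
      refine le_trans ?_ (F1 n)
      rw [hF, ← Ex8.HSH (hε n) hS, ← hH, ← key (H n) (Hsa n)]
      exact Finset.single_le_sum (f := fun κ => (H n * R κ) * star (H n * R κ))
        (fun μ _ => mul_star_self_nonneg _) (Finset.mem_univ κ)
    have h2 : ‖(H n * R κ) * star (H n * R κ)‖ ≤ 1 :=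
      (CStarAlgebra.norm_le_one_iff_of_nonneg _ (mul_star_self_nonneg _)).2 h1
    rw [CStarRing.norm_self_mul_star] at h2
    nlinarith [norm_nonneg (H n * R κ)]
  -- Cauchy
  have hcau : ∀ κ (m n : ℕ), m ≤ n → two (H n * R κ - H m * R κ) ^ 2 ≤ rt (F n) - rt (F m) := by
    intro κ m n h
    have h1 : star (H n - H m) = H n - H m := by rw [star_sub, Hsa, Hsa]
    have h2 := key2 (H n - H m) h1
    have h3 : rt ((H n - H m) * S * (H n - H m)) ≤ rt (F n) - rt (F m) := by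
      rw [← rt_sub, hF, hF, hH, hH]
      exact rt_mono (Ex8.diff_le (hε n) (hεanti h) hS)
    have h4 : two ((H n - H m) * R κ) ^ 2 ≤ ∑ κ, two ((H n - H m) * R κ) ^ 2 :=
      Finset.single_le_sum (f := fun κ => two ((H n - H m) * R κ) ^ 2)
        (fun μ _ => sq_nonneg _) (Finset.mem_univ κ)
    rw [← sub_mul]
    linarith
  have hrt : Monotone fun n => rt (F n) := fun m n h => rt_mono (Fm h)
  have hrt1 : ∀ n, rt (F n) ≤ 1 := fun n => by
    have := rt_mono (F1 n)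
    rwa [rt_one] at this
  have hcs : CauchySeq fun n => rt (F n) := by
    have h1 := tendsto_atTop_ciSup hrt ⟨1, by rintro _ ⟨n, rfl⟩; exact hrt1 n⟩
    exact h1.cauchySeq
  have hlim : ∀ κ, ∃ y : A, ‖y‖ ≤ 1 ∧ Ex8.T2 (fun n => H n * R κ) y := by
    intro κ
    refine TracialVN.ball_complete (fun n => H n * R κ) (hW1 κ) fun δ hδ => ?_
    obtain ⟨k, hk⟩ := Metric.cauchySeq_iff.1 hcs (δ ^ 2) (by positivity)
    have hcase : ∀ m ≥ k, ∀ n ≥ k, m ≤ n → two (H n * R κ - H m * R κ) ≤ δ := by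
      intro m hm n hn h
      have h1 := hcau κ m n h
      have h2 := hk n hn m hm
      rw [Real.dist_eq] at h2
      have h3 := le_abs_self (rt (F n) - rt (F m))
      have h4 : two (H n * R κ - H m * R κ) ^ 2 ≤ δ ^ 2 := by linarith
      exact (pow_le_pow_iff_left₀ (two_nonneg _) hδ.le two_ne_zero).1 h4
    refine ⟨k, fun m hm n hn => ?_⟩
    rcases le_total m n with h | h
    · rw [two_sub_comm]
      exact hcase m hm n hn h
    · exact hcase n hn m hm h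
  choose W hWn hWlim using hlim
  obtain ⟨s, hs⟩ : ∃ s : A, s = ∑ μ, W μ * star (W μ) := ⟨_, rfl⟩
  have hssa : star s = s := by
    rw [hs, star_sum]
    exact Finset.sum_congr rfl fun μ _ => by rw [star_mul, star_star]
  -- `F n → s`
  have hFs : Ex8.T2 F s := by
    have h1 : Ex8.T2 (fun n => ∑ κ, (H n * R κ) * star (H n * R κ)) (∑ κ, W κ * star (W κ)) :=
      Ex8.T2.sum fun κ => Ex8.T2.mul (hW1 κ) (hWlim κ) (hWlim κ).str
    rw [← hs] at h1
    have h2 : (fun n => ∑ κ, (H n * R κ) * star (H n * R κ)) = F := by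
      funext n
      rw [key (H n) (Hsa n), hF, hH, Ex8.HSH (hε n) hS]
    rwa [h2] at h1
  -- `S (1 - s) = 0`
  have hSs : S * (1 - s) = 0 := by
    have h1 : Ex8.T2 (fun n => S * (1 - F n)) (S * (1 - s)) := by
      refine Ex8.T2.mulL S ?_
      refine Ex8.T2.of_le (fun n => ?_) hFs
      rw [two_sub_comm]
      exact le_of_eq (by congr 1; abel)
    refine Ex8.T2.uniq h1 (Ex8.T2.of_le (fun n => ?_) hεlim)
    rw [sub_zero, hF, Ex8.one_sub_fres_mul (hε n) hS, two_smul_real, abs_of_pos (hε n), ← hF]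
    have h2 : two (F n) ≤ 1 :=
      (two_le_norm _).trans ((CStarAlgebra.norm_le_one_iff_of_nonneg _ (F0 n)).2 (F1 n))
    nlinarith [hε n, two_nonneg (F n)]
  have hFn : ∀ n, F n * (1 - s) = 0 := by
    intro n
    -- `F (ε + S) = S`, `ε F (1-s) = S(1-s) - F S (1-s) = 0`
    have h1 : (ε n • (1 : A) + S) * F n = S := by rw [hF]; exact mul_fres (hε n) hS
    have h2 : F n * (ε n • (1 : A) + S) = S := by
      have h3 := congrArg star h1
      have hFsa : star (F n) = F n := (IsSelfAdjoint.of_nonneg (F0 n)).star_eq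
      have hSsa : star S = S := (IsSelfAdjoint.of_nonneg hS).star_eq
      rw [star_mul, star_add, star_smul, star_one, hSsa, hFsa] at h3
      simpa using h3
    have h4 : F n * (ε n • (1 : A) + S) * (1 - s) = 0 := by rw [h2, hSs]
    rw [mul_add, add_mul, mul_assoc (F n) S, hSs, mul_zero, add_zero, mul_smul_comm, mul_one,
      smul_mul_assoc] at h4
    exact (smul_eq_zero.1 h4).resolve_left (hε n).ne'
  have hss : s * (1 - s) = 0 := by
    have h1 := Ex8.T2.mulR (1 - s) hFs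
    refine Ex8.T2.uniq h1 ?_
    have h2 : (fun n => F n * (1 - s)) = fun _ => (0 : A) := by
      funext n
      exact hFn n
    rw [h2]
    exact Ex8.T2.cst 0
  have hss' : s * s = s := by
    rw [mul_sub, mul_one] at hss
    exact (sub_eq_zero.1 hss).symm
  have h1s : star (1 - s) = 1 - s := by rw [star_sub, star_one, hssa]
  -- `(1-s) x = 0` for the members of the rows
  have kill : ∀ (V : J → A), (∑ μ, V μ * star (V μ)) * (1 - s) = 0 → ∀ κ, s * V κ = V κ := by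
    intro V hV κ
    have h1 : ∑ κ, two ((1 - s) * V κ) ^ 2 = 0 := by
      have h2 : ∑ κ, two ((1 - s) * V κ) ^ 2 =
          rt ((1 - s) * ((∑ μ, V μ * star (V μ)) * (1 - s))) := by
        rw [Finset.sum_mul, Finset.mul_sum, rt_sum]
        refine Finset.sum_congr rfl fun κ _ => ?_
        rw [two_sq_rt', star_mul, h1s]
        simp only [mul_assoc]
      rw [h2, hV, mul_zero, rt_zero]
    have h3 := (Finset.sum_eq_zero_iff_of_nonneg fun κ _ => sq_nonneg _).1 h1 κ (Finset.mem_univ κ)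
    have h4 : two ((1 - s) * V κ) = 0 := pow_eq_zero_iff (two_ne_zero) |>.1 h3
    have h5 := two_eq_zero h4
    rw [sub_mul, one_mul] at h5
    exact (sub_eq_zero.1 h5).symm
  refine ⟨W, ?_, ?_, ?_, ?_, ?_⟩
  · rw [← hs]
    exact ⟨hssa, hss'⟩
  · rw [← hs]
    exact kill W (by rw [← hs]; exact hss)
  · rw [← hs]
    exact kill R (by rw [← hSdef]; exact hSs)
  · intro κ
    have h1 : Ex8.T2 (fun n => CFC.sqrt S * (H n * R κ)) (CFC.sqrt S * W κ) :=
      Ex8.T2.mulL _ (hWlim κ)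
    refine Ex8.T2.uniq h1 ?_
    have hb : ∀ n, two (CFC.sqrt S * (H n * R κ) - R κ) ≤ Real.sqrt (ε n) := by
      intro n
      obtain ⟨hk1, hk2⟩ := Ex8.sqrtH_le (hε n) hS
      rw [← hH] at hk1 hk2
      have h2 := key2 _ hk1
      have h3 := rt_mono hk2
      rw [rt_smul, rt_one, mul_one] at h3
      have h4 : two ((1 - CFC.sqrt S * H n) * R κ) ^ 2 ≤
          ∑ κ, two ((1 - CFC.sqrt S * H n) * R κ) ^ 2 :=
        Finset.single_le_sum (f := fun κ => two ((1 - CFC.sqrt S * H n) * R κ) ^ 2)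
          (fun μ _ => sq_nonneg _) (Finset.mem_univ κ)
      have h5 : CFC.sqrt S * (H n * R κ) - R κ = -((1 - CFC.sqrt S * H n) * R κ) := by
        noncomm_ring
      rw [h5, two_neg]
      exact Real.le_sqrt_of_sq_le (by linarith)
    refine Ex8.T2.of_le hb ?_
    have h6 := (Real.continuous_sqrt.tendsto 0).comp hεlim
    rwa [Real.sqrt_zero] at h6
  · intro κ x hx
    have h1 := Ex8.T2.mulR x (hWlim κ)
    have h2 : (fun n => H n * R κ * x) = fun n => H n * R κ := by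
      funext n
      rw [mul_assoc, hx]
    rw [h2] at h1
    exact Ex8.T2.uniq h1 (hWlim κ)

end Pool.Agent.PTH
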