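import Pool.Agent.PTH.Wgt
import Pool.Agent.PSQ.Hit

/-!
# PTH / Fin: final assembly (compare `Pool/Agent/PSK/Fin.lean`)

`weights_ge` + `PSQ.hitting` (`S = {N ≥ N0 : no prime in JH N h}`, `K j = C1 (j+1)`, `R j = RP j`).  `E = ⋃ M j`
(primes), `F = range (N0 + 2)`, `x0 = N0 + 1`.  For `x ≥ 117`, `N = ⌊x⌋`: if `N < N0`: `n = N + 1`,
`q = n.minFac`, `m = n/q ≤ N0`.  If `N ≥ N0` and there is a prime `q` in `JH N h`: `m = 1`.  Otherwise
`p ∈ AP δ N ∩ M j`, `n = p q`, `p < q`.  Elements of `JH N h` lie in `(x, x + x^(1/2-δ))`.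
-/

set_option autoImplicit false

namespace Pool.Agent.PTH

open Finset

private lemma mem_JJ_real {δ : ℝ} (hδ : 0 < δ) (hδ1 : δ ≤ 1 / 100000) {N n : ℕ} {x : ℝ}
    (hx : 1 ≤ x) (hN : N = ⌊x⌋₊) (hn : n ∈ PSK.JH N (hd δ N)) :
    x < n ∧ (n : ℝ) < x + x ^ (1 / 2 - δ) := by
  rw [PSK.mem_JH] at hn
  have h1 : x < N + 1 := by rw [hN]; exact Nat.lt_floor_add_one x
  have h2 : (N : ℝ) ≤ x := by rw [hN]; exact Nat.floor_le (by linarith)
  have h3 : ((N + 1 : ℕ) : ℝ) ≤ n := by exact_mod_cast hn.1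
  have h4 : (n : ℝ) < ((N + hd δ N : ℕ) : ℝ) := by exact_mod_cast hn.2
  push_cast at h3 h4
  have h5 : (hd δ N : ℝ) ≤ x ^ (1 / 2 - δ) := by
    unfold hd
    refine (Nat.floor_le (by positivity)).trans ?_
    exact Real.rpow_le_rpow (Nat.cast_nonneg _) h2 (by linarith)
  constructor <;> linarith

theorem main : ∃ (E : Set ℕ) (F : Finset ℕ) (δ C x0 : ℝ), 0 < δ ∧ (∀ p ∈ E, p.Prime) ∧
    (∀ y : ℝ, 2 ≤ y → {p : ℕ | p ∈ E ∧ (p : ℝ) ≤ y}.Finite ∧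
      ({p : ℕ | p ∈ E ∧ (p : ℝ) ≤ y}.ncard : ℝ) ≤ C * Real.log y ^ 2) ∧
    ∀ x : ℝ, 117 ≤ x → ∃ n m q : ℕ, x < n ∧ (n : ℝ) < x + x ^ (1 / 2 - δ) ∧
      n = m * q ∧ q.Prime ∧ (m = 1 ∨ m ∈ E ∨ m ∈ F) ∧
      (x0 ≤ x → (m = 1 ∨ m ∈ E) ∧ m < q) := by
  obtain ⟨δ, B1, N0, hδ, hδ1, hB1, hN0, hw⟩ := weights_ge
  obtain ⟨C, hC, h1⟩ := countE B1
  obtain ⟨M, hM, hhit⟩ := PSQ.hitting RP RP_nonempty (fun j => B1 * (j + 1))
    {N : ℕ | N0 ≤ N ∧ ∀ q ∈ PSK.JH N (hd δ N), ¬ q.Prime} (fun N hN => hN0.trans hN.1)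
    (AP δ) (fun N => Nat.log 2 (hd δ N) + 1)
    (fun N hN => hw N hN.1 hN.2)
  refine ⟨{p | ∃ j, p ∈ M j}, range (N0 + 2), δ, C, N0 + 1, hδ, ?_, ?_, ?_⟩
  · rintro p ⟨j, hj⟩
    have := (hM j).1 hj
    rw [RP, mem_filter] at this
    exact this.2
  · intro y hy
    exact h1 M hM y hy
  · intro x hx
    have hx1 : 1 ≤ x := by linarith
    set N := ⌊x⌋₊ with hN
    have hN117 : 117 ≤ N := Nat.le_floor (by exact_mod_cast hx)
    have hxN : (N : ℝ) ≤ x := by rw [hN]; exact Nat.floor_le (by linarith)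
    have hxN' : x < N + 1 := by rw [hN]; exact Nat.lt_floor_add_one x
    rcases lt_or_ge N N0 with hlt | hge
    · -- small N
      have hn1 : N + 1 ≠ 1 := by omega
      refine ⟨N + 1, (N + 1) / (N + 1).minFac, (N + 1).minFac, ?_, ?_, ?_,
        Nat.minFac_prime hn1, ?_, ?_⟩
      · push_cast
        exact hxN'
      · push_cast
        have hb : (1 : ℝ) < x ^ (1 / 2 - δ) :=
          Real.one_lt_rpow (by linarith) (by linarith)
        linarith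
      · exact (Nat.div_mul_cancel (Nat.minFac_dvd _)).symm
      · right; right
        rw [mem_range]
        exact lt_of_le_of_lt (Nat.div_le_self _ _) (by omega)
      · intro h
        exfalso
        have h2 : ((N + 1 : ℕ) : ℝ) ≤ N0 := by exact_mod_cast hlt
        push_cast at h2
        linarith
    · by_cases hpr : ∃ q ∈ PSK.JH N (hd δ N), q.Prime
      · obtain ⟨q, hq, hqp⟩ := hpr
        obtain ⟨ha, hb⟩ := mem_JJ_real hδ hδ1 hx1 hN hq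
        exact ⟨q, 1, q, ha, hb, by rw [one_mul], hqp, Or.inl rfl,
          fun _ => ⟨Or.inl rfl, hqp.one_lt⟩⟩
      · push Not at hpr
        obtain ⟨j, m, hm⟩ := hhit N ⟨hge, hpr⟩
        rw [Finset.mem_inter] at hm
        obtain ⟨hmA, hmM⟩ := hm
        rw [mem_AP] at hmA
        obtain ⟨hmt, hmp, hmz, q, hqp, hqm, hqJ⟩ := hmA
        obtain ⟨ha, hb⟩ := mem_JJ_real hδ hδ1 hx1 hN hqJ
        exact ⟨m * q, m, q, ha, hb, rfl, hqp, Or.inr (Or.inl ⟨j, hmM⟩),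
          fun _ => ⟨Or.inr ⟨j, hmM⟩, hqm⟩⟩

end Pool.Agent.PTH
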