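import Pool.Agent.PTH.IndB

/-!
# PTH / Fla: one step for the weights with individual primes

`f = f0 - ∑_{p ∈ S} [p] * f_p`.  By `coeff_single_mul` the coefficient of `f` at `d` is
`f0.coeff d - ∑_{p ∈ S, p ∣ d} (f_p).coeff (d/p)`.  If the `p`-term is nonzero all prime factors of `d/p`
are `< p`, so `p` is the largest prime factor of `d`: at most one `p`; and `p ≥ y`, so `f0.coeff d = 0`
(the prime factors of `d` in the support of `f0` are `< y`).  So the coefficient is bounded by one.
If it is nonzero: either `d` is in the support of `f0`, or `d = p d'`, `1 ≤ d' ≤ X/p`, `p < z`.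
`chi_step`, `mu_step`: `chi_single_mul`, `mu_mul`, `mu_single`.
-/

set_option autoImplicit false

namespace Pool.Agent.PTH

open Finset

theorem step_coeff (f0 : SA) (S : Finset ℕ) (f : ℕ → SA) (hS : ∀ p ∈ S, 1 ≤ p) (d : ℕ) :
    (f0 - ∑ p ∈ S, MonoidAlgebra.single p 1 * f p).coeff d =
      f0.coeff d - ∑ p ∈ S, if p ∣ d then (f p).coeff (d / p) else 0 := by
  have h1 : (f0 - ∑ p ∈ S, MonoidAlgebra.single p 1 * f p).coeff d =
      f0.coeff d - (∑ p ∈ S, MonoidAlgebra.single p 1 * f p).coeff d := by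
    rw [MonoidAlgebra.coeff_sub, Finsupp.sub_apply]
  rw [h1, coeff_sum]
  congr 1
  exact sum_congr rfl fun p hp => coeff_single_mul (hS p hp) (f p) d

theorem flp_step (X : ℝ) (y z : ℕ) (f0 : SA) (S : Finset ℕ) (f : ℕ → SA) (hyz : y ≤ z)
    (h0 : FLp X y f0) (hS : ∀ p ∈ S, p.Prime ∧ y ≤ p ∧ p < z)
    (hf : ∀ p ∈ S, FLp (X / p) p (f p)) :
    FLp X z (f0 - ∑ p ∈ S, MonoidAlgebra.single p 1 * f p) := by
  have hco := step_coeff f0 S f fun p hp => (hS p hp).1.one_lt.le
  have key : ∀ d, |(f0 - ∑ p ∈ S, MonoidAlgebra.single p 1 * f p).coeff d| ≤ 1 ∧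
      ((f0 - ∑ p ∈ S, MonoidAlgebra.single p 1 * f p).coeff d ≠ 0 →
        1 ≤ d ∧ (d : ℝ) ≤ X ∧ ∀ p : ℕ, p.Prime → p ∣ d → p < z) := by
    intro d
    rw [hco d]
    by_cases hT : ∃ p ∈ S, p ∣ d ∧ (f p).coeff (d / p) ≠ 0
    · obtain ⟨p, hpS, hpd, hpc⟩ := hT
      obtain ⟨hpp, hyp, hpz⟩ := hS p hpS
      have hfp := hf p hpS
      obtain ⟨hd1, hdX, hdp⟩ := hfp.2 (d / p) hpc
      have hdeq : d = p * (d / p) := (Nat.mul_div_cancel' hpd).symm
      have hmax : ∀ q : ℕ, q.Prime → q ∣ d → q ≤ p := by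
        intro q hq hqd
        rw [hdeq] at hqd
        rcases (Nat.Prime.dvd_mul hq).1 hqd with h | h
        · exact Nat.le_of_dvd hpp.pos h
        · exact (hdp q hq h).le
      have h00 : f0.coeff d = 0 := by
        by_contra hne
        have := (h0.2 d hne).2.2 p hpp hpd
        omega
      have hsum : (∑ q ∈ S, if q ∣ d then (f q).coeff (d / q) else 0) = (f p).coeff (d / p) := by
        rw [sum_eq_single p]
        · rw [if_pos hpd]
        · intro q hqS hqp
          by_cases hqd : q ∣ d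
          · rw [if_pos hqd]
            by_contra hqc
            obtain ⟨hqq, -, -⟩ := hS q hqS
            have h3 := ((hf q hqS).2 (d / q) hqc).2.2
            have h4 : q ≤ p := hmax q hqq hqd
            have h5 : p ≤ q := by
              have hdeq' : d = q * (d / q) := (Nat.mul_div_cancel' hqd).symm
              have hpd' := hpd
              rw [hdeq'] at hpd'
              rcases (Nat.Prime.dvd_mul hpp).1 hpd' with h | h
              · exact Nat.le_of_dvd hqq.pos h
              · exact (h3 p hpp h).le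
            exact hqp (le_antisymm h4 h5)
          · rw [if_neg hqd]
        · intro h
          exact absurd hpS h
      rw [h00, hsum, zero_sub, abs_neg]
      refine ⟨hfp.1 _, fun _ => ⟨?_, ?_, fun q hq hqd => lt_of_le_of_lt (hmax q hq hqd) hpz⟩⟩
      · rw [hdeq]
        exact Nat.mul_pos hpp.pos hd1
      · have hp0 : (0 : ℝ) < p := by exact_mod_cast hpp.pos
        rw [hdeq]
        push_cast
        calc (p : ℝ) * ((d / p : ℕ) : ℝ) ≤ p * (X / p) := by gcongr
          _ = X := by field_simp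
    · push Not at hT
      have hsum : (∑ q ∈ S, if q ∣ d then (f q).coeff (d / q) else 0) = 0 := by
        refine sum_eq_zero fun q hq => ?_
        by_cases hqd : q ∣ d
        · rw [if_pos hqd]
          exact hT q hq hqd
        · rw [if_neg hqd]
      rw [hsum, sub_zero]
      refine ⟨h0.1 d, fun hne => ?_⟩
      obtain ⟨h1, h2, h3⟩ := h0.2 d hne
      exact ⟨h1, h2, fun q hq hqd => lt_of_lt_of_le (h3 q hq hqd) hyz⟩
  exact ⟨fun d => (key d).1, fun d => (key d).2⟩

theorem chi_step (m : ℕ) (f0 : SA) (S : Finset ℕ) (f : ℕ → SA) (hS : ∀ p ∈ S, 1 ≤ p) :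
    chi m (f0 - ∑ p ∈ S, MonoidAlgebra.single p 1 * f p) =
      chi m f0 - ∑ p ∈ S.filter (fun p => p ∣ m), chi (m / p) (f p) := by
  rw [chi_sub, chi_sum, sum_filter]
  congr 1
  exact sum_congr rfl fun p hp => chi_single_mul (hS p hp) (f p)

theorem mu_step (f0 : SA) (S : Finset ℕ) (f : ℕ → SA) :
    mu (f0 - ∑ p ∈ S, MonoidAlgebra.single p 1 * f p) =
      mu f0 - ∑ p ∈ S, 1 / (p : ℝ) * mu (f p) := by
  rw [mu_sub, mu_sum]
  congr 1
  exact sum_congr rfl fun p _ => by rw [mu_mul, mu_single, one_mul]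

end Pool.Agent.PTH
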