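import Pool.Agent.PTH.Fla
import Pool.Agent.RG.Buch

/-!
# PTH / Flb: exact weights for all primes `< z`

Strong induction on `z`: `f_z = 1 - ∑_{p < z} [p] * f_p`, `X_z = 1 + ∑_{p < z} p X_p` (so `X_p ≤ X_z / p`).
`flp_step` with `y = 0`, `f0 = 1` (`FLp X 0 1`: only `d = 1`, no prime factors); `chi_step` and `ind_buch`
with `y = 0` (`ind 0 m = 1`) give `chi m f_z = ind z m`; `mu_step` and `RG.V_sum 0 z` (`RG.V 0 = 1`) give
`mu f_z = 1 - ∑_{p<z} V p/p = V z`.
-/

set_option autoImplicit false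

namespace Pool.Agent.PTH

open Finset

theorem flp_mono {X X' : ℝ} {z : ℕ} {f : SA} (h : X ≤ X') (hf : FLp X z f) : FLp X' z f :=
  ⟨hf.1, fun d hd => ⟨(hf.2 d hd).1, (hf.2 d hd).2.1.trans h, (hf.2 d hd).2.2⟩⟩

theorem flp_one (X : ℝ) (hX : 1 ≤ X) (z : ℕ) : FLp X z (1 : SA) := by
  have h1 : ∀ d, (1 : SA).coeff d = if d = 1 then 1 else 0 := by
    intro d
    rw [MonoidAlgebra.one_def, MonoidAlgebra.coeff_single, Finsupp.single_apply]
    by_cases h : d = 1
    · rw [if_pos h, if_pos h.symm]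
    · rw [if_neg h, if_neg (Ne.symm h)]
  constructor
  · intro d
    rw [h1]
    split_ifs <;> norm_num
  · intro d hd
    rw [h1] at hd
    by_cases h : d = 1
    · subst h
      refine ⟨le_refl _, by push_cast; exact hX, fun p hp hp1 => ?_⟩
      exact absurd (Nat.dvd_one.1 hp1) hp.one_lt.ne'
    · rw [if_neg h] at hd
      exact absurd rfl hd

theorem fl_exact (z : ℕ) : ∃ (X : ℝ) (f : SA), 1 ≤ X ∧ FLp X z f ∧
    (∀ m, 1 ≤ m → chi m f = ind z m) ∧ mu f = RG.V z := by
  induction z using Nat.strong_induction_on with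
  | _ z ih =>
    choose X f hX hf hchi hmu using ih
    let X' : ℕ → ℝ := fun p => if h : p < z then X p h else 1
    let f' : ℕ → SA := fun p => if h : p < z then f p h else 1
    have hX' : ∀ p (h : p < z), X' p = X p h := fun p h => dif_pos h
    have hf' : ∀ p (h : p < z), f' p = f p h := fun p h => dif_pos h
    have hX1 : ∀ p, 1 ≤ X' p := by
      intro p
      by_cases h : p < z
      · rw [hX' p h]; exact hX p h
      · simp only [X', dif_neg h]; exact le_refl _
    let S : Finset ℕ := (Ico 0 z).filter Nat.Prime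
    have hS : ∀ p ∈ S, p.Prime ∧ 0 ≤ p ∧ p < z := by
      intro p hp
      rw [mem_filter, mem_Ico] at hp
      exact ⟨hp.2, hp.1.1, hp.1.2⟩
    have hsum0 : 0 ≤ ∑ p ∈ S, (p : ℝ) * X' p :=
      sum_nonneg fun p _ => mul_nonneg (Nat.cast_nonneg _) (zero_le_one.trans (hX1 p))
    refine ⟨1 + ∑ p ∈ S, (p : ℝ) * X' p, 1 - ∑ p ∈ S, MonoidAlgebra.single p 1 * f' p,
      by linarith, ?_, fun m hm => ?_, ?_⟩
    · refine flp_step _ 0 z 1 S f' (Nat.zero_le _) (flp_one _ (by linarith) 0) hS fun p hp => ?_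
      obtain ⟨hpp, -, hpz⟩ := hS p hp
      rw [hf' p hpz]
      refine flp_mono ?_ (hf p hpz)
      have hp0 : (0 : ℝ) < p := by exact_mod_cast hpp.pos
      rw [le_div_iff₀ hp0]
      have h1 : (p : ℝ) * X' p ≤ ∑ p ∈ S, (p : ℝ) * X' p :=
        single_le_sum (f := fun p : ℕ => (p : ℝ) * X' p)
          (fun p _ => mul_nonneg (Nat.cast_nonneg _) (zero_le_one.trans (hX1 p))) hp
      rw [hX' p hpz] at h1
      linarith
    · rw [chi_step m 1 S f' fun p hp => (hS p hp).1.one_lt.le, chi_one,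
        ind_buch 0 z m (Nat.zero_le _) hm]
      have h0 : ind 0 m = 1 := by
        unfold ind
        rw [if_pos]
        intro p _ hp0
        exact absurd hp0 (Nat.not_lt_zero _)
      rw [h0]
      congr 1
      refine sum_congr rfl fun p hp => ?_
      rw [mem_filter] at hp
      obtain ⟨hpp, -, hpz⟩ := hS p hp.1
      rw [hf' p hpz]
      exact hchi p hpz (m / p) (Nat.div_pos (Nat.le_of_dvd hm hp.2) hpp.pos)
    · rw [mu_step, mu_one]
      have h0 : RG.V 0 = 1 := by
        unfold RG.V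
        simp
      rw [← RG.V_sum 0 z (Nat.zero_le _), h0]
      congr 1
      refine sum_congr rfl fun p hp => ?_
      obtain ⟨-, -, hpz⟩ := hS p hp
      rw [hf' p hpz, hmu p hpz]
      ring

end Pool.Agent.PTH
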