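import Pool.Agent.PTH.Flb
import Pool.Agent.RG.SievA
import Pool.Agent.RG.SievB

/-!
# PTH / Fli: the linear sieve as sieve weights (compare `Pool/Agent/RG/SievI.lean`)

`Z1 = max` of the two `Z0` of `RG.LSA`, `RG.LSB`, `Q = X` and `f0` from `fl_exact Z1`.  Strong induction on
`z ≥ Z1`, both statements together.  `s = log D / log z`.
* upper (`z ≤ D`): `f = f0 - ∑_{p ∈ S} [p] * l_p`, `S` the primes `Z1 ≤ p < z` with `p^3 < D`, `l_p` the lower
  weights for `(D/p, p)` (`p^2 ≤ D/p`).  `flp_step` (`y = Z1`; `f0` has support `≤ Q ≤ Q D`, `Q (D/p) =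
  (Q D)/p`), `chi_step`, `ind_buch` (the primes of `[Z1, z)` not in `S` are dropped), `mu_step` and `RG.LSB`
  (`log (D/p)/log p = log D/log p - 1`).
* lower (`z^2 ≤ D`): `S` all primes `Z1 ≤ p < z`, `u_p` the upper weights for `(D/p, p)` (`p ≤ D/p`);
  `mu f ≥ V Z1 - ∑ V p/p (1 + fp + ε bp) = V z - ∑ V p/p (fp + ε bp) ≥ V z (1 - fm - ε bm)` by `RG.V_sum`,
  `RG.LSA`.
(For `z = Z1` the set `S` is empty.)
-/

set_option autoImplicit false

namespace Pool.Agent.PTH

open Finset Real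

theorem FLp.mono {X X' : ℝ} {z : ℕ} {f : SA} (h : FLp X z f) (hX : X ≤ X') : FLp X' z f :=
  ⟨h.1, fun d hd => ⟨(h.2 d hd).1, (h.2 d hd).2.1.trans hX, (h.2 d hd).2.2⟩⟩

theorem fl_ind (fp fm : ℝ → ℝ) (Cφ : ℝ) (hΦ : RG.PhiProps fp fm Cφ) (ε : ℝ) (hε : 0 < ε) :
    ∃ (Z1 : ℕ) (Q : ℝ), 2 ≤ Z1 ∧ 1 ≤ Q ∧ ∀ z : ℕ, Z1 ≤ z → ∀ D : ℝ,
      ((z : ℝ) ≤ D → ∃ f : SA, FLp (Q * D) z f ∧ (∀ m, 1 ≤ m → ind z m ≤ chi m f) ∧
        mu f ≤ RG.V z * (1 + fp (log D / log z) + ε * RG.bp (log D / log z))) ∧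
      ((z : ℝ) ^ 2 ≤ D → ∃ f : SA, FLp (Q * D) z f ∧ (∀ m, 1 ≤ m → chi m f ≤ ind z m) ∧
        RG.V z * (1 - fm (log D / log z) - ε * RG.bm (log D / log z)) ≤ mu f) := by
  classical
  obtain ⟨ZA, hZA2, hA⟩ := RG.LSA fp fm Cφ hΦ ε hε
  obtain ⟨ZB, hZB2, hB⟩ := RG.LSB fp fm Cφ hΦ ε hε
  obtain ⟨Z1, hZ1⟩ : ∃ Z1 : ℕ, Z1 = max ZA ZB := ⟨_, rfl⟩
  have hZ1A : ZA ≤ Z1 := by rw [hZ1]; exact le_max_left _ _
  have hZ1B : ZB ≤ Z1 := by rw [hZ1]; exact le_max_right _ _
  have hZ12 : 2 ≤ Z1 := hZA2.trans hZ1A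
  obtain ⟨Q, f0, hQ1, hFL0, hchi0, hmu0⟩ := fl_exact Z1
  refine ⟨Z1, Q, hZ12, hQ1, ?_⟩
  intro z
  induction z using Nat.strong_induction_on with
  | _ z ih =>
    intro hz D
    have hzR : (2 : ℝ) ≤ z := by exact_mod_cast hZ12.trans hz
    have hVs := RG.V_sum Z1 z hz
    have hpfacts : ∀ p ∈ (Finset.Ico Z1 z).filter Nat.Prime,
        Z1 ≤ p ∧ p < z ∧ p.Prime ∧ (2 : ℝ) ≤ p := by
      intro p hp
      rw [Finset.mem_filter, Finset.mem_Ico] at hp
      exact ⟨hp.1.1, hp.1.2, hp.2, by exact_mod_cast hp.2.two_le⟩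
    have hlogp : ∀ p : ℕ, (2 : ℝ) ≤ p → 0 < D → log (D / p) / log p = log D / log p - 1 := by
      intro p hp hD
      have h1 : 0 < log (p : ℝ) := Real.log_pos (by linarith)
      rw [Real.log_div hD.ne' (by linarith), sub_div, div_self h1.ne']
    have hmp : ∀ m p : ℕ, 1 ≤ m → 1 ≤ p → p ∣ m → 1 ≤ m / p := by
      intro m p hm hp hpm
      exact Nat.div_pos (Nat.le_of_dvd hm hpm) hp
    constructor
    · intro hD
      have hD1 : 1 ≤ D := by linarith
      have hLSB := hB Z1 z hZ1B hz D hD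
      set S : Finset ℕ := (Finset.Ico Z1 z).filter (fun p : ℕ => p.Prime ∧ (p : ℝ) ^ 3 < D)
        with hS
      have hsub : S ⊆ (Finset.Ico Z1 z).filter Nat.Prime := by
        intro p hp
        rw [hS, Finset.mem_filter] at hp
        rw [Finset.mem_filter]
        exact ⟨hp.1, hp.2.1⟩
      have hex : ∀ p : ℕ, ∃ g : SA, p ∈ S → (FLp (Q * D / p) p g ∧
          (∀ m, 1 ≤ m → chi m g ≤ ind p m) ∧
          RG.V p * (1 - fm (log D / log p - 1) - ε * RG.bm (log D / log p - 1)) ≤ mu g) := by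
        intro p
        by_cases hp : p ∈ S
        · obtain ⟨hp1, hp2, hp3, hp4⟩ := hpfacts p (hsub hp)
          have hp5 : (p : ℝ) ^ 3 < D := (Finset.mem_filter.1 hp).2.2
          have hp0 : (0 : ℝ) < p := by linarith
          obtain ⟨g, hg1, hg2, hg3⟩ := (ih p hp2 hp1 (D / p)).2 (by
            rw [le_div_iff₀ hp0]
            nlinarith)
          rw [hlogp p hp4 (by linarith)] at hg3
          exact ⟨g, fun _ => ⟨by rwa [mul_div_assoc], hg2, hg3⟩⟩
        · exact ⟨0, fun h => absurd h hp⟩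
      choose g hg using hex
      refine ⟨f0 - ∑ p ∈ S, MonoidAlgebra.single p 1 * g p, ?_, ?_, ?_⟩
      · refine flp_step (Q * D) Z1 z f0 S g hz (hFL0.mono (by nlinarith)) ?_ ?_
        · intro p hp
          obtain ⟨hp1, hp2, hp3, _⟩ := hpfacts p (hsub hp)
          exact ⟨hp3, hp1, hp2⟩
        · intro p hp
          exact (hg p hp).1
      · intro m hm
        rw [chi_step m f0 S g (fun p hp => (hpfacts p (hsub hp)).2.2.1.one_le), hchi0 m hm,
          ind_buch Z1 z m hz hm]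
        have h1 : ∑ p ∈ S.filter (fun p => p ∣ m), chi (m / p) (g p) ≤
            ∑ p ∈ S.filter (fun p => p ∣ m), ind p (m / p) := by
          apply Finset.sum_le_sum
          intro p hp
          rw [Finset.mem_filter] at hp
          exact (hg p hp.1).2.1 _ (hmp m p hm (hpfacts p (hsub hp.1)).2.2.1.one_le hp.2)
        have h2 : ∑ p ∈ S.filter (fun p => p ∣ m), ind p (m / p) ≤
            ∑ p ∈ ((Ico Z1 z).filter Nat.Prime).filter (fun p => p ∣ m), ind p (m / p) :=
          Finset.sum_le_sum_of_subset_of_nonneg (Finset.filter_subset_filter _ hsub)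
            fun _ _ _ => ind_nonneg _ _
        linarith
      · rw [mu_step, hmu0]
        refine le_trans ?_ hLSB
        have h1 : ∑ p ∈ S, RG.V p / p * (1 - fm (log D / log p - 1) -
            ε * RG.bm (log D / log p - 1)) ≤ ∑ p ∈ S, 1 / (p : ℝ) * mu (g p) := by
          apply Finset.sum_le_sum
          intro p hp
          have hp0 : (0 : ℝ) < p := by
            have := (hpfacts p (hsub hp)).2.2.2
            linarith
          have h2 := mul_le_mul_of_nonneg_left (hg p hp).2.2 (one_div_nonneg.2 hp0.le)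
          refine le_trans (le_of_eq ?_) h2
          ring
        linarith
    · intro hD
      have hzz : (z : ℝ) ≤ (z : ℝ) ^ 2 := by nlinarith
      have hD1 : 1 ≤ D := by linarith
      have hLSA := hA Z1 z hZ1A hz D hD
      set S : Finset ℕ := (Finset.Ico Z1 z).filter Nat.Prime with hS
      have hex : ∀ p : ℕ, ∃ g : SA, p ∈ S → (FLp (Q * D / p) p g ∧
          (∀ m, 1 ≤ m → ind p m ≤ chi m g) ∧
          mu g ≤ RG.V p * (1 + fp (log D / log p - 1) + ε * RG.bp (log D / log p - 1))) := by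
        intro p
        by_cases hp : p ∈ S
        · obtain ⟨hp1, hp2, hp3, hp4⟩ := hpfacts p hp
          have hp0 : (0 : ℝ) < p := by linarith
          have hpz : (p : ℝ) ≤ z := by exact_mod_cast hp2.le
          obtain ⟨g, hg1, hg2, hg3⟩ := (ih p hp2 hp1 (D / p)).1 (by
            rw [le_div_iff₀ hp0]
            nlinarith)
          rw [hlogp p hp4 (by linarith)] at hg3
          exact ⟨g, fun _ => ⟨by rwa [mul_div_assoc], hg2, hg3⟩⟩
        · exact ⟨0, fun h => absurd h hp⟩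
      choose g hg using hex
      refine ⟨f0 - ∑ p ∈ S, MonoidAlgebra.single p 1 * g p, ?_, ?_, ?_⟩
      · refine flp_step (Q * D) Z1 z f0 S g hz (hFL0.mono (by nlinarith)) ?_ ?_
        · intro p hp
          obtain ⟨hp1, hp2, hp3, _⟩ := hpfacts p hp
          exact ⟨hp3, hp1, hp2⟩
        · intro p hp
          exact (hg p hp).1
      · intro m hm
        rw [chi_step m f0 S g (fun p hp => (hpfacts p hp).2.2.1.one_le), hchi0 m hm,
          ind_buch Z1 z m hz hm]
        have h1 : ∑ p ∈ S.filter (fun p => p ∣ m), ind p (m / p) ≤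
            ∑ p ∈ S.filter (fun p => p ∣ m), chi (m / p) (g p) := by
          apply Finset.sum_le_sum
          intro p hp
          rw [Finset.mem_filter] at hp
          exact (hg p hp.1).2.1 _ (hmp m p hm (hpfacts p hp.1).2.2.1.one_le hp.2)
        linarith
      · rw [mu_step, hmu0]
        have h1 : ∑ p ∈ S, 1 / (p : ℝ) * mu (g p) ≤ ∑ p ∈ S, (RG.V p / p +
            RG.V p / p * (fp (log D / log p - 1) + ε * RG.bp (log D / log p - 1))) := by
          apply Finset.sum_le_sum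
          intro p hp
          have hp0 : (0 : ℝ) < p := by
            have := (hpfacts p hp).2.2.2
            linarith
          have h2 := mul_le_mul_of_nonneg_left (hg p hp).2.2 (one_div_nonneg.2 hp0.le)
          refine h2.trans (le_of_eq ?_)
          ring
        rw [Finset.sum_add_distrib] at h1
        have h7 : RG.V z * (1 - fm (log D / log z) - ε * RG.bm (log D / log z)) =
            RG.V z - RG.V z * (fm (log D / log z) + ε * RG.bm (log D / log z)) := by
          ring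
        rw [h7]
        linarith

end Pool.Agent.PTH
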