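import Pool.Agent.PTH.Fli

/-!
# PTH / Flw: the fundamental lemma

`fl_ind` with `ε = 1`, at `(w, D/Q)`: for large `w` (`Q ≤ w`) `D/Q ≥ w^(s1 - 1)`, so
`s = log (D/Q)/log w ≥ s1 - 1 ≥ 3`, `fp s ≤ Cφ bp s`, `fm s ≤ Cφ bm s`, `bp s = (11/30) exp (1 - s) ≤
exp (2 - s1)`, `bm s = exp (-s) ≤ exp (1 - s1)`.  `C = (Cφ + 1) e^2`.  (`FLp (Q * (D/Q)) = FLp D`.)
-/

set_option autoImplicit false

namespace Pool.Agent.PTH

open Finset Real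

theorem flw (fp fm : ℝ → ℝ) (Cφ : ℝ) (hΦ : RG.PhiProps fp fm Cφ) :
    ∃ C : ℝ, 0 < C ∧ ∀ s1 : ℝ, 4 ≤ s1 → ∃ Z0 : ℕ, 2 ≤ Z0 ∧ ∀ w : ℕ, Z0 ≤ w → ∀ D : ℝ,
      (w : ℝ) ^ s1 ≤ D → ∃ lp lm : SA, FLp D w lp ∧ FLp D w lm ∧
        (∀ m, 1 ≤ m → ind w m ≤ chi m lp) ∧ (∀ m, 1 ≤ m → chi m lm ≤ ind w m) ∧
        mu lp ≤ RG.V w * (1 + C * exp (-s1)) ∧ RG.V w * (1 - C * exp (-s1)) ≤ mu lm := by
  refine ⟨(Cφ + 1) * exp 2, mul_pos (by linarith [hΦ.C_pos]) (exp_pos _), fun s1 hs1 => ?_⟩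
  obtain ⟨Z1, Q, hZ1, hQ1, hmain⟩ := fl_ind fp fm Cφ hΦ 1 one_pos
  refine ⟨max Z1 ⌈Q⌉₊, hZ1.trans (le_max_left _ _), fun w hw D hD => ?_⟩
  have hwZ : Z1 ≤ w := (le_max_left _ _).trans hw
  have hwQ : Q ≤ (w : ℝ) := (Nat.le_ceil Q).trans (by exact_mod_cast (le_max_right _ _).trans hw)
  have hw2 : (2 : ℝ) ≤ w := by exact_mod_cast hZ1.trans hwZ
  have hw0 : (0 : ℝ) < w := by linarith
  have hQ0 : 0 < Q := by linarith
  have hD1 : (w : ℝ) ^ (s1 - 1) ≤ D / Q := by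
    rw [Real.rpow_sub_one hw0.ne']
    have h0 : (0 : ℝ) < (w : ℝ) ^ s1 := Real.rpow_pos_of_pos hw0 _
    exact div_le_div₀ (h0.le.trans hD) hD hQ0 hwQ
  have hp0 : 0 < (w : ℝ) ^ (s1 - 1) := Real.rpow_pos_of_pos hw0 _
  have hDw : (w : ℝ) ≤ D / Q := by
    refine le_trans ?_ hD1
    calc (w : ℝ) = (w : ℝ) ^ (1 : ℝ) := (Real.rpow_one _).symm
      _ ≤ _ := Real.rpow_le_rpow_of_exponent_le (by linarith) (by linarith)
  have hDw2 : (w : ℝ) ^ 2 ≤ D / Q := by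
    refine le_trans ?_ hD1
    calc (w : ℝ) ^ 2 = (w : ℝ) ^ (2 : ℝ) := (Real.rpow_two _).symm
      _ ≤ _ := Real.rpow_le_rpow_of_exponent_le (by linarith) (by linarith)
  have hlw : 0 < log (w : ℝ) := Real.log_pos (by linarith)
  set s : ℝ := log (D / Q) / log w with hs
  have hs1' : s1 - 1 ≤ s := by
    rw [hs, le_div_iff₀ hlw, ← Real.log_rpow hw0]
    exact Real.log_le_log hp0 hD1
  have hs3 : 3 ≤ s := by linarith
  have hbp : RG.bp s ≤ exp 2 * exp (-s1) := by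
    unfold RG.bp
    rw [max_eq_left hs3, min_eq_right hs3, ← Real.exp_add]
    have h1 : exp (1 - s) ≤ exp (2 + -s1) := Real.exp_le_exp.2 (by linarith)
    have h2 : 0 < exp (1 - s) := exp_pos _
    linarith
  have hbm : RG.bm s ≤ exp 2 * exp (-s1) := by
    unfold RG.bm
    rw [← Real.exp_add]
    exact Real.exp_le_exp.2 (by linarith)
  have hQD : Q * (D / Q) = D := by field_simp
  obtain ⟨hup, hlow⟩ := hmain w hwZ (D / Q)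
  obtain ⟨lp, hp1, hp2, hp3⟩ := hup hDw
  obtain ⟨lm, hm1, hm2, hm3⟩ := hlow hDw2
  rw [hQD] at hp1 hm1
  have hV := RG.V_pos w
  have hC := hΦ.C_pos
  refine ⟨lp, lm, hp1, hm1, hp2, hm2, hp3.trans ?_, le_trans ?_ hm3⟩
  · apply mul_le_mul_of_nonneg_left _ hV.le
    have h1 := hΦ.fp_le s (by linarith)
    have h2 : (Cφ + 1) * RG.bp s ≤ (Cφ + 1) * (exp 2 * exp (-s1)) :=
      mul_le_mul_of_nonneg_left hbp (by linarith)
    linarith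
  · apply mul_le_mul_of_nonneg_left _ hV.le
    have h1 := hΦ.fm_le s (by linarith)
    have h2 : (Cφ + 1) * RG.bm s ≤ (Cφ + 1) * (exp 2 * exp (-s1)) :=
      mul_le_mul_of_nonneg_left hbm (by linarith)
    linarith

end Pool.Agent.PTH
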