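import Pool.Agent.PTH.Spl

/-!
# PTH / Ft: the remainder as an exponential sum

`AAd r N H d = (1/d) ∑_{b mod d} ∑_n spw n ec (n b/d)` (`∑_{b mod d} ec (n b/d) = d` if `d ∣ n`, `0`
otherwise).  Take the residues `b` with `- d/2 < b ≤ d/2`.  `b = 0` gives `H/d` (`spw_sum`).  Each
`|b| ≥ K + 1` contributes at most `(1/d) H (d/(2 H |b|))^r ≤ (1/d) H (d/(2 H (K+1)))^r` (`spw_four`,
`θ = b/d`), and there are at most `d` of them.  The terms `b = k` and `b = -k`, `1 ≤ k ≤ K < d/2`, are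
complex conjugates of each other.
-/

set_option autoImplicit false

namespace Pool.Agent.PTH

open Finset

lemma ec_int (z : ℤ) : ec z = 1 := by
  unfold ec
  rw [Complex.exp_eq_one_iff]
  exact ⟨z, by push_cast; ring⟩

lemma ec_nat (n : ℕ) : ec n = 1 := by
  have := ec_int n
  rwa [Int.cast_natCast] at this

lemma ec_eq_one {x : ℝ} (h : ec x = 1) : ∃ z : ℤ, x = z := by
  unfold ec at h
  rw [Complex.exp_eq_one_iff] at h
  obtain ⟨z, hz⟩ := h
  refine ⟨z, ?_⟩
  have h1 : ((2 * Real.pi * x : ℝ) : ℂ) * Complex.I = ((2 * Real.pi * z : ℝ) : ℂ) * Complex.I := by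
    rw [hz]
    push_cast
    ring
  have h2 := Complex.ofReal_injective (mul_right_cancel₀ Complex.I_ne_zero h1)
  have h3 : (2 * Real.pi) ≠ 0 := by positivity
  exact mul_left_cancel₀ h3 h2

lemma ec_conj (x : ℝ) : (starRingEnd ℂ) (ec x) = ec (-x) := by
  unfold ec
  rw [← Complex.exp_conj, map_mul, Complex.conj_I, Complex.conj_ofReal]
  congr 1
  push_cast
  ring

/-- The exponential sum at `b / d`. -/
noncomputable def SS (r N H : ℕ) (θ : ℝ) : ℂ :=
  ∑ n ∈ PSK.JH N (r * H), ((spw r N H n : ℝ) : ℂ) * ec (n * θ)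

lemma SS_conj (r N H : ℕ) (θ : ℝ) : (starRingEnd ℂ) (SS r N H θ) = SS r N H (-θ) := by
  unfold SS
  rw [map_sum]
  refine sum_congr rfl (fun n _ => ?_)
  rw [map_mul, Complex.conj_ofReal, ec_conj, mul_neg]

lemma SS_add_int (r N H : ℕ) (θ : ℝ) (z : ℤ) : SS r N H (θ + z) = SS r N H θ := by
  unfold SS
  refine sum_congr rfl (fun n _ => ?_)
  have h : (n : ℝ) * (θ + z) = n * θ + ((n * z : ℤ) : ℝ) := by push_cast; ring
  rw [h, ec_add, ec_int, mul_one]

lemma char_sum (n d : ℕ) (hd : 1 ≤ d) :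
    ∑ b ∈ range d, ec (n * ((b : ℝ) / d)) = if d ∣ n then (d : ℂ) else 0 := by
  have hd0 : (d : ℝ) ≠ 0 := by
    have : d ≠ 0 := by omega
    exact_mod_cast this
  have h1 : ∀ b ∈ range d, ec (n * ((b : ℝ) / d)) = ec ((n : ℝ) / d) ^ b := by
    intro b _
    rw [← ec_nat_mul]
    congr 1
    ring
  rw [sum_congr rfl h1]
  split_ifs with h
  · obtain ⟨k, rfl⟩ := h
    have h2 : (((d * k : ℕ) : ℝ)) / d = k := by
      push_cast
      field_simp
    rw [h2, ec_nat]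
    simp
  · have h2 := geom_sum_mul (ec ((n : ℝ) / d)) d
    have h3 : ec ((n : ℝ) / d) ^ d = 1 := by
      rw [← ec_nat_mul, mul_div_cancel₀ _ hd0, ec_nat]
    rw [h3, sub_self] at h2
    rcases mul_eq_zero.1 h2 with h4 | h4
    · exact h4
    · exfalso
      obtain ⟨z, hz⟩ := ec_eq_one (sub_eq_zero.1 h4)
      apply h
      have h5 : (n : ℝ) = z * d := by
        rw [← hz]
        field_simp
      have h6 : (n : ℤ) = z * d := by exact_mod_cast h5
      have h7 : (d : ℤ) ∣ n := ⟨z, by rw [h6]; ring⟩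
      exact_mod_cast h7

lemma AAd_eq (r N H d : ℕ) (hd : 1 ≤ d) :
    ((d * AAd r N H d : ℝ) : ℂ) = ∑ b ∈ range d, SS r N H ((b : ℝ) / d) := by
  unfold SS AAd
  rw [sum_comm, sum_filter, mul_sum, Complex.ofReal_sum]
  refine sum_congr rfl (fun n _ => ?_)
  rw [← mul_sum, char_sum n d hd]
  split_ifs
  · push_cast
    ring
  · simp

lemma SS_zero (r N H : ℕ) (hr : 2 ≤ r) (hH : 1 ≤ H) : SS r N H 0 = H := by
  unfold SS
  have h := spw_sum r N H hr hH
  simp only [mul_zero, ec_zero, mul_one]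
  exact_mod_cast congrArg (fun x : ℝ => (x : ℂ)) h

lemma SS_bound (r N H d K b : ℕ) (hr : 2 ≤ r) (hH : 1 ≤ H) (hb1 : K + 1 ≤ b) (hb2 : b + (K + 1) ≤ d) :
    ‖SS r N H ((b : ℝ) / d)‖ ≤ H * ((d : ℝ) / (2 * H * (K + 1))) ^ r := by
  have hdpos : (0 : ℝ) < d := by
    have : 0 < d := by omega
    exact_mod_cast this
  have hHpos : (0 : ℝ) < H := by exact_mod_cast hH
  have key : ∀ θ : ℝ, |θ| ≤ 1 / 2 → ((K : ℝ) + 1) / d ≤ |θ| →
      ‖SS r N H θ‖ ≤ H * ((d : ℝ) / (2 * H * (K + 1))) ^ r := by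
    intro θ h1 h2
    have h3 : (0 : ℝ) < ((K : ℝ) + 1) / d := by positivity
    have h4 : 0 < |θ| := lt_of_lt_of_le h3 h2
    refine (spw_four r N H hr hH θ (abs_pos.1 h4) h1).trans ?_
    have h5 : 1 / (2 * H * |θ|) ≤ (d : ℝ) / (2 * H * (K + 1)) := by
      rw [div_le_div_iff₀ (by positivity) (by positivity)]
      rw [div_le_iff₀ hdpos] at h2
      nlinarith
    have h6 : 0 ≤ 1 / (2 * H * |θ|) := by positivity
    gcongr
  by_cases hb : 2 * b ≤ d
  · apply key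
    · rw [abs_of_nonneg (by positivity), div_le_div_iff₀ hdpos (by norm_num)]
      have : ((2 * b : ℕ) : ℝ) ≤ (d : ℝ) := by exact_mod_cast hb
      push_cast at this
      linarith
    · rw [abs_of_nonneg (by positivity)]
      have : ((K + 1 : ℕ) : ℝ) ≤ (b : ℝ) := by exact_mod_cast hb1
      push_cast at this
      gcongr
  · have h1 : SS r N H ((b : ℝ) / d) = SS r N H ((b : ℝ) / d - 1) := by
      have := SS_add_int r N H ((b : ℝ) / d - 1) 1
      rw [← this]
      congr 1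
      push_cast
      ring
    rw [h1]
    have h2 : ((b + (K + 1) : ℕ) : ℝ) ≤ (d : ℝ) := by exact_mod_cast hb2
    push_cast at h2
    have h3 : (b : ℝ) / d - 1 = -((d - b) / d) := by
      field_simp
      ring
    have h5 : (0 : ℝ) ≤ ((d : ℝ) - b) / d := by
      apply div_nonneg _ hdpos.le
      have : (0 : ℝ) ≤ K := Nat.cast_nonneg K
      linarith
    apply key
    · rw [h3, abs_neg, abs_of_nonneg h5, div_le_div_iff₀ hdpos (by norm_num)]
      have h4 : ((d : ℕ) : ℝ) ≤ ((2 * b : ℕ) : ℝ) := by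
        have : d ≤ 2 * b := by omega
        exact_mod_cast this
      push_cast at h4
      linarith
    · rw [h3, abs_neg, abs_of_nonneg h5]
      gcongr
      linarith

theorem ft (r N H d K : ℕ) (hr : 2 ≤ r) (hH : 1 ≤ H) (hd : 1 ≤ d) (hK : 2 * K < d) :
    |rr r N H d - (1 / (d : ℝ)) * ∑ k ∈ Icc 1 K,
      2 * (∑ n ∈ PSK.JH N (r * H), ((spw r N H n : ℝ) : ℂ) * ec (n * (k / d))).re| ≤
      H * ((d : ℝ) / (2 * H * (K + 1))) ^ r := by
  have hdpos : (0 : ℝ) < d := by exact_mod_cast hd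
  have hHpos : (0 : ℝ) < H := by exact_mod_cast hH
  set B : ℝ := H * ((d : ℝ) / (2 * H * (K + 1))) ^ r with hB
  have hB0 : 0 ≤ B := by positivity
  have h1 := AAd_eq r N H d hd
  have h2 : ∑ b ∈ range d, SS r N H ((b : ℝ) / d) = SS r N H 0 +
      ∑ b ∈ Ico 1 (K + 1), SS r N H ((b : ℝ) / d) + ∑ b ∈ Ico (K + 1) (d - K), SS r N H ((b : ℝ) / d)
      + ∑ b ∈ Ico (d - K) d, SS r N H ((b : ℝ) / d) := by
    rw [range_eq_Ico, ← sum_Ico_consecutive _ (show 0 ≤ d - K by omega) (show d - K ≤ d by omega),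
      ← sum_Ico_consecutive _ (show 0 ≤ K + 1 by omega) (show K + 1 ≤ d - K by omega),
      ← sum_Ico_consecutive _ (show 0 ≤ 1 by omega) (show 1 ≤ K + 1 by omega)]
    congr 3
    simp
  have h3 : ∑ b ∈ Ico (d - K) d, SS r N H ((b : ℝ) / d) =
      (starRingEnd ℂ) (∑ b ∈ Ico 1 (K + 1), SS r N H ((b : ℝ) / d)) := by
    rw [map_sum]
    refine sum_nbij' (fun b => d - b) (fun b => d - b) ?_ ?_ ?_ ?_ ?_
    · intro b hb; rw [mem_Ico] at hb ⊢; omega
    · intro b hb; rw [mem_Ico] at hb ⊢; omega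
    · intro b hb; rw [mem_Ico] at hb; omega
    · intro b hb; rw [mem_Ico] at hb; omega
    · intro b hb
      rw [mem_Ico] at hb
      rw [SS_conj]
      have h4 := SS_add_int r N H (-(((d - b : ℕ) : ℝ) / d)) 1
      rw [← h4]
      congr 1
      rw [Nat.cast_sub (by omega)]
      field_simp
      push_cast
      ring
  have h4 := congrArg Complex.re h1
  rw [h2, h3, SS_zero r N H hr hH] at h4
  simp only [Complex.add_re, Complex.ofReal_re, Complex.natCast_re, Complex.conj_re] at h4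
  have h5 : ∑ k ∈ Icc 1 K,
      2 * (∑ n ∈ PSK.JH N (r * H), ((spw r N H n : ℝ) : ℂ) * ec (n * (k / d))).re =
      2 * (∑ b ∈ Ico 1 (K + 1), SS r N H ((b : ℝ) / d)).re := by
    rw [← mul_sum, Complex.re_sum]
    rfl
  rw [h5]
  have h6 : rr r N H d - 1 / (d : ℝ) * (2 * (∑ b ∈ Ico 1 (K + 1), SS r N H ((b : ℝ) / d)).re) =
      1 / (d : ℝ) * (∑ b ∈ Ico (K + 1) (d - K), SS r N H ((b : ℝ) / d)).re := by
    unfold rr
    field_simp
    linarith
  rw [h6, abs_mul, abs_of_pos (by positivity : 0 < 1 / (d : ℝ))]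
  have h7 : |(∑ b ∈ Ico (K + 1) (d - K), SS r N H ((b : ℝ) / d)).re| ≤ d * B := by
    refine (Complex.abs_re_le_norm _).trans ((norm_sum_le _ _).trans ?_)
    have h8 : ∑ b ∈ Ico (K + 1) (d - K), ‖SS r N H ((b : ℝ) / d)‖ ≤
        ∑ _b ∈ Ico (K + 1) (d - K), B := by
      refine sum_le_sum (fun b hb => ?_)
      rw [mem_Ico] at hb
      exact SS_bound r N H d K b hr hH hb.1 (by omega)
    refine h8.trans ?_
    rw [sum_const, nsmul_eq_mul, Nat.card_Ico]
    have h9 : ((d - K - (K + 1) : ℕ) : ℝ) ≤ d := by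
      have : d - K - (K + 1) ≤ d := by omega
      exact_mod_cast this
    exact mul_le_mul_of_nonneg_right h9 hB0
  calc 1 / (d : ℝ) * |(∑ b ∈ Ico (K + 1) (d - K), SS r N H ((b : ℝ) / d)).re|
      ≤ 1 / (d : ℝ) * (d * B) := mul_le_mul_of_nonneg_left h7 (by positivity)
    _ = B := by field_simp

end Pool.Agent.PTH
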