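import Pool.Agent.PTH.IndB
import Pool.Agent.RG.Mer

/-!
# PTH / Geo: the end points `bz R0 j0 N i = ⌊N^(e_i)⌋`, `e_i = 0.145 (j0 + i)/(R0 j0)`

`J = R0 j0 - j0`, `e_0 = 0.145/R0`, `e_J = 0.145`, `e_{i+1}/e_i = 1 + 1/(j0+i) ≤ 1 + 1/j0`.
* `bz_J`, `bz_mono` (`N ≥ 1`; for `N = 0` all are equal, or restrict to `N ≥ 1`).
* `bz_BS`: `b (i+1) ≤ N^(e_i (1 + 1/j0)) ≤ (b i + 1)^(1 + 1/j0) ≤ (b i)^(1 + 2/j0)` for large `N`
  (`(1 + 1/b)^2 ≤ b^(1/j0)` for large `b`), for all `i < J` at once (`b i ≥ b 0 → ∞`).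
* `bz_gs`: `gs b i ≤ log (log b (i+1)/log b i) + C/log b 0 + 1/b 0 ≤ 2/j0 + small ≤ 1/2` (`RG.recip_bounds`;
  `log (b (i+1))/log (b i) ≤ 1 + 2/j0` by `bz_BS`, `j0 ≥ 100`).
* `EE_le`: `∏ (1 + 2 g_i) ≤ exp (2 ∑ g_i) ≤ exp (2 (log (log z/log w) + C/log w + 1/w)) ≤ 1.1 (log z/log w)^2`,
  `z = zz N`, `w = b 0`, `log z/log w → R0`, and `V w ≤ 1.1 (log z/log w) V z` (`RG.V_ratio`): total
  `≤ 1.3 R0^3 V z`; `EE` is increasing in `j`.
-/

set_option autoImplicit false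

namespace Pool.Agent.PTH

open Finset Real Filter

/-- the exponents -/
private noncomputable def ge (R0 j0 i : ℕ) : ℝ :=
  (29 / 200 : ℝ) * ((j0 + i : ℕ) : ℝ) / ((R0 * j0 : ℕ) : ℝ)

private lemma bz_eq (R0 j0 N i : ℕ) : bz R0 j0 N i = ⌊(N : ℝ) ^ ge R0 j0 i⌋₊ := rfl

private lemma ge_pos (R0 j0 i : ℕ) (hR : 1 ≤ R0) (hj : 1 ≤ j0) : 0 < ge R0 j0 i := by
  unfold ge
  have h1 : (0 : ℝ) < ((j0 + i : ℕ) : ℝ) := by exact_mod_cast (by omega : 0 < j0 + i)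
  have h2 : (0 : ℝ) < ((R0 * j0 : ℕ) : ℝ) := by exact_mod_cast Nat.mul_pos hR hj
  positivity

private lemma ge_mono (R0 j0 : ℕ) {i i' : ℕ} (h : i ≤ i') : ge R0 j0 i ≤ ge R0 j0 i' := by
  unfold ge
  have h1 : ((j0 + i : ℕ) : ℝ) ≤ ((j0 + i' : ℕ) : ℝ) := by exact_mod_cast (by omega)
  exact div_le_div_of_nonneg_right (by linarith) (Nat.cast_nonneg _)

theorem bz_J (R0 j0 N : ℕ) (hR : 1 ≤ R0) (hj : 1 ≤ j0) : bz R0 j0 N (R0 * j0 - j0) = zz N := by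
  have h1 : j0 ≤ R0 * j0 := Nat.le_mul_of_pos_left _ hR
  have h2 : ((R0 * j0 : ℕ) : ℝ) ≠ 0 := by exact_mod_cast (Nat.mul_pos hR hj).ne'
  rw [bz_eq, ge, zz, show j0 + (R0 * j0 - j0) = R0 * j0 by omega, mul_div_assoc, div_self h2,
    mul_one]

theorem bz_zero (R0 j0 N : ℕ) (hj : 1 ≤ j0) :
    bz R0 j0 N 0 = ⌊(N : ℝ) ^ ((29 / 200 : ℝ) / R0)⌋₊ := by
  have h2 : ((j0 : ℕ) : ℝ) ≠ 0 := by exact_mod_cast (by omega : j0 ≠ 0)
  rw [bz_eq, ge, add_zero, Nat.cast_mul, mul_div_mul_right _ _ h2]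

theorem bz_mono (R0 j0 N : ℕ) (hN : 1 ≤ N) : Monotone (bz R0 j0 N) := by
  intro i i' h
  have h1 : (1 : ℝ) ≤ N := by exact_mod_cast hN
  exact Nat.floor_mono (rpow_le_rpow_of_exponent_le h1 (ge_mono R0 j0 h))

theorem bz_tendsto (R0 j0 i : ℕ) (hR : 1 ≤ R0) (hj : 1 ≤ j0) :
    Tendsto (fun N : ℕ => bz R0 j0 N i) atTop atTop :=
  tendsto_nat_floor_atTop.comp
    ((tendsto_rpow_atTop (ge_pos R0 j0 i hR hj)).comp tendsto_natCast_atTop_atTop)

private lemma ev_b0 (R0 j0 B : ℕ) (hR : 1 ≤ R0) (hj : 1 ≤ j0) :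
    ∀ᶠ N : ℕ in atTop, B ≤ bz R0 j0 N 0 := (bz_tendsto R0 j0 0 hR hj).eventually_ge_atTop B

private lemma ev_log (R0 j0 : ℕ) (hR : 1 ≤ R0) (hj : 1 ≤ j0) (T : ℝ) :
    ∀ᶠ N : ℕ in atTop, T ≤ log (bz R0 j0 N 0) := by
  filter_upwards [ev_b0 R0 j0 (⌈exp T⌉₊) hR hj] with N hN
  have h1 : exp T ≤ bz R0 j0 N 0 := (Nat.le_ceil _).trans (by exact_mod_cast hN)
  rw [← log_exp T]
  exact log_le_log (exp_pos T) h1

theorem bz_BS (R0 j0 : ℕ) (hR : 2 ≤ R0) (hj : 100 ≤ j0) :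
    ∀ᶠ N : ℕ in atTop, BS (bz R0 j0 N) (2 / j0) (R0 * j0 - j0) := by
  have hj0 : (0 : ℝ) < j0 := by exact_mod_cast (by omega : 0 < j0)
  filter_upwards [ev_b0 R0 j0 (4 ^ j0) (by omega) (by omega), eventually_ge_atTop 1] with N hN hN1
  have hN1' : (1 : ℝ) ≤ N := by exact_mod_cast hN1
  have hmono := bz_mono R0 j0 N hN1
  refine ⟨?_, hmono, ?_⟩
  · have h1 : 4 ^ 1 ≤ 4 ^ j0 := Nat.pow_le_pow_right (by norm_num) (by omega)
    omega
  · intro i hi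
    set b : ℝ := (bz R0 j0 N i : ℝ) with hb
    have hb4 : (4 : ℝ) ^ j0 ≤ b := by
      have h1 : 4 ^ j0 ≤ bz R0 j0 N i := hN.trans (hmono (Nat.zero_le i))
      have h2 : ((4 ^ j0 : ℕ) : ℝ) ≤ (bz R0 j0 N i : ℝ) := Nat.cast_le.2 h1
      rw [Nat.cast_pow] at h2
      exact h2
    have h4 : (1 : ℝ) ≤ 4 ^ j0 := one_le_pow₀ (by norm_num)
    have hb1 : 1 ≤ b := h4.trans hb4
    have hx1 : (1 : ℝ) ≤ (N : ℝ) ^ ge R0 j0 i :=
      one_le_rpow hN1' (ge_pos R0 j0 i (by omega) (by omega)).le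
    have hx2 : (N : ℝ) ^ ge R0 j0 i ≤ b + 1 := (Nat.lt_floor_add_one _).le
    have he : ge R0 j0 (i + 1) ≤ ge R0 j0 i * (1 + 1 / j0) := by
      unfold ge
      have h1 : (0 : ℝ) < ((R0 * j0 : ℕ) : ℝ) := by
        exact_mod_cast Nat.mul_pos (by omega : 0 < R0) (by omega : 0 < j0)
      rw [div_mul_eq_mul_div (29 / 200 * ((j0 + i : ℕ) : ℝ))]
      refine div_le_div_of_nonneg_right ?_ h1.le
      have h2 : ((j0 + (i + 1) : ℕ) : ℝ) ≤ ((j0 + i : ℕ) : ℝ) * (1 + 1 / j0) := by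
        push_cast
        have h3 : ((j0 : ℝ) + i) * (1 + 1 / j0) = j0 + i + 1 + i / j0 := by
          field_simp
          ring
        rw [h3]
        have h4 : (0 : ℝ) ≤ (i : ℝ) / j0 := by positivity
        linarith
      nlinarith
    have h1 : (bz R0 j0 N (i + 1) : ℝ) ≤ (N : ℝ) ^ ge R0 j0 (i + 1) :=
      Nat.floor_le (by positivity)
    have h2 : (N : ℝ) ^ ge R0 j0 (i + 1) ≤ ((N : ℝ) ^ ge R0 j0 i) ^ (1 + 1 / (j0 : ℝ)) := by
      rw [← rpow_mul (by linarith)]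
      exact rpow_le_rpow_of_exponent_le hN1' he
    have h3 : ((N : ℝ) ^ ge R0 j0 i) ^ (1 + 1 / (j0 : ℝ)) ≤ (2 * b) ^ (1 + 1 / (j0 : ℝ)) :=
      rpow_le_rpow (by linarith) (by linarith) (by positivity)
    have h5 : (2 : ℝ) ^ (1 + 1 / (j0 : ℝ)) ≤ b ^ (1 / (j0 : ℝ)) := by
      have k1 : (2 : ℝ) ^ (1 + 1 / (j0 : ℝ)) ≤ 2 ^ (2 : ℝ) := by
        refine rpow_le_rpow_of_exponent_le (by norm_num) ?_
        have : 1 / (j0 : ℝ) ≤ 1 := by
          rw [div_le_one hj0]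
          exact_mod_cast (by omega : 1 ≤ j0)
        linarith
      have k2 : (2 : ℝ) ^ (2 : ℝ) = 4 := by norm_num
      have k3 : ((4 : ℝ) ^ j0) ^ (1 / (j0 : ℝ)) = 4 := by
        rw [← rpow_natCast, ← rpow_mul (by norm_num), mul_one_div, div_self hj0.ne', rpow_one]
      have k4 : ((4 : ℝ) ^ j0) ^ (1 / (j0 : ℝ)) ≤ b ^ (1 / (j0 : ℝ)) :=
        rpow_le_rpow (by positivity) hb4 (by positivity)
      linarith
    have h6 : (2 * b) ^ (1 + 1 / (j0 : ℝ)) ≤ b ^ (1 + 2 / (j0 : ℝ)) := by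
      rw [mul_rpow (by norm_num) (by linarith)]
      have k1 : b ^ (1 + 2 / (j0 : ℝ)) = b ^ (1 / (j0 : ℝ)) * b ^ (1 + 1 / (j0 : ℝ)) := by
        rw [← rpow_add (by linarith)]
        congr 1
        ring
      rw [k1]
      exact mul_le_mul_of_nonneg_right h5 (by positivity)
    linarith

private lemma geo_sum {C : ℝ}
    (hrec : ∀ u v : ℕ, 2 ≤ u → u ≤ v →
      |∑ p ∈ RG.prm u v, 1 / (p : ℝ) - (log (log v) - log (log u))| ≤ C / log u)
    {u v : ℕ} (hu : 2 ≤ u) (huv : u ≤ v) :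
    ∑ p ∈ (Ico u v).filter Nat.Prime, 1 / (p : ℝ) ≤
      1 / (u : ℝ) + (log (log v) - log (log u)) + C / log u := by
  classical
  have h1 : (Ico u v).filter Nat.Prime ⊆ insert u (RG.prm u v) := by
    intro p hp
    rw [mem_filter, mem_Ico] at hp
    rw [mem_insert, RG.mem_prm]
    rcases eq_or_ne p u with h | h
    · exact Or.inl h
    · exact Or.inr ⟨⟨by omega, by omega⟩, hp.2⟩
  have h2 : ∑ p ∈ (Ico u v).filter Nat.Prime, 1 / (p : ℝ) ≤
      ∑ p ∈ insert u (RG.prm u v), 1 / (p : ℝ) :=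
    sum_le_sum_of_subset_of_nonneg h1 fun _ _ _ => by positivity
  rw [sum_insert (by rw [RG.mem_prm]; omega)] at h2
  have h3 := (abs_le.1 (hrec u v hu huv)).2
  linarith

/-- `log v/log u ≤ r` implies `log log v - log log u ≤ log r` -/
private lemma geo_loglog {u v : ℕ} {r : ℝ} (hu : 2 ≤ u) (huv : u ≤ v) (h : log v ≤ r * log u) :
    log (log v) - log (log u) ≤ log r := by
  have hu1 : (2 : ℝ) ≤ u := by exact_mod_cast hu
  have huv' : (u : ℝ) ≤ v := by exact_mod_cast huv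
  have hlu : 0 < log (u : ℝ) := log_pos (by linarith)
  have hlv : 0 < log (v : ℝ) := log_pos (by linarith)
  have hr : 0 < r := by
    by_contra hr
    push Not at hr
    nlinarith
  have h1 := log_le_log hlv h
  rw [log_mul hr.ne' hlu.ne'] at h1
  linarith

theorem bz_gs (R0 j0 : ℕ) (hR : 2 ≤ R0) (hj : 100 ≤ j0) :
    ∀ᶠ N : ℕ in atTop, ∀ i, i < R0 * j0 - j0 → gs (bz R0 j0 N) i ≤ 1 / 2 := by
  obtain ⟨C, hC, hrec⟩ := RG.recip_bounds
  have hj0 : (0 : ℝ) < j0 := by exact_mod_cast (by omega : 0 < j0)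
  have hj1 : (100 : ℝ) ≤ j0 := by exact_mod_cast hj
  filter_upwards [bz_BS R0 j0 hR hj, ev_b0 R0 j0 100 (by omega) (by omega),
    ev_log R0 j0 (by omega) (by omega) (10 * C)] with N hBS hb hlog
  intro i hi
  set b := bz R0 j0 N with hbdef
  have hbi : b 0 ≤ b i := hBS.mono (Nat.zero_le i)
  have hbi' : b i ≤ b (i + 1) := hBS.mono (Nat.le_succ i)
  have h2 : 2 ≤ b i := hBS.two.trans hbi
  have h3 : (100 : ℝ) ≤ b i := by exact_mod_cast hb.trans hbi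
  have h4 : log (b 0 : ℝ) ≤ log (b i) := by
    have : (2 : ℝ) ≤ b 0 := by exact_mod_cast hBS.two
    exact log_le_log (by linarith) (by exact_mod_cast hbi)
  have hlpos : 0 < log (b i : ℝ) := log_pos (by linarith)
  have h5 := geo_sum hrec h2 hbi'
  have h6 : log (b (i + 1) : ℝ) ≤ (1 + 2 / j0) * log (b i) := by
    rw [← log_rpow (by linarith)]
    have : (100 : ℝ) ≤ b (i + 1) := h3.trans (by exact_mod_cast hbi')
    exact log_le_log (by linarith) (hBS.ratio i hi)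
  have h7 := geo_loglog h2 hbi' h6
  have h8 : log (1 + 2 / (j0 : ℝ)) ≤ 2 / j0 := by
    have := log_le_sub_one_of_pos (by positivity : (0 : ℝ) < 1 + 2 / (j0 : ℝ))
    linarith
  have h9 : 2 / (j0 : ℝ) ≤ 1 / 50 := by
    rw [div_le_div_iff₀ hj0 (by norm_num)]
    linarith
  have h10 : 1 / (b i : ℝ) ≤ 1 / 100 := one_div_le_one_div_of_le (by norm_num) h3
  have h11 : C / log (b i : ℝ) ≤ 1 / 10 := by
    rw [div_le_div_iff₀ hlpos (by norm_num)]
    linarith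
  unfold gs Bp
  linarith

theorem EE_le (R0 j0 : ℕ) (hR : 2 ≤ R0) (hj : 100 ≤ j0) :
    ∀ᶠ N : ℕ in atTop, ∀ j, j ≤ R0 * j0 - j0 →
      EE (bz R0 j0 N) j ≤ 2 * (R0 : ℝ) ^ 3 * RG.V (zz N) := by
  obtain ⟨C, hC, hrec⟩ := RG.recip_bounds
  obtain ⟨C', hC', hV⟩ := RG.V_ratio
  have hR0 : (0 : ℝ) < R0 := by exact_mod_cast (by omega : 0 < R0)
  set e0 : ℝ := (29 / 200 : ℝ) / R0 with he0
  have he0pos : 0 < e0 := by positivity
  have hlogN : ∀ᶠ N : ℕ in atTop, 100 / e0 ≤ log (N : ℝ) :=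
    (tendsto_log_atTop.comp tendsto_natCast_atTop_atTop).eventually_ge_atTop _
  filter_upwards [bz_BS R0 j0 hR hj, ev_b0 R0 j0 1000 (by omega) (by omega),
    ev_log R0 j0 (by omega) (by omega) (100 * (C + C')), hlogN, eventually_ge_atTop 1]
    with N hBS hb hlog hlN hN1
  intro j hj'
  have hN1' : (1 : ℝ) ≤ N := by exact_mod_cast hN1
  set b := bz R0 j0 N with hbdef
  have hgs : ∀ i, 0 ≤ gs b i := fun i => sum_nonneg fun p _ => by positivity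
  have hw2 : 2 ≤ b 0 := hBS.two
  have hw2' : (1000 : ℝ) ≤ b 0 := by exact_mod_cast hb
  have hJ : b (R0 * j0 - j0) = zz N := bz_J R0 j0 N (by omega) (by omega)
  have hwz : b 0 ≤ zz N := by rw [← hJ]; exact hBS.mono (Nat.zero_le _)
  have hwz' : (b 0 : ℝ) ≤ zz N := by exact_mod_cast hwz
  have hlw : 0 < log (b 0 : ℝ) := log_pos (by linarith)
  -- comparison of the logarithms
  have hlz : log (zz N : ℝ) ≤ 29 / 200 * log N := by
    rw [← log_rpow (by linarith)]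
    exact log_le_log (by linarith) (Nat.floor_le (by positivity))
  have hlw2 : 9 / 10 * (e0 * log N) ≤ log (b 0 : ℝ) := by
    have h1 : (N : ℝ) ^ e0 ≤ 2 * b 0 := by
      have h2 : b 0 = ⌊(N : ℝ) ^ e0⌋₊ := bz_zero R0 j0 N (by omega)
      have h3 := (Nat.lt_floor_add_one ((N : ℝ) ^ e0)).le
      rw [← h2] at h3
      linarith
    have h4 := log_le_log (by positivity) h1
    rw [log_rpow (by linarith), log_mul (by norm_num) (by linarith)] at h4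
    have h5 : log (2 : ℝ) ≤ 1 := by
      have := log_two_lt_d9
      linarith
    have h6 : 100 ≤ e0 * log N := by
      rw [div_le_iff₀ he0pos] at hlN
      linarith
    linarith
  have hratio : log (zz N : ℝ) ≤ (10 / 9 * R0) * log (b 0 : ℝ) := by
    have h1 : R0 * e0 = 29 / 200 := by
      rw [he0]
      field_simp
    have h2 : (10 / 9 * R0) * (9 / 10 * (e0 * log N)) = 29 / 200 * log N := by
      rw [← h1]; ring
    have h3 : (10 / 9 * R0) * (9 / 10 * (e0 * log N)) ≤ (10 / 9 * R0) * log (b 0 : ℝ) :=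
      mul_le_mul_of_nonneg_left hlw2 (by positivity)
    linarith
  -- the product
  have hprod : ∏ i ∈ range j, (1 + 2 * gs b i) ≤
      exp (2 * ∑ p ∈ (Ico (b 0) (zz N)).filter Nat.Prime, 1 / (p : ℝ)) := by
    have h1 : ∏ i ∈ range j, (1 + 2 * gs b i) ≤ ∏ i ∈ range j, exp (2 * gs b i) := by
      refine prod_le_prod (fun i _ => by have := hgs i; linarith) fun i _ => ?_
      have := add_one_le_exp (2 * gs b i)
      linarith
    rw [← exp_sum] at h1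
    refine h1.trans (exp_le_exp.2 ?_)
    rw [← mul_sum]
    refine mul_le_mul_of_nonneg_left ?_ (by norm_num)
    have h2 : ∑ i ∈ range j, gs b i ≤ ∑ i ∈ range (R0 * j0 - j0), gs b i :=
      sum_le_sum_of_subset_of_nonneg (range_mono hj') fun i _ _ => hgs i
    refine h2.trans (le_of_eq ?_)
    have h3 := sum_boxes b hBS.mono (R0 * j0 - j0) (fun p => 1 / (p : ℝ))
    rw [hJ] at h3
    exact h3
  have hsum := geo_sum hrec hw2 hwz
  have hll := geo_loglog hw2 hwz hratio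
  have hR1 : (0 : ℝ) < 10 / 9 * R0 := by positivity
  have h1 : 1 / (b 0 : ℝ) ≤ 1 / 1000 := one_div_le_one_div_of_le (by norm_num) hw2'
  have h2 : C / log (b 0 : ℝ) ≤ 1 / 100 := by
    rw [div_le_div_iff₀ hlw (by norm_num)]
    linarith
  have h3 : C' / log (b 0 : ℝ) ≤ 1 / 100 := by
    rw [div_le_div_iff₀ hlw (by norm_num)]
    linarith
  have hprod2 : ∏ i ∈ range j, (1 + 2 * gs b i) ≤ 26 / 25 * (10 / 9 * R0) ^ 2 := by
    refine hprod.trans ?_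
    have k1 : 2 * ∑ p ∈ (Ico (b 0) (zz N)).filter Nat.Prime, 1 / (p : ℝ) ≤
        3 / 100 + log ((10 / 9 * R0) ^ 2) := by
      rw [log_pow]
      push_cast
      linarith
    refine (exp_le_exp.2 k1).trans ?_
    rw [exp_add, exp_log (by positivity)]
    refine mul_le_mul_of_nonneg_right ?_ (by positivity)
    have k2 := exp_bound_div_one_sub_of_interval (x := 3 / 100) (by norm_num) (by norm_num)
    norm_num at k2 ⊢
    linarith
  -- `V w ≤ ...`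
  have hVw : RG.V (b 0) ≤ 101 / 100 * (10 / 9 * R0) * RG.V (zz N) := by
    obtain ⟨k1, -⟩ := hV (b 0) (zz N) hw2 hwz
    have hVz := RG.V_pos (zz N)
    have k2 : RG.V (b 0) * log (b 0 : ℝ) ≤
        (101 / 100 * (10 / 9 * R0) * RG.V (zz N)) * log (b 0 : ℝ) := by
      refine k1.trans ?_
      have hlz0 : 0 ≤ log (zz N : ℝ) := log_nonneg (by linarith)
      have k3 : (1 + C' / log (b 0 : ℝ)) * (RG.V (zz N) * log (zz N : ℝ)) ≤
          101 / 100 * (RG.V (zz N) * log (zz N : ℝ)) :=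
        mul_le_mul_of_nonneg_right (by linarith) (by positivity)
      have k4 : RG.V (zz N) * log (zz N : ℝ) ≤ RG.V (zz N) * ((10 / 9 * R0) * log (b 0 : ℝ)) :=
        mul_le_mul_of_nonneg_left hratio hVz.le
      linarith
    exact le_of_mul_le_mul_right k2 hlw
  have hV0 := RG.V_pos (b 0)
  have hVz := RG.V_pos (zz N)
  unfold EE
  calc RG.V (b 0) * ∏ i ∈ range j, (1 + 2 * gs b i)
      ≤ (101 / 100 * (10 / 9 * R0) * RG.V (zz N)) * (26 / 25 * (10 / 9 * R0) ^ 2) :=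
        mul_le_mul hVw hprod2 (prod_nonneg fun i _ => by have := hgs i; linarith) (by positivity)
    _ ≤ 2 * (R0 : ℝ) ^ 3 * RG.V (zz N) := by
        have k1 : 0 < (R0 : ℝ) ^ 3 * RG.V (zz N) := by positivity
        have k2 : (101 / 100 * (10 / 9 * R0) * RG.V (zz N)) * (26 / 25 * (10 / 9 * R0) ^ 2) =
            (101 / 100 * (26 / 25) * (10 / 9) ^ 3) * ((R0 : ℝ) ^ 3 * RG.V (zz N)) := by ring
        rw [k2]
        have k3 : (101 / 100 * (26 / 25) * (10 / 9) ^ 3 : ℝ) ≤ 2 := by norm_num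
        nlinarith

end Pool.Agent.PTH
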