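import Pool.Agent.PTH.Sd

/-!
# PTH / Hy: exponential sums with phase `y / m`

`f m = y/m`: `f (m+2) - 2 f (m+1) + f m = 2y/(m(m+1)(m+2))`, for `M ≤ m`, `m + 2 < 2M` between
`λ = y/(12 M^3)` (`(2M)(2M)(2M) ≤ 24 M^3`) and `2y/M^3 = 24 λ`.  If `λ ≤ 1` use `sd` with `c = 24`, `L = M`:
`≤ 20 (24 M √λ + 1/√λ) ≤ C (√(y/M) + √(M^3/y))`.  If `λ > 1` the trivial bound `M ≤ √(y/M)` holds.
`ec (-x)` is the complex conjugate of `ec x`.
-/

set_option autoImplicit false

namespace Pool.Agent.PTH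

open Finset


private theorem ec_conj (x : ℝ) : ec (-x) = (starRingEnd ℂ) (ec x) := by
  unfold ec
  rw [← Complex.exp_conj]
  congr 1
  rw [map_mul, Complex.conj_ofReal, Complex.conj_I]
  push_cast
  ring

private theorem sum_conj (s : Finset ℕ) (y : ℝ) :
    ‖∑ m ∈ s, ec (-y / m)‖ = ‖∑ m ∈ s, ec (y / m)‖ := by
  have : ∑ m ∈ s, ec (-y / m) = (starRingEnd ℂ) (∑ m ∈ s, ec (y / m)) := by
    rw [map_sum]
    refine sum_congr rfl fun m _ => ?_
    rw [neg_div, ec_conj]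
  rw [this, Complex.norm_conj]

private theorem hy1 (M : ℕ) (hM : 1 ≤ M) (y : ℝ) (hy : 0 < y) :
    ‖∑ m ∈ Ico M (2 * M), ec (y / m)‖ ≤ 480 * (√(y / M) + √((M : ℝ) ^ 3 / y)) := by
  have hM0 : (0 : ℝ) < M := by exact_mod_cast hM
  set lam : ℝ := y / (12 * (M : ℝ) ^ 3) with hlam
  have hl : 0 < lam := by positivity
  have hA : 0 ≤ √(y / M) := Real.sqrt_nonneg _
  have hB : 0 ≤ √((M : ℝ) ^ 3 / y) := Real.sqrt_nonneg _
  rcases le_or_gt lam 1 with hl1 | hl1
  · have h1 := sd (fun m => y / m) M M lam 24 hl hl1 (by norm_num) (by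
      intro n hn hn'
      have hn0 : (M : ℝ) ≤ n := by exact_mod_cast hn
      have hn1 : (n : ℝ) + 2 ≤ 2 * M := by
        have : n + 2 ≤ 2 * M := by omega
        exact_mod_cast this
      have hnp : (0 : ℝ) < n := lt_of_lt_of_le hM0 hn0
      have e1 : y / ((n + 2 : ℕ) : ℝ) - 2 * (y / ((n + 1 : ℕ) : ℝ)) + y / (n : ℝ) =
          2 * y / ((n : ℝ) * (n + 1) * (n + 2)) := by
        push_cast
        field_simp
        ring
      rw [e1]
      constructor
      · rw [hlam, div_le_div_iff₀ (by positivity) (by positivity)]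
        have h2 : (n : ℝ) * (n + 1) * (n + 2) ≤ (2 * M) * (2 * M) * (2 * M) := by
          have h3 : (n : ℝ) ≤ 2 * M := by linarith
          have h4 : (n : ℝ) + 1 ≤ 2 * M := by linarith
          gcongr
        have h5 := mul_le_mul_of_nonneg_left h2 hy.le
        have h6 := mul_pos hy (pow_pos hM0 3)
        nlinarith
      · rw [hlam, show 24 * (y / (12 * (M : ℝ) ^ 3)) = 2 * y / (M : ℝ) ^ 3 by field_simp; norm_num]
        refine div_le_div_of_nonneg_left (by positivity) (by positivity) ?_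
        have h3 : (M : ℝ) ≤ n + 1 := by linarith
        have h4 : (M : ℝ) ≤ n + 2 := by linarith
        calc (M : ℝ) ^ 3 = M * M * M := by ring
          _ ≤ (n : ℝ) * (n + 1) * (n + 2) := by gcongr)
    have e0 : Ico M (2 * M) = Ico M (M + M) := by
      congr 1
      ring
    rw [e0]
    refine h1.trans ?_
    have e2 : (M : ℝ) * √lam ≤ √(y / M) := by
      rw [hlam]
      have e3 : (M : ℝ) = √((M : ℝ) ^ 2) := (Real.sqrt_sq hM0.le).symm
      calc (M : ℝ) * √(y / (12 * (M : ℝ) ^ 3)) = √((M : ℝ) ^ 2) * √(y / (12 * (M : ℝ) ^ 3)) := by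
            rw [← e3]
        _ = √((M : ℝ) ^ 2 * (y / (12 * (M : ℝ) ^ 3))) := (Real.sqrt_mul (by positivity) _).symm
        _ ≤ √(y / M) := by
            apply Real.sqrt_le_sqrt
            rw [show (M : ℝ) ^ 2 * (y / (12 * (M : ℝ) ^ 3)) = y / M / 12 by field_simp]
            have : 0 ≤ y / M := by positivity
            linarith
    have e3 : 1 / √lam ≤ 4 * √((M : ℝ) ^ 3 / y) := by
      have e4 : 1 / √lam = √(12 * ((M : ℝ) ^ 3 / y)) := by
        rw [one_div, ← Real.sqrt_inv, hlam]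
        congr 1
        field_simp
      rw [e4, Real.sqrt_mul (by norm_num)]
      refine mul_le_mul_of_nonneg_right ?_ hB
      rw [Real.sqrt_le_left (by norm_num)]
      norm_num
    have e5 : (24 : ℝ) * M * √lam ≤ 24 * √(y / M) := by
      nlinarith
    linarith
  · have h1 : ‖∑ m ∈ Ico M (2 * M), ec (y / m)‖ ≤ M := by
      refine (norm_sum_le _ _).trans ?_
      rw [sum_congr rfl fun (n : ℕ) _ => norm_ec (y / (n : ℝ)), sum_const, Nat.card_Ico]
      have : 2 * M - M = M := by omega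
      rw [this]
      simp
    have h2 : (M : ℝ) ≤ √(y / M) := by
      apply Real.le_sqrt_of_sq_le
      rw [hlam, lt_div_iff₀ (by positivity), one_mul] at hl1
      rw [le_div_iff₀ hM0]
      nlinarith [pow_pos hM0 3]
    linarith

theorem hy : ∃ C : ℝ, 0 < C ∧ ∀ M : ℕ, 1 ≤ M → ∀ y : ℝ, 0 < y →
    ‖∑ m ∈ Ico M (2 * M), ec (y / m)‖ ≤ C * (√(y / M) + √((M : ℝ) ^ 3 / y)) ∧
    ‖∑ m ∈ Ico M (2 * M), ec (-y / m)‖ ≤ C * (√(y / M) + √((M : ℝ) ^ 3 / y)) := by
  refine ⟨480, by norm_num, fun M hM y hy => ?_⟩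
  rw [sum_conj]
  exact ⟨hy1 M hM y hy, hy1 M hM y hy⟩

end Pool.Agent.PTH
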