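import Pool.Agent.PTH.Mba

/-!
# PTH / Mbu: main term inequality of the box sieve, upper bound

`D' = D^(1-ρ) ≥ b j`, `w = b 0`, `φ s = 1 - fm s - ε bm s` (increasing on `s ≥ 2`, `|φ| ≤ 2 + fm 2`),
`t_p = log D'/log p - 1`, `s_i = log (D/b (i+1))/log (b (i+1)) = log D/log (b (i+1)) - 1`.
Let `p ∈ Bp b i`, `i < j`.
* If `p^3 < D'`, then `b (i+1) ≤ p^(1+ρ)`, so `b (i+1)^3 ≤ D'^(1+ρ) ≤ D`: the box is in the sum; and
  `s_i ≥ log D/((1+ρ) log p) - 1 ≥ t_p > 2`, so `φ s_i ≥ φ t_p`; with `V p/(1+η) ≤ V (b (i+1)) ≤ V p`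
  (`V_comp`) `V (b (i+1)) φ s_i ≥ V p φ t_p - η (2 + fm 2) V p` (both signs of `φ t_p`).
* If the box is in the sum but `p^3 ≥ D'`: `V (b (i+1)) φ s_i ≥ - V w` (`φ s_i ≥ φ 2 ≥ -ε`, as
  `fm 2 = 1` is not needed: by `RG.f_two` at `s = 2`, `1 - fm 2 = 0`), and these `p` lie in
  `[D'^(1/3), D^(1/3)]`, so the sum of their `1/p` is `≤ 2ρ + C/log w` (`RG.recip_bounds`).
So the left side is `≤ V w - ∑_{w ≤ p < b j, p^3 < D'} (V p/p) φ t_p + η (2 + fm 2) ∑ V p/p + (2ρ + C/log w) V w`,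
`∑ V p/p ≤ V w` (`RG.V_sum`), and by `RG.LSB` for `D'` it is
`≤ V (b j)(1 + fp s' + ε bp s') + C' (ρ + 1/log w) V w`, `s' = (1-ρ) s`; finally `fp_shift`, `bp_shift`.
-/

set_option autoImplicit false

namespace Pool.Agent.PTH

open Finset Real

/-- Reciprocals of primes in a short window (on the logarithmic scale). -/
theorem recip_window : ∃ C : ℝ, 0 < C ∧ ∀ (T : Finset ℕ) (w : ℕ) (ρ X : ℝ), 2 ≤ w → 0 < ρ →
    ρ ≤ 1 / 100 → 0 < X →
    (∀ p ∈ T, p.Prime ∧ w ≤ p ∧ (1 - ρ) * X ≤ 3 * log p ∧ 3 * log p ≤ X) →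
    ∑ p ∈ T, 1 / (p : ℝ) ≤ C * (ρ + 1 / log w) := by
  obtain ⟨C, hC, hrec⟩ := RG.recip_bounds
  refine ⟨C + 3, by linarith, ?_⟩
  intro T w ρ X hw hρ hρ1 hX hT
  have hwR : (2 : ℝ) ≤ w := by exact_mod_cast hw
  have hlw : 0 < log (w : ℝ) := log_pos (by linarith)
  rcases T.eq_empty_or_nonempty with hTe | hTn
  · rw [hTe, Finset.sum_empty]
    positivity
  set p0 := T.min' hTn with hp0
  set p1 := T.max' hTn with hp1
  obtain ⟨h0a, h0b, h0c, h0d⟩ := hT p0 (T.min'_mem hTn)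
  obtain ⟨h1a, h1b, h1c, h1d⟩ := hT p1 (T.max'_mem hTn)
  have h01 : p0 ≤ p1 := T.min'_le _ (T.max'_mem hTn)
  have hsub : T ⊆ insert p0 (RG.prm p0 p1) := by
    intro p hp
    rw [Finset.mem_insert, RG.mem_prm]
    rcases eq_or_ne p p0 with h | h
    · exact Or.inl h
    · right
      have h2 : p0 ≤ p := T.min'_le _ hp
      have h3 : p ≤ p1 := T.le_max' _ hp
      exact ⟨⟨by omega, h3⟩, (hT p hp).1⟩
  have hnot : p0 ∉ RG.prm p0 p1 := by
    rw [RG.mem_prm]
    rintro ⟨⟨h, _⟩, _⟩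
    omega
  have h2 : ∑ p ∈ T, 1 / (p : ℝ) ≤ 1 / (p0 : ℝ) + ∑ p ∈ RG.prm p0 p1, 1 / (p : ℝ) := by
    have h3 := Finset.sum_insert (f := fun p : ℕ => 1 / (p : ℝ)) hnot
    rw [← h3]
    exact Finset.sum_le_sum_of_subset_of_nonneg hsub fun _ _ _ => by positivity
  have h3 := (abs_le.1 (hrec p0 p1 (h0a.two_le) h01)).2
  have hp0R : (w : ℝ) ≤ p0 := by exact_mod_cast h0b
  have hlp0 : log (w : ℝ) ≤ log (p0 : ℝ) := log_le_log (by linarith) hp0R
  have hl0 : 0 < log (p0 : ℝ) := by linarith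
  have hl1 : 0 < log (p1 : ℝ) := by
    have : log (p0 : ℝ) ≤ log (p1 : ℝ) := log_le_log (by linarith) (by exact_mod_cast h01)
    linarith
  have h4 : C / log (p0 : ℝ) ≤ C / log (w : ℝ) := div_le_div_of_nonneg_left hC.le hlw hlp0
  have h5 : 1 / (p0 : ℝ) ≤ 1 / log (w : ℝ) := by
    apply one_div_le_one_div_of_le hlw
    have := log_le_sub_one_of_pos (show (0 : ℝ) < p0 by linarith)
    linarith
  have h6 : log (log (p1 : ℝ)) - log (log (p0 : ℝ)) ≤ 2 * ρ := by
    rw [← log_div hl1.ne' hl0.ne']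
    have h7 : log (p1 : ℝ) / log (p0 : ℝ) ≤ 1 + 2 * ρ := by
      rw [div_le_iff₀ hl0]
      have h8 : log (p1 : ℝ) ≤ X / 3 := by linarith
      have h9 : (1 - ρ) * X / 3 ≤ log (p0 : ℝ) := by linarith
      have h10 : X / 3 ≤ (1 + 2 * ρ) * ((1 - ρ) * X / 3) := by
        have h11 : 0 ≤ ρ * (1 - 2 * ρ) * X := by
          have : 0 ≤ 1 - 2 * ρ := by linarith
          positivity
        nlinarith
      have h12 := mul_le_mul_of_nonneg_left h9 (show (0 : ℝ) ≤ 1 + 2 * ρ by linarith)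
      linarith
    have h8 := log_le_sub_one_of_pos (show 0 < log (p1 : ℝ) / log (p0 : ℝ) by positivity)
    linarith
  have h7 : C / log (w : ℝ) = C * (1 / log (w : ℝ)) := by ring
  have h8 : 0 < 1 / log (w : ℝ) := by positivity
  rw [h7] at h4
  nlinarith

open scoped Classical in
theorem mbu (fp fm : ℝ → ℝ) (Cφ : ℝ) (hΦ : RG.PhiProps fp fm Cφ) : ∃ C : ℝ, 0 < C ∧
    ∀ ε : ℝ, 0 < ε → ε ≤ 1 → ∃ Z0 : ℕ, ∀ (b : ℕ → ℕ) (ρ : ℝ) (J : ℕ), BS b ρ J → 0 < ρ →
    ρ ≤ 1 / 100 → Z0 ≤ b 0 → ∀ j, j ≤ J → ∀ D : ℝ, 0 < D → (b j : ℝ) ≤ D ^ (1 - ρ) →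
    RG.V (b 0) - ∑ i ∈ (range j).filter (fun i => (b (i + 1) : ℝ) ^ 3 ≤ D),
        gs b i * (RG.V (b (i + 1)) * (1 - fm (log (D / b (i + 1)) / log (b (i + 1))) -
          ε * RG.bm (log (D / b (i + 1)) / log (b (i + 1))))) ≤
      RG.V (b j) * (1 + fp (log D / log (b j)) + ε * RG.bp (log D / log (b j))) +
        C * (ρ + 1 / log (b 0)) * RG.V (b 0) := by
  obtain ⟨C2, hC2, hfp⟩ := fp_shift fp fm Cφ hΦ
  obtain ⟨CV, hCV, hV⟩ := V_comp
  obtain ⟨Cr, hCr, hrw⟩ := recip_window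
  have hF : 0 ≤ fm 2 := hΦ.fm_nonneg 2 le_rfl
  refine ⟨(C2 + 1) + CV * (2 + fm 2) + (fm 2 + 1) * Cr, by positivity, ?_⟩
  intro ε hε hε1
  obtain ⟨ZB, hZB2, hB⟩ := RG.LSB fp fm Cφ hΦ ε hε
  refine ⟨ZB, ?_⟩
  intro b ρ J hb hρ hρ1 hZ j hj D hD0 hD
  -- the numbers `b i`
  have hb2 : ∀ i, 2 ≤ b i := fun i => hb.two.trans (hb.mono (Nat.zero_le i))
  have hbR : ∀ i, (2 : ℝ) ≤ b i := fun i => by exact_mod_cast hb2 i
  have hlb0 : ∀ i, 0 < log (b i : ℝ) := fun i => log_pos (by linarith [hbR i])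
  -- `D'`
  have hlD : log (D ^ (1 - ρ)) = (1 - ρ) * log D := Real.log_rpow hD0 _
  have hD'0 : 0 < D ^ (1 - ρ) := Real.rpow_pos_of_pos hD0 _
  have hbj : log (b j : ℝ) ≤ (1 - ρ) * log D := by
    rw [← hlD]
    exact log_le_log (by linarith [hbR j]) hD
  have h1ρ : 0 < 1 - ρ := by linarith
  have hlogD : 0 < log D := by
    by_contra h
    push Not at h
    have := hlb0 j
    nlinarith
  have hDD : (1 - ρ) * log D ≤ log D := by nlinarith
  set η : ℝ := CV * (ρ + 1 / log (b 0)) with hη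
  have hη0 : 0 ≤ η := by
    have := hlb0 0
    positivity
  set φ : ℝ → ℝ := fun x => 1 - fm x - ε * RG.bm x with hφ
  have hφmono : ∀ x y : ℝ, 2 ≤ x → x ≤ y → φ x ≤ φ y := by
    intro x y hx hxy
    have h1 : fm y ≤ fm x := hΦ.fm_anti (Set.mem_Ici.2 hx) (Set.mem_Ici.2 (hx.trans hxy)) hxy
    have h2 : RG.bm y ≤ RG.bm x := by
      unfold RG.bm
      exact exp_le_exp.2 (by linarith)
    have h3 := mul_le_mul_of_nonneg_left h2 hε.le
    simp only [hφ]
    linarith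
  have hφabs : ∀ x : ℝ, 2 ≤ x → |φ x| ≤ 1 + fm 2 := by
    intro x hx
    have h1 : fm x ≤ fm 2 := hΦ.fm_anti (Set.mem_Ici.2 le_rfl) (Set.mem_Ici.2 hx) hx
    have h2 : 0 ≤ fm x := hΦ.fm_nonneg x hx
    have h3 : RG.bm x ≤ 1 := by
      unfold RG.bm
      rw [exp_le_one_iff]
      linarith
    have h4 : 0 < RG.bm x := RG.bm_pos x
    have h5 : ε * RG.bm x ≤ 1 := by nlinarith
    have h6 : 0 < ε * RG.bm x := by positivity
    simp only [hφ]
    rw [abs_le]
    constructor <;> linarith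
  set A := RG.V (b 0) with hA
  have hA0 : 0 < A := RG.V_pos (b 0)
  -- the minorant
  let g1 : ℕ → ℝ := fun p => if (p : ℝ) ^ 3 < D ^ (1 - ρ) then
    RG.V p / p * φ (log (D ^ (1 - ρ)) / log p - 1) else 0
  let g2 : ℕ → ℝ := fun p => RG.V p / p
  let g3 : ℕ → ℝ := fun p => if D ^ (1 - ρ) ≤ (p : ℝ) ^ 3 ∧ (p : ℝ) ^ 3 ≤ D then 1 / (p : ℝ) else 0
  have hterm : ∀ i ∈ range j,
      ∑ p ∈ Bp b i, (g1 p - η * (1 + fm 2) * g2 p - A * (1 + fm 2) * g3 p) ≤
      (if (b (i + 1) : ℝ) ^ 3 ≤ D then gs b i * (RG.V (b (i + 1)) *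
        φ (log (D / b (i + 1)) / log (b (i + 1)))) else 0) := by
    intro i hi
    rw [mem_range] at hi
    have hrhs : (if (b (i + 1) : ℝ) ^ 3 ≤ D then gs b i * (RG.V (b (i + 1)) *
        φ (log (D / b (i + 1)) / log (b (i + 1)))) else 0) =
        ∑ p ∈ Bp b i, (if (b (i + 1) : ℝ) ^ 3 ≤ D then 1 / (p : ℝ) * (RG.V (b (i + 1)) *
        φ (log (D / b (i + 1)) / log (b (i + 1)))) else 0) := by
      split_ifs with h
      · unfold gs
        rw [Finset.sum_mul]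
      · rw [Finset.sum_const_zero]
    rw [hrhs]
    apply Finset.sum_le_sum
    intro p hp
    unfold Bp at hp
    rw [Finset.mem_filter, Finset.mem_Ico] at hp
    obtain ⟨⟨hp1, hp2⟩, hp3⟩ := hp
    have hpR1 : (b i : ℝ) ≤ p := by exact_mod_cast hp1
    have hpR2 : (p : ℝ) ≤ b (i + 1) := by exact_mod_cast hp2.le
    have hpR0 : (2 : ℝ) ≤ p := (hbR i).trans hpR1
    have hratio := hb.ratio i (lt_of_lt_of_le hi hj)
    have hlp1 : log (b i : ℝ) ≤ log p := log_le_log (by linarith [hbR i]) hpR1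
    have hlp0 : 0 < log (p : ℝ) := lt_of_lt_of_le (hlb0 i) hlp1
    have hlp2 : log (p : ℝ) ≤ log (b (i + 1) : ℝ) := log_le_log (by linarith) hpR2
    have hratio2 : (b (i + 1) : ℝ) ≤ (p : ℝ) ^ (1 + ρ) := by
      refine hratio.trans ?_
      exact Real.rpow_le_rpow (by linarith [hbR i]) hpR1 (by linarith)
    have hlp4 : log (b (i + 1) : ℝ) ≤ (1 + ρ) * log (p : ℝ) := by
      rw [← Real.log_rpow (by linarith)]
      exact log_le_log (by linarith [hbR (i + 1)]) hratio2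
    have hVp0 := (RG.V_pos p).le
    have hVb0 := (RG.V_pos (b (i + 1))).le
    have hVbp : RG.V (b (i + 1)) ≤ RG.V p := V_anti hp2.le
    have hVpb : RG.V p ≤ (1 + η) * RG.V (b (i + 1)) := by
      have h1 := hV p (b (i + 1)) ρ hp3.two_le hp2.le hρ (by linarith) hratio2
      refine h1.trans ?_
      apply mul_le_mul_of_nonneg_right _ hVb0
      rw [hη]
      have h2 : 1 / log (p : ℝ) ≤ 1 / log (b 0 : ℝ) := by
        apply one_div_le_one_div_of_le (hlb0 0)
        refine (log_le_log (by linarith [hbR 0]) ?_).trans hlp1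
        exact_mod_cast hb.mono (Nat.zero_le i)
      nlinarith
    have hVbA : RG.V (b (i + 1)) ≤ A := V_anti (hb.mono (Nat.zero_le _))
    have hpinv : (0 : ℝ) ≤ 1 / (p : ℝ) := by positivity
    have hs_eq : log (D / b (i + 1)) / log (b (i + 1)) = log D / log (b (i + 1)) - 1 := by
      rw [log_div hD0.ne' (by linarith [hbR (i + 1)]), sub_div, div_self (hlb0 (i + 1)).ne']
    rw [hs_eq]
    have hg2 : 0 ≤ η * (1 + fm 2) * g2 p := by
      simp only [g2]
      positivity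
    have hg3 : 0 ≤ A * (1 + fm 2) * g3 p := by
      simp only [g3]
      split_ifs <;> positivity
    by_cases hcase : (p : ℝ) ^ 3 < D ^ (1 - ρ)
    · -- the main case
      have h3lp : 3 * log (p : ℝ) < (1 - ρ) * log D := by
        rw [← hlD]
        have h1 : log ((p : ℝ) ^ 3) < log (D ^ (1 - ρ)) := log_lt_log (by positivity) hcase
        rw [log_pow] at h1
        exact_mod_cast h1
      have h3lb : 3 * log (b (i + 1) : ℝ) ≤ log D := by
        have h1 : 3 * log (b (i + 1) : ℝ) ≤ (1 + ρ) * ((1 - ρ) * log D) := by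
          have := mul_le_mul_of_nonneg_left h3lp.le (show (0 : ℝ) ≤ 1 + ρ by linarith)
          linarith
        nlinarith [mul_nonneg (sq_nonneg ρ) hlogD.le]
      have hin : (b (i + 1) : ℝ) ^ 3 ≤ D := by
        rw [← log_le_log_iff (by have := hbR (i + 1); positivity) hD0, log_pow]
        exact_mod_cast h3lb
      rw [if_pos hin]
      have hg1 : g1 p = RG.V p / p * φ (log (D ^ (1 - ρ)) / log p - 1) := if_pos hcase
      have hg3' : g3 p = 0 := by
        simp only [g3]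
        rw [if_neg]
        rintro ⟨h1, _⟩
        linarith
      rw [hg1, hg3']
      set t : ℝ := log (D ^ (1 - ρ)) / log p - 1 with ht
      set s : ℝ := log D / log (b (i + 1)) - 1 with hs
      have ht2 : 2 ≤ t := by
        rw [ht, hlD]
        have h1 : 3 ≤ (1 - ρ) * log D / log p := by
          rw [le_div_iff₀ hlp0]
          linarith
        linarith
      have hst : t ≤ s := by
        rw [ht, hs, hlD]
        have h1 : (1 - ρ) * log D / log p ≤ log D / log (b (i + 1)) := by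
          rw [div_le_div_iff₀ hlp0 (hlb0 (i + 1))]
          have h2 : (1 - ρ) * log D * log (b (i + 1) : ℝ) ≤
              (1 - ρ) * log D * ((1 + ρ) * log (p : ℝ)) :=
            mul_le_mul_of_nonneg_left hlp4 (by positivity)
          have h3 : (1 - ρ) * log D * ((1 + ρ) * log (p : ℝ)) =
              log D * log p - ρ ^ 2 * (log D * log p) := by ring
          have h4 : 0 ≤ ρ ^ 2 * (log D * log p) := by positivity
          linarith
        linarith
      have hφst := hφmono t s ht2 hst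
      have hφs := hφabs s (ht2.trans hst)
      have hVV : |RG.V p * φ s - RG.V (b (i + 1)) * φ s| ≤ η * (1 + fm 2) * RG.V p := by
        rw [← sub_mul, abs_mul, abs_of_nonneg (by linarith)]
        have h1 : RG.V p - RG.V (b (i + 1)) ≤ η * RG.V p := by
          have := mul_le_mul_of_nonneg_left hVbp hη0
          linarith
        calc (RG.V p - RG.V (b (i + 1))) * |φ s| ≤ (η * RG.V p) * (1 + fm 2) :=
              mul_le_mul h1 hφs (abs_nonneg _) (by positivity)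
          _ = η * (1 + fm 2) * RG.V p := by ring
      have h5 := (abs_le.1 hVV).2
      have h6 : RG.V p * φ t ≤ RG.V p * φ s := mul_le_mul_of_nonneg_left hφst hVp0
      have h7 : RG.V p * φ t - η * (1 + fm 2) * RG.V p ≤ RG.V (b (i + 1)) * φ s := by linarith
      have h8 := mul_le_mul_of_nonneg_left h7 hpinv
      refine le_trans (le_of_eq ?_) h8
      simp only [g2]
      ring
    · have hg1 : g1 p = 0 := if_neg hcase
      rw [hg1]
      by_cases hin : (b (i + 1) : ℝ) ^ 3 ≤ D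
      · rw [if_pos hin]
        have hp3D : (p : ℝ) ^ 3 ≤ D := (pow_le_pow_left₀ (by linarith) hpR2 3).trans hin
        have hg3' : g3 p = 1 / (p : ℝ) := by
          simp only [g3]
          rw [if_pos ⟨not_lt.1 hcase, hp3D⟩]
        rw [hg3']
        have h3lb : 3 * log (b (i + 1) : ℝ) ≤ log D := by
          have h1 : log ((b (i + 1) : ℝ) ^ 3) ≤ log D :=
            log_le_log (by have := hbR (i + 1); positivity) hin
          rw [log_pow] at h1
          exact_mod_cast h1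
        have hs2 : 2 ≤ log D / log (b (i + 1)) - 1 := by
          have h1 : 3 ≤ log D / log (b (i + 1)) := by
            rw [le_div_iff₀ (hlb0 (i + 1))]
            linarith
          linarith
        have hφs := (abs_le.1 (hφabs _ hs2)).1
        have h1 : -(A * (1 + fm 2)) ≤ RG.V (b (i + 1)) * φ (log D / log (b (i + 1)) - 1) := by
          have h2 := mul_le_mul_of_nonneg_left hφs hVb0
          have h3 := mul_le_mul_of_nonneg_right hVbA (show (0 : ℝ) ≤ 1 + fm 2 by linarith)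
          linarith
        have h2 := mul_le_mul_of_nonneg_left h1 hpinv
        have h3 : 1 / (p : ℝ) * -(A * (1 + fm 2)) = -(A * (1 + fm 2) * (1 / (p : ℝ))) := by ring
        rw [h3] at h2
        linarith
      · rw [if_neg hin]
        linarith
  have hsum := Finset.sum_le_sum hterm
  rw [sum_boxes b hb.mono j, Finset.sum_sub_distrib, Finset.sum_sub_distrib, ← Finset.mul_sum,
    ← Finset.mul_sum] at hsum
  -- first sum
  have hLSB := hB (b 0) (b j) hZ (hb.mono (Nat.zero_le j)) (D ^ (1 - ρ)) hD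
  have hs' : log (D ^ (1 - ρ)) / log (b j) = (1 - ρ) * (log D / log (b j)) := by
    rw [hlD]; ring
  rw [hs'] at hLSB
  have hG1 : ∑ p ∈ (Ico (b 0) (b j)).filter Nat.Prime, g1 p =
      ∑ p ∈ (Ico (b 0) (b j)).filter (fun p : ℕ => p.Prime ∧ (p : ℝ) ^ 3 < D ^ (1 - ρ)),
        RG.V p / p * (1 - fm (log (D ^ (1 - ρ)) / log p - 1) -
          ε * RG.bm (log (D ^ (1 - ρ)) / log p - 1)) := by
    simp only [g1, hφ]
    rw [← Finset.sum_filter, Finset.filter_filter]
  -- second sum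
  have hVs := RG.V_sum (b 0) (b j) (hb.mono (Nat.zero_le j))
  have hVj0 := RG.V_pos (b j)
  have hVj : RG.V (b j) ≤ A := V_anti (hb.mono (Nat.zero_le j))
  have hG2 : ∑ p ∈ (Ico (b 0) (b j)).filter Nat.Prime, g2 p ≤ A := by
    simp only [g2]
    linarith
  -- third sum
  have hG3 : ∑ p ∈ (Ico (b 0) (b j)).filter Nat.Prime, g3 p ≤ Cr * (ρ + 1 / log (b 0)) := by
    simp only [g3]
    rw [← Finset.sum_filter]
    apply hrw _ (b 0) ρ (log D) (hb2 0) hρ hρ1 hlogD
    intro p hp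
    rw [Finset.mem_filter, Finset.mem_filter, Finset.mem_Ico] at hp
    obtain ⟨⟨⟨h1, _⟩, h2⟩, h3, h4⟩ := hp
    have hpR : (2 : ℝ) ≤ p := by exact_mod_cast h2.two_le
    refine ⟨h2, h1, ?_, ?_⟩
    · rw [← hlD]
      have h5 := log_le_log hD'0 h3
      rw [log_pow] at h5
      exact_mod_cast h5
    · have h5 := log_le_log (show (0 : ℝ) < (p : ℝ) ^ 3 by positivity) h4
      rw [log_pow] at h5
      exact_mod_cast h5
  -- the shifts
  set s : ℝ := log D / log (b j : ℝ) with hs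
  have h1s' : 1 ≤ (1 - ρ) * s := by
    rw [hs, ← mul_div_assoc, le_div_iff₀ (hlb0 j)]
    linarith
  have hfps := hfp ρ s hρ hρ1 h1s'
  have hbps := bp_shift ρ s hρ hρ1 h1s'
  have hG4 : RG.V (b j) * (1 + fp ((1 - ρ) * s) + ε * RG.bp ((1 - ρ) * s)) ≤
      RG.V (b j) * (1 + fp s + ε * RG.bp s) + A * ((C2 + 1) * ρ) := by
    have h1 : ε * RG.bp ((1 - ρ) * s) ≤ ε * RG.bp s + ρ := by
      have := mul_le_mul_of_nonneg_left hbps hε.le
      nlinarith
    have h2 : RG.V (b j) * (1 + fp ((1 - ρ) * s) + ε * RG.bp ((1 - ρ) * s)) ≤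
        RG.V (b j) * (1 + fp s + ε * RG.bp s + (C2 + 1) * ρ) := by
      apply mul_le_mul_of_nonneg_left _ hVj0.le
      linarith
    have h3 : RG.V (b j) * ((C2 + 1) * ρ) ≤ A * ((C2 + 1) * ρ) :=
      mul_le_mul_of_nonneg_right hVj (by positivity)
    linarith
  rw [hG1] at hsum
  have h00 : 0 < 1 / log (b 0 : ℝ) := one_div_pos.2 (hlb0 0)
  have e2 := mul_le_mul_of_nonneg_left hG2 (show 0 ≤ η * (1 + fm 2) by positivity)
  have e3 := mul_le_mul_of_nonneg_left hG3 (show 0 ≤ A * (1 + fm 2) by positivity)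
  set L : ℝ := 1 / log (b 0 : ℝ)
  have e4 : η * (1 + fm 2) * A ≤ CV * (2 + fm 2) * (ρ + L) * A := by
    rw [hη]
    have : 0 ≤ CV * (ρ + L) * A := by positivity
    nlinarith
  have e5 : A * ((C2 + 1) * ρ) ≤ (C2 + 1) * (ρ + L) * A := by
    have : 0 ≤ (C2 + 1) * L * A := by positivity
    nlinarith
  have e6 : ((C2 + 1) + CV * (2 + fm 2) + (fm 2 + 1) * Cr) * (ρ + L) * A =
      (C2 + 1) * (ρ + L) * A + CV * (2 + fm 2) * (ρ + L) * A +
        A * (1 + fm 2) * (Cr * (ρ + L)) := by ring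
  rw [e6]
  have e7 : ∑ i ∈ (range j).filter (fun i => (b (i + 1) : ℝ) ^ 3 ≤ D),
        gs b i * (RG.V (b (i + 1)) * (1 - fm (log (D / b (i + 1)) / log (b (i + 1))) -
          ε * RG.bm (log (D / b (i + 1)) / log (b (i + 1))))) =
      ∑ i ∈ range j, (if (b (i + 1) : ℝ) ^ 3 ≤ D then gs b i * (RG.V (b (i + 1)) *
        φ (log (D / b (i + 1)) / log (b (i + 1)))) else 0) := by
    rw [Finset.sum_filter]
  rw [e7]
  linarith

end Pool.Agent.PTH
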