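import Pool.Agent.PTH.IndB

/-!
# PTH / PtB: pointwise inequalities for one step of the box sieve

`chi_bx_mul`: `chi m (bx (Bp b i) * u) = ∑_{p ∈ Bp b i, p ∣ m} chi (m/p) u`.  For `p ∈ Bp b i`:
`ind (b (i+1)) k ≤ ind p k ≤ ind (b i) k` (`b i ≤ p < b (i+1)`).
* `pt_lower`: `chi m (...) ≤ ind (b 0) m - ∑_{i<j} ∑_{p ∈ Bp b i, p ∣ m} ind (b i) (m/p) ≤
  ind (b 0) m - ∑ ind p (m/p) = ind (b j) m` (`sum_boxes`, `ind_buch`).
* `pt_upper`: `≥ ind (b 0) m - ∑_{i ∈ S} ∑ ind (b (i+1)) (m/p) ≥ ind (b 0) m - ∑_{i < j} ∑ ind p (m/p)`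
  (the terms with `i ∉ S` are `≥ 0`).
-/

set_option autoImplicit false

namespace Pool.Agent.PTH

open Finset

theorem PtB_ind_box {b : ℕ → ℕ} {i p : ℕ} (hp : p ∈ Bp b i) (k : ℕ) :
    ind (b (i + 1)) k ≤ ind p k ∧ ind p k ≤ ind (b i) k := by
  unfold Bp at hp
  rw [mem_filter, mem_Ico] at hp
  exact ⟨ind_anti (by omega) k, ind_anti hp.1.1 k⟩

theorem PtB_one_le {b : ℕ → ℕ} {i p : ℕ} (hp : p ∈ Bp b i) : 1 ≤ p := by
  unfold Bp at hp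
  rw [mem_filter] at hp
  exact hp.2.one_lt.le

theorem PtB_sum (b : ℕ → ℕ) (hb : Monotone b) (j m : ℕ) (hm : 1 ≤ m) :
    ∑ i ∈ range j, ∑ p ∈ (Bp b i).filter (fun p => p ∣ m), ind p (m / p) =
      ind (b 0) m - ind (b j) m := by
  rw [ind_buch (b 0) (b j) m (hb (Nat.zero_le j)) hm, sub_sub_cancel, sum_filter,
    ← sum_boxes b hb j]
  refine sum_congr rfl (fun i _ => ?_)
  rw [sum_filter]

theorem PtB_div_pos {m p : ℕ} (hm : 1 ≤ m) (hd : p ∣ m) : 1 ≤ m / p :=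
  Nat.div_pos (Nat.le_of_dvd hm hd) (Nat.pos_of_dvd_of_pos hd hm)

theorem pt_lower (b : ℕ → ℕ) (hb : Monotone b) (j : ℕ) (lm : SA) (u : ℕ → SA)
    (h0 : ∀ m, 1 ≤ m → chi m lm ≤ ind (b 0) m)
    (hu : ∀ i, i < j → ∀ m, 1 ≤ m → ind (b i) m ≤ chi m (u i)) (m : ℕ) (hm : 1 ≤ m) :
    chi m (lm - ∑ i ∈ range j, bx (Bp b i) * u i) ≤ ind (b j) m := by
  rw [chi_sub, chi_sum]
  have h1 : ∑ i ∈ range j, ∑ p ∈ (Bp b i).filter (fun p => p ∣ m), ind p (m / p) ≤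
      ∑ i ∈ range j, chi m (bx (Bp b i) * u i) := by
    refine sum_le_sum (fun i hi => ?_)
    rw [chi_bx_mul (fun p hp => PtB_one_le hp)]
    refine sum_le_sum (fun p hp => ?_)
    rw [mem_filter] at hp
    exact (PtB_ind_box hp.1 _).2.trans (hu i (mem_range.1 hi) _ (PtB_div_pos hm hp.2))
  rw [PtB_sum b hb j m hm] at h1
  linarith [h0 m hm]

theorem pt_upper (b : ℕ → ℕ) (hb : Monotone b) (j : ℕ) (S : Finset ℕ) (hS : S ⊆ range j)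
    (lp : SA) (l : ℕ → SA) (h0 : ∀ m, 1 ≤ m → ind (b 0) m ≤ chi m lp)
    (hl : ∀ i ∈ S, ∀ m, 1 ≤ m → chi m (l i) ≤ ind (b (i + 1)) m) (m : ℕ) (hm : 1 ≤ m) :
    ind (b j) m ≤ chi m (lp - ∑ i ∈ S, bx (Bp b i) * l i) := by
  rw [chi_sub, chi_sum]
  have h1 : ∑ i ∈ S, chi m (bx (Bp b i) * l i) ≤
      ∑ i ∈ S, ∑ p ∈ (Bp b i).filter (fun p => p ∣ m), ind p (m / p) := by
    refine sum_le_sum (fun i hi => ?_)
    rw [chi_bx_mul (fun p hp => PtB_one_le hp)]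
    refine sum_le_sum (fun p hp => ?_)
    rw [mem_filter] at hp
    exact (hl i hi _ (PtB_div_pos hm hp.2)).trans (PtB_ind_box hp.1 _).1
  have h2 : ∑ i ∈ S, ∑ p ∈ (Bp b i).filter (fun p => p ∣ m), ind p (m / p) ≤
      ∑ i ∈ range j, ∑ p ∈ (Bp b i).filter (fun p => p ∣ m), ind p (m / p) :=
    sum_le_sum_of_subset_of_nonneg hS (fun i _ _ => sum_nonneg (fun p _ => ind_nonneg _ _))
  rw [PtB_sum b hb j m hm] at h2
  linarith [h0 m hm]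

end Pool.Agent.PTH
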