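import Pool.Agent.PTH.Mbl
import Pool.Agent.PTH.Mbu
import Pool.Agent.PTH.PtB
import Pool.Agent.PTH.DecL
import Pool.Agent.RG.PhiF
import Pool.Agent.RG.Mer

/-!
# PTH / Ind: the induction of the box sieve

`κ = C (εF + ρ + 1/log w)`, `w = b 0`, with `C ≥` the constants of `mbl`, `mbu`, plus `1`, and `C ≥ 2 A`
(`RG.f_two`); `E_j = EE b j`, so `E_0 = V w`, `E_{j+1} - E_j = 2 g_j E_j ≥ g_j E_{j+1}` (`g_j ≤ 1/2`), hence
`V w + ∑_{i<j} g_i E_i ≤ V w + ∑_{i<j} g_i E_{i+1} ≤ E_j`.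
Strong induction on `j ≤ J`: first the lower bound for `j` (uses the upper bound for `i < j`), then the
upper bound for `j` (uses the lower bound for `i + 1 ≤ j`).
* Lower, `(b j)^2 ≤ D^(1-ρ)`: `f = lm - ∑_{i<j} bx (Bp b i) * u_i`, `u_i` the upper element for
  `(D/b (i+1), i)`: `(D/b(i+1))^(1-ρ) ≥ (b j)^2/b (i+1) ≥ b i`.  `pt_lower`; `mu f ≥ V w (1-εF) -
  ∑ g_i (V (b i)(1 + fp + ε bp) + κ E_i)`, then `mbl`.  `Dec`: `b (i+1)^2 ≤ D`, `dec_bx`, `dec_sub_sum`,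
  number of terms `≤ 1 + j (cc (2j-1) + 1) ≤ cc (2j)` (for `j = 0` there are no `i`).
* Lower, `(b j)^2 > D^(1-ρ)`: `f = 0`; `s = log D/log (b j) ∈ [2, 2/(1-ρ))`, so
  `1 - fm s = A log (s-1)/s ≤ A (s-2)/2 ≤ 2 A ρ` and `V (b j)(1 - fm s - ε bm s) ≤ 2 A ρ V w ≤ κ E_j`.
* Upper: `S = {i < j : b (i+1)^3 ≤ D}`, `f = lp - ∑_{i ∈ S} bx (Bp b i) * l_i`, `l_i` the lower element for
  `(D/b (i+1), i+1)` (`b (i+1)^2 ≤ D/b (i+1)`); `pt_upper`, `mbu`.  Terms `≤ 1 + j (cc (2j) + 1) ≤ cc (2j+1)`.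
`D > 0` in both cases (`D ≥ (b j)^2`, resp. an assumption).
-/

set_option autoImplicit false

namespace Pool.Agent.PTH

open Finset Real

theorem Ind_gs_nonneg (b : ℕ → ℕ) (i : ℕ) : 0 ≤ gs b i :=
  sum_nonneg fun p _ => by positivity

theorem Ind_EE_succ (b : ℕ → ℕ) (j : ℕ) : EE b (j + 1) = EE b j * (1 + 2 * gs b j) := by
  unfold EE
  rw [prod_range_succ, mul_assoc]

theorem Ind_EE_nonneg (b : ℕ → ℕ) (j : ℕ) : 0 ≤ EE b j := by
  unfold EE
  refine mul_nonneg (RG.V_pos _).le (prod_nonneg fun i _ => ?_)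
  have := Ind_gs_nonneg b i
  linarith

theorem Ind_EE_sum1 (b : ℕ → ℕ) (j : ℕ) :
    RG.V (b 0) + ∑ i ∈ range j, gs b i * EE b i ≤ EE b j := by
  induction j with
  | zero => simp [EE]
  | succ j ih =>
    rw [sum_range_succ, Ind_EE_succ]
    nlinarith [mul_nonneg (Ind_gs_nonneg b j) (Ind_EE_nonneg b j)]

theorem Ind_EE_sum2 (b : ℕ → ℕ) (J : ℕ) (hg : ∀ i, i < J → gs b i ≤ 1 / 2) (j : ℕ) (hj : j ≤ J) :
    RG.V (b 0) + ∑ i ∈ range j, gs b i * EE b (i + 1) ≤ EE b j := by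
  induction j with
  | zero => simp [EE]
  | succ j ih =>
    have h1 := ih (by omega)
    rw [sum_range_succ, Ind_EE_succ]
    have h2 := hg j (by omega)
    have h3 := Ind_gs_nonneg b j
    have h4 : 0 ≤ gs b j * EE b j := mul_nonneg h3 (Ind_EE_nonneg b j)
    nlinarith [mul_nonneg h4 (sub_nonneg.2 h2)]

/-- the lower bound -/
def Ind_Lo (fm : ℝ → ℝ) (ε κ : ℝ) (b : ℕ → ℕ) (lp lm : SA) (j : ℕ) : Prop :=
  ∀ D : ℝ, (b j : ℝ) ^ 2 ≤ D → ∃ f : SA, Dec b lp lm (cc (2 * j)) D f ∧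
      (∀ m, 1 ≤ m → chi m f ≤ ind (b j) m) ∧
      RG.V (b j) * (1 - fm (log D / log (b j)) - ε * RG.bm (log D / log (b j))) -
        κ * EE b j ≤ mu f

/-- the upper bound -/
def Ind_Up (fp : ℝ → ℝ) (ρ ε κ : ℝ) (b : ℕ → ℕ) (lp lm : SA) (j : ℕ) : Prop :=
  ∀ D : ℝ, 0 < D → (b j : ℝ) ≤ D ^ (1 - ρ) → ∃ f : SA, Dec b lp lm (cc (2 * j + 1)) D f ∧
      (∀ m, 1 ≤ m → ind (b j) m ≤ chi m f) ∧
      mu f ≤ RG.V (b j) * (1 + fp (log D / log (b j)) + ε * RG.bp (log D / log (b j))) +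
        κ * EE b j

theorem Ind_cc_even (j n : ℕ) (hn : n ≤ j) : 1 + n * (cc (2 * j - 1) + 1) ≤ cc (2 * j) := by
  rcases j with _ | j
  · have : n = 0 := by omega
    subst this
    simp [cc]
  · show 1 + n * (cc (2 * j + 1) + 1) ≤ 1 + (2 * j + 1 + 1) * (cc (2 * j + 1) + 1)
    have : n * (cc (2 * j + 1) + 1) ≤ (2 * j + 1 + 1) * (cc (2 * j + 1) + 1) :=
      Nat.mul_le_mul_right _ (by omega)
    omega

theorem Ind_cc_odd (j n : ℕ) (hn : n ≤ j) : 1 + n * (cc (2 * j) + 1) ≤ cc (2 * j + 1) := by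
  show 1 + n * (cc (2 * j) + 1) ≤ 1 + (2 * j + 1) * (cc (2 * j) + 1)
  have : n * (cc (2 * j) + 1) ≤ (2 * j + 1) * (cc (2 * j) + 1) :=
    Nat.mul_le_mul_right _ (by omega)
  omega

theorem Ind_low (fp fm : ℝ → ℝ) (A : ℝ) (hA3 : 3 ≤ A)
    (hA : ∀ s ∈ Set.Icc (2 : ℝ) 4, s * (1 - fm s) = A * log (s - 1))
    (ε κ C1 : ℝ) (hε : 0 < ε) (b : ℕ → ℕ) (ρ : ℝ) (J : ℕ) (hB : BS b ρ J) (hρ : 0 < ρ)
    (hρ' : ρ ≤ 1 / 100) (lp lm : SA) (εF : ℝ) (hεF : 0 ≤ εF)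
    (hlm : ∀ m, 1 ≤ m → chi m lm ≤ ind (b 0) m) (hmlm : RG.V (b 0) * (1 - εF) ≤ mu lm)
    (j : ℕ)
    (hmb : ∀ D : ℝ, 0 < D → (b j : ℝ) ^ 2 ≤ D ^ (1 - ρ) →
      ∑ i ∈ range j, gs b i * (RG.V (b i) * (1 + fp (log (D / b (i + 1)) / log (b i)) +
        ε * RG.bp (log (D / b (i + 1)) / log (b i)))) ≤
      RG.V (b 0) - RG.V (b j) +
        RG.V (b j) * (fm (log D / log (b j)) + ε * RG.bm (log D / log (b j))) +
        C1 * (ρ + 1 / log (b 0)) * RG.V (b 0))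
    (hκ1 : εF + C1 * (ρ + 1 / log (b 0)) ≤ κ) (hκ2 : 2 * A * ρ ≤ κ)
    (hup : ∀ i, i < j → Ind_Up fp ρ ε κ b lp lm i) : Ind_Lo fm ε κ b lp lm j := by
  intro D hD
  have b2 : ∀ i, 2 ≤ b i := fun i => hB.two.trans (hB.mono (Nat.zero_le i))
  have b2' : ∀ i, (2 : ℝ) ≤ (b i : ℝ) := fun i => by exact_mod_cast b2 i
  have bmono : ∀ {i i' : ℕ}, i ≤ i' → (b i : ℝ) ≤ (b i' : ℝ) := fun h => by
    exact_mod_cast hB.mono h
  have hV0 := RG.V_pos (b 0)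
  have hVj := RG.V_pos (b j)
  have hVV : RG.V (b j) ≤ RG.V (b 0) := V_anti (hB.mono (Nat.zero_le j))
  have hbj := b2' j
  have hD0 : 0 < D := by nlinarith
  have hκ0 : 0 ≤ κ := by
    have : 0 ≤ 2 * A * ρ := by positivity
    linarith
  have hE := Ind_EE_sum1 b j
  have hsum0 : 0 ≤ ∑ i ∈ range j, gs b i * EE b i :=
    sum_nonneg fun i _ => mul_nonneg (Ind_gs_nonneg b i) (Ind_EE_nonneg b i)
  by_cases hc : (b j : ℝ) ^ 2 ≤ D ^ (1 - ρ)
  · have hex : ∀ i, i < j → ∃ u : SA, Dec b lp lm (cc (2 * i + 1)) (D / b (i + 1)) u ∧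
        (∀ m, 1 ≤ m → ind (b i) m ≤ chi m u) ∧
        mu u ≤ RG.V (b i) * (1 + fp (log (D / b (i + 1)) / log (b i)) +
          ε * RG.bp (log (D / b (i + 1)) / log (b i))) + κ * EE b i := by
      intro i hi
      have hb1 := b2' (i + 1)
      refine hup i hi (D / b (i + 1)) (by positivity) ?_
      rw [Real.div_rpow hD0.le (by positivity), le_div_iff₀ (by positivity)]
      have h1 : (b (i + 1) : ℝ) ^ (1 - ρ) ≤ b (i + 1) := by
        have := Real.rpow_le_rpow_of_exponent_le (show (1 : ℝ) ≤ b (i + 1) by linarith)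
          (show 1 - ρ ≤ 1 by linarith)
        rwa [Real.rpow_one] at this
      calc (b i : ℝ) * (b (i + 1) : ℝ) ^ (1 - ρ) ≤ b j * b j :=
            mul_le_mul (bmono hi.le) (h1.trans (bmono hi)) (by positivity) (by positivity)
        _ = (b j : ℝ) ^ 2 := by ring
        _ ≤ D ^ (1 - ρ) := hc
    choose! u hu using hex
    refine ⟨lm - ∑ i ∈ range j, bx (Bp b i) * u i, ?_, ?_, ?_⟩
    · have h1 : ∀ i ∈ range j, Dec b lp lm (cc (2 * j - 1) + 1) D (bx (Bp b i) * u i) := by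
        intro i hi
        rw [mem_range] at hi
        refine dec_bx b lp lm _ i D _ (by have := b2 (i + 1); omega) ?_
          (dec_mono b lp lm (cc_mono (by omega)) _ _ (hu i hi).1)
        have h2 : (b (i + 1) : ℝ) ≤ b j := bmono hi
        have h3 := b2' (i + 1)
        nlinarith
      have h4 := dec_sub_sum b lp lm 1 _ D lm (range j) _ (dec_lm b lp lm D) h1
      rw [card_range] at h4
      exact dec_mono b lp lm (Ind_cc_even j j le_rfl) _ _ h4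
    · exact fun m hm => pt_lower b hB.mono j lm u hlm (fun i hi => (hu i hi).2.1) m hm
    · rw [mu_sub, mu_sum]
      have h1 : ∑ i ∈ range j, mu (bx (Bp b i) * u i) ≤
          ∑ i ∈ range j, gs b i * (RG.V (b i) * (1 + fp (log (D / b (i + 1)) / log (b i)) +
            ε * RG.bp (log (D / b (i + 1)) / log (b i)))) +
          κ * ∑ i ∈ range j, gs b i * EE b i := by
        rw [mul_sum, ← sum_add_distrib]
        refine sum_le_sum (fun i hi => ?_)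
        rw [mem_range] at hi
        rw [mu_bx_mul]
        have h2 := mul_le_mul_of_nonneg_left (hu i hi).2.2 (Ind_gs_nonneg b i)
        have h3 : gs b i = ∑ p ∈ Bp b i, 1 / (p : ℝ) := rfl
        rw [← h3]
        refine h2.trans (le_of_eq ?_)
        ring
      have h2 := hmb D hD0 hc
      have h3 : (εF + C1 * (ρ + 1 / log (b 0))) * RG.V (b 0) ≤ κ * RG.V (b 0) :=
        mul_le_mul_of_nonneg_right hκ1 hV0.le
      have h4 : κ * (RG.V (b 0) + ∑ i ∈ range j, gs b i * EE b i) ≤ κ * EE b j :=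
        mul_le_mul_of_nonneg_left hE hκ0
      nlinarith
  · rw [not_le] at hc
    refine ⟨0, dec_zero _ _ _ _ _, fun m _ => by rw [chi_zero]; exact ind_nonneg _ _, ?_⟩
    rw [mu_zero]
    have hlb : 0 < log (b j) := log_pos (by linarith)
    set s := log D / log (b j) with hs
    have hlD : 2 * log (b j) ≤ log D := by
      have h1 := log_le_log (by positivity) hD
      rw [log_pow] at h1
      exact_mod_cast h1
    have hs2 : 2 ≤ s := by
      rw [hs, le_div_iff₀ hlb]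
      exact hlD
    have hs3 : (1 - ρ) * s < 2 := by
      have h1 := log_lt_log (by positivity) hc
      rw [log_rpow hD0, log_pow] at h1
      rw [hs, ← mul_div_assoc, div_lt_iff₀ hlb]
      exact_mod_cast h1
    have hs4 : s ≤ 3 := by nlinarith
    have hs5 : s - 2 ≤ 3 * ρ := by nlinarith
    have h1 := hA s ⟨hs2, by linarith⟩
    have h2 : log (s - 1) ≤ s - 2 := by
      have := log_le_sub_one_of_pos (show 0 < s - 1 by linarith)
      linarith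
    have h3 : s * (1 - fm s) ≤ 3 * A * ρ := by
      rw [h1]
      nlinarith
    have h4 : 1 - fm s ≤ 2 * A * ρ := by
      by_contra hcon
      rw [not_le] at hcon
      have h5 : 0 < A * ρ := by positivity
      nlinarith
    have h5 : 0 ≤ ε * RG.bm s := mul_nonneg hε.le (exp_pos _).le
    have h6 : RG.V (b j) * (1 - fm s - ε * RG.bm s) ≤ RG.V (b j) * κ :=
      mul_le_mul_of_nonneg_left (by linarith) hVj.le
    have h7 : RG.V (b j) * κ ≤ EE b j * κ := mul_le_mul_of_nonneg_right (by linarith) hκ0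
    linarith

open scoped Classical in
theorem Ind_upp (fp fm : ℝ → ℝ)
    (ε κ C2 : ℝ) (b : ℕ → ℕ) (ρ : ℝ) (J : ℕ) (hB : BS b ρ J) (hρ : 0 < ρ)
    (hg : ∀ i, i < J → gs b i ≤ 1 / 2)
    (lp lm : SA) (εF : ℝ) (hεF : 0 ≤ εF)
    (hlp : ∀ m, 1 ≤ m → ind (b 0) m ≤ chi m lp) (hmlp : mu lp ≤ RG.V (b 0) * (1 + εF))
    (j : ℕ) (hj : j ≤ J)
    (hmb : ∀ D : ℝ, 0 < D → (b j : ℝ) ≤ D ^ (1 - ρ) →
    RG.V (b 0) - ∑ i ∈ (range j).filter (fun i => (b (i + 1) : ℝ) ^ 3 ≤ D),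
        gs b i * (RG.V (b (i + 1)) * (1 - fm (log (D / b (i + 1)) / log (b (i + 1))) -
          ε * RG.bm (log (D / b (i + 1)) / log (b (i + 1))))) ≤
      RG.V (b j) * (1 + fp (log D / log (b j)) + ε * RG.bp (log D / log (b j))) +
        C2 * (ρ + 1 / log (b 0)) * RG.V (b 0))
    (hκ0 : 0 ≤ κ) (hκ1 : εF + C2 * (ρ + 1 / log (b 0)) ≤ κ)
    (hlo : ∀ i, i < j → Ind_Lo fm ε κ b lp lm (i + 1)) : Ind_Up fp ρ ε κ b lp lm j := by
  intro D hD0 hD
  have b2 : ∀ i, 2 ≤ b i := fun i => hB.two.trans (hB.mono (Nat.zero_le i))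
  have b2' : ∀ i, (2 : ℝ) ≤ (b i : ℝ) := fun i => by exact_mod_cast b2 i
  have hV0 := RG.V_pos (b 0)
  have hE := Ind_EE_sum2 b J hg j hj
  set T := (range j).filter (fun i => (b (i + 1) : ℝ) ^ 3 ≤ D) with hT
  have hex : ∀ i, i ∈ T → ∃ u : SA, Dec b lp lm (cc (2 * (i + 1))) (D / b (i + 1)) u ∧
        (∀ m, 1 ≤ m → chi m u ≤ ind (b (i + 1)) m) ∧
        RG.V (b (i + 1)) * (1 - fm (log (D / b (i + 1)) / log (b (i + 1))) -
          ε * RG.bm (log (D / b (i + 1)) / log (b (i + 1)))) - κ * EE b (i + 1) ≤ mu u := by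
    intro i hi
    rw [hT, mem_filter, mem_range] at hi
    refine hlo i hi.1 (D / b (i + 1)) ?_
    have hb1 := b2' (i + 1)
    rw [le_div_iff₀ (by positivity)]
    calc (b (i + 1) : ℝ) ^ 2 * b (i + 1) = (b (i + 1) : ℝ) ^ 3 := by ring
      _ ≤ D := hi.2
  choose! u hu using hex
  refine ⟨lp - ∑ i ∈ T, bx (Bp b i) * u i, ?_, ?_, ?_⟩
  · have h1 : ∀ i ∈ T, Dec b lp lm (cc (2 * j) + 1) D (bx (Bp b i) * u i) := by
      intro i hi
      have hi' := hi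
      rw [hT, mem_filter, mem_range] at hi'
      refine dec_bx b lp lm _ i D _ (by have := b2 (i + 1); omega) ?_
        (dec_mono b lp lm (cc_mono (by omega)) _ _ (hu i hi).1)
      have h3 := b2' (i + 1)
      refine le_trans ?_ hi'.2
      exact pow_le_pow_right₀ (by linarith) (by norm_num)
    have h4 := dec_sub_sum b lp lm 1 _ D lp T _ (dec_lp b lp lm D) h1
    have h5 : T.card ≤ j := by
      have := card_filter_le (range j) (fun i => (b (i + 1) : ℝ) ^ 3 ≤ D)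
      rwa [card_range] at this
    exact dec_mono b lp lm (Ind_cc_odd j T.card h5) _ _ h4
  · exact fun m hm => pt_upper b hB.mono j T (filter_subset _ _) lp u hlp
      (fun i hi => (hu i hi).2.1) m hm
  · rw [mu_sub, mu_sum]
    have h1 : ∑ i ∈ T, gs b i *
          (RG.V (b (i + 1)) * (1 - fm (log (D / b (i + 1)) / log (b (i + 1))) -
          ε * RG.bm (log (D / b (i + 1)) / log (b (i + 1))))) -
        κ * ∑ i ∈ T, gs b i * EE b (i + 1) ≤ ∑ i ∈ T, mu (bx (Bp b i) * u i) := by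
      rw [mul_sum, ← sum_sub_distrib]
      refine sum_le_sum (fun i hi => ?_)
      rw [mu_bx_mul]
      have h2 := mul_le_mul_of_nonneg_left (hu i hi).2.2 (Ind_gs_nonneg b i)
      have h3 : gs b i = ∑ p ∈ Bp b i, 1 / (p : ℝ) := rfl
      rw [← h3]
      refine (le_of_eq ?_).trans h2
      ring
    have h2 := hmb D hD0 hD
    have h3 : (εF + C2 * (ρ + 1 / log (b 0))) * RG.V (b 0) ≤ κ * RG.V (b 0) :=
      mul_le_mul_of_nonneg_right hκ1 hV0.le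
    have h5 : ∑ i ∈ T, gs b i * EE b (i + 1) ≤ ∑ i ∈ range j, gs b i * EE b (i + 1) :=
      sum_le_sum_of_subset_of_nonneg (filter_subset _ _)
        (fun i _ _ => mul_nonneg (Ind_gs_nonneg b i) (Ind_EE_nonneg b _))
    have h4 : κ * (RG.V (b 0) + ∑ i ∈ T, gs b i * EE b (i + 1)) ≤ κ * EE b j :=
      mul_le_mul_of_nonneg_left (by linarith) hκ0
    nlinarith

theorem box_ind (fp fm : ℝ → ℝ) (Cφ : ℝ) (hΦ : RG.PhiProps fp fm Cφ) : ∃ C : ℝ, 0 < C ∧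
    ∀ ε : ℝ, 0 < ε → ε ≤ 1 → ∃ Z0 : ℕ, ∀ (b : ℕ → ℕ) (ρ : ℝ) (J : ℕ), BS b ρ J → 0 < ρ →
    ρ ≤ 1 / 100 → Z0 ≤ b 0 → (∀ i, i < J → gs b i ≤ 1 / 2) → ∀ (lp lm : SA) (εF : ℝ), 0 ≤ εF →
    (∀ m, 1 ≤ m → ind (b 0) m ≤ chi m lp) → (∀ m, 1 ≤ m → chi m lm ≤ ind (b 0) m) →
    mu lp ≤ RG.V (b 0) * (1 + εF) → RG.V (b 0) * (1 - εF) ≤ mu lm → ∀ j, j ≤ J →
    (∀ D : ℝ, (b j : ℝ) ^ 2 ≤ D → ∃ f : SA, Dec b lp lm (cc (2 * j)) D f ∧
      (∀ m, 1 ≤ m → chi m f ≤ ind (b j) m) ∧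
      RG.V (b j) * (1 - fm (log D / log (b j)) - ε * RG.bm (log D / log (b j))) -
        C * (εF + ρ + 1 / log (b 0)) * EE b j ≤ mu f) ∧
    (∀ D : ℝ, 0 < D → (b j : ℝ) ≤ D ^ (1 - ρ) → ∃ f : SA, Dec b lp lm (cc (2 * j + 1)) D f ∧
      (∀ m, 1 ≤ m → ind (b j) m ≤ chi m f) ∧
      mu f ≤ RG.V (b j) * (1 + fp (log D / log (b j)) + ε * RG.bp (log D / log (b j))) +
        C * (εF + ρ + 1 / log (b 0)) * EE b j) := by
  obtain ⟨A, hA3, -, hA⟩ := RG.f_two fp fm Cφ hΦ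
  obtain ⟨C1, hC1, H1⟩ := mbl fp fm Cφ hΦ
  obtain ⟨C2, hC2, H2⟩ := mbu fp fm Cφ hΦ
  refine ⟨C1 + C2 + 1 + 2 * A, by linarith, fun ε hε hε1 => ?_⟩
  obtain ⟨Z1, K1⟩ := H1 ε hε hε1
  obtain ⟨Z2, K2⟩ := H2 ε hε hε1
  refine ⟨max Z1 Z2, ?_⟩
  intro b ρ J hB hρ hρ' hZ hg lp lm εF hεF hlp hlm hmlp hmlm
  have hlw : 0 < log (b 0 : ℝ) := by
    refine log_pos ?_
    have h2 : (2 : ℝ) ≤ (b 0 : ℝ) := by exact_mod_cast hB.two
    linarith
  have hx : 0 < ρ + 1 / log (b 0 : ℝ) := by positivity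
  set κ := (C1 + C2 + 1 + 2 * A) * (εF + ρ + 1 / log (b 0)) with hκ
  have hκ0 : 0 ≤ κ := by
    rw [hκ]
    refine mul_nonneg (by linarith) (by linarith)
  have hy : 0 ≤ 1 / log (b 0 : ℝ) := by positivity
  have hκ1 : εF + C1 * (ρ + 1 / log (b 0)) ≤ κ := by
    rw [hκ]
    nlinarith [mul_nonneg hC1.le hεF, mul_nonneg hC2.le hεF, mul_nonneg hC2.le hx.le,
      mul_nonneg (show 0 ≤ A by linarith) hεF, mul_nonneg (show 0 ≤ A by linarith) hx.le]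
  have hκ2 : εF + C2 * (ρ + 1 / log (b 0)) ≤ κ := by
    rw [hκ]
    nlinarith [mul_nonneg hC1.le hεF, mul_nonneg hC2.le hεF, mul_nonneg hC1.le hx.le,
      mul_nonneg (show 0 ≤ A by linarith) hεF, mul_nonneg (show 0 ≤ A by linarith) hx.le]
  have hκ3 : 2 * A * ρ ≤ κ := by
    rw [hκ]
    nlinarith [mul_nonneg hC1.le hεF, mul_nonneg hC2.le hεF, mul_nonneg hC1.le hx.le,
      mul_nonneg hC2.le hx.le, mul_nonneg (show 0 ≤ A by linarith) hεF,
      mul_nonneg (show 0 ≤ A by linarith) hy]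
  have main : ∀ j, j ≤ J → Ind_Lo fm ε κ b lp lm j ∧ Ind_Up fp ρ ε κ b lp lm j := by
    intro j
    induction j using Nat.strong_induction_on with
    | _ j ih =>
      intro hj
      have h1 : Ind_Lo fm ε κ b lp lm j :=
        Ind_low fp fm A hA3 hA ε κ C1 hε b ρ J hB hρ hρ' lp lm εF hεF hlm hmlm j
          (K1 b ρ J hB hρ hρ' (le_trans (le_max_left _ _) hZ) j hj) hκ1 hκ3
          (fun i hi => (ih i hi (by omega)).2)
      refine ⟨h1, ?_⟩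
      refine Ind_upp fp fm ε κ C2 b ρ J hB hρ hg lp lm εF hεF hlp hmlp j hj
        (K2 b ρ J hB hρ hρ' (le_trans (le_max_right _ _) hZ) j hj) hκ0 hκ2 ?_
      intro i hi
      rcases Nat.lt_or_eq_of_le (show i + 1 ≤ j by omega) with h | h
      · exact (ih (i + 1) h (by omega)).1
      · rw [h]
        exact h1
  exact fun j hj => main j hj

end Pool.Agent.PTH
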