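import Pool.Agent.PTH.Def

/-!
# PTH / IndB: Buchstab's identity for the indicator function

* `ind_buch` (`m ≥ 1`, `y ≤ z`): if `m` has a prime factor `< y`, all terms vanish except ... : for a prime
  `p ∣ m`, `y ≤ p < z`, `m / p` still has a prime factor `< y ≤ p` (a prime `< y` dividing `m = p (m/p)` and
  different from `p` divides `m/p`), so the sum is `0`.  Otherwise, if `m` has no prime factor in
  `[y, z)` both sides are `1`; else let `p0` be the smallest prime factor of `m` (`y ≤ p0 < z`):
  `ind p0 (m/p0) = 1`, and for the other primes `p > p0` of the sum `p0 ∣ m/p`, `ind p (m/p) = 0`.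
* `ind_div`: for a prime `q ≥ z`, `q ∣ m`, a prime `< z` divides `m` iff it divides `m/q`.
* `sum_boxes`: `[b 0, b j)` is the disjoint union of the `[b i, b (i+1))`, `i < j` (induction on `j`).
-/

set_option autoImplicit false

namespace Pool.Agent.PTH

open Finset

theorem ind_nonneg (z m : ℕ) : 0 ≤ ind z m := by
  unfold ind
  split_ifs <;> norm_num

theorem ind_le_one (z m : ℕ) : ind z m ≤ 1 := by
  unfold ind
  split_ifs <;> norm_num

theorem ind_anti {y z : ℕ} (h : y ≤ z) (m : ℕ) : ind z m ≤ ind y m := by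
  unfold ind
  split_ifs with h1 h2 h2
  · exact le_rfl
  · exact absurd (fun p hp hpy => h1 p hp (lt_of_lt_of_le hpy h)) h2
  · norm_num
  · exact le_rfl

theorem ind_div (z q m : ℕ) (hq : q.Prime) (hz : z ≤ q) (hqm : q ∣ m) (hm : 1 ≤ m) :
    ind z m = ind z (m / q) := by
  obtain ⟨k, rfl⟩ := hqm
  rw [Nat.mul_div_cancel_left k hq.pos]
  unfold ind
  congr 1
  refine propext ⟨fun h p hp hpz hd => h p hp hpz (Dvd.dvd.mul_left hd q),
    fun h p hp hpz hd => ?_⟩
  rcases (Nat.Prime.dvd_mul hp).1 hd with h1 | h1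
  · have h2 := (Nat.prime_dvd_prime_iff_eq hp hq).1 h1
    omega
  · exact h p hp hpz h1

theorem IndB_ind_succ (z m : ℕ) (hm : 1 ≤ m) :
    ind (z + 1) m = ind z m - if z.Prime then (if z ∣ m then ind z (m / z) else 0) else 0 := by
  by_cases hz : z.Prime
  · rw [if_pos hz]
    by_cases hd : z ∣ m
    · rw [if_pos hd, ← ind_div z z m hz le_rfl hd hm, sub_self]
      unfold ind
      rw [if_neg]
      intro h
      exact h z hz (Nat.lt_succ_self z) hd
    · rw [if_neg hd, sub_zero]
      unfold ind
      congr 1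
      refine propext ⟨fun h p hp hpz => h p hp (by omega), fun h p hp hpz => ?_⟩
      rcases Nat.lt_or_eq_of_le (Nat.lt_succ_iff.1 hpz) with h1 | h1
      · exact h p hp h1
      · rw [h1]; exact hd
  · rw [if_neg hz, sub_zero]
    unfold ind
    congr 1
    refine propext ⟨fun h p hp hpz => h p hp (by omega), fun h p hp hpz => ?_⟩
    rcases Nat.lt_or_eq_of_le (Nat.lt_succ_iff.1 hpz) with h1 | h1
    · exact h p hp h1
    · rw [h1] at hp
      exact absurd hp hz

theorem ind_buch (y z m : ℕ) (hyz : y ≤ z) (hm : 1 ≤ m) :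
    ind z m = ind y m -
      ∑ p ∈ ((Ico y z).filter Nat.Prime).filter (fun p => p ∣ m), ind p (m / p) := by
  rw [sum_filter, sum_filter]
  induction z, hyz using Nat.le_induction with
  | base => simp
  | succ z hyz ih =>
    rw [sum_Ico_succ_top hyz, IndB_ind_succ z m hm, ih]
    ring

theorem sum_boxes (b : ℕ → ℕ) (hb : Monotone b) (j : ℕ) (f : ℕ → ℝ) :
    ∑ i ∈ range j, ∑ p ∈ Bp b i, f p = ∑ p ∈ (Ico (b 0) (b j)).filter Nat.Prime, f p := by
  induction j with
  | zero => simp
  | succ j ih =>
    rw [sum_range_succ, ih]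
    unfold Bp
    rw [sum_filter, sum_filter, sum_filter]
    exact sum_Ico_consecutive _ (hb (Nat.zero_le j)) (hb (Nat.le_succ j))

end Pool.Agent.PTH
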