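import Pool.Agent.PTH.Def

/-!
# PTH / Kl: the inequality of Kusmin and Landau (discrete form)

Let `g n = f (n+1) - f n` and `c n = 1 / (1 - ec (g n)) = (1 + i cot (π g n)) / 2`, so that
`ec (f n) = (ec (f n) - ec (f (n+1))) c n`.  Summation by parts over `a ≤ n ≤ a + L - 2`:
`∑ ec (f n) = c_a ec (f a) + ∑_{n > a} (c n - c (n-1)) ec (f n) - c_(last-1) ec (f last) + ec (f last)`.
`|c n| = 1 / (2 |sin (π g n)|) ≤ 1 / (4 θ)` as `|sin π x| ≥ 2 θ` for `x` at distance `≥ θ` from the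
integers (`θ ≤ 1/2`); `c n - c (n-1) = (i/2) (cot (π g n) - cot (π g (n-1)))` and `cot` is decreasing
on `(π ν, π (ν+1))`, so `∑ |c n - c (n-1)| = (cot (π g first) - cot (π g last))/2 ≤ cot (π θ) ≤ 1/(π θ)`.
Total `≤ 1/(4θ) + 1/(4θ) + 1/(π θ) + 1 ≤ 2/θ`.  (`L ≤ 1` trivial.)
-/

set_option autoImplicit false

namespace Pool.Agent.PTH

open Finset

theorem norm_ec (x : ℝ) : ‖ec x‖ = 1 := by
  unfold ec
  exact Complex.norm_exp_ofReal_mul_I _


private theorem ec_add (x y : ℝ) : ec (x + y) = ec x * ec y := by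
  unfold ec
  rw [← Complex.exp_add]
  congr 1
  push_cast
  ring

private theorem ec_int (m : ℤ) : ec (m : ℝ) = 1 := by
  unfold ec
  rw [Complex.exp_eq_one_iff]
  refine ⟨m, ?_⟩
  push_cast
  ring

private theorem ec_trig (x : ℝ) : ec x = ((Real.cos (Real.pi * x) ^ 2 - Real.sin (Real.pi * x) ^ 2 : ℝ) : ℂ) +
    ((2 * Real.sin (Real.pi * x) * Real.cos (Real.pi * x) : ℝ) : ℂ) * Complex.I := by
  unfold ec
  rw [Complex.exp_mul_I, ← Complex.ofReal_cos, ← Complex.ofReal_sin,
    show 2 * Real.pi * x = 2 * (Real.pi * x) by ring, Real.cos_two_mul', Real.sin_two_mul]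

/-- the coefficient `1 / (1 - ec h)` -/
private noncomputable def cf (h : ℝ) : ℂ :=
  1 / 2 + ((Real.cos (Real.pi * h) / Real.sin (Real.pi * h) / 2 : ℝ) : ℂ) * Complex.I

private theorem cf_mul {h : ℝ} (hs : Real.sin (Real.pi * h) ≠ 0) : (1 - ec h) * cf h = 1 := by
  rw [ec_trig, cf]
  have h1 := Real.sin_sq_add_cos_sq (Real.pi * h)
  set s := Real.sin (Real.pi * h)
  set c := Real.cos (Real.pi * h)
  have hs' : (s : ℂ) ≠ 0 := by exact_mod_cast hs
  have h1' : (s : ℂ) ^ 2 + (c : ℂ) ^ 2 = 1 := by exact_mod_cast h1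
  push_cast
  field_simp
  have hI := Complex.I_sq
  linear_combination (norm := ring_nf) (2 * (s : ℂ) - ((s : ℂ) + c * Complex.I)) * h1' -
    (2 * (s : ℂ) * c ^ 2) * hI

private theorem sin_ge {h θ : ℝ} (h0 : 0 < θ) (h1 : θ ≤ h) (h2 : h ≤ 1 - θ) :
    2 * θ ≤ Real.sin (Real.pi * h) := by
  have hpi := Real.pi_pos
  rcases le_total h (1 / 2) with hh | hh
  · have h3 := Real.mul_le_sin (x := Real.pi * h) (mul_nonneg hpi.le (by linarith))
      (by nlinarith)
    have e : 2 / Real.pi * (Real.pi * h) = 2 * h := by field_simp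
    rw [e] at h3
    linarith
  · have h3 := Real.mul_le_sin (x := Real.pi * (1 - h)) (mul_nonneg hpi.le (by linarith))
      (by nlinarith)
    have e : 2 / Real.pi * (Real.pi * (1 - h)) = 2 * (1 - h) := by field_simp
    rw [e, show Real.pi * (1 - h) = Real.pi - Real.pi * h by ring, Real.sin_pi_sub] at h3
    linarith

/-- the cotangent -/
private noncomputable def ct (h : ℝ) : ℝ := Real.cos (Real.pi * h) / Real.sin (Real.pi * h)

private theorem cf_eq (h : ℝ) : cf h = 1 / 2 + ((ct h / 2 : ℝ) : ℂ) * Complex.I := rfl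

private theorem ct_abs {h θ : ℝ} (h0 : 0 < θ) (h1 : θ ≤ h) (h2 : h ≤ 1 - θ) :
    |ct h| ≤ 1 / (2 * θ) := by
  have h3 := sin_ge h0 h1 h2
  have h4 : 0 < Real.sin (Real.pi * h) := by linarith
  unfold ct
  rw [abs_div, abs_of_pos h4]
  exact div_le_div₀ (by norm_num) (Real.abs_cos_le_one _) (by positivity) h3

private theorem cf_norm {h θ : ℝ} (h0 : 0 < θ) (h1 : θ ≤ h) (h2 : h ≤ 1 - θ) :
    ‖cf h‖ ≤ 1 / 2 + 1 / (4 * θ) := by
  rw [cf_eq]
  refine (norm_add_le _ _).trans ?_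
  rw [norm_mul, Complex.norm_I, mul_one, Complex.norm_real, Real.norm_eq_abs, abs_div]
  have h3 := ct_abs h0 h1 h2
  have e1 : ‖(1 / 2 : ℂ)‖ = 1 / 2 := by simp
  have e2 : 1 / (4 * θ) = 1 / (2 * θ) / 2 := by
    field_simp
    norm_num
  rw [e1, e2, abs_of_pos (show (0 : ℝ) < 2 by norm_num)]
  linarith

private theorem ct_anti {h h' θ : ℝ} (h0 : 0 < θ) (h1 : θ ≤ h) (h2 : h ≤ h') (h3 : h' ≤ 1 - θ) :
    ct h' ≤ ct h := by
  have hpi := Real.pi_pos
  have s1 : 0 < Real.sin (Real.pi * h) := by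
    have := sin_ge h0 h1 (h2.trans h3)
    linarith
  have s2 : 0 < Real.sin (Real.pi * h') := by
    have := sin_ge h0 (h1.trans h2) h3
    linarith
  unfold ct
  rw [div_le_div_iff₀ s2 s1]
  have h4 : 0 ≤ Real.sin (Real.pi * h' - Real.pi * h) := by
    apply Real.sin_nonneg_of_nonneg_of_le_pi
    · nlinarith
    · nlinarith
  rw [Real.sin_sub] at h4
  linarith

theorem kl (f : ℕ → ℝ) (a L : ℕ) (θ : ℝ) (ν : ℤ) (h0 : 0 < θ) (h1 : θ ≤ 1 / 2)
    (hr : ∀ n, a ≤ n → n + 1 < a + L →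
      (ν : ℝ) + θ ≤ f (n + 1) - f n ∧ f (n + 1) - f n ≤ ν + 1 - θ)
    (hm : ∀ n, a ≤ n → n + 2 < a + L → f (n + 1) - f n ≤ f (n + 2) - f (n + 1)) :
    ‖∑ n ∈ Ico a (a + L), ec (f n)‖ ≤ 2 / θ := by
  have hθ2 : 2 ≤ 1 / θ := by
    rw [le_div_iff₀ h0]
    linarith
  have e2 : 2 / θ = 1 / θ + 1 / θ := by ring
  rcases Nat.eq_zero_or_pos L with hL | hL
  · subst hL
    simp only [add_zero, Ico_self, sum_empty, norm_zero]
    positivity
  obtain ⟨m, rfl⟩ : ∃ m, L = m + 1 := ⟨L - 1, by omega⟩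
  set h : ℕ → ℝ := fun n => f (n + 1) - f n - ν with hh
  have hb : ∀ n, a ≤ n → n < a + m → θ ≤ h n ∧ h n ≤ 1 - θ := by
    intro n hn hn'
    have := hr n hn (by omega)
    simp only [hh]
    constructor <;> linarith [this.1, this.2]
  have hstep : ∀ n, a ≤ n → n < a + m → (ec (f n) - ec (f (n + 1))) * cf (h n) = ec (f n) := by
    intro n hn hn'
    have e1 : ec (f (n + 1)) = ec (f n) * ec (h n) := by
      have e3 : f (n + 1) = f n + (h n + ((ν : ℤ) : ℝ)) := by
        simp only [hh]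
        ring
      rw [e3, ec_add, ec_add, ec_int, mul_one]
    have h2 := hb n hn hn'
    have h3 : Real.sin (Real.pi * h n) ≠ 0 := by
      have := sin_ge h0 h2.1 h2.2
      intro hc
      linarith
    have h4 := cf_mul h3
    rw [e1]
    linear_combination ec (f n) * h4
  have key : ∀ j : ℕ, j + 1 ≤ m → ‖∑ n ∈ Ico a (a + (j + 1)), ec (f n) -
      (cf (h a) * ec (f a) - cf (h (a + j)) * ec (f (a + (j + 1))))‖ ≤ (ct (h a) - ct (h (a + j))) / 2 := by
    intro j
    induction j with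
    | zero =>
      intro hj
      have h2 := hstep a le_rfl (by omega)
      have e3 : ∑ n ∈ Ico a (a + (0 + 1)), ec (f n) = ec (f a) := by simp
      rw [e3]
      have e4 : ec (f a) - (cf (h a) * ec (f a) - cf (h (a + 0)) * ec (f (a + (0 + 1)))) = 0 := by
        simp only [zero_add, add_zero]
        linear_combination -h2
      rw [e4]
      simp
    | succ j ih =>
      intro hj
      have h2 := ih (by omega)
      have h3 := hstep (a + (j + 1)) (by omega) (by omega)
      have e3 : ∑ n ∈ Ico a (a + (j + 1 + 1)), ec (f n) =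
          ∑ n ∈ Ico a (a + (j + 1)), ec (f n) + ec (f (a + (j + 1))) := by
        rw [show a + (j + 1 + 1) = (a + (j + 1)) + 1 by ring,
          sum_Ico_succ_top (by omega)]
      have e4 : ∑ n ∈ Ico a (a + (j + 1 + 1)), ec (f n) -
          (cf (h a) * ec (f a) - cf (h (a + (j + 1))) * ec (f (a + (j + 1 + 1)))) =
          (∑ n ∈ Ico a (a + (j + 1)), ec (f n) -
            (cf (h a) * ec (f a) - cf (h (a + j)) * ec (f (a + (j + 1))))) +
          (cf (h (a + (j + 1))) - cf (h (a + j))) * ec (f (a + (j + 1))) := by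
        rw [e3]
        have e5 : a + (j + 1) + 1 = a + (j + 1 + 1) := by ring
        rw [e5] at h3
        linear_combination -h3
      rw [e4]
      refine (norm_add_le _ _).trans ?_
      have e6 : ‖(cf (h (a + (j + 1))) - cf (h (a + j))) * ec (f (a + (j + 1)))‖ =
          (ct (h (a + j)) - ct (h (a + (j + 1)))) / 2 := by
        rw [norm_mul, norm_ec, mul_one, cf_eq, cf_eq]
        have e7 : (1 / 2 + ((ct (h (a + (j + 1))) / 2 : ℝ) : ℂ) * Complex.I -
            (1 / 2 + ((ct (h (a + j)) / 2 : ℝ) : ℂ) * Complex.I)) =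
            (((ct (h (a + (j + 1))) - ct (h (a + j))) / 2 : ℝ) : ℂ) * Complex.I := by
          push_cast
          ring
        rw [e7, norm_mul, Complex.norm_I, mul_one, Complex.norm_real, Real.norm_eq_abs]
        have h4 : ct (h (a + (j + 1))) ≤ ct (h (a + j)) := by
          refine ct_anti h0 (hb (a + j) (by omega) (by omega)).1 ?_
            (hb (a + (j + 1)) (by omega) (by omega)).2
          have := hm (a + j) (by omega) (by omega)
          simp only [hh]
          have e8 : a + (j + 1) = a + j + 1 := by ring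
          rw [e8]
          have e9 : a + j + 1 + 1 = a + j + 2 := by ring
          rw [e9]
          linarith
        rw [abs_of_nonpos (by linarith)]
        ring
      rw [e6]
      linarith
  rw [show a + (m + 1) = (a + m) + 1 by ring, sum_Ico_succ_top (by omega)]
  refine (norm_add_le _ _).trans ?_
  rw [norm_ec]
  rcases Nat.eq_zero_or_pos m with hm0 | hm0
  · subst hm0
    simp only [add_zero, Ico_self, sum_empty, norm_zero]
    linarith
  obtain ⟨j, rfl⟩ : ∃ j, m = j + 1 := ⟨m - 1, by omega⟩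
  have h2 := key j le_rfl
  have b1 := hb a le_rfl (by omega)
  have b2 := hb (a + j) (by omega) (by omega)
  have n1 := cf_norm h0 b1.1 b1.2
  have n2 := cf_norm h0 b2.1 b2.2
  have c1 := abs_le.mp (ct_abs h0 b1.1 b1.2)
  have c2 := abs_le.mp (ct_abs h0 b2.1 b2.2)
  set S := ∑ n ∈ Ico a (a + (j + 1)), ec (f n)
  have h3 : ‖S‖ ≤ ‖S - (cf (h a) * ec (f a) - cf (h (a + j)) * ec (f (a + (j + 1))))‖ +
      (‖cf (h a)‖ + ‖cf (h (a + j))‖) := by
    have e3 : S = (S - (cf (h a) * ec (f a) - cf (h (a + j)) * ec (f (a + (j + 1))))) +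
        (cf (h a) * ec (f a) - cf (h (a + j)) * ec (f (a + (j + 1)))) := by ring
    have e4 : ‖cf (h a) * ec (f a) - cf (h (a + j)) * ec (f (a + (j + 1)))‖ ≤
        ‖cf (h a)‖ + ‖cf (h (a + j))‖ := by
      refine (norm_sub_le _ _).trans ?_
      rw [norm_mul, norm_mul, norm_ec, norm_ec, mul_one, mul_one]
    calc ‖S‖ = ‖(S - (cf (h a) * ec (f a) - cf (h (a + j)) * ec (f (a + (j + 1))))) +
        (cf (h a) * ec (f a) - cf (h (a + j)) * ec (f (a + (j + 1))))‖ := by rw [← e3]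
      _ ≤ _ := (norm_add_le _ _).trans (by linarith)
  have e5 : 1 / (4 * θ) = 1 / θ / 4 := by
    field_simp
  have e6 : 1 / (2 * θ) = 1 / θ / 2 := by
    field_simp
  rw [e5] at n1 n2
  rw [e6] at c1 c2
  rw [e2]
  linarith [c1.1, c1.2, c2.1, c2.2]

end Pool.Agent.PTH
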