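import Pool.Agent.PTH.P2n
import Pool.Agent.PTH.Dia

/-!
# PTH / Mas: harmonic mass of the available primes

`δ = min (1/100000) (c/(2C))` with `c` from `p2_lower`, `C` from `diag`.  If `JH N h` contains no prime, at least
`(c/2) N^(1/2-δ)/log N` of its elements are products `p q`, `zz N ≤ p < q`, `p ≤ h`; such a `p` is in `AP δ N`,
and each `p ≤ h` divides at most `h/p + 1 ≤ 2h/p` elements of `JH N h`.  So
`(c/2) N^(1/2-δ)/log N ≤ 2 h ∑_{p ∈ AP} 1/p`, `h ≤ N^(1/2-δ)`.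
-/

set_option autoImplicit false

namespace Pool.Agent.PTH

open Finset Real Filter

open scoped Classical in
/-- the available primes -/
noncomputable def AP (δ : ℝ) (N : ℕ) : Finset ℕ :=
  (range (hd δ N + 1)).filter (fun p => p.Prime ∧ zz N ≤ p ∧
    ∃ q : ℕ, q.Prime ∧ p < q ∧ p * q ∈ PSK.JH N (hd δ N))

theorem mem_AP {δ : ℝ} {N p : ℕ} : p ∈ AP δ N ↔ p < hd δ N + 1 ∧ p.Prime ∧ zz N ≤ p ∧
    ∃ q : ℕ, q.Prime ∧ p < q ∧ p * q ∈ PSK.JH N (hd δ N) := by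
  simp [AP]

/-- number of multiples of `p` in `(N, N + h)` -/
private lemma card_mult (N h p : ℕ) (hp : 1 ≤ p) (hph : p ≤ h) :
    (((PSK.JH N h).filter (fun n => p ∣ n)).card : ℝ) ≤ 2 * h * (1 / (p : ℝ)) := by
  have hp0 : (0 : ℝ) < p := by exact_mod_cast hp
  rw [PSK.LATcount N h p (hp.trans hph)]
  have h1 := Int.fract_nonneg (((N + h - 1 : ℕ) : ℝ) / p)
  have h2 := (Int.fract_lt_one ((N : ℝ) / p)).le
  have h3 : (p : ℝ) ≤ h := by exact_mod_cast hph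
  have h4 : 1 ≤ (h : ℝ) / p := by rw [le_div_iff₀ hp0]; linarith
  have h5 : ((h : ℝ) - 1) / p ≤ (h : ℝ) / p := div_le_div_of_nonneg_right (by linarith) hp0.le
  have h6 : 2 * (h : ℝ) * (1 / (p : ℝ)) = (h : ℝ) / p + (h : ℝ) / p := by ring
  rw [h6]
  linarith

open scoped Classical in
theorem mass : ∃ δ c : ℝ, 0 < δ ∧ δ ≤ 1 / 100000 ∧ 0 < c ∧ ∀ᶠ N : ℕ in atTop,
    (∀ q ∈ PSK.JH N (hd δ N), ¬ q.Prime) → c / log N ≤ ∑ p ∈ AP δ N, 1 / (p : ℝ) := by
  obtain ⟨c, hc, H1⟩ := p2_lower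
  obtain ⟨C, hC, H2⟩ := diag
  obtain ⟨δ, hδ, hδ1, hδ2⟩ : ∃ δ : ℝ, 0 < δ ∧ δ ≤ 1 / 100000 ∧ C * δ ≤ c / 2 := by
    refine ⟨min (1 / 100000) (c / (2 * C)), ?_, min_le_left _ _, ?_⟩
    · exact lt_min (by norm_num) (by positivity)
    · calc C * min (1 / 100000) (c / (2 * C)) ≤ C * (c / (2 * C)) :=
          mul_le_mul_of_nonneg_left (min_le_right _ _) hC.le
        _ = c / 2 := by field_simp
  refine ⟨δ, c / 4, hδ, hδ1, by positivity, ?_⟩
  filter_upwards [H1 δ hδ hδ1, H2 δ hδ (by linarith), eventually_ge_atTop 3] with N h1 h2 hN3 hpr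
  have hN0 : (0 : ℝ) < N := by
    have : (3 : ℝ) ≤ N := by exact_mod_cast hN3
    linarith
  have hlog : 0 < log N := log_pos (by
    have : (3 : ℝ) ≤ N := by exact_mod_cast hN3
    linarith)
  set h : ℕ := hd δ N with hh
  set X : ℝ := (N : ℝ) ^ (1 / 2 - δ) with hX
  have hX0 : 0 < X := rpow_pos_of_pos hN0 _
  have hhle : (h : ℝ) ≤ X := by
    rw [hh]; unfold hd
    exact Nat.floor_le hX0.le
  -- the decomposition
  have h3 : (PSK.JH N h).filter (fun n => n.Prime ∨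
        ∃ p q : ℕ, p.Prime ∧ q.Prime ∧ zz N ≤ p ∧ p < q ∧ n = p * q) ⊆
      (PSK.JH N h).filter (fun n =>
        ∃ p q : ℕ, p.Prime ∧ q.Prime ∧ h < p ∧ p < q ∧ n = p * q) ∪
      (AP δ N).biUnion (fun p => (PSK.JH N h).filter (fun n => p ∣ n)) := by
    intro n hn
    rw [Finset.mem_filter] at hn
    obtain ⟨hn1, hn2⟩ := hn
    rw [Finset.mem_union]
    rcases hn2 with hn2 | ⟨p, q, hp, hq, hzp, hpq, hn3⟩
    · exact absurd hn2 (hpr n hn1)
    · rcases lt_or_ge h p with h4 | h4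
      · left
        rw [Finset.mem_filter]
        exact ⟨hn1, p, q, hp, hq, h4, hpq, hn3⟩
      · right
        rw [Finset.mem_biUnion]
        refine ⟨p, ?_, ?_⟩
        · rw [mem_AP]
          exact ⟨by omega, hp, hzp, q, hq, hpq, hn3 ▸ hn1⟩
        · rw [Finset.mem_filter]
          exact ⟨hn1, hn3 ▸ dvd_mul_right p q⟩
  have h4 : (((PSK.JH N h).filter (fun n => n.Prime ∨
        ∃ p q : ℕ, p.Prime ∧ q.Prime ∧ zz N ≤ p ∧ p < q ∧ n = p * q)).card : ℝ) ≤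
      (((PSK.JH N h).filter (fun n =>
        ∃ p q : ℕ, p.Prime ∧ q.Prime ∧ h < p ∧ p < q ∧ n = p * q)).card : ℝ) +
      ∑ p ∈ AP δ N, (((PSK.JH N h).filter (fun n => p ∣ n)).card : ℝ) := by
    have h5 := (Finset.card_le_card h3).trans (Finset.card_union_le _ _)
    have h6 := h5.trans (Nat.add_le_add_left Finset.card_biUnion_le _)
    exact_mod_cast h6
  have h5 : ∑ p ∈ AP δ N, (((PSK.JH N h).filter (fun n => p ∣ n)).card : ℝ) ≤
      ∑ p ∈ AP δ N, 2 * h * (1 / (p : ℝ)) := by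
    refine Finset.sum_le_sum fun p hp => ?_
    rw [mem_AP] at hp
    exact card_mult N h p hp.2.1.one_lt.le (by
      have := hp.1
      omega)
  rw [← Finset.mul_sum] at h5
  have hS0 : 0 ≤ ∑ p ∈ AP δ N, 1 / (p : ℝ) := Finset.sum_nonneg fun p _ => by positivity
  have h6 : 2 * (h : ℝ) * ∑ p ∈ AP δ N, 1 / (p : ℝ) ≤
      2 * X * ∑ p ∈ AP δ N, 1 / (p : ℝ) :=
    mul_le_mul_of_nonneg_right (by linarith) hS0
  have h7 : C * δ * X / log N ≤ c / 2 * X / log N := by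
    apply div_le_div_of_nonneg_right _ hlog.le
    exact mul_le_mul_of_nonneg_right hδ2 hX0.le
  have h8 : c * X / log N ≤ c / 2 * X / log N + 2 * X * ∑ p ∈ AP δ N, 1 / (p : ℝ) := by
    linarith
  have h9 : X * (c / 4 / log N) ≤ X * ∑ p ∈ AP δ N, 1 / (p : ℝ) := by
    have h10 : c * X / log N = X * (c / 4 / log N) * 4 := by ring
    have h11 : c / 2 * X / log N = X * (c / 4 / log N) * 2 := by ring
    linarith
  exact le_of_mul_le_mul_left h9 hX0

end Pool.Agent.PTH
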