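import Pool.Agent.PTH.IndB
import Pool.Agent.RG.SievB

/-!
# PTH / Mba: continuity of the functions of the linear sieve, comparison of `V`

Let `D' = D^(1-ρ)`, `s = log D/log z`, `s' = log D'/log z = (1-ρ) s`.
* `fm_shift` (`s' ≥ 2`): `s' fm s' - s fm s = ∫_{s'-1}^{s-1} fp ≤ ρ s fp 1` (`fm_eq`, `fp` antitone), so
  `fm s' ≤ (s/s') (fm s + ρ fp 1) ≤ fm s + 2ρ (fm 2 + fp 1) + ...`; `C` depends on `fp, fm` only.
* `fp_shift` (`s' ≥ 1`): `fp_eq` at `s` and `s'`: `|s' fp s' - s fp s| ≤ (s - s') (1 + fm 2)`.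
* `bm_shift`: `exp (-s') - exp (-s) ≤ (s - s') exp (-s') ≤ ρ s exp (-s (1-ρ)) ≤ ρ` (`ρ ≤ 1/100`,
  `x exp (-0.99 x) ≤ 1`); `bp_shift` similarly (`bp` is `(11/10) e^(-2)/s` on `(0,3]`, `(11/30) e^(1-s)` beyond).
* `V_comp` (`u ≤ v ≤ u^(1+ρ)`, from `RG.V_ratio`): `V u ≤ (1 + C (ρ + 1/log u)) V v`, and `V v ≤ V u`.
-/

set_option autoImplicit false

namespace Pool.Agent.PTH

open Finset Real

/-- difference of two tail integrals of a bounded function -/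
private theorem mba_tail {f : ℝ → ℝ} {a x y M : ℝ} (hint : MeasureTheory.IntegrableOn f (Set.Ioi a))
    (hf : ∀ t, a < t → f t ≤ M) (hax : a ≤ x) (hxy : x ≤ y) :
    (∫ t in Set.Ioi x, f t) ≤ (∫ t in Set.Ioi y, f t) + (y - x) * M := by
  have hx : MeasureTheory.IntegrableOn f (Set.Ioi x) := hint.mono_set (Set.Ioi_subset_Ioi hax)
  have hy : MeasureTheory.IntegrableOn f (Set.Ioi y) := hx.mono_set (Set.Ioi_subset_Ioi hxy)
  have hxy' : MeasureTheory.IntegrableOn f (Set.Ioc x y) := hx.mono_set Set.Ioc_subset_Ioi_self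
  have h1 : (∫ t in Set.Ioi x, f t) = (∫ t in Set.Ioc x y, f t) + ∫ t in Set.Ioi y, f t := by
    rw [← Set.Ioc_union_Ioi_eq_Ioi hxy]
    exact MeasureTheory.setIntegral_union (Set.Ioc_disjoint_Ioi le_rfl) measurableSet_Ioi hxy' hy
  have h2 : (∫ t in Set.Ioc x y, f t) ≤ ∫ _t in Set.Ioc x y, M := by
    refine MeasureTheory.setIntegral_mono_on hxy' (by simp) measurableSet_Ioc fun t ht => ?_
    exact hf t (lt_of_le_of_lt hax ht.1)
  have h3 : (∫ _t in Set.Ioc x y, M) = (y - x) * M := by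
    rw [MeasureTheory.setIntegral_const, smul_eq_mul, Real.volume_real_Ioc_of_le hxy]
  linarith

theorem fm_shift (fp fm : ℝ → ℝ) (Cφ : ℝ) (hΦ : RG.PhiProps fp fm Cφ) : ∃ C : ℝ, 0 < C ∧
    ∀ ρ s : ℝ, 0 < ρ → ρ ≤ 1 / 100 → 2 ≤ (1 - ρ) * s → fm ((1 - ρ) * s) ≤ fm s + C * ρ := by
  have h1 := hΦ.fp_nonneg 1 le_rfl
  have h2 := hΦ.fm_nonneg 2 le_rfl
  refine ⟨2 * fm 2 + 2 * fp 1 + 1, by positivity, ?_⟩
  intro ρ s hρ hρ' hs
  have hs0 : 0 ≤ s := by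
    by_contra h
    push Not at h
    nlinarith
  have hs' : (1 - ρ) * s ≤ s := by nlinarith
  have hs2 : 2 ≤ s := hs.trans hs'
  have e1 := hΦ.fm_eq s hs2
  have e2 := hΦ.fm_eq _ hs
  have e3 := mba_tail (x := (1 - ρ) * s - 1) (y := s - 1) (M := fp 1) hΦ.fp_int
    (fun t ht => hΦ.fp_anti (Set.mem_Ici.2 le_rfl) (Set.mem_Ici.2 ht.le) ht.le)
    (by linarith) (by linarith)
  rw [← e1, ← e2] at e3
  have e4 : fm s ≤ fm 2 := hΦ.fm_anti (Set.mem_Ici.2 le_rfl) (Set.mem_Ici.2 hs2) hs2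
  have e5 := hΦ.fm_nonneg s hs2
  -- `(1-ρ) s fm s' ≤ s (fm s + ρ fp 1)`
  have e6 : (1 - ρ) * fm ((1 - ρ) * s) ≤ fm s + ρ * fp 1 := by
    have hspos : 0 < s := by linarith
    refine le_of_mul_le_mul_left ?_ hspos
    nlinarith
  have e7 : fm s + ρ * fp 1 ≤ (1 - ρ) * (fm s + (2 * fm 2 + 2 * fp 1 + 1) * ρ) := by
    have a1 : ρ * fm s ≤ ρ * fm 2 := mul_le_mul_of_nonneg_left e4 hρ.le
    have a2 : 0 ≤ ρ * fm 2 := mul_nonneg hρ.le h2
    have a3 : 0 ≤ ρ * fp 1 := mul_nonneg hρ.le h1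
    nlinarith [mul_nonneg a2 (by linarith : (0 : ℝ) ≤ 1 / 100 - ρ),
      mul_nonneg a3 (by linarith : (0 : ℝ) ≤ 1 / 100 - ρ),
      mul_nonneg hρ.le (by linarith : (0 : ℝ) ≤ 1 / 100 - ρ)]
  exact le_of_mul_le_mul_left (e6.trans e7) (by linarith)

theorem fp_shift (fp fm : ℝ → ℝ) (Cφ : ℝ) (hΦ : RG.PhiProps fp fm Cφ) : ∃ C : ℝ, 0 < C ∧
    ∀ ρ s : ℝ, 0 < ρ → ρ ≤ 1 / 100 → 1 ≤ (1 - ρ) * s → fp ((1 - ρ) * s) ≤ fp s + C * ρ := by
  have h1 := hΦ.fp_nonneg 1 le_rfl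
  have h2 := hΦ.fm_nonneg 2 le_rfl
  refine ⟨2 * fp 1 + 2 * (1 + fm 2) + 1, by positivity, ?_⟩
  intro ρ s hρ hρ' hs
  have hs0 : 0 ≤ s := by
    by_contra h
    push Not at h
    nlinarith
  have hs' : (1 - ρ) * s ≤ s := by nlinarith
  have hs2 : 1 ≤ s := hs.trans hs'
  have e1 := hΦ.fp_eq s hs2
  have e2 := hΦ.fp_eq _ hs
  have m1 : max ((1 - ρ) * s) 3 ≤ max s 3 := max_le_max_right _ hs'
  have m2 : max s 3 - max ((1 - ρ) * s) 3 + (min s 3 - min ((1 - ρ) * s) 3) = ρ * s := by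
    have k1 := max_add_min s 3
    have k2 := max_add_min ((1 - ρ) * s) 3
    linarith
  have m3 : min ((1 - ρ) * s) 3 ≤ min s 3 := min_le_min_right _ hs'
  have e3 := mba_tail (x := max ((1 - ρ) * s) 3 - 1) (y := max s 3 - 1) (M := fm 2) hΦ.fm_int
    (fun t ht => hΦ.fm_anti (Set.mem_Ici.2 le_rfl) (Set.mem_Ici.2 ht.le) ht.le)
    (by linarith [le_max_right ((1 - ρ) * s) 3]) (by linarith)
  have e4 : fp s ≤ fp 1 := hΦ.fp_anti (Set.mem_Ici.2 le_rfl) (Set.mem_Ici.2 hs2) hs2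
  have e5 := hΦ.fp_nonneg s hs2
  have e8 : (1 - ρ) * s * fp ((1 - ρ) * s) ≤ s * fp s + ρ * s * (1 + fm 2) := by
    rw [e1, e2]
    have k1 : (max s 3 - 1 - (max ((1 - ρ) * s) 3 - 1)) * fm 2 ≤ ρ * s * fm 2 :=
      mul_le_mul_of_nonneg_right (by linarith) h2
    nlinarith
  have e6 : (1 - ρ) * fp ((1 - ρ) * s) ≤ fp s + ρ * (1 + fm 2) := by
    have hspos : 0 < s := by linarith
    refine le_of_mul_le_mul_left ?_ hspos
    nlinarith
  have e7 : fp s + ρ * (1 + fm 2) ≤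
      (1 - ρ) * (fp s + (2 * fp 1 + 2 * (1 + fm 2) + 1) * ρ) := by
    have a1 : ρ * fp s ≤ ρ * fp 1 := mul_le_mul_of_nonneg_left e4 hρ.le
    have a2 : 0 ≤ ρ * fm 2 := mul_nonneg hρ.le h2
    have a3 : 0 ≤ ρ * fp 1 := mul_nonneg hρ.le h1
    nlinarith [mul_nonneg a2 (by linarith : (0 : ℝ) ≤ 1 / 100 - ρ),
      mul_nonneg a3 (by linarith : (0 : ℝ) ≤ 1 / 100 - ρ),
      mul_nonneg hρ.le (by linarith : (0 : ℝ) ≤ 1 / 100 - ρ)]
  exact le_of_mul_le_mul_left (e6.trans e7) (by linarith)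

/-- `exp (-x) - exp (-y) ≤ (y - x) exp (-x)` -/
private theorem mba_exp (x y : ℝ) : exp (-x) - exp (-y) ≤ (y - x) * exp (-x) := by
  have h1 : exp (-y) = exp (-x) * exp (x - y) := by rw [← exp_add]; ring_nf
  have h2 := add_one_le_exp (x - y)
  have h3 := exp_pos (-x)
  rw [h1]
  nlinarith

/-- `x exp (-x) ≤ exp (-1)` -/
private theorem mba_xexp (x : ℝ) : x * exp (-x) ≤ exp (-1) := by
  have h1 := add_one_le_exp (x - 1)
  have h2 : exp (-1) = exp (x - 1) * exp (-x) := by rw [← exp_add]; ring_nf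
  have h3 := exp_pos (-x)
  rw [h2]
  nlinarith

private theorem mba_e1 : exp (-1) ≤ 1 / 2 := by
  have h1 := exp_one_gt_d9
  rw [exp_neg, inv_eq_one_div]
  exact one_div_le_one_div_of_le (by norm_num) (by linarith)

private theorem mba_e2 : exp (-2) ≤ 1 / 4 := by
  have h1 := mba_e1
  have h2 : exp (-2) = exp (-1) * exp (-1) := by rw [← exp_add]; norm_num
  have h3 := exp_pos (-1)
  rw [h2]
  nlinarith

theorem bm_shift : ∀ ρ s : ℝ, 0 < ρ → ρ ≤ 1 / 100 → 0 ≤ s →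
    RG.bm ((1 - ρ) * s) ≤ RG.bm s + ρ := by
  intro ρ s hρ hρ' hs
  unfold RG.bm
  have h1 := mba_exp ((1 - ρ) * s) s
  have h2 := mba_xexp ((1 - ρ) * s)
  have h3 := mba_e1
  have h4 := exp_pos (-((1 - ρ) * s))
  have h5 : s * exp (-((1 - ρ) * s)) ≤ 1 := by
    nlinarith [mul_nonneg hs h4.le]
  nlinarith

theorem bp_shift : ∀ ρ s : ℝ, 0 < ρ → ρ ≤ 1 / 100 → 1 ≤ (1 - ρ) * s →
    RG.bp ((1 - ρ) * s) ≤ RG.bp s + ρ := by
  intro ρ s hρ hρ' hs
  have hs0 : 0 ≤ s := by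
    by_contra h
    push Not at h
    nlinarith
  have hs' : (1 - ρ) * s ≤ s := by nlinarith
  have hs2 : 1 ≤ s := hs.trans hs'
  have hspos : 0 < s := by linarith
  have hs'pos : 0 < (1 - ρ) * s := by linarith
  have hdiff : 1 / ((1 - ρ) * s) - 1 / s ≤ ρ := by
    have h1 : 1 / ((1 - ρ) * s) - 1 / s = ρ * (1 / ((1 - ρ) * s)) := by
      have : (1 - ρ) ≠ 0 := by linarith
      field_simp
      ring
    rw [h1]
    have h2 : 1 / ((1 - ρ) * s) ≤ 1 := by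
      rw [div_le_one hs'pos]
      exact hs
    nlinarith
  have he2 := mba_e2
  have he2' := exp_pos (-2 : ℝ)
  unfold RG.bp
  rcases le_total s 3 with h | h
  · -- both below three
    have h' : (1 - ρ) * s ≤ 3 := hs'.trans h
    rw [max_eq_right h, max_eq_right h', min_eq_left h, min_eq_left h']
    have h1 : exp (1 - 3) = exp (-2) := by norm_num
    rw [h1, div_eq_mul_one_div, div_eq_mul_one_div (11 / 10 * exp (-2)) s]
    nlinarith
  · rcases le_total ((1 - ρ) * s) 3 with h' | h'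
    · rw [max_eq_left h, max_eq_right h', min_eq_right h, min_eq_left h']
      have h1 : exp (1 - 3) = exp (-2) := by norm_num
      have h2 : exp (1 - s) = exp 1 * exp (-s) := by rw [← exp_add]; ring_nf
      have h3 := mba_exp 3 s
      have h4 : exp 1 * exp (-3) = exp (-2) := by rw [← exp_add]; norm_num
      have h5 : exp (-2) - exp (1 - s) ≤ (s - 3) * exp (-2) := by
        rw [h2, ← h4]
        have := exp_pos (1 : ℝ)
        nlinarith
      have h6 : s - 3 ≤ 4 * ρ := by nlinarith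
      have h7 : 1 / ((1 - ρ) * s) ≤ ρ + 1 / 3 := by
        have : 1 / s ≤ 1 / 3 := one_div_le_one_div_of_le (by norm_num) h
        linarith
      rw [h1, div_eq_mul_one_div]
      have h8 : (s - 3) * exp (-2) ≤ 4 * ρ * exp (-2) := mul_le_mul_of_nonneg_right h6 he2'.le
      have h9 : exp (-2) * (1 / ((1 - ρ) * s)) ≤ exp (-2) * (ρ + 1 / 3) :=
        mul_le_mul_of_nonneg_left h7 he2'.le
      have h10 : ρ * exp (-2) ≤ ρ * (1 / 4) := mul_le_mul_of_nonneg_left he2 hρ.le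
      have h11 : 11 / 10 * exp (1 - s) / 3 = 11 / 30 * exp (1 - s) := by ring
      rw [h11]
      nlinarith
    · rw [max_eq_left h, max_eq_left h', min_eq_right h, min_eq_right h']
      have h2 : exp (1 - s) = exp 1 * exp (-s) := by rw [← exp_add]; ring_nf
      have h2' : exp (1 - (1 - ρ) * s) = exp 1 * exp (-((1 - ρ) * s)) := by
        rw [← exp_add]; ring_nf
      have h3 := mba_exp ((1 - ρ) * s) s
      have h4 := mba_xexp ((1 - ρ) * s)
      have h5 : exp 1 * exp (-1) = 1 := by rw [← exp_add]; norm_num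
      have h6 := exp_pos (1 : ℝ)
      have h7 : exp 1 * ((1 - ρ) * s * exp (-((1 - ρ) * s))) ≤ 1 := by
        exact (mul_le_mul_of_nonneg_left h4 h6.le).trans h5.le
      have h8 : 0 ≤ exp 1 * (s * exp (-((1 - ρ) * s))) := by positivity
      have h9 : exp 1 * (s * exp (-((1 - ρ) * s))) ≤ 2 := by nlinarith
      have h10 : exp 1 * (exp (-((1 - ρ) * s)) - exp (-s)) ≤
          exp 1 * ((s - (1 - ρ) * s) * exp (-((1 - ρ) * s))) :=
        mul_le_mul_of_nonneg_left h3 h6.le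
      have h11 : exp 1 * ((s - (1 - ρ) * s) * exp (-((1 - ρ) * s))) =
          ρ * (exp 1 * (s * exp (-((1 - ρ) * s)))) := by ring
      rw [h2, h2']
      rw [h11] at h10
      nlinarith

theorem V_anti {u v : ℕ} (h : u ≤ v) : RG.V v ≤ RG.V u :=
  antitone_nat_of_succ_le RG.V_succ_le h

theorem V_comp : ∃ C : ℝ, 0 < C ∧ ∀ (u v : ℕ) (ρ : ℝ), 2 ≤ u → u ≤ v → 0 < ρ → ρ ≤ 1 →
    (v : ℝ) ≤ (u : ℝ) ^ (1 + ρ) → RG.V u ≤ (1 + C * (ρ + 1 / log u)) * RG.V v := by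
  obtain ⟨C, hC, hV⟩ := RG.V_ratio
  refine ⟨2 * C + 1, by linarith, ?_⟩
  intro u v ρ hu huv hρ hρ1 hvu
  obtain ⟨h1, -⟩ := hV u v hu huv
  have hu1 : (2 : ℝ) ≤ u := by exact_mod_cast hu
  have hlu : 0 < log (u : ℝ) := log_pos (by linarith)
  have hv0 : (0 : ℝ) < v := by
    have : (u : ℝ) ≤ v := by exact_mod_cast huv
    linarith
  have hlv : log (v : ℝ) ≤ (1 + ρ) * log u := by
    rw [← log_rpow (by linarith)]
    exact log_le_log hv0 hvu
  have hVv := RG.V_pos v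
  have ha : 0 < C / log u := by positivity
  have h2 : RG.V u * log u ≤ ((1 + C / log u) * (1 + ρ) * RG.V v) * log u := by
    refine h1.trans ?_
    have h3 : RG.V v * log v ≤ RG.V v * ((1 + ρ) * log u) :=
      mul_le_mul_of_nonneg_left hlv hVv.le
    have h4 := mul_le_mul_of_nonneg_left h3 (by linarith : (0 : ℝ) ≤ 1 + C / log u)
    linarith
  have h3 := le_of_mul_le_mul_right h2 hlu
  refine h3.trans (mul_le_mul_of_nonneg_right ?_ hVv.le)
  have h5 : 0 < 1 / log (u : ℝ) := by positivity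
  have h6 : C / log (u : ℝ) = C * (1 / log u) := by ring
  rw [h6] at ha ⊢
  nlinarith [mul_nonneg ha.le (by linarith : (0 : ℝ) ≤ 1 - ρ)]

end Pool.Agent.PTH
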