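import Pool.Agent.PTH.Mba
import Pool.Agent.RG.SievA

/-!
# PTH / Mbl: main term inequality of the box sieve, lower bound

`D' = D^(1-ρ) ≥ (b j)^2`, `w = b 0`, `t_p = log D'/log p - 1`.  For `p ∈ Bp b i`, `i < j`
(`b i ≤ p < b (i+1) ≤ (b i)^(1+ρ)`): `s_i = log (D/b (i+1))/log (b i) ≥ log D/log (b i) - 1 - ρ ≥
log D/log p - 1 - ρ ≥ t_p` (as `t_p = log D/log p - ρ log D/log p - 1` and `log D ≥ log p`), and `t_p ≥ 1`
as `D' ≥ p^2`.  So `fp s_i ≤ fp t_p`, `bp s_i ≤ bp t_p` (antitone), and `V (b i) ≤ (1 + η) V p`,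
`η = C (ρ + 1/log w)` (`V_comp`).  Hence (`sum_boxes`, `RG.V_sum`, `RG.LSA` for `D'`, `fm_shift`, `bm_shift`)
`∑ ≤ (1 + η) ∑_{w ≤ p < b j} (V p/p)(1 + fp t_p + ε bp t_p)`
`≤ (1 + η) (V w - V (b j) + V (b j) (fm s' + ε bm s'))`, `s' = (1 - ρ) s`,
`≤ V w - V (b j) + V (b j) (fm s + ε bm s) + C' (ρ + 1/log w) V w` (`fm ≤ fm 2`, `bm ≤ 1`, `V (b j) ≤ V w`).
-/

set_option autoImplicit false

namespace Pool.Agent.PTH

open Finset Real

theorem mbl (fp fm : ℝ → ℝ) (Cφ : ℝ) (hΦ : RG.PhiProps fp fm Cφ) : ∃ C : ℝ, 0 < C ∧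
    ∀ ε : ℝ, 0 < ε → ε ≤ 1 → ∃ Z0 : ℕ, ∀ (b : ℕ → ℕ) (ρ : ℝ) (J : ℕ), BS b ρ J → 0 < ρ →
    ρ ≤ 1 / 100 → Z0 ≤ b 0 → ∀ j, j ≤ J → ∀ D : ℝ, 0 < D → (b j : ℝ) ^ 2 ≤ D ^ (1 - ρ) →
    ∑ i ∈ range j, gs b i * (RG.V (b i) * (1 + fp (log (D / b (i + 1)) / log (b i)) +
        ε * RG.bp (log (D / b (i + 1)) / log (b i)))) ≤
      RG.V (b 0) - RG.V (b j) +
        RG.V (b j) * (fm (log D / log (b j)) + ε * RG.bm (log D / log (b j))) +
        C * (ρ + 1 / log (b 0)) * RG.V (b 0) := by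
  obtain ⟨C1, hC1, hfm⟩ := fm_shift fp fm Cφ hΦ
  obtain ⟨CV, hCV, hV⟩ := V_comp
  have hF : 0 ≤ fm 2 := hΦ.fm_nonneg 2 le_rfl
  refine ⟨CV * (fm 2 + 2) + (1 + 3 * CV) * (C1 + 1), by positivity, ?_⟩
  intro ε hε hε1
  obtain ⟨ZA, hZA2, hA⟩ := RG.LSA fp fm Cφ hΦ ε hε
  refine ⟨ZA, ?_⟩
  intro b ρ J hb hρ hρ1 hZ j hj D hD0 hD
  -- the numbers `b i`
  have hb2 : ∀ i, 2 ≤ b i := fun i => hb.two.trans (hb.mono (Nat.zero_le i))
  have hbR : ∀ i, (2 : ℝ) ≤ b i := fun i => by exact_mod_cast hb2 i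
  have hlog2 : (1 / 2 : ℝ) ≤ log 2 := by
    have := Real.log_two_gt_d9
    linarith
  have hlb : ∀ i, 1 / 2 ≤ log (b i : ℝ) := fun i =>
    hlog2.trans (log_le_log (by norm_num) (hbR i))
  have hlb0 : ∀ i, 0 < log (b i : ℝ) := fun i => by linarith [hlb i]
  -- `D'`
  have hlD : log (D ^ (1 - ρ)) = (1 - ρ) * log D := Real.log_rpow hD0 _
  have h2bj : 2 * log (b j : ℝ) ≤ (1 - ρ) * log D := by
    rw [← hlD]
    have h1 : log ((b j : ℝ) ^ 2) ≤ log (D ^ (1 - ρ)) :=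
      log_le_log (by have := hbR j; positivity) hD
    rw [log_pow] at h1
    exact_mod_cast h1
  have h1ρ : 0 < 1 - ρ := by linarith
  have hlogD : 0 < log D := by
    by_contra h
    push Not at h
    have := hlb0 j
    nlinarith
  have hDD : (1 - ρ) * log D ≤ log D := by nlinarith
  set η : ℝ := CV * (ρ + 1 / log (b 0)) with hη
  have hη0 : 0 ≤ η := by
    have := hlb0 0
    positivity
  -- the summands
  have hterm : ∀ i ∈ range j, gs b i * (RG.V (b i) * (1 + fp (log (D / b (i + 1)) / log (b i)) +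
      ε * RG.bp (log (D / b (i + 1)) / log (b i)))) ≤
      ∑ p ∈ Bp b i, (1 + η) * (RG.V p / p + RG.V p / p *
        (fp (log (D ^ (1 - ρ)) / log p - 1) + ε * RG.bp (log (D ^ (1 - ρ)) / log p - 1))) := by
    intro i hi
    rw [mem_range] at hi
    unfold gs
    rw [Finset.sum_mul]
    apply Finset.sum_le_sum
    intro p hp
    unfold Bp at hp
    rw [Finset.mem_filter, Finset.mem_Ico] at hp
    obtain ⟨⟨hp1, hp2⟩, hp3⟩ := hp
    have hbi1 : b (i + 1) ≤ b j := hb.mono (by omega)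
    have hpR1 : (b i : ℝ) ≤ p := by exact_mod_cast hp1
    have hpR2 : (p : ℝ) ≤ b (i + 1) := by exact_mod_cast hp2.le
    have hpR0 : (2 : ℝ) ≤ p := (hbR i).trans hpR1
    have hratio := hb.ratio i (lt_of_lt_of_le hi hj)
    have hlp1 : log (b i : ℝ) ≤ log p := log_le_log (by linarith [hbR i]) hpR1
    have hlp0 : 0 < log (p : ℝ) := lt_of_lt_of_le (hlb0 i) hlp1
    have hlp2 : log (p : ℝ) ≤ log (b (i + 1) : ℝ) := log_le_log (by linarith) hpR2
    have hlp3 : log (b (i + 1) : ℝ) ≤ log (b j : ℝ) :=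
      log_le_log (by linarith [hbR (i + 1)]) (by exact_mod_cast hbi1)
    have hlp4 : log (b (i + 1) : ℝ) ≤ (1 + ρ) * log (b i : ℝ) := by
      rw [← Real.log_rpow (by linarith [hbR i])]
      exact log_le_log (by linarith [hbR (i + 1)]) hratio
    set t : ℝ := log (D ^ (1 - ρ)) / log p - 1 with ht
    set s : ℝ := log (D / b (i + 1)) / log (b i) with hs
    have ht1 : 1 ≤ t := by
      rw [ht, hlD]
      have h1 : 2 ≤ (1 - ρ) * log D / log p := by
        rw [le_div_iff₀ hlp0]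
        linarith
      linarith
    have hst : t ≤ s := by
      rw [ht, hs, hlD, log_div hD0.ne' (by linarith [hbR (i + 1)])]
      have h1 : (log D - (1 + ρ) * log (b i : ℝ)) / log (b i : ℝ) ≤
          (log D - log (b (i + 1) : ℝ)) / log (b i : ℝ) := by
        apply div_le_div_of_nonneg_right _ (hlb0 i).le
        linarith
      have h2 : (log D - (1 + ρ) * log (b i : ℝ)) / log (b i : ℝ) =
          log D / log (b i : ℝ) - 1 - ρ := by
        field_simp [(hlb0 i).ne']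
        ring
      have h3 : log D / log p ≤ log D / log (b i : ℝ) :=
        div_le_div_of_nonneg_left hlogD.le (hlb0 i) hlp1
      have h4 : 1 ≤ log D / log p := by
        rw [le_div_iff₀ hlp0]
        linarith
      have h5 : (1 - ρ) * log D / log p = log D / log p - ρ * (log D / log p) := by ring
      rw [h5]
      nlinarith
    have hs1 : 1 ≤ s := ht1.trans hst
    have hfps : fp s ≤ fp t := hΦ.fp_anti ht1 hs1 hst
    have hbps : RG.bp s ≤ RG.bp t := RG.bp_anti ht1 hs1 hst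
    have hfp0 : 0 ≤ fp s := hΦ.fp_nonneg s hs1
    have hbp0 : 0 < RG.bp s := RG.bp_pos s (by linarith)
    have hVp : RG.V (b i) ≤ (1 + η) * RG.V p := by
      have h1 := hV (b i) p ρ (hb2 i) hp1 hρ (by linarith) (hpR2.trans hratio)
      refine h1.trans ?_
      apply mul_le_mul_of_nonneg_right _ (RG.V_pos p).le
      rw [hη]
      have h2 : 1 / log (b i : ℝ) ≤ 1 / log (b 0 : ℝ) := by
        apply one_div_le_one_div_of_le (hlb0 0)
        exact log_le_log (by linarith [hbR 0]) (by exact_mod_cast hb.mono (Nat.zero_le i))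
      nlinarith
    have hV0 := (RG.V_pos (b i)).le
    have hVp0 := (RG.V_pos p).le
    have h1 : RG.V (b i) * (1 + fp s + ε * RG.bp s) ≤
        ((1 + η) * RG.V p) * (1 + fp t + ε * RG.bp t) := by
      apply mul_le_mul hVp _ _ (by positivity)
      · have := mul_le_mul_of_nonneg_left hbps hε.le
        linarith
      · positivity
    have h2 := mul_le_mul_of_nonneg_left h1 (show (0 : ℝ) ≤ 1 / (p : ℝ) by positivity)
    refine h2.trans (le_of_eq ?_)
    ring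
  have hsum := Finset.sum_le_sum hterm
  refine hsum.trans ?_
  rw [sum_boxes b hb.mono j, ← Finset.mul_sum, Finset.sum_add_distrib]
  have hVs := RG.V_sum (b 0) (b j) (hb.mono (Nat.zero_le j))
  have hLSA := hA (b 0) (b j) hZ (hb.mono (Nat.zero_le j)) (D ^ (1 - ρ)) hD
  have hs' : log (D ^ (1 - ρ)) / log (b j) = (1 - ρ) * (log D / log (b j)) := by
    rw [hlD]; ring
  rw [hs'] at hLSA
  set s : ℝ := log D / log (b j : ℝ) with hs
  have h2s' : 2 ≤ (1 - ρ) * s := by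
    rw [hs, ← mul_div_assoc, le_div_iff₀ (hlb0 j)]
    exact h2bj
  have hs0 : 0 ≤ s := by
    rw [hs]
    have := hlb0 j
    positivity
  have h2s : 2 ≤ s := by nlinarith
  have hfms := hfm ρ s hρ hρ1 h2s'
  have hbms := bm_shift ρ s hρ hρ1 hs0
  have hfm2 : fm s ≤ fm 2 := hΦ.fm_anti (Set.mem_Ici.2 le_rfl) h2s h2s
  have hfm0 : 0 ≤ fm s := hΦ.fm_nonneg s h2s
  have hbm1 : RG.bm s ≤ 1 := by
    unfold RG.bm
    rw [exp_le_one_iff]
    linarith
  have hbm0 : 0 < RG.bm s := RG.bm_pos s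
  have hVj : RG.V (b j) ≤ RG.V (b 0) := V_anti (hb.mono (Nat.zero_le j))
  have hVj0 := RG.V_pos (b j)
  have hV00 := RG.V_pos (b 0)
  set A := RG.V (b 0)
  set B := RG.V (b j)
  have hS1 : ∑ p ∈ (Ico (b 0) (b j)).filter Nat.Prime, RG.V p / p = A - B := by linarith
  rw [hS1]
  have hS2 : ∑ p ∈ (Ico (b 0) (b j)).filter Nat.Prime, RG.V p / p *
      (fp (log (D ^ (1 - ρ)) / log p - 1) + ε * RG.bp (log (D ^ (1 - ρ)) / log p - 1)) ≤
      B * (fm s + ε * RG.bm s + (C1 + 1) * ρ) := by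
    refine hLSA.trans ?_
    apply mul_le_mul_of_nonneg_left _ hVj0.le
    have h1 : ε * RG.bm ((1 - ρ) * s) ≤ ε * RG.bm s + ρ := by
      have := mul_le_mul_of_nonneg_left hbms hε.le
      nlinarith
    linarith
  have h3 := mul_le_mul_of_nonneg_left (add_le_add_right hS2 (A - B))
    (show (0 : ℝ) ≤ 1 + η by linarith)
  refine h3.trans ?_
  -- bookkeeping
  have hQ : fm s + ε * RG.bm s ≤ fm 2 + 1 := by nlinarith
  have hQ0 : 0 ≤ fm s + ε * RG.bm s := by positivity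
  have h0 : 1 / log (b 0 : ℝ) ≤ 2 := by
    rw [div_le_iff₀ (hlb0 0)]
    linarith [hlb 0]
  have h00 : 0 < 1 / log (b 0 : ℝ) := one_div_pos.2 (hlb0 0)
  have hη3 : η ≤ 3 * CV := by
    rw [hη]
    nlinarith
  set L : ℝ := 1 / log (b 0 : ℝ)
  set Qs : ℝ := fm s + ε * RG.bm s
  have e1 : η * (A - B + B * Qs) ≤ η * (A * (fm 2 + 2)) := by
    apply mul_le_mul_of_nonneg_left _ hη0
    have : B * Qs ≤ A * (fm 2 + 1) := mul_le_mul hVj hQ hQ0 hV00.le
    linarith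
  have e2 : (1 + η) * (B * ((C1 + 1) * ρ)) ≤ (1 + 3 * CV) * (A * ((C1 + 1) * (ρ + L))) := by
    apply mul_le_mul (by linarith) _ (by positivity) (by positivity)
    apply mul_le_mul hVj _ (by positivity) hV00.le
    apply mul_le_mul_of_nonneg_left _ (by positivity)
    linarith
  have e3 : (1 + η) * (A - B + B * (Qs + (C1 + 1) * ρ)) =
      (A - B + B * Qs) + η * (A - B + B * Qs) + (1 + η) * (B * ((C1 + 1) * ρ)) := by ring
  rw [e3]
  have e4 : η * (A * (fm 2 + 2)) + (1 + 3 * CV) * (A * ((C1 + 1) * (ρ + L))) =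
      (CV * (fm 2 + 2) + (1 + 3 * CV) * (C1 + 1)) * (ρ + L) * A := by
    rw [hη]
    ring
  linarith

end Pool.Agent.PTH
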