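import Pool.Agent.PTH.Tb3
import Pool.Agent.PTH.BmA

/-!
# PTH / MxBall: matrix algebras over a tracial von Neumann algebra

`CStarMatrix ι ι A` with `τ(M) = |ι|⁻¹ ∑ τ(M_jj)` is a tracial von Neumann algebra.
-/

open Filter Topology
open scoped InnerProductSpace ComplexOrder

set_option linter.unusedSectionVars false

namespace Pool.Agent.PTH

variable {A : Type*} [CStarAlgebra A] [PartialOrder A] [StarOrderedRing A]
  {ι : Type*} [Fintype ι] [DecidableEq ι]

namespace Mx

/-- The normalised trace. -/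
noncomputable def tr [TrAlg A] : CStarMatrix ι ι A →ₗ[ℂ] ℂ where
  toFun M := ((Fintype.card ι : ℂ))⁻¹ * ∑ j, TrAlg.tau (M j j)
  map_add' M N := by
    rw [← mul_add, ← Finset.sum_add_distrib]
    congr 1
    exact Finset.sum_congr rfl fun j _ => map_add _ _ _
  map_smul' c M := by
    rw [RingHom.id_apply, smul_eq_mul, mul_left_comm]
    congr 1
    rw [Finset.mul_sum]
    exact Finset.sum_congr rfl fun j _ => (TrAlg.tau (A := A)).map_smul c (M j j)

theorem tr_apply [TrAlg A] (M : CStarMatrix ι ι A) :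
    tr M = ((Fintype.card ι : ℂ))⁻¹ * ∑ j, TrAlg.tau (M j j) := rfl

theorem tr_star_mul [TrAlg A] (M N : CStarMatrix ι ι A) :
    tr (star M * N) = ((Fintype.card ι : ℂ))⁻¹ * ∑ j, ∑ l, TrAlg.tau (star (M l j) * N l j) := by
  rw [tr_apply]
  congr 1
  refine Finset.sum_congr rfl fun j _ => ?_
  rw [CStarMatrix.mul_apply, map_sum]
  rfl

theorem tr_star_mul_self [TrAlg A] (M : CStarMatrix ι ι A) :
    tr (star M * M) = (((Fintype.card ι : ℝ)⁻¹ * ∑ j, ∑ l, two (M l j) ^ 2 : ℝ) : ℂ) := by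
  rw [tr_star_mul, Complex.ofReal_mul, Complex.ofReal_inv, Complex.ofReal_natCast]
  congr 1
  rw [Complex.ofReal_sum]
  refine Finset.sum_congr rfl fun j _ => ?_
  rw [Complex.ofReal_sum]
  exact Finset.sum_congr rfl fun l _ => tau_eq _

noncomputable instance instTrAlg [TrAlg A] [Nonempty ι] : TrAlg (CStarMatrix ι ι A) where
  tau := tr
  tau_one := by
    rw [tr_apply]
    have : ∀ j : ι, TrAlg.tau ((1 : CStarMatrix ι ι A) j j) = 1 := by
      intro j
      rw [CStarMatrix.one_apply, if_pos rfl, TrAlg.tau_one]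
    rw [Finset.sum_congr rfl fun j _ => this j, Finset.sum_const, Finset.card_univ, nsmul_eq_mul,
      mul_one, inv_mul_cancel₀]
    exact Nat.cast_ne_zero.2 Fintype.card_ne_zero
  tau_star M := by
    rw [tr_apply, tr_apply, star_mul', star_inv₀, star_natCast, star_sum]
    congr 1
    exact Finset.sum_congr rfl fun j _ => TrAlg.tau_star _
  tau_comm M N := by
    rw [tr_apply, tr_apply]
    congr 1
    have e : ∀ M N : CStarMatrix ι ι A, ∑ j, TrAlg.tau ((M * N) j j) =
        ∑ j, ∑ l, TrAlg.tau (M j l * N l j) := by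
      intro M N
      refine Finset.sum_congr rfl fun j _ => ?_
      rw [CStarMatrix.mul_apply, map_sum]
    rw [e, e, Finset.sum_comm]
    exact Finset.sum_congr rfl fun j _ => Finset.sum_congr rfl fun l _ => TrAlg.tau_comm _ _
  tau_pos M := by
    rw [tr_star_mul_self, Complex.ofReal_re]
    positivity
  tau_faithful M h := by
    rw [tr_star_mul_self, Complex.ofReal_eq_zero] at h
    have hc : (0 : ℝ) < (Fintype.card ι : ℝ)⁻¹ := by
      have : (0 : ℝ) < (Fintype.card ι : ℝ) := Nat.cast_pos.2 Fintype.card_pos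
      positivity
    have h1 : ∑ j, ∑ l, two (M l j) ^ 2 = 0 := by
      rcases mul_eq_zero.1 h with h | h
      · exact absurd h hc.ne'
      · exact h
    rw [← CStarMatrix.ext_iff]
    intro l j
    have h2 := (Finset.sum_eq_zero_iff_of_nonneg (fun j _ =>
      Finset.sum_nonneg fun l _ => sq_nonneg (two (M l j)))).1 h1 j (Finset.mem_univ j)
    have h3 := (Finset.sum_eq_zero_iff_of_nonneg (fun l _ => sq_nonneg (two (M l j)))).1 h2 l
      (Finset.mem_univ l)
    exact two_eq_zero (pow_eq_zero_iff two_ne_zero |>.1 h3)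
  tau_mul_le M N := by
    obtain ⟨Y, hY⟩ := PreB.exists_star_mul_eq M
    have e : star (M * N) * (M * N) + star (Y * N) * (Y * N) =
        ((‖M‖ ^ 2 : ℝ) : ℂ) • (star N * N) := by
      have := congrArg (fun Z => star N * Z * N) hY
      simp only [mul_add, add_mul, mul_smul_comm, smul_mul_assoc, mul_one] at this
      rw [star_mul, star_mul, ← this]
      simp only [mul_assoc]
    have h1 := congrArg (fun Z => (tr Z).re) e
    simp only [map_add, map_smul, Complex.add_re, smul_eq_mul, Complex.re_ofReal_mul] at h1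
    have h2 : 0 ≤ (tr (star (Y * N) * (Y * N))).re := by
      rw [tr_star_mul_self, Complex.ofReal_re]
      positivity
    linarith

variable [Nonempty ι]

theorem tau_apply [TrAlg A] (M : CStarMatrix ι ι A) :
    TrAlg.tau M = ((Fintype.card ι : ℂ))⁻¹ * ∑ j, TrAlg.tau (M j j) := rfl

theorem rt_apply [TrAlg A] (M : CStarMatrix ι ι A) :
    rt M = ((Fintype.card ι : ℝ))⁻¹ * ∑ j, rt (M j j) := by
  unfold rt
  rw [tau_apply]
  have : ((Fintype.card ι : ℂ))⁻¹ = (((Fintype.card ι : ℝ)⁻¹ : ℝ) : ℂ) := by push_cast; rfl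
  rw [this, Complex.re_ofReal_mul, Complex.re_sum]

theorem two_sq_apply [TrAlg A] (M : CStarMatrix ι ι A) :
    two M ^ 2 = ((Fintype.card ι : ℝ))⁻¹ * ∑ j, ∑ l, two (M j l) ^ 2 := by
  rw [two_sq]
  change (tr (star M * M)).re = _
  rw [tr_star_mul_self, Complex.ofReal_re, Finset.sum_comm]

theorem two_entry_le [TrAlg A] (M : CStarMatrix ι ι A) (j l : ι) :
    two (M j l) ^ 2 ≤ (Fintype.card ι : ℝ) * two M ^ 2 := by
  have hc : (0 : ℝ) < (Fintype.card ι : ℝ) := Nat.cast_pos.2 Fintype.card_pos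
  rw [two_sq_apply, ← mul_assoc, mul_inv_cancel₀ hc.ne', one_mul]
  calc two (M j l) ^ 2 ≤ ∑ l, two (M j l) ^ 2 :=
        Finset.single_le_sum (fun l _ => sq_nonneg (two (M j l))) (Finset.mem_univ l)
    _ ≤ _ := Finset.single_le_sum (f := fun j => ∑ l, two (M j l) ^ 2)
        (fun j _ => Finset.sum_nonneg fun l _ => sq_nonneg (two (M j l))) (Finset.mem_univ j)

/-- Convergence of all entries gives convergence in 2-norm. -/
theorem tendsto_two [TrAlg A] {X : ℕ → CStarMatrix ι ι A} {L : CStarMatrix ι ι A}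
    (h : ∀ j l, Tendsto (fun n => two (X n j l - L j l)) atTop (𝓝 0)) :
    Tendsto (fun n => two (X n - L)) atTop (𝓝 0) := by
  have h1 : Tendsto (fun n => ((Fintype.card ι : ℝ))⁻¹ *
      ∑ j, ∑ l, two (X n j l - L j l) ^ 2) atTop (𝓝 0) := by
    have h2 : Tendsto (fun n => ∑ j, ∑ l, two (X n j l - L j l) ^ 2) atTop
        (𝓝 (∑ _j : ι, ∑ _l : ι, (0 : ℝ) ^ 2)) :=
      tendsto_finsetSum _ fun j _ => tendsto_finsetSum _ fun l _ => (h j l).pow 2
    have h3 := h2.const_mul ((Fintype.card ι : ℝ))⁻¹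
    simpa using h3
  have h4 : Tendsto (fun n => two (X n - L) ^ 2) atTop (𝓝 0) := by
    refine h1.congr fun n => ?_
    rw [two_sq_apply]
    rfl
  have h5 := h4.sqrt
  rw [Real.sqrt_zero] at h5
  refine h5.congr fun n => ?_
  rw [Real.sqrt_sq (two_nonneg _)]

noncomputable instance instTracialVN [TracialVN A] : TracialVN (CStarMatrix ι ι A) where
  ball_complete X hX hc := by
    have hc0 : (0 : ℝ) < (Fintype.card ι : ℝ) := Nat.cast_pos.2 Fintype.card_pos
    have he : ∀ j l : ι, ∃ y : A, ‖y‖ ≤ 1 ∧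
        Tendsto (fun n => two (X n j l - y)) atTop (𝓝 0) := by
      intro j l
      refine TracialVN.ball_complete (fun n => X n j l)
        (fun n => CStarMatrix.norm_entry_le_norm.trans (hX n)) fun ε hε => ?_
      obtain ⟨k, hk⟩ := hc (ε / Real.sqrt (Fintype.card ι)) (by positivity)
      refine ⟨k, fun m hm n hn => ?_⟩
      have h1 := hk m hm n hn
      have h2 := two_entry_le (X m - X n) j l
      have h3 : two (X m - X n) ^ 2 ≤ (ε / Real.sqrt (Fintype.card ι)) ^ 2 :=
        pow_le_pow_left₀ (two_nonneg _) h1 2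
      rw [div_pow, Real.sq_sqrt hc0.le] at h3
      have h4 : two ((X m - X n) j l) ^ 2 ≤ ε ^ 2 := by
        refine h2.trans ?_
        calc (Fintype.card ι : ℝ) * two (X m - X n) ^ 2
            ≤ (Fintype.card ι : ℝ) * (ε ^ 2 / (Fintype.card ι : ℝ)) :=
              mul_le_mul_of_nonneg_left h3 hc0.le
          _ = ε ^ 2 := by field_simp
      exact (sq_le_sq₀ (two_nonneg _) hε.le).1 h4
    choose Y hY1 hY2 using he
    have hL : Tendsto (fun n => two (X n - (CStarMatrix.ofMatrix Y : CStarMatrix ι ι A)))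
        atTop (𝓝 0) := tendsto_two fun j l => hY2 j l
    exact ⟨CStarMatrix.ofMatrix Y, norm_le_of_lim hX hL, hL⟩

end Mx

end Pool.Agent.PTH
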