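import Pool.Agent.PTH.TbC

/-!
# Toolbox: projections of every trace in a II₁ factor

PROOFS.
* `exists_lt_prj`: suppose the only projections `≤ q` are `0` and `q`.  For self-adjoint `x = q x q`
  all `spr x t` (`t > 0`) and those of `-x` are `≤ q`, so `0` or `q`, hence `x ∈ ℝ q` (`x₊`:
  let `t_0 = sup {t | spr x₊ t = q}`; `x₊ = t_0 q` by `smul_spr_le_mul`, `mul_one_sub_spr_le`); so
  `q N q = ℂ q`.  Choose a maximal number `n` of partial isometries `v_1..v_n` with `v_i* v_i = q`
  and orthogonal ranges `q_i = v_i v_i*` (`n rt q ≤ 1`).  `r = 1 - ∑ q_i`: `rt r < rt q` (otherwise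
  `comparison` gives one more), so `comparison` gives `v* v = r`, `v v* ≤ q`, `v v* ≠ q`, so `r = 0`.
  `x = ∑_{ij} q_i x q_j = ∑ v_i (v_i* x v_j) v_j* ∈ span {v_i v_j*}`: finite dimensional,
  contradiction.
* `exists_small_prj`: iterate: `p < q` nonzero, take the one of `p`, `q - p` of trace `≤ rt q / 2`.
* `exists_sub_prj`: GREEDY: `p_0 = 0`, `p_{n+1} = p_n + r_n`, `r_n ≤ q - p_n` a projection with
  `rt r_n ≤ t - rt p_n` and `rt r_n ≥ (1/2) sup`; `p_n` increases to a projection `p ≤ q`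
  (`mono_lim`), `rt p ≤ t`; if `<`, then `exists_small_prj` for `q - p ≠ 0` contradicts `r_n → 0`.
-/

open Filter Topology

namespace Pool.Agent.PTH

open TrAlg

variable {N : Type*} [CStarAlgebra N] [PartialOrder N] [StarOrderedRing N] [TracialVN N]

private theorem tbh_pos {q : N} (hq : Prj q) (hmin : ∀ p : N, Prj p → p ≤ q → p ≠ 0 → p = q)
    {x : N} (hx : 0 ≤ x) (hqx : q * x * q = x) : x = ‖x‖ • q := by
  have hlow : ∀ y : N, 0 ≤ y → q * y * q = y → ∀ t : ℝ, 0 ≤ t → t < ‖y‖ → t • q ≤ y := by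
    intro y hy hqy t ht0 ht
    have h1 : y * q = y := by
      rw [← hqy, mul_assoc, hq.2]
    have h2 : spr y t ≤ q := (spr_anti y ht0).trans (supp_le_of_mul hy hq h1)
    have h3 : spr y t = q := hmin _ (spr_prj y t) h2 (spr_ne_zero_of_lt_norm hy ht0 ht)
    rw [← h3]
    exact smul_spr_le hy ht0
  by_contra hne
  have hx0 : x ≠ 0 := by
    intro h
    apply hne
    rw [h, norm_zero, zero_smul]
  have hxpos : 0 < ‖x‖ := norm_pos_iff.2 hx0
  have hup : x ≤ ‖x‖ • q := by
    have h1 := star_left_conjugate_le_conjugate (le_norm_smul_one (IsSelfAdjoint.of_nonneg hx)) q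
    rw [hq.1, hqx, mul_smul_comm, mul_one, smul_mul_assoc, hq.2] at h1
    exact h1
  have hy0 : 0 ≤ ‖x‖ • q - x := sub_nonneg.2 hup
  have hyq : q * (‖x‖ • q - x) * q = ‖x‖ • q - x := by
    rw [mul_sub, sub_mul, hqx, mul_smul_comm, smul_mul_assoc, hq.2, hq.2]
  have hyne : ‖x‖ • q - x ≠ 0 := fun h => hne (sub_eq_zero.1 h).symm
  have hypos : 0 < ‖‖x‖ • q - x‖ := norm_pos_iff.2 hyne
  obtain ⟨t, ht0, ht1, ht2⟩ : ∃ t : ℝ, 0 < t ∧ t < ‖‖x‖ • q - x‖ ∧ t ≤ ‖x‖ := by
    refine ⟨min (‖‖x‖ • q - x‖ / 2) ‖x‖, lt_min (by linarith) hxpos, ?_, min_le_right _ _⟩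
    exact lt_of_le_of_lt (min_le_left _ _) (by linarith)
  have h1 := hlow _ hy0 hyq t ht0.le ht1
  have h2 : x ≤ (‖x‖ - t) • q := by
    rw [sub_smul]
    exact le_sub_comm.1 h1
  have h3 : x ≤ (‖x‖ - t) • (1 : N) :=
    h2.trans (smul_le_smul_of_nonneg_left (proj_le_one hq) (by linarith))
  have h4 := norm_le_of_le_smul hx (by linarith) h3
  linarith

private theorem tbh_sa {q : N} (hq : Prj q) (hmin : ∀ p : N, Prj p → p ≤ q → p ≠ 0 → p = q)
    {x : N} (hx : IsSelfAdjoint x) (hqx : q * x * q = x) : ∃ r : ℝ, x = r • q := by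
  have h0 : 0 ≤ x + ‖x‖ • q := by
    have h1 := star_left_conjugate_le_conjugate (le_norm_smul_one hx.neg) q
    rw [hq.1, mul_neg, neg_mul, hqx, mul_smul_comm, mul_one, smul_mul_assoc, hq.2, norm_neg] at h1
    exact neg_le_iff_add_nonneg'.1 h1
  have h1 : q * (x + ‖x‖ • q) * q = x + ‖x‖ • q := by
    rw [mul_add, add_mul, hqx, mul_smul_comm, smul_mul_assoc, hq.2, hq.2]
  have h2 := tbh_pos hq hmin h0 h1
  refine ⟨‖x + ‖x‖ • q‖ - ‖x‖, ?_⟩
  rw [sub_smul, ← h2, add_sub_cancel_right]

private theorem tbh_all {q : N} (hq : Prj q) (hmin : ∀ p : N, Prj p → p ≤ q → p ≠ 0 → p = q)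
    {x : N} (hqx : q * x * q = x) : ∃ z : ℂ, x = z • q := by
  have hqs : q * star x * q = star x := by
    have h1 := congrArg star hqx
    rw [star_mul, star_mul, hq.1] at h1
    rw [mul_assoc]
    exact h1
  have ha : q * (realPart x : N) * q = (realPart x : N) := by
    rw [realPart_apply_coe, mul_smul_comm, smul_mul_assoc, mul_add, add_mul, hqx, hqs]
  have hb : q * (imaginaryPart x : N) * q = (imaginaryPart x : N) := by
    rw [imaginaryPart_apply_coe, mul_smul_comm, smul_mul_assoc, mul_smul_comm, smul_mul_assoc,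
      mul_sub, sub_mul, hqx, hqs]
  obtain ⟨r, hr⟩ := tbh_sa hq hmin (realPart x).2 ha
  obtain ⟨s, hs⟩ := tbh_sa hq hmin (imaginaryPart x).2 hb
  refine ⟨(r : ℂ) + Complex.I * (s : ℂ), ?_⟩
  have h1 := realPart_add_I_smul_imaginaryPart x
  rw [← h1, hr, hs, add_smul, mul_smul]
  have h2 : ∀ (c : ℝ) (y : N), (c : ℂ) • y = c • y := fun c y => by
    rw [← Complex.coe_smul]
  rw [h2, h2]

/-- a maximal family of partial isometries -/
private theorem tbh_fam (hN : IsFac N) {q : N} (hq : Prj q) (k : ℕ) (hk : (k : ℝ) * rt q ≤ 1) :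
    ∃ v : Fin k → N, (∀ i, star (v i) * v i = q) ∧ (∀ i j, i ≠ j → star (v i) * v j = 0) := by
  induction k with
  | zero => exact ⟨fun i => i.elim0, fun i => i.elim0, fun i => i.elim0⟩
  | succ k ih =>
    have hq0 : 0 ≤ rt q := rt_nonneg (proj_nonneg hq)
    push_cast at hk
    obtain ⟨v, hv1, hv2⟩ := ih (by linarith)
    have hpi : ∀ i, v i * q = v i := by
      intro i
      have h1 := (piso (w := v i) (by rw [hv1 i]; exact hq)).1
      rwa [hv1 i] at h1
    set r : N := 1 - ∑ i, v i * star (v i) with hr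
    have hsr : ∀ i, star (v i) * r = 0 := by
      intro i
      rw [hr, mul_sub, mul_one, Finset.mul_sum, Finset.sum_eq_single i]
      · rw [← mul_assoc, hv1 i]
        have h1 := congrArg star (hpi i)
        rw [star_mul, hq.1] at h1
        rw [h1, sub_self]
      · intro j _ hj
        rw [← mul_assoc, hv2 i j (Ne.symm hj), zero_mul]
      · intro h
        exact absurd (Finset.mem_univ i) h
    have hrs : star r = r := by
      rw [hr, star_sub, star_one, star_sum]
      congr 1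
      refine Finset.sum_congr rfl fun i _ => ?_
      rw [star_mul, star_star]
    have hrr : r * r = r := by
      have h1 : (∑ i, v i * star (v i)) * r = 0 := by
        rw [Finset.sum_mul]
        refine Finset.sum_eq_zero fun i _ => ?_
        rw [mul_assoc, hsr i, mul_zero]
      have h2 : r * r = 1 * r - (∑ i, v i * star (v i)) * r := by
        rw [← sub_mul]
      rw [h2, h1, one_mul, sub_zero]
    have hrt : rt r = 1 - (k : ℝ) * rt q := by
      rw [hr, rt_sub, rt_one, rt_sum]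
      have h1 : ∀ i, rt (v i * star (v i)) = rt q := by
        intro i
        rw [rt_comm, hv1 i]
      simp only [h1]
      simp
    obtain ⟨w, hw1, hw2, hw3⟩ := comparison hN hq ⟨hrs, hrr⟩ (by rw [hrt]; linarith)
    have hww : w * star w * w = w := by
      have h1 := (piso (w := w) (by rw [hw1]; exact hq)).1
      rwa [← mul_assoc] at h1
    have hrw : r * w = w := by
      have h1 := prj_mul_of_le' (proj_nonneg hw2) ⟨hrs, hrr⟩ hw3
      rw [← hww, ← mul_assoc r, h1, hww]
    have hvw : ∀ i, star (v i) * w = 0 := by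
      intro i
      rw [← hrw, ← mul_assoc, hsr i, zero_mul]
    have hwv : ∀ i, star w * v i = 0 := by
      intro i
      have h1 := congrArg star (hvw i)
      rw [star_mul, star_star, star_zero] at h1
      exact h1
    refine ⟨Fin.cons w v, ?_, ?_⟩
    · intro i
      refine Fin.cases ?_ (fun j => ?_) i
      · rw [Fin.cons_zero, hw1]
      · rw [Fin.cons_succ, hv1]
    · intro i j
      refine Fin.cases ?_ (fun i' => ?_) i
      · refine Fin.cases ?_ (fun j' => ?_) j
        · intro h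
          exact absurd rfl h
        · intro _
          rw [Fin.cons_zero, Fin.cons_succ]
          exact hwv j'
      · refine Fin.cases ?_ (fun j' => ?_) j
        · intro _
          rw [Fin.cons_zero, Fin.cons_succ]
          exact hvw i'
        · intro h
          rw [Fin.cons_succ, Fin.cons_succ]
          exact hv2 i' j' (fun h' => h (by rw [h']))

theorem exists_lt_prj (hN : IsII1 N) {q : N} (hq : Prj q) (hq0 : q ≠ 0) :
    ∃ p : N, Prj p ∧ p ≤ q ∧ p ≠ 0 ∧ p ≠ q := by
  by_contra hcon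
  push Not at hcon
  have hmin : ∀ p : N, Prj p → p ≤ q → p ≠ 0 → p = q := hcon
  have hqp : 0 < rt q := rt_proj_pos hq hq0
  set k : ℕ := ⌊1 / rt q⌋₊ with hk
  have hk1 : (k : ℝ) * rt q ≤ 1 := by
    have h1 : (k : ℝ) ≤ 1 / rt q := Nat.floor_le (by positivity)
    rwa [le_div_iff₀ hqp] at h1
  have hk2 : 1 < ((k : ℝ) + 1) * rt q := by
    have h1 : 1 / rt q < (k : ℝ) + 1 := Nat.lt_floor_add_one _
    rwa [div_lt_iff₀ hqp] at h1
  obtain ⟨v, hv1, hv2⟩ := tbh_fam hN.1 hq k hk1
  have hpi : ∀ i, v i * q = v i := by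
    intro i
    have h1 := (piso (w := v i) (by rw [hv1 i]; exact hq)).1
    rwa [hv1 i] at h1
  have hqs : ∀ i, q * star (v i) = star (v i) := by
    intro i
    have h1 := congrArg star (hpi i)
    rwa [star_mul, hq.1] at h1
  set r : N := 1 - ∑ i, v i * star (v i) with hr
  have hsr : ∀ i, star (v i) * r = 0 := by
    intro i
    rw [hr, mul_sub, mul_one, Finset.mul_sum, Finset.sum_eq_single i]
    · rw [← mul_assoc, hv1 i, hqs i, sub_self]
    · intro j _ hj
      rw [← mul_assoc, hv2 i j (Ne.symm hj), zero_mul]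
    · intro h
      exact absurd (Finset.mem_univ i) h
  have hrs : star r = r := by
    rw [hr, star_sub, star_one, star_sum]
    congr 1
    refine Finset.sum_congr rfl fun i _ => ?_
    rw [star_mul, star_star]
  have hrr : r * r = r := by
    have h1 : (∑ i, v i * star (v i)) * r = 0 := by
      rw [Finset.sum_mul]
      refine Finset.sum_eq_zero fun i _ => ?_
      rw [mul_assoc, hsr i, mul_zero]
    have h2 : r * r = 1 * r - (∑ i, v i * star (v i)) * r := by
      rw [← sub_mul]
    rw [h2, h1, one_mul, sub_zero]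
  have hrt : rt r = 1 - (k : ℝ) * rt q := by
    rw [hr, rt_sub, rt_one, rt_sum]
    have h1 : ∀ i, rt (v i * star (v i)) = rt q := by
      intro i
      rw [rt_comm, hv1 i]
    simp only [h1]
    simp
  have hr0 : r = 0 := by
    obtain ⟨w, hw1, hw2, hw3⟩ := comparison hN.1 ⟨hrs, hrr⟩ hq (by rw [hrt]; linarith)
    have h1 : w * star w = 0 := by
      by_contra h
      have h2 := hmin _ hw2 hw3 h
      have h3 : rt r = rt q := by
        rw [← hw1, rt_comm, h2]
      rw [hrt] at h3
      linarith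
    have h2 : rt r = 0 := by
      rw [← hw1, rt_comm, h1, rt_zero]
    exact eq_zero_of_rt (proj_nonneg ⟨hrs, hrr⟩) h2
  have hone : ∑ i, v i * star (v i) = 1 := (sub_eq_zero.1 (hr ▸ hr0)).symm
  apply hN.2
  have hsurj : Function.Surjective
      (Fintype.linearCombination ℂ (fun p : Fin k × Fin k => v p.1 * star (v p.2))) := by
    intro x
    have hz : ∀ p : Fin k × Fin k, ∃ z : ℂ, star (v p.1) * x * v p.2 = z • q := by
      intro p
      refine tbh_all hq hmin ?_
      calc q * (star (v p.1) * x * v p.2) * q = (q * star (v p.1)) * x * (v p.2 * q) := by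
            simp only [mul_assoc]
        _ = star (v p.1) * x * v p.2 := by rw [hqs, hpi]
    choose z hz using hz
    refine ⟨z, ?_⟩
    rw [Fintype.linearCombination_apply, Fintype.sum_prod_type]
    have h1 : ∀ i j, z (i, j) • (v i * star (v j)) =
        (v i * star (v i)) * x * (v j * star (v j)) := by
      intro i j
      have h2 := hz (i, j)
      simp only at h2
      calc z (i, j) • (v i * star (v j)) = v i * (z (i, j) • q) * star (v j) := by
            rw [mul_smul_comm, smul_mul_assoc, hpi i]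
        _ = v i * (star (v i) * x * v j) * star (v j) := by rw [h2]
        _ = (v i * star (v i)) * x * (v j * star (v j)) := by simp only [mul_assoc]
    simp only [h1]
    simp only [← Finset.mul_sum, hone, mul_one]
    rw [← Finset.sum_mul, hone, one_mul]
  exact Module.Finite.of_surjective _ hsurj

theorem exists_small_prj (hN : IsII1 N) {q : N} (hq : Prj q) (hq0 : q ≠ 0) {ε : ℝ} (hε : 0 < ε) :
    ∃ p : N, Prj p ∧ p ≤ q ∧ p ≠ 0 ∧ rt p ≤ ε := by
  have key : ∀ n : ℕ, ∃ p : N, Prj p ∧ p ≤ q ∧ p ≠ 0 ∧ rt p ≤ rt q * (1 / 2) ^ n := by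
    intro n
    induction n with
    | zero => exact ⟨q, hq, le_rfl, hq0, by rw [pow_zero, mul_one]⟩
    | succ n ih =>
      obtain ⟨p, hp, hpq, hp0, hpt⟩ := ih
      obtain ⟨s, hs, hsp, hs0, hsne⟩ := exists_lt_prj hN hp hp0
      have h1 : s * p = s := prj_mul_of_le (proj_nonneg hs) hp hsp
      have h2 : Prj (p - s) := prj_sub hs hp h1
      have h3 : rt (p - s) = rt p - rt s := rt_sub p s
      rcases le_total (rt s) (rt p / 2) with h | h
      · refine ⟨s, hs, hsp.trans hpq, hs0, ?_⟩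
        rw [pow_succ]
        linarith
      · refine ⟨p - s, h2, (sub_le_self p (proj_nonneg hs)).trans hpq, ?_, ?_⟩
        · intro h4
          exact hsne (sub_eq_zero.1 h4).symm
        · rw [h3, pow_succ]
          linarith
  have hqp : 0 < rt q := rt_proj_pos hq hq0
  obtain ⟨n, hn⟩ := exists_pow_lt_of_lt_one (show 0 < ε / rt q by positivity)
    (show (1 / 2 : ℝ) < 1 by norm_num)
  obtain ⟨p, hp, hpq, hp0, hpt⟩ := key n
  refine ⟨p, hp, hpq, hp0, hpt.trans ?_⟩
  rw [lt_div_iff₀ hqp] at hn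
  linarith

/-- Subprojections of every trace. -/
theorem exists_sub_prj (hN : IsII1 N) {q : N} (hq : Prj q) {t : ℝ} (ht0 : 0 ≤ t)
    (ht : t ≤ rt q) : ∃ p : N, Prj p ∧ p ≤ q ∧ rt p = t := by
  have step : ∀ p : {p : N // Prj p ∧ p ≤ q ∧ rt p ≤ t}, ∃ p' : {p : N // Prj p ∧ p ≤ q ∧ rt p ≤ t},
      p.1 ≤ p'.1 ∧ ∀ r : N, Prj r → r ≤ q - p.1 → rt r ≤ t - rt p.1 →
        rt r ≤ 2 * (rt p'.1 - rt p.1) := by
    rintro ⟨p, hp, hpq, hpt⟩
    have hpq1 : p * q = p := prj_mul_of_le (proj_nonneg hp) hq hpq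
    have hqp : Prj (q - p) := prj_sub hp hq hpq1
    set S : Set ℝ := {s | ∃ r : N, Prj r ∧ r ≤ q - p ∧ rt r ≤ t - rt p ∧ rt r = s} with hS
    have hSb : BddAbove S := ⟨t - rt p, by rintro s ⟨r, -, -, h, rfl⟩; exact h⟩
    have hS0 : (0 : ℝ) ∈ S := ⟨0, prj_zero, proj_nonneg hqp, by rw [rt_zero]; linarith, rt_zero⟩
    have hm0 : 0 ≤ sSup S := le_csSup hSb hS0
    obtain ⟨r, hr, hrq, hrt, hrm⟩ : ∃ r : N, Prj r ∧ r ≤ q - p ∧ rt r ≤ t - rt p ∧
        sSup S ≤ 2 * rt r := by
      rcases hm0.eq_or_lt with h | h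
      · refine ⟨0, prj_zero, proj_nonneg hqp, by rw [rt_zero]; linarith, ?_⟩
        rw [← h, rt_zero, mul_zero]
      · obtain ⟨s, ⟨r, h1, h2, h3, rfl⟩, h4⟩ := exists_lt_of_lt_csSup ⟨0, hS0⟩
          (show sSup S / 2 < sSup S by linarith)
        exact ⟨r, h1, h2, h3, by linarith⟩
    have hpr : p * r = 0 := by
      have h1 : (q - p) * r = r := prj_mul_of_le' (proj_nonneg hr) hqp hrq
      rw [← h1, ← mul_assoc, mul_sub, hpq1, hp.2, sub_self, zero_mul]
    refine ⟨⟨p + r, prj_add hp hr hpr, ?_, ?_⟩, ?_, ?_⟩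
    · have h1 := add_le_add_right hrq p
      rw [add_sub_cancel] at h1
      exact h1
    · rw [rt_add]
      linarith
    · exact le_add_of_nonneg_right (proj_nonneg hr)
    · intro r' h1 h2 h3
      have h4 : rt r' ≤ sSup S := le_csSup hSb ⟨r', h1, h2, h3, rfl⟩
      change rt r' ≤ 2 * (rt (p + r) - rt p)
      rw [rt_add]
      linarith
  choose f hf1 hf2 using step
  have hz : Prj (0 : N) ∧ (0 : N) ≤ q ∧ rt (0 : N) ≤ t := ⟨prj_zero, proj_nonneg hq, by rwa [rt_zero]⟩
  obtain ⟨P, hP0, hPs⟩ : ∃ P : ℕ → {p : N // Prj p ∧ p ≤ q ∧ rt p ≤ t},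
      P 0 = ⟨0, hz⟩ ∧ ∀ n, P (n + 1) = f (P n) :=
    ⟨fun n => Nat.rec ⟨0, hz⟩ (fun _ p => f p) n, rfl, fun n => rfl⟩
  have hmono : Monotone fun n => (P n).1 := by
    refine monotone_nat_of_le_succ fun n => ?_
    show (P n).1 ≤ (P (n + 1)).1
    rw [hPs]
    exact hf1 (P n)
  obtain ⟨y, hy0, -, hPy, hlim⟩ := mono_lim (x := fun n => (P n).1) (C := 1) zero_le_one hmono
    (by show 0 ≤ (P 0).1; rw [hP0]) (fun n => by
      rw [one_smul]
      exact proj_le_one (P n).2.1)
  have hyp : Prj y := by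
    constructor
    · have h1 := lim_star hlim
      have h2 : (fun n => two (star (P n).1 - star y)) = fun n => two ((P n).1 - star y) := by
        funext n
        rw [(P n).2.1.1]
      rw [h2] at h1
      exact lim_unique h1 hlim
    · have h1 := lim_mul (C := 1) (fun n => norm_proj_le (P n).2.1) hlim hlim
      have h2 : (fun n => two ((P n).1 * (P n).1 - y * y)) = fun n => two ((P n).1 - y * y) := by
        funext n
        rw [(P n).2.1.2]
      rw [h2] at h1
      exact lim_unique h1 hlim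
  have hyq : y ≤ q := lim_le (fun n => (P n).2.2.1) hlim (lim_const q)
  have hrl := lim_rt hlim
  have hyt : rt y ≤ t := le_of_tendsto hrl (Filter.Eventually.of_forall fun n => (P n).2.2.2)
  refine ⟨y, hyp, hyq, le_antisymm hyt ?_⟩
  by_contra hlt
  push Not at hlt
  have hyq1 : y * q = y := prj_mul_of_le (proj_nonneg hyp) hq hyq
  have hqy : Prj (q - y) := prj_sub hyp hq hyq1
  have hne : q - y ≠ 0 := by
    intro h
    have h1 : rt (q - y) = 0 := by rw [h, rt_zero]
    rw [rt_sub] at h1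
    linarith
  obtain ⟨r, hr, hrq, hr0, hrt⟩ := exists_small_prj hN hqy hne (show 0 < t - rt y by linarith)
  have hrp : 0 < rt r := rt_proj_pos hr hr0
  have hstep : ∀ n, rt r ≤ 2 * (rt (P (n + 1)).1 - rt (P n).1) := by
    intro n
    rw [hPs]
    refine hf2 (P n) r hr (hrq.trans (sub_le_sub_left (hPy n) q)) ?_
    have h1 := rt_mono (hPy n)
    have h2 : rt (P n).1 ≤ rt y := h1
    linarith
  have hsum : ∀ n : ℕ, (n : ℝ) * rt r ≤ 2 * rt (P n).1 := by
    intro n
    induction n with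
    | zero =>
      rw [hP0]
      simp
    | succ n ih =>
      have h1 := hstep n
      push_cast
      linarith
  obtain ⟨n, hn⟩ := exists_nat_gt (2 * t / rt r)
  rw [div_lt_iff₀ hrp] at hn
  have h1 := hsum n
  have h2 := (P n).2.2.2
  linarith

end Pool.Agent.PTH
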