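import Pool.Agent.PTH.MxFac
import Pool.Agent.PTH.TbH

/-!
# PTH / MxDif: subprojections of every trace (form used in ThmB)
-/

universe u

namespace Pool.Agent.PTH

variable {A : Type u} [CStarAlgebra A] [PartialOrder A] [StarOrderedRing A] [TracialVN A]

theorem mxDif (hA : IsII1 A) (q : A) (t : ℝ) (hq : Prj q) (h0 : 0 ≤ t) (h : t ≤ rt q) :
    ∃ q' : A, Prj q' ∧ q * q' = q' ∧ rt q' = t := by
  obtain ⟨p, hp, hpq, ht⟩ := exists_sub_prj hA hq h0 h
  have hp0 : 0 ≤ p := by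
    have := star_mul_self_nonneg p
    rwa [hp.1, hp.2] at this
  exact ⟨p, hp, prj_mul_of_le' hp0 hq hpq, ht⟩

end Pool.Agent.PTH
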