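import Pool.Agent.PTH.MxBall

/-!
# PTH / MxEnt: entries of matrices over `A`, positive matrices
-/

open Filter Topology

set_option linter.unusedSectionVars false

namespace Pool.Agent.PTH

variable {A : Type*} [CStarAlgebra A] [PartialOrder A] [StarOrderedRing A]
  {ι : Type*} [Fintype ι] [DecidableEq ι]

namespace Mx

/-- The matrix with the single entry `a` at `(j, l)`. -/
noncomputable def ent (j l : ι) (a : A) : CStarMatrix ι ι A :=
  CStarMatrix.ofMatrix (Matrix.single j l a)

theorem ent_apply (j l : ι) (a : A) (i k : ι) :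
    ent j l a i k = if j = i ∧ l = k then a else 0 := by
  change Matrix.single j l a i k = _
  rw [Matrix.single_apply]

theorem star_ent (j l : ι) (a : A) : star (ent j l a) = ent l j (star a) := by
  rw [← CStarMatrix.ext_iff]
  intro i k
  change star (ent j l a k i) = ent l j (star a) i k
  rw [ent_apply, ent_apply]
  by_cases h : j = k ∧ l = i
  · rw [if_pos h, if_pos ⟨h.2, h.1⟩]
  · rw [if_neg h, if_neg fun h' => h ⟨h'.2, h'.1⟩, star_zero]

theorem mul_ent_apply (M : CStarMatrix ι ι A) (j l : ι) (a : A) (i k : ι) :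
    (M * ent j l a) i k = if l = k then M i j * a else 0 := by
  rw [CStarMatrix.mul_apply]
  by_cases h : l = k
  · rw [if_pos h, Finset.sum_eq_single j]
    · rw [ent_apply, if_pos ⟨rfl, h⟩]
    · intro m _ hm
      rw [ent_apply, if_neg fun h' => hm h'.1.symm, mul_zero]
    · intro h'
      exact absurd (Finset.mem_univ j) h'
  · rw [if_neg h]
    refine Finset.sum_eq_zero fun m _ => ?_
    rw [ent_apply, if_neg fun h' => h h'.2, mul_zero]

theorem ent_mul_apply (M : CStarMatrix ι ι A) (j l : ι) (a : A) (i k : ι) :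
    (ent j l a * M) i k = if j = i then a * M l k else 0 := by
  rw [CStarMatrix.mul_apply]
  by_cases h : j = i
  · rw [if_pos h, Finset.sum_eq_single l]
    · rw [ent_apply, if_pos ⟨h, rfl⟩]
    · intro m _ hm
      rw [ent_apply, if_neg fun h' => hm h'.2.symm, zero_mul]
    · intro h'
      exact absurd (Finset.mem_univ l) h'
  · rw [if_neg h]
    refine Finset.sum_eq_zero fun m _ => ?_
    rw [ent_apply, if_neg fun h' => h h'.1, zero_mul]

theorem star_apply' (M : CStarMatrix ι ι A) (j l : ι) : (star M) j l = star (M l j) := rfl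

theorem exists_eq_star_mul {N : Type*} [CStarAlgebra N] [PartialOrder N] [StarOrderedRing N]
    {M : N} (h : 0 ≤ M) : ∃ Z : N, M = star Z * Z :=
  CStarAlgebra.nonneg_iff_eq_star_mul_self.1 h

/-! ### Positive matrices -/

/-- The diagonal entries of a positive matrix are positive. -/
theorem diag_nonneg {M : CStarMatrix ι ι A} (h : 0 ≤ M) (j : ι) : 0 ≤ M j j := by
  obtain ⟨Z, rfl⟩ := exists_eq_star_mul h
  rw [CStarMatrix.mul_apply]
  exact Finset.sum_nonneg fun l _ => star_mul_self_nonneg (Z l j)

theorem diag_mono {M N : CStarMatrix ι ι A} (h : M ≤ N) (j : ι) : M j j ≤ N j j := by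
  have := diag_nonneg (sub_nonneg.2 h) j
  exact sub_nonneg.1 this

/-- The quadratic form of a positive matrix is positive. -/
theorem quad_nonneg {M : CStarMatrix ι ι A} (h : 0 ≤ M) (a : ι → A) :
    0 ≤ ∑ i, ∑ j, star (a i) * M i j * a j := by
  obtain ⟨Z, rfl⟩ := exists_eq_star_mul h
  have e : ∑ i, ∑ j, star (a i) * (star Z * Z) i j * a j =
      ∑ l, star (∑ i, Z l i * a i) * (∑ j, Z l j * a j) := by
    have e1 : ∀ i j, star (a i) * (star Z * Z) i j * a j =
        ∑ l, (star (Z l i * a i) * (Z l j * a j)) := by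
      intro i j
      rw [CStarMatrix.mul_apply, Finset.mul_sum, Finset.sum_mul]
      refine Finset.sum_congr rfl fun l _ => ?_
      rw [star_apply', star_mul]
      simp only [mul_assoc]
    simp only [e1]
    calc ∑ i, ∑ j, ∑ l, (star (Z l i * a i) * (Z l j * a j))
        = ∑ i, ∑ l, ∑ j, (star (Z l i * a i) * (Z l j * a j)) :=
          Finset.sum_congr rfl fun i _ => Finset.sum_comm
      _ = ∑ l, ∑ i, ∑ j, (star (Z l i * a i) * (Z l j * a j)) := Finset.sum_comm
      _ = _ := by
          refine Finset.sum_congr rfl fun l _ => ?_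
          rw [star_sum, Finset.sum_mul]
          exact Finset.sum_congr rfl fun i _ => by rw [Finset.mul_sum]
  rw [e]
  exact Finset.sum_nonneg fun l _ => star_mul_self_nonneg _

end Mx

end Pool.Agent.PTH
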