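import Pool.Agent.PTH.TbP

/-!
# Toolbox: comparison of projections in a factor (0.10)

PROOFS.
* `factor_link`: `K` = set of all `∑ λ_i u_i q u_i*` (finite convex combinations, `u_i` unitary),
  convex, invariant under `y ↦ u y u*`, `0 ≤ y ≤ 1`.  A sequence `y_n ∈ K` with
  `‖y_n‖₂ → inf_K ‖.‖₂` is 2-norm Cauchy (parallelogram law), limit `y` (`exists_lim`).  For a
  unitary `u`: `(y_n + u y_n u*)/2 ∈ K`, so `‖y + u y u*‖₂ / 2 ≥ inf`, and `‖y‖₂ = ‖u y u*‖₂ =
  inf`; parallelogram law: `y = u y u*`.  Unitaries span `N` (`CStarAlgebra.span_unitary`), so `y`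
  is central, `y = c 1`, `c = τ(y) = lim τ(y_n) = τ(q)`.  `p u q = 0` gives `p y_n = 0`,
  `p y = 0`, `τ(q) p = 0`.
* `exists_piso`: `x` with `q x p ≠ 0` (`factor_link`), `v = q x p`, `polar v`:
  `w* w = supp (v* v) ≤ p`, `w w* = supp (v v*) ≤ q`, not zero.
* `comparison`: GREEDY.  `v_0 = 0`; `v_{n+1} = v_n + w_n`, `w_n` a partial isometry with
  `w_n* w_n ≤ p - v_n* v_n`, `w_n w_n* ≤ q - v_n v_n*`, `rt (w_n* w_n) ≥ (1/2) s_n`, `s_n` the
  supremum of `rt (w* w)` over all these `w`.  `v_n` is a partial isometry (`v_n* w_n = 0`,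
  `v_n w_n* = 0`), `‖v_m - v_n‖₂² = rt (v_m* v_m) - rt (v_n* v_n)` for `n ≤ m`: Cauchy, limit `v`
  (`exists_lim_of_sq`), `v* v ≤ p`, `v v* ≤ q` projections (`lim_mul`).  `∑ rt (w_n* w_n) ≤ 1`, so
  `s_n → 0`.  If `p - v* v ≠ 0`, then `rt (q - v v*) ≥ rt (p - v* v) > 0`, and `exists_piso` gives
  `w ≠ 0` with `w* w ≤ p - v* v ≤ p - v_n* v_n`, the same for `q`: `s_n ≥ rt (w* w) > 0` for all
  `n`, contradiction.
-/

open Filter Topology

namespace Pool.Agent.PTH

open TrAlg

variable {N : Type*} [CStarAlgebra N] [PartialOrder N] [StarOrderedRing N] [TracialVN N]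

private theorem par_sub (a b : N) :
    two (a - b) ^ 2 = 2 * two a ^ 2 + 2 * two b ^ 2 - two (a + b) ^ 2 := by
  rw [two_sub_sq, two_add_sq]
  ring

/-- The set of the conjugates of `q` by unitaries. -/
private def orb (q : N) : Set N :=
  {y | ∃ u : N, star u * u = 1 ∧ u * star u = 1 ∧ y = u * q * star u}

private theorem orb_self (q : N) : q ∈ orb q := ⟨1, by simp, by simp, by simp⟩

private theorem hull_conj {q : N} {u : N} (hu : star u * u = 1) (hu' : u * star u = 1) {y : N}
    (hy : y ∈ convexHull ℝ (orb q)) : u * y * star u ∈ convexHull ℝ (orb q) := by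
  have hc : Convex ℝ {y : N | u * y * star u ∈ convexHull ℝ (orb q)} := by
    intro a ha b hb s t hs ht hst
    have h1 := convex_convexHull ℝ (orb q) ha hb hs ht hst
    have e : u * (s • a + t • b) * star u = s • (u * a * star u) + t • (u * b * star u) := by
      rw [mul_add, add_mul, mul_smul_comm, mul_smul_comm, smul_mul_assoc, smul_mul_assoc]
    change u * (s • a + t • b) * star u ∈ convexHull ℝ (orb q)
    rw [e]
    exact h1
  refine convexHull_min ?_ hc hy
  rintro z ⟨v, hv, hv', rfl⟩
  refine subset_convexHull ℝ _ ⟨u * v, ?_, ?_, ?_⟩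
  · rw [star_mul]
    have : star v * star u * (u * v) = star v * (star u * u) * v := by noncomm_ring
    rw [this, hu, mul_one, hv]
  · rw [star_mul]
    have : u * v * (star v * star u) = u * (v * star v) * star u := by noncomm_ring
    rw [this, hv', mul_one, hu']
  · rw [star_mul]; noncomm_ring

theorem factor_link (hN : IsFac N) {p q : N} (hp : Prj p) (hq : Prj q)
    (h : ∀ x : N, p * x * q = 0) : p = 0 ∨ q = 0 := by
  set K : Set N := convexHull ℝ (orb q) with hK
  have hKc : Convex ℝ K := convex_convexHull ℝ _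
  have hKall : ∀ y ∈ K, ‖y‖ ≤ 1 ∧ tau y = tau q ∧ p * y = 0 := by
    intro y hy
    have hc : Convex ℝ {y : N | ‖y‖ ≤ 1 ∧ tau y = tau q ∧ p * y = 0} := by
      rintro a ⟨ha1, ha2, ha3⟩ b ⟨hb1, hb2, hb3⟩ s t hs ht hst
      refine ⟨?_, ?_, ?_⟩
      · refine (norm_add_le _ _).trans ?_
        rw [norm_smul, norm_smul, Real.norm_eq_abs, Real.norm_eq_abs, abs_of_nonneg hs,
          abs_of_nonneg ht]
        have h1 := mul_le_mul_of_nonneg_left ha1 hs
        have h2 := mul_le_mul_of_nonneg_left hb1 ht
        linarith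
      · rw [map_add, tau_real_smul, tau_real_smul, ha2, hb2, ← add_mul]
        have : ((s : ℂ) + t) = 1 := by exact_mod_cast hst
        rw [this, one_mul]
      · rw [mul_add, mul_smul_comm, mul_smul_comm, ha3, hb3, smul_zero, smul_zero, add_zero]
    refine convexHull_min ?_ hc hy
    rintro z ⟨u, hu, hu', rfl⟩
    refine ⟨norm_proj_le (prj_conj hu hq), ?_, ?_⟩
    · rw [tau_comm, ← mul_assoc, hu, one_mul]
    · rw [← mul_assoc, ← mul_assoc, h u, zero_mul]
  have hne : (two '' K).Nonempty := ⟨two q, q, subset_convexHull ℝ _ (orb_self q), rfl⟩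
  have hbd : BddBelow (two '' K) := ⟨0, by rintro _ ⟨y, -, rfl⟩; exact two_nonneg y⟩
  set m := sInf (two '' K) with hm
  have hm0 : 0 ≤ m := le_csInf hne (by rintro _ ⟨y, -, rfl⟩; exact two_nonneg y)
  have hmle : ∀ y ∈ K, m ≤ two y := fun y hy => csInf_le hbd ⟨y, hy, rfl⟩
  have hmid : ∀ a ∈ K, ∀ b ∈ K, 2 * m ≤ two (a + b) := by
    intro a ha b hb
    have h1 : (1 / 2 : ℝ) • a + (1 / 2 : ℝ) • b ∈ K :=
      hKc ha hb (by norm_num) (by norm_num) (by norm_num)
    have h2 := hmle _ h1
    rw [← smul_add, two_smul_real, abs_of_pos (by norm_num : (0 : ℝ) < 1 / 2)] at h2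
    linarith
  obtain ⟨r, -, hr, hrm⟩ := exists_seq_tendsto_sInf hne hbd
  choose y hyK hyr using hrm
  have hyt : Tendsto (fun n => two (y n)) atTop (𝓝 m) := by
    refine hr.congr fun n => ?_
    rw [hyr]
  have hcau : ∀ ε : ℝ, 0 < ε → ∃ k, ∀ a ≥ k, ∀ b ≥ k, two (y a - y b) ≤ ε := by
    intro ε hε
    have h1 : Tendsto (fun n => two (y n) ^ 2) atTop (𝓝 (m ^ 2)) := hyt.pow 2
    have h2 : ∀ᶠ n in atTop, two (y n) ^ 2 < m ^ 2 + ε ^ 2 / 4 :=
      h1.eventually (gt_mem_nhds (by linarith [pow_pos hε 2]))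
    obtain ⟨k, hk⟩ := eventually_atTop.1 h2
    refine ⟨k, fun a ha b hb => ?_⟩
    have h3 := hk a ha
    have h4 := hk b hb
    have h5 := hmid _ (hyK a) _ (hyK b)
    have h6 : (2 * m) ^ 2 ≤ two (y a + y b) ^ 2 := pow_le_pow_left₀ (by linarith) h5 2
    have h7 : two (y a - y b) ^ 2 ≤ ε ^ 2 := by
      rw [par_sub]
      nlinarith
    exact (pow_le_pow_iff_left₀ (two_nonneg _) hε.le (by norm_num)).1 h7
  obtain ⟨z, -, hz⟩ := exists_lim (fun n => (hKall _ (hyK n)).1) hcau
  have hzm : two z = m := tendsto_nhds_unique (lim_two hz) hyt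
  have hinv : ∀ u : N, star u * u = 1 → u * star u = 1 → u * z * star u = z := by
    intro u hu hu'
    have h1 : Tendsto (fun n => two (u * y n * star u - u * z * star u)) atTop (𝓝 0) :=
      lim_mul_right _ (lim_mul_left u hz)
    have h2 := lim_two (lim_add hz h1)
    have h3 : 2 * m ≤ two (z + u * z * star u) :=
      ge_of_tendsto' h2 fun n => hmid _ (hyK n) _ (hull_conj hu hu' (hyK n))
    have h4 : two (u * z * star u) = m := by
      rw [two_mul_unitary (by rwa [star_star]), two_unitary_mul hu, hzm]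
    have h5 : (2 * m) ^ 2 ≤ two (z + u * z * star u) ^ 2 := pow_le_pow_left₀ (by linarith) h3 2
    have h6 : two (z - u * z * star u) ^ 2 ≤ 0 := by
      rw [par_sub, h4, hzm]
      nlinarith
    have h7 : two (z - u * z * star u) = 0 :=
      pow_eq_zero_iff (two_ne_zero) |>.1 (le_antisymm h6 (sq_nonneg _))
    exact (sub_eq_zero.1 (two_eq_zero h7)).symm
  have hcen : ∀ x : N, z * x = x * z := by
    intro x
    have hx : x ∈ Submodule.span ℂ (unitary N : Set N) := by
      rw [CStarAlgebra.span_unitary]; exact Submodule.mem_top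
    induction hx using Submodule.span_induction with
    | mem u hu =>
      have hu1 := Unitary.mem_iff.1 hu
      have h1 := hinv u hu1.1 hu1.2
      nth_rewrite 1 [← h1]
      rw [mul_assoc, hu1.1, mul_one]
    | zero => rw [mul_zero, zero_mul]
    | add a b _ _ ha hb => rw [mul_add, add_mul, ha, hb]
    | smul c a _ ha => rw [mul_smul_comm, smul_mul_assoc, ha]
  obtain ⟨c, hc⟩ := hN z hcen
  have htz : tau z = tau q := by
    have h1 := lim_tau hz
    have h2 : (fun n => tau (y n)) = fun _ => tau q := funext fun n => (hKall _ (hyK n)).2.1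
    rw [h2] at h1
    exact tendsto_nhds_unique h1 tendsto_const_nhds
  have hpz : p * z = 0 := by
    have h1 := lim_mul_left p hz
    have h2 : (fun n => two (p * y n - p * z)) = fun _ => two (0 - p * z) :=
      funext fun n => by rw [(hKall _ (hyK n)).2.2]
    rw [h2] at h1
    have h3 := tendsto_nhds_unique h1 tendsto_const_nhds
    have h4 := two_eq_zero h3.symm
    rwa [zero_sub, neg_eq_zero] at h4
  have hc2 : c = tau q := by
    rw [← htz, hc, map_smul, tau_one, smul_eq_mul, mul_one]
  rw [hc, mul_smul_comm, mul_one] at hpz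
  rcases smul_eq_zero.1 hpz with h0 | h0
  · right
    refine eq_zero_of_rt (proj_nonneg hq) ?_
    rw [rt, ← hc2, h0, Complex.zero_re]
  · exact Or.inl h0

theorem exists_piso (hN : IsFac N) {p q : N} (hp : Prj p) (hq : Prj q) (hp0 : p ≠ 0)
    (hq0 : q ≠ 0) :
    ∃ w : N, w ≠ 0 ∧ Prj (star w * w) ∧ star w * w ≤ p ∧ Prj (w * star w) ∧ w * star w ≤ q := by
  have h1 : ∃ x : N, p * x * q ≠ 0 := by
    by_contra hcon
    push Not at hcon
    rcases factor_link hN hp hq hcon with h | h
    · exact hp0 h
    · exact hq0 h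
  obtain ⟨x, hx⟩ := h1
  set v : N := star (p * x * q) with hv
  have hv0 : v ≠ 0 := fun h => hx (star_eq_zero.1 h)
  have hvp : v * p = v := by
    rw [hv, star_mul, star_mul, hp.1, hq.1]
    have : q * (star x * p) * p = q * (star x * (p * p)) := by noncomm_ring
    rw [this, hp.2]
  have hqv : q * v = v := by
    rw [hv, star_mul, star_mul, hp.1, hq.1, ← mul_assoc, hq.2]
  obtain ⟨w, -, hw1, -, hw2, hw3⟩ := polar v
  refine ⟨w, ?_, ?_, ?_, ?_, ?_⟩
  · rintro rfl
    rw [zero_mul] at hw1
    exact hv0 hw1.symm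
  · rw [hw2]; exact spr_prj _ _
  · rw [hw2]
    refine supp_le_of_mul (star_mul_self_nonneg v) hp ?_
    rw [mul_assoc, hvp]
  · rw [hw3]; exact spr_prj _ _
  · rw [hw3]
    refine supp_le_of_mul (mul_star_self_nonneg v) hq ?_
    have : star v * q = star v := by
      have := congrArg star hqv
      rwa [star_mul, hq.1] at this
    rw [mul_assoc, this]

/-- The partial isometries below `p`, `q`. -/
private def PI (p q : N) (w : N) : Prop := Prj (star w * w) ∧ star w * w ≤ p ∧ w * star w ≤ q

private theorem PI_zero {p q : N} (hp : 0 ≤ p) (hq : 0 ≤ q) : PI p q (0 : N) := by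
  refine ⟨?_, ?_, ?_⟩
  · rw [mul_zero]; exact prj_zero
  · rwa [mul_zero]
  · rwa [zero_mul]

private theorem PI_bdd (p q : N) : BddAbove ((fun w : N => rt (star w * w)) '' {w | PI p q w}) :=
  ⟨rt p, by rintro _ ⟨w, hw, rfl⟩; exact rt_mono hw.2.1⟩

/-- The greedy choice. -/
private theorem greedy {p q : N} (hp : 0 ≤ p) (hq : 0 ≤ q) :
    ∃ w : N, PI p q w ∧ ∀ w' : N, PI p q w' → rt (star w' * w') ≤ 2 * rt (star w * w) := by
  set S := (fun w : N => rt (star w * w)) '' {w | PI p q w} with hS
  have hb : BddAbove S := PI_bdd p q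
  have hne : S.Nonempty := ⟨_, 0, PI_zero hp hq, rfl⟩
  have hle : ∀ w' : N, PI p q w' → rt (star w' * w') ≤ sSup S := fun w' hw' =>
    le_csSup hb ⟨w', hw', rfl⟩
  have h0 : 0 ≤ sSup S := by
    have := hle 0 (PI_zero hp hq)
    rwa [mul_zero, rt_zero] at this
  rcases h0.eq_or_lt with h1 | h1
  · refine ⟨0, PI_zero hp hq, fun w' hw' => ?_⟩
    rw [mul_zero, rt_zero, mul_zero, h1]
    exact hle w' hw'
  · obtain ⟨_, ⟨w, hw, rfl⟩, hlt⟩ := exists_lt_of_lt_csSup hne (half_lt_self h1)
    refine ⟨w, hw, fun w' hw' => (hle w' hw').trans ?_⟩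
    simp only at hlt
    linarith

private theorem PI_norm {p q w : N} (h : PI p q w) : ‖w‖ ≤ 1 := by
  have h1 := norm_proj_le h.1
  rw [CStarRing.norm_star_mul_self] at h1
  nlinarith [norm_nonneg w]

/-- One step. -/
private theorem PI_step {p q v w : N} (hp : Prj p) (hq : Prj q) (hv : PI p q v)
    (hw : PI (p - star v * v) (q - v * star v) w) :
    PI p q (v + w) ∧ star (v + w) * (v + w) = star v * v + star w * w ∧
      (v + w) * star (v + w) = v * star v + w * star w := by
  obtain ⟨hv1, hv2⟩ := piso hv.1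
  obtain ⟨hw1, hw2⟩ := piso hw.1
  have hv1' : v * star v * v = v := by rw [mul_assoc]; exact hv1
  have hw1' : w * star w * w = w := by rw [mul_assoc]; exact hw1
  have hvs : star v * v * star v = star v := by
    have := congrArg star hv1'
    rwa [star_mul, star_mul, star_star, ← mul_assoc] at this
  have hws : star w * w * star w = star w := by
    have := congrArg star hw1'
    rwa [star_mul, star_mul, star_star, ← mul_assoc] at this
  -- orthogonality of the initial projections
  have o1 : (star w * w) * (star v * v) = 0 := by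
    refine mul_eq_zero_of_le (proj_nonneg hw.1) hw.2.1 ?_
    rw [sub_mul, hv.1.2, prj_mul_of_le' (proj_nonneg hv.1) hp hv.2.1, sub_self]
  have o2 : (w * star w) * (v * star v) = 0 := by
    refine mul_eq_zero_of_le (proj_nonneg hw2) hw.2.2 ?_
    rw [sub_mul, hv2.2, prj_mul_of_le' (proj_nonneg hv2) hq hv.2.2, sub_self]
  have c1 : star w * v = 0 := by
    have e : star w * v = star w * ((w * star w) * (v * star v)) * v := by
      have : star w * ((w * star w) * (v * star v)) * v =
          (star w * w * star w) * (v * star v * v) := by noncomm_ring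
      rw [this, hws, hv1']
    rw [e, o2, mul_zero, zero_mul]
  have c1' : star v * w = 0 := by
    have := congrArg star c1
    rwa [star_mul, star_star, star_zero] at this
  have c2 : w * star v = 0 := by
    have e : w * star v = w * ((star w * w) * (star v * v)) * star v := by
      have : w * ((star w * w) * (star v * v)) * star v =
          (w * star w * w) * (star v * v * star v) := by noncomm_ring
      rw [this, hw1', hvs]
    rw [e, o1, mul_zero, zero_mul]
  have c2' : v * star w = 0 := by
    have := congrArg star c2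
    rwa [star_mul, star_star, star_zero] at this
  have e1 : star (v + w) * (v + w) = star v * v + star w * w := by
    rw [star_add, add_mul, mul_add, mul_add, c1, c1', add_zero, zero_add]
  have e2 : (v + w) * star (v + w) = v * star v + w * star w := by
    rw [star_add, add_mul, mul_add, mul_add, c2, c2', add_zero, zero_add]
  refine ⟨⟨?_, ?_, ?_⟩, e1, e2⟩
  · rw [e1]
    exact prj_add hv.1 hw.1 (prj_orth_symm hw.1 hv.1 o1)
  · rw [e1]
    have := hw.2.1
    rw [add_comm]
    exact le_sub_iff_add_le.1 this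
  · rw [e2]
    have := hw.2.2
    rw [add_comm]
    exact le_sub_iff_add_le.1 this

/-- COMPARISON. -/
theorem comparison (hN : IsFac N) {p q : N} (hp : Prj p) (hq : Prj q) (h : rt p ≤ rt q) :
    ∃ v : N, star v * v = p ∧ Prj (v * star v) ∧ v * star v ≤ q := by
  -- the greedy step as a function
  have hst : ∀ v : {v : N // PI p q v}, ∃ w : N, PI (p - star v.1 * v.1) (q - v.1 * star v.1) w ∧
      ∀ w' : N, PI (p - star v.1 * v.1) (q - v.1 * star v.1) w' →
        rt (star w' * w') ≤ 2 * rt (star w * w) := fun v =>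
    greedy (sub_nonneg.2 v.2.2.1) (sub_nonneg.2 v.2.2.2)
  choose g hg1 hg2 using hst
  let F : {v : N // PI p q v} → {v : N // PI p q v} := fun v =>
    ⟨v.1 + g v, (PI_step hp hq v.2 (hg1 v)).1⟩
  let V : ℕ → {v : N // PI p q v} := fun n =>
    Nat.rec ⟨0, PI_zero (proj_nonneg hp) (proj_nonneg hq)⟩ (fun _ v => F v) n
  have hVs : ∀ n, (V (n + 1)).1 = (V n).1 + g (V n) := fun n => rfl
  set x : ℕ → N := fun n => (V n).1 with hx
  have hPI : ∀ n, PI p q (x n) := fun n => (V n).2
  have hx1 : ∀ n, star (x (n + 1)) * x (n + 1) =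
      star (x n) * x n + star (g (V n)) * g (V n) := fun n =>
    (PI_step hp hq (V n).2 (hg1 (V n))).2.1
  have hx2 : ∀ n, x (n + 1) * star (x (n + 1)) =
      x n * star (x n) + g (V n) * star (g (V n)) := fun n =>
    (PI_step hp hq (V n).2 (hg1 (V n))).2.2
  have hm1 : Monotone fun n => star (x n) * x n := monotone_nat_of_le_succ fun n => by
    rw [hx1]
    exact le_add_of_nonneg_right (star_mul_self_nonneg _)
  have hm2 : Monotone fun n => x n * star (x n) := monotone_nat_of_le_succ fun n => by
    rw [hx2]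
    exact le_add_of_nonneg_right (mul_star_self_nonneg _)
  -- `star (x m) * x n = star (x m) * x m`
  have hcr : ∀ m n, m ≤ n → star (x m) * x n = star (x m) * x m := by
    intro m n hmn
    induction n, hmn using Nat.le_induction with
    | base => rfl
    | succ n hmn ih =>
      have e : x (n + 1) = x n + g (V n) := hVs n
      rw [e, mul_add, ih]
      obtain ⟨hw1, hw2⟩ := piso (hg1 (V n)).1
      obtain ⟨hm1', hm2'⟩ := piso (hPI m).1
      have hle : g (V n) * star (g (V n)) ≤ q - x m * star (x m) :=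
        ((hg1 (V n)).2.2).trans (sub_le_sub_left (hm2 hmn) _)
      have o : (g (V n) * star (g (V n))) * (x m * star (x m)) = 0 := by
        refine mul_eq_zero_of_le (proj_nonneg hw2) hle ?_
        rw [sub_mul, hm2'.2, prj_mul_of_le' (proj_nonneg hm2') hq (hPI m).2.2, sub_self]
      have o' : (x m * star (x m)) * (g (V n) * star (g (V n))) = 0 :=
        prj_orth_symm hw2 hm2' o
      have hms : star (x m) * x m * star (x m) = star (x m) := by
        have := congrArg star hm1'
        rwa [star_mul, star_mul, star_star] at this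
      have : star (x m) * g (V n) = 0 := by
        have e2 : star (x m) * g (V n) =
            star (x m) * ((x m * star (x m)) * (g (V n) * star (g (V n)))) * g (V n) := by
          have : star (x m) * ((x m * star (x m)) * (g (V n) * star (g (V n)))) * g (V n) =
              (star (x m) * x m * star (x m)) * (g (V n) * (star (g (V n)) * g (V n))) := by
            noncomm_ring
          rw [this, hms, hw1]
        rw [e2, o', mul_zero, zero_mul]
      rw [this, add_zero]
  set r : ℕ → ℝ := fun n => rt (star (x n) * x n) with hr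
  have hrm : Monotone r := fun m n hmn => rt_mono (hm1 hmn)
  have hrb : ∀ n, r n ≤ rt p := fun n => rt_mono (hPI n).2.1
  have hrt : Tendsto r atTop (𝓝 (⨆ n, r n)) :=
    tendsto_atTop_ciSup hrm ⟨rt p, by rintro _ ⟨n, rfl⟩; exact hrb n⟩
  obtain ⟨v, hvn, hv⟩ := exists_lim_of_sq (x := x) (C := 1) (fun n => PI_norm (hPI n)) r hrt (by
    intro m n hmn
    have e1 : rt (star (x n) * x m) = rt (star (x m) * x m) := by
      rw [← rt_star, star_mul, star_star, hcr m n hmn]
    have e2 : two (x n - x m) ^ 2 = r n - r m := by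
      rw [two_sub_sq, e1, two_sq_rt, two_sq_rt]
      simp only [hr]
      ring
    rw [e2]
    exact le_abs_self _)
  have hl1 : Tendsto (fun n => two (star (x n) * x n - star v * v)) atTop (𝓝 0) :=
    lim_mul (fun n => PI_norm (hPI n)) (lim_star hv) hv
  have hl2 : Tendsto (fun n => two (x n * star (x n) - v * star v)) atTop (𝓝 0) :=
    lim_mul (C := 1) (fun n => by rw [norm_star]; exact PI_norm (hPI n)) hv (lim_star hv)
  have hPv : Prj (star v * v) := by
    refine ⟨by rw [star_mul, star_star], ?_⟩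
    have h1 : Tendsto (fun n => two (star (x n) * x n * (star (x n) * x n) -
        star v * v * (star v * v))) atTop (𝓝 0) :=
      lim_mul (C := 1) (fun n => norm_proj_le (hPI n).1) hl1 hl1
    refine lim_unique (x := fun n => star (x n) * x n) (l := atTop) ?_ hl1
    refine h1.congr fun n => ?_
    rw [(hPI n).1.2]
  obtain ⟨hv1, hPv'⟩ := piso hPv
  have hvp : star v * v ≤ p := lim_le (fun n => (hPI n).2.1) hl1 (lim_const p)
  have hvq : v * star v ≤ q := lim_le (fun n => (hPI n).2.2) hl2 (lim_const q)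
  have hup1 : ∀ n, star (x n) * x n ≤ star v * v := fun n =>
    lim_le (x := fun _ : ℕ => star (x n) * x n) (x' := fun k => star (x (k + n)) * x (k + n))
      (fun k => hm1 (Nat.le_add_left n k)) (lim_const _)
      (lim_comp (x := fun m => star (x m) * x m) (φ := fun k => k + n)
        (tendsto_add_atTop_nat n) hl1)
  have hup2 : ∀ n, x n * star (x n) ≤ v * star v := fun n =>
    lim_le (x := fun _ : ℕ => x n * star (x n)) (x' := fun k => x (k + n) * star (x (k + n)))
      (fun k => hm2 (Nat.le_add_left n k)) (lim_const _)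
      (lim_comp (x := fun m => x m * star (x m)) (φ := fun k => k + n)
        (tendsto_add_atTop_nat n) hl2)
  refine ⟨v, ?_, hPv', hvq⟩
  by_contra hne
  have hd1 : Prj (p - star v * v) :=
    prj_sub hPv hp (prj_mul_of_le (proj_nonneg hPv) hp hvp)
  have hd2 : Prj (q - v * star v) :=
    prj_sub hPv' hq (prj_mul_of_le (proj_nonneg hPv') hq hvq)
  have hd10 : p - star v * v ≠ 0 := fun h0 => hne (sub_eq_zero.1 h0).symm
  have hd1p := rt_proj_pos hd1 hd10
  have hd20 : q - v * star v ≠ 0 := by
    intro h0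
    have h1 : rt (q - v * star v) = 0 := by rw [h0, rt_zero]
    rw [rt_sub, ← rt_comm (star v) v] at h1
    rw [rt_sub] at hd1p
    linarith
  obtain ⟨w, hw0, hw1, hw2, hw3, hw4⟩ := exists_piso hN hd1 hd2 hd10 hd20
  have hwp : 0 < rt (star w * w) := by
    refine rt_proj_pos hw1 fun h0 => hw0 ?_
    exact (CStarRing.star_mul_self_eq_zero_iff _).1 h0
  have hinc : ∀ n, r n + rt (star w * w) / 2 ≤ r (n + 1) := by
    intro n
    have h1 : PI (p - star (x n) * x n) (q - x n * star (x n)) w :=
      ⟨hw1, hw2.trans (sub_le_sub_left (hup1 n) _), hw4.trans (sub_le_sub_left (hup2 n) _)⟩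
    have h2 := hg2 (V n) w h1
    have h3 : r (n + 1) = r n + rt (star (g (V n)) * g (V n)) := by
      simp only [hr]
      rw [hx1, rt_add]
    rw [h3]
    linarith
  have hlow : ∀ n : ℕ, (n : ℝ) * (rt (star w * w) / 2) ≤ r n := by
    intro n
    induction n with
    | zero =>
      have : r 0 = 0 := by
        have e0 : x 0 = 0 := rfl
        simp only [hr, e0, mul_zero, rt_zero]
      rw [this]; simp
    | succ n ih =>
      have := hinc n
      push_cast
      linarith
  obtain ⟨n, hn⟩ := exists_nat_gt (rt p / (rt (star w * w) / 2))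
  rw [div_lt_iff₀ (by linarith)] at hn
  have := hlow n
  have := hrb n
  linarith

theorem comparison_eq (hN : IsFac N) {p q : N} (hp : Prj p) (hq : Prj q) (h : rt p = rt q) :
    ∃ v : N, star v * v = p ∧ v * star v = q := by
  obtain ⟨v, h1, h2, h3⟩ := comparison hN hp hq h.le
  refine ⟨v, h1, ?_⟩
  have h4 : 0 ≤ q - v * star v := sub_nonneg.2 h3
  have h5 : rt (q - v * star v) = 0 := by
    rw [rt_sub, ← rt_comm (star v) v, h1, h, sub_self]
  exact (sub_eq_zero.1 (eq_zero_of_rt h4 h5)).symm

end Pool.Agent.PTH
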