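import Pool.Agent.PTH.MxEnt
import Pool.Agent.PTH.TbC

/-!
# PTH / MxFac: matrix algebras over a factor; rows with given Gram matrix
-/

open Filter Topology

set_option linter.unusedSectionVars false

namespace Pool.Agent.PTH

namespace Mx

variable {A : Type*} [CStarAlgebra A] [PartialOrder A] [StarOrderedRing A]
  {ι : Type*} [Fintype ι] [DecidableEq ι] [Nonempty ι]

theorem isFac (hA : IsFac A) : IsFac (CStarMatrix ι ι A) := by
  intro Z hZ
  obtain ⟨i0⟩ := ‹Nonempty ι›
  have h1 : ∀ i j l k : ι, (if l = k then Z i j else 0) = (if j = i then Z l k else 0) := by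
    intro i j l k
    have h := congrArg (fun M : CStarMatrix ι ι A => M i k) (hZ (ent j l 1))
    simp only [mul_ent_apply, ent_mul_apply, mul_one, one_mul] at h
    exact h
  have hoff : ∀ i j, j ≠ i → Z i j = 0 := by
    intro i j hij
    have := h1 i j j j
    rwa [if_pos rfl, if_neg hij] at this
  have hdiag : ∀ j, Z j j = Z i0 i0 := by
    intro j
    have := h1 j j i0 i0
    rwa [if_pos rfl, if_pos rfl] at this
  have hc : ∀ x : A, Z i0 i0 * x = x * Z i0 i0 := by
    intro x
    have h := congrArg (fun M : CStarMatrix ι ι A => M i0 i0) (hZ (ent i0 i0 x))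
    simp only [mul_ent_apply, ent_mul_apply, if_true] at h
    exact h
  obtain ⟨c, hc⟩ := hA _ hc
  refine ⟨c, ?_⟩
  rw [← CStarMatrix.ext_iff]
  intro i j
  change Z i j = c • ((1 : CStarMatrix ι ι A) i j)
  rw [CStarMatrix.one_apply]
  by_cases h : i = j
  · subst h
    rw [if_pos rfl, hdiag, hc]
  · rw [if_neg h, smul_zero, hoff _ _ (Ne.symm h)]

theorem not_finiteDimensional (hA : ¬ FiniteDimensional ℂ A) :
    ¬ FiniteDimensional ℂ (CStarMatrix ι ι A) := by
  intro h
  obtain ⟨i0⟩ := ‹Nonempty ι›
  let f : CStarMatrix ι ι A →ₗ[ℂ] A :=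
    { toFun := fun M => M i0 i0
      map_add' := fun _ _ => rfl
      map_smul' := fun _ _ => rfl }
  refine hA (Module.Finite.of_surjective f fun a => ⟨ent i0 i0 a, ?_⟩)
  change ent i0 i0 a i0 i0 = a
  rw [ent_apply, if_pos ⟨rfl, rfl⟩]

theorem isII1 (hA : IsII1 A) : IsII1 (CStarMatrix ι ι A) :=
  ⟨isFac hA.1, not_finiteDimensional hA.2⟩

end Mx

variable {A : Type*} [CStarAlgebra A] [PartialOrder A] [StarOrderedRing A] [TracialVN A]

/-- `v v* ≤ q` gives `q v = v`. -/
theorem prj_mul_eq_of_le {q v : A} (hq : Prj q) (h : v * star v ≤ q) : q * v = v := by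
  have h1 : q * (v * star v) = v * star v := prj_mul_of_le' (mul_star_self_nonneg v) hq h
  have h2 : (q * v - v) * star (q * v - v) = 0 := by
    rw [star_sub, star_mul, hq.1]
    have e : (q * v - v) * (star v * q - star v) =
        q * (v * star v) * q - q * (v * star v) - (v * star v) * q + v * star v := by
      noncomm_ring
    rw [e, h1]
    abel
  exact sub_eq_zero.1 ((CStarRing.mul_star_self_eq_zero_iff _).1 h2)

/-- A projection in the matrices over `A` of small trace is the Gram matrix of a row under `q`. -/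
theorem mxRow {ι : Type*} [Fintype ι] [DecidableEq ι] (hA : IsFac A) (P : ι → ι → A)
    (hs : ∀ i j, star (P i j) = P j i) (hP : ∀ i j, ∑ k, P i k * P k j = P i j)
    (q : A) (hq : Prj q) (h : ∑ i, rt (P i i) ≤ rt q) :
    ∃ V : ι → A, (∀ i j, star (V i) * V j = P i j) ∧ ∀ i, q * V i = V i := by
  rcases isEmpty_or_nonempty ι with hι | hι
  · exact ⟨fun i => (hι.false i).elim, fun i => (hι.false i).elim, fun i => (hι.false i).elim⟩
  obtain ⟨i0⟩ := id hι
  let p : CStarMatrix ι ι A := CStarMatrix.ofMatrix P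
  have hpa : ∀ i j, p i j = P i j := fun _ _ => rfl
  let qh : CStarMatrix ι ι A := Mx.ent i0 i0 q
  have hqa : ∀ i j, qh i j = if i0 = i ∧ i0 = j then q else 0 :=
    fun i j => Mx.ent_apply _ _ _ _ _
  have hp : Prj p := by
    constructor
    · rw [← CStarMatrix.ext_iff]
      intro i j
      rw [Mx.star_apply', hpa, hpa, hs]
    · rw [← CStarMatrix.ext_iff]
      intro i j
      rw [CStarMatrix.mul_apply, hpa, ← hP i j]
      rfl
  have hqh : Prj qh := by
    constructor
    · rw [Mx.star_ent, hq.1]
    · rw [← CStarMatrix.ext_iff]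
      intro i j
      rw [Mx.mul_ent_apply, hqa, hqa]
      by_cases h1 : i0 = j
      · by_cases h2 : i0 = i
        · rw [if_pos h1, if_pos ⟨h2, rfl⟩, if_pos ⟨h2, h1⟩, hq.2]
        · rw [if_pos h1, if_neg fun h' => h2 h'.1, if_neg fun h' => h2 h'.1, zero_mul]
      · rw [if_neg h1, if_neg fun h' => h1 h'.2]
  have hle : rt p ≤ rt qh := by
    rw [Mx.rt_apply, Mx.rt_apply]
    refine mul_le_mul_of_nonneg_left ?_ (by positivity)
    have e : ∑ j, rt (qh j j) = rt q := by
      rw [Finset.sum_eq_single i0]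
      · rw [hqa, if_pos ⟨rfl, rfl⟩]
      · intro j _ hj
        rw [hqa, if_neg fun h' => hj h'.1.symm]
        unfold rt
        rw [map_zero, Complex.zero_re]
      · intro h'
        exact absurd (Finset.mem_univ i0) h'
    rw [e]
    exact h
  obtain ⟨v, hv, -, hv2⟩ := comparison (Mx.isFac hA) hp hqh hle
  have hqv : qh * v = v := prj_mul_eq_of_le hqh hv2
  have hent : ∀ i j, (if i0 = i then q * v i0 j else 0) = v i j := by
    intro i j
    have := congrArg (fun M : CStarMatrix ι ι A => M i j) hqv
    simp only [qh, Mx.ent_mul_apply] at this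
    exact this
  refine ⟨fun j => v i0 j, fun i j => ?_, fun j => ?_⟩
  · have h1 := congrArg (fun M : CStarMatrix ι ι A => M i j) hv
    simp only [CStarMatrix.mul_apply, Mx.star_apply'] at h1
    rw [Finset.sum_eq_single i0] at h1
    · exact h1
    · intro l _ hl
      have := hent l j
      rw [if_neg (Ne.symm hl)] at this
      rw [← this, mul_zero]
    · intro h'
      exact absurd (Finset.mem_univ i0) h'
  · have := hent i0 j
    rwa [if_pos rfl] at this

end Pool.Agent.PTH
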