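import Mathlib

/-!
# PTH / Num: the numerical inequality for Richert's weights

`log 3 ≥ 1.0986` (`log 3 = log 2 + log (3/2)` or exponential bounds) and the rational number
`(28/25) ∑_{i=29}^{94} (1 - i/95) (29/min (115-i) (197-2i)) (1/i + 1/(i+1))/2 = 0.25323...`, so the left side is
at most `0.2733 ≤ 0.27465`.  (A finite sum of 66 rationals: `Finset.sum_Icc_succ_top`, `norm_num`, or
`decide` over `ℚ`/`ℤ` after multiplying by a common denominator.)
-/

set_option autoImplicit false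

namespace Pool.Agent.PTH

open Finset

private lemma num_rat : (28 / 25 : ℚ) * ∑ i ∈ Icc (29 : ℕ) 94, (1 - (i : ℚ) / 95) *
    (29 / ((min (115 - i) (197 - 2 * i) : ℕ) : ℚ)) * ((1 / (i : ℚ) + 1 / ((i : ℚ) + 1)) / 2) +
      1 / 50 ≤ 1098 / 4000 := by
  decide +kernel

theorem num_ineq : (28 / 25 : ℝ) * ∑ i ∈ Icc (29 : ℕ) 94, (1 - (i : ℝ) / 95) *
    (29 / ((min (115 - i) (197 - 2 * i) : ℕ) : ℝ)) * ((1 / (i : ℝ) + 1 / ((i : ℝ) + 1)) / 2) +
      1 / 50 ≤ Real.log 3 / 4 := by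
  have h1 : (((28 / 25 : ℚ) * ∑ i ∈ Icc (29 : ℕ) 94, (1 - (i : ℚ) / 95) *
    (29 / ((min (115 - i) (197 - 2 * i) : ℕ) : ℚ)) * ((1 / (i : ℚ) + 1 / ((i : ℚ) + 1)) / 2) +
      1 / 50 : ℚ) : ℝ) ≤ ((1098 / 4000 : ℚ) : ℝ) := by
    exact_mod_cast num_rat
  push_cast at h1
  have h2 : (1098 / 1000 : ℝ) ≤ Real.log 3 := by
    have h3 := Real.log_two_gt_d9
    have h4 : (405 / 1000 : ℝ) ≤ Real.log (3 / 2) := by
      rw [Real.le_log_iff_exp_le (by norm_num)]
      have h5 := Real.exp_bound' (x := 405 / 1000) (by norm_num) (by norm_num) (n := 5) (by norm_num)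
      refine h5.trans ?_
      norm_num [Finset.sum_range_succ, Nat.factorial]
    have h5 : Real.log 3 = Real.log 2 + Real.log (3 / 2) := by
      rw [← Real.log_mul (by norm_num) (by norm_num)]
      norm_num
    linarith
  have h3 : (1098 / 4000 : ℝ) ≤ Real.log 3 / 4 := by linarith
  refine le_trans ?_ h3
  exact_mod_cast h1

end Pool.Agent.PTH
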