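import Pool.Agent.PTH.PaDefs

/-!
# PTH PaBf: elementary facts about positive biforms

Think of `κ(x, y) = ⟨ξ, x ξ y⟩`; the vector `∑ x_j ξ y_j` has norm squared
`∑_i ∑_j κ(x_i* x_j, y_j y_i*)` (this is `pos`).

PROOFS.
* `pos_one`: `pos` with `n = 1`.
* `k_star`: the form `S(s, t) = κ(s.1* t.1, t.2 s.2*)` extended to finite families is sesquilinear with
  real diagonal, hence hermitian.  Concretely: apply `pos` with `n = 2`, `x = (1, c x)`, `y = (1, y)`,
  for `c = 1` and `c = I`: the sum is `κ(1,1) + c κ(x, y) + conj c κ(x*, y*) + |c|^2 κ(x* x, y y*)`, and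
  its imaginary part is `0`; also the imaginary parts of `κ(1,1)` and `κ(x* x, y y*)` are `0` (`pos_one`).
  `c = 1`: `im κ(x,y) + im κ(x*,y*) = 0`; `c = I`: `re κ(x,y) - re κ(x*,y*) = 0`.
* `k_cs` (Cauchy-Schwarz `|⟨x*ξ, ξy⟩|² ≤ ‖x*ξ‖² ‖ξy‖²`): `pos` with `n = 2`,
  `x = (s star x, c)`, `y = (1, y)` (`s` real, `c` complex): the sum is
  `s² κ(x x*, 1) + s c κ(x, y) + s conj c κ(x*, y*) + |c|² κ(1, y y*) ≥ 0`; take `c` with
  `c κ(x, y) = - |κ(x,y)|` and `|c| = 1` (or `c` a real multiple of that) and use the discriminant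
  (`discrim_le_zero`) or choose `s` = `‖ξy‖`-type values; degenerate cases by letting `s` vary.
* `k_le`: from `k_cs` and `Dom` (for `x*` and `y*`; `two (star x) = two x`).
* `m_nonneg`: `pos_one` with `x = y = 1`.  `m_le_one`: `Dom` for `x = 1`.
* `E_eq`: `∑ p_i = 1`.  `E_add`, `E_scale`, ...: linearity.
* `E_nonneg`: `2 (κ(1,1) - Re κ(u,u*)) = pos (n = 2, x = (u, -1), y = (1, u))`, i.e. `‖uξ - ξu‖²`:
  the sum is `κ(u*u, 1) - κ(u*, u) - κ(u, u*) + κ(1, u u*)`; use `k_star`.
* `Q_nonneg`: `‖ξ - Tξ‖²`: `pos` for the family indexed by `Option ι` (or `Fin (card + 1)`) with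
  `x = (1, -p_i u_i)`, `y = (1, u_i*)`; reindex a finite type to `Fin n`.  (State `pos'` first: the
  positivity for any `Fintype` index set, by `Fintype.equivFin`.)
-/

open Filter Topology
open scoped InnerProductSpace ComplexOrder

universe u

namespace Pool.Agent.PTH

namespace Bf

variable {A : Type*} [CStarAlgebra A] (κ : Bf A)

/-- Positivity for an arbitrary finite index type. -/
theorem pos' {ι : Type*} [Fintype ι] (x y : ι → A) :
    0 ≤ ∑ i, ∑ j, κ.k (star (x i) * x j) (y j * star (y i)) := by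
  have e := (Fintype.equivFin ι).symm
  have h := κ.pos (Fintype.card ι) (fun i => x (e i)) (fun i => y (e i))
  rw [← e.sum_comp]
  refine h.trans_eq ?_
  refine Finset.sum_congr rfl fun i _ => ?_
  exact e.sum_comp (fun j => κ.k (star (x (e i)) * x j) (y j * star (y (e i))))

theorem pos_one (x y : A) : 0 ≤ κ.k (star x * x) (y * star y) := by
  have h := κ.pos 1 (fun _ => x) (fun _ => y)
  simpa using h

/-- positivity for two vectors -/
private theorem pos_two (x0 x1 y0 y1 : A) :
    0 ≤ κ.k (star x0 * x0) (y0 * star y0) + κ.k (star x0 * x1) (y1 * star y0) +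
      (κ.k (star x1 * x0) (y0 * star y1) + κ.k (star x1 * x1) (y1 * star y1)) := by
  have h := κ.pos 2 ![x0, x1] ![y0, y1]
  rw [Fin.sum_univ_two, Fin.sum_univ_two, Fin.sum_univ_two] at h
  exact h

private theorem im_one (x y : A) : (κ.k (star x * x) (y * star y)).im = 0 :=
  ((Complex.nonneg_iff.1 (κ.pos_one x y)).2).symm

private theorem re_one (x y : A) : 0 ≤ (κ.k (star x * x) (y * star y)).re :=
  (Complex.nonneg_iff.1 (κ.pos_one x y)).1

theorem k_star (x y : A) : κ.k (star x) (star y) = star (κ.k x y) := by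
  have h1 := (Complex.nonneg_iff.1 (κ.pos_two 1 x 1 y)).2
  have h2 := (Complex.nonneg_iff.1 (κ.pos_two 1 (Complex.I • x) 1 y)).2
  have e1 := κ.im_one 1 1
  have e2 := κ.im_one x y
  simp only [star_one, one_mul, mul_one] at h1 h2 e1
  simp only [star_smul, smul_mul_assoc, mul_smul_comm, map_smul, LinearMap.smul_apply, smul_smul,
    smul_eq_mul, Complex.star_def, Complex.conj_I, Complex.add_im, Complex.mul_im, Complex.mul_re,
    Complex.neg_re, Complex.neg_im, Complex.I_re, Complex.I_im] at h1 h2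
  apply Complex.ext
  · rw [Complex.star_def, Complex.conj_re]
    linarith
  · rw [Complex.star_def, Complex.conj_im]
    linarith

theorem k_cs (x y : A) :
    ‖κ.k x y‖ ^ 2 ≤ (κ.k (x * star x) 1).re * (κ.k 1 (y * star y)).re := by
  set z := κ.k x y with hz
  set P := (κ.k (x * star x) 1).re with hP
  set R := (κ.k 1 (y * star y)).re with hR
  have hP0 : 0 ≤ P := by
    have := κ.re_one (star x) 1
    simpa using this
  have hR0 : 0 ≤ R := by
    have := κ.re_one 1 y
    simpa using this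
  have key : ∀ s : ℝ, 0 ≤ P * (s * s) + (-2 * ‖z‖ ^ 2) * s + ‖z‖ ^ 2 * R := by
    intro s
    have h := (Complex.nonneg_iff.1 (κ.pos_two ((s : ℂ) • star x) ((-star z) • (1 : A)) 1 y)).1
    simp only [star_smul, star_star, star_one, one_mul, mul_one, smul_mul_assoc, mul_smul_comm,
      map_smul, LinearMap.smul_apply, smul_smul, smul_eq_mul, star_neg] at h
    rw [κ.k_star x y, ← hz] at h
    have e1 : (star (s : ℂ)) = (s : ℂ) := Complex.conj_ofReal s
    rw [e1] at h
    have e2 : z * star z = ((‖z‖ ^ 2 : ℝ) : ℂ) := by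
      rw [Complex.star_def, Complex.mul_conj, Complex.normSq_eq_norm_sq]
    have h3 : ((s : ℂ) * (s : ℂ) * κ.k (x * star x) 1 + (-star z * (s : ℂ)) * z +
        ((s : ℂ) * -z * star z + -star z * -z * κ.k 1 (y * star y))).re =
        P * (s * s) + (-2 * ‖z‖ ^ 2) * s + ‖z‖ ^ 2 * R := by
      have e3 : ((s : ℂ) * (s : ℂ) * κ.k (x * star x) 1 + (-star z * (s : ℂ)) * z +
          ((s : ℂ) * -z * star z + -star z * -z * κ.k 1 (y * star y))) =
          ((s * s : ℝ) : ℂ) * κ.k (x * star x) 1 + ((-2 * s : ℝ) : ℂ) * (z * star z) +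
            (z * star z) * κ.k 1 (y * star y) := by
        push_cast
        ring
      rw [e3, e2, Complex.add_re, Complex.add_re, Complex.re_ofReal_mul, Complex.re_ofReal_mul,
        Complex.re_ofReal_mul, Complex.ofReal_re, ← hP, ← hR]
      ring
    rw [h3] at h
    exact h
  have h1 := discrim_le_zero key
  unfold discrim at h1
  have h2 : ‖z‖ ^ 2 * (‖z‖ ^ 2 - P * R) ≤ 0 := by nlinarith
  rcases eq_or_lt_of_le (sq_nonneg ‖z‖) with h3 | h3
  · rw [← h3]
    positivity
  · by_contra h4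
    rw [not_le] at h4
    have := mul_pos h3 (sub_pos.2 h4)
    linarith

theorem m_nonneg : 0 ≤ κ.m := by
  have := κ.re_one 1 1
  unfold m
  simpa using this

private theorem unit_nonneg {u : A} (h1 : star u * u = 1) (h2 : u * star u = 1) :
    0 ≤ (κ.k 1 1).re - (κ.k u (star u)).re := by
  have h := (Complex.nonneg_iff.1 (κ.pos_two u (-1) 1 u)).1
  have h3 : κ.k (star u) u = star (κ.k u (star u)) := by
    rw [← k_star, star_star]
  simp only [star_neg, star_one, mul_one, one_mul, mul_neg, neg_mul, neg_neg, h1, h2, map_neg,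
    LinearMap.neg_apply, h3] at h
  simp only [Complex.add_re, Complex.neg_re, Complex.star_def, Complex.conj_re] at h
  linarith

theorem E_nonneg (a : Avg A) : 0 ≤ κ.E a :=
  Finset.sum_nonneg fun i _ => mul_nonneg (a.p_pos i).le
    (κ.unit_nonneg (a.u_star_mul i) (a.u_mul_star i))

theorem Q_nonneg (a : Avg A) : 0 ≤ κ.Q a := by
  have h := (Complex.nonneg_iff.1 (κ.pos' (ι := Option a.ι)
    (fun i => i.elim 1 fun j => (-(a.p j : ℂ)) • a.u j) (fun i => i.elim 1 fun j => star (a.u j)))).1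
  simp only [Fintype.sum_option, Option.elim_none, Option.elim_some, star_one, one_mul, mul_one,
    star_smul, star_neg, star_star, smul_mul_assoc, mul_smul_comm, map_smul, LinearMap.smul_apply,
    smul_eq_mul] at h
  have e0 : ∀ i : a.ι, star ((a.p i : ℂ)) = (a.p i : ℂ) := fun i => Complex.conj_ofReal _
  have e1 : ∀ i : a.ι, κ.k (star (a.u i)) (a.u i) = star (κ.k (a.u i) (star (a.u i))) := fun i => by
    rw [← k_star, star_star]
  simp only [e0, e1] at h
  have t1 : ∀ (p : ℝ) (z : ℂ), (-(p : ℂ) * z).re = -(p * z.re) := fun p z => by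
    rw [neg_mul, Complex.neg_re, Complex.re_ofReal_mul]
  have t2 : ∀ (p : ℝ) (z : ℂ), (-(p : ℂ) * star z).re = -(p * z.re) := fun p z => by
    rw [t1, Complex.star_def, Complex.conj_re]
  have t3 : ∀ (p q : ℝ) (z : ℂ), (-(q : ℂ) * (-(p : ℂ) * z)).re = p * q * z.re := fun p q z => by
    rw [t1, t1]
    ring
  simp only [Complex.add_re, Complex.re_sum, t3, t2, t1, Finset.sum_add_distrib,
    Finset.sum_neg_distrib] at h
  unfold Q
  linarith

private theorem add_k (κ κ' : Bf A) (x y : A) : (κ.add κ').k x y = κ.k x y + κ'.k x y := rfl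

private theorem scale_k (t : ℝ) (ht : 0 ≤ t) (x y : A) :
    (κ.scale t ht).k x y = (t : ℂ) * κ.k x y := rfl

private theorem zero_k (x y : A) : (Bf.zero : Bf A).k x y = 0 := rfl

theorem m_add (κ κ' : Bf A) : (κ.add κ').m = κ.m + κ'.m := by
  unfold m
  rw [add_k, Complex.add_re]

theorem E_add (κ κ' : Bf A) (a : Avg A) : (κ.add κ').E a = κ.E a + κ'.E a := by
  unfold E
  rw [← Finset.sum_add_distrib]
  refine Finset.sum_congr rfl fun i _ => ?_
  rw [add_k, add_k, Complex.add_re, Complex.add_re]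
  ring

theorem Q_add (κ κ' : Bf A) (a : Avg A) : (κ.add κ').Q a = κ.Q a + κ'.Q a := by
  unfold Q
  simp only [add_k, Complex.add_re, mul_add, Finset.sum_add_distrib]
  ring

theorem m_scale (t : ℝ) (ht : 0 ≤ t) : (κ.scale t ht).m = t * κ.m := by
  unfold m
  rw [scale_k, Complex.re_ofReal_mul]

theorem E_scale (t : ℝ) (ht : 0 ≤ t) (a : Avg A) : (κ.scale t ht).E a = t * κ.E a := by
  unfold E
  rw [Finset.mul_sum]
  refine Finset.sum_congr rfl fun i _ => ?_
  rw [scale_k, scale_k, Complex.re_ofReal_mul, Complex.re_ofReal_mul]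
  ring

theorem Q_scale (t : ℝ) (ht : 0 ≤ t) (a : Avg A) : (κ.scale t ht).Q a = t * κ.Q a := by
  unfold Q
  have h1 : ∀ i, a.p i * ((κ.scale t ht).k (a.u i) (star (a.u i))).re =
      t * (a.p i * (κ.k (a.u i) (star (a.u i))).re) := by
    intro i
    rw [scale_k, Complex.re_ofReal_mul]
    ring
  have h2 : ∀ i j, a.p i * a.p j * ((κ.scale t ht).k (star (a.u i) * a.u j) (star (a.u j) * a.u i)).re =
      t * (a.p i * a.p j * (κ.k (star (a.u i) * a.u j) (star (a.u j) * a.u i)).re) := by
    intro i j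
    rw [scale_k, Complex.re_ofReal_mul]
    ring
  simp only [h1, h2, ← Finset.mul_sum]
  rw [scale_k, Complex.re_ofReal_mul]
  ring

theorem zero_m : (Bf.zero : Bf A).m = 0 := by
  unfold m
  rw [zero_k, Complex.zero_re]

theorem zero_E (a : Avg A) : (Bf.zero : Bf A).E a = 0 := by
  unfold E
  simp only [zero_k, Complex.zero_re, sub_zero, mul_zero, Finset.sum_const_zero]

theorem zero_Q (a : Avg A) : (Bf.zero : Bf A).Q a = 0 := by
  unfold Q
  simp only [zero_k, Complex.zero_re, mul_zero, Finset.sum_const_zero, sub_zero, add_zero]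

variable [TrAlg A]

theorem zero_dom : (Bf.zero : Bf A).Dom := by
  intro x
  rw [zero_k, zero_k, Complex.zero_re]
  exact ⟨sq_nonneg _, sq_nonneg _⟩

variable {κ}

theorem k_le (h : κ.Dom) (x y : A) : ‖κ.k x y‖ ≤ two x * two y := by
  have h1 := κ.k_cs x y
  have h2 := (h (star x)).1
  have h3 := (h (star y)).2
  rw [star_star, two_star] at h2 h3
  have hR0 : 0 ≤ (κ.k 1 (y * star y)).re := by
    have := κ.re_one 1 y
    simpa using this
  have h4 : ‖κ.k x y‖ ^ 2 ≤ (two x * two y) ^ 2 := by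
    rw [mul_pow]
    exact h1.trans (mul_le_mul h2 h3 hR0 (sq_nonneg _))
  exact le_of_sq_le_sq h4 (mul_nonneg (two_nonneg x) (two_nonneg y))

theorem m_le_one (h : κ.Dom) : κ.m ≤ 1 := by
  have h1 := (h 1).1
  rw [star_one, one_mul, two_one, one_pow] at h1
  exact h1

end Bf

end Pool.Agent.PTH
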