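import Pool.Agent.PTH.PaGr
import Pool.Agent.PTH.PaBf

/-!
# PTH PaBad: bad biforms and their densities

`Bad a c lam`: the sums `D = x + y ≤ 1` of the left and right density of biforms `κ` with
`lam m(κ) ≤ c E(κ) - Q(κ)` (vectors violating the gap `c e(ξ) ≤ ‖Δξ‖² + lam ‖ξ‖²`).

PROOFS.
* `dens_dom`: densities `x, y ≤ 1` give `Dom`: `κ(z* z, 1) = τ(z* z x)`, `Re τ(z* z x) ≤ Re τ(z* z)`
  (`rt_mul_mono`), `= (two z)²`.  (`x ≤ x + y = D ≤ 1`, `y ≤ D`.)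
* `bad_mass`: `m(κ) = Re κ(1,1) = rt x = rt y`, so `rt D = 2 m(κ)`.
* `bad_zero` (`Bf.zero`), `bad_add` (`Bf.add`; `m`, `E`, `Q` additive; densities add; the new condition
  `D + D' ≤ 1` is given), `bad_pos`.
* `exists_wall`: `pa_greedy` for `S = Bad a c lam`.
-/

open Filter Topology
open scoped InnerProductSpace ComplexOrder

universe u

namespace Pool.Agent.PTH

/-- The total densities `x + y ≤ 1` of bad biforms. -/
def Bad {A : Type u} [CStarAlgebra A] [PartialOrder A] [TrAlg A] (a : Avg A) (c lam : ℝ) :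
    Set A :=
  {D | ∃ (κ : Bf A) (x y : A), 0 ≤ x ∧ 0 ≤ y ∧ (∀ z, κ.k z 1 = TrAlg.tau (z * x)) ∧
    (∀ z, κ.k 1 z = TrAlg.tau (z * y)) ∧ D = x + y ∧ D ≤ 1 ∧ lam * κ.m ≤ c * κ.E a - κ.Q a}

variable {A : Type u} [CStarAlgebra A] [PartialOrder A] [StarOrderedRing A] [TracialVN A]

theorem dens_dom (κ : Bf A) (x y : A) (hx1 : x ≤ 1) (hy1 : y ≤ 1)
    (hx : ∀ z, κ.k z 1 = TrAlg.tau (z * x)) (hy : ∀ z, κ.k 1 z = TrAlg.tau (z * y)) : κ.Dom := by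
  intro z
  have h0 : 0 ≤ star z * z := star_mul_self_nonneg z
  have h1 := rt_mul_mono h0 hx1
  have h2 := rt_mul_mono h0 hy1
  rw [mul_one, ← two_sq_rt] at h1 h2
  rw [hx, hy]
  exact ⟨h1, h2⟩

theorem bad_zero (a : Avg A) (c lam : ℝ) : (0 : A) ∈ Bad a c lam := by
  refine ⟨Bf.zero, 0, 0, le_rfl, le_rfl, fun z => ?_, fun z => ?_, (add_zero 0).symm,
    zero_le_one, ?_⟩
  · rw [mul_zero, map_zero]
    rfl
  · rw [mul_zero, map_zero]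
    rfl
  · rw [Bf.zero_m, Bf.zero_E, Bf.zero_Q, mul_zero, mul_zero, sub_zero]

theorem bad_pos (a : Avg A) (c lam : ℝ) : ∀ D ∈ Bad a c lam, 0 ≤ D ∧ D ≤ 1 := by
  rintro D ⟨κ, x, y, hx, hy, -, -, rfl, h1, -⟩
  exact ⟨add_nonneg hx hy, h1⟩

theorem bad_add (a : Avg A) (c lam : ℝ) :
    ∀ D ∈ Bad a c lam, ∀ D' ∈ Bad a c lam, D + D' ≤ 1 → D + D' ∈ Bad a c lam := by
  rintro D ⟨κ, x, y, hx, hy, hkx, hky, rfl, -, hm⟩ D' ⟨κ', x', y', hx', hy', hkx', hky', rfl, -, hm'⟩ h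
  refine ⟨κ.add κ', x + x', y + y', add_nonneg hx hx', add_nonneg hy hy', fun z => ?_,
    fun z => ?_, by abel, h, ?_⟩
  · have e : (κ.add κ').k z 1 = κ.k z 1 + κ'.k z 1 := rfl
    rw [e, hkx, hkx', mul_add, map_add]
  · have e : (κ.add κ').k 1 z = κ.k 1 z + κ'.k 1 z := rfl
    rw [e, hky, hky', mul_add, map_add]
  · rw [Bf.m_add, Bf.E_add, Bf.Q_add]
    linarith

/-- Every member of `Bad` comes from a biform with `Dom` and mass `rt D / 2`. -/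
theorem bad_bf (a : Avg A) (c lam : ℝ) {D : A} (hD : D ∈ Bad a c lam) :
    ∃ κ : Bf A, κ.Dom ∧ κ.m = rt D / 2 ∧ lam * κ.m ≤ c * κ.E a - κ.Q a := by
  obtain ⟨κ, x, y, hx, hy, hkx, hky, rfl, h1, hm⟩ := hD
  have hx1 : x ≤ 1 := (le_add_of_nonneg_right hy).trans h1
  have hy1 : y ≤ 1 := (le_add_of_nonneg_left hx).trans h1
  refine ⟨κ, dens_dom κ x y hx1 hy1 hkx hky, ?_, hm⟩
  have e1 : κ.m = rt x := by
    unfold Bf.m rt
    rw [hkx, one_mul]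
  have e2 : κ.m = rt y := by
    unfold Bf.m rt
    rw [hky, one_mul]
  rw [rt_add, ← e1, ← e2]
  ring

theorem exists_wall (a : Avg A) (c lam : ℝ) :
    ∃ D : A, 0 ≤ D ∧ D ≤ 1 ∧
      (∀ ε : ℝ, 0 < ε → ∃ D' ∈ Bad a c lam, D' ≤ D ∧ rt D ≤ rt D' + ε) ∧
      ∀ D' ∈ Bad a c lam, D + D' ≤ 1 → D' = 0 :=
  pa_greedy _ (bad_zero a c lam) (bad_pos a c lam) (bad_add a c lam)

end Pool.Agent.PTH
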