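import Pool.Agent.PTH.PaHa1

/-!
# PTH PaHa2: the Haagerup property in symmetric form

PROOF.  Given `F` finite and `ε > 0`, choose `k` such that `two (φ_k x - x)` is so small for all `x ∈ F`
that the last estimate below is `≤ ε`.  `φ = φ_k`, `ψ` its adjoint (`exists_adj`), `Θ = ψ ∘ φ`.
* `CP Θ`: composition: `∑ y_i* ψ(φ(x_i* x_j)) y_j ≥ 0`.  The matrix `(φ(x_i* x_j))` need not be of the form
  `z_i* z_j`, so argue as in `exists_adj`: `τ(c* w c) = ∑_ij τ(ψ(φ(x_i* x_j)) e_j e_i*)
  = ∑_ij τ(φ(x_i* x_j) φ(e_j e_i*))` (`e_j = y_j c`).  This is `≥ 0` because the pairing of two positive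
  matrices is: either use matrices (`P = (φ(x_i* x_j)) ≥ 0` in `CStarMatrix`, so `P = Z* Z` and
  `∑_ij τ(P_ij G_ji')...`), or this direct argument: `CP φ` says that for all `b_i`:
  `∑ b_i* φ(x_i* x_j) b_j ≥ 0`, i.e. `P` is positive in `CStarMatrix (Fin n) (Fin n) A`
  (an element `P` of the C*-algebra of matrices is `≥ 0` iff `∑ b_i* P_ij b_j ≥ 0` for all `b`: in one
  direction, if `P` is self-adjoint and `P⁻ ≠ 0` take `b` = the columns of `P⁻`), write `P = Z* Z`,
  `P_ij = ∑_k Z_ki* Z_kj`, so `w = ∑_ij y_i* ψ(P_ij) y_j = ∑_k ∑_ij y_i* ψ(Z_ki* Z_kj) y_j ≥ 0` by `CP ψ`.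
* `Symm Θ`: `τ(ψ(φ x) y) = τ(y ψ(φ x)) = τ(φ(y) φ(x))`, symmetric in `x, y` up to `tau_comm`.
* `Pos2 Θ`: `rt (x* ψ(φ x)) = rt (φ(x*) φ(x)) = (two (φ x))² ≥ 0`.
* `Θ 1 ≤ 1`: `φ 1 = 1`, `ψ 1 ≤ 1`.
* `Cpt Θ`: if `F'` is an `ε`-net of `φ(ball)`, then `ψ(F')` is an `ε`-net of `Θ(ball)` (`tp_two` for `ψ`).
* `two (Θ x - x) ≤ two (ψ(φ x - x)) + two (ψ x - x)`, and `(two (ψ x - x))² = (two (ψ x))² + (two x)² -
  2 rt (x* ψ x) ≤ 2 (two x)² - 2 rt (φ(x*) x) = 2 rt ((x - φ x)* x) ≤ 2 two (φ x - x) two x`.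
-/

open Filter Topology
open scoped InnerProductSpace ComplexOrder

universe u

namespace Pool.Agent.PTH

/-- The Haagerup property. -/
def Haag (A : Type u) [CStarAlgebra A] [PartialOrder A] [TrAlg A] : Prop :=
  ∃ φ : ℕ → A →ₗ[ℂ] A, (∀ k, CP (φ k)) ∧ (∀ k, φ k 1 ≤ 1) ∧
    (∀ k x, TrAlg.tau (φ k x) = TrAlg.tau x) ∧ (∀ k, Cpt (φ k)) ∧
    ∀ x, Tendsto (fun k => two (φ k x - x)) atTop (𝓝 0)

section mat

private theorem sa_cube {B : Type*} [CStarAlgebra B] {x : B} (hx : IsSelfAdjoint x)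
    (h : x * x * x = 0) : x = 0 := by
  have h1 : star (x * x) * (x * x) = 0 := by
    rw [star_mul, hx.star_eq]
    have : x * x * (x * x) = x * x * x * x := by noncomm_ring
    rw [this, h, zero_mul]
  have h2 := (CStarRing.star_mul_self_eq_zero_iff _).1 h1
  have h3 : star x * x = 0 := by rw [hx.star_eq, h2]
  exact (CStarRing.star_mul_self_eq_zero_iff _).1 h3

private theorem exists_neg {B : Type*} [CStarAlgebra B] [PartialOrder B] [StarOrderedRing B]
    {M : B} (hM : IsSelfAdjoint M) :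
    ∃ N : B, IsSelfAdjoint N ∧ N * M * N = -(N * N * N) ∧ (∃ Y : B, N * N * N = star Y * Y) ∧
      (N = 0 → ∃ Z : B, M = star Z * Z) := by
  refine ⟨M⁻, ?_, ?_, ?_, ?_⟩
  · exact (CFC.negPart_nonneg M).isSelfAdjoint
  · nth_rewrite 2 [← CFC.posPart_sub_negPart M hM]
    rw [mul_sub, CFC.negPart_mul_posPart, zero_sub, neg_mul]
  · apply CStarAlgebra.nonneg_iff_eq_star_mul_self.1
    have h := star_left_conjugate_nonneg (CFC.negPart_nonneg M) M⁻
    rwa [(CFC.negPart_nonneg M).isSelfAdjoint.star_eq] at h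
  · intro h
    apply CStarAlgebra.nonneg_iff_eq_star_mul_self.1
    have h1 := CFC.posPart_sub_negPart M hM
    rw [h, sub_zero] at h1
    rw [← h1]
    exact CFC.posPart_nonneg M

variable {A : Type u} [CStarAlgebra A] [PartialOrder A] [StarOrderedRing A]

private theorem sum_star_mul_eq_zero {n : ℕ} (z : Fin n → A) (h : ∑ l, star (z l) * z l = 0)
    (l : Fin n) : z l = 0 := by
  have h1 := (Finset.sum_eq_zero_iff_of_nonneg fun i _ => star_mul_self_nonneg (z i)).1 h l
    (Finset.mem_univ l)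
  exact (CStarRing.star_mul_self_eq_zero_iff _).1 h1

private theorem form_zero {n : ℕ} (Q : Fin n → Fin n → A)
    (h : ∀ b : Fin n → A, ∑ i, ∑ j, star (b i) * Q i j * b j = 0) (i j : Fin n) : Q i j = 0 := by
  classical
  have hadd : ∀ b c : Fin n → A, ∑ i, ∑ j, star ((b + c) i) * Q i j * (b + c) j =
      ((∑ i, ∑ j, star (b i) * Q i j * b j) + ∑ i, ∑ j, star (b i) * Q i j * c j) +
      ((∑ i, ∑ j, star (c i) * Q i j * b j) + ∑ i, ∑ j, star (c i) * Q i j * c j) := by
    intro b c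
    rw [← Finset.sum_add_distrib, ← Finset.sum_add_distrib, ← Finset.sum_add_distrib]
    refine Finset.sum_congr rfl fun i _ => ?_
    rw [← Finset.sum_add_distrib, ← Finset.sum_add_distrib, ← Finset.sum_add_distrib]
    refine Finset.sum_congr rfl fun j _ => ?_
    rw [Pi.add_apply, Pi.add_apply, star_add]
    noncomm_ring
  have h1 : ∀ b c : Fin n → A, (∑ i, ∑ j, star (b i) * Q i j * c j) +
      ∑ i, ∑ j, star (c i) * Q i j * b j = 0 := by
    intro b c
    have h2 := hadd b c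
    rw [h, h b, h c, zero_add, add_zero] at h2
    exact h2.symm
  have h3 : ∀ b c : Fin n → A, ∑ i, ∑ j, star (b i) * Q i j * c j = 0 := by
    intro b c
    have h4 := h1 b (Complex.I • c)
    have e1 : ∑ i, ∑ j, star (b i) * Q i j * (Complex.I • c) j =
        Complex.I • ∑ i, ∑ j, star (b i) * Q i j * c j := by
      rw [Finset.smul_sum]
      refine Finset.sum_congr rfl fun i _ => ?_
      rw [Finset.smul_sum]
      refine Finset.sum_congr rfl fun j _ => ?_
      rw [Pi.smul_apply, mul_smul_comm]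
    have e2 : ∑ i, ∑ j, star ((Complex.I • c) i) * Q i j * b j =
        -(Complex.I • ∑ i, ∑ j, star (c i) * Q i j * b j) := by
      rw [Finset.smul_sum, ← Finset.sum_neg_distrib]
      refine Finset.sum_congr rfl fun i _ => ?_
      rw [Finset.smul_sum, ← Finset.sum_neg_distrib]
      refine Finset.sum_congr rfl fun j _ => ?_
      rw [Pi.smul_apply, star_smul, smul_mul_assoc, smul_mul_assoc]
      have : star Complex.I = -Complex.I := Complex.conj_I
      rw [this, neg_smul]
    rw [e1, e2, ← sub_eq_add_neg, ← smul_sub] at h4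
    have h5 := (smul_eq_zero.1 h4).resolve_left Complex.I_ne_zero
    have h6 := h1 b c
    have h7 : (2 : ℂ) • ∑ i, ∑ j, star (b i) * Q i j * c j = 0 := by
      rw [two_smul]
      nth_rewrite 2 [sub_eq_zero.1 h5]
      exact h6
    exact (smul_eq_zero.1 h7).resolve_left two_ne_zero
  have h8 := h3 (Pi.single i 1) (Pi.single j 1)
  rw [Finset.sum_eq_single i, Finset.sum_eq_single j] at h8
  · simpa using h8
  · intro k _ hk
    simp [hk]
  · intro hj
    exact absurd (Finset.mem_univ _) hj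
  · intro k _ hk
    refine Finset.sum_eq_zero fun l _ => ?_
    simp [hk]
  · intro hj
    exact absurd (Finset.mem_univ _) hj

/-- A matrix with positive values of its form is of the form `Z* Z`. -/
private theorem exists_fac {n : ℕ} (P : Fin n → Fin n → A)
    (h : ∀ b : Fin n → A, 0 ≤ ∑ i, ∑ j, star (b i) * P i j * b j) :
    ∃ Z : Fin n → Fin n → A, ∀ i j, P i j = ∑ k, star (Z k i) * Z k j := by
  classical
  -- self-adjointness
  have hs : ∀ i j, star (P j i) = P i j := by
    intro i0 j0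
    rw [← sub_eq_zero]
    refine form_zero (fun i j => star (P j i) - P i j) (fun b => ?_) i0 j0
    have e1 : star (∑ i, ∑ j, star (b i) * P i j * b j) = ∑ i, ∑ j, star (b i) * P i j * b j :=
      (h b).isSelfAdjoint.star_eq
    have e2 : star (∑ i, ∑ j, star (b i) * P i j * b j) =
        ∑ i, ∑ j, star (b i) * star (P j i) * b j := by
      rw [star_sum, Finset.sum_comm]
      refine Finset.sum_congr rfl fun i _ => ?_
      rw [star_sum]
      refine Finset.sum_congr rfl fun j _ => ?_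
      rw [star_mul, star_mul, star_star, mul_assoc]
    simp only [mul_sub, sub_mul, Finset.sum_sub_distrib]
    rw [← e2, e1, sub_self]
  let M : CStarMatrix (Fin n) (Fin n) A := CStarMatrix.ofMatrix (Matrix.of P)
  have hM : IsSelfAdjoint M := by
    refine CStarMatrix.ext fun i j => ?_
    rw [CStarMatrix.star_apply]
    exact hs i j
  obtain ⟨N, hN, h1, ⟨Y, hY⟩, h2⟩ := exists_neg hM
  have hN' : ∀ i j, star (N i j) = N j i := fun i j => by
    have := congrFun (congrFun (hN : star N = N) j) i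
    rwa [CStarMatrix.star_apply] at this
  have hd : ∀ k, (N * M * N) k k = ∑ i, ∑ j, star (N i k) * P i j * N j k := by
    intro k
    rw [CStarMatrix.mul_apply, Finset.sum_comm]
    refine Finset.sum_congr rfl fun j _ => ?_
    rw [CStarMatrix.mul_apply, Finset.sum_mul]
    refine Finset.sum_congr rfl fun i _ => ?_
    rw [hN' i k]
    rfl
  have hYz : Y = 0 := by
    refine CStarMatrix.ext fun l k => ?_
    have h3 : 0 ≤ (N * M * N) k k := by
      rw [hd k]
      exact h fun j => N j k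
    have h4 : (N * M * N) k k = -∑ l, star (Y l k) * Y l k := by
      rw [h1, hY, CStarMatrix.neg_apply, CStarMatrix.mul_apply]
      rfl
    have h5 : 0 ≤ ∑ l, star (Y l k) * Y l k :=
      Finset.sum_nonneg fun l _ => star_mul_self_nonneg _
    rw [h4] at h3
    have h6 : ∑ l, star (Y l k) * Y l k = 0 := le_antisymm (neg_nonneg.1 h3) h5
    exact sum_star_mul_eq_zero (fun l => Y l k) h6 l
  have hNz : N = 0 := sa_cube hN (by rw [hY, hYz, mul_zero])
  obtain ⟨Z, hZ⟩ := h2 hNz
  refine ⟨fun k i => Z k i, fun i j => ?_⟩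
  have h7 := congrFun (congrFun hZ i) j
  rw [CStarMatrix.mul_apply] at h7
  exact h7

end mat

variable {A : Type u} [CStarAlgebra A] [PartialOrder A] [StarOrderedRing A] [TracialVN A]

theorem cp_comp {φ ψ : A →ₗ[ℂ] A} (hφ : CP φ) (hψ : CP ψ) : CP (ψ ∘ₗ φ) := by
  intro n x y
  obtain ⟨Z, hZ⟩ := exists_fac (fun i j => φ (star (x i) * x j)) (fun b => hφ n x b)
  have e : ∑ i, ∑ j, star (y i) * (ψ ∘ₗ φ) (star (x i) * x j) * y j =
      ∑ k, ∑ i, ∑ j, star (y i) * ψ (star (Z k i) * Z k j) * y j := by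
    have e1 : ∀ i j, star (y i) * (ψ ∘ₗ φ) (star (x i) * x j) * y j =
        ∑ k, star (y i) * ψ (star (Z k i) * Z k j) * y j := by
      intro i j
      rw [LinearMap.comp_apply, hZ i j, map_sum, Finset.mul_sum, Finset.sum_mul]
    simp only [e1]
    have e2 : ∀ i : Fin n, ∑ j, ∑ k, star (y i) * ψ (star (Z k i) * Z k j) * y j =
        ∑ k, ∑ j, star (y i) * ψ (star (Z k i) * Z k j) * y j := fun i => Finset.sum_comm
    simp only [e2]
    exact Finset.sum_comm
  rw [e]
  exact Finset.sum_nonneg fun k _ => hψ n (Z k) y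

theorem sHaag_of_haag (h : Haag A) : SHaag A := by
  classical
  obtain ⟨φ, hcp, h1, ht, hc, hl⟩ := h
  intro F ε hε
  -- choice of `k`
  have hk : ∀ x ∈ F, ∀ᶠ k in atTop,
      two (φ k x - x) + Real.sqrt (2 * two (φ k x - x) * two x) < ε := by
    intro x _
    have l1 := hl x
    have l2 : Tendsto (fun k => two (φ k x - x) + Real.sqrt (2 * two (φ k x - x) * two x)) atTop
        (𝓝 (0 + Real.sqrt (2 * 0 * two x))) :=
      l1.add ((Real.continuous_sqrt.tendsto _).comp ((l1.const_mul 2).mul_const (two x)))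
    rw [mul_zero, zero_mul, Real.sqrt_zero, add_zero] at l2
    exact l2.eventually_lt_const hε
  obtain ⟨k, hk⟩ := ((Filter.eventually_all_finset F).2 hk).exists
  obtain ⟨ψ, pcp, p1, pt, pa⟩ := exists_adj (hcp k) (h1 k) (ht k)
  have hsym : ∀ x y : A, TrAlg.tau (ψ (φ k x) * y) = TrAlg.tau (φ k y * φ k x) := by
    intro x y
    rw [TrAlg.tau_comm, ← pa]
  refine ⟨ψ ∘ₗ φ k, cp_comp (hcp k) pcp, ?_, ?_, ?_, ?_, ?_⟩
  · intro x y
    rw [LinearMap.comp_apply, LinearMap.comp_apply, hsym, ← pa, TrAlg.tau_comm]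
  · intro x
    rw [LinearMap.comp_apply, rt, ← pa, cp_star (hcp k)]
    exact TrAlg.tau_pos _
  · rw [LinearMap.comp_apply, tp_one (h1 k) (ht k)]
    exact p1
  · intro δ hδ
    obtain ⟨F', hF'⟩ := hc k δ hδ
    refine ⟨F'.image ψ, fun x hx => ?_⟩
    obtain ⟨y, hy, hxy⟩ := hF' x hx
    refine ⟨ψ y, Finset.mem_image_of_mem _ hy, ?_⟩
    rw [LinearMap.comp_apply, ← map_sub]
    exact (tp_two pcp p1 pt _).trans hxy
  · intro x hx
    rw [LinearMap.comp_apply]
    have g1 : two (ψ (φ k x) - x) ≤ two (ψ (φ k x) - ψ x) + two (ψ x - x) :=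
      two_sub_le_sub _ _ _
    have g2 : two (ψ (φ k x) - ψ x) ≤ two (φ k x - x) := by
      rw [← map_sub]
      exact tp_two pcp p1 pt _
    have g3 : two (ψ x - x) ^ 2 ≤ 2 * two (φ k x - x) * two x := by
      rw [two_sub_sq]
      have f1 : two (ψ x) ^ 2 ≤ two x ^ 2 :=
        pow_le_pow_left₀ (two_nonneg _) (tp_two pcp p1 pt x) 2
      have f2 : rt (star (ψ x) * x) = rt (star (φ k x) * x) := by
        rw [← rt_star, star_mul, star_star, rt, ← pa, cp_star (hcp k)]
        rfl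
      have f3 : two x ^ 2 - rt (star (φ k x) * x) = rt (star (x - φ k x) * x) := by
        rw [two_sq_rt, star_sub, sub_mul, rt_sub]
      have f4 : rt (star (x - φ k x) * x) ≤ two (φ k x - x) * two x := by
        rw [two_sub_comm]
        exact (le_abs_self _).trans (abs_rt_star_mul_le _ _)
      rw [f2]
      nlinarith
    have g4 : two (ψ x - x) ≤ Real.sqrt (2 * two (φ k x - x) * two x) :=
      Real.le_sqrt_of_sq_le g3
    have g5 := hk x hx
    linarith

end Pool.Agent.PTH
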