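import Pool.Agent.TFH.Defs
import Pool.Agent.PTH.PaHa2

/-!
# PTH PaBr: bridge from the definitions of the hand-in (TFH.Defs) to the working language (PTH)
-/

open Filter Topology
open scoped InnerProductSpace ComplexOrder

universe u

namespace Pool.Agent.PTH

namespace Br

/-- The trace of `TFH.TracialVN` as a `PTH.TrAlg`. -/
@[reducible] noncomputable def trAlg (A : Type*) [CStarAlgebra A] [TFH.TracialVN A] : TrAlg A where
  tau := TFH.tau
  tau_one := TFH.tau_one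
  tau_star := TFH.tau_star
  tau_comm := TFH.tau_comm
  tau_pos := TFH.tau_pos
  tau_faithful := TFH.TracialVN.tau_faithful
  tau_mul_le x y := by
    have h := TFH.two_mul_le x y
    have h1 : TFH.two (x * y) ^ 2 ≤ (‖x‖ * TFH.two y) ^ 2 :=
      pow_le_pow_left₀ (TFH.two_nonneg _) h 2
    rwa [mul_pow, TFH.two_sq, TFH.two_sq] at h1

theorem two_eq {A : Type*} [CStarAlgebra A] [TFH.TracialVN A] (x : A) :
    @two A _ (trAlg A) x = TFH.two x := rfl

/-- `TFH.TracialVN` as a `PTH.TracialVN`. -/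
@[reducible] noncomputable def tracialVN (A : Type*) [CStarAlgebra A] [TFH.TracialVN A] :
    TracialVN A where
  toTrAlg := trAlg A
  ball_complete := by
    intro x hx hc
    obtain ⟨y, hy, hlim⟩ := TFH.TracialVN.complete x hx (by
      intro ε hε
      obtain ⟨k, hk⟩ := hc (Real.sqrt (ε / 2)) (Real.sqrt_pos.2 (by positivity))
      refine ⟨k, fun m n hm hn => ?_⟩
      have h := hk m hm n hn
      have h2 : TFH.two (x m - x n) ^ 2 ≤ Real.sqrt (ε / 2) ^ 2 :=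
        pow_le_pow_left₀ (TFH.two_nonneg _) h 2
      rw [Real.sq_sqrt (by positivity), TFH.two_sq] at h2
      exact lt_of_le_of_lt h2 (by linarith))
    refine ⟨y, hy, ?_⟩
    have h3 : Tendsto (fun n => Real.sqrt (TFH.tau (star (x n - y) * (x n - y))).re) atTop
        (𝓝 (Real.sqrt 0)) := (Real.continuous_sqrt.tendsto 0).comp hlim
    rw [Real.sqrt_zero] at h3
    exact h3

/-- A bundled `Bim` from a `TFH.Bimodule`, and back. -/
theorem bimodule_of_bim {M : Type u} [CStarAlgebra M] [TFH.TracialVN M] (B : Bim.{u} M)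
    (hB : @Bim.Normal M _ (trAlg M) B) :
    ∃ B' : TFH.Bimodule M B.H, (∀ x ξ, B'.l x ξ = B.l x ξ) ∧
      ∀ x ξ, B'.r (MulOpposite.op x) ξ = B.r x ξ := by
  refine ⟨{ l := B.L, r := B.R, comm := fun x y ξ => ?_, l_normal := ?_, r_normal := ?_ },
    fun _ _ => rfl, fun _ _ => rfl⟩
  · have h := B.comm x y
    exact congrArg (fun f : B.H →L[ℂ] B.H => f ξ) h
  · intro ξ ε hε
    obtain ⟨δ, hδ, h⟩ := hB ξ ε hε
    exact ⟨δ, hδ, fun x h1 h2 => (h x h1 h2).1⟩
  · intro ξ ε hε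
    obtain ⟨δ, hδ, h⟩ := hB ξ ε hε
    exact ⟨δ, hδ, fun x h1 h2 => (h x h1 h2).2⟩

theorem propT {M : Type u} [CStarAlgebra M] [TFH.TracialVN M] (hT : TFH.PropertyT M) :
    @PropT M _ (trAlg M) := by
  intro ε hε
  obtain ⟨F, δ, hδ, h⟩ := hT ε hε
  refine ⟨F, δ, hδ, fun B hB ξ hξ hF => ?_⟩
  obtain ⟨B', hl, hr⟩ := bimodule_of_bim B hB
  obtain ⟨η, h1, h2⟩ := h B.H B' ξ hξ (fun x hx => by rw [hl, hr]; exact hF x hx)
  exact ⟨η, fun x => by rw [← hl, ← hr]; exact h1 x, h2⟩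

theorem isII1 {A : Type*} [CStarAlgebra A] [TFH.TracialVN A] (h : TFH.IsFactorII1 A) :
    IsII1 A := by
  refine ⟨fun z hz => ?_, h.1⟩
  obtain ⟨c, hc⟩ := h.2 z hz
  exact ⟨c, by rw [hc, Algebra.algebraMap_eq_smul_one]⟩

theorem haag {A : Type u} [CStarAlgebra A] [TFH.TracialVN A] [PartialOrder A] [StarOrderedRing A]
    (h : TFH.Haagerup A) : @Haag A _ _ (trAlg A) := by
  obtain ⟨φ, hcp, -, htr, h1, hc, hlim⟩ := h
  refine ⟨φ, fun k n x y => ?_, fun k => ?_, htr, fun k => ?_, hlim⟩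
  · obtain ⟨z, hz⟩ := hcp k n x y
    rw [hz]
    exact star_mul_self_nonneg z
  · obtain ⟨z, hz⟩ := h1 k
    rw [← sub_nonneg, hz]
    exact star_mul_self_nonneg z
  · intro ε hε
    exact hc k ε hε

/-- The lifts of a trace preserving *-homomorphism to the ultrapower. -/
theorem exists_emb {M N : Type u} [CStarAlgebra M] [TFH.TracialVN M] [CStarAlgebra N]
    [TFH.TracialVN N] (ω : Ultrafilter ℕ) (θ : M →⋆ₐ[ℂ] TFH.UP (fun _ : ℕ => N) ω)
    (hθ : ∀ x, TFH.UP.tr (fun _ : ℕ => N) ω (θ x) = TFH.tau x) :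
    ∃ e : @Emb M N _ (trAlg M) _ (trAlg N) ω, ∀ (x : M) (y : ℕ → N),
      @Emb.Lifts M N _ (trAlg M) _ (trAlg N) ω e x y →
      ∃ b : TFH.BSeq (fun _ : ℕ => N), (b : ℕ → N) = y ∧
        TFH.UP.mk (fun _ : ℕ => N) ω b = θ x := by
  choose s hs using fun x : M => TFH.UP.mk_surjective (fun _ : ℕ => N) ω (θ x)
  have key : ∀ (x : M) (b : TFH.BSeq (fun _ : ℕ => N)) (y : ℕ → N), (b : ℕ → N) = y →
      TFH.UP.mk (fun _ : ℕ => N) ω b = θ x →
      Tendsto (fun n => TFH.two ((s x : ℕ → N) n - y n)) ω (𝓝 0) := by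
    intro x b y hy hb
    subst hy
    exact (TFH.UP.mk_eq_iff (fun _ : ℕ => N) ω).1 ((hs x).trans hb.symm)
  have e1 : ∀ x y : M, Tendsto (fun n => TFH.two ((s (x + y) : ℕ → N) n -
      ((s x : ℕ → N) n + (s y : ℕ → N) n))) ω (𝓝 0) := by
    intro x y
    have h : TFH.UP.mk (fun _ : ℕ => N) ω (s x + s y) = θ (x + y) := by
      rw [map_add, hs, hs, map_add]
    exact key (x + y) (s x + s y) (fun n => (s x : ℕ → N) n + (s y : ℕ → N) n) rfl h
  have e2 : ∀ (c : ℂ) (x : M), Tendsto (fun n => TFH.two ((s (c • x) : ℕ → N) n -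
      c • (s x : ℕ → N) n)) ω (𝓝 0) := by
    intro c x
    have h : TFH.UP.mk (fun _ : ℕ => N) ω (c • s x) = θ (c • x) := by
      rw [map_smul, hs, map_smul]
    exact key (c • x) (c • s x) (fun n => c • (s x : ℕ → N) n) rfl h
  have e3 : ∀ x y : M, Tendsto (fun n => TFH.two ((s (x * y) : ℕ → N) n -
      (s x : ℕ → N) n * (s y : ℕ → N) n)) ω (𝓝 0) := by
    intro x y
    have h : TFH.UP.mk (fun _ : ℕ => N) ω (s x * s y) = θ (x * y) := by
      rw [map_mul, hs, hs, map_mul]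
    exact key (x * y) (s x * s y) (fun n => (s x : ℕ → N) n * (s y : ℕ → N) n) rfl h
  have e4 : ∀ x : M, Tendsto (fun n => TFH.two ((s (star x) : ℕ → N) n -
      star ((s x : ℕ → N) n))) ω (𝓝 0) := by
    intro x
    have h : TFH.UP.mk (fun _ : ℕ => N) ω (star (s x)) = θ (star x) := by
      rw [← TFH.UP.star_mk, hs, map_star]
    exact key (star x) (star (s x)) (fun n => star ((s x : ℕ → N) n)) rfl h
  have e5 : Tendsto (fun n => TFH.two ((s 1 : ℕ → N) n - 1)) ω (𝓝 0) := by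
    have h : TFH.UP.mk (fun _ : ℕ => N) ω 1 = θ 1 := by rw [map_one, map_one]
    exact key 1 1 (fun _ => 1) rfl h
  have e6 : ∀ x : M, Tendsto (fun n => TFH.tau ((s x : ℕ → N) n)) ω (𝓝 (TFH.tau x)) := by
    intro x
    have h := TFH.UP.tendsto_tr (fun _ : ℕ => N) ω (s x)
    rw [hs, hθ] at h
    exact h
  let _ : TrAlg M := trAlg M
  let _ : TrAlg N := trAlg N
  refine ⟨⟨fun x => (s x : ℕ → N), fun x => (s x).2, e1, e2, e3, e4, e5, e6⟩, ?_⟩
  rintro x y ⟨⟨C, hC⟩, hy⟩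
  refine ⟨⟨y, C, hC⟩, rfl, ?_⟩
  rw [← hs x]
  exact ((TFH.UP.mk_eq_iff (fun _ : ℕ => N) ω (x := s x) (y := ⟨y, C, hC⟩)).2 hy).symm

end Br

end Pool.Agent.PTH
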