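import Pool.Agent.PTH.PaVec

/-!
# PTH PaCen: decomposition along the central vectors

PROOF.  `K = {η | B.Central η}` is a closed subspace of the Hilbert space `B.H` (intersection over `x` of
the kernels of the continuous linear maps `B.l x - B.r x`).  By the projection theorem
(`Submodule.exists_norm_eq_iInf_of_complete_subspace` or `K.orthogonalProjection` /
`Submodule.starProjection` for `HasOrthogonalProjection`, complete because closed)
`ξ = η + ζ`, `η ∈ K`, `ζ ∈ Kᗮ`.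
`gap_of`: suppose every unit vector `ζ` orthogonal to all central vectors has `en ζ ≥ c` (`c ≤ 1`).
`ξ = η + ζ`; `T η = η` (`u η u* = η u u* = η` for central `η`), so with `Δ = 1 - T`: `Δξ = Δζ` and
`en ξ = ⟪Δξ, ξ⟫ = ⟪Δζ, ζ⟫ + ⟪Δζ, η⟫ = en ζ` as `⟪Δζ, η⟫ = ⟪ζ, Δη⟫ = 0`.  By scaling `en ζ ≥ c ‖ζ‖²`.
`en ζ = Re ⟪Δζ, ζ⟫ ≤ ‖Δζ‖ ‖ζ‖`, so `(en ζ)² ≤ ‖Δζ‖² ‖ζ‖² ≤ ‖Δζ‖² en ζ / c`, hence `c en ζ ≤ ‖Δζ‖²`.
If `en ξ = 0` then `‖ζ‖² ≤ en ζ / c = 0`, so `ξ = η` is central.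
-/

open Filter Topology
open scoped InnerProductSpace ComplexOrder

universe u

namespace Pool.Agent.PTH

theorem Bim.exists_central_decomp {A : Type u} [CStarAlgebra A] [TrAlg A] (B : Bim.{u} A)
    (ξ : B.H) :
    ∃ η ζ : B.H, ξ = η + ζ ∧ B.Central η ∧ ∀ η' : B.H, B.Central η' → ⟪η', ζ⟫_ℂ = 0 := by
  let K : Submodule ℂ B.H :=
    { carrier := {η | B.Central η}
      add_mem' := by
        intro x y hx hy z
        have h1 : B.l z x = B.r z x := hx z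
        have h2 : B.l z y = B.r z y := hy z
        rw [map_add, map_add, h1, h2]
      zero_mem' := by
        intro z
        rw [map_zero, map_zero]
      smul_mem' := by
        intro c x hx z
        have h1 : B.l z x = B.r z x := hx z
        rw [(B.l z).map_smul, (B.r z).map_smul, h1] }
  have hcl : IsClosed (K : Set B.H) := by
    have e : (K : Set B.H) = ⋂ x : A, {η | B.l x η = B.r x η} := by
      ext η
      simp only [Set.mem_iInter]
      rfl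
    rw [e]
    exact isClosed_iInter fun x => isClosed_eq (B.l x).continuous (B.r x).continuous
  haveI : CompleteSpace K := hcl.completeSpace_coe
  obtain ⟨η, hη, ζ, hζ, e⟩ := K.exists_add_mem_mem_orthogonal ξ
  exact ⟨η, ζ, e, hη, fun η' h => (Submodule.mem_orthogonal K ζ).1 hζ η' h⟩

theorem Bim.pacen_T {A : Type u} [CStarAlgebra A] (B : Bim.{u} A) (a : Avg A)
    {η : B.H} (h : ∀ x : A, B.l x η = B.r x η) : B.T a η = η := by
  rw [T_apply]
  have e : ∀ i, (a.p i : ℂ) • B.l (a.u i) (B.r (star (a.u i)) η) = (a.p i : ℂ) • η := by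
    intro i
    rw [← h (star (a.u i)), ← l_mul, a.u_mul_star, l_one]
  rw [Finset.sum_congr rfl (fun i _ => e i), ← Finset.sum_smul, ← Complex.ofReal_sum, a.p_sum,
    Complex.ofReal_one, one_smul]

theorem Bim.gap_of {A : Type u} [CStarAlgebra A] [TrAlg A] (B : Bim.{u} A) (a : Avg A) (c : ℝ)
    (hc : 0 < c)
    (h : ∀ ζ : B.H, ‖ζ‖ = 1 → (∀ η : B.H, B.Central η → ⟪η, ζ⟫_ℂ = 0) → c ≤ B.en a ζ) (ξ : B.H) :
    c * B.en a ξ ≤ ‖ξ - B.T a ξ‖ ^ 2 ∧ (B.en a ξ = 0 → B.Central ξ) := by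
  obtain ⟨η, ζ, e, hη, hζ⟩ := B.exists_central_decomp ξ
  have hT : B.T a η = η := B.pacen_T a hη
  have hsub : ξ - B.T a ξ = ζ - B.T a ζ := by
    rw [e, map_add, hT]
    abel
  have h0 : ⟪η, ζ⟫_ℂ = 0 := hζ η hη
  have h1 : ⟪η, ζ - B.T a ζ⟫_ℂ = 0 := by
    rw [inner_sub_right, ← B.T_symm, hT, h0, sub_zero]
  have hen : B.en a ξ = B.en a ζ := by
    rw [en_eq, hsub, e, inner_add_left, h1, zero_add, ← en_eq]
  have hnn := B.en_nonneg a ζ
  have hsc : c * ‖ζ‖ ^ 2 ≤ B.en a ζ := by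
    rcases eq_or_ne ζ 0 with hz | hz
    · rw [hz, norm_zero]
      have := B.en_nonneg a (0 : B.H)
      simpa using this
    · have hn : 0 < ‖ζ‖ := norm_pos_iff.2 hz
      have h2 := h (((‖ζ‖⁻¹ : ℝ) : ℂ) • ζ) (by
        rw [norm_smul, Complex.norm_real, Real.norm_of_nonneg (by positivity)]
        field_simp) (by
        intro η' hη'
        rw [inner_smul_right, hζ η' hη', mul_zero])
      rw [en_smul, Complex.norm_real, Real.norm_of_nonneg (by positivity)] at h2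
      calc c * ‖ζ‖ ^ 2 ≤ (‖ζ‖⁻¹ ^ 2 * B.en a ζ) * ‖ζ‖ ^ 2 :=
            mul_le_mul_of_nonneg_right h2 (by positivity)
        _ = B.en a ζ := by field_simp
  have hcs : B.en a ζ ≤ ‖ζ‖ * ‖ζ - B.T a ζ‖ := by
    rw [en_eq]
    exact (Complex.re_le_norm _).trans (norm_inner_le_norm _ _)
  refine ⟨?_, ?_⟩
  · rw [hen, hsub]
    rcases hnn.eq_or_lt with hz | hpos
    · rw [← hz, mul_zero]
      positivity
    · have h3 : B.en a ζ ^ 2 ≤ ‖ζ‖ ^ 2 * ‖ζ - B.T a ζ‖ ^ 2 := by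
        rw [← mul_pow]
        exact pow_le_pow_left₀ hnn hcs 2
      have h4 : c * B.en a ζ * B.en a ζ ≤ ‖ζ - B.T a ζ‖ ^ 2 * B.en a ζ := by
        calc c * B.en a ζ * B.en a ζ = c * B.en a ζ ^ 2 := by ring
          _ ≤ c * (‖ζ‖ ^ 2 * ‖ζ - B.T a ζ‖ ^ 2) := mul_le_mul_of_nonneg_left h3 hc.le
          _ = (c * ‖ζ‖ ^ 2) * ‖ζ - B.T a ζ‖ ^ 2 := by ring
          _ ≤ B.en a ζ * ‖ζ - B.T a ζ‖ ^ 2 := mul_le_mul_of_nonneg_right hsc (by positivity)
          _ = _ := by ring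
      exact le_of_mul_le_mul_right h4 hpos
  · intro hz
    rw [hen] at hz
    have h5 : ‖ζ‖ ^ 2 ≤ 0 := by
      rw [hz] at hsc
      by_contra hcon
      push Not at hcon
      nlinarith [mul_pos hc hcon]
    have h6 : ‖ζ‖ = 0 := by
      have := sq_nonneg ‖ζ‖
      have h7 : ‖ζ‖ ^ 2 = 0 := le_antisymm h5 this
      exact pow_eq_zero_iff (two_ne_zero) |>.1 h7
    have h8 : ζ = 0 := norm_eq_zero.1 h6
    rw [e, h8, add_zero]
    exact hη

end Pool.Agent.PTH
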