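import Pool.Agent.PTH.AvB

/-!
# PTH, part Pa (sections 1-3: property (T), noisy gap, reduction to Theorem B): definitions

* `Bim.Normal`, `PropT`: normal bimodules and property (T) in the language of `Bim`;
* `expSym`, `expAvg h`: the symmetric lazy family `1, exp(± i h_j)` for self-adjoint `h_0, .., h_m`;
* `Bf A`: positive biforms `κ(x, y)` (to be thought of as `⟨ξ, x ξ y⟩`), `Bf.m`, `Bf.E`, `Bf.Q` (mass,
  energy `⟨Δξ, ξ⟩`, and `‖Δξ‖²`), `Bf.Dom` (both densities at most `1`), `Bim.bf B ξ` the biform of a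
  vector, `Bf.add`, `Bf.scale`;
* `Emb M N ω`: a trace preserving unital *-homomorphism of `M` to the ultrapower of `N`, given by
  bounded lifts.
-/

open Filter Topology
open scoped InnerProductSpace ComplexOrder

universe u

namespace Pool.Agent.PTH

open MulOpposite

section T

variable {M : Type u} [CStarAlgebra M] [TrAlg M]

/-- Normality of a bimodule: for every vector `ξ`, `x ξ` and `ξ x` are small for `x` in the unit ball
with small 2-norm. -/
def Bim.Normal (B : Bim.{u} M) : Prop :=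
  ∀ ξ : B.H, ∀ ε : ℝ, 0 < ε → ∃ δ : ℝ, 0 < δ ∧ ∀ x : M, ‖x‖ ≤ 1 → two x ≤ δ →
    ‖B.l x ξ‖ ≤ ε ∧ ‖B.r x ξ‖ ≤ ε

/-- The vector `ξ` is central. -/
def Bim.Central (B : Bim.{u} M) (ξ : B.H) : Prop := ∀ x : M, B.l x ξ = B.r x ξ

variable (M) in
/-- Property (T) of Connes and Jones. -/
def PropT : Prop :=
  ∀ ε : ℝ, 0 < ε → ∃ (F : Finset M) (δ : ℝ), 0 < δ ∧
    ∀ B : Bim.{u} M, B.Normal → ∀ ξ : B.H, ‖ξ‖ = 1 → (∀ x ∈ F, ‖B.l x ξ - B.r x ξ‖ < δ) →
      ∃ η : B.H, B.Central η ∧ ‖η - ξ‖ < ε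

end T

/-! ### Exponential families -/

/-- The index set of `expAvg`: `none` for `1`, `(j, true)` for `exp(i h_j)`, `(j, false)` for its
inverse. -/
noncomputable def expSym (m : ℕ) : Sym where
  ι := Option (Fin (m + 1) × Bool)
  p := fun i => i.elim (1 / 2) fun _ => 1 / (4 * ((m : ℝ) + 1))
  inv := fun i => i.map fun jb => (jb.1, !jb.2)
  o := none
  inv_inv := by
    intro i
    rcases i with _ | ⟨j, b⟩
    · rfl
    · simp
  p_inv := by
    intro i
    rcases i with _ | ⟨j, b⟩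
    · rfl
    · rfl
  p_pos := by
    intro i
    rcases i with _ | ⟨j, b⟩
    · norm_num
    · simp only [Option.elim_some]
      positivity
  p_sum := by
    rw [Fintype.sum_option]
    simp only [Option.elim_none, Option.elim_some, Finset.sum_const, Finset.card_univ,
      Fintype.card_prod, Fintype.card_fin, Fintype.card_bool, nsmul_eq_mul]
    push_cast
    field_simp
    ring
  p_o := by norm_num

section expA

variable {A : Type*} [CStarAlgebra A]

/-- The unitary `exp(i h)`. -/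
noncomputable def expU (h : selfAdjoint A) : A := (selfAdjoint.expUnitary h : A)

theorem expU_star_mul (h : selfAdjoint A) : star (expU h) * expU h = 1 :=
  Unitary.star_mul_self_of_mem (selfAdjoint.expUnitary h).2

theorem expU_mul_star (h : selfAdjoint A) : expU h * star (expU h) = 1 :=
  Unitary.mul_star_self_of_mem (selfAdjoint.expUnitary h).2

/-- The family `1, exp(± i h_j)`. -/
noncomputable def expAvg {m : ℕ} (h : Fin (m + 1) → selfAdjoint A) : Avg A where
  toSym := expSym m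
  u := fun i => Option.elim i 1 fun jb => if jb.2 then expU (h jb.1) else star (expU (h jb.1))
  u_star_mul := by
    intro i
    rcases i with _ | ⟨j, b⟩
    · simp
    · cases b
      · simp [expU_mul_star]
      · simp [expU_star_mul]
  u_mul_star := by
    intro i
    rcases i with _ | ⟨j, b⟩
    · simp
    · cases b
      · simp [expU_star_mul]
      · simp [expU_mul_star]
  u_inv := by
    intro i
    rcases i with _ | ⟨j, b⟩
    · simp [expSym]
    · cases b
      · simp [expSym]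
      · simp [expSym]
  u_o := rfl

theorem expAvg_none {m : ℕ} (h : Fin (m + 1) → selfAdjoint A) : (expAvg h).u none = 1 := rfl

theorem expAvg_true {m : ℕ} (h : Fin (m + 1) → selfAdjoint A) (j : Fin (m + 1)) :
    (expAvg h).u (some (j, true)) = expU (h j) := rfl

theorem expAvg_false {m : ℕ} (h : Fin (m + 1) → selfAdjoint A) (j : Fin (m + 1)) :
    (expAvg h).u (some (j, false)) = star (expU (h j)) := rfl

end expA

/-! ### Biforms -/

/-- A positive biform: `κ(x, y) = ⟨ξ, x ξ y⟩`. -/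
structure Bf (A : Type*) [CStarAlgebra A] where
  k : A →ₗ[ℂ] A →ₗ[ℂ] ℂ
  pos : ∀ (n : ℕ) (x y : Fin n → A), 0 ≤ ∑ i, ∑ j, k (star (x i) * x j) (y j * star (y i))

namespace Bf

variable {A : Type*} [CStarAlgebra A] (κ : Bf A)

/-- The mass `κ(1,1) = ‖ξ‖²`. -/
noncomputable def m : ℝ := (κ.k 1 1).re

/-- The energy `⟨Δξ, ξ⟩ = ∑ p_i (κ(1,1) - Re κ(u_i, u_i*))`. -/
noncomputable def E (a : Avg A) : ℝ :=
  ∑ i, a.p i * ((κ.k 1 1).re - (κ.k (a.u i) (star (a.u i))).re)

/-- `‖Δξ‖²`, as a linear function of `κ`. -/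
noncomputable def Q (a : Avg A) : ℝ :=
  (κ.k 1 1).re - 2 * ∑ i, a.p i * (κ.k (a.u i) (star (a.u i))).re +
    ∑ i, ∑ j, a.p i * a.p j * (κ.k (star (a.u i) * a.u j) (star (a.u j) * a.u i)).re

/-- The left and the right density are at most `1`. -/
def Dom [TrAlg A] : Prop :=
  ∀ x : A, (κ.k (star x * x) 1).re ≤ two x ^ 2 ∧ (κ.k 1 (star x * x)).re ≤ two x ^ 2

/-- The zero biform. -/
noncomputable def zero : Bf A where
  k := 0
  pos := by intro n x y; simp

/-- The sum of two biforms. -/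
noncomputable def add (κ κ' : Bf A) : Bf A where
  k := κ.k + κ'.k
  pos := by
    intro n x y
    have h := add_nonneg (κ.pos n x y) (κ'.pos n x y)
    rw [← Finset.sum_add_distrib] at h
    simp_rw [← Finset.sum_add_distrib] at h
    simpa using h

/-- The multiple of a biform by `t ≥ 0`. -/
noncomputable def scale (κ : Bf A) (t : ℝ) (ht : 0 ≤ t) : Bf A where
  k := (t : ℂ) • κ.k
  pos := by
    intro n x y
    have ht' : (0 : ℂ) ≤ (t : ℂ) := by exact_mod_cast ht
    have h := mul_nonneg ht' (κ.pos n x y)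
    rw [Finset.mul_sum] at h
    simp_rw [Finset.mul_sum] at h
    simpa using h

end Bf

namespace Bim

variable {A : Type u} [CStarAlgebra A] (B : Bim.{u} A)

/-- The bilinear map `(x, y) ↦ ⟨ξ, x ξ y⟩`. -/
noncomputable def bfk (ξ : B.H) : A →ₗ[ℂ] A →ₗ[ℂ] ℂ :=
  LinearMap.mk₂ ℂ (fun x y => ⟪ξ, B.l x (B.r y ξ)⟫_ℂ)
    (by intro x y z; simp [l, map_add])
    (by intro c x y; simp [l, map_smul])
    (by intro x y z; simp [l, r, map_add])
    (by intro c x y; simp [l, r, map_smul])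

theorem bfk_apply (ξ : B.H) (x y : A) : B.bfk ξ x y = ⟪ξ, B.l x (B.r y ξ)⟫_ℂ := rfl

theorem bfk_sum (ξ : B.H) (n : ℕ) (x y : Fin n → A) :
    ∑ i, ∑ j, B.bfk ξ (star (x i) * x j) (y j * star (y i)) =
      ⟪∑ i, B.l (x i) (B.r (y i) ξ), ∑ i, B.l (x i) (B.r (y i) ξ)⟫_ℂ := by
  rw [sum_inner]
  refine Finset.sum_congr rfl fun i _ => ?_
  rw [inner_sum]
  refine Finset.sum_congr rfl fun j _ => ?_
  rw [bfk_apply, inner_l, inner_r, l_mul, r_mul, ← l_r, ← l_r]

/-- The biform of a vector. -/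
noncomputable def bf (ξ : B.H) : Bf A where
  k := B.bfk ξ
  pos := by
    intro n x y
    rw [bfk_sum, Complex.nonneg_iff]
    exact ⟨inner_self_nonneg (𝕜 := ℂ), (inner_self_im (𝕜 := ℂ) _).symm⟩

theorem bf_k (ξ : B.H) (x y : A) : (B.bf ξ).k x y = ⟪ξ, B.l x (B.r y ξ)⟫_ℂ := rfl

end Bim

/-- A trace preserving unital *-homomorphism of `M` to the ultrapower of `N` along `ω`, given by
bounded lifts. -/
structure Emb (M N : Type*) [CStarAlgebra M] [TrAlg M] [CStarAlgebra N] [TrAlg N]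
    (ω : Ultrafilter ℕ) where
  lift : M → ℕ → N
  bdd : ∀ x, ∃ C : ℝ, ∀ n, ‖lift x n‖ ≤ C
  add : ∀ x y, Tendsto (fun n => two (lift (x + y) n - (lift x n + lift y n))) ω (𝓝 0)
  smul : ∀ (c : ℂ) x, Tendsto (fun n => two (lift (c • x) n - c • lift x n)) ω (𝓝 0)
  mul : ∀ x y, Tendsto (fun n => two (lift (x * y) n - lift x n * lift y n)) ω (𝓝 0)
  star : ∀ x, Tendsto (fun n => two (lift (star x) n - Star.star (lift x n))) ω (𝓝 0)
  one : Tendsto (fun n => two (lift 1 n - 1)) ω (𝓝 0)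
  tau : ∀ x, Tendsto (fun n => TrAlg.tau (lift x n)) ω (𝓝 (TrAlg.tau x))

namespace Emb

variable {M N : Type*} [CStarAlgebra M] [TrAlg M] [CStarAlgebra N] [TrAlg N]
  {ω : Ultrafilter ℕ} (e : Emb M N ω)

/-- The bounded sequence `y` is a lift of (the image of) `x`. -/
def Lifts (x : M) (y : ℕ → N) : Prop :=
  (∃ C : ℝ, ∀ n, ‖y n‖ ≤ C) ∧ Tendsto (fun n => two (e.lift x n - y n)) ω (𝓝 0)

end Emb

end Pool.Agent.PTH
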