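import Pool.Agent.PTH.PaExpn
import Pool.Agent.PTH.PaBf
import Pool.Agent.PTH.MxEnt

/-!
# PTH PaEbf: the biform `κ(x, y) = τ(E_D(x) y)` of a conditional expectation

PROOF.  Positivity: `∑_ij τ(E(x_i* x_j) y_j y_i*) ≥ 0`.  Work in the tracial algebra
`𝒜 = CStarMatrix (Fin n) (Fin n) A` (Mathlib: C*-algebra, order; `TracialVN` instance of helper86, module
MxBall: add the import; trace = normalised sum of the traces of the diagonal entries).  `n = 0`: trivial.
`𝒟 = {Z | all entries in D}` is a finite dimensional *-subalgebra of `𝒜`; `P = (E(x_i* x_j))_ij ∈ 𝒟` is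
self-adjoint and for `Z ∈ 𝒟`: `τ_n(Z* P Z) = (1/n) ∑ τ(Z_ki* P_kl Z_li) = (1/n) ∑ τ(E(x_k* x_l) Z_li Z_ki*)
 = (1/n) ∑ τ(x_k* x_l Z_li Z_ki*) = (1/n) ∑_i τ(w_i* w_i) ≥ 0`, `w_i = ∑_l x_l Z_li` (all `Z_li Z_ki* ∈ D`).
So `P ≥ 0` (`nonneg_of_rt_conj` in `𝒜`), and with the column matrix `Y`, `Y_j0 = y_j` (other columns `0`):
`0 ≤ n τ_n(Y* P Y) = ∑_ij τ(y_i* P_ij y_j) = ∑_ij τ(E(x_i* x_j) y_j y_i*)`.  The imaginary part is `0`
because `P`, `Y* P Y` are self-adjoint.
`Dom`: `κ(z* z, 1) = τ(E(z* z)) = τ(z* z)` (`d = 1`), `κ(1, z* z) = τ(z* z)` (`E 1 = 1`).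
-/

open Filter Topology
open scoped InnerProductSpace ComplexOrder

universe u

namespace Pool.Agent.PTH

variable {A : Type u} [CStarAlgebra A] [PartialOrder A] [StarOrderedRing A] [TracialVN A]

/-- the matrices with entries in `D` -/
private noncomputable def mxSub (n : ℕ) (D : StarSubalgebra ℂ A) :
    StarSubalgebra ℂ (CStarMatrix (Fin n) (Fin n) A) where
  carrier := {Z | ∀ i j, Z i j ∈ D}
  mul_mem' := by
    intro Z W hZ hW i j
    rw [CStarMatrix.mul_apply]
    exact sum_mem fun k _ => mul_mem (hZ i k) (hW k j)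
  add_mem' := by
    intro Z W hZ hW i j
    exact add_mem (hZ i j) (hW i j)
  algebraMap_mem' := by
    intro c i j
    rw [Algebra.algebraMap_eq_smul_one]
    change c • ((1 : CStarMatrix (Fin n) (Fin n) A) i j) ∈ D
    rw [CStarMatrix.one_apply]
    by_cases h : i = j
    · rw [if_pos h]
      exact D.smul_mem (one_mem D) c
    · rw [if_neg h, smul_zero]
      exact zero_mem D
  star_mem' := by
    intro Z hZ i j
    change star (Z j i) ∈ D
    exact star_mem (hZ j i)

private theorem mem_mxSub {n : ℕ} {D : StarSubalgebra ℂ A} {Z : CStarMatrix (Fin n) (Fin n) A} :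
    Z ∈ mxSub n D ↔ ∀ i j, Z i j ∈ D := Iff.rfl

/-- the entries as a linear map -/
private noncomputable def entMap (n : ℕ) (D : StarSubalgebra ℂ A) :
    mxSub n D →ₗ[ℂ] (Fin n → Fin n → D) where
  toFun Z i j := ⟨(Z : CStarMatrix (Fin n) (Fin n) A) i j, mem_mxSub.1 Z.2 i j⟩
  map_add' Z W := by
    funext i j
    apply Subtype.ext
    rfl
  map_smul' c Z := by
    funext i j
    apply Subtype.ext
    rfl

private theorem entMap_inj (n : ℕ) (D : StarSubalgebra ℂ A) : Function.Injective (entMap n D) := by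
  intro Z W h
  apply Subtype.ext
  rw [← CStarMatrix.ext_iff]
  intro i j
  have h1 := congrFun (congrFun h i) j
  exact congrArg Subtype.val h1

private theorem mxSub_fin (n : ℕ) (D : StarSubalgebra ℂ A) [FiniteDimensional ℂ D] :
    FiniteDimensional ℂ (mxSub n D) :=
  FiniteDimensional.of_injective (entMap n D) (entMap_inj n D)

omit [PartialOrder A] [StarOrderedRing A] in
private theorem tau_conj (D : StarSubalgebra ℂ A) (E : A →ₗ[ℂ] A)
    (h2 : ∀ x, ∀ d ∈ D, TrAlg.tau (E x * d) = TrAlg.tau (x * d)) (x1 x2 : A) {z1 z2 : A}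
    (hz1 : z1 ∈ D) (hz2 : z2 ∈ D) :
    rt (star z1 * E (star x1 * x2) * z2) = rt (star (x1 * z1) * (x2 * z2)) := by
  have e : TrAlg.tau (star z1 * E (star x1 * x2) * z2) =
      TrAlg.tau (star (x1 * z1) * (x2 * z2)) := by
    rw [mul_assoc, TrAlg.tau_comm, mul_assoc, h2 _ _ (mul_mem hz2 (star_mem hz1)), star_mul,
      mul_assoc (star z1), TrAlg.tau_comm (star z1)]
    simp only [mul_assoc]
  rw [rt, rt, e]

omit [PartialOrder A] [StarOrderedRing A] in
private theorem rt_quad {n : ℕ} (D : StarSubalgebra ℂ A) (E : A →ₗ[ℂ] A)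
    (h2 : ∀ x, ∀ d ∈ D, TrAlg.tau (E x * d) = TrAlg.tau (x * d)) (x z : Fin n → A)
    (hz : ∀ i, z i ∈ D) :
    rt (∑ l, ∑ k, star (z k) * E (star (x k) * x l) * z l) =
      rt (star (∑ k, x k * z k) * ∑ l, x l * z l) := by
  rw [star_sum, Finset.sum_mul_sum, rt_sum, rt_sum]
  have e1 : ∀ l, rt (∑ k, star (z k) * E (star (x k) * x l) * z l) =
      ∑ k, rt (star (x k * z k) * (x l * z l)) := fun l => by
    rw [rt_sum]
    exact Finset.sum_congr rfl fun k _ => tau_conj D E h2 _ _ (hz k) (hz l)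
  have e2 : ∀ k, rt (∑ l, star (x k * z k) * (x l * z l)) =
      ∑ l, rt (star (x k * z k) * (x l * z l)) := fun k => rt_sum _ _
  simp only [e1, e2]
  exact Finset.sum_comm

/-- the key positivity -/
private theorem expect_pos (D : StarSubalgebra ℂ A) [FiniteDimensional ℂ D] (E : A →ₗ[ℂ] A)
    (h1 : ∀ x, E x ∈ D) (h2 : ∀ x, ∀ d ∈ D, TrAlg.tau (E x * d) = TrAlg.tau (x * d))
    (h3 : ∀ x, E (star x) = star (E x)) (n : ℕ) [Nonempty (Fin n)] (x : Fin n → A) :
    (0 : CStarMatrix (Fin n) (Fin n) A) ≤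
      CStarMatrix.ofMatrix (fun i j => E (star (x i) * x j)) := by
  have : FiniteDimensional ℂ (mxSub n D) := mxSub_fin n D
  obtain ⟨P, hP⟩ : ∃ P : CStarMatrix (Fin n) (Fin n) A,
      P = CStarMatrix.ofMatrix (fun i j => E (star (x i) * x j)) := ⟨_, rfl⟩
  have hPa : ∀ i j, P i j = E (star (x i) * x j) := fun i j => by rw [hP]; rfl
  rw [← hP]
  refine nonneg_of_rt_conj (mxSub n D) (mem_mxSub.2 fun i j => ?_) ?_ ?_
  · rw [hPa]
    exact h1 _
  · rw [isSelfAdjoint_iff, ← CStarMatrix.ext_iff]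
    intro i j
    rw [Mx.star_apply', hPa, hPa, ← h3, star_mul, star_star]
  · intro Z hZ
    rw [mem_mxSub] at hZ
    rw [Mx.rt_apply]
    refine mul_nonneg (by positivity) (Finset.sum_nonneg fun i _ => ?_)
    have e1 : (star Z * P * Z) i i = ∑ l, ∑ k, star (Z k i) * P k l * Z l i := by
      rw [CStarMatrix.mul_apply]
      refine Finset.sum_congr rfl fun l _ => ?_
      rw [CStarMatrix.mul_apply, Finset.sum_mul]
      rfl
    have e2 : ∑ l, ∑ k, star (Z k i) * P k l * Z l i =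
        ∑ l, ∑ k, star (Z k i) * E (star (x k) * x l) * Z l i :=
      Finset.sum_congr rfl fun l _ => Finset.sum_congr rfl fun k _ => by rw [hPa]
    rw [e1, e2, rt_quad D E h2 x (fun k => Z k i) (fun k => hZ k i)]
    exact rt_star_mul_self_nonneg _

theorem exists_expect_bf (D : StarSubalgebra ℂ A) [FiniteDimensional ℂ D] (E : A →ₗ[ℂ] A)
    (h1 : ∀ x, E x ∈ D) (h2 : ∀ x, ∀ d ∈ D, TrAlg.tau (E x * d) = TrAlg.tau (x * d))
    (h3 : ∀ x, E (star x) = star (E x)) :
    ∃ κ : Bf A, κ.Dom ∧ ∀ x y, κ.k x y = TrAlg.tau (E x * y) := by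
  have hE1 : E 1 = 1 := by
    have h4 : E 1 - 1 ∈ D := sub_mem (h1 1) (one_mem D)
    have h5 : TrAlg.tau ((E 1 - 1) * star (E 1 - 1)) = 0 := by
      rw [sub_mul, map_sub, h2 1 _ (star_mem h4), sub_self]
    rw [TrAlg.tau_comm] at h5
    exact sub_eq_zero.1 (TrAlg.tau_faithful _ h5)
  refine ⟨⟨LinearMap.mk₂ ℂ (fun x y => TrAlg.tau (E x * y)) ?_ ?_ ?_ ?_, ?_⟩, ?_, fun x y => rfl⟩
  · intro x y z
    rw [map_add, add_mul, map_add]
  · intro c x y
    rw [map_smul, smul_mul_assoc, map_smul]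
  · intro x y z
    rw [mul_add, map_add]
  · intro c x y
    rw [mul_smul_comm, map_smul]
  · intro n x y
    rcases Nat.eq_zero_or_pos n with hn | hn
    · subst hn
      simp
    · have : Nonempty (Fin n) := ⟨⟨0, hn⟩⟩
      have h4 := Mx.quad_nonneg (expect_pos D E h1 h2 h3 n x) y
      have h5 := tau_eq_rt (IsSelfAdjoint.of_nonneg h4)
      have h6 := rt_nonneg h4
      have h7 : ∑ i, ∑ j, TrAlg.tau (E (star (x i) * x j) * (y j * star (y i))) =
          TrAlg.tau (∑ i, ∑ j, star (y i) *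
            (CStarMatrix.ofMatrix (fun i j => E (star (x i) * x j)) :
              CStarMatrix (Fin n) (Fin n) A) i j * y j) := by
        rw [map_sum]
        refine Finset.sum_congr rfl fun i _ => ?_
        rw [map_sum]
        refine Finset.sum_congr rfl fun j _ => ?_
        rw [mul_assoc, TrAlg.tau_comm (star (y i)), mul_assoc]
        rfl
      change 0 ≤ ∑ i, ∑ j, TrAlg.tau (E (star (x i) * x j) * (y j * star (y i)))
      rw [h7, h5]
      exact_mod_cast h6
  · intro x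
    change (TrAlg.tau (E (star x * x) * 1)).re ≤ two x ^ 2 ∧
      (TrAlg.tau (E 1 * (star x * x))).re ≤ two x ^ 2
    rw [h2 _ 1 (one_mem D), hE1, mul_one, one_mul, two_sq]
    exact ⟨le_rfl, le_rfl⟩

end Pool.Agent.PTH
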