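import Pool.Agent.PTH.PaDefs

/-!
# PTH PaExp: first order approximation of `exp(i h)`

PROOFS.  `expU h = NormedSpace.exp (Complex.I • h)`.  In a Banach algebra
`‖exp y - 1 - y‖ ≤ exp ‖y‖ - 1 - ‖y‖ ≤ ‖y‖²` for `‖y‖ ≤ 1`: from the series
(`NormedSpace.exp_eq_tsum`, `norm_tsum_le_tsum_norm`, or the functional calculus
`exp(i h) = cfc (fun z => exp(i z)) h` and `Complex.norm_exp_sub_one_sub_id_le` on the spectrum).
`expU_approx_n`: partial sums: for `‖h‖ ≤ C` the partial sums `P_K(i h) = ∑_{k < K} (k!)⁻¹ (i h)^k` satisfy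
`‖expU h - P_K(i h)‖ ≤ ∑_{k ≥ K} C^k / k!` =: `expTail C K`, which tends to `0` as `K → ∞` (independent of
the algebra).
`comm_le`: `h = -i (expU h - 1) + i (expU h - 1 - i h)`, so
`hξ - ξh = -i (expU h ξ - ξ expU h) + i (r ξ - ξ r)`, `‖r‖ ≤ ‖h‖²`, and `‖rξ - ξr‖ ≤ 2 ‖r‖ ‖ξ‖`.
-/

open Filter Topology
open scoped InnerProductSpace ComplexOrder

universe u

namespace Pool.Agent.PTH

section

variable {A : Type u} [CStarAlgebra A]

/-- The partial sums of the exponential series. -/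
noncomputable def expPS (K : ℕ) (y : A) : A :=
  ∑ k ∈ Finset.range K, ((Nat.factorial k : ℂ)⁻¹) • y ^ k

/-- The tail of the exponential series. -/
noncomputable def expTail (C : ℝ) (K : ℕ) : ℝ := ∑' k : ℕ, C ^ (k + K) / (Nat.factorial (k + K) : ℝ)

theorem expTail_tendsto (C : ℝ) (hC : 0 ≤ C) : Tendsto (expTail C) atTop (𝓝 0) :=
  _root_.tendsto_sum_nat_add (fun k : ℕ => C ^ k / (Nat.factorial k : ℝ))

private theorem expTail_nonneg {C : ℝ} (hC : 0 ≤ C) (K : ℕ) : 0 ≤ expTail C K :=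
  tsum_nonneg fun k => by positivity

private theorem norm_Ih (h : selfAdjoint A) : ‖Complex.I • (h : A)‖ = ‖(h : A)‖ := by
  rw [norm_smul, Complex.norm_I, one_mul]

private theorem expU_eq (h : selfAdjoint A) : expU h = NormedSpace.exp (Complex.I • (h : A)) :=
  selfAdjoint.expUnitary_coe h

theorem expU_approx_n (h : selfAdjoint A) (C : ℝ) (hC : ‖(h : A)‖ ≤ C) (K : ℕ) :
    ‖expU h - expPS K (Complex.I • (h : A))‖ ≤ expTail C K := by
  have hC0 : 0 ≤ C := (norm_nonneg _).trans hC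
  rcases subsingleton_or_nontrivial A with hA | hA
  · rw [Subsingleton.elim (expU h - expPS K (Complex.I • (h : A))) 0, norm_zero]
    exact expTail_nonneg hC0 K
  · set y : A := Complex.I • (h : A) with hy
    have hyn : ‖y‖ ≤ C := by rw [hy, norm_Ih]; exact hC
    have hs : HasSum (fun n : ℕ => ((Nat.factorial n : ℂ)⁻¹) • y ^ n) (NormedSpace.exp y) :=
      NormedSpace.exp_series_hasSum_exp' y
    have h1 := hs.summable.sum_add_tsum_nat_add K
    rw [hs.tsum_eq] at h1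
    have h2 : expU h - expPS K y = ∑' i, ((Nat.factorial (i + K) : ℂ)⁻¹) • y ^ (i + K) := by
      rw [expU_eq, ← hy, ← h1]
      unfold expPS
      abel
    have hb : ∀ i : ℕ, ‖((Nat.factorial (i + K) : ℂ)⁻¹) • y ^ (i + K)‖ ≤
        C ^ (i + K) / (Nat.factorial (i + K) : ℝ) := by
      intro i
      rw [norm_smul, norm_inv, Complex.norm_natCast, div_eq_inv_mul]
      refine mul_le_mul_of_nonneg_left ?_ (by positivity)
      exact (norm_pow_le y (i + K)).trans (pow_le_pow_left₀ (norm_nonneg _) hyn _)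
    have hsC : Summable (fun i : ℕ => C ^ (i + K) / (Nat.factorial (i + K) : ℝ)) :=
      (summable_nat_add_iff K).2 (Real.summable_pow_div_factorial C)
    rw [h2]
    exact tsum_of_norm_bounded hsC.hasSum hb

private theorem expTail_two {t : ℝ} (h0 : 0 ≤ t) (h1 : t ≤ 1) : expTail t 2 ≤ t ^ 2 := by
  have hs : HasSum (fun n : ℕ => t ^ n / (Nat.factorial n : ℝ)) (Real.exp t) := by
    rw [Real.exp_eq_exp_ℝ]
    exact NormedSpace.expSeries_div_hasSum_exp t
  have h2 := hs.summable.sum_add_tsum_nat_add 2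
  rw [hs.tsum_eq] at h2
  have h3 : expTail t 2 = Real.exp t - 1 - t := by
    unfold expTail
    rw [← h2]
    simp [Finset.sum_range_succ]
    ring
  have h4 := Real.abs_exp_sub_one_sub_id_le (x := t) (by rw [abs_of_nonneg h0]; exact h1)
  rw [h3]
  exact (le_abs_self _).trans h4

theorem expU_approx (h : selfAdjoint A) (h1 : ‖(h : A)‖ ≤ 1) :
    ‖expU h - 1 - Complex.I • (h : A)‖ ≤ ‖(h : A)‖ ^ 2 := by
  have h2 := expU_approx_n h ‖(h : A)‖ le_rfl 2
  have h3 : expPS 2 (Complex.I • (h : A)) = 1 + Complex.I • (h : A) := by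
    unfold expPS
    simp [Finset.sum_range_succ]
  rw [h3, ← sub_sub] at h2
  exact h2.trans (expTail_two (norm_nonneg _) h1)


theorem Bim.comm_le (B : Bim.{u} A) (h : selfAdjoint A) (h1 : ‖(h : A)‖ ≤ 1) (ξ : B.H) :
    ‖B.l (h : A) ξ - B.r (h : A) ξ‖ ≤
      ‖B.l (expU h) ξ - B.r (expU h) ξ‖ + 2 * ‖(h : A)‖ ^ 2 * ‖ξ‖ := by
  set r : A := expU h - 1 - Complex.I • (h : A) with hr
  have hrn : ‖r‖ ≤ ‖(h : A)‖ ^ 2 := expU_approx h h1
  have hh : (h : A) = (-Complex.I) • (expU h - 1 - r) := by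
    rw [hr]
    have : expU h - 1 - (expU h - 1 - Complex.I • (h : A)) = Complex.I • (h : A) := by abel
    rw [this, smul_smul, neg_mul, Complex.I_mul_I, neg_neg, one_smul]
  have hl : B.l (h : A) ξ = (-Complex.I) • (B.l (expU h) ξ - ξ - B.l r ξ) := by
    conv_lhs => rw [hh]
    rw [B.l_smul, B.l_sub, B.l_sub, B.l_one]
  have hrr : B.r (h : A) ξ = (-Complex.I) • (B.r (expU h) ξ - ξ - B.r r ξ) := by
    conv_lhs => rw [hh]
    rw [B.r_smul, B.r_sub, B.r_sub, B.r_one]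
  have he : B.l (h : A) ξ - B.r (h : A) ξ =
      (-Complex.I) • ((B.l (expU h) ξ - B.r (expU h) ξ) - (B.l r ξ - B.r r ξ)) := by
    rw [hl, hrr, ← smul_sub]
    congr 1
    abel
  rw [he, norm_smul, norm_neg, Complex.norm_I, one_mul]
  have h3 : ‖B.l r ξ - B.r r ξ‖ ≤ 2 * ‖(h : A)‖ ^ 2 * ‖ξ‖ := by
    refine (norm_sub_le _ _).trans ?_
    have h4 := B.norm_l_le r ξ
    have h5 := B.norm_r_le r ξ
    have h6 := mul_le_mul_of_nonneg_right hrn (norm_nonneg ξ)
    linarith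
  exact (norm_sub_le _ _).trans (add_le_add le_rfl h3)

end

end Pool.Agent.PTH
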