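import Pool.Agent.PTH.PaPos
import Pool.Agent.PTH.Tb1

/-!
# PTH PaExpn: the conditional expectation onto a finite dimensional *-subalgebra

`E` = orthogonal projection of `(A, ⟨x, y⟩ = τ(x* y))` onto the finite dimensional space `D`.

PROOF.  EXISTENCE of a linear `E : A → A` with values in `D` and `τ(E(x) d) = τ(x d)` for `d ∈ D`:
`D` is finite dimensional and `(d, d') ↦ τ(d* d')` is positive definite on `D`, so there is an orthonormal
basis `d_1, .., d_r` of `D` (Gram-Schmidt in the inner product space `D`; or: the linear map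
`D → Dual D`, `d ↦ τ(d ·)` is injective (faithfulness, `D` is *-closed), hence bijective), and
`E(x) = ∑ d_j τ(d_j* x)`.  UNIQUENESS: `y ∈ D` with `τ(y d) = 0` for all `d ∈ D` is `0` (`d = y*`).
From uniqueness: `E d = d`, `E(x*) = E(x)*` (`τ(E(x)* d) = conj τ(E(x) d*)`, by `tau_comm`),
`E(d x d') = d E(x) d'`.  POSITIVITY: `x ≥ 0`, `y = E x` self-adjoint, `d ∈ D`:
`τ(d* y d) = τ(y d d*) = τ(x d d*) = τ(d* x d) ≥ 0`: `nonneg_of_rt_conj`.  CONTRACTIVITY:
`0 ≤ E((x - E x)* (x - E x)) = E(x* x) - (E x)* (E x)` and `x* x ≤ ‖x‖²`, `E 1 = 1`, so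
`(E x)* (E x) ≤ E (x* x) ≤ ‖x‖² • 1`, `‖E x‖² ≤ ‖x‖²` (`CStarAlgebra.norm_le_norm_of_nonneg_of_le`,
`norm_one`; `TracialVN` implies `1 ≠ 0`).
-/

open Filter Topology
open scoped InnerProductSpace ComplexOrder

universe u

namespace Pool.Agent.PTH

variable {A : Type u} [CStarAlgebra A] [PartialOrder A] [StarOrderedRing A] [TracialVN A]

omit [PartialOrder A] [StarOrderedRing A] in
private theorem pe_unique {D : StarSubalgebra ℂ A} {y y' : A} (hy : y ∈ D) (hy' : y' ∈ D)
    (h : ∀ d ∈ D, TrAlg.tau (y * d) = TrAlg.tau (y' * d)) : y = y' := by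
  have h1 := h (star (y - y')) (star_mem (sub_mem hy hy'))
  have h2 : TrAlg.tau (star (y - y') * (y - y')) = 0 := by
    rw [TrAlg.tau_comm, sub_mul, map_sub, h1, sub_self]
  exact sub_eq_zero.1 (TrAlg.tau_faithful _ h2)

/-- the bilinear form `τ(d d')` on `D` -/
private noncomputable def peB (D : StarSubalgebra ℂ A) : D →ₗ[ℂ] (D →ₗ[ℂ] ℂ) :=
  LinearMap.mk₂ ℂ (fun d d' : D => TrAlg.tau ((d : A) * (d' : A)))
    (by intro x y z; simp [add_mul])
    (by intro c x y; simp)
    (by intro x y z; simp [mul_add])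
    (by intro c x y; simp)

/-- the functionals `τ(x d)` on `D` -/
private noncomputable def peF (D : StarSubalgebra ℂ A) : A →ₗ[ℂ] (D →ₗ[ℂ] ℂ) :=
  LinearMap.mk₂ ℂ (fun (x : A) (d : D) => TrAlg.tau (x * (d : A)))
    (by intro x y z; simp [add_mul])
    (by intro c x y; simp)
    (by intro x y z; simp [mul_add])
    (by intro c x y; simp)

omit [PartialOrder A] [StarOrderedRing A] in
private theorem peB_inj (D : StarSubalgebra ℂ A) : Function.Injective (peB D) := by
  intro x y hxy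
  apply Subtype.ext
  refine pe_unique x.2 y.2 fun d hd => ?_
  exact congrArg (fun f : D →ₗ[ℂ] ℂ => f ⟨d, hd⟩) hxy

theorem exists_expect (D : StarSubalgebra ℂ A) [FiniteDimensional ℂ D] :
    ∃ E : A →ₗ[ℂ] A, (∀ x, E x ∈ D) ∧ (∀ x, ∀ d ∈ D, TrAlg.tau (E x * d) = TrAlg.tau (x * d)) ∧
      (∀ d ∈ D, E d = d) ∧ (∀ x, E (star x) = star (E x)) ∧
      (∀ x, ∀ d ∈ D, ∀ d' ∈ D, E (d * x * d') = d * E x * d') ∧
      (∀ x, 0 ≤ x → 0 ≤ E x) ∧ ∀ x, ‖E x‖ ≤ ‖x‖ := by
  obtain ⟨G, hG⟩ : ∃ G : A →ₗ[ℂ] D, ∀ x, ∀ d : D, TrAlg.tau ((G x : A) * d) =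
      TrAlg.tau (x * (d : A)) := by
    have hfr : Module.finrank ℂ D = Module.finrank ℂ (D →ₗ[ℂ] ℂ) :=
      (Subspace.dual_finrank_eq (K := ℂ) (V := D)).symm
    let e := (peB D).linearEquivOfInjective (peB_inj D) hfr
    refine ⟨e.symm.toLinearMap ∘ₗ peF D, fun x d => ?_⟩
    have h1 : peB D (e.symm (peF D x)) = peF D x := e.apply_symm_apply (peF D x)
    exact congrArg (fun f : D →ₗ[ℂ] ℂ => f d) h1
  obtain ⟨E, hE⟩ : ∃ E : A →ₗ[ℂ] A, ∀ x, E x = (G x : A) :=
    ⟨D.toSubalgebra.toSubmodule.subtype ∘ₗ G, fun x => rfl⟩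
  have hmem : ∀ x, E x ∈ D := fun x => by
    rw [hE]
    exact (G x).2
  have htau : ∀ x, ∀ d ∈ D, TrAlg.tau (E x * d) = TrAlg.tau (x * d) := fun x d hd => by
    rw [hE]
    exact hG x ⟨d, hd⟩
  have hid : ∀ d ∈ D, E d = d := fun d hd => pe_unique (hmem d) hd fun d' hd' => htau d d' hd'
  have hstar : ∀ x, E (star x) = star (E x) := by
    intro x
    refine pe_unique (hmem _) (star_mem (hmem x)) fun d hd => ?_
    rw [htau _ _ hd]
    have h1 : star (E x) * d = star (star d * E x) := by rw [star_mul, star_star]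
    have h2 : d * star x = star (x * star d) := by rw [star_mul, star_star]
    rw [h1, TrAlg.tau_star, TrAlg.tau_comm (star d), htau _ _ (star_mem hd), ← TrAlg.tau_star, ← h2,
      TrAlg.tau_comm]
  have hbi : ∀ x, ∀ d ∈ D, ∀ d' ∈ D, E (d * x * d') = d * E x * d' := by
    intro x d hd d' hd'
    refine pe_unique (hmem _) (mul_mem (mul_mem hd (hmem x)) hd') fun f hf => ?_
    have h1 : ∀ z : A, TrAlg.tau (d * z * d' * f) = TrAlg.tau (z * (d' * f * d)) := by
      intro z
      rw [mul_assoc d z d', mul_assoc d, TrAlg.tau_comm d, mul_assoc, mul_assoc, mul_assoc]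
    rw [htau _ _ hf, h1, h1, htau _ _ (mul_mem (mul_mem hd' hf) hd)]
  have hpos : ∀ x, 0 ≤ x → 0 ≤ E x := by
    intro x hx
    have hsa : IsSelfAdjoint (E x) := by
      change star (E x) = E x
      rw [← hstar, (IsSelfAdjoint.of_nonneg hx).star_eq]
    refine nonneg_of_rt_conj D (hmem x) hsa fun d hd => ?_
    have h1 : ∀ z : A, TrAlg.tau (star d * z * d) = TrAlg.tau (z * (d * star d)) := by
      intro z
      rw [mul_assoc, TrAlg.tau_comm, mul_assoc]
    have h2 : rt (star d * E x * d) = rt (star d * x * d) := by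
      rw [rt_def, rt_def]
      rw [h1, h1, htau _ _ (mul_mem hd (star_mem hd))]
    rw [h2]
    exact rt_conj_nonneg hx d
  refine ⟨E, hmem, htau, hid, hstar, hbi, hpos, fun x => ?_⟩
  -- contractivity
  have h1 : 0 ≤ E (star (x - E x) * (x - E x)) := hpos _ (star_mul_self_nonneg _)
  have h2 : E (star (x - E x) * (x - E x)) = E (star x * x) - star (E x) * E x := by
    have e1 : star (x - E x) * (x - E x) = star x * x - 1 * star x * E x - star (E x) * x * 1 +
        star (E x) * E x := by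
      rw [star_sub]
      noncomm_ring
    rw [e1, map_add, map_sub, map_sub, hbi _ _ (one_mem D) _ (hmem x),
      hbi _ _ (star_mem (hmem x)) _ (one_mem D), hid _ (mul_mem (star_mem (hmem x)) (hmem x)), hstar]
    noncomm_ring
  rw [h2] at h1
  have h3 : star (E x) * E x ≤ E (star x * x) := sub_nonneg.1 h1
  have h4 : E (star x * x) ≤ (‖x‖ * ‖x‖) • (1 : A) := by
    have h5 := le_norm_smul_one (IsSelfAdjoint.star_mul_self x)
    rw [CStarRing.norm_star_mul_self] at h5
    have h6 := hpos _ (sub_nonneg.2 h5)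
    rw [map_sub, LinearMap.map_smul_of_tower, hid 1 (one_mem D)] at h6
    exact sub_nonneg.1 h6
  have h7 := CStarAlgebra.norm_le_norm_of_nonneg_of_le (star_mul_self_nonneg (E x)) (h3.trans h4)
  rw [CStarRing.norm_star_mul_self, norm_smul, Real.norm_of_nonneg (by positivity)] at h7
  have h8 : ‖E x‖ * ‖E x‖ ≤ ‖x‖ * ‖x‖ :=
    h7.trans (mul_le_of_le_one_right (by positivity) norm_one_le')
  exact abs_le_of_sq_le_sq' (by nlinarith) (norm_nonneg x) |>.2

end Pool.Agent.PTH
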