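import Pool.Agent.PTH.PaMain
import Pool.Agent.PTH.PaBr
import Pool.Agent.TFH.Stmt

/-!
# PTH PaFin: the main theorem in the language of the hand-in
-/

open Filter Topology
open scoped InnerProductSpace ComplexOrder

universe u

namespace Pool.Agent.PTH

theorem pa_final (M N : Type u) [CStarAlgebra M] [TFH.TracialVN M] [CStarAlgebra N]
    [TFH.TracialVN N] : TFH.MainStatement M N := by
  intro _ hT hN hH ω hω θ hθ
  let _ : PartialOrder N := CStarAlgebra.spectralOrder N
  have _ : StarOrderedRing N := CStarAlgebra.spectralOrderedRing N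
  let _ : TrAlg M := Br.trAlg M
  let _ : TracialVN N := Br.tracialVN N
  obtain ⟨e, he⟩ := Br.exists_emb ω θ hθ
  obtain ⟨D, hD, h⟩ := main hω (Br.propT hT) (Br.isII1 hN) (Br.haag hH) e
  refine ⟨D, hD, fun x => ?_⟩
  obtain ⟨y, hy, hl⟩ := h x
  obtain ⟨b, hb, hb'⟩ := he x y hl
  refine ⟨b, fun n => ?_, hb'⟩
  rw [hb]
  exact hy n

end Pool.Agent.PTH
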