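import Pool.Agent.PTH.PaVec
import Pool.Agent.PTH.AvC

/-!
# PTH PaGi: from the wall to the noisy gap

PROOF.  `Q(ξ) := c e(ξ) - ‖Δξ‖² = Re ⟪c Δξ - Δ²ξ, ξ⟫` (`Δ = 1 - T` self-adjoint, `en_eq`, `T_symm`), and
`‖cΔη - Δ²η‖ ≤ ‖η‖`: because `0 ≤ Δ ≤ 1` (as an operator `cΔ - Δ² = Δ(c - Δ)`, `‖Δ‖ ≤ 1`, `‖c - Δ‖ ≤ 1` for
`0 ≤ c ≤ 1`: `-(1-c) ≤ c - Δ ≤ c`; elementary: `‖Δη‖ ≤ ‖η‖` since `‖Δη‖² ≤ ⟪Δη, η⟫ ≤ ‖η‖²` from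
`norm_T_sq_le`; `‖(c - Δ)η‖² = c²‖η‖² - 2c⟪Δη,η⟫ + ‖Δη‖² ≤ c²‖η‖² + (1 - 2c)⟪Δη,η⟫ ≤ max(c², (1-c)²)‖η‖²`
as `‖Δη‖² ≤ ⟪Δη,η⟫`, `0 ≤ ⟪Δη,η⟫ ≤ ‖η‖²`).
Let `q = 1 - r`, `ξ_0 = q ξ q`, `ξ' = ξ - ξ_0 = r ξ + q ξ r`: `‖ξ'‖² ≤ ‖rξ‖² + ‖ξr‖²` (orthogonal: `⟪rξ, qξr⟫ = 0`;
`‖q ξ r‖ ≤ ‖ξ r‖`).  `ξ_0` has bounded densities (`Bdd_l`, `Bdd_r` of AvC), `r ξ_0 = 0 = ξ_0 r`.  So
`Q(ξ) = Q(ξ_0) + 2 Re ⟪(cΔ - Δ²)ξ_0, ξ'⟫ + Q(ξ') ≤ lam ‖ξ_0‖² + 2 ‖ξ_0‖ ‖ξ'‖ + ‖ξ'‖²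
 ≤ 2 lam ‖ξ‖² + (1 + 1/lam)(‖rξ‖² + ‖ξr‖²)` (`2ab ≤ lam a² + b²/lam`, `‖ξ_0‖ ≤ ‖ξ‖`), and
`⟪ξ, hξ⟫ + ⟪ξ, ξh⟫ = 2 lam ‖ξ‖² + (1 + 1/lam)(‖rξ‖² + ‖ξr‖²)` for `h = lam + (1 + 1/lam) r`.
-/

open Filter Topology
open scoped InnerProductSpace ComplexOrder

universe u

namespace Pool.Agent.PTH

variable {A : Type u} [CStarAlgebra A] [PartialOrder A] [StarOrderedRing A] [TracialVN A]

section priv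

variable (B : Bim.{u} A) (a : Avg A)

private theorem sa_d (x y : B.H) : ⟪x - B.T a x, y⟫_ℂ = ⟪x, y - B.T a y⟫_ℂ := by
  rw [inner_sub_left, inner_sub_right, B.T_symm]

private theorem d_facts (η : B.H) : ‖η - B.T a η‖ ^ 2 ≤ (⟪η, η - B.T a η⟫_ℂ).re ∧
    (⟪η, η - B.T a η⟫_ℂ).re ≤ ‖η‖ ^ 2 := by
  have h1 : ‖η - B.T a η‖ ^ 2 = ‖η‖ ^ 2 - 2 * (⟪η, B.T a η⟫_ℂ).re + ‖B.T a η‖ ^ 2 :=
    norm_sub_sq (𝕜 := ℂ) _ _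
  have h2 := B.norm_T_sq_le a η
  have h3 := B.T_pos a η
  have h4 : (⟪η, η - B.T a η⟫_ℂ).re = ‖η‖ ^ 2 - (⟪η, B.T a η⟫_ℂ).re := by
    rw [inner_sub_right, Complex.sub_re, B.re_inner_self]
  rw [h1, h4]
  constructor <;> linarith

private theorem m_le {c : ℝ} (hc : 0 ≤ c) (hc1 : c ≤ 1) (η : B.H) :
    ‖((c : ℂ) • η - (η - B.T a η)) - B.T a ((c : ℂ) • η - (η - B.T a η))‖ ≤ ‖η‖ := by
  obtain ⟨ζ, hζ⟩ : ∃ ζ, ζ = (c : ℂ) • η - (η - B.T a η) := ⟨_, rfl⟩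
  rw [← hζ]
  obtain ⟨h1, h2⟩ := d_facts B a ζ
  obtain ⟨h3, h4⟩ := d_facts B a η
  have h5 : ‖ζ‖ ^ 2 ≤ ‖η‖ ^ 2 := by
    have h6 : ‖(c : ℂ) • η - (η - B.T a η)‖ ^ 2 = ‖(c : ℂ) • η‖ ^ 2 -
        2 * (⟪(c : ℂ) • η, η - B.T a η⟫_ℂ).re + ‖η - B.T a η‖ ^ 2 := norm_sub_sq (𝕜 := ℂ) _ _
    rw [hζ, h6, inner_smul_left, Complex.conj_ofReal, Complex.re_ofReal_mul, norm_smul,
      Complex.norm_real, Real.norm_of_nonneg hc, mul_pow]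
    obtain ⟨d, hd⟩ : ∃ d, d = (⟪η, η - B.T a η⟫_ℂ).re := ⟨_, rfl⟩
    rw [← hd] at h3 h4 ⊢
    have hd0 : 0 ≤ d := (sq_nonneg _).trans h3
    rcases le_total (2 * c) 1 with h | h
    · have h7 := mul_le_mul_of_nonneg_left h4 (sub_nonneg.2 h)
      have h8 : 0 ≤ c * (2 - c) * ‖η‖ ^ 2 :=
        mul_nonneg (mul_nonneg hc (by linarith)) (sq_nonneg _)
      nlinarith
    · have h7 := mul_nonneg (sub_nonneg.2 h) hd0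
      have h8 : 0 ≤ (1 - c) * (1 + c) * ‖η‖ ^ 2 :=
        mul_nonneg (mul_nonneg (by linarith) (by linarith)) (sq_nonneg _)
      nlinarith
  exact (pow_le_pow_iff_left₀ (norm_nonneg _) (norm_nonneg _) two_ne_zero).1
    ((h1.trans h2).trans h5)

end priv

theorem gi_of_wall (a : Avg A) (c lam : ℝ) (hc : 0 ≤ c) (hc1 : c ≤ 1) (hlam : 0 < lam) {r : A}
    (hr : Prj r)
    (hw : ∀ (B : Bim.{u} A) (ξ : B.H), B.Bdd ξ → B.l r ξ = 0 → B.r r ξ = 0 →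
      c * B.en a ξ - ‖ξ - B.T a ξ‖ ^ 2 ≤ lam * ‖ξ‖ ^ 2) :
    GI a (lam • (1 : A) + (1 + 1 / lam) • r) c := by
  intro B ξ hξ
  obtain ⟨q, hq⟩ : ∃ q : A, q = 1 - r := ⟨_, rfl⟩
  have hrr := hr.2
  have hrq : r * q = 0 := by rw [hq, mul_sub, mul_one, hrr, sub_self]
  have hqr : q * r = 0 := by rw [hq, sub_mul, one_mul, hrr, sub_self]
  have hqp : Prj q := by
    refine ⟨by rw [hq, star_sub, star_one, hr.1], ?_⟩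
    nth_rewrite 1 [hq]
    rw [sub_mul, one_mul, hrq, sub_zero]
  have hqn := norm_proj_le hqp
  obtain ⟨ξ0, h0⟩ : ∃ ξ0, ξ0 = B.l q (B.r q ξ) := ⟨_, rfl⟩
  obtain ⟨ξ1, h1⟩ : ∃ ξ1, ξ1 = B.l r ξ + B.l q (B.r r ξ) := ⟨_, rfl⟩
  have hsum : ξ = ξ0 + ξ1 := by
    have e1 : B.l q (B.r q ξ) + B.l q (B.r r ξ) = B.l q ξ := by
      rw [← map_add, ← B.r_add, hq, sub_add_cancel, B.r_one]
    have e2 : B.l q ξ + B.l r ξ = ξ := by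
      rw [← B.l_add, hq, sub_add_cancel, B.l_one]
    rw [h0, h1, add_left_comm, e1, add_comm, e2]
  have hb0 : B.Bdd ξ0 := by
    rw [h0]
    exact B.Bdd_l (B.Bdd_r hξ _) _
  have hz1 : B.l r ξ0 = 0 := by
    rw [h0, ← B.l_mul, hrq]
    unfold Bim.l
    rw [map_zero, zero_apply]
  have hz2 : B.r r ξ0 = 0 := by
    rw [h0, ← B.l_r, ← B.r_mul, hqr]
    unfold Bim.r
    rw [MulOpposite.op_zero, map_zero, zero_apply, map_zero]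
  have hw0 := hw B ξ0 hb0 hz1 hz2
  have hn0 : ‖ξ0‖ ≤ ‖ξ‖ := by
    rw [h0]
    refine (B.norm_l_le _ _).trans ((mul_le_of_le_one_left (norm_nonneg _) hqn).trans ?_)
    exact (B.norm_r_le _ _).trans (mul_le_of_le_one_left (norm_nonneg _) hqn)
  have hn1 : ‖ξ1‖ ^ 2 ≤ ‖B.l r ξ‖ ^ 2 + ‖B.r r ξ‖ ^ 2 := by
    have e1 : ‖B.l r ξ + B.l q (B.r r ξ)‖ ^ 2 = ‖B.l r ξ‖ ^ 2 +
        2 * (⟪B.l r ξ, B.l q (B.r r ξ)⟫_ℂ).re + ‖B.l q (B.r r ξ)‖ ^ 2 := norm_add_sq (𝕜 := ℂ) _ _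
    have e2 : ⟪B.l r ξ, B.l q (B.r r ξ)⟫_ℂ = 0 := by
      rw [B.inner_l, hr.1, ← B.l_mul, hrq]
      unfold Bim.l
      rw [map_zero, zero_apply, inner_zero_right]
    have e3 : ‖B.l q (B.r r ξ)‖ ≤ ‖B.r r ξ‖ :=
      (B.norm_l_le _ _).trans (mul_le_of_le_one_left (norm_nonneg _) hqn)
    have e4 := pow_le_pow_left₀ (norm_nonneg _) e3 2
    rw [h1, e1, e2, Complex.zero_re]
    linarith
  -- the form of `M = D (c - D)`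
  obtain ⟨M, hM⟩ : ∃ M : B.H → B.H, ∀ η, M η =
      ((c : ℂ) • η - (η - B.T a η)) - B.T a ((c : ℂ) • η - (η - B.T a η)) := ⟨_, fun _ => rfl⟩
  have hMadd : ∀ x y, M (x + y) = M x + M y := by
    intro x y
    rw [hM, hM, hM]
    simp only [map_add, map_sub, smul_add]
    abel
  have hMn : ∀ η, ‖M η‖ ≤ ‖η‖ := fun η => by rw [hM]; exact m_le B a hc hc1 η
  have hQ : ∀ η, c * B.en a η - ‖η - B.T a η‖ ^ 2 = (⟪η, M η⟫_ℂ).re := by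
    intro η
    rw [hM, ← sa_d, inner_sub_right, inner_smul_right, Complex.sub_re, Complex.re_ofReal_mul,
      B.re_inner_self, sa_d, B.en_eq]
  have hb : ∀ x y, (⟪x, M y⟫_ℂ).re ≤ ‖x‖ * ‖y‖ := by
    intro x y
    refine (Complex.re_le_norm _).trans ((norm_inner_le_norm _ _).trans ?_)
    exact mul_le_mul_of_nonneg_left (hMn y) (norm_nonneg _)
  have hQs : (⟪ξ, M ξ⟫_ℂ).re ≤ lam * ‖ξ0‖ ^ 2 + 2 * (‖ξ0‖ * ‖ξ1‖) + ‖ξ1‖ ^ 2 := by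
    have e1 := hb ξ0 ξ1
    have e2 := hb ξ1 ξ0
    have e3 := hb ξ1 ξ1
    have e4 := hw0
    rw [hQ] at e4
    have e5 : (⟪ξ, M ξ⟫_ℂ).re = (⟪ξ0, M ξ0⟫_ℂ).re + (⟪ξ0, M ξ1⟫_ℂ).re +
        ((⟪ξ1, M ξ0⟫_ℂ).re + (⟪ξ1, M ξ1⟫_ℂ).re) := by
      rw [hsum, hMadd, inner_add_left, inner_add_right, inner_add_right, Complex.add_re,
        Complex.add_re, Complex.add_re]
    rw [e5]
    nlinarith
  have hl : (⟪ξ, B.l (lam • (1 : A) + (1 + 1 / lam) • r) ξ⟫_ℂ).re =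
      lam * ‖ξ‖ ^ 2 + (1 + 1 / lam) * ‖B.l r ξ‖ ^ 2 := by
    have e1 : ⟪ξ, B.l r ξ⟫_ℂ = ⟪B.l r ξ, B.l r ξ⟫_ℂ := by
      rw [B.inner_l, hr.1, ← B.l_mul, hrr]
    rw [← Complex.coe_smul, ← Complex.coe_smul, B.l_add, B.l_smul, B.l_smul, B.l_one,
      inner_add_right, inner_smul_right, inner_smul_right, Complex.add_re, Complex.re_ofReal_mul,
      Complex.re_ofReal_mul, e1, B.re_inner_self, B.re_inner_self]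
  have hrr' : (⟪ξ, B.r (lam • (1 : A) + (1 + 1 / lam) • r) ξ⟫_ℂ).re =
      lam * ‖ξ‖ ^ 2 + (1 + 1 / lam) * ‖B.r r ξ‖ ^ 2 := by
    have e1 : ⟪ξ, B.r r ξ⟫_ℂ = ⟪B.r r ξ, B.r r ξ⟫_ℂ := by
      rw [B.inner_r, hr.1, ← B.r_mul, hrr]
    rw [← Complex.coe_smul, ← Complex.coe_smul, B.r_add, B.r_smul, B.r_smul, B.r_one,
      inner_add_right, inner_smul_right, inner_smul_right, Complex.add_re, Complex.re_ofReal_mul,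
      Complex.re_ofReal_mul, e1, B.re_inner_self, B.re_inner_self]
  rw [hl, hrr']
  have hfin := hQ ξ
  have hab : 2 * (‖ξ0‖ * ‖ξ1‖) ≤ lam * ‖ξ0‖ ^ 2 + 1 / lam * ‖ξ1‖ ^ 2 := by
    have e1 : 0 ≤ 1 / lam * (lam * ‖ξ0‖ - ‖ξ1‖) ^ 2 := by positivity
    have e2 : 1 / lam * (lam * ‖ξ0‖ - ‖ξ1‖) ^ 2 =
        lam * ‖ξ0‖ ^ 2 - 2 * (‖ξ0‖ * ‖ξ1‖) + 1 / lam * ‖ξ1‖ ^ 2 := by
      field_simp
      ring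
    linarith
  have h2 : ‖ξ0‖ ^ 2 ≤ ‖ξ‖ ^ 2 := pow_le_pow_left₀ (norm_nonneg _) hn0 2
  have h3 := mul_le_mul_of_nonneg_left h2 hlam.le
  have h4 : (1 + 1 / lam) * ‖ξ1‖ ^ 2 ≤ (1 + 1 / lam) * (‖B.l r ξ‖ ^ 2 + ‖B.r r ξ‖ ^ 2) :=
    mul_le_mul_of_nonneg_left hn1 (by positivity)
  nlinarith

end Pool.Agent.PTH
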