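import Pool.Agent.PTH.PaDefs

/-!
# PTH PaVec: the biform of a vector of a bimodule

For `B : Bim A`, `ξ : B.H`, `κ = B.bf ξ`, `κ.k x y = ⟪ξ, x ξ y⟫` (`bf_k`).  AvB.lean has the calculus of
bimodules: `inner_l`, `inner_r`, `l_mul`, `r_mul`, `l_r`, `T_apply`, `inner_T`, `T_symm`, `en_eq`.

PROOFS.
* `bf_m`: `⟪ξ, ξ⟫ = ‖ξ‖²` (`l_one`, `r_one`).
* `norm_comm_sq`: `‖xξ - ξx‖² = ‖xξ‖² + ‖ξx‖² - 2 Re ⟪xξ, ξx⟫`, `‖xξ‖² = ⟪ξ, x*x ξ⟫ = κ(x*x, 1)`,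
  `‖ξx‖² = ⟪ξx, ξx⟫ = ⟪ξ, (ξ x) x*⟫ = κ(1, x x*)`, `⟪xξ, ξx⟫ = ⟪ξ, x* ξ x⟫ = κ(x*, x)`.
* `bf_E`: `en ξ = Re ⟪ξ, ξ - Tξ⟫` (`en_eq`), and `inner_T`.
* `bf_Q`: `‖ξ - Tξ‖² = ‖ξ‖² - 2 Re ⟪ξ, Tξ⟫ + ‖Tξ‖²` (`norm_sub_sq`), `Tξ = ∑ p_i u_i ξ u_i*` and
  `⟪u_i ξ u_i*, u_j ξ u_j*⟫ = ⟪ξ, u_i* u_j ξ u_j* u_i⟫`.
-/

open Filter Topology
open scoped InnerProductSpace ComplexOrder

universe u

namespace Pool.Agent.PTH

namespace Bim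

variable {A : Type u} [CStarAlgebra A] (B : Bim.{u} A)

theorem re_inner_self (ξ : B.H) : (⟪ξ, ξ⟫_ℂ).re = ‖ξ‖ ^ 2 := by
  rw [inner_self_eq_norm_sq_to_K]
  norm_cast

theorem bf_m (ξ : B.H) : (B.bf ξ).m = ‖ξ‖ ^ 2 := by
  unfold Bf.m
  rw [bf_k, l_one, r_one, re_inner_self]

theorem norm_comm_sq (x : A) (ξ : B.H) :
    ‖B.l x ξ - B.r x ξ‖ ^ 2 = ((B.bf ξ).k (star x * x) 1).re + ((B.bf ξ).k 1 (x * star x)).re -
      2 * ((B.bf ξ).k (star x) x).re := by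
  have h1 : (⟪B.l x ξ, B.l x ξ⟫_ℂ).re = ((B.bf ξ).k (star x * x) 1).re := by
    rw [bf_k, r_one, inner_l, ← l_mul]
  have h2 : (⟪B.r x ξ, B.r x ξ⟫_ℂ).re = ((B.bf ξ).k 1 (x * star x)).re := by
    rw [bf_k, l_one, inner_r, ← r_mul]
  have h3 : (⟪B.l x ξ, B.r x ξ⟫_ℂ).re = ((B.bf ξ).k (star x) x).re := by
    rw [bf_k, inner_l]
  have h4 : (⟪B.r x ξ, B.l x ξ⟫_ℂ).re = ((B.bf ξ).k (star x) x).re := by
    rw [← h3, ← inner_conj_symm (B.l x ξ), Complex.conj_re]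
  rw [← re_inner_self, inner_sub_left, inner_sub_right, inner_sub_right, Complex.sub_re,
    Complex.sub_re, Complex.sub_re, h1, h2, h3, h4]
  ring

theorem re_inner_T (a : Avg A) (ξ : B.H) :
    (⟪ξ, B.T a ξ⟫_ℂ).re = ∑ i, a.p i * ((B.bf ξ).k (a.u i) (star (a.u i))).re := by
  rw [inner_T, Complex.re_sum]
  refine Finset.sum_congr rfl fun i _ => ?_
  rw [Complex.re_ofReal_mul, bf_k]

theorem bf_E (a : Avg A) (ξ : B.H) : (B.bf ξ).E a = B.en a ξ := by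
  have h1 : ((B.bf ξ).k 1 1).re = ‖ξ‖ ^ 2 := B.bf_m ξ
  rw [en_eq, inner_sub_right, Complex.sub_re, re_inner_T, re_inner_self]
  unfold Bf.E
  simp only [mul_sub]
  rw [Finset.sum_sub_distrib, ← Finset.sum_mul, a.p_sum, one_mul, h1]

theorem bf_Q (a : Avg A) (ξ : B.H) : (B.bf ξ).Q a = ‖ξ - B.T a ξ‖ ^ 2 := by
  have h1 : ((B.bf ξ).k 1 1).re = ‖ξ‖ ^ 2 := B.bf_m ξ
  have h2 : (⟪B.T a ξ, B.T a ξ⟫_ℂ).re =
      ∑ i, ∑ j, a.p i * a.p j * ((B.bf ξ).k (star (a.u i) * a.u j) (star (a.u j) * a.u i)).re := by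
    rw [T_apply, sum_inner, Complex.re_sum]
    refine Finset.sum_congr rfl fun i _ => ?_
    rw [inner_sum, Complex.re_sum]
    refine Finset.sum_congr rfl fun j _ => ?_
    rw [inner_smul_left, inner_smul_right, Complex.conj_ofReal, Complex.re_ofReal_mul,
      Complex.re_ofReal_mul, bf_k, inner_l, inner_r, star_star, l_mul, r_mul, ← l_r, ← l_r, mul_assoc]
  rw [← re_inner_self, inner_sub_left, inner_sub_right, inner_sub_right, Complex.sub_re,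
    Complex.sub_re, Complex.sub_re, T_symm, re_inner_self, h2, re_inner_T]
  unfold Bf.Q
  rw [h1]
  ring

end Bim

end Pool.Agent.PTH
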