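import Pool.Agent.PTH.PaBf
import Pool.Agent.PTH.BmB
import Pool.Agent.PTH.PaVec

/-!
# PTH PaGnsB: the bimodule of a biform

PROOF of `exists_bim`.  helper86's proved module `Pool/Agent/PTH/BmB.lean` (`exists_gns`; `BPos κ.k` is `κ.pos`) gives for
the positive `κ.k` (field `κ.pos`) a bimodule `B : Bim.{u} A` and `ξ : B.H` with
`⟪ξ, B.l x (B.r y ξ)⟫ = κ.k x y` and the span of the vectors `x ξ y` dense.
NORMALITY (`Dom`): let `ξ' = ∑ x_i ξ y_i`; for `‖x‖ ≤ 1`: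
`‖x x_i ξ y_i‖ ≤ ‖y_i‖ ‖x x_i ξ‖ ≤ ‖y_i‖ two (x x_i) ≤ ‖y_i‖ two x ‖x_i‖` (by `Dom`:
`‖z ξ‖² = κ(z* z, 1) ≤ (two z)²`; `Bim.norm_r_le`), similarly on the right
(`‖ξ z‖² = κ(1, z z*) = κ(1, (z*)* z*) ≤ two (star z) ^ 2`).  So the normality condition holds for `ξ'` in
the dense span (`Submodule.span_induction`, the condition is stable under sums and scalars); for general
`η`: `‖x η‖ ≤ ‖η - ξ'‖ + ‖x ξ'‖` for `‖x‖ ≤ 1` (`Bim.norm_l_le`, `Bim.norm_r_le`).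
-/

open Filter Topology
open scoped InnerProductSpace ComplexOrder

universe u

namespace Pool.Agent.PTH

namespace Bf

variable {A : Type u} [CStarAlgebra A]

/-- The bimodule of a biform with densities at most `1`: it is normal. -/
theorem exists_bim [TrAlg A] (κ : Bf A) (h : κ.Dom) :
    ∃ (B : Bim.{u} A) (ξ : B.H), B.Normal ∧ ∀ x y, (B.bf ξ).k x y = κ.k x y := by
  obtain ⟨B, ξ, h1, h2⟩ := exists_gns (κ := κ.k) κ.pos
  have hl : ∀ z : A, ‖B.l z ξ‖ ≤ two z := by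
    intro z
    have e : ‖B.l z ξ‖ ^ 2 = (κ.k (star z * z) 1).re := by
      rw [← B.re_inner_self, Bim.inner_l, ← Bim.l_mul, ← h1, Bim.r_one]
    have e2 := (h z).1
    rw [← e] at e2
    exact (pow_le_pow_iff_left₀ (norm_nonneg _) (two_nonneg _) two_ne_zero).1 e2
  have hr : ∀ z : A, ‖B.r z ξ‖ ≤ two z := by
    intro z
    have e : ‖B.r z ξ‖ ^ 2 = (κ.k 1 (z * star z)).re := by
      rw [← B.re_inner_self, Bim.inner_r, ← Bim.r_mul, ← h1, Bim.l_one]
    have e2 := (h (star z)).2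
    rw [star_star, ← e, two_star] at e2
    exact (pow_le_pow_iff_left₀ (norm_nonneg _) (two_nonneg _) two_ne_zero).1 e2
  have hspan : ∀ η ∈ Submodule.span ℂ (Set.range fun p : A × A => B.l p.1 (B.r p.2 ξ)),
      ∃ C : ℝ, 0 ≤ C ∧ ∀ x : A, ‖B.l x η‖ ≤ C * two x ∧ ‖B.r x η‖ ≤ C * two x := by
    intro η hη
    induction hη using Submodule.span_induction with
    | mem η hη =>
      obtain ⟨p, rfl⟩ := hη
      refine ⟨‖p.1‖ * ‖p.2‖, by positivity, fun x => ⟨?_, ?_⟩⟩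
      · show ‖B.l x (B.l p.1 (B.r p.2 ξ))‖ ≤ _
        rw [← Bim.l_mul, Bim.l_r]
        calc ‖B.r p.2 (B.l (x * p.1) ξ)‖ ≤ ‖p.2‖ * ‖B.l (x * p.1) ξ‖ := B.norm_r_le _ _
          _ ≤ ‖p.2‖ * (two x * ‖p.1‖) :=
            mul_le_mul_of_nonneg_left ((hl _).trans (two_mul_le' _ _)) (norm_nonneg _)
          _ = ‖p.1‖ * ‖p.2‖ * two x := by ring
      · show ‖B.r x (B.l p.1 (B.r p.2 ξ))‖ ≤ _
        rw [← Bim.l_r, ← Bim.r_mul]
        calc ‖B.l p.1 (B.r (p.2 * x) ξ)‖ ≤ ‖p.1‖ * ‖B.r (p.2 * x) ξ‖ := B.norm_l_le _ _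
          _ ≤ ‖p.1‖ * (‖p.2‖ * two x) :=
            mul_le_mul_of_nonneg_left ((hr _).trans (two_mul_le _ _)) (norm_nonneg _)
          _ = ‖p.1‖ * ‖p.2‖ * two x := by ring
    | zero =>
      refine ⟨0, le_rfl, fun x => ⟨?_, ?_⟩⟩
      · rw [map_zero, norm_zero, zero_mul]
      · rw [map_zero, norm_zero, zero_mul]
    | add η η' _ _ ih ih' =>
      obtain ⟨C, hC, hC1⟩ := ih
      obtain ⟨C', hC', hC1'⟩ := ih'
      refine ⟨C + C', by positivity, fun x => ⟨?_, ?_⟩⟩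
      · rw [map_add, add_mul]
        exact (norm_add_le _ _).trans (add_le_add (hC1 x).1 (hC1' x).1)
      · rw [map_add, add_mul]
        exact (norm_add_le _ _).trans (add_le_add (hC1 x).2 (hC1' x).2)
    | smul c η _ ih =>
      obtain ⟨C, hC, hC1⟩ := ih
      refine ⟨‖c‖ * C, by positivity, fun x => ⟨?_, ?_⟩⟩
      · rw [map_smul, norm_smul, mul_assoc]
        exact mul_le_mul_of_nonneg_left (hC1 x).1 (norm_nonneg _)
      · rw [map_smul, norm_smul, mul_assoc]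
        exact mul_le_mul_of_nonneg_left (hC1 x).2 (norm_nonneg _)
  refine ⟨B, ξ, fun η ε hε => ?_, fun x y => ?_⟩
  · obtain ⟨η', hη', hd⟩ := Metric.dense_iff.1 h2 η (ε / 2) (by positivity)
    obtain ⟨C, hC, hC1⟩ := hspan η' hd
    rw [Metric.mem_ball, dist_comm, dist_eq_norm] at hη'
    refine ⟨ε / (2 * (C + 1)), by positivity, fun x hx hx2 => ?_⟩
    have h3 : C * two x ≤ ε / 2 := by
      calc C * two x ≤ (C + 1) * (ε / (2 * (C + 1))) := by
            refine mul_le_mul (by linarith) hx2 (two_nonneg _) (by positivity)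
        _ = ε / 2 := by
            field_simp
    have h4 : ‖x‖ * ‖η - η'‖ ≤ ε / 2 := by
      calc ‖x‖ * ‖η - η'‖ ≤ 1 * ‖η - η'‖ := mul_le_mul_of_nonneg_right hx (norm_nonneg _)
        _ ≤ ε / 2 := by rw [one_mul]; exact hη'.le
    constructor
    · calc ‖B.l x η‖ = ‖B.l x (η - η') + B.l x η'‖ := by rw [← map_add, sub_add_cancel]
        _ ≤ ‖B.l x (η - η')‖ + ‖B.l x η'‖ := norm_add_le _ _
        _ ≤ ε / 2 + ε / 2 := add_le_add ((B.norm_l_le _ _).trans h4) ((hC1 x).1.trans h3)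
        _ = ε := by ring
    · calc ‖B.r x η‖ = ‖B.r x (η - η') + B.r x η'‖ := by rw [← map_add, sub_add_cancel]
        _ ≤ ‖B.r x (η - η')‖ + ‖B.r x η'‖ := norm_add_le _ _
        _ ≤ ε / 2 + ε / 2 := add_le_add ((B.norm_r_le _ _).trans h4) ((hC1 x).2.trans h3)
        _ = ε := by ring
  · rw [Bim.bf_k]
    exact h1 x y

end Bf

end Pool.Agent.PTH
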