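import Pool.Agent.PTH.PaDefs
import Pool.Agent.PTH.Tb3

/-!
# PTH PaGr: greedy exhaustion in the order interval `[0, 1]`

THEOREM.  `S ⊆ [0,1]` contains `0` and is closed under those sums which stay `≤ 1`.  Then there is
`D ∈ [0,1]`, a limit from below of members of `S`, such that no non-zero `D' ∈ S` satisfies `D + D' ≤ 1`.

PROOF.  For `D ∈ S` let `σ(D) = sup {rt D' : D' ∈ S, D + D' ≤ 1} ∈ [0, 1]` (non-empty: `D' = 0`; `rt D' ≤ rt 1 = 1`).
Choose (subtype recursion, `exists_lt_of_lt_csSup` or a definition by cases) `next D ∈ S` with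
`D + next D ≤ 1` and `rt (next D) ≥ σ(D) / 2`.  `D_0 = 0`, `D_{j+1} = D_j + next D_j ∈ S`.  `D_j` is increasing
in `[0,1]`: 2-norm limit `D`, `D_j ≤ D`, `0 ≤ D ≤ 1` (`mono_lim` in Tb3, `lim_le` in Tb2), `rt D_j → rt D`
(`lim_rt`), which gives the third clause.  `∑_j rt (next D_j) = lim rt D_j ≤ 1`, so `rt (next D_j) → 0`, hence
`σ(D_j) → 0`.  If `D' ∈ S`, `D + D' ≤ 1`, then `D_j + D' ≤ 1`, so `rt D' ≤ σ(D_j)` for all `j`; `rt D' = 0`;
`D' = 0` by `eq_zero_of_rt`.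
-/

open Filter Topology
open scoped InnerProductSpace ComplexOrder

universe u

namespace Pool.Agent.PTH

variable {A : Type u} [CStarAlgebra A] [PartialOrder A] [StarOrderedRing A] [TracialVN A]

theorem pa_greedy (S : Set A) (h0 : (0 : A) ∈ S) (hpos : ∀ D ∈ S, 0 ≤ D ∧ D ≤ 1)
    (hadd : ∀ D ∈ S, ∀ D' ∈ S, D + D' ≤ 1 → D + D' ∈ S) :
    ∃ D : A, 0 ≤ D ∧ D ≤ 1 ∧ (∀ ε : ℝ, 0 < ε → ∃ D' ∈ S, D' ≤ D ∧ rt D ≤ rt D' + ε) ∧
      ∀ D' ∈ S, D + D' ≤ 1 → D' = 0 := by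
  obtain ⟨V, hV⟩ : ∃ V : A → Set ℝ, ∀ D, V D = {r | ∃ D' ∈ S, D + D' ≤ 1 ∧ r = rt D'} :=
    ⟨_, fun _ => rfl⟩
  have hbdd : ∀ D, BddAbove (V D) := by
    intro D
    refine ⟨1, ?_⟩
    rw [hV]
    rintro _ ⟨D', h1, -, rfl⟩
    have h2 := rt_mono (hpos D' h1).2
    rwa [rt_one] at h2
  have hnext : ∀ D : {D : A // D ∈ S}, ∃ D' : {D : A // D ∈ S}, (D : A) + D' ≤ 1 ∧
      sSup (V D) ≤ 2 * rt (D' : A) := by
    intro D
    rcases le_or_gt (sSup (V D)) 0 with h | h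
    · refine ⟨⟨0, h0⟩, ?_, ?_⟩
      · show (D : A) + 0 ≤ 1
        rw [add_zero]
        exact (hpos D D.2).2
      · show sSup (V D) ≤ 2 * rt (0 : A)
        rwa [rt_zero, mul_zero]
    · have hne : (V D).Nonempty := by
        by_contra hc
        rw [Set.not_nonempty_iff_eq_empty] at hc
        rw [hc, Real.sSup_empty] at h
        exact lt_irrefl _ h
      obtain ⟨r, hr, hr2⟩ := exists_lt_of_lt_csSup hne (show sSup (V D) / 2 < sSup (V D) by linarith)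
      rw [hV] at hr
      obtain ⟨D', h1, h2, rfl⟩ := hr
      exact ⟨⟨D', h1⟩, h2, by
        show sSup (V D) ≤ 2 * rt D'
        linarith⟩
  choose nx hnx1 hnx2 using hnext
  obtain ⟨d, hd0, hds⟩ : ∃ d : ℕ → {D : A // D ∈ S}, d 0 = ⟨0, h0⟩ ∧
      ∀ n, (d (n + 1) : A) = d n + nx (d n) :=
    ⟨fun n => Nat.rec ⟨0, h0⟩ (fun _ D => ⟨D + nx D, hadd D D.2 (nx D) (nx D).2 (hnx1 D)⟩) n,
      rfl, fun _ => rfl⟩
  have hm : Monotone fun n => (d n : A) := by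
    refine monotone_nat_of_le_succ fun n => ?_
    show (d n : A) ≤ (d (n + 1) : A)
    rw [hds]
    exact le_add_of_nonneg_right (hpos _ (nx (d n)).2).1
  obtain ⟨D, hD0, hD1, hDle, hDlim⟩ := mono_lim (x := fun n => (d n : A)) (C := 1) zero_le_one hm
    (hpos _ (d 0).2).1 (fun n => by rw [one_smul]; exact (hpos _ (d n).2).2)
  rw [one_smul] at hD1
  have hrt := lim_rt hDlim
  refine ⟨D, hD0, hD1, ?_, ?_⟩
  · intro ε hε
    have h1 : ∀ᶠ n in atTop, rt D - ε < rt (d n : A) :=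
      hrt.eventually_const_lt (by linarith)
    obtain ⟨n, hn⟩ := h1.exists
    exact ⟨d n, (d n).2, hDle n, by linarith⟩
  · intro D' hD' hle
    have h1 : ∀ n, rt D' ≤ 2 * (rt (d (n + 1) : A) - rt (d n : A)) := by
      intro n
      have h2 : rt D' ∈ V (d n) := by
        rw [hV]
        exact ⟨D', hD', (add_le_add_left (hDle n) D').trans hle, rfl⟩
      have h3 := le_csSup (hbdd _) h2
      have h4 := hnx2 (d n)
      rw [hds, rt_add]
      linarith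
    have h2 : Tendsto (fun n => 2 * (rt (d (n + 1) : A) - rt (d n : A))) atTop (𝓝 0) := by
      have h3 := ((hrt.comp (tendsto_add_atTop_nat 1)).sub hrt).const_mul 2
      rw [sub_self, mul_zero] at h3
      exact h3
    have h3 : rt D' ≤ 0 := ge_of_tendsto' h2 h1
    have h4 := (hpos D' hD').1
    exact eq_zero_of_rt h4 (le_antisymm h3 (rt_nonneg h4))

end Pool.Agent.PTH
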