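import Pool.Agent.PTH.PaPos
import Pool.Agent.PTH.TbRN

/-!
# PTH PaHa1: trace preserving completely positive maps and their adjoints

PROOFS.  `CP φ`: `∑ y_i* φ(x_i* x_j) y_j ≥ 0`.
* `cp_pos`: `n = 1`, `y = 1`; every `x ≥ 0` is `z* z`.
* `cp_star`: positive maps are *-preserving: `x` self-adjoint is a difference of positive elements
  (`x = (‖x‖ + x) - ‖x‖`), so `φ x` is self-adjoint; general `x` by real and imaginary parts.
* `cp_schwarz` (Kadison-Schwarz): `n = 2`, `x = (1, x)`, `y = (-φ(x), 1)`: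
  `φ(x)* φ(1) φ(x) - 2 φ(x)* φ(x) + φ(x* x) ≥ 0` and `φ(1) ≤ 1`.
* `tp_one`: `τ(1 - φ(1)) = 0`, `1 - φ(1) ≥ 0`: `φ(1) = 1`.
* `tp_two`: `(two (φ x))² = rt (φ(x)* φ(x)) ≤ rt (φ (x* x)) = (two x)²`.
* `exists_adj`: for `y ≥ 0` the functional `x ↦ τ(φ(x) y)` is positive and `≤ ‖y‖ τ(x)` on positive `x`
  (`rt_mul_le_norm`, trace preserving), so by Radon-Nikodym (`radonNikodym` in TbRN) it is `τ(x z)`; `z` is
  unique (faithfulness); general `y` = combination of four positive elements; so `z =: ψ(y)` exists and is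
  unique for all `y`, `ψ` is linear by uniqueness.  `ψ(1) = 1`: `τ(φ(x) 1) = τ(x)`.
  `τ(ψ(y)) = τ(φ(1) y) = τ(y)`.  `CP ψ`: let `w = ∑_ij b_i* ψ(a_i* a_j) b_j`; for every `c`, with
  `e_j = b_j c`: `τ(c* w c) = ∑_ij τ(ψ(a_i* a_j) e_j e_i*) = ∑_ij τ(φ(e_j e_i*) a_i* a_j)
  = ∑_ij τ(a_j φ(e_j e_i*) a_i*)`, which is `τ` of the element `∑_ji (a_j*)* φ((e_j*)* (e_i*)) (a_i*) ≥ 0`
  (`CP φ` with `x_j := e_j*`, `y_j := a_j*`).  So `w ≥ 0` by `sa_of_rt_im`, `nonneg_of_rt_conj'`.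
-/

open Filter Topology
open scoped InnerProductSpace ComplexOrder

universe u

namespace Pool.Agent.PTH

variable {A : Type u} [CStarAlgebra A] [PartialOrder A] [StarOrderedRing A] [TracialVN A]

private theorem sa_dec {y : A} (hy : IsSelfAdjoint y) :
    0 ≤ ‖y‖ • (1 : A) ∧ 0 ≤ ‖y‖ • (1 : A) - y :=
  ⟨smul_nonneg (norm_nonneg _) zero_le_one, sub_nonneg.2 (le_norm_smul_one hy)⟩

theorem cp_pos {φ : A →ₗ[ℂ] A} (h : CP φ) {x : A} (hx : 0 ≤ x) : 0 ≤ φ x := by
  obtain ⟨z, rfl⟩ := CStarAlgebra.nonneg_iff_eq_star_mul_self.1 hx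
  have h1 := h 1 (fun _ => z) (fun _ => 1)
  simpa using h1

theorem cp_star {φ : A →ₗ[ℂ] A} (h : CP φ) (x : A) : φ (star x) = star (φ x) := by
  have hsa : ∀ y : A, IsSelfAdjoint y → IsSelfAdjoint (φ y) := by
    intro y hy
    obtain ⟨p1, p2⟩ := sa_dec hy
    have e : φ y = φ (‖y‖ • (1 : A)) - φ (‖y‖ • (1 : A) - y) := by
      rw [← map_sub]
      congr 1
      abel
    rw [e]
    exact (IsSelfAdjoint.of_nonneg (cp_pos h p1)).sub (IsSelfAdjoint.of_nonneg (cp_pos h p2))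
  have e := realPart_add_I_smul_imaginaryPart x
  have h1 := (hsa _ (realPart x).2).star_eq
  have h2 := (hsa _ (imaginaryPart x).2).star_eq
  have h3 : star ((realPart x : selfAdjoint A) : A) = (realPart x : A) := (realPart x).2.star_eq
  have h4 : star ((imaginaryPart x : selfAdjoint A) : A) = (imaginaryPart x : A) :=
    (imaginaryPart x).2.star_eq
  rw [← e, star_add, star_smul, map_add, map_smul, map_add, map_smul, star_add, star_smul, h1, h2,
    h3, h4]

theorem cp_schwarz {φ : A →ₗ[ℂ] A} (h : CP φ) (h1 : φ 1 ≤ 1) (x : A) :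
    star (φ x) * φ x ≤ φ (star x * x) := by
  have h2 := h 2 ![1, x] ![-φ x, 1]
  simp only [Fin.sum_univ_two, Matrix.cons_val_zero, Matrix.cons_val_one] at h2
  simp only [star_one, one_mul, mul_one, star_neg, neg_mul, mul_neg, neg_neg, cp_star h] at h2
  have h3 : star (φ x) * φ 1 * φ x ≤ star (φ x) * φ x := by
    have := star_left_conjugate_le_conjugate h1 (φ x)
    rwa [mul_one] at this
  have h4 : star (φ x) * φ x + star (φ x) * φ x ≤ star (φ x) * φ 1 * φ x + φ (star x * x) := by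
    rw [← sub_nonneg]
    have e : star (φ x) * φ 1 * φ x + φ (star x * x) - (star (φ x) * φ x + star (φ x) * φ x) =
      star (φ x) * φ 1 * φ x + -(star (φ x) * φ x) + (-(star (φ x) * φ x) + φ (star x * x)) := by
      abel
    rw [e]
    exact h2
  exact (add_le_add_iff_left _).1 (h4.trans (add_le_add_left h3 _))

theorem tp_one {φ : A →ₗ[ℂ] A} (h1 : φ 1 ≤ 1)
    (ht : ∀ x, TrAlg.tau (φ x) = TrAlg.tau x) : φ 1 = 1 := by
  have h2 : 0 ≤ 1 - φ 1 := sub_nonneg.2 h1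
  have h3 : rt (1 - φ 1) = 0 := by
    rw [rt_sub, rt_def (φ 1), ht, ← rt_def, sub_self]
  exact (sub_eq_zero.1 (eq_zero_of_rt h2 h3)).symm

theorem tp_two {φ : A →ₗ[ℂ] A} (h : CP φ) (h1 : φ 1 ≤ 1)
    (ht : ∀ x, TrAlg.tau (φ x) = TrAlg.tau x) (x : A) : two (φ x) ≤ two x := by
  have h2 : two (φ x) ^ 2 ≤ two x ^ 2 := by
    rw [two_sq_rt, two_sq_rt]
    have h3 := rt_mono (cp_schwarz h h1 x)
    have h4 : rt (φ (star x * x)) = rt (star x * x) := by
      rw [rt_def, ht, ← rt_def]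
    rwa [h4] at h3
  exact (pow_le_pow_iff_left₀ (two_nonneg _) (two_nonneg _) two_ne_zero).1 h2

private theorem tau_real {x : A} (hx : 0 ≤ x) : (TrAlg.tau x).im = 0 := by
  rw [tau_eq_rt (IsSelfAdjoint.of_nonneg hx), Complex.ofReal_im]

private theorem tau_uniq {z z' : A} (h : ∀ x, TrAlg.tau (x * z) = TrAlg.tau (x * z')) : z = z' := by
  have h1 := h (star (z - z'))
  have h2 : TrAlg.tau (star (z - z') * (z - z')) = 0 := by
    rw [mul_sub, map_sub, h1, sub_self]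
  exact sub_eq_zero.1 (TrAlg.tau_faithful _ h2)

private theorem adj_pos {φ : A →ₗ[ℂ] A} (h : CP φ)
    (ht : ∀ x, TrAlg.tau (φ x) = TrAlg.tau x) {y : A} (hy : 0 ≤ y) :
    ∃ z : A, ∀ x, TrAlg.tau (φ x * y) = TrAlg.tau (x * z) := by
  let f : A →ₗ[ℂ] ℂ := TrAlg.tau ∘ₗ (LinearMap.mulRight ℂ y) ∘ₗ φ
  have hf : ∀ x, f x = TrAlg.tau (φ x * y) := fun x => rfl
  obtain ⟨d, -, -, hd⟩ := radonNikodym f ‖y‖ (norm_nonneg _) (by
    intro x hx
    have hp := cp_pos h hx
    rw [hf]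
    refine ⟨rt_mul_nonneg hp hy, ?_, ?_⟩
    · have h1 : star (TrAlg.tau (φ x * y)) = TrAlg.tau (φ x * y) := by
        rw [← TrAlg.tau_star, star_mul, (IsSelfAdjoint.of_nonneg hy).star_eq,
          (IsSelfAdjoint.of_nonneg hp).star_eq, TrAlg.tau_comm]
      exact Complex.conj_eq_iff_im.1 h1
    · have h1 := rt_mul_le_norm hp (IsSelfAdjoint.of_nonneg hy)
      have h2 : rt (φ x) = rt x := by
        rw [rt_def, ht, ← rt_def]
      rw [h2] at h1
      exact h1)
  exact ⟨d, fun x => by rw [← hf, hd]⟩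

private theorem adj_sa {φ : A →ₗ[ℂ] A} (h : CP φ)
    (ht : ∀ x, TrAlg.tau (φ x) = TrAlg.tau x) {y : A} (hy : IsSelfAdjoint y) :
    ∃ z : A, ∀ x, TrAlg.tau (φ x * y) = TrAlg.tau (x * z) := by
  obtain ⟨p1, p2⟩ := sa_dec hy
  obtain ⟨z1, h1⟩ := adj_pos h ht p1
  obtain ⟨z2, h2⟩ := adj_pos h ht p2
  refine ⟨z1 - z2, fun x => ?_⟩
  have e : y = ‖y‖ • (1 : A) - (‖y‖ • (1 : A) - y) := by abel
  rw [mul_sub, map_sub, ← h1, ← h2, ← map_sub, ← mul_sub, ← e]

private theorem adj_all {φ : A →ₗ[ℂ] A} (h : CP φ)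
    (ht : ∀ x, TrAlg.tau (φ x) = TrAlg.tau x) (y : A) :
    ∃ z : A, ∀ x, TrAlg.tau (φ x * y) = TrAlg.tau (x * z) := by
  obtain ⟨z1, h1⟩ := adj_sa h ht (realPart y).2
  obtain ⟨z2, h2⟩ := adj_sa h ht (imaginaryPart y).2
  refine ⟨z1 + Complex.I • z2, fun x => ?_⟩
  have e := realPart_add_I_smul_imaginaryPart y
  rw [mul_add, mul_smul_comm, map_add, map_smul, ← h1, ← h2, ← map_smul, ← map_add,
    ← mul_smul_comm, ← mul_add, e]

theorem exists_adj {φ : A →ₗ[ℂ] A} (h : CP φ) (h1 : φ 1 ≤ 1)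
    (ht : ∀ x, TrAlg.tau (φ x) = TrAlg.tau x) :
    ∃ ψ : A →ₗ[ℂ] A, CP ψ ∧ ψ 1 ≤ 1 ∧ (∀ x, TrAlg.tau (ψ x) = TrAlg.tau x) ∧
      ∀ x y, TrAlg.tau (φ x * y) = TrAlg.tau (x * ψ y) := by
  choose f hf using adj_all h ht
  have hone : φ 1 = 1 := tp_one h1 ht
  let ψ : A →ₗ[ℂ] A :=
    { toFun := f
      map_add' := fun y y' => by
        refine tau_uniq fun x => ?_
        rw [← hf, mul_add, map_add, hf, hf, ← map_add, ← mul_add]
      map_smul' := fun c y => by
        refine tau_uniq fun x => ?_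
        rw [← hf, mul_smul_comm, map_smul, hf, ← map_smul, ← mul_smul_comm]
        rfl }
  have hψ : ∀ x y, TrAlg.tau (φ x * y) = TrAlg.tau (x * ψ y) := fun x y => hf y x
  have hψ1 : ψ 1 = 1 := by
    refine tau_uniq fun x => ?_
    rw [← hψ, mul_one, mul_one, ht]
  refine ⟨ψ, ?_, hψ1.le, ?_, hψ⟩
  · intro n a b
    have key : ∀ c : A, TrAlg.tau (star c * (∑ i, ∑ j, star (b i) * ψ (star (a i) * a j) * b j) * c) =
        TrAlg.tau (∑ j, ∑ i, star (star (a j)) *
          φ (star (star (b j * c)) * star (b i * c)) * star (a i)) := by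
      intro c
      rw [Finset.sum_comm]
      simp only [Finset.mul_sum, Finset.sum_mul, map_sum]
      refine Finset.sum_congr rfl fun j _ => Finset.sum_congr rfl fun i _ => ?_
      rw [star_star, star_star]
      calc TrAlg.tau (star c * (star (b i) * ψ (star (a i) * a j) * b j) * c) =
          TrAlg.tau ((star c * star (b i)) * (ψ (star (a i) * a j) * (b j * c))) := by
            simp only [mul_assoc]
        _ = TrAlg.tau ((ψ (star (a i) * a j) * (b j * c)) * (star c * star (b i))) :=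
            TrAlg.tau_comm _ _
        _ = TrAlg.tau (ψ (star (a i) * a j) * ((b j * c) * star (b i * c))) := by
            rw [star_mul, mul_assoc]
        _ = TrAlg.tau (((b j * c) * star (b i * c)) * ψ (star (a i) * a j)) :=
            TrAlg.tau_comm _ _
        _ = TrAlg.tau (φ ((b j * c) * star (b i * c)) * (star (a i) * a j)) := (hψ _ _).symm
        _ = TrAlg.tau ((φ ((b j * c) * star (b i * c)) * star (a i)) * a j) := by
            rw [mul_assoc (φ _)]
        _ = TrAlg.tau (a j * (φ ((b j * c) * star (b i * c)) * star (a i))) :=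
            TrAlg.tau_comm _ _
        _ = TrAlg.tau (a j * φ ((b j * c) * star (b i * c)) * star (a i)) := by
            rw [mul_assoc (a j)]
    have hpos : ∀ c : A, 0 ≤ ∑ j, ∑ i, star (star (a j)) *
          φ (star (star (b j * c)) * star (b i * c)) * star (a i) := fun c =>
      h n (fun j => star (b j * c)) (fun j => star (a j))
    have hsa : IsSelfAdjoint (∑ i, ∑ j, star (b i) * ψ (star (a i) * a j) * b j) :=
      sa_of_rt_im fun c => by rw [key]; exact tau_real (hpos c)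
    refine nonneg_of_rt_conj' hsa fun c => ?_
    rw [rt_def, key, ← rt_def]
    exact rt_nonneg (hpos c)
  · intro y
    have h2 := hψ 1 y
    rw [hone, one_mul, one_mul] at h2
    exact h2.symm

end Pool.Agent.PTH
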