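import Pool.Agent.PTH.PaLif
import Pool.Agent.PTH.PaExp

/-!
# PTH PaLex: lifting `exp(i h)`

THEOREM.  `h` self-adjoint in `M`: there are self-adjoint `h'_n` in `N`, uniformly bounded, which lift `h`
and such that `exp(i h'_n)` lifts `exp(i h)`.

PROOF.  Let `y` be a bounded lift of `h` (`e.lift h`), `h'_n = (y_n + y_n*)/2`: lifts `(h + h*)/2 = h`
(`Lifts.add`, `Lifts.star`, `Lifts.smul`).  Let `C` bound all `‖h'_n‖` and `‖h‖`.  Let `w` be a lift of
`expU h` (`e.lift (expU h)`).  For every `K`: `expPS K (i h'_n)` lifts `expPS K (i h)` (`Lifts.pow`,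
`Lifts.sum`, `Lifts.smul`), so `w_n - expPS K (i h'_n)` lifts `expU h - expPS K (i h)` whose 2-norm is
`≤ expTail C K` (`two_le_norm`); so `lim_ω two (w_n - expPS K (i h'_n)) ≤ expTail C K`, and
`two (expU h'_n - expPS K (i h'_n)) ≤ expTail C K` for all `n`.  Hence
`limsup two (w_n - expU h'_n) ≤ 2 expTail C K → 0` as `K → ∞`.  `‖expU h'_n‖ ≤ 1`
(unitary; `CStarRing.norm_coe_unitary` or `norm_of_mem_unitary`).  Conclude by `Lifts.congr`.
-/

open Filter Topology
open scoped InnerProductSpace ComplexOrder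

universe u

namespace Pool.Agent.PTH

private theorem norm_expU_le {N : Type*} [CStarAlgebra N] (h : selfAdjoint N) : ‖expU h‖ ≤ 1 := by
  have h1 : ‖expU h‖ * ‖expU h‖ = ‖(1 : N)‖ := by
    rw [← CStarRing.norm_star_mul_self, expU_star_mul]
  rcases subsingleton_or_nontrivial N with hN | hN
  · rw [Subsingleton.elim (expU h) 0, norm_zero]
    exact zero_le_one
  · rw [CStarRing.norm_one] at h1
    nlinarith [norm_nonneg (expU h)]

private theorem lifts_expPS {M N : Type*} [CStarAlgebra M] [TrAlg M] [CStarAlgebra N] [TrAlg N]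
    {ω : Ultrafilter ℕ} {e : Emb M N ω} {x : M} {x' : ℕ → N} (hx : e.Lifts x x') (K : ℕ) :
    e.Lifts (expPS K x) (fun n => expPS K (x' n)) := by
  unfold expPS
  exact Emb.Lifts.sum _ fun k _ => (hx.pow k).smul _

theorem Emb.exists_exp_lift {M N : Type*} [CStarAlgebra M] [TrAlg M] [CStarAlgebra N] [TrAlg N]
    {ω : Ultrafilter ℕ} (e : Emb M N ω) (h : selfAdjoint M) :
    ∃ h' : ℕ → selfAdjoint N, e.Lifts (h : M) (fun n => (h' n : N)) ∧
      e.Lifts (expU h) (fun n => expU (h' n)) := by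
  have hy : e.Lifts (h : M) (e.lift (h : M)) := e.lifts_lift _
  have hs : ∀ n, IsSelfAdjoint ((1 / 2 : ℂ) • (e.lift (h : M) n + Star.star (e.lift (h : M) n))) := by
    intro n
    rw [IsSelfAdjoint, star_smul, star_add, star_star, add_comm (Star.star _)]
    congr 1
    simp
  let h' : ℕ → selfAdjoint N := fun n => ⟨_, hs n⟩
  have hh : e.Lifts (h : M) (fun n => (h' n : N)) := by
    have h1 := (hy.add hy.star).smul (1 / 2 : ℂ)
    have h2 : (1 / 2 : ℂ) • ((h : M) + Star.star (h : M)) = (h : M) := by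
      rw [(h.2 : Star.star (h : M) = h), ← two_smul ℂ (h : M), smul_smul]
      norm_num
    rw [h2] at h1
    exact h1
  refine ⟨h', hh, ?_⟩
  obtain ⟨C₀, hC₀⟩ := hh.1
  set C : ℝ := max C₀ ‖(h : M)‖ with hC
  have hCh : ‖(h : M)‖ ≤ C := le_max_right _ _
  have hCn : ∀ n, ‖(h' n : N)‖ ≤ C := fun n => (hC₀ n).trans (le_max_left _ _)
  have hC0 : 0 ≤ C := (norm_nonneg _).trans hCh
  refine (e.lifts_lift (expU h)).congr ⟨1, fun n => norm_expU_le (h' n)⟩ ?_
  rw [tendsto_order]
  constructor
  · intro a ha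
    exact Eventually.of_forall fun n => ha.trans_le (two_nonneg _)
  · intro ε hε
    obtain ⟨K, hK⟩ := ((tendsto_order.mp (expTail_tendsto C hC0)).2 (ε / 3) (by linarith)).exists
    have h1 : e.Lifts (expU h - expPS K (Complex.I • (h : M)))
        (fun n => e.lift (expU h) n - expPS K (Complex.I • (h' n : N))) :=
      (e.lifts_lift (expU h)).sub (lifts_expPS (hh.smul Complex.I) K)
    have h2 : two (expU h - expPS K (Complex.I • (h : M))) < 2 * ε / 3 := by
      have := (two_le_norm (expU h - expPS K (Complex.I • (h : M)))).trans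
        (expU_approx_n h C hCh K)
      linarith
    filter_upwards [(tendsto_order.mp h1.tendsto_two).2 _ h2] with n hn
    have h3 := two_sub_le_sub (e.lift (expU h) n) (expPS K (Complex.I • (h' n : N))) (expU (h' n))
    have h4 : two (expPS K (Complex.I • (h' n : N)) - expU (h' n)) ≤ expTail C K := by
      rw [two_sub_comm]
      exact (two_le_norm _).trans (expU_approx_n (h' n) C (hCn n) K)
    linarith

/-- Lifting all members of the family `expAvg h`. -/
theorem Emb.exists_avg_lift {M N : Type*} [CStarAlgebra M] [TrAlg M] [CStarAlgebra N] [TrAlg N]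
    {ω : Ultrafilter ℕ} (e : Emb M N ω) {m : ℕ} (h : Fin (m + 1) → selfAdjoint M) :
    ∃ h' : ℕ → Fin (m + 1) → selfAdjoint N,
      ∀ i : (expSym m).ι, e.Lifts ((expAvg h).u i) (fun n => (expAvg (h' n)).u i) := by
  choose g _ hg2 using fun j => e.exists_exp_lift (h j)
  refine ⟨fun n j => g j n, ?_⟩
  intro i
  rcases i with _ | ⟨j, b⟩
  · exact Emb.lifts_one
  · cases b
    · exact (hg2 j).star
    · exact hg2 j

end Pool.Agent.PTH
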