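import Pool.Agent.PTH.PaDefs

/-!
# PTH PaLif: calculus of lifts

`e : Emb M N ω`; `e.Lifts x y`: `y : ℕ → N` is a norm bounded lift of `x`.

PROOFS: routine from the fields of `Emb` (`two_add_le`, `two_mul_le`, `two_mul_le'`, `two_star`,
`squeeze_zero`); products: `lift (xy) - x' y' = (lift (xy) - lift x lift y) + (lift x - x') lift y
+ x' (lift y - y')` with bounded `lift y`, `x'`.
* `tendsto_tau`: `|τ(lift x n) - τ(y n)| ≤ two (..) → 0`.
* `tendsto_two`: `two (y n)² = Re τ(star (y n) * y n) → Re τ(star x * x)` (`mul`, `star`, `tendsto_tau`).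
* `sub_tendsto`: two lifts of the same `x` differ by a null sequence.
* `lifts_of_tendsto`: change of a lift by a null sequence.
-/

open Filter Topology
open scoped InnerProductSpace ComplexOrder

universe u

namespace Pool.Agent.PTH

namespace Emb

variable {M N : Type*} [CStarAlgebra M] [TrAlg M] [CStarAlgebra N] [TrAlg N]
  {ω : Ultrafilter ℕ} (e : Emb M N ω)

theorem lifts_lift (x : M) : e.Lifts x (e.lift x) := by
  refine ⟨e.bdd x, ?_⟩
  simp only [sub_self, two_zero]
  exact tendsto_const_nhds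

variable {e}

theorem Lifts.add {x y : M} {x' y' : ℕ → N} (hx : e.Lifts x x') (hy : e.Lifts y y') :
    e.Lifts (x + y) (fun n => x' n + y' n) := by
  obtain ⟨⟨C, hC⟩, h1⟩ := hx
  obtain ⟨⟨D, hD⟩, h2⟩ := hy
  refine ⟨⟨C + D, fun n => (norm_add_le _ _).trans (add_le_add (hC n) (hD n))⟩, ?_⟩
  have h3 := ((e.add x y).add h1).add h2
  simp only [add_zero] at h3
  refine squeeze_zero (fun n => two_nonneg _) (fun n => ?_) h3
  have h4 : e.lift (x + y) n - (x' n + y' n) =
      (e.lift (x + y) n - (e.lift x n + e.lift y n)) + (e.lift x n - x' n) +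
        (e.lift y n - y' n) := by abel
  rw [h4]
  exact (two_add_le _ _).trans (add_le_add (two_add_le _ _) le_rfl)

theorem Lifts.smul (c : ℂ) {x : M} {x' : ℕ → N} (hx : e.Lifts x x') :
    e.Lifts (c • x) (fun n => c • x' n) := by
  obtain ⟨⟨C, hC⟩, h1⟩ := hx
  refine ⟨⟨‖c‖ * C, fun n => (norm_smul_le _ _).trans
    (mul_le_mul_of_nonneg_left (hC n) (norm_nonneg c))⟩, ?_⟩
  have h3 := (e.smul c x).add (h1.const_mul ‖c‖)
  simp only [mul_zero, add_zero] at h3
  refine squeeze_zero (fun n => two_nonneg _) (fun n => ?_) h3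
  have h4 : e.lift (c • x) n - c • x' n =
      (e.lift (c • x) n - c • e.lift x n) + c • (e.lift x n - x' n) := by
    rw [smul_sub]
    abel
  rw [h4]
  refine (two_add_le _ _).trans (add_le_add le_rfl ?_)
  rw [two_smul']

theorem Lifts.sub {x y : M} {x' y' : ℕ → N} (hx : e.Lifts x x') (hy : e.Lifts y y') :
    e.Lifts (x - y) (fun n => x' n - y' n) := by
  have h := hx.add (hy.smul (-1))
  have e1 : x + (-1 : ℂ) • y = x - y := by
    rw [neg_one_smul, sub_eq_add_neg]
  have e2 : (fun n => x' n + (-1 : ℂ) • y' n) = fun n => x' n - y' n := by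
    funext n
    rw [neg_one_smul, sub_eq_add_neg]
  rw [e1, e2] at h
  exact h

theorem Lifts.mul {x y : M} {x' y' : ℕ → N} (hx : e.Lifts x x') (hy : e.Lifts y y') :
    e.Lifts (x * y) (fun n => x' n * y' n) := by
  obtain ⟨⟨C, hC⟩, h1⟩ := hx
  obtain ⟨⟨D, hD⟩, h2⟩ := hy
  obtain ⟨D', hD'⟩ := e.bdd y
  have hC0 : 0 ≤ C := (norm_nonneg _).trans (hC 0)
  refine ⟨⟨C * D, fun n => (norm_mul_le _ _).trans
    (mul_le_mul (hC n) (hD n) (norm_nonneg _) hC0)⟩, ?_⟩
  have h3 := ((e.mul x y).add (h1.mul_const D')).add (h2.const_mul C)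
  simp only [mul_zero, zero_mul, add_zero] at h3
  refine squeeze_zero (fun n => two_nonneg _) (fun n => ?_) h3
  have h4 : e.lift (x * y) n - x' n * y' n =
      (e.lift (x * y) n - e.lift x n * e.lift y n) + (e.lift x n - x' n) * e.lift y n +
        x' n * (e.lift y n - y' n) := by noncomm_ring
  rw [h4]
  refine (two_add_le _ _).trans (add_le_add ((two_add_le _ _).trans (add_le_add le_rfl ?_)) ?_)
  · exact (two_mul_le' _ _).trans (mul_le_mul_of_nonneg_left (hD' n) (two_nonneg _))
  · exact (two_mul_le _ _).trans (mul_le_mul_of_nonneg_right (hC n) (two_nonneg _))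

theorem Lifts.star {x : M} {x' : ℕ → N} (hx : e.Lifts x x') :
    e.Lifts (Star.star x) (fun n => Star.star (x' n)) := by
  obtain ⟨⟨C, hC⟩, h1⟩ := hx
  refine ⟨⟨C, fun n => by rw [norm_star]; exact hC n⟩, ?_⟩
  have h3 := (e.star x).add h1
  simp only [add_zero] at h3
  refine squeeze_zero (fun n => two_nonneg _) (fun n => ?_) h3
  have h4 : e.lift (Star.star x) n - Star.star (x' n) =
      (e.lift (Star.star x) n - Star.star (e.lift x n)) + Star.star (e.lift x n - x' n) := by
    rw [star_sub]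
    abel
  rw [h4]
  refine (two_add_le _ _).trans (add_le_add le_rfl ?_)
  rw [two_star]

theorem lifts_one : e.Lifts 1 (fun _ => 1) := by
  exact ⟨⟨‖(1 : N)‖, fun _ => le_rfl⟩, e.one⟩

theorem Lifts.pow {x : M} {x' : ℕ → N} (hx : e.Lifts x x') (k : ℕ) :
    e.Lifts (x ^ k) (fun n => x' n ^ k) := by
  induction k with
  | zero =>
    simp only [pow_zero]
    exact lifts_one
  | succ k ih =>
    simp only [pow_succ]
    exact ih.mul hx

theorem Lifts.sum {ι : Type*} (s : Finset ι) {x : ι → M} {x' : ι → ℕ → N}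
    (hx : ∀ i ∈ s, e.Lifts (x i) (x' i)) :
    e.Lifts (∑ i ∈ s, x i) (fun n => ∑ i ∈ s, x' i n) := by
  classical
  induction s using Finset.induction_on with
  | empty =>
    have h := (lifts_one (e := e)).smul 0
    simp only [zero_smul] at h
    simp only [Finset.sum_empty]
    exact h
  | insert a s ha ih =>
    simp only [Finset.sum_insert ha]
    exact (hx a (Finset.mem_insert_self a s)).add
      (ih fun i hi => hx i (Finset.mem_insert_of_mem hi))

theorem Lifts.sub_tendsto {x : M} {y z : ℕ → N} (hy : e.Lifts x y) (hz : e.Lifts x z) :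
    Tendsto (fun n => two (y n - z n)) ω (𝓝 0) := by
  have h3 := hy.2.add hz.2
  simp only [add_zero] at h3
  refine squeeze_zero (fun n => two_nonneg _) (fun n => ?_) h3
  have h4 := two_sub_le_sub (y n) (e.lift x n) (z n)
  have h5 := two_sub_comm (y n) (e.lift x n)
  rwa [h5] at h4

theorem Lifts.congr {x : M} {y z : ℕ → N} (hy : e.Lifts x y) (hb : ∃ C : ℝ, ∀ n, ‖z n‖ ≤ C)
    (h : Tendsto (fun n => two (y n - z n)) ω (𝓝 0)) : e.Lifts x z := by
  refine ⟨hb, ?_⟩
  have h3 := hy.2.add h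
  simp only [add_zero] at h3
  exact squeeze_zero (fun n => two_nonneg _) (fun n => two_sub_le_sub _ _ _) h3

theorem Lifts.tendsto_tau {x : M} {y : ℕ → N} (hy : e.Lifts x y) :
    Tendsto (fun n => TrAlg.tau (y n)) ω (𝓝 (TrAlg.tau x)) := by
  have h1 : Tendsto (fun n => TrAlg.tau (e.lift x n - y n)) ω (𝓝 0) :=
    squeeze_zero_norm (fun n => norm_tau_le _) hy.2
  have h2 := (e.tau x).sub h1
  rw [sub_zero] at h2
  refine h2.congr fun n => ?_
  rw [map_sub]
  ring

theorem Lifts.tendsto_two {x : M} {y : ℕ → N} (hy : e.Lifts x y) :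
    Tendsto (fun n => two (y n)) ω (𝓝 (two x)) := by
  have h1 := (hy.star.mul hy).tendsto_tau
  have h2 := (Complex.continuous_re.tendsto _).comp h1
  exact (Real.continuous_sqrt.tendsto _).comp h2

end Emb

end Pool.Agent.PTH
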