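import Pool.Agent.PTH.PaCen
import Pool.Agent.PTH.PaExp
import Pool.Agent.PTH.PaGnsB

/-!
# PTH PaT0: property (T) in linear form (section 1.1)

THEOREM.  `M` with property (T): there are self-adjoint `h_0, .., h_m` in `M` and `c ∈ (0, 1)` such that for
the family `a = expAvg h` and every biform `κ` with densities `≤ 1`:
`c E(κ) ≤ Q(κ)`, and `E(κ) = 0` implies `κ(x*x, 1) + κ(1, x x*) = 2 Re κ(x*, x)` for all `x`
(`‖xξ - ξx‖² = 0`).

PROOF.  (1) `PropT` with `ε = 1/2`: finite set `F`, `δ > 0`.  Every `x ∈ F` is `x = x' + i x''`, `x', x''`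
self-adjoint (`realPart`, `imaginaryPart`).  Let `R ≥ 1` bound the norms of all `x', x''`.  Choose
`s ∈ (0, 1/R]` with `4 s R² ≤ δ / 2`... and let `h_j` run through all `s x'`, `s x''`, `x ∈ F` (as a list
`Fin (m+1)`; if `F` is empty add `0`).
(2) Let `B` be a normal bimodule and `ζ` a unit vector orthogonal to the central vectors.  If
`‖expU(h_j) ζ - ζ expU(h_j)‖ < δ'` for all `j` (`δ' = s δ / 8`), then by `Bim.comm_le`
`s ‖x' ζ - ζ x'‖ ≤ δ' + 2 s² R²`, so `‖x' ζ - ζ x'‖ ≤ δ/8 + 2 s R² < δ/2`, same for `x''`, so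
`‖xζ - ζx‖ < δ` for all `x ∈ F`; `PropT` gives a central `η` with `‖η - ζ‖ < 1/2`, but
`‖η - ζ‖² = ‖η‖² + 1 ≥ 1` by orthogonality: contradiction.  So some `j` has
`‖expU(h_j) ζ - ζ expU(h_j)‖ ≥ δ'` and `en ζ ≥ 1/2 · p · δ'^2` with `p = 1/(4(m+1))`.  Take
`c = min (1/2) (p δ'^2 / 2)`.
(3) Given `κ` with `Dom`, `Bf.exists_bim` gives a normal `B` and `ξ` with `B.bf ξ = κ` (same `k`); apply
`Bim.gap_of`, `Bim.bf_E`, `Bim.bf_Q`, `Bim.norm_comm_sq`.
-/

open Filter Topology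
open scoped InnerProductSpace ComplexOrder

universe u

namespace Pool.Agent.PTH

/-- A list of self-adjoint elements. -/
private theorem exists_enum {α : Type*} [Inhabited α] (G : Finset α) :
    ∃ (m : ℕ) (e : Fin (m + 1) → α), ∀ g ∈ G, ∃ j, e j = g := by
  refine ⟨G.toList.length, fun j => G.toList.getD j default, ?_⟩
  intro g hg
  obtain ⟨i, hi, h⟩ := List.getElem_of_mem (Finset.mem_toList.2 hg)
  refine ⟨⟨i, by omega⟩, ?_⟩
  show G.toList.getD i default = g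
  rw [List.getD_eq_getElem _ _ hi]
  exact h

private theorem comm_smul {M : Type u} [CStarAlgebra M] (B : Bim.{u} M) (s : ℝ) (hs : 0 < s)
    (x : M) (ζ : B.H) :
    ‖B.l ((s : ℂ) • x) ζ - B.r ((s : ℂ) • x) ζ‖ = s * ‖B.l x ζ - B.r x ζ‖ := by
  rw [B.l_smul, B.r_smul, ← smul_sub, norm_smul, Complex.norm_real, Real.norm_of_nonneg hs.le]

/-- one commutator from the energy -/
private theorem comm_of_en {M : Type u} [CStarAlgebra M] [TrAlg M] (B : Bim.{u} M) {m : ℕ}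
    (h : Fin (m + 1) → selfAdjoint M) (ζ : B.H) (d : ℝ) (hd : 0 < d)
    (hen : B.en (expAvg h) ζ < 1 / (4 * ((m : ℝ) + 1)) * d ^ 2 / 2) (j : Fin (m + 1)) :
    ‖B.l (expU (h j)) ζ - B.r (expU (h j)) ζ‖ < d := by
  by_contra hcon
  rw [not_lt] at hcon
  have hm : (0 : ℝ) < 1 / (4 * ((m : ℝ) + 1)) := by positivity
  have h1 : (expAvg h).p (some (j, true)) *
      ‖B.l ((expAvg h).u (some (j, true))) ζ - B.r ((expAvg h).u (some (j, true))) ζ‖ ^ 2 ≤
      ∑ i, (expAvg h).p i * ‖B.l ((expAvg h).u i) ζ - B.r ((expAvg h).u i) ζ‖ ^ 2 :=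
    Finset.single_le_sum (f := fun i => (expAvg h).p i *
      ‖B.l ((expAvg h).u i) ζ - B.r ((expAvg h).u i) ζ‖ ^ 2)
      (fun i _ => mul_nonneg ((expAvg h).p_pos i).le (sq_nonneg _)) (Finset.mem_univ _)
  have h2 : (expAvg h).p (some (j, true)) = 1 / (4 * ((m : ℝ) + 1)) := rfl
  rw [expAvg_true, h2] at h1
  have h3 : d ^ 2 ≤ ‖B.l (expU (h j)) ζ - B.r (expU (h j)) ζ‖ ^ 2 :=
    pow_le_pow_left₀ hd.le hcon 2
  have h4 := mul_le_mul_of_nonneg_left h3 hm.le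
  unfold Bim.en at hen
  linarith

private theorem norm_sub_ge {H : Type*} [NormedAddCommGroup H] [InnerProductSpace ℂ H] {η ζ : H}
    (h1 : ‖ζ‖ = 1) (h2 : ⟪η, ζ⟫_ℂ = 0) : 1 ≤ ‖η - ζ‖ := by
  have h3 := norm_sub_sq (𝕜 := ℂ) η ζ
  rw [h2, h1] at h3
  simp only [map_zero, mul_zero, sub_zero, one_pow] at h3
  nlinarith [sq_nonneg ‖η‖, norm_nonneg (η - ζ)]

theorem T0 (M : Type u) [CStarAlgebra M] [TrAlg M] (hT : PropT M) :
    ∃ (m : ℕ) (h : Fin (m + 1) → selfAdjoint M) (c : ℝ), 0 < c ∧ c < 1 ∧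
      ∀ κ : Bf M, κ.Dom →
        c * κ.E (expAvg h) ≤ κ.Q (expAvg h) ∧
        (κ.E (expAvg h) = 0 → ∀ x : M,
          (κ.k (star x * x) 1).re + (κ.k 1 (x * star x)).re = 2 * (κ.k (star x) x).re) := by
  classical
  obtain ⟨F, δ, hδ, hF⟩ := hT (1 / 2) (by norm_num)
  -- the self-adjoint elements
  obtain ⟨G, hG⟩ : ∃ G : Finset (selfAdjoint M), G = F.image realPart ∪ F.image imaginaryPart :=
    ⟨_, rfl⟩
  have hGr : ∀ x ∈ F, realPart x ∈ G := fun x hx => by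
    rw [hG]
    exact Finset.mem_union_left _ (Finset.mem_image_of_mem _ hx)
  have hGi : ∀ x ∈ F, imaginaryPart x ∈ G := fun x hx => by
    rw [hG]
    exact Finset.mem_union_right _ (Finset.mem_image_of_mem _ hx)
  obtain ⟨m, e, he⟩ := exists_enum G
  obtain ⟨R, hR⟩ : ∃ R : ℝ, R = 1 + ∑ g ∈ G, ‖(g : M)‖ := ⟨_, rfl⟩
  have hS0 : 0 ≤ ∑ g ∈ G, ‖(g : M)‖ := Finset.sum_nonneg fun g _ => norm_nonneg _
  have hR1 : 1 ≤ R := by rw [hR]; linarith
  have hR0 : 0 < R := by linarith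
  have hRG : ∀ g ∈ G, ‖(g : M)‖ ≤ R := by
    intro g hg
    have h1 := Finset.single_le_sum (f := fun g : selfAdjoint M => ‖(g : M)‖)
      (fun g _ => norm_nonneg _) hg
    rw [hR]
    linarith
  obtain ⟨s, hs⟩ : ∃ s : ℝ, s = min (1 / R) (δ / (16 * R ^ 2)) := ⟨_, rfl⟩
  have hs0 : 0 < s := by rw [hs]; positivity
  have hs1 : s * R ≤ 1 := by
    have h1 : s ≤ 1 / R := by rw [hs]; exact min_le_left _ _
    calc s * R ≤ 1 / R * R := mul_le_mul_of_nonneg_right h1 hR0.le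
      _ = 1 := by field_simp
  have hs2 : 2 * s * R ^ 2 ≤ δ / 8 := by
    have h1 : s ≤ δ / (16 * R ^ 2) := by rw [hs]; exact min_le_right _ _
    calc 2 * s * R ^ 2 = s * (2 * R ^ 2) := by ring
      _ ≤ δ / (16 * R ^ 2) * (2 * R ^ 2) := mul_le_mul_of_nonneg_right h1 (by positivity)
      _ = δ / 8 := by field_simp; ring
  obtain ⟨d, hd⟩ : ∃ d : ℝ, d = s * δ / 8 := ⟨_, rfl⟩
  have hd0 : 0 < d := by rw [hd]; positivity
  obtain ⟨h, hh⟩ : ∃ h : Fin (m + 1) → selfAdjoint M, h = fun j => s • e j := ⟨_, rfl⟩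
  have hhj : ∀ j, (h j : M) = (s : ℂ) • (e j : M) := by
    intro j
    rw [hh]
    show ((s • e j : selfAdjoint M) : M) = _
    rw [selfAdjoint.val_smul, Complex.coe_smul]
  obtain ⟨c, hc⟩ : ∃ c : ℝ, c = min (1 / 2) (1 / (4 * ((m : ℝ) + 1)) * d ^ 2 / 2) := ⟨_, rfl⟩
  have hc0 : 0 < c := by rw [hc]; positivity
  have hc1 : c < 1 := by
    have : c ≤ 1 / 2 := by rw [hc]; exact min_le_left _ _
    linarith
  have hc2 : c ≤ 1 / (4 * ((m : ℝ) + 1)) * d ^ 2 / 2 := by rw [hc]; exact min_le_right _ _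
  -- step 2
  have key : ∀ B : Bim.{u} M, B.Normal → ∀ ζ : B.H, ‖ζ‖ = 1 →
      (∀ η : B.H, B.Central η → ⟪η, ζ⟫_ℂ = 0) → c ≤ B.en (expAvg h) ζ := by
    intro B hB ζ hζ horth
    by_contra hcon
    rw [not_le] at hcon
    have h1 := fun j => comm_of_en B h ζ d hd0 (lt_of_lt_of_le hcon hc2) j
    have h2 : ∀ g ∈ G, ‖B.l (g : M) ζ - B.r (g : M) ζ‖ < δ / 4 := by
      intro g hg
      obtain ⟨j, hj⟩ := he g hg
      have h3 : ‖(h j : M)‖ ≤ s * R := by
        rw [hhj, norm_smul, Complex.norm_real, Real.norm_of_nonneg hs0.le, hj]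
        exact mul_le_mul_of_nonneg_left (hRG g hg) hs0.le
      have h4 := B.comm_le (h j) (h3.trans hs1) ζ
      rw [hhj j, comm_smul B s hs0, hj, hζ, mul_one] at h4
      have h5 : ‖(s : ℂ) • (g : M)‖ ≤ s * R := by
        rw [← hj, ← hhj]
        exact h3
      have h6 : ‖(s : ℂ) • (g : M)‖ ^ 2 ≤ (s * R) ^ 2 := pow_le_pow_left₀ (norm_nonneg _) h5 2
      have h7 := h1 j
      have h8 : s * ‖B.l (g : M) ζ - B.r (g : M) ζ‖ < s * (δ / 4) := by
        have e1 : 2 * (s * R) ^ 2 = s * (2 * s * R ^ 2) := by ring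
        have e2 : s * (2 * s * R ^ 2) ≤ s * (δ / 8) := mul_le_mul_of_nonneg_left hs2 hs0.le
        have e3 : s * (δ / 4) = d + s * (δ / 8) := by rw [hd]; ring
        linarith
      exact lt_of_mul_lt_mul_left h8 hs0.le
    obtain ⟨η, hη1, hη2⟩ := hF B hB ζ hζ (by
      intro x hx
      have e1 : ((realPart x : selfAdjoint M) : M) + Complex.I • ((imaginaryPart x : selfAdjoint M) : M)
          = x := realPart_add_I_smul_imaginaryPart x
      have e2 : B.l x ζ - B.r x ζ =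
          (B.l ((realPart x : selfAdjoint M) : M) ζ - B.r ((realPart x : selfAdjoint M) : M) ζ) +
          Complex.I • (B.l ((imaginaryPart x : selfAdjoint M) : M) ζ -
            B.r ((imaginaryPart x : selfAdjoint M) : M) ζ) := by
        conv_lhs => rw [← e1]
        rw [B.l_add, B.r_add, B.l_smul, B.r_smul, smul_sub]
        abel
      rw [e2]
      refine (norm_add_le _ _).trans_lt ?_
      rw [norm_smul, Complex.norm_I, one_mul]
      have h3 := h2 _ (hGr x hx)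
      have h4 := h2 _ (hGi x hx)
      linarith)
    have h9 := norm_sub_ge hζ (horth η hη1)
    linarith
  -- step 3
  refine ⟨m, h, c, hc0, hc1, ?_⟩
  intro κ hκ
  obtain ⟨B, ξ, hB, hk⟩ := κ.exists_bim hκ
  have hE : κ.E (expAvg h) = B.en (expAvg h) ξ := by
    rw [← B.bf_E]
    unfold Bf.E
    simp only [hk]
  have hQ : κ.Q (expAvg h) = ‖ξ - B.T (expAvg h) ξ‖ ^ 2 := by
    rw [← B.bf_Q]
    unfold Bf.Q
    simp only [hk]
  obtain ⟨g1, g2⟩ := B.gap_of (expAvg h) c hc0 (key B hB) ξ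
  refine ⟨by rw [hE, hQ]; exact g1, ?_⟩
  intro h0 x
  rw [hE] at h0
  have h1 := g2 h0 x
  have h2 := B.norm_comm_sq x ξ
  rw [h1, sub_self, norm_zero] at h2
  simp only [hk] at h2
  linarith

end Pool.Agent.PTH
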