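import Pool.Agent.PTH.PaRed
import Pool.Agent.PTH.PaT0
import Pool.Agent.PTH.PaLex
import Pool.Agent.PTH.PaHa2

/-!
# PTH PaMain: the main theorem in the working language
-/

open Filter Topology
open scoped InnerProductSpace ComplexOrder

universe u

namespace Pool.Agent.PTH

theorem main {M N : Type u} [CStarAlgebra M] [TrAlg M] [CStarAlgebra N] [PartialOrder N]
    [StarOrderedRing N] [TracialVN N] {ω : Ultrafilter ℕ} (hω : (ω : Filter ℕ) ≤ cofinite)
    (hT : PropT M) (hN : IsII1 N) (hH : Haag N) (e : Emb M N ω) :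
    ∃ D : ℕ → StarSubalgebra ℂ N, (∀ n, FiniteDimensional ℂ (D n)) ∧
      ∀ x : M, ∃ y : ℕ → N, (∀ n, y n ∈ D n) ∧ e.Lifts x y := by
  obtain ⟨m, h, c, hc, hc1, hκ⟩ := T0 M hT
  obtain ⟨h', hu⟩ := e.exists_avg_lift h
  obtain ⟨D, d, hD, hd, hlim⟩ := exists_D hω hN (sHaag_of_haag hH) e h c hc hc1
    (fun κ hk => (hκ κ hk).1) h' hu
  exact ⟨D, hD, all_of_D e h (fun κ hk => (hκ κ hk).2) h' hu D d hD hd hlim⟩

end Pool.Agent.PTH
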