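import Pool.Agent.PTH.Tb1

/-!
# Toolbox: limits for the 2-norm, the order

A limit is written `Tendsto (fun n => two (x n - y)) l (𝓝 0)`.
PROOFS.
* `lim_unique`: `two (y - z) ≤ two (x n - y) + two (x n - z)` for all `n`, so `two (y - z) = 0`.
* `lim_mul`: `x_n y_n - x y = (x_n - x) y_n + x (y_n - y)`.
* `nonneg_of_rt`: `x = x₊ - x₋` (`CFC.posPart_sub_negPart`), `a = x₋ ≥ 0`, `x₋ x₊ = 0`, so
  `0 ≤ rt (x₋ x) = - rt (x₋ x₋) = -‖x₋‖₂²`, `x₋ = 0`.
* `lim_nonneg`: star passes to the limit, and `rt (a x_n) → rt (a y)` (`lim_rt_mul`).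
* `norm_le_of_lim`: the limit of the sequence in the ball (`exists_lim`, for the subsequence given
  by `l`; or directly: `‖y‖² ≤ C²` iff `y* y ≤ C²`, i.e. `rt (a y* y) = lim rt (a x_n* x_n) ≤
  C² rt a` for all `a ≥ 0`).
-/

open Filter Topology

namespace Pool.Agent.PTH

open TrAlg

variable {N : Type*} [CStarAlgebra N]

section lim

variable [TrAlg N] {ι : Type*} {l : Filter ι}

theorem lim_const (y : N) : Tendsto (fun _ : ι => two (y - y)) l (𝓝 0) := by
  simp only [sub_self, two_zero]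
  exact tendsto_const_nhds

theorem lim_unique [NeBot l] {x : ι → N} {y z : N} (h1 : Tendsto (fun n => two (x n - y)) l (𝓝 0))
    (h2 : Tendsto (fun n => two (x n - z)) l (𝓝 0)) : y = z := by
  have h3 := h1.add h2
  rw [add_zero] at h3
  have h4 : two (y - z) ≤ 0 := by
    refine ge_of_tendsto' h3 fun n => ?_
    have := two_sub_le_sub y (x n) z
    rwa [two_sub_comm y (x n)] at this
  exact sub_eq_zero.1 (two_eq_zero (le_antisymm h4 (two_nonneg _)))

theorem lim_of_norm {x : ι → N} {y : N} (h : Tendsto (fun n => ‖x n - y‖) l (𝓝 0)) :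
    Tendsto (fun n => two (x n - y)) l (𝓝 0) :=
  squeeze_zero (fun _ => two_nonneg _) (fun _ => two_le_norm _) h

theorem lim_add {x x' : ι → N} {y y' : N} (h1 : Tendsto (fun n => two (x n - y)) l (𝓝 0))
    (h2 : Tendsto (fun n => two (x' n - y')) l (𝓝 0)) :
    Tendsto (fun n => two (x n + x' n - (y + y'))) l (𝓝 0) := by
  have h3 := h1.add h2
  rw [add_zero] at h3
  refine squeeze_zero (fun _ => two_nonneg _) (fun n => ?_) h3
  rw [add_sub_add_comm]
  exact two_add_le _ _

theorem lim_star {x : ι → N} {y : N} (h : Tendsto (fun n => two (x n - y)) l (𝓝 0)) :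
    Tendsto (fun n => two (star (x n) - star y)) l (𝓝 0) := by
  refine h.congr fun n => ?_
  rw [← star_sub, two_star]

theorem lim_neg {x : ι → N} {y : N} (h : Tendsto (fun n => two (x n - y)) l (𝓝 0)) :
    Tendsto (fun n => two (-x n - -y)) l (𝓝 0) := by
  refine h.congr fun n => ?_
  rw [← two_neg]
  congr 1
  abel

theorem lim_sub {x x' : ι → N} {y y' : N} (h1 : Tendsto (fun n => two (x n - y)) l (𝓝 0))
    (h2 : Tendsto (fun n => two (x' n - y')) l (𝓝 0)) :
    Tendsto (fun n => two (x n - x' n - (y - y'))) l (𝓝 0) := by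
  have := lim_add h1 (lim_neg h2)
  refine this.congr fun n => ?_
  congr 1
  abel

theorem lim_mul_left (a : N) {x : ι → N} {y : N} (h : Tendsto (fun n => two (x n - y)) l (𝓝 0)) :
    Tendsto (fun n => two (a * x n - a * y)) l (𝓝 0) := by
  have h2 := h.const_mul ‖a‖
  rw [mul_zero] at h2
  refine squeeze_zero (fun _ => two_nonneg _) (fun n => ?_) h2
  rw [← mul_sub]
  exact two_mul_le _ _

theorem lim_mul_right (a : N) {x : ι → N} {y : N} (h : Tendsto (fun n => two (x n - y)) l (𝓝 0)) :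
    Tendsto (fun n => two (x n * a - y * a)) l (𝓝 0) := by
  have h2 := h.mul_const ‖a‖
  rw [zero_mul] at h2
  refine squeeze_zero (fun _ => two_nonneg _) (fun n => ?_) h2
  rw [← sub_mul]
  exact two_mul_le' _ _

/-- Products, with the second factor bounded. -/
theorem lim_mul {x x' : ι → N} {y y' : N} {C : ℝ} (hC : ∀ n, ‖x' n‖ ≤ C)
    (h1 : Tendsto (fun n => two (x n - y)) l (𝓝 0))
    (h2 : Tendsto (fun n => two (x' n - y')) l (𝓝 0)) :
    Tendsto (fun n => two (x n * x' n - y * y')) l (𝓝 0) := by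
  have h3 := (h1.mul_const C).add (h2.const_mul ‖y‖)
  rw [zero_mul, mul_zero, add_zero] at h3
  refine squeeze_zero (fun _ => two_nonneg _) (fun n => ?_) h3
  have e : x n * x' n - y * y' = (x n - y) * x' n + y * (x' n - y') := by noncomm_ring
  rw [e]
  refine (two_add_le _ _).trans (add_le_add ?_ (two_mul_le _ _))
  exact (two_mul_le' _ _).trans (mul_le_mul_of_nonneg_left (hC n) (two_nonneg _))

theorem lim_rt {x : ι → N} {y : N} (h : Tendsto (fun n => two (x n - y)) l (𝓝 0)) :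
    Tendsto (fun n => rt (x n)) l (𝓝 (rt y)) := by
  rw [tendsto_iff_norm_sub_tendsto_zero]
  refine squeeze_zero (fun _ => norm_nonneg _) (fun n => ?_) h
  rw [← rt_sub, Real.norm_eq_abs]
  exact abs_rt_le _

theorem lim_tau {x : ι → N} {y : N} (h : Tendsto (fun n => two (x n - y)) l (𝓝 0)) :
    Tendsto (fun n => tau (x n)) l (𝓝 (tau y)) := by
  rw [tendsto_iff_norm_sub_tendsto_zero]
  refine squeeze_zero (fun _ => norm_nonneg _) (fun n => ?_) h
  rw [← map_sub]
  exact norm_tau_le _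

theorem lim_rt_mul (a : N) {x : ι → N} {y : N} (h : Tendsto (fun n => two (x n - y)) l (𝓝 0)) :
    Tendsto (fun n => rt (a * x n)) l (𝓝 (rt (a * y))) := lim_rt (lim_mul_left a h)

theorem lim_two {x : ι → N} {y : N} (h : Tendsto (fun n => two (x n - y)) l (𝓝 0)) :
    Tendsto (fun n => two (x n)) l (𝓝 (two y)) := by
  rw [tendsto_iff_norm_sub_tendsto_zero]
  refine squeeze_zero (fun _ => norm_nonneg _) (fun n => ?_) h
  rw [Real.norm_eq_abs]
  exact abs_two_sub_two_le _ _

theorem lim_comp {κ : Type*} {k : Filter κ} {φ : κ → ι} (hφ : Tendsto φ k l) {x : ι → N} {y : N}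
    (h : Tendsto (fun n => two (x n - y)) l (𝓝 0)) :
    Tendsto (fun n => two (x (φ n) - y)) k (𝓝 0) := h.comp hφ

end lim

section order

variable [PartialOrder N] [StarOrderedRing N] [TrAlg N] {ι : Type*} {l : Filter ι}

theorem nonneg_of_rt {x : N} (hx : IsSelfAdjoint x) (h : ∀ a : N, 0 ≤ a → 0 ≤ rt (a * x)) :
    0 ≤ x := by
  have hn : 0 ≤ x⁻ := CFC.negPart_nonneg x
  have h1 := h _ hn
  have h2 : x⁻ * x = -(x⁻ * x⁻) := by
    nth_rewrite 2 [← CFC.posPart_sub_negPart x hx]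
    rw [mul_sub, CFC.negPart_mul_posPart, zero_sub]
  rw [h2, rt_neg] at h1
  have h3 : two (x⁻) ^ 2 = rt (x⁻ * x⁻) := two_sq_sa (IsSelfAdjoint.of_nonneg hn)
  have h4 : two (x⁻) = 0 := by
    have : two (x⁻) ^ 2 ≤ 0 := by rw [h3]; linarith
    exact pow_eq_zero_iff (two_ne_zero) |>.1 (le_antisymm this (sq_nonneg _))
  have h5 := two_eq_zero h4
  rw [← CFC.posPart_sub_negPart x hx, h5, sub_zero]
  exact CFC.posPart_nonneg x

theorem lim_isSelfAdjoint [NeBot l] {x : ι → N} {y : N} (hx : ∀ n, IsSelfAdjoint (x n))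
    (h : Tendsto (fun n => two (x n - y)) l (𝓝 0)) : IsSelfAdjoint y := by
  refine lim_unique (x := x) (l := l) ?_ h
  refine (lim_star h).congr fun n => ?_
  rw [(hx n).star_eq]

theorem lim_nonneg [NeBot l] {x : ι → N} {y : N} (hx : ∀ n, 0 ≤ x n)
    (h : Tendsto (fun n => two (x n - y)) l (𝓝 0)) : 0 ≤ y := by
  refine nonneg_of_rt (lim_isSelfAdjoint (fun n => IsSelfAdjoint.of_nonneg (hx n)) h)
    fun a ha => ?_
  exact ge_of_tendsto' (lim_rt_mul a h) fun n => rt_mul_nonneg ha (hx n)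

theorem lim_le [NeBot l] {x x' : ι → N} {y y' : N} (hx : ∀ n, x n ≤ x' n)
    (h : Tendsto (fun n => two (x n - y)) l (𝓝 0))
    (h' : Tendsto (fun n => two (x' n - y')) l (𝓝 0)) : y ≤ y' := by
  have h1 := lim_sub h' h
  exact sub_nonneg.1 (lim_nonneg (fun n => sub_nonneg.2 (hx n)) h1)

theorem norm_le_of_lim [NeBot l] {x : ι → N} {y : N} {C : ℝ} (hC : ∀ n, ‖x n‖ ≤ C)
    (h : Tendsto (fun n => two (x n - y)) l (𝓝 0)) : ‖y‖ ≤ C := by
  have hC0 : 0 ≤ C := by
    obtain ⟨n⟩ := l.nonempty_of_neBot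
    exact (norm_nonneg _).trans (hC n)
  have h1 : Tendsto (fun n => two (star (x n) * x n - star y * y)) l (𝓝 0) :=
    lim_mul hC (lim_star h) h
  have h2 : star y * y ≤ (C ^ 2) • (1 : N) := by
    refine lim_le (x := fun n => star (x n) * x n) (x' := fun _ => (C ^ 2) • (1 : N)) (l := l)
      (fun n => ?_) h1 (lim_const _)
    have h3 : ‖star (x n) * x n‖ ≤ C ^ 2 := by
      rw [CStarRing.norm_star_mul_self, ← sq]
      exact pow_le_pow_left₀ (norm_nonneg _) (hC n) 2
    have h4 := le_norm_smul_one (IsSelfAdjoint.star_mul_self (x n))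
    refine h4.trans ?_
    exact smul_le_smul_of_nonneg_right h3 zero_le_one
  have h5 : ‖star y * y‖ ≤ C ^ 2 := by
    have h6 := CStarAlgebra.norm_le_norm_of_nonneg_of_le (star_mul_self_nonneg y) h2
    refine h6.trans ?_
    rw [norm_smul, Real.norm_eq_abs, abs_of_nonneg (sq_nonneg C)]
    exact mul_le_of_le_one_right (sq_nonneg C) norm_one_le'
  rw [CStarRing.norm_star_mul_self, ← sq] at h5
  exact (pow_le_pow_iff_left₀ (norm_nonneg _) hC0 (by norm_num)).1 h5

end order

end Pool.Agent.PTH
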