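import Pool.Agent.PTH.PaDefs
import Pool.Agent.PTH.Tb2

/-!
# PTH PaPos: positivity tests by the trace

* `nonneg_of_rt_conj`: a self-adjoint `y` in a closed *-subalgebra `D` (here finite dimensional) with
  `rt (star d * y * d) ≥ 0` for all `d ∈ D` is `≥ 0`.  PROOF: `y = y⁺ - y⁻` (continuous functional
  calculus: `CFC.posPart`, `CFC.negPart`, `a⁺`, `a⁻`), `y⁻ ∈ D` because `D` is closed (finite dimensional:
  `Submodule.closed_of_finiteDimensional`) and `y⁻` is a norm limit of polynomials in `y` (or: the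
  elemental algebra of `y`; or Weierstrass; or `cfc` in the C*-algebra `D`), and `y⁻ y y⁻ = -(y⁻)³`, so
  `rt ((y⁻)³) ≤ 0`, `(y⁻)³ ≥ 0`, so `(y⁻)³ = 0` (`eq_zero_of_rt`) and `y⁻ = 0` (spectrum, or
  `‖y⁻‖^3 = ‖(y⁻)^3‖`; or `two`).
* `nonneg_of_rt_conj'`: the case `D = A` (no closedness needed).
* `sa_of_rt_im`: `y` with `τ(star d * y * d)` real for all `d` is self-adjoint: `z = y - y*`:
  `τ(d* z d) = 0` for all `d`, by polarisation `τ(d'* z d) = 0`, take `d = 1`, `d' = z`.
-/

open Filter Topology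
open scoped InnerProductSpace ComplexOrder

universe u

namespace Pool.Agent.PTH

variable {A : Type u} [CStarAlgebra A] [PartialOrder A] [StarOrderedRing A] [TracialVN A]

private theorem nonneg_of_rt_conj_aux {y : A} (hsa : IsSelfAdjoint y)
    (h : 0 ≤ rt (star y⁻ * y * y⁻)) : 0 ≤ y := by
  have hn : 0 ≤ y⁻ := CFC.negPart_nonneg y
  have hns : star y⁻ = y⁻ := (IsSelfAdjoint.of_nonneg hn).star_eq
  have h2 : y⁻ * y = -(y⁻ * y⁻) := by
    nth_rewrite 2 [← CFC.posPart_sub_negPart y hsa]
    rw [mul_sub, CFC.negPart_mul_posPart, zero_sub]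
  rw [hns, h2, neg_mul, rt_neg] at h
  have h3 : 0 ≤ y⁻ * y⁻ * y⁻ := by
    have := star_left_conjugate_nonneg hn y⁻
    rwa [hns] at this
  have h4 : y⁻ * y⁻ * y⁻ = 0 :=
    eq_zero_of_rt h3 (le_antisymm (by linarith) (rt_nonneg h3))
  have h5 : star (y⁻ * y⁻) * (y⁻ * y⁻) = 0 := by
    rw [star_mul, hns, ← mul_assoc, h4, zero_mul]
  have h6 : y⁻ * y⁻ = 0 := (CStarRing.star_mul_self_eq_zero_iff _).1 h5
  have h7 : y⁻ = 0 := by
    refine (CStarRing.star_mul_self_eq_zero_iff _).1 ?_
    rw [hns, h6]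
  rw [← CFC.posPart_sub_negPart y hsa, h7, sub_zero]
  exact CFC.posPart_nonneg y

theorem nonneg_of_rt_conj (D : StarSubalgebra ℂ A) [FiniteDimensional ℂ D] {y : A} (hy : y ∈ D)
    (hsa : IsSelfAdjoint y) (h : ∀ d ∈ D, 0 ≤ rt (star d * y * d)) : 0 ≤ y := by
  refine nonneg_of_rt_conj_aux hsa (h _ ?_)
  have hDc : IsClosed (D : Set A) :=
    Submodule.closed_of_finiteDimensional D.toSubalgebra.toSubmodule
  have h1 : y⁻ = cfc (fun z : ℂ => ((z.re⁻ : ℝ) : ℂ)) y := by
    rw [CFC.negPart_def, cfcₙ_eq_cfc (hf := by fun_prop), cfc_real_eq_complex (fun x : ℝ => x⁻) hsa]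
  rw [h1]
  have h2 := cfc_mem_elemental (𝕜 := ℂ) (fun z : ℂ => ((z.re⁻ : ℝ) : ℂ)) y
  exact (StarAlgebra.elemental.le_of_mem hDc hy) h2

theorem nonneg_of_rt_conj' {y : A} (hsa : IsSelfAdjoint y) (h : ∀ d : A, 0 ≤ rt (star d * y * d)) :
    0 ≤ y := by
  exact nonneg_of_rt_conj_aux hsa (h _)

theorem sa_of_rt_im {y : A} (h : ∀ d : A, (TrAlg.tau (star d * y * d)).im = 0) :
    IsSelfAdjoint y := by
  have hz : ∀ d : A, TrAlg.tau (star d * (y - star y) * d) = 0 := by
    intro d
    have h1 : star d * (y - star y) * d = star d * y * d - star (star d * y * d) := by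
      simp only [star_mul, star_star]
      noncomm_ring
    rw [h1, map_sub, TrAlg.tau_star]
    have h2 := h d
    apply Complex.ext
    · simp
    · simp [h2]
  have hp : ∀ d e : A, TrAlg.tau (star d * (y - star y) * e) = 0 := by
    intro d e
    have h1 := hz (d + e)
    have h2 := hz (d + Complex.I • e)
    have e1 : star (d + e) * (y - star y) * (d + e) = star d * (y - star y) * d +
        star e * (y - star y) * e + (star d * (y - star y) * e + star e * (y - star y) * d) := by
      simp only [star_add]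
      noncomm_ring
    have e2 : star (d + Complex.I • e) * (y - star y) * (d + Complex.I • e) =
        star d * (y - star y) * d + star e * (y - star y) * e +
          (Complex.I • (star d * (y - star y) * e) - Complex.I • (star e * (y - star y) * d)) := by
      simp only [star_add, star_smul, Complex.star_def, Complex.conj_I, add_mul, mul_add,
        smul_mul_assoc, mul_smul_comm, smul_smul, neg_smul, neg_mul, smul_add, smul_neg,
        Complex.I_mul_I, neg_neg, one_smul]
      abel
    rw [e1, map_add, map_add, hz, hz, add_zero, zero_add, map_add] at h1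
    rw [e2, map_add, map_add, hz, hz, add_zero, zero_add, map_sub, map_smul, map_smul,
      smul_eq_mul, smul_eq_mul, ← mul_sub] at h2
    have h3 := (mul_eq_zero.1 h2).resolve_left Complex.I_ne_zero
    have h4 : TrAlg.tau (star d * (y - star y) * e) + TrAlg.tau (star d * (y - star y) * e) = 0 := by
      linear_combination h1 + h3
    rw [← two_mul] at h4
    exact (mul_eq_zero.1 h4).resolve_left two_ne_zero
  have h5 := hp (y - star y) 1
  rw [mul_one] at h5
  have h6 : y - star y = 0 := by
    refine two_eq_zero ?_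
    have : two (y - star y) ^ 2 = 0 := by
      rw [two_sq_rt, rt_def, h5, Complex.zero_re]
    exact pow_eq_zero_iff two_ne_zero |>.1 this
  exact (sub_eq_zero.1 h6).symm

end Pool.Agent.PTH
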