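import Pool.Agent.PTH.PaUl

/-!
# PTH PaUlE: convergence of mass, energy and `‖Δξ‖²` along the ultrafilter

PROOF.  `m`, `E`, `Q` are finite real linear combinations of the real parts of `κ(1, 1)`, `κ(u_i, u_i*)`,
`κ(u_i* u_j, u_j* u_i)`; the lifts: `lifts_one`, `hu i`, `(hu i).star`, products (`Lifts.mul`).
`tendsto_finset_sum`, `Tendsto.const_mul`, `Complex.continuous_re`.  Note
`(expAvg h).p = (expAvg (h' n)).p = (expSym m).p` by `rfl`.
-/

/-!
# PTH PaUlE: convergence of mass, energy and `‖Δξ‖²` along the ultrafilter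

PROOF.  `m`, `E`, `Q` are finite real linear combinations of the real parts of `κ(1, 1)`, `κ(u_i, u_i*)`,
`κ(u_i* u_j, u_j* u_i)`; the lifts: `lifts_one`, `hu i`, `(hu i).star`, products (`Lifts.mul`).
`tendsto_finset_sum`, `Tendsto.const_mul`, `Complex.continuous_re`.  Note
`(expAvg h).p = (expAvg (h' n)).p = (expSym m).p` by `rfl`.
-/

open Filter Topology
open scoped InnerProductSpace ComplexOrder

universe u

namespace Pool.Agent.PTH

theorem Emb.tendsto_mEQ {M N : Type*} [CStarAlgebra M] [TrAlg M] [CStarAlgebra N] [TrAlg N]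
    {ω : Ultrafilter ℕ} (e : Emb M N ω) (κn : ℕ → Bf N) (κ : Bf M)
    (hκ : ∀ (x y : M) (x' y' : ℕ → N), e.Lifts x x' → e.Lifts y y' →
      Tendsto (fun n => (κn n).k (x' n) (y' n)) ω (𝓝 (κ.k x y)))
    {m : ℕ} (h : Fin (m + 1) → selfAdjoint M) (h' : ℕ → Fin (m + 1) → selfAdjoint N)
    (hu : ∀ i : (expSym m).ι, e.Lifts ((expAvg h).u i) (fun n => (expAvg (h' n)).u i)) :
    Tendsto (fun n => (κn n).m) ω (𝓝 κ.m) ∧
    Tendsto (fun n => (κn n).E (expAvg (h' n))) ω (𝓝 (κ.E (expAvg h))) ∧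
    Tendsto (fun n => (κn n).Q (expAvg (h' n))) ω (𝓝 (κ.Q (expAvg h))) := by
  have hre : ∀ (x y : M) (x' y' : ℕ → N), e.Lifts x x' → e.Lifts y y' →
      Tendsto (fun n => ((κn n).k (x' n) (y' n)).re) ω (𝓝 (κ.k x y).re) :=
    fun x y x' y' hx hy => (Complex.continuous_re.tendsto _).comp (hκ x y x' y' hx hy)
  have h1 : Tendsto (fun n => ((κn n).k 1 1).re) ω (𝓝 (κ.k 1 1).re) :=
    hre 1 1 (fun _ => 1) (fun _ => 1) Emb.lifts_one Emb.lifts_one
  have h2 : ∀ i : (expSym m).ι,
      Tendsto (fun n => ((κn n).k ((expAvg (h' n)).u i) (Star.star ((expAvg (h' n)).u i))).re) ω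
        (𝓝 (κ.k ((expAvg h).u i) (Star.star ((expAvg h).u i))).re) :=
    fun i => hre _ _ _ _ (hu i) (hu i).star
  have h3 : ∀ i j : (expSym m).ι,
      Tendsto (fun n => ((κn n).k (Star.star ((expAvg (h' n)).u i) * (expAvg (h' n)).u j)
          (Star.star ((expAvg (h' n)).u j) * (expAvg (h' n)).u i)).re) ω
        (𝓝 (κ.k (Star.star ((expAvg h).u i) * (expAvg h).u j)
          (Star.star ((expAvg h).u j) * (expAvg h).u i)).re) :=
    fun i j => hre _ _ _ _ ((hu i).star.mul (hu j)) ((hu j).star.mul (hu i))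
  refine ⟨h1, ?_, ?_⟩
  · have := tendsto_finsetSum (Finset.univ : Finset (expSym m).ι)
      (fun i _ => (h1.sub (h2 i)).const_mul ((expSym m).p i))
    exact this
  · have ha := (tendsto_finsetSum (Finset.univ : Finset (expSym m).ι)
      (fun i _ => (h2 i).const_mul ((expSym m).p i))).const_mul 2
    have hb := tendsto_finsetSum (Finset.univ : Finset (expSym m).ι)
      (fun i _ => tendsto_finsetSum (Finset.univ : Finset (expSym m).ι)
        (fun j _ => (h3 i j).const_mul ((expSym m).p i * (expSym m).p j)))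
    exact (h1.sub ha).add hb

end Pool.Agent.PTH
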