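import Pool.Agent.PTH.PaWal
import Pool.Agent.PTH.PaGi
import Pool.Agent.PTH.PaUlE

/-!
# PTH PaPro: Proposition A, the noisy gap at level `n` for `ω`-most `n`

PROOF.  Put `lam = κ0 / 2` (w.l.o.g. `κ0 ≤ 1`, or any `lam > 0` with `lam ≤ κ0/2`).  For every `n` let `D_n` be
the element of `exists_wall (expAvg (h' n)) c lam`, `r_n = spr D_n (1/2)`.
CLAIM: for every `μ > 0`: `rt D_n ≤ μ` for `ω`-most `n`.  Otherwise `{n | μ < rt D_n} ∈ ω`
(`Ultrafilter.eventually_not`).  For these `n` choose (third clause of `exists_wall`, `ε = μ/2`)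
`D'_n ∈ Bad`, `rt D'_n ≥ μ/2`, and `κ_n` by `bad_bf`: `Dom`, `m(κ_n) = rt D'_n / 2 ≥ μ/4`,
`lam m(κ_n) ≤ c E(κ_n) - Q(κ_n)`; for the other `n` put `κ_n = Bf.zero` (`zero_dom`).  `Emb.exists_lim`:
limit `κ` with `Dom`; `Emb.tendsto_mEQ`: `m(κ) ≥ μ/4 > 0` and `lam m(κ) ≤ c E(κ) - Q(κ)`
(`ge_of_tendsto`/`le_of_tendsto_of_tendsto` along `ω` with the eventual inequalities), but `hT κ` says
`c E(κ) - Q(κ) ≤ 0`: contradiction.
Then `h0 = lam + (1 + 1/lam) r_n`: `0 ≤ h0`, `rt h0 ≤ lam + 2 (1 + 1/lam) rt D_n ≤ κ0` when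
`rt D_n ≤ μ := κ0 / (4 (1 + 1/lam))` (`spr_half`), and `GI` by `wall` and `gi_of_wall`.
-/

open Filter Topology
open scoped InnerProductSpace ComplexOrder

universe u

namespace Pool.Agent.PTH

theorem propA {M N : Type u} [CStarAlgebra M] [TrAlg M] [CStarAlgebra N] [PartialOrder N]
    [StarOrderedRing N] [TracialVN N] {ω : Ultrafilter ℕ} (e : Emb M N ω)
    {m : ℕ} (h : Fin (m + 1) → selfAdjoint M) (c : ℝ) (hc : 0 < c) (hc1 : c < 1)
    (hT : ∀ κ : Bf M, κ.Dom → c * κ.E (expAvg h) ≤ κ.Q (expAvg h))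
    (h' : ℕ → Fin (m + 1) → selfAdjoint N)
    (hu : ∀ i : (expSym m).ι, e.Lifts ((expAvg h).u i) (fun n => (expAvg (h' n)).u i))
    (κ0 : ℝ) (hκ0 : 0 < κ0) :
    ∀ᶠ n in (ω : Filter ℕ), ∃ h0 : N, 0 ≤ h0 ∧ rt h0 ≤ κ0 ∧ GI (expAvg (h' n)) h0 c := by
  set lam : ℝ := κ0 / 2 with hlamdef
  have hlam : 0 < lam := by positivity
  choose D hD0 hD1 hDε hDmax using fun n => exists_wall (expAvg (h' n)) c lam
  have claim : ∀ μ : ℝ, 0 < μ → ∀ᶠ n in (ω : Filter ℕ), rt (D n) ≤ μ := by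
    intro μ hμ
    by_contra hcon
    have hev : ∀ᶠ n in (ω : Filter ℕ), μ < rt (D n) := by
      have := Ultrafilter.eventually_not.2 hcon
      exact this.mono fun n hn => not_le.1 hn
    have hex : ∀ n, ∃ κ : Bf N, κ.Dom ∧ (μ < rt (D n) → μ / 4 ≤ κ.m ∧
        lam * κ.m ≤ c * κ.E (expAvg (h' n)) - κ.Q (expAvg (h' n))) := by
      intro n
      by_cases hn : μ < rt (D n)
      · obtain ⟨D', hD', -, hrt⟩ := hDε n (μ / 2) (by positivity)
        obtain ⟨κ, hdom, hm, hbad⟩ := bad_bf (expAvg (h' n)) c lam hD'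
        refine ⟨κ, hdom, fun _ => ⟨?_, hbad⟩⟩
        rw [hm]
        linarith
      · exact ⟨Bf.zero, Bf.zero_dom, fun h2 => absurd h2 hn⟩
    choose κn hdom hκn using hex
    obtain ⟨κ, hκdom, hκ⟩ := e.exists_lim κn hdom
    obtain ⟨t1, t2, t3⟩ := e.tendsto_mEQ κn κ hκ h h' hu
    have hm : μ / 4 ≤ κ.m := ge_of_tendsto t1 (hev.mono fun n hn => (hκn n hn).1)
    have hb : lam * κ.m ≤ c * κ.E (expAvg h) - κ.Q (expAvg h) :=
      le_of_tendsto_of_tendsto (t1.const_mul lam) ((t2.const_mul c).sub t3)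
        (hev.mono fun n hn => (hκn n hn).2)
    have h1 := hT κ hκdom
    have h2 : 0 < lam * κ.m := mul_pos hlam (by linarith)
    linarith
  have hA : 0 < 1 + 1 / lam := by positivity
  refine (claim (κ0 / (4 * (1 + 1 / lam))) (by positivity)).mono fun n hn => ?_
  obtain ⟨hr, hDr, hrt⟩ := spr_half (hD0 n) (hD1 n)
  refine ⟨lam • (1 : N) + (1 + 1 / lam) • spr (D n) (1 / 2), ?_, ?_, ?_⟩
  · exact add_nonneg (smul_nonneg hlam.le zero_le_one) (smul_nonneg hA.le (proj_nonneg hr))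
  · have h1 : rt (1 : N) = 1 := by
      unfold rt
      rw [TrAlg.tau_one, Complex.one_re]
    rw [rt_add, rt_smul, rt_smul, h1]
    have h2 : (1 + 1 / lam) * rt (spr (D n) (1 / 2)) ≤
        (1 + 1 / lam) * (2 * (κ0 / (4 * (1 + 1 / lam)))) := by
      refine mul_le_mul_of_nonneg_left (hrt.trans ?_) hA.le
      linarith
    have h3 : (1 + 1 / lam) * (2 * (κ0 / (4 * (1 + 1 / lam)))) = κ0 / 2 := by
      field_simp
      norm_num
    rw [h3] at h2
    linarith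
  · exact gi_of_wall (expAvg (h' n)) c lam hc.le hc1.le hlam hr
      (fun B ξ hb hl hr' => wall (expAvg (h' n)) c lam hr hDr (hDmax n) B ξ hb hl hr')

end Pool.Agent.PTH
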