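import Pool.Agent.PTH.Ex12
import Pool.Agent.PTH.MxDif

/-! # PTH: the finite-level theorem (Theorem B, sections 3, 4 of t517_v2.md) -/

open Filter Topology
open scoped InnerProductSpace ComplexOrder

universe u

namespace Pool.Agent.PTH

/-- THEOREM B. -/
theorem thmB (c pm ε : ℝ) (hc : 0 < c) (hc1 : c < 1) (hpm : 0 < pm) (hε : 0 < ε) :
    ∃ κ > 0,
      ∀ (A : Type u) [CStarAlgebra A] [PartialOrder A] [StarOrderedRing A] [TracialVN A]
        (a : Avg A) (h : A), IsII1 A → SHaag A → (∀ i, pm ≤ a.p i) → 0 ≤ h → rt h ≤ κ →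
        GI a h c →
        ∃ D : StarSubalgebra ℂ A, FiniteDimensional ℂ D ∧
          ∃ d : a.ι → A, (∀ i, d i ∈ D) ∧ ∑ i, a.p i * two (a.u i - d i) ^ 2 ≤ ε := by
  set t : ℝ := min (ε / 58) (1 / 4) with ht
  have ht0 : 0 < t := lt_min (by positivity) (by norm_num)
  have ht1 : t ≤ 1 / 4 := min_le_right _ _
  have ht2 : 58 * t ≤ ε := by
    have := min_le_left (ε / 58) (1 / 4 : ℝ)
    rw [← ht] at this
    linarith
  obtain ⟨κ, hκ, σ, H⟩ := exhaust.{u} c pm t t t hc hc1 hpm ht0 (by linarith) ht0 ht0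
  refine ⟨κ, hκ, ?_⟩
  intro A _ _ _ _ a h hA hH hp hh hκ' hG
  obtain ⟨m, x, h1, h2, h3⟩ := H A a h hH hp hh hκ' hG
  obtain ⟨D, hD, d, hd, hd2⟩ := assemble a ht0 (by linarith) ht0 ht0 (by linarith)
    (fun J _ _ P hs hP p hp h => mxRow hA.1 P hs hP p hp h)
    (fun q t hq h0 h => mxDif hA q t hq h0 h) m x h1 h2 h3
  exact ⟨D, hD, d, hd, hd2.trans (by linarith)⟩

end Pool.Agent.PTH
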