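import Pool.Agent.PTH.PaPro
import Pool.Agent.PTH.ThmB
import Pool.Agent.PTH.PaEbf
import Pool.Agent.PTH.Tb0

/-!
# PTH PaRed: reduction of the theorem to Theorem B

STEP 1 (`exists_D`).  For `k : ℕ` Theorem B (`thmB`) with `c`, `pm` = the smallest weight
`min (1/2) (1/(4(m+1)))` of `expSym m`, `ε = 1/(k+1)` gives `κ_k > 0`; `propA` with `κ0 = κ_k`:
`A_k = {n | ∃ h0, ..}` is in `ω`; for `n ∈ A_k` there is `D` with `∑ p_i two (u_{i,n} - d_i)² ≤ 1/(k+1)`.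
For each `n` let `k(n)` be the largest `k ≤ n` with `n ∈ A_k` (if there is one; `D_n` for it; otherwise
`D_n = ⊥`, `FiniteDimensional ℂ (⊥ : StarSubalgebra ℂ N)`).  `A_K ∩ {n ≥ K} ∈ ω` (`ω` is free:
`hω : ω ≤ cofinite`) and on it `k(n) ≥ K`; so `∑ p_i two (u_{i,n} - d_{i,n})² ≤ 1/(K+1)`.
STEP 2 (`all_of_D`).  `E_n` = conditional expectation onto `D_n` (`exists_expect`), `κ_n` its biform
(`exists_expect_bf`); `κ` = the limit biform (`Emb.exists_lim`).  `E(κ_n) = ∑ p_i (1 - Re τ(E_n(u_i) u_i*))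
= ∑ p_i two (u_i - E_n u_i)² ≤ ∑ p_i two (u_i - d_i)² → 0` (`τ(E(u) u*) = τ(E(u) E(u)*)`, `two u_i = 1`,
`E_n u_i` is the nearest point: `two (u - d)² = two (u - E u)² + two (E u - d)²`).  So `E(κ) = 0`
(`Emb.tendsto_mEQ`), and the second part of T0 (`hT2`) gives for `x ∈ M` with lift `x'`:
`2 (two x)² = κ(x*x,1) + κ(1,xx*) = 2 Re κ(x*, x) = lim 2 Re τ(E_n(x'*) x') = lim 2 (two (E_n x'))²`.
As `(two (x' - E_n x'))² = (two x')² - (two (E_n x'))²` it tends to `0` (`Lifts.tendsto_two`).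
`d_n = E_n (x'_n) ∈ D_n`, `‖d_n‖ ≤ ‖x'_n‖`: `Lifts.congr`.
-/

open Filter Topology
open scoped InnerProductSpace ComplexOrder

universe u

namespace Pool.Agent.PTH

variable {M N : Type u} [CStarAlgebra M] [TrAlg M] [CStarAlgebra N] [PartialOrder N]
    [StarOrderedRing N] [TracialVN N] {ω : Ultrafilter ℕ}

private theorem parFinDimBot {N : Type u} [CStarAlgebra N] :
    FiniteDimensional ℂ (⊥ : StarSubalgebra ℂ N) := by
  refine Module.Finite.of_surjective (Algebra.linearMap ℂ (⊥ : StarSubalgebra ℂ N)) ?_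
  rintro ⟨x, hx⟩
  obtain ⟨c, hc⟩ := StarSubalgebra.mem_bot.1 hx
  exact ⟨c, Subtype.ext hc⟩

theorem exists_D (hω : (ω : Filter ℕ) ≤ cofinite) (hN : IsII1 N) (hH : SHaag N) (e : Emb M N ω)
    {m : ℕ} (h : Fin (m + 1) → selfAdjoint M) (c : ℝ) (hc : 0 < c) (hc1 : c < 1)
    (hT : ∀ κ : Bf M, κ.Dom → c * κ.E (expAvg h) ≤ κ.Q (expAvg h))
    (h' : ℕ → Fin (m + 1) → selfAdjoint N)
    (hu : ∀ i : (expSym m).ι, e.Lifts ((expAvg h).u i) (fun n => (expAvg (h' n)).u i)) :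
    ∃ (D : ℕ → StarSubalgebra ℂ N) (d : ℕ → (expSym m).ι → N),
      (∀ n, FiniteDimensional ℂ (D n)) ∧ (∀ n i, d n i ∈ D n) ∧
      Tendsto (fun n => ∑ i, (expSym m).p i * two ((expAvg (h' n)).u i - d n i) ^ 2) ω (𝓝 0) := by
  classical
  set pm : ℝ := min (1 / 2) (1 / (4 * ((m : ℝ) + 1))) with hpm
  have hpm0 : 0 < pm := lt_min (by norm_num) (by positivity)
  have hp : ∀ (n : ℕ) (i : (expSym m).ι), pm ≤ (expAvg (h' n)).p i := by
    intro n i
    rcases i with _ | ⟨j, b⟩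
    · exact min_le_left _ _
    · exact min_le_right _ _
  have hP : ∀ k : ℕ, ∀ᶠ n in (ω : Filter ℕ), ∃ (D : StarSubalgebra ℂ N) (d : (expSym m).ι → N),
      FiniteDimensional ℂ D ∧ (∀ i, d i ∈ D) ∧
      ∑ i, (expSym m).p i * two ((expAvg (h' n)).u i - d i) ^ 2 ≤ 1 / ((k : ℝ) + 1) := by
    intro k
    obtain ⟨κ, hκ, H⟩ := thmB.{u} c pm (1 / ((k : ℝ) + 1)) hc hc1 hpm0 (by positivity)
    filter_upwards [propA e h c hc hc1 hT h' hu κ hκ] with n hn
    obtain ⟨h0, h1, h2, h3⟩ := hn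
    obtain ⟨D, hD, d, hd, hd2⟩ := H N (expAvg (h' n)) h0 hN hH (hp n) h1 h2 h3
    exact ⟨D, d, hD, hd, hd2⟩
  have hsel : ∀ n : ℕ, ∃ (D : StarSubalgebra ℂ N) (d : (expSym m).ι → N),
      FiniteDimensional ℂ D ∧ (∀ i, d i ∈ D) ∧ ∀ k ≤ n,
      (∃ (D : StarSubalgebra ℂ N) (d : (expSym m).ι → N),
        FiniteDimensional ℂ D ∧ (∀ i, d i ∈ D) ∧
        ∑ i, (expSym m).p i * two ((expAvg (h' n)).u i - d i) ^ 2 ≤ 1 / ((k : ℝ) + 1)) →
      ∑ i, (expSym m).p i * two ((expAvg (h' n)).u i - d i) ^ 2 ≤ 1 / ((k : ℝ) + 1) := by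
    intro n
    by_cases hex : ((Finset.range (n + 1)).filter fun k : ℕ =>
        ∃ (D : StarSubalgebra ℂ N) (d : (expSym m).ι → N),
        FiniteDimensional ℂ D ∧ (∀ i, d i ∈ D) ∧
        ∑ i, (expSym m).p i * two ((expAvg (h' n)).u i - d i) ^ 2 ≤ 1 / ((k : ℝ) + 1)).Nonempty
    · obtain ⟨k0, hk0, hmax⟩ := Finset.exists_max_image _ (fun k => k) hex
      obtain ⟨D, d, hD, hd, hs⟩ := (Finset.mem_filter.1 hk0).2
      refine ⟨D, d, hD, hd, fun k hk hkP => hs.trans ?_⟩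
      have h1 := hmax k (Finset.mem_filter.2 ⟨Finset.mem_range.2 (by omega), hkP⟩)
      have h2 : (k : ℝ) ≤ (k0 : ℝ) := by exact_mod_cast h1
      exact one_div_le_one_div_of_le (by positivity) (by linarith)
    · refine ⟨⊥, fun _ => 0, parFinDimBot, fun _ => zero_mem _, fun k hk hkP => ?_⟩
      exact absurd ⟨k, Finset.mem_filter.2 ⟨Finset.mem_range.2 (by omega), hkP⟩⟩ hex
  choose D d hD hd hs using hsel
  refine ⟨D, d, hD, hd, ?_⟩
  have hnn : ∀ n, 0 ≤ ∑ i, (expSym m).p i * two ((expAvg (h' n)).u i - d n i) ^ 2 := fun n =>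
    Finset.sum_nonneg fun i _ => mul_nonneg ((expSym m).p_pos i).le (sq_nonneg _)
  rw [Metric.tendsto_nhds]
  intro ε hε
  obtain ⟨k, hk⟩ := exists_nat_one_div_lt hε
  have hge : ∀ᶠ n in (ω : Filter ℕ), k ≤ n := by
    have h1 : ∀ᶠ n in (cofinite : Filter ℕ), k ≤ n := by
      rw [Nat.cofinite_eq_atTop]
      exact eventually_ge_atTop k
    exact h1.filter_mono hω
  filter_upwards [hP k, hge] with n h1 h2
  rw [Real.dist_eq, sub_zero, abs_of_nonneg (hnn n)]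
  exact (hs n k h2 h1).trans_lt hk

section expect

variable {N : Type u} [CStarAlgebra N] [TrAlg N] {D : StarSubalgebra ℂ N} {E : N →ₗ[ℂ] N}

private theorem parCross (h1 : ∀ x, E x ∈ D)
    (h2 : ∀ x, ∀ d ∈ D, TrAlg.tau (E x * d) = TrAlg.tau (x * d)) (x : N) {d : N} (hd : d ∈ D) :
    rt (star (x - E x) * d) = 0 := by
  have e1 : rt (star (x - E x) * d) = rt ((x - E x) * star d) := by
    rw [← rt_star, star_mul, star_star, rt_comm]
  rw [e1, sub_mul, rt_sub, rt_def, rt_def, h2 x (star d) (star_mem hd), sub_self]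

private theorem parPyth (h1 : ∀ x, E x ∈ D)
    (h2 : ∀ x, ∀ d ∈ D, TrAlg.tau (E x * d) = TrAlg.tau (x * d)) (x : N) {d : N} (hd : d ∈ D) :
    two (x - d) ^ 2 = two (x - E x) ^ 2 + two (E x - d) ^ 2 := by
  have e1 : x - d = (x - E x) + (E x - d) := by abel
  rw [e1, two_add_sq, parCross h1 h2 x (sub_mem (h1 x) hd)]
  ring

private theorem parPyth0 (h1 : ∀ x, E x ∈ D)
    (h2 : ∀ x, ∀ d ∈ D, TrAlg.tau (E x * d) = TrAlg.tau (x * d)) (x : N) :
    two (x - E x) ^ 2 = two x ^ 2 - two (E x) ^ 2 := by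
  have h := parPyth h1 h2 x (zero_mem D)
  rw [sub_zero, sub_zero] at h
  linarith

private theorem parTwoE (h1 : ∀ x, E x ∈ D)
    (h2 : ∀ x, ∀ d ∈ D, TrAlg.tau (E x * d) = TrAlg.tau (x * d)) (x : N) :
    two (E x) ^ 2 = rt (E x * star x) := by
  rw [two_sq_rt', rt_def, h2 x _ (star_mem (h1 x)), ← rt_def, ← rt_star, star_mul, star_star]

end expect

theorem all_of_D (e : Emb M N ω)
    {m : ℕ} (h : Fin (m + 1) → selfAdjoint M)
    (hT2 : ∀ κ : Bf M, κ.Dom → κ.E (expAvg h) = 0 → ∀ x : M,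
          (κ.k (star x * x) 1).re + (κ.k 1 (x * star x)).re = 2 * (κ.k (star x) x).re)
    (h' : ℕ → Fin (m + 1) → selfAdjoint N)
    (hu : ∀ i : (expSym m).ι, e.Lifts ((expAvg h).u i) (fun n => (expAvg (h' n)).u i))
    (D : ℕ → StarSubalgebra ℂ N) (d : ℕ → (expSym m).ι → N)
    (hD : ∀ n, FiniteDimensional ℂ (D n)) (hd : ∀ n i, d n i ∈ D n)
    (hlim : Tendsto (fun n => ∑ i, (expSym m).p i * two ((expAvg (h' n)).u i - d n i) ^ 2)
      ω (𝓝 0)) (x : M) :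
    ∃ y : ℕ → N, (∀ n, y n ∈ D n) ∧ e.Lifts x y := by
  have hE : ∀ n, ∃ E : N →ₗ[ℂ] N, (∀ x, E x ∈ D n) ∧
      (∀ x, ∀ d ∈ D n, TrAlg.tau (E x * d) = TrAlg.tau (x * d)) ∧
      (∀ d ∈ D n, E d = d) ∧ (∀ x, E (star x) = star (E x)) ∧ (∀ x, ‖E x‖ ≤ ‖x‖) ∧
      ∃ κ : Bf N, κ.Dom ∧ ∀ x y, κ.k x y = TrAlg.tau (E x * y) := by
    intro n
    have := hD n
    obtain ⟨E, h1, h2, h3, h4, -, -, h7⟩ := exists_expect (D n)
    exact ⟨E, h1, h2, h3, h4, h7, exists_expect_bf (D n) E h1 h2 h4⟩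
  choose E h1 h2 h3 h4 h7 κn hdom hk using hE
  obtain ⟨κ, hκd, hκ⟩ := e.exists_lim κn hdom
  obtain ⟨-, hlimE, -⟩ := e.tendsto_mEQ κn κ hκ h h' hu
  -- the energy of `κn` is small
  have hEn : ∀ n, (κn n).E (expAvg (h' n)) ≤
      ∑ i, (expSym m).p i * two ((expAvg (h' n)).u i - d n i) ^ 2 := by
    intro n
    unfold Bf.E
    refine Finset.sum_le_sum fun i _ => ?_
    refine mul_le_mul_of_nonneg_left ?_ ((expAvg (h' n)).p_pos i).le
    rw [hk, hk, h3 n 1 (one_mem _)]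
    have e1 : (TrAlg.tau ((1 : N) * 1)).re = 1 := by
      rw [mul_one, TrAlg.tau_one, Complex.one_re]
    have e2 : (TrAlg.tau (E n ((expAvg (h' n)).u i) * star ((expAvg (h' n)).u i))).re =
        two (E n ((expAvg (h' n)).u i)) ^ 2 := (parTwoE (h1 n) (h2 n) _).symm
    have e3 : two ((expAvg (h' n)).u i) ^ 2 = 1 := by
      rw [two_sq_rt, (expAvg (h' n)).u_star_mul, rt_one]
    have e4 := parPyth (h1 n) (h2 n) ((expAvg (h' n)).u i) (hd n i)
    have e5 := parPyth0 (h1 n) (h2 n) ((expAvg (h' n)).u i)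
    have e6 := sq_nonneg (two (E n ((expAvg (h' n)).u i) - d n i))
    rw [e1, e2]
    linarith
  have hE0 : Tendsto (fun n => (κn n).E (expAvg (h' n))) ω (𝓝 0) :=
    squeeze_zero (fun n => (κn n).E_nonneg _) hEn hlim
  have hEz : κ.E (expAvg h) = 0 := tendsto_nhds_unique hlimE hE0
  have hT := hT2 κ hκd hEz x
  -- the limits
  have hl := e.lifts_lift x
  have htwo : Tendsto (fun n => two (e.lift x n) ^ 2) ω (𝓝 (two x ^ 2)) := hl.tendsto_two.pow 2
  have l1 : (κ.k (star x * x) 1).re = two x ^ 2 := by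
    have a1 := (Complex.continuous_re.tendsto _).comp
      (hκ _ _ _ _ (hl.star.mul hl) (Emb.lifts_one (e := e)))
    refine tendsto_nhds_unique a1 (htwo.congr fun n => ?_)
    simp only [Function.comp_apply]
    rw [hk, h2 n _ 1 (one_mem _), mul_one, two_sq]
  have l2 : (κ.k 1 (x * star x)).re = two x ^ 2 := by
    have a1 := (Complex.continuous_re.tendsto _).comp
      (hκ _ _ _ _ (Emb.lifts_one (e := e)) (hl.mul hl.star))
    refine tendsto_nhds_unique a1 (htwo.congr fun n => ?_)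
    simp only [Function.comp_apply]
    rw [hk, h3 n 1 (one_mem _), one_mul, two_sq_rt', rt_def]
  have l3 : Tendsto (fun n => two (E n (e.lift x n)) ^ 2) ω (𝓝 ((κ.k (star x) x).re)) := by
    have a1 := (Complex.continuous_re.tendsto _).comp (hκ _ _ _ _ hl.star hl)
    refine a1.congr fun n => ?_
    simp only [Function.comp_apply]
    rw [hk, h4, parTwoE (h1 n) (h2 n), ← rt_def, ← rt_star, star_mul, star_star, rt_comm]
  have l4 : (κ.k (star x) x).re = two x ^ 2 := by linarith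
  rw [l4] at l3
  have l5 : Tendsto (fun n => two (e.lift x n - E n (e.lift x n)) ^ 2) ω (𝓝 0) := by
    have a1 := htwo.sub l3
    rw [sub_self] at a1
    exact a1.congr fun n => (parPyth0 (h1 n) (h2 n) (e.lift x n)).symm
  have l6 : Tendsto (fun n => two (e.lift x n - E n (e.lift x n))) ω (𝓝 0) := by
    have a1 := (Real.continuous_sqrt.tendsto _).comp l5
    rw [Real.sqrt_zero] at a1
    refine a1.congr fun n => ?_
    simp only [Function.comp_apply]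
    exact Real.sqrt_sq (two_nonneg _)
  refine ⟨fun n => E n (e.lift x n), fun n => h1 n _, hl.congr ?_ l6⟩
  obtain ⟨C, hC⟩ := e.bdd x
  exact ⟨C, fun n => (h7 n _).trans (hC n)⟩

end Pool.Agent.PTH
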