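import Pool.Agent.PTH.PaLif
import Pool.Agent.PTH.PaBf

/-!
# PTH PaUl: the limit biform along an embedding in the ultrapower

THEOREM.  Let `κ_n` be biforms on `N` with densities `≤ 1` (`Dom`).  There is a biform `κ` on `M` with `Dom`
such that `κ(x, y) = lim_ω κ_n(x'_n, y'_n)` for all bounded lifts `x'` of `x`, `y'` of `y`.

PROOF.  `|κ_n(x', y')| ≤ two x' · two y'` (`Bf.k_le`).  For bounded sequences the numbers
`κ_n(lift x n, lift y n)` are bounded, so they converge along the ultrafilter `ω` (see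
`TU.exists_tendsto_tau` in PTH/Tr.lean): call the limit `k x y`.  If `x'`, `y'` are other lifts, then
`κ_n(x', y') - κ_n(lift x, lift y) = κ_n(x' - lift x, y') + κ_n(lift x, y' - lift y) → 0`.  Additivity and
homogeneity of `k` follow from `Lifts.add`, `Lifts.smul` (both sides are limits for lifts of the same
element).  `pos`: the sum is the limit of `∑∑ κ_n(x'_i* x'_j, y'_j y'_i*) ≥ 0` (closedness of
`{z | 0 ≤ z}` in `ℂ`: `ge_of_tendsto` or `isClosed_Ici`).  `Dom`: limit of
`Re κ_n(x'* x', 1) ≤ (two x')²`, and `two x' → two x` (`Lifts.tendsto_two`).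
-/

open Filter Topology
open scoped InnerProductSpace ComplexOrder

universe u

namespace Pool.Agent.PTH

theorem Emb.exists_lim {M N : Type*} [CStarAlgebra M] [TrAlg M] [CStarAlgebra N] [TrAlg N]
    {ω : Ultrafilter ℕ} (e : Emb M N ω) (κn : ℕ → Bf N) (hd : ∀ n, (κn n).Dom) :
    ∃ κ : Bf M, κ.Dom ∧ ∀ (x y : M) (x' y' : ℕ → N), e.Lifts x x' → e.Lifts y y' →
      Tendsto (fun n => (κn n).k (x' n) (y' n)) ω (𝓝 (κ.k x y)) := by
  have hlim : ∀ x y : M, ∃ z : ℂ,
      Tendsto (fun n => (κn n).k (e.lift x n) (e.lift y n)) ω (𝓝 z) := by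
    intro x y
    obtain ⟨C, hC⟩ := e.bdd x
    obtain ⟨D, hD⟩ := e.bdd y
    have hC0 : 0 ≤ C := (norm_nonneg _).trans (hC 0)
    have hK : IsCompact (Metric.closedBall (0 : ℂ) (C * D)) := isCompact_closedBall _ _
    have h := hK.ultrafilter_le_nhds (ω.map fun n => (κn n).k (e.lift x n) (e.lift y n)) (by
      rw [Filter.le_principal_iff, Ultrafilter.mem_coe, Ultrafilter.mem_map]
      refine Filter.univ_mem' fun n => ?_
      refine mem_closedBall_zero_iff.2 ?_
      refine (Bf.k_le (hd n) _ _).trans ?_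
      exact mul_le_mul ((two_le_norm _).trans (hC n)) ((two_le_norm _).trans (hD n))
        (two_nonneg _) hC0)
    obtain ⟨z, -, hz⟩ := h
    exact ⟨z, hz⟩
  choose k hk using hlim
  have key : ∀ (x y : M) (x' y' : ℕ → N), e.Lifts x x' → e.Lifts y y' →
      Tendsto (fun n => (κn n).k (x' n) (y' n)) ω (𝓝 (k x y)) := by
    intro x y x' y' hx hy
    obtain ⟨C, hC⟩ := e.bdd x
    obtain ⟨D, hD⟩ := hy.1
    have hC0 : 0 ≤ C := (norm_nonneg _).trans (hC 0)
    have h1 : Tendsto (fun n => two (e.lift x n - x' n) * D + C * two (e.lift y n - y' n)) ω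
        (𝓝 0) := by
      have := (hx.2.mul_const D).add (hy.2.const_mul C)
      simpa using this
    have h0 : Tendsto (fun n => (κn n).k (x' n) (y' n) -
        (κn n).k (e.lift x n) (e.lift y n)) ω (𝓝 0) := by
      refine squeeze_zero_norm (fun n => ?_) h1
      have e1 : (κn n).k (x' n) (y' n) - (κn n).k (e.lift x n) (e.lift y n) =
          (κn n).k (x' n - e.lift x n) (y' n) + (κn n).k (e.lift x n) (y' n - e.lift y n) := by
        simp only [map_sub, LinearMap.sub_apply]
        ring
      rw [e1]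
      refine (norm_add_le _ _).trans (add_le_add ?_ ?_)
      · refine (Bf.k_le (hd n) _ _).trans ?_
        rw [two_sub_comm]
        exact mul_le_mul_of_nonneg_left ((two_le_norm _).trans (hD n)) (two_nonneg _)
      · refine (Bf.k_le (hd n) _ _).trans ?_
        rw [two_sub_comm (y' n)]
        exact mul_le_mul_of_nonneg_right ((two_le_norm _).trans (hC n)) (two_nonneg _)
    have h2 := h0.add (hk x y)
    simpa using h2
  have hl := fun x : M => e.lifts_lift x
  have hadd1 : ∀ x x₁ y : M, k (x + x₁) y = k x y + k x₁ y := by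
    intro x x₁ y
    have h1 := key _ _ _ _ ((hl x).add (hl x₁)) (hl y)
    have h2 := (key _ _ _ _ (hl x) (hl y)).add (key _ _ _ _ (hl x₁) (hl y))
    refine tendsto_nhds_unique h1 (h2.congr fun n => ?_)
    rw [map_add, LinearMap.add_apply]
  have hadd2 : ∀ x y y₁ : M, k x (y + y₁) = k x y + k x y₁ := by
    intro x y y₁
    have h1 := key _ _ _ _ (hl x) ((hl y).add (hl y₁))
    have h2 := (key _ _ _ _ (hl x) (hl y)).add (key _ _ _ _ (hl x) (hl y₁))
    refine tendsto_nhds_unique h1 (h2.congr fun n => ?_)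
    rw [map_add]
  have hsm1 : ∀ (c : ℂ) (x y : M), k (c • x) y = c • k x y := by
    intro c x y
    have h1 := key _ _ _ _ ((hl x).smul c) (hl y)
    have h2 := (key _ _ _ _ (hl x) (hl y)).const_smul c
    refine tendsto_nhds_unique h1 (h2.congr fun n => ?_)
    rw [map_smul, LinearMap.smul_apply]
  have hsm2 : ∀ (c : ℂ) (x y : M), k x (c • y) = c • k x y := by
    intro c x y
    have h1 := key _ _ _ _ (hl x) ((hl y).smul c)
    have h2 := (key _ _ _ _ (hl x) (hl y)).const_smul c
    refine tendsto_nhds_unique h1 (h2.congr fun n => ?_)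
    rw [map_smul]
  have hpos : ∀ (m : ℕ) (x y : Fin m → M),
      0 ≤ ∑ i, ∑ j, k (Star.star (x i) * x j) (y j * Star.star (y i)) := by
    intro m x y
    have h1 : Tendsto (fun n => ∑ i, ∑ j,
        (κn n).k (Star.star (e.lift (x i) n) * e.lift (x j) n)
          (e.lift (y j) n * Star.star (e.lift (y i) n))) ω
        (𝓝 (∑ i, ∑ j, k (Star.star (x i) * x j) (y j * Star.star (y i)))) := by
      refine tendsto_finsetSum _ fun i _ => tendsto_finsetSum _ fun j _ => ?_
      exact key _ _ _ _ ((hl (x i)).star.mul (hl (x j))) ((hl (y j)).mul (hl (y i)).star)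
    exact ge_of_tendsto' h1 fun n => (κn n).pos m _ _
  refine ⟨⟨LinearMap.mk₂ ℂ k hadd1 hsm1 hadd2 hsm2, hpos⟩, ?_, ?_⟩
  · intro x
    have ht := (hl x).tendsto_two.pow 2
    constructor
    · have h1 := (Complex.continuous_re.tendsto _).comp
        (key _ _ _ _ ((hl x).star.mul (hl x)) Emb.lifts_one)
      exact le_of_tendsto_of_tendsto' h1 ht fun n => (hd n (e.lift x n)).1
    · have h1 := (Complex.continuous_re.tendsto _).comp
        (key _ _ _ _ Emb.lifts_one ((hl x).star.mul (hl x)))
      exact le_of_tendsto_of_tendsto' h1 ht fun n => (hd n (e.lift x n)).2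
  · intro x y x' y' hx hy
    exact key x y x' y' hx hy

end Pool.Agent.PTH
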