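import Pool.Agent.PTH.PaBad
import Pool.Agent.PTH.PaVec
import Pool.Agent.PTH.AvC
import Pool.Agent.PTH.Tb6

/-!
# PTH PaWal: no bad vectors behind the wall

`D` maximal as in `exists_wall`, `r = 1_{D > 1/2}`, `q = 1 - r`.

PROOF of `spr_half`: toolbox (`spr` is a projection commuting with `D`; `(1/2) r ≤ D` so
`rt r ≤ 2 rt D`; `D q ≤ (1/2) q`, `D r ≤ r` since `D ≤ 1`, and `D = D r + D q`
with `r D r = D r`, `q D q = D q`).

PROOF of `wall`.  Let `ξ` be a vector with bounded densities, `r ξ = 0 = ξ r`, and suppose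
`c e(ξ) - ‖Δξ‖² > lam ‖ξ‖²`.  Let `x`, `y` be the left and right densities (`LD`, `RD`).
`κ = B.bf ξ`: `κ(z, 1) = τ(z x)`, `κ(1, z) = τ(z y)` (`bf_k`, `r_one`, `l_one`).  As `q ξ = ξ`
(`q = 1 - r`): `τ(z x) = ⟪qξ, z q ξ⟫ = ⟪ξ, q z q ξ⟫ = τ(q z q x) = τ(z q x q)` for all `z`, so
`x = q x q` (faithful trace: `τ(z w) = 0` for all `z`, take `z = w*`), similarly `y = q y q` (`ξ q = ξ`).  With
`s = ‖x + y‖`, `x + y = q (x + y) q ≤ s q`.  Take `t > 0` with `t s ≤ 1/2`: `t (x + y) ≤ (1/2) q`, and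
`D ≤ r + (1/2) q`, so `D + t (x + y) ≤ r + q = 1`.  `t (x+y) ∈ Bad a c lam` by `κ.scale t`
(`m`, `E`, `Q` scale; `bf_m`, `bf_E`, `bf_Q`; `t (x + y) ≤ 1`).  So `t (x+y) = 0`, `x + y = 0`, `x = 0`
(`0 ≤ x ≤ x + y`), `‖ξ‖² = κ.m = rt x = 0`, `ξ = 0`, and then `c e(ξ) - ‖Δξ‖² = 0 = lam ‖ξ‖²`, a
contradiction.
-/

open Filter Topology
open scoped InnerProductSpace ComplexOrder

universe u

namespace Pool.Agent.PTH

variable {A : Type u} [CStarAlgebra A] [PartialOrder A] [StarOrderedRing A] [TracialVN A]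

theorem spr_half {D : A} (h0 : 0 ≤ D) (h1 : D ≤ 1) :
    Prj (spr D (1 / 2)) ∧ D ≤ spr D (1 / 2) + (1 / 2 : ℝ) • (1 - spr D (1 / 2)) ∧
      rt (spr D (1 / 2)) ≤ 2 * rt D := by
  have hs : IsSelfAdjoint D := IsSelfAdjoint.of_nonneg h0
  have hp := spr_prj D (1 / 2)
  refine ⟨hp, ?_, ?_⟩
  · have e1 : D = D * spr D (1 / 2) + D * (1 - spr D (1 / 2)) := by noncomm_ring
    have h2 := mul_one_sub_spr_le hs (1 / 2)
    have h3 : D * spr D (1 / 2) ≤ spr D (1 / 2) := by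
      have h4 : star (spr D (1 / 2)) * D * spr D (1 / 2) ≤
          star (spr D (1 / 2)) * 1 * spr D (1 / 2) := star_left_conjugate_le_conjugate h1 _
      rw [mul_one, hp.1, hp.2, (spr_comm hs (Commute.refl D) (1 / 2)).eq, mul_assoc, hp.2] at h4
      exact h4
    calc D = D * spr D (1 / 2) + D * (1 - spr D (1 / 2)) := e1
      _ ≤ spr D (1 / 2) + (1 / 2 : ℝ) • (1 - spr D (1 / 2)) := add_le_add h3 h2
  · have h2 := rt_mono (smul_spr_le h0 (t := 1 / 2) (by norm_num))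
    rw [rt_smul] at h2
    linarith

private theorem eq_of_tau {x y : A} (h : ∀ z : A, TrAlg.tau (z * x) = TrAlg.tau (z * y)) :
    x = y := by
  have h1 := h (star (x - y))
  have h2 : TrAlg.tau (star (x - y) * (x - y)) = 0 := by
    rw [mul_sub, map_sub, h1, sub_self]
  have h3 : two (x - y) ^ 2 = 0 := by
    rw [two_sq, h2, Complex.zero_re]
  exact sub_eq_zero.1 (two_eq_zero (pow_eq_zero_iff two_ne_zero |>.1 h3))

/-- the densities of a vector killed by `r` live under `1 - r` -/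
private theorem dens_conj {r x : A}
    (h : ∀ z : A, TrAlg.tau (z * x) = TrAlg.tau ((1 - r) * z * (1 - r) * x)) :
    x = (1 - r) * x * (1 - r) := by
  refine eq_of_tau fun z => ?_
  rw [h z]
  have e1 : (1 - r) * z * (1 - r) * x = (1 - r) * (z * (1 - r) * x) := by noncomm_ring
  have e2 : z * ((1 - r) * x * (1 - r)) = (z * (1 - r) * x) * (1 - r) := by noncomm_ring
  rw [e1, e2, TrAlg.tau_comm]

theorem wall (a : Avg A) (c lam : ℝ) {D r : A} (hr : Prj r)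
    (hDr : D ≤ r + (1 / 2 : ℝ) • (1 - r))
    (hmax : ∀ D' ∈ Bad a c lam, D + D' ≤ 1 → D' = 0)
    (B : Bim.{u} A) (ξ : B.H) (hb : B.Bdd ξ) (hl : B.l r ξ = 0) (hr' : B.r r ξ = 0) :
    c * B.en a ξ - ‖ξ - B.T a ξ‖ ^ 2 ≤ lam * ‖ξ‖ ^ 2 := by
  obtain ⟨⟨x, hx0, hx⟩, y, hy0, hy⟩ := hb
  by_contra hcon
  rw [not_le] at hcon
  have hq := prj_one_sub hr
  have hq0 : (0 : A) ≤ 1 - r := proj_nonneg hq
  have hr0 : (0 : A) ≤ r := proj_nonneg hr
  have hlq : B.l (1 - r) ξ = ξ := by rw [B.l_sub, B.l_one, hl, sub_zero]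
  have hrq : B.r (1 - r) ξ = ξ := by rw [B.r_sub, B.r_one, hr', sub_zero]
  have hxc : x = (1 - r) * x * (1 - r) := by
    refine dens_conj fun z => ?_
    rw [← hx, ← hx, B.l_mul, B.l_mul, hlq]
    have h1 := B.inner_l (1 - r) ξ (B.l z ξ)
    rw [hlq, hq.1] at h1
    exact h1
  have hyc : y = (1 - r) * y * (1 - r) := by
    refine dens_conj fun z => ?_
    rw [← hy, ← hy, B.r_mul, B.r_mul, hrq]
    have h1 := B.inner_r (1 - r) ξ (B.r z ξ)
    rw [hrq, hq.1] at h1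
    exact h1
  have hs0 : 0 ≤ x + y := add_nonneg hx0 hy0
  have hsum : x + y ≤ ‖x + y‖ • (1 - r) := by
    have h1 : x + y ≤ ‖x + y‖ • (1 : A) := le_norm_smul_one (IsSelfAdjoint.of_nonneg hs0)
    have h2 := star_left_conjugate_le_conjugate h1 (1 - r)
    rw [hq.1, mul_smul_comm, mul_one, smul_mul_assoc, hq.2, mul_add, add_mul, ← hxc, ← hyc] at h2
    exact h2
  obtain ⟨t, ht⟩ : ∃ t : ℝ, t = 1 / (2 * (‖x + y‖ + 1)) := ⟨_, rfl⟩
  have hn := norm_nonneg (x + y)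
  have ht0 : 0 < t := by
    rw [ht]
    positivity
  have hts : t * ‖x + y‖ ≤ 1 / 2 := by
    rw [ht, one_div, ← div_eq_inv_mul, div_le_iff₀ (by positivity)]
    linarith
  have h3 : t • (x + y) ≤ (1 / 2 : ℝ) • (1 - r) := by
    calc t • (x + y) ≤ t • (‖x + y‖ • (1 - r)) := smul_le_smul_of_nonneg_left hsum ht0.le
      _ = (t * ‖x + y‖) • (1 - r) := by rw [smul_smul]
      _ ≤ (1 / 2 : ℝ) • (1 - r) := smul_le_smul_of_nonneg_right hts hq0
  have e0 : (1 / 2 : ℝ) • (1 - r) + (1 / 2 : ℝ) • (1 - r) = 1 - r := by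
    rw [← add_smul, add_halves, one_smul]
  have h4 : (1 / 2 : ℝ) • (1 - r) ≤ (1 : A) := by
    have h5 : (0 : A) ≤ (1 / 2 : ℝ) • (1 - r) := smul_nonneg (by norm_num) hq0
    calc (1 / 2 : ℝ) • (1 - r) ≤ (1 / 2 : ℝ) • (1 - r) + (1 / 2 : ℝ) • (1 - r) :=
          le_add_of_nonneg_right h5
      _ = 1 - r := e0
      _ ≤ 1 := sub_le_self _ hr0
  have hD1 : D + t • (x + y) ≤ 1 := by
    calc D + t • (x + y) ≤ r + (1 / 2 : ℝ) • (1 - r) + (1 / 2 : ℝ) • (1 - r) := add_le_add hDr h3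
      _ = 1 := by rw [add_assoc, e0]; abel
  have hk1 : ∀ z, (B.bf ξ).k z 1 = TrAlg.tau (z * x) := fun z => by
    rw [B.bf_k, B.r_one, hx]
  have hk2 : ∀ z, (B.bf ξ).k 1 z = TrAlg.tau (z * y) := fun z => by
    rw [B.bf_k, B.l_one, hy]
  have hbad : t • (x + y) ∈ Bad a c lam := by
    refine ⟨(B.bf ξ).scale t ht0.le, t • x, t • y, smul_nonneg ht0.le hx0, smul_nonneg ht0.le hy0,
      fun z => ?_, fun z => ?_, smul_add _ _ _, h3.trans h4, ?_⟩
    · rw [mul_smul_comm, tau_real_smul, ← hk1 z]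
      rfl
    · rw [mul_smul_comm, tau_real_smul, ← hk2 z]
      rfl
    · rw [Bf.m_scale, Bf.E_scale, Bf.Q_scale, B.bf_m, B.bf_E, B.bf_Q]
      have h5 := mul_le_mul_of_nonneg_left hcon.le ht0.le
      linarith
  have hz := hmax _ hbad hD1
  have hxy : x + y = 0 := (smul_eq_zero.1 hz).resolve_left ht0.ne'
  have hx00 : x = 0 := le_antisymm (hxy ▸ le_add_of_nonneg_right hy0) hx0
  have hm := B.bf_m ξ
  have hm2 : (B.bf ξ).m = 0 := by
    unfold Bf.m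
    rw [hk1, hx00, mul_zero, map_zero, Complex.zero_re]
  rw [hm2] at hm
  have hξ : ξ = 0 := norm_eq_zero.1 (pow_eq_zero_iff two_ne_zero |>.1 hm.symm)
  rw [hξ, map_zero, sub_zero, norm_zero] at hcon
  have he : B.en a 0 = 0 := by
    unfold Bim.en
    simp
  rw [he] at hcon
  simp at hcon

end Pool.Agent.PTH
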