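import Pool.Agent.PTH.Def
import Pool.Agent.RG.Mer

/-!
# PTH / Qs: sums over the Richert boxes

`Bp (yq N) i` = the primes in `[yq N i, yq N (i+1))`.  By `RG.recip_bounds` (`prm u v`, `u = yq N i - 1`) the sum
is at most `log (log (yq N (i+1))/log (yq N i - 1)) + C/log (yq N i - 1) → log ((i+1)/i)`
(`log (yq N i)/log N → i/200`), and `log (1 + 1/i) ≤ (1/i + 1/(i+1))/2`: for `t ≥ 0`,
`log (1+t) ≤ (t + t/(1+t))/2` (derivative: `1/(1+t) ≤ (1 + 1/(1+t)^2)/2`), or `Real.log_le_...`.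
Finitely many `i`, so the eventual bounds hold for all `i` at once.
-/

set_option autoImplicit false

namespace Pool.Agent.PTH

open Finset Real Filter

private lemma log_ratio_le (i : ℕ) (hi : 1 ≤ i) :
    log (((i : ℝ) + 1) / i) ≤ (1 / (i : ℝ) + 1 / ((i : ℝ) + 1)) / 2 := by
  have hi0 : (0 : ℝ) < i := by exact_mod_cast (by omega : 0 < i)
  have hx : (1 : ℝ) ≤ ((i : ℝ) + 1) / i := by
    rw [le_div_iff₀ hi0]; linarith
  have h1 : log (((i : ℝ) + 1) / i) ≤ sinh (log (((i : ℝ) + 1) / i)) :=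
    Real.self_le_sinh_iff.2 (Real.log_nonneg hx)
  rw [Real.sinh_log (by linarith)] at h1
  refine h1.trans (le_of_eq ?_)
  rw [inv_div]
  field_simp
  ring

private lemma qs_one (η : ℝ) (hη : 0 < η) (i : ℕ) (hi : 1 ≤ i) : ∀ᶠ N : ℕ in atTop,
    gs (yq N) i ≤ (1 / (i : ℝ) + 1 / ((i : ℝ) + 1)) / 2 + η := by
  obtain ⟨C, hC, hrec⟩ := RG.recip_bounds
  have hi0 : (0 : ℝ) < i := by exact_mod_cast (by omega : 0 < i)
  set a : ℝ := (i : ℝ) / 200 with ha
  have ha0 : 0 < a := by positivity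
  set b : ℝ := ((i : ℝ) + 1) / 200 with hb
  have hb0 : 0 < b := by positivity
  have hlog : Tendsto (fun N : ℕ => log (N : ℝ)) atTop atTop :=
    Real.tendsto_log_atTop.comp tendsto_natCast_atTop_atTop
  have hpow : Tendsto (fun N : ℕ => (N : ℝ) ^ a) atTop atTop :=
    (tendsto_rpow_atTop ha0).comp tendsto_natCast_atTop_atTop
  -- the main term
  have hT1 : Tendsto (fun L : ℝ => b * L / (a * L - 1)) atTop (nhds (b / a)) := by
    have e : (fun L : ℝ => b / (a - 1 / L)) =ᶠ[atTop] fun L : ℝ => b * L / (a * L - 1) := by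
      filter_upwards [eventually_gt_atTop (0 : ℝ), eventually_gt_atTop (1 / a)] with L hL hL2
      have h2 : 0 < a * L - 1 := by
        rw [div_lt_iff₀ ha0] at hL2
        linarith
      have h3 : a - 1 / L = (a * L - 1) / L := by field_simp
      rw [h3, div_div_eq_mul_div]
    refine Tendsto.congr' e ?_
    have h4 : Tendsto (fun L : ℝ => a - 1 / L) atTop (nhds (a - 0)) :=
      tendsto_const_nhds.sub (tendsto_const_nhds.div_atTop tendsto_id)
    rw [sub_zero] at h4
    exact tendsto_const_nhds.div h4 ha0.ne'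
  have hT2 : Tendsto (fun L : ℝ => C / (a * L - 1)) atTop (nhds 0) := by
    refine Tendsto.div_atTop tendsto_const_nhds ?_
    exact tendsto_atTop_add_const_right _ (-1 : ℝ) (tendsto_id.const_mul_atTop ha0)
  have hba : b / a = ((i : ℝ) + 1) / i := by
    rw [ha, hb]; field_simp
  have hT3 : Tendsto (fun L : ℝ => log (b * L / (a * L - 1)) + C / (a * L - 1)) atTop
      (nhds (log (((i : ℝ) + 1) / i) + 0)) := by
    rw [← hba]
    exact (hT1.log (by positivity)).add hT2
  have hT4 := hT3.comp hlog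
  have hlt : log (((i : ℝ) + 1) / i) + 0 < (1 / (i : ℝ) + 1 / ((i : ℝ) + 1)) / 2 + η := by
    have := log_ratio_le i hi
    linarith
  filter_upwards [hT4.eventually_lt_const hlt, hpow.eventually_ge_atTop 8,
    hlog.eventually_ge_atTop (2 / a), eventually_ge_atTop 2] with N h1 h2 h3 h4
  have hN0 : (0 : ℝ) < N := by exact_mod_cast (by omega : 0 < N)
  have hN1 : (1 : ℝ) ≤ N := by exact_mod_cast (by omega : 1 ≤ N)
  have hlN : 0 < log (N : ℝ) := lt_of_lt_of_le (by positivity) h3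
  have haL : 2 ≤ a * log N := by
    rw [div_le_iff₀ ha0] at h3
    linarith
  -- end points
  have hu1 : (N : ℝ) ^ a - 1 < (yq N i : ℝ) := Nat.sub_one_lt_floor _
  have hu2 : (8 : ℕ) ≤ yq N i := Nat.le_floor (by exact_mod_cast h2)
  have hv1 : (yq N (i + 1) : ℝ) ≤ (N : ℝ) ^ b := by
    refine (Nat.floor_le (by positivity)).trans (le_of_eq ?_)
    rw [hb]; push_cast; rfl
  have hyy : yq N i ≤ yq N (i + 1) := by
    refine Nat.floor_le_floor (rpow_le_rpow_of_exponent_le hN1 ?_)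
    push_cast
    linarith
  set u : ℕ := yq N i - 1 with hu
  have hu3 : 2 ≤ u := by omega
  have huv : u ≤ yq N (i + 1) := by omega
  have hucast : (u : ℝ) = (yq N i : ℝ) - 1 := by
    rw [hu, Nat.cast_sub (by omega)]; simp
  have hrec1 := (abs_le.1 (hrec u (yq N (i + 1)) hu3 huv)).2
  have hsum : gs (yq N) i ≤ ∑ p ∈ RG.prm u (yq N (i + 1)), 1 / (p : ℝ) := by
    unfold gs Bp
    refine sum_le_sum_of_subset_of_nonneg ?_ fun _ _ _ => by positivity
    intro p hp
    rw [mem_filter, mem_Ico] at hp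
    rw [RG.mem_prm]
    exact ⟨⟨by omega, by omega⟩, hp.2⟩
  -- log u ≥ a log N - 1
  have hlu : a * log N - 1 ≤ log (u : ℝ) := by
    have h5 : exp (a * log N - 1) ≤ (u : ℝ) := by
      rw [exp_sub, mul_comm a, exp_mul, exp_log hN0]
      rw [div_le_iff₀ (exp_pos _)]
      have h6 : (2 : ℝ) ≤ exp 1 := by
        have := add_one_le_exp (1 : ℝ); linarith
      have h7 : (u : ℝ) ≥ (N : ℝ) ^ a - 2 := by rw [hucast]; linarith
      nlinarith [h2, h6, h7]
    calc a * log N - 1 = log (exp (a * log N - 1)) := (log_exp _).symm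
      _ ≤ log (u : ℝ) := log_le_log (exp_pos _) h5
  have hlu0 : 0 < a * log N - 1 := by linarith
  have hlv : log (yq N (i + 1) : ℝ) ≤ b * log N := by
    rw [← log_rpow hN0]
    refine log_le_log ?_ hv1
    exact_mod_cast (by omega : 0 < yq N (i + 1))
  have hlv0 : 0 < log (yq N (i + 1) : ℝ) := by
    refine log_pos ?_
    exact_mod_cast (by omega : 1 < yq N (i + 1))
  have h8 : log (log (yq N (i + 1) : ℝ)) - log (log (u : ℝ)) ≤
      log (b * log N / (a * log N - 1)) := by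
    rw [log_div (by positivity) hlu0.ne']
    exact sub_le_sub (log_le_log hlv0 hlv) (log_le_log hlu0 hlu)
  have h9 : C / log (u : ℝ) ≤ C / (a * log N - 1) :=
    div_le_div_of_nonneg_left hC.le hlu0 hlu
  simp only [Function.comp] at h1
  linarith

theorem qs (η : ℝ) (hη : 0 < η) : ∀ᶠ N : ℕ in atTop, ∀ i, 29 ≤ i → i ≤ 94 →
    gs (yq N) i ≤ (1 / (i : ℝ) + 1 / ((i : ℝ) + 1)) / 2 + η := by
  have h : ∀ᶠ N : ℕ in atTop, ∀ i ∈ Finset.Icc 29 94,
      gs (yq N) i ≤ (1 / (i : ℝ) + 1 / ((i : ℝ) + 1)) / 2 + η := by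
    rw [Filter.eventually_all_finset]
    intro i hi
    exact qs_one η hη i (by rw [Finset.mem_Icc] at hi; omega)
  filter_upwards [h] with N hN i h1 h2
  exact hN i (Finset.mem_Icc.2 ⟨h1, h2⟩)

end Pool.Agent.PTH
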