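import Pool.Agent.PTH.Coef
import Pool.Agent.PTH.Bl
import Pool.Agent.PTH.Geo

/-!
# PTH / Rem: the remainder of one term is small

`K = 8 R0`: `w = bz R0 j0 N 0 ≥ N^(0.145/R0)/2`, so `w^(K+1) > N^(1.1)` for large `N`.
* `rem_split`: `f1`, `f2` with `PB c1 X f1`, `PB c2 Y f2`: by `lin_mul`, `lin_eq_sum`
  `lin rr (f1 * f2) = ∑_{m ≤ X} ∑_{n ≤ Y} f1_m f2_n rr (m n)`; apply `bl` to `f1/c1`, `f2/c2` (`c1, c2 ≥ 1`).
* `rem_term`: `WF` with `M = N^(83/200)`, `N' = N^(33/200)` (`M N' = N^(116/200)`): `l ~ l1 ++ l2`;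
  `term b l lam = term b l1 lam * term b l2 1` (commutative).  `X = N^0.415 N^0.001`, `Y = N^0.165`:
  `X^2 Y = N^0.997`, `X Y^2 = N^0.746`.
* `rem_q`, `i ≤ 82`: the level is `N^((115-i)/200)`, `M = N^((82-i)/200)`, `N' = N^(33/200)`;
  `f1 = bx (Bp (yq N) i) * term b l1 lam` with `X = N^((i+1)/200) N^((82-i)/200) N^0.001 = N^0.416` (all primes
  of `Bp (yq N) i` are `≥ yq N 29 = zz N ≥ w`, and `≤ N^((i+1)/200)`).
* `rem_q`, `i ≥ 83`: `tq i = (197 - 2i)/200`; `M = 1`, `N' = N^(tq i)`: all tops are `≥ 2`, so `l1 = []` (or just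
  use that its product of tops is `≤ 1`); `X = N^((i+1)/200) N^0.001`, `Y = N^(tq i)`:
  `X^2 Y = N^(199/200 + 0.002) = N^0.997`, `X Y^2 ≤ N^0.731`.
The constants `K^(c+1)` etc. are `≤ N^0.0001` for large `N` (for all lists with `length ≤ c` at once).
-/

set_option autoImplicit false

namespace Pool.Agent.PTH

open Finset Real Filter

theorem pb_mono {c c' X X' : ℝ} {f : SA} (hc : c ≤ c') (hX : X ≤ X') (hf : PB c X f) :
    PB c' X' f :=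
  ⟨fun d => (hf.1 d).trans hc, fun d hd => ⟨(hf.2 d hd).1, (hf.2 d hd).2.trans hX⟩⟩

theorem pb_mem {c X : ℝ} {f : SA} (hX : 0 ≤ X) (hf : PB c X f) (d : ℕ) (hd : f.coeff d ≠ 0) :
    d ∈ Icc 1 ⌊X⌋₊ := by
  obtain ⟨h1, h2⟩ := hf.2 d hd
  rw [mem_Icc]
  exact ⟨h1, Nat.le_floor h2⟩

theorem rem_split (r : ℕ) (hr : 5000 ≤ r) : ∀ᶠ N : ℕ in atTop, ∀ H : ℕ,
    (N : ℝ) ^ (1 / 2 - 1 / 50000 : ℝ) ≤ H → r * H ≤ N → ∀ (X Y c1 c2 : ℝ) (f1 f2 : SA),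
    1 ≤ X → 1 ≤ Y → 1 ≤ c1 → 1 ≤ c2 →
    X ^ 2 * Y ≤ (N : ℝ) ^ (997 / 1000 : ℝ) → X * Y ^ 2 ≤ (N : ℝ) ^ (747 / 1000 : ℝ) →
    PB c1 X f1 → PB c2 Y f2 →
    |lin (rr r N H) (f1 * f2)| ≤ c1 * c2 * (N : ℝ) ^ (4993 / 10000 : ℝ) := by
  filter_upwards [bl r hr] with N hN H hH hrH X Y c1 c2 f1 f2 hX hY hc1 hc2 hXY hXY2 hf1 hf2
  have hc1' : 0 < c1 := by linarith
  have hc2' : 0 < c2 := by linarith
  have h1 : lin (rr r N H) (f1 * f2) = c1 * c2 * ∑ m ∈ Icc 1 ⌊X⌋₊, ∑ n ∈ Icc 1 ⌊Y⌋₊,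
      (f1.coeff m / c1) * (f2.coeff n / c2) * rr r N H (m * n) := by
    rw [lin_mul, lin_eq_sum _ f1 (Icc 1 ⌊X⌋₊) fun d hd => pb_mem (by linarith) hf1 d hd, mul_sum]
    refine sum_congr rfl fun m _ => ?_
    rw [lin_eq_sum _ f2 (Icc 1 ⌊Y⌋₊) fun d hd => pb_mem (by linarith) hf2 d hd, mul_sum, mul_sum]
    refine sum_congr rfl fun n _ => ?_
    field_simp
  rw [h1, abs_mul, abs_of_pos (mul_pos hc1' hc2')]
  refine mul_le_mul_of_nonneg_left ?_ (mul_pos hc1' hc2').le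
  refine hN H hH hrH X Y hX hY hXY hXY2 (fun m => f1.coeff m / c1) (fun n => f2.coeff n / c2)
    (fun m => ?_) (fun n => ?_)
  · rw [abs_div, abs_of_pos hc1', div_le_one hc1']
    exact hf1.1 m
  · rw [abs_div, abs_of_pos hc2', div_le_one hc2']
    exact hf2.1 n

/-- `(b 0)^(8 R0 + 1) > N^1.1` -/
theorem w_large (R0 j0 : ℕ) (hR : 2 ≤ R0) (hj : 100 ≤ j0) : ∀ᶠ N : ℕ in atTop,
    2 ≤ bz R0 j0 N 0 ∧ (N : ℝ) ^ (11 / 10 : ℝ) < (bz R0 j0 N 0 : ℝ) ^ (8 * R0 + 1) := by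
  have h1 := (bz_tendsto R0 j0 0 (by omega) (by omega)).eventually_ge_atTop 2
  have h2 : Tendsto (fun N : ℕ => (N : ℝ) ^ (6 / 100 : ℝ)) atTop atTop :=
    (tendsto_rpow_atTop (by norm_num)).comp tendsto_natCast_atTop_atTop
  filter_upwards [h1, h2.eventually_gt_atTop ((2 : ℝ) ^ (8 * R0 + 1)),
    eventually_ge_atTop 1] with N hN1 hN2 hN3
  refine ⟨hN1, ?_⟩
  have hN0 : (1 : ℝ) ≤ N := by exact_mod_cast hN3
  have hNpos : (0 : ℝ) < N := by linarith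
  rw [bz_zero R0 j0 N (by omega)] at hN1 ⊢
  set x : ℝ := (N : ℝ) ^ ((29 / 200 : ℝ) / R0) with hx
  have hx0 : 0 ≤ x := by positivity
  have hfl : x / 2 ≤ (⌊x⌋₊ : ℝ) := by
    have h3 : x < (⌊x⌋₊ : ℝ) + 1 := Nat.lt_floor_add_one x
    have h4 : (2 : ℝ) ≤ (⌊x⌋₊ : ℝ) := by exact_mod_cast hN1
    linarith
  have hR' : (0 : ℝ) < R0 := by
    have : 0 < R0 := by omega
    exact_mod_cast this
  have h5 : (x / 2) ^ (8 * R0 + 1) ≤ (⌊x⌋₊ : ℝ) ^ (8 * R0 + 1) :=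
    pow_le_pow_left₀ (by positivity) hfl _
  have h6 : (N : ℝ) ^ (116 / 100 : ℝ) ≤ x ^ (8 * R0 + 1) := by
    rw [hx, ← Real.rpow_natCast ((N : ℝ) ^ ((29 / 200 : ℝ) / R0)) (8 * R0 + 1),
      ← Real.rpow_mul hNpos.le]
    refine Real.rpow_le_rpow_of_exponent_le hN0 ?_
    push_cast
    have : (29 / 200 : ℝ) / R0 * (8 * R0 + 1) = 116 / 100 + (29 / 200 : ℝ) / R0 := by
      field_simp
      ring
    rw [this]
    have : 0 ≤ (29 / 200 : ℝ) / R0 := by positivity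
    linarith
  have h7 : (N : ℝ) ^ (116 / 100 : ℝ) = (N : ℝ) ^ (11 / 10 : ℝ) * (N : ℝ) ^ (6 / 100 : ℝ) := by
    rw [← Real.rpow_add hNpos]
    norm_num
  have h8 : (x / 2) ^ (8 * R0 + 1) = x ^ (8 * R0 + 1) / 2 ^ (8 * R0 + 1) := div_pow _ _ _
  have h9 : (0 : ℝ) < 2 ^ (8 * R0 + 1) := by positivity
  calc (N : ℝ) ^ (11 / 10 : ℝ) < (N : ℝ) ^ (116 / 100 : ℝ) / 2 ^ (8 * R0 + 1) := by
        rw [lt_div_iff₀ h9, h7]
        have : (0 : ℝ) < (N : ℝ) ^ (11 / 10 : ℝ) := by positivity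
        exact mul_lt_mul_of_pos_left hN2 this
    _ ≤ x ^ (8 * R0 + 1) / 2 ^ (8 * R0 + 1) := by gcongr
    _ = (x / 2) ^ (8 * R0 + 1) := h8.symm
    _ ≤ (⌊x⌋₊ : ℝ) ^ (8 * R0 + 1) := h5

theorem const_small (C : ℝ) : ∀ᶠ N : ℕ in atTop,
    C * (N : ℝ) ^ (4993 / 10000 : ℝ) ≤ (N : ℝ) ^ (4994 / 10000 : ℝ) := by
  have h2 : Tendsto (fun N : ℕ => (N : ℝ) ^ (1 / 10000 : ℝ)) atTop atTop :=
    (tendsto_rpow_atTop (by norm_num)).comp tendsto_natCast_atTop_atTop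
  filter_upwards [h2.eventually_ge_atTop C, eventually_ge_atTop 1] with N hN hN1
  have hN0 : (1 : ℝ) ≤ N := by exact_mod_cast hN1
  have h3 : (N : ℝ) ^ (4994 / 10000 : ℝ) =
      (N : ℝ) ^ (1 / 10000 : ℝ) * (N : ℝ) ^ (4993 / 10000 : ℝ) := by
    rw [← Real.rpow_add (by linarith)]
    norm_num
  rw [h3]
  gcongr

theorem term_append (b : ℕ → ℕ) (l l1 l2 : List ℕ) (h : l.Perm (l1 ++ l2)) (lam : SA) :
    term b l lam = term b l1 lam * term b l2 1 := by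
  unfold term
  have h1 : (l.map (fun i => bx (Bp b i))).prod = ((l1 ++ l2).map (fun i => bx (Bp b i))).prod :=
    List.Perm.prod_eq (h.map _)
  rw [h1, List.map_append, List.prod_append]
  ring

theorem tops_pos {b : ℕ → ℕ} (hb : Monotone b) (hb0 : 2 ≤ b 0) (l : List ℕ) :
    1 ≤ (l.map (fun i => (b (i + 1) : ℝ))).prod := by
  induction l with
  | nil => simp
  | cons i l ih =>
    rw [List.map_cons, List.prod_cons]
    have h1 : 2 ≤ b (i + 1) := by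
      have := hb (Nat.zero_le (i + 1))
      omega
    have h2 : (1 : ℝ) ≤ b (i + 1) := by
      have : (1 : ℕ) ≤ b (i + 1) := by omega
      exact_mod_cast this
    exact one_le_mul_of_one_le_of_one_le h2 ih

/-- the core: a term with an optional extra box -/
theorem rem_core (r R0 j0 c : ℕ) (hr : 5000 ≤ r) (hR : 2 ≤ R0) (hj : 100 ≤ j0) :
    ∀ᶠ N : ℕ in atTop, ∀ H : ℕ,
    (N : ℝ) ^ (1 / 2 - 1 / 50000 : ℝ) ≤ H → r * H ≤ N → ∀ (lam : SA) (l1 l2 : List ℕ),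
    l1.length ≤ c → l2.length ≤ c →
    FLp ((N : ℝ) ^ (1 / 1000 : ℝ)) (bz R0 j0 N 0) lam → ∀ (u v x : ℝ) (B : Finset ℕ),
    0 ≤ u → 0 ≤ v → 0 ≤ x → x + u + 1 / 1000 ≤ 1 → v ≤ 1 →
    2 * (x + u + 1 / 1000) + v ≤ 997 / 1000 → (x + u + 1 / 1000) + 2 * v ≤ 747 / 1000 →
    (l1.map (fun i => (bz R0 j0 N (i + 1) : ℝ))).prod ≤ (N : ℝ) ^ u →
    (l2.map (fun i => (bz R0 j0 N (i + 1) : ℝ))).prod ≤ (N : ℝ) ^ v →
    (∀ p ∈ B, p.Prime ∧ bz R0 j0 N 0 ≤ p ∧ (p : ℝ) ≤ (N : ℝ) ^ x) →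
    |lin (rr r N H) (term (bz R0 j0 N) l1 lam * term (bz R0 j0 N) l2 1)| ≤
        (N : ℝ) ^ (4994 / 10000 : ℝ) ∧
    |lin (rr r N H) ((bx B * term (bz R0 j0 N) l1 lam) * term (bz R0 j0 N) l2 1)| ≤
      (N : ℝ) ^ (4994 / 10000 : ℝ) := by
  set K : ℕ := 8 * R0 with hK
  filter_upwards [rem_split r hr, w_large R0 j0 hR hj,
    const_small ((K : ℝ) ^ (c + 1) * (K : ℝ) ^ c), eventually_ge_atTop 1] with
    N hN hw hcs hN1 H hH hrH lam l1 l2 hl1 hl2 hlam u v x B hu hv hx hxu1 hv1 hX1 hX2 hP1 hP2 hB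
  obtain ⟨hw2, hwN⟩ := hw
  set b := bz R0 j0 N with hb
  have hmono : Monotone b := bz_mono R0 j0 N hN1
  have hN0 : (1 : ℝ) ≤ N := by exact_mod_cast hN1
  have hNpos : (0 : ℝ) < N := by linarith
  have hK1 : 1 ≤ K := by omega
  have hK1' : (1 : ℝ) ≤ K := by exact_mod_cast hK1
  have hwN' : ∀ e : ℝ, e ≤ 11 / 10 → (N : ℝ) ^ e < (b 0 : ℝ) ^ (K + 1) := fun e he =>
    lt_of_le_of_lt (Real.rpow_le_rpow_of_exponent_le hN0 he) hwN
  have hlamPB : PB 1 ((N : ℝ) ^ (1 / 1000 : ℝ)) lam :=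
    ⟨hlam.1, fun d hd => ⟨(hlam.2 d hd).1, (hlam.2 d hd).2.1⟩⟩
  have hp0 : (0 : ℝ) ≤ (N : ℝ) ^ (1 / 1000 : ℝ) := by positivity
  have hT1 := tops_pos hmono hw2 l1
  have hT2 := tops_pos hmono hw2 l2
  -- first factor
  have hA1 : (l1.map (fun i => (b (i + 1) : ℝ))).prod * (N : ℝ) ^ (1 / 1000 : ℝ) ≤
      (N : ℝ) ^ (u + 1 / 1000) := by
    rw [Real.rpow_add hNpos]
    gcongr
  have hf1 : PB ((K : ℝ) ^ c) ((N : ℝ) ^ (u + 1 / 1000)) (term b l1 lam) := by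
    have h1 := pb_term b (b 0) K 1 ((N : ℝ) ^ (1 / 1000 : ℝ)) l1 lam hw2 hK1 zero_le_one hp0
      hmono (le_refl _) (lt_of_le_of_lt hA1 (hwN' _ (by linarith))) hlamPB
    refine pb_mono ?_ hA1 h1
    rw [mul_one]
    exact pow_le_pow_right₀ hK1' hl1
  have hf2 : PB ((K : ℝ) ^ c) ((N : ℝ) ^ v) (term b l2 1) := by
    have h1 := pb_term b (b 0) K 1 1 l2 1 hw2 hK1 zero_le_one zero_le_one
      hmono (le_refl _) (by rw [mul_one]; exact lt_of_le_of_lt hP2 (hwN' _ (by linarith))) pb_one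
    refine pb_mono ?_ (by rw [mul_one]; exact hP2) h1
    rw [mul_one]
    exact pow_le_pow_right₀ hK1' hl2
  have hf1B : PB ((K : ℝ) ^ (c + 1)) ((N : ℝ) ^ (x + u + 1 / 1000)) (bx B * term b l1 lam) := by
    have e1 : (N : ℝ) ^ (x + u + 1 / 1000) = (N : ℝ) ^ x * (N : ℝ) ^ (u + 1 / 1000) := by
      rw [← Real.rpow_add hNpos]
      congr 1
      ring
    have e2 : (K : ℝ) ^ (c + 1) = K * (K : ℝ) ^ c := by ring
    rw [e2]
    have h1 := pb_bx (b 0) K ((K : ℝ) ^ c) ((N : ℝ) ^ (u + 1 / 1000)) ((N : ℝ) ^ x) B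
      (term b l1 lam) hw2 hK1 (by positivity) (by positivity) (Real.one_le_rpow hN0 hx) hB
      (by rw [← e1]; exact hwN' _ (by linarith)) hf1
    rw [← e1] at h1
    exact h1
  have hone : ∀ e : ℝ, 0 ≤ e → 1 ≤ (N : ℝ) ^ e := fun e he => Real.one_le_rpow hN0 he
  have hKc : 1 ≤ (K : ℝ) ^ c := one_le_pow₀ hK1'
  have hKc1 : 1 ≤ (K : ℝ) ^ (c + 1) := one_le_pow₀ hK1'
  have hsq : ∀ s t : ℝ, 2 * s + t ≤ 997 / 1000 → ((N : ℝ) ^ s) ^ 2 * (N : ℝ) ^ t ≤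
      (N : ℝ) ^ (997 / 1000 : ℝ) := by
    intro s t h
    rw [← Real.rpow_natCast ((N : ℝ) ^ s) 2, ← Real.rpow_mul hNpos.le, ← Real.rpow_add hNpos]
    refine Real.rpow_le_rpow_of_exponent_le hN0 ?_
    push_cast
    linarith
  have hsq2 : ∀ s t : ℝ, s + 2 * t ≤ 747 / 1000 → (N : ℝ) ^ s * ((N : ℝ) ^ t) ^ 2 ≤
      (N : ℝ) ^ (747 / 1000 : ℝ) := by
    intro s t h
    rw [← Real.rpow_natCast ((N : ℝ) ^ t) 2, ← Real.rpow_mul hNpos.le, ← Real.rpow_add hNpos]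
    refine Real.rpow_le_rpow_of_exponent_le hN0 ?_
    push_cast
    linarith
  constructor
  · have h1 := hN H hH hrH ((N : ℝ) ^ (u + 1 / 1000)) ((N : ℝ) ^ v) ((K : ℝ) ^ c) ((K : ℝ) ^ c)
      (term b l1 lam) (term b l2 1) (hone _ (by linarith)) (hone _ hv) hKc hKc
      (hsq _ _ (by linarith)) (hsq2 _ _ (by linarith)) hf1 hf2
    refine h1.trans (le_trans ?_ hcs)
    have : (K : ℝ) ^ c ≤ (K : ℝ) ^ (c + 1) := pow_le_pow_right₀ hK1' (by omega)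
    gcongr
  · have h1 := hN H hH hrH ((N : ℝ) ^ (x + u + 1 / 1000)) ((N : ℝ) ^ v) ((K : ℝ) ^ (c + 1))
      ((K : ℝ) ^ c) (bx B * term b l1 lam) (term b l2 1) (hone _ (by linarith)) (hone _ hv) hKc1
      hKc (hsq _ _ (by linarith)) (hsq2 _ _ (by linarith)) hf1B hf2
    exact h1.trans hcs

theorem rem_term (r R0 j0 c : ℕ) (hr : 5000 ≤ r) (hR : 2 ≤ R0) (hj : 100 ≤ j0) :
    ∀ᶠ N : ℕ in atTop, ∀ H : ℕ,
    (N : ℝ) ^ (1 / 2 - 1 / 50000 : ℝ) ≤ H → r * H ≤ N → ∀ (lam : SA) (l : List ℕ), l.length ≤ c →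
    FLp ((N : ℝ) ^ (1 / 1000 : ℝ)) (bz R0 j0 N 0) lam →
    WF (bz R0 j0 N) ((N : ℝ) ^ (29 / 50 : ℝ)) l →
    |lin (rr r N H) (term (bz R0 j0 N) l lam)| ≤ (N : ℝ) ^ (4994 / 10000 : ℝ) := by
  filter_upwards [rem_core r R0 j0 c hr hR hj, eventually_ge_atTop 1] with
    N hN hN1 H hH hrH lam l hl hlam hWF
  have hN0 : (1 : ℝ) ≤ N := by exact_mod_cast hN1
  have hNpos : (0 : ℝ) < N := by linarith
  obtain ⟨l1, l2, hperm, hP1, hP2⟩ := hWF ((N : ℝ) ^ (83 / 200 : ℝ)) ((N : ℝ) ^ (33 / 200 : ℝ))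
    (Real.one_le_rpow hN0 (by norm_num)) (Real.one_le_rpow hN0 (by norm_num))
    (by rw [← Real.rpow_add hNpos]; norm_num)
  have hlen : l1.length + l2.length = l.length := by
    rw [hperm.length_eq, List.length_append]
  rw [term_append _ l l1 l2 hperm lam]
  exact (hN H hH hrH lam l1 l2 (by omega) (by omega) hlam (83 / 200) (33 / 200) 0 ∅
    (by norm_num) (by norm_num) (le_refl _) (by norm_num) (by norm_num) (by norm_num)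
    (by norm_num) hP1 hP2 (by simp)).1

theorem yq_le_rpow (N i : ℕ) : (yq N i : ℝ) ≤ (N : ℝ) ^ ((i : ℝ) / 200) :=
  Nat.floor_le (by positivity)

theorem bz_zero_le_yq (R0 j0 N i : ℕ) (hR : 2 ≤ R0) (hj : 100 ≤ j0) (hN : 1 ≤ N) (hi : 29 ≤ i) :
    bz R0 j0 N 0 ≤ yq N i := by
  have hN0 : (1 : ℝ) ≤ N := by exact_mod_cast hN
  rw [bz_zero R0 j0 N (by omega)]
  unfold yq
  refine Nat.floor_le_floor (Real.rpow_le_rpow_of_exponent_le hN0 ?_)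
  have h1 : (1 : ℝ) ≤ R0 := by
    have : 1 ≤ R0 := by omega
    exact_mod_cast this
  have h2 : (29 : ℝ) ≤ i := by exact_mod_cast hi
  calc (29 / 200 : ℝ) / R0 ≤ 29 / 200 := div_le_self (by norm_num) h1
    _ ≤ (i : ℝ) / 200 := by linarith

theorem rem_q (r R0 j0 c : ℕ) (hr : 5000 ≤ r) (hR : 2 ≤ R0) (hj : 100 ≤ j0) :
    ∀ᶠ N : ℕ in atTop, ∀ H : ℕ,
    (N : ℝ) ^ (1 / 2 - 1 / 50000 : ℝ) ≤ H → r * H ≤ N → ∀ (lam : SA) (l : List ℕ), l.length ≤ c →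
    FLp ((N : ℝ) ^ (1 / 1000 : ℝ)) (bz R0 j0 N 0) lam → ∀ i, 29 ≤ i → i ≤ 94 →
    WF (bz R0 j0 N) ((N : ℝ) ^ tq i) l →
    |lin (rr r N H) (bx (Bp (yq N) i) * term (bz R0 j0 N) l lam)| ≤
      (N : ℝ) ^ (4994 / 10000 : ℝ) := by
  filter_upwards [rem_core r R0 j0 c hr hR hj, eventually_ge_atTop 1] with
    N hN hN1 H hH hrH lam l hl hlam i hi1 hi2 hWF
  have hN0 : (1 : ℝ) ≤ N := by exact_mod_cast hN1
  have hNpos : (0 : ℝ) < N := by linarith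
  have hir1 : (29 : ℝ) ≤ i := by exact_mod_cast hi1
  have hir2 : (i : ℝ) ≤ 94 := by exact_mod_cast hi2
  have hB : ∀ p ∈ Bp (yq N) i, p.Prime ∧ bz R0 j0 N 0 ≤ p ∧
      (p : ℝ) ≤ (N : ℝ) ^ (((i : ℝ) + 1) / 200) := by
    intro p hp
    unfold Bp at hp
    rw [mem_filter, mem_Ico] at hp
    refine ⟨hp.2, (bz_zero_le_yq R0 j0 N i hR hj hN1 hi1).trans hp.1.1, ?_⟩
    have h1 : (p : ℝ) ≤ yq N (i + 1) := by exact_mod_cast hp.1.2.le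
    refine h1.trans ((yq_le_rpow N (i + 1)).trans (le_of_eq ?_))
    push_cast
    rfl
  -- the exponents
  obtain ⟨u, v, hu, hv, hv1, huv, h1, h2, h3⟩ : ∃ u v : ℝ, 0 ≤ u ∧ 0 ≤ v ∧ v ≤ 1 ∧ tq i ≤ u + v ∧
      ((i : ℝ) + 1) / 200 + u + 1 / 1000 ≤ 1 ∧
      2 * (((i : ℝ) + 1) / 200 + u + 1 / 1000) + v ≤ 997 / 1000 ∧
      (((i : ℝ) + 1) / 200 + u + 1 / 1000) + 2 * v ≤ 747 / 1000 := by
    rcases Nat.lt_or_ge 82 i with h | h
    · have h' : (83 : ℝ) ≤ i := by exact_mod_cast h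
      refine ⟨0, (197 - 2 * (i : ℝ)) / 200, le_refl _, by linarith, by linarith, ?_, by linarith,
        by linarith, by linarith⟩
      unfold tq
      have h4 : min (115 - i) (197 - 2 * i) = 197 - 2 * i := by omega
      rw [h4, Nat.cast_sub (by omega)]
      push_cast
      linarith
    · have h' : (i : ℝ) ≤ 82 := by exact_mod_cast h
      refine ⟨(82 - (i : ℝ)) / 200, 33 / 200, by linarith, by norm_num, by norm_num, ?_,
        by linarith, by linarith, by linarith⟩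
      unfold tq
      have h4 : min (115 - i) (197 - 2 * i) = 115 - i := by omega
      rw [h4, Nat.cast_sub (by omega)]
      push_cast
      linarith
  obtain ⟨l1, l2, hperm, hP1, hP2⟩ := hWF ((N : ℝ) ^ u) ((N : ℝ) ^ v)
    (Real.one_le_rpow hN0 hu) (Real.one_le_rpow hN0 hv)
    (by rw [← Real.rpow_add hNpos]; exact Real.rpow_le_rpow_of_exponent_le hN0 huv)
  have hlen : l1.length + l2.length = l.length := by
    rw [hperm.length_eq, List.length_append]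
  rw [term_append _ l l1 l2 hperm lam, ← mul_assoc]
  exact (hN H hH hrH lam l1 l2 (by omega) (by omega) hlam u v (((i : ℝ) + 1) / 200)
    (Bp (yq N) i) hu hv (by linarith) h1 hv1 h2 h3 hP1 hP2 hB).2

end Pool.Agent.PTH
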