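import Pool.Agent.PTH.Rem

/-!
# PTH / RemD: the remainder of a `Dec` element is small

`f = ∑_{t ∈ T} ± term`, `T.length ≤ c`, `t.2.2.length ≤ c`: `lin_list_sum`, `lin_smul`, and at most
`c N^(0.4994) ≤ N^(0.4995)`.  For the second statement use `B * (∑ ...) = ∑ ± B * term`.
-/

set_option autoImplicit false

namespace Pool.Agent.PTH

open Finset Real Filter

theorem const_small' (C : ℝ) : ∀ᶠ N : ℕ in atTop,
    C * (N : ℝ) ^ (4994 / 10000 : ℝ) ≤ (N : ℝ) ^ (4995 / 10000 : ℝ) := by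
  have h2 : Tendsto (fun N : ℕ => (N : ℝ) ^ (1 / 10000 : ℝ)) atTop atTop :=
    (tendsto_rpow_atTop (by norm_num)).comp tendsto_natCast_atTop_atTop
  filter_upwards [h2.eventually_ge_atTop C, eventually_ge_atTop 1] with N hN hN1
  have hN0 : (1 : ℝ) ≤ N := by exact_mod_cast hN1
  have h3 : (N : ℝ) ^ (4995 / 10000 : ℝ) =
      (N : ℝ) ^ (1 / 10000 : ℝ) * (N : ℝ) ^ (4994 / 10000 : ℝ) := by
    rw [← Real.rpow_add (by linarith)]
    norm_num
  rw [h3]
  gcongr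

theorem abs_list_sum_le (L : List ℝ) (B : ℝ) (h : ∀ x ∈ L, |x| ≤ B) :
    |L.sum| ≤ L.length * B := by
  induction L with
  | nil => simp
  | cons a L ih =>
    rw [List.sum_cons, List.length_cons]
    have h1 := h a (by simp)
    have h2 := ih fun x hx => h x (by simp [hx])
    calc |a + L.sum| ≤ |a| + |L.sum| := abs_add_le _ _
      _ ≤ B + L.length * B := add_le_add h1 h2
      _ = ((L.length + 1 : ℕ) : ℝ) * B := by push_cast; ring

/-- a signed sum of terms -/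
theorem lin_sum_le (G : ℕ → ℝ) (g : Bool × Bool × List ℕ → SA)
    (T : List (Bool × Bool × List ℕ)) (c : ℕ) (B : ℝ) (hB : 0 ≤ B) (hT : T.length ≤ c)
    (h : ∀ t ∈ T, |lin G (g t)| ≤ B) :
    |lin G (T.map (fun t => (if t.1 then (1 : ℝ) else -1) • g t)).sum| ≤ c * B := by
  rw [lin_list_sum, List.map_map]
  refine (abs_list_sum_le _ B ?_).trans ?_
  · intro x hx
    obtain ⟨t, ht, rfl⟩ := List.mem_map.1 hx
    simp only [Function.comp]
    rw [lin_smul, abs_mul]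
    have h1 : |(if t.1 = true then (1 : ℝ) else -1)| = 1 := by
      split_ifs <;> simp
    rw [h1, one_mul]
    exact h t ht
  · rw [List.length_map]
    have : (T.length : ℝ) ≤ c := by exact_mod_cast hT
    gcongr

theorem remd (r R0 j0 c : ℕ) (hr : 5000 ≤ r) (hR : 2 ≤ R0) (hj : 100 ≤ j0) :
    ∀ᶠ N : ℕ in atTop, ∀ H : ℕ,
    (N : ℝ) ^ (1 / 2 - 1 / 50000 : ℝ) ≤ H → r * H ≤ N → ∀ lp lm : SA,
    FLp ((N : ℝ) ^ (1 / 1000 : ℝ)) (bz R0 j0 N 0) lp →
    FLp ((N : ℝ) ^ (1 / 1000 : ℝ)) (bz R0 j0 N 0) lm →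
    (∀ f : SA, Dec (bz R0 j0 N) lp lm c ((N : ℝ) ^ (29 / 50 : ℝ)) f →
      |lin (rr r N H) f| ≤ (N : ℝ) ^ (4995 / 10000 : ℝ)) ∧
    ∀ i, 29 ≤ i → i ≤ 94 → ∀ f : SA, Dec (bz R0 j0 N) lp lm c ((N : ℝ) ^ tq i) f →
      |lin (rr r N H) (bx (Bp (yq N) i) * f)| ≤ (N : ℝ) ^ (4995 / 10000 : ℝ) := by
  filter_upwards [rem_term r R0 j0 c hr hR hj, rem_q r R0 j0 c hr hR hj,
    const_small' c] with N hN1 hN2 hcs H hH hrH lp lm hlp hlm
  have hB : (0 : ℝ) ≤ (N : ℝ) ^ (4994 / 10000 : ℝ) := by positivity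
  constructor
  · rintro f ⟨T, hT, rfl, hTl⟩
    refine le_trans ?_ hcs
    refine lin_sum_le _ (fun t => term (bz R0 j0 N) t.2.2 (if t.2.1 then lp else lm)) T c _ hB hT
      fun t ht => ?_
    obtain ⟨h1, h2⟩ := hTl t ht
    refine hN1 H hH hrH _ t.2.2 h1 ?_ h2
    split_ifs
    · exact hlp
    · exact hlm
  · rintro i hi1 hi2 f ⟨T, hT, rfl, hTl⟩
    refine le_trans ?_ hcs
    have e1 : bx (Bp (yq N) i) * (T.map (fun t => (if t.1 then (1 : ℝ) else -1) •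
        term (bz R0 j0 N) t.2.2 (if t.2.1 then lp else lm))).sum =
        (T.map (fun t => (if t.1 then (1 : ℝ) else -1) • (bx (Bp (yq N) i) *
          term (bz R0 j0 N) t.2.2 (if t.2.1 then lp else lm)))).sum := by
      rw [← List.sum_map_mul_left]
      congr 1
      refine List.map_congr_left fun t _ => ?_
      rw [mul_smul_comm]
    rw [e1]
    refine lin_sum_le _ (fun t => bx (Bp (yq N) i) *
      term (bz R0 j0 N) t.2.2 (if t.2.1 then lp else lm)) T c _ hB hT fun t ht => ?_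
    obtain ⟨h1, h2⟩ := hTl t ht
    refine hN2 H hH hrH _ t.2.2 h1 ?_ i hi1 hi2 h2
    split_ifs
    · exact hlp
    · exact hlm

end Pool.Agent.PTH
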