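import Pool.Agent.PTH.RgMs

/-!
# PTH / RgTe: bump functions of a positive contraction

`tent m k s = (max 0 (1 - |m s - k|))^{1/2}`, `λ = k/m`.  Scalars: continuous, `0 ≤ tent ≤ 1`,
`∑_{k ≤ m} tent m k s ^ 2 = 1` for `0 ≤ s ≤ 1`, `1 ≤ m` (with `j = ⌊m s⌋`: only `k = j, j + 1`
contribute, `(1 - (ms - j)) + (ms - j) = 1`; if `j = m` then `s = 1` and only `k = m`), and
`tent m k s ≠ 0 → |s - k/m| ≤ 1/m`.

`β ∈ A`, `0 ≤ β ≤ 1`, `q_k = cfc (tent m k) β` (self-adjoint, `0 ≤ q_k ≤ 1`; the spectrum of `β` is in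
`[0,1]`).
* `sel`: `∑ q_k (β - β²) q_k = β - β²` (cfc), and pointwise on `[0,1]`
  `tent² s (1 - s) ≤ tent² (λ(1-λ) + 1/m)` (`|s(1-s) - λ(1-λ)| = |s-λ||1-s-λ| ≤ 1/m` where
  `tent ≠ 0`) and `tent² s (1 - s) ≤ tent²/4`.  So with `N_k = ‖q_k v‖²`, `∑ N_k = ‖v‖² ≤ 1`:
  `η < ∑_k lm (q_k (β - β²) q_k) v ≤ ∑_{k good} N_k/4 + ∑_{k bad} (η/2 + 1/m) N_k`, where `k` is bad
  if `λ(1-λ) < η/2`.  If all good `k` had `N_k < η/(m+1)` the right side would be
  `≤ η/4 + η/2 + η/4 = η` (`1/m ≤ η/4`), contradiction.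
* `te_sub`: pointwise `tent² (s - λ)² ≤ tent²/m²`; `‖(β-λ) q v‖² = lm (q (β-λ)² q) v`.
* `te_g`: `w = cfc (fun s => tent m k s / max s (η/4)) β`; where `tent ≠ 0`: `s ≥ λ - 1/m ≥ η/2 - η/4`
  (`λ ≥ λ(1-λ) ≥ η/2`), so `q = β w` and pointwise `(tent/max)² ≤ (4/η)² tent²`:
  `‖w v‖ ≤ (4/η) ‖q v‖`; `g q v = (g β) (w v)`.
-/

open Filter Topology MulOpposite
open scoped InnerProductSpace ComplexOrder

universe u

namespace Pool.Agent.PTH

/-- Bump function. -/
noncomputable def tent (m k : ℕ) (s : ℝ) : ℝ := Real.sqrt (max 0 (1 - |(m : ℝ) * s - k|))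

theorem tent_cont (m k : ℕ) : Continuous (tent m k) := by
  unfold tent
  fun_prop

theorem tent_nonneg (m k : ℕ) (s : ℝ) : 0 ≤ tent m k s := Real.sqrt_nonneg _

theorem tent_sq (m k : ℕ) (s : ℝ) : tent m k s ^ 2 = max 0 (1 - |(m : ℝ) * s - k|) :=
  Real.sq_sqrt (le_max_left _ _)

theorem tent_le_one (m k : ℕ) (s : ℝ) : tent m k s ≤ 1 := by
  refine Real.sqrt_le_one.2 (max_le zero_le_one ?_)
  linarith [abs_nonneg ((m : ℝ) * s - k)]

theorem tent_zero {m k : ℕ} (hk : 1 ≤ k) : tent m k 0 = 0 := by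
  unfold tent
  have hk' : (1 : ℝ) ≤ k := by exact_mod_cast hk
  rw [mul_zero, zero_sub, abs_neg, abs_of_nonneg (by linarith), max_eq_left (by linarith),
    Real.sqrt_zero]

private theorem tent_ne {m k : ℕ} {s : ℝ} (h : tent m k s ≠ 0) : |(m : ℝ) * s - k| < 1 := by
  by_contra hcon
  push Not at hcon
  refine h ?_
  unfold tent
  rw [max_eq_left (by linarith), Real.sqrt_zero]

theorem tent_supp {m k : ℕ} (hm : 1 ≤ m) {s : ℝ} (h : tent m k s ≠ 0) :
    |s - (k : ℝ) / m| ≤ 1 / m := by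
  have hm' : (0 : ℝ) < m := by exact_mod_cast hm
  have h1 := tent_ne h
  have e : s - (k : ℝ) / m = ((m : ℝ) * s - k) / m := by field_simp
  rw [e, abs_div, abs_of_pos hm']
  exact div_le_div_of_nonneg_right h1.le hm'.le

theorem tent_sum {m : ℕ} (hm : 1 ≤ m) {s : ℝ} (h0 : 0 ≤ s) (h1 : s ≤ 1) :
    ∑ k ∈ Finset.range (m + 1), tent m k s ^ 2 = 1 := by
  have hm' : (0 : ℝ) < m := by exact_mod_cast hm
  simp only [tent_sq]
  set t : ℝ := (m : ℝ) * s with ht
  have ht0 : 0 ≤ t := by positivity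
  have htm : t ≤ m := by
    rw [ht]; exact mul_le_of_le_one_right hm'.le h1
  set j := ⌊t⌋₊ with hj
  have hj1 : (j : ℝ) ≤ t := Nat.floor_le ht0
  have hj2 : t < j + 1 := Nat.lt_floor_add_one t
  have hjm : j ≤ m := by
    have : (j : ℝ) ≤ m := hj1.trans htm
    exact_mod_cast this
  have hlow : ∀ k : ℕ, k < j → max 0 (1 - |t - k|) = 0 := by
    intro k hk
    have : (k : ℝ) + 1 ≤ j := by exact_mod_cast hk
    rw [abs_of_nonneg (by linarith)]
    exact max_eq_left (by linarith)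
  have hhigh : ∀ k : ℕ, j + 1 < k → max 0 (1 - |t - k|) = 0 := by
    intro k hk
    have : (j : ℝ) + 1 + 1 ≤ k := by exact_mod_cast hk
    rw [abs_of_nonpos (by linarith)]
    exact max_eq_left (by linarith)
  rcases hjm.eq_or_lt with hjm' | hjm'
  · have htj : t = j := le_antisymm (by rw [hjm']; exact htm) hj1
    rw [Finset.sum_eq_single j]
    · rw [htj, sub_self, abs_zero, sub_zero]
      exact max_eq_right zero_le_one
    · intro k hk hkj
      rw [Finset.mem_range] at hk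
      exact hlow k (by omega)
    · intro h
      exact absurd (Finset.mem_range.2 (by omega)) h
  · have hsub : ({j, j + 1} : Finset ℕ) ⊆ Finset.range (m + 1) := by
      intro k hk
      simp only [Finset.mem_insert, Finset.mem_singleton] at hk
      rw [Finset.mem_range]
      omega
    rw [← Finset.sum_subset hsub]
    · rw [Finset.sum_pair (by omega)]
      have e1 : |t - (j : ℝ)| = t - j := abs_of_nonneg (by linarith)
      have e2 : |t - ((j + 1 : ℕ) : ℝ)| = j + 1 - t := by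
        push_cast
        rw [abs_of_nonpos (by linarith)]
        ring
      rw [e1, e2, max_eq_right (by linarith), max_eq_right (by linarith)]
      ring
    · intro k _ hk
      simp only [Finset.mem_insert, Finset.mem_singleton, not_or] at hk
      rcases lt_or_ge k j with h | h
      · exact hlow k h
      · exact hhigh k (by omega)

variable {A : Type u} [CStarAlgebra A] [PartialOrder A] [StarOrderedRing A]
  (B : Bim.{u} A) {β : A} (h0 : 0 ≤ β) (h1 : β ≤ 1)

omit [PartialOrder A] [StarOrderedRing A] in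
private theorem lm_sum' {ι : Type*} (s : Finset ι) (f : ι → A) (v : B.H) :
    lm B (∑ i ∈ s, f i) v = ∑ i ∈ s, lm B (f i) v := by
  classical
  induction s using Finset.induction_on with
  | empty =>
    rw [Finset.sum_empty, Finset.sum_empty]
    have := lm_sub B (0 : A) 0 v
    rwa [sub_zero, sub_self] at this
  | insert a s ha ih => rw [Finset.sum_insert ha, Finset.sum_insert ha, lm_add, ih]

include h0 h1

private theorem spec01 {s : ℝ} (hs : s ∈ spectrum ℝ β) : 0 ≤ s ∧ s ≤ 1 := by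
  refine ⟨spectrum_nonneg_of_nonneg h0 hs, ?_⟩
  have h2 : ∀ x ∈ spectrum ℝ β, id x ≤ 1 := by
    refine (cfc_le_one_iff (id : ℝ → ℝ) β continuousOn_id (IsSelfAdjoint.of_nonneg h0)).1 ?_
    rwa [cfc_id ℝ β (IsSelfAdjoint.of_nonneg h0)]
  exact h2 s hs

omit h1 in
private theorem norm_cfc_sq {f : ℝ → ℝ} (hf : Continuous f) (v : B.H) :
    ‖B.l (cfc f β) v‖ ^ 2 = lm B (cfc (fun s => f s ^ 2) β) v := by
  have hsa : IsSelfAdjoint β := IsSelfAdjoint.of_nonneg h0
  rw [norm_l_sq', (cfc_predicate f β : IsSelfAdjoint _).star_eq,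
    ← cfc_mul f f β hf.continuousOn hf.continuousOn]
  congr 2
  ext s
  ring

private theorem lm_cfc_mono {f g : ℝ → ℝ} (hf : Continuous f) (hg : Continuous g)
    (h : ∀ s, 0 ≤ s → s ≤ 1 → f s ≤ g s) (v : B.H) : lm B (cfc f β) v ≤ lm B (cfc g β) v := by
  refine lm_mono B ?_ v
  refine cfc_mono (fun s hs => ?_) hf.continuousOn hg.continuousOn
  have := spec01 h0 h1 hs
  exact h s this.1 this.2

private theorem lm_cfc_congr {f g : ℝ → ℝ}
    (h : ∀ s, 0 ≤ s → s ≤ 1 → f s = g s) : cfc f β = cfc g β := by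
  refine cfc_congr fun s hs => ?_
  have := spec01 h0 h1 hs
  exact h s this.1 this.2

omit h0 h1 in
private theorem lm_cfc_smul (c : ℝ) (x : A) (v : B.H) : lm B (c • x) v = c * lm B x v := by
  unfold lm
  rw [← Complex.coe_smul, B.l_smul, inner_smul_right, Complex.re_ofReal_mul]

theorem sel {v : B.H} (hv : ‖v‖ ≤ 1) {η : ℝ} (hη : 0 < η) {m : ℕ} (hm1 : 1 ≤ m)
    (hm : 1 / (m : ℝ) ≤ η / 4) (h : η < lm B (β - β * β) v) :
    ∃ k ≤ m, η / 2 ≤ (k : ℝ) / m * (1 - (k : ℝ) / m) ∧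
      η / (m + 1) ≤ ‖B.l (cfc (tent m k) β) v‖ ^ 2 := by
  by_contra hcon
  push Not at hcon
  have hm' : (0 : ℝ) < m := by exact_mod_cast hm1
  have hsa : IsSelfAdjoint β := IsSelfAdjoint.of_nonneg h0
  have ct : ∀ k, Continuous (tent m k) := tent_cont m
  have hN : ∀ k, ‖B.l (cfc (tent m k) β) v‖ ^ 2 = lm B (cfc (fun s => tent m k s ^ 2) β) v :=
    fun k => norm_cfc_sq B h0 (ct k) v
  have hsumN : ∑ k ∈ Finset.range (m + 1), ‖B.l (cfc (tent m k) β) v‖ ^ 2 = ‖v‖ ^ 2 := by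
    rw [Finset.sum_congr rfl fun k _ => hN k, ← lm_sum',
      ← cfc_sum (fun k s => tent m k s ^ 2) β (Finset.range (m + 1))
        (fun k _ => ((ct k).pow 2).continuousOn)]
    have : cfc (∑ k ∈ Finset.range (m + 1), fun s => tent m k s ^ 2) β =
        cfc (fun _ : ℝ => (1 : ℝ)) β := by
      refine lm_cfc_congr h0 h1 fun s hs0 hs1 => ?_
      rw [Finset.sum_apply, tent_sum hm1 hs0 hs1]
    rw [this, cfc_const_one ℝ β, lm_one]
  have he : β - β * β = cfc (fun s : ℝ => s - s * s) β := by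
    rw [cfc_sub (fun s : ℝ => s) (fun s : ℝ => s * s) β continuousOn_id
      (continuous_id.mul continuous_id).continuousOn,
      cfc_mul (fun s : ℝ => s) (fun s : ℝ => s) β continuousOn_id continuousOn_id,
      cfc_id' ℝ β]
  have hsumE : lm B (β - β * β) v = ∑ k ∈ Finset.range (m + 1),
      lm B (cfc (fun s => tent m k s ^ 2 * (s - s * s)) β) v := by
    rw [he, ← lm_sum', ← cfc_sum (fun k s => tent m k s ^ 2 * (s - s * s)) β (Finset.range (m + 1))
        (fun k _ => (((ct k).pow 2).mul (by fun_prop)).continuousOn)]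
    congr 1
    refine lm_cfc_congr h0 h1 fun s hs0 hs1 => ?_
    rw [Finset.sum_apply, ← Finset.sum_mul, tent_sum hm1 hs0 hs1, one_mul]
  -- termwise bound
  have hterm : ∀ k ∈ Finset.range (m + 1),
      lm B (cfc (fun s => tent m k s ^ 2 * (s - s * s)) β) v ≤
        η / (4 * (m + 1)) + (η / 2 + 1 / m) * ‖B.l (cfc (tent m k) β) v‖ ^ 2 := by
    intro k hk
    have hkm : k ≤ m := by
      have := Finset.mem_range.1 hk
      omega
    have hN0 : 0 ≤ ‖B.l (cfc (tent m k) β) v‖ ^ 2 := sq_nonneg _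
    rcases le_or_gt (η / 2) ((k : ℝ) / m * (1 - (k : ℝ) / m)) with hg | hb
    · have h2 := hcon k hkm hg
      have h3 : lm B (cfc (fun s => tent m k s ^ 2 * (s - s * s)) β) v ≤
          lm B (cfc (fun s => (1 / 4 : ℝ) * tent m k s ^ 2) β) v := by
        refine lm_cfc_mono B h0 h1 (by fun_prop) (by fun_prop) (fun s hs0 hs1 => ?_) v
        have h4 : s - s * s ≤ 1 / 4 := by nlinarith [sq_nonneg (s - 1 / 2)]
        have h5 : 0 ≤ tent m k s ^ 2 := sq_nonneg _
        nlinarith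
      rw [cfc_const_mul (1 / 4 : ℝ) (fun s => tent m k s ^ 2) β ((ct k).pow 2).continuousOn,
        lm_cfc_smul, ← hN] at h3
      have h6 : (0 : ℝ) < m + 1 := by positivity
      have h7 : η / (4 * (m + 1)) = 1 / 4 * (η / (m + 1)) := by field_simp
      have h8 : 0 ≤ (η / 2 + 1 / m) * ‖B.l (cfc (tent m k) β) v‖ ^ 2 := by positivity
      rw [h7]
      linarith
    · have h3 : lm B (cfc (fun s => tent m k s ^ 2 * (s - s * s)) β) v ≤
          lm B (cfc (fun s => (η / 2 + 1 / m) * tent m k s ^ 2) β) v := by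
        refine lm_cfc_mono B h0 h1 (by fun_prop) (by fun_prop) (fun s hs0 hs1 => ?_) v
        rcases eq_or_ne (tent m k s) 0 with h4 | h4
        · rw [h4]; simp
        · have h5 := tent_supp hm1 h4
          have hk0 : 0 ≤ (k : ℝ) / m := by positivity
          have hk1 : (k : ℝ) / m ≤ 1 := by
            rw [div_le_one hm']
            exact_mod_cast hkm
          set l := (k : ℝ) / m with hl
          have h6 : s - s * s - l * (1 - l) = (s - l) * (1 - s - l) := by ring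
          have h7 : |(s - l) * (1 - s - l)| ≤ 1 / m * 1 := by
            rw [abs_mul]
            refine mul_le_mul h5 ?_ (abs_nonneg _) (by positivity)
            rw [abs_le]
            constructor <;> linarith
          have h8 : s - s * s ≤ η / 2 + 1 / m := by
            have := (le_abs_self _).trans h7
            linarith
          have h9 : 0 ≤ tent m k s ^ 2 := sq_nonneg _
          nlinarith
      rw [cfc_const_mul (η / 2 + 1 / (m : ℝ)) (fun s => tent m k s ^ 2) β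
        ((ct k).pow 2).continuousOn, lm_cfc_smul, ← hN] at h3
      have h6 : (0 : ℝ) ≤ η / (4 * (m + 1)) := by positivity
      linarith
  have hfin := Finset.sum_le_sum hterm
  rw [← hsumE, Finset.sum_add_distrib, ← Finset.mul_sum, hsumN, Finset.sum_const,
    Finset.card_range, nsmul_eq_mul] at hfin
  have e1 : ((m + 1 : ℕ) : ℝ) * (η / (4 * (m + 1))) = η / 4 := by
    push_cast
    field_simp
  rw [e1] at hfin
  have hv2 : ‖v‖ ^ 2 ≤ 1 := pow_le_one₀ (norm_nonneg v) hv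
  have h9 : (η / 2 + 1 / m) * ‖v‖ ^ 2 ≤ (η / 2 + η / 4) * 1 :=
    mul_le_mul (by linarith) hv2 (sq_nonneg _) (by linarith)
  linarith

theorem te_sub (v : B.H) {m k : ℕ} (hm1 : 1 ≤ m) :
    ‖B.l (β - ((k : ℝ) / m) • (1 : A)) (B.l (cfc (tent m k) β) v)‖ ≤
      1 / m * ‖B.l (cfc (tent m k) β) v‖ := by
  have hm' : (0 : ℝ) < m := by exact_mod_cast hm1
  have hsa : IsSelfAdjoint β := IsSelfAdjoint.of_nonneg h0
  have ct := tent_cont m k
  have e1 : β - ((k : ℝ) / m) • (1 : A) = cfc (fun s : ℝ => s - (k : ℝ) / m) β := by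
    rw [cfc_sub (fun s : ℝ => s) (fun _ : ℝ => (k : ℝ) / m) β continuousOn_id
      continuousOn_const, cfc_id' ℝ β, cfc_const _ β, Algebra.algebraMap_eq_smul_one]
  have e2 : (β - ((k : ℝ) / m) • (1 : A)) * cfc (tent m k) β =
      cfc (fun s : ℝ => (s - (k : ℝ) / m) * tent m k s) β := by
    rw [e1, ← cfc_mul (fun s : ℝ => s - (k : ℝ) / m) (tent m k) β (by fun_prop) ct.continuousOn]
  have h2 : ‖B.l (β - ((k : ℝ) / m) • (1 : A)) (B.l (cfc (tent m k) β) v)‖ ^ 2 ≤
      (1 / m * ‖B.l (cfc (tent m k) β) v‖) ^ 2 := by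
    rw [← B.l_mul, e2, norm_cfc_sq B h0 (by fun_prop : Continuous fun s : ℝ =>
      (s - (k : ℝ) / m) * tent m k s) v, mul_pow, norm_cfc_sq B h0 ct v, ← lm_cfc_smul,
      ← cfc_const_mul ((1 / (m : ℝ)) ^ 2) (fun s => tent m k s ^ 2) β (ct.pow 2).continuousOn]
    refine lm_cfc_mono B h0 h1 (by fun_prop) (by fun_prop) (fun s _ _ => ?_) v
    rcases eq_or_ne (tent m k s) 0 with h4 | h4
    · rw [h4]; simp
    · have h5 := tent_supp hm1 h4
      have h6 : (s - (k : ℝ) / m) ^ 2 ≤ (1 / (m : ℝ)) ^ 2 := by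
        rw [← sq_abs (s - (k : ℝ) / m)]
        exact pow_le_pow_left₀ (abs_nonneg _) h5 2
      rw [mul_pow]
      exact mul_le_mul_of_nonneg_right h6 (sq_nonneg _)
  exact (pow_le_pow_iff_left₀ (norm_nonneg _) (by positivity) (by norm_num)).1 h2

theorem te_g (v : B.H) {g : A} {C : ℝ} (hg : ‖g * β‖ ≤ C) {η : ℝ} (hη : 0 < η) {m k : ℕ}
    (hm1 : 1 ≤ m) (hk : k ≤ m) (hm : 1 / (m : ℝ) ≤ η / 4)
    (hk' : η / 2 ≤ (k : ℝ) / m * (1 - (k : ℝ) / m)) :
    ‖B.l g (B.l (cfc (tent m k) β) v)‖ ≤ 4 * C / η * ‖B.l (cfc (tent m k) β) v‖ := by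
  have hm' : (0 : ℝ) < m := by exact_mod_cast hm1
  have hsa : IsSelfAdjoint β := IsSelfAdjoint.of_nonneg h0
  have ct := tent_cont m k
  have hC : 0 ≤ C := (norm_nonneg _).trans hg
  have hk1 : (k : ℝ) / m ≤ 1 := by
    rw [div_le_one hm']
    exact_mod_cast hk
  have hk0 : 0 ≤ (k : ℝ) / m := by positivity
  have hl : η / 2 ≤ (k : ℝ) / m := by nlinarith
  set w : ℝ → ℝ := fun s => tent m k s / max s (η / 4) with hw
  have hpos : ∀ s : ℝ, 0 < max s (η / 4) := fun s => lt_of_lt_of_le (by linarith) (le_max_right _ _)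
  have cw : Continuous w := ct.div₀ (continuous_id.max continuous_const) fun s => (hpos s).ne'
  have e1 : cfc (tent m k) β = β * cfc w β := by
    have : β * cfc w β = cfc (fun s : ℝ => s * w s) β := by
      rw [cfc_mul (fun s : ℝ => s) w β continuousOn_id cw.continuousOn, cfc_id' ℝ β]
    rw [this]
    refine lm_cfc_congr h0 h1 fun s hs0 hs1 => ?_
    rcases eq_or_ne (tent m k s) 0 with h4 | h4
    · simp only [hw, h4, zero_div, mul_zero]
    · have h5 := (abs_le.1 (tent_supp hm1 h4)).1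
      have h6 : η / 4 ≤ s := by linarith
      simp only [hw, max_eq_left h6]
      have : s ≠ 0 := by
        have : 0 < s := by linarith
        exact this.ne'
      field_simp
  have h2 : ‖B.l (cfc w β) v‖ ≤ 4 / η * ‖B.l (cfc (tent m k) β) v‖ := by
    have h3 : ‖B.l (cfc w β) v‖ ^ 2 ≤ (4 / η * ‖B.l (cfc (tent m k) β) v‖) ^ 2 := by
      rw [norm_cfc_sq B h0 cw v, mul_pow, norm_cfc_sq B h0 ct v, ← lm_cfc_smul,
        ← cfc_const_mul ((4 / η) ^ 2) (fun s => tent m k s ^ 2) β (ct.pow 2).continuousOn]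
      refine lm_cfc_mono B h0 h1 (by fun_prop) (by fun_prop) (fun s _ _ => ?_) v
      simp only [hw]
      rw [div_pow, div_eq_inv_mul]
      refine mul_le_mul_of_nonneg_right ?_ (sq_nonneg (tent m k s))
      rw [← inv_pow]
      have h5 : (max s (η / 4))⁻¹ ≤ 4 / η := by
        rw [inv_le_comm₀ (hpos s) (by positivity), inv_div]
        exact le_max_right _ _
      exact pow_le_pow_left₀ (inv_nonneg.2 (hpos s).le) h5 2
    exact (pow_le_pow_iff_left₀ (norm_nonneg _) (by positivity) (by norm_num)).1 h3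
  have e2 : B.l g (B.l (cfc (tent m k) β) v) = B.l (g * β) (B.l (cfc w β) v) := by
    nth_rewrite 1 [e1]
    rw [B.l_mul, ← B.l_mul]
  rw [e2]
  refine (B.norm_l_le _ _).trans ?_
  refine (mul_le_mul hg h2 (norm_nonneg _) hC).trans (le_of_eq ?_)
  ring

end Pool.Agent.PTH
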