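import Pool.Agent.PTH.RgPo
import Pool.Agent.PTH.RgTe

/-!
# PTH / RgBu: a localised almost invariant vector

`β = T Y`, `C = 24/η` (from `Mn.norm_gT`, `te_g` with `C = 6`: `4·6/η`).

PROOF.  WLOG: if `η ≥ 1/4` the hypothesis `η < lm (β - β²) v` is impossible (`β - β² ≤ 1/4`); in
general choose `m ≥ 1` with `1/m ≤ η/4` and `1/m ≤ √(ε2)/4` (so `(1/m)² ≤ ε2/16`).  For each `k ≤ m`
with `1 ≤ k`, `en_cfc (tent m k)` with `δ = ρ η/(16 (m+1))` gives `θ_k`; `θ` = minimum of the `θ_k`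
(finite) and `1`.  `G1` such that `24/(η G1) ≤ min (1/4) (min (ε2/16) (ρ/16))`.
Given `v`, `sel` gives `k`, `λ = k/m`, `k ≥ 1` (since `λ(1-λ) ≥ η/2 > 0`), `v' = l(cfc (tent m k) β) v`,
`‖v'‖² ≥ η/(m+1) > 0`; `‖(β-λ)v'‖ ≤ (1/m)‖v'‖` (`te_sub`), `‖g v'‖ ≤ C ‖v'‖` (`te_g`),
`e(v') ≤ δ ≤ (ρ/16)‖v'‖²`.  `v'' = l z v'`: `‖v' - v''‖² = lm (1-z) v' ≤ (1/G0) lm g v' ≤
(1/G0) ‖v'‖ ‖g v'‖ ≤ (24/(η G0)) ‖v'‖² =: r²‖v'‖²`, `r² ≤ 1/4`.  `‖v''‖² = ‖v'‖² - ‖v' - v''‖² ≥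
(3/4)‖v'‖²` (z projection), in particular `v'' ≠ 0`.
`‖(β-λ)v''‖ ≤ ‖(β-λ)v'‖ + ‖v' - v''‖ ≤ (√ε2/4 + √ε2/4)‖v'‖` (`‖β - λ‖ ≤ 1` as `0 ≤ β ≤ 1`,
`0 ≤ λ ≤ 1`), squared `≤ (ε2/4)‖v'‖² ≤ ε2 ‖v''‖²`.  `g v'' = g z v' = z g v'`:
`‖g v''‖² ≤ C²‖v'‖² ≤ 2 C² ‖v''‖²`.  `√e(v'') ≤ √e(v') + ‖v'-v''‖ ≤ (√ρ/4 + √ρ/4)‖v'‖`,
`e(v'') ≤ (ρ/4)‖v'‖² ≤ ρ ‖v''‖²`.  `Bdd_l` twice.
-/

open Filter Topology MulOpposite
open scoped InnerProductSpace ComplexOrder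

universe u

namespace Pool.Agent.PTH

theorem bump {η ε2 ρ M : ℝ} (hη : 0 < η) (h2 : 0 < ε2) (hρ : 0 < ρ) (hM : 4 ≤ M) :
    ∃ θ > 0, ∃ G1 > 0, ∀ (A : Type u) [CStarAlgebra A] [PartialOrder A] [StarOrderedRing A]
      [TracialVN A] (W : UA A) (ν εg σ G0 : ℝ) (z Y g D : A), Mn W ν εg z Y g D → εg ≤ θ →
      0 ≤ σ → σ ≤ θ → G1 ≤ G0 → 1 - z ≤ (1 / G0) • g → HW W g (M + 1) σ →
      ∀ B : Bim.{u} A, B.Reg → ∀ v : B.H, B.Bdd v → ‖v‖ ≤ 1 → W.eB B v ≤ θ → rm B g v ≤ M →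
      η < lm B (W.T Y - W.T Y * W.T Y) v →
      ∃ (lam : ℝ) (w : B.H), 0 ≤ lam ∧ lam ≤ 1 ∧ η / 2 ≤ lam * (1 - lam) ∧ B.Bdd w ∧ w ≠ 0 ∧
        B.l z w = w ∧ ‖B.l (W.T Y - lam • (1 : A)) w‖ ^ 2 ≤ ε2 * ‖w‖ ^ 2 ∧
        ‖B.l g w‖ ^ 2 ≤ 2 * (24 / η) ^ 2 * ‖w‖ ^ 2 ∧ W.eB B w ≤ ρ * ‖w‖ ^ 2 := by
  obtain ⟨m, hm1, hm, hm2⟩ : ∃ m : ℕ, 1 ≤ m ∧ 1 / (m : ℝ) ≤ η / 4 ∧
      1 / (m : ℝ) ≤ Real.sqrt ε2 / 4 := by
    have hs : 0 < Real.sqrt ε2 := Real.sqrt_pos.2 h2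
    obtain ⟨m, hm⟩ := exists_nat_gt (max (4 / η) (4 / Real.sqrt ε2))
    have hm1 : 4 / η < m := lt_of_le_of_lt (le_max_left _ _) hm
    have hm2 : 4 / Real.sqrt ε2 < m := lt_of_le_of_lt (le_max_right _ _) hm
    have hm0 : (0 : ℝ) < m := lt_trans (by positivity) hm1
    refine ⟨m, by exact_mod_cast hm0, ?_, ?_⟩
    · rw [div_le_div_iff₀ hm0 (by norm_num)]
      rw [div_lt_iff₀ hη] at hm1
      linarith
    · rw [div_le_div_iff₀ hm0 (by norm_num)]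
      rw [div_lt_iff₀ hs] at hm2
      linarith
  have hm0 : (0 : ℝ) < m := by exact_mod_cast hm1
  have hδ : 0 < ρ * η / (16 * (m + 1)) := by positivity
  choose! θf hθf0 hθf using fun (k : ℕ) (hk : 1 ≤ k) =>
    en_cfc.{u} (tent m k) (tent_cont m k) (tent_zero hk) hM hδ
  obtain ⟨k0, hk0, hkmin⟩ := (Finset.Icc 1 m).exists_min_image θf ⟨1, Finset.mem_Icc.2 ⟨le_rfl, hm1⟩⟩
  have hk01 : 1 ≤ k0 := (Finset.mem_Icc.1 hk0).1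
  set κ : ℝ := min (1 / 4) (min (ε2 / 64) (ρ / 16)) with hκ
  have hκ0 : 0 < κ := lt_min (by norm_num) (lt_min (by positivity) (by positivity))
  have hκ1 : κ ≤ 1 / 4 := min_le_left _ _
  have hκ2 : κ ≤ ε2 / 64 := (min_le_right _ _).trans (min_le_left _ _)
  have hκ3 : κ ≤ ρ / 16 := (min_le_right _ _).trans (min_le_right _ _)
  refine ⟨θf k0, hθf0 k0 hk01, 24 / (η * κ), by positivity, ?_⟩
  intro A _ _ _ _ W ν εg σ G0 z Y g D h hεg hσ0 hσ hG hz hW B hB v hv hv1 hve hvr hlt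
  have hb0 := h.β_nonneg
  have hb1 := h.β_le
  obtain ⟨k, hkm, hk2, hkN⟩ := sel B hb0 hb1 hv1 hη hm1 hm hlt
  have hk1 : 1 ≤ k := by
    rcases Nat.eq_zero_or_pos k with h0 | h0
    · subst h0
      rw [Nat.cast_zero, zero_div, zero_mul] at hk2
      linarith
    · exact h0
  have hθk : θf k0 ≤ θf k := hkmin k (Finset.mem_Icc.2 ⟨hk1, hkm⟩)
  have hen := hθf k hk1 A W ν εg σ z Y g D h (hεg.trans hθk) hσ0 (hσ.trans hθk) hW B hB v hv1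
    (hve.trans hθk) hvr
  have hsub := te_sub B hb0 hb1 v (k := k) hm1
  have hgv := te_g B hb0 hb1 v h.norm_gT hη hm1 hkm hm hk2
  set v' : B.H := B.l (cfc (tent m k) (W.T Y)) v with hv'
  have hN0 : 0 ≤ ‖v'‖ := norm_nonneg _
  have hN : 0 < ‖v'‖ ^ 2 := lt_of_lt_of_le (by positivity) hkN
  have hNp : 0 < ‖v'‖ := by
    rcases hN0.lt_or_eq with h3 | h3
    · exact h3
    · rw [← h3] at hN
      norm_num at hN
  have hen2 : W.eB B v' ≤ ρ / 16 * ‖v'‖ ^ 2 := by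
    refine hen.trans ?_
    have h3 : ρ * η / (16 * (m + 1)) = ρ / 16 * (η / (m + 1)) := by
      field_simp
    rw [h3]
    exact mul_le_mul_of_nonneg_left hkN (by positivity)
  have hG0 : 0 < G0 := lt_of_lt_of_le (by positivity) hG
  have hzs : star z = z := h.z_prj.1
  have hzz : z * z = z := h.z_prj.2
  set d : B.H := B.l (1 - z) v' with hd
  have hdw : B.l z v' = v' - d := by
    rw [hd, B.l_sub, B.l_one, sub_sub_cancel]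
  have hd2 : ‖d‖ ^ 2 = lm B (1 - z) v' := by
    rw [hd, norm_l_sq']
    congr 1
    rw [star_sub, star_one, hzs, mul_sub, sub_mul, sub_mul, one_mul, one_mul, mul_one, hzz,
      sub_self, sub_zero]
  have hw2 : ‖B.l z v'‖ ^ 2 = lm B z v' := by
    rw [norm_l_sq', hzs, hzz]
  have hsum : ‖B.l z v'‖ ^ 2 + ‖d‖ ^ 2 = ‖v'‖ ^ 2 := by
    rw [hd2, hw2, lm_sub, lm_one]
    ring
  have hlmg : lm B g v' ≤ 24 / η * ‖v'‖ ^ 2 := by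
    unfold lm
    refine (Complex.re_le_norm _).trans ((norm_inner_le_norm _ _).trans ?_)
    calc ‖v'‖ * ‖B.l g v'‖ ≤ ‖v'‖ * (4 * 6 / η * ‖v'‖) := mul_le_mul_of_nonneg_left hgv hN0
      _ = 24 / η * ‖v'‖ ^ 2 := by ring
  have hlmz : lm B ((1 / G0) • g) v' = 1 / G0 * lm B g v' := by
    unfold lm
    have e1 : ((1 / G0 : ℝ) • g) = ((1 / G0 : ℝ) : ℂ) • g := (Complex.coe_smul _ _).symm
    have e2 : B.l (((1 / G0 : ℝ) : ℂ) • g) v' = ((1 / G0 : ℝ) : ℂ) • B.l g v' := by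
      unfold Bim.l
      rw [map_smul]
      rfl
    rw [e1, e2, inner_smul_right, Complex.re_ofReal_mul]
  have hdκ : ‖d‖ ^ 2 ≤ κ * ‖v'‖ ^ 2 := by
    rw [hd2]
    refine (lm_mono B hz v').trans ?_
    rw [hlmz]
    have h3 : 1 / G0 ≤ 1 / (24 / (η * κ)) := one_div_le_one_div_of_le (by positivity) hG
    have h4 : 1 / (24 / (η * κ)) = η * κ / 24 := by
      rw [one_div_div]
    rw [h4] at h3
    have h5 : (0 : ℝ) ≤ 24 / η * ‖v'‖ ^ 2 := by positivity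
    calc 1 / G0 * lm B g v' ≤ 1 / G0 * (24 / η * ‖v'‖ ^ 2) :=
          mul_le_mul_of_nonneg_left hlmg (by positivity)
      _ ≤ η * κ / 24 * (24 / η * ‖v'‖ ^ 2) := mul_le_mul_of_nonneg_right h3 h5
      _ = κ * ‖v'‖ ^ 2 := by field_simp
  have hwN : 3 / 4 * ‖v'‖ ^ 2 ≤ ‖B.l z v'‖ ^ 2 := by
    have := mul_le_mul_of_nonneg_right hκ1 hN.le
    linarith
  have hw0 : B.l z v' ≠ 0 := by
    intro h3
    rw [h3, norm_zero] at hwN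
    norm_num at hwN
    linarith
  have hlam0 : 0 ≤ (k : ℝ) / m := by positivity
  have hlam1 : (k : ℝ) / m ≤ 1 := by
    rw [div_le_one hm0]
    exact_mod_cast hkm
  have hs2 : Real.sqrt ε2 ^ 2 = ε2 := Real.sq_sqrt h2.le
  have hs0 : 0 ≤ Real.sqrt ε2 := Real.sqrt_nonneg _
  have hd8 : ‖d‖ ≤ Real.sqrt ε2 / 8 * ‖v'‖ := by
    have h3 : ‖d‖ ^ 2 ≤ (Real.sqrt ε2 / 8 * ‖v'‖) ^ 2 := by
      have h4 := mul_le_mul_of_nonneg_right hκ2 hN.le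
      have h5 : (Real.sqrt ε2 / 8 * ‖v'‖) ^ 2 = ε2 / 64 * ‖v'‖ ^ 2 := by
        rw [mul_pow, div_pow, hs2]
        ring
      rw [h5]
      linarith
    exact (pow_le_pow_iff_left₀ (norm_nonneg _) (by positivity) two_ne_zero).1 h3
  have hbn : ‖W.T Y‖ ≤ 1 := (W.norm_T_le Y).trans (norm_proj_le h.Y_prj)
  have hbl : ‖W.T Y - ((k : ℝ) / m) • (1 : A)‖ ≤ 2 := by
    refine (norm_sub_le _ _).trans ?_
    rw [norm_smul, Real.norm_of_nonneg hlam0]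
    have h3 : ‖(1 : A)‖ ≤ 1 := norm_one_le'
    have h4 := norm_nonneg (1 : A)
    have h5 : (k : ℝ) / m * ‖(1 : A)‖ ≤ 1 * 1 := mul_le_mul hlam1 h3 h4 zero_le_one
    linarith
  refine ⟨(k : ℝ) / m, B.l z v', hlam0, hlam1, hk2, B.Bdd_l (B.Bdd_l hv _) _, hw0, ?_, ?_, ?_, ?_⟩
  · rw [← B.l_mul, hzz]
  · have h3 : ‖B.l (W.T Y - ((k : ℝ) / m) • (1 : A)) (B.l z v')‖ ≤ Real.sqrt ε2 / 2 * ‖v'‖ := by
      rw [hdw, map_sub]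
      refine (norm_sub_le _ _).trans ?_
      have h4 : ‖B.l (W.T Y - ((k : ℝ) / m) • (1 : A)) d‖ ≤ 2 * (Real.sqrt ε2 / 8 * ‖v'‖) :=
        (B.norm_l_le _ _).trans (mul_le_mul hbl hd8 (norm_nonneg _) (by norm_num))
      have h5 : 1 / (m : ℝ) * ‖v'‖ ≤ Real.sqrt ε2 / 4 * ‖v'‖ :=
        mul_le_mul_of_nonneg_right hm2 hN0
      linarith
    have h4 := pow_le_pow_left₀ (norm_nonneg _) h3 2
    refine h4.trans ?_
    rw [mul_pow, div_pow, hs2]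
    have h5 := mul_le_mul_of_nonneg_left hwN h2.le
    have h6 : 0 ≤ ε2 * ‖v'‖ ^ 2 := mul_nonneg h2.le hN.le
    linarith
  · have h3 : ‖B.l g (B.l z v')‖ ≤ 4 * 6 / η * ‖v'‖ := by
      rw [← B.l_mul, ← h.zg, B.l_mul]
      refine (B.norm_l_le _ _).trans ?_
      have h4 : ‖z‖ ≤ 1 := norm_proj_le h.z_prj
      calc ‖z‖ * ‖B.l g v'‖ ≤ 1 * ‖B.l g v'‖ := mul_le_mul_of_nonneg_right h4 (norm_nonneg _)
        _ ≤ _ := by rw [one_mul]; exact hgv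
    have h4 := pow_le_pow_left₀ (norm_nonneg _) h3 2
    refine h4.trans ?_
    rw [mul_pow]
    have h5 : (4 * 6 / η : ℝ) = 24 / η := by norm_num
    rw [h5]
    have h6 : (0 : ℝ) ≤ (24 / η) ^ 2 := by positivity
    have h7 : ‖v'‖ ^ 2 ≤ 2 * ‖B.l z v'‖ ^ 2 := by linarith
    calc (24 / η) ^ 2 * ‖v'‖ ^ 2 ≤ (24 / η) ^ 2 * (2 * ‖B.l z v'‖ ^ 2) :=
          mul_le_mul_of_nonneg_left h7 h6
      _ = 2 * (24 / η) ^ 2 * ‖B.l z v'‖ ^ 2 := by ring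
  · have h3 := W.sqrt_eB_add_le B v' (-d)
    rw [← sub_eq_add_neg, ← hdw] at h3
    have h4 : W.eB B (-d) ≤ ρ / 16 * ‖v'‖ ^ 2 := by
      refine (W.eB_le B h.pos _).trans ?_
      rw [norm_neg]
      exact hdκ.trans (mul_le_mul_of_nonneg_right hκ3 hN.le)
    have h5 := Real.sqrt_le_sqrt h4
    have h6 := Real.sqrt_le_sqrt hen2
    have h7 : Real.sqrt (W.eB B (B.l z v')) ≤ 2 * Real.sqrt (ρ / 16 * ‖v'‖ ^ 2) := by linarith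
    have h8 := pow_le_pow_left₀ (Real.sqrt_nonneg _) h7 2
    rw [Real.sq_sqrt (W.eB_nonneg B _), mul_pow, Real.sq_sqrt (by positivity)] at h8
    have h9 := mul_le_mul_of_nonneg_left hwN hρ.le
    have h10 : 0 ≤ ρ * ‖v'‖ ^ 2 := mul_nonneg hρ.le hN.le
    linarith

end Pool.Agent.PTH
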