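import Pool.Agent.PTH.RgUb

/-!
# PTH / RgCj: the conjugate bimodule

`B.cj`: the conjugate Hilbert space of `B.H` with `x . ξ̄ . y = (y* ξ x*)‾`; it turns statements on
the right action into statements on the left action.  All lemmas are formal.
-/

open Filter Topology MulOpposite
open scoped InnerProductSpace ComplexOrder

universe u

namespace Pool.Agent.PTH

/-- The conjugate Hilbert space. -/
def CjH (H : Type u) : Type u := H

namespace CjH

variable {H : Type u} [NormedAddCommGroup H] [InnerProductSpace ℂ H]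

instance instNACG : NormedAddCommGroup (CjH H) := inferInstanceAs (NormedAddCommGroup H)

instance instComplete [CompleteSpace H] : CompleteSpace (CjH H) :=
  inferInstanceAs (CompleteSpace H)

/-- The identity map. -/
def mk (ξ : H) : CjH H := ξ

/-- The identity map. -/
def of (ξ : CjH H) : H := ξ

noncomputable instance instModule : Module ℂ (CjH H) where
  smul c ξ := mk ((starRingEnd ℂ c) • of ξ)
  one_smul ξ := by
    change (starRingEnd ℂ 1) • of ξ = of ξ
    rw [map_one, one_smul]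
  mul_smul c d ξ := by
    change (starRingEnd ℂ (c * d)) • of ξ = (starRingEnd ℂ c) • ((starRingEnd ℂ d) • of ξ)
    rw [map_mul, mul_smul]
  smul_zero c := by
    change (starRingEnd ℂ c) • (0 : H) = 0
    rw [smul_zero]
  smul_add c ξ η := by
    change (starRingEnd ℂ c) • (of ξ + of η) = (starRingEnd ℂ c) • of ξ + (starRingEnd ℂ c) • of η
    rw [smul_add]
  add_smul c d ξ := by
    change (starRingEnd ℂ (c + d)) • of ξ = (starRingEnd ℂ c) • of ξ + (starRingEnd ℂ d) • of ξ
    rw [map_add, add_smul]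
  zero_smul ξ := by
    change (starRingEnd ℂ 0) • of ξ = (0 : H)
    rw [map_zero, zero_smul]

theorem smul_def (c : ℂ) (ξ : CjH H) : c • ξ = mk ((starRingEnd ℂ c) • of ξ) := rfl

noncomputable instance instNS : NormedSpace ℂ (CjH H) where
  norm_smul_le c ξ := by
    change ‖(starRingEnd ℂ c) • of ξ‖ ≤ ‖c‖ * ‖of ξ‖
    rw [norm_smul, RCLike.norm_conj]

noncomputable instance instIPS : InnerProductSpace ℂ (CjH H) where
  inner ξ η := ⟪of η, of ξ⟫_ℂ
  norm_sq_eq_re_inner ξ := by
    exact InnerProductSpace.norm_sq_eq_re_inner (𝕜 := ℂ) (of ξ)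
  conj_inner_symm ξ η := by
    exact inner_conj_symm (𝕜 := ℂ) (of η) (of ξ)
  add_left ξ η ζ := by
    change ⟪of ζ, of ξ + of η⟫_ℂ = ⟪of ζ, of ξ⟫_ℂ + ⟪of ζ, of η⟫_ℂ
    rw [inner_add_right]
  smul_left ξ η c := by
    change ⟪of η, (starRingEnd ℂ c) • of ξ⟫_ℂ = (starRingEnd ℂ c) * ⟪of η, of ξ⟫_ℂ
    rw [inner_smul_right]

theorem inner_def (ξ η : CjH H) : ⟪ξ, η⟫_ℂ = ⟪of η, of ξ⟫_ℂ := rfl

/-- A bounded operator as an operator of the conjugate space. -/
noncomputable def map (S : H →L[ℂ] H) : CjH H →L[ℂ] CjH H where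
  toFun ξ := mk (S (of ξ))
  map_add' ξ η := by
    change S (of ξ + of η) = S (of ξ) + S (of η)
    rw [map_add]
  map_smul' c ξ := by
    change S ((starRingEnd ℂ c) • of ξ) = (starRingEnd ℂ c) • S (of ξ)
    rw [map_smul]
  cont := S.continuous

theorem map_apply (S : H →L[ℂ] H) (ξ : H) : map S (mk ξ) = mk (S ξ) := rfl

end CjH

namespace Bim

variable {A : Type u} [CStarAlgebra A] (B : Bim.{u} A)

/-- The conjugate bimodule. -/
noncomputable def cj : Bim.{u} A where
  H := CjH B.H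
  L :=
    { toFun := fun x => CjH.map (B.R (op (star x)))
      map_one' := by
        rw [star_one, op_one, map_one]
        rfl
      map_mul' := fun x y => by
        rw [star_mul, op_mul, map_mul]
        rfl
      map_zero' := by
        rw [star_zero, op_zero, map_zero]
        rfl
      map_add' := fun x y => by
        rw [star_add, op_add, map_add]
        rfl
      commutes' := fun r => by
        rw [Algebra.algebraMap_eq_smul_one, star_smul, star_one, op_smul, op_one, map_smul,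
          map_one]
        ext ξ
        rfl
      map_star' := fun x => by
        refine (ContinuousLinearMap.eq_adjoint_iff _ _).2 fun ξ η => ?_
        change ⟪CjH.of η, B.R (op (star (star x))) (CjH.of ξ)⟫_ℂ =
          ⟪B.R (op (star x)) (CjH.of η), CjH.of ξ⟫_ℂ
        have h : B.R (op (star (star x))) = star (B.R (op (star x))) := by
          rw [← map_star]
          rfl
        rw [h, ContinuousLinearMap.star_eq_adjoint, ContinuousLinearMap.adjoint_inner_right] }
  R :=
    { toFun := fun x => CjH.map (B.L (star (unop x)))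
      map_one' := by
        rw [unop_one, star_one, map_one]
        rfl
      map_mul' := fun x y => by
        rw [unop_mul, star_mul, map_mul]
        rfl
      map_zero' := by
        rw [unop_zero, star_zero, map_zero]
        rfl
      map_add' := fun x y => by
        rw [unop_add, star_add, map_add]
        rfl
      commutes' := fun r => by
        rw [Algebra.algebraMap_eq_smul_one, unop_smul, unop_one, star_smul, star_one, map_smul,
          map_one]
        ext ξ
        rfl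
      map_star' := fun x => by
        refine (ContinuousLinearMap.eq_adjoint_iff _ _).2 fun ξ η => ?_
        change ⟪CjH.of η, B.L (star (unop (star x))) (CjH.of ξ)⟫_ℂ =
          ⟪B.L (star (unop x)) (CjH.of η), CjH.of ξ⟫_ℂ
        have h : B.L (star (unop (star x))) = star (B.L (star (unop x))) := by
          rw [← map_star]
          rfl
        rw [h, ContinuousLinearMap.star_eq_adjoint, ContinuousLinearMap.adjoint_inner_right] }
  comm := fun x y => by
    ext ξ
    have h := congrArg (fun S : B.H →L[ℂ] B.H => S (CjH.of ξ))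
      (B.comm (star (unop y)) (op (star x)))
    exact congrArg CjH.mk h.symm

/-- The vector `ξ` in the conjugate bimodule. -/
def c (ξ : B.H) : B.cj.H := CjH.mk ξ

theorem c_surj (η : B.cj.H) : ∃ ξ : B.H, B.c ξ = η := ⟨CjH.of η, rfl⟩

theorem norm_c (ξ : B.H) : ‖B.c ξ‖ = ‖ξ‖ := rfl

theorem c_sub (ξ η : B.H) : B.c (ξ - η) = B.c ξ - B.c η := rfl

theorem c_add (ξ η : B.H) : B.c (ξ + η) = B.c ξ + B.c η := rfl

theorem inner_c (ξ η : B.H) : ⟪B.c ξ, B.c η⟫_ℂ = ⟪η, ξ⟫_ℂ := rfl

theorem l_c (x : A) (ξ : B.H) : B.cj.l x (B.c ξ) = B.c (B.r (star x) ξ) := rfl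

theorem r_c (x : A) (ξ : B.H) : B.cj.r x (B.c ξ) = B.c (B.l (star x) ξ) := rfl

private theorem c_sum' {ι : Type*} (s : Finset ι) (f : ι → B.H) :
    B.c (∑ i ∈ s, f i) = ∑ i ∈ s, B.c (f i) :=
  map_sum (⟨⟨B.c, rfl⟩, fun _ _ => rfl⟩ : B.H →+ B.cj.H) f s

private theorem c_smul' (p : ℝ) (ξ : B.H) : B.c ((p : ℂ) • ξ) = (p : ℂ) • B.c ξ := by
  change CjH.mk ((p : ℂ) • ξ) = CjH.mk ((starRingEnd ℂ (p : ℂ)) • ξ)
  rw [Complex.conj_ofReal]

theorem TB_c (W : UA A) (ξ : B.H) : W.TB B.cj (B.c ξ) = B.c (W.TB B ξ) := by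
  rw [UA.TB_apply, UA.TB_apply, c_sum']
  refine Finset.sum_congr rfl fun i _ => ?_
  rw [r_c, l_c, c_smul', star_star]
  congr 2
  have h := congrArg (fun S : B.H →L[ℂ] B.H => S ξ) (B.comm (W.u i) (op (star (W.u i))))
  exact h.symm

theorem eB_c (W : UA A) (ξ : B.H) : W.eB B.cj (B.c ξ) = W.eB B ξ := by
  unfold UA.eB
  congr 1
  have h1 : ∀ i, W.p i * ‖B.cj.l (W.u i) (B.c ξ) - B.cj.r (W.u i) (B.c ξ)‖ ^ 2 =
      W.p (W.inv i) * ‖B.l (W.u (W.inv i)) ξ - B.r (W.u (W.inv i)) ξ‖ ^ 2 := by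
    intro i
    rw [l_c, r_c, ← c_sub, norm_c, W.p_inv, W.u_inv, norm_sub_rev]
  rw [Finset.sum_congr rfl fun i _ => h1 i]
  exact Equiv.sum_comp (Function.Involutive.toPerm W.inv W.inv_inv)
    (fun i => W.p i * ‖B.l (W.u i) ξ - B.r (W.u i) ξ‖ ^ 2)

section dens

variable [PartialOrder A] [StarOrderedRing A] [TracialVN A]

theorem LD_c {ξ : B.H} {x : A} (h : B.RD ξ x) : B.cj.LD (B.c ξ) x := by
  obtain ⟨hx, h1⟩ := h
  refine ⟨hx, fun z => ?_⟩
  rw [l_c, inner_c, ← inner_conj_symm, h1 (star z)]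
  have hsx : star x = x := (IsSelfAdjoint.of_nonneg hx).star_eq
  have h2 : (starRingEnd ℂ) (TrAlg.tau (star z * x)) = TrAlg.tau (star (star z * x)) :=
    (TrAlg.tau_star _).symm
  rw [h2, star_mul, star_star, hsx, TrAlg.tau_comm]

theorem RD_c {ξ : B.H} {x : A} (h : B.LD ξ x) : B.cj.RD (B.c ξ) x := by
  obtain ⟨hx, h1⟩ := h
  refine ⟨hx, fun z => ?_⟩
  rw [r_c, inner_c, ← inner_conj_symm, h1 (star z)]
  have hsx : star x = x := (IsSelfAdjoint.of_nonneg hx).star_eq
  have h2 : (starRingEnd ℂ) (TrAlg.tau (star z * x)) = TrAlg.tau (star (star z * x)) :=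
    (TrAlg.tau_star _).symm
  rw [h2, star_mul, star_star, hsx, TrAlg.tau_comm]

theorem Bdd_c {ξ : B.H} (h : B.Bdd ξ) : B.cj.Bdd (B.c ξ) := by
  obtain ⟨⟨x, hx⟩, y, hy⟩ := h
  exact ⟨⟨y, B.LD_c hy⟩, x, B.RD_c hx⟩

theorem Reg_cj (h : B.Reg) : B.cj.Reg := by
  intro η
  obtain ⟨ξ, rfl⟩ := B.c_surj η
  rw [Metric.mem_closure_iff]
  intro ε hε
  obtain ⟨ζ, hζ, hd⟩ := Metric.mem_closure_iff.1 (h ξ) ε hε
  refine ⟨B.c ζ, B.Bdd_c hζ, ?_⟩
  rw [dist_eq_norm] at hd ⊢
  rw [← c_sub, norm_c]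
  exact hd

end dens

end Bim

end Pool.Agent.PTH
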