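import Pool.Agent.PTH.RgMn

/-!
# PTH / RgCoA: averaging estimates for an almost invariant projection

`p` projection, `n = (rt p)^{1/2} = ‖p‖₂`, `β = T Y`; hypotheses
`(2 e(p))^{1/2} ≤ s1 n`, `‖(β - λ) p‖₂ ≤ s2 n`, `‖g p‖₂ ≤ s3 n`.
For every `i` write `p' = u_i p u_i*`, `Y' = u_i Y u_i*` (projections, `‖p'‖₂ = n`), so
`∑ p_i ‖p' - p‖₂ ≤ s1 n` (`UA.sum_two_le`), `∑ p_i ‖p' - p‖₁ ≤ 2 s1 n²` (`UA.sum_one_proj`).

* `A1`: `T p - p = ∑ p_i (p' - p)`.
* `A2`: `T (pY) - p β = ∑ p_i (p' - p) Y'`; `A2'`: `T (Yp) - βp = ∑ p_i Y' (p' - p)`;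
  `A2''`: `T (pYp) - pβp = ∑ p_i ((p' - p) Y' p' + p Y' (p' - p))`.
* `A3`: `rt (Y p) - rt (β p) = rt (Y (p - T p))` (`T` symmetric), `|.| ≤ ∑ p_i ‖p' - p‖₁ ≤ 2 s1 n²`
  (`‖Y‖ ≤ 1`); `rt (β p) - λ rt p = rt ((β - λ) p · p)`, `|.| ≤ s2 n · n`.
* `A4`: for every `i`: `rt (g p Y) = rt (u_i g p Y u_i*) = rt ((u_i g - g u_i) p Y u_i*) +
  rt (g p' Y')`; the first term is `≤ εg ‖p Y u_i*‖₁ ≤ εg ‖p‖₂ ‖p Y u_i*‖₂ ≤ εg n²` in absolute
  value; `rt (g p' Y') - rt (g p Y') = rt (Y' g (p' - p))`, `|.| ≤ ‖Y' g‖ ‖p' - p‖₁ ≤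
  6 ‖p' - p‖₁` (`‖Y' g‖ = ‖g Y'‖`, `Mn.norm_g_conj`).  Average with `p_i`:
  `|rt (g p Y) - rt (g p β)| ≤ (εg + 12 s1) n²`.  Finally
  `rt (g p β) - λ rt (g p) = rt (g p · p (β - λ))`, `|.| ≤ s3 n · s2 n` (`p p = p`;
  `‖p (β - λ)‖₂ = ‖(β - λ) p‖₂` by taking adjoints).
* `A5`: `rt (g p Y p) = rt ((u_i g - g u_i) p Y p u_i*) + rt (g p' Y' p')`, first term `≤ εg n²`;
  `g p' Y' p' - g p Y' p = g (p' - p) Y' p' + g p Y' (p' - p)`;
  `|rt (g (p' - p) Y' p')| = |rt (p' g (p' - p) Y')| ≤ ‖p' g‖₂ ‖p' - p‖₂ ≤ (s3 + εg) n ‖p' - p‖₂`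
  because `g p' = u_i g p u_i* - (u_i g - g u_i) p u_i*`;  `|rt (g p Y' (p' - p))| ≤ s3 n ‖p' - p‖₂`.
  Average: `|rt (g p Y p) - rt (g p β p)| ≤ (εg + (2 s3 + εg) s1) n²`, and
  `rt (g p β p) - λ rt (g p) = rt (g p · (β - λ) p)` (as `rt (g p p) = rt (g p)`), `|.| ≤ s3 s2 n²`.
-/

open Filter Topology
open scoped InnerProductSpace ComplexOrder

universe u

namespace Pool.Agent.PTH

variable {A : Type u} [CStarAlgebra A] [PartialOrder A] [StarOrderedRing A] [TracialVN A]

omit [PartialOrder A] [StarOrderedRing A] [TracialVN A] in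
private theorem co_sc (W : UA A) (x : A) : ∑ i, (W.p i : ℂ) • x = x := by
  rw [← Finset.sum_smul, ← Complex.ofReal_sum, W.p_sum, Complex.ofReal_one, one_smul]

omit [PartialOrder A] [StarOrderedRing A] in
private theorem co_two (W : UA A) (x : W.ι → A) (y : W.ι → ℝ) (h : ∀ i, two (x i) ≤ y i) :
    two (∑ i, (W.p i : ℂ) • x i) ≤ ∑ i, W.p i * y i := by
  refine (two_sum_le _ _).trans (Finset.sum_le_sum fun i _ => ?_)
  rw [two_smul', Complex.norm_real, Real.norm_eq_abs, abs_of_nonneg (W.p_nonneg i)]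
  exact mul_le_mul_of_nonneg_left (h i) (W.p_nonneg i)

omit [PartialOrder A] [StarOrderedRing A] [TracialVN A] in
private theorem co_cj (W : UA A) (i : W.ι) (x y : A) :
    W.u i * (x * y) * star (W.u i) =
      (W.u i * x * star (W.u i)) * (W.u i * y * star (W.u i)) := by
  have e : (W.u i * x * star (W.u i)) * (W.u i * y * star (W.u i)) =
      W.u i * (x * (star (W.u i) * W.u i) * y) * star (W.u i) := by noncomm_ring
  rw [e, W.u_star_mul, mul_one]

omit [PartialOrder A] [StarOrderedRing A] [TracialVN A] in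
private theorem co_ncj (W : UA A) (i : W.ι) {x : A} {C : ℝ} (hx : ‖x‖ ≤ C) :
    ‖W.u i * x * star (W.u i)‖ ≤ C := by
  have h0 := norm_nonneg x
  have h1 := W.norm_u_le i
  calc ‖W.u i * x * star (W.u i)‖ ≤ ‖W.u i * x‖ * ‖star (W.u i)‖ := norm_mul_le _ _
    _ ≤ (‖W.u i‖ * ‖x‖) * ‖W.u i‖ := by
        rw [norm_star]
        exact mul_le_mul_of_nonneg_right (norm_mul_le _ _) (norm_nonneg _)
    _ ≤ (1 * ‖x‖) * 1 :=
        mul_le_mul (mul_le_mul_of_nonneg_right h1 h0) h1 (norm_nonneg _) (by linarith)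
    _ ≤ C := by rw [one_mul, mul_one]; exact hx

omit [PartialOrder A] [StarOrderedRing A] [TracialVN A] in
private theorem co_prj (W : UA A) (i : W.ι) {p : A} (hp : Prj p) :
    Prj (W.u i * p * star (W.u i)) := by
  constructor
  · rw [star_mul, star_mul, star_star, hp.1, mul_assoc]
  · rw [← co_cj, hp.2]

omit [PartialOrder A] [StarOrderedRing A] in
private theorem co_two_cj (W : UA A) (i : W.ι) (x : A) :
    two (W.u i * x * star (W.u i)) = two x := by
  rw [two_mul_unitary (by rw [star_star]; exact W.u_star_mul i),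
    two_unitary_mul (W.u_star_mul i)]

omit [PartialOrder A] [StarOrderedRing A] in
private theorem co_rt_cj (W : UA A) (i : W.ι) (x : A) :
    rt (W.u i * x * star (W.u i)) = rt x := by
  rw [rt_comm, ← mul_assoc, W.u_star_mul, one_mul]

omit [PartialOrder A] [StarOrderedRing A] in
private theorem co_rtT (W : UA A) (x Y : A) :
    rt (x * W.T Y) = ∑ i, W.p i * rt (x * (W.u i * Y * star (W.u i))) := by
  rw [UA.T_apply, Finset.mul_sum, rt_sum]
  refine Finset.sum_congr rfl fun i _ => ?_
  rw [mul_smul_comm, Complex.coe_smul, rt_smul]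

omit [PartialOrder A] [StarOrderedRing A] [TracialVN A] in
/-- Averages of real numbers close to a constant. -/
private theorem co_avg (W : UA A) (c : ℝ) (r y : W.ι → ℝ) (h : ∀ i, |c - r i| ≤ y i) :
    |c - ∑ i, W.p i * r i| ≤ ∑ i, W.p i * y i := by
  have e : c - ∑ i, W.p i * r i = ∑ i, W.p i * (c - r i) := by
    have e1 : c = ∑ i, W.p i * c := by rw [← Finset.sum_mul, W.p_sum, one_mul]
    conv_lhs => rw [e1]
    rw [← Finset.sum_sub_distrib]
    exact Finset.sum_congr rfl fun i _ => by ring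
  rw [e]
  refine (Finset.abs_sum_le_sum_abs _ _).trans (Finset.sum_le_sum fun i _ => ?_)
  rw [abs_mul, abs_of_nonneg (W.p_nonneg i)]
  exact mul_le_mul_of_nonneg_left (h i) (W.p_nonneg i)

private theorem co_sq {p : A} (hp : Prj p) : Real.sqrt (rt p) * Real.sqrt (rt p) = rt p :=
  Real.mul_self_sqrt (rt_nonneg (proj_nonneg hp))

private theorem co_two_p {p : A} (hp : Prj p) : two p = Real.sqrt (rt p) := by
  rw [← two_proj hp, Real.sqrt_sq (two_nonneg p)]

/-- The commutator term. -/
private theorem co_comm (W : UA A) {g p : A} (hp : Prj p) {εg : ℝ} (i : W.ι)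
    (gc : ‖W.u i * g - g * W.u i‖ ≤ εg) {x : A} (hx : ‖x‖ ≤ 1) :
    |rt (g * (p * x)) - rt (g * (W.u i * (p * x) * star (W.u i)))| ≤ εg * rt p := by
  have e1 : rt (g * (p * x)) = rt (W.u i * (g * (p * x)) * star (W.u i)) :=
    (co_rt_cj W i _).symm
  have e2 : W.u i * (g * (p * x)) * star (W.u i) - g * (W.u i * (p * x) * star (W.u i)) =
      (W.u i * g - g * W.u i) * (p * (x * star (W.u i))) := by noncomm_ring
  rw [e1, ← rt_sub, e2, rt_comm]
  refine (abs_rt_mul_le_one _ _).trans ?_
  have h1 : one (p * (x * star (W.u i))) ≤ rt p := by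
    refine (one_mul_le' _ _).trans ?_
    rw [one_proj hp]
    refine mul_le_of_le_one_right (rt_nonneg (proj_nonneg hp)) ?_
    refine (norm_mul_le _ _).trans ?_
    rw [norm_star]
    exact mul_le_one₀ hx (norm_nonneg _) (W.norm_u_le i)
  calc one (p * (x * star (W.u i))) * ‖W.u i * g - g * W.u i‖ ≤ rt p * εg :=
        mul_le_mul h1 gc (norm_nonneg _) (rt_nonneg (proj_nonneg hp))
    _ = εg * rt p := mul_comm _ _

namespace Mn

variable {W : UA A} {ν εg : ℝ} {z Y g D : A} (h : Mn W ν εg z Y g D)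
  {p : A} (hp : Prj p) {lam s1 s2 s3 : ℝ}
  (q1 : Real.sqrt (2 * W.en p) ≤ s1 * Real.sqrt (rt p))
  (q2 : two ((W.T Y - lam • (1 : A)) * p) ≤ s2 * Real.sqrt (rt p))
  (q3 : two (g * p) ≤ s3 * Real.sqrt (rt p))

include q1 in
theorem A1 : two (W.T p - p) ≤ s1 * Real.sqrt (rt p) := by
  have e : W.T p - p = ∑ i, (W.p i : ℂ) • (W.u i * p * star (W.u i) - p) := by
    simp only [smul_sub]
    rw [Finset.sum_sub_distrib, co_sc, UA.T_apply]
  rw [e]
  exact (co_two W _ _ fun i => le_rfl).trans ((W.sum_two_le p).trans q1)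

include h q1 in
theorem A2 : two (W.T (p * Y) - p * W.T Y) ≤ s1 * Real.sqrt (rt p) := by
  have e : W.T (p * Y) - p * W.T Y = ∑ i, (W.p i : ℂ) •
      ((W.u i * p * star (W.u i) - p) * (W.u i * Y * star (W.u i))) := by
    rw [UA.T_apply, UA.T_apply, Finset.mul_sum, ← Finset.sum_sub_distrib]
    refine Finset.sum_congr rfl fun i _ => ?_
    rw [mul_smul_comm, ← smul_sub, co_cj, sub_mul]
  rw [e]
  refine (co_two W _ (fun i => two (W.u i * p * star (W.u i) - p)) fun i => ?_).trans
    ((W.sum_two_le p).trans q1)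
  exact (two_mul_le' _ _).trans (mul_le_of_le_one_right (two_nonneg _)
    (co_ncj W i (norm_proj_le h.Y_prj)))

include h q1 in
theorem A2' : two (W.T (Y * p) - W.T Y * p) ≤ s1 * Real.sqrt (rt p) := by
  have e : W.T (Y * p) - W.T Y * p = ∑ i, (W.p i : ℂ) •
      ((W.u i * Y * star (W.u i)) * (W.u i * p * star (W.u i) - p)) := by
    rw [UA.T_apply, UA.T_apply, Finset.sum_mul, ← Finset.sum_sub_distrib]
    refine Finset.sum_congr rfl fun i _ => ?_
    rw [smul_mul_assoc, ← smul_sub, co_cj, mul_sub]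
  rw [e]
  refine (co_two W _ (fun i => two (W.u i * p * star (W.u i) - p)) fun i => ?_).trans
    ((W.sum_two_le p).trans q1)
  exact (two_mul_le _ _).trans (mul_le_of_le_one_left (two_nonneg _)
    (co_ncj W i (norm_proj_le h.Y_prj)))

include h hp q1 in
theorem A2'' : two (W.T (p * Y * p) - p * W.T Y * p) ≤ 2 * s1 * Real.sqrt (rt p) := by
  have e : W.T (p * Y * p) - p * W.T Y * p = ∑ i, (W.p i : ℂ) •
      ((W.u i * p * star (W.u i) - p) * ((W.u i * Y * star (W.u i)) * (W.u i * p * star (W.u i))) +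
        p * ((W.u i * Y * star (W.u i)) * (W.u i * p * star (W.u i) - p))) := by
    rw [UA.T_apply, UA.T_apply, Finset.mul_sum, Finset.sum_mul, ← Finset.sum_sub_distrib]
    refine Finset.sum_congr rfl fun i _ => ?_
    rw [mul_smul_comm, smul_mul_assoc, ← smul_sub, co_cj, co_cj]
    congr 1
    noncomm_ring
  rw [e]
  refine (co_two W _ (fun i => 2 * two (W.u i * p * star (W.u i) - p)) fun i => ?_).trans ?_
  · have h1 : ‖W.u i * Y * star (W.u i)‖ ≤ 1 := co_ncj W i (norm_proj_le h.Y_prj)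
    have h2 : ‖W.u i * p * star (W.u i)‖ ≤ 1 := co_ncj W i (norm_proj_le hp)
    have h3 : ‖(W.u i * Y * star (W.u i)) * (W.u i * p * star (W.u i))‖ ≤ 1 :=
      (norm_mul_le _ _).trans (mul_le_one₀ h1 (norm_nonneg _) h2)
    have h4 := (two_mul_le' (W.u i * p * star (W.u i) - p)
      ((W.u i * Y * star (W.u i)) * (W.u i * p * star (W.u i)))).trans
        (mul_le_of_le_one_right (two_nonneg _) h3)
    have h5 := (two_mul_le (W.u i * Y * star (W.u i)) (W.u i * p * star (W.u i) - p)).trans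
        (mul_le_of_le_one_left (two_nonneg _) h1)
    have h6 := (two_mul_le p ((W.u i * Y * star (W.u i)) * (W.u i * p * star (W.u i) - p))).trans
        (mul_le_of_le_one_left (two_nonneg _) (norm_proj_le hp))
    have h7 := two_add_le ((W.u i * p * star (W.u i) - p) *
      ((W.u i * Y * star (W.u i)) * (W.u i * p * star (W.u i))))
        (p * ((W.u i * Y * star (W.u i)) * (W.u i * p * star (W.u i) - p)))
    linarith
  · have h8 := (W.sum_two_le p).trans q1
    have h9 : ∑ i, W.p i * (2 * two (W.u i * p * star (W.u i) - p)) =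
        2 * ∑ i, W.p i * two (W.u i * p * star (W.u i) - p) := by
      rw [Finset.mul_sum]
      exact Finset.sum_congr rfl fun i _ => by ring
    rw [h9]
    linarith

include hp q1 in
private theorem A1s : ∑ i, W.p i * one (W.u i * p * star (W.u i) - p) ≤ 2 * s1 * rt p := by
  refine (W.sum_one_proj hp).trans ?_
  have h1 := mul_le_mul_of_nonneg_right q1 (Real.sqrt_nonneg (rt p))
  rw [mul_assoc s1, co_sq hp] at h1
  linarith

include hp q1 in
private theorem A1one : one (W.T p - p) ≤ 2 * s1 * rt p := by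
  have e : W.T p - p = ∑ i, (W.p i : ℂ) • (W.u i * p * star (W.u i) - p) := by
    simp only [smul_sub]
    rw [Finset.sum_sub_distrib, co_sc, UA.T_apply]
  rw [e]
  refine (one_sum_le _ _).trans (le_trans (Finset.sum_le_sum fun i _ => ?_) (A1s hp q1))
  rw [one_smul', Complex.norm_real, Real.norm_eq_abs, abs_of_nonneg (W.p_nonneg i)]

include h hp q1 q2 in
theorem A3 : |rt (Y * p) - lam * rt p| ≤ (2 * s1 + s2) * rt p := by
  have h1 : |rt (Y * p) - rt (W.T Y * p)| ≤ 2 * s1 * rt p := by
    have e : rt (Y * p) - rt (W.T Y * p) = -rt ((W.T p - p) * Y) := by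
      rw [W.rt_T_symm, sub_mul, rt_sub, rt_comm (W.T p) Y, rt_comm p Y]
      ring
    rw [e, abs_neg]
    refine (abs_rt_mul_le_one _ _).trans ?_
    refine (mul_le_of_le_one_right (one_nonneg _) (norm_proj_le h.Y_prj)).trans ?_
    exact A1one hp q1
  have h2 : |rt (W.T Y * p) - lam * rt p| ≤ s2 * rt p := by
    have e : rt (W.T Y * p) - lam * rt p = rt ((W.T Y - lam • (1 : A)) * p * p) := by
      rw [mul_assoc, hp.2, sub_mul, rt_sub, smul_mul_assoc, one_mul, rt_smul]
    rw [e]
    refine (abs_rt_mul_le _ _).trans ?_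
    rw [co_two_p hp]
    refine (mul_le_mul_of_nonneg_right q2 (Real.sqrt_nonneg _)).trans ?_
    rw [mul_assoc, co_sq hp]
  have h3 := abs_add_le (rt (Y * p) - rt (W.T Y * p)) (rt (W.T Y * p) - lam * rt p)
  rw [sub_add_sub_cancel] at h3
  linarith

include h hp q1 q2 q3 in
theorem A4 (h2 : 0 ≤ s2) (h3 : 0 ≤ s3) :
    |rt (g * p * Y) - lam * rt (g * p)| ≤ (εg + 12 * s1 + s2 * s3) * rt p := by
  have hp0 := rt_nonneg (proj_nonneg hp)
  have hn := Real.sqrt_nonneg (rt p)
  have h4 : |rt (g * p * Y) - rt (g * p * W.T Y)| ≤ (εg + 12 * s1) * rt p := by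
    rw [co_rtT]
    refine (co_avg W _ _ (fun i => εg * rt p + 6 * one (W.u i * p * star (W.u i) - p))
      fun i => ?_).trans ?_
    · have e1 := co_comm W hp i (h.gc i) (norm_proj_le h.Y_prj)
      have e2 : g * (W.u i * (p * Y) * star (W.u i)) - g * p * (W.u i * Y * star (W.u i)) =
          g * ((W.u i * p * star (W.u i) - p) * (W.u i * Y * star (W.u i))) := by
        rw [co_cj]
        noncomm_ring
      have e3 : |rt (g * (W.u i * (p * Y) * star (W.u i))) -
          rt (g * p * (W.u i * Y * star (W.u i)))| ≤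
            6 * one (W.u i * p * star (W.u i) - p) := by
        rw [← rt_sub, e2, rt_comm, mul_assoc]
        refine (abs_rt_mul_le_one _ _).trans ?_
        have e4 : ‖W.u i * Y * star (W.u i) * g‖ ≤ 6 := by
          have e5 : star (g * (W.u i * Y * star (W.u i))) = W.u i * Y * star (W.u i) * g := by
            rw [star_mul, (co_prj W i h.Y_prj).1, (IsSelfAdjoint.of_nonneg h.g_nonneg).star_eq]
          rw [← e5, norm_star]
          exact h.norm_g_conj i
        rw [mul_comm]
        exact mul_le_mul_of_nonneg_right e4 (one_nonneg _)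
      rw [mul_assoc g p Y]
      have e6 := abs_add_le (rt (g * (p * Y)) - rt (g * (W.u i * (p * Y) * star (W.u i))))
        (rt (g * (W.u i * (p * Y) * star (W.u i))) - rt (g * p * (W.u i * Y * star (W.u i))))
      rw [sub_add_sub_cancel] at e6
      linarith
    · have e1 : ∑ i, W.p i * (εg * rt p + 6 * one (W.u i * p * star (W.u i) - p)) =
          (∑ i, W.p i) * (εg * rt p) +
            6 * ∑ i, W.p i * one (W.u i * p * star (W.u i) - p) := by
        rw [Finset.sum_mul, Finset.mul_sum, ← Finset.sum_add_distrib]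
        exact Finset.sum_congr rfl fun i _ => by ring
      rw [e1, W.p_sum, one_mul]
      have e2 := A1s hp q1
      linarith
  have h5 : |rt (g * p * W.T Y) - lam * rt (g * p)| ≤ s2 * s3 * rt p := by
    have e : rt (g * p * W.T Y) - lam * rt (g * p) =
        rt ((g * p) * (p * (W.T Y - lam • (1 : A)))) := by
      have e1 : (g * p) * (p * (W.T Y - lam • (1 : A))) = g * (p * p) * (W.T Y - lam • (1 : A)) := by
        noncomm_ring
      rw [e1, hp.2, mul_sub, rt_sub, mul_smul_comm, mul_one, rt_smul]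
    rw [e]
    refine (abs_rt_mul_le _ _).trans ?_
    have e2 : two (p * (W.T Y - lam • (1 : A))) ≤ s2 * Real.sqrt (rt p) := by
      have e3 : p * (W.T Y - lam • (1 : A)) = star ((W.T Y - lam • (1 : A)) * p) := by
        rw [star_mul, hp.1, star_sub, star_smul, star_one, star_trivial lam, ← W.T_star, h.Y_prj.1]
      rw [e3, two_star]
      exact q2
    calc two (g * p) * two (p * (W.T Y - lam • (1 : A)))
        ≤ (s3 * Real.sqrt (rt p)) * (s2 * Real.sqrt (rt p)) :=
          mul_le_mul q3 e2 (two_nonneg _) (mul_nonneg h3 hn)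
      _ = s2 * s3 * (Real.sqrt (rt p) * Real.sqrt (rt p)) := by ring
      _ = s2 * s3 * rt p := by rw [co_sq hp]
  have h6 := abs_add_le (rt (g * p * Y) - rt (g * p * W.T Y))
    (rt (g * p * W.T Y) - lam * rt (g * p))
  rw [sub_add_sub_cancel] at h6
  linarith

include h hp q1 q2 q3 in
theorem A5 (h1 : 0 ≤ s1) (h2 : 0 ≤ s2) (h3 : 0 ≤ s3) :
    |rt (g * p * Y * p) - lam * rt (g * p)| ≤
      (εg + (2 * s3 + 1) * s1 + s2 * s3) * rt p := by
  have hp0 := rt_nonneg (proj_nonneg hp)
  have hn := Real.sqrt_nonneg (rt p)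
  have hgs : star g = g := (IsSelfAdjoint.of_nonneg h.g_nonneg).star_eq
  have h4 : |rt (g * p * Y * p) - rt (p * (g * p) * W.T Y)| ≤
      (εg + (2 * s3 + 1) * s1) * rt p := by
    rw [co_rtT]
    refine (co_avg W _ _ (fun i => εg * rt p + (2 * s3 + 1) * Real.sqrt (rt p) *
      two (W.u i * p * star (W.u i) - p)) fun i => ?_).trans ?_
    · have hYp : ‖Y * p‖ ≤ 1 := (norm_mul_le _ _).trans
        (mul_le_one₀ (norm_proj_le h.Y_prj) (norm_nonneg _) (norm_proj_le hp))
      have e1 := co_comm W hp i (h.gc i) hYp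
      have hY' : ‖W.u i * Y * star (W.u i)‖ ≤ 1 := co_ncj W i (norm_proj_le h.Y_prj)
      have hD := two_nonneg (W.u i * p * star (W.u i) - p)
      have e2 : rt (g * (W.u i * (p * (Y * p)) * star (W.u i))) -
          rt (p * (g * p) * (W.u i * Y * star (W.u i))) =
          rt (((W.u i * p * star (W.u i)) * g) *
            ((W.u i * p * star (W.u i) - p) * (W.u i * Y * star (W.u i)))) +
          rt ((g * p) * ((W.u i * Y * star (W.u i)) * (W.u i * p * star (W.u i) - p))) := by
        have e3 : rt (((W.u i * p * star (W.u i)) * g) *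
            ((W.u i * p * star (W.u i) - p) * (W.u i * Y * star (W.u i)))) =
            rt (g * ((W.u i * p * star (W.u i) - p) * (W.u i * Y * star (W.u i))) *
              (W.u i * p * star (W.u i))) := by
          rw [mul_assoc (W.u i * p * star (W.u i)) g, rt_comm]
        have e4 : rt (p * (g * p) * (W.u i * Y * star (W.u i))) =
            rt (g * p * (W.u i * Y * star (W.u i)) * p) := by
          rw [mul_assoc p, rt_comm]
        rw [e3, e4, ← rt_sub, ← rt_add, co_cj, co_cj]
        congr 1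
        noncomm_ring
      have e5 : two ((W.u i * p * star (W.u i)) * g) ≤ (s3 + 1) * Real.sqrt (rt p) := by
        have e6 : (W.u i * p * star (W.u i)) * g = star (g * (W.u i * p * star (W.u i))) := by
          rw [star_mul, (co_prj W i hp).1, hgs]
        have e7 : g * (W.u i * p * star (W.u i)) = W.u i * (g * p) * star (W.u i) -
            (W.u i * g - g * W.u i) * (p * star (W.u i)) := by noncomm_ring
        have e8 : two ((W.u i * g - g * W.u i) * (p * star (W.u i))) ≤
            1 * Real.sqrt (rt p) := by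
          refine (two_mul_le _ _).trans (mul_le_mul ((h.gc i).trans h.εg_le) ?_
            (two_nonneg _) zero_le_one)
          rw [two_mul_unitary (by rw [star_star]; exact W.u_star_mul i), co_two_p hp]
        rw [e6, two_star, e7]
        refine (two_sub_le _ _).trans ?_
        rw [co_two_cj]
        linarith
      have e9 : |rt (((W.u i * p * star (W.u i)) * g) *
          ((W.u i * p * star (W.u i) - p) * (W.u i * Y * star (W.u i))))| ≤
          (s3 + 1) * Real.sqrt (rt p) * two (W.u i * p * star (W.u i) - p) := by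
        refine (abs_rt_mul_le _ _).trans (mul_le_mul e5 ?_ (two_nonneg _) (by positivity))
        exact (two_mul_le' _ _).trans (mul_le_of_le_one_right hD hY')
      have e10 : |rt ((g * p) * ((W.u i * Y * star (W.u i)) *
          (W.u i * p * star (W.u i) - p)))| ≤
          s3 * Real.sqrt (rt p) * two (W.u i * p * star (W.u i) - p) := by
        refine (abs_rt_mul_le _ _).trans (mul_le_mul q3 ?_ (two_nonneg _) (by positivity))
        exact (two_mul_le _ _).trans (mul_le_of_le_one_left hD hY')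
      have e11 := abs_add_le (rt (((W.u i * p * star (W.u i)) * g) *
          ((W.u i * p * star (W.u i) - p) * (W.u i * Y * star (W.u i)))))
          (rt ((g * p) * ((W.u i * Y * star (W.u i)) * (W.u i * p * star (W.u i) - p))))
      rw [← e2] at e11
      have e12 : g * p * Y * p = g * (p * (Y * p)) := by noncomm_ring
      rw [e12]
      have e13 := abs_add_le (rt (g * (p * (Y * p))) -
        rt (g * (W.u i * (p * (Y * p)) * star (W.u i))))
        (rt (g * (W.u i * (p * (Y * p)) * star (W.u i))) -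
          rt (p * (g * p) * (W.u i * Y * star (W.u i))))
      rw [sub_add_sub_cancel] at e13
      linarith
    · have e1 : ∑ i, W.p i * (εg * rt p + (2 * s3 + 1) * Real.sqrt (rt p) *
          two (W.u i * p * star (W.u i) - p)) =
          (∑ i, W.p i) * (εg * rt p) + (2 * s3 + 1) * Real.sqrt (rt p) *
            ∑ i, W.p i * two (W.u i * p * star (W.u i) - p) := by
        rw [Finset.sum_mul, Finset.mul_sum, ← Finset.sum_add_distrib]
        exact Finset.sum_congr rfl fun i _ => by ring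
      rw [e1, W.p_sum, one_mul]
      have e2 := (W.sum_two_le p).trans q1
      have e3 : (2 * s3 + 1) * Real.sqrt (rt p) *
          ∑ i, W.p i * two (W.u i * p * star (W.u i) - p) ≤
          (2 * s3 + 1) * Real.sqrt (rt p) * (s1 * Real.sqrt (rt p)) :=
        mul_le_mul_of_nonneg_left e2 (by positivity)
      have e4 : (2 * s3 + 1) * Real.sqrt (rt p) * (s1 * Real.sqrt (rt p)) =
          (2 * s3 + 1) * s1 * rt p := by
        calc (2 * s3 + 1) * Real.sqrt (rt p) * (s1 * Real.sqrt (rt p)) =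
            (2 * s3 + 1) * s1 * (Real.sqrt (rt p) * Real.sqrt (rt p)) := by ring
          _ = _ := by rw [co_sq hp]
      linarith
  have h5 : |rt (p * (g * p) * W.T Y) - lam * rt (g * p)| ≤ s2 * s3 * rt p := by
    have e : rt (p * (g * p) * W.T Y) - lam * rt (g * p) =
        rt ((g * p) * ((W.T Y - lam • (1 : A)) * p)) := by
      have e1 : rt (p * (g * p) * W.T Y) = rt (g * p * W.T Y * p) := by
        rw [mul_assoc p, rt_comm]
      have e2 : (g * p) * ((W.T Y - lam • (1 : A)) * p) =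
          g * p * W.T Y * p - lam • (g * (p * p)) := by
        rw [sub_mul, mul_sub, smul_mul_assoc, one_mul, mul_smul_comm]
        noncomm_ring
      rw [e1, e2, hp.2, rt_sub, rt_smul]
    rw [e]
    refine (abs_rt_mul_le _ _).trans ?_
    calc two (g * p) * two ((W.T Y - lam • (1 : A)) * p)
        ≤ (s3 * Real.sqrt (rt p)) * (s2 * Real.sqrt (rt p)) :=
          mul_le_mul q3 q2 (two_nonneg _) (mul_nonneg h3 hn)
      _ = s2 * s3 * (Real.sqrt (rt p) * Real.sqrt (rt p)) := by ring
      _ = s2 * s3 * rt p := by rw [co_sq hp]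
  have h6 := abs_add_le (rt (g * p * Y * p) - rt (p * (g * p) * W.T Y))
    (rt (p * (g * p) * W.T Y) - lam * rt (g * p))
  rw [sub_add_sub_cancel] at h6
  linarith

end Mn

end Pool.Agent.PTH
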