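import Pool.Agent.PTH.RgCoA
import Pool.Agent.PTH.TbPj

/-!
# PTH / RgCoB: the core lemma

`p ≤ z` projection, `p ≠ 0`, `n² = rt p`, `β = T Y`, hypotheses as in `RgCoA`.  For `c ∈ {0, 1}` the
competitor `y = (1 - p) Y (1 - p) + c p` satisfies `0 ≤ y ≤ z` (`(1-p) Y (1-p) ≤ (1-p) z (1-p) =
z - p` because `z p = p = p z`; `c p ≤ p`).  `d = y - Y = c p - p Y - Y p + p Y p`.

* `dTd_ge`: by `A1, A2, A2', A2''` and `q2` (`‖pβ - λp‖₂`, `‖βp - λp‖₂`, `‖pβp - λp‖₂ ≤ s2 n`):
  `T d = (c - λ) p + r`, `‖r‖₂ ≤ (5 s1 + 3 s2) n`.  `‖d‖₂ ≤ 3 n` (`d = c p - p Y - (1 - p) Y p`).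
  `rt (d p) = c rt p - rt (Y p)`.  So with `A3` (`|c - λ| ≤ 1`)
  `rt (d T d) ≥ (c - λ)(c rt p - rt (Y p)) - 3 (5 s1 + 3 s2) n² ≥ (c-λ)² n² - (17 s1 + 10 s2) n²`.
* `bd_le`: `rt (β d) = c rt (β p) - 2 rt (β p Y) + rt (β p Y p)` (`rt (β Y p) = rt (β p Y)` by taking
  adjoints); replacing `β p` by `λ p` costs `s2 n²` each, total `4 s2 n²`:
  `|rt (β d) - λ (c rt p - rt (Y p))| ≤ 4 s2 n²`, and by `A3`:
  `-2 rt (β d) ≤ -2 λ (c - λ) n² + (10 s2 + 4 s1) n²`.
* `Dd_le`: `rt (D d) ≤ ‖D‖ ‖d‖₁ ≤ 4 n²` (`‖p Y‖₁ ≤ ‖p‖₂ ‖p Y‖₂ ≤ n²`, etc.).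
* `gd_le`: `rt (g d) = c rt (g p) - 2 rt (g p Y) + rt (g p Y p)` (`rt (g Y p) = rt (g p Y)`), `A4, A5`:
  `|rt (g d) - (c - λ) rt (g p)| ≤ (2 κ1 + κ2) n²`, `κ1 = εg + 12 s1 + s2 s3`,
  `κ2 = εg + (2 s3 + 1) s1 + s2 s3`.
* `core`: `Mn.EL` for `c = 1` and `c = 0`, divided by `n² > 0`, with `γ = rt (g p) / rt p` and
  `K = 3 εg + (46 + 2 s3) s1 + (20 + 3 s3) s2 + 4 ν`:
  `(c - λ)² ≤ (c - λ) γ - 2 λ (c - λ) + K`.  Multiply the case `c = 1` by `λ`, the case `c = 0` by
  `1 - λ`, add: `λ (1 - λ) ≤ K`.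
-/

open Filter Topology
open scoped InnerProductSpace ComplexOrder

universe u

namespace Pool.Agent.PTH

variable {A : Type u} [CStarAlgebra A] [PartialOrder A] [StarOrderedRing A] [TracialVN A]

namespace Mn

variable {W : UA A} {ν εg : ℝ} {z Y g D : A} (h : Mn W ν εg z Y g D)
  {p : A} (hp : Prj p) {lam s1 s2 s3 : ℝ}
  (q1 : Real.sqrt (2 * W.en p) ≤ s1 * Real.sqrt (rt p))
  (q2 : two ((W.T Y - lam • (1 : A)) * p) ≤ s2 * Real.sqrt (rt p))
  (q3 : two (g * p) ≤ s3 * Real.sqrt (rt p))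
  (h1 : 0 ≤ s1) (h2 : 0 ≤ s2) (h3 : 0 ≤ s3) (l0 : 0 ≤ lam) (l1 : lam ≤ 1)

include hp in
private theorem two_p : two p = Real.sqrt (rt p) := by
  have e := two_proj hp
  rw [← e, Real.sqrt_sq (two_nonneg p)]

include hp in
private theorem nn : Real.sqrt (rt p) * Real.sqrt (rt p) = rt p :=
  Real.mul_self_sqrt (rt_nonneg (proj_nonneg hp))

include hp in
private theorem R0 : 0 ≤ rt p := rt_nonneg (proj_nonneg hp)

include h in
private theorem beta_sa : star (W.T Y) = W.T Y := by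
  rw [← W.T_star, h.Y_prj.1]

include h hp in
private theorem two_pY : two (p * Y) ≤ Real.sqrt (rt p) := by
  have e := two_mul_le' p Y
  have e2 := norm_proj_le h.Y_prj
  have e3 : two p * ‖Y‖ ≤ two p * 1 := mul_le_mul_of_nonneg_left e2 (two_nonneg p)
  rw [mul_one, two_p hp] at e3
  rw [two_p hp] at e
  exact e.trans e3

include h hp in
private theorem two_Yp : two (Y * p) ≤ Real.sqrt (rt p) := by
  have e := two_mul_le Y p
  have e2 := norm_proj_le h.Y_prj
  have e3 : ‖Y‖ * two p ≤ 1 * two p := mul_le_mul_of_nonneg_right e2 (two_nonneg p)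
  rw [one_mul, two_p hp] at e3
  rw [two_p hp] at e
  exact e.trans e3

include h hp in
private theorem two_pYp : two (p * Y * p) ≤ Real.sqrt (rt p) := by
  rw [mul_assoc]
  have e := two_mul_le p (Y * p)
  have e2 := norm_proj_le hp
  have e3 : ‖p‖ * two (Y * p) ≤ 1 * two (Y * p) := mul_le_mul_of_nonneg_right e2 (two_nonneg _)
  rw [one_mul] at e3
  exact e.trans (e3.trans (two_Yp h hp))

include h hp in
private theorem two_1pYp : two ((1 - p) * (Y * p)) ≤ Real.sqrt (rt p) := by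
  have e := two_mul_le (1 - p) (Y * p)
  have e2 := norm_proj_le (prj_one_sub hp)
  have e3 : ‖1 - p‖ * two (Y * p) ≤ 1 * two (Y * p) := mul_le_mul_of_nonneg_right e2 (two_nonneg _)
  rw [one_mul] at e3
  exact e.trans (e3.trans (two_Yp h hp))

private theorem d_eq (Y p : A) (c : ℝ) :
    (1 - p) * Y * (1 - p) + c • p - Y = c • p - p * Y - Y * p + p * Y * p := by
  have e : (1 - p) * Y * (1 - p) = Y - p * Y - Y * p + p * Y * p := by noncomm_ring
  rw [e]
  abel

include h hp in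
private theorem two_d {c : ℝ} (c0 : 0 ≤ c) (c1 : c ≤ 1) :
    two ((1 - p) * Y * (1 - p) + c • p - Y) ≤ 3 * Real.sqrt (rt p) := by
  have e : (1 - p) * Y * (1 - p) + c • p - Y = c • p - p * Y - (1 - p) * (Y * p) := by
    rw [d_eq]
    have e2 : (1 - p) * (Y * p) = Y * p - p * Y * p := by noncomm_ring
    rw [e2]
    abel
  rw [e]
  have a1 := two_sub_le (c • p - p * Y) ((1 - p) * (Y * p))
  have a2 := two_sub_le (c • p) (p * Y)
  have a3 : two (c • p) ≤ Real.sqrt (rt p) := by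
    rw [two_smul_real, abs_of_nonneg c0, two_p hp]
    have := mul_le_mul_of_nonneg_right c1 (Real.sqrt_nonneg (rt p))
    rwa [one_mul] at this
  have a4 := two_pY h hp
  have a5 := two_1pYp h hp
  linarith

include h hp in
theorem comp_mem (zp : z * p = p) {c : ℝ} (c0 : 0 ≤ c) (c1 : c ≤ 1) :
    0 ≤ (1 - p) * Y * (1 - p) + c • p ∧ (1 - p) * Y * (1 - p) + c • p ≤ z := by
  have hsa : star (1 - p) = 1 - p := (prj_one_sub hp).1
  constructor
  · refine add_nonneg ?_ (smul_nonneg c0 (proj_nonneg hp))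
    have e := star_left_conjugate_nonneg (proj_nonneg h.Y_prj) (1 - p)
    rwa [hsa] at e
  · have hYz : Y ≤ z := prj_le_of_mul h.Y_prj h.z_prj h.Yz
    have e := star_left_conjugate_le_conjugate hYz (1 - p)
    rw [hsa] at e
    have pz : p * z = p := by
      have e2 := congrArg star zp
      rwa [star_mul, h.z_prj.1, hp.1] at e2
    have e3 : (1 - p) * z * (1 - p) = z - p := by
      have e4 : (1 - p) * z * (1 - p) = z - p * z - z * p + p * z * p := by noncomm_ring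
      rw [e4, pz, zp, hp.2]
      abel
    rw [e3] at e
    have e5 : c • p ≤ p := by
      have e6 : 0 ≤ (1 - c) • p := smul_nonneg (by linarith) (proj_nonneg hp)
      rw [sub_smul, one_smul] at e6
      exact sub_nonneg.mp e6
    calc (1 - p) * Y * (1 - p) + c • p ≤ (z - p) + p := add_le_add e e5
      _ = z := by abel

include h hp q1 q2 h1 h2 l0 l1 in
theorem dTd_ge {c : ℝ} (c0 : 0 ≤ c) (c1 : c ≤ 1) :
    ((c - lam) ^ 2 - (17 * s1 + 10 * s2)) * rt p ≤
      rt (((1 - p) * Y * (1 - p) + c • p - Y) * W.T ((1 - p) * Y * (1 - p) + c • p - Y)) := by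
  set d : A := (1 - p) * Y * (1 - p) + c • p - Y with hd
  set n : ℝ := Real.sqrt (rt p) with hn
  have n0 : 0 ≤ n := Real.sqrt_nonneg _
  have hnn : n * n = rt p := nn hp
  set r : A := c • (W.T p - p) - (W.T (p * Y) - p * W.T Y) - (W.T (Y * p) - W.T Y * p) +
    (W.T (p * Y * p) - p * W.T Y * p) - (p * W.T Y - lam • p) - (W.T Y * p - lam • p) +
    (p * W.T Y * p - lam • p) with hr
  have hTd : W.T d = (c - lam) • p + r := by
    rw [hd, d_eq, map_add, map_sub, map_sub, W.T.map_smul_of_tower, hr, smul_sub, sub_smul]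
    abel
  have b1 : two (W.T Y * p - lam • p) ≤ s2 * n := by
    have e : W.T Y * p - lam • p = (W.T Y - lam • (1 : A)) * p := by
      rw [sub_mul, smul_mul_assoc, one_mul]
    rw [e]
    exact q2
  have b2 : two (p * W.T Y - lam • p) ≤ s2 * n := by
    have e : p * W.T Y - lam • p = star (W.T Y * p - lam • p) := by
      rw [star_sub, star_mul, star_smul, beta_sa h, hp.1]
      simp
    rw [e, two_star]
    exact b1
  have b3 : two (p * W.T Y * p - lam • p) ≤ s2 * n := by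
    have e : p * W.T Y * p - lam • p = p * (W.T Y * p - lam • p) := by
      rw [mul_sub, mul_smul_comm, hp.2, mul_assoc]
    rw [e]
    have e1 := two_mul_le p (W.T Y * p - lam • p)
    have e2 : ‖p‖ * two (W.T Y * p - lam • p) ≤ 1 * two (W.T Y * p - lam • p) :=
      mul_le_mul_of_nonneg_right (norm_proj_le hp) (two_nonneg _)
    rw [one_mul] at e2
    exact e1.trans (e2.trans b1)
  have hrn : two r ≤ (5 * s1 + 3 * s2) * n := by
    have a1 : two (c • (W.T p - p)) ≤ s1 * n := by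
      rw [two_smul_real, abs_of_nonneg c0]
      have e1 := A1 q1
      have e2 := mul_le_mul_of_nonneg_right c1 (two_nonneg (W.T p - p))
      rw [one_mul] at e2
      exact e2.trans e1
    have a2 := A2 h q1
    have a3 := A2' h q1
    have a4 := A2'' h hp q1
    have t1 := two_add_le (c • (W.T p - p) - (W.T (p * Y) - p * W.T Y) - (W.T (Y * p) - W.T Y * p) +
      (W.T (p * Y * p) - p * W.T Y * p) - (p * W.T Y - lam • p) - (W.T Y * p - lam • p))
      (p * W.T Y * p - lam • p)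
    have t2 := two_sub_le (c • (W.T p - p) - (W.T (p * Y) - p * W.T Y) - (W.T (Y * p) - W.T Y * p) +
      (W.T (p * Y * p) - p * W.T Y * p) - (p * W.T Y - lam • p)) (W.T Y * p - lam • p)
    have t3 := two_sub_le (c • (W.T p - p) - (W.T (p * Y) - p * W.T Y) - (W.T (Y * p) - W.T Y * p) +
      (W.T (p * Y * p) - p * W.T Y * p)) (p * W.T Y - lam • p)
    have t4 := two_add_le (c • (W.T p - p) - (W.T (p * Y) - p * W.T Y) - (W.T (Y * p) - W.T Y * p))
      (W.T (p * Y * p) - p * W.T Y * p)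
    have t5 := two_sub_le (c • (W.T p - p) - (W.T (p * Y) - p * W.T Y)) (W.T (Y * p) - W.T Y * p)
    have t6 := two_sub_le (c • (W.T p - p)) (W.T (p * Y) - p * W.T Y)
    rw [hr]
    linarith
  have hdn : two d ≤ 3 * n := two_d h hp c0 c1
  have hdr : |rt (d * r)| ≤ 3 * n * ((5 * s1 + 3 * s2) * n) :=
    (abs_rt_mul_le d r).trans (mul_le_mul hdn hrn (two_nonneg _) (by positivity))
  have hdp : rt (d * p) = c * rt p - rt (Y * p) := by
    have e : d * p = c • p - Y * p := by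
      rw [hd, d_eq, add_mul, sub_mul, sub_mul, smul_mul_assoc, hp.2]
      have e1 : Y * p * p = Y * p := by rw [mul_assoc, hp.2]
      have e2 : p * Y * p * p = p * Y * p := by rw [mul_assoc (p * Y), hp.2]
      rw [e1, e2]
      abel
    rw [e, rt_sub, rt_smul]
  have hA3 := A3 h hp q1 q2
  rw [hTd, mul_add, rt_add, mul_smul_comm, rt_smul, hdp]
  have hR := R0 hp
  have e1 := (abs_le.mp hdr).1
  have e2 := abs_le.mp hA3
  have e3 : 3 * n * ((5 * s1 + 3 * s2) * n) = (15 * s1 + 9 * s2) * rt p := by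
    rw [← hnn]
    ring
  rw [e3] at e1
  -- `(c - λ)(λ R - rt (Y p)) ≥ - (2 s1 + s2) R`
  have hB : 0 ≤ (2 * s1 + s2) * rt p := by positivity
  have e4 : -((2 * s1 + s2) * rt p) ≤ (c - lam) * (lam * rt p - rt (Y * p)) := by
    have hc : |c - lam| ≤ 1 := abs_le.mpr ⟨by linarith, by linarith⟩
    have habs : |(c - lam) * (lam * rt p - rt (Y * p))| ≤ (2 * s1 + s2) * rt p := by
      rw [abs_mul, abs_sub_comm (lam * rt p)]
      calc |c - lam| * |rt (Y * p) - lam * rt p| ≤ 1 * ((2 * s1 + s2) * rt p) :=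
            mul_le_mul hc hA3 (abs_nonneg _) zero_le_one
        _ = _ := one_mul _
    exact (abs_le.mp habs).1
  nlinarith

include h hp q1 q2 h1 h2 l0 l1 in
theorem bd_le {c : ℝ} (c0 : 0 ≤ c) (c1 : c ≤ 1) :
    -2 * rt (W.T Y * ((1 - p) * Y * (1 - p) + c • p - Y)) ≤
      (-2 * lam * (c - lam) + (10 * s2 + 4 * s1)) * rt p := by
  set n : ℝ := Real.sqrt (rt p) with hn
  have n0 : 0 ≤ n := Real.sqrt_nonneg _
  have hnn : n * n = rt p := nn hp
  have hR := R0 hp
  set b : A := W.T Y - lam • (1 : A) with hb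
  -- replacement of `β p` by `λ p`
  have rep : ∀ x : A, two (p * x) ≤ n → |rt (W.T Y * p * x) - lam * rt (p * x)| ≤ s2 * rt p := by
    intro x hx
    have e : W.T Y * p * x = b * p * (p * x) + lam • (p * x) := by
      have e1 : b * p * (p * x) = b * p * x := by
        rw [mul_assoc b p (p * x), ← mul_assoc p p x, hp.2, ← mul_assoc]
      rw [e1, hb, sub_mul, smul_mul_assoc, one_mul, sub_mul, smul_mul_assoc]
      abel
    rw [e, rt_add, rt_smul, add_sub_cancel_right]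
    refine (abs_rt_mul_le _ _).trans ?_
    calc two (b * p) * two (p * x) ≤ (s2 * n) * n :=
          mul_le_mul q2 hx (two_nonneg _) (by positivity)
      _ = s2 * rt p := by rw [mul_assoc, hnn]
  have r1 := rep p (by rw [hp.2, two_p hp])
  have r2 := rep Y (two_pY h hp)
  have r3 := rep (Y * p) (by rw [← mul_assoc]; exact two_pYp h hp)
  have k1 : W.T Y * p * p = W.T Y * p := by rw [mul_assoc, hp.2]
  rw [k1, hp.2] at r1
  have k2 : rt (p * Y) = rt (Y * p) := rt_comm _ _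
  have k3 : rt (p * (Y * p)) = rt (Y * p) := by
    rw [rt_comm, mul_assoc, hp.2]
  rw [k2] at r2
  rw [k3] at r3
  have k4 : rt (W.T Y * (Y * p)) = rt (W.T Y * p * Y) := by
    rw [← rt_star, star_mul, star_mul, h.Y_prj.1, hp.1, beta_sa h, rt_comm, ← mul_assoc]
  have e : rt (W.T Y * ((1 - p) * Y * (1 - p) + c • p - Y)) =
      c * rt (W.T Y * p) - 2 * rt (W.T Y * p * Y) + rt (W.T Y * p * (Y * p)) := by
    rw [d_eq, mul_add, mul_sub, mul_sub, rt_add, rt_sub, rt_sub, mul_smul_comm, rt_smul, k4]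
    have e1 : W.T Y * (p * Y) = W.T Y * p * Y := (mul_assoc _ _ _).symm
    have e2 : W.T Y * (p * Y * p) = W.T Y * p * (Y * p) := by noncomm_ring
    rw [e1, e2]
    ring
  rw [e]
  have hA3 := abs_le.mp (A3 h hp q1 q2)
  have r1' := abs_le.mp r1
  have r2' := abs_le.mp r2
  have r3' := abs_le.mp r3
  have hs : 0 ≤ s2 * rt p := by positivity
  have c2 : -(s2 * rt p) ≤ c * (rt (W.T Y * p) - lam * rt p) := by
    have habs : |c * (rt (W.T Y * p) - lam * rt p)| ≤ s2 * rt p := by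
      rw [abs_mul, abs_of_nonneg c0]
      calc c * |rt (W.T Y * p) - lam * rt p| ≤ 1 * (s2 * rt p) :=
            mul_le_mul c1 r1 (abs_nonneg _) zero_le_one
        _ = _ := one_mul _
    exact (abs_le.mp habs).1
  have c3 : -((2 * s1 + s2) * rt p) ≤ lam * (lam * rt p - rt (Y * p)) := by
    have habs : |lam * (lam * rt p - rt (Y * p))| ≤ (2 * s1 + s2) * rt p := by
      rw [abs_mul, abs_of_nonneg l0, abs_sub_comm]
      calc lam * |rt (Y * p) - lam * rt p| ≤ 1 * ((2 * s1 + s2) * rt p) :=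
            mul_le_mul l1 (A3 h hp q1 q2) (abs_nonneg _) zero_le_one
        _ = _ := one_mul _
    exact (abs_le.mp habs).1
  nlinarith

include h hp in
theorem Dd_le {c : ℝ} (c0 : 0 ≤ c) (c1 : c ≤ 1) :
    rt (D * ((1 - p) * Y * (1 - p) + c • p - Y)) ≤ 4 * rt p := by
  set n : ℝ := Real.sqrt (rt p) with hn
  have n0 : 0 ≤ n := Real.sqrt_nonneg _
  have hnn : n * n = rt p := nn hp
  have hR := R0 hp
  have key : ∀ x : A, one x ≤ rt p → |rt (D * x)| ≤ rt p := by
    intro x hx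
    rw [rt_comm]
    refine (abs_rt_mul_le_one x D).trans ?_
    calc one x * ‖D‖ ≤ rt p * 1 := mul_le_mul hx h.D_le (norm_nonneg _) hR
      _ = rt p := mul_one _
  have o1 : one (p * Y) ≤ rt p := by
    have e : p * Y = p * (p * Y) := by rw [← mul_assoc, hp.2]
    rw [e]
    refine (one_mul_le_two _ _).trans ?_
    rw [two_p hp]
    exact (mul_le_mul_of_nonneg_left (two_pY h hp) n0).trans hnn.le
  have o2 : one (Y * p) ≤ rt p := by
    have e : Y * p = Y * p * p := by rw [mul_assoc, hp.2]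
    rw [e]
    refine (one_mul_le_two _ _).trans ?_
    rw [two_p hp]
    exact (mul_le_mul_of_nonneg_right (two_Yp h hp) n0).trans hnn.le
  have o3 : one (p * Y * p) ≤ rt p := by
    have e : p * Y * p = p * Y * p * p := by rw [mul_assoc (p * Y), hp.2]
    rw [e]
    refine (one_mul_le_two _ _).trans ?_
    rw [two_p hp]
    exact (mul_le_mul_of_nonneg_right (two_pYp h hp) n0).trans hnn.le
  have o4 : one (c • p) ≤ rt p := by
    rw [one_smul_real, abs_of_nonneg c0, one_proj hp]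
    have := mul_le_mul_of_nonneg_right c1 hR
    rwa [one_mul] at this
  rw [d_eq, mul_add, mul_sub, mul_sub, rt_add, rt_sub, rt_sub]
  have a1 := abs_le.mp (key _ o1)
  have a2 := abs_le.mp (key _ o2)
  have a3 := abs_le.mp (key _ o3)
  have a4 := abs_le.mp (key _ o4)
  linarith

include h hp q1 q2 q3 h1 h2 h3 in
theorem gd_le {c : ℝ} (c0 : 0 ≤ c) (c1 : c ≤ 1) :
    rt (g * ((1 - p) * Y * (1 - p) + c • p - Y)) ≤
      (c - lam) * rt (g * p) + (3 * εg + (25 + 2 * s3) * s1 + 3 * (s2 * s3)) * rt p := by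
  have k4 : rt (g * (Y * p)) = rt (g * p * Y) := by
    rw [← rt_star, star_mul, star_mul, h.Y_prj.1, hp.1,
      (IsSelfAdjoint.of_nonneg h.g_nonneg).star_eq, rt_comm, ← mul_assoc]
  have e : rt (g * ((1 - p) * Y * (1 - p) + c • p - Y)) =
      c * rt (g * p) - 2 * rt (g * p * Y) + rt (g * p * Y * p) := by
    rw [d_eq, mul_add, mul_sub, mul_sub, rt_add, rt_sub, rt_sub, mul_smul_comm, rt_smul, k4]
    have e1 : g * (p * Y) = g * p * Y := (mul_assoc _ _ _).symm
    have e2 : g * (p * Y * p) = g * p * Y * p := by noncomm_ring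
    rw [e1, e2]
    ring
  rw [e]
  have a4 := abs_le.mp (A4 h hp q1 q2 q3 h2 h3)
  have a5 := abs_le.mp (A5 h hp q1 q2 q3 h1 h2 h3)
  nlinarith

include h hp q1 q2 q3 h1 h2 h3 l0 l1 in
/-- CORE LEMMA. -/
theorem core (zp : z * p = p) (p0 : p ≠ 0) :
    lam * (1 - lam) ≤ 3 * εg + (46 + 2 * s3) * s1 + (20 + 3 * s3) * s2 + 4 * ν := by
  have hRpos : 0 < rt p := rt_proj_pos hp p0
  have step : ∀ c : ℝ, 0 ≤ c → c ≤ 1 → (c - lam) ^ 2 * rt p ≤ (c - lam) * rt (g * p) -
      2 * lam * (c - lam) * rt p +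
      (3 * εg + (46 + 2 * s3) * s1 + (20 + 3 * s3) * s2 + 4 * ν) * rt p := by
    intro c c0 c1
    obtain ⟨m1, m2⟩ := comp_mem h hp zp c0 c1
    have e0 := h.EL _ m1 m2
    have e1 := dTd_ge h hp q1 q2 h1 h2 l0 l1 c0 c1
    have e2 := bd_le h hp q1 q2 h1 h2 l0 l1 c0 c1
    have e3 := Dd_le h hp c0 c1
    have e4 := gd_le h hp q1 q2 q3 h1 h2 h3 c0 c1
    have e6 : ∀ X : A, rt ((g + (ν • D - (2:ℝ) • W.T Y)) * X) =
        rt (g * X) + (ν * rt (D * X) - 2 * rt (W.T Y * X)) := by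
      intro X
      rw [add_mul, sub_mul, rt_add, rt_sub, smul_mul_assoc, smul_mul_assoc, rt_smul, rt_smul]
    rw [e6] at e0
    have e5 := mul_le_mul_of_nonneg_left e3 h.ν_nonneg
    nlinarith
  have s1' := step 1 zero_le_one le_rfl
  have s0' := step 0 le_rfl zero_le_one
  have t1 := mul_le_mul_of_nonneg_left s1' l0
  have t0 := mul_le_mul_of_nonneg_left s0' (by linarith : 0 ≤ 1 - lam)
  have tot : (lam * (1 - lam)) * rt p ≤
      (3 * εg + (46 + 2 * s3) * s1 + (20 + 3 * s3) * s2 + 4 * ν) * rt p := by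
    nlinarith
  exact le_of_mul_le_mul_right tot hRpos

end Mn

end Pool.Agent.PTH
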