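import Pool.Agent.PTH.RgLY

/-!
# PTH / RgCr: two-sided smoothing into the region

* `eY_le`: `ζ = l Y v`, `x = TB ζ`, `s = (2 e(v))^{1/2} ≤ ...`: `‖x - l β v‖ ≤ s` (`TB_l_sub`, `‖Y‖ ≤ 1`);
  `e(ζ) ≤ ‖ζ‖² - ‖x‖²` (`UA.eB_le_sub`); `‖x‖² ≥ ‖l β v‖² - 2 ‖l β v‖ s ≥ lm (β β) v - 2 s`
  (if `s > ‖lβv‖` the right side is negative); `‖ζ‖² = lm Y v`, and for every `i`:
  `|‖l Y (u_i v u_i*)‖² - ‖l Y v‖²| ≤ 2 ‖u_i v u_i* - v‖` (norms `≤ 1`);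
  `∑ p_i ‖l Y (u_i v u_i*)‖² = ∑ p_i ‖Y u_i v‖² = ∑ p_i lm (u_i* Y u_i) v = lm (T Y) v` (reindex);
  so `lm Y v ≤ lm β v + 2 s`.  Total: `e(ζ) ≤ lm (β - β β) v + 4 s`.
* `eYr_le`: the same on the right, or `eY_le` in `B.cj`.
* `corY`: `ψ` given.  `η' = ψ/2`; `θ', G1'` from `lemYr η' 5`; `θ1 > 0` with `θ1 ≤ θ'` and
  `4 √(2 θ1) ≤ ψ/2`; `η = θ1/2`; `θ'', G1''` from `lemY η 5`; `θ ≤ θ', θ''` with `4 √(2θ) ≤ θ1/2`.
  First `ξ` with bounded densities, `‖ξ‖ ≤ 1`, `Yξ = ξ = ξY`: `lm g ξ, rm g ξ ≤ 3` (`lm_lY`, `rm_rY`),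
  `v = TB ξ`: `‖v‖ ≤ 1`, `e(v) ≤ σ` (`HW`), `lm g v, rm g v ≤ 3 + εg ≤ 4`, `Bdd_TB`.  `lemY`:
  `lm (β-β²) v ≤ η`, so `e(l Y v) ≤ η + 4√(2σ) ≤ θ1`.  `v1 = l Y v`: `‖v1‖ ≤ 1`, `lm g v1 ≤ 3`,
  `Bdd_l`; `lemYr`: `rm (β-β²) v1 ≤ η'`, `e(r Y v1) ≤ η' + 4 √(2 θ1) ≤ ψ`; `l Y (r Y v) = r Y (l Y v)`.
  Homogeneity (`lm_smul`, `eB_smul`): `e(l Y (r Y (TB ξ))) ≤ ψ ‖ξ‖²` for all `ξ` with bounded
  densities in `Y H Y`; general `ξ ∈ Y H Y`: the set of `ζ ∈ B.H` with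
  `e(l Y (r Y (TB (l Y (r Y ζ))))) ≤ ψ ‖l Y (r Y ζ)‖²` is closed and contains the dense set of
  vectors with bounded densities; take `ζ = ξ`.
-/

open Filter Topology MulOpposite
open scoped InnerProductSpace ComplexOrder

universe u

namespace Pool.Agent.PTH

section

variable {A : Type u} [CStarAlgebra A] [PartialOrder A] [StarOrderedRing A] [TracialVN A]
  {W : UA A} {ν εg : ℝ} {z Y g D : A}

private theorem norm_sub_TB_le (hP : W.Pos) (B : Bim.{u} A) (v : B.H) :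
    ‖v - W.TB B v‖ ≤ Real.sqrt (2 * W.eB B v) := by
  have h1 := W.inner_sub_le B v (v - W.TB B v)
  have h2 : Real.sqrt (W.eB B (v - W.TB B v)) ≤ ‖v - W.TB B v‖ := by
    rw [← Real.sqrt_sq (norm_nonneg (v - W.TB B v))]
    exact Real.sqrt_le_sqrt (W.eB_le B hP _)
  have h3 : ‖⟪v - W.TB B v, v - W.TB B v⟫_ℂ‖ = ‖v - W.TB B v‖ ^ 2 := by
    rw [inner_self_eq_norm_sq_to_K, norm_pow]
    simp
  have h4 : Real.sqrt (W.eB B v) ≤ Real.sqrt (2 * W.eB B v) :=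
    Real.sqrt_le_sqrt (by linarith [W.eB_nonneg B v])
  rw [h3] at h1
  rcases (norm_nonneg (v - W.TB B v)).lt_or_eq with h5 | h5
  · have h6 : ‖v - W.TB B v‖ * ‖v - W.TB B v‖ ≤ ‖v - W.TB B v‖ * Real.sqrt (W.eB B v) := by
      have := mul_le_mul_of_nonneg_right h2 (Real.sqrt_nonneg (W.eB B v))
      nlinarith
    exact (le_of_mul_le_mul_left h6 h5).trans h4
  · rw [← h5]
    exact Real.sqrt_nonneg _

theorem eY_le (h : Mn W ν εg z Y g D) (B : Bim.{u} A) {v : B.H} (hv : ‖v‖ ≤ 1) :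
    W.eB B (B.l Y v) ≤ lm B (W.T Y - W.T Y * W.T Y) v + 4 * Real.sqrt (2 * W.eB B v) := by
  set s : ℝ := Real.sqrt (2 * W.eB B v) with hs
  have hs0 : 0 ≤ s := Real.sqrt_nonneg _
  have hY1 : ‖Y‖ ≤ 1 := norm_proj_le h.Y_prj
  have hβ1 : ‖W.T Y‖ ≤ 1 := (W.norm_T_le Y).trans hY1
  have hζ : ‖B.l Y v‖ ≤ 1 := by
    refine (B.norm_l_le _ _).trans ?_
    nlinarith [norm_nonneg v, norm_nonneg Y]
  have h1 : ‖W.TB B (B.l Y v) - B.l (W.T Y) v‖ ≤ s := by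
    refine (W.TB_l_sub B Y v).trans ?_
    rw [← hs]
    nlinarith
  have h2 := W.eB_le_sub B h.pos (B.l Y v)
  have h3 : ‖B.l (W.T Y) v‖ ^ 2 ≤ ‖W.TB B (B.l Y v)‖ ^ 2 + 2 * s := by
    have a1 : ‖B.l (W.T Y) v‖ ≤ 1 := by
      refine (B.norm_l_le _ _).trans ?_
      nlinarith [norm_nonneg v, norm_nonneg (W.T Y)]
    have a2 : ‖W.TB B (B.l Y v)‖ ≤ 1 := (W.norm_TB_le B _).trans hζ
    have a3 : ‖B.l (W.T Y) v‖ ≤ ‖W.TB B (B.l Y v)‖ + s := by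
      have := norm_sub_norm_le (B.l (W.T Y) v) (W.TB B (B.l Y v))
      rw [norm_sub_rev] at this
      linarith
    have a4 := norm_nonneg (B.l (W.T Y) v)
    have a5 := norm_nonneg (W.TB B (B.l Y v))
    nlinarith
  have h4 : ‖B.l Y v‖ ^ 2 = lm B Y v := by
    rw [norm_l_sq', h.Y_prj.1, h.Y_prj.2]
  have h5 : ‖B.l (W.T Y) v‖ ^ 2 = lm B (W.T Y * W.T Y) v := by
    rw [norm_l_sq', h.T_sa]
  have h6 : lm B Y v ≤ lm B (W.T Y) v + 2 * s := by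
    have b1 : (⟪v, W.TB B (B.l Y v)⟫_ℂ).re ≤ lm B (W.T Y) v + s := by
      have e : ⟪v, W.TB B (B.l Y v)⟫_ℂ = ⟪v, B.l (W.T Y) v⟫_ℂ +
          ⟪v, W.TB B (B.l Y v) - B.l (W.T Y) v⟫_ℂ := by
        rw [← inner_add_right]
        congr 1
        abel
      rw [e, Complex.add_re]
      have : (⟪v, W.TB B (B.l Y v) - B.l (W.T Y) v⟫_ℂ).re ≤ s := by
        refine (Complex.re_le_norm _).trans ((norm_inner_le_norm _ _).trans ?_)
        nlinarith [norm_nonneg v, norm_nonneg (W.TB B (B.l Y v) - B.l (W.T Y) v)]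
      unfold lm
      linarith
    have b2 : lm B Y v ≤ (⟪v, W.TB B (B.l Y v)⟫_ℂ).re + s := by
      have e : ⟪v, B.l Y v⟫_ℂ = ⟪v, W.TB B (B.l Y v)⟫_ℂ + ⟪v - W.TB B v, B.l Y v⟫_ℂ := by
        rw [← W.TB_symm, ← inner_add_left]
        congr 1
        abel
      unfold lm
      rw [e, Complex.add_re]
      have : (⟪v - W.TB B v, B.l Y v⟫_ℂ).re ≤ s := by
        refine (Complex.re_le_norm _).trans ((norm_inner_le_norm _ _).trans ?_)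
        have := norm_sub_TB_le h.pos B v
        rw [← hs] at this
        nlinarith [norm_nonneg (v - W.TB B v), norm_nonneg (B.l Y v)]
      linarith
    linarith
  rw [lm_sub, ← h5]
  rw [h4] at h2
  linarith

private theorem lm_cj (B : Bim.{u} A) {x : A} (hx : star x = x) (v : B.H) :
    lm B.cj x (B.c v) = rm B x v := by
  unfold lm rm
  rw [B.l_c, B.inner_c, hx, ← inner_conj_symm, Complex.conj_re]

theorem eYr_le (h : Mn W ν εg z Y g D) (B : Bim.{u} A) {v : B.H} (hv : ‖v‖ ≤ 1) :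
    W.eB B (B.r Y v) ≤ rm B (W.T Y - W.T Y * W.T Y) v + 4 * Real.sqrt (2 * W.eB B v) := by
  have h1 := eY_le h B.cj (v := B.c v) (by rw [B.norm_c]; exact hv)
  rw [B.eB_c, B.l_c, B.eB_c, h.Y_prj.1, lm_cj B] at h1
  · exact h1
  · rw [star_sub, star_mul, h.T_sa]

private theorem cor_bdd {ψ θ θ1 θa σ : ℝ} (h : Mn W ν εg z Y g D)
    (hσθ : σ ≤ θ)
    (hθ1 : 4 * Real.sqrt (2 * θ1) ≤ ψ / 2) (hθ1a : θ1 ≤ θa) (hθ : 4 * Real.sqrt (2 * θ) ≤ θ1 / 2)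
    (B : Bim.{u} A) (hB : B.Reg) (hW : HW W g 6 σ)
    (H1 : ∀ v : B.H, B.Bdd v → ‖v‖ ≤ 1 → W.eB B v ≤ θ → rm B g v ≤ 5 →
      lm B (W.T Y - W.T Y * W.T Y) v ≤ θ1 / 2)
    (H2 : ∀ v : B.H, B.Bdd v → ‖v‖ ≤ 1 → W.eB B v ≤ θa → lm B g v ≤ 5 →
      rm B (W.T Y - W.T Y * W.T Y) v ≤ ψ / 2)
    {ξ : B.H} (hb : B.Bdd ξ) (hl : B.l Y ξ = ξ) (hr : B.r Y ξ = ξ) (h1 : ‖ξ‖ ≤ 1) :
    W.eB B (B.l Y (B.r Y (W.TB B ξ))) ≤ ψ := by
  have hε := h.εg_le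
  have hε0 := h.εg_nonneg
  have hY1 : ‖Y‖ ≤ 1 := norm_proj_le h.Y_prj
  have hξ2 : ‖ξ‖ ^ 2 ≤ 1 := pow_le_one₀ (norm_nonneg _) h1
  have hξ0 : 0 ≤ ‖ξ‖ ^ 2 := sq_nonneg _
  have a1 : lm B g ξ ≤ 3 := by
    have := lm_lY B h ξ
    rw [hl] at this
    linarith
  have a2 : rm B g ξ ≤ 3 := by
    have := rm_rY B h ξ
    rw [hr] at this
    linarith
  have a3 : W.eB B (W.TB B ξ) ≤ σ := hW B hB ξ h1 (by linarith) (by linarith)
  set v : B.H := W.TB B ξ with hv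
  have v1 : ‖v‖ ≤ 1 := (W.norm_TB_le B ξ).trans h1
  have v2 : rm B g v ≤ 5 := by
    have := rm_TB B W h.g_nonneg h.gc ξ
    nlinarith
  have v3 : B.Bdd v := Bdd_TB B W hb
  have v4 := H1 v v3 v1 (a3.trans hσθ) v2
  have v5 := eY_le h B v1
  have v6 : Real.sqrt (2 * W.eB B v) ≤ Real.sqrt (2 * θ) := Real.sqrt_le_sqrt (by linarith)
  have v7 : W.eB B (B.l Y v) ≤ θ1 := by linarith
  have w1 : ‖B.l Y v‖ ≤ 1 := by
    refine (B.norm_l_le _ _).trans ?_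
    nlinarith [norm_nonneg v, norm_nonneg Y]
  have w2 : lm B g (B.l Y v) ≤ 5 := by
    have := lm_lY B h v
    have := pow_le_one₀ (n := 2) (norm_nonneg _) v1
    linarith
  have w4 := H2 (B.l Y v) (B.Bdd_l v3 Y) w1 (v7.trans hθ1a) w2
  have w5 := eYr_le h B w1
  have w6 : Real.sqrt (2 * W.eB B (B.l Y v)) ≤ Real.sqrt (2 * θ1) :=
    Real.sqrt_le_sqrt (by linarith)
  rw [B.l_r]
  linarith

end

private theorem sqrt_bd {c t : ℝ} (hc : 0 ≤ c) (h : t ≤ (c / 8) ^ 2 / 2) :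
    4 * Real.sqrt (2 * t) ≤ c / 2 := by
  have : Real.sqrt (2 * t) ≤ c / 8 := by
    refine Real.sqrt_le_iff.2 ⟨by positivity, by linarith⟩
  linarith

theorem corY {ψ : ℝ} (hψ : 0 < ψ) :
    ∃ θ > 0, ∃ G1 > 0, ∀ (A : Type u) [CStarAlgebra A] [PartialOrder A] [StarOrderedRing A]
      [TracialVN A] (W : UA A) (ν εg σ G0 : ℝ) (z Y g D : A), Mn W ν εg z Y g D → ν ≤ θ →
      εg ≤ θ → 0 ≤ σ → σ ≤ θ → G1 ≤ G0 → 1 - z ≤ (1 / G0) • g → HW W g 6 σ →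
      ∀ B : Bim.{u} A, B.Reg → ∀ ξ : B.H, B.l Y ξ = ξ → B.r Y ξ = ξ →
      W.eB B (B.l Y (B.r Y (W.TB B ξ))) ≤ ψ * ‖ξ‖ ^ 2 := by
  obtain ⟨θa, hθa, Ga, hGa, HA⟩ := lemYr.{u} (η := ψ / 2) (M := 5) (by positivity) (by norm_num)
  set θ1 : ℝ := min θa ((ψ / 8) ^ 2 / 2) with hθ1
  have hθ10 : 0 < θ1 := lt_min hθa (by positivity)
  obtain ⟨θb, hθb, Gb, hGb, HB⟩ := lemY.{u} (η := θ1 / 2) (M := 5) (by positivity) (by norm_num)
  set θ : ℝ := min (min θa θb) ((θ1 / 8) ^ 2 / 2) with hθ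
  have hθ0 : 0 < θ := lt_min (lt_min hθa hθb) (by positivity)
  have hθleA : θ ≤ θa := (min_le_left _ _).trans (min_le_left _ _)
  have hθleB : θ ≤ θb := (min_le_left _ _).trans (min_le_right _ _)
  refine ⟨θ, hθ0, max Ga Gb, lt_of_lt_of_le hGa (le_max_left _ _), ?_⟩
  intro A _ _ _ _ W ν εg σ G0 z Y g D h hν hε hσ hσθ hG hz hW B hB ξ hl hr
  have hW' : HW W g (5 + 1) σ := by
    have e : (5 : ℝ) + 1 = 6 := by norm_num
    rw [e]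
    exact hW
  have hbase : ∀ η : B.H, B.Bdd η → B.l Y η = η → B.r Y η = η → ‖η‖ ≤ 1 →
      W.eB B (B.l Y (B.r Y (W.TB B η))) ≤ ψ := by
    intro η hb hl hr h1
    refine cor_bdd h hσθ (sqrt_bd hψ.le (min_le_right _ _)) (min_le_left _ _)
      (sqrt_bd hθ10.le (min_le_right _ _)) B hB hW ?_ ?_ hb hl hr h1
    · intro v h1 h2 h3 h4
      exact HB A W ν εg σ G0 z Y g D h (hν.trans hθleB) (hε.trans hθleB) hσ (hσθ.trans hθleB)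
        ((le_max_right _ _).trans hG) hz hW' B hB v h1 h2 (h3.trans hθleB) h4
    · intro v h1 h2 h3 h4
      exact HA A W ν εg σ G0 z Y g D h (hν.trans hθleA) (hε.trans hθleA) hσ (hσθ.trans hθleA)
        ((le_max_left _ _).trans hG) hz hW' B hB v h1 h2 h3 h4
  have hhom : ∀ η : B.H, B.Bdd η → B.l Y η = η → B.r Y η = η →
      W.eB B (B.l Y (B.r Y (W.TB B η))) ≤ ψ * ‖η‖ ^ 2 := by
    intro η hb hl hr
    rcases eq_or_ne η 0 with h0 | h0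
    · subst h0
      rw [map_zero, map_zero, map_zero]
      have := W.eB_smul B 0 (0 : B.H)
      rw [smul_zero, norm_zero] at this
      rw [this, norm_zero]
      norm_num
    · have hn : 0 < ‖η‖ := norm_pos_iff.2 h0
      set c : ℂ := ((‖η‖⁻¹ : ℝ) : ℂ) with hc
      have hcn : ‖c‖ = ‖η‖⁻¹ := by
        rw [hc, Complex.norm_real, Real.norm_of_nonneg (by positivity)]
      have h1 := hbase (c • η) (B.Bdd_smul hb c) (by rw [map_smul, hl]) (by rw [map_smul, hr])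
        (by rw [norm_smul, hcn, inv_mul_cancel₀ hn.ne'])
      rw [map_smul, map_smul, map_smul, W.eB_smul, hcn] at h1
      have h2 := mul_le_mul_of_nonneg_left h1 (sq_nonneg ‖η‖)
      rw [← mul_assoc, ← mul_pow, mul_inv_cancel₀ hn.ne', one_pow, one_mul] at h2
      linarith
  have hclosed : IsClosed {η : B.H | W.eB B (B.l Y (B.r Y (W.TB B (B.l Y (B.r Y η))))) ≤
      ψ * ‖B.l Y (B.r Y η)‖ ^ 2} := by
    have hc1 : Continuous fun η : B.H => B.l Y (B.r Y η) :=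
      (B.l Y).continuous.comp (B.r Y).continuous
    refine isClosed_le ?_ (continuous_const.mul (hc1.norm.pow 2))
    exact (W.eB_continuous B).comp (hc1.comp ((W.TB B).continuous.comp hc1))
  have hsub : {η : B.H | B.Bdd η} ⊆ {η : B.H | W.eB B (B.l Y (B.r Y (W.TB B (B.l Y (B.r Y η))))) ≤
      ψ * ‖B.l Y (B.r Y η)‖ ^ 2} := by
    intro η hη
    refine hhom _ (B.Bdd_l (B.Bdd_r hη Y) Y) ?_ ?_
    · rw [← B.l_mul, h.Y_prj.2]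
    · rw [← B.l_r, ← B.r_mul, h.Y_prj.2]
  have hmem := closure_minimal hsub hclosed (hB ξ)
  simp only [Set.mem_ofPred_eq] at hmem
  rwa [hr, hl] at hmem

end Pool.Agent.PTH
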