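import Pool.Agent.PTH.RgLY
import Pool.Agent.PTH.BmC

/-!
# PTH / RgEn: the region is almost invariant

PROOF.  `M = max 4 (16/η)`, `lemY (η/2) M` gives `θ0, G1`; `θ = min θ0 1`.  Let `S : L2S A`
(`exists_L2S`), `w = cfc (fun s => (1 + s/M)⁻¹) g`: self-adjoint, `0 ≤ w ≤ 1`, `w (1 + g/M) = 1`.
`u w - w u = w ((1 + g/M) u - u (1 + g/M)) w = w (g u - u g) w / M`: norm `≤ εg/M ≤ εg`, so
`W.en w ≤ εg²/2 ≤ θ` (`en_le_of_comm`).  `v = S.em w`: `‖v‖ = two w ≤ 1`, `W.eB S.B v = W.en w`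
(`norm_em`, `l_em`, `r_em`), `rm S.B g v = rt (w w g) ≤ M` (`s/(1+s/M)² ≤ M`), bounded densities
(`LD_em`, `RD_em`).  `lemY`: `rt (w (β - β²) w) = lm S.B (β - β²) v ≤ η/2`.  Pointwise
`1 - (1 + s/M)^{-2} ≤ (2/M) s`: `1 - w w ≤ (2/M) g`.  `rt (β - β²) = rt ((β-β²) w w) +
rt ((β-β²)(1 - w w)) ≤ η/2 + rt (β (1 - w w)) ≤ η/2 + (2/M) rt (g β) ≤ η/2 + 8/M ≤ η`
(`rt_mul_mono`, `Mn.rt_gT_le`, `β - β² ≤ β`, `1 - w w ≥ 0`).
`W.en Y = rt Y - rt (Y T Y)` (`en_sa`, `two_proj`) `≤ rt β - ‖β‖₂²` (`rt_T`, `two_T_sq_le`)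
`= rt (β - β²)`.
-/

open Filter Topology MulOpposite
open scoped InnerProductSpace ComplexOrder

universe u

namespace Pool.Agent.PTH

private theorem res_w {A : Type u} [CStarAlgebra A] [PartialOrder A] [StarOrderedRing A] {g : A}
    (hg : 0 ≤ g) {M : ℝ} (hM : 0 < M) :
    ∃ w : A, star w = w ∧ ‖w‖ ≤ 1 ∧ w * (1 + (1 / M) • g) = 1 ∧ (1 + (1 / M) • g) * w = 1 ∧
      1 - w * w ≤ (2 / M) • g ∧ 0 ≤ 1 - w * w ∧ w * (w * g) ≤ M • (1 : A) := by
  have hsa : IsSelfAdjoint g := IsSelfAdjoint.of_nonneg hg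
  have hs : ∀ s ∈ spectrum ℝ g, 0 ≤ s := fun s hs => spectrum_nonneg_of_nonneg hg hs
  set f : ℝ → ℝ := fun s => (1 + s / M)⁻¹ with hf
  have hp : ∀ s ∈ spectrum ℝ g, 0 < 1 + s / M := fun s h => by
    have := hs s h
    positivity
  have hfc : ContinuousOn f (spectrum ℝ g) := by
    refine ContinuousOn.inv₀ (by fun_prop) fun s h => (hp s h).ne'
  have hkc : ContinuousOn (fun s : ℝ => 1 + s / M) (spectrum ℝ g) := by fun_prop
  have hidc : ContinuousOn (fun s : ℝ => s) (spectrum ℝ g) := continuousOn_id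
  have h1 : cfc (fun _ : ℝ => (1 : ℝ)) g = 1 := cfc_const_one ℝ g
  have hk : cfc (fun s : ℝ => 1 + s / M) g = 1 + (1 / M) • g := by
    have e : (fun s : ℝ => 1 + s / M) = fun s : ℝ => 1 + (1 / M) * s := by
      funext s
      ring
    rw [e, cfc_add g (fun _ : ℝ => (1 : ℝ)) (fun s : ℝ => (1 / M) * s), h1,
      cfc_const_mul_id (1 / M) g]
  have hff : cfc f g * cfc f g = cfc (fun s => f s * f s) g :=
    (cfc_mul f f g hfc hfc).symm
  refine ⟨cfc f g, (cfc_predicate f g : IsSelfAdjoint (cfc f g)).star_eq, ?_, ?_, ?_, ?_, ?_, ?_⟩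
  · refine norm_cfc_le zero_le_one fun s h => ?_
    have h2 := hp s h
    have h3 := hs s h
    rw [hf, Real.norm_of_nonneg (by positivity)]
    refine inv_le_one_of_one_le₀ ?_
    have : 0 ≤ s / M := by positivity
    linarith
  · rw [← hk, ← cfc_mul f (fun s : ℝ => 1 + s / M) g hfc hkc, ← h1]
    refine cfc_congr fun s h => ?_
    exact inv_mul_cancel₀ (hp s h).ne'
  · rw [← hk, ← cfc_mul (fun s : ℝ => 1 + s / M) f g hkc hfc, ← h1]
    refine cfc_congr fun s h => ?_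
    exact mul_inv_cancel₀ (hp s h).ne'
  · rw [sub_le_iff_le_add, hff, ← cfc_const_mul_id (2 / M) g (ha := hsa),
      ← cfc_add g (fun s : ℝ => (2 / M) * s) (fun s => f s * f s) (by fun_prop) (hfc.mul hfc), ← h1]
    refine cfc_mono (fun s h => ?_) continuousOn_const
      (ContinuousOn.add (by fun_prop) (hfc.mul hfc))
    have h2 := hp s h
    have h3 := hs s h
    change (1 : ℝ) ≤ 2 / M * s + (1 + s / M)⁻¹ * (1 + s / M)⁻¹
    have h4 : 0 ≤ s / M := by positivity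
    have e : 2 / M * s = 2 * (s / M) := by ring
    rw [e]
    obtain ⟨t, ht⟩ : ∃ t, t = s / M := ⟨_, rfl⟩
    rw [← ht] at h2 h4 ⊢
    obtain ⟨a, ha⟩ : ∃ a, a = (1 + t)⁻¹ := ⟨_, rfl⟩
    have ha1 : a * (1 + t) = 1 := by rw [ha]; exact inv_mul_cancel₀ h2.ne'
    have ha0 : 0 ≤ a := by rw [ha]; positivity
    have ha2 : a ≤ 1 := by rw [ha]; exact inv_le_one_of_one_le₀ (by linarith)
    rw [← ha]
    have h5 : 1 - a ≤ t := by nlinarith
    nlinarith [sq_nonneg (1 - a)]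
  · rw [sub_nonneg, hff, ← h1]
    refine cfc_mono (fun s h => ?_) (hfc.mul hfc) continuousOn_const
    have h2 := hp s h
    have h3 := hs s h
    have h4 : 0 ≤ s / M := by positivity
    change (1 + s / M)⁻¹ * (1 + s / M)⁻¹ ≤ 1
    have h5 : (1 + s / M)⁻¹ ≤ 1 := inv_le_one_of_one_le₀ (by linarith)
    have h6 : 0 ≤ (1 + s / M)⁻¹ := by positivity
    nlinarith
  · have e : cfc f g * (cfc f g * g) = cfc (fun s => f s * (f s * s)) g := by
      rw [cfc_mul f (fun s => f s * s) g hfc (hfc.mul hidc), cfc_mul f (fun s : ℝ => s) g hfc hidc,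
        cfc_id' ℝ g]
    have e2 : cfc (fun _ : ℝ => M) g = M • (1 : A) := by
      rw [cfc_const M g, Algebra.algebraMap_eq_smul_one]
    rw [e, ← e2]
    refine cfc_mono (fun s h => ?_) (hfc.mul (hfc.mul hidc)) continuousOn_const
    have h2 := hp s h
    have h3 := hs s h
    change (1 + s / M)⁻¹ * ((1 + s / M)⁻¹ * s) ≤ M
    have h4 : 0 ≤ s / M := by positivity
    have e3 : s = M * (s / M) := by field_simp
    set t := s / M with ht
    rw [e3]
    have h5 : (1 + t)⁻¹ * t ≤ 1 := by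
      rw [inv_mul_le_iff₀ h2]
      linarith
    have h6 : (1 + t)⁻¹ ≤ 1 := inv_le_one_of_one_le₀ (by linarith)
    have h7 : 0 ≤ (1 + t)⁻¹ * t := by positivity
    have h8 : 0 ≤ (1 + t)⁻¹ := by positivity
    calc (1 + t)⁻¹ * ((1 + t)⁻¹ * (M * t)) = M * ((1 + t)⁻¹ * ((1 + t)⁻¹ * t)) := by ring
      _ ≤ M * (1 * 1) := by
          apply mul_le_mul_of_nonneg_left _ hM.le
          exact mul_le_mul h6 h5 h7 zero_le_one
      _ = M := by ring

theorem enY {η : ℝ} (hη : 0 < η) :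
    ∃ M ≥ 4, ∃ θ > 0, ∃ G1 > 0, ∀ (A : Type u) [CStarAlgebra A] [PartialOrder A]
      [StarOrderedRing A] [TracialVN A] (W : UA A) (ν εg σ G0 : ℝ) (z Y g D : A),
      Mn W ν εg z Y g D → ν ≤ θ → εg ≤ θ → 0 ≤ σ → σ ≤ θ → G1 ≤ G0 → 1 - z ≤ (1 / G0) • g →
      HW W g (M + 1) σ → W.en Y ≤ η := by
  obtain ⟨M, hMd⟩ : ∃ M : ℝ, M = max 4 (16 / η) := ⟨_, rfl⟩
  have hM4 : 4 ≤ M := by rw [hMd]; exact le_max_left _ _
  have hM16 : 16 / η ≤ M := by rw [hMd]; exact le_max_right _ _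
  have hM0 : 0 < M := by linarith
  obtain ⟨θ0, hθ0, G1, hG1, hlem⟩ := lemY.{u} (half_pos hη) hM4
  refine ⟨M, hM4, min θ0 1, lt_min hθ0 one_pos, G1, hG1, ?_⟩
  intro A _ _ _ _ W ν εg σ G0 z Y g D h hν hεg hσ0 hσ hG hz hHW
  obtain ⟨S⟩ := exists_L2S.{u} A
  obtain ⟨w, hws, hw1, hwc, hcw, hsub, hsub0, hmass⟩ := res_w h.g_nonneg hM0
  have hεg0 := h.εg_nonneg
  have hεg1 := h.εg_le
  have hcomm : ∀ i, ‖W.u i * w - w * W.u i‖ ≤ εg := by
    intro i
    obtain ⟨c, hc⟩ : ∃ c : A, c = 1 + (1 / M) • g := ⟨_, rfl⟩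
    rw [← hc] at hwc hcw
    have e1 : W.u i * w - w * W.u i = w * (c * W.u i - W.u i * c) * w := by
      calc W.u i * w - w * W.u i = (w * c) * W.u i * w - w * W.u i * (c * w) := by
            rw [hwc, hcw, one_mul, mul_one]
        _ = _ := by noncomm_ring
    have e2 : c * W.u i - W.u i * c = -((1 / M) • (W.u i * g - g * W.u i)) := by
      rw [hc, add_mul, mul_add, one_mul, mul_one, smul_mul_assoc, mul_smul_comm, smul_sub]
      abel
    have n1 : ‖c * W.u i - W.u i * c‖ ≤ εg := by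
      rw [e2, norm_neg, norm_smul, Real.norm_of_nonneg (by positivity)]
      have h1 := h.gc i
      have h2 : 1 / M ≤ 1 := by
        rw [div_le_one hM0]
        linarith
      have h3 := norm_nonneg (W.u i * g - g * W.u i)
      nlinarith
    rw [e1]
    calc ‖w * (c * W.u i - W.u i * c) * w‖ ≤ ‖w * (c * W.u i - W.u i * c)‖ * ‖w‖ := norm_mul_le _ _
      _ ≤ (‖w‖ * ‖c * W.u i - W.u i * c‖) * ‖w‖ :=
          mul_le_mul_of_nonneg_right (norm_mul_le _ _) (norm_nonneg _)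
      _ ≤ (1 * εg) * 1 := by
          have := norm_nonneg w
          gcongr
      _ = εg := by ring
  have hen := W.en_le_of_comm hcomm
  have hv1 : ‖S.em w‖ ≤ 1 := by
    rw [S.norm_em]
    exact (two_le_norm _).trans hw1
  have heB : W.eB S.B (S.em w) = W.en w := by
    unfold UA.eB UA.en
    congr 1
    refine Finset.sum_congr rfl fun i _ => ?_
    rw [S.l_em, S.r_em, ← S.em_sub, S.norm_em]
  have hrm : rm S.B g (S.em w) ≤ M := by
    unfold rm
    rw [S.r_em, S.inner_em, hws]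
    have h1 := rt_mono hmass
    have h2 : rt (1 : A) = 1 := by
      unfold rt
      rw [TrAlg.tau_one, Complex.one_re]
    rw [rt_smul, h2, mul_one] at h1
    exact h1
  have key := hlem A W ν εg σ G0 z Y g D h (hν.trans (min_le_left _ _))
    (hεg.trans (min_le_left _ _)) hσ0 (hσ.trans (min_le_left _ _)) hG hz hHW S.B S.reg (S.em w)
    ⟨⟨_, S.LD_em w⟩, ⟨_, S.RD_em w⟩⟩ hv1 (by
      rw [heB]
      refine hen.trans ?_
      have : εg ≤ θ0 := hεg.trans (min_le_left _ _)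
      nlinarith) hrm
  unfold lm at key
  rw [S.l_em, S.inner_em, hws] at key
  obtain ⟨β, hβ⟩ : ∃ β : A, β = W.T Y := ⟨_, rfl⟩
  rw [← hβ] at key
  have hβ0 : 0 ≤ β := by
    rw [hβ]
    exact W.T_nonneg h.Y_nonneg
  have hβs : star β = β := by rw [hβ]; exact h.T_sa
  have hββ : 0 ≤ β * β := by
    have := star_mul_self_nonneg β
    rwa [hβs] at this
  have s1 : rt ((β - β * β) * (w * w)) ≤ η / 2 := by
    have e : rt ((β - β * β) * (w * w)) = rt (w * ((β - β * β) * w)) := by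
      rw [← mul_assoc, rt_comm]
    rw [e]
    exact key
  have s2 : rt ((β - β * β) * (1 - w * w)) ≤ rt (β * (1 - w * w)) :=
    rt_mul_mono' hsub0 (sub_le_self β hββ)
  have s3 : rt (β * (1 - w * w)) ≤ rt (β * ((2 / M) • g)) := rt_mul_mono hβ0 hsub
  have s4 : rt (β * ((2 / M) • g)) ≤ η / 2 := by
    rw [mul_smul_comm, rt_smul, rt_comm]
    have h1 := h.rt_gT_le
    rw [← hβ] at h1
    have h2 : 2 / M * rt (g * β) ≤ 2 / M * 4 :=
      mul_le_mul_of_nonneg_left h1 (by positivity)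
    have h3 : 2 / M * 4 ≤ η / 2 := by
      rw [div_mul_eq_mul_div, div_le_iff₀ hM0]
      rw [div_le_iff₀ hη] at hM16
      linarith
    linarith
  have s5 : rt (β - β * β) = rt ((β - β * β) * (w * w)) + rt ((β - β * β) * (1 - w * w)) := by
    rw [← rt_add]
    congr 1
    noncomm_ring
  have s6 : W.en Y ≤ rt (β - β * β) := by
    rw [W.en_sa h.Y_prj.1, two_proj h.Y_prj, rt_sub, ← W.rt_T Y, ← hβ]
    have h1 := W.two_T_sq_le h.pos Y
    rw [h.Y_prj.1, ← hβ, two_sq_rt, hβs] at h1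
    linarith
  linarith

end Pool.Agent.PTH
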