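import Mathlib

/-!
# PTH / RgSp: a spectral gap window gives a quadratic inequality

`S` self-adjoint operator on a complex Hilbert space such that `S - λ` is bounded below by `δ > 0`
for every `λ ∈ [x, y]`.  Then `(S - x)(S - y) ≥ 0`.

PROOF.  For `λ ∈ [x, y]`, `S - λ` is self-adjoint and bounded below, hence invertible (injective
with closed range, and the range is dense because the kernel of the adjoint `S - λ` is `0`; or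
`(S - λ)² ≥ δ²` is a strictly positive element of the C*-algebra `H →L[ℂ] H`, so `(S-λ)²` is a unit
and so is `S - λ`; Mathlib: `ContinuousLinearMap.isUnit_iff_bijective`,
`LinearMap.IsSymmetric`, `IsSelfAdjoint`...).  So `spectrum ℝ S ∩ [x, y] = ∅` and
`f(s) = (s - x)(s - y) ≥ 0` on `spectrum ℝ S`: `0 ≤ cfc f S = (S - x)(S - y)`
(`cfc_nonneg`, `cfc_mul`, `cfc_sub`, `cfc_id`), and `0 ≤ R` in `H →L[ℂ] H` means
`0 ≤ re ⟪ξ, R ξ⟫` (`ContinuousLinearMap.nonneg_iff_isPositive`).  Expand: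
`re ⟪ξ, (S-x)(S-y) ξ⟫ = ‖S ξ‖² - (x+y) re ⟪ξ, S ξ⟫ + x y ‖ξ‖²`.
-/

open scoped InnerProductSpace

namespace Pool.Agent.PTH

theorem gap_window {H : Type*} [NormedAddCommGroup H] [InnerProductSpace ℂ H] [CompleteSpace H]
    (S : H →L[ℂ] H) (hS : ∀ ξ η : H, ⟪S ξ, η⟫_ℂ = ⟪ξ, S η⟫_ℂ) {x y δ : ℝ} (hxy : x ≤ y) (hδ : 0 < δ)
    (hb : ∀ lam : ℝ, x ≤ lam → lam ≤ y → ∀ ξ : H, δ * ‖ξ‖ ≤ ‖S ξ - (lam : ℂ) • ξ‖) (ξ : H) :
    (x + y) * (⟪ξ, S ξ⟫_ℂ).re ≤ ‖S ξ‖ ^ 2 + x * y * ‖ξ‖ ^ 2 := by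
  have hSym : (S : H →ₗ[ℂ] H).IsSymmetric := fun ξ η => hS ξ η
  have hsa : IsSelfAdjoint S := hSym.isSelfAdjoint
  -- the spectrum misses the window
  have hspec : ∀ t ∈ spectrum ℝ S, ¬ (x ≤ t ∧ t ≤ y) := by
    rintro t ht ⟨h1, h2⟩
    apply ht
    have e1 : algebraMap ℝ (H →L[ℂ] H) t = (t : ℂ) • (1 : H →L[ℂ] H) := by
      rw [Algebra.algebraMap_eq_smul_one]
      exact (Complex.coe_smul t (1 : H →L[ℂ] H)).symm
    have hT : ∀ ζ : H, (algebraMap ℝ (H →L[ℂ] H) t - S) ζ = (t : ℂ) • ζ - S ζ := by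
      intro ζ
      rw [e1]
      rfl
    have h3 : IsUnit ((algebraMap ℝ (H →L[ℂ] H) t - S) ^ 2) := by
      refine ContinuousLinearMap.isUnit_of_forall_le_norm_inner_map _
        (c := ⟨δ ^ 2, sq_nonneg δ⟩) (by exact_mod_cast pow_pos hδ 2) fun ζ => ?_
      have h4 : ⟪((algebraMap ℝ (H →L[ℂ] H) t - S) ^ 2) ζ, ζ⟫_ℂ =
          ⟪(t : ℂ) • ζ - S ζ, (t : ℂ) • ζ - S ζ⟫_ℂ := by
        have h5 : ((algebraMap ℝ (H →L[ℂ] H) t - S) ^ 2) ζ =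
            (t : ℂ) • ((t : ℂ) • ζ - S ζ) - S ((t : ℂ) • ζ - S ζ) := by
          rw [sq, ContinuousLinearMap.mul_apply, hT, hT]
        rw [h5, inner_sub_left, hS, inner_smul_left, Complex.conj_ofReal, ← inner_smul_right,
          ← inner_sub_right]
      rw [h4, inner_self_eq_norm_sq_to_K]
      have h6 := hb t h1 h2 ζ
      rw [norm_sub_rev] at h6
      have h7 : (δ * ‖ζ‖) ^ 2 ≤ ‖(t : ℂ) • ζ - S ζ‖ ^ 2 :=
        pow_le_pow_left₀ (by positivity) h6 2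
      have h8 : ‖((‖(t : ℂ) • ζ - S ζ‖ : ℂ)) ^ 2‖ = ‖(t : ℂ) • ζ - S ζ‖ ^ 2 := by
        rw [norm_pow, Complex.norm_real, norm_norm]
      have h9 : ‖ζ‖ ^ 2 * δ ^ 2 ≤ ‖(t : ℂ) • ζ - S ζ‖ ^ 2 := by
        rw [mul_pow] at h7
        linarith
      exact h9.trans (le_of_eq h8.symm)
    exact (isUnit_pow_iff two_ne_zero).1 h3
  have hconn : ∀ t ∈ spectrum ℝ S, 0 ≤ (t - x) * (t - y) := by
    intro t ht
    have h1 := hspec t ht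
    by_contra hc
    push Not at hc
    apply h1
    constructor
    · by_contra h2
      push Not at h2
      nlinarith
    · by_contra h2
      push Not at h2
      nlinarith
  have h0 : 0 ≤ cfc (fun t : ℝ => (t - x) * (t - y)) S := cfc_nonneg hconn
  have h1 : cfc (fun t : ℝ => (t - x) * (t - y)) S =
      (S - (x : ℂ) • (1 : H →L[ℂ] H)) * (S - (y : ℂ) • (1 : H →L[ℂ] H)) := by
    have hc : ∀ a : ℝ, cfc (fun t : ℝ => t - a) S = S - (a : ℂ) • (1 : H →L[ℂ] H) := by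
      intro a
      rw [cfc_sub (fun t : ℝ => t) (fun _ => a) S, cfc_id' ℝ S, cfc_const a S,
        Algebra.algebraMap_eq_smul_one]
      rfl
    rw [cfc_mul (fun t : ℝ => t - x) (fun t : ℝ => t - y) S, hc, hc]
  rw [h1, ContinuousLinearMap.nonneg_iff_isPositive] at h0
  have h2 := h0.re_inner_nonneg_right ξ
  have h3 : ⟪ξ, ((S - (x : ℂ) • (1 : H →L[ℂ] H)) * (S - (y : ℂ) • (1 : H →L[ℂ] H))) ξ⟫_ℂ =
      ⟪S ξ, S ξ⟫_ℂ - (y : ℂ) * ⟪ξ, S ξ⟫_ℂ - (x : ℂ) * ⟪ξ, S ξ⟫_ℂ + (x : ℂ) * (y : ℂ) * ⟪ξ, ξ⟫_ℂ := by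
    have h4 : ((S - (x : ℂ) • (1 : H →L[ℂ] H)) * (S - (y : ℂ) • (1 : H →L[ℂ] H))) ξ =
        S (S ξ - (y : ℂ) • ξ) - (x : ℂ) • (S ξ - (y : ℂ) • ξ) := rfl
    rw [h4, map_sub, map_smul, inner_sub_right, inner_sub_right, inner_smul_right, inner_smul_right,
      inner_sub_right, inner_smul_right, ← hS ξ (S ξ)]
    ring
  have h5 : RCLike.re ⟪ξ, ((S - (x : ℂ) • (1 : H →L[ℂ] H)) * (S - (y : ℂ) • (1 : H →L[ℂ] H))) ξ⟫_ℂ =
      ‖S ξ‖ ^ 2 - y * (⟪ξ, S ξ⟫_ℂ).re - x * (⟪ξ, S ξ⟫_ℂ).re + x * y * ‖ξ‖ ^ 2 := by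
    have e1 : (⟪S ξ, S ξ⟫_ℂ).re = ‖S ξ‖ ^ 2 := by
      rw [inner_self_eq_norm_sq_to_K]
      norm_cast
    have e2 : (⟪ξ, ξ⟫_ℂ).re = ‖ξ‖ ^ 2 := by
      rw [inner_self_eq_norm_sq_to_K]
      norm_cast
    have e3 : (x : ℂ) * (y : ℂ) * ⟪ξ, ξ⟫_ℂ = ((x * y : ℝ) : ℂ) * ⟪ξ, ξ⟫_ℂ := by push_cast; ring
    rw [h3, e3]
    simp only [RCLike.re_to_complex, Complex.add_re, Complex.sub_re, Complex.re_ofReal_mul]
    rw [e1, e2]
  rw [h5] at h2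
  linarith

end Pool.Agent.PTH
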