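import Pool.Agent.PTH.RgSm
import Pool.Agent.PTH.RgSp

/-!
# PTH / RgHG: the hard gap under the region

`T = B.T a`, `P = l Y r Y` (projection of `B.H` onto `Y H Y`, `T` commutes with nothing),
`S = P (1 - T) P`: self-adjoint.  For `ξ = Pξ`: `S ξ = ξ - P T ξ = Δ_Y ξ` and
`Re ⟨ξ, S ξ⟩ = e(ξ)` (`Bim.en_eq`).

PROOF.  `x = min (e') (c/64)` (so `x (c/32) ≤ e'`, `0 < x < c/32`), `y = c/32`, `δ = x/16`,
`ψ = x/64`.  CLAIM: for `λ ∈ [x, y]` and all `ξ`: `δ ‖ξ‖ ≤ ‖S ξ - λ ξ‖`.  Then `gap_window` gives for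
`ξ ∈ YHY`: `(x + y) e(ξ) ≤ ‖Δ_Y ξ‖² + x y ‖ξ‖²`, and `c/64 ≤ x + y`, `e(ξ) ≥ 0`, `x y ≤ e'`.
CLAIM, first `ξ ∈ Y H Y`, `‖ξ‖ = 1`; suppose `‖S ξ - λ ξ‖ < δ`.  `e(ξ) = Re ⟨ξ, Sξ⟩ ≤ λ + δ`.
`ξ' = T^k ξ`; `zξ = ξ = ξz` (as `z Y = Y`, `Y z = Y`), so by `dist_le`
`‖ξ - ξ'‖² ≤ (2/c)(λ + δ) + 4 k κ1/c ≤ 1/16 + 1/64 + 1/32 ≤ 1/8` (`λ ≤ c/32`, `δ ≤ c/1024`,
`4kκ1/c ≤ 1/32`).  `Re ⟨ξ', ξ⟩ ≥ 1 - ‖ξ' - ξ‖ ≥ 1 - 0.36 ≥ 1/2`.  `ξ'' = P ξ'`, `⟨ξ'', ξ⟩ = ⟨ξ', ξ⟩`,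
`‖ξ''‖ ≤ 1`, `e(ξ'') ≤ (a.pw k).eB B ξ'' ≤ ψ` (`Avg.en_le_eB_pw`, hypothesis `hc` and `pw_TB`).
`λ/2 ≤ λ Re ⟨ξ'', ξ⟩ = Re ⟨ξ'', Sξ⟩ - Re ⟨ξ'', Sξ - λξ⟩ ≤ Re ⟨ξ'', ξ - Tξ⟩ + δ ≤
√e(ξ'') √e(ξ) + δ ≤ (ψ (λ + δ))^{1/2} + δ` (`Bim.inner_sub_T_le`; `⟨ξ'', Sξ⟩ = ⟨ξ'', ξ - Tξ⟩` since
`Pξ'' = ξ''`, `Pξ = ξ`).  With `x ≤ λ`: `δ ≤ λ/16`, `ψ ≤ λ/64`: right side
`≤ λ ((17/16)/64)^{1/2} + λ/16 ≤ λ (0.13 + 0.07) < λ/2`, contradiction.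
General `ξ ∈ B.H`: `ξ = Pξ + (ξ - Pξ)`, `S ξ - λξ = (S Pξ - λ Pξ) - λ (ξ - Pξ)`, orthogonal, so
`‖Sξ - λξ‖² ≥ δ²‖Pξ‖² + λ²‖ξ - Pξ‖² ≥ δ²‖ξ‖²`; scale `Pξ` to norm one.
-/

open Filter Topology MulOpposite
open scoped InnerProductSpace ComplexOrder

universe u

namespace Pool.Agent.PTH

section hilb

variable {H : Type*} [NormedAddCommGroup H] [InnerProductSpace ℂ H]

private theorem hg_core (T P : H →L[ℂ] H)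
    (hP1 : ∀ ξ η : H, ⟪P ξ, η⟫_ℂ = ⟪ξ, P η⟫_ℂ) (hP2 : ∀ ξ, P (P ξ) = P ξ)
    (hP3 : ∀ ξ, ‖P ξ‖ ≤ ‖ξ‖)
    (e : H → ℝ) (he : ∀ ξ, e ξ = (⟪ξ, ξ - T ξ⟫_ℂ).re)
    (hCS : ∀ ξ η, (⟪η, ξ - T ξ⟫_ℂ).re ≤ Real.sqrt (e η) * Real.sqrt (e ξ))
    (U : H → H) (hU : ∀ ξ, ‖U ξ‖ ≤ ‖ξ‖) {c lam x : ℝ} (c0 : 0 < c)
    (hdist : ∀ ξ, P ξ = ξ → ‖ξ - U ξ‖ ^ 2 ≤ 2 / c * e ξ + 1 / 32 * ‖ξ‖ ^ 2)
    (hpsi : ∀ ξ, P ξ = ξ → e (P (U ξ)) ≤ x / 64 * ‖ξ‖ ^ 2)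
    (hx : 0 < x) (hxl : x ≤ lam) (hly : lam ≤ c / 32) (hxc : x ≤ c / 64)
    {ξ : H} (hξ : P ξ = ξ) : x / 16 * ‖ξ‖ ≤ ‖P (ξ - T ξ) - (lam : ℂ) • ξ‖ := by
  by_contra hcon
  push Not at hcon
  obtain ⟨n, hn⟩ : ∃ n, n = ‖ξ‖ := ⟨_, rfl⟩
  have hn0 : 0 < n := by
    rcases (norm_nonneg ξ).lt_or_eq with h | h
    · rw [hn]
      exact h
    · rw [← h, mul_zero] at hcon
      exact absurd hcon (not_lt.2 (norm_nonneg _))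
  have hl0 : 0 < lam := hx.trans_le hxl
  obtain ⟨ζ, hζ⟩ : ∃ ζ, ζ = P (ξ - T ξ) - (lam : ℂ) • ξ := ⟨_, rfl⟩
  rw [← hζ, ← hn] at hcon
  have hre : (⟪ξ, ξ⟫_ℂ).re = n ^ 2 := by
    rw [hn, inner_self_eq_norm_sq_to_K]
    norm_cast
  have e1 : e ξ = lam * n ^ 2 + (⟪ξ, ζ⟫_ℂ).re := by
    rw [he, hζ, inner_sub_right ξ (P _), inner_smul_right, Complex.sub_re, Complex.re_ofReal_mul,
      hre, ← hP1, hξ]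
    ring
  have e2 : (⟪ξ, ζ⟫_ℂ).re ≤ n * (x / 16 * n) := by
    refine (Complex.re_le_norm _).trans ((norm_inner_le_norm _ _).trans ?_)
    rw [← hn]
    exact mul_le_mul_of_nonneg_left hcon.le hn0.le
  have hn2 : 0 < n ^ 2 := by positivity
  have e3 : e ξ ≤ (lam + x / 16) * n ^ 2 := by
    rw [e1]
    nlinarith
  have hd := hdist ξ hξ
  rw [← hn] at hd
  have hd2 : 2 / c * e ξ ≤ (1 / 16 + 1 / 512) * n ^ 2 := by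
    have h1 : e ξ ≤ (c / 32 + c / 1024) * n ^ 2 :=
      e3.trans (mul_le_mul_of_nonneg_right (by linarith) hn2.le)
    calc 2 / c * e ξ ≤ 2 / c * ((c / 32 + c / 1024) * n ^ 2) :=
          mul_le_mul_of_nonneg_left h1 (by positivity)
      _ = (1 / 16 + 1 / 512) * n ^ 2 := by
          field_simp
          ring
  have hq : ‖ξ - U ξ‖ ≤ n / 2 := by
    refine (sq_le_sq₀ (norm_nonneg _) (by positivity)).1 ?_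
    have h1 : (n / 2) ^ 2 = 1 / 4 * n ^ 2 := by ring
    rw [h1]
    linarith
  obtain ⟨w, hw⟩ : ∃ w, w = P (U ξ) := ⟨_, rfl⟩
  have hwn : ‖w‖ ≤ n := by
    rw [hw, hn]
    exact (hP3 _).trans (hU _)
  have hwξ : n ^ 2 / 2 ≤ (⟪w, ξ⟫_ℂ).re := by
    rw [hw, hP1, hξ]
    have h1 : ⟪U ξ, ξ⟫_ℂ = ⟪ξ, ξ⟫_ℂ - ⟪ξ - U ξ, ξ⟫_ℂ := by
      rw [inner_sub_left]
      ring
    rw [h1, Complex.sub_re, hre]
    have h2 : (⟪ξ - U ξ, ξ⟫_ℂ).re ≤ n / 2 * n := by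
      refine (Complex.re_le_norm _).trans ((norm_inner_le_norm _ _).trans ?_)
      rw [← hn]
      exact mul_le_mul_of_nonneg_right hq hn0.le
    nlinarith
  have hPw : P w = w := by rw [hw, hP2]
  have hkey : lam * (⟪w, ξ⟫_ℂ).re = (⟪w, ξ - T ξ⟫_ℂ).re - (⟪w, ζ⟫_ℂ).re := by
    rw [hζ, inner_sub_right w (P _), inner_smul_right, Complex.sub_re, Complex.re_ofReal_mul,
      ← hP1, hPw]
    ring
  have hwζ : -(⟪w, ζ⟫_ℂ).re ≤ n * (x / 16 * n) := by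
    have h1 : |(⟪w, ζ⟫_ℂ).re| ≤ n * (x / 16 * n) := by
      refine (Complex.abs_re_le_norm _).trans ((norm_inner_le_norm _ _).trans ?_)
      exact mul_le_mul hwn hcon.le (norm_nonneg _) hn0.le
    exact (neg_le_abs _).trans h1
  have hew : e w ≤ lam * n ^ 2 / 64 := by
    have h1 := hpsi ξ hξ
    rw [← hw, ← hn] at h1
    refine h1.trans ?_
    have h2 : x * n ^ 2 ≤ lam * n ^ 2 := mul_le_mul_of_nonneg_right hxl hn2.le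
    linarith
  have heξ : e ξ ≤ 4 * (lam * n ^ 2) := by
    refine e3.trans ?_
    have h2 : x * n ^ 2 ≤ lam * n ^ 2 := mul_le_mul_of_nonneg_right hxl hn2.le
    have h3 : 0 ≤ lam * n ^ 2 := by positivity
    nlinarith
  obtain ⟨s, hs⟩ : ∃ s, s = Real.sqrt lam := ⟨_, rfl⟩
  have hs0 : 0 ≤ s := by
    rw [hs]
    exact Real.sqrt_nonneg _
  have hs2 : s ^ 2 = lam := by
    rw [hs]
    exact Real.sq_sqrt hl0.le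
  have h1 : Real.sqrt (e w) ≤ s * n / 8 := by
    rw [Real.sqrt_le_iff]
    refine ⟨by positivity, hew.trans (le_of_eq ?_)⟩
    rw [← hs2]
    ring
  have h2 : Real.sqrt (e ξ) ≤ 2 * s * n := by
    rw [Real.sqrt_le_iff]
    refine ⟨by positivity, heξ.trans (le_of_eq ?_)⟩
    rw [← hs2]
    ring
  have h3 : (⟪w, ξ - T ξ⟫_ℂ).re ≤ lam * n ^ 2 / 4 := by
    refine (hCS ξ w).trans ((mul_le_mul h1 h2 (Real.sqrt_nonneg _) (by positivity)).trans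
      (le_of_eq ?_))
    rw [← hs2]
    ring
  have h4 : lam * (n ^ 2 / 2) ≤ lam * (⟪w, ξ⟫_ℂ).re := mul_le_mul_of_nonneg_left hwξ hl0.le
  have h5 : x * n ^ 2 ≤ lam * n ^ 2 := mul_le_mul_of_nonneg_right hxl hn2.le
  have h6 : 0 < lam * n ^ 2 := by positivity
  rw [hkey] at h4
  nlinarith

private theorem hg_all (T P : H →L[ℂ] H)
    (hP1 : ∀ ξ η : H, ⟪P ξ, η⟫_ℂ = ⟪ξ, P η⟫_ℂ) (hP2 : ∀ ξ, P (P ξ) = P ξ) {lam δ : ℝ}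
    (hδ0 : 0 ≤ δ) (hδ : δ ≤ lam)
    (h1 : ∀ ξ, P ξ = ξ → δ * ‖ξ‖ ≤ ‖P (ξ - T ξ) - (lam : ℂ) • ξ‖) (ξ : H) :
    δ * ‖ξ‖ ≤ ‖P (P ξ - T (P ξ)) - (lam : ℂ) • ξ‖ := by
  obtain ⟨v, hv⟩ : ∃ v, v = P (P ξ - T (P ξ)) - (lam : ℂ) • P ξ := ⟨_, rfl⟩
  obtain ⟨η, hη⟩ : ∃ η, η = ξ - P ξ := ⟨_, rfl⟩
  have hPη : P η = 0 := by rw [hη, map_sub, hP2, sub_self]
  have hPv : P v = v := by rw [hv, map_sub, map_smul, hP2, hP2]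
  have e1 : P (P ξ - T (P ξ)) - (lam : ℂ) • ξ = v + (-(lam : ℂ)) • η := by
    rw [hv, hη, smul_sub, neg_smul, neg_smul]
    abel
  have hvη : ⟪v, η⟫_ℂ = 0 := by rw [← hPv, hP1, hPη, inner_zero_right]
  have hξη : ⟪P ξ, η⟫_ℂ = 0 := by rw [hP1, hPη, inner_zero_right]
  have n1 := norm_add_sq_eq_norm_sq_add_norm_sq_of_inner_eq_zero (𝕜 := ℂ) v ((-(lam : ℂ)) • η)
    (by rw [inner_smul_right, hvη, mul_zero])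
  have n2 := norm_add_sq_eq_norm_sq_add_norm_sq_of_inner_eq_zero (𝕜 := ℂ) (P ξ) η hξη
  have e2 : P ξ + η = ξ := by
    rw [hη]
    abel
  rw [e2] at n2
  have n3 : ‖(-(lam : ℂ)) • η‖ = lam * ‖η‖ := by
    rw [norm_smul, norm_neg, Complex.norm_real, Real.norm_of_nonneg (hδ0.trans hδ)]
  have h2 := h1 (P ξ) (hP2 ξ)
  rw [← hv] at h2
  rw [e1]
  refine le_of_sq_le_sq ?_ (norm_nonneg _)
  rw [sq, sq, n1, n3]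
  have h3 : (δ * ‖P ξ‖) * (δ * ‖P ξ‖) ≤ ‖v‖ * ‖v‖ :=
    mul_self_le_mul_self (mul_nonneg hδ0 (norm_nonneg _)) h2
  have h4 : (δ * ‖η‖) * (δ * ‖η‖) ≤ (lam * ‖η‖) * (lam * ‖η‖) :=
    mul_self_le_mul_self (mul_nonneg hδ0 (norm_nonneg _))
      (mul_le_mul_of_nonneg_right hδ (norm_nonneg _))
  have h5 : δ * ‖ξ‖ * (δ * ‖ξ‖) = (δ * ‖P ξ‖) * (δ * ‖P ξ‖) + (δ * ‖η‖) * (δ * ‖η‖) := by
    have : δ * ‖ξ‖ * (δ * ‖ξ‖) = δ * δ * (‖ξ‖ * ‖ξ‖) := by ring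
    rw [this, n2]
    ring
  rw [h5]
  exact add_le_add h3 h4

end hilb

theorem hg_of {c e' : ℝ} (c0 : 0 < c) (c1 : c < 1) (he' : 0 < e') :
    ∃ ψ > 0, ∀ (A : Type u) [CStarAlgebra A] [PartialOrder A] [StarOrderedRing A]
      [TracialVN A] (a : Avg A) (h z Y : A) (κ1 : ℝ) (k : ℕ), GI a h c → 0 ≤ h → Prj z →
      Prj Y → z * Y = Y → 0 ≤ κ1 → (∀ j ≤ k, z * (a.T ^ j) h * z ≤ κ1 • z) → 1 ≤ k →
      4 * k * κ1 / c ≤ 1 / 32 →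
      (∀ B : Bim.{u} A, B.Reg → ∀ ξ : B.H, B.l Y ξ = ξ → B.r Y ξ = ξ →
        (a.pw k).eB B (B.l Y (B.r Y ((a.pw k).TB B ξ))) ≤ ψ * ‖ξ‖ ^ 2) →
      HG a Y (c / 64) e' := by
  obtain ⟨x, hx⟩ : ∃ x, x = min e' (c / 64) := ⟨_, rfl⟩
  have hx0 : 0 < x := by
    rw [hx]
    exact lt_min he' (by positivity)
  have hxe : x ≤ e' := by
    rw [hx]
    exact min_le_left _ _
  have hxc : x ≤ c / 64 := by
    rw [hx]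
    exact min_le_right _ _
  refine ⟨x / 64, by positivity, ?_⟩
  intro A _ _ _ _ a h z Y κ1 k hG hh hz hY hzY hk1 hz1 hk hkk hc B hB ξ hl hr
  have hYz : Y * z = Y := by
    have := congrArg star hzY
    rwa [star_mul, hz.1, hY.1] at this
  obtain ⟨P, hPa⟩ : ∃ P : B.H →L[ℂ] B.H, ∀ η, P η = B.l Y (B.r Y η) :=
    ⟨B.l Y * B.r Y, fun η => rfl⟩
  have hP1 : ∀ ξ η : B.H, ⟪P ξ, η⟫_ℂ = ⟪ξ, P η⟫_ℂ := by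
    intro ξ η
    rw [hPa, hPa, B.inner_l, B.inner_r, hY.1, ← B.l_r]
  have hP2 : ∀ ξ : B.H, P (P ξ) = P ξ := by
    intro ξ
    rw [hPa (P ξ), hPa ξ, ← B.l_r Y Y (B.r Y ξ), ← B.l_mul, hY.2, ← B.r_mul, hY.2]
  have hP3 : ∀ ξ : B.H, ‖P ξ‖ ≤ ‖ξ‖ := by
    intro ξ
    have h1 : ‖P ξ‖ ^ 2 = (⟪ξ, P ξ⟫_ℂ).re := by
      have h2 : ⟪P ξ, P ξ⟫_ℂ = ⟪ξ, P ξ⟫_ℂ := by rw [hP1, hP2]
      rw [← h2, inner_self_eq_norm_sq_to_K]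
      norm_cast
    have h2 : (⟪ξ, P ξ⟫_ℂ).re ≤ ‖ξ‖ * ‖P ξ‖ :=
      (Complex.re_le_norm _).trans (norm_inner_le_norm _ _)
    rcases (norm_nonneg (P ξ)).lt_or_eq with h3 | h3
    · nlinarith
    · rw [← h3]
      exact norm_nonneg _
  have hlr : ∀ η : B.H, P η = η → B.l Y η = η ∧ B.r Y η = η := by
    intro η hη
    constructor
    · rw [← hη, hPa, ← B.l_mul, hY.2]
    · rw [← hη, hPa, ← B.l_r, ← B.r_mul, hY.2]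
  obtain ⟨S, hS⟩ : ∃ S : B.H →L[ℂ] B.H, ∀ η, S η = P (P η - B.T a (P η)) :=
    ⟨P * (1 - B.T a) * P, fun η => rfl⟩
  have hSs : ∀ ξ η : B.H, ⟪S ξ, η⟫_ℂ = ⟪ξ, S η⟫_ℂ := by
    intro ξ η
    rw [hS, hS, hP1, inner_sub_left, B.T_symm, ← inner_sub_right, hP1]
  have hcore : ∀ lam : ℝ, x ≤ lam → lam ≤ c / 32 → ∀ η : B.H,
      x / 16 * ‖η‖ ≤ ‖S η - (lam : ℂ) • η‖ := by
    intro lam hxl hly η
    rw [hS]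
    refine hg_all (B.T a) P hP1 hP2 (by positivity) (by linarith) ?_ η
    intro ζ hζ
    refine hg_core (B.T a) P hP1 hP2 hP3 (B.en a) (B.en_eq a) ?_ (fun ξ => (B.T a ^ k) ξ) ?_ c0
      ?_ ?_ hx0 hxl hly hxc hζ
    · intro ξ η
      exact (Complex.re_le_norm _).trans (B.inner_sub_T_le a ξ η)
    · intro ξ
      have h1 := (a.pw k).norm_TB_le B ξ
      rwa [a.pw_TB k B] at h1
    · intro η hη
      obtain ⟨hlY, hrY⟩ := hlr η hη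
      have lz : B.l z η = η := by
        conv_lhs => rw [← hlY]
        rw [← B.l_mul, hzY, hlY]
      have rz : B.r z η = η := by
        conv_lhs => rw [← hrY]
        rw [← B.r_mul, hYz, hrY]
      have h1 := dist_le hG hh c0 c1 hz hk1 hz1 B hB lz rz
      refine h1.trans ?_
      have h2 : 4 * (k : ℝ) * κ1 / c * ‖η‖ ^ 2 ≤ 1 / 32 * ‖η‖ ^ 2 :=
        mul_le_mul_of_nonneg_right hkk (by positivity)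
      linarith
    · intro η hη
      obtain ⟨hlY, hrY⟩ := hlr η hη
      have h1 := hc B hB η hlY hrY
      rw [a.pw_TB k B, ← hPa] at h1
      exact (a.en_le_eB_pw hk B _).trans h1
  have hPξ : P ξ = ξ := by rw [hPa, hr, hl]
  have hwin := gap_window S hSs (x := x) (y := c / 32) (δ := x / 16) (by linarith)
    (by positivity) hcore ξ
  have hSξ : S ξ = ξ - B.l Y (B.r Y (B.T a ξ)) := by
    rw [hS, hPξ, map_sub, hPξ, hPa]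
  have hen : (⟪ξ, S ξ⟫_ℂ).re = B.en a ξ := by
    rw [hS, hPξ, ← hP1, hPξ, ← B.en_eq]
  rw [hen, hSξ] at hwin
  have he0 := B.en_nonneg a ξ
  have hn2 : 0 ≤ ‖ξ‖ ^ 2 := by positivity
  have h1 : c / 64 * B.en a ξ ≤ (x + c / 32) * B.en a ξ :=
    mul_le_mul_of_nonneg_right (by linarith) he0
  have h2 : x * (c / 32) * ‖ξ‖ ^ 2 ≤ e' * ‖ξ‖ ^ 2 := by
    refine mul_le_mul_of_nonneg_right ?_ hn2
    nlinarith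
  linarith

end Pool.Agent.PTH
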