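import Pool.Agent.PTH.TbG

/-!
# Toolbox: (LL) and (LW) for a finite weighted family of unitaries

Proof of both: `stp_cen`, `stp_sq`, and `S_n = stp x (1/(n+1)) (K(n+1)) → x` in norm.
-/

open Filter Topology

namespace Pool.Agent.PTH

open TrAlg

variable {N : Type*} [CStarAlgebra N] [PartialOrder N] [StarOrderedRing N] [TracialVN N]
variable {ι : Type*} [Fintype ι] {p : ι → ℝ} {u : ι → N}

/-- LEVEL LEMMA for a family. -/
theorem LL_fam (hp : ∀ i, 0 ≤ p i) (hs : ∑ i, p i = 1) (hu : ∀ i, star (u i) * u i = 1)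
    (hu' : ∀ i, u i * star (u i) = 1) {x y : N} (hx : 0 ≤ x) {c : ℝ} (hc : 0 ≤ c)
    (h : rt (y * (x * x)) + c * (2 * (two x * Real.sqrt (cen p u x))) < 0) :
    ∃ t > 0, rt (y * spr x t) + c * cen p u (spr x t) < 0 := by
  by_contra hcon
  push Not at hcon
  obtain ⟨K, -, hK⟩ := stp_approx hx
  have hlim := stp_approx_tendsto hK
  set S : ℕ → N := fun n => stp x (1 / ((n : ℝ) + 1)) (K * (n + 1)) with hS
  have h1 : ∀ n, 0 ≤ rt (y * (S n * S n)) + c * (2 * (two (S n) * Real.sqrt (cen p u (S n)))) := by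
    intro n
    have hδ : (0 : ℝ) < 1 / ((n : ℝ) + 1) := by positivity
    have h2 := stp_cen hp hs hu hu' (IsSelfAdjoint.of_nonneg hx) hδ.le (K * (n + 1))
    have h3 : 0 ≤ ∑ k ∈ Finset.range (K * (n + 1)), ((1 / ((n : ℝ) + 1)) ^ 2 * (2 * (k : ℝ) + 1)) *
        (rt (y * spr x (((k : ℝ) + 1) * (1 / ((n : ℝ) + 1)))) +
          c * cen p u (spr x (((k : ℝ) + 1) * (1 / ((n : ℝ) + 1))))) := by
      refine Finset.sum_nonneg fun k _ => mul_nonneg (by positivity) (hcon _ (by positivity))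
    have h4 : ∑ k ∈ Finset.range (K * (n + 1)), ((1 / ((n : ℝ) + 1)) ^ 2 * (2 * (k : ℝ) + 1)) *
        (rt (y * spr x (((k : ℝ) + 1) * (1 / ((n : ℝ) + 1)))) +
          c * cen p u (spr x (((k : ℝ) + 1) * (1 / ((n : ℝ) + 1))))) =
        rt (y * (S n * S n)) + c * ∑ k ∈ Finset.range (K * (n + 1)),
          ((1 / ((n : ℝ) + 1)) ^ 2 * (2 * (k : ℝ) + 1)) *
            cen p u (spr x (((k : ℝ) + 1) * (1 / ((n : ℝ) + 1)))) := by
      have e := stp_sq x (δ := 1 / ((n : ℝ) + 1)) hδ.le (K * (n + 1))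
      rw [hS]
      simp only
      rw [e, Finset.mul_sum, rt_sum, Finset.mul_sum, ← Finset.sum_add_distrib]
      refine Finset.sum_congr rfl fun k _ => ?_
      rw [mul_smul_comm, rt_smul]
      ring
    rw [h4] at h3
    refine h3.trans ?_
    gcongr
  have hcont : Continuous fun z : N => rt (y * (z * z)) +
      c * (2 * (two z * Real.sqrt (cen p u z))) := by
    have c1 := continuous_rt (N := N)
    have c2 := continuous_two (N := N)
    have c3 := continuous_cen (N := N) (p := p) (u := u)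
    fun_prop
  have h5 := (hcont.tendsto x).comp hlim
  exact absurd (ge_of_tendsto' h5 h1) (not_le.2 h)

theorem LL_fam_ne_zero {x y : N} {c t : ℝ} (h : rt (y * spr x t) + c * cen p u (spr x t) < 0) :
    spr x t ≠ 0 := by
  intro h0
  rw [h0, mul_zero, rt_zero, zero_add, cen_zero, mul_zero] at h
  exact lt_irrefl _ h

/-- If `cen x = 0` then every `spr x t` has `cen = 0`. -/
theorem cen_spr_eq_zero (hp : ∀ i, 0 ≤ p i) (hu : ∀ i, star (u i) * u i = 1)
    (hu' : ∀ i, u i * star (u i) = 1) {x : N} (hx : IsSelfAdjoint x) (h : cen p u x = 0) (t : ℝ) :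
    cen p u (spr x t) = 0 := by
  have h1 := (Finset.sum_eq_zero_iff_of_nonneg
    (fun i _ => mul_nonneg (hp i) (sq_nonneg _))).1 h
  refine Finset.sum_eq_zero fun i hi => ?_
  rcases mul_eq_zero.1 (h1 i hi) with h2 | h2
  · rw [h2, zero_mul]
  · have h3 := two_eq_zero (pow_eq_zero_iff (two_ne_zero) |>.1 h2)
    rw [sub_eq_zero] at h3
    have h4 : spr (u i * x * star (u i)) t = u i * spr x t * star (u i) :=
      spr_conj (hu i) (hu' i) hx t
    rw [← h4, h3, sub_self, two_zero]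
    simp

/-- LEVEL LEMMA in a window for a family. -/
theorem LW_fam (hp : ∀ i, 0 ≤ p i) (hs : ∑ i, p i = 1) (hu : ∀ i, star (u i) * u i = 1)
    (hu' : ∀ i, u i * star (u i) = 1) {x : N} (hx : 0 ≤ x) {s s' : ℝ} (hs0 : 0 < s)
    (hss : s < s') :
    ∃ t, s ≤ t ∧ t ≤ s' ∧
      cen p u (spr x t) ≤ 2 / (s * (s' - s)) * (two x * Real.sqrt (cen p u x)) := by
  have hd : 0 < s' - s := sub_pos.2 hss
  set M : ℝ := two x * Real.sqrt (cen p u x) with hM
  have hM0 : 0 ≤ M := mul_nonneg (two_nonneg _) (Real.sqrt_nonneg _)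
  rcases hM0.eq_or_lt with h0 | h0
  · -- trivial case
    rcases mul_eq_zero.1 (hM ▸ h0.symm) with h1 | h1
    · refine ⟨s, le_rfl, hss.le, ?_⟩
      have hx0 := two_eq_zero h1
      have h2 : cen p u x = 0 := by rw [hx0, cen_zero]
      rw [cen_spr_eq_zero hp hu hu' (IsSelfAdjoint.of_nonneg hx) h2, ← h0, mul_zero]
    · refine ⟨s, le_rfl, hss.le, ?_⟩
      have h2 : cen p u x = 0 := (Real.sqrt_eq_zero (cen_nonneg hp x)).1 h1
      rw [cen_spr_eq_zero hp hu hu' (IsSelfAdjoint.of_nonneg hx) h2, ← h0, mul_zero]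
  by_contra hcon
  push Not at hcon
  obtain ⟨K, hKx, hK⟩ := stp_approx hx
  have hlim := stp_approx_tendsto hK
  set B : ℝ := 2 / (s * (s' - s)) * M with hB
  have hB0 : 0 < B := by positivity
  -- `s' < K`
  have hsK : s' ≤ K := by
    by_contra hK'
    push Not at hK'
    have h1 := hcon s' hss.le le_rfl
    have h2 : ‖x‖ ≤ K := hKx
    have h3 : spr x s' = 0 := spr_eq_zero (IsSelfAdjoint.of_nonneg hx)
      ((le_norm_smul_one (IsSelfAdjoint.of_nonneg hx)).trans
        (smul_le_smul_of_nonneg_right (h2.trans hK'.le) zero_le_one))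
    rw [h3, cen_zero] at h1
    exact absurd h1 (not_lt.2 hB0.le)
  set S : ℕ → N := fun n => stp x (1 / ((n : ℝ) + 1)) (K * (n + 1)) with hS
  have hmain : ∀ n : ℕ, 1 / ((n : ℝ) + 1) ≤ s' →
      B * ((s' - 1 / ((n : ℝ) + 1)) ^ 2 - s ^ 2) ≤ 2 * (two (S n) * Real.sqrt (cen p u (S n))) := by
    intro n hn
    set δ : ℝ := 1 / ((n : ℝ) + 1) with hδd
    have hn1 : (0 : ℝ) < (n : ℝ) + 1 := by positivity
    have hδ : 0 < δ := by positivity
    have hδn : ((n : ℝ) + 1) * δ = 1 := by rw [hδd]; field_simp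
    have h2 := stp_cen hp hs hu hu' (IsSelfAdjoint.of_nonneg hx) hδ.le (K * (n + 1))
    refine le_trans ?_ h2
    set a : ℕ := ⌊s * ((n : ℝ) + 1)⌋₊ with ha
    set b : ℕ := ⌊s' * ((n : ℝ) + 1)⌋₊ with hb
    have hale : (a : ℝ) ≤ s * (n + 1) := Nat.floor_le (by positivity)
    have halt : s * (n + 1) < a + 1 := Nat.lt_floor_add_one _
    have hs'0 : 0 < s' := hs0.trans hss
    have hble : (b : ℝ) ≤ s' * (n + 1) := Nat.floor_le (by positivity)
    have hblt : s' * (n + 1) < b + 1 := Nat.lt_floor_add_one _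
    have hab : a ≤ b := Nat.floor_mono (by gcongr)
    have hbK : b ≤ K * (n + 1) := by
      have : (b : ℝ) ≤ ((K * (n + 1) : ℕ) : ℝ) := by
        push_cast
        exact hble.trans (by gcongr)
      exact_mod_cast this
    have hsub : Finset.Ico a b ⊆ Finset.range (K * (n + 1)) := by
      intro k hk
      rw [Finset.mem_Ico] at hk
      rw [Finset.mem_range]
      omega
    have h3 : ∑ k ∈ Finset.Ico a b, (δ ^ 2 * (2 * (k : ℝ) + 1)) * B ≤
        ∑ k ∈ Finset.range (K * (n + 1)), (δ ^ 2 * (2 * (k : ℝ) + 1)) *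
          cen p u (spr x (((k : ℝ) + 1) * δ)) := by
      refine le_trans (Finset.sum_le_sum fun k hk => ?_) (Finset.sum_le_sum_of_subset_of_nonneg hsub
        fun k _ _ => mul_nonneg (by positivity) (cen_nonneg hp _))
      rw [Finset.mem_Ico] at hk
      have hk1 : (a : ℝ) ≤ k := by exact_mod_cast hk.1
      have hk2 : (k : ℝ) + 1 ≤ b := by exact_mod_cast hk.2
      refine mul_le_mul_of_nonneg_left (hcon _ ?_ ?_).le (by positivity)
      · have : s * (((n : ℝ) + 1) * δ) ≤ ((k : ℝ) + 1) * δ := by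
          rw [← mul_assoc]
          exact mul_le_mul_of_nonneg_right (by linarith) hδ.le
        rwa [hδn, mul_one] at this
      · have : ((k : ℝ) + 1) * δ ≤ s' * (((n : ℝ) + 1) * δ) := by
          rw [← mul_assoc]
          exact mul_le_mul_of_nonneg_right (by linarith) hδ.le
        rwa [hδn, mul_one] at this
    refine le_trans ?_ h3
    have h4 : ∀ j : ℕ, ∑ k ∈ Finset.range j, (2 * (k : ℝ) + 1) = (j : ℝ) ^ 2 := by
      intro j
      induction j with
      | zero => simp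
      | succ j ih => rw [Finset.sum_range_succ, ih]; push_cast; ring
    have h5 : ∑ k ∈ Finset.Ico a b, (δ ^ 2 * (2 * (k : ℝ) + 1)) * B =
        B * ((δ * b) ^ 2 - (δ * a) ^ 2) := by
      have h6 : ∑ k ∈ Finset.Ico a b, (2 * (k : ℝ) + 1) = (b : ℝ) ^ 2 - (a : ℝ) ^ 2 := by
        rw [Finset.sum_Ico_eq_sub _ hab, h4, h4]
      rw [← Finset.sum_mul, ← Finset.mul_sum, h6]
      ring
    rw [h5]
    refine mul_le_mul_of_nonneg_left ?_ hB0.le
    have h7 : s' - δ ≤ δ * b := by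
      have : s' * (((n : ℝ) + 1) * δ) ≤ ((b : ℝ) + 1) * δ := by
        rw [← mul_assoc]
        exact mul_le_mul_of_nonneg_right hblt.le hδ.le
      rw [hδn, mul_one] at this
      linarith
    have h8 : δ * a ≤ s := by
      have : (a : ℝ) * δ ≤ s * (((n : ℝ) + 1) * δ) := by
        rw [← mul_assoc]
        exact mul_le_mul_of_nonneg_right hale hδ.le
      rw [hδn, mul_one] at this
      linarith
    have h9 : (s' - δ) ^ 2 ≤ (δ * b) ^ 2 := pow_le_pow_left₀ (by linarith) h7 2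
    have h10 : (δ * a) ^ 2 ≤ s ^ 2 := pow_le_pow_left₀ (by positivity) h8 2
    linarith
  have hcont : Continuous fun z : N => 2 * (two z * Real.sqrt (cen p u z)) := by
    have c2 := continuous_two (N := N)
    have c3 := continuous_cen (N := N) (p := p) (u := u)
    fun_prop
  have h5 := (hcont.tendsto x).comp hlim
  have h6 : Tendsto (fun n : ℕ => B * ((s' - 1 / ((n : ℝ) + 1)) ^ 2 - s ^ 2)) atTop
      (𝓝 (B * ((s' - 0) ^ 2 - s ^ 2))) :=
    (((tendsto_const_nhds.sub tendsto_one_div_add_atTop_nhds_zero_nat).pow 2).sub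
      tendsto_const_nhds).const_mul B
  have hev : ∀ᶠ n : ℕ in atTop, 1 / ((n : ℝ) + 1) ≤ s' :=
    tendsto_one_div_add_atTop_nhds_zero_nat.eventually_le_const (hs0.trans hss)
  have h7 := le_of_tendsto_of_tendsto h6 h5 (hev.mono fun n hn => hmain n hn)
  rw [sub_zero] at h7
  have h8 : B * (s' ^ 2 - s ^ 2) ≤ 2 * M := h7
  have h9 : B * (s * (s' - s)) = 2 * M := by
    rw [hB]
    field_simp
  have h10 : s * (s' - s) < s' ^ 2 - s ^ 2 := by nlinarith
  have h11 : B * (s * (s' - s)) < B * (s' ^ 2 - s ^ 2) := mul_lt_mul_of_pos_left h10 hB0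
  linarith

end Pool.Agent.PTH
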