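import Pool.Agent.PTH.Tb8

/-!
# Toolbox: Lipschitz functions (0.5)

PROOF of `two_cfc_sub_le`.  Fix `δ > 0` and `a_k = -R + kδ`, `k = 0..n`, with `R > ‖x‖, ‖y‖`,
`a_n ≥ R`.  `p_k = spr x a_{k} - spr x a_{k+1}` (`k < n`) is an orthogonal resolution of `1`
(`OR`; `spr x a_0 = 1`, `spr x a_n = 0`), same `q_k` for `y`.  On `p_k` (that is for
`a_k < s ≤ a_{k+1}`) `|f s - f a_k| ≤ K δ`, so by Tb5 (`cfc_mul_spr_nonneg`,
`cfc_mul_one_sub_spr_nonneg`; `p_k = spr x a_k * (1 - spr x a_{k+1})`)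
`-Kδ p_k ≤ (f(x) - f(a_k)) p_k ≤ Kδ p_k`; sum over `k`: `‖f(x) - ∑ f(a_k) p_k‖ ≤ Kδ`; in the same
way `‖x - ∑ a_k p_k‖ ≤ δ`.  `joint` twice: `‖∑ f(a_k) p_k - ∑ f(a_l) q_l‖₂ ≤ K ‖∑ a_k p_k -
∑ a_l q_l‖₂`, and `δ → 0`.  (`δ (K + ...)` errors: `two ≤ norm`.)
`two_cfc_sub_le_on`: extend `f` from `S` to a Lipschitz function on `ℝ`
(`LipschitzOnWith.extend_real`), `cfc_congr`.
-/

open Filter Topology
open scoped NNReal

namespace Pool.Agent.PTH

open TrAlg

variable {N : Type*} [CStarAlgebra N] [PartialOrder N] [StarOrderedRing N] [TracialVN N]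

namespace TbLAux

/-- Window projection. -/
noncomputable def win (x : N) (a b : ℝ) : N := spr x a - spr x b

theorem win_prj (x : N) {a b : ℝ} (h : a ≤ b) : Prj (win x a b) :=
  prj_sub (spr_prj x b) (spr_prj x a) (spr_mul_spr' x h)

theorem win_eq (x : N) {a b : ℝ} (h : a ≤ b) : win x a b = spr x a * (1 - spr x b) := by
  rw [win, mul_sub, mul_one, spr_mul_spr x h]

theorem win_comm (x : N) (g : ℝ → ℝ) (a b : ℝ) : cfc g x * win x a b = win x a b * cfc g x := by
  rw [win, mul_sub, sub_mul, (cfc_commute_spr x g a).eq, (cfc_commute_spr x g b).eq]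

theorem cfc_win {x : N} (hx : IsSelfAdjoint x) {f : ℝ → ℝ} (hf : Continuous f) {a b : ℝ}
    (h : a ≤ b) :
    cfc f x * win x a b = cfc (fun s => f (min (max s a) b)) x * win x a b := by
  have h1 : cfc f x * spr x a = cfc (fun s => f (max s a)) x * spr x a :=
    cfc_mul_spr_congr hf.continuousOn (by fun_prop) (fun s _ hs => by
      rw [max_eq_left hs.le])
  have h2 : cfc (fun s => f (max s a)) x * (1 - spr x b) =
      cfc (fun s => f (min (max s a) b)) x * (1 - spr x b) :=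
    cfc_mul_one_sub_spr_congr hx (by fun_prop) (by fun_prop) (fun s _ hs => by
      rw [min_eq_left (max_le hs h)])
  rw [win_eq x h, ← mul_assoc, h1, (cfc_commute_spr x (fun s => f (max s a)) a).eq, mul_assoc, h2,
    ← mul_assoc, ← (cfc_commute_spr x (fun s => f (min (max s a) b)) a).eq, mul_assoc]

theorem conj_win {x : N} {a b : ℝ} (h : a ≤ b) (g : ℝ → ℝ) (c : ℝ) :
    star (win x a b) * (cfc g x - c • (1 : N)) * win x a b =
      cfc g x * win x a b - c • win x a b := by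
  have hp := win_prj x h
  rw [hp.1, mul_sub, sub_mul, ← win_comm, mul_assoc, hp.2, mul_smul_comm, mul_one,
    smul_mul_assoc, hp.2]

theorem smul_win_le {x : N} (hx : IsSelfAdjoint x) {f : ℝ → ℝ} (hf : Continuous f) {a b : ℝ}
    (h : a ≤ b) {c : ℝ} (hc : ∀ s, a ≤ s → s ≤ b → c ≤ f s) :
    c • win x a b ≤ cfc f x * win x a b := by
  rw [cfc_win hx hf h]
  have h1 : c • (1 : N) ≤ cfc (fun s => f (min (max s a) b)) x := by
    have := algebraMap_le_cfc (fun s => f (min (max s a) b)) c x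
      (fun s _ => hc _ (le_min (le_max_right _ _) h) (min_le_right _ _)) (by fun_prop) hx
    rwa [Algebra.algebraMap_eq_smul_one] at this
  have h2 := star_left_conjugate_nonneg (sub_nonneg.2 h1) (win x a b)
  rw [conj_win h] at h2
  exact sub_nonneg.1 h2

theorem win_le_smul {x : N} (hx : IsSelfAdjoint x) {f : ℝ → ℝ} (hf : Continuous f) {a b : ℝ}
    (h : a ≤ b) {c : ℝ} (hc : ∀ s, a ≤ s → s ≤ b → f s ≤ c) :
    cfc f x * win x a b ≤ c • win x a b := by
  rw [cfc_win hx hf h]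
  have h1 : cfc (fun s => f (min (max s a) b)) x ≤ c • (1 : N) := by
    have := cfc_le_algebraMap (fun s => f (min (max s a) b)) c x
      (fun s _ => hc _ (le_min (le_max_right _ _) h) (min_le_right _ _)) (by fun_prop) hx
    rwa [Algebra.algebraMap_eq_smul_one] at this
  have h2 := star_left_conjugate_le_conjugate h1 (win x a b)
  have hp := win_prj x h
  rw [hp.1, ← win_comm, mul_assoc, hp.2, mul_smul_comm, mul_one, smul_mul_assoc, hp.2] at h2
  exact h2

theorem two_le_of_sandwich {z : N} (hz : IsSelfAdjoint z) {c : ℝ} (hc : 0 ≤ c)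
    (h1 : -(c • (1 : N)) ≤ z) (h2 : z ≤ c • (1 : N)) : two z ≤ c := by
  have h3 : 0 ≤ c • (1 : N) - z := sub_nonneg.2 h2
  have h4 : 0 ≤ c • (1 : N) + z := by
    have := sub_nonneg.2 h1
    rwa [sub_neg_eq_add, add_comm] at this
  have h5 := rt_mul_nonneg h3 h4
  have h6 : (c • (1 : N) - z) * (c • (1 : N) + z) = (c ^ 2) • (1 : N) - z * z := by
    rw [sub_mul, mul_add, mul_add, smul_mul_assoc, one_mul, smul_smul, smul_mul_assoc, one_mul,
      mul_smul_comm, mul_one, sq]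
    abel
  rw [h6, rt_sub, rt_smul, rt_one, mul_one, ← two_sq_sa hz] at h5
  exact (pow_le_pow_iff_left₀ (two_nonneg _) hc (by norm_num)).1 (sub_nonneg.1 h5)

/-- The grid. -/
noncomputable def gr (R δ : ℝ) (k : ℕ) : ℝ := -R + k * δ

theorem gr_le {R δ : ℝ} (hδ : 0 ≤ δ) {k l : ℕ} (h : k ≤ l) : gr R δ k ≤ gr R δ l := by
  unfold gr
  have : (k : ℝ) ≤ l := by exact_mod_cast h
  nlinarith

theorem gr_succ (R δ : ℝ) (k : ℕ) : gr R δ (k + 1) = gr R δ k + δ := by
  unfold gr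
  push_cast
  ring

/-- The resolution. -/
noncomputable def pp (x : N) (R δ : ℝ) (n : ℕ) (k : Fin n) : N :=
  win x (gr R δ k) (gr R δ (k + 1))

theorem spr_pp_or {x : N} (hx : IsSelfAdjoint x) {R δ : ℝ} (hδ : 0 ≤ δ) (hR : ‖x‖ < R) (n : ℕ)
    (hn : n * δ = 2 * R) : OR (pp x R δ n) := by
  have hlt : ∀ k l : Fin n, (k : ℕ) < l → pp x R δ n k * pp x R δ n l = 0 := by
    intro k l hkl
    have h1 : gr R δ k ≤ gr R δ l := gr_le hδ hkl.le
    have h2 : gr R δ k ≤ gr R δ (l + 1) := gr_le hδ (by omega)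
    have h3 : gr R δ (k + 1) ≤ gr R δ l := gr_le hδ (by omega)
    have h4 : gr R δ (k + 1) ≤ gr R δ (l + 1) := gr_le hδ (by omega)
    unfold pp win
    rw [sub_mul, mul_sub, mul_sub, spr_mul_spr x h1, spr_mul_spr x h2, spr_mul_spr x h3,
      spr_mul_spr x h4, sub_self]
  have hprj : ∀ k, Prj (pp x R δ n k) := fun k => win_prj x (gr_le hδ (Nat.le_succ _))
  refine ⟨hprj, fun k l hkl => ?_, ?_⟩
  · rcases lt_or_gt_of_ne (fun h => hkl (Fin.ext h) : (k : ℕ) ≠ l) with h | h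
    · exact hlt k l h
    · exact prj_orth_symm (hprj l) (hprj k) (hlt l k h)
  · have h1 : ∑ k, pp x R δ n k = ∑ k ∈ Finset.range n, (spr x (gr R δ k) - spr x (gr R δ (k + 1))) :=
      Fin.sum_univ_eq_sum_range (fun k => spr x (gr R δ k) - spr x (gr R δ (k + 1))) n
    rw [h1, Finset.sum_range_sub']
    have h2 : gr R δ 0 = -R := by unfold gr; push_cast; ring
    have h3 : gr R δ n = R := by unfold gr; rw [hn]; ring
    have h4 : -‖x‖ • (1 : N) ≤ x := by
      have := hx.neg_algebraMap_norm_le_self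
      rwa [Algebra.algebraMap_eq_smul_one, ← neg_smul] at this
    have h5 : x ≤ R • (1 : N) :=
      (le_norm_smul_one hx).trans (smul_le_smul_of_nonneg_right hR.le zero_le_one)
    rw [h2, h3, spr_eq_one hx (neg_lt_neg hR) h4, spr_eq_zero hx h5, sub_zero]

theorem approx {x : N} (hx : IsSelfAdjoint x) {R δ : ℝ} (hδ : 0 ≤ δ) (hR : ‖x‖ < R) (n : ℕ)
    (hn : n * δ = 2 * R) {f : ℝ → ℝ} {K : ℝ≥0} (hf : LipschitzWith K f) :
    two (cfc f x - ∑ k, f (gr R δ (k : Fin n)) • pp x R δ n k) ≤ K * δ := by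
  have hor := spr_pp_or hx hδ hR n hn
  have e1 : cfc f x - ∑ k, f (gr R δ (k : Fin n)) • pp x R δ n k =
      ∑ k, (cfc f x * pp x R δ n k - f (gr R δ (k : Fin n)) • pp x R δ n k) := by
    rw [Finset.sum_sub_distrib, ← Finset.mul_sum, hor.sum, mul_one]
  have hK : 0 ≤ (K : ℝ) * δ := mul_nonneg K.2 hδ
  have hlip : ∀ (k : ℕ) (s : ℝ), gr R δ k ≤ s → s ≤ gr R δ (k + 1) →
      |f s - f (gr R δ k)| ≤ K * δ := by
    intro k s h1 h2
    have h3 := hf.dist_le_mul s (gr R δ k)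
    rw [Real.dist_eq, Real.dist_eq] at h3
    refine h3.trans (mul_le_mul_of_nonneg_left ?_ K.2)
    rw [gr_succ] at h2
    rw [abs_of_nonneg (by linarith)]
    linarith
  have hle : ∀ k : Fin n, cfc f x * pp x R δ n k - f (gr R δ k) • pp x R δ n k ≤
      (K * δ) • pp x R δ n k := by
    intro k
    have h1 := win_le_smul hx hf.continuous (gr_le hδ (Nat.le_succ (k : ℕ)))
      (c := f (gr R δ k) + K * δ) (fun s hs hs' => by
        have := (abs_le.1 (hlip k s hs hs')).2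
        linarith)
    rw [add_smul] at h1
    rw [sub_le_iff_le_add, add_comm ((K * δ : ℝ) • _)]
    exact h1
  have hge : ∀ k : Fin n, -((K * δ) • pp x R δ n k) ≤
      cfc f x * pp x R δ n k - f (gr R δ k) • pp x R δ n k := by
    intro k
    have h1 := smul_win_le hx hf.continuous (gr_le hδ (Nat.le_succ (k : ℕ)))
      (c := f (gr R δ k) - K * δ) (fun s hs hs' => by
        have := (abs_le.1 (hlip k s hs hs')).1
        linarith)
    rw [sub_smul] at h1
    rw [le_sub_iff_add_le, neg_add_eq_sub]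
    exact h1
  have hsa : IsSelfAdjoint (cfc f x - ∑ k, f (gr R δ (k : Fin n)) • pp x R δ n k) := by
    refine IsSelfAdjoint.sub (cfc_predicate f x) ?_
    rw [IsSelfAdjoint, star_sum]
    refine Finset.sum_congr rfl fun k _ => ?_
    rw [star_smul, star_trivial, (hor.prj k).1]
  refine two_le_of_sandwich hsa hK ?_ ?_
  · rw [e1]
    have h2 : -((K * δ : ℝ) • (1 : N)) = ∑ k, -((K * δ : ℝ) • pp x R δ n k) := by
      rw [Finset.sum_neg_distrib, ← Finset.smul_sum, hor.sum]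
    rw [h2]
    exact Finset.sum_le_sum fun k _ => hge k
  · rw [e1]
    have h2 : (K * δ : ℝ) • (1 : N) = ∑ k, (K * δ : ℝ) • pp x R δ n k := by
      rw [← Finset.smul_sum, hor.sum]
    rw [h2]
    exact Finset.sum_le_sum fun k _ => hle k

theorem step {x y : N} (hx : IsSelfAdjoint x) (hy : IsSelfAdjoint y) {R δ : ℝ} (hδ : 0 ≤ δ)
    (hRx : ‖x‖ < R) (hRy : ‖y‖ < R) (n : ℕ) (hn : n * δ = 2 * R) {f : ℝ → ℝ} {K : ℝ≥0}
    (hf : LipschitzWith K f) :
    two (cfc f x - cfc f y) ≤ K * two (x - y) + 4 * K * δ := by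
  have ox := spr_pp_or hx hδ hRx n hn
  have oy := spr_pp_or hy hδ hRy n hn
  have j1 := joint ox oy (fun k => f (gr R δ k)) (fun k => f (gr R δ k))
  have j2 := joint ox oy (fun k => gr R δ k) (fun k => gr R δ k)
  have h1 := approx hx hδ hRx n hn hf
  have h2 := approx hy hδ hRy n hn hf
  have h3 := approx hx hδ hRx n hn (LipschitzWith.id (α := ℝ))
  have h4 := approx hy hδ hRy n hn (LipschitzWith.id (α := ℝ))
  rw [cfc_id ℝ x] at h3
  rw [cfc_id ℝ y] at h4
  simp only [id_eq, NNReal.coe_one, one_mul] at h3 h4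
  set X' : N := ∑ k, gr R δ (k : Fin n) • pp x R δ n k with hX'
  set Y' : N := ∑ k, gr R δ (k : Fin n) • pp y R δ n k with hY'
  set FX : N := ∑ k, f (gr R δ (k : Fin n)) • pp x R δ n k with hFX
  set FY : N := ∑ k, f (gr R δ (k : Fin n)) • pp y R δ n k with hFY
  have h5 : two (FX - FY) ^ 2 ≤ (K * two (X' - Y')) ^ 2 := by
    rw [j1, mul_pow, j2, Finset.mul_sum]
    refine Finset.sum_le_sum fun i _ => ?_
    rw [Finset.mul_sum]
    refine Finset.sum_le_sum fun j _ => ?_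
    rw [← mul_assoc]
    refine mul_le_mul_of_nonneg_right ?_
      (rt_mul_nonneg (proj_nonneg (ox.prj i)) (proj_nonneg (oy.prj j)))
    have h6 := hf.dist_le_mul (gr R δ i) (gr R δ j)
    rw [Real.dist_eq, Real.dist_eq] at h6
    rw [← sq_abs, ← sq_abs (gr R δ i - gr R δ j), ← mul_pow]
    exact pow_le_pow_left₀ (abs_nonneg _) h6 2
  have h7 : two (FX - FY) ≤ K * two (X' - Y') :=
    (pow_le_pow_iff_left₀ (two_nonneg _) (mul_nonneg K.2 (two_nonneg _)) (by norm_num)).1 h5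
  have h8 : two (X' - Y') ≤ two (x - y) + 2 * δ := by
    have a1 := two_sub_le_sub X' x Y'
    have a2 := two_sub_le_sub x y Y'
    rw [two_sub_comm X' x] at a1
    linarith
  have h9 : two (cfc f x - cfc f y) ≤ 2 * (K * δ) + two (FX - FY) := by
    have a1 := two_sub_le_sub (cfc f x) FX (cfc f y)
    have a2 := two_sub_le_sub FX FY (cfc f y)
    rw [two_sub_comm FY] at a2
    linarith
  have h10 := mul_le_mul_of_nonneg_left h8 (NNReal.coe_nonneg K)
  have h11 : (K : ℝ) * (two (x - y) + 2 * δ) = K * two (x - y) + 2 * (K * δ) := by ring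
  have h12 : 4 * (K : ℝ) * δ = 4 * (K * δ) := by ring
  rw [h12]
  linarith

end TbLAux

open TbLAux

theorem two_cfc_sub_le {x y : N} (hx : IsSelfAdjoint x) (hy : IsSelfAdjoint y) {f : ℝ → ℝ} {K : ℝ≥0}
    (hf : LipschitzWith K f) : two (cfc f x - cfc f y) ≤ K * two (x - y) := by
  set R : ℝ := max ‖x‖ ‖y‖ + 1 with hR
  have hRx : ‖x‖ < R := lt_of_le_of_lt (le_max_left _ _) (lt_add_one _)
  have hRy : ‖y‖ < R := lt_of_le_of_lt (le_max_right _ _) (lt_add_one _)
  have hR0 : 0 < R := lt_of_le_of_lt (norm_nonneg x) hRx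
  have h1 : Tendsto (fun n : ℕ => K * two (x - y) + 4 * K * (2 * R * (1 / ((n : ℝ) + 1)))) atTop
      (𝓝 (K * two (x - y))) := by
    have h2 := ((tendsto_one_div_add_atTop_nhds_zero_nat (𝕜 := ℝ)).const_mul
      (2 * R)).const_mul (4 * (K : ℝ))
    have h3 := h2.const_add ((K : ℝ) * two (x - y))
    rw [mul_zero, mul_zero, add_zero] at h3
    exact h3
  refine ge_of_tendsto' h1 fun n => ?_
  refine step hx hy (R := R) (δ := 2 * R * (1 / ((n : ℝ) + 1))) (by positivity) hRx hRy (n + 1)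
    ?_ hf
  push_cast
  field_simp

theorem two_cfc_sub_le_on {x y : N} (hx : IsSelfAdjoint x) (hy : IsSelfAdjoint y) {f : ℝ → ℝ}
    {K : ℝ≥0} {S : Set ℝ} (hf : LipschitzOnWith K f S) (hxS : spectrum ℝ x ⊆ S)
    (hyS : spectrum ℝ y ⊆ S) : two (cfc f x - cfc f y) ≤ K * two (x - y) := by
  obtain ⟨g, hg, hgS⟩ := hf.extend_real
  have h1 : cfc f x = cfc g x := cfc_congr fun s hs => hgS (hxS hs)
  have h2 : cfc f y = cfc g y := cfc_congr fun s hs => hgS (hyS hs)
  rw [h1, h2]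
  exact two_cfc_sub_le hx hy hg

theorem two_posPart_sub_le {x y : N} (hx : IsSelfAdjoint x) (hy : IsSelfAdjoint y) :
    two (x⁺ - y⁺) ≤ two (x - y) := by
  have h1 : ∀ z : N, z⁺ = cfc (fun s : ℝ => s⁺) z := fun z => by
    rw [CFC.posPart_def]
    exact cfcₙ_eq_cfc
  rw [h1, h1]
  have h2 := two_cfc_sub_le hx hy (f := fun s : ℝ => s⁺) (K := 1) lipschitzWith_posPart
  rwa [NNReal.coe_one, one_mul] at h2

end Pool.Agent.PTH
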