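import Pool.Agent.PTH.Tb7

/-!
# Toolbox: more facts on `spr x t`, elements killing `x`, layers in norm
-/

open Filter Topology

namespace Pool.Agent.PTH

open TrAlg

variable {N : Type*} [CStarAlgebra N] [PartialOrder N] [StarOrderedRing N] [TracialVN N]

/-- `x y = 0` gives `1_{x > t} y = 0` (`x ≥ 0`, `t ≥ 0`). -/
theorem spr_mul_eq_zero {x : N} (hx : 0 ≤ x) {t : ℝ} (ht : 0 ≤ t) {y : N} (h : x * y = 0) :
    spr x t * y = 0 := by
  have hsa := IsSelfAdjoint.of_nonneg hx
  have h1 : ∀ n : ℕ, cfc (rmp t n) x * y = 0 := fun n => by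
    have h2 : cfc (rmp t n) x ≤ (n : ℝ) • x := by
      have h3 : cfc (rmp t n) x ≤ cfc (fun s : ℝ => (n : ℝ) * s) x := by
        refine cfc_mono (fun s hs => ?_) (rmp_cont t n).continuousOn
          (by fun_prop : Continuous fun s : ℝ => (n : ℝ) * s).continuousOn
        have hs0 : 0 ≤ s := spectrum_nonneg_of_nonneg hx hs
        unfold rmp
        refine (min_le_right _ _).trans ?_
        refine mul_le_mul_of_nonneg_left ?_ (Nat.cast_nonneg n)
        exact max_le (by linarith) hs0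
      rwa [cfc_const_mul (n : ℝ) (fun s : ℝ => s) x, cfc_id' ℝ x] at h3
    refine mul_eq_zero_of_le (rmp_cfc_nonneg x t n) h2 ?_
    rw [smul_mul_assoc, h, smul_zero]
  have h2 := lim_mul_right y (spr_tendsto x t)
  refine (lim_unique (l := atTop) (x := fun n => cfc (rmp t n) x * y) h2 ?_)
  simp only [h1]
  exact lim_const 0

/-- `y x = 0` gives `y 1_{x > t} = 0`. -/
theorem mul_spr_eq_zero {x : N} (hx : 0 ≤ x) {t : ℝ} (ht : 0 ≤ t) {y : N} (h : y * x = 0) :
    y * spr x t = 0 := by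
  have h1 : x * star y = 0 := by
    have := congrArg star h
    rwa [star_mul, (IsSelfAdjoint.of_nonneg hx).star_eq, star_zero] at this
  have h2 := congrArg star (spr_mul_eq_zero hx ht h1)
  rwa [star_mul, star_star, spr_sa, star_zero] at h2

/-- `z x = x` gives `z 1_{x > t} = 1_{x > t}`. -/
theorem prj_mul_spr {z x : N} (hx : 0 ≤ x) {t : ℝ} (ht : 0 ≤ t) (hz : z * x = x) :
    z * spr x t = spr x t := by
  have h := mul_spr_eq_zero hx ht (y := 1 - z) (by rw [sub_mul, one_mul, hz, sub_self])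
  rw [sub_mul, one_mul, sub_eq_zero] at h
  exact h.symm

theorem spr_mul_prj {z x : N} (hx : 0 ≤ x) {t : ℝ} (ht : 0 ≤ t) (hz : x * z = x) :
    spr x t * z = spr x t := by
  have h := spr_mul_eq_zero hx ht (y := 1 - z) (by rw [mul_sub, mul_one, hz, sub_self])
  rw [mul_sub, mul_one, sub_eq_zero] at h
  exact h.symm

/-- Layers in norm: `0 ≤ x ≤ 1`. -/
theorem norm_sub_layer_le {x : N} (hx : 0 ≤ x) (hx1 : x ≤ 1) {n : ℕ} (hn : 1 ≤ n) :
    ‖x - (1 / (n : ℝ)) • ∑ j ∈ Finset.range n, spr x (((j : ℝ) + 1) / n)‖ ≤ 1 / n := by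
  have hn' : (0 : ℝ) < n := by exact_mod_cast hn
  have h := norm_stp_sub_le hx (δ := 1 / (n : ℝ)) (by positivity) (m := n) (by
    rw [mul_one_div_cancel hn'.ne', one_smul]
    exact hx1)
  rw [norm_sub_rev] at h
  have e : stp x (1 / (n : ℝ)) n =
      (1 / (n : ℝ)) • ∑ j ∈ Finset.range n, spr x (((j : ℝ) + 1) / n) := by
    unfold stp
    rw [Finset.smul_sum]
    simp only [mul_one_div]
  rwa [e] at h

/-- `1_{x > t} x = x 1_{x > t}`. -/
theorem spr_mul_comm {x : N} (hx : IsSelfAdjoint x) (t : ℝ) : spr x t * x = x * spr x t :=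
  (spr_comm hx (Commute.refl x) t).eq

/-- `(1 - 1_{x > t}) x ≤ t (1 - 1_{x > t})`. -/
theorem one_sub_spr_mul_le {x : N} (hx : IsSelfAdjoint x) (t : ℝ) :
    (1 - spr x t) * x ≤ t • (1 - spr x t) := by
  have h := mul_one_sub_spr_le hx t
  have e : (1 - spr x t) * x = x * (1 - spr x t) := by
    rw [sub_mul, one_mul, mul_sub, mul_one, spr_mul_comm hx]
  rwa [e]

theorem eq_zero_of_rt_mul {x : N} (hx : IsSelfAdjoint x)
    (h : ∀ w : N, IsSelfAdjoint w → rt (x * w) = 0) : x = 0 := by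
  have h1 := h x hx
  rw [← two_sq_sa hx] at h1
  exact two_eq_zero (pow_eq_zero_iff (two_ne_zero) |>.1 h1)

theorem nonneg_of_rt_mul {x : N} (hx : IsSelfAdjoint x) (h : ∀ w : N, 0 ≤ w → 0 ≤ rt (x * w)) :
    0 ≤ x :=
  nonneg_of_rt hx fun a ha => by
    rw [rt_comm]
    exact h a ha

/-- `‖x* x - y* y‖₁ ≤ (‖x‖₂ + ‖y‖₂) ‖x - y‖₂`. -/
theorem one_star_mul_sub_le (x y : N) :
    one (star x * x - star y * y) ≤ (two x + two y) * two (x - y) := by
  have e : star x * x - star y * y = star x * (x - y) + star (x - y) * y := by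
    rw [star_sub]; noncomm_ring
  rw [e]
  refine (one_add_le _ _).trans ?_
  have h1 := one_mul_le_two (star x) (x - y)
  have h2 := one_mul_le_two (star (x - y)) y
  rw [two_star] at h1 h2
  linarith

end Pool.Agent.PTH
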