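import Pool.Agent.PTH.Tb9
import Pool.Agent.PTH.TbL
import Pool.Agent.PTH.TbS
import Pool.Agent.PTH.TbR
import Pool.Agent.PTH.TbC
import Pool.Agent.PTH.TbH
import Pool.Agent.PTH.TbRN
import Pool.Agent.PTH.TbX
import Pool.Agent.PTH.TbGa

/-! # Toolbox (section 0 of t517_v2.md): everything.

* Tb0: real trace `rt`, 2-norm `two`.  Tb1: 1-norm `one`.  Tb2: 2-norm limits, order.
* Tb3: completeness, monotone limits.  TbPj: projections.
* Tb4-Tb6: `spr x t = 1_{x > t}` and the functional calculus.  Tb7: steps, `layer_choice`.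
* Tb8: joint distribution.  Tb9: (LL), (LW).  TbL: (0.5).  TbS: (0.3), (0.4).  TbR: (0.8).
* TbP: supports, polar decomposition.  TbC: comparison.  TbH: projections of every trace.
* TbRN: Radon-Nikodym (0.9).
-/
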