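import Pool.Agent.PTH.RgUa
import Pool.Agent.PTH.TbI

/-!
# PTH / RgLL: level lemmas for word averages

Copies of `stp_en`, `LL`, `LW` of `Tb9` for `W : UA N` (laziness is not used there):
for each `i`, `stp_level (u_i x u_i*) x` and `spr_conj`, `stp_conj`; average with the weights `p_i`,
`two (y' + y) ≤ 2 two y` for `y' = u_i y u_i*`, Cauchy-Schwarz (`UA.sum_two_le`), `UA.en_conj`.

* `LW8`: take `δ = 1/(8 n)`, `m` with `m δ ≥ 1` (`m = 8 n`), `y = stp b δ m`, `‖y - b‖ ≤ δ`,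
  `0 ≤ y ≤ b`.  The indices `k` with `n ≤ k + 1 ≤ 2 n` have `(k+1) δ ∈ [1/8, 1/4]` and
  `∑ δ² (2 k + 1) = ((2n)² - (n-1)²)/(64 n²) ≥ 3/64`.  So some `t = (k+1) δ` has
  `en (spr b t) * (3/64) ≤ two y * √(2 en y) ≤ √(2 en y)`, and
  `√(2 en y) ≤ ω + 2 δ · 2` (`√(2 en y) ≤ √(2 en b) + √(2 en (y - b))`, `en (y-b) ≤ 2 two (y-b)²`; or
  directly by `en_conj` and Minkowski).  For `n` large `(64/3)(ω + 4 δ) ≤ 32 ω`.
* `conj_spr_le`: `0 ≤ b ≤ 1`, `N : ℕ`: `spr b (3/4) ≤ ((4/3) b)^N` (`spr_le_cfc`) and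
  `rt (b^N (1 - spr b t)) ≤ t^N` for `0 ≤ t` (`cfc_mul_one_sub_spr_nonneg` with `t^N - s^N`).
-/

open Filter Topology
open scoped InnerProductSpace ComplexOrder

universe u

namespace Pool.Agent.PTH

variable {A : Type u} [CStarAlgebra A] [PartialOrder A] [StarOrderedRing A] [TracialVN A]

namespace UA

variable (W : UA A)

theorem stp_en {x : A} (hx : 0 ≤ x) {δ : ℝ} (hδ : 0 < δ) (m : ℕ) :
    ∑ k ∈ Finset.range m, (δ ^ 2 * (2 * (k : ℝ) + 1)) * W.en (spr x (((k : ℝ) + 1) * δ)) ≤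
      two (stp x δ m) * Real.sqrt (2 * W.en (stp x δ m)) := by
  have hxs : IsSelfAdjoint x := IsSelfAdjoint.of_nonneg hx
  have h1 : ∀ i, ∑ k ∈ Finset.range m, (δ ^ 2 * (2 * (k : ℝ) + 1)) *
      two (W.u i * spr x (((k : ℝ) + 1) * δ) * star (W.u i) - spr x (((k : ℝ) + 1) * δ)) ^ 2 ≤
      two (W.u i * stp x δ m * star (W.u i) - stp x δ m) * (2 * two (stp x δ m)) := by
    intro i
    have h2 := stp_level (W.u i * x * star (W.u i)) x hδ.le m
    rw [stp_conj (W.u_star_mul i) (W.u_mul_star i) hxs] at h2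
    have h3 : two (W.u i * stp x δ m * star (W.u i) + stp x δ m) ≤ 2 * two (stp x δ m) := by
      refine (two_add_le _ _).trans ?_
      rw [two_mul_unitary (u := star (W.u i)) (by rw [star_star]; exact W.u_star_mul i),
        two_unitary_mul (W.u_star_mul i)]
      linarith
    refine le_trans (le_of_eq ?_) (h2.trans (mul_le_mul_of_nonneg_left h3 (two_nonneg _)))
    refine Finset.sum_congr rfl fun k _ => ?_
    rw [spr_conj (W.u_star_mul i) (W.u_mul_star i) hxs]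
  have h4 : ∑ k ∈ Finset.range m, (δ ^ 2 * (2 * (k : ℝ) + 1)) * W.en (spr x (((k : ℝ) + 1) * δ)) =
      1 / 2 * ∑ i, W.p i * ∑ k ∈ Finset.range m, (δ ^ 2 * (2 * (k : ℝ) + 1)) *
      two (W.u i * spr x (((k : ℝ) + 1) * δ) * star (W.u i) - spr x (((k : ℝ) + 1) * δ)) ^ 2 := by
    have h5 : ∀ k ∈ Finset.range m, (δ ^ 2 * (2 * (k : ℝ) + 1)) * W.en (spr x (((k : ℝ) + 1) * δ)) =
        ∑ i, 1 / 2 * (W.p i * ((δ ^ 2 * (2 * (k : ℝ) + 1)) *
          two (W.u i * spr x (((k : ℝ) + 1) * δ) * star (W.u i) -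
            spr x (((k : ℝ) + 1) * δ)) ^ 2)) := by
      intro k _
      rw [W.en_conj, Finset.mul_sum, Finset.mul_sum]
      refine Finset.sum_congr rfl fun i _ => ?_
      ring
    rw [Finset.sum_congr rfl h5, Finset.sum_comm, Finset.mul_sum]
    refine Finset.sum_congr rfl fun i _ => ?_
    rw [Finset.mul_sum, Finset.mul_sum]
  rw [h4]
  have h6 : ∑ i, W.p i * ∑ k ∈ Finset.range m, (δ ^ 2 * (2 * (k : ℝ) + 1)) *
      two (W.u i * spr x (((k : ℝ) + 1) * δ) * star (W.u i) - spr x (((k : ℝ) + 1) * δ)) ^ 2 ≤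
      ∑ i, (2 * two (stp x δ m)) *
        (W.p i * two (W.u i * stp x δ m * star (W.u i) - stp x δ m)) := by
    refine Finset.sum_le_sum fun i _ => ?_
    have h7 := mul_le_mul_of_nonneg_left (h1 i) (W.p_nonneg i)
    refine h7.trans (le_of_eq ?_)
    ring
  rw [← Finset.mul_sum] at h6
  have h8 := mul_le_mul_of_nonneg_left (W.sum_two_le (stp x δ m))
    (mul_nonneg zero_le_two (two_nonneg (stp x δ m)))
  linarith

private theorem en_tendsto {x : ℕ → A} {y : A}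
    (h : Tendsto (fun n => two (x n - y)) atTop (𝓝 0)) :
    Tendsto (fun n => W.en (x n)) atTop (𝓝 (W.en y)) := by
  unfold UA.en
  refine Tendsto.const_mul _ (tendsto_finsetSum _ fun i _ => ?_)
  refine Tendsto.const_mul _ ?_
  exact (lim_two (lim_sub (lim_mul_left (W.u i) h) (lim_mul_right (W.u i) h))).pow 2

private theorem stp_tendsto {x : A} (hx : 0 ≤ x) {M : ℕ} (hM : x ≤ (M : ℝ) • (1 : A)) :
    Tendsto (fun n : ℕ => two (stp x (1 / ((n : ℝ) + 1)) ((n + 1) * M) - x)) atTop (𝓝 0) := by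
  refine lim_of_norm ?_
  refine squeeze_zero (fun _ => norm_nonneg _) (fun n => ?_) tendsto_one_div_add_atTop_nhds_zero_nat
  refine norm_stp_sub_le hx (by positivity) ?_
  have h1 : (((n + 1) * M : ℕ) : ℝ) * (1 / ((n : ℝ) + 1)) = M := by
    have : (n : ℝ) + 1 ≠ 0 := by positivity
    push_cast
    field_simp
  rw [h1]
  exact hM

private theorem bd_tendsto {x : ℕ → A} {y : A}
    (h : Tendsto (fun n => two (x n - y)) atTop (𝓝 0)) :
    Tendsto (fun n => two (x n) * Real.sqrt (2 * W.en (x n))) atTop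
      (𝓝 (two y * Real.sqrt (2 * W.en y))) :=
  (lim_two h).mul ((Real.continuous_sqrt.tendsto _).comp ((en_tendsto W h).const_mul 2))

theorem LL {x y : A} (hx : 0 ≤ x) {c : ℝ} (hc : 0 ≤ c)
    (h : rt (y * (x * x)) + c * (two x * Real.sqrt (2 * W.en x)) < 0) :
    ∃ t > 0, rt (y * spr x t) + c * W.en (spr x t) < 0 := by
  by_contra hcon
  have hall : ∀ t > 0, 0 ≤ rt (y * spr x t) + c * W.en (spr x t) := by
    intro t ht
    by_contra h1
    exact hcon ⟨t, ht, not_le.1 h1⟩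
  obtain ⟨M, hM⟩ := exists_nat_ge ‖x‖
  have hxM : x ≤ (M : ℝ) • (1 : A) :=
    (le_norm_smul_one (IsSelfAdjoint.of_nonneg hx)).trans
      (smul_le_smul_of_nonneg_right hM zero_le_one)
  have hl := stp_tendsto hx hxM
  have hC : ∀ n : ℕ, ‖stp x (1 / ((n : ℝ) + 1)) ((n + 1) * M)‖ ≤ ‖x‖ := fun n =>
    CStarAlgebra.norm_le_norm_of_nonneg_of_le (stp_nonneg x (by positivity) _)
      (stp_le hx (by positivity) _)
  have h1 := (lim_rt_mul y (lim_mul hC hl hl)).add ((bd_tendsto W hl).const_mul c)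
  have h2 : 0 ≤ rt (y * (x * x)) + c * (two x * Real.sqrt (2 * W.en x)) := by
    refine ge_of_tendsto' h1 fun n => ?_
    have hd : (0 : ℝ) < 1 / ((n : ℝ) + 1) := by positivity
    have h3 := W.stp_en hx hd ((n + 1) * M)
    have h4 := mul_le_mul_of_nonneg_left h3 hc
    have h5 : rt (y * (stp x (1 / ((n : ℝ) + 1)) ((n + 1) * M) *
        stp x (1 / ((n : ℝ) + 1)) ((n + 1) * M))) =
        ∑ k ∈ Finset.range ((n + 1) * M), ((1 / ((n : ℝ) + 1)) ^ 2 * (2 * (k : ℝ) + 1)) *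
          rt (y * spr x (((k : ℝ) + 1) * (1 / ((n : ℝ) + 1)))) := by
      rw [stp_sq _ hd.le, Finset.mul_sum, rt_sum]
      refine Finset.sum_congr rfl fun k _ => ?_
      rw [mul_smul_comm, rt_smul]
    have h6 : 0 ≤ ∑ k ∈ Finset.range ((n + 1) * M), ((1 / ((n : ℝ) + 1)) ^ 2 * (2 * (k : ℝ) + 1)) *
        (rt (y * spr x (((k : ℝ) + 1) * (1 / ((n : ℝ) + 1)))) +
          c * W.en (spr x (((k : ℝ) + 1) * (1 / ((n : ℝ) + 1))))) :=
      Finset.sum_nonneg fun k _ => mul_nonneg (by positivity) (hall _ (by positivity))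
    have h7 : ∑ k ∈ Finset.range ((n + 1) * M), ((1 / ((n : ℝ) + 1)) ^ 2 * (2 * (k : ℝ) + 1)) *
        (rt (y * spr x (((k : ℝ) + 1) * (1 / ((n : ℝ) + 1)))) +
          c * W.en (spr x (((k : ℝ) + 1) * (1 / ((n : ℝ) + 1))))) =
        ∑ k ∈ Finset.range ((n + 1) * M), ((1 / ((n : ℝ) + 1)) ^ 2 * (2 * (k : ℝ) + 1)) *
          rt (y * spr x (((k : ℝ) + 1) * (1 / ((n : ℝ) + 1)))) +
        c * ∑ k ∈ Finset.range ((n + 1) * M), ((1 / ((n : ℝ) + 1)) ^ 2 * (2 * (k : ℝ) + 1)) *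
          W.en (spr x (((k : ℝ) + 1) * (1 / ((n : ℝ) + 1)))) := by
      rw [Finset.mul_sum, ← Finset.sum_add_distrib]
      refine Finset.sum_congr rfl fun k _ => ?_
      ring
    rw [h5]
    rw [h7] at h6
    linarith
  linarith

private theorem sum_odd (m : ℕ) : ∑ k ∈ Finset.range m, (2 * (k : ℝ) + 1) = (m : ℝ) ^ 2 := by
  induction m with
  | zero => simp
  | succ m ih =>
    rw [Finset.sum_range_succ, ih]
    push_cast
    ring

theorem LW8 {b : A} (hb : 0 ≤ b) (hb1 : b ≤ 1) {ω : ℝ} (hω : 0 < ω)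
    (h : Real.sqrt (2 * W.en b) ≤ ω) :
    ∃ t, 1 / 8 ≤ t ∧ t ≤ 1 / 4 ∧ W.en (spr b t) ≤ 32 * ω := by
  by_contra hcon
  have hall : ∀ t, 1 / 8 ≤ t → t ≤ 1 / 4 → 32 * ω ≤ W.en (spr b t) := by
    intro t h1 h2
    by_contra h3
    exact hcon ⟨t, h1, h2, (not_le.1 h3).le⟩
  have hM : b ≤ ((1 : ℕ) : ℝ) • (1 : A) := by
    rw [Nat.cast_one, one_smul]
    exact hb1
  have hφ : Tendsto (fun n : ℕ => 8 * n + 7) atTop atTop := by
    refine tendsto_atTop_mono (fun n => ?_) tendsto_id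
    simp only [id]
    omega
  have hlim := (bd_tendsto W (stp_tendsto hb hM)).comp hφ
  have hge : 3 / 2 * ω ≤ two b * Real.sqrt (2 * W.en b) := by
    refine ge_of_tendsto' hlim fun n => ?_
    simp only [Function.comp]
    have hd : (0 : ℝ) < 1 / (((8 * n + 7 : ℕ) : ℝ) + 1) := by positivity
    refine le_trans ?_ (W.stp_en hb hd ((8 * n + 7 + 1) * 1))
    have hn0 : (0 : ℝ) < (n : ℝ) + 1 := by positivity
    have e1 : ((8 * n + 7 : ℕ) : ℝ) + 1 = 8 * ((n : ℝ) + 1) := by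
      push_cast
      ring
    rw [e1] at hd ⊢
    set δ : ℝ := 1 / (8 * ((n : ℝ) + 1)) with hδ
    have hδn : δ * ((n : ℝ) + 1) = 1 / 8 := by
      rw [hδ]
      field_simp
    have hsub : Finset.Ico n (2 * (n + 1)) ⊆ Finset.range ((8 * n + 7 + 1) * 1) := by
      intro k hk
      rw [Finset.mem_Ico] at hk
      rw [Finset.mem_range]
      omega
    refine le_trans ?_ (Finset.sum_le_sum_of_subset_of_nonneg hsub fun k _ _ =>
      mul_nonneg (by positivity) (W.en_nonneg _))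
    have hterm : ∀ k ∈ Finset.Ico n (2 * (n + 1)), (32 * ω * δ ^ 2) * (2 * (k : ℝ) + 1) ≤
        (δ ^ 2 * (2 * (k : ℝ) + 1)) * W.en (spr b (((k : ℝ) + 1) * δ)) := by
      intro k hk
      rw [Finset.mem_Ico] at hk
      have hk1 : (n : ℝ) ≤ (k : ℝ) := by exact_mod_cast hk.1
      have hk2 : (k : ℝ) + 1 ≤ 2 * ((n : ℝ) + 1) := by
        have : k + 1 ≤ 2 * (n + 1) := by omega
        exact_mod_cast this
      have ht1 : 1 / 8 ≤ ((k : ℝ) + 1) * δ := by nlinarith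
      have ht2 : ((k : ℝ) + 1) * δ ≤ 1 / 4 := by nlinarith
      have h3 := hall _ ht1 ht2
      have h4 : 0 ≤ δ ^ 2 * (2 * (k : ℝ) + 1) := by positivity
      have h5 := mul_le_mul_of_nonneg_left h3 h4
      refine le_trans (le_of_eq ?_) h5
      ring
    refine le_trans ?_ (Finset.sum_le_sum hterm)
    rw [← Finset.mul_sum, Finset.sum_Ico_eq_sub _ (by omega : n ≤ 2 * (n + 1)), sum_odd, sum_odd]
    have e2 : 32 * ω * δ ^ 2 * ((((2 * (n + 1) : ℕ) : ℝ)) ^ 2 - (n : ℝ) ^ 2) =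
        32 * ω * ((δ * ((n : ℝ) + 1)) ^ 2 * 4 - (δ * (n : ℝ)) ^ 2) := by
      push_cast
      ring
    rw [e2, hδn]
    have h6 : δ * (n : ℝ) ≤ 1 / 8 := by nlinarith
    have h7 : 0 ≤ δ * (n : ℝ) := by positivity
    have h8 : (δ * (n : ℝ)) ^ 2 ≤ (1 / 8) ^ 2 := pow_le_pow_left₀ h7 h6 2
    nlinarith
  have h1 : two b ≤ 1 := by
    refine (two_le_norm b).trans ?_
    have h2 := CStarAlgebra.norm_le_norm_of_nonneg_of_le hb hb1
    rcases subsingleton_or_nontrivial A with hs | hs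
    · rw [Subsingleton.elim b 0, norm_zero]
      exact zero_le_one
    · exact h2.trans (CStarRing.norm_one).le
  have h2 : two b * Real.sqrt (2 * W.en b) ≤ 1 * ω :=
    mul_le_mul h1 h (Real.sqrt_nonneg _) zero_le_one
  linarith

end UA

theorem spr_le_pow {b : A} (hb : 0 ≤ b) (N : ℕ) :
    spr b (3 / 4) ≤ ((4 / 3 : ℝ) ^ N) • b ^ N := by
  have hbs : IsSelfAdjoint b := IsSelfAdjoint.of_nonneg hb
  have hsp : ∀ s ∈ spectrum ℝ b, 0 ≤ s := fun s hs => spectrum_nonneg_of_nonneg hb hs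
  have hg : ContinuousOn (fun s : ℝ => (4 / 3 : ℝ) ^ N * s ^ N) (spectrum ℝ b) := by fun_prop
  have h1 := spr_le_cfc hbs hg (t := 3 / 4)
    (fun s hs _ => mul_nonneg (by positivity) (pow_nonneg (hsp s hs) _))
    (fun s _ hst => by
      rw [← mul_pow]
      exact one_le_pow₀ (by linarith))
  refine h1.trans (le_of_eq ?_)
  rw [cfc_const_mul ((4 / 3 : ℝ) ^ N) (fun s : ℝ => s ^ N) b (by fun_prop), cfc_pow_id b N]

theorem rt_pow_mul_le {b : A} (hb : 0 ≤ b) (N : ℕ) {t : ℝ} (ht : 0 ≤ t) :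
    rt (b ^ N * (1 - spr b t)) ≤ t ^ N := by
  have hbs : IsSelfAdjoint b := IsSelfAdjoint.of_nonneg hb
  have hsp : ∀ s ∈ spectrum ℝ b, 0 ≤ s := fun s hs => spectrum_nonneg_of_nonneg hb hs
  have hg : ContinuousOn (fun s : ℝ => t ^ N - s ^ N) (spectrum ℝ b) := by fun_prop
  have h1 := cfc_mul_one_sub_spr_nonneg hbs hg (t := t)
    (fun s hs hst => sub_nonneg.2 (pow_le_pow_left₀ (hsp s hs) hst N))
  have e : cfc (fun s : ℝ => t ^ N - s ^ N) b = (t ^ N) • (1 : A) - b ^ N := by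
    rw [cfc_sub (fun _ => t ^ N) (fun s : ℝ => s ^ N) b (by fun_prop) (by fun_prop),
      cfc_const _ b hbs, cfc_pow_id b N, Algebra.algebraMap_eq_smul_one]
  rw [e, sub_mul, smul_mul_assoc, one_mul] at h1
  have h2 := rt_nonneg h1
  rw [rt_sub, rt_smul] at h2
  have h3 : rt (1 - spr b t) ≤ 1 := by
    rw [rt_sub, rt_one]
    have := rt_nonneg (spr_nonneg b t)
    linarith
  have h4 : t ^ N * rt (1 - spr b t) ≤ t ^ N * 1 :=
    mul_le_mul_of_nonneg_left h3 (pow_nonneg ht N)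
  linarith

end Pool.Agent.PTH
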