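import Pool.Agent.PTH.RgMs
import Pool.Agent.PTH.RgLL

/-!
# PTH / RgLv: from an almost invariant vector to an almost invariant projection

PROOF.  Let `a` be the left density of `v` (`B.LD v a`, `a ≥ 0`).  `z a z = a`: `B.LD v (z a z*)` by
`LD_l` (as `l z v = v`) and the density is unique (`τ(x (a - a')) = 0` for all `x`, take
`x = star (a - a')`, faithfulness).  `α = CFC.sqrt a`, `α α = a`, `α ≥ 0`;
`two ((1 - z) α) ^ 2 = rt ((1-z) a (1-z)) = 0`, so `z α = α`.  `‖α‖₂² = rt a = ‖v‖²` (`rt_LD`),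
`rt ((β - λ)(β - λ) a) = ‖l(β - λ) v‖² ≤ (ε2/4)‖v‖²` (`norm_l_sq`), `rt (g g a) = ‖l g v‖² ≤ (C3/4)‖v‖²`.
Powers-Stormer for every `i` (`two_sub_sq_le_one` with `u_i α u_i*` and `α`), `UA.en_conj`,
`UA.d1_LD`: `2 e(α) ≤ ∑ p_i ‖u_i a u_i* - a‖₁ ≤ 2 ‖v‖ (2 e(v))^{1/2} ≤ 2 ‖v‖² (ε1⁴/128)^{1/2}`,
and `2 (ε1⁴/128)^{1/2} < ε1²/4`, so `(2 e(α))^{1/2} < (ε1/2) ‖v‖`.
`UA.LL` for `x = α`, `y = (1/ε2)(β-λ)(β-λ) + (1/C3) g g - 1`, `c = 1/ε1`:
`rt (y α α) + c ‖α‖₂ (2 e(α))^{1/2} < (1/4 + 1/4 - 1) ‖v‖² + (1/2) ‖v‖² = 0`.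
So there is `t > 0`, `p = spr α t`: `(1/ε2) rt ((β-λ)(β-λ) p) + (1/C3) rt (g g p) + (1/ε1) e(p) <
rt p`; all three terms are `≥ 0` (`rt ((β-λ)(β-λ) p) = two ((β-λ) p) ^ 2`).  `p ≠ 0` because of `<`.
`z p = p`: `t p ≤ α` (`smul_spr_le`), `(1-z) α (1-z) = 0`, so `(1-z) p (1-z) = 0`.
-/

open Filter Topology MulOpposite
open scoped InnerProductSpace ComplexOrder

universe u

namespace Pool.Agent.PTH

variable {A : Type u} [CStarAlgebra A] [PartialOrder A] [StarOrderedRing A] [TracialVN A]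

namespace RgLvAux

omit [StarOrderedRing A] in
theorem dens_unique {B : Bim.{u} A} {v : B.H} {a b : A} (ha : B.LD v a) (hb : B.LD v b) :
    a = b := by
  have h1 : TrAlg.tau (star (a - b) * (a - b)) = 0 := by
    rw [mul_sub, map_sub, ← ha.2, ← hb.2, sub_self]
  exact sub_eq_zero.1 (TrAlg.tau_faithful _ h1)

theorem sqrt_supp {z a : A} (hz : Prj z) (ha : 0 ≤ a) (h : z * a * z = a) :
    (1 - z) * CFC.sqrt a = 0 := by
  have hs : star (CFC.sqrt a) = CFC.sqrt a :=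
    (IsSelfAdjoint.of_nonneg (CFC.sqrt_nonneg a)).star_eq
  have hss : CFC.sqrt a * CFC.sqrt a = a := CFC.sqrt_mul_sqrt_self a ha
  have hz1 : (1 - z) * (1 - z) = 1 - z := (prj_one_sub hz).2
  have hz2 : star (1 - z) = 1 - z := (prj_one_sub hz).1
  apply two_eq_zero
  have h1 : two ((1 - z) * CFC.sqrt a) ^ 2 = 0 := by
    rw [two_sq_rt, star_mul, hz2, hs]
    have e1 : CFC.sqrt a * (1 - z) * ((1 - z) * CFC.sqrt a) =
        CFC.sqrt a * ((1 - z) * (1 - z)) * CFC.sqrt a := by noncomm_ring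
    rw [e1, hz1, rt_comm, ← mul_assoc, hss]
    have e2 : rt (z * a) = rt a := by
      have e3 : rt (z * a * z) = rt (z * a) := by
        rw [rt_comm, ← mul_assoc, hz.2]
      rw [← e3, h]
    rw [mul_sub, mul_one, rt_sub, rt_comm a z, e2, sub_self]
  exact pow_eq_zero_iff (two_ne_zero) |>.1 h1

theorem rt_mul_prj {b p : A} (hb : star b = b) (hp : Prj p) :
    rt (b * b * p) = two (b * p) ^ 2 := by
  rw [two_sq_rt, star_mul, hp.1, hb]
  have e1 : p * b * (b * p) = p * (b * b * p) := by noncomm_ring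
  rw [e1, rt_comm p, mul_assoc (b * b) p p, hp.2]

theorem en_sqrt_lt (W : UA A) {B : Bim.{u} A} {v : B.H} {a : A} (ha : B.LD v a) (v0 : v ≠ 0)
    {ε : ℝ} (hε : 0 < ε) (h : W.eB B v ≤ ε ^ 4 / 256 * ‖v‖ ^ 2) :
    2 * W.en (CFC.sqrt a) < (ε / 2 * ‖v‖) ^ 2 := by
  have hv : 0 < ‖v‖ := norm_pos_iff.2 v0
  have hα : 0 ≤ CFC.sqrt a := CFC.sqrt_nonneg a
  have hss : CFC.sqrt a * CFC.sqrt a = a := CFC.sqrt_mul_sqrt_self a ha.1
  have h1 : 2 * W.en (CFC.sqrt a) ≤ ∑ i, W.p i * one (W.u i * a * star (W.u i) - a) := by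
    rw [W.en_conj]
    have e : 2 * (1 / 2 * ∑ i, W.p i *
        two (W.u i * CFC.sqrt a * star (W.u i) - CFC.sqrt a) ^ 2) =
        ∑ i, W.p i * two (W.u i * CFC.sqrt a * star (W.u i) - CFC.sqrt a) ^ 2 := by ring
    rw [e]
    refine Finset.sum_le_sum fun i _ => mul_le_mul_of_nonneg_left ?_ (W.p_nonneg i)
    have h2 := two_sub_sq_le_one (a := W.u i * CFC.sqrt a * star (W.u i)) (b := CFC.sqrt a)
      (star_right_conjugate_nonneg hα (W.u i)) hα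
    have e2 : W.u i * CFC.sqrt a * star (W.u i) * (W.u i * CFC.sqrt a * star (W.u i)) =
        W.u i * a * star (W.u i) := by
      have e3 : W.u i * CFC.sqrt a * star (W.u i) * (W.u i * CFC.sqrt a * star (W.u i)) =
          W.u i * (CFC.sqrt a * (star (W.u i) * W.u i) * CFC.sqrt a) * star (W.u i) := by
        noncomm_ring
      rw [e3, W.u_star_mul, mul_one, hss]
    rwa [e2, hss] at h2
  have h2 := W.d1_LD B ha
  have h3 : Real.sqrt (2 * W.eB B v) ≤ ε ^ 2 / 11 * ‖v‖ := by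
    rw [Real.sqrt_le_left (by positivity)]
    have h4 : (ε ^ 2 / 11 * ‖v‖) ^ 2 = ε ^ 4 / 121 * ‖v‖ ^ 2 := by ring
    rw [h4]
    have h5 : 0 ≤ ε ^ 4 * ‖v‖ ^ 2 := by positivity
    linarith
  have h4 : 2 * ‖v‖ * Real.sqrt (2 * W.eB B v) ≤ 2 * ‖v‖ * (ε ^ 2 / 11 * ‖v‖) :=
    mul_le_mul_of_nonneg_left h3 (by positivity)
  have h5 : 0 < ε ^ 2 * ‖v‖ ^ 2 := by positivity
  have e5 : 2 * ‖v‖ * (ε ^ 2 / 11 * ‖v‖) = 2 / 11 * (ε ^ 2 * ‖v‖ ^ 2) := by ring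
  have e6 : (ε / 2 * ‖v‖) ^ 2 = 1 / 4 * (ε ^ 2 * ‖v‖ ^ 2) := by ring
  rw [e6]
  rw [e5] at h4
  linarith

end RgLvAux

open RgLvAux in
theorem level_prj (W : UA A) (B : Bim.{u} A) {z β g : A} (hz : Prj z) (hβ : star β = β)
    (hg : 0 ≤ g) {lam ε1 ε2 C3 : ℝ} (h1 : 0 < ε1) (h2 : 0 < ε2) (h3 : 0 < C3) {v : B.H}
    (hv : B.Bdd v) (v0 : v ≠ 0) (zv : B.l z v = v)
    (e1 : ‖B.l (β - lam • (1 : A)) v‖ ^ 2 ≤ ε2 / 4 * ‖v‖ ^ 2)
    (e2 : ‖B.l g v‖ ^ 2 ≤ C3 / 4 * ‖v‖ ^ 2)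
    (e3 : W.eB B v ≤ ε1 ^ 4 / 256 * ‖v‖ ^ 2) :
    ∃ p : A, Prj p ∧ p ≠ 0 ∧ z * p = p ∧ W.en p ≤ ε1 * rt p ∧
      two ((β - lam • (1 : A)) * p) ^ 2 ≤ ε2 * rt p ∧ two (g * p) ^ 2 ≤ C3 * rt p := by
  obtain ⟨⟨a, ha⟩, -⟩ := hv
  have hvpos : 0 < ‖v‖ := norm_pos_iff.2 v0
  have hza : z * a * z = a := by
    have h := B.LD_l ha z
    rw [zv, hz.1] at h
    exact dens_unique h ha
  set α : A := CFC.sqrt a with hα
  have hα0 : 0 ≤ α := CFC.sqrt_nonneg a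
  have hαα : α * α = a := CFC.sqrt_mul_sqrt_self a ha.1
  have hαs : star α = α := (IsSelfAdjoint.of_nonneg hα0).star_eq
  have hzα : (1 - z) * α = 0 := sqrt_supp hz ha.1 hza
  have hrt : rt a = ‖v‖ ^ 2 := B.rt_LD ha
  have htwo : two α = ‖v‖ := by
    have h : two α ^ 2 = ‖v‖ ^ 2 := by rw [two_sq_rt, hαs, hαα, hrt]
    exact (sq_eq_sq₀ (two_nonneg _) (norm_nonneg _)).1 h
  set b : A := β - lam • (1 : A) with hb
  have hbs : star b = b := by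
    rw [hb, star_sub, hβ, star_smul, star_one]
    simp
  have hgs : star g = g := (IsSelfAdjoint.of_nonneg hg).star_eq
  have hrb : rt (b * b * a) ≤ ε2 / 4 * ‖v‖ ^ 2 := by
    have h := B.norm_l_sq ha b
    rw [hbs] at h
    rw [← h]
    exact e1
  have hrg : rt (g * g * a) ≤ C3 / 4 * ‖v‖ ^ 2 := by
    have h := B.norm_l_sq ha g
    rw [hgs] at h
    rw [← h]
    exact e2
  set y : A := (1 / ε2) • (b * b) + (1 / C3) • (g * g) - 1 with hy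
  have hrty : ∀ x : A, rt (y * x) = 1 / ε2 * rt (b * b * x) + 1 / C3 * rt (g * g * x) - rt x := by
    intro x
    rw [hy, sub_mul, add_mul, smul_mul_assoc, smul_mul_assoc, one_mul, rt_sub, rt_add, rt_smul,
      rt_smul]
  have hlt : rt (y * (α * α)) + 1 / ε1 * (two α * Real.sqrt (2 * W.en α)) < 0 := by
    rw [hαα, hrty, hrt, htwo]
    have k1 : 1 / ε2 * rt (b * b * a) ≤ 1 / 4 * ‖v‖ ^ 2 := by
      have h := mul_le_mul_of_nonneg_left hrb (show 0 ≤ 1 / ε2 by positivity)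
      have e : 1 / ε2 * (ε2 / 4 * ‖v‖ ^ 2) = 1 / 4 * ‖v‖ ^ 2 := by
        field_simp
      rwa [e] at h
    have k2 : 1 / C3 * rt (g * g * a) ≤ 1 / 4 * ‖v‖ ^ 2 := by
      have h := mul_le_mul_of_nonneg_left hrg (show 0 ≤ 1 / C3 by positivity)
      have e : 1 / C3 * (C3 / 4 * ‖v‖ ^ 2) = 1 / 4 * ‖v‖ ^ 2 := by
        field_simp
      rwa [e] at h
    have k3 : Real.sqrt (2 * W.en α) < ε1 / 2 * ‖v‖ := by
      rw [Real.sqrt_lt' (by positivity)]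
      exact en_sqrt_lt W ha v0 h1 e3
    have k4 : 1 / ε1 * (‖v‖ * Real.sqrt (2 * W.en α)) < 1 / ε1 * (‖v‖ * (ε1 / 2 * ‖v‖)) :=
      mul_lt_mul_of_pos_left (mul_lt_mul_of_pos_left k3 hvpos) (by positivity)
    have e : 1 / ε1 * (‖v‖ * (ε1 / 2 * ‖v‖)) = 1 / 2 * ‖v‖ ^ 2 := by
      field_simp
    rw [e] at k4
    linarith
  obtain ⟨t, ht, hfin⟩ := W.LL hα0 (show 0 ≤ 1 / ε1 by positivity) hlt
  set p : A := spr α t with hpdef
  have hp : Prj p := spr_prj α t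
  rw [hrty, rt_mul_prj hbs hp, rt_mul_prj hgs hp] at hfin
  have n1 : 0 ≤ 1 / ε2 * two (b * p) ^ 2 := by positivity
  have n2 : 0 ≤ 1 / C3 * two (g * p) ^ 2 := by positivity
  have n3 : 0 ≤ 1 / ε1 * W.en p := mul_nonneg (by positivity) (W.en_nonneg p)
  have scale : ∀ {c x : ℝ}, 0 < c → 1 / c * x ≤ rt p → x ≤ c * rt p := by
    intro c x hc h
    have h' := mul_le_mul_of_nonneg_left h hc.le
    rwa [← mul_assoc, mul_one_div_cancel hc.ne', one_mul] at h'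
  refine ⟨p, hp, ?_, ?_, scale h1 (by linarith), scale h2 (by linarith),
    scale h3 (by linarith)⟩
  · intro h0
    rw [h0, rt_zero] at hfin
    rw [h0] at n1 n2 n3
    linarith
  · have hle : t • p ≤ α := smul_spr_le hα0 ht.le
    have hαz : α * (1 - z) = 0 := by
      have h := congrArg star hzα
      rw [star_mul, hαs, (prj_one_sub hz).1, star_zero] at h
      exact h
    have h := mul_eq_zero_of_le (smul_nonneg ht.le (proj_nonneg hp)) hle hαz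
    rw [smul_mul_assoc, smul_eq_zero] at h
    have h' := h.resolve_left ht.ne'
    rw [mul_sub, mul_one, sub_eq_zero] at h'
    have h'' := congrArg star h'
    rw [star_mul, hz.1, hp.1] at h''
    exact h''.symm

end Pool.Agent.PTH
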