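import Pool.Agent.PTH.RgBu
import Pool.Agent.PTH.RgLv
import Pool.Agent.PTH.RgCoB
import Pool.Agent.PTH.RgCj

/-!
# PTH / RgLY: Lemma Y

`lemY`: for almost invariant `v` with bounded right `g`-mass, `Re ⟨v, (β - β²) v⟩ ≤ η`, `β = T Y`.

PROOF.  `C3 = 8 (24/η)²`, `s3 = √C3`.  Choose `s1, s2 > 0` with `(46 + 2 s3) s1 ≤ η/16`,
`(20 + 3 s3) s2 ≤ η/16`, `ε1 = s1²/2` (so `√(2 ε1) = s1`), `ε2 = s2²`.  `bump` with `ε2/4`,
`ρ = ε1⁴/256` gives `θ0, G1`; `θ = min θ0 (η/64)` (also `≤ 1`).  Suppose `lm (β-β²) v > η`: `bump`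
gives `λ`, `w`; `level_prj` (`C3/4 = 2 (24/η)²`) gives `p` with `e(p) ≤ ε1 rt p`, etc.; then
`√(2 e(p)) ≤ s1 √(rt p)`, `two ((β-λ)p) ≤ s2 √(rt p)`, `two (g p) ≤ s3 √(rt p)` and `Mn.core`:
`η/2 ≤ λ(1-λ) ≤ 3 εg + η/16 + η/16 + 4 ν ≤ 7 η/64 + η/8 < η/2`, contradiction.

`lemYr`: apply `lemY` in the conjugate bimodule `B.cj` to `B.c v` (`HW` is about all bimodules):
`lm B.cj x (B.c v) = rm B (star x) v` up to conjugation (`l_c`, `inner_c`), `rm B.cj g (B.c v) =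
lm B g v`, `eB_c`, `Bdd_c`, `Reg_cj`, `norm_c`.
-/

open Filter Topology MulOpposite
open scoped InnerProductSpace ComplexOrder

universe u

namespace Pool.Agent.PTH

private theorem le_mul_sqrt_aux {a s r : ℝ} (hs : 0 ≤ s) (h : a ^ 2 ≤ s ^ 2 * r) :
    a ≤ s * Real.sqrt r := by
  have h1 : a ≤ Real.sqrt (s ^ 2 * r) := Real.le_sqrt_of_sq_le h
  rwa [Real.sqrt_mul (sq_nonneg s), Real.sqrt_sq hs] at h1

private theorem lm_c {A : Type u} [CStarAlgebra A] (B : Bim.{u} A) (x : A) (v : B.H) :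
    lm B.cj x (B.c v) = rm B x v := by
  unfold lm rm
  rw [B.l_c, B.inner_c, B.inner_r, star_star]

private theorem rm_c {A : Type u} [CStarAlgebra A] (B : Bim.{u} A) (x : A) (v : B.H) :
    rm B.cj x (B.c v) = lm B x v := by
  unfold lm rm
  rw [B.r_c, B.inner_c, B.inner_l, star_star]

theorem lemY {η M : ℝ} (hη : 0 < η) (hM : 4 ≤ M) :
    ∃ θ > 0, ∃ G1 > 0, ∀ (A : Type u) [CStarAlgebra A] [PartialOrder A] [StarOrderedRing A]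
      [TracialVN A] (W : UA A) (ν εg σ G0 : ℝ) (z Y g D : A), Mn W ν εg z Y g D → ν ≤ θ →
      εg ≤ θ → 0 ≤ σ → σ ≤ θ → G1 ≤ G0 → 1 - z ≤ (1 / G0) • g → HW W g (M + 1) σ →
      ∀ B : Bim.{u} A, B.Reg → ∀ v : B.H, B.Bdd v → ‖v‖ ≤ 1 → W.eB B v ≤ θ → rm B g v ≤ M →
      lm B (W.T Y - W.T Y * W.T Y) v ≤ η := by
  set C3 : ℝ := 8 * (24 / η) ^ 2 with hC3
  have C3pos : 0 < C3 := by positivity
  set s3 : ℝ := Real.sqrt C3 with hs3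
  have s30 : 0 ≤ s3 := Real.sqrt_nonneg _
  have s3sq : s3 ^ 2 = C3 := Real.sq_sqrt C3pos.le
  set s1 : ℝ := η / 16 / (46 + 2 * s3) with hs1
  have s10 : 0 < s1 := by positivity
  have s1e : (46 + 2 * s3) * s1 = η / 16 := by
    rw [hs1]
    field_simp
  set s2 : ℝ := η / 16 / (20 + 3 * s3) with hs2
  have s20 : 0 < s2 := by positivity
  have s2e : (20 + 3 * s3) * s2 = η / 16 := by
    rw [hs2]
    field_simp
  set ε1 : ℝ := s1 ^ 2 / 2 with hε1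
  have ε10 : 0 < ε1 := by positivity
  have ε20 : 0 < s2 ^ 2 := by positivity
  obtain ⟨θ0, hθ0, G1, hG1, H⟩ := bump (η := η) (ε2 := s2 ^ 2 / 4) (ρ := ε1 ^ 4 / 256) (M := M) hη
    (by positivity) (by positivity) hM
  refine ⟨min θ0 (η / 64), lt_min hθ0 (by positivity), G1, hG1, ?_⟩
  intro A _ _ _ _ W ν εg σ G0 z Y g D hMn hν hεg hσ0 hσ hG hz hHW B hB v hv hv1 hev hrm
  have l1 := min_le_left θ0 (η / 64)
  have l2 := min_le_right θ0 (η / 64)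
  by_contra hcon
  push Not at hcon
  obtain ⟨lam, w, w1, w2, w3, w4, w5, w6, w7, w8, w9⟩ := H A W ν εg σ G0 z Y g D hMn
    (hεg.trans l1) hσ0 (hσ.trans l1) hG hz hHW B hB v hv hv1 (hev.trans l1) hrm hcon
  have e2' : ‖B.l g w‖ ^ 2 ≤ C3 / 4 * ‖w‖ ^ 2 := by
    refine w8.trans (le_of_eq ?_)
    rw [hC3]
    ring
  obtain ⟨p, p1, p2, p3, p4, p5, p6⟩ := level_prj W B hMn.z_prj hMn.T_sa hMn.g_nonneg ε10 ε20
    C3pos w4 w5 w6 w7 e2' w9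
  have q1 : Real.sqrt (2 * W.en p) ≤ s1 * Real.sqrt (rt p) := by
    refine Real.sqrt_le_iff.2 ⟨by positivity, ?_⟩
    rw [mul_pow, Real.sq_sqrt (rt_nonneg (proj_nonneg p1))]
    rw [hε1] at p4
    linarith
  have q2 : two ((W.T Y - lam • (1 : A)) * p) ≤ s2 * Real.sqrt (rt p) :=
    le_mul_sqrt_aux s20.le p5
  have q3 : two (g * p) ≤ s3 * Real.sqrt (rt p) :=
    le_mul_sqrt_aux s30 (by rw [s3sq]; exact p6)
  have hcore := Mn.core hMn p1 q1 q2 q3 s10.le s20.le s30 w1 w2 p3 p2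
  have hν2 := hν.trans l2
  have hεg2 := hεg.trans l2
  linarith

theorem lemYr {η M : ℝ} (hη : 0 < η) (hM : 4 ≤ M) :
    ∃ θ > 0, ∃ G1 > 0, ∀ (A : Type u) [CStarAlgebra A] [PartialOrder A] [StarOrderedRing A]
      [TracialVN A] (W : UA A) (ν εg σ G0 : ℝ) (z Y g D : A), Mn W ν εg z Y g D → ν ≤ θ →
      εg ≤ θ → 0 ≤ σ → σ ≤ θ → G1 ≤ G0 → 1 - z ≤ (1 / G0) • g → HW W g (M + 1) σ →
      ∀ B : Bim.{u} A, B.Reg → ∀ v : B.H, B.Bdd v → ‖v‖ ≤ 1 → W.eB B v ≤ θ → lm B g v ≤ M →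
      rm B (W.T Y - W.T Y * W.T Y) v ≤ η := by
  obtain ⟨θ, hθ, G1, hG1, H⟩ := lemY.{u} hη hM
  refine ⟨θ, hθ, G1, hG1, ?_⟩
  intro A _ _ _ _ W ν εg σ G0 z Y g D hMn hν hεg hσ0 hσ hG hz hHW B hB v hv hv1 hev hlm
  have h := H A W ν εg σ G0 z Y g D hMn hν hεg hσ0 hσ hG hz hHW B.cj (B.Reg_cj hB) (B.c v)
    (B.Bdd_c hv) (by rw [B.norm_c]; exact hv1) (by rw [B.eB_c]; exact hev)
    (by rw [rm_c]; exact hlm)
  rwa [lm_c] at h

end Pool.Agent.PTH
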