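import Pool.Agent.PTH.TbI

/-!
# PTH / RgVP: a variational principle of Borwein-Preiss type on projections

`F` is 2-norm Lipschitz on projections and bounded below.  For projections
`‖y - y'‖₂² = rt ((1 - 2 y') y) + rt y'`: the quadratic penalty is linear in `y`.

PROOF.  `S = {y | Prj y ∧ z y = y}` (nonempty: `0`).  For `E` in `A` put
`G_E(y) = F y + ν rt (E y)`.  Recursion: `E_0 = 0`; `Y_n ∈ S` with
`G_{E_n}(Y_n) ≤ G_{E_n}(y) + ε_n` for all `y ∈ S` (`ε_n = ν 8^{-n}`; exists because `G_{E_n}` is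
bounded below on `S`: `|rt (E y)| ≤ ‖E‖`); `E_{n+1} = E_n + w_n (1 - 2 Y_n)`, `w_n = 2^{-(n+1)}`.
`1 - 2 Y_n` is a self-adjoint unitary, so `‖E_n‖ ≤ ∑_{j<n} w_j ≤ 1`, `E_n` is norm Cauchy,
`E_n → D`, `star D = D`, `‖D‖ ≤ 1`, `‖D - E_n‖ ≤ 2^{-n}`.
`G_{E_{n+1}}(y) = G_{E_n}(y) + ν w_n (‖y - Y_n‖₂² - rt Y_n)` on `S`.
Cauchy: `G_{E_{n+1}}(Y_{n+1}) ≤ G_{E_{n+1}}(Y_n) + ε_{n+1} = G_{E_n}(Y_n) - ν w_n rt Y_n + ε_{n+1} ≤
G_{E_n}(Y_{n+1}) + ε_n + ε_{n+1} - ν w_n rt Y_n`, so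
`ν w_n ‖Y_{n+1} - Y_n‖₂² ≤ ε_n + ε_{n+1} ≤ 2 ν 8^{-n}`, `‖Y_{n+1} - Y_n‖₂² ≤ 4 · 4^{-n}`: Cauchy
(`≤ 2 · 2^{-n}`), `Y_n → Y` in 2-norm, `‖Y‖ ≤ 1` (`exists_lim`), `Y` is a projection and `z Y = Y`
(`lim_mul`, `lim_star`, `lim_unique`).  For `y ∈ S`:
`F Y_n + ν rt (E_n Y_n) ≤ F y + ν rt (E_n y) + ε_n`; `n → ∞` (`F` Lipschitz, `E_n → D` in norm).
-/

open Filter Topology
open scoped InnerProductSpace ComplexOrder

universe u

namespace Pool.Agent.PTH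

variable {A : Type u} [CStarAlgebra A] [PartialOrder A] [StarOrderedRing A] [TracialVN A]

private theorem near {α : Type*} (S : α → Prop) (f : α → ℝ) (hne : ∃ x, S x) {c : ℝ}
    (hc : ∀ x, S x → c ≤ f x) {ε : ℝ} (hε : 0 < ε) :
    ∃ x, S x ∧ ∀ y, S y → f x ≤ f y + ε := by
  obtain ⟨x0, hx0⟩ := hne
  have hbd : BddBelow (f '' {x | S x}) := ⟨c, by
    rintro _ ⟨x, hx, rfl⟩
    exact hc x hx⟩
  have hlt : sInf (f '' {x | S x}) < sInf (f '' {x | S x}) + ε := by linarith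
  obtain ⟨_, ⟨x, hx, rfl⟩, hxl⟩ := exists_lt_of_csInf_lt (s := f '' {x | S x})
    ⟨f x0, x0, hx0, rfl⟩ hlt
  refine ⟨x, hx, fun y hy => ?_⟩
  have := csInf_le hbd ⟨y, hy, rfl⟩
  linarith

omit [PartialOrder A] [StarOrderedRing A] [TracialVN A] in
private theorem star_refl {Y : A} (hY : Prj Y) : star (1 - (2 : ℝ) • Y) = 1 - (2 : ℝ) • Y := by
  rw [star_sub, star_one, star_smul, hY.1, star_trivial]

omit [PartialOrder A] [StarOrderedRing A] in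
private theorem norm_refl {Y : A} (hY : Prj Y) : ‖(1 : A) - (2 : ℝ) • Y‖ ≤ 1 := by
  have h1 : (1 - (2 : ℝ) • Y) * (1 - (2 : ℝ) • Y) = 1 := by
    have h2 := hY.2
    have e : (1 - (2 : ℝ) • Y) * (1 - (2 : ℝ) • Y) = 1 - (4 : ℝ) • Y + (4 : ℝ) • (Y * Y) := by
      simp only [sub_mul, mul_sub, one_mul, mul_one, smul_mul_smul_comm]
      module
    rw [e, h2]
    abel
  have h3 : ‖(1 : A) - (2 : ℝ) • Y‖ * ‖(1 : A) - (2 : ℝ) • Y‖ = ‖(1 : A)‖ := by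
    rw [← CStarRing.norm_star_mul_self, star_refl hY, h1]
  have h4 : ‖(1 : A)‖ ≤ 1 := norm_proj_le ⟨star_one A, mul_one 1⟩
  nlinarith [norm_nonneg ((1 : A) - (2 : ℝ) • Y)]

omit [PartialOrder A] [StarOrderedRing A] in
private theorem penalty {y Y : A} (hy : Prj y) (hY : Prj Y) :
    rt ((1 - (2 : ℝ) • Y) * y) = two (y - Y) ^ 2 - rt Y := by
  rw [two_sub_sq, sub_mul, one_mul, smul_mul_assoc, rt_sub, rt_smul, hy.1, rt_comm y Y,
    two_sq_rt, two_sq_rt, hy.1, hY.1, hy.2, hY.2]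
  ring

theorem borwein {z : A} (hz : Prj z) (F : A → ℝ) {C m ν : ℝ} (hν : 0 < ν)
    (hF : ∀ x y : A, Prj x → Prj y → |F x - F y| ≤ C * two (x - y))
    (hm : ∀ x : A, Prj x → m ≤ F x) :
    ∃ Y D : A, Prj Y ∧ z * Y = Y ∧ star D = D ∧ ‖D‖ ≤ 1 ∧
      ∀ y : A, Prj y → z * y = y → F Y + ν * rt (D * Y) ≤ F y + ν * rt (D * y) := by
  classical
  set S : A → Prop := fun y => Prj y ∧ z * y = y with hS
  have hS0 : S 0 := ⟨⟨star_zero A, mul_zero 0⟩, mul_zero z⟩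
  have htw : ∀ y : A, Prj y → two y ≤ 1 := fun y hy => (two_le_norm y).trans (norm_proj_le hy)
  have hnear : ∀ (E : A) (n : ℕ), ∃ Y, S Y ∧ ∀ y, S y →
      F Y + ν * rt (E * Y) ≤ F y + ν * rt (E * y) + ν * (1 / 8 : ℝ) ^ n := by
    intro E n
    refine near S (fun y => F y + ν * rt (E * y)) ⟨0, hS0⟩ (c := m - ν * ‖E‖) ?_
      (by positivity)
    rintro y ⟨hy, -⟩
    have h1 : |rt (E * y)| ≤ ‖E‖ := by
      refine (abs_rt_le _).trans ((two_mul_le _ _).trans ?_)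
      calc ‖E‖ * two y ≤ ‖E‖ * 1 := mul_le_mul_of_nonneg_left (htw y hy) (norm_nonneg _)
        _ = ‖E‖ := mul_one _
    have h2 := (abs_le.1 h1).1
    have h3 := mul_le_mul_of_nonneg_left h2 hν.le
    have h4 := hm y hy
    linarith
  choose Ψ hΨS hΨ using hnear
  let E : ℕ → A := fun n => Nat.rec (0 : A)
    (fun n e => e + ((1 / 2 : ℝ) ^ (n + 1)) • (1 - (2 : ℝ) • Ψ e n)) n
  let Y : ℕ → A := fun n => Ψ (E n) n
  have hE0 : E 0 = 0 := rfl
  have hE1 : ∀ n, E (n + 1) = E n + ((1 / 2 : ℝ) ^ (n + 1)) • (1 - (2 : ℝ) • Y n) := fun _ => rfl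
  have hYP : ∀ n, Prj (Y n) := fun n => (hΨS (E n) n).1
  have hYz : ∀ n, z * Y n = Y n := fun n => (hΨS (E n) n).2
  have hYm : ∀ n y, S y →
      F (Y n) + ν * rt (E n * Y n) ≤ F y + ν * rt (E n * y) + ν * (1 / 8 : ℝ) ^ n :=
    fun n y hy => hΨ (E n) n y hy
  have hEs : ∀ n, star (E n) = E n := by
    intro n
    induction n with
    | zero => rw [hE0, star_zero]
    | succ n ih => rw [hE1, star_add, ih, star_smul, star_refl (hYP n), star_trivial]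
  have hEd : ∀ n, dist (E n) (E (n + 1)) ≤ (1 / 2) * (1 / 2 : ℝ) ^ n := by
    intro n
    rw [dist_comm, dist_eq_norm, hE1, add_sub_cancel_left, norm_smul, Real.norm_eq_abs,
      abs_of_nonneg (by positivity)]
    calc (1 / 2 : ℝ) ^ (n + 1) * ‖(1 : A) - (2 : ℝ) • Y n‖ ≤ (1 / 2 : ℝ) ^ (n + 1) * 1 :=
          mul_le_mul_of_nonneg_left (norm_refl (hYP n)) (by positivity)
      _ = (1 / 2) * (1 / 2 : ℝ) ^ n := by rw [mul_one, pow_succ']
  have hEc : CauchySeq E := cauchySeq_of_le_geometric _ _ (by norm_num) hEd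
  obtain ⟨D, hD⟩ := cauchySeq_tendsto_of_complete hEc
  have hDn : ‖D‖ ≤ 1 := by
    have h := dist_le_of_le_geometric_of_tendsto₀ _ _ (by norm_num) hEd hD
    rw [hE0, dist_zero_left] at h
    refine h.trans (by norm_num)
  have hDs : star D = D := by
    have h1 : Tendsto (fun n => star (E n)) atTop (𝓝 (star D)) := (continuous_star.tendsto D).comp hD
    exact tendsto_nhds_unique (h1.congr hEs) hD
  have hEt : Tendsto (fun n => two (E n - D)) atTop (𝓝 0) := by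
    refine lim_of_norm ?_
    exact tendsto_iff_norm_sub_tendsto_zero.1 hD
  -- the increments
  have hpen : ∀ n y, Prj y → F y + ν * rt (E (n + 1) * y) =
      F y + ν * rt (E n * y) + ν * (1 / 2 : ℝ) ^ (n + 1) * (two (y - Y n) ^ 2 - rt (Y n)) := by
    intro n y hy
    rw [hE1, add_mul, rt_add, smul_mul_assoc, rt_smul, penalty hy (hYP n)]
    ring
  have hinc : ∀ n, two (Y (n + 1) - Y n) ≤ 2 * (1 / 2 : ℝ) ^ n := by
    intro n
    have h1 := hYm n (Y (n + 1)) ⟨hYP (n + 1), hYz (n + 1)⟩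
    have h2 := hYm (n + 1) (Y n) ⟨hYP n, hYz n⟩
    rw [hpen n _ (hYP (n + 1)), hpen n _ (hYP n), sub_self, two_zero] at h2
    have h3 : (1 / 8 : ℝ) ^ (n + 1) = 1 / 8 * (1 / 8 : ℝ) ^ n := pow_succ' _ _
    have h4 : (1 / 2 : ℝ) ^ (n + 1) = 1 / 2 * (1 / 2 : ℝ) ^ n := pow_succ' _ _
    have h8 : (0 : ℝ) < (1 / 8 : ℝ) ^ n := by positivity
    have hp : (0 : ℝ) < (1 / 2 : ℝ) ^ n := by positivity
    rw [h3, h4] at h2
    have h5 : ν * (1 / 2 * (1 / 2 : ℝ) ^ n) * two (Y (n + 1) - Y n) ^ 2 ≤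
        ν * (2 * (1 / 8 : ℝ) ^ n) := by nlinarith [mul_pos hν h8]
    have h6 : (1 / 2 * (1 / 2 : ℝ) ^ n) * two (Y (n + 1) - Y n) ^ 2 ≤ 2 * (1 / 8 : ℝ) ^ n := by
      rw [mul_assoc] at h5
      exact le_of_mul_le_mul_left h5 hν
    have h7 : (1 / 8 : ℝ) ^ n = (1 / 2 : ℝ) ^ n * ((1 / 2 : ℝ) ^ n) ^ 2 := by
      rw [← pow_mul, mul_comm n 2, pow_mul, ← mul_pow]
      norm_num
    rw [h7] at h6
    have h9 : two (Y (n + 1) - Y n) ^ 2 ≤ (2 * (1 / 2 : ℝ) ^ n) ^ 2 := by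
      have h10 : (1 / 2 : ℝ) ^ n * two (Y (n + 1) - Y n) ^ 2 ≤
          (1 / 2 : ℝ) ^ n * (2 * (1 / 2 : ℝ) ^ n) ^ 2 := by nlinarith
      exact le_of_mul_le_mul_left h10 hp
    exact abs_le_of_sq_le_sq' h9 (by positivity) |>.2
  have htel : ∀ n k, two (Y (n + k) - Y n) ≤ 4 * (1 / 2 : ℝ) ^ n - 4 * (1 / 2 : ℝ) ^ (n + k) := by
    intro n k
    induction k with
    | zero => rw [add_zero, sub_self, sub_self, two_zero]
    | succ k ih =>
      have h1 := two_sub_le_sub (Y (n + (k + 1))) (Y (n + k)) (Y n)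
      have h2 := hinc (n + k)
      have h3 : (1 / 2 : ℝ) ^ (n + (k + 1)) = 1 / 2 * (1 / 2 : ℝ) ^ (n + k) := by
        rw [← add_assoc, pow_succ']
      rw [h3]
      have h4 : two (Y (n + (k + 1)) - Y (n + k)) ≤ 2 * (1 / 2 : ℝ) ^ (n + k) := h2
      linarith
  have hcau : ∀ ε : ℝ, 0 < ε → ∃ k, ∀ a ≥ k, ∀ b ≥ k, two (Y a - Y b) ≤ ε := by
    intro ε hε
    obtain ⟨k, hk⟩ := exists_pow_lt_of_lt_one (show (0 : ℝ) < ε / 4 by positivity)
      (show (1 / 2 : ℝ) < 1 by norm_num)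
    have key : ∀ a b, k ≤ a → a ≤ b → two (Y b - Y a) ≤ ε := by
      intro a b ha hab
      obtain ⟨j, rfl⟩ := Nat.exists_eq_add_of_le hab
      have h1 := htel a j
      have h2 : (1 / 2 : ℝ) ^ a ≤ (1 / 2 : ℝ) ^ k :=
        pow_le_pow_of_le_one (by norm_num) (by norm_num) ha
      have h3 : (0 : ℝ) < (1 / 2 : ℝ) ^ (a + j) := by positivity
      linarith
    refine ⟨k, fun a ha b hb => ?_⟩
    rcases le_total a b with hab | hab
    · rw [two_sub_comm]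
      exact key a b ha hab
    · exact key b a hb hab
  obtain ⟨P, hPn, hP⟩ := exists_lim (fun n => norm_proj_le (hYP n)) hcau
  have hPs : star P = P := by
    refine lim_unique (x := Y) (l := atTop) ?_ hP
    refine (lim_star hP).congr fun n => ?_
    rw [(hYP n).1]
  have hPP : P * P = P := by
    refine lim_unique (x := Y) (l := atTop) ?_ hP
    refine (lim_mul (fun n => norm_proj_le (hYP n)) hP hP).congr fun n => ?_
    rw [(hYP n).2]
  have hPz : z * P = P := by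
    refine lim_unique (x := Y) (l := atTop) ?_ hP
    refine (lim_mul_left z hP).congr fun n => ?_
    rw [hYz n]
  refine ⟨P, D, ⟨hPs, hPP⟩, hPz, hDs, hDn, fun y hy hzy => ?_⟩
  have hF1 : Tendsto (fun n => F (Y n)) atTop (𝓝 (F P)) := by
    rw [tendsto_iff_norm_sub_tendsto_zero]
    have h1 := hP.const_mul C
    rw [mul_zero] at h1
    refine squeeze_zero (fun _ => norm_nonneg _) (fun n => ?_) h1
    rw [Real.norm_eq_abs]
    exact hF _ _ (hYP n) ⟨hPs, hPP⟩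
  have hR1 : Tendsto (fun n => rt (E n * Y n)) atTop (𝓝 (rt (D * P))) :=
    lim_rt (lim_mul (fun n => norm_proj_le (hYP n)) hEt hP)
  have hR2 : Tendsto (fun n => rt (E n * y)) atTop (𝓝 (rt (D * y))) :=
    lim_rt (lim_mul_right y hEt)
  have he : Tendsto (fun n : ℕ => ν * (1 / 8 : ℝ) ^ n) atTop (𝓝 0) := by
    have := (tendsto_pow_atTop_nhds_zero_of_lt_one (show (0 : ℝ) ≤ 1 / 8 by norm_num)
      (by norm_num)).const_mul ν
    rwa [mul_zero] at this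
  have hL := hF1.add (hR1.const_mul ν)
  have hR := ((hR2.const_mul ν).const_add (F y)).add he
  rw [add_zero] at hR
  exact le_of_tendsto_of_tendsto' hL hR fun n => hYm n y ⟨hy, hzy⟩

end Pool.Agent.PTH
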