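import Pool.Agent.PTH.RgMn
import Pool.Agent.PTH.RgVP

/-!
# PTH / RgMin: existence of the minimiser

`F(y) = rt (g y) - rt (y T y)` (`T = W.T`): `|F x - F y| ≤ (‖g‖ + 2) ‖x - y‖₂` for projections
(`|rt (x T x) - rt (y T y)| ≤ |rt ((x-y) T x)| + |rt (y T (x-y))| ≤ 2 ‖x - y‖₂`), `F ≥ -1` on
projections (`rt (g y) ≥ 0`, `rt (y T y) ≤ ‖y‖₂ ‖T y‖₂ ≤ 1`).  `borwein` gives `Y`, `D`.  With
`G(y) = F(y) + ν rt (D y)`: `G(Y) ≤ G(y)` for all projections `y` with `z y = y`.

ALL `0 ≤ y ≤ z`.  `y_n = stp y (1/n) n = (1/n) ∑_{k<n} spr y ((k+1)/n)`, `‖y_n - y‖ ≤ 1/n`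
(`norm_stp_sub_le`, `y ≤ 1`).  `z spr y t = spr y t` for `t > 0` (`t spr y t ≤ y ≤ z`, so
`(1-z) spr y t (1-z) ≤ 0`).  `G` is concave on self-adjoint elements:
`y ↦ rt (y T y)` is convex since `rt ((x - y) T (x - y)) ≥ 0` (`W.Pos`); for an average
`y_n = (1/n) ∑ e_k`: `rt (y_n T y_n) ≤ (1/n) ∑ rt (e_k T e_k)` (`0 ≤ ∑_k rt ((e_k - y_n) T (e_k - y_n))`).
So `G(y_n) ≥ (1/n) ∑ G(e_k) ≥ G(Y)`, and `n → ∞` (`G` is norm continuous): `G(Y) ≤ G(y)`.

EL: `rt (y T y) - rt (Y T Y) = 2 rt (T Y (y - Y)) + rt ((y - Y) T (y - Y))`, so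
`0 ≤ G(y) - G(Y) = rt ((g + ν D - 2 T Y)(y - Y)) - rt ((y - Y) T (y - Y))`.

`F(Y) ≤ F(z0) + 2 ν`: `G(Y) ≤ G(z0)`, `|rt (D Y)|, |rt (D z0)| ≤ 1`.
-/

open Filter Topology
open scoped InnerProductSpace ComplexOrder

universe u

namespace Pool.Agent.PTH

variable {A : Type u} [CStarAlgebra A] [PartialOrder A] [StarOrderedRing A] [TracialVN A]

omit [PartialOrder A] [StarOrderedRing A] in
private theorem abs_rt_mul_le_norm (x y : A) : |rt (x * y)| ≤ ‖x‖ * ‖y‖ :=
  (abs_rt_mul_le x y).trans (mul_le_mul (two_le_norm x) (two_le_norm y) (two_nonneg y)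
    (norm_nonneg x))

private theorem F_lip (W : UA A) (g : A) {x y : A} (hx : ‖x‖ ≤ 1) (hy : ‖y‖ ≤ 1) :
    |(rt (g * x) - rt (x * W.T x)) - (rt (g * y) - rt (y * W.T y))| ≤
      (‖g‖ + 2) * two (x - y) := by
  have e : (rt (g * x) - rt (x * W.T x)) - (rt (g * y) - rt (y * W.T y)) =
      rt (g * (x - y)) - rt ((x - y) * W.T x) - rt (y * W.T (x - y)) := by
    have e1 : rt ((x - y) * W.T x) = rt (x * W.T x) - rt (y * W.T x) := by
      rw [sub_mul, rt_sub]
    have e2 : rt (y * W.T (x - y)) = rt (y * W.T x) - rt (y * W.T y) := by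
      rw [map_sub, mul_sub, rt_sub]
    rw [e1, e2, mul_sub, rt_sub]
    ring
  have t0 := two_nonneg (x - y)
  have b1 : |rt (g * (x - y))| ≤ ‖g‖ * two (x - y) :=
    (abs_rt_mul_le _ _).trans (mul_le_mul_of_nonneg_right (two_le_norm g) t0)
  have b2 : |rt ((x - y) * W.T x)| ≤ two (x - y) := by
    refine (abs_rt_mul_le _ _).trans ?_
    have h1 : two (W.T x) ≤ 1 := (two_le_norm _).trans ((W.norm_T_le x).trans hx)
    nlinarith
  have b3 : |rt (y * W.T (x - y))| ≤ two (x - y) := by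
    refine (abs_rt_mul_le _ _).trans ?_
    have h1 : two y ≤ 1 := (two_le_norm _).trans hy
    have h2 := W.two_T_le (x - y)
    have h3 := two_nonneg (W.T (x - y))
    have h4 := two_nonneg y
    nlinarith
  rw [e]
  have a1 := abs_sub (rt (g * (x - y)) - rt ((x - y) * W.T x)) (rt (y * W.T (x - y)))
  have a2 := abs_sub (rt (g * (x - y))) (rt ((x - y) * W.T x))
  linarith

private theorem B_comm (W : UA A) (x y : A) : rt (x * W.T y) = rt (y * W.T x) := by
  rw [← W.rt_T_symm, rt_comm]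

/-- the quadratic form around a point -/
private theorem B_expand (W : UA A) (x y : A) :
    rt ((x - y) * W.T (x - y)) = rt (x * W.T x) - 2 * rt (x * W.T y) + rt (y * W.T y) := by
  have e1 : (x - y) * W.T (x - y) = x * W.T x - x * W.T y - y * W.T x + y * W.T y := by
    rw [map_sub]
    noncomm_ring
  rw [e1, rt_add, rt_sub, rt_sub, B_comm W y x]
  ring

private theorem min_all (W : UA A) (hP : W.Pos) {ν : ℝ} {z g Y D : A} (hz : Prj z)
    (hmin : ∀ y : A, Prj y → z * y = y →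
      (rt (g * Y) - rt (Y * W.T Y)) + ν * rt (D * Y) ≤
        (rt (g * y) - rt (y * W.T y)) + ν * rt (D * y)) {y : A} (hy : 0 ≤ y) (hyz : y ≤ z) :
    (rt (g * Y) - rt (Y * W.T Y)) + ν * rt (D * Y) ≤
      (rt (g * y) - rt (y * W.T y)) + ν * rt (D * y) := by
  set c : ℝ := (rt (g * Y) - rt (Y * W.T Y)) + ν * rt (D * Y) with hc
  have hy1 : y ≤ (1 : ℝ) • (1 : A) := by
    rw [one_smul]
    exact hyz.trans (proj_le_one hz)
  -- the level projections are below `z`
  have hspr : ∀ t : ℝ, 0 < t → z * spr y t = spr y t := by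
    intro t ht
    have h1 : t • spr y t ≤ z := (smul_spr_le hy ht.le).trans hyz
    have h2 : spr y t ≤ (1 / t) • z := by
      have h3 := smul_le_smul_of_nonneg_left h1 (by positivity : (0 : ℝ) ≤ 1 / t)
      rwa [smul_smul, one_div_mul_cancel ht.ne', one_smul] at h3
    have h4 := mul_prj_of_le_smul (spr_nonneg y t) hz h2
    have h5 := congrArg star h4
    rwa [star_mul, hz.1, spr_sa] at h5
  -- the inequality for the step approximations
  have hstep : ∀ n : ℕ, c ≤ rt (g * stp y (1 / ((n : ℝ) + 1)) (n + 1)) -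
      rt (stp y (1 / ((n : ℝ) + 1)) (n + 1) * W.T (stp y (1 / ((n : ℝ) + 1)) (n + 1))) +
      ν * rt (D * stp y (1 / ((n : ℝ) + 1)) (n + 1)) := by
    intro n
    set δ : ℝ := 1 / ((n : ℝ) + 1) with hδ
    have hδ0 : 0 < δ := by positivity
    have hsum : ∑ _k ∈ Finset.range (n + 1), δ = 1 := by
      rw [Finset.sum_const, Finset.card_range, nsmul_eq_mul, hδ]
      push_cast
      exact mul_one_div_cancel (by positivity)
    set s : A := stp y δ (n + 1) with hs
    have hs' : s = ∑ k ∈ Finset.range (n + 1), δ • spr y (((k : ℝ) + 1) * δ) := hs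
    have hk : ∀ k ∈ Finset.range (n + 1), δ * c ≤
        δ * rt (g * spr y (((k : ℝ) + 1) * δ)) - 2 * (δ * rt (spr y (((k : ℝ) + 1) * δ) * W.T s)) +
          δ * rt (s * W.T s) + ν * (δ * rt (D * spr y (((k : ℝ) + 1) * δ))) := by
      intro k _
      have ht : 0 < ((k : ℝ) + 1) * δ := by positivity
      have h1 := hmin _ (spr_prj y (((k : ℝ) + 1) * δ)) (hspr _ ht)
      have h2 := hP.1 (spr y (((k : ℝ) + 1) * δ) - s)
      have h3 : star (spr y (((k : ℝ) + 1) * δ) - s) = spr y (((k : ℝ) + 1) * δ) - s := by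
        rw [star_sub, spr_sa, (IsSelfAdjoint.of_nonneg (stp_nonneg y hδ0.le (n + 1))).star_eq]
      rw [h3, B_expand] at h2
      have h4 : c ≤ rt (g * spr y (((k : ℝ) + 1) * δ)) -
          2 * rt (spr y (((k : ℝ) + 1) * δ) * W.T s) + rt (s * W.T s) +
          ν * rt (D * spr y (((k : ℝ) + 1) * δ)) := by linarith
      have h5 := mul_le_mul_of_nonneg_left h4 hδ0.le
      calc δ * c ≤ _ := h5
        _ = _ := by ring
    have h6 := Finset.sum_le_sum hk
    rw [← Finset.sum_mul, hsum, one_mul] at h6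
    refine h6.trans (le_of_eq ?_)
    have e1 : ∀ a : A, rt (a * s) = ∑ k ∈ Finset.range (n + 1),
        δ * rt (a * spr y (((k : ℝ) + 1) * δ)) := by
      intro a
      rw [hs', Finset.mul_sum, rt_sum]
      exact Finset.sum_congr rfl fun k _ => by rw [mul_smul_comm, rt_smul]
    have e2 : rt (s * W.T s) = ∑ k ∈ Finset.range (n + 1),
        δ * rt (spr y (((k : ℝ) + 1) * δ) * W.T s) := by
      rw [rt_comm, e1]
      exact Finset.sum_congr rfl fun k _ => by rw [rt_comm]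
    have e3 : ∑ k ∈ Finset.range (n + 1), 2 * (δ * rt (spr y (((k : ℝ) + 1) * δ) * W.T s)) =
        2 * rt (s * W.T s) := by
      rw [← Finset.mul_sum, ← e2]
    have e4 : ∑ k ∈ Finset.range (n + 1), ν * (δ * rt (D * spr y (((k : ℝ) + 1) * δ))) =
        ν * rt (D * s) := by
      rw [← Finset.mul_sum, ← e1 D]
    have e5 : ∑ _k ∈ Finset.range (n + 1), δ * rt (s * W.T s) = rt (s * W.T s) := by
      rw [← Finset.sum_mul, hsum, one_mul]
    rw [Finset.sum_add_distrib, Finset.sum_add_distrib, Finset.sum_sub_distrib, e3, e4, e5,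
      ← e1 g]
    ring
  -- the limit
  have hd : ∀ n : ℕ, ‖stp y (1 / ((n : ℝ) + 1)) (n + 1) - y‖ ≤ 1 / ((n : ℝ) + 1) := by
    intro n
    refine norm_stp_sub_le hy (by positivity) ?_
    have e : (((n + 1 : ℕ) : ℝ)) * (1 / ((n : ℝ) + 1)) = 1 := by
      push_cast
      exact mul_one_div_cancel (by positivity)
    rw [e]
    exact hy1
  have hl : Tendsto (fun n : ℕ => two (stp y (1 / ((n : ℝ) + 1)) (n + 1) - y)) atTop (𝓝 0) :=
    lim_of_norm (squeeze_zero (fun _ => norm_nonneg _) hd tendsto_one_div_add_atTop_nhds_zero_nat)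
  have hn : ∀ n : ℕ, ‖stp y (1 / ((n : ℝ) + 1)) (n + 1)‖ ≤ 1 := by
    intro n
    have hδ0 : (0 : ℝ) < 1 / ((n : ℝ) + 1) := by positivity
    exact norm_le_of_le_smul (stp_nonneg y hδ0.le (n + 1)) zero_le_one
      ((stp_le hy hδ0 (n + 1)).trans hy1)
  have hlT : Tendsto (fun n : ℕ => two (W.T (stp y (1 / ((n : ℝ) + 1)) (n + 1)) - W.T y)) atTop
      (𝓝 0) := by
    refine squeeze_zero (fun _ => two_nonneg _) (fun n => ?_) hl
    rw [← map_sub]
    exact W.two_T_le _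
  have h1 := lim_rt_mul g hl
  have h2 := lim_rt_mul D hl
  have h3 := lim_rt (lim_mul (C := 1) (fun n => (W.norm_T_le _).trans (hn n)) hl hlT)
  exact ge_of_tendsto' ((h1.sub h3).add (h2.const_mul ν)) hstep

theorem exists_min (W : UA A) (hP : W.Pos) {ν εg : ℝ} {z g z0 : A} (hz : Prj z) (hg : 0 ≤ g)
    (zg : z * g = g * z) (gc : ∀ i, ‖W.u i * g - g * W.u i‖ ≤ εg) (hν : 0 < ν) (hν' : ν ≤ 1 / 2)
    (he : 0 ≤ εg) (he' : εg ≤ 1) (hz0 : Prj z0) (zz0 : z * z0 = z0) :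
    ∃ Y D : A, Mn W ν εg z Y g D ∧
      rt (g * Y) - rt (Y * W.T Y) ≤ rt (g * z0) - rt (z0 * W.T z0) + 2 * ν := by
  obtain ⟨Y, D, hY, hzY, hD, hDn, hmin⟩ := borwein hz
    (fun y : A => rt (g * y) - rt (y * W.T y)) (C := ‖g‖ + 2) (m := -1) hν
    (fun x y hx hy => F_lip W g (norm_proj_le hx) (norm_proj_le hy)) (by
      intro x hx
      have h1 : 0 ≤ rt (g * x) := rt_mul_nonneg hg (proj_nonneg hx)
      have h2 : |rt (x * W.T x)| ≤ ‖x‖ * ‖W.T x‖ := abs_rt_mul_le_norm _ _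
      have h3 : ‖x‖ ≤ 1 := norm_proj_le hx
      have h4 : ‖W.T x‖ ≤ 1 := (W.norm_T_le x).trans h3
      have h5 := le_abs_self (rt (x * W.T x))
      have h6 := norm_nonneg x
      have h7 := norm_nonneg (W.T x)
      nlinarith)
  have hmin' : ∀ y : A, Prj y → z * y = y →
      (rt (g * Y) - rt (Y * W.T Y)) + ν * rt (D * Y) ≤
        (rt (g * y) - rt (y * W.T y)) + ν * rt (D * y) := hmin
  refine ⟨Y, D, ⟨hz, hY, hzY, hg, zg, gc, hD, hDn, hν.le, hν', he, he', hP, ?_⟩, ?_⟩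
  · intro y hy hyz
    have h1 := min_all W hP hz hmin' hy hyz
    have h2 := B_expand W y Y
    have e1 : rt ((g + (ν • D - (2 : ℝ) • W.T Y)) * (y - Y)) =
        (rt (g * y) - rt (g * Y)) + ν * (rt (D * y) - rt (D * Y)) -
          2 * (rt (W.T Y * y) - rt (W.T Y * Y)) := by
      have e2 : (g + (ν • D - (2 : ℝ) • W.T Y)) * (y - Y) =
          (g * y - g * Y) + (ν • (D * y - D * Y) - (2 : ℝ) • (W.T Y * y - W.T Y * Y)) := by
        rw [add_mul, sub_mul, smul_mul_assoc, smul_mul_assoc, mul_sub, mul_sub, mul_sub]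
      rw [e2, rt_add, rt_sub, rt_sub, rt_smul, rt_smul, rt_sub, rt_sub]
      ring
    have e3 : rt (W.T Y * y) = rt (y * W.T Y) := rt_comm _ _
    have e4 : rt (W.T Y * Y) = rt (Y * W.T Y) := rt_comm _ _
    rw [h2, e1, e3, e4]
    linarith
  · have h1 := hmin' z0 hz0 zz0
    have b : ∀ x : A, Prj x → |rt (D * x)| ≤ 1 := by
      intro x hx
      refine (abs_rt_mul_le_norm D x).trans ?_
      have h3 := norm_proj_le hx
      have h6 := norm_nonneg x
      have h7 := norm_nonneg D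
      nlinarith
    have b1 := (abs_le.1 (b Y hY)).1
    have b2 := (abs_le.1 (b z0 hz0)).2
    nlinarith

end Pool.Agent.PTH
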