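import Pool.Agent.PTH.RgZ0
import Pool.Agent.PTH.RgMin
import Pool.Agent.PTH.RgCr
import Pool.Agent.PTH.RgEn
import Pool.Agent.PTH.RgHG

/-!
# PTH / RgMain: assembly of the region theorem
-/

open Filter Topology
open scoped InnerProductSpace ComplexOrder

universe u

namespace Pool.Agent.PTH

theorem HW_mono {A : Type u} [CStarAlgebra A] [PartialOrder A] [StarOrderedRing A] [TracialVN A]
    {W : UA A} {g : A} {M M' σ σ' : ℝ} (h : HW W g M σ) (hM : M' ≤ M) (hσ : σ ≤ σ') :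
    HW W g M' σ' := fun B hB ξ h1 h2 h3 =>
  (h B hB ξ h1 (h2.trans hM) (h3.trans hM)).trans hσ

theorem region_main (c ε' e1 e' : ℝ) (hc : 0 < c) (hc1 : c < 1) (hε' : 0 < ε') (he1 : 0 < e1)
    (he' : 0 < e') :
    ∃ δb > 0, ∃ k0 : ℕ, ∃ κ1 > (0 : ℝ),
      ∀ (A : Type u) [CStarAlgebra A] [PartialOrder A] [StarOrderedRing A] [TracialVN A]
        (a : Avg A) (h b : A), 0 ≤ h → GI a h c → 0 ≤ b → b ≤ 1 →
        (∀ i, ‖a.u i * b - b * a.u i‖ ≤ δb) →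
        (∀ j ≤ k0, (1 - spr b (3 / 4)) * (a.T ^ j) h * (1 - spr b (3 / 4)) ≤
          κ1 • (1 - spr b (3 / 4))) →
        ε' ≤ rt (1 - spr b (1 / 8)) →
        ∃ Y : A, Prj Y ∧ (1 - spr b (3 / 4)) * Y = Y ∧ ε' / 2 ≤ rt Y ∧ a.en Y ≤ e1 * rt Y ∧
          HG a Y (c / 64) e' := by
  obtain ⟨ψ, hψ, HHG⟩ := hg_of.{u} hc hc1 he'
  obtain ⟨θ1, hθ1, G1, hG1, HC⟩ := corY.{u} hψ
  have hη : 0 < e1 * (ε' / 2) := by positivity
  obtain ⟨M2, hM2, θ2, hθ2, G2, hG2, HE⟩ := enY.{u} hη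
  -- parameters
  obtain ⟨M, hM5, hM2'⟩ : ∃ M : ℝ, 5 ≤ M ∧ M2 ≤ M := ⟨max 5 M2, le_max_left _ _, le_max_right _ _⟩
  obtain ⟨θ, hθ, hθ1', hθ2', hθ3, hθ4⟩ : ∃ θ : ℝ, 0 < θ ∧ θ ≤ θ1 ∧ θ ≤ θ2 ∧ θ ≤ 1 / 2 ∧
      θ ≤ ε' / 16 := by
    refine ⟨min (min θ1 θ2) (min (1 / 2) (ε' / 16)), by positivity, ?_, ?_, ?_, ?_⟩
    · exact (min_le_left _ _).trans (min_le_left _ _)
    · exact (min_le_left _ _).trans (min_le_right _ _)
    · exact (min_le_right _ _).trans (min_le_left _ _)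
    · exact (min_le_right _ _).trans (min_le_right _ _)
  obtain ⟨G0, hG0, hG01, hG02, hG03⟩ : ∃ G0 : ℝ, 0 < G0 ∧ G1 ≤ G0 ∧ G2 ≤ G0 ∧
      8 * ((M + 1) / G0) ≤ θ / 4 := by
    have hM1 : 0 < M + 1 := by linarith
    refine ⟨max (max G1 G2) (32 * (M + 1) / θ), by positivity, ?_, ?_, ?_⟩
    · exact (le_max_left _ _).trans (le_max_left _ _)
    · exact (le_max_right _ _).trans (le_max_left _ _)
    · have h1 : 32 * (M + 1) / θ ≤ max (max G1 G2) (32 * (M + 1) / θ) := le_max_right _ _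
      have h2 : 0 < 32 * (M + 1) / θ := by positivity
      have h3 : (M + 1) / max (max G1 G2) (32 * (M + 1) / θ) ≤ (M + 1) / (32 * (M + 1) / θ) :=
        div_le_div_of_nonneg_left hM1.le h2 h1
      have h4 : (M + 1) / (32 * (M + 1) / θ) = θ / 32 := by field_simp
      rw [h4] at h3
      linarith
  obtain ⟨N, hN⟩ : ∃ N : ℕ, G0 * (1 / 3 : ℝ) ^ N ≤ ε' / 8 := by
    obtain ⟨N, hN⟩ := exists_pow_lt_of_lt_one (show 0 < ε' / 8 / G0 by positivity)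
      (show (1 / 3 : ℝ) < 1 by norm_num)
    refine ⟨N, ?_⟩
    rw [lt_div_iff₀ hG0] at hN
    linarith
  obtain ⟨k, hk1, hk⟩ : ∃ k : ℕ, 1 ≤ k ∧ 2 * (k * (1 - c) ^ k) ≤ θ / 4 := by
    have h1 : Tendsto (fun k : ℕ => (k : ℝ) * (1 - c) ^ k) atTop (𝓝 0) :=
      tendsto_self_mul_const_pow_of_lt_one (by linarith) (by linarith)
    have h2 := h1.eventually (gt_mem_nhds (show (0 : ℝ) < θ / 8 by positivity))
    obtain ⟨k, hk, hk'⟩ := (h2.and (eventually_ge_atTop 1)).exists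
    exact ⟨k, hk', by linarith⟩
  have hk0 : (0 : ℝ) < k := by exact_mod_cast hk1
  obtain ⟨κ1, hκ, hκ1, hκ2⟩ : ∃ κ1 : ℝ, 0 < κ1 ∧ 4 * k * κ1 / c ≤ 1 / 32 ∧
      2 * (k * (2 * κ1 / c)) ≤ θ / 4 := by
    refine ⟨min (c / (128 * k)) (θ * c / (16 * k)), by positivity, ?_, ?_⟩
    · have h1 : min (c / (128 * k)) (θ * c / (16 * k)) ≤ c / (128 * k) := min_le_left _ _
      rw [le_div_iff₀ (by positivity)] at h1
      rw [div_le_iff₀ hc]
      linarith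
    · have h1 : min (c / (128 * k)) (θ * c / (16 * k)) ≤ θ * c / (16 * k) := min_le_right _ _
      rw [le_div_iff₀ (by positivity)] at h1
      have h2 : 2 * (k * (2 * min (c / (128 * k)) (θ * c / (16 * k)) / c)) =
          (min (c / (128 * k)) (θ * c / (16 * k)) * (16 * k)) / (4 * c) := by
        field_simp
        ring
      rw [h2, div_le_iff₀ (by positivity)]
      linarith
  obtain ⟨δb, hδ, hδ1, hδ2⟩ : ∃ δb : ℝ, 0 < δb ∧ G0 * (4 / 3) ^ N * (k * (N * δb)) ≤ θ ∧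
      32 * (k * δb) ≤ ε' / 8 := by
    set Q : ℝ := G0 * (4 / 3) ^ N * k * (N + 1) with hQ
    have hQ0 : 0 < Q := by positivity
    refine ⟨min (θ / Q) (ε' / (256 * k)), by positivity, ?_, ?_⟩
    · have h1 : min (θ / Q) (ε' / (256 * k)) ≤ θ / Q := min_le_left _ _
      have h0 : 0 ≤ min (θ / Q) (ε' / (256 * k)) := by positivity
      rw [le_div_iff₀ hQ0] at h1
      refine le_trans ?_ h1
      have h3 : G0 * (4 / 3) ^ N * (k * (N * min (θ / Q) (ε' / (256 * k)))) =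
          min (θ / Q) (ε' / (256 * k)) * (G0 * (4 / 3) ^ N * k * N) := by ring
      rw [h3]
      refine mul_le_mul_of_nonneg_left ?_ h0
      rw [hQ]
      have h4 : 0 ≤ G0 * (4 / 3) ^ N * (k : ℝ) := by positivity
      nlinarith
    · have h1 : min (θ / Q) (ε' / (256 * k)) ≤ ε' / (256 * k) := min_le_right _ _
      rw [le_div_iff₀ (by positivity)] at h1
      linarith
  refine ⟨δb, hδ, k, κ1, hκ, ?_⟩
  intro A _ _ _ _ a h b hh hGI hb hb1 hcomm hz1 hrt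
  set z : A := 1 - spr b (3 / 4) with hzdef
  set g : A := gpen G0 N b with hgdef
  have hbs : IsSelfAdjoint b := IsSelfAdjoint.of_nonneg hb
  have hz : Prj z := by
    have h1 := spr_prj b (3 / 4)
    refine ⟨by rw [hzdef, star_sub, star_one, h1.1], ?_⟩
    have h2 := h1.2
    have : z * z = 1 - spr b (3 / 4) - spr b (3 / 4) + spr b (3 / 4) * spr b (3 / 4) := by
      rw [hzdef]
      noncomm_ring
    rw [this, h2, hzdef]
    noncomm_ring
  have hg : 0 ≤ g := gpen_nonneg hG0 hb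
  have zg : z * g = g * z := gpen_z hb
  have oz : 1 - z ≤ (1 / G0) • g := gpen_oz hG0 hb
  have gc : ∀ i, ‖(a.pw k).u i * g - g * (a.pw k).u i‖ ≤ θ := fun i =>
    (gpen_comm a hG0 hb hb1 hcomm k i).trans hδ1
  obtain ⟨z0, hz0, zz0, hz01, hz02, hz03⟩ :=
    exists_z0 (N := N) a hG0 hb hb1 hδ hcomm hk1
  obtain ⟨Y, D, hMn, hYmin⟩ := exists_min (a.pw k) (a.pw_pos k) (ν := θ) hz hg zg gc hθ
    hθ3 hθ.le (by linarith) hz0 zz0
  have hM1 : 0 ≤ M + 1 := by linarith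
  have hHW := HW_pw hGI hh hc hc1 hz hκ.le hz1 hg zg hG0 oz hM1
  set σ : ℝ := 2 * (k * ((1 - c) ^ k + 2 * κ1 / c)) + 8 * ((M + 1) / G0) with hσdef
  have hσ0 : 0 ≤ σ := by
    have h1 : 0 ≤ (1 - c) ^ k := pow_nonneg (by linarith) _
    rw [hσdef]
    positivity
  have hσ : σ ≤ θ := by
    rw [hσdef]
    have : 2 * (k * ((1 - c) ^ k + 2 * κ1 / c)) =
      2 * (k * (1 - c) ^ k) + 2 * (k * (2 * κ1 / c)) := by ring
    rw [this]
    linarith
  have hCor := HC A (a.pw k) θ θ σ G0 z Y g D hMn hθ1' hθ1' hσ0 (hσ.trans hθ1') hG01 oz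
    (HW_mono hHW (by linarith) le_rfl)
  have hEn := HE A (a.pw k) θ θ σ G0 z Y g D hMn hθ2' hθ2' hσ0 (hσ.trans hθ2') hG02 oz
    (HW_mono hHW (by linarith) le_rfl)
  have hY := hMn.Y_prj
  -- trace of `Y`
  have hrtY : ε' / 2 ≤ rt Y := by
    have e1' := (a.pw k).en_sa hz0.1
    have e2' := (a.pw k).en_sa hY.1
    rw [two_proj hz0] at e1'
    rw [two_proj hY] at e2'
    have e3 := (a.pw k).en_nonneg Y
    have e4 : 0 ≤ rt (g * Y) := rt_mul_nonneg hg (proj_nonneg hY)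
    linarith
  refine ⟨Y, hY, hMn.zY, hrtY, ?_, ?_⟩
  · have e1' := a.en_le_pw hk1 Y
    nlinarith
  · exact HHG A a h z Y κ1 k hGI hh hz hY hMn.zY hκ.le hz1 hk1 hκ1 hCor

end Pool.Agent.PTH
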