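import Pool.Agent.PTH.RgUa
import Pool.Agent.PTH.Tb3
import Pool.Agent.PTH.TbPj

/-!
# PTH / RgMn: the minimiser and its Euler-Lagrange inequalities

`β = W.T Y`, `P = g + (ν D - 2 β)` (self-adjoint).  `Mn.EL`: for all `0 ≤ y ≤ z`, `d = y - Y`:
`0 ≤ rt (d T d) ≤ rt (P d)` (the lower bound is `W.Pos`: `rt (d T d) ≥ 0` for self-adjoint `d`).

PROOFS.
* `rt_P_le`: `0 ≤ x ≤ Y`: take `y = Y - x` (`≤ Y ≤ z`): `0 ≤ rt (P (-x))`.
* `YPY_le`: for `w ≥ 0`: `x = (‖w‖+1)⁻¹ • Y w Y` satisfies `0 ≤ x ≤ Y`, so `rt (YPY w) ≤ 0`.  Take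
  `w = (YPY)⁺` (positive part, `CFC`): `rt (YPY (YPY)⁺) = rt ((YPY)⁺²) = two((YPY)⁺)² ≤ 0`, so
  `(YPY)⁺ = 0`, i.e. `YPY ≤ 0`.
* `YgY_le`: `YgY = YPY + Y(2β - νD)Y ≤ Y(2β - νD)Y ≤ (2 + ν) Y` (`‖2β - νD‖ ≤ 2 + ν`, a self-adjoint
  `x` has `x ≤ ‖x‖`, conjugate by `Y`).
* `zYPY`: let `k = k*`, `z k = k = k z`, `t : ℝ`.  `y_t = (1 + t²‖k‖²)⁻¹ (1 + i t k) Y (1 - i t k)`:
  `0 ≤ y_t` and `(1 + i t k) Y (1 - i t k) ≤ (1 + i t k) z (1 - i t k) = z (1 + t² k²) z ≤
  (1 + t²‖k‖²) z`.  By EL and positivity `rt (P y_t) ≥ rt (P Y)`, so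
  `rt (P Y) + t rt (P i (kY - Yk)) + t² rt (P k Y k) ≥ (1 + t²‖k‖²) rt (P Y)` for all real `t`:
  the linear coefficient vanishes: `rt (P i (kY - Yk)) = 0`, i.e. `rt (i (Y P - P Y) k) = 0`
  (trace property).  With `k = z i (Y P - P Y) z` (self-adjoint): `two k ^ 2 = rt (k k) =
  rt (i (YP - PY) k) = 0` (`z k z = k`), so `z (YP - PY) z = 0`.  Multiply by `z - Y` on the left
  and by `Y` on the right (`(z - Y) z = z - Y`, `z Y = Y = Y z`, `(z - Y) Y = 0`):
  `(z - Y) (YP - PY) Y = - (z - Y) P Y = 0`.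
* `norm_gY`: `g Y = g z Y = z g Y = Y g Y + (z - Y) g Y` and by `zYPY`
  `(z - Y) g Y = (z - Y) (2β - νD) Y`, norm `≤ 2 + ν`; `0 ≤ Y g Y ≤ (2+ν) Y` has norm `≤ 2 + ν`.
  Total `≤ 4 + 2ν ≤ 5`.
* `norm_g_conj`: `g u_i Y u_i* = u_i g Y u_i* - (u_i g - g u_i) Y u_i*`.  `norm_gT`: average.
* `rt_gY_le`: `rt (g Y) = rt (Y g Y) ≤ (2 + ν) rt Y ≤ 3`.
* `rt_gT_le`: `rt (g T Y) = rt (T(g) Y) ≤ rt (g Y) + ‖T g - g‖ rt Y` (`UA.norm_T_sub_le`).
-/

open Filter Topology
open scoped InnerProductSpace ComplexOrder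

universe u

namespace Pool.Agent.PTH

variable {A : Type u} [CStarAlgebra A] [PartialOrder A] [StarOrderedRing A] [TracialVN A]

/-- Data of the minimiser. -/
structure Mn (W : UA A) (ν εg : ℝ) (z Y g D : A) : Prop where
  z_prj : Prj z
  Y_prj : Prj Y
  zY : z * Y = Y
  g_nonneg : 0 ≤ g
  zg : z * g = g * z
  gc : ∀ i, ‖W.u i * g - g * W.u i‖ ≤ εg
  D_sa : star D = D
  D_le : ‖D‖ ≤ 1
  ν_nonneg : 0 ≤ ν
  ν_le : ν ≤ 1 / 2
  εg_nonneg : 0 ≤ εg
  εg_le : εg ≤ 1
  pos : W.Pos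
  EL : ∀ y : A, 0 ≤ y → y ≤ z →
    rt ((y - Y) * W.T (y - Y)) ≤ rt ((g + (ν • D - (2 : ℝ) • W.T Y)) * (y - Y))

namespace Mn

variable {W : UA A} {ν εg : ℝ} {z Y g D : A} (h : Mn W ν εg z Y g D)

include h

theorem Yz : Y * z = Y := by
  have e := congrArg star h.zY
  rwa [star_mul, h.z_prj.1, h.Y_prj.1] at e

theorem Y_nonneg : 0 ≤ Y := proj_nonneg h.Y_prj

theorem Y_le_z : Y ≤ z := prj_le_of_mul h.Y_prj h.z_prj h.Yz

theorem T_sa : star (W.T Y) = W.T Y := by rw [← W.T_star, h.Y_prj.1]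

theorem R_sa : star (ν • D - (2 : ℝ) • W.T Y) = ν • D - (2 : ℝ) • W.T Y := by
  rw [star_sub, star_smul, star_smul, h.T_sa, h.D_sa, star_trivial, star_trivial]

theorem P_sa : star (g + (ν • D - (2 : ℝ) • W.T Y)) = g + (ν • D - (2 : ℝ) • W.T Y) := by
  rw [star_add, h.R_sa, (IsSelfAdjoint.of_nonneg h.g_nonneg).star_eq]

theorem norm_R : ‖ν • D - (2 : ℝ) • W.T Y‖ ≤ 2 + ν := by
  have h1 : ‖W.T Y‖ ≤ 1 := (W.norm_T_le Y).trans (norm_proj_le h.Y_prj)
  have h2 := h.D_le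
  have h3 := h.ν_nonneg
  refine (norm_sub_le _ _).trans ?_
  rw [norm_smul, norm_smul, Real.norm_of_nonneg h3, Real.norm_of_nonneg (by norm_num)]
  nlinarith [norm_nonneg D, norm_nonneg (W.T Y)]

theorem EL0 {y : A} (hy : 0 ≤ y) (hyz : y ≤ z) :
    rt ((g + (ν • D - (2 : ℝ) • W.T Y)) * Y) ≤ rt ((g + (ν • D - (2 : ℝ) • W.T Y)) * y) := by
  have h1 := h.EL y hy hyz
  have h2 := h.pos.1 (y - Y)
  rw [star_sub, (IsSelfAdjoint.of_nonneg hy).star_eq, h.Y_prj.1] at h2
  rw [mul_sub, rt_sub] at h1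
  linarith

theorem rt_P_le {x : A} (hx : 0 ≤ x) (hx' : x ≤ Y) :
    rt ((g + (ν • D - (2 : ℝ) • W.T Y)) * x) ≤ 0 := by
  have h1 := h.EL0 (sub_nonneg.2 hx') ((sub_le_self Y hx).trans h.Y_le_z)
  rw [mul_sub, rt_sub] at h1
  linarith

theorem YPY_le : Y * (g + (ν • D - (2 : ℝ) • W.T Y)) * Y ≤ 0 := by
  set P := g + (ν • D - (2 : ℝ) • W.T Y) with hP
  have hPs : star P = P := h.P_sa
  have hY := h.Y_prj
  have hsa : IsSelfAdjoint (-(Y * P * Y)) := by
    show star (-(Y * P * Y)) = _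
    rw [star_neg, star_mul, star_mul, hPs, hY.1, mul_assoc]
  refine neg_nonneg.1 (nonneg_of_rt hsa fun a ha => ?_)
  have hna := norm_nonneg a
  set c : ℝ := (‖a‖ + 1)⁻¹ with hc
  have hc0 : 0 < c := by positivity
  have hYaY : 0 ≤ Y * a * Y := by
    have := star_left_conjugate_nonneg ha Y
    rwa [hY.1] at this
  have h1 : Y * a * Y ≤ (‖a‖ + 1) • Y := by
    have e1 : a ≤ ‖a‖ • (1 : A) := le_norm_smul_one (IsSelfAdjoint.of_nonneg ha)
    have e2 := star_left_conjugate_le_conjugate e1 Y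
    rw [hY.1, mul_smul_comm, smul_mul_assoc, mul_one, hY.2] at e2
    refine e2.trans ?_
    rw [add_smul, one_smul]
    exact le_add_of_nonneg_right h.Y_nonneg
  have h2 : c • (Y * a * Y) ≤ Y := by
    have := smul_le_smul_of_nonneg_left h1 hc0.le
    rwa [smul_smul, hc, inv_mul_cancel₀ (by positivity), one_smul] at this
  have h3 := h.rt_P_le (smul_nonneg hc0.le hYaY) h2
  rw [← hP, mul_smul_comm, rt_smul] at h3
  have h4 : rt (P * (Y * a * Y)) ≤ 0 := by
    by_contra hcon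
    push Not at hcon
    have := mul_pos hc0 hcon
    linarith
  have e : rt (a * -(Y * P * Y)) = - rt (P * (Y * a * Y)) := by
    rw [mul_neg, rt_neg]
    congr 1
    have e1 : a * (Y * P * Y) = (a * Y) * (P * Y) := by noncomm_ring
    have e2 : P * (Y * a * Y) = (P * Y) * (a * Y) := by noncomm_ring
    rw [e1, e2, rt_comm]
  rw [e]
  linarith

theorem YRY_le : Y * -(ν • D - (2 : ℝ) • W.T Y) * Y ≤ (2 + ν) • Y := by
  set R := ν • D - (2 : ℝ) • W.T Y with hR
  have hRs : star R = R := h.R_sa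
  have hY := h.Y_prj
  have hν := h.ν_nonneg
  have hsa : IsSelfAdjoint (-R) := by
    show star (-R) = _
    rw [star_neg, hRs]
  have e1 : -R ≤ (2 + ν) • (1 : A) := by
    refine (le_norm_smul_one hsa).trans ?_
    rw [norm_neg]
    exact smul_le_smul_of_nonneg_right h.norm_R zero_le_one
  have e2 := star_left_conjugate_le_conjugate e1 Y
  rwa [hY.1, mul_smul_comm, smul_mul_assoc, mul_one, hY.2] at e2

theorem YgY_le : Y * g * Y ≤ (2 + ν) • Y := by
  have h1 := h.YPY_le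
  have h2 := h.YRY_le
  have e : Y * g * Y = Y * (g + (ν • D - (2 : ℝ) • W.T Y)) * Y +
      Y * -(ν • D - (2 : ℝ) • W.T Y) * Y := by
    noncomm_ring
  rw [e]
  calc _ ≤ 0 + (2 + ν) • Y := add_le_add h1 h2
    _ = _ := zero_add _

/-- Variation along the unitary-like path `1 + t j`. -/
theorem lin_zero {k : A} (hk : star k = k) (hzk : z * k = k) (hkz : k * z = k) :
    rt ((g + (ν • D - (2 : ℝ) • W.T Y)) *
      ((Complex.I • k) * Y - Y * (Complex.I • k))) = 0 := by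
  set P := g + (ν • D - (2 : ℝ) • W.T Y) with hP
  obtain ⟨j, hj⟩ : ∃ j : A, j = Complex.I • k := ⟨_, rfl⟩
  rw [← hj]
  have hjs : star j = -j := by
    rw [hj, star_smul, hk, Complex.star_def, Complex.conj_I, neg_smul]
  have hzj : z * j = j := by rw [hj, mul_smul_comm, hzk]
  have hjz : j * z = j := by rw [hj, smul_mul_assoc, hkz]
  have hjj : j * j = -(k * k) := by
    rw [hj, smul_mul_smul_comm, Complex.I_mul_I, neg_smul, one_smul]
  set M : ℝ := ‖k‖ ^ 2 with hM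
  have hM0 : 0 ≤ M := by positivity
  have hkk : k * k ≤ M • z := by
    have e1 : k * k ≤ M • (1 : A) := by
      have hn : ‖k * k‖ ≤ M := by
        rw [hM, sq]
        exact norm_mul_le _ _
      have hkk0 : IsSelfAdjoint (k * k) := by
        show star (k * k) = _
        rw [star_mul, hk]
      refine (le_norm_smul_one hkk0).trans ?_
      exact smul_le_smul_of_nonneg_right hn zero_le_one
    have e2 := star_left_conjugate_le_conjugate e1 z
    rw [h.z_prj.1, mul_smul_comm, smul_mul_assoc, mul_one, h.z_prj.2] at e2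
    have e3 : z * (k * k) * z = k * k := by
      rw [← mul_assoc, hzk, mul_assoc, hkz]
    rwa [e3] at e2
  have key : ∀ t : ℝ, 0 ≤ t * rt (P * (j * Y - Y * j)) +
      t ^ 2 * (- rt (P * (j * Y * j)) - M * rt (P * Y)) := by
    intro t
    set w : A := 1 + t • j with hw
    have hws : star w = 1 - t • j := by
      rw [hw, star_add, star_one, star_smul, star_trivial, hjs, smul_neg, sub_eq_add_neg]
    set c : ℝ := (1 + t ^ 2 * M)⁻¹ with hc
    have hd : 0 < 1 + t ^ 2 * M := by positivity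
    have hc0 : 0 < c := inv_pos.2 hd
    have hexp : ∀ x : A, w * x * star w = x + t • (j * x - x * j) - (t ^ 2) • (j * x * j) := by
      intro x
      rw [hws, hw]
      simp only [add_mul, mul_sub, one_mul, mul_one, smul_mul_assoc, mul_smul_comm, smul_sub,
        smul_add, smul_smul]
      rw [sq]
      abel
    have h0 : 0 ≤ w * Y * star w := star_right_conjugate_nonneg h.Y_nonneg w
    have h1 : w * Y * star w ≤ (1 + t ^ 2 * M) • z := by
      have e1 := star_right_conjugate_le_conjugate h.Y_le_z w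
      refine e1.trans ?_
      rw [hexp z, hjz, hzj, sub_self, smul_zero, add_zero, hjj, smul_neg, sub_neg_eq_add,
        add_smul, one_smul, mul_smul]
      exact add_le_add le_rfl (smul_le_smul_of_nonneg_left hkk (by positivity))
    have h2 : c • (w * Y * star w) ≤ z := by
      have := smul_le_smul_of_nonneg_left h1 hc0.le
      rwa [smul_smul, hc, inv_mul_cancel₀ hd.ne', one_smul] at this
    have h3 := h.EL0 (smul_nonneg hc0.le h0) h2
    rw [← hP, mul_smul_comm, rt_smul, hexp, mul_sub, mul_add, rt_sub, rt_add, mul_smul_comm,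
      mul_smul_comm, rt_smul, rt_smul] at h3
    have h4 : (1 + t ^ 2 * M) * rt (P * Y) ≤ rt (P * Y) + t * rt (P * (j * Y - Y * j)) -
        t ^ 2 * rt (P * (j * Y * j)) := by
      have := mul_le_mul_of_nonneg_left h3 hd.le
      rwa [← mul_assoc (1 + t ^ 2 * M) c, hc, mul_inv_cancel₀ hd.ne', one_mul] at this
    nlinarith
  set a := rt (P * (j * Y - Y * j)) with ha
  set b := - rt (P * (j * Y * j)) - M * rt (P * Y) with hb
  by_contra hne
  have hb0 : 0 < |b| + 1 := by positivity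
  have h5 := key (-(a / (|b| + 1)))
  have hb1 := le_abs_self b
  have ha2 : 0 < a ^ 2 := by positivity
  have e1 : -(a / (|b| + 1)) * a + (-(a / (|b| + 1))) ^ 2 * b =
      (a ^ 2 / (|b| + 1)) * (b / (|b| + 1) - 1) := by
    field_simp
    ring
  rw [e1] at h5
  have h6 : b / (|b| + 1) < 1 := by
    rw [div_lt_one hb0]
    linarith
  have h7 : 0 < a ^ 2 / (|b| + 1) := by positivity
  nlinarith

theorem zQz : z * (Y * (g + (ν • D - (2 : ℝ) • W.T Y)) -
    (g + (ν • D - (2 : ℝ) • W.T Y)) * Y) * z = 0 := by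
  set P := g + (ν • D - (2 : ℝ) • W.T Y) with hP
  have hPs : star P = P := h.P_sa
  set q : A := Complex.I • (Y * P - P * Y) with hq
  have hqs : star q = q := by
    rw [hq, star_smul, star_sub, star_mul, star_mul, hPs, h.Y_prj.1, Complex.star_def,
      Complex.conj_I, neg_smul, ← smul_neg, neg_sub]
  set k : A := z * q * z with hk
  have hks : star k = k := by
    rw [hk, star_mul, star_mul, hqs, h.z_prj.1, mul_assoc]
  have hzk : z * k = k := by
    rw [hk, ← mul_assoc, ← mul_assoc, h.z_prj.2]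
  have hkz : k * z = k := by
    rw [hk, mul_assoc, h.z_prj.2]
  have h1 := h.lin_zero hks hzk hkz
  rw [← hP] at h1
  have h2 : rt (P * ((Complex.I • k) * Y - Y * (Complex.I • k))) = rt (q * k) := by
    have e1 : P * ((Complex.I • k) * Y - Y * (Complex.I • k)) =
        (P * (Complex.I • k)) * Y - P * Y * (Complex.I • k) := by noncomm_ring
    have e2 : q * k = Y * (P * (Complex.I • k)) - P * Y * (Complex.I • k) := by
      rw [hq]
      simp only [smul_mul_assoc, mul_smul_comm, ← smul_sub]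
      congr 1
      noncomm_ring
    rw [e1, e2, rt_sub, rt_sub, rt_comm]
  rw [h2] at h1
  have h3 : rt (q * k) = two k ^ 2 := by
    rw [two_sq_rt, hks]
    have e3 : k * k = z * (q * (z * k)) := by
      calc k * k = (z * q * z) * k := by rw [← hk]
        _ = _ := by noncomm_ring
    have e4 : rt (k * k) = rt (q * k) := by
      rw [e3, hzk, rt_comm, mul_assoc, hkz]
    exact e4.symm
  rw [h3] at h1
  have h4 : k = 0 := two_eq_zero (pow_eq_zero_iff (two_ne_zero) |>.1 h1)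
  rw [hk, hq, mul_smul_comm, smul_mul_assoc] at h4
  exact (smul_eq_zero.1 h4).resolve_left Complex.I_ne_zero

theorem zYPY : (z - Y) * (g + (ν • D - (2 : ℝ) • W.T Y)) * Y = 0 := by
  set P := g + (ν • D - (2 : ℝ) • W.T Y) with hP
  have h1 := h.zQz
  rw [← hP] at h1
  have hzY := h.zY
  have hYz := h.Yz
  have hYY := h.Y_prj.2
  have hzz := h.z_prj.2
  have e1 : (z - Y) * z = z - Y := by rw [sub_mul, hzz, hYz]
  have e2 : (z - Y) * Y = 0 := by rw [sub_mul, hzY, hYY, sub_self]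
  have h2 : (z - Y) * (z * (Y * P - P * Y) * z) * Y = 0 := by
    rw [h1, mul_zero, zero_mul]
  have h3 : (z - Y) * (z * (Y * P - P * Y) * z) * Y = - ((z - Y) * P * Y) := by
    calc (z - Y) * (z * (Y * P - P * Y) * z) * Y
        = ((z - Y) * z) * (Y * P - P * Y) * (z * Y) := by noncomm_ring
      _ = (z - Y) * (Y * P - P * Y) * Y := by rw [e1, hzY]
      _ = ((z - Y) * Y) * P * Y - (z - Y) * P * (Y * Y) := by noncomm_ring
      _ = _ := by rw [e2, hYY, zero_mul, zero_mul, zero_sub]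
  rw [h3] at h2
  exact neg_eq_zero.1 h2

theorem norm_gY : ‖g * Y‖ ≤ 5 := by
  have hν := h.ν_nonneg
  have hν' := h.ν_le
  have hY := h.Y_prj
  have hYgY0 : 0 ≤ Y * g * Y := by
    have := star_left_conjugate_nonneg h.g_nonneg Y
    rwa [hY.1] at this
  have n1 : ‖Y * g * Y‖ ≤ 2 + ν := by
    refine norm_le_of_le_smul hYgY0 (by linarith) (h.YgY_le.trans ?_)
    exact smul_le_smul_of_nonneg_left (proj_le_one hY) (by linarith)
  have e1 : (z - Y) * g * Y = (z - Y) * -(ν • D - (2 : ℝ) • W.T Y) * Y := by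
    have h1 := h.zYPY
    rw [mul_add, add_mul] at h1
    rw [mul_neg, neg_mul]
    exact eq_neg_of_add_eq_zero_left h1
  have n2 : ‖(z - Y) * g * Y‖ ≤ 2 + ν := by
    rw [e1]
    have a1 : ‖z - Y‖ ≤ 1 := norm_proj_le (prj_sub hY h.z_prj h.Yz)
    have a2 : ‖Y‖ ≤ 1 := norm_proj_le hY
    have a3 := h.norm_R
    have a4 := norm_nonneg (ν • D - (2 : ℝ) • W.T Y)
    calc ‖(z - Y) * -(ν • D - (2 : ℝ) • W.T Y) * Y‖
        ≤ ‖(z - Y) * -(ν • D - (2 : ℝ) • W.T Y)‖ * ‖Y‖ := norm_mul_le _ _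
      _ ≤ (‖z - Y‖ * ‖-(ν • D - (2 : ℝ) • W.T Y)‖) * ‖Y‖ :=
          mul_le_mul_of_nonneg_right (norm_mul_le _ _) (norm_nonneg _)
      _ ≤ (1 * (2 + ν)) * 1 := by
          rw [norm_neg]
          gcongr
      _ = 2 + ν := by ring
  have e2 : g * Y = Y * g * Y + (z - Y) * g * Y := by
    calc g * Y = g * (z * Y) := by rw [h.zY]
      _ = (g * z) * Y := by rw [mul_assoc]
      _ = (z * g) * Y := by rw [h.zg]
      _ = _ := by noncomm_ring
  rw [e2]
  refine (norm_add_le _ _).trans ?_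
  linarith

theorem norm_g_conj (i : W.ι) : ‖g * (W.u i * Y * star (W.u i))‖ ≤ 6 := by
  have hu := W.norm_u_le i
  have hu' : ‖star (W.u i)‖ ≤ 1 := by rwa [norm_star]
  have a2 : ‖Y‖ ≤ 1 := norm_proj_le h.Y_prj
  have n1 := h.norm_gY
  have n2 := h.gc i
  have e : g * (W.u i * Y * star (W.u i)) = W.u i * (g * Y) * star (W.u i) -
      (W.u i * g - g * W.u i) * Y * star (W.u i) := by noncomm_ring
  rw [e]
  have b1 : ‖W.u i * (g * Y) * star (W.u i)‖ ≤ 1 * 5 * 1 := by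
    refine (norm_mul_le _ _).trans ?_
    refine mul_le_mul ((norm_mul_le _ _).trans ?_) hu' (norm_nonneg _) (by norm_num)
    exact mul_le_mul hu n1 (norm_nonneg _) (by norm_num)
  have b2 : ‖(W.u i * g - g * W.u i) * Y * star (W.u i)‖ ≤ εg * 1 * 1 := by
    refine (norm_mul_le _ _).trans ?_
    have hε := h.εg_nonneg
    refine mul_le_mul ((norm_mul_le _ _).trans ?_) hu' (norm_nonneg _) (by linarith)
    exact mul_le_mul n2 a2 (norm_nonneg _) hε
  have hε := h.εg_le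
  refine (norm_sub_le _ _).trans ?_
  linarith

theorem norm_gT : ‖g * W.T Y‖ ≤ 6 := by
  have e : g * W.T Y = ∑ i, (W.p i : ℂ) • (g * (W.u i * Y * star (W.u i))) := by
    rw [W.T_apply, Finset.mul_sum]
    exact Finset.sum_congr rfl fun i _ => mul_smul_comm _ _ _
  rw [e]
  refine (norm_sum_le _ _).trans ?_
  have b : ∀ i, ‖(W.p i : ℂ) • (g * (W.u i * Y * star (W.u i)))‖ ≤ W.p i * 6 := by
    intro i
    rw [norm_smul, Complex.norm_real, Real.norm_of_nonneg (W.p_nonneg i)]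
    exact mul_le_mul_of_nonneg_left (h.norm_g_conj i) (W.p_nonneg i)
  refine (Finset.sum_le_sum fun i _ => b i).trans ?_
  rw [← Finset.sum_mul, W.p_sum, one_mul]

theorem rt_Y_le : rt Y ≤ 1 := by
  have h1 := rt_mono (proj_le_one h.Y_prj)
  have h2 : rt (1 : A) = 1 := by
    unfold rt
    rw [TrAlg.tau_one, Complex.one_re]
  rwa [h2] at h1

theorem rt_gY_le : rt (g * Y) ≤ 3 := by
  have hν := h.ν_nonneg
  have hν' := h.ν_le
  have e : rt (g * Y) = rt (Y * g * Y) := by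
    have e1 : rt (Y * g * Y) = rt (Y * (Y * g)) := rt_comm _ _
    rw [e1, ← mul_assoc, h.Y_prj.2, rt_comm]
  rw [e]
  have h1 := rt_mono h.YgY_le
  rw [rt_smul] at h1
  have h2 := h.rt_Y_le
  have h3 := rt_nonneg h.Y_nonneg
  nlinarith

theorem rt_gT_le : rt (g * W.T Y) ≤ 4 := by
  have hε := h.εg_le
  have h0 := h.εg_nonneg
  have e1 : rt (g * W.T Y) = rt (W.T g * Y) := (W.rt_T_symm g Y).symm
  have e2 : W.T g * Y = g * Y + (W.T g - g) * Y := by noncomm_ring
  have h1 : rt ((W.T g - g) * Y) ≤ 1 := by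
    rw [rt_comm]
    refine (le_abs_self _).trans ((abs_rt_mul_le_rt h.Y_nonneg).trans ?_)
    have h2 := h.rt_Y_le
    have h3 := rt_nonneg h.Y_nonneg
    have h4 := W.norm_T_sub_le h.gc
    have h5 := norm_nonneg (W.T g - g)
    nlinarith
  rw [e1, e2, rt_add]
  have := h.rt_gY_le
  linarith

end Mn

end Pool.Agent.PTH
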