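import Pool.Agent.PTH.RgUa
import Pool.Agent.PTH.AvD

/-!
# PTH / RgUb: API of the word averages `W : UA A` on bimodules

Same proofs as in `AvB`, `AvD` (for `Avg`).

* `norm_TB_sq_le`: `hP.2 B (ξ - TB ξ)`, expand with `TB_symm`, `⟨TB TB ξ, TB ξ⟩ ≤ ‖TB ξ‖²`.
* `eB_eq`: `‖u_i ξ - ξ u_i‖² = 2 ‖ξ‖² - 2 Re ⟨ξ, u_i ξ u_i*⟩` up to `inv` (real parts of the inner
  products of `u_i ξ` and `ξ u_i`).
* `sqrt_eB_add_le`: Minkowski in the weighted `ℓ²` sum (or Cauchy-Schwarz for the semi-inner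
  product `Re ⟨ξ, η - TB η⟩`); `inner_sub_le`: Cauchy-Schwarz for the semi-inner product
  `⟨η, ξ - TB ξ⟩ = 1/2 ∑ p_i ⟨u_i η - η u_i, u_i ξ - ξ u_i⟩`.
* `sum_norm_le`: `‖u_i ξ u_i* - ξ‖ = ‖u_i ξ - ξ u_i‖`, Cauchy-Schwarz with weights.
* `TB_l_sub`: `TB (xξ) - T(x)ξ = ∑ p_i u_i x u_i* (u_i ξ u_i* - ξ)`.
* `d1_LD`: as `Bim.d1_LD` in `AvD`: the left density of `u_i ξ u_i*` is `u_i y u_i*`.
-/

open Filter Topology
open scoped InnerProductSpace ComplexOrder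

universe u

namespace Pool.Agent.PTH

namespace UA

variable {A : Type u} [CStarAlgebra A] (W : UA A) (B : Bim.{u} A)

theorem TB_apply (ξ : B.H) :
    W.TB B ξ = ∑ i, (W.p i : ℂ) • B.l (W.u i) (B.r (star (W.u i)) ξ) := by
  unfold TB
  rw [_root_.sum_apply]
  rfl

theorem norm_V (i : W.ι) (ξ : B.H) : ‖B.l (W.u i) (B.r (star (W.u i)) ξ)‖ = ‖ξ‖ := by
  rw [B.norm_l_unitary _ (W.u_star_mul i), B.norm_r_unitary _ (by rw [star_star, W.u_star_mul])]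

theorem sum_p_inv (f : W.ι → ℂ) : ∑ i, (W.p i : ℂ) * f (W.inv i) = ∑ i, (W.p i : ℂ) * f i := by
  have h : Function.Bijective W.inv := (show Function.Involutive W.inv from W.inv_inv).bijective
  rw [← h.sum_comp (fun i => (W.p i : ℂ) * f i)]
  refine Finset.sum_congr rfl fun i _ => ?_
  rw [W.p_inv]

theorem inner_TB (ξ η : B.H) :
    ⟪ξ, W.TB B η⟫_ℂ = ∑ i, (W.p i : ℂ) * ⟪ξ, B.l (W.u i) (B.r (star (W.u i)) η)⟫_ℂ := by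
  rw [TB_apply, inner_sum]
  refine Finset.sum_congr rfl fun i _ => ?_
  rw [inner_smul_right]

theorem inner_TB' (ξ η : B.H) :
    ⟪ξ, W.TB B η⟫_ℂ = ∑ i, (W.p i : ℂ) * ⟪ξ, B.l (star (W.u i)) (B.r (W.u i) η)⟫_ℂ := by
  rw [inner_TB, ← sum_p_inv W (fun i => ⟪ξ, B.l (W.u i) (B.r (star (W.u i)) η)⟫_ℂ)]
  refine Finset.sum_congr rfl fun i _ => ?_
  rw [W.u_inv, star_star]

theorem TB_symm (ξ η : B.H) : ⟪W.TB B ξ, η⟫_ℂ = ⟪ξ, W.TB B η⟫_ℂ := by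
  rw [inner_TB', TB_apply, sum_inner]
  refine Finset.sum_congr rfl fun i _ => ?_
  rw [inner_smul_left, B.inner_l, B.inner_r, star_star, ← B.l_r, Complex.conj_ofReal]

theorem norm_TB_le (ξ : B.H) : ‖W.TB B ξ‖ ≤ ‖ξ‖ := by
  rw [TB_apply]
  refine (norm_sum_le _ _).trans ?_
  have h : ∀ i, ‖(W.p i : ℂ) • B.l (W.u i) (B.r (star (W.u i)) ξ)‖ = W.p i * ‖ξ‖ := by
    intro i
    rw [norm_smul, norm_V, Complex.norm_real, Real.norm_of_nonneg (W.p_nonneg i)]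
  simp only [h]
  rw [← Finset.sum_mul, W.p_sum, one_mul]

/-- the polarised energy -/
theorem eB_polar (ξ η : B.H) :
    ⟪η, ξ - W.TB B ξ⟫_ℂ = ((1 / 2 : ℝ) : ℂ) * ∑ i, (W.p i : ℂ) *
      ⟪B.l (W.u i) η - B.r (W.u i) η, B.l (W.u i) ξ - B.r (W.u i) ξ⟫_ℂ := by
  have h1 : ∀ i, ⟪B.l (W.u i) η - B.r (W.u i) η, B.l (W.u i) ξ - B.r (W.u i) ξ⟫_ℂ =
      2 * ⟪η, ξ⟫_ℂ - ⟪η, B.l (star (W.u i)) (B.r (W.u i) ξ)⟫_ℂ -
        ⟪η, B.l (W.u i) (B.r (star (W.u i)) ξ)⟫_ℂ := by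
    intro i
    rw [inner_sub_left, inner_sub_right, inner_sub_right, B.inner_l, B.inner_l, B.inner_r,
      B.inner_r, ← B.l_mul, ← B.r_mul, W.u_star_mul, W.u_mul_star, B.l_one, B.r_one,
      B.l_r (W.u i)]
    ring
  have h2 : ∑ i, (W.p i : ℂ) = 1 := by
    rw [← Complex.ofReal_sum, W.p_sum, Complex.ofReal_one]
  have h3 : ∑ i, (W.p i : ℂ) *
      ⟪B.l (W.u i) η - B.r (W.u i) η, B.l (W.u i) ξ - B.r (W.u i) ξ⟫_ℂ =
      2 * ⟪η, ξ⟫_ℂ - ⟪η, W.TB B ξ⟫_ℂ - ⟪η, W.TB B ξ⟫_ℂ := by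
    have e1 := inner_TB W B η ξ
    have e2 := inner_TB' W B η ξ
    calc _ = ∑ i, ((W.p i : ℂ) * (2 * ⟪η, ξ⟫_ℂ) -
            (W.p i : ℂ) * ⟪η, B.l (star (W.u i)) (B.r (W.u i) ξ)⟫_ℂ -
            (W.p i : ℂ) * ⟪η, B.l (W.u i) (B.r (star (W.u i)) ξ)⟫_ℂ) := by
          refine Finset.sum_congr rfl fun i _ => ?_
          rw [h1]
          ring
      _ = _ := by
          rw [Finset.sum_sub_distrib, Finset.sum_sub_distrib, ← Finset.sum_mul, h2, one_mul, ← e1,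
            ← e2]
  rw [h3, inner_sub_right]
  push_cast
  ring

theorem re_inner_self (ξ : B.H) : (⟪ξ, ξ⟫_ℂ).re = ‖ξ‖ ^ 2 := by
  rw [inner_self_eq_norm_sq_to_K]
  norm_cast

theorem eB_eq (ξ : B.H) : W.eB B ξ = (⟪ξ, ξ - W.TB B ξ⟫_ℂ).re := by
  rw [eB_polar, Complex.re_ofReal_mul, Complex.re_sum]
  unfold eB
  congr 1
  refine Finset.sum_congr rfl fun i _ => ?_
  rw [Complex.re_ofReal_mul, inner_self_eq_norm_sq_to_K]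
  norm_cast

theorem eB_nonneg (ξ : B.H) : 0 ≤ W.eB B ξ := by
  unfold eB
  exact mul_nonneg (by norm_num)
    (Finset.sum_nonneg fun i _ => mul_nonneg (W.p_nonneg i) (sq_nonneg _))

theorem eB_smul (c : ℂ) (ξ : B.H) : W.eB B (c • ξ) = ‖c‖ ^ 2 * W.eB B ξ := by
  have h : ∀ i, W.p i * ‖B.l (W.u i) (c • ξ) - B.r (W.u i) (c • ξ)‖ ^ 2 =
      ‖c‖ ^ 2 * (W.p i * ‖B.l (W.u i) ξ - B.r (W.u i) ξ‖ ^ 2) := by
    intro i
    rw [(B.l (W.u i)).map_smul, (B.r (W.u i)).map_smul, ← smul_sub, norm_smul]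
    ring
  unfold eB
  simp only [h]
  rw [← Finset.mul_sum]
  ring

theorem eB_continuous : Continuous fun ξ : B.H => W.eB B ξ := by
  unfold eB
  refine continuous_const.mul (continuous_finsetSum _ fun i _ => continuous_const.mul ?_)
  exact (((B.l (W.u i)).continuous.sub (B.r (W.u i)).continuous).norm).pow 2

private theorem inner_sub_le' (ξ η : B.H) :
    ‖⟪η, ξ - W.TB B ξ⟫_ℂ‖ ≤ Real.sqrt (W.eB B η) * Real.sqrt (W.eB B ξ) := by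
  have h1 : ‖⟪η, ξ - W.TB B ξ⟫_ℂ‖ ≤
      ∑ i, (Real.sqrt (W.p i / 2) * ‖B.l (W.u i) η - B.r (W.u i) η‖) *
      (Real.sqrt (W.p i / 2) * ‖B.l (W.u i) ξ - B.r (W.u i) ξ‖) := by
    rw [eB_polar, norm_mul, Complex.norm_real, Real.norm_of_nonneg (by norm_num : (0 : ℝ) ≤ 1 / 2)]
    refine (mul_le_mul_of_nonneg_left (norm_sum_le _ _) (by norm_num)).trans ?_
    rw [Finset.mul_sum]
    refine Finset.sum_le_sum fun i _ => ?_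
    have hp := W.p_nonneg i
    rw [norm_mul, Complex.norm_real, Real.norm_of_nonneg hp]
    have h2 := norm_inner_le_norm (𝕜 := ℂ) (B.l (W.u i) η - B.r (W.u i) η)
      (B.l (W.u i) ξ - B.r (W.u i) ξ)
    have h3 : Real.sqrt (W.p i / 2) * Real.sqrt (W.p i / 2) = W.p i / 2 :=
      Real.mul_self_sqrt (by positivity)
    calc 1 / 2 * (W.p i * ‖⟪B.l (W.u i) η - B.r (W.u i) η, B.l (W.u i) ξ - B.r (W.u i) ξ⟫_ℂ‖)
        ≤ 1 / 2 * (W.p i * (‖B.l (W.u i) η - B.r (W.u i) η‖ * ‖B.l (W.u i) ξ - B.r (W.u i) ξ‖)) := by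
          gcongr
      _ = (W.p i / 2) * (‖B.l (W.u i) η - B.r (W.u i) η‖ * ‖B.l (W.u i) ξ - B.r (W.u i) ξ‖) := by ring
      _ = (Real.sqrt (W.p i / 2) * Real.sqrt (W.p i / 2)) *
          (‖B.l (W.u i) η - B.r (W.u i) η‖ * ‖B.l (W.u i) ξ - B.r (W.u i) ξ‖) := by rw [h3]
      _ = _ := by ring
  refine h1.trans ?_
  have h4 := Real.sum_mul_le_sqrt_mul_sqrt Finset.univ
    (fun i => Real.sqrt (W.p i / 2) * ‖B.l (W.u i) η - B.r (W.u i) η‖)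
    (fun i => Real.sqrt (W.p i / 2) * ‖B.l (W.u i) ξ - B.r (W.u i) ξ‖)
  have h5 : ∀ ζ : B.H, ∑ i, (Real.sqrt (W.p i / 2) * ‖B.l (W.u i) ζ - B.r (W.u i) ζ‖) ^ 2 =
      W.eB B ζ := by
    intro ζ
    unfold eB
    rw [Finset.mul_sum]
    refine Finset.sum_congr rfl fun i _ => ?_
    have hp := W.p_nonneg i
    rw [mul_pow, Real.sq_sqrt (by positivity)]
    ring
  rw [h5, h5] at h4
  exact h4

theorem sqrt_eB_add_le (ξ η : B.H) :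
    Real.sqrt (W.eB B (ξ + η)) ≤ Real.sqrt (W.eB B ξ) + Real.sqrt (W.eB B η) := by
  have h1 := (Complex.re_le_norm _).trans (inner_sub_le' W B ξ η)
  have h2 := (Complex.re_le_norm _).trans (inner_sub_le' W B η ξ)
  have h3 : W.eB B (ξ + η) = W.eB B ξ + (⟪ξ, η - W.TB B η⟫_ℂ).re +
      (⟪η, ξ - W.TB B ξ⟫_ℂ).re + W.eB B η := by
    rw [eB_eq, eB_eq, eB_eq, map_add]
    have : ξ + η - (W.TB B ξ + W.TB B η) = (ξ - W.TB B ξ) + (η - W.TB B η) := by abel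
    rw [this, inner_add_left, inner_add_right, inner_add_right]
    simp only [Complex.add_re]
    ring
  apply Real.sqrt_le_iff.mpr
  refine ⟨by positivity, ?_⟩
  have h4 := Real.sq_sqrt (W.eB_nonneg B ξ)
  have h5 := Real.sq_sqrt (W.eB_nonneg B η)
  rw [h3]
  nlinarith

theorem inner_sub_le (ξ η : B.H) :
    ‖⟪η, ξ - W.TB B ξ⟫_ℂ‖ ≤ Real.sqrt (W.eB B η) * Real.sqrt (W.eB B ξ) := by
  exact inner_sub_le' W B ξ η

theorem norm_V_sub (i : W.ι) (ξ : B.H) :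
    ‖B.l (W.u i) (B.r (star (W.u i)) ξ) - ξ‖ = ‖B.l (W.u i) ξ - B.r (W.u i) ξ‖ := by
  have h5 : B.l (W.u i) (B.r (star (W.u i)) ξ) - ξ =
      B.r (star (W.u i)) (B.l (W.u i) ξ - B.r (W.u i) ξ) := by
    rw [map_sub, ← B.r_mul, W.u_mul_star, B.r_one, B.l_r]
  rw [h5, B.norm_r_unitary _ (by rw [star_star]; exact W.u_star_mul i)]

theorem sum_norm_sub_le (ξ : B.H) :
    ∑ i, W.p i * ‖B.l (W.u i) ξ - B.r (W.u i) ξ‖ ≤ Real.sqrt (2 * W.eB B ξ) := by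
  refine Real.le_sqrt_of_sq_le ?_
  have h2 := Finset.sum_sq_le_sum_mul_sum_of_sq_le_mul (Finset.univ : Finset W.ι)
    (r := fun i => W.p i * ‖B.l (W.u i) ξ - B.r (W.u i) ξ‖) (f := W.p)
    (g := fun i => W.p i * ‖B.l (W.u i) ξ - B.r (W.u i) ξ‖ ^ 2)
    (fun i _ => W.p_nonneg i) (fun i _ => mul_nonneg (W.p_nonneg i) (sq_nonneg _))
    (fun i _ => le_of_eq (by ring))
  rw [W.p_sum, one_mul] at h2
  refine h2.trans (le_of_eq ?_)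
  unfold eB
  ring

theorem sum_norm_le (ξ : B.H) :
    ∑ i, W.p i * ‖B.l (W.u i) (B.r (star (W.u i)) ξ) - ξ‖ ≤ Real.sqrt (2 * W.eB B ξ) := by
  simp only [norm_V_sub]
  exact sum_norm_sub_le W B ξ

theorem TB_l_sub (x : A) (ξ : B.H) :
    ‖W.TB B (B.l x ξ) - B.l (W.T x) ξ‖ ≤ ‖x‖ * Real.sqrt (2 * W.eB B ξ) := by
  have h1 : W.TB B (B.l x ξ) - B.l (W.T x) ξ = ∑ i, (W.p i : ℂ) •
      B.l (W.u i * x * star (W.u i)) (B.l (W.u i) (B.r (star (W.u i)) ξ) - ξ) := by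
    have h3 : B.l (W.T x) ξ = ∑ i, (W.p i : ℂ) • B.l (W.u i * x * star (W.u i)) ξ := by
      unfold Bim.l
      rw [W.T_apply, map_sum, _root_.sum_apply]
      refine Finset.sum_congr rfl fun i _ => ?_
      rw [map_smul]
      rfl
    rw [TB_apply, h3, ← Finset.sum_sub_distrib]
    refine Finset.sum_congr rfl fun i _ => ?_
    rw [← smul_sub, map_sub]
    congr 2
    rw [← B.l_mul (W.u i * x * star (W.u i)), mul_assoc (W.u i * x), W.u_star_mul, mul_one,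
      B.l_mul, B.l_r x]
  have h2 : ∀ (i : W.ι) (η : B.H), ‖B.l (W.u i * x * star (W.u i)) η‖ ≤ ‖x‖ * ‖η‖ := by
    intro i η
    rw [B.l_mul, B.l_mul, B.norm_l_unitary _ (W.u_star_mul i)]
    refine (B.norm_l_le _ _).trans (le_of_eq ?_)
    rw [B.norm_l_unitary (star (W.u i)) (by rw [star_star, W.u_mul_star])]
  rw [h1]
  refine (norm_sum_le _ _).trans ?_
  refine le_trans ?_ (mul_le_mul_of_nonneg_left (W.sum_norm_le B ξ) (norm_nonneg x))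
  rw [Finset.mul_sum]
  refine Finset.sum_le_sum fun i _ => ?_
  rw [norm_smul, Complex.norm_real, Real.norm_of_nonneg (W.p_nonneg i)]
  have := mul_le_mul_of_nonneg_left (h2 i (B.l (W.u i) (B.r (star (W.u i)) ξ) - ξ))
    (W.p_nonneg i)
  linarith

section pos

variable [PartialOrder A] [StarOrderedRing A] [TracialVN A]

theorem norm_TB_sq_le (hP : W.Pos) (ξ : B.H) : ‖W.TB B ξ‖ ^ 2 ≤ (⟪ξ, W.TB B ξ⟫_ℂ).re := by
  have h1 := hP.2 B (ξ - W.TB B ξ)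
  rw [map_sub, inner_sub_left, inner_sub_right, inner_sub_right, ← W.TB_symm B ξ (W.TB B ξ)] at h1
  have h2 : (⟪W.TB B ξ, W.TB B ξ⟫_ℂ).re = ‖W.TB B ξ‖ ^ 2 := re_inner_self B _
  have h3 : (⟪W.TB B ξ, W.TB B (W.TB B ξ)⟫_ℂ).re ≤ ‖W.TB B ξ‖ ^ 2 := by
    refine (Complex.re_le_norm _).trans ((norm_inner_le_norm _ _).trans ?_)
    rw [sq]
    exact mul_le_mul_of_nonneg_left (W.norm_TB_le B _) (norm_nonneg _)
  simp only [Complex.sub_re] at h1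
  rw [h2] at h1
  linarith

theorem eB_le (hP : W.Pos) (ξ : B.H) : W.eB B ξ ≤ ‖ξ‖ ^ 2 := by
  have h1 := hP.2 B ξ
  rw [eB_eq, inner_sub_right, Complex.sub_re, re_inner_self]
  linarith

/-- `e(ξ) ≤ ‖ξ‖² - ‖TB ξ‖²`. -/
theorem eB_le_sub (hP : W.Pos) (ξ : B.H) : W.eB B ξ ≤ ‖ξ‖ ^ 2 - ‖W.TB B ξ‖ ^ 2 := by
  have h1 := W.norm_TB_sq_le B hP ξ
  rw [eB_eq, inner_sub_right, Complex.sub_re, re_inner_self]
  linarith

/-- `e(TB ξ) ≤ e(ξ)`. -/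
theorem eB_TB_le (hP : W.Pos) (ξ : B.H) : W.eB B (W.TB B ξ) ≤ W.eB B ξ := by
  obtain ⟨ζ, hζ⟩ : ∃ ζ, ζ = ξ - W.TB B ξ := ⟨_, rfl⟩
  have h1 := hP.2 B ζ
  have h2 : W.eB B (W.TB B ξ) = (⟪W.TB B ξ, W.TB B ζ⟫_ℂ).re := by
    rw [eB_eq, hζ, map_sub]
  have h3 : W.eB B ξ = (⟪ξ, ζ⟫_ℂ).re := by
    rw [eB_eq, hζ]
  have h4 : ⟪ζ, W.TB B ζ⟫_ℂ = ⟪ξ, ζ⟫_ℂ - ⟪ζ, ζ⟫_ℂ - ⟪W.TB B ξ, W.TB B ζ⟫_ℂ := by
    have e1 : ⟪ζ, W.TB B ζ⟫_ℂ = ⟪ξ, W.TB B ζ⟫_ℂ - ⟪W.TB B ξ, W.TB B ζ⟫_ℂ := by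
      rw [← inner_sub_left, ← hζ]
    have e2 : ⟪ξ, W.TB B ζ⟫_ℂ = ⟪ξ, ζ⟫_ℂ - ⟪ζ, ζ⟫_ℂ := by
      rw [← TB_symm, ← inner_sub_left]
      congr 1
      rw [hζ]
      abel
    rw [e1, e2]
  have h5 : (⟪ζ, ζ⟫_ℂ).re = ‖ζ‖ ^ 2 := re_inner_self B _
  rw [h4, Complex.sub_re, Complex.sub_re, h5, ← h3, ← h2] at h1
  have := sq_nonneg ‖ζ‖
  linarith

/-- `√e(ξ) ≤ √e(η) + ‖ξ - η‖`. -/
theorem sqrt_eB_le (hP : W.Pos) (ξ η : B.H) :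
    Real.sqrt (W.eB B ξ) ≤ Real.sqrt (W.eB B η) + ‖ξ - η‖ := by
  have h1 := W.sqrt_eB_add_le B η (ξ - η)
  rw [add_sub_cancel] at h1
  have h2 : Real.sqrt (W.eB B (ξ - η)) ≤ ‖ξ - η‖ := by
    rw [← Real.sqrt_sq (norm_nonneg (ξ - η))]
    exact Real.sqrt_le_sqrt (W.eB_le B hP _)
  linarith

/-- `∑ p_i ‖u_i y u_i* - y‖₁ ≤ 2 ‖ξ‖ (2 e(ξ))^{1/2}` for a left density `y` of `ξ`. -/
theorem d1_LD {ξ : B.H} {y : A} (h : B.LD ξ y) :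
    ∑ i, W.p i * one (W.u i * y * star (W.u i) - y) ≤ 2 * ‖ξ‖ * Real.sqrt (2 * W.eB B ξ) := by
  have h1 : ∑ i, W.p i * one (W.u i * y * star (W.u i) - y) ≤
      2 * ‖ξ‖ * ∑ i, W.p i * ‖B.l (W.u i) ξ - B.r (W.u i) ξ‖ := by
    rw [Finset.mul_sum]
    refine Finset.sum_le_sum fun i _ => ?_
    have h2 := mul_le_mul_of_nonneg_left
      (Bim.AvDaux.one_le_LD B h (W.u_star_mul i) (W.u_mul_star i)) (W.p_nonneg i)
    linarith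
  exact h1.trans (mul_le_mul_of_nonneg_left (sum_norm_sub_le W B ξ) (by positivity))

end pos

end UA

end Pool.Agent.PTH
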