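import Pool.Agent.PTH.RgMn
import Pool.Agent.PTH.RgUb
import Pool.Agent.PTH.AvC

/-!
# PTH / RgMs: masses in bimodules

`lm B x ξ = Re ⟨ξ, xξ⟩`, `rm B x ξ = Re ⟨ξ, ξx⟩`.

* `lm_mono`: `B.l` maps `x ≥ 0` to a positive operator: `x = w* w`, `⟨ξ, w*wξ⟩ = ‖wξ‖²`.
* `rm_mono`: `x = w w*` (`star_mul_self` of `star w`): `B.r (w w*) ξ = B.r (w*) (B.r w ξ)`,
  `⟨ξ, r(w w*)ξ⟩ = ‖B.r w ξ‖²` (`inner_r`).
* `rm_l`: `⟨xξ, (xξ) g⟩`, `g = w w*`: `= ‖B.r w (B.l x ξ)‖² = ‖B.l x (B.r w ξ)‖² ≤ ‖x‖² ‖B.r w ξ‖²`;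
  `lm_r` the same.
* `lm_TB`: `TB ξ = ∑ p_i ζ_i`, `ζ_i = u_i ξ u_i*`; `η ↦ Re ⟨η, gη⟩` is convex (`g ≥ 0`), so
  `lm g (TB ξ) ≤ ∑ p_i lm g ζ_i`, `lm g ζ_i = Re ⟨ξ, u_i* g u_i ξ⟩ ≤ lm g ξ + εg ‖ξ‖²`
  (`u_i* g u_i - g = u_i* (g u_i - u_i g)`).  `rm_TB`: `rm g ζ_i = Re ⟨ξ, ξ (u_i* g u_i)⟩` similarly.
* `lm_lY`: `Re ⟨Yξ, gYξ⟩ = Re ⟨ξ, YgYξ⟩ ≤ (2+ν) Re ⟨ξ, Yξ⟩ ≤ (2+ν)‖ξ‖²` (`Mn.YgY_le`).
-/

open Filter Topology MulOpposite
open scoped InnerProductSpace ComplexOrder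

universe u

namespace Pool.Agent.PTH

variable {A : Type u} [CStarAlgebra A]

/-- Left mass. -/
noncomputable def lm (B : Bim.{u} A) (x : A) (ξ : B.H) : ℝ := (⟪ξ, B.l x ξ⟫_ℂ).re

/-- Right mass. -/
noncomputable def rm (B : Bim.{u} A) (x : A) (ξ : B.H) : ℝ := (⟪ξ, B.r x ξ⟫_ℂ).re

variable (B : Bim.{u} A)

theorem lm_cont (x : A) : Continuous fun ξ : B.H => lm B x ξ := by
  unfold lm
  exact Complex.continuous_re.comp (continuous_id.inner (B.l x).continuous)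

theorem rm_cont (x : A) : Continuous fun ξ : B.H => rm B x ξ := by
  unfold rm
  exact Complex.continuous_re.comp (continuous_id.inner (B.r x).continuous)

private theorem inner_smul_ms {H : Type*} [NormedAddCommGroup H] [InnerProductSpace ℂ H] (c : ℂ)
    (v w : H) : (⟪c • v, c • w⟫_ℂ).re = ‖c‖ ^ 2 * (⟪v, w⟫_ℂ).re := by
  rw [inner_smul_left, inner_smul_right, ← mul_assoc]
  have h1 : (starRingEnd ℂ) c * c = ((‖c‖ ^ 2 : ℝ) : ℂ) := by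
    rw [mul_comm, Complex.mul_conj, Complex.normSq_eq_norm_sq]
  rw [h1, Complex.re_ofReal_mul]

theorem lm_smul (c : ℂ) (x : A) (ξ : B.H) : lm B x (c • ξ) = ‖c‖ ^ 2 * lm B x ξ := by
  unfold lm
  rw [(B.l x).map_smul]
  exact inner_smul_ms c _ _

theorem rm_smul (c : ℂ) (x : A) (ξ : B.H) : rm B x (c • ξ) = ‖c‖ ^ 2 * rm B x ξ := by
  unfold rm
  rw [(B.r x).map_smul]
  exact inner_smul_ms c _ _

theorem lm_add (x y : A) (ξ : B.H) : lm B (x + y) ξ = lm B x ξ + lm B y ξ := by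
  unfold lm
  rw [B.l_add, inner_add_right, Complex.add_re]

theorem lm_sub (x y : A) (ξ : B.H) : lm B (x - y) ξ = lm B x ξ - lm B y ξ := by
  unfold lm
  rw [B.l_sub, inner_sub_right, Complex.sub_re]

theorem lm_one (ξ : B.H) : lm B 1 ξ = ‖ξ‖ ^ 2 := by
  unfold lm
  rw [B.l_one, inner_self_eq_norm_sq_to_K]
  norm_cast

theorem abs_lm_le (x : A) (ξ : B.H) : |lm B x ξ| ≤ ‖x‖ * ‖ξ‖ ^ 2 := by
  unfold lm
  refine (Complex.abs_re_le_norm _).trans ((norm_inner_le_norm _ _).trans ?_)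
  have h1 := B.norm_l_le x ξ
  have h2 := norm_nonneg ξ
  nlinarith

theorem abs_rm_le (x : A) (ξ : B.H) : |rm B x ξ| ≤ ‖x‖ * ‖ξ‖ ^ 2 := by
  unfold rm
  refine (Complex.abs_re_le_norm _).trans ((norm_inner_le_norm _ _).trans ?_)
  have h1 := B.norm_r_le x ξ
  have h2 := norm_nonneg ξ
  nlinarith

theorem norm_l_sq' (x : A) (ξ : B.H) : ‖B.l x ξ‖ ^ 2 = lm B (star x * x) ξ := by
  have h1 : ⟪B.l x ξ, B.l x ξ⟫_ℂ = ⟪ξ, B.l (star x * x) ξ⟫_ℂ := by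
    rw [B.inner_l, B.l_mul]
  unfold lm
  rw [← h1, inner_self_eq_norm_sq_to_K]
  norm_cast

theorem norm_r_sq' (x : A) (ξ : B.H) : ‖B.r x ξ‖ ^ 2 = rm B (x * star x) ξ := by
  have h1 : ⟪B.r x ξ, B.r x ξ⟫_ℂ = ⟪ξ, B.r (x * star x) ξ⟫_ℂ := by
    rw [B.inner_r, B.r_mul]
  unfold rm
  rw [← h1, inner_self_eq_norm_sq_to_K]
  norm_cast

variable [PartialOrder A] [StarOrderedRing A]

theorem lm_nonneg {x : A} (hx : 0 ≤ x) (ξ : B.H) : 0 ≤ lm B x ξ := by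
  obtain ⟨y, rfl⟩ := CStarAlgebra.nonneg_iff_eq_star_mul_self.1 hx
  rw [← norm_l_sq']
  positivity

private theorem exw_ms {x : A} (hx : 0 ≤ x) : ∃ y : A, x = y * star y := by
  obtain ⟨y, rfl⟩ := CStarAlgebra.nonneg_iff_eq_star_mul_self.1 hx
  exact ⟨star y, by rw [star_star]⟩

theorem rm_nonneg {x : A} (hx : 0 ≤ x) (ξ : B.H) : 0 ≤ rm B x ξ := by
  obtain ⟨y, rfl⟩ := exw_ms hx
  rw [← norm_r_sq']
  positivity

theorem lm_mono {x y : A} (h : x ≤ y) (ξ : B.H) : lm B x ξ ≤ lm B y ξ := by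
  have h1 := lm_nonneg B (sub_nonneg.2 h) ξ
  rw [lm_sub] at h1
  linarith

theorem rm_mono {x y : A} (h : x ≤ y) (ξ : B.H) : rm B x ξ ≤ rm B y ξ := by
  have h1 := rm_nonneg B (sub_nonneg.2 h) ξ
  have h2 : rm B (y - x) ξ = rm B y ξ - rm B x ξ := by
    unfold rm
    rw [B.r_sub, inner_sub_right, Complex.sub_re]
  rw [h2] at h1
  linarith

theorem rm_l {g : A} (hg : 0 ≤ g) (x : A) (ξ : B.H) :
    rm B g (B.l x ξ) ≤ ‖x‖ ^ 2 * rm B g ξ := by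
  obtain ⟨w, rfl⟩ := exw_ms hg
  rw [← norm_r_sq', ← norm_r_sq', ← B.l_r, ← mul_pow]
  exact pow_le_pow_left₀ (norm_nonneg _) (B.norm_l_le _ _) 2

theorem lm_r {g : A} (hg : 0 ≤ g) (x : A) (ξ : B.H) :
    lm B g (B.r x ξ) ≤ ‖x‖ ^ 2 * lm B g ξ := by
  obtain ⟨w, rfl⟩ := CStarAlgebra.nonneg_iff_eq_star_mul_self.1 hg
  rw [← norm_l_sq', ← norm_l_sq', B.l_r, ← mul_pow]
  exact pow_le_pow_left₀ (norm_nonneg _) (B.norm_r_le _ _) 2

variable (W : UA A)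

private theorem convex_ms {E : Type*} [NormedAddCommGroup E] [InnerProductSpace ℂ E]
    (S : E →L[ℂ] E) (hs : ∀ v w : E, ⟪S v, w⟫_ℂ = ⟪v, S w⟫_ℂ)
    (hp : ∀ v : E, 0 ≤ (⟪v, S v⟫_ℂ).re) (η : W.ι → E) :
    (⟪∑ i, (W.p i : ℂ) • η i, S (∑ i, (W.p i : ℂ) • η i)⟫_ℂ).re ≤
      ∑ i, W.p i * (⟪η i, S (η i)⟫_ℂ).re := by
  set m : E := ∑ i, (W.p i : ℂ) • η i with hm
  have h1 : ∀ i, (⟪η i - m, S (η i - m)⟫_ℂ).re = (⟪η i, S (η i)⟫_ℂ).re -
      2 * (⟪m, S (η i)⟫_ℂ).re + (⟪m, S m⟫_ℂ).re := by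
    intro i
    have h2 : (⟪η i, S m⟫_ℂ).re = (⟪m, S (η i)⟫_ℂ).re := by
      rw [← hs, ← inner_conj_symm, Complex.conj_re]
    rw [map_sub, inner_sub_left, inner_sub_right, inner_sub_right]
    simp only [Complex.sub_re]
    rw [h2]
    ring
  have h3 : ∑ i, W.p i * (⟪m, S (η i)⟫_ℂ).re = (⟪m, S m⟫_ℂ).re := by
    conv_rhs => rw [hm]
    rw [← hm, map_sum, inner_sum, Complex.re_sum]
    refine Finset.sum_congr rfl fun i _ => ?_
    rw [map_smul, inner_smul_right, Complex.re_ofReal_mul]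
  have h4 : 0 ≤ ∑ i, W.p i * (⟪η i - m, S (η i - m)⟫_ℂ).re :=
    Finset.sum_nonneg fun i _ => mul_nonneg (W.p_nonneg i) (hp _)
  have h5 : ∑ i, W.p i * (⟪η i - m, S (η i - m)⟫_ℂ).re =
      ∑ i, W.p i * (⟪η i, S (η i)⟫_ℂ).re - 2 * ∑ i, W.p i * (⟪m, S (η i)⟫_ℂ).re +
        (∑ i, W.p i) * (⟪m, S m⟫_ℂ).re := by
    rw [Finset.mul_sum, Finset.sum_mul, ← Finset.sum_sub_distrib, ← Finset.sum_add_distrib]
    refine Finset.sum_congr rfl fun i _ => ?_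
    rw [h1]
    ring
  rw [h5, h3, W.p_sum] at h4
  linarith

private theorem norm_comm_ms {g : A} {ε : ℝ} (gc : ∀ i, ‖W.u i * g - g * W.u i‖ ≤ ε) (i : W.ι) :
    ‖star (W.u i) * (g * W.u i - W.u i * g)‖ ≤ ε := by
  refine (norm_mul_le _ _).trans ?_
  have hu : ‖star (W.u i)‖ ≤ 1 := by
    rw [norm_star]
    exact W.norm_u_le i
  have h1 : ‖g * W.u i - W.u i * g‖ ≤ ε := by
    rw [norm_sub_rev]
    exact gc i
  have h2 := norm_nonneg (g * W.u i - W.u i * g)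
  nlinarith [norm_nonneg (star (W.u i))]

theorem lm_TB {g : A} (hg : 0 ≤ g) {ε : ℝ} (gc : ∀ i, ‖W.u i * g - g * W.u i‖ ≤ ε) (ξ : B.H) :
    lm B g (W.TB B ξ) ≤ lm B g ξ + ε * ‖ξ‖ ^ 2 := by
  have hsx : star g = g := (IsSelfAdjoint.of_nonneg hg).star_eq
  have h1 := convex_ms W (B.l g) (fun v w => by rw [B.inner_l, hsx]) (fun v => lm_nonneg B hg v)
    (fun i => B.l (W.u i) (B.r (star (W.u i)) ξ))
  unfold lm
  rw [W.TB_apply]
  refine h1.trans ?_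
  have h2 : ∀ i, W.p i * (⟪B.l (W.u i) (B.r (star (W.u i)) ξ),
      B.l g (B.l (W.u i) (B.r (star (W.u i)) ξ))⟫_ℂ).re ≤
      W.p i * (lm B g ξ + ε * ‖ξ‖ ^ 2) := by
    intro i
    refine mul_le_mul_of_nonneg_left ?_ (W.p_nonneg i)
    rw [Bim.AvDaux.l_conj B (W.u_star_mul i)]
    have e1 : star (W.u i) * g * W.u i = g + star (W.u i) * (g * W.u i - W.u i * g) := by
      have e2 : star (W.u i) * (g * W.u i - W.u i * g) =
          star (W.u i) * g * W.u i - (star (W.u i) * W.u i) * g := by noncomm_ring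
      rw [e2, W.u_star_mul, one_mul]
      abel
    have e3 : (⟪ξ, B.l (star (W.u i) * g * W.u i) ξ⟫_ℂ).re = lm B g ξ +
        lm B (star (W.u i) * (g * W.u i - W.u i * g)) ξ := by
      rw [← lm_add, ← e1]
      rfl
    rw [e3]
    have h3 := le_trans (le_abs_self _) (abs_lm_le B (star (W.u i) * (g * W.u i - W.u i * g)) ξ)
    have h4 := norm_comm_ms W gc i
    have h5 := mul_le_mul_of_nonneg_right h4 (sq_nonneg ‖ξ‖)
    linarith
  refine (Finset.sum_le_sum fun i _ => h2 i).trans ?_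
  rw [← Finset.sum_mul, W.p_sum, one_mul]
  exact le_rfl

theorem rm_TB {g : A} (hg : 0 ≤ g) {ε : ℝ} (gc : ∀ i, ‖W.u i * g - g * W.u i‖ ≤ ε) (ξ : B.H) :
    rm B g (W.TB B ξ) ≤ rm B g ξ + ε * ‖ξ‖ ^ 2 := by
  have hsx : star g = g := (IsSelfAdjoint.of_nonneg hg).star_eq
  have h1 := convex_ms W (B.r g) (fun v w => by rw [B.inner_r, hsx]) (fun v => rm_nonneg B hg v)
    (fun i => B.l (W.u i) (B.r (star (W.u i)) ξ))
  unfold rm
  rw [W.TB_apply]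
  refine h1.trans ?_
  have h2 : ∀ i, W.p i * (⟪B.l (W.u i) (B.r (star (W.u i)) ξ),
      B.r g (B.l (W.u i) (B.r (star (W.u i)) ξ))⟫_ℂ).re ≤
      W.p i * (rm B g ξ + ε * ‖ξ‖ ^ 2) := by
    intro i
    refine mul_le_mul_of_nonneg_left ?_ (W.p_nonneg i)
    rw [Bim.AvDaux.r_conj B (W.u_star_mul i)]
    have e1 : star (W.u i) * g * W.u i = g + star (W.u i) * (g * W.u i - W.u i * g) := by
      have e2 : star (W.u i) * (g * W.u i - W.u i * g) =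
          star (W.u i) * g * W.u i - (star (W.u i) * W.u i) * g := by noncomm_ring
      rw [e2, W.u_star_mul, one_mul]
      abel
    have e3 : (⟪ξ, B.r (star (W.u i) * g * W.u i) ξ⟫_ℂ).re = rm B g ξ +
        rm B (star (W.u i) * (g * W.u i - W.u i * g)) ξ := by
      rw [e1]
      unfold rm
      rw [B.r_add, inner_add_right, Complex.add_re]
    rw [e3]
    have h3 := le_trans (le_abs_self _) (abs_rm_le B (star (W.u i) * (g * W.u i - W.u i * g)) ξ)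
    have h4 := norm_comm_ms W gc i
    have h5 := mul_le_mul_of_nonneg_right h4 (sq_nonneg ‖ξ‖)
    linarith
  refine (Finset.sum_le_sum fun i _ => h2 i).trans ?_
  rw [← Finset.sum_mul, W.p_sum, one_mul]
  exact le_rfl

variable [TracialVN A]

private theorem YgY_le3_ms {W : UA A} {ν εg : ℝ} {z Y g D : A} (h : Mn W ν εg z Y g D) :
    Y * g * Y ≤ (3 : ℝ) • (1 : A) := by
  have hν := h.ν_le
  have hν0 := h.ν_nonneg
  refine h.YgY_le.trans ?_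
  refine (smul_le_smul_of_nonneg_left (proj_le_one h.Y_prj) (by linarith)).trans ?_
  exact smul_le_smul_of_nonneg_right (by linarith) zero_le_one

private theorem norm_three_ms : ‖(3 : ℝ) • (1 : A)‖ ≤ 3 := by
  rw [norm_smul, Real.norm_of_nonneg (by norm_num)]
  have : ‖(1 : A)‖ ≤ 1 := norm_one_le'
  linarith

theorem lm_lY {W : UA A} {ν εg : ℝ} {z Y g D : A} (h : Mn W ν εg z Y g D) (ξ : B.H) :
    lm B g (B.l Y ξ) ≤ 3 * ‖ξ‖ ^ 2 := by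
  have h1 : lm B g (B.l Y ξ) = lm B (Y * g * Y) ξ := by
    unfold lm
    rw [B.inner_l, h.Y_prj.1, ← B.l_mul, ← B.l_mul]
  rw [h1]
  exact (lm_mono B (YgY_le3_ms h) ξ).trans
    ((le_abs_self _).trans ((abs_lm_le B _ ξ).trans
      (mul_le_mul_of_nonneg_right norm_three_ms (sq_nonneg _))))

theorem rm_rY {W : UA A} {ν εg : ℝ} {z Y g D : A} (h : Mn W ν εg z Y g D) (ξ : B.H) :
    rm B g (B.r Y ξ) ≤ 3 * ‖ξ‖ ^ 2 := by
  have h1 : rm B g (B.r Y ξ) = rm B (Y * g * Y) ξ := by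
    unfold rm
    rw [B.inner_r, h.Y_prj.1, ← B.r_mul, ← B.r_mul, mul_assoc]
  rw [h1]
  exact (rm_mono B (YgY_le3_ms h) ξ).trans
    ((le_abs_self _).trans ((abs_rm_le B _ ξ).trans
      (mul_le_mul_of_nonneg_right norm_three_ms (sq_nonneg _))))

/-- Bounded densities are stable under the average. -/
theorem Bdd_TB {ξ : B.H} (h : B.Bdd ξ) : B.Bdd (W.TB B ξ) := by
  rw [W.TB_apply]
  have key : ∀ s : Finset W.ι,
      B.Bdd (∑ i ∈ s, (W.p i : ℂ) • B.l (W.u i) (B.r (star (W.u i)) ξ)) := by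
    classical
    intro s
    induction s using Finset.induction_on with
    | empty =>
      rw [Finset.sum_empty]
      exact B.Bdd_zero
    | insert i s hi ih =>
      rw [Finset.sum_insert hi]
      exact B.Bdd_add (B.Bdd_smul (B.Bdd_l (B.Bdd_r h _) _) _) ih
  exact key Finset.univ

end Pool.Agent.PTH
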