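import Pool.Agent.PTH.RgSm

/-!
# PTH / RgPo: functions of `β = T Y` do not create energy

`S = TB ∘ l Y` on `B.H`, `v_n = S^n v`.

* `vit`: induction on `n`.  `n = 0`: clear.  Step (`(n+1) εg ≤ 1`): `ζ = l Y v_n`: `‖ζ‖ ≤ ‖v_n‖ ≤ 1`
  (`‖Y‖ ≤ 1`), `lm g ζ ≤ 3` (`lm_lY`), `rm g ζ ≤ rm g v_n ≤ M + n εg ≤ M + 1` (`rm_l`), so `HW` gives
  `e(v_{n+1}) = e(TB ζ) ≤ σ`; `rm_TB`: `rm g v_{n+1} ≤ rm g ζ + εg ≤ M + (n+1) εg`.
  `‖l(β^{n+1}) v - v_{n+1}‖ ≤ ‖l β (l(β^n) v - v_n)‖ + ‖l β v_n - TB (l Y v_n)‖ ≤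
  ‖l(β^n) v - v_n‖ + (2 e(v_n))^{1/2}` (`UA.TB_l_sub`, `‖β‖ ≤ 1`), where `e(v_0) ≤ θ`,
  `e(v_n) ≤ σ` for `n ≥ 1`: total error for `n ≥ 1`: `(2θ)^{1/2} + (n-1)(2σ)^{1/2}`; for `n = 0` it
  is `0`.
* `en_poly`: `P = ∑_{n=1}^N a_n X^n`: `l(P(β)) v = ∑ a_n v_n + ∑ a_n (l(β^n) v - v_n)`,
  `√e ≤ ∑ |a_n| (√σ + (2θ)^{1/2} + n (2σ)^{1/2})` (`UA.sqrt_eB_add_le`, `√e ≤ ‖.‖` from
  `UA.eB_le`), which is `≤ δ` for `θ, σ` small (only depending on `P`), and `εg N ≤ 1`.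
* `en_cfc`: Weierstrass on `[0,1]` (`polynomialFunctions.topologicalClosure`, or
  `exists_polynomial_near_of_continuousOn`): `|P(s) - φ(s)| ≤ δ'` on `[0,1]`; replace `P` by
  `P - P(0)`: error `≤ 2δ'` (`φ 0 = 0`).  `‖cfc φ β - P(β)‖ ≤ 2δ'` (spectrum of `β` in `[0,1]`),
  `UA.sqrt_eB_le`.
-/

open Filter Topology MulOpposite
open scoped InnerProductSpace ComplexOrder

universe u

namespace Pool.Agent.PTH

section

variable {A : Type u} [CStarAlgebra A] [PartialOrder A] [StarOrderedRing A] [TracialVN A]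
  {W : UA A} {ν εg : ℝ} {z Y g D : A}

theorem Mn.β_nonneg (h : Mn W ν εg z Y g D) : 0 ≤ W.T Y := W.T_nonneg h.Y_nonneg

theorem Mn.β_le (h : Mn W ν εg z Y g D) : W.T Y ≤ 1 := by
  have := W.T_mono (proj_le_one h.Y_prj)
  rwa [W.T_one] at this

private theorem S_succ (W : UA A) (B : Bim.{u} A) (Y : A) (v : B.H) (n : ℕ) :
    ((W.TB B * B.l Y) ^ (n + 1)) v = W.TB B (B.l Y (((W.TB B * B.l Y) ^ n) v)) := by
  rw [pow_succ']
  rfl

private theorem vit_aux (h : Mn W ν εg z Y g D) {M σ θ : ℝ} (hM : 4 ≤ M) (hσ : 0 ≤ σ)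
    (hW : HW W g (M + 1) σ) (B : Bim.{u} A) (hB : B.Reg) {v : B.H} (v1 : ‖v‖ ≤ 1)
    (ve : W.eB B v ≤ θ) (vr : rm B g v ≤ M) (n : ℕ) (hn : n * εg ≤ 1) :
    ‖((W.TB B * B.l Y) ^ n) v‖ ≤ 1 ∧ rm B g (((W.TB B * B.l Y) ^ n) v) ≤ M + n * εg ∧
      (1 ≤ n → W.eB B (((W.TB B * B.l Y) ^ n) v) ≤ σ) ∧
      ‖B.l (W.T Y ^ n) v - ((W.TB B * B.l Y) ^ n) v‖ ≤
        (if n = 0 then 0 else Real.sqrt (2 * θ)) + n * Real.sqrt (2 * σ) := by
  induction n with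
  | zero =>
    refine ⟨by simpa using v1, by simpa using vr, fun h => absurd h (by norm_num), ?_⟩
    have e1 : B.l (W.T Y ^ 0) v - ((W.TB B * B.l Y) ^ 0) v = 0 := by
      rw [pow_zero, B.l_one, pow_zero]
      exact sub_self v
    rw [e1]
    simp
  | succ n ih =>
    have hε := h.εg_nonneg
    have hn' : (n : ℝ) * εg ≤ 1 := by
      push_cast at hn
      nlinarith
    obtain ⟨i1, i2, i3, i4⟩ := ih hn'
    set w : B.H := ((W.TB B * B.l Y) ^ n) v with hw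
    have hY1 : ‖Y‖ ≤ 1 := norm_proj_le h.Y_prj
    set ζ : B.H := B.l Y w with hζ
    have hs : ((W.TB B * B.l Y) ^ (n + 1)) v = W.TB B ζ := S_succ W B Y v n
    have z1 : ‖ζ‖ ≤ ‖w‖ := by
      refine (B.norm_l_le _ _).trans ?_
      nlinarith [norm_nonneg w]
    have z2 : ‖ζ‖ ≤ 1 := z1.trans i1
    have z3 : lm B g ζ ≤ M + 1 := by
      have := lm_lY B h w
      have h2 := norm_nonneg w
      nlinarith
    have z4 : rm B g ζ ≤ M + n * εg := by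
      refine (rm_l B h.g_nonneg Y w).trans (le_trans ?_ i2)
      have h3 := rm_nonneg B h.g_nonneg w
      have h4 : ‖Y‖ ^ 2 ≤ 1 := pow_le_one₀ (norm_nonneg _) hY1
      nlinarith
    have z5 : rm B g ζ ≤ M + 1 := z4.trans (by linarith)
    have hβ1 : ‖W.T Y‖ ≤ 1 := (W.norm_T_le Y).trans hY1
    refine ⟨?_, ?_, fun _ => ?_, ?_⟩
    · rw [hs]
      exact (W.norm_TB_le B ζ).trans z2
    · rw [hs]
      refine (rm_TB B W h.g_nonneg h.gc ζ).trans ?_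
      have h2 : ‖ζ‖ ^ 2 ≤ 1 := pow_le_one₀ (norm_nonneg _) z2
      push_cast
      nlinarith
    · rw [hs]
      exact hW B hB ζ z2 z3 z5
    · rw [hs]
      have e1 : B.l (W.T Y ^ (n + 1)) v - W.TB B ζ =
          B.l (W.T Y) (B.l (W.T Y ^ n) v - w) - (W.TB B (B.l Y w) - B.l (W.T Y) w) := by
        rw [pow_succ', B.l_mul, map_sub]
        abel
      rw [e1]
      refine (norm_sub_le _ _).trans ?_
      have a1 : ‖B.l (W.T Y) (B.l (W.T Y ^ n) v - w)‖ ≤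
          (if n = 0 then 0 else Real.sqrt (2 * θ)) + n * Real.sqrt (2 * σ) := by
        refine (B.norm_l_le _ _).trans (le_trans ?_ i4)
        nlinarith [norm_nonneg (B.l (W.T Y ^ n) v - w)]
      have a2 : ‖W.TB B (B.l Y w) - B.l (W.T Y) w‖ ≤ Real.sqrt (2 * W.eB B w) := by
        refine (W.TB_l_sub B Y w).trans ?_
        nlinarith [Real.sqrt_nonneg (2 * W.eB B w)]
      rw [if_neg (Nat.succ_ne_zero n)]
      push_cast
      rcases Nat.eq_zero_or_pos n with h0 | h0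
      · subst h0
        rw [if_pos rfl] at a1
        have hw0 : w = v := by rw [hw]; simp
        rw [hw0] at a1 a2
        have a3 : Real.sqrt (2 * W.eB B v) ≤ Real.sqrt (2 * θ) :=
          Real.sqrt_le_sqrt (by linarith)
        have a4 := Real.sqrt_nonneg (2 * σ)
        rw [hw0]
        linarith
      · rw [if_neg h0.ne'] at a1
        have a3 : Real.sqrt (2 * W.eB B w) ≤ Real.sqrt (2 * σ) :=
          Real.sqrt_le_sqrt (by linarith [i3 h0])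
        linarith

theorem vit (h : Mn W ν εg z Y g D) {M σ θ : ℝ} (hM : 4 ≤ M) (hσ : 0 ≤ σ)
    (hW : HW W g (M + 1) σ) (B : Bim.{u} A) (hB : B.Reg) {v : B.H} (v1 : ‖v‖ ≤ 1)
    (ve : W.eB B v ≤ θ) (vr : rm B g v ≤ M) (n : ℕ) (hn : n * εg ≤ 1) :
    ‖((W.TB B * B.l Y) ^ n) v‖ ≤ 1 ∧ rm B g (((W.TB B * B.l Y) ^ n) v) ≤ M + n * εg ∧
      (1 ≤ n → W.eB B (((W.TB B * B.l Y) ^ n) v) ≤ σ) ∧
      ‖B.l (W.T Y ^ n) v - ((W.TB B * B.l Y) ^ n) v‖ ≤
        Real.sqrt (2 * θ) + n * Real.sqrt (2 * σ) := by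
  obtain ⟨h1, h2, h3, h4⟩ := vit_aux h hM hσ hW B hB v1 ve vr n hn
  refine ⟨h1, h2, h3, h4.trans ?_⟩
  have := Real.sqrt_nonneg (2 * θ)
  split_ifs <;> linarith

private theorem sqrt_sum (W : UA A) (B : Bim.{u} A) {ι : Type*} (s : Finset ι) (f : ι → B.H) :
    Real.sqrt (W.eB B (∑ i ∈ s, f i)) ≤ ∑ i ∈ s, Real.sqrt (W.eB B (f i)) := by
  classical
  induction s using Finset.induction_on with
  | empty =>
    rw [Finset.sum_empty, Finset.sum_empty]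
    have h0 := W.eB_smul B 0 (0 : B.H)
    rw [smul_zero, norm_zero] at h0
    rw [h0]
    simp
  | insert i s hi ih =>
    rw [Finset.sum_insert hi, Finset.sum_insert hi]
    exact (W.sqrt_eB_add_le B _ _).trans (by gcongr)

private theorem l_pol (B : Bim.{u} A) (P : Polynomial ℝ) (β : A) (v : B.H) :
    B.l (Polynomial.aeval β P) v =
      ∑ i ∈ Finset.range (P.natDegree + 1), ((P.coeff i : ℝ) : ℂ) • B.l (β ^ i) v := by
  rw [Polynomial.aeval_eq_sum_range]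
  have h1 : ∀ s : Finset ℕ, B.l (∑ i ∈ s, P.coeff i • β ^ i) v =
      ∑ i ∈ s, ((P.coeff i : ℝ) : ℂ) • B.l (β ^ i) v := by
    intro s
    classical
    induction s using Finset.induction_on with
    | empty =>
      rw [Finset.sum_empty, Finset.sum_empty]
      have := B.l_smul 0 (0 : A) v
      rwa [smul_zero, zero_smul] at this
    | insert i s hi ih =>
      rw [Finset.sum_insert hi, Finset.sum_insert hi, B.l_add, ih, ← Complex.coe_smul, B.l_smul]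
  exact h1 _

end

theorem en_poly (P : Polynomial ℝ) (hP : P.coeff 0 = 0) {M δ : ℝ} (hM : 4 ≤ M) (hδ : 0 < δ) :
    ∃ θ > 0, ∀ (A : Type u) [CStarAlgebra A] [PartialOrder A] [StarOrderedRing A] [TracialVN A]
      (W : UA A) (ν εg σ : ℝ) (z Y g D : A), Mn W ν εg z Y g D → εg ≤ θ → 0 ≤ σ → σ ≤ θ →
      HW W g (M + 1) σ → ∀ B : Bim.{u} A, B.Reg → ∀ v : B.H, ‖v‖ ≤ 1 → W.eB B v ≤ θ →
      rm B g v ≤ M → Real.sqrt (W.eB B (B.l (Polynomial.aeval (W.T Y) P) v)) ≤ δ := by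
  set N := P.natDegree with hN
  set K : ℝ := ∑ n ∈ Finset.range (N + 1), |P.coeff n| * ((n : ℝ) + 2) with hK
  have hK0 : 0 ≤ K := Finset.sum_nonneg fun n _ => by positivity
  set θ : ℝ := min (1 / ((N : ℝ) + 1)) ((δ / (K + 1)) ^ 2 / 2) with hθ
  have hθ0 : 0 < θ := lt_min (by positivity) (by positivity)
  refine ⟨θ, hθ0, ?_⟩
  intro A _ _ _ _ W ν εg σ z Y g D h hε hσ hσθ hW B hB v v1 ve vr
  have hε0 := h.εg_nonneg
  have hs : Real.sqrt (2 * θ) ≤ δ / (K + 1) := by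
    refine Real.sqrt_le_iff.2 ⟨by positivity, ?_⟩
    have : θ ≤ (δ / (K + 1)) ^ 2 / 2 := min_le_right _ _
    linarith
  have hs1 : Real.sqrt σ ≤ Real.sqrt (2 * θ) := Real.sqrt_le_sqrt (by linarith)
  have hs2 : Real.sqrt (2 * σ) ≤ Real.sqrt (2 * θ) := Real.sqrt_le_sqrt (by linarith)
  have hsn := Real.sqrt_nonneg (2 * θ)
  rw [l_pol B P (W.T Y) v]
  refine (sqrt_sum W B _ _).trans ?_
  have key : ∀ n ∈ Finset.range (P.natDegree + 1),
      Real.sqrt (W.eB B (((P.coeff n : ℝ) : ℂ) • B.l (W.T Y ^ n) v)) ≤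
        |P.coeff n| * ((n : ℝ) + 2) * Real.sqrt (2 * θ) := by
    intro n hn
    have hnN : n ≤ N := Nat.lt_succ_iff.1 (Finset.mem_range.1 hn)
    rw [W.eB_smul, Complex.norm_real, Real.norm_eq_abs, Real.sqrt_mul (sq_nonneg _),
      Real.sqrt_sq (abs_nonneg _), mul_assoc]
    rcases Nat.eq_zero_or_pos n with h0 | h0
    · subst h0
      rw [hP]
      simp
    · refine mul_le_mul_of_nonneg_left ?_ (abs_nonneg _)
      have hnε : (n : ℝ) * εg ≤ 1 := by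
        have h1 : εg ≤ 1 / ((N : ℝ) + 1) := hε.trans (min_le_left _ _)
        have h2 : (n : ℝ) ≤ N := by exact_mod_cast hnN
        calc (n : ℝ) * εg ≤ ((N : ℝ) + 1) * (1 / ((N : ℝ) + 1)) := by
              refine mul_le_mul (by linarith) h1 hε0 (by positivity)
          _ = 1 := by field_simp
      obtain ⟨-, -, i3, i4⟩ := vit h hM hσ hW B hB v1 ve vr n hnε
      have h3 := W.sqrt_eB_le B h.pos (B.l (W.T Y ^ n) v) (((W.TB B * B.l Y) ^ n) v)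
      have h4 : Real.sqrt (W.eB B (((W.TB B * B.l Y) ^ n) v)) ≤ Real.sqrt σ :=
        Real.sqrt_le_sqrt (i3 h0)
      have h5 : (n : ℝ) * Real.sqrt (2 * σ) ≤ n * Real.sqrt (2 * θ) := by gcongr
      nlinarith
  refine (Finset.sum_le_sum key).trans ?_
  rw [← Finset.sum_mul, ← hN, ← hK]
  calc K * Real.sqrt (2 * θ) ≤ K * (δ / (K + 1)) := by gcongr
    _ = δ * (K / (K + 1)) := by ring
    _ ≤ δ * 1 := by
        refine mul_le_mul_of_nonneg_left ?_ hδ.le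
        rw [div_le_one (by positivity)]
        linarith
    _ = δ := mul_one δ

theorem en_cfc (φ : ℝ → ℝ) (hφ : Continuous φ) (h0 : φ 0 = 0) {M δ : ℝ} (hM : 4 ≤ M)
    (hδ : 0 < δ) :
    ∃ θ > 0, ∀ (A : Type u) [CStarAlgebra A] [PartialOrder A] [StarOrderedRing A] [TracialVN A]
      (W : UA A) (ν εg σ : ℝ) (z Y g D : A), Mn W ν εg z Y g D → εg ≤ θ → 0 ≤ σ → σ ≤ θ →
      HW W g (M + 1) σ → ∀ B : Bim.{u} A, B.Reg → ∀ v : B.H, ‖v‖ ≤ 1 → W.eB B v ≤ θ →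
      rm B g v ≤ M → W.eB B (B.l (cfc φ (W.T Y)) v) ≤ δ := by
  have hsδ : 0 < Real.sqrt δ := Real.sqrt_pos.2 hδ
  obtain ⟨P0, hP0⟩ := exists_polynomial_near_of_continuousOn 0 1 φ hφ.continuousOn
    (Real.sqrt δ / 4) (by positivity)
  set P : Polynomial ℝ := P0 - Polynomial.C (P0.coeff 0) with hP
  have hPc : P.coeff 0 = 0 := by
    rw [hP, Polynomial.coeff_sub, Polynomial.coeff_C_zero, sub_self]
  have hPn : ∀ s ∈ Set.Icc (0 : ℝ) 1, |φ s - P.eval s| ≤ Real.sqrt δ / 2 := by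
    intro s hs
    have h1 := hP0 s hs
    have h2 := hP0 0 ⟨le_rfl, zero_le_one⟩
    rw [h0, sub_zero, ← Polynomial.coeff_zero_eq_eval_zero] at h2
    rw [hP, Polynomial.eval_sub, Polynomial.eval_C]
    have e : φ s - (P0.eval s - P0.coeff 0) = -(P0.eval s - φ s) + P0.coeff 0 := by ring
    rw [e]
    refine (abs_add_le _ _).trans ?_
    rw [abs_neg]
    linarith
  obtain ⟨θ, hθ, H⟩ := en_poly.{u} P hPc hM (half_pos hsδ)
  refine ⟨θ, hθ, ?_⟩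
  intro A _ _ _ _ W ν εg σ z Y g D h hε hσ hσθ hW B hB v v1 ve vr
  have h1 := H A W ν εg σ z Y g D h hε hσ hσθ hW B hB v v1 ve vr
  have hsa : IsSelfAdjoint (W.T Y) := h.T_sa
  have hd : ‖cfc φ (W.T Y) - Polynomial.aeval (W.T Y) P‖ ≤ Real.sqrt δ / 2 := by
    rw [← cfc_polynomial P (W.T Y) hsa, ← cfc_sub φ P.eval (W.T Y) hφ.continuousOn
      P.continuous.continuousOn]
    refine norm_cfc_le (by positivity) fun s hs => ?_
    rw [Real.norm_eq_abs]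
    refine hPn s ⟨spectrum_nonneg_of_nonneg h.β_nonneg hs, ?_⟩
    have h2 := h.β_le
    have h3 : W.T Y ≤ algebraMap ℝ A 1 := by rwa [map_one]
    exact (le_algebraMap_iff_spectrum_le (ha := hsa)).1 h3 s hs
  have h2 := W.sqrt_eB_le B h.pos (B.l (cfc φ (W.T Y)) v) (B.l (Polynomial.aeval (W.T Y) P) v)
  have h3 : ‖B.l (cfc φ (W.T Y)) v - B.l (Polynomial.aeval (W.T Y) P) v‖ ≤ Real.sqrt δ / 2 := by
    rw [← B.l_sub]
    refine (B.norm_l_le _ _).trans ?_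
    nlinarith [norm_nonneg v, norm_nonneg (cfc φ (W.T Y) - Polynomial.aeval (W.T Y) P)]
  have h4 : Real.sqrt (W.eB B (B.l (cfc φ (W.T Y)) v)) ≤ Real.sqrt δ := by linarith
  exact (Real.sqrt_le_sqrt_iff hδ.le).1 h4

end Pool.Agent.PTH
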