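import Pool.Agent.PTH.RgUb
import Pool.Agent.PTH.AvE

/-!
# PTH / RgPw: words of length `k` = powers of the average

`W = a.pw k` (defined in `RgU`): `W.ι = Fin k → a.ι`, `W.u s = (List.ofFn fun j => a.u (s j)).prod`,
`W.p s = ∏ j, a.p (s j)`.

* `pw_T`: induction on `k`: `Fin.consEquiv`/`Fin.cons` (`Fin (k+1) → ι` is `ι × (Fin k → ι)`,
  `List.ofFn_succ`, `Fin.prod_univ_succ`): `T_{k+1}(x) = ∑_i p_i u_i T_k(x) u_i* = T(T_k(x))`.
  `k = 0`: one word (empty, product 1), weight 1.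
* `pw_TB`: same in the bimodule (`B.l`, `B.r` multiplicative, `B.l_mul`, `B.r_mul`).
* `pw_pos`: `Avg.Tp_pos`; in a bimodule: `k = 2m`: `⟨ξ, T^{2m} ξ⟩ = ‖T^m ξ‖²`, `k = 2m+1`:
  `⟨T^m ξ, T T^m ξ⟩ ≥ 0` (`Bim.T_pos`, `Bim.T_symm`).
* `comm_word`: `‖[u v, b]‖ ≤ ‖[u, b]‖ + ‖[v, b]‖` for unitaries, induction on the word.
* `comm_pow`: `[u, b^{N+1}] = [u, b] b^N + b [u, b^N]`.
* `en_le_pw` (`1 ≤ k`): `e_k(x) - e(x) = τ(x* T x) - τ(x* T^k x)`, and `τ(x* T^{j+1} x) ≤ τ(x* T^j x)`: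
  for `j = 2m`: `‖T^m x‖² - ⟨T^m x, T T^m x⟩ = e(T^m x) ≥ 0`; `j = 2m+1`: with `y = T^m x`:
  `⟨y, T y⟩ - ⟨T y, T y⟩ ≥ 0` (`two_T_sq_le`).  Same in bimodules (`Bim.norm_T_sq_le`).
* `eB_pw_le`: `⟨ξ, ξ - T^k ξ⟩ = ∑_{j<k} ⟨ξ, T^j ξ - T^{j+1} ξ⟩`, and each term is `≤ e(ξ)`:
  `⟨ξ, T^j (1-T) ξ⟩ ≤ ⟨ξ, (1-T) ξ⟩` by the same monotonicity: for `j = 2m` the term is
  `e(T^m ξ) ≤ e(ξ)` (`Bim.en_T_le`), for `j = 2m+1` it is `⟨T y, y - T y⟩` (`y = T^m ξ`) and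
  `⟨y - T y, y - T y⟩ ≥ 0` gives `⟨T y, y - T y⟩ ≤ ⟨y, y - T y⟩ = e(y) ≤ e(ξ)`.
-/

open Filter Topology
open scoped InnerProductSpace ComplexOrder

universe u

namespace Pool.Agent.PTH

section hil

variable {H : Type*} [NormedAddCommGroup H] [InnerProductSpace ℂ H] (S : H →L[ℂ] H)

private theorem psymm (hs : ∀ x y : H, ⟪S x, y⟫_ℂ = ⟪x, S y⟫_ℂ) (j : ℕ) (x y : H) :
    ⟪(S ^ j) x, y⟫_ℂ = ⟪x, (S ^ j) y⟫_ℂ := by
  induction j generalizing x y with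
  | zero => rfl
  | succ j ih =>
    rw [pow_succ', mul_apply_eq_comp, hs, ih, ← mul_apply_eq_comp, ← pow_succ, pow_succ']

private theorem ceven (hs : ∀ x y : H, ⟪S x, y⟫_ℂ = ⟪x, S y⟫_ℂ) (m : ℕ) (x : H) :
    (⟪x, (S ^ (2 * m)) x⟫_ℂ).re = ‖(S ^ m) x‖ ^ 2 := by
  rw [two_mul, pow_add, mul_apply_eq_comp, ← psymm S hs, inner_self_eq_norm_sq_to_K]
  exact_mod_cast Complex.ofReal_re _

private theorem codd (hs : ∀ x y : H, ⟪S x, y⟫_ℂ = ⟪x, S y⟫_ℂ) (m : ℕ) (x : H) :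
    (⟪x, (S ^ (2 * m + 1)) x⟫_ℂ).re = (⟪(S ^ m) x, S ((S ^ m) x)⟫_ℂ).re := by
  rw [show 2 * m + 1 = m + (1 + m) by ring, pow_add, mul_apply_eq_comp, ← psymm S hs, pow_add,
    mul_apply_eq_comp, pow_one]

private theorem csucc (hs : ∀ x y : H, ⟪S x, y⟫_ℂ = ⟪x, S y⟫_ℂ) (m : ℕ) (x : H) :
    (⟪x, (S ^ (2 * m + 1 + 1)) x⟫_ℂ).re = ‖S ((S ^ m) x)‖ ^ 2 := by
  rw [show 2 * m + 1 + 1 = 2 * (m + 1) by ring, ceven S hs, pow_succ' S, mul_apply_eq_comp]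

private theorem cnonneg (hs : ∀ x y : H, ⟪S x, y⟫_ℂ = ⟪x, S y⟫_ℂ)
    (h0 : ∀ x : H, 0 ≤ (⟪x, S x⟫_ℂ).re) (j : ℕ) (x : H) : 0 ≤ (⟪x, (S ^ j) x⟫_ℂ).re := by
  rcases Nat.even_or_odd' j with ⟨m, rfl | rfl⟩
  · rw [ceven S hs]
    positivity
  · rw [codd S hs]
    exact h0 _

private theorem cmono (hs : ∀ x y : H, ⟪S x, y⟫_ℂ = ⟪x, S y⟫_ℂ)
    (h1 : ∀ x : H, (⟪x, S x⟫_ℂ).re ≤ ‖x‖ ^ 2) (h2 : ∀ x : H, ‖S x‖ ^ 2 ≤ (⟪x, S x⟫_ℂ).re)
    (j : ℕ) (x : H) : (⟪x, (S ^ (j + 1)) x⟫_ℂ).re ≤ (⟪x, (S ^ j) x⟫_ℂ).re := by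
  rcases Nat.even_or_odd' j with ⟨m, rfl | rfl⟩
  · rw [ceven S hs, codd S hs]
    exact h1 _
  · rw [csucc S hs, codd S hs]
    exact h2 _

private theorem cdiff (hs : ∀ x y : H, ⟪S x, y⟫_ℂ = ⟪x, S y⟫_ℂ)
    (h3 : ∀ x : H, ‖S x‖ ^ 2 - (⟪S x, S (S x)⟫_ℂ).re ≤ ‖x‖ ^ 2 - (⟪x, S x⟫_ℂ).re)
    (j : ℕ) (x : H) : (⟪x, (S ^ j) x⟫_ℂ).re - (⟪x, (S ^ (j + 1)) x⟫_ℂ).re ≤
      ‖x‖ ^ 2 - (⟪x, S x⟫_ℂ).re := by
  have h4 : ∀ m : ℕ, ‖(S ^ m) x‖ ^ 2 - (⟪(S ^ m) x, S ((S ^ m) x)⟫_ℂ).re ≤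
      ‖x‖ ^ 2 - (⟪x, S x⟫_ℂ).re := by
    intro m
    induction m with
    | zero => exact le_rfl
    | succ m ih =>
      rw [pow_succ' S, mul_apply_eq_comp]
      exact (h3 _).trans ih
  rcases Nat.even_or_odd' j with ⟨m, rfl | rfl⟩
  · rw [ceven S hs, codd S hs]
    exact h4 m
  · rw [csucc S hs, codd S hs]
    refine le_trans ?_ (h4 m)
    have h5 : 0 ≤ ‖(S ^ m) x - S ((S ^ m) x)‖ ^ 2 := by positivity
    rw [@norm_sub_sq ℂ] at h5
    have h6 : RCLike.re (⟪(S ^ m) x, S ((S ^ m) x)⟫_ℂ) = (⟪(S ^ m) x, S ((S ^ m) x)⟫_ℂ).re := rfl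
    rw [h6] at h5
    linarith

private theorem ctel (hs : ∀ x y : H, ⟪S x, y⟫_ℂ = ⟪x, S y⟫_ℂ)
    (h3 : ∀ x : H, ‖S x‖ ^ 2 - (⟪S x, S (S x)⟫_ℂ).re ≤ ‖x‖ ^ 2 - (⟪x, S x⟫_ℂ).re)
    (k : ℕ) (x : H) : ‖x‖ ^ 2 - (⟪x, (S ^ k) x⟫_ℂ).re ≤ k * (‖x‖ ^ 2 - (⟪x, S x⟫_ℂ).re) := by
  induction k with
  | zero =>
    have h : (⟪x, (S ^ 0) x⟫_ℂ).re = ‖x‖ ^ 2 := by
      have := ceven S hs 0 x
      simpa using this
    rw [h]
    simp
  | succ k ih =>
    have h := cdiff S hs h3 k x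
    rw [Nat.cast_succ]
    linarith

end hil

private theorem re_inner_self {H : Type*} [NormedAddCommGroup H] [InnerProductSpace ℂ H] (x : H) :
    (⟪x, x⟫_ℂ).re = ‖x‖ ^ 2 := by
  rw [inner_self_eq_norm_sq_to_K]
  exact_mod_cast Complex.ofReal_re _

namespace Avg

variable {A : Type u} [CStarAlgebra A] (a : Avg A)

private theorem sum_cons {E : Type*} [AddCommMonoid E] {k : ℕ} (f : (Fin (k + 1) → a.ι) → E) :
    ∑ s, f s = ∑ i, ∑ s, f (Fin.cons i s) := by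
  rw [← Fintype.sum_prod_type']
  exact (Equiv.sum_comp (Fin.consEquiv fun _ : Fin (k + 1) => a.ι) f).symm

private theorem pw_u_cons {k : ℕ} (i : a.ι) (s : Fin k → a.ι) :
    (a.pw (k + 1)).u (Fin.cons i s : Fin (k + 1) → a.ι) = a.u i * (a.pw k).u s := by
  change (List.ofFn fun j => a.u ((Fin.cons i s : Fin (k + 1) → a.ι) j)).prod =
    a.u i * (List.ofFn fun j => a.u (s j)).prod
  rw [List.ofFn_succ, List.prod_cons]
  simp only [Fin.cons_zero, Fin.cons_succ]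

private theorem pw_p_cons {k : ℕ} (i : a.ι) (s : Fin k → a.ι) :
    (a.pw (k + 1)).p (Fin.cons i s : Fin (k + 1) → a.ι) = a.p i * (a.pw k).p s := by
  change ∏ j, a.p ((Fin.cons i s : Fin (k + 1) → a.ι) j) = a.p i * ∏ j, a.p (s j)
  rw [Fin.prod_univ_succ]
  simp only [Fin.cons_zero, Fin.cons_succ]

theorem pw_T (k : ℕ) : (a.pw k).T = a.T ^ k := by
  induction k with
  | zero =>
    ext x
    rw [UA.T_apply]
    change ∑ s : Fin 0 → a.ι, ((∏ j, a.p (s j) : ℝ) : ℂ) •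
      ((List.ofFn fun j => a.u (s j)).prod * x * star (List.ofFn fun j => a.u (s j)).prod) = x
    simp
  | succ k ih =>
    ext x
    rw [pow_succ', Module.End.mul_apply, ← ih, UA.T_apply]
    have h : ∑ i, ((a.pw (k + 1)).p i : ℂ) •
        ((a.pw (k + 1)).u i * x * star ((a.pw (k + 1)).u i)) =
        ∑ i, ∑ s, ((a.pw (k + 1)).p (Fin.cons i s : Fin (k + 1) → a.ι) : ℂ) •
          ((a.pw (k + 1)).u (Fin.cons i s : Fin (k + 1) → a.ι) * x *
            star ((a.pw (k + 1)).u (Fin.cons i s : Fin (k + 1) → a.ι))) :=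
      sum_cons a (fun i : Fin (k + 1) → a.ι => ((a.pw (k + 1)).p i : ℂ) •
        ((a.pw (k + 1)).u i * x * star ((a.pw (k + 1)).u i)))
    rw [h, Avg.T_apply]
    refine Finset.sum_congr rfl fun i _ => ?_
    rw [UA.T_apply, Finset.mul_sum, Finset.sum_mul, Finset.smul_sum]
    refine Finset.sum_congr rfl fun s _ => ?_
    rw [pw_u_cons, pw_p_cons, Complex.ofReal_mul, mul_smul, star_mul, mul_smul_comm,
      smul_mul_assoc]
    simp only [mul_assoc]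

theorem pw_TB (k : ℕ) (B : Bim.{u} A) : (a.pw k).TB B = (B.T a) ^ k := by
  induction k with
  | zero =>
    ext ξ
    rw [UA.TB_apply]
    change ∑ s : Fin 0 → a.ι, ((∏ j, a.p (s j) : ℝ) : ℂ) •
      B.l (List.ofFn fun j => a.u (s j)).prod
        (B.r (star (List.ofFn fun j => a.u (s j)).prod) ξ) = ξ
    simp [B.l_one, B.r_one]
  | succ k ih =>
    ext ξ
    rw [pow_succ', mul_apply_eq_comp, ← ih, UA.TB_apply]
    have h : ∑ i, ((a.pw (k + 1)).p i : ℂ) •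
        B.l ((a.pw (k + 1)).u i) (B.r (star ((a.pw (k + 1)).u i)) ξ) =
        ∑ i, ∑ s, ((a.pw (k + 1)).p (Fin.cons i s : Fin (k + 1) → a.ι) : ℂ) •
          B.l ((a.pw (k + 1)).u (Fin.cons i s : Fin (k + 1) → a.ι))
            (B.r (star ((a.pw (k + 1)).u (Fin.cons i s : Fin (k + 1) → a.ι))) ξ) :=
      sum_cons a (fun i : Fin (k + 1) → a.ι => ((a.pw (k + 1)).p i : ℂ) •
        B.l ((a.pw (k + 1)).u i) (B.r (star ((a.pw (k + 1)).u i)) ξ))
    rw [h, Bim.T_apply]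
    refine Finset.sum_congr rfl fun i _ => ?_
    rw [UA.TB_apply, map_sum, map_sum, Finset.smul_sum]
    refine Finset.sum_congr rfl fun s _ => ?_
    rw [pw_u_cons, pw_p_cons, Complex.ofReal_mul, mul_smul, star_mul, map_smul, map_smul,
      B.l_mul, B.r_mul, B.l_r ((a.pw k).u s) (star (a.u i))]

theorem comm_word {b : A} {δ : ℝ} (h : ∀ i, ‖a.u i * b - b * a.u i‖ ≤ δ) (k : ℕ)
    (s : (a.pw k).ι) : ‖(a.pw k).u s * b - b * (a.pw k).u s‖ ≤ k * δ := by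
  induction k with
  | zero =>
    change ‖(List.ofFn fun j => a.u ((s : Fin 0 → a.ι) j)).prod * b -
      b * (List.ofFn fun j => a.u ((s : Fin 0 → a.ι) j)).prod‖ ≤ _
    simp
  | succ k ih =>
    change Fin (k + 1) → a.ι at s
    have e : s = Fin.cons (s 0) (fun j => s j.succ) := (Fin.cons_self_tail s).symm
    rw [e, pw_u_cons]
    generalize (s 0) = i
    have h1 := ih (fun j => s j.succ)
    generalize hv : (a.pw k).u (fun j => s j.succ) = v at h1 ⊢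
    have hvn : ‖v‖ ≤ 1 := by
      rw [← hv]
      exact AvAaux.norm_u_le ((a.pw k).u_star_mul _)
    have hun : ‖a.u i‖ ≤ 1 := AvAaux.norm_u_le (a.u_star_mul i)
    have e2 : a.u i * v * b - b * (a.u i * v) =
        a.u i * (v * b - b * v) + (a.u i * b - b * a.u i) * v := by noncomm_ring
    rw [e2]
    have h2 : ‖a.u i * (v * b - b * v)‖ ≤ k * δ := by
      refine (norm_mul_le _ _).trans ?_
      refine (mul_le_mul_of_nonneg_right hun (norm_nonneg _)).trans ?_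
      rw [one_mul]
      exact h1
    have h3 : ‖(a.u i * b - b * a.u i) * v‖ ≤ δ := by
      refine (norm_mul_le _ _).trans ?_
      refine (mul_le_mul_of_nonneg_left hvn (norm_nonneg _)).trans ?_
      rw [mul_one]
      exact h i
    refine (norm_add_le _ _).trans ?_
    push_cast
    linarith

omit a in
theorem comm_pow {u b : A} {δ : ℝ} (hb : ‖b‖ ≤ 1) (h : ‖u * b - b * u‖ ≤ δ) (N : ℕ) :
    ‖u * b ^ N - b ^ N * u‖ ≤ N * δ := by
  have hp : ∀ N : ℕ, ‖b ^ N‖ ≤ 1 := by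
    intro N
    induction N with
    | zero =>
      rw [pow_zero]
      exact AvAaux.norm_one_le'
    | succ N ih =>
      rw [pow_succ]
      refine (norm_mul_le _ _).trans ?_
      calc ‖b ^ N‖ * ‖b‖ ≤ 1 * 1 := mul_le_mul ih hb (norm_nonneg _) zero_le_one
        _ = 1 := one_mul 1
  induction N with
  | zero => simp
  | succ N ih =>
    have e : u * b ^ (N + 1) - b ^ (N + 1) * u =
        (u * b - b * u) * b ^ N + b * (u * b ^ N - b ^ N * u) := by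
      rw [pow_succ']
      noncomm_ring
    rw [e]
    have h2 : ‖(u * b - b * u) * b ^ N‖ ≤ δ := by
      refine (norm_mul_le _ _).trans ?_
      refine (mul_le_mul_of_nonneg_left (hp N) (norm_nonneg _)).trans ?_
      rw [mul_one]
      exact h
    have h3 : ‖b * (u * b ^ N - b ^ N * u)‖ ≤ N * δ := by
      refine (norm_mul_le _ _).trans ?_
      refine (mul_le_mul_of_nonneg_right hb (norm_nonneg _)).trans ?_
      rw [one_mul]
      exact ih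
    refine (norm_add_le _ _).trans ?_
    push_cast
    linarith

private theorem B_le (B : Bim.{u} A) (ξ : B.H) : (⟪ξ, B.T a ξ⟫_ℂ).re ≤ ‖ξ‖ ^ 2 := by
  have h := B.en_nonneg a ξ
  rw [B.en_eq, inner_sub_right, Complex.sub_re, re_inner_self] at h
  linarith

private theorem B_en (B : Bim.{u} A) (ξ : B.H) :
    B.en a ξ = ‖ξ‖ ^ 2 - (⟪ξ, B.T a ξ⟫_ℂ).re := by
  rw [B.en_eq, inner_sub_right, Complex.sub_re, re_inner_self]

private theorem B_en_T (B : Bim.{u} A) (ξ : B.H) :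
    ‖B.T a ξ‖ ^ 2 - (⟪B.T a ξ, B.T a (B.T a ξ)⟫_ℂ).re ≤ ‖ξ‖ ^ 2 - (⟪ξ, B.T a ξ⟫_ℂ).re := by
  rw [← B_en, ← B_en]
  have h := B.en_T_le a ξ
  have h2 : 0 ≤ ‖ξ - B.T a ξ‖ ^ 2 := by positivity
  linarith

private theorem eB_pw (k : ℕ) (B : Bim.{u} A) (ξ : B.H) :
    (a.pw k).eB B ξ = ‖ξ‖ ^ 2 - (⟪ξ, ((B.T a) ^ k) ξ⟫_ℂ).re := by
  rw [UA.eB_eq, pw_TB, inner_sub_right, Complex.sub_re, re_inner_self]

section

variable [PartialOrder A] [StarOrderedRing A] [TracialVN A]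

theorem pw_pos (k : ℕ) : (a.pw k).Pos := by
  refine ⟨fun x => ?_, fun B ξ => ?_⟩
  · rw [pw_T]
    exact a.Tp_pos k x
  · rw [pw_TB]
    exact cnonneg (B.T a) (B.T_symm a) (B.T_pos a) k ξ

omit [PartialOrder A] [StarOrderedRing A] in
private theorem UA_en (W : UA A) (x : A) : W.en x = two x ^ 2 - rt (star x * W.T x) := by
  have e : ∀ i, two (W.u i * x - x * W.u i) ^ 2 =
      2 * two x ^ 2 - 2 * rt (star x * (W.u i * x * star (W.u i))) := by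
    intro i
    have h1 : two (W.u i * x) ^ 2 = two x ^ 2 := by rw [two_unitary_mul (W.u_star_mul i)]
    have h2 : two (x * W.u i) ^ 2 = two x ^ 2 := by rw [two_mul_unitary (W.u_mul_star i)]
    rw [two_sub_sq, h1, h2]
    have h3 : rt (star (W.u i * x) * (x * W.u i)) =
        rt (star x * (W.u i * x * star (W.u i))) := by
      rw [← rt_star, star_mul, star_star, star_mul]
      have e1 : star (W.u i) * star x * (W.u i * x) = star (W.u i) * (star x * (W.u i * x)) := by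
        noncomm_ring
      rw [e1, rt_comm]
      congr 1
      noncomm_ring
    rw [h3]
    ring
  unfold UA.en
  simp only [e]
  have h5 : rt (star x * W.T x) = ∑ i, W.p i * rt (star x * (W.u i * x * star (W.u i))) := by
    rw [UA.T_apply, Finset.mul_sum, rt_sum]
    refine Finset.sum_congr rfl fun i _ => ?_
    rw [mul_smul_comm]
    unfold rt
    rw [map_smul, smul_eq_mul, Complex.re_ofReal_mul]
  have h4 : ∑ i, W.p i * (2 * two x ^ 2 - 2 * rt (star x * (W.u i * x * star (W.u i)))) =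
      2 * two x ^ 2 * (∑ i, W.p i) -
        2 * ∑ i, W.p i * rt (star x * (W.u i * x * star (W.u i))) := by
    rw [Finset.mul_sum, Finset.mul_sum, ← Finset.sum_sub_distrib]
    refine Finset.sum_congr rfl fun i _ => ?_
    ring
  rw [h4, W.p_sum]
  rw [h5]
  ring

private theorem A_mono (j : ℕ) (x : A) :
    rt (star x * (a.T ^ (j + 1)) x) ≤ rt (star x * (a.T ^ j) x) := by
  have hs : ∀ (m : ℕ) (x y : A), rt (star x * (a.T ^ m) y) = rt (star ((a.T ^ m) x) * y) := by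
    intro m x y
    rw [← a.Tp_star]
    unfold rt
    rw [a.Tp_symm]
  rcases Nat.even_or_odd' j with ⟨m, rfl | rfl⟩
  · have e1 : rt (star x * (a.T ^ (2 * m)) x) = two ((a.T ^ m) x) ^ 2 := by
      rw [two_mul, pow_add, Module.End.mul_apply, hs, two_sq_rt]
    have e2 : rt (star x * (a.T ^ (2 * m + 1)) x) =
        rt (star ((a.T ^ m) x) * a.T ((a.T ^ m) x)) := by
      rw [show 2 * m + 1 = m + (1 + m) by ring, pow_add, Module.End.mul_apply, hs, pow_add,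
        Module.End.mul_apply, pow_one]
    rw [e1, e2]
    have h := a.en_nonneg ((a.T ^ m) x)
    rw [a.en_eq, mul_sub, rt_sub, ← two_sq_rt] at h
    linarith
  · have e2 : rt (star x * (a.T ^ (2 * m + 1)) x) =
        rt (star ((a.T ^ m) x) * a.T ((a.T ^ m) x)) := by
      rw [show 2 * m + 1 = m + (1 + m) by ring, pow_add, Module.End.mul_apply, hs, pow_add,
        Module.End.mul_apply, pow_one]
    have e3 : rt (star x * (a.T ^ (2 * m + 1 + 1)) x) = two (a.T ((a.T ^ m) x)) ^ 2 := by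
      rw [show 2 * m + 1 + 1 = (m + 1) + (m + 1) by ring, pow_add, Module.End.mul_apply, hs,
        two_sq_rt, pow_succ', Module.End.mul_apply]
    rw [e2, e3]
    exact a.two_T_sq_le _

theorem en_le_pw {k : ℕ} (hk : 1 ≤ k) (x : A) : a.en x ≤ (a.pw k).en x := by
  rw [UA_en, pw_T, a.en_eq, mul_sub, rt_sub, ← two_sq_rt]
  have h : rt (star x * (a.T ^ k) x) ≤ rt (star x * a.T x) := by
    induction k, hk using Nat.le_induction with
    | base => rw [pow_one]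
    | succ k _ ih => exact (A_mono a k x).trans ih
  linarith

end

theorem en_le_eB_pw {k : ℕ} (hk : 1 ≤ k) (B : Bim.{u} A) (ξ : B.H) :
    B.en a ξ ≤ (a.pw k).eB B ξ := by
  rw [eB_pw, B_en]
  have h : (⟪ξ, ((B.T a) ^ k) ξ⟫_ℂ).re ≤ (⟪ξ, B.T a ξ⟫_ℂ).re := by
    induction k, hk using Nat.le_induction with
    | base => rw [pow_one]
    | succ k _ ih =>
      exact (cmono (B.T a) (B.T_symm a) (B_le a B) (B.norm_T_sq_le a) k ξ).trans ih
  linarith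

theorem eB_pw_le (k : ℕ) (B : Bim.{u} A) (ξ : B.H) : (a.pw k).eB B ξ ≤ k * B.en a ξ := by
  rw [eB_pw, B_en]
  exact ctel (B.T a) (B.T_symm a) (B_en_T a B) k ξ

end Avg

end Pool.Agent.PTH
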