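import Pool.Agent.PTH.RgMs
import Pool.Agent.PTH.RgPw
import Pool.Agent.PTH.DdHil

/-!
# PTH / RgSm: smoothing under the noisy gap (5.1), and the uniform smoothing `HW`

`HW W g M σ`: in all regular bimodules, `‖ξ‖ ≤ 1` and left and right `g`-masses `≤ M` imply
`e(T ξ) ≤ σ` (`T`, `e` for the word average `W`).

* `GI_all`: both sides of `GI` are continuous in `ξ` (`h` acts boundedly) and vectors with bounded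
  densities are dense (`B.Reg`).
* `smooth`: `ξ_j = T^j ξ` (`T = B.T a`).  `GI_all` for `ξ_j` and `Bim.conv_l`, `Bim.conv_r` (`AvD`):
  `c e(ξ_j) ≤ ‖ξ_j - T ξ_j‖² + Re ⟨ξ, T^j(h) ξ⟩ + Re ⟨ξ, ξ T^j(h)⟩`, and since `zξ = ξ = ξz`:
  `Re ⟨ξ, T^j(h) ξ⟩ = Re ⟨ξ, z T^j(h) z ξ⟩ ≤ κ1 Re ⟨ξ, zξ⟩ ≤ κ1 ‖ξ‖²`, same on the right.  With
  `Bim.en_T_le`: `e(ξ_{j+1}) ≤ e(ξ_j) - ‖ξ_j - T ξ_j‖² ≤ (1 - c) e(ξ_j) + 2 κ1 ‖ξ‖²`; induction,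
  `∑ (1-c)^i ≤ 1/c`.
* `dist`: `‖ξ - T^k ξ‖² ≤ Re ⟨ξ, ξ - T^k ξ⟩` (`‖T^k ξ‖² ≤ Re ⟨ξ, T^k ξ⟩`: `Avg.pw_pos`,
  `UA.norm_TB_sq_le`, `pw_TB`) `= ∑_{j<k} Re ⟨ξ, T^j ξ - T^{j+1} ξ⟩`; the term `j = 2m` is
  `e(T^m ξ)`, the term `j = 2m+1` is `Re ⟨T y, y - T y⟩ ≤ e(y)`, `y = T^m ξ`.  So the sum is
  `≤ 2 ∑_{m<k} e(T^m ξ) ≤ 2 ∑_{m<k} ((1-c)^m e(ξ) + (2κ1/c)‖ξ‖²) ≤ (2/c) e(ξ) + (4kκ1/c)‖ξ‖²`.
* `HW_pw`: `ζ = zξz`: `‖ξ - zξ‖² = Re ⟨ξ, (1-z)ξ⟩ ≤ (1/G0) lm g ξ ≤ M/G0`, same on the right, so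
  `‖ξ - ζ‖ ≤ 2 (M/G0)^{1/2}`; `e_k(T^kζ) ≤ k e(T^kζ)` (`Avg.eB_pw_le`) `≤ k ((1-c)^k + 2κ1/c)`
  (`smooth`, `e(ζ) ≤ ‖ζ‖² ≤ 1`); `UA.sqrt_eB_le`: `√e_k(T^kξ) ≤ √e_k(T^kζ) + ‖ξ - ζ‖`, and
  `(x + y)² ≤ 2x² + 2y²`.
-/

open Filter Topology MulOpposite
open scoped InnerProductSpace ComplexOrder

universe u

namespace Pool.Agent.PTH

variable {A : Type u} [CStarAlgebra A] [PartialOrder A] [StarOrderedRing A] [TracialVN A]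

/-- Uniform smoothing. -/
def HW (W : UA A) (g : A) (M σ : ℝ) : Prop :=
  ∀ B : Bim.{u} A, B.Reg → ∀ ξ : B.H, ‖ξ‖ ≤ 1 → lm B g ξ ≤ M → rm B g ξ ≤ M →
    W.eB B (W.TB B ξ) ≤ σ

omit [PartialOrder A] [StarOrderedRing A] [TracialVN A] in
private theorem en_cont (a : Avg A) (B : Bim.{u} A) : Continuous fun ξ : B.H => B.en a ξ := by
  unfold Bim.en
  refine continuous_const.mul (continuous_finsetSum _ fun i _ => continuous_const.mul ?_)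
  exact (((B.l (a.u i)).continuous.sub (B.r (a.u i)).continuous).norm).pow 2

omit [PartialOrder A] [StarOrderedRing A] [TracialVN A] in
private theorem lm_rs (B : Bim.{u} A) (t : ℝ) (x : A) (ξ : B.H) :
    lm B (t • x) ξ = t * lm B x ξ := by
  unfold lm
  rw [← Complex.coe_smul, B.l_smul, inner_smul_right, Complex.re_ofReal_mul]

omit [PartialOrder A] [StarOrderedRing A] [TracialVN A] in
private theorem rm_rs (B : Bim.{u} A) (t : ℝ) (x : A) (ξ : B.H) :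
    rm B (t • x) ξ = t * rm B x ξ := by
  unfold rm
  rw [← Complex.coe_smul, B.r_smul, inner_smul_right, Complex.re_ofReal_mul]

omit [PartialOrder A] [StarOrderedRing A] [TracialVN A] in
private theorem re_self' (B : Bim.{u} A) (ξ : B.H) : (⟪ξ, ξ⟫_ℂ).re = ‖ξ‖ ^ 2 := by
  rw [inner_self_eq_norm_sq_to_K]
  norm_cast

theorem GI_all {a : Avg A} {h : A} {c : ℝ} (hG : GI a h c) (B : Bim.{u} A) (hB : B.Reg)
    (ξ : B.H) : c * B.en a ξ ≤ ‖ξ - B.T a ξ‖ ^ 2 + lm B h ξ + rm B h ξ := by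
  have hcl : IsClosed {ξ : B.H | c * B.en a ξ ≤ ‖ξ - B.T a ξ‖ ^ 2 + lm B h ξ + rm B h ξ} := by
    refine isClosed_le (continuous_const.mul (en_cont a B)) ?_
    exact ((((continuous_id.sub (B.T a).continuous).norm).pow 2).add (lm_cont B h)).add
      (rm_cont B h)
  have hsub : {ξ : B.H | B.Bdd ξ} ⊆
      {ξ : B.H | c * B.en a ξ ≤ ‖ξ - B.T a ξ‖ ^ 2 + lm B h ξ + rm B h ξ} :=
    fun η hη => hG B η hη
  have h1 := closure_minimal hsub hcl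
  exact h1 (hB ξ)

section

variable {a : Avg A} {h z : A} {c κ1 : ℝ} {k : ℕ} (hG : GI a h c) (hh : 0 ≤ h) (c0 : 0 < c)
  (c1 : c < 1) (hz : Prj z) (hk1 : 0 ≤ κ1) (hz1 : ∀ j ≤ k, z * (a.T ^ j) h * z ≤ κ1 • z)
  (B : Bim.{u} A) (hB : B.Reg)

omit [TracialVN A] in
include hz1 hz in
private theorem lm_zone {j : ℕ} (hj : j ≤ k) {ξ : B.H} (lz : B.l z ξ = ξ) :
    lm B ((a.T ^ j) h) ξ ≤ κ1 * ‖ξ‖ ^ 2 := by
  have e1 : lm B ((a.T ^ j) h) ξ = lm B (z * (a.T ^ j) h * z) ξ := by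
    unfold lm
    rw [B.l_mul, B.l_mul, lz]
    conv_lhs => rw [← lz, B.inner_l, hz.1, lz]
  rw [e1]
  refine (lm_mono B (hz1 j hj) ξ).trans ?_
  rw [lm_rs]
  unfold lm
  rw [lz, re_self']

omit [TracialVN A] in
include hz1 hz in
private theorem rm_zone {j : ℕ} (hj : j ≤ k) {ξ : B.H} (rz : B.r z ξ = ξ) :
    rm B ((a.T ^ j) h) ξ ≤ κ1 * ‖ξ‖ ^ 2 := by
  have e1 : rm B ((a.T ^ j) h) ξ = rm B (z * (a.T ^ j) h * z) ξ := by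
    unfold rm
    rw [B.r_mul, B.r_mul, rz]
    conv_lhs => rw [← rz, B.inner_r, hz.1, rz]
  rw [e1]
  refine (rm_mono B (hz1 j hj) ξ).trans ?_
  rw [rm_rs]
  unfold rm
  rw [rz, re_self']

include hG hh c0 c1 hz hk1 hz1 hB

omit c0 c1 hk1 in
private theorem hyp {ξ : B.H} (lz : B.l z ξ = ξ) (rz : B.r z ξ = ξ) {j : ℕ} (hj : j ≤ k) :
    c * (⟪(B.T a ^ j) ξ, (B.T a ^ j) ξ - (B.T a ^ (j + 1)) ξ⟫_ℂ).re ≤
      ‖(B.T a ^ j) ξ - (B.T a ^ (j + 1)) ξ‖ ^ 2 + 2 * κ1 * ‖ξ‖ ^ 2 := by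
  have e0 : (B.T a ^ (j + 1)) ξ = B.T a ((B.T a ^ j) ξ) := by rw [pow_succ']; rfl
  rw [e0, ← B.en_eq]
  have h1 := GI_all hG B hB ((B.T a ^ j) ξ)
  have h2 : lm B h ((B.T a ^ j) ξ) ≤ κ1 * ‖ξ‖ ^ 2 :=
    (B.conv_l a j h hh ξ).trans (lm_zone hz hz1 B hj lz)
  have h3 : rm B h ((B.T a ^ j) ξ) ≤ κ1 * ‖ξ‖ ^ 2 :=
    (B.conv_r a j h hh ξ).trans (rm_zone hz hz1 B hj rz)
  linarith

theorem smooth {ξ : B.H} (lz : B.l z ξ = ξ) (rz : B.r z ξ = ξ) {j : ℕ} (hj : j ≤ k) :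
    B.en a ((B.T a ^ j) ξ) ≤ (1 - c) ^ j * B.en a ξ + 2 * κ1 / c * ‖ξ‖ ^ 2 := by
  have hle : ∀ x : B.H, (⟪x, B.T a x⟫_ℂ).re ≤ ‖x‖ ^ 2 := by
    intro x
    have h1 := B.en_nonneg a x
    rw [B.en_eq, inner_sub_right, Complex.sub_re, re_self'] at h1
    linarith
  have h2 := smooth_en (B.T a) (B.T_symm a) (B.T_pos a) hle ξ j c0 c1.le
    (E := 2 * κ1 * ‖ξ‖ ^ 2) (by positivity)
    fun i hi => hyp hG hh hz hz1 B hB lz rz (by omega)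
  have e0 : (B.T a ^ (j + 1)) ξ = B.T a ((B.T a ^ j) ξ) := by rw [pow_succ']; rfl
  rw [e0, ← B.en_eq, ← B.en_eq] at h2
  refine h2.trans (le_of_eq ?_)
  ring

theorem dist_le {ξ : B.H} (lz : B.l z ξ = ξ) (rz : B.r z ξ = ξ) :
    ‖ξ - (B.T a ^ k) ξ‖ ^ 2 ≤ 2 / c * B.en a ξ + 4 * k * κ1 / c * ‖ξ‖ ^ 2 := by
  have hle : ∀ x : B.H, (⟪x, B.T a x⟫_ℂ).re ≤ ‖x‖ ^ 2 := by
    intro x
    have h1 := B.en_nonneg a x
    rw [B.en_eq, inner_sub_right, Complex.sub_re, re_self'] at h1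
    linarith
  have h2 := smooth_dist (B.T a) (B.T_symm a) (B.T_pos a) hle ξ k c0 c1.le
    (E := 2 * κ1 * ‖ξ‖ ^ 2) (by positivity)
    fun i hi => hyp hG hh hz hz1 B hB lz rz (by omega)
  rw [← B.en_eq] at h2
  refine h2.trans (le_of_eq ?_)
  ring

omit hB in
theorem HW_pw {g : A} {G0 M : ℝ} (hg : 0 ≤ g) (zg : z * g = g * z) (hG0 : 0 < G0)
    (oz : 1 - z ≤ (1 / G0) • g) (hM : 0 ≤ M) :
    HW (a.pw k) g M (2 * (k * ((1 - c) ^ k + 2 * κ1 / c)) + 8 * (M / G0)) := by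
  intro B hB ξ hξ hl hr
  have hP := a.pw_pos k
  have hq1 : star (1 - z) = 1 - z := by rw [star_sub, star_one, hz.1]
  have hq2 : (1 - z) * (1 - z) = 1 - z := by
    have : (1 - z) * (1 - z) = 1 - z - z + z * z := by noncomm_ring
    rw [this, hz.2]
    noncomm_ring
  have hz0 : z ≤ 1 := by
    rw [← sub_nonneg, ← hq2]
    conv_rhs => rw [← hq1]
    nth_rewrite 2 [hq1]
    exact star_mul_self_nonneg _
  have hlz : ∀ η : B.H, ‖B.l z η‖ ≤ ‖η‖ := by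
    intro η
    have h1 := norm_l_sq' B z η
    rw [hz.1, hz.2] at h1
    have h2 := lm_mono B hz0 η
    rw [lm_one, ← h1] at h2
    exact (sq_le_sq₀ (norm_nonneg _) (norm_nonneg _)).1 h2
  have hrz : ∀ η : B.H, ‖B.r z η‖ ≤ ‖η‖ := by
    intro η
    have h1 := norm_r_sq' B z η
    rw [hz.1, hz.2] at h1
    have h2 := rm_mono B hz0 η
    have h3 : rm B 1 η = ‖η‖ ^ 2 := by
      unfold rm
      rw [B.r_one, re_self']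
    rw [h3, ← h1] at h2
    exact (sq_le_sq₀ (norm_nonneg _) (norm_nonneg _)).1 h2
  have hMG : 0 ≤ M / G0 := by positivity
  have hd1 : ‖ξ - B.l z ξ‖ ^ 2 ≤ M / G0 := by
    have e1 : ξ - B.l z ξ = B.l (1 - z) ξ := by rw [B.l_sub, B.l_one]
    rw [e1, norm_l_sq', hq1, hq2]
    refine (lm_mono B oz ξ).trans ?_
    rw [lm_rs, div_eq_inv_mul M G0, one_div]
    exact mul_le_mul_of_nonneg_left hl (inv_nonneg.2 hG0.le)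
  have hd2 : ‖ξ - B.r z ξ‖ ^ 2 ≤ M / G0 := by
    have e1 : ξ - B.r z ξ = B.r (1 - z) ξ := by rw [B.r_sub, B.r_one]
    rw [e1, norm_r_sq', hq1, hq2]
    refine (rm_mono B oz ξ).trans ?_
    rw [rm_rs, div_eq_inv_mul M G0, one_div]
    exact mul_le_mul_of_nonneg_left hr (inv_nonneg.2 hG0.le)
  obtain ⟨ζ, hζ⟩ : ∃ ζ, ζ = B.l z (B.r z ξ) := ⟨_, rfl⟩
  have lz : B.l z ζ = ζ := by rw [hζ, ← B.l_mul, hz.2]
  have rz : B.r z ζ = ζ := by rw [hζ, ← B.l_r, ← B.r_mul, hz.2]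
  have hζn : ‖ζ‖ ≤ 1 := by
    rw [hζ]
    exact (hlz _).trans ((hrz _).trans hξ)
  have hζ2 : ‖ζ‖ ^ 2 ≤ 1 := by
    rw [← one_pow 2]
    exact (sq_le_sq₀ (norm_nonneg _) zero_le_one).2 hζn
  have hdist : ‖ξ - ζ‖ ^ 2 ≤ 4 * (M / G0) := by
    have e1 : ξ - ζ = (ξ - B.l z ξ) + B.l z (ξ - B.r z ξ) := by
      rw [hζ, map_sub]
      abel
    have h1 : ‖ξ - ζ‖ ≤ ‖ξ - B.l z ξ‖ + ‖ξ - B.r z ξ‖ := by
      rw [e1]
      exact (norm_add_le _ _).trans (add_le_add le_rfl (hlz _))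
    have h2 : ‖ξ - ζ‖ ^ 2 ≤ (‖ξ - B.l z ξ‖ + ‖ξ - B.r z ξ‖) ^ 2 :=
      pow_le_pow_left₀ (norm_nonneg _) h1 2
    have h3 : 0 ≤ (‖ξ - B.l z ξ‖ - ‖ξ - B.r z ξ‖) ^ 2 := sq_nonneg _
    nlinarith
  have hen : B.en a ((B.T a ^ k) ζ) ≤ (1 - c) ^ k + 2 * κ1 / c := by
    have h1 := smooth hG hh c0 c1 hz hk1 hz1 B hB lz rz le_rfl
    have h2 : B.en a ζ ≤ 1 := (B.en_le a ζ).trans hζ2
    have h3 : (1 - c) ^ k * B.en a ζ ≤ (1 - c) ^ k * 1 :=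
      mul_le_mul_of_nonneg_left h2 (pow_nonneg (by linarith) k)
    have h4 : 2 * κ1 / c * ‖ζ‖ ^ 2 ≤ 2 * κ1 / c * 1 :=
      mul_le_mul_of_nonneg_left hζ2 (by positivity)
    linarith
  have hsq := (a.pw k).sqrt_eB_le B hP ((a.pw k).TB B ξ) ((a.pw k).TB B ζ)
  have hn : ‖(a.pw k).TB B ξ - (a.pw k).TB B ζ‖ ≤ ‖ξ - ζ‖ := by
    rw [← map_sub]
    exact (a.pw k).norm_TB_le B _
  have h5 : Real.sqrt ((a.pw k).eB B ((a.pw k).TB B ξ)) ≤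
      Real.sqrt ((a.pw k).eB B ((a.pw k).TB B ζ)) + ‖ξ - ζ‖ := hsq.trans (add_le_add le_rfl hn)
  have h6 := Real.sq_sqrt ((a.pw k).eB_nonneg B ((a.pw k).TB B ξ))
  have h7 := Real.sq_sqrt ((a.pw k).eB_nonneg B ((a.pw k).TB B ζ))
  have h8 : (a.pw k).eB B ((a.pw k).TB B ζ) ≤ k * ((1 - c) ^ k + 2 * κ1 / c) := by
    rw [a.pw_TB k B]
    exact (a.eB_pw_le k B _).trans (mul_le_mul_of_nonneg_left hen (Nat.cast_nonneg k))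
  obtain ⟨s, hs⟩ : ∃ s, s = Real.sqrt ((a.pw k).eB B ((a.pw k).TB B ξ)) := ⟨_, rfl⟩
  obtain ⟨t, ht⟩ : ∃ t, t = Real.sqrt ((a.pw k).eB B ((a.pw k).TB B ζ)) := ⟨_, rfl⟩
  have hs0 : 0 ≤ s := by
    rw [hs]
    exact Real.sqrt_nonneg _
  rw [← hs, ← ht] at h5
  rw [← hs] at h6
  rw [← ht] at h7
  rw [← h6]
  have h9 : s ^ 2 ≤ (t + ‖ξ - ζ‖) ^ 2 := pow_le_pow_left₀ hs0 h5 2
  have h10 : 0 ≤ (t - ‖ξ - ζ‖) ^ 2 := sq_nonneg _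
  nlinarith

end

end Pool.Agent.PTH
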