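import Pool.Agent.PTH.Base

/-!
# PTH, region: word averages

`UA A`: finite symmetric family of unitaries with weights (not necessarily lazy); `W.T` on `A`,
`W.TB B` on a bimodule, energies `W.en`, `W.eB`.  `Avg.pw a k`: the words of length `k` of `a`.
`W.Pos`: the averages are positive operators (in `A` and in every bimodule).
-/

open Filter Topology
open scoped InnerProductSpace ComplexOrder

universe u

namespace Pool.Agent.PTH

/-- A finite symmetric family of unitaries with weights. -/
structure UA (A : Type*) [CStarAlgebra A] where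
  ι : Type
  [fin : Fintype ι]
  p : ι → ℝ
  inv : ι → ι
  u : ι → A
  inv_inv : ∀ i, inv (inv i) = i
  p_inv : ∀ i, p (inv i) = p i
  p_nonneg : ∀ i, 0 ≤ p i
  p_sum : ∑ i, p i = 1
  u_star_mul : ∀ i, star (u i) * u i = 1
  u_mul_star : ∀ i, u i * star (u i) = 1
  u_inv : ∀ i, u (inv i) = star (u i)

attribute [instance] UA.fin

namespace UA

variable {A : Type u} [CStarAlgebra A] (W : UA A)

/-- `T x = ∑ p_i u_i x u_i*`. -/
noncomputable def T : A →ₗ[ℂ] A where
  toFun x := ∑ i, (W.p i : ℂ) • (W.u i * x * star (W.u i))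
  map_add' x y := by
    rw [← Finset.sum_add_distrib]
    refine Finset.sum_congr rfl fun i _ => ?_
    rw [mul_add, add_mul, smul_add]
  map_smul' r x := by
    rw [RingHom.id_apply, Finset.smul_sum]
    refine Finset.sum_congr rfl fun i _ => ?_
    rw [mul_smul_comm, smul_mul_assoc, smul_comm]

theorem T_apply (x : A) : W.T x = ∑ i, (W.p i : ℂ) • (W.u i * x * star (W.u i)) := rfl

/-- `T ξ = ∑ p_i u_i ξ u_i*` in a bimodule. -/
noncomputable def TB (B : Bim.{u} A) : B.H →L[ℂ] B.H :=
  ∑ i, (W.p i : ℂ) • (B.l (W.u i) * B.r (star (W.u i)))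

/-- The energy `1/2 ∑ p_i ‖u_i ξ - ξ u_i‖²` in a bimodule. -/
noncomputable def eB (B : Bim.{u} A) (ξ : B.H) : ℝ :=
  1 / 2 * ∑ i, W.p i * ‖B.l (W.u i) ξ - B.r (W.u i) ξ‖ ^ 2

variable [TrAlg A]

/-- The energy `1/2 ∑ p_i ‖u_i x - x u_i‖₂²`. -/
noncomputable def en (x : A) : ℝ := 1 / 2 * ∑ i, W.p i * two (W.u i * x - x * W.u i) ^ 2

/-- The averages are positive operators in `A` and in all bimodules. -/
def Pos : Prop := (∀ x : A, 0 ≤ rt (star x * W.T x)) ∧
  ∀ B : Bim.{u} A, ∀ ξ : B.H, 0 ≤ (⟪ξ, W.TB B ξ⟫_ℂ).re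

end UA

theorem star_ofFn_prod {A : Type*} [Ring A] [StarRing A] {k : ℕ} (f : Fin k → A) :
    (List.ofFn fun j => star (f (Fin.rev j))).prod = star (List.ofFn f).prod := by
  have h : ∀ l : List A, star l.prod = (l.map star).reverse.prod := by
    intro l
    induction l with
    | nil => simp
    | cons a l ih => simp [ih]
  rw [h]
  congr 1
  apply List.ext_getElem (by simp)
  intro i h1 h2
  simp [List.getElem_reverse, Fin.rev]
  have e : k - (i + 1) = k - 1 - i := by omega
  simp only [e]

/-- The trivial family. -/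
noncomputable def UA.triv (A : Type u) [CStarAlgebra A] : UA A where
  ι := Unit
  p _ := 1
  inv i := i
  u _ := 1
  inv_inv _ := rfl
  p_inv _ := rfl
  p_nonneg _ := zero_le_one
  p_sum := by simp
  u_star_mul _ := by simp
  u_mul_star _ := by simp
  u_inv _ := by simp

/-- The words of length `k`. -/
noncomputable def Avg.pw {A : Type u} [CStarAlgebra A] (a : Avg A) (k : ℕ) : UA A where
  ι := Fin k → a.ι
  p s := ∏ j, a.p (s j)
  inv s := fun j => a.inv (s (Fin.rev j))
  u s := (List.ofFn fun j => a.u (s j)).prod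
  inv_inv s := by
    funext j
    simp only [Fin.rev_rev, a.inv_inv]
  p_inv s := by
    simp only [a.p_inv]
    exact Equiv.prod_comp Fin.revPerm (fun j => a.p (s j))
  p_nonneg s := Finset.prod_nonneg fun j _ => (a.p_pos _).le
  p_sum := by
    have h := (Finset.prod_univ_sum (fun _ : Fin k => (Finset.univ : Finset a.ι))
      (fun _ x => a.p x)).symm
    rw [a.p_sum, Finset.prod_const_one] at h
    rw [← h]
    apply Finset.sum_congr _ fun _ _ => rfl
    ext; simp
  u_star_mul s := by
    induction k with
    | zero => simp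
    | succ n ih =>
      have := ih (fun j => s j.succ)
      rw [List.ofFn_succ, List.prod_cons, star_mul, mul_assoc, ← mul_assoc (star (a.u (s 0))),
        a.u_star_mul, one_mul, this]
  u_mul_star s := by
    induction k with
    | zero => simp
    | succ n ih =>
      have := ih (fun j => s j.succ)
      rw [List.ofFn_succ, List.prod_cons, star_mul, mul_assoc, ← mul_assoc _ (star _) (star _),
        this, one_mul, a.u_mul_star]
  u_inv s := by
    simp only [a.u_inv]
    exact star_ofFn_prod fun j => a.u (s j)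

end Pool.Agent.PTH
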