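import Pool.Agent.PTH.RgU
import Pool.Agent.PTH.Tb1

/-!
# PTH / RgUa: API of the word averages `W : UA A` on the algebra

Same proofs as in `AvA`, `AvE` (for `Avg`), only without laziness; reindexing by `W.inv`
(`Equiv.sum_comp (Function.Involutive.toPerm W.inv W.inv_inv)`).

* `T_symm`: `τ(T(x) y) = ∑ p_i τ(u_i x u_i* y) = ∑ p_i τ(x u_i* y u_i)`, reindex.
* `two_T_sq_le`: `hP.1 (x - T x)`, expand, `T_symm`, `⟨T T x, T x⟩ ≤ ‖T x‖₂²`.
* `en_eq`: `‖u_i x - x u_i‖₂² = 2 ‖x‖₂² - 2 Re τ(x* u_i x u_i*)`.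
* `sum_two_le`: Cauchy-Schwarz with the weights `p_i`, `∑ p_i = 1`.
* `norm_T_sub_le`: `u_i x u_i* - x = (u_i x - x u_i) u_i*`.
* `rt_proj_conj`: with `p' = u_i p u_i*` (projection, `rt p' = rt p`):
  `p' - p = p' (p' - p) + (p' - p) p`; `|rt (p' (p' - p) x)| ≤ two p' * two ((p' - p) x)`, etc.;
  `one_mul_le_two`: `one (p' - p) ≤ two p' * two (p' - p) + two (p' - p) * two p`.
-/

open Filter Topology
open scoped InnerProductSpace ComplexOrder

universe u

namespace Pool.Agent.PTH

namespace UA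

variable {A : Type u} [CStarAlgebra A] [PartialOrder A] [StarOrderedRing A] [TracialVN A]
  (W : UA A)

omit [PartialOrder A] [StarOrderedRing A] [TracialVN A] in
theorem sum_inv {E : Type*} [AddCommMonoid E] (f : W.ι → E) : ∑ i, f (W.inv i) = ∑ i, f i :=
  Equiv.sum_comp (Function.Involutive.toPerm W.inv W.inv_inv) f

omit [PartialOrder A] [StarOrderedRing A] [TracialVN A] in
theorem norm_u_le (i : W.ι) : ‖W.u i‖ ≤ 1 := by
  have h1 : ‖W.u i‖ * ‖W.u i‖ ≤ 1 := by
    rw [← CStarRing.norm_star_mul_self, W.u_star_mul]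
    rcases subsingleton_or_nontrivial A with h | h
    · rw [Subsingleton.elim (1 : A) 0, norm_zero]
      exact zero_le_one
    · exact (CStarRing.norm_one).le
  nlinarith [norm_nonneg (W.u i)]

omit [PartialOrder A] [StarOrderedRing A] [TracialVN A] in
private theorem norm_p (i : W.ι) : ‖(W.p i : ℂ)‖ = W.p i := by
  rw [Complex.norm_real, Real.norm_eq_abs, abs_of_nonneg (W.p_nonneg i)]

omit [PartialOrder A] [StarOrderedRing A] [TracialVN A] in
private theorem sum_smul_const (x : A) : ∑ i, (W.p i : ℂ) • x = x := by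
  rw [← Finset.sum_smul, ← Complex.ofReal_sum, W.p_sum, Complex.ofReal_one, one_smul]

theorem T_one : W.T 1 = 1 := by
  rw [T_apply]
  have h : ∀ i, (W.p i : ℂ) • (W.u i * 1 * star (W.u i)) = (W.p i : ℂ) • (1 : A) := fun i => by
    rw [mul_one, W.u_mul_star]
  rw [Finset.sum_congr rfl fun i _ => h i, sum_smul_const]

theorem T_star (x : A) : W.T (star x) = star (W.T x) := by
  rw [T_apply, T_apply, star_sum]
  refine Finset.sum_congr rfl fun i _ => ?_
  rw [star_smul, star_mul, star_mul, star_star, Complex.star_def, Complex.conj_ofReal, mul_assoc]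

theorem T_nonneg {x : A} (hx : 0 ≤ x) : 0 ≤ W.T x := by
  rw [T_apply]
  refine Finset.sum_nonneg fun i _ => ?_
  rw [Complex.coe_smul]
  exact smul_nonneg (W.p_nonneg i) (star_right_conjugate_nonneg hx (W.u i))

theorem T_mono {x y : A} (h : x ≤ y) : W.T x ≤ W.T y := by
  have h1 := W.T_nonneg (sub_nonneg.2 h)
  rw [map_sub] at h1
  exact sub_nonneg.1 h1

theorem norm_T_le (x : A) : ‖W.T x‖ ≤ ‖x‖ := by
  rw [T_apply]
  refine (norm_sum_le _ _).trans ?_
  have h : ∀ i, ‖(W.p i : ℂ) • (W.u i * x * star (W.u i))‖ ≤ W.p i * ‖x‖ := fun i => by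
    rw [norm_smul, norm_p]
    refine mul_le_mul_of_nonneg_left ?_ (W.p_nonneg i)
    have h1 := W.norm_u_le i
    calc ‖W.u i * x * star (W.u i)‖ ≤ ‖W.u i * x‖ * ‖star (W.u i)‖ := norm_mul_le _ _
      _ ≤ (‖W.u i‖ * ‖x‖) * ‖W.u i‖ := by
          rw [norm_star]
          exact mul_le_mul_of_nonneg_right (norm_mul_le _ _) (norm_nonneg _)
      _ ≤ (1 * ‖x‖) * 1 := by
          refine mul_le_mul (mul_le_mul_of_nonneg_right h1 (norm_nonneg _)) h1 (norm_nonneg _) ?_
          rw [one_mul]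
          exact norm_nonneg _
      _ = ‖x‖ := by rw [one_mul, mul_one]
  refine (Finset.sum_le_sum fun i _ => h i).trans ?_
  rw [← Finset.sum_mul, W.p_sum, one_mul]

theorem tau_T (x : A) : TrAlg.tau (W.T x) = TrAlg.tau x := by
  rw [T_apply, map_sum]
  have h : ∀ i, TrAlg.tau ((W.p i : ℂ) • (W.u i * x * star (W.u i))) =
      (W.p i : ℂ) * TrAlg.tau x := fun i => by
    rw [map_smul, smul_eq_mul, mul_assoc, TrAlg.tau_comm, mul_assoc, W.u_star_mul, mul_one]
  rw [Finset.sum_congr rfl fun i _ => h i, ← Finset.sum_mul, ← Complex.ofReal_sum, W.p_sum,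
    Complex.ofReal_one, one_mul]

theorem rt_T (x : A) : rt (W.T x) = rt x := by
  unfold rt
  rw [tau_T]

theorem T_symm (x y : A) : TrAlg.tau (W.T x * y) = TrAlg.tau (x * W.T y) := by
  rw [T_apply, T_apply, Finset.sum_mul, Finset.mul_sum, map_sum, map_sum,
    ← sum_inv W (fun i => TrAlg.tau (x * (W.p i : ℂ) • (W.u i * y * star (W.u i))))]
  refine Finset.sum_congr rfl fun i _ => ?_
  rw [smul_mul_assoc, mul_smul_comm, map_smul, map_smul, W.p_inv, W.u_inv, star_star]
  congr 1
  have e : W.u i * x * star (W.u i) * y = W.u i * (x * star (W.u i) * y) := by noncomm_ring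
  rw [e, TrAlg.tau_comm]
  congr 1
  noncomm_ring

theorem rt_T_symm (x y : A) : rt (W.T x * y) = rt (x * W.T y) := by
  unfold rt
  rw [T_symm]

private theorem two_conj (i : W.ι) (x : A) : two (W.u i * x * star (W.u i)) = two x := by
  rw [two_mul_unitary (by rw [star_star]; exact W.u_star_mul i),
    two_unitary_mul (W.u_star_mul i)]

theorem two_T_le (x : A) : two (W.T x) ≤ two x := by
  rw [T_apply]
  refine (two_sum_le _ _).trans ?_
  have h : ∀ i, two ((W.p i : ℂ) • (W.u i * x * star (W.u i))) = W.p i * two x := fun i => by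
    rw [two_smul', norm_p, two_conj]
  rw [Finset.sum_congr rfl fun i _ => h i, ← Finset.sum_mul, W.p_sum, one_mul]

theorem one_T_le (x : A) : one (W.T x) ≤ one x := by
  refine one_le fun y hy => ?_
  rw [T_symm]
  exact norm_tau_le_one ((W.norm_T_le y).trans hy)

/-- `‖T x‖₂² ≤ Re τ(x* T x)`. -/
theorem two_T_sq_le (hP : W.Pos) (x : A) : two (W.T x) ^ 2 ≤ rt (star x * W.T x) := by
  have h1 := hP.1 (x - W.T x)
  have e : star (x - W.T x) * W.T (x - W.T x) = star x * W.T x - star x * W.T (W.T x) -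
      star (W.T x) * W.T x + star (W.T x) * W.T (W.T x) := by
    rw [star_sub, map_sub]
    noncomm_ring
  have e1 : rt (star x * W.T (W.T x)) = two (W.T x) ^ 2 := by
    rw [← rt_T_symm, T_star, two_sq_rt]
  have e2 : rt (star (W.T x) * W.T x) = two (W.T x) ^ 2 := (two_sq_rt _).symm
  have e3 : rt (star (W.T x) * W.T (W.T x)) ≤ two (W.T x) ^ 2 := by
    refine (le_abs_self _).trans ((abs_rt_star_mul_le _ _).trans ?_)
    rw [sq]
    exact mul_le_mul_of_nonneg_left (W.two_T_le _) (two_nonneg _)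
  rw [e, rt_add, rt_sub, rt_sub, e1, e2] at h1
  linarith

theorem en_eq (x : A) : W.en x = rt (star x * (x - W.T x)) := by
  have h1 : ∀ i, two (W.u i * x - x * W.u i) ^ 2 =
      2 * (rt (star x * x) - rt (star x * (W.u (W.inv i) * x * star (W.u (W.inv i))))) := by
    intro i
    rw [two_sub_sq, two_unitary_mul (W.u_star_mul i), two_mul_unitary (W.u_mul_star i),
      W.u_inv, star_star, star_mul, two_sq_rt]
    have e : star x * star (W.u i) * (x * W.u i) = star x * (star (W.u i) * x * W.u i) := by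
      noncomm_ring
    rw [e]
    ring
  have h2 : W.en x = ∑ i, W.p (W.inv i) *
      (rt (star x * x) - rt (star x * (W.u (W.inv i) * x * star (W.u (W.inv i))))) := by
    unfold en
    rw [Finset.mul_sum]
    refine Finset.sum_congr rfl fun i _ => ?_
    rw [h1, W.p_inv]
    ring
  rw [h2, sum_inv W (fun i => W.p i * (rt (star x * x) -
    rt (star x * (W.u i * x * star (W.u i)))))]
  have h3 : rt (star x * W.T x) = ∑ i, W.p i * rt (star x * (W.u i * x * star (W.u i))) := by
    rw [T_apply, Finset.mul_sum, rt_sum]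
    refine Finset.sum_congr rfl fun i _ => ?_
    rw [mul_smul_comm, Complex.coe_smul, rt_smul]
  rw [mul_sub, rt_sub, h3]
  have h4 : ∑ i, W.p i * (rt (star x * x) - rt (star x * (W.u i * x * star (W.u i)))) =
      (∑ i, W.p i) * rt (star x * x) -
        ∑ i, W.p i * rt (star x * (W.u i * x * star (W.u i))) := by
    rw [Finset.sum_mul, ← Finset.sum_sub_distrib]
    refine Finset.sum_congr rfl fun i _ => ?_
    ring
  rw [h4, W.p_sum, one_mul]

theorem en_nonneg (x : A) : 0 ≤ W.en x := by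
  unfold en
  have h := Finset.sum_nonneg (s := Finset.univ)
    (f := fun i => W.p i * two (W.u i * x - x * W.u i) ^ 2)
    fun i _ => mul_nonneg (W.p_nonneg i) (sq_nonneg _)
  linarith

/-- A projection or any self-adjoint element: `e(x) = ‖x‖₂² - τ(x T x)`. -/
theorem en_sa {x : A} (hx : star x = x) : W.en x = two x ^ 2 - rt (x * W.T x) := by
  rw [en_eq, hx, mul_sub, rt_sub, two_sq_rt, hx]

theorem en_one_sub (x : A) : W.en (1 - x) = W.en x := by
  unfold en
  congr 1
  refine Finset.sum_congr rfl fun i _ => ?_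
  have e : W.u i * (1 - x) - (1 - x) * W.u i = -(W.u i * x - x * W.u i) := by noncomm_ring
  rw [e, two_neg]

private theorem two_conj_sub (i : W.ι) (x : A) :
    two (W.u i * x * star (W.u i) - x) = two (W.u i * x - x * W.u i) := by
  have e : W.u i * x * star (W.u i) - x = (W.u i * x - x * W.u i) * star (W.u i) := by
    rw [sub_mul, mul_assoc x, W.u_mul_star, mul_one]
  rw [e, two_mul_unitary (by rw [star_star]; exact W.u_star_mul i)]

theorem en_conj (x : A) :
    W.en x = 1 / 2 * ∑ i, W.p i * two (W.u i * x * star (W.u i) - x) ^ 2 := by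
  unfold en
  congr 1
  refine Finset.sum_congr rfl fun i _ => ?_
  rw [two_conj_sub]

theorem sum_two_le (x : A) :
    ∑ i, W.p i * two (W.u i * x * star (W.u i) - x) ≤ Real.sqrt (2 * W.en x) := by
  refine Real.le_sqrt_of_sq_le ?_
  have h2 := Finset.sum_sq_le_sum_mul_sum_of_sq_le_mul (Finset.univ : Finset W.ι)
    (r := fun i => W.p i * two (W.u i * x * star (W.u i) - x)) (f := W.p)
    (g := fun i => W.p i * two (W.u i * x * star (W.u i) - x) ^ 2)
    (fun i _ => W.p_nonneg i) (fun i _ => mul_nonneg (W.p_nonneg i) (sq_nonneg _))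
    (fun i _ => le_of_eq (by ring))
  rw [W.p_sum, one_mul] at h2
  refine h2.trans (le_of_eq ?_)
  rw [en_conj]
  ring

/-- Small commutators in norm give small energy. -/
theorem en_le_of_comm {x : A} {δ : ℝ} (h : ∀ i, ‖W.u i * x - x * W.u i‖ ≤ δ) :
    W.en x ≤ δ ^ 2 / 2 := by
  unfold en
  have h1 : ∑ i, W.p i * two (W.u i * x - x * W.u i) ^ 2 ≤ ∑ i, W.p i * δ ^ 2 := by
    refine Finset.sum_le_sum fun i _ => mul_le_mul_of_nonneg_left ?_ (W.p_nonneg i)
    exact pow_le_pow_left₀ (two_nonneg _) ((two_le_norm _).trans (h i)) 2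
  rw [← Finset.sum_mul, W.p_sum, one_mul] at h1
  linarith

/-- `‖T x - x‖ ≤ δ`. -/
theorem norm_T_sub_le {x : A} {δ : ℝ} (h : ∀ i, ‖W.u i * x - x * W.u i‖ ≤ δ) :
    ‖W.T x - x‖ ≤ δ := by
  have e : W.T x - x = ∑ i, (W.p i : ℂ) • ((W.u i * x - x * W.u i) * star (W.u i)) := by
    have e1 : ∀ i, (W.p i : ℂ) • ((W.u i * x - x * W.u i) * star (W.u i)) =
        (W.p i : ℂ) • (W.u i * x * star (W.u i)) - (W.p i : ℂ) • x := by
      intro i
      rw [sub_mul, mul_assoc x, W.u_mul_star, mul_one, smul_sub]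
    rw [Finset.sum_congr rfl fun i _ => e1 i, Finset.sum_sub_distrib, sum_smul_const, T_apply]
  rw [e]
  refine (norm_sum_le _ _).trans ?_
  have h1 : ∀ i, ‖(W.p i : ℂ) • ((W.u i * x - x * W.u i) * star (W.u i))‖ ≤ W.p i * δ := by
    intro i
    rw [norm_smul, norm_p]
    refine mul_le_mul_of_nonneg_left ?_ (W.p_nonneg i)
    refine (norm_mul_le _ _).trans ?_
    rw [norm_star]
    exact (mul_le_of_le_one_right (norm_nonneg _) (W.norm_u_le i)).trans (h i)
  refine (Finset.sum_le_sum fun i _ => h1 i).trans ?_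
  rw [← Finset.sum_mul, W.p_sum, one_mul]

/-- For a projection `p` and `p' = u_i p u_i*`: `‖p' - p‖₁ ≤ 2 ‖p' - p‖₂ ‖p‖₂`. -/
theorem one_proj_conj {p : A} (hp : Prj p) (i : W.ι) :
    one (W.u i * p * star (W.u i) - p) ≤
      2 * two (W.u i * p * star (W.u i) - p) * Real.sqrt (rt p) := by
  have hg : Prj (W.u i * p * star (W.u i)) := by
    constructor
    · rw [star_mul, star_mul, star_star, hp.1, mul_assoc]
    · have e : W.u i * p * star (W.u i) * (W.u i * p * star (W.u i)) =
          W.u i * (p * (star (W.u i) * W.u i) * p) * star (W.u i) := by noncomm_ring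
      rw [e, W.u_star_mul, mul_one, hp.2]
  have hr : rt (W.u i * p * star (W.u i)) = rt p := by
    rw [rt_comm, ← mul_assoc, W.u_star_mul, one_mul]
  have h1 := one_proj_sub_le hp hg
  rw [hr] at h1
  refine h1.trans ?_
  have h0 : 0 ≤ rt p := rt_nonneg (proj_nonneg hp)
  have h2 : Real.sqrt (rt p + rt p) ≤ 2 * Real.sqrt (rt p) := by
    rw [Real.sqrt_le_left (by positivity), mul_pow, Real.sq_sqrt h0]
    linarith
  calc Real.sqrt (rt p + rt p) * two (W.u i * p * star (W.u i) - p)
      ≤ 2 * Real.sqrt (rt p) * two (W.u i * p * star (W.u i) - p) :=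
        mul_le_mul_of_nonneg_right h2 (two_nonneg _)
    _ = 2 * two (W.u i * p * star (W.u i) - p) * Real.sqrt (rt p) := by ring

/-- `∑ p_i ‖u_i p u_i* - p‖₁ ≤ 2 (2 e(p) τ(p))^{1/2}`. -/
theorem sum_one_proj {p : A} (hp : Prj p) :
    ∑ i, W.p i * one (W.u i * p * star (W.u i) - p) ≤
      2 * Real.sqrt (2 * W.en p) * Real.sqrt (rt p) := by
  have h1 : ∑ i, W.p i * one (W.u i * p * star (W.u i) - p) ≤
      (2 * Real.sqrt (rt p)) * ∑ i, W.p i * two (W.u i * p * star (W.u i) - p) := by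
    rw [Finset.mul_sum]
    refine Finset.sum_le_sum fun i _ => ?_
    refine (mul_le_mul_of_nonneg_left (W.one_proj_conj hp i) (W.p_nonneg i)).trans
      (le_of_eq ?_)
    ring
  refine h1.trans ((mul_le_mul_of_nonneg_left (W.sum_two_le p) (by positivity)).trans
    (le_of_eq ?_))
  ring

end UA

end Pool.Agent.PTH
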