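import Pool.Agent.PTH.RgPw
import Pool.Agent.PTH.RgLL

/-!
# PTH / RgZ0: the penalty `g` and the initial projection

`g = (G0 (4/3)^N) b^N`, `z = 1 - spr b (3/4)`.

* `gpen_nonneg`: `b^N ≥ 0`.  `gpen_comm`: `Avg.comm_pow`, then `Avg.comm_word` for `b^N`.
* `gpen_z`: `spr_comm` (`b^N` commutes with `b`).  `gpen_oz`: `spr_le_pow`.
* `exists_z0`: `W = a.pw k`: `‖[W.u s, b]‖ ≤ k δ` (`comm_word`), so `W.en b ≤ (kδ)²/2`
  (`en_le_of_comm`), `√(2 W.en b) ≤ k δ`; `UA.LW8` with `ω = k δ` (`k ≥ 1`, `δ > 0`) gives `t`;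
  `z0 = 1 - spr b t`.  `z z0 = z0`: `spr b (3/4) (1 - spr b t) = 0` for `t ≤ 3/4`
  (`spr_mul_spr'`).  `W.en z0 = W.en (spr b t)` (`en_one_sub`).  `spr b t ≤ spr b (1/8)`.
  `rt (g z0) = G0 (4/3)^N rt (b^N (1 - spr b t)) ≤ G0 (4/3)^N t^N ≤ G0 (1/3)^N`
  (`rt_pow_mul_le`, `t ≤ 1/4`).
-/

open Filter Topology
open scoped InnerProductSpace ComplexOrder

universe u

namespace Pool.Agent.PTH

variable {A : Type u} [CStarAlgebra A] [PartialOrder A] [StarOrderedRing A] [TracialVN A]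

/-- The penalty. -/
noncomputable def gpen (G0 : ℝ) (N : ℕ) (b : A) : A := (G0 * (4 / 3) ^ N) • b ^ N

variable {G0 : ℝ} {N : ℕ} {b : A}

private theorem pow_nn (hb : 0 ≤ b) (N : ℕ) : 0 ≤ b ^ N := by
  have hbs : IsSelfAdjoint b := IsSelfAdjoint.of_nonneg hb
  have e : cfc (fun s : ℝ => s ^ N) b = b ^ N := cfc_pow_id b N
  rw [← e]
  exact cfc_nonneg fun s hs => pow_nonneg (spectrum_nonneg_of_nonneg hb hs) N

theorem gpen_nonneg (hG : 0 < G0) (hb : 0 ≤ b) : 0 ≤ gpen G0 N b :=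
  smul_nonneg (by positivity) (pow_nn hb N)

private theorem norm_b_le (hb : 0 ≤ b) (hb1 : b ≤ 1) : ‖b‖ ≤ 1 :=
  (CStarAlgebra.norm_le_norm_of_nonneg_of_le hb hb1).trans norm_one_le'

theorem gpen_comm (a : Avg A) (hG : 0 < G0) (hb : 0 ≤ b) (hb1 : b ≤ 1) {δ : ℝ}
    (h : ∀ i, ‖a.u i * b - b * a.u i‖ ≤ δ) (k : ℕ) (s : (a.pw k).ι) :
    ‖(a.pw k).u s * gpen G0 N b - gpen G0 N b * (a.pw k).u s‖ ≤
      G0 * (4 / 3) ^ N * (k * (N * δ)) := by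
  have h1 := a.comm_word (b := b ^ N) (δ := N * δ)
    (fun i => Avg.comm_pow (norm_b_le hb hb1) (h i) N) k s
  have e : (a.pw k).u s * gpen G0 N b - gpen G0 N b * (a.pw k).u s =
      (G0 * (4 / 3) ^ N) • ((a.pw k).u s * b ^ N - b ^ N * (a.pw k).u s) := by
    unfold gpen
    rw [mul_smul_comm, smul_mul_assoc, smul_sub]
  have hc : 0 ≤ G0 * (4 / 3) ^ N := by positivity
  rw [e, norm_smul, Real.norm_eq_abs, abs_of_nonneg hc]
  exact mul_le_mul_of_nonneg_left h1 hc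

theorem gpen_z (hb : 0 ≤ b) :
    (1 - spr b (3 / 4)) * gpen G0 N b = gpen G0 N b * (1 - spr b (3 / 4)) := by
  have h1 : Commute (spr b (3 / 4)) (b ^ N) :=
    spr_comm (IsSelfAdjoint.of_nonneg hb) ((Commute.refl b).pow_right N) _
  unfold gpen
  rw [sub_mul, mul_sub, one_mul, mul_one, mul_smul_comm, smul_mul_assoc, h1.eq]

theorem gpen_oz (hG : 0 < G0) (hb : 0 ≤ b) :
    1 - (1 - spr b (3 / 4)) ≤ (1 / G0) • gpen G0 N b := by
  unfold gpen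
  rw [sub_sub_cancel, smul_smul]
  have e : 1 / G0 * (G0 * (4 / 3) ^ N) = (4 / 3) ^ N := by
    field_simp
  rw [e]
  exact spr_le_pow hb N

theorem exists_z0 (a : Avg A) (hG : 0 < G0) (hb : 0 ≤ b) (hb1 : b ≤ 1) {δ : ℝ} (hδ : 0 < δ)
    (h : ∀ i, ‖a.u i * b - b * a.u i‖ ≤ δ) {k : ℕ} (hk : 1 ≤ k) :
    ∃ z0 : A, Prj z0 ∧ (1 - spr b (3 / 4)) * z0 = z0 ∧ rt (1 - spr b (1 / 8)) ≤ rt z0 ∧
      (a.pw k).en z0 ≤ 32 * (k * δ) ∧ rt (gpen G0 N b * z0) ≤ G0 * (1 / 3) ^ N := by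
  have hω : (0 : ℝ) < k * δ := by
    have : (1 : ℝ) ≤ k := by exact_mod_cast hk
    positivity
  have h1 : (a.pw k).en b ≤ (k * δ) ^ 2 / 2 :=
    (a.pw k).en_le_of_comm fun s => a.comm_word h k s
  have h2 : Real.sqrt (2 * (a.pw k).en b) ≤ k * δ := by
    have h3 : 2 * (a.pw k).en b ≤ (k * δ) ^ 2 := by linarith
    exact (Real.sqrt_le_sqrt h3).trans (le_of_eq (Real.sqrt_sq hω.le))
  obtain ⟨t, ht1, ht2, ht3⟩ := (a.pw k).LW8 hb hb1 hω h2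
  refine ⟨1 - spr b t, prj_one_sub (spr_prj b t), ?_, ?_, ?_, ?_⟩
  · have h4 : spr b (3 / 4) * spr b t = spr b (3 / 4) := spr_mul_spr' b (by linarith)
    have e : (1 - spr b (3 / 4)) * (1 - spr b t) =
        1 - spr b t - spr b (3 / 4) + spr b (3 / 4) * spr b t := by noncomm_ring
    rw [e, h4, sub_add_cancel]
  · refine rt_mono (sub_le_sub_left (spr_anti b ht1) 1)
  · rw [(a.pw k).en_one_sub]
    exact ht3
  · unfold gpen
    rw [smul_mul_assoc, rt_smul]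
    have h5 := rt_pow_mul_le hb N (by linarith : (0 : ℝ) ≤ t)
    have h6 : t ^ N ≤ (1 / 4) ^ N := pow_le_pow_left₀ (by linarith) ht2 N
    have hc : 0 ≤ G0 * (4 / 3) ^ N := by positivity
    refine (mul_le_mul_of_nonneg_left (h5.trans h6) hc).trans (le_of_eq ?_)
    rw [mul_assoc, ← mul_pow]
    norm_num

end Pool.Agent.PTH
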