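import Pool.Agent.PTH.Def

/-!
# PTH / Rich: Richert's weights

`Wr N n = 1 - (28/25) ∑_{i=29}^{94} ∑_{q ∈ Bp (yq N) i, q ∣ n} (1 - i/95)`.
* `Wr_le_one`.
* `Wr_nonpos`: `n` squarefree, without prime factor `< zz N = yq N 29`, not a prime, not a product of two primes
  `p < q`, `p ≥ zz N`; so (`n > N ≥ 2`) `n` has `k ≥ 3` distinct prime factors, all `≥ zz N`, product `n`.  A
  prime factor `q < yq N 95` lies in exactly one box `i ≥ 29`, and `q + 1 > N^(i/200)` gives
  `1 - i/95 ≥ 1 - (40/19) log (q+1)/log N`; a prime factor `q ≥ yq N 95` has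
  `0 ≥ 1 - (40/19) log (q+1)/log N`.  Sum: `≥ k - (40/19) ∑_q log (q+1)/log N ≥
  k - (40/19) (log n + k log (1 + 1/zz N))/log N ≥ k (1 - η) - (40/19)(1 + log 2/log N)` for large `N`, which is
  `≥ 3 - 40/19 - small = 0.8947... - small ≥ 25/28 = 0.89285...`.  So `Wr ≤ 1 - 1 = 0`.
-/

set_option autoImplicit false

namespace Pool.Agent.PTH

open Finset Real Filter

/-- Richert's weights -/
noncomputable def Wr (N n : ℕ) : ℝ :=
  1 - (28 / 25 : ℝ) * ∑ i ∈ Icc 29 94, ∑ q ∈ (Bp (yq N) i).filter (fun q => q ∣ n),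
    (1 - (i : ℝ) / 95)

theorem Wr_le_one (N n : ℕ) : Wr N n ≤ 1 := by
  have h : 0 ≤ ∑ i ∈ Icc 29 94, ∑ q ∈ (Bp (yq N) i).filter (fun q => q ∣ n),
      (1 - (i : ℝ) / 95) := by
    refine Finset.sum_nonneg fun i hi => Finset.sum_nonneg fun q _ => ?_
    have h1 : (i : ℝ) ≤ 94 := by exact_mod_cast (Finset.mem_Icc.1 hi).2
    rw [sub_nonneg, div_le_one (by norm_num)]
    linarith
  unfold Wr
  linarith

private lemma rich_box (b : ℕ → ℕ) (q a : ℕ) (h : b a ≤ q) :
    ∀ m, q < b (a + m) → ∃ i, a ≤ i ∧ i < a + m ∧ b i ≤ q ∧ q < b (i + 1) := by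
  intro m
  induction m with
  | zero =>
    intro h1
    rw [add_zero] at h1
    omega
  | succ m ih =>
    intro h1
    by_cases h2 : q < b (a + m)
    · obtain ⟨i, h3, h4, h5, h6⟩ := ih h2
      exact ⟨i, h3, by omega, h5, h6⟩
    · exact ⟨a + m, by omega, by omega, by omega, by rw [add_assoc]; exact h1⟩

private lemma rich_log (N q i : ℕ) (hN : 1 < N) (h : yq N i ≤ q) :
    (i : ℝ) / 200 * Real.log N ≤ Real.log ((q : ℝ) + 1) := by
  have hN0 : (0 : ℝ) < N := by
    have : 0 < N := by omega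
    exact_mod_cast this
  have h1 : (N : ℝ) ^ ((i : ℝ) / 200) < (q : ℝ) + 1 := by
    have h2 : (N : ℝ) ^ ((i : ℝ) / 200) < ((yq N i : ℕ) : ℝ) + 1 := Nat.lt_floor_add_one _
    have h3 : ((yq N i : ℕ) : ℝ) ≤ q := by exact_mod_cast h
    linarith
  have h2 := Real.log_le_log (by positivity) h1.le
  rwa [Real.log_rpow hN0] at h2

private lemma rich_key (N q : ℕ) (hN : 1 < N) (h29 : yq N 29 ≤ q) (hq : q.Prime) :
    1 - (40 / 19 : ℝ) * (Real.log ((q : ℝ) + 1) / Real.log N) ≤
      ∑ i ∈ Icc 29 94, if q ∈ Bp (yq N) i then (1 - (i : ℝ) / 95) else 0 := by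
  have hN1 : (1 : ℝ) < N := by exact_mod_cast hN
  have hlog : 0 < Real.log N := Real.log_pos hN1
  have hnn : ∀ i ∈ Icc 29 94, (0 : ℝ) ≤ if q ∈ Bp (yq N) i then (1 - (i : ℝ) / 95) else 0 := by
    intro i hi
    split_ifs
    · have h1 : (i : ℝ) ≤ 94 := by exact_mod_cast (Finset.mem_Icc.1 hi).2
      rw [sub_nonneg, div_le_one (by norm_num)]
      linarith
    · exact le_rfl
  have hgen : ∀ i : ℕ, yq N i ≤ q →
      (i : ℝ) / 95 ≤ (40 / 19 : ℝ) * (Real.log ((q : ℝ) + 1) / Real.log N) := by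
    intro i hi
    have h1 := rich_log N q i hN hi
    have h2 : (i : ℝ) / 200 ≤ Real.log ((q : ℝ) + 1) / Real.log N := by
      rw [le_div_iff₀ hlog]
      exact h1
    linarith
  by_cases h : q < yq N 95
  · obtain ⟨i, h1, h2, h3, h4⟩ := rich_box (yq N) q 29 h29 66 h
    have hi : i ∈ Icc 29 94 := Finset.mem_Icc.2 ⟨h1, by omega⟩
    have h5 := Finset.single_le_sum hnn hi
    have h6 : q ∈ Bp (yq N) i := by
      rw [Bp, Finset.mem_filter, Finset.mem_Ico]
      exact ⟨⟨h3, h4⟩, hq⟩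
    rw [if_pos h6] at h5
    have h7 := hgen i h3
    linarith
  · have h7 := hgen 95 (not_lt.1 h)
    have h8 := Finset.sum_nonneg hnn
    norm_num at h7
    linarith

theorem Wr_nonpos : ∀ᶠ N : ℕ in atTop, ∀ n : ℕ, N < n → n ≤ 2 * N → ind (zz N) n = 1 →
    Squarefree n → ¬ n.Prime →
    (¬ ∃ p q : ℕ, p.Prime ∧ q.Prime ∧ zz N ≤ p ∧ p < q ∧ n = p * q) → Wr N n ≤ 0 := by
  have hev : ∀ᶠ N : ℕ in atTop, (100000 : ℝ) ≤ Real.log N :=
    (Real.tendsto_log_atTop.comp tendsto_natCast_atTop_atTop).eventually_ge_atTop _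
  filter_upwards [hev, eventually_ge_atTop 2] with N hlogN hN2
  intro n hNn hn2 hind hsq hnp hnpq
  have hN1 : 1 < N := by omega
  have hN1' : (1 : ℝ) < N := by exact_mod_cast hN1
  have hN0 : (0 : ℝ) < N := by linarith
  have hn0 : n ≠ 0 := by omega
  have hlog : 0 < Real.log N := Real.log_pos hN1'
  have hzz : zz N = yq N 29 := by
    unfold zz yq
    norm_num
  have hz1 : 1 ≤ zz N := by
    apply Nat.le_floor
    rw [Nat.cast_one]
    exact Real.one_le_rpow hN1'.le (by norm_num)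
  -- prime factors are large
  have hrough : ∀ p : ℕ, p.Prime → p < zz N → ¬ p ∣ n := by
    by_contra hcon
    unfold ind at hind
    rw [if_neg hcon] at hind
    exact zero_ne_one hind
  have hpf : ∀ q ∈ n.primeFactors, q.Prime ∧ zz N ≤ q := by
    intro q hq
    have h1 := Nat.prime_of_mem_primeFactors hq
    refine ⟨h1, ?_⟩
    by_contra h2
    exact hrough q h1 (not_le.1 h2) (Nat.dvd_of_mem_primeFactors hq)
  have hprod : ∏ p ∈ n.primeFactors, p = n := Nat.prod_primeFactors_of_squarefree hsq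
  -- at least three prime factors
  have hk : 3 ≤ n.primeFactors.card := by
    by_contra hcon
    have hcases : n.primeFactors.card = 0 ∨ n.primeFactors.card = 1 ∨
        n.primeFactors.card = 2 := by omega
    rcases hcases with h | h | h
    · rw [Finset.card_eq_zero] at h
      rw [h, Finset.prod_empty] at hprod
      omega
    · obtain ⟨p, hp⟩ := Finset.card_eq_one.1 h
      rw [hp, Finset.prod_singleton] at hprod
      have h1 := (hpf p (by rw [hp]; exact Finset.mem_singleton_self p)).1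
      rw [hprod] at h1
      exact hnp h1
    · obtain ⟨p, q, hpq, hp⟩ := Finset.card_eq_two.1 h
      rw [hp, Finset.prod_pair hpq] at hprod
      obtain ⟨h1, h2⟩ := hpf p (by rw [hp]; simp)
      obtain ⟨h3, h4⟩ := hpf q (by rw [hp]; simp)
      rcases lt_or_gt_of_ne hpq with h5 | h5
      · exact hnpq ⟨p, q, h1, h3, h2, h5, hprod.symm⟩
      · exact hnpq ⟨q, p, h3, h1, h4, h5, by rw [mul_comm]; exact hprod.symm⟩
  -- the sum
  have hswap : ∑ i ∈ Icc 29 94, ∑ q ∈ (Bp (yq N) i).filter (fun q => q ∣ n),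
      (1 - (i : ℝ) / 95) = ∑ q ∈ n.primeFactors,
        ∑ i ∈ Icc 29 94, if q ∈ Bp (yq N) i then (1 - (i : ℝ) / 95) else 0 := by
    rw [Finset.sum_comm]
    refine Finset.sum_congr rfl fun i _ => ?_
    rw [← Finset.sum_filter]
    refine Finset.sum_congr ?_ fun _ _ => rfl
    ext q
    rw [Finset.mem_filter, Finset.mem_filter, Nat.mem_primeFactors, Bp, Finset.mem_filter]
    constructor
    · rintro ⟨⟨h1, h2⟩, h3⟩
      exact ⟨⟨h2, h3, hn0⟩, h1, h2⟩
    · rintro ⟨⟨h2, h3, -⟩, h1, -⟩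
      exact ⟨⟨h1, h2⟩, h3⟩
  have hlow : ∑ q ∈ n.primeFactors, (1 - (40 / 19 : ℝ) * (Real.log ((q : ℝ) + 1) / Real.log N)) ≤
      ∑ i ∈ Icc 29 94, ∑ q ∈ (Bp (yq N) i).filter (fun q => q ∣ n), (1 - (i : ℝ) / 95) := by
    rw [hswap]
    refine Finset.sum_le_sum fun q hq => ?_
    exact rich_key N q hN1 (hzz ▸ (hpf q hq).2) (hpf q hq).1
  have hlogs : ∑ q ∈ n.primeFactors, Real.log ((q : ℝ) + 1) ≤
      Real.log N + Real.log 2 + n.primeFactors.card := by
    have h1 : ∀ q ∈ n.primeFactors, Real.log ((q : ℝ) + 1) ≤ Real.log q + 1 := by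
      intro q hq
      have hq1 : (1 : ℝ) ≤ q := by exact_mod_cast (hpf q hq).1.one_le
      have h2 : (q : ℝ) + 1 ≤ q * 2 := by linarith
      have h3 := Real.log_le_log (by positivity) h2
      rw [Real.log_mul (by positivity) (by norm_num)] at h3
      have h4 : Real.log 2 ≤ 1 := by
        have := Real.log_two_lt_d9
        linarith
      linarith
    refine (Finset.sum_le_sum h1).trans ?_
    rw [Finset.sum_add_distrib, Finset.sum_const, nsmul_eq_mul, mul_one]
    have h2 : ∑ q ∈ n.primeFactors, Real.log (q : ℝ) = Real.log n := by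
      rw [← Real.log_prod (fun q hq => by
        have := (hpf q hq).1.pos
        positivity)]
      congr 1
      rw [← Nat.cast_prod, hprod]
    rw [h2]
    have h3 : Real.log n ≤ Real.log (N * 2) := by
      apply Real.log_le_log
      · have : 0 < n := by omega
        exact_mod_cast this
      · have : n ≤ N * 2 := by omega
        exact_mod_cast this
    rw [Real.log_mul hN0.ne' (by norm_num)] at h3
    linarith
  have hsum : ∑ q ∈ n.primeFactors, (1 - (40 / 19 : ℝ) * (Real.log ((q : ℝ) + 1) / Real.log N)) =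
      n.primeFactors.card -
        (40 / 19 : ℝ) * ((∑ q ∈ n.primeFactors, Real.log ((q : ℝ) + 1)) / Real.log N) := by
    rw [Finset.sum_sub_distrib, Finset.sum_const, nsmul_eq_mul, mul_one, ← Finset.mul_sum,
      Finset.sum_div]
  rw [hsum] at hlow
  have h3 : (∑ q ∈ n.primeFactors, Real.log ((q : ℝ) + 1)) / Real.log N ≤
      1 + (1 + n.primeFactors.card) / 100000 := by
    rw [div_le_iff₀ hlog]
    have h4 : Real.log 2 ≤ 1 := by
      have := Real.log_two_lt_d9
      linarith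
    have h5 : (0 : ℝ) ≤ n.primeFactors.card := Nat.cast_nonneg _
    have h6 : (1 + (n.primeFactors.card : ℝ)) ≤
        (1 + n.primeFactors.card) / 100000 * Real.log N := by
      rw [div_mul_eq_mul_div, le_div_iff₀ (by norm_num)]
      exact mul_le_mul_of_nonneg_left hlogN (by linarith)
    linarith
  have hk' : (3 : ℝ) ≤ n.primeFactors.card := by exact_mod_cast hk
  unfold Wr
  have h4 : (25 / 28 : ℝ) ≤
      ∑ i ∈ Icc 29 94, ∑ q ∈ (Bp (yq N) i).filter (fun q => q ∣ n), (1 - (i : ℝ) / 95) := by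
    linarith
  linarith

end Pool.Agent.PTH
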