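import Pool.Agent.PTH.Sv
import Pool.Agent.PTH.RemD
import Pool.Agent.PTH.Rich
import Pool.Agent.PTH.Num
import Pool.Agent.PTH.Qs

/-!
# PTH / Sig: lower bound for the weighted sum

`A` from `sieve`, `η = 1/10^4` (then `A/50 - η - 2 η' ... ≥ 1/50`, see below).
* `lin_AAd`: `∑_{n ∈ JH N (rH)} spw n (chi n f) = lin (AAd r N H) f = H mu f + lin (rr r N H) f`.
* `∑ spw n ind (zz N) n ≥ ∑ spw n chi n f0 ≥ H V (A log 3/4 - η) - N^0.4995`, `V = RG.V (zz N)` (`remd`).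
* for `i ∈ [29, 94]`, `f_i` from `sieve` with `τ = tq i ∈ [9/200, 87/200]`:
  `∑_{q ∈ Bp (yq N) i} ∑_{n, q ∣ n} spw n ind (zz N) n = ∑ spw n ∑_{q ∣ n} ind (zz N) (n/q)` (`ind_div`)
  `≤ ∑ spw n ∑_{q ∣ n} chi (n/q) f_i = ∑ spw n chi n (bx (Bp (yq N) i) * f_i)`
  `= H gs (yq N) i mu f_i + lin rr (...) ≤ H (L_i + η) V (A 29/(200 tq i) + η) + N^0.4995`,
  `L_i = (1/i + 1/(i+1))/2` (`qs`), where `29/(200 tq i) = 29/min (115-i) (197-2i)`.
* Total `≥ H V (A log 3/4 - η - (28/25) ∑ (1 - i/95)(L_i + η)(A 29/min + η)) - 100 N^0.4995`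
  `≥ H V (A/50 - C (A + 1) η) - 100 N^0.4995` (`num_ineq`); choose `η` small in terms of `A`; so
  `≥ H V (A/100) - 100 N^0.4995 ≥ c H/log N`, as `V (zz N) ≥ c'/log N` (`RG.V_ratio` from `u = 2`) and
  `H ≥ N^0.49998`.
-/

set_option autoImplicit false

namespace Pool.Agent.PTH

open Finset Real Filter

theorem lin_AAd (r N H : ℕ) (f : SA) :
    ∑ n ∈ PSK.JH N (r * H), spw r N H n * chi n f = H * mu f + lin (rr r N H) f := by
  have h1 : ∀ n, spw r N H n * chi n f =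
      lin (fun d => spw r N H n * (if d ∣ n then 1 else 0)) f := by
    intro n
    unfold chi
    exact (lin_fun_smul _ _ f).symm
  simp_rw [h1]
  rw [← lin_fun_sum]
  unfold mu
  rw [← lin_fun_smul, ← lin_fun_add]
  congr 1
  funext d
  unfold rr AAd
  rw [sum_filter]
  simp only [mul_ite, mul_one, mul_zero]
  ring

private lemma spw_nonneg' (r N H n : ℕ) : 0 ≤ spw r N H n := by
  unfold spw
  positivity

private lemma Kbd (i : ℕ) (h1 : 29 ≤ i) (h2 : i ≤ 94) :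
    (29 / ((min (115 - i) (197 - 2 * i) : ℕ) : ℝ)) ≤ 4 ∧
    0 ≤ (29 / ((min (115 - i) (197 - 2 * i) : ℕ) : ℝ)) := by
  have h3 : 9 ≤ min (115 - i) (197 - 2 * i) := by
    rw [le_min_iff]; omega
  have h4 : (9 : ℝ) ≤ ((min (115 - i) (197 - 2 * i) : ℕ) : ℝ) := by exact_mod_cast h3
  constructor
  · rw [div_le_iff₀ (by linarith)]
    linarith
  · positivity

private lemma Lbd (i : ℕ) (h1 : 29 ≤ i) :
    (1 / (i : ℝ) + 1 / ((i : ℝ) + 1)) / 2 ≤ 1 ∧ 0 ≤ (1 / (i : ℝ) + 1 / ((i : ℝ) + 1)) / 2 := by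
  have h2 : (29 : ℝ) ≤ i := by exact_mod_cast h1
  constructor
  · have h3 : 1 / (i : ℝ) ≤ 1 := by rw [div_le_one (by linarith)]; linarith
    have h4 : 1 / ((i : ℝ) + 1) ≤ 1 := by rw [div_le_one (by linarith)]; linarith
    linarith
  · positivity

private lemma num_core (A V P Hr S0 : ℝ) (T : ℕ → ℝ) (hA : 3 ≤ A) (hV : 0 ≤ V) (hH : 0 ≤ Hr)
    (hP : 0 ≤ P) (h0 : Hr * (V * (A * log 3 / 4 - 1 / 40000)) - P ≤ S0)
    (hT : ∀ i ∈ Icc (29 : ℕ) 94, T i ≤ Hr * (((1 / (i : ℝ) + 1 / ((i : ℝ) + 1)) / 2 + 1 / 40000) *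
      (V * (A * (29 / ((min (115 - i) (197 - 2 * i) : ℕ) : ℝ)) + 1 / 40000))) + P) :
    Hr * V * (A / 100) - 75 * P ≤
      S0 - (28 / 25) * ∑ i ∈ Icc (29 : ℕ) 94, (1 - (i : ℝ) / 95) * T i := by
  have hHV : 0 ≤ Hr * V := mul_nonneg hH hV
  set Sg : ℝ := ∑ i ∈ Icc (29 : ℕ) 94, (1 - (i : ℝ) / 95) *
    (29 / ((min (115 - i) (197 - 2 * i) : ℕ) : ℝ)) * ((1 / (i : ℝ) + 1 / ((i : ℝ) + 1)) / 2)
    with hSg
  have hsum : ∑ i ∈ Icc (29 : ℕ) 94, (1 - (i : ℝ) / 95) * T i ≤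
      Hr * V * A * Sg + 66 * (Hr * V * ((2 + 4 * A) / 40000) + P) := by
    have h66 : (66 : ℝ) * (Hr * V * ((2 + 4 * A) / 40000) + P) =
        ∑ _i ∈ Icc (29 : ℕ) 94, (Hr * V * ((2 + 4 * A) / 40000) + P) := by
      rw [sum_const, Nat.card_Icc, nsmul_eq_mul]
      norm_num
    rw [h66, hSg, mul_sum, ← sum_add_distrib]
    refine sum_le_sum fun i hi => ?_
    have hi' := mem_Icc.1 hi
    have hi1 : (29 : ℝ) ≤ i := by exact_mod_cast hi'.1
    have hi2 : (i : ℝ) ≤ 94 := by exact_mod_cast hi'.2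
    have hw0 : 0 ≤ 1 - (i : ℝ) / 95 := by
      have : (i : ℝ) / 95 ≤ 1 := by rw [div_le_one (by norm_num)]; linarith
      linarith
    have hw1 : 1 - (i : ℝ) / 95 ≤ 1 := by
      have : 0 ≤ (i : ℝ) / 95 := by positivity
      linarith
    obtain ⟨hK4, hK0⟩ := Kbd i hi'.1 hi'.2
    obtain ⟨hL1, hL0⟩ := Lbd i hi'.1
    have hTi := hT i hi
    set K : ℝ := (29 / ((min (115 - i) (197 - 2 * i) : ℕ) : ℝ)) with hKdef
    set L : ℝ := (1 / (i : ℝ) + 1 / ((i : ℝ) + 1)) / 2 with hLdef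
    set w : ℝ := 1 - (i : ℝ) / 95 with hwdef
    have h1 : (L + 1 / 40000) * (A * K + 1 / 40000) ≤ A * K * L + (2 + 4 * A) / 40000 := by
      have h2 : A * K ≤ A * 4 := mul_le_mul_of_nonneg_left hK4 (by linarith)
      nlinarith
    have h3 : T i ≤ Hr * V * (A * K * L + (2 + 4 * A) / 40000) + P := by
      refine hTi.trans ?_
      have h4 : Hr * ((L + 1 / 40000) * (V * (A * K + 1 / 40000))) =
          Hr * V * ((L + 1 / 40000) * (A * K + 1 / 40000)) := by ring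
      rw [h4]
      have := mul_le_mul_of_nonneg_left h1 hHV
      linarith
    have h5 : w * T i ≤ w * (Hr * V * (A * K * L + (2 + 4 * A) / 40000) + P) :=
      mul_le_mul_of_nonneg_left h3 hw0
    refine h5.trans ?_
    have h6 : 0 ≤ Hr * V * ((2 + 4 * A) / 40000) + P := by positivity
    have h7 : w * (Hr * V * ((2 + 4 * A) / 40000) + P) ≤
        1 * (Hr * V * ((2 + 4 * A) / 40000) + P) := mul_le_mul_of_nonneg_right hw1 h6
    have h8 : w * (Hr * V * (A * K * L + (2 + 4 * A) / 40000) + P) =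
        Hr * V * A * (w * K * L) + w * (Hr * V * ((2 + 4 * A) / 40000) + P) := by ring
    linarith
  have hnum := num_ineq
  rw [← hSg] at hnum
  have h9 : Hr * V * A * ((28 / 25) * Sg + 1 / 50) ≤ Hr * V * A * (log 3 / 4) :=
    mul_le_mul_of_nonneg_left hnum (mul_nonneg hHV (by linarith))
  have h10 : Hr * V * (A / 100) ≤
      Hr * V * (A / 50 - 1 / 40000 - 28 / 25 * 66 * ((2 + 4 * A) / 40000)) := by
    refine mul_le_mul_of_nonneg_left ?_ hHV
    linarith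
  have h11 : Hr * (V * (A * log 3 / 4 - 1 / 40000)) =
      Hr * V * A * (log 3 / 4) - Hr * V * (1 / 40000) := by ring
  have h12 : Hr * V * (A / 50 - 1 / 40000 - 28 / 25 * 66 * ((2 + 4 * A) / 40000)) =
    Hr * V * A * (1 / 50) - Hr * V * (1 / 40000) -
      28 / 25 * (66 * (Hr * V * ((2 + 4 * A) / 40000))) := by ring
  have h13 : Hr * V * A * ((28 / 25) * Sg + 1 / 50) =
    28 / 25 * (Hr * V * A * Sg) + Hr * V * A * (1 / 50) := by ring
  rw [h11] at h0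
  rw [h12] at h10
  rw [h13] at h9
  linarith

private lemma zz_eq (N : ℕ) : zz N = yq N 29 := by
  unfold zz yq
  norm_num

private lemma yq_mono (N : ℕ) (hN : 1 ≤ N) {i j : ℕ} (h : i ≤ j) : yq N i ≤ yq N j := by
  refine Nat.floor_le_floor (rpow_le_rpow_of_exponent_le (by exact_mod_cast hN) ?_)
  have : (i : ℝ) ≤ j := by exact_mod_cast h
  linarith

private lemma tq_range (i : ℕ) (h1 : 29 ≤ i) (h2 : i ≤ 94) :
    9 / 200 ≤ tq i ∧ tq i ≤ 87 / 200 := by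
  have h3 : 9 ≤ min (115 - i) (197 - 2 * i) := by
    rw [le_min_iff]; omega
  have h4 : min (115 - i) (197 - 2 * i) ≤ 87 := by
    refine (min_le_left _ _).trans ?_; omega
  have h5 : (9 : ℝ) ≤ ((min (115 - i) (197 - 2 * i) : ℕ) : ℝ) := by exact_mod_cast h3
  have h6 : ((min (115 - i) (197 - 2 * i) : ℕ) : ℝ) ≤ 87 := by exact_mod_cast h4
  unfold tq
  constructor <;> linarith

/-- the sum over one Richert box -/
private lemma box_le (r N H i : ℕ) (hN : 1 ≤ N) (hi : 29 ≤ i) (f : SA)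
    (hf : ∀ m, 1 ≤ m → ind (zz N) m ≤ chi m f) :
    ∑ n ∈ PSK.JH N (r * H), spw r N H n *
      (ind (zz N) n * (((Bp (yq N) i).filter (fun q => q ∣ n)).card : ℝ)) ≤
      H * (gs (yq N) i * mu f) + lin (rr r N H) (bx (Bp (yq N) i) * f) := by
  have h1 := lin_AAd r N H (bx (Bp (yq N) i) * f)
  rw [mu_bx_mul] at h1
  have h2 : gs (yq N) i = ∑ p ∈ Bp (yq N) i, 1 / (p : ℝ) := rfl
  rw [h2, ← h1]
  refine sum_le_sum fun n hn => mul_le_mul_of_nonneg_left ?_ (spw_nonneg' r N H n)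
  have hn1 : 1 ≤ n := by
    rw [PSK.mem_JH] at hn; omega
  have hB : ∀ p ∈ Bp (yq N) i, 1 ≤ p := by
    intro p hp
    rw [Bp, mem_filter] at hp
    exact hp.2.one_lt.le
  rw [chi_bx_mul hB]
  have h3 : ind (zz N) n * (((Bp (yq N) i).filter (fun q => q ∣ n)).card : ℝ) =
      ∑ _q ∈ (Bp (yq N) i).filter (fun q => q ∣ n), ind (zz N) n := by
    rw [sum_const, nsmul_eq_mul, mul_comm]
  rw [h3]
  refine sum_le_sum fun q hq => ?_
  rw [mem_filter, Bp, mem_filter, mem_Ico] at hq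
  obtain ⟨⟨⟨hq1, hq2⟩, hqp⟩, hqn⟩ := hq
  have hzq : zz N ≤ q := by
    rw [zz_eq]
    exact (yq_mono N hN hi).trans hq1
  rw [ind_div (zz N) q n hqp hzq hqn hn1]
  refine hf _ ?_
  exact Nat.div_pos (Nat.le_of_dvd (by omega) hqn) hqp.pos

private lemma V_lower : ∃ c : ℝ, 0 < c ∧ ∀ᶠ N : ℕ in atTop, c / log N ≤ RG.V (zz N) := by
  obtain ⟨C, hC, h⟩ := RG.V_ratio
  have hl2 : 0 < log (2 : ℝ) := log_pos (by norm_num)
  have hV2 : RG.V 2 = 1 := by
    unfold RG.V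
    have : (range 2).filter Nat.Prime = ∅ := by decide
    rw [this, prod_empty]
  refine ⟨log 2 / (1 + C / log 2), by positivity, ?_⟩
  have hpow : Tendsto (fun N : ℕ => (N : ℝ) ^ (29 / 200 : ℝ)) atTop atTop :=
    (tendsto_rpow_atTop (by norm_num)).comp tendsto_natCast_atTop_atTop
  filter_upwards [hpow.eventually_ge_atTop 2, eventually_ge_atTop 2] with N h1 h2
  have hN1 : (1 : ℝ) < N := by exact_mod_cast (by omega : 1 < N)
  have hlN : 0 < log (N : ℝ) := log_pos hN1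
  have hz : 2 ≤ zz N := Nat.le_floor (by exact_mod_cast h1)
  have h3 := (h 2 (zz N) le_rfl hz).1
  rw [hV2, one_mul] at h3
  have hzN : (zz N : ℝ) ≤ N := by
    refine (Nat.floor_le (by positivity)).trans ?_
    calc (N : ℝ) ^ (29 / 200 : ℝ) ≤ (N : ℝ) ^ (1 : ℝ) :=
          rpow_le_rpow_of_exponent_le hN1.le (by norm_num)
      _ = N := rpow_one _
  have hz0 : (0 : ℝ) < zz N := by exact_mod_cast (by omega : 0 < zz N)
  have hlz : log (zz N : ℝ) ≤ log N := log_le_log hz0 hzN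
  have hVpos := RG.V_pos (zz N)
  have hc : 0 < 1 + C / log 2 := by positivity
  rw [div_le_iff₀ hlN, div_le_iff₀ hc]
  push_cast at h3
  calc log 2 ≤ (1 + C / log 2) * (RG.V (zz N) * log (zz N : ℝ)) := h3
    _ ≤ (1 + C / log 2) * (RG.V (zz N) * log N) := by
        refine mul_le_mul_of_nonneg_left (mul_le_mul_of_nonneg_left hlz hVpos.le) hc.le
    _ = RG.V (zz N) * log N * (1 + C / log 2) := by ring

private lemma P_small (c : ℝ) (hc : 0 < c) : ∀ᶠ N : ℕ in atTop, ∀ H : ℕ,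
    (N : ℝ) ^ (1 / 2 - 1 / 50000 : ℝ) ≤ H → (N : ℝ) ^ (4995 / 10000 : ℝ) ≤ c * (H / log N) := by
  have h1 : Tendsto (fun x : ℝ => log x / x ^ (1 / 10000 : ℝ)) atTop (nhds 0) :=
    (isLittleO_log_rpow_atTop (by norm_num : (0 : ℝ) < 1 / 10000)).tendsto_div_nhds_zero
  have h2 := (h1.comp tendsto_natCast_atTop_atTop).eventually_lt_const hc
  filter_upwards [h2, eventually_ge_atTop 2] with N h3 h4 H hH
  have hN1 : (1 : ℝ) < N := by exact_mod_cast (by omega : 1 < N)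
  have hN0 : (0 : ℝ) < N := by linarith
  have hlN : 0 < log (N : ℝ) := log_pos hN1
  simp only [Function.comp] at h3
  rw [div_lt_iff₀ (by positivity)] at h3
  have h5 : (N : ℝ) ^ (4995 / 10000 : ℝ) * log N ≤ c * H := by
    calc (N : ℝ) ^ (4995 / 10000 : ℝ) * log N ≤
          (N : ℝ) ^ (4995 / 10000 : ℝ) * (c * (N : ℝ) ^ (1 / 10000 : ℝ)) :=
          mul_le_mul_of_nonneg_left h3.le (by positivity)
      _ = c * ((N : ℝ) ^ (4995 / 10000 : ℝ) * (N : ℝ) ^ (1 / 10000 : ℝ)) := by ring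
      _ = c * (N : ℝ) ^ (4995 / 10000 + 1 / 10000 : ℝ) := by rw [← rpow_add hN0]
      _ ≤ c * (N : ℝ) ^ (1 / 2 - 1 / 50000 : ℝ) := by
          refine mul_le_mul_of_nonneg_left ?_ hc.le
          exact rpow_le_rpow_of_exponent_le hN1.le (by norm_num)
      _ ≤ c * H := mul_le_mul_of_nonneg_left hH hc.le
  rw [← mul_div_assoc, le_div_iff₀ hlN]
  exact h5

theorem sig_lower (r : ℕ) (hr : 5000 ≤ r) : ∃ c : ℝ, 0 < c ∧ ∀ᶠ N : ℕ in atTop, ∀ H : ℕ,
    (N : ℝ) ^ (1 / 2 - 1 / 50000 : ℝ) ≤ H → r * H ≤ N →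
    c * H / log N ≤ ∑ n ∈ PSK.JH N (r * H), spw r N H n * (ind (zz N) n * Wr N n) := by
  obtain ⟨A, hA, hS⟩ := sieve
  obtain ⟨R0, j0, c0, hR0, hj0, hev⟩ := hS (1 / 40000) (by norm_num)
  obtain ⟨cV, hcV, hVl⟩ := V_lower
  refine ⟨cV / 100, by positivity, ?_⟩
  filter_upwards [hev, remd r R0 j0 c0 hr hR0 hj0, qs (1 / 40000) (by norm_num), hVl,
    P_small (cV / 3750) (by positivity), eventually_ge_atTop 2] with N hev hrem hqs hVl hPs hN2
  intro H hH hrH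
  obtain ⟨lp, lm, hlp, hlm, ⟨f0, hD0, hc0, hm0⟩, hup⟩ := hev
  obtain ⟨hr0, hr1⟩ := hrem H hH hrH lp lm hlp hlm
  have hN1 : (1 : ℝ) < N := by exact_mod_cast (by omega : 1 < N)
  have hlN : 0 < log (N : ℝ) := log_pos hN1
  set P : ℝ := (N : ℝ) ^ (4995 / 10000 : ℝ) with hP
  have hP0 : 0 ≤ P := by positivity
  have hV0 := RG.V_pos (zz N)
  have hH0 : (0 : ℝ) ≤ H := by positivity
  -- the main sum
  set S0 : ℝ := ∑ n ∈ PSK.JH N (r * H), spw r N H n * ind (zz N) n with hS0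
  set T : ℕ → ℝ := fun i => ∑ n ∈ PSK.JH N (r * H), spw r N H n *
      (ind (zz N) n * (((Bp (yq N) i).filter (fun q => q ∣ n)).card : ℝ)) with hTdef
  have hS0l : H * (RG.V (zz N) * (A * log 3 / 4 - 1 / 40000)) - P ≤ S0 := by
    have h1 : ∑ n ∈ PSK.JH N (r * H), spw r N H n * chi n f0 ≤ S0 := by
      refine sum_le_sum fun n hn => mul_le_mul_of_nonneg_left ?_ (spw_nonneg' r N H n)
      refine hc0 n ?_
      rw [PSK.mem_JH] at hn; omega
    rw [lin_AAd] at h1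
    have h2 := (abs_le.1 (hr0 f0 hD0)).1
    have h3 : (H : ℝ) * (RG.V (zz N) * (A * log 3 / 4 - 1 / 40000)) ≤ H * mu f0 :=
      mul_le_mul_of_nonneg_left hm0 hH0
    linarith
  have hT : ∀ i ∈ Icc (29 : ℕ) 94, T i ≤
      H * (((1 / (i : ℝ) + 1 / ((i : ℝ) + 1)) / 2 + 1 / 40000) *
      (RG.V (zz N) * (A * (29 / ((min (115 - i) (197 - 2 * i) : ℕ) : ℝ)) + 1 / 40000))) + P := by
    intro i hi
    have hi' := mem_Icc.1 hi
    obtain ⟨ht1, ht2⟩ := tq_range i hi'.1 hi'.2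
    obtain ⟨f, hDf, hcf, hmf⟩ := hup (tq i) ht1 ht2
    have h1 := box_le r N H i (by omega) hi'.1 f hcf
    have h2 := (abs_le.1 (hr1 i hi'.1 hi'.2 f hDf)).2
    have hg0 : 0 ≤ gs (yq N) i := by
      unfold gs
      exact sum_nonneg fun _ _ => by positivity
    have hg := hqs i hi'.1 hi'.2
    have hmin0 : 0 < ((min (115 - i) (197 - 2 * i) : ℕ) : ℝ) := by
      have h3 : 9 ≤ min (115 - i) (197 - 2 * i) := by
        rw [le_min_iff]; omega
      exact_mod_cast (by omega : 0 < min (115 - i) (197 - 2 * i))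
    have hAt : A * (29 / 200) / tq i =
        A * (29 / ((min (115 - i) (197 - 2 * i) : ℕ) : ℝ)) := by
      unfold tq
      field_simp
    rw [hAt] at hmf
    have hK0 := (Kbd i hi'.1 hi'.2).2
    have h3 : gs (yq N) i * mu f ≤ ((1 / (i : ℝ) + 1 / ((i : ℝ) + 1)) / 2 + 1 / 40000) *
      (RG.V (zz N) * (A * (29 / ((min (115 - i) (197 - 2 * i) : ℕ) : ℝ)) + 1 / 40000)) := by
      refine (mul_le_mul_of_nonneg_left hmf hg0).trans (mul_le_mul_of_nonneg_right hg ?_)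
      have : 0 ≤ A * (29 / ((min (115 - i) (197 - 2 * i) : ℕ) : ℝ)) :=
        mul_nonneg (by linarith) hK0
      positivity
    have h4 := mul_le_mul_of_nonneg_left h3 hH0
    exact h1.trans (add_le_add h4 h2)
  have hmain := num_core A (RG.V (zz N)) P H S0 T hA hV0.le hH0 hP0 hS0l hT
  have hrew : ∑ n ∈ PSK.JH N (r * H), spw r N H n * (ind (zz N) n * Wr N n) =
      S0 - (28 / 25) * ∑ i ∈ Icc (29 : ℕ) 94, (1 - (i : ℝ) / 95) * T i := by
    rw [hS0, hTdef]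
    simp only [mul_sum]
    rw [sum_comm, ← sum_sub_distrib]
    refine sum_congr rfl fun n _ => ?_
    unfold Wr
    have h1 : ∀ i : ℕ, ∑ q ∈ (Bp (yq N) i).filter (fun q => q ∣ n), (1 - (i : ℝ) / 95) =
        (((Bp (yq N) i).filter (fun q => q ∣ n)).card : ℝ) * (1 - (i : ℝ) / 95) := by
      intro i
      rw [sum_const, nsmul_eq_mul]
    simp only [h1]
    rw [mul_sub, mul_sub, mul_one, mul_sum, mul_sum, mul_sum]
    congr 1
    refine sum_congr rfl fun i _ => ?_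
    ring
  rw [hrew]
  refine le_trans ?_ hmain
  have hPs' := hPs H hH
  have h5 : (H : ℝ) * (cV / log N) * (A / 100) ≤ H * RG.V (zz N) * (A / 100) := by
    refine mul_le_mul_of_nonneg_right (mul_le_mul_of_nonneg_left hVl hH0) (by linarith)
  have h6 : 0 ≤ (H : ℝ) / log N := by positivity
  have h7 : (H : ℝ) * (cV / log N) * (A / 100) = cV * A / 100 * (H / log N) := by ring
  have h8 : cV / 100 * H / log N = cV / 100 * (H / log N) := by ring
  have h9 : cV * 3 / 100 * (H / log N) ≤ cV * A / 100 * (H / log N) := by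
    refine mul_le_mul_of_nonneg_right ?_ h6
    have : cV * 3 ≤ cV * A := mul_le_mul_of_nonneg_left hA hcV.le
    linarith
  have h10 : 75 * P ≤ 75 * (cV / 3750 * (H / log N)) := by linarith
  have h11 : 75 * (cV / 3750 * ((H : ℝ) / log N)) = cV / 50 * (H / log N) := by ring
  have h12 : cV * 3 / 100 * ((H : ℝ) / log N) = cV / 100 * (H / log N) + cV / 50 * (H / log N) := by
    ring
  rw [h8]
  linarith

end Pool.Agent.PTH
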