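import Pool.Agent.PTH.Kl

/-!
# PTH / Spl: the smooth weight

`spw r N H n = #{v : Fin r → Fin H | N + 1 + ∑ v i = n} / H^(r-1)`.
* `spw_le_one`: the first `r - 1` coordinates determine `v`.
* `spw_supp`: `N + 1 ≤ n ≤ N + 1 + r (H - 1) < N + r H` as `r ≥ 2`.
* `spw_sum`: every `v` is counted once: `H^r / H^(r-1)`.
* `spw_sum_mul`: sums with the weight are sums over `v`.
* `spw_four`: the sum is `ec ((N+1) θ) (∑_{j < H} ec (j θ))^r / H^(r-1)` (product over the coordinates,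
  `Finset.prod_univ_sum` / `Fintype.sum_pow`), and `|∑_{j<H} ec (j θ)| = |ec (H θ) - 1|/|ec θ - 1| ≤
  1/|sin π θ| ≤ 1/(2|θ|)` for `0 < |θ| ≤ 1/2`.
-/

set_option autoImplicit false

namespace Pool.Agent.PTH

open Finset

theorem spw_nonneg (r N H n : ℕ) : 0 ≤ spw r N H n := by
  unfold spw
  positivity

theorem spw_le_one (r N H n : ℕ) (hr : 1 ≤ r) (hH : 1 ≤ H) : spw r N H n ≤ 1 := by
  obtain ⟨s, rfl⟩ : ∃ s, r = s + 1 := ⟨r - 1, by omega⟩
  unfold spw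
  have hH' : (0 : ℝ) < (H : ℝ) ^ (s + 1 - 1) := by
    have : (0 : ℝ) < H := by exact_mod_cast hH
    positivity
  rw [div_le_one hH', Nat.add_sub_cancel]
  have h1 : ((univ : Finset (Fin (s + 1) → Fin H)).filter
      (fun v => N + 1 + ∑ i, (v i : ℕ) = n)).card ≤ (univ : Finset (Fin s → Fin H)).card := by
    refine card_le_card_of_injOn (fun v => Fin.tail v) (fun _ _ => mem_univ _) ?_
    intro v hv w hw h
    rw [mem_coe, mem_filter] at hv hw
    have h2 := hv.2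
    have h3 := hw.2
    rw [Fin.sum_univ_succ] at h2 h3
    have h4 : ∀ i : Fin s, v i.succ = w i.succ := fun i => congrFun h i
    simp only [h4] at h2
    have h5 : (v 0 : ℕ) = (w 0 : ℕ) := by omega
    funext i
    refine Fin.cases ?_ ?_ i
    · exact Fin.ext h5
    · exact h4
  rw [card_univ, Fintype.card_fun, Fintype.card_fin, Fintype.card_fin] at h1
  exact_mod_cast h1

lemma v_range {r N H : ℕ} (hr : 2 ≤ r) (hH : 1 ≤ H) (v : Fin r → Fin H) :
    N + 1 + ∑ i, (v i : ℕ) ∈ PSK.JH N (r * H) := by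
  rw [PSK.mem_JH]
  have h1 : ∑ i, (v i : ℕ) ≤ ∑ _i : Fin r, (H - 1) :=
    sum_le_sum (fun i _ => by have := (v i).2; omega)
  rw [sum_const, card_univ, Fintype.card_fin, smul_eq_mul] at h1
  obtain ⟨h, rfl⟩ : ∃ h, H = h + 1 := ⟨H - 1, by omega⟩
  rw [Nat.add_sub_cancel] at h1
  have h2 : r * (h + 1) = r * h + r := by ring
  constructor <;> omega

theorem spw_supp (r N H n : ℕ) (hr : 2 ≤ r) (hH : 1 ≤ H) (h : spw r N H n ≠ 0) :
    n ∈ PSK.JH N (r * H) := by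
  unfold spw at h
  have h1 : ((univ : Finset (Fin r → Fin H)).filter
      (fun v => N + 1 + ∑ i, (v i : ℕ) = n)).Nonempty := by
    rw [nonempty_iff_ne_empty]
    intro h0
    apply h
    rw [h0, card_empty]
    simp
  obtain ⟨v, hv⟩ := h1
  rw [mem_filter] at hv
  rw [← hv.2]
  exact v_range hr hH v

/-- Sums with the weight are sums over `v`. -/
lemma spw_sum_mul {r N H : ℕ} (hr : 2 ≤ r) (hH : 1 ≤ H) (g : ℕ → ℂ) :
    ∑ n ∈ PSK.JH N (r * H), ((spw r N H n : ℝ) : ℂ) * g n =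
      (∑ v : Fin r → Fin H, g (N + 1 + ∑ i, (v i : ℕ))) / (H : ℂ) ^ (r - 1) := by
  rw [← sum_fiberwise_of_maps_to (s := (univ : Finset (Fin r → Fin H))) (t := PSK.JH N (r * H))
    (g := fun v => N + 1 + ∑ i, (v i : ℕ)) (fun v _ => v_range hr hH v), sum_div]
  refine sum_congr rfl (fun n _ => ?_)
  have h1 : ∀ v ∈ (univ : Finset (Fin r → Fin H)).filter (fun v => N + 1 + ∑ i, (v i : ℕ) = n),
      g (N + 1 + ∑ i, (v i : ℕ)) = g n := by
    intro v hv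
    rw [(mem_filter.1 hv).2]
  rw [sum_congr rfl h1, sum_const, nsmul_eq_mul]
  unfold spw
  push_cast
  ring

theorem spw_sum (r N H : ℕ) (hr : 2 ≤ r) (hH : 1 ≤ H) :
    ∑ n ∈ PSK.JH N (r * H), spw r N H n = H := by
  have h1 := spw_sum_mul (N := N) hr hH (fun _ => 1)
  simp only [mul_one, sum_const, card_univ, Fintype.card_fun, Fintype.card_fin, nsmul_eq_mul] at h1
  have hH0 : (H : ℂ) ≠ 0 := by
    have : H ≠ 0 := by omega
    exact_mod_cast this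
  obtain ⟨s, rfl⟩ : ∃ s, r = s + 1 := ⟨r - 1, by omega⟩
  rw [Nat.add_sub_cancel, Nat.cast_pow, pow_succ, mul_div_cancel_left₀ _ (pow_ne_zero s hH0)] at h1
  exact_mod_cast h1

lemma ec_add (x y : ℝ) : ec (x + y) = ec x * ec y := by
  unfold ec
  rw [← Complex.exp_add]
  congr 1
  push_cast
  ring

lemma ec_zero : ec 0 = 1 := by simp [ec]

lemma ec_nat_mul (n : ℕ) (θ : ℝ) : ec (n * θ) = ec θ ^ n := by
  induction n with
  | zero => simp [ec_zero]
  | succ n ih => rw [pow_succ, ← ih, ← ec_add]; congr 1; push_cast; ring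

lemma ec_sum {ι : Type*} (s : Finset ι) (f : ι → ℝ) : ec (∑ i ∈ s, f i) = ∏ i ∈ s, ec (f i) := by
  classical
  induction s using Finset.induction_on with
  | empty => simp [ec_zero]
  | insert a s ha ih => rw [sum_insert ha, prod_insert ha, ec_add, ih]

lemma norm_ec_sub_one {θ : ℝ} (h1 : |θ| ≤ 1 / 2) : 4 * |θ| ≤ ‖ec θ - 1‖ := by
  have h2 : ec θ = Complex.exp (Complex.I * ((2 * Real.pi * θ : ℝ) : ℂ)) := by
    unfold ec
    rw [mul_comm]
  rw [h2, Complex.norm_exp_I_mul_ofReal_sub_one, norm_mul, Real.norm_eq_abs, Real.norm_eq_abs,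
    abs_two]
  have h3 : 2 * Real.pi * θ / 2 = Real.pi * θ := by ring
  rw [h3]
  have hpi := Real.pi_pos
  have h4 : |Real.pi * θ| ≤ Real.pi / 2 := by
    rw [abs_mul, abs_of_pos hpi]
    nlinarith
  have h5 := Real.mul_abs_le_abs_sin h4
  rw [abs_mul, abs_of_pos hpi] at h5
  have h6 : 2 / Real.pi * (Real.pi * |θ|) = 2 * |θ| := by
    field_simp
  rw [h6] at h5
  linarith

lemma geom_bound (H : ℕ) {θ : ℝ} (h0 : θ ≠ 0) (h1 : |θ| ≤ 1 / 2) :
    ‖∑ j ∈ range H, ec θ ^ j‖ ≤ 1 / (2 * |θ|) := by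
  have h2 := geom_sum_mul (ec θ) H
  have h3 : ‖∑ j ∈ range H, ec θ ^ j‖ * ‖ec θ - 1‖ ≤ 2 := by
    rw [← norm_mul, h2]
    refine (norm_sub_le _ _).trans ?_
    rw [norm_pow, norm_ec, one_pow, norm_one]
    norm_num
  have h4 := norm_ec_sub_one h1
  have h5 : 0 < |θ| := abs_pos.2 h0
  rw [le_div_iff₀ (by positivity)]
  have h6 := norm_nonneg (∑ j ∈ range H, ec θ ^ j)
  nlinarith

theorem spw_four (r N H : ℕ) (hr : 2 ≤ r) (hH : 1 ≤ H) (θ : ℝ) (h0 : θ ≠ 0) (h1 : |θ| ≤ 1 / 2) :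
    ‖∑ n ∈ PSK.JH N (r * H), ((spw r N H n : ℝ) : ℂ) * ec (n * θ)‖ ≤
      H * (1 / (2 * H * |θ|)) ^ r := by
  rw [spw_sum_mul hr hH (fun n => ec (n * θ))]
  have hH0 : (0 : ℝ) < H := by exact_mod_cast hH
  have h2 : ∑ v : Fin r → Fin H, ec (((N + 1 + ∑ i, (v i : ℕ) : ℕ) : ℝ) * θ) =
      ec (((N + 1 : ℕ) : ℝ) * θ) * (∑ j ∈ range H, ec θ ^ j) ^ r := by
    have h3 : ∀ v : Fin r → Fin H, ec (((N + 1 + ∑ i, (v i : ℕ) : ℕ) : ℝ) * θ) =
        ec (((N + 1 : ℕ) : ℝ) * θ) * ∏ i, ec θ ^ ((v i : ℕ)) := by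
      intro v
      have h4 : ((N + 1 + ∑ i, (v i : ℕ) : ℕ) : ℝ) * θ =
          ((N + 1 : ℕ) : ℝ) * θ + ∑ i, ((v i : ℕ) : ℝ) * θ := by
        rw [← sum_mul]
        push_cast
        ring
      rw [h4, ec_add, ec_sum]
      congr 1
      exact prod_congr rfl (fun i _ => ec_nat_mul _ _)
    rw [sum_congr rfl (fun v _ => h3 v), ← mul_sum]
    congr 1
    have h5 := Finset.prod_univ_sum (fun _ : Fin r => (univ : Finset (Fin H)))
      (fun _ j => ec θ ^ (j : ℕ))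
    rw [Fintype.piFinset_univ] at h5
    rw [← h5, prod_const, card_univ, Fintype.card_fin, Fin.sum_univ_eq_sum_range (fun j => ec θ ^ j)]
  rw [h2, norm_div, norm_mul, norm_ec, one_mul, norm_pow, norm_pow, Complex.norm_natCast]
  have h6 := geom_bound H h0 h1
  have h7 : 0 < |θ| := abs_pos.2 h0
  obtain ⟨s, rfl⟩ : ∃ s, r = s + 1 := ⟨r - 1, by omega⟩
  rw [Nat.add_sub_cancel]
  calc ‖∑ j ∈ range H, ec θ ^ j‖ ^ (s + 1) / (H : ℝ) ^ s ≤ (1 / (2 * |θ|)) ^ (s + 1) / (H : ℝ) ^ s := by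
        gcongr
    _ = H * (1 / (2 * H * |θ|)) ^ (s + 1) := by
        have h8 : 1 / (2 * H * |θ|) = 1 / (2 * |θ|) / (H : ℝ) := by field_simp
        rw [h8, div_pow _ (H : ℝ), pow_succ (H : ℝ) s]
        field_simp

end Pool.Agent.PTH
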