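import Pool.Agent.PTH.Ind
import Pool.Agent.PTH.Geo
import Pool.Agent.PTH.Flw
import Pool.Agent.RG.Phi
import Pool.Agent.RG.PhiF

/-!
# PTH / Sv: the sieve theorem

`fp, fm` from `RG.exists_phi`, `A` from `RG.f_two`.  Given `η` (wlog `η ≤ 1`): `ε = η/100` (small compared
with the constant below); `R0` so large that `s1 = R0/145 ≥ 4` and the error `C C' exp (-s1) 2 R0^3 ≤ η/8`
(`C` from `box_ind`, `C'` from `flw`, `εF = C' exp (-s1)`); `j0 ≥ 200` so large that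
`C (2/j0) 2 R0^3 ≤ η/8`; `N` so large that `C/log w * 2 R0^3 ≤ η/8`, `w = bz 0 ≤ N^(0.145/R0)`, so
`w^s1 ≤ N^(1/1000)`.  `ρ = 2/j0 ≤ 1/100`, `J = R0 j0 - j0`, `b J = zz N`.  By `EE_le` the error terms of
`box_ind` are `≤ (3/8) η V (zz N)`.
* `S1`: `j = J`, `D = N^(29/50)`: `s = log D/log (zz N) ≥ 4`, `fm s ≤ fm 4`, `1 - fm 4 = A log 3/4`,
  `bm s ≤ 1`.  `c = cc (2J+1)`.
* `S2`: `D = N^τ`; `j ≤ J` maximal with `b j ≤ D^(1-ρ)` (exists for large `N`: `0.145/R0 < τ (1-ρ)`).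
  `ind (zz N) m ≤ ind (b j) m`.  `s = log D/log (b j) ≥ 1`.
  If `j = J`: if `s ≤ 3`, `1 + fp s = A/s = A log (zz N)/(τ log N) ≤ A 0.145/τ`; if `s > 3`,
  `1 + fp s ≤ 1 + fp 3 = A/3 ≤ A 0.145/τ` (`τ ≤ 0.435`).
  If `j < J`: `b (j+1) > D^(1-ρ)`, so `s < (1+ρ)/(1-ρ) ≤ 3`, `V (b j)(1 + fp s) = A V (b j) log (b j)/log D ≤
  (1 + C/log w) A V (zz N) log (zz N)/log D` (`RG.V_ratio`).  The `ε bp s`-term: `V (b j) ≤ 30 V (zz N)`
  (`log (b j) ≥ log D/3 ≥ 0.015 log N`, `RG.V_ratio`), `bp s ≤ 1`.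
`Dec` with `cc (2j+1) ≤ c` (`dec_mono`, `cc_mono`).
-/

set_option autoImplicit false

namespace Pool.Agent.PTH

open Finset Real Filter

/-- the choice of `R0`, `j0` -/
private lemma choose_par (C1 C2 η : ℝ) (hC1 : 0 < C1) (hη : 0 < η) :
    ∃ R0 j0 : ℕ, 580 ≤ R0 ∧ 200 ≤ j0 ∧
      C1 * (C2 * exp (-((R0 : ℝ) / 145))) * (2 * (R0 : ℝ) ^ 3) ≤ η / 8 ∧
      C1 * (2 / (j0 : ℝ)) * (2 * (R0 : ℝ) ^ 3) ≤ η / 8 := by
  have h1 : Tendsto (fun n : ℕ => C1 * (C2 * exp (-((n : ℝ) / 145))) * (2 * (n : ℝ) ^ 3))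
      atTop (nhds 0) := by
    have h2 : Tendsto (fun n : ℕ => (n : ℝ) / 145) atTop atTop :=
      tendsto_natCast_atTop_atTop.atTop_div_const (by norm_num)
    have h3 := (tendsto_pow_mul_exp_neg_atTop_nhds_zero 3).comp h2
    have h4 := h3.const_mul (C1 * C2 * 2 * 145 ^ 3)
    rw [mul_zero] at h4
    refine h4.congr fun n => ?_
    simp only [Function.comp_apply]
    ring
  have h5 := h1.eventually_le_const (show (0 : ℝ) < η / 8 by positivity)
  obtain ⟨R0, hR1, hR2⟩ := (h5.and (eventually_ge_atTop 580)).exists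
  have h6 : Tendsto (fun n : ℕ => C1 * (2 / (n : ℝ)) * (2 * (R0 : ℝ) ^ 3)) atTop (nhds 0) := by
    have h7 := (tendsto_inv_atTop_nhds_zero_nat (𝕜 := ℝ)).const_mul (C1 * 2 * (2 * (R0 : ℝ) ^ 3))
    rw [mul_zero] at h7
    refine h7.congr fun n => ?_
    ring
  have h8 := h6.eventually_le_const (show (0 : ℝ) < η / 8 by positivity)
  obtain ⟨j0, hj1, hj2⟩ := (h8.and (eventually_ge_atTop 200)).exists
  exact ⟨R0, j0, hR2, hj2, hR1, hj1⟩

private lemma bp_le_one (s : ℝ) (hs : 1 ≤ s) : RG.bp s ≤ 1 := by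
  unfold RG.bp
  have h1 : 1 ≤ min s 3 := le_min hs (by norm_num)
  rw [div_le_one (by linarith)]
  have h2 : exp (1 - max s 3) ≤ exp (-2) := exp_le_exp.2 (by linarith [le_max_right s 3])
  have h3 : exp (-2) ≤ 1 / 2 := by
    rw [exp_neg, inv_eq_one_div]
    apply one_div_le_one_div_of_le (by norm_num)
    have := add_one_le_exp (2 : ℝ)
    linarith
  linarith

private lemma bm_le_one (s : ℝ) (hs : 0 ≤ s) : RG.bm s ≤ 1 := by
  unfold RG.bm
  exact exp_le_one_iff.2 (by linarith)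

/-- the numbers for the lower bound -/
private lemma s1_num (fp fm : ℝ → ℝ) (Cφ A ε : ℝ) (hΦ : RG.PhiProps fp fm Cφ) (hε : 0 ≤ ε)
    (hA : ∀ s ∈ Set.Icc (2 : ℝ) 4, s * (1 - fm s) = A * log (s - 1)) (x z : ℝ) (hx : 1 < x)
    (hz : 1 < z) (hzx : z ≤ x ^ (29 / 200 : ℝ)) :
    A * log 3 / 4 - ε ≤ 1 - fm (log (x ^ (29 / 50 : ℝ)) / log z) -
      ε * RG.bm (log (x ^ (29 / 50 : ℝ)) / log z) := by
  have hx0 : 0 < x := by linarith
  have hlx : 0 < log x := log_pos hx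
  have hlz : 0 < log z := log_pos hz
  have h1 : log z ≤ 29 / 200 * log x := by
    rw [← log_rpow hx0]
    exact log_le_log (by linarith) hzx
  set s := log (x ^ (29 / 50 : ℝ)) / log z with hs
  have h2 : 4 ≤ s := by
    rw [hs, le_div_iff₀ hlz, log_rpow hx0]
    linarith
  have h3 : fm s ≤ fm 4 := hΦ.fm_anti (by simp [Set.mem_Ici]; norm_num)
    (by rw [Set.mem_Ici]; linarith) h2
  have h4 := hA 4 ⟨by norm_num, le_rfl⟩
  have h5 : RG.bm s ≤ 1 := bm_le_one s (by linarith)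
  have h6 : ε * RG.bm s ≤ ε := by nlinarith
  have h7 : (4 : ℝ) - 1 = 3 := by norm_num
  rw [h7] at h4
  linarith

/-- the numbers for the upper bound, `j = J` -/
private lemma s2_num (fp fm : ℝ → ℝ) (Cφ A : ℝ) (hΦ : RG.PhiProps fp fm Cφ) (hA3 : 3 ≤ A)
    (hA : ∀ s ∈ Set.Icc (1 : ℝ) 3, s * (1 + fp s) = A) (x z τ : ℝ) (hx : 1 < x)
    (hz : 1 < z) (hzx : z ≤ x ^ (29 / 200 : ℝ)) (hτ1 : 9 / 200 ≤ τ) (hτ2 : τ ≤ 87 / 200)
    (hs : 1 ≤ log (x ^ τ) / log z) :
    1 + fp (log (x ^ τ) / log z) ≤ A * (29 / 200) / τ := by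
  have hx0 : 0 < x := by linarith
  have hlx : 0 < log x := log_pos hx
  have hlz : 0 < log z := log_pos hz
  have hτ0 : 0 < τ := by linarith
  have h1 : log z ≤ 29 / 200 * log x := by
    rw [← log_rpow hx0]
    exact log_le_log (by linarith) hzx
  set s := log (x ^ τ) / log z with hs'
  rcases le_or_gt s 3 with h2 | h2
  · have h3 := hA s ⟨hs, h2⟩
    have h4 : 1 + fp s = A / s := by
      rw [eq_div_iff (by linarith), mul_comm]
      exact h3
    have h5 : A / s = A * log z / (τ * log x) := by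
      rw [hs', log_rpow hx0]
      field_simp
    rw [h4, h5, div_le_div_iff₀ (by positivity) hτ0]
    have h6 : A * τ * log z ≤ A * τ * (29 / 200 * log x) :=
      mul_le_mul_of_nonneg_left h1 (by positivity)
    linarith
  · have h3 : fp s ≤ fp 3 := hΦ.fp_anti (by rw [Set.mem_Ici]; norm_num)
      (by rw [Set.mem_Ici]; linarith) h2.le
    have h4 := hA 3 ⟨by norm_num, le_rfl⟩
    have h5 : A / 3 ≤ A * (29 / 200) / τ := by
      rw [div_le_div_iff₀ (by norm_num) hτ0]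
      have h6 : A * τ ≤ A * (87 / 200) := mul_le_mul_of_nonneg_left hτ2 (by linarith)
      linarith
    linarith

/-- the numbers for the upper bound, `j < J` -/
private lemma s3_num (fp fm : ℝ → ℝ) (Cφ A C3 : ℝ) (hΦ : RG.PhiProps fp fm Cφ) (hA3 : 3 ≤ A)
    (hC3 : 0 < C3)
    (hA : ∀ s ∈ Set.Icc (1 : ℝ) 3, s * (1 + fp s) = A) (x w u z τ Vu Vz : ℝ) (hx : 1 < x)
    (hw : 1 < w) (hwu : w ≤ u) (huz : u ≤ z) (hzx : z ≤ x ^ (29 / 200 : ℝ))
    (hτ1 : 9 / 200 ≤ τ) (hVz : 0 < Vz) (hVu : 0 < Vu)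
    (hV : Vu * log u ≤ (1 + C3 / log u) * (Vz * log z)) (hC : 2 * C3 ≤ log w)
    (hs : 1 ≤ log (x ^ τ) / log u) (hs3 : log (x ^ τ) / log u ≤ 3) :
    Vu * (1 + fp (log (x ^ τ) / log u)) ≤ Vz * (A * (29 / 200) / τ + 4 * A * C3 / log w) ∧
      Vu ≤ 30 * Vz := by
  have hx0 : 0 < x := by linarith
  have hlx : 0 < log x := log_pos hx
  have hlw : 0 < log w := log_pos hw
  have hlu : 0 < log u := log_pos (by linarith)
  have hlz : 0 < log z := log_pos (by linarith)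
  have hwu' : log w ≤ log u := log_le_log (by linarith) hwu
  have hτ0 : 0 < τ := by linarith
  have h1 : log z ≤ 29 / 200 * log x := by
    rw [← log_rpow hx0]
    exact log_le_log (by linarith) hzx
  have h0 : C3 / log u ≤ C3 / log w := div_le_div_of_nonneg_left hC3.le hlw hwu'
  have h00 : C3 / log w ≤ 1 / 2 := by
    rw [div_le_iff₀ hlw]; linarith
  have h2 : Vu * log u ≤ (1 + C3 / log w) * (Vz * (29 / 200 * log x)) := by
    refine hV.trans ?_
    have h3 : 0 ≤ 1 + C3 / log u := by positivity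
    apply mul_le_mul (by linarith) _ (by positivity) (by positivity)
    exact mul_le_mul_of_nonneg_left h1 hVz.le
  constructor
  · set s := log (x ^ τ) / log u with hs'
    have h3 := hA s ⟨hs, hs3⟩
    have h4 : 1 + fp s = A / s := by
      rw [eq_div_iff (by linarith), mul_comm]
      exact h3
    have h5 : A / s = A * log u / (τ * log x) := by
      rw [hs', log_rpow hx0]
      field_simp
    rw [h4, h5]
    have h6 : Vu * (A * log u / (τ * log x)) = A / (τ * log x) * (Vu * log u) := by ring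
    rw [h6]
    have h7 : A / (τ * log x) * (Vu * log u) ≤
        A / (τ * log x) * ((1 + C3 / log w) * (Vz * (29 / 200 * log x))) :=
      mul_le_mul_of_nonneg_left h2 (by positivity)
    refine h7.trans ?_
    have h8 : A / (τ * log x) * ((1 + C3 / log w) * (Vz * (29 / 200 * log x))) =
        Vz * (A * (29 / 200) / τ + (29 / 200) / τ * (A * C3 / log w)) := by
      field_simp
    rw [h8]
    apply mul_le_mul_of_nonneg_left _ hVz.le
    have h9 : (29 / 200 : ℝ) / τ ≤ 4 := by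
      rw [div_le_iff₀ hτ0]; linarith
    have h10 : 0 ≤ A * C3 / log w := by positivity
    have h11 : (29 / 200) / τ * (A * C3 / log w) ≤ 4 * (A * C3 / log w) :=
      mul_le_mul_of_nonneg_right h9 h10
    have h12 : 4 * (A * C3 / log w) = 4 * A * C3 / log w := by ring
    linarith
  · have h3 : 3 / 200 * log x ≤ log u := by
      rw [log_rpow hx0, div_le_iff₀ hlu] at hs3
      have h4 : 9 / 200 * log x ≤ τ * log x := mul_le_mul_of_nonneg_right hτ1 hlx.le
      linarith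
    have h5 : Vu * (3 / 200 * log x) ≤ 3 / 2 * (Vz * (29 / 200 * log x)) := by
      calc Vu * (3 / 200 * log x) ≤ Vu * log u := mul_le_mul_of_nonneg_left h3 hVu.le
        _ ≤ (1 + C3 / log w) * (Vz * (29 / 200 * log x)) := h2
        _ ≤ 3 / 2 * (Vz * (29 / 200 * log x)) := by
            apply mul_le_mul_of_nonneg_right (by linarith)
            positivity
    have h6 : Vu * log x ≤ 29 / 2 * Vz * log x := by nlinarith
    have h7 : Vu ≤ 29 / 2 * Vz := le_of_mul_le_mul_right h6 hlx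
    linarith

theorem sieve : ∃ A : ℝ, 3 ≤ A ∧ ∀ η : ℝ, 0 < η → ∃ R0 j0 c : ℕ, 2 ≤ R0 ∧ 100 ≤ j0 ∧
    ∀ᶠ N : ℕ in atTop, ∃ lp lm : SA,
      FLp ((N : ℝ) ^ (1 / 1000 : ℝ)) (bz R0 j0 N 0) lp ∧
      FLp ((N : ℝ) ^ (1 / 1000 : ℝ)) (bz R0 j0 N 0) lm ∧
      (∃ f : SA, Dec (bz R0 j0 N) lp lm c ((N : ℝ) ^ (29 / 50 : ℝ)) f ∧
        (∀ m, 1 ≤ m → chi m f ≤ ind (zz N) m) ∧
        RG.V (zz N) * (A * log 3 / 4 - η) ≤ mu f) ∧
      (∀ τ : ℝ, 9 / 200 ≤ τ → τ ≤ 87 / 200 → ∃ f : SA,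
        Dec (bz R0 j0 N) lp lm c ((N : ℝ) ^ τ) f ∧
        (∀ m, 1 ≤ m → ind (zz N) m ≤ chi m f) ∧
        mu f ≤ RG.V (zz N) * (A * (29 / 200) / τ + η)) := by
  obtain ⟨fp, fm, Cφ, hΦ⟩ := RG.exists_phi
  obtain ⟨A, hA3, hAp, hAm⟩ := RG.f_two fp fm Cφ hΦ
  obtain ⟨C1, hC1, hbox⟩ := box_ind fp fm Cφ hΦ
  obtain ⟨C2, hC2, hfl⟩ := flw fp fm Cφ hΦ
  obtain ⟨C3, hC3, hVr⟩ := RG.V_ratio
  refine ⟨A, hA3, fun η₀ hη₀ => ?_⟩
  obtain ⟨η, hη, hη1, hηη⟩ : ∃ η : ℝ, 0 < η ∧ η ≤ 1 ∧ η ≤ η₀ :=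
    ⟨min η₀ 1, lt_min hη₀ one_pos, min_le_right _ _, min_le_left _ _⟩
  obtain ⟨R0, j0, hR0, hj0, hp1, hp2⟩ := choose_par C1 C2 η hC1 hη
  obtain ⟨Z1, hZ1⟩ := hbox (η / 240) (by positivity) (by linarith)
  have hR0r : (580 : ℝ) ≤ R0 := by exact_mod_cast hR0
  have hj0r : (200 : ℝ) ≤ j0 := by exact_mod_cast hj0
  obtain ⟨Z2, hZ22, hZ2⟩ := hfl ((R0 : ℝ) / 145) (by rw [le_div_iff₀ (by norm_num)]; linarith)
  set J : ℕ := R0 * j0 - j0 with hJ
  set K : ℝ := C1 * (2 * (R0 : ℝ) ^ 3) * 8 / η + 32 * A * C3 / η + 2 * C3 + 1 with hK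
  refine ⟨R0, j0, cc (2 * J + 1), by omega, by omega, ?_⟩
  filter_upwards [bz_BS R0 j0 (by omega) (by omega), bz_gs R0 j0 (by omega) (by omega),
    EE_le R0 j0 (by omega) (by omega),
    (bz_tendsto R0 j0 0 (by omega) (by omega)).eventually_ge_atTop (Z1 + Z2 + ⌈exp K⌉₊),
    eventually_ge_atTop 3] with N hBS hgs hEE hw hN3
  set b := bz R0 j0 N with hb
  have hx1 : (1 : ℝ) < N := by
    have : (3 : ℝ) ≤ N := by exact_mod_cast hN3
    linarith
  have hx0 : (0 : ℝ) < N := by linarith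
  have hbmono : Monotone b := bz_mono R0 j0 N (by omega)
  have hbJ : b J = zz N := bz_J R0 j0 N (by omega) (by omega)
  have hw2 : 2 ≤ b 0 := by omega
  have hwK : K ≤ log (b 0) := by
    have h1 : exp K ≤ b 0 := by
      have h2 : ((Z1 + Z2 + ⌈exp K⌉₊ : ℕ) : ℝ) ≤ b 0 := by exact_mod_cast hw
      push_cast at h2
      have h3 := Nat.le_ceil (exp K)
      have h4 : (0 : ℝ) ≤ Z1 := Nat.cast_nonneg _
      have h5 : (0 : ℝ) ≤ Z2 := Nat.cast_nonneg _
      linarith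
    have h2 := log_le_log (exp_pos K) h1
    rwa [log_exp] at h2
  have hA0 : 0 < A := by linarith
  have hK1 : C1 * (2 * (R0 : ℝ) ^ 3) * 8 / η ≤ log (b 0) := by
    have : 0 ≤ 32 * A * C3 / η := by positivity
    linarith
  have hK2 : 32 * A * C3 / η ≤ log (b 0) := by
    have : 0 ≤ C1 * (2 * (R0 : ℝ) ^ 3) * 8 / η := by positivity
    linarith
  have hK3 : 2 * C3 ≤ log (b 0) := by
    have h1 : 0 ≤ 32 * A * C3 / η := by positivity
    have h2 : 0 ≤ C1 * (2 * (R0 : ℝ) ^ 3) * 8 / η := by positivity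
    linarith
  have hlw : 0 < log (b 0 : ℝ) := by linarith
  have hw1 : (1 : ℝ) < b 0 := by
    have : (2 : ℝ) ≤ b 0 := by exact_mod_cast hw2
    linarith
  have hbge : ∀ j, (1 : ℝ) < b j := by
    intro j
    have h1 : b 0 ≤ b j := hbmono (Nat.zero_le _)
    have h2 : (b 0 : ℝ) ≤ b j := by exact_mod_cast h1
    linarith
  have hwle : (b 0 : ℝ) ≤ (N : ℝ) ^ ((29 / 200 : ℝ) / R0) := by
    rw [hb, bz_zero R0 j0 N (by omega)]
    exact Nat.floor_le (rpow_nonneg hx0.le _)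
  have hzle : (zz N : ℝ) ≤ (N : ℝ) ^ (29 / 200 : ℝ) := by
    unfold zz
    exact Nat.floor_le (rpow_nonneg hx0.le _)
  have hz1 : (1 : ℝ) < zz N := by
    rw [← hbJ]; exact hbge J
  -- the weights of the small primes
  have hwD : (b 0 : ℝ) ^ ((R0 : ℝ) / 145) ≤ (N : ℝ) ^ (1 / 1000 : ℝ) := by
    calc (b 0 : ℝ) ^ ((R0 : ℝ) / 145)
        ≤ ((N : ℝ) ^ ((29 / 200 : ℝ) / R0)) ^ ((R0 : ℝ) / 145) :=
          rpow_le_rpow (by linarith) hwle (by positivity)
      _ = (N : ℝ) ^ (1 / 1000 : ℝ) := by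
          rw [← rpow_mul hx0.le]
          congr 1
          field_simp
          norm_num
  obtain ⟨lp, lm, hlp, hlm, hlp1, hlm1, hlp2, hlm2⟩ := hZ2 (b 0) (by omega) _ hwD
  -- the error terms
  have hVz : 0 < RG.V (zz N) := RG.V_pos _
  have herr : ∀ j, j ≤ J → C1 * (C2 * exp (-((R0 : ℝ) / 145)) + 2 / (j0 : ℝ) + 1 / log (b 0)) *
      EE b j ≤ 3 / 8 * η * RG.V (zz N) := by
    intro j hj
    have h1 := hEE j hj
    have h2 : 0 ≤ C1 * (C2 * exp (-((R0 : ℝ) / 145)) + 2 / (j0 : ℝ) + 1 / log (b 0)) := by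
      have := exp_pos (-((R0 : ℝ) / 145))
      positivity
    refine (mul_le_mul_of_nonneg_left h1 h2).trans ?_
    have h3 : C1 * (1 / log (b 0)) * (2 * (R0 : ℝ) ^ 3) ≤ η / 8 := by
      rw [div_le_iff₀ hη] at hK1
      have h4 : C1 * (1 / log (b 0 : ℝ)) * (2 * (R0 : ℝ) ^ 3) =
          C1 * (2 * (R0 : ℝ) ^ 3) / log (b 0) := by ring
      rw [h4, div_le_iff₀ hlw]
      linarith
    have h5 : C1 * (C2 * exp (-((R0 : ℝ) / 145)) + 2 / (j0 : ℝ) + 1 / log (b 0)) *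
        (2 * (R0 : ℝ) ^ 3 * RG.V (zz N)) =
        (C1 * (C2 * exp (-((R0 : ℝ) / 145))) * (2 * (R0 : ℝ) ^ 3) +
          C1 * (2 / (j0 : ℝ)) * (2 * (R0 : ℝ) ^ 3) +
          C1 * (1 / log (b 0)) * (2 * (R0 : ℝ) ^ 3)) * RG.V (zz N) := by ring
    rw [h5]
    apply mul_le_mul_of_nonneg_right _ hVz.le
    linarith
  have hεF : 0 ≤ C2 * exp (-((R0 : ℝ) / 145)) := by
    have := exp_pos (-((R0 : ℝ) / 145))
    positivity
  have hρ0 : (0 : ℝ) < 2 / j0 := by positivity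
  have hρ1 : (2 : ℝ) / j0 ≤ 1 / 100 := by
    rw [div_le_iff₀ (by linarith)]; linarith
  have hind := hZ1 b (2 / j0) J hBS hρ0 hρ1 (by omega) hgs lp lm
    (C2 * exp (-((R0 : ℝ) / 145))) hεF hlp1 hlm1 hlp2 hlm2
  refine ⟨lp, lm, hlp, hlm, ?_, ?_⟩
  · -- the lower bound
    obtain ⟨hlow, -⟩ := hind J le_rfl
    have hD : (b J : ℝ) ^ 2 ≤ (N : ℝ) ^ (29 / 50 : ℝ) := by
      rw [hbJ]
      calc (zz N : ℝ) ^ 2 ≤ ((N : ℝ) ^ (29 / 200 : ℝ)) ^ 2 :=
            pow_le_pow_left₀ (by linarith) hzle 2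
        _ = (N : ℝ) ^ (29 / 100 : ℝ) := by
            rw [← rpow_natCast, ← rpow_mul hx0.le]; norm_num
        _ ≤ (N : ℝ) ^ (29 / 50 : ℝ) := rpow_le_rpow_of_exponent_le hx1.le (by norm_num)
    obtain ⟨f, hf1, hf2, hf3⟩ := hlow _ hD
    refine ⟨f, dec_mono b lp lm (cc_mono (by omega)) _ f hf1, ?_, ?_⟩
    · rw [← hbJ]; exact hf2
    · rw [hbJ] at hf3
      have h1 := s1_num fp fm Cφ A (η / 240) hΦ (by positivity) hAm N (zz N) hx1 hz1 hzle
      have h2 := mul_le_mul_of_nonneg_left h1 hVz.le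
      have h3 := herr J le_rfl
      have h4 : RG.V (zz N) * (A * log 3 / 4 - η₀) ≤
          RG.V (zz N) * (A * log 3 / 4 - η / 240) - 3 / 8 * η * RG.V (zz N) := by
        have h5 : RG.V (zz N) * (A * log 3 / 4 - η / 240) - 3 / 8 * η * RG.V (zz N) =
            RG.V (zz N) * (A * log 3 / 4 - (η / 240 + 3 / 8 * η)) := by ring
        rw [h5]
        apply mul_le_mul_of_nonneg_left _ hVz.le
        linarith
      linarith
  · -- the upper bound
    intro τ hτ1 hτ2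
    have hD0 : (0 : ℝ) < (N : ℝ) ^ τ := rpow_pos_of_pos hx0 _
    classical
    set P : ℕ → Prop := fun j => (b j : ℝ) ≤ ((N : ℝ) ^ τ) ^ (1 - 2 / (j0 : ℝ)) with hP
    have hP0 : P 0 := by
      rw [hP]
      refine hwle.trans ?_
      rw [← rpow_mul hx0.le]
      apply rpow_le_rpow_of_exponent_le hx1.le
      have h1 : (29 / 200 : ℝ) / R0 ≤ 1 / 100 := by
        rw [div_le_iff₀ (by linarith)]; linarith
      have h2 : 9 / 200 * (1 - 1 / 100) ≤ τ * (1 - 2 / (j0 : ℝ)) :=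
        mul_le_mul hτ1 (by linarith) (by norm_num) (by linarith)
      linarith
    set j : ℕ := Nat.findGreatest P J with hj
    have hjJ : j ≤ J := Nat.findGreatest_le J
    have hPj : P j := Nat.findGreatest_spec (Nat.zero_le J) hP0
    obtain ⟨-, hup⟩ := hind j hjJ
    obtain ⟨f, hf1, hf2, hf3⟩ := hup _ hD0 hPj
    refine ⟨f, dec_mono b lp lm (cc_mono (by omega)) _ f hf1, ?_, ?_⟩
    · intro m hm
      refine le_trans ?_ (hf2 m hm)
      apply ind_anti
      rw [← hbJ]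
      exact hbmono hjJ
    · have hlbj : 0 < log (b j : ℝ) := log_pos (hbge j)
      have hlN : 0 < log (N : ℝ) := log_pos hx1
      have hlogj : log (b j : ℝ) ≤ (1 - 2 / (j0 : ℝ)) * log ((N : ℝ) ^ τ) := by
        rw [← log_rpow hD0]
        exact log_le_log (by linarith [hbge j]) hPj
      have hlD : 0 < log ((N : ℝ) ^ τ) := by
        rw [log_rpow hx0]
        have : 0 < τ := by linarith
        positivity
      have hs1 : 1 ≤ log ((N : ℝ) ^ τ) / log (b j) := by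
        rw [le_div_iff₀ hlbj, one_mul]
        refine hlogj.trans ?_
        have : (1 - 2 / (j0 : ℝ)) * log ((N : ℝ) ^ τ) ≤ 1 * log ((N : ℝ) ^ τ) :=
          mul_le_mul_of_nonneg_right (by linarith) hlD.le
        linarith
      have h3 := herr j hjJ
      have hbp := bp_le_one _ hs1
      rcases Nat.eq_or_lt_of_le hjJ with hjJ' | hjJ'
      · -- j = J
        rw [hjJ', hbJ] at hf3 hs1 hbp
        rw [hjJ'] at h3
        have h1 := s2_num fp fm Cφ A hΦ hA3 hAp N (zz N) τ hx1 hz1 hzle hτ1 hτ2 hs1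
        have h2 : 1 + fp (log ((N : ℝ) ^ τ) / log (zz N)) +
            η / 240 * RG.bp (log ((N : ℝ) ^ τ) / log (zz N)) ≤
            A * (29 / 200) / τ + η / 240 := by
          have : η / 240 * RG.bp (log ((N : ℝ) ^ τ) / log (zz N)) ≤ η / 240 * 1 :=
            mul_le_mul_of_nonneg_left hbp (by positivity)
          linarith
        have h4 := mul_le_mul_of_nonneg_left h2 hVz.le
        have h5 : RG.V (zz N) * (A * (29 / 200) / τ + η / 240) + 3 / 8 * η * RG.V (zz N) ≤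
            RG.V (zz N) * (A * (29 / 200) / τ + η₀) := by
          have h6 : RG.V (zz N) * (A * (29 / 200) / τ + η / 240) + 3 / 8 * η * RG.V (zz N) =
            RG.V (zz N) * (A * (29 / 200) / τ + (η / 240 + 3 / 8 * η)) := by ring
          rw [h6]
          apply mul_le_mul_of_nonneg_left _ hVz.le
          linarith
        linarith
      · -- j < J
        have hnP : ¬ P (j + 1) := Nat.findGreatest_is_greatest (Nat.lt_succ_self j) hjJ'
        have hnP' : ((N : ℝ) ^ τ) ^ (1 - 2 / (j0 : ℝ)) < b (j + 1) := not_le.1 hnP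
        have hrat := hBS.ratio j hjJ'
        have h6 : (1 - 2 / (j0 : ℝ)) * log ((N : ℝ) ^ τ) ≤ (1 + 2 / (j0 : ℝ)) * log (b j) := by
          rw [← log_rpow hD0, ← log_rpow (by linarith [hbge j])]
          exact log_le_log (rpow_pos_of_pos hD0 _) (hnP'.le.trans hrat)
        have hs3 : log ((N : ℝ) ^ τ) / log (b j) ≤ 3 := by
          rw [div_le_iff₀ hlbj]
          have h7 : 99 / 100 * log ((N : ℝ) ^ τ) ≤ (1 - 2 / (j0 : ℝ)) * log ((N : ℝ) ^ τ) :=
            mul_le_mul_of_nonneg_right (by linarith) hlD.le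
          have h8 : (1 + 2 / (j0 : ℝ)) * log (b j) ≤ 101 / 100 * log (b j) :=
            mul_le_mul_of_nonneg_right (by linarith) hlbj.le
          linarith
        have hbj2 : 2 ≤ b j := hw2.trans (hbmono (Nat.zero_le j))
        have hbjz : b j ≤ zz N := by
          rw [← hbJ]; exact hbmono hjJ
        have hV := (hVr (b j) (zz N) hbj2 hbjz).1
        have hwu : (b 0 : ℝ) ≤ b j := by exact_mod_cast hbmono (Nat.zero_le j)
        have huz : (b j : ℝ) ≤ zz N := by exact_mod_cast hbjz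
        obtain ⟨h7, h8⟩ := s3_num fp fm Cφ A C3 hΦ hA3 hC3 hAp N (b 0) (b j) (zz N) τ
          (RG.V (b j)) (RG.V (zz N)) hx1 hw1 hwu huz hzle hτ1 hVz (RG.V_pos _) hV hK3 hs1 hs3
        have h9 : 4 * A * C3 / log (b 0) ≤ η / 8 := by
          rw [div_le_iff₀ hη] at hK2
          rw [div_le_iff₀ hlw]
          linarith
        have h10 : RG.V (b j) * (η / 240 * RG.bp (log ((N : ℝ) ^ τ) / log (b j))) ≤
            η / 8 * RG.V (zz N) := by
          have h11 : η / 240 * RG.bp (log ((N : ℝ) ^ τ) / log (b j)) ≤ η / 240 * 1 :=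
            mul_le_mul_of_nonneg_left hbp (by positivity)
          calc RG.V (b j) * (η / 240 * RG.bp (log ((N : ℝ) ^ τ) / log (b j)))
              ≤ RG.V (b j) * (η / 240) := by
                apply mul_le_mul_of_nonneg_left _ (RG.V_pos _).le
                linarith
            _ ≤ 30 * RG.V (zz N) * (η / 240) := mul_le_mul_of_nonneg_right h8 (by positivity)
            _ = η / 8 * RG.V (zz N) := by ring
        have h12 : RG.V (b j) * (1 + fp (log ((N : ℝ) ^ τ) / log (b j)) +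
            η / 240 * RG.bp (log ((N : ℝ) ^ τ) / log (b j))) =
            RG.V (b j) * (1 + fp (log ((N : ℝ) ^ τ) / log (b j))) +
            RG.V (b j) * (η / 240 * RG.bp (log ((N : ℝ) ^ τ) / log (b j))) := by ring
        rw [h12] at hf3
        have h13 : RG.V (zz N) * (A * (29 / 200) / τ + 4 * A * C3 / log (b 0)) +
            η / 8 * RG.V (zz N) + 3 / 8 * η * RG.V (zz N) ≤
            RG.V (zz N) * (A * (29 / 200) / τ + η₀) := by
          have h14 : RG.V (zz N) * (A * (29 / 200) / τ + 4 * A * C3 / log (b 0)) +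
            η / 8 * RG.V (zz N) + 3 / 8 * η * RG.V (zz N) =
            RG.V (zz N) * (A * (29 / 200) / τ + (4 * A * C3 / log (b 0) + η / 8 + 3 / 8 * η)) := by
            ring
          rw [h14]
          apply mul_le_mul_of_nonneg_left _ hVz.le
          linarith
        linarith

end Pool.Agent.PTH
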