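import Pool.Agent.PTH.Tb3
import Pool.Agent.PTH.TbPj

/-!
# Toolbox: spectral projections `spr x t = 1_{x > t}`

`f_n(s) = min 1 (n (s - t)₊)` (`rmp t n`).
PROOFS.
* `spr_tendsto`: `f_n(x)` is increasing (`cfc_mono`), `0 ≤ f_n(x) ≤ 1`: `mono_lim` gives a 2-norm
  limit, so `Classical.epsilon_spec`.
* `spr_prj`: self-adjoint by `lim_isSelfAdjoint`; `f_n(x)² → e²` (`lim_mul`) and `f_n(x)² - f_n(x)`:
  `0 ≤ f_n - f_n² ≤ f_{2n} - f_n` pointwise (at `f_n < 1`: `f_{2n} = min 1 (2 f_n)`, and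
  `f - f² ≤ min (1 - f) f`), so `f_n(x) - f_n(x)²` has trace tending to zero, it is positive, and
  its 2-norm limit `e - e²` is `0` (`eq_zero_of_rt`, `lim_nonneg`, `lim_rt`).
* `spr_comm`: `f_n(x)` commutes with everything commuting with `x` (`Commute.cfc`), pass to the
  limit with `lim_mul_left`, `lim_mul_right`, `lim_unique`.
-/

open Filter Topology

namespace Pool.Agent.PTH

open TrAlg

/-- `min 1 (n (s - t)₊)`. -/
noncomputable def rmp (t : ℝ) (n : ℕ) (s : ℝ) : ℝ := min 1 ((n : ℝ) * max (s - t) 0)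

theorem rmp_cont (t : ℝ) (n : ℕ) : Continuous (rmp t n) := by unfold rmp; fun_prop

theorem rmp_nonneg (t : ℝ) (n : ℕ) (s : ℝ) : 0 ≤ rmp t n s := by unfold rmp; positivity

theorem rmp_le_one (t : ℝ) (n : ℕ) (s : ℝ) : rmp t n s ≤ 1 := min_le_left _ _

theorem rmp_of_le {t s : ℝ} (h : s ≤ t) (n : ℕ) : rmp t n s = 0 := by
  unfold rmp
  rw [max_eq_right (by linarith), mul_zero]
  exact min_eq_right zero_le_one

theorem rmp_mono (t : ℝ) {m n : ℕ} (h : m ≤ n) (s : ℝ) : rmp t m s ≤ rmp t n s := by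
  unfold rmp
  have : (m : ℝ) ≤ n := by exact_mod_cast h
  gcongr

theorem rmp_anti {t t' : ℝ} (h : t ≤ t') (n : ℕ) (s : ℝ) : rmp t' n s ≤ rmp t n s := by
  unfold rmp
  gcongr

theorem rmp_eq_one {t s : ℝ} {n : ℕ} (hn : 1 ≤ n) (h : t + 1 / n ≤ s) : rmp t n s = 1 := by
  unfold rmp
  have hn' : (0 : ℝ) < n := by exact_mod_cast hn
  refine min_eq_left ?_
  rw [max_eq_left (by have : (0:ℝ) < 1 / n := by positivity
                      linarith)]
  have h2 : (1 : ℝ) / n ≤ s - t := by linarith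
  rwa [div_le_iff₀ hn', mul_comm] at h2

theorem rmp_tendsto {t s : ℝ} (h : t < s) : Tendsto (fun n => rmp t n s) atTop (𝓝 1) := by
  refine tendsto_const_nhds.congr' ?_
  obtain ⟨n, hn⟩ := exists_nat_gt (1 / (s - t))
  have hst : 0 < s - t := sub_pos.2 h
  filter_upwards [eventually_ge_atTop (n + 1)] with m hm
  symm
  have hm1 : (n : ℝ) < m := by exact_mod_cast (Nat.lt_of_succ_le hm)
  have hm0 : (0 : ℝ) < m := by
    have : (0 : ℝ) ≤ n := Nat.cast_nonneg n
    linarith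
  refine rmp_eq_one (by omega) ?_
  have h3 : (1 : ℝ) / m ≤ s - t := by
    rw [div_le_iff₀ hm0]
    rw [div_lt_iff₀ hst] at hn
    nlinarith
  linarith

theorem rmp_sub_sq (t : ℝ) (n : ℕ) (s : ℝ) :
    rmp t n s - rmp t n s * rmp t n s ≤ rmp t (2 * n) s - rmp t n s := by
  unfold rmp
  push_cast
  set a : ℝ := (n : ℝ) * max (s - t) 0 with ha
  have h0 : 0 ≤ a := by positivity
  have h2 : 2 * (n : ℝ) * max (s - t) 0 = 2 * a := by rw [ha]; ring
  rw [h2]
  rcases le_total 1 a with h | h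
  · rw [min_eq_left h, min_eq_left (by linarith)]; norm_num
  · rw [min_eq_right h]
    rcases le_total 1 (2 * a) with h3 | h3
    · rw [min_eq_left h3]; nlinarith
    · rw [min_eq_right h3]; nlinarith

variable {N : Type*} [CStarAlgebra N] [PartialOrder N] [StarOrderedRing N] [TracialVN N]

theorem rmp_cfc_nonneg (x : N) (t : ℝ) (n : ℕ) : 0 ≤ cfc (rmp t n) x :=
  cfc_nonneg fun s _ => rmp_nonneg t n s

theorem rmp_cfc_le_one (x : N) (t : ℝ) (n : ℕ) : cfc (rmp t n) x ≤ 1 :=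
  cfc_le_one _ _ fun s _ => rmp_le_one t n s

theorem rmp_cfc_norm_le (x : N) (t : ℝ) (n : ℕ) : ‖cfc (rmp t n) x‖ ≤ 1 :=
  norm_cfc_le zero_le_one fun s _ => by
    rw [Real.norm_eq_abs, abs_of_nonneg (rmp_nonneg t n s)]; exact rmp_le_one t n s

theorem spr_tendsto (x : N) (t : ℝ) :
    Tendsto (fun n : ℕ => two (cfc (rmp t n) x - spr x t)) atTop (𝓝 0) := by
  have h : ∃ e : N, Tendsto (fun n : ℕ =>
      two (cfc (fun s : ℝ => min 1 ((n : ℝ) * max (s - t) 0)) x - e)) atTop (𝓝 0) := by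
    obtain ⟨y, -, -, -, hl⟩ := mono_lim (x := fun n : ℕ => cfc (rmp t n) x) (C := 1) zero_le_one
      (fun m n h => cfc_mono (fun s _ => rmp_mono t h s)
        (rmp_cont t m).continuousOn (rmp_cont t n).continuousOn)
      (rmp_cfc_nonneg x t 0) (fun n => by rw [one_smul]; exact rmp_cfc_le_one x t n)
    exact ⟨y, hl⟩
  exact Classical.epsilon_spec h

theorem spr_nonneg (x : N) (t : ℝ) : 0 ≤ spr x t :=
  lim_nonneg (rmp_cfc_nonneg x t) (spr_tendsto x t)

theorem spr_le_one (x : N) (t : ℝ) : spr x t ≤ 1 :=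
  lim_le (rmp_cfc_le_one x t) (spr_tendsto x t) (lim_const 1)

theorem rmp_le_spr (x : N) (t : ℝ) (n : ℕ) : cfc (rmp t n) x ≤ spr x t := by
  have h5 : Tendsto (fun k => two (cfc (rmp t (k + n)) x - spr x t)) atTop (𝓝 0) :=
    lim_comp (x := fun m => cfc (rmp t m) x) (φ := fun k => k + n) (tendsto_add_atTop_nat n)
      (spr_tendsto x t)
  exact lim_le (x := fun _ : ℕ => cfc (rmp t n) x) (x' := fun k => cfc (rmp t (k + n)) x)
    (fun k => cfc_mono (fun s _ => rmp_mono t (Nat.le_add_left n k) s)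
      (rmp_cont t _).continuousOn (rmp_cont t _).continuousOn) (lim_const _) h5

theorem spr_prj (x : N) (t : ℝ) : Prj (spr x t) := by
  have hs : star (spr x t) = spr x t := (IsSelfAdjoint.of_nonneg (spr_nonneg x t)).star_eq
  refine ⟨hs, ?_⟩
  have hl := spr_tendsto x t
  have h2 : Tendsto (fun n => two (cfc (rmp t n) x - cfc (rmp t n) x * cfc (rmp t n) x -
      (spr x t - spr x t * spr x t))) atTop (𝓝 0) :=
    lim_sub hl (lim_mul (rmp_cfc_norm_le x t) hl hl)
  have hmul : ∀ n, cfc (rmp t n) x * cfc (rmp t n) x =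
      cfc (fun s => rmp t n s * rmp t n s) x := fun n =>
    (cfc_mul _ _ x (rmp_cont t n).continuousOn (rmp_cont t n).continuousOn).symm
  have hc2 : ∀ n, Continuous (fun s => rmp t n s * rmp t n s) := fun n =>
    (rmp_cont t n).mul (rmp_cont t n)
  have hpos : ∀ n, 0 ≤ cfc (rmp t n) x - cfc (rmp t n) x * cfc (rmp t n) x := fun n => by
    rw [hmul, ← cfc_sub _ _ x (rmp_cont t n).continuousOn (hc2 n).continuousOn]
    refine cfc_nonneg fun s _ => ?_
    have h0 := rmp_nonneg t n s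
    have h1 := rmp_le_one t n s
    nlinarith
  have hle : ∀ n, rt (cfc (rmp t n) x - cfc (rmp t n) x * cfc (rmp t n) x) ≤
      rt (cfc (rmp t (2 * n)) x) - rt (cfc (rmp t n) x) := fun n => by
    rw [← rt_sub]
    refine rt_mono ?_
    rw [hmul, ← cfc_sub _ _ x (rmp_cont t n).continuousOn (hc2 n).continuousOn,
      ← cfc_sub _ _ x (rmp_cont t _).continuousOn (rmp_cont t n).continuousOn]
    exact cfc_mono (fun s _ => rmp_sub_sq t n s)
      ((rmp_cont t n).sub (hc2 n)).continuousOn ((rmp_cont t _).sub (rmp_cont t n)).continuousOn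
  have h3 : Tendsto (fun n : ℕ => rt (cfc (rmp t (2 * n)) x) - rt (cfc (rmp t n) x)) atTop
      (𝓝 (rt (spr x t) - rt (spr x t))) := by
    refine Tendsto.sub ?_ (lim_rt hl)
    exact (lim_rt hl).comp (tendsto_id.const_mul_atTop' (by norm_num : 0 < 2))
  rw [sub_self] at h3
  have h4 := tendsto_nhds_unique (lim_rt h2)
    (squeeze_zero (fun n => rt_nonneg (hpos n)) hle h3)
  have h5 := eq_zero_of_rt (lim_nonneg hpos h2) h4
  exact (sub_eq_zero.1 h5).symm

theorem spr_sa (x : N) (t : ℝ) : star (spr x t) = spr x t := (spr_prj x t).1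

theorem spr_mul_self (x : N) (t : ℝ) : spr x t * spr x t = spr x t := (spr_prj x t).2

theorem spr_comm {x y : N} (hx : IsSelfAdjoint x) (h : Commute x y) (t : ℝ) :
    Commute (spr x t) y := by
  have hl := spr_tendsto x t
  refine lim_unique (lim_mul_right y hl) ((lim_mul_left y hl).congr fun n => ?_)
  rw [(h.cfc_real (rmp t n)).eq]

/-- `1_{x > s} 1_{x > t} = 1_{x > t}` for `s ≤ t`. -/
theorem spr_mul_spr (x : N) {s t : ℝ} (h : s ≤ t) : spr x s * spr x t = spr x t := by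
  have hp := spr_nonneg x t
  have hle : spr x t ≤ spr x s :=
    lim_le (fun n => cfc_mono (fun r _ => rmp_anti h n r)
      (rmp_cont t n).continuousOn (rmp_cont s n).continuousOn) (spr_tendsto x t) (spr_tendsto x s)
  exact prj_mul_of_le' hp (spr_prj x s) hle

theorem spr_mul_spr' (x : N) {s t : ℝ} (h : s ≤ t) : spr x t * spr x s = spr x t := by
  have := congrArg star (spr_mul_spr x h)
  rwa [star_mul, spr_sa, spr_sa] at this

theorem spr_anti (x : N) {s t : ℝ} (h : s ≤ t) : spr x t ≤ spr x s :=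
  lim_le (fun n => cfc_mono (fun r _ => rmp_anti h n r)
    (rmp_cont t n).continuousOn (rmp_cont s n).continuousOn) (spr_tendsto x t) (spr_tendsto x s)

end Pool.Agent.PTH
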