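import Pool.Agent.PTH.Tb4

/-!
# Toolbox: comparison of `spr x t` with the continuous functional calculus

PROOFS.
* `cfc_mul_spr_nonneg`: `cfc g x * cfc (rmp t n) x = cfc (g * rmp t n) x ≥ 0` (the product
  `g s * rmp t n s` is `≥ 0` on the spectrum: `rmp t n s = 0` for `s ≤ t`), then `lim_nonneg`.
* `cfc_mul_one_sub_spr_nonneg`: for every `ε > 0` and all large `n`,
  `g s (1 - rmp t n s) ≥ -ε` on the spectrum (for `s ≤ t` by hypothesis; for `s ≥ t + 1/n` it is
  `0`; for `t < s < t + 1/n` by continuity of `g` on the compact set `spectrum ℝ x` at `t`; if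
  `t ∉ spectrum ℝ x` there is no spectrum in `(t, t + 1/n)` for large `n`).  So the limit is
  `≥ -ε` for all `ε > 0`.
* the rest are formal consequences of these two (apply them to `g - g'` and `g' - g`, and use
  `1 = spr x t + (1 - spr x t)`).
-/

open Filter Topology

namespace Pool.Agent.PTH

open TrAlg

variable {N : Type*} [CStarAlgebra N] [PartialOrder N] [StarOrderedRing N] [TracialVN N]

/-- If `g ≥ 0` on `(t, ∞)` then `g(x) 1_{x > t} ≥ 0`. -/
theorem cfc_mul_spr_nonneg {x : N} {g : ℝ → ℝ} (hg : ContinuousOn g (spectrum ℝ x)) {t : ℝ}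
    (h : ∀ s ∈ spectrum ℝ x, t < s → 0 ≤ g s) : 0 ≤ cfc g x * spr x t := by
  refine lim_nonneg (x := fun n : ℕ => cfc g x * cfc (rmp t n) x) (fun n => ?_)
    (lim_mul_left (cfc g x) (spr_tendsto x t))
  rw [← cfc_mul g (rmp t n) x hg (rmp_cont t n).continuousOn]
  refine cfc_nonneg fun s hs => ?_
  rcases le_or_gt s t with hst | hst
  · rw [rmp_of_le hst, mul_zero]
  · exact mul_nonneg (h s hs hst) (rmp_nonneg t n s)

private theorem nonneg_of_add_eps {y : N} (hy : ∀ ε : ℝ, 0 < ε → 0 ≤ y + ε • (1 : N)) : 0 ≤ y := by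
  have hsa : IsSelfAdjoint y := by
    have h1 : IsSelfAdjoint (y + (1 : ℝ) • (1 : N)) := IsSelfAdjoint.of_nonneg (hy 1 one_pos)
    have h2 : IsSelfAdjoint ((1 : ℝ) • (1 : N)) := by
      rw [one_smul]
      exact IsSelfAdjoint.one N
    have h3 := h1.sub h2
    rwa [add_sub_cancel_right] at h3
  refine nonneg_of_rt hsa fun a ha => ?_
  have hra : 0 ≤ rt a := rt_nonneg ha
  refine le_of_forall_pos_le_add fun ε hε => ?_
  have h1 := rt_mul_nonneg ha (hy (ε / (rt a + 1)) (by positivity))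
  rw [mul_add, rt_add, mul_smul_comm, mul_one, rt_smul] at h1
  have h2 : ε / (rt a + 1) * rt a ≤ ε := by
    rw [div_mul_eq_mul_div, div_le_iff₀ (by positivity)]
    nlinarith
  linarith

private theorem cfc_one_sub {x : N} (hx : IsSelfAdjoint x) {g : ℝ → ℝ}
    (hg : ContinuousOn g (spectrum ℝ x)) : cfc (fun s => 1 - g s) x = 1 - cfc g x := by
  have h := cfc_sub (fun _ => (1 : ℝ)) g x continuousOn_const hg
  rwa [cfc_const_one ℝ x hx] at h

/-- If `g ≥ 0` on `(-∞, t]` then `g(x) 1_{x ≤ t} ≥ 0`. -/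
theorem cfc_mul_one_sub_spr_nonneg {x : N} (hx : IsSelfAdjoint x) {g : ℝ → ℝ}
    (hg : ContinuousOn g (spectrum ℝ x)) {t : ℝ}
    (h : ∀ s ∈ spectrum ℝ x, s ≤ t → 0 ≤ g s) : 0 ≤ cfc g x * (1 - spr x t) := by
  refine nonneg_of_add_eps fun ε hε => ?_
  -- near `t` the function is at least `-ε`
  have hδ : ∃ δ : ℝ, 0 < δ ∧ ∀ s ∈ spectrum ℝ x, |s - t| < δ → -ε ≤ g s := by
    by_cases ht : t ∈ spectrum ℝ x
    · have h1 := hg t ht
      rw [ContinuousWithinAt, Metric.tendsto_nhdsWithin_nhds] at h1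
      obtain ⟨δ, hδ, h2⟩ := h1 ε hε
      refine ⟨δ, hδ, fun s hs hst => ?_⟩
      have h3 := h2 hs (by rwa [Real.dist_eq])
      rw [Real.dist_eq] at h3
      have h4 := (abs_lt.1 h3).1
      have h5 := h t ht le_rfl
      linarith
    · have hcl : IsClosed (spectrum ℝ x) :=
        (ContinuousFunctionalCalculus.isCompact_spectrum (p := IsSelfAdjoint) x).isClosed
      have h1 : (spectrum ℝ x)ᶜ ∈ 𝓝 t := hcl.isOpen_compl.mem_nhds ht
      obtain ⟨δ, hδ, h2⟩ := Metric.mem_nhds_iff.1 h1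
      refine ⟨δ, hδ, fun s hs hst => ?_⟩
      exact absurd hs (h2 (by rwa [Metric.mem_ball, Real.dist_eq]))
  obtain ⟨δ, hδ, hgδ⟩ := hδ
  obtain ⟨n0, hn0⟩ := exists_nat_gt (1 / δ)
  have hl1 : Tendsto (fun k : ℕ => two (cfc (rmp t (k + (n0 + 1))) x - spr x t)) atTop (𝓝 0) :=
    lim_comp (x := fun m => cfc (rmp t m) x) (φ := fun k => k + (n0 + 1))
      (tendsto_add_atTop_nat (n0 + 1)) (spr_tendsto x t)
  have hl2 := lim_sub (lim_const (ι := ℕ) (l := atTop) (1 : N)) hl1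
  have hl3 := lim_mul_left (cfc g x) hl2
  have hl4 := lim_add hl3 (lim_const (ι := ℕ) (l := atTop) (ε • (1 : N)))
  refine lim_nonneg (fun k => ?_) hl4
  set n : ℕ := k + (n0 + 1) with hn
  have hnpos : (0 : ℝ) < n := by
    have : 0 < n := by omega
    exact_mod_cast this
  have hnδ : 1 / (n : ℝ) < δ := by
    rw [div_lt_iff₀ hnpos]
    rw [div_lt_iff₀ hδ] at hn0
    have : (n0 : ℝ) ≤ n := by
      have : n0 ≤ n := by omega
      exact_mod_cast this
    rw [mul_comm]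
    exact hn0.trans_le (mul_le_mul_of_nonneg_right this hδ.le)
  have e1 : cfc g x * (1 - cfc (rmp t n) x) + ε • (1 : N) =
      cfc (fun s => g s * (1 - rmp t n s) + ε) x := by
    have hc : ContinuousOn (fun s => 1 - rmp t n s) (spectrum ℝ x) :=
      (continuous_const.sub (rmp_cont t n)).continuousOn
    rw [cfc_add_const ε (fun s => g s * (1 - rmp t n s)) x (hg.mul hc) hx,
      cfc_mul g (fun s => 1 - rmp t n s) x hg hc,
      cfc_one_sub hx (rmp_cont t n).continuousOn, Algebra.algebraMap_eq_smul_one]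
  rw [e1]
  refine cfc_nonneg fun s hs => ?_
  have hr0 := rmp_nonneg t n s
  have hr1 := rmp_le_one t n s
  rcases le_or_gt s t with hst | hst
  · have := mul_nonneg (h s hs hst) (by linarith : 0 ≤ 1 - rmp t n s)
    linarith
  · rcases le_or_gt (t + 1 / n) s with h3 | h3
    · rw [rmp_eq_one (by omega) h3]
      linarith
    · have h4 := hgδ s hs (by rw [abs_of_pos (by linarith)]; linarith)
      nlinarith [mul_nonneg (by linarith : 0 ≤ 1 - rmp t n s) (by linarith : 0 ≤ g s + ε)]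

theorem cfc_commute_spr (x : N) (g : ℝ → ℝ) (t : ℝ) : Commute (cfc g x) (spr x t) := by
  have hl := spr_tendsto x t
  refine lim_unique (lim_mul_left (cfc g x) hl) ((lim_mul_right (cfc g x) hl).congr fun n => ?_)
  rw [(cfc_commute_cfc (rmp t n) g x).eq]

theorem spr_commute_spr (x : N) (s t : ℝ) : Commute (spr x s) (spr x t) := by
  have hl := spr_tendsto x t
  refine lim_unique (lim_mul_left (spr x s) hl) ((lim_mul_right (spr x s) hl).congr fun n => ?_)
  rw [(cfc_commute_spr x (rmp t n) s).eq]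

theorem cfc_mul_spr_congr {x : N} {g g' : ℝ → ℝ} (hg : ContinuousOn g (spectrum ℝ x))
    (hg' : ContinuousOn g' (spectrum ℝ x)) {t : ℝ}
    (h : ∀ s ∈ spectrum ℝ x, t < s → g s = g' s) : cfc g x * spr x t = cfc g' x * spr x t := by
  have h1 := cfc_mul_spr_nonneg (x := x) (hg.sub hg') (t := t) fun s hs hst => by
    simp [h s hs hst]
  have h2 := cfc_mul_spr_nonneg (x := x) (hg'.sub hg) (t := t) fun s hs hst => by
    simp [h s hs hst]
  have e1 : cfc (g - g') x = cfc g x - cfc g' x := cfc_sub g g' x hg hg'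
  have e2 : cfc (g' - g) x = cfc g' x - cfc g x := cfc_sub g' g x hg' hg
  rw [e1, sub_mul] at h1
  rw [e2, sub_mul] at h2
  exact le_antisymm (sub_nonneg.1 h2) (sub_nonneg.1 h1)

theorem cfc_mul_one_sub_spr_congr {x : N} (hx : IsSelfAdjoint x) {g g' : ℝ → ℝ}
    (hg : ContinuousOn g (spectrum ℝ x)) (hg' : ContinuousOn g' (spectrum ℝ x)) {t : ℝ}
    (h : ∀ s ∈ spectrum ℝ x, s ≤ t → g s = g' s) :
    cfc g x * (1 - spr x t) = cfc g' x * (1 - spr x t) := by
  have h1 := cfc_mul_one_sub_spr_nonneg hx (hg.sub hg') (t := t) fun s hs hst => by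
    simp [h s hs hst]
  have h2 := cfc_mul_one_sub_spr_nonneg hx (hg'.sub hg) (t := t) fun s hs hst => by
    simp [h s hs hst]
  have e1 : cfc (g - g') x = cfc g x - cfc g' x := cfc_sub g g' x hg hg'
  have e2 : cfc (g' - g) x = cfc g' x - cfc g x := cfc_sub g' g x hg' hg
  rw [e1, sub_mul] at h1
  rw [e2, sub_mul] at h2
  exact le_antisymm (sub_nonneg.1 h2) (sub_nonneg.1 h1)

/-- `g = 0` on `(t, ∞)`: `g(x) 1_{x > t} = 0`. -/
theorem cfc_mul_spr_eq_zero {x : N} {g : ℝ → ℝ} (hg : ContinuousOn g (spectrum ℝ x)) {t : ℝ}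
    (h : ∀ s ∈ spectrum ℝ x, t < s → g s = 0) : cfc g x * spr x t = 0 := by
  rw [cfc_mul_spr_congr hg (continuousOn_const (c := (0 : ℝ))) h, cfc_const_zero, zero_mul]

/-- `g = 1` on `(t, ∞)`: `g(x) 1_{x > t} = 1_{x > t}`. -/
theorem cfc_mul_spr_eq_spr {x : N} {g : ℝ → ℝ} (hg : ContinuousOn g (spectrum ℝ x)) {t : ℝ}
    (h : ∀ s ∈ spectrum ℝ x, t < s → g s = 1) : cfc g x * spr x t = spr x t := by
  by_cases hx : IsSelfAdjoint x
  · rw [cfc_mul_spr_congr hg (continuousOn_const (c := (1 : ℝ))) h, cfc_const_one ℝ x hx, one_mul]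
  · have h0 : spr x t = 0 := by
      refine lim_unique (spr_tendsto x t) ?_
      have : ∀ n, cfc (rmp t n) x = 0 := fun n => cfc_apply_of_not_predicate x hx
      simp only [this]
      exact lim_const 0
    rw [h0, mul_zero]

/-- `g = 0` on `(-∞, t]`: `g(x) 1_{x > t} = g(x)`. -/
theorem cfc_mul_spr_eq_cfc {x : N} (hx : IsSelfAdjoint x) {g : ℝ → ℝ}
    (hg : ContinuousOn g (spectrum ℝ x)) {t : ℝ}
    (h : ∀ s ∈ spectrum ℝ x, s ≤ t → g s = 0) : cfc g x * spr x t = cfc g x := by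
  have h1 := cfc_mul_one_sub_spr_congr hx hg (continuousOn_const (c := (0 : ℝ))) h
  rw [cfc_const_zero, zero_mul, mul_sub, mul_one] at h1
  exact (sub_eq_zero.1 h1).symm

/-- `g = 1` on `(-∞, t]`: `g(x) 1_{x ≤ t} = 1_{x ≤ t}`. -/
theorem cfc_mul_one_sub_spr_eq {x : N} (hx : IsSelfAdjoint x) {g : ℝ → ℝ}
    (hg : ContinuousOn g (spectrum ℝ x)) {t : ℝ}
    (h : ∀ s ∈ spectrum ℝ x, s ≤ t → g s = 1) :
    cfc g x * (1 - spr x t) = 1 - spr x t := by
  rw [cfc_mul_one_sub_spr_congr hx hg (continuousOn_const (c := (1 : ℝ))) h,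
    cfc_const_one ℝ x hx, one_mul]

/-- `g ≤ 1_{(t, ∞)}` gives `g(x) ≤ 1_{x > t}`. -/
theorem cfc_le_spr {x : N} (hx : IsSelfAdjoint x) {g : ℝ → ℝ}
    (hg : ContinuousOn g (spectrum ℝ x)) {t : ℝ}
    (h0 : ∀ s ∈ spectrum ℝ x, s ≤ t → g s ≤ 0) (h1 : ∀ s ∈ spectrum ℝ x, t < s → g s ≤ 1) :
    cfc g x ≤ spr x t := by
  have h2 := cfc_mul_spr_nonneg (x := x) (g := fun s => 1 - g s)
    (continuousOn_const.sub hg) (t := t) fun s hs hst => sub_nonneg.2 (h1 s hs hst)
  have h3 := cfc_mul_one_sub_spr_nonneg hx (g := fun s => -g s) hg.neg (t := t)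
    fun s hs hst => neg_nonneg.2 (h0 s hs hst)
  rw [cfc_one_sub hx hg] at h2
  rw [cfc_neg] at h3
  have e : spr x t - cfc g x = (1 - cfc g x) * spr x t + -cfc g x * (1 - spr x t) := by
    noncomm_ring
  rw [← sub_nonneg, e]
  exact add_nonneg h2 h3

/-- `1_{(t, ∞)} ≤ g` gives `1_{x > t} ≤ g(x)`. -/
theorem spr_le_cfc {x : N} (hx : IsSelfAdjoint x) {g : ℝ → ℝ}
    (hg : ContinuousOn g (spectrum ℝ x)) {t : ℝ}
    (h0 : ∀ s ∈ spectrum ℝ x, s ≤ t → 0 ≤ g s) (h1 : ∀ s ∈ spectrum ℝ x, t < s → 1 ≤ g s) :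
    spr x t ≤ cfc g x := by
  have h2 := cfc_mul_spr_nonneg (x := x) (g := fun s => g s - 1)
    (hg.sub continuousOn_const) (t := t) fun s hs hst => sub_nonneg.2 (h1 s hs hst)
  have h3 := cfc_mul_one_sub_spr_nonneg hx hg h0
  rw [cfc_sub g (fun _ => (1 : ℝ)) x hg continuousOn_const, cfc_const_one ℝ x hx] at h2
  have e : cfc g x - spr x t = (cfc g x - 1) * spr x t + cfc g x * (1 - spr x t) := by
    noncomm_ring
  rw [← sub_nonneg, e]
  exact add_nonneg h2 h3

end Pool.Agent.PTH
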