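import Pool.Agent.PTH.Tb6
import Pool.Agent.PTH.TbPj

/-!
# Toolbox: step approximation of a positive element

`stp x δ m = ∑_{k<m} δ 1_{x > (k+1)δ}`.
PROOFS.  `r_k(s) = min δ (s - kδ)₊`, `x = ∑_{k<m} r_k(x)` if `0 ≤ x ≤ mδ` (for a real number
`0 ≤ s ≤ mδ`: telescoping, `r_k(s) = min s ((k+1)δ) - min s (kδ)`), `cfc_sum`; in general (no upper
bound) `∑_{k<m} r_k(x) = (min s (mδ))(x) ≤ x`.
`δ 1_{x > (k+1)δ} ≤ r_k(x) ≤ δ 1_{x > kδ}` (`spr_le_cfc`, `cfc_le_spr` of Tb5).  So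
`stp x δ m ≤ x` and `x ≤ ∑_{k<m} δ 1_{x > kδ} = stp x δ m + δ 1_{x > 0} - δ 1_{x > mδ}
≤ stp x δ m + δ`.
`norm_stp_sub_le`: `0 ≤ x - stp ≤ δ`.
`stp_sq`: with `e_k = 1_{x > (k+1)δ}` decreasing projections, `e_k e_l = e_{max k l}`; so
`(∑ e_k)² = ∑_k (2k+1) e_k`.
-/

open Filter Topology

namespace Pool.Agent.PTH

open TrAlg

variable {N : Type*} [CStarAlgebra N] [PartialOrder N] [StarOrderedRing N] [TracialVN N]

/-- `∑_{k<m} δ 1_{x > (k+1)δ}`. -/
noncomputable def stp (x : N) (δ : ℝ) (m : ℕ) : N :=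
  ∑ k ∈ Finset.range m, δ • spr x (((k : ℝ) + 1) * δ)

theorem stp_nonneg (x : N) {δ : ℝ} (hδ : 0 ≤ δ) (m : ℕ) : 0 ≤ stp x δ m :=
  Finset.sum_nonneg fun _ _ => smul_nonneg hδ (spr_nonneg x _)

/-- `c 1_{x > t} ≤ g(x)` if `g ≥ 0` and `g ≥ c` on `(t, ∞)`. -/
private theorem smul_spr_le_cfc {x : N} (hx : IsSelfAdjoint x) {g : ℝ → ℝ}
    (hg : ContinuousOn g (spectrum ℝ x)) {t c : ℝ} (hc : 0 < c)
    (h0 : ∀ s ∈ spectrum ℝ x, s ≤ t → 0 ≤ g s) (h1 : ∀ s ∈ spectrum ℝ x, t < s → c ≤ g s) :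
    c • spr x t ≤ cfc g x := by
  have h2 : spr x t ≤ cfc (fun s => c⁻¹ * g s) x := by
    refine spr_le_cfc hx (by fun_prop) (fun s hs hst => ?_) (fun s hs hst => ?_)
    · exact mul_nonneg (inv_nonneg.mpr hc.le) (h0 s hs hst)
    · have h3 := mul_le_mul_of_nonneg_left (h1 s hs hst) (inv_nonneg.mpr hc.le)
      rwa [inv_mul_cancel₀ hc.ne'] at h3
  rw [cfc_const_mul c⁻¹ g x hg] at h2
  have h4 := smul_le_smul_of_nonneg_left h2 hc.le
  rwa [smul_smul, mul_inv_cancel₀ hc.ne', one_smul] at h4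

/-- `g(x) ≤ c 1_{x > t}` if `g ≤ 0` on `(-∞, t]` and `g ≤ c`. -/
private theorem cfc_le_smul_spr {x : N} (hx : IsSelfAdjoint x) {g : ℝ → ℝ}
    (hg : ContinuousOn g (spectrum ℝ x)) {t c : ℝ} (hc : 0 < c)
    (h0 : ∀ s ∈ spectrum ℝ x, s ≤ t → g s ≤ 0) (h1 : ∀ s ∈ spectrum ℝ x, t < s → g s ≤ c) :
    cfc g x ≤ c • spr x t := by
  have h2 : cfc (fun s => c⁻¹ * g s) x ≤ spr x t := by
    refine cfc_le_spr hx (by fun_prop) (fun s hs hst => ?_) (fun s hs hst => ?_)
    · exact mul_nonpos_of_nonneg_of_nonpos (inv_nonneg.mpr hc.le) (h0 s hs hst)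
    · have h3 := mul_le_mul_of_nonneg_left (h1 s hs hst) (inv_nonneg.mpr hc.le)
      rwa [inv_mul_cancel₀ hc.ne'] at h3
  rw [cfc_const_mul c⁻¹ g x hg] at h2
  have h4 := smul_le_smul_of_nonneg_left h2 hc.le
  rwa [smul_smul, mul_inv_cancel₀ hc.ne', one_smul] at h4

private theorem stp_succ (x : N) (δ : ℝ) (m : ℕ) :
    stp x δ (m + 1) = stp x δ m + δ • spr x (((m : ℝ) + 1) * δ) := by
  unfold stp
  rw [Finset.sum_range_succ]

private theorem cut_succ (x : N) (δ : ℝ) (m : ℕ) :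
    cfc (fun s : ℝ => min s (((m + 1 : ℕ) : ℝ) * δ)) x = cfc (fun s : ℝ => min s ((m : ℝ) * δ)) x +
      cfc (fun s : ℝ => min s (((m : ℝ) + 1) * δ) - min s ((m : ℝ) * δ)) x := by
  rw [cfc_sub (fun s : ℝ => min s (((m : ℝ) + 1) * δ)) (fun s : ℝ => min s ((m : ℝ) * δ)) x
    (by fun_prop) (by fun_prop)]
  push_cast
  abel

theorem stp_le {x : N} (hx : 0 ≤ x) {δ : ℝ} (hδ : 0 < δ) (m : ℕ) : stp x δ m ≤ x := by
  have hsa : IsSelfAdjoint x := IsSelfAdjoint.of_nonneg hx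
  have key : ∀ m : ℕ, stp x δ m ≤ cfc (fun s : ℝ => min s ((m : ℝ) * δ)) x := by
    intro m
    induction m with
    | zero =>
      have : stp x δ 0 = 0 := by
        unfold stp
        rw [Finset.sum_range_zero]
      rw [this]
      refine cfc_nonneg fun s hs => ?_
      have h0 := spectrum_nonneg_of_nonneg hx hs
      simp [h0]
    | succ m ih =>
      rw [stp_succ, cut_succ]
      refine add_le_add ih (smul_spr_le_cfc hsa (by fun_prop) hδ (fun s _ hst => ?_)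
        (fun s _ hst => ?_))
      · have : min s ((m : ℝ) * δ) ≤ min s (((m : ℝ) + 1) * δ) :=
          min_le_min le_rfl (by nlinarith)
        linarith
      · rw [min_eq_right hst.le, min_eq_right (by nlinarith)]
        nlinarith
  refine (key m).trans ?_
  conv_rhs => rw [← cfc_id' ℝ x hsa]
  exact cfc_mono (fun s _ => min_le_left _ _) (by fun_prop) (by fun_prop)

theorem le_stp_add {x : N} (hx : 0 ≤ x) {δ : ℝ} (hδ : 0 < δ) {m : ℕ}
    (hm : x ≤ ((m : ℝ) * δ) • (1 : N)) : x ≤ stp x δ m + δ • (1 : N) := by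
  have hsa : IsSelfAdjoint x := IsSelfAdjoint.of_nonneg hx
  have key : ∀ m : ℕ, cfc (fun s : ℝ => min s ((m : ℝ) * δ)) x + δ • spr x ((m : ℝ) * δ) ≤
      stp x δ m + δ • (1 : N) := by
    intro m
    induction m with
    | zero =>
      have h1 : stp x δ 0 = 0 := by
        unfold stp
        rw [Finset.sum_range_zero]
      have h2 : cfc (fun s : ℝ => min s (((0 : ℕ) : ℝ) * δ)) x = 0 := by
        have h3 : cfc (fun s : ℝ => min s (((0 : ℕ) : ℝ) * δ)) x = cfc (fun _ : ℝ => (0 : ℝ)) x := by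
          apply cfc_congr
          intro s hs
          have h0 := spectrum_nonneg_of_nonneg hx hs
          simp [h0]
        rw [h3, cfc_const_zero ℝ x]
      rw [h1, h2, zero_add, zero_add]
      exact smul_le_smul_of_nonneg_left (spr_le_one x _) hδ.le
    | succ m ih =>
      rw [stp_succ, cut_succ]
      have h1 : cfc (fun s : ℝ => min s (((m : ℝ) + 1) * δ) - min s ((m : ℝ) * δ)) x ≤
          δ • spr x ((m : ℝ) * δ) := by
        refine cfc_le_smul_spr hsa (by fun_prop) hδ (fun s _ hst => ?_) (fun s _ hst => ?_)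
        · rw [min_eq_left hst, min_eq_left (by nlinarith)]
          linarith
        · rw [min_eq_right hst.le]
          have := min_le_right s (((m : ℝ) + 1) * δ)
          nlinarith
      have h2 : (((m + 1 : ℕ) : ℝ)) * δ = ((m : ℝ) + 1) * δ := by push_cast; ring
      rw [h2]
      calc _ ≤ cfc (fun s : ℝ => min s ((m : ℝ) * δ)) x + δ • spr x ((m : ℝ) * δ) +
            δ • spr x (((m : ℝ) + 1) * δ) := by
            exact add_le_add (add_le_add le_rfl h1) le_rfl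
        _ ≤ stp x δ m + δ • (1 : N) + δ • spr x (((m : ℝ) + 1) * δ) := add_le_add ih le_rfl
        _ = _ := by abel
  have hcut : cfc (fun s : ℝ => min s ((m : ℝ) * δ)) x = x := by
    conv_rhs => rw [← cfc_id' ℝ x hsa]
    apply cfc_congr
    intro s hs
    have h1 : x ≤ algebraMap ℝ N ((m : ℝ) * δ) := by
      rw [Algebra.algebraMap_eq_smul_one]
      exact hm
    have h2 := (le_algebraMap_iff_spectrum_le (ha := hsa)).mp h1 s hs
    exact min_eq_left h2
  have h3 := key m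
  rw [hcut] at h3
  refine le_trans ?_ h3
  exact le_add_of_nonneg_right (smul_nonneg hδ.le (spr_nonneg x _))

theorem norm_stp_sub_le {x : N} (hx : 0 ≤ x) {δ : ℝ} (hδ : 0 < δ) {m : ℕ}
    (hm : x ≤ ((m : ℝ) * δ) • (1 : N)) : ‖stp x δ m - x‖ ≤ δ := by
  rw [norm_sub_rev]
  refine norm_le_of_le_smul (sub_nonneg.mpr (stp_le hx hδ m)) hδ.le ?_
  rw [sub_le_iff_le_add']
  exact le_stp_add hx hδ hm

theorem stp_conj {u : N} (hu : star u * u = 1) (hu' : u * star u = 1) {x : N}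
    (hx : IsSelfAdjoint x) (δ : ℝ) (m : ℕ) :
    stp (u * x * star u) δ m = u * stp x δ m * star u := by
  unfold stp
  rw [Finset.mul_sum, Finset.sum_mul]
  refine Finset.sum_congr rfl fun k _ => ?_
  rw [spr_conj hu hu' hx, mul_smul_comm, smul_mul_assoc]

/-- Square of a sum of a decreasing chain of projections. -/
theorem chain_sq (e : ℕ → N) (he : ∀ k, Prj (e k)) (hd : ∀ k l, k ≤ l → e k * e l = e l) (m : ℕ) :
    (∑ k ∈ Finset.range m, e k) * ∑ k ∈ Finset.range m, e k =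
      ∑ k ∈ Finset.range m, (2 * (k : ℝ) + 1) • e k := by
  have hd' : ∀ k l, k ≤ l → e l * e k = e l := by
    intro k l hkl
    have h := congrArg star (hd k l hkl)
    rwa [star_mul, (he k).1, (he l).1] at h
  induction m with
  | zero => simp
  | succ m ih =>
    rw [Finset.sum_range_succ, Finset.sum_range_succ, add_mul, mul_add, mul_add, ih, (he m).2]
    have h1 : (∑ k ∈ Finset.range m, e k) * e m = (m : ℝ) • e m := by
      rw [Finset.sum_mul]
      have : ∀ k ∈ Finset.range m, e k * e m = e m := fun k hk =>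
        hd k m (Finset.mem_range.mp hk).le
      rw [Finset.sum_congr rfl this, Finset.sum_const, Finset.card_range]
      exact (Nat.cast_smul_eq_nsmul ℝ m (e m)).symm
    have h2 : e m * (∑ k ∈ Finset.range m, e k) = (m : ℝ) • e m := by
      rw [Finset.mul_sum]
      have : ∀ k ∈ Finset.range m, e m * e k = e m := fun k hk =>
        hd' k m (Finset.mem_range.mp hk).le
      rw [Finset.sum_congr rfl this, Finset.sum_const, Finset.card_range]
      exact (Nat.cast_smul_eq_nsmul ℝ m (e m)).symm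
    rw [h1, h2]
    have h3 : (2 * (m : ℝ) + 1) • e m = (m : ℝ) • e m + ((m : ℝ) • e m + e m) := by
      rw [two_mul, add_smul, add_smul, one_smul]
      abel
    rw [h3]
    abel

theorem stp_sq (x : N) {δ : ℝ} (hδ : 0 ≤ δ) (m : ℕ) :
    stp x δ m * stp x δ m =
      ∑ k ∈ Finset.range m, (δ ^ 2 * (2 * (k : ℝ) + 1)) • spr x (((k : ℝ) + 1) * δ) := by
  have h1 : stp x δ m = δ • ∑ k ∈ Finset.range m, spr x (((k : ℝ) + 1) * δ) := by
    unfold stp
    rw [Finset.smul_sum]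
  rw [h1, smul_mul_smul_comm, chain_sq (fun k : ℕ => spr x (((k : ℝ) + 1) * δ))
    (fun k => spr_prj x _) ?_ m, Finset.smul_sum]
  · refine Finset.sum_congr rfl fun k _ => ?_
    rw [smul_smul, sq]
  · intro k l hkl
    apply spr_mul_spr
    have : (k : ℝ) ≤ l := by exact_mod_cast hkl
    exact mul_le_mul_of_nonneg_right (by linarith) hδ

/-- LAYER CHOICE, general form: `φ` a bounded real linear functional with `φ(x²) < 0`, `x ≥ 0`:
there is `t > 0` with `φ(1_{x > t}) < 0`.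
PROOF: otherwise `φ(stp²) = ∑ δ²(2k+1) φ(e_k) ≥ 0` for all `δ = 1/n`, `m = n⌈‖x‖⌉` and
`stp² → x²` in norm. -/
theorem layer_choice (φ : N →ₗ[ℝ] ℝ) (hb : ∃ C, ∀ y, |φ y| ≤ C * ‖y‖) {x : N} (hx : 0 ≤ x)
    (h : φ (x * x) < 0) : ∃ t > 0, φ (spr x t) < 0 := by
  by_contra hcon
  push Not at hcon
  obtain ⟨C, hC⟩ := hb
  have hsa : IsSelfAdjoint x := IsSelfAdjoint.of_nonneg hx
  have hC0 : 0 ≤ |C| := abs_nonneg C
  -- a positive `δ` with `|C| δ (2 ‖x‖ + δ) < - φ (x * x)`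
  set K : ℝ := |C| * (2 * ‖x‖ + 1) + 1 with hK
  have hKpos : 0 < K := by positivity
  set δ : ℝ := min 1 (-φ (x * x) / K) with hδd
  have hδ : 0 < δ := lt_min one_pos (div_pos (by linarith) hKpos)
  have hδ1 : δ ≤ 1 := min_le_left _ _
  have hδ2 : δ * K ≤ -φ (x * x) := by
    have := min_le_right 1 (-φ (x * x) / K)
    rw [← hδd] at this
    rwa [le_div_iff₀ hKpos] at this
  obtain ⟨m, hm⟩ := exists_nat_gt (‖x‖ / δ)
  have hmδ : ‖x‖ ≤ (m : ℝ) * δ := by
    rw [div_lt_iff₀ hδ] at hm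
    exact hm.le
  have hxm : x ≤ ((m : ℝ) * δ) • (1 : N) := by
    refine (le_norm_smul_one hsa).trans ?_
    exact smul_le_smul_of_nonneg_right hmδ zero_le_one
  have hns := norm_stp_sub_le hx hδ hxm
  have hpos : 0 ≤ φ (stp x δ m * stp x δ m) := by
    rw [stp_sq x hδ.le, map_sum]
    refine Finset.sum_nonneg fun k _ => ?_
    rw [map_smul, smul_eq_mul]
    exact mul_nonneg (by positivity) (hcon _ (by positivity))
  have hdiff : ‖stp x δ m * stp x δ m - x * x‖ ≤ δ * (2 * ‖x‖ + δ) := by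
    have e : stp x δ m * stp x δ m - x * x =
        (stp x δ m - x) * x + x * (stp x δ m - x) + (stp x δ m - x) * (stp x δ m - x) := by
      noncomm_ring
    rw [e]
    have h1 : ‖(stp x δ m - x) * x‖ ≤ δ * ‖x‖ :=
      (norm_mul_le _ _).trans (mul_le_mul_of_nonneg_right hns (norm_nonneg _))
    have h2 : ‖x * (stp x δ m - x)‖ ≤ ‖x‖ * δ :=
      (norm_mul_le _ _).trans (mul_le_mul_of_nonneg_left hns (norm_nonneg _))
    have h3 : ‖(stp x δ m - x) * (stp x δ m - x)‖ ≤ δ * δ :=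
      (norm_mul_le _ _).trans (mul_le_mul hns hns (norm_nonneg _) hδ.le)
    have h4 := norm_add_le ((stp x δ m - x) * x + x * (stp x δ m - x))
      ((stp x δ m - x) * (stp x δ m - x))
    have h5 := norm_add_le ((stp x δ m - x) * x) (x * (stp x δ m - x))
    nlinarith
  have h6 := hC (stp x δ m * stp x δ m - x * x)
  rw [map_sub] at h6
  have h7 : C * ‖stp x δ m * stp x δ m - x * x‖ ≤ |C| * (δ * (2 * ‖x‖ + δ)) :=
    mul_le_mul (le_abs_self C) hdiff (norm_nonneg _) hC0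
  have h8 := (le_abs_self (φ (stp x δ m * stp x δ m) - φ (x * x))).trans (h6.trans h7)
  have h9 : |C| * (δ * (2 * ‖x‖ + δ)) < δ * K := by
    rw [hK]
    have h10 : |C| * (δ * (2 * ‖x‖ + δ)) ≤ δ * (|C| * (2 * ‖x‖ + 1)) := by
      have h11 : 2 * ‖x‖ + δ ≤ 2 * ‖x‖ + 1 := by linarith
      calc |C| * (δ * (2 * ‖x‖ + δ)) = δ * (|C| * (2 * ‖x‖ + δ)) := by ring
        _ ≤ δ * (|C| * (2 * ‖x‖ + 1)) :=
          mul_le_mul_of_nonneg_left (mul_le_mul_of_nonneg_left h11 hC0) hδ.le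
    nlinarith
  linarith

end Pool.Agent.PTH
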