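import Pool.Agent.PTH.Tb7

/-!
# Toolbox: joint distribution and the level lemma for two elements

PROOFS.
* `joint`: expand: `‖∑ a_i p_i - ∑ b_j q_j‖₂² = ∑ a_i² τ(p_i) - 2 ∑∑ a_i b_j τ(p_i q_j)
  + ∑ b_j² τ(q_j)` and `τ(p_i) = ∑_j τ(p_i q_j)`, `τ(q_j) = ∑_i τ(p_i q_j)`.
* `chain_level`: `p_i = e_{i-1} - e_i` (`i = 0..m`, `e_{-1} = 1`, `e_m := 0`), same `q_j` for `f`:
  `OR` families indexed by `Fin (m+1)`, `e_k = ∑_{i>k} p_i`, `∑ e_k = ∑ i p_i`; with
  `μ_{ij} = τ(p_i q_j) ≥ 0` (`rt_mul_nonneg`), `joint` with `a_i = 1_{i>k}`, `b_j = 1_{j>k}` gives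
  `‖e_k - f_k‖₂² = ∑ |1_{i>k} - 1_{j>k}| μ_ij`, so the left side is
  `∑_{ij} |i² - j²| μ_ij ≤ (∑ |i-j|² μ_ij)^{1/2} (∑ |i+j|² μ_ij)^{1/2}` (Cauchy-Schwarz), and these
  are `‖E - F‖₂`, `‖E + F‖₂` (`joint` with `b_j = j` and `b_j = -j`).
-/

open Filter Topology

namespace Pool.Agent.PTH

open TrAlg

variable {N : Type*} [CStarAlgebra N] [PartialOrder N] [StarOrderedRing N] [TracialVN N]

/-- Orthogonal resolution of the identity. -/
structure OR {ι : Type*} [Fintype ι] (p : ι → N) : Prop where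
  prj : ∀ i, Prj (p i)
  orth : ∀ i j, i ≠ j → p i * p j = 0
  sum : ∑ i, p i = 1

private theorem or_sa {ι : Type*} [Fintype ι] {p : ι → N} (hp : OR p) (a : ι → ℝ) :
    IsSelfAdjoint (∑ i, a i • p i) := by
  rw [IsSelfAdjoint, star_sum]
  refine Finset.sum_congr rfl fun i _ => ?_
  rw [star_smul, (hp.prj i).1, star_trivial]

private theorem or_mul {ι : Type*} [Fintype ι] {p : ι → N} (hp : OR p) (a : ι → ℝ) (i : ι) :
    (∑ k, a k • p k) * p i = a i • p i := by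
  classical
  rw [Finset.sum_mul, Finset.sum_eq_single i]
  · rw [smul_mul_assoc, (hp.prj i).2]
  · intro k _ hk
    rw [smul_mul_assoc, hp.orth k i hk, smul_zero]
  · intro h
    exact absurd (Finset.mem_univ i) h

private theorem or_two {ι : Type*} [Fintype ι] {p : ι → N} (hp : OR p) (a : ι → ℝ) :
    two (∑ i, a i • p i) ^ 2 = ∑ i, a i ^ 2 * rt (p i) := by
  rw [two_sq_sa (or_sa hp a)]
  have h : (∑ i, a i • p i) * (∑ i, a i • p i) = ∑ i, (a i ^ 2) • p i := by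
    rw [Finset.mul_sum]
    refine Finset.sum_congr rfl fun i _ => ?_
    rw [mul_smul_comm, or_mul hp a i, smul_smul, sq]
  rw [h, rt_sum]
  exact Finset.sum_congr rfl fun i _ => rt_smul _ _

theorem joint {ι κ : Type*} [Fintype ι] [Fintype κ] {p : ι → N} {q : κ → N} (hp : OR p) (hq : OR q)
    (a : ι → ℝ) (b : κ → ℝ) :
    two (∑ i, a i • p i - ∑ j, b j • q j) ^ 2 = ∑ i, ∑ j, (a i - b j) ^ 2 * rt (p i * q j) := by
  have h1 : ∀ i, rt (p i) = ∑ j, rt (p i * q j) := by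
    intro i
    rw [← rt_sum, ← Finset.mul_sum, hq.sum, mul_one]
  have h2 : ∀ j, rt (q j) = ∑ i, rt (p i * q j) := by
    intro j
    rw [← rt_sum, ← Finset.sum_mul, hp.sum, one_mul]
  have h3 : rt ((∑ i, a i • p i) * (∑ j, b j • q j)) = ∑ i, ∑ j, a i * b j * rt (p i * q j) := by
    rw [Finset.sum_mul, rt_sum]
    refine Finset.sum_congr rfl fun i _ => ?_
    rw [Finset.mul_sum, rt_sum]
    refine Finset.sum_congr rfl fun j _ => ?_
    rw [smul_mul_assoc, mul_smul_comm, rt_smul, rt_smul]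
    ring
  rw [two_sub_sq, (or_sa hp a).star_eq, or_two hp a, or_two hq b, h3]
  have h4 : ∑ i, a i ^ 2 * rt (p i) = ∑ i, ∑ j, a i ^ 2 * rt (p i * q j) := by
    refine Finset.sum_congr rfl fun i _ => ?_
    rw [h1 i, Finset.mul_sum]
  have h5 : ∑ j, b j ^ 2 * rt (q j) = ∑ i, ∑ j, b j ^ 2 * rt (p i * q j) := by
    rw [Finset.sum_comm]
    refine Finset.sum_congr rfl fun j _ => ?_
    rw [h2 j, Finset.mul_sum]
  rw [h4, h5, Finset.mul_sum, ← Finset.sum_sub_distrib, ← Finset.sum_add_distrib]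
  refine Finset.sum_congr rfl fun i _ => ?_
  rw [Finset.mul_sum, ← Finset.sum_sub_distrib, ← Finset.sum_add_distrib]
  refine Finset.sum_congr rfl fun j _ => ?_
  ring

/-- The extended chain `1, e 0, ..., e (m-1), 0, 0, ...`. -/
private noncomputable def ext (e : ℕ → N) (m : ℕ) : ℕ → N
  | 0 => 1
  | k + 1 => if k < m then e k else 0

private theorem ext_prj {e : ℕ → N} (he : ∀ k, Prj (e k)) (m : ℕ) : ∀ k, Prj (ext e m k) := by
  intro k
  cases k with
  | zero => exact prj_one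
  | succ k =>
    by_cases h : k < m
    · simp only [ext, if_pos h]; exact he k
    · simp only [ext, if_neg h]; exact prj_zero

private theorem ext_mul {e : ℕ → N} (hed : ∀ k l, k ≤ l → e k * e l = e l) (m : ℕ) :
    ∀ k l, k ≤ l → ext e m k * ext e m l = ext e m l := by
  intro k l hkl
  cases k with
  | zero => simp only [ext, one_mul]
  | succ k =>
    cases l with
    | zero => omega
    | succ l =>
      by_cases h : l < m
      · have hk : k < m := by omega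
        simp only [ext, if_pos h, if_pos hk]
        exact hed k l (by omega)
      · simp only [ext, if_neg h, mul_zero]

private theorem ext_mul' {e : ℕ → N} (he : ∀ k, Prj (e k))
    (hed : ∀ k l, k ≤ l → e k * e l = e l) (m : ℕ) {k l : ℕ} (hkl : k ≤ l) :
    ext e m l * ext e m k = ext e m l := by
  have h := congrArg star (ext_mul hed m k l hkl)
  rwa [star_mul, (ext_prj he m k).1, (ext_prj he m l).1] at h

private noncomputable def pc (e : ℕ → N) (m : ℕ) (i : ℕ) : N := ext e m i - ext e m (i + 1)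

private theorem pc_prj {e : ℕ → N} (he : ∀ k, Prj (e k))
    (hed : ∀ k l, k ≤ l → e k * e l = e l) (m i : ℕ) : Prj (pc e m i) :=
  prj_sub (ext_prj he m _) (ext_prj he m _) (ext_mul' he hed m (Nat.le_succ i))

private theorem pc_orth_lt {e : ℕ → N} (hed : ∀ k l, k ≤ l → e k * e l = e l) (m : ℕ) {i j : ℕ}
    (h : i < j) : pc e m i * pc e m j = 0 := by
  unfold pc
  rw [mul_sub, sub_mul, sub_mul, ext_mul hed m i j h.le, ext_mul hed m (i + 1) j h,
    ext_mul hed m i (j + 1) (by omega), ext_mul hed m (i + 1) (j + 1) (by omega)]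
  simp

private theorem pc_or {e : ℕ → N} (he : ∀ k, Prj (e k))
    (hed : ∀ k l, k ≤ l → e k * e l = e l) (m : ℕ) :
    OR (fun i : Fin (m + 1) => pc e m (i : ℕ)) := by
  refine ⟨fun i => pc_prj he hed m _, fun i j hij => ?_, ?_⟩
  · have hij' : (i : ℕ) ≠ j := fun h => hij (Fin.ext h)
    rcases lt_or_gt_of_ne hij' with h | h
    · exact pc_orth_lt hed m h
    · exact prj_orth_symm (pc_prj he hed m _) (pc_prj he hed m _) (pc_orth_lt hed m h)
  · rw [Fin.sum_univ_eq_sum_range (fun i => pc e m i) (m + 1)]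
    unfold pc
    rw [Finset.sum_range_sub' (fun i => ext e m i) (m + 1)]
    simp [ext]

private theorem pc_ind (e : ℕ → N) (m : ℕ) {k : ℕ} :
    ∀ M, k + 1 ≤ M → ∑ i ∈ Finset.range M, (if k < i then (1 : ℝ) else 0) • pc e m i =
      ext e m (k + 1) - ext e m M := by
  refine Nat.le_induction ?_ ?_
  · rw [sub_self]
    refine Finset.sum_eq_zero fun i hi => ?_
    have := Finset.mem_range.1 hi
    rw [if_neg (by omega), zero_smul]
  · intro M hM ih
    rw [Finset.sum_range_succ, ih, if_pos (by omega), one_smul]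
    unfold pc
    abel

private theorem pc_e (e : ℕ → N) {m k : ℕ} (hk : k < m) :
    ∑ i : Fin (m + 1), (if k < (i : ℕ) then (1 : ℝ) else 0) • pc e m (i : ℕ) = e k := by
  rw [Fin.sum_univ_eq_sum_range (fun i => (if k < i then (1 : ℝ) else 0) • pc e m i) (m + 1),
    pc_ind e m (m + 1) (by omega)]
  simp [ext, hk]

private theorem count_aux (m : ℕ) : ∀ i : ℕ, i ≤ m →
    ∑ k ∈ Finset.range m, (if k < i then (1 : ℝ) else 0) = i := by
  intro i hi
  rw [← Finset.sum_filter]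
  have : Finset.filter (fun k => k < i) (Finset.range m) = Finset.range i := by
    ext k
    simp only [Finset.mem_filter, Finset.mem_range]
    omega
  rw [this]
  simp

private theorem sq_aux : ∀ i : ℕ, ∑ k ∈ Finset.range i, (2 * (k : ℝ) + 1) = (i : ℝ) ^ 2 := by
  intro i
  induction i with
  | zero => simp
  | succ i ih =>
    rw [Finset.sum_range_succ, ih]
    push_cast
    ring

private theorem sq_aux' (m : ℕ) : ∀ i : ℕ, i ≤ m →
    ∑ k ∈ Finset.range m, (2 * (k : ℝ) + 1) * (if k < i then (1 : ℝ) else 0) = (i : ℝ) ^ 2 := by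
  intro i hi
  have h : ∑ k ∈ Finset.range m, (2 * (k : ℝ) + 1) * (if k < i then (1 : ℝ) else 0) =
      ∑ k ∈ Finset.range m, (if k < i then (2 * (k : ℝ) + 1) else 0) := by
    refine Finset.sum_congr rfl fun k _ => ?_
    split_ifs <;> simp
  rw [h, ← Finset.sum_filter]
  have : Finset.filter (fun k => k < i) (Finset.range m) = Finset.range i := by
    ext k
    simp only [Finset.mem_filter, Finset.mem_range]
    omega
  rw [this, sq_aux]

private theorem bracket_le (m : ℕ) {i j : ℕ} (hij : i ≤ j) (hj : j ≤ m) :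
    ∑ k ∈ Finset.range m, (2 * (k : ℝ) + 1) *
      ((if k < i then (1 : ℝ) else 0) - (if k < j then (1 : ℝ) else 0)) ^ 2 =
      (j : ℝ) ^ 2 - (i : ℝ) ^ 2 := by
  rw [← sq_aux' m i (hij.trans hj), ← sq_aux' m j hj, ← Finset.sum_sub_distrib]
  refine Finset.sum_congr rfl fun k _ => ?_
  rw [← mul_sub]
  congr 1
  by_cases h1 : k < i
  · have h2 : k < j := lt_of_lt_of_le h1 hij
    simp [h1, h2]
  · by_cases h2 : k < j
    · simp [h1, h2]
    · simp [h1, h2]

private theorem bracket (m : ℕ) {i j : ℕ} (hi : i ≤ m) (hj : j ≤ m) :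
    ∑ k ∈ Finset.range m, (2 * (k : ℝ) + 1) *
      ((if k < i then (1 : ℝ) else 0) - (if k < j then (1 : ℝ) else 0)) ^ 2 =
      |(i : ℝ) ^ 2 - (j : ℝ) ^ 2| := by
  rcases le_total i j with h | h
  · rw [bracket_le m h hj, abs_sub_comm, abs_of_nonneg]
    have : (i : ℝ) ≤ j := by exact_mod_cast h
    have h0 : (0 : ℝ) ≤ i := Nat.cast_nonneg i
    nlinarith
  · have h1 := bracket_le m h hi
    rw [abs_of_nonneg, ← h1]
    · refine Finset.sum_congr rfl fun k _ => ?_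
      ring
    · have : (j : ℝ) ≤ i := by exact_mod_cast h
      have h0 : (0 : ℝ) ≤ j := Nat.cast_nonneg j
      nlinarith

private theorem pc_sum (e : ℕ → N) (m : ℕ) :
    ∑ i : Fin (m + 1), ((i : ℕ) : ℝ) • pc e m (i : ℕ) = ∑ k ∈ Finset.range m, e k := by
  have h1 : ∑ k ∈ Finset.range m, e k = ∑ k ∈ Finset.range m,
      ∑ i : Fin (m + 1), (if k < (i : ℕ) then (1 : ℝ) else 0) • pc e m (i : ℕ) :=
    Finset.sum_congr rfl fun k hk => (pc_e e (Finset.mem_range.1 hk)).symm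
  rw [h1, Finset.sum_comm]
  refine Finset.sum_congr rfl fun i _ => ?_
  rw [← Finset.sum_smul, count_aux m i (by omega)]

/-- Level inequality for two decreasing chains of projections. -/
theorem chain_level (e f : ℕ → N) (he : ∀ k, Prj (e k)) (hf : ∀ k, Prj (f k))
    (hed : ∀ k l, k ≤ l → e k * e l = e l) (hfd : ∀ k l, k ≤ l → f k * f l = f l) (m : ℕ) :
    ∑ k ∈ Finset.range m, (2 * (k : ℝ) + 1) * two (e k - f k) ^ 2 ≤
      two (∑ k ∈ Finset.range m, e k - ∑ k ∈ Finset.range m, f k) *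
        two (∑ k ∈ Finset.range m, e k + ∑ k ∈ Finset.range m, f k) := by
  have hp := pc_or he hed m
  have hq := pc_or hf hfd m
  have hmu : ∀ i j : Fin (m + 1), 0 ≤ rt (pc e m (i : ℕ) * pc f m (j : ℕ)) := fun i j =>
    rt_mul_nonneg (proj_nonneg (hp.prj i)) (proj_nonneg (hq.prj j))
  -- the left side
  have hL : ∑ k ∈ Finset.range m, (2 * (k : ℝ) + 1) * two (e k - f k) ^ 2 =
      ∑ x : Fin (m + 1) × Fin (m + 1), |((x.1 : ℕ) : ℝ) ^ 2 - ((x.2 : ℕ) : ℝ) ^ 2| *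
        rt (pc e m (x.1 : ℕ) * pc f m (x.2 : ℕ)) := by
    have h1 : ∀ k ∈ Finset.range m, (2 * (k : ℝ) + 1) * two (e k - f k) ^ 2 =
        ∑ x : Fin (m + 1) × Fin (m + 1), (2 * (k : ℝ) + 1) *
          ((if k < (x.1 : ℕ) then (1 : ℝ) else 0) - (if k < (x.2 : ℕ) then (1 : ℝ) else 0)) ^ 2 *
          rt (pc e m (x.1 : ℕ) * pc f m (x.2 : ℕ)) := by
      intro k hk
      have hk' := Finset.mem_range.1 hk
      have h2 := joint hp hq (fun i : Fin (m + 1) => if k < (i : ℕ) then (1 : ℝ) else 0)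
        (fun i : Fin (m + 1) => if k < (i : ℕ) then (1 : ℝ) else 0)
      rw [pc_e e hk', pc_e f hk'] at h2
      rw [h2, ← Fintype.sum_prod_type' (fun i j : Fin (m + 1) =>
        ((if k < (i : ℕ) then (1 : ℝ) else 0) - (if k < (j : ℕ) then (1 : ℝ) else 0)) ^ 2 *
          rt (pc e m (i : ℕ) * pc f m (j : ℕ))), Finset.mul_sum]
      refine Finset.sum_congr rfl fun x _ => ?_
      ring
    rw [Finset.sum_congr rfl h1, Finset.sum_comm]
    refine Finset.sum_congr rfl fun x _ => ?_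
    rw [← Finset.sum_mul, bracket m (by omega) (by omega)]
  have hM : two (∑ k ∈ Finset.range m, e k - ∑ k ∈ Finset.range m, f k) ^ 2 =
      ∑ x : Fin (m + 1) × Fin (m + 1), (((x.1 : ℕ) : ℝ) - ((x.2 : ℕ) : ℝ)) ^ 2 *
        rt (pc e m (x.1 : ℕ) * pc f m (x.2 : ℕ)) := by
    have h2 := joint hp hq (fun i : Fin (m + 1) => ((i : ℕ) : ℝ))
      (fun i : Fin (m + 1) => ((i : ℕ) : ℝ))
    rw [pc_sum, pc_sum] at h2
    rw [h2, ← Fintype.sum_prod_type' (fun i j : Fin (m + 1) =>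
        (((i : ℕ) : ℝ) - ((j : ℕ) : ℝ)) ^ 2 * rt (pc e m (i : ℕ) * pc f m (j : ℕ)))]
  have hP : two (∑ k ∈ Finset.range m, e k + ∑ k ∈ Finset.range m, f k) ^ 2 =
      ∑ x : Fin (m + 1) × Fin (m + 1), (((x.1 : ℕ) : ℝ) + ((x.2 : ℕ) : ℝ)) ^ 2 *
        rt (pc e m (x.1 : ℕ) * pc f m (x.2 : ℕ)) := by
    have h2 := joint hp hq (fun i : Fin (m + 1) => ((i : ℕ) : ℝ))
      (fun i : Fin (m + 1) => -((i : ℕ) : ℝ))
    have h3 : ∑ i : Fin (m + 1), (-((i : ℕ) : ℝ)) • pc f m (i : ℕ) =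
        -∑ k ∈ Finset.range m, f k := by
      rw [← pc_sum, ← Finset.sum_neg_distrib]
      exact Finset.sum_congr rfl fun i _ => neg_smul _ _
    rw [pc_sum, h3, sub_neg_eq_add] at h2
    rw [h2, ← Fintype.sum_prod_type' (fun i j : Fin (m + 1) =>
        (((i : ℕ) : ℝ) - -((j : ℕ) : ℝ)) ^ 2 * rt (pc e m (i : ℕ) * pc f m (j : ℕ)))]
    refine Finset.sum_congr rfl fun x _ => ?_
    rw [sub_neg_eq_add]
  have hCS := Finset.sum_sq_le_sum_mul_sum_of_sq_eq_mul
    (Finset.univ : Finset (Fin (m + 1) × Fin (m + 1)))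
    (r := fun x => |((x.1 : ℕ) : ℝ) ^ 2 - ((x.2 : ℕ) : ℝ) ^ 2| *
        rt (pc e m (x.1 : ℕ) * pc f m (x.2 : ℕ)))
    (f := fun x => (((x.1 : ℕ) : ℝ) - ((x.2 : ℕ) : ℝ)) ^ 2 *
        rt (pc e m (x.1 : ℕ) * pc f m (x.2 : ℕ)))
    (g := fun x => (((x.1 : ℕ) : ℝ) + ((x.2 : ℕ) : ℝ)) ^ 2 *
        rt (pc e m (x.1 : ℕ) * pc f m (x.2 : ℕ)))
    (fun x _ => mul_nonneg (sq_nonneg _) (hmu _ _))
    (fun x _ => mul_nonneg (sq_nonneg _) (hmu _ _))
    (fun x _ => by
      rw [mul_pow, sq_abs]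
      ring)
  rw [← hL, ← hM, ← hP, ← mul_pow] at hCS
  exact (abs_le_of_sq_le_sq' hCS (mul_nonneg (two_nonneg _) (two_nonneg _))).2

/-- Level inequality for two positive elements (discretised). -/
theorem stp_level (x y : N) {δ : ℝ} (hδ : 0 ≤ δ) (m : ℕ) :
    ∑ k ∈ Finset.range m, (δ ^ 2 * (2 * (k : ℝ) + 1)) *
        two (spr x (((k : ℝ) + 1) * δ) - spr y (((k : ℝ) + 1) * δ)) ^ 2 ≤
      two (stp x δ m - stp y δ m) * two (stp x δ m + stp y δ m) := by
  have hle : ∀ k l : ℕ, k ≤ l → ((k : ℝ) + 1) * δ ≤ ((l : ℝ) + 1) * δ := by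
    intro k l hkl
    have : (k : ℝ) ≤ l := by exact_mod_cast hkl
    exact mul_le_mul_of_nonneg_right (by linarith) hδ
  have h := chain_level (fun k : ℕ => spr x (((k : ℝ) + 1) * δ))
    (fun k : ℕ => spr y (((k : ℝ) + 1) * δ)) (fun k => spr_prj x _) (fun k => spr_prj y _)
    (fun k l hkl => spr_mul_spr x (hle k l hkl)) (fun k l hkl => spr_mul_spr y (hle k l hkl)) m
  have h1 : ∑ k ∈ Finset.range m, (δ ^ 2 * (2 * (k : ℝ) + 1)) *
        two (spr x (((k : ℝ) + 1) * δ) - spr y (((k : ℝ) + 1) * δ)) ^ 2 =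
      δ ^ 2 * ∑ k ∈ Finset.range m, (2 * (k : ℝ) + 1) *
        two (spr x (((k : ℝ) + 1) * δ) - spr y (((k : ℝ) + 1) * δ)) ^ 2 := by
    rw [Finset.mul_sum]
    refine Finset.sum_congr rfl fun k _ => ?_
    ring
  have h2 : stp x δ m - stp y δ m = δ • (∑ k ∈ Finset.range m, spr x (((k : ℝ) + 1) * δ) -
      ∑ k ∈ Finset.range m, spr y (((k : ℝ) + 1) * δ)) := by
    unfold stp
    rw [smul_sub, Finset.smul_sum, Finset.smul_sum]
  have h3 : stp x δ m + stp y δ m = δ • (∑ k ∈ Finset.range m, spr x (((k : ℝ) + 1) * δ) +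
      ∑ k ∈ Finset.range m, spr y (((k : ℝ) + 1) * δ)) := by
    unfold stp
    rw [smul_add, Finset.smul_sum, Finset.smul_sum]
  rw [h1, h2, h3, two_smul_real, two_smul_real, abs_of_nonneg hδ]
  have h4 := mul_le_mul_of_nonneg_left h (sq_nonneg δ)
  refine h4.trans (le_of_eq ?_)
  ring

end Pool.Agent.PTH
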