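import Pool.Agent.PTH.Tb8

/-!
# Toolbox: level lemmas for a finite weighted family of unitaries

`cen p u x = ∑ p_i ‖u_i x u_i* - x‖₂²` (for a symmetric family this is `2 e(x)`).
`stp_cen`: `u_i e_k u_i* = spr (u_i x u_i*) ((k+1)δ)` (`spr_conj`), `stp_level` for `u_i x u_i*`, `x`.
`LL_fam`, `LW_fam`: sum `stp_cen` and let `δ → 0` (`S = stp x δ m → x` in norm).
-/

open Filter Topology

namespace Pool.Agent.PTH

open TrAlg

variable {N : Type*} [CStarAlgebra N]

/-- `∑ p_i ‖u_i x u_i* - x‖₂²`. -/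
noncomputable def cen [TrAlg N] {ι : Type*} [Fintype ι] (p : ι → ℝ) (u : ι → N) (x : N) : ℝ :=
  ∑ i, p i * two (u i * x * star (u i) - x) ^ 2

section basic

variable [TrAlg N] {ι : Type*} [Fintype ι] {p : ι → ℝ} {u : ι → N}

theorem cen_nonneg (hp : ∀ i, 0 ≤ p i) (x : N) : 0 ≤ cen p u x :=
  Finset.sum_nonneg fun i _ => mul_nonneg (hp i) (sq_nonneg _)

theorem cen_zero : cen p u (0 : N) = 0 := by
  unfold cen
  simp [two_zero]

/-- Cauchy-Schwarz: `∑ p_i ‖u_i x u_i* - x‖₂ ≤ cen^{1/2}`. -/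
theorem sum_le_sqrt_cen (hp : ∀ i, 0 ≤ p i) (hs : ∑ i, p i = 1) (x : N) :
    ∑ i, p i * two (u i * x * star (u i) - x) ≤ Real.sqrt (cen p u x) := by
  refine Real.le_sqrt_of_sq_le ?_
  have h1 := Finset.sum_mul_sq_le_sq_mul_sq Finset.univ (fun i => Real.sqrt (p i))
    (fun i => Real.sqrt (p i) * two (u i * x * star (u i) - x))
  have e1 : ∀ i, Real.sqrt (p i) * (Real.sqrt (p i) * two (u i * x * star (u i) - x)) =
      p i * two (u i * x * star (u i) - x) := fun i => by
    rw [← mul_assoc, Real.mul_self_sqrt (hp i)]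
  have e2 : ∀ i, Real.sqrt (p i) ^ 2 = p i := fun i => Real.sq_sqrt (hp i)
  simp only [e1, mul_pow, e2, hs, one_mul] at h1
  exact h1

theorem two_conj {v : N} (hv : star v * v = 1) (x : N) : two (v * x * star v) = two x := by
  rw [two_mul_unitary (by rw [star_star]; exact hv), two_unitary_mul hv]

theorem abs_cen_sub_le (hp : ∀ i, 0 ≤ p i) (hs : ∑ i, p i = 1)
    (hu : ∀ i, star (u i) * u i = 1) (x y : N) :
    |cen p u x - cen p u y| ≤ 4 * (two (x - y) * (two x + two y)) := by
  have h : ∀ i, |two (u i * x * star (u i) - x) ^ 2 - two (u i * y * star (u i) - y) ^ 2| ≤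
      4 * (two (x - y) * (two x + two y)) := fun i => by
    set a := two (u i * x * star (u i) - x)
    set b := two (u i * y * star (u i) - y)
    have hab : |a - b| ≤ 2 * two (x - y) := by
      refine (abs_two_sub_two_le _ _).trans ?_
      have e : u i * x * star (u i) - x - (u i * y * star (u i) - y) =
          u i * (x - y) * star (u i) - (x - y) := by noncomm_ring
      rw [e]
      refine (two_sub_le _ _).trans ?_
      rw [two_conj (hu i)]
      linarith
    have ha : a ≤ 2 * two x := by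
      refine (two_sub_le _ _).trans ?_
      rw [two_conj (hu i)]
      linarith
    have hb : b ≤ 2 * two y := by
      refine (two_sub_le _ _).trans ?_
      rw [two_conj (hu i)]
      linarith
    have ha0 : 0 ≤ a := two_nonneg _
    have hb0 : 0 ≤ b := two_nonneg _
    have e : a ^ 2 - b ^ 2 = (a - b) * (a + b) := by ring
    rw [e, abs_mul, abs_of_nonneg (add_nonneg ha0 hb0)]
    calc |a - b| * (a + b) ≤ (2 * two (x - y)) * (2 * two x + 2 * two y) :=
          mul_le_mul hab (add_le_add ha hb) (add_nonneg ha0 hb0)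
            (mul_nonneg (by norm_num) (two_nonneg _))
      _ = 4 * (two (x - y) * (two x + two y)) := by ring
  unfold cen
  rw [← Finset.sum_sub_distrib]
  refine (Finset.abs_sum_le_sum_abs _ _).trans ?_
  calc ∑ i, |p i * two (u i * x * star (u i) - x) ^ 2 - p i * two (u i * y * star (u i) - y) ^ 2|
      ≤ ∑ i, p i * (4 * (two (x - y) * (two x + two y))) := by
        refine Finset.sum_le_sum fun i _ => ?_
        rw [← mul_sub, abs_mul, abs_of_nonneg (hp i)]
        exact mul_le_mul_of_nonneg_left (h i) (hp i)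
    _ = 4 * (two (x - y) * (two x + two y)) := by rw [← Finset.sum_mul, hs, one_mul]

end basic

section level

variable [PartialOrder N] [StarOrderedRing N] [TracialVN N]
variable {ι : Type*} [Fintype ι] {p : ι → ℝ} {u : ι → N}

theorem stp_cen (hp : ∀ i, 0 ≤ p i) (hs : ∑ i, p i = 1) (hu : ∀ i, star (u i) * u i = 1)
    (hu' : ∀ i, u i * star (u i) = 1) {x : N} (hx : IsSelfAdjoint x) {δ : ℝ} (hδ : 0 ≤ δ) (m : ℕ) :
    ∑ k ∈ Finset.range m, (δ ^ 2 * (2 * (k : ℝ) + 1)) * cen p u (spr x (((k : ℝ) + 1) * δ)) ≤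
      2 * (two (stp x δ m) * Real.sqrt (cen p u (stp x δ m))) := by
  have h1 : ∀ i, ∑ k ∈ Finset.range m, (δ ^ 2 * (2 * (k : ℝ) + 1)) *
      two (u i * spr x (((k : ℝ) + 1) * δ) * star (u i) - spr x (((k : ℝ) + 1) * δ)) ^ 2 ≤
      2 * (two (stp x δ m) * two (u i * stp x δ m * star (u i) - stp x δ m)) := fun i => by
    have h2 := stp_level (u i * x * star (u i)) x hδ m
    simp only [spr_conj (hu i) (hu' i) hx, stp_conj (hu i) (hu' i) hx] at h2
    refine h2.trans ?_
    have h3 : two (u i * stp x δ m * star (u i) + stp x δ m) ≤ 2 * two (stp x δ m) := by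
      refine (two_add_le _ _).trans ?_
      rw [two_conj (hu i)]
      linarith
    calc _ ≤ two (u i * stp x δ m * star (u i) - stp x δ m) * (2 * two (stp x δ m)) :=
          mul_le_mul_of_nonneg_left h3 (two_nonneg _)
      _ = _ := by ring
  have e : ∑ k ∈ Finset.range m, (δ ^ 2 * (2 * (k : ℝ) + 1)) *
      cen p u (spr x (((k : ℝ) + 1) * δ)) = ∑ i, p i * ∑ k ∈ Finset.range m,
        (δ ^ 2 * (2 * (k : ℝ) + 1)) *
        two (u i * spr x (((k : ℝ) + 1) * δ) * star (u i) - spr x (((k : ℝ) + 1) * δ)) ^ 2 := by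
    unfold cen
    simp only [Finset.mul_sum]
    rw [Finset.sum_comm]
    refine Finset.sum_congr rfl fun i _ => Finset.sum_congr rfl fun k _ => ?_
    ring
  rw [e]
  calc _ ≤ ∑ i, p i * (2 * (two (stp x δ m) * two (u i * stp x δ m * star (u i) - stp x δ m))) :=
        Finset.sum_le_sum fun i _ => mul_le_mul_of_nonneg_left (h1 i) (hp i)
    _ = 2 * (two (stp x δ m) * ∑ i, p i * two (u i * stp x δ m * star (u i) - stp x δ m)) := by
        simp only [Finset.mul_sum]
        refine Finset.sum_congr rfl fun i _ => ?_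
        ring
    _ ≤ _ := by
        refine mul_le_mul_of_nonneg_left ?_ (by norm_num)
        exact mul_le_mul_of_nonneg_left (sum_le_sqrt_cen hp hs _) (two_nonneg _)

/-- The approximations `stp x (1/(n+1)) (K (n+1))` with `K ≥ ‖x‖`. -/
theorem stp_approx {x : N} (hx : 0 ≤ x) : ∃ K : ℕ, ‖x‖ ≤ K ∧ ∀ n : ℕ,
    ‖stp x (1 / ((n : ℝ) + 1)) (K * (n + 1)) - x‖ ≤ 1 / ((n : ℝ) + 1) := by
  obtain ⟨K, hK⟩ := exists_nat_ge ‖x‖
  refine ⟨K, hK, fun n => norm_stp_sub_le hx (by positivity) ?_⟩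
  have e : ((K * (n + 1) : ℕ) : ℝ) * (1 / ((n : ℝ) + 1)) = K := by
    push_cast
    field_simp
  rw [e]
  exact (le_norm_smul_one (IsSelfAdjoint.of_nonneg hx)).trans
    (smul_le_smul_of_nonneg_right hK zero_le_one)

theorem stp_approx_tendsto {x : N} {K : ℕ} (hK : ∀ n : ℕ,
    ‖stp x (1 / ((n : ℝ) + 1)) (K * (n + 1)) - x‖ ≤ 1 / ((n : ℝ) + 1)) :
    Tendsto (fun n : ℕ => stp x (1 / ((n : ℝ) + 1)) (K * (n + 1))) atTop (𝓝 x) := by
  rw [tendsto_iff_norm_sub_tendsto_zero]
  exact squeeze_zero (fun _ => norm_nonneg _) hK tendsto_one_div_add_atTop_nhds_zero_nat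

theorem continuous_two : Continuous (two : N → ℝ) := by
  refine continuous_iff_continuousAt.2 fun x => ?_
  rw [ContinuousAt, tendsto_iff_norm_sub_tendsto_zero]
  have h : Tendsto (fun y : N => ‖y - x‖) (𝓝 x) (𝓝 0) :=
    tendsto_iff_norm_sub_tendsto_zero.1 tendsto_id
  refine squeeze_zero (fun _ => norm_nonneg _) (fun y => ?_) h
  rw [Real.norm_eq_abs]
  exact (abs_two_sub_two_le _ _).trans (two_le_norm _)

theorem continuous_cen : Continuous (cen p u : N → ℝ) := by
  unfold cen
  have := continuous_two (N := N)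
  fun_prop

theorem continuous_rt : Continuous (rt : N → ℝ) := by
  refine continuous_iff_continuousAt.2 fun x => ?_
  rw [ContinuousAt, tendsto_iff_norm_sub_tendsto_zero]
  have h : Tendsto (fun y : N => ‖y - x‖) (𝓝 x) (𝓝 0) :=
    tendsto_iff_norm_sub_tendsto_zero.1 tendsto_id
  refine squeeze_zero (fun _ => norm_nonneg _) (fun y => ?_) h
  rw [Real.norm_eq_abs, ← rt_sub]
  exact (abs_rt_le _).trans (two_le_norm _)

end level

end Pool.Agent.PTH
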