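import Pool.Agent.PTH.RgMain

/-! # PTH: the region theorem (sections 5, 6 of t517_v2.md) -/

open Filter Topology
open scoped InnerProductSpace ComplexOrder

universe u

namespace Pool.Agent.PTH

/-- REGION THEOREM. -/
theorem region (c ε' e1 e' : ℝ) (hc : 0 < c) (hc1 : c < 1) (hε' : 0 < ε') (he1 : 0 < e1)
    (he' : 0 < e') :
    ∃ δb > 0, ∃ k0 : ℕ, ∀ k ≥ k0, ∃ κ1 > (0 : ℝ),
      ∀ (A : Type u) [CStarAlgebra A] [PartialOrder A] [StarOrderedRing A] [TracialVN A]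
        (a : Avg A) (h b : A), 0 ≤ h → GI a h c → 0 ≤ b → b ≤ 1 →
        (∀ i, ‖a.u i * b - b * a.u i‖ ≤ δb) →
        (∀ j ≤ k, (1 - spr b (3 / 4)) * (a.T ^ j) h * (1 - spr b (3 / 4)) ≤
          κ1 • (1 - spr b (3 / 4))) →
        ε' ≤ rt (1 - spr b (1 / 8)) →
        ∃ Y : A, Prj Y ∧ (1 - spr b (3 / 4)) * Y = Y ∧ ε' / 2 ≤ rt Y ∧ a.en Y ≤ e1 * rt Y ∧
          HG a Y (c / 64) e' := by
  obtain ⟨δb, hδ, k0, κ1, hκ, H⟩ := region_main.{u} c ε' e1 e' hc hc1 hε' he1 he'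
  refine ⟨δb, hδ, k0, fun k hk => ⟨κ1, hκ, ?_⟩⟩
  intro A _ _ _ _ a h b h1 h2 h3 h4 h5 h6 h7
  exact H A a h b h1 h2 h3 h4 h5 (fun j hj => h6 j (hj.trans hk)) h7

end Pool.Agent.PTH
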