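import Pool.Agent.PTH.Mas
import Pool.Agent.PTH.Rbp

/-!
# PTH / Wgt: the weights are large enough for the hitting lemma (copy of `Pool/Agent/PSK/Wgt.lean`)

For `p ∈ AP δ N`, `j = Nat.log 2 p < Nat.log 2 (hd δ N) + 1`, `p ∈ RP j`, and `2^(j+1) > p ≥ zz N` gives
`j + 1 ≥ log (zz N) ≥ 0.14 log N`; for `p ∈ AP ∩ RP j`: `1/p ≤ 2^(-j)`.  So the sum is
`≥ (C1/C)(0.14 log N)^2 ∑_{p ∈ AP} 1/p ≥ (C1/C)(0.14)^2 c log N ≥ 2 log N` for large `C1`.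
(`p ∈ AP ∩ RP j` may occur for two `j` if `p` is a power of two, i.e. `p = 2`; only an inequality is needed.)
-/

set_option autoImplicit false

namespace Pool.Agent.PTH

open Finset Filter

/-- One dyadic block. -/
theorem term_ge {C : ℝ} (hC : 0 < C)
    (hcard : ∀ j : ℕ, ((RP j).card : ℝ) ≤ C * 2 ^ j / (j + 1))
    (C1 : ℕ) (AN : Finset ℕ) (j : ℕ) (w : ℝ) (hw0 : 0 ≤ w)
    (hw : ∀ m ∈ AN ∩ RP j, w ≤ (j : ℝ) + 1) :
    C1 * w ^ 2 / C * ∑ m ∈ AN ∩ RP j, 1 / (m : ℝ) ≤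
      ((C1 * (j + 1) : ℕ) : ℝ) * ((AN ∩ RP j).card : ℝ) / ((RP j).card : ℝ) := by
  have hR0 : (0 : ℝ) < (RP j).card := by exact_mod_cast card_pos.2 (RP_nonempty j)
  rcases (AN ∩ RP j).eq_empty_or_nonempty with h | ⟨m0, hm0⟩
  · rw [h]
    simp
  have hwj := hw m0 hm0
  have hj1 : (0 : ℝ) < (j : ℝ) + 1 := by positivity
  have h2j : (0 : ℝ) < 2 ^ j := by positivity
  have hsum : ∑ m ∈ AN ∩ RP j, 1 / (m : ℝ) ≤ ((AN ∩ RP j).card : ℝ) / 2 ^ j := by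
    rw [div_eq_mul_one_div ((AN ∩ RP j).card : ℝ), ← nsmul_eq_mul]
    refine sum_le_card_nsmul _ _ _ fun m hm => ?_
    have h1 := (mem_inter.1 hm).2
    unfold RP at h1
    have h2 := (mem_Icc.1 (mem_filter.1 h1).1).1
    refine one_div_le_one_div_of_le h2j ?_
    exact_mod_cast h2
  have hn0 : (0 : ℝ) ≤ ((AN ∩ RP j).card : ℝ) := Nat.cast_nonneg _
  have hC1 : (0 : ℝ) ≤ (C1 : ℝ) := Nat.cast_nonneg _
  push_cast
  calc C1 * w ^ 2 / C * ∑ m ∈ AN ∩ RP j, 1 / (m : ℝ)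
      ≤ C1 * ((j : ℝ) + 1) ^ 2 / C * (((AN ∩ RP j).card : ℝ) / 2 ^ j) := by
        gcongr
    _ = ((C1 : ℝ) * ((j : ℝ) + 1)) * ((AN ∩ RP j).card : ℝ) / (C * 2 ^ j / (j + 1)) := by
        field_simp
    _ ≤ ((C1 : ℝ) * ((j : ℝ) + 1)) * ((AN ∩ RP j).card : ℝ) / ((RP j).card : ℝ) := by
        gcongr
        exact hcard j

theorem weights_ge : ∃ (δ : ℝ) (C1 N0 : ℕ), 0 < δ ∧ δ ≤ 1 / 100000 ∧ 1 ≤ C1 ∧ 2 ≤ N0 ∧
    ∀ N : ℕ, N0 ≤ N → (∀ q ∈ PSK.JH N (hd δ N), ¬ q.Prime) →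
    2 * Real.log N ≤ ∑ j ∈ range (Nat.log 2 (hd δ N) + 1),
      ((C1 * (j + 1) : ℕ) : ℝ) * ((AP δ N ∩ RP j).card : ℝ) / ((RP j).card : ℝ) := by
  obtain ⟨C, hC, hcard⟩ := card_RP_le
  obtain ⟨δ, c, hδ, hδ1, hc, hmass⟩ := mass
  obtain ⟨N1, hN1⟩ := eventually_atTop.1 hmass
  refine ⟨δ, ⌈2 * C / (c * (29 / 400) ^ 2)⌉₊ + 1, max 2 N1, hδ, hδ1, by omega, le_max_left _ _,
    fun N hN hno => ?_⟩
  set C1 : ℕ := ⌈2 * C / (c * (29 / 400) ^ 2)⌉₊ + 1 with hC1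
  have hC1' : 2 * C / (c * (29 / 400) ^ 2) ≤ (C1 : ℝ) := by
    rw [hC1]
    push_cast
    have := Nat.le_ceil (2 * C / (c * (29 / 400) ^ 2))
    linarith
  have hm2 := hN1 N ((le_max_right _ _).trans hN) hno
  have hN2 : 2 ≤ N := (le_max_left _ _).trans hN
  have hN2' : (2 : ℝ) ≤ N := by exact_mod_cast hN2
  have hlog : 0 < Real.log N := Real.log_pos (by linarith)
  -- membership
  have hmem : ∀ p ∈ AP δ N, ∃ j ∈ range (Nat.log 2 (hd δ N) + 1), p ∈ RP j := by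
    intro p hp
    rw [mem_AP] at hp
    obtain ⟨h1, h2, -, -⟩ := hp
    have hp0 : p ≠ 0 := h2.ne_zero
    refine ⟨Nat.log 2 p, mem_range.2 ?_, ?_⟩
    · have := Nat.log_mono_right (b := 2) (show p ≤ hd δ N by omega)
      omega
    · unfold RP
      exact mem_filter.2 ⟨mem_Icc.2 ⟨Nat.pow_log_le_self 2 hp0,
        (Nat.lt_pow_succ_log_self (by norm_num) p).le⟩, h2⟩
  have hsum : ∑ m ∈ AP δ N, 1 / (m : ℝ) ≤
      ∑ j ∈ range (Nat.log 2 (hd δ N) + 1), ∑ m ∈ AP δ N ∩ RP j, 1 / (m : ℝ) := by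
    have h1 : ∀ j, ∑ m ∈ AP δ N ∩ RP j, 1 / (m : ℝ)
        = ∑ m ∈ AP δ N, if m ∈ RP j then 1 / (m : ℝ) else 0 := by
      intro j
      rw [← sum_filter, filter_mem_eq_inter]
    rw [sum_congr rfl fun j _ => h1 j, sum_comm]
    refine sum_le_sum fun m hm => ?_
    obtain ⟨j, hj, hmj⟩ := hmem m hm
    have h2 : (1 : ℝ) / m = if m ∈ RP j then 1 / (m : ℝ) else 0 := by rw [if_pos hmj]
    refine h2.le.trans ?_
    refine single_le_sum (f := fun j => if m ∈ RP j then 1 / (m : ℝ) else 0)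
      (fun i _ => ?_) hj
    split_ifs
    · positivity
    · exact le_rfl
  have hterm : ∀ j ∈ range (Nat.log 2 (hd δ N) + 1),
      C1 * (29 / 400 * Real.log N) ^ 2 / C * ∑ m ∈ AP δ N ∩ RP j, 1 / (m : ℝ) ≤
      ((C1 * (j + 1) : ℕ) : ℝ) * ((AP δ N ∩ RP j).card : ℝ) / ((RP j).card : ℝ) := by
    intro j _
    refine term_ge hC hcard C1 _ j _ (by positivity) ?_
    intro m hm
    rw [mem_inter, mem_AP] at hm
    obtain ⟨⟨h1, h2, h3, -⟩, h4⟩ := hm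
    unfold RP at h4
    have h6 := (mem_Icc.1 (mem_filter.1 h4).1).2
    have h8 : (N : ℝ) ^ (29 / 200 : ℝ) < (m : ℝ) + 1 := by
      have h9 : (N : ℝ) ^ (29 / 200 : ℝ) < (zz N : ℝ) + 1 := by
        unfold zz
        exact Nat.lt_floor_add_one _
      have h10 : (zz N : ℝ) ≤ m := by exact_mod_cast h3
      linarith
    have h9 : (m : ℝ) + 1 ≤ 2 ^ (j + 2) := by
      have h7 : m + 1 ≤ 2 ^ (j + 2) := by
        have : 1 ≤ 2 ^ (j + 1) := Nat.one_le_two_pow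
        rw [show j + 2 = (j + 1) + 1 by omega, pow_succ 2 (j + 1)]
        omega
      exact_mod_cast h7
    have h10 : Real.log ((N : ℝ) ^ (29 / 200 : ℝ)) ≤ Real.log (2 ^ (j + 2)) :=
      Real.log_le_log (by positivity) (by linarith)
    rw [Real.log_rpow (by linarith), Real.log_pow] at h10
    have h11 := Real.log_two_lt_d9
    have h12 : (0 : ℝ) ≤ ((j + 2 : ℕ) : ℝ) := Nat.cast_nonneg _
    have h13 : ((j + 2 : ℕ) : ℝ) * Real.log 2 ≤ ((j + 2 : ℕ) : ℝ) * (7 / 10) :=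
      mul_le_mul_of_nonneg_left (by linarith) h12
    push_cast at *
    have hj0 : (0 : ℝ) ≤ j := Nat.cast_nonneg _
    linarith
  calc 2 * Real.log N = (2 * C / (c * (29 / 400) ^ 2)) * (29 / 400 * Real.log N) ^ 2 / C *
        (c / Real.log N) := by
        field_simp
    _ ≤ C1 * (29 / 400 * Real.log N) ^ 2 / C * (c / Real.log N) := by
        gcongr
    _ ≤ C1 * (29 / 400 * Real.log N) ^ 2 / C *
          ∑ j ∈ range (Nat.log 2 (hd δ N) + 1), ∑ m ∈ AP δ N ∩ RP j, 1 / (m : ℝ) :=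
        mul_le_mul_of_nonneg_left (hm2.trans hsum) (by positivity)
    _ = ∑ j ∈ range (Nat.log 2 (hd δ N) + 1), C1 * (29 / 400 * Real.log N) ^ 2 / C *
          ∑ m ∈ AP δ N ∩ RP j, 1 / (m : ℝ) := by rw [mul_sum]
    _ ≤ _ := sum_le_sum hterm

end Pool.Agent.PTH
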